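import Pool.Agent.FGT.AlDef
import Pool.Agent.BEO.FrmSym
import Pool.Agent.EPH.LRot

/-!
# FGT-AlF: values of the form
-/

set_option autoImplicit false

open Finset
open scoped Classical

namespace Pool.Agent.FGT

open Pool.Agent.Helper35.OG (Flag GMap across side)
open Pool.Agent.BEO (F2 ed rp cyc ev bdF nb)
open Pool.Agent.Helper35.OG (IsBand)
open Pool.Agent.BEO (frm IsL dL)
open Pool.Agent.EPH (IsBase cf)

variable {V : Type} {G : SimpleGraph V} [Fintype V]

omit [Fintype V] in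
private theorem alf_fst (p : Flag G) : p.1.fst ∈ (ed p).1 := Sym2.mem_mk_left _ _

omit [Fintype V] in
private theorem alf_snd (p : Flag G) : p.1.snd ∈ (ed p).1 := Sym2.mem_mk_right _ _

/-- a potential which vanishes at the vertices without edges of `z` -/
private theorem alf_L (M : GMap G) (z : cyc G) : ∃ L, IsL M z.1 L ∧
    ∀ p : Flag G, (∀ e : G.edgeSet, p.1.fst ∈ e.1 → z.1 e = 0) → L p = 0 := by
  obtain ⟨L, hL⟩ := Pool.Agent.BEO.exists_L M z.1 z.2
  refine ⟨fun p => if ∀ e : G.edgeSet, p.1.fst ∈ e.1 → z.1 e = 0 then 0 else L p, ⟨fun p => ?_, fun p => ?_⟩,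
    fun p hp => if_pos hp⟩
  · show (if ∀ e : G.edgeSet, (M.nxt p).1.fst ∈ e.1 → z.1 e = 0 then 0 else L (M.nxt p)) =
      if ∀ e : G.edgeSet, p.1.fst ∈ e.1 → z.1 e = 0 then 0 else L p
    rw [M.nxt_fst, hL.1]
  · show (if ∀ e : G.edgeSet, p.1.fst ∈ e.1 → z.1 e = 0 then 0 else L p) +
      (if ∀ e : G.edgeSet, p.1.fst ∈ e.1 → z.1 e = 0 then 0 else L (side p)) = z.1 (ed p)
    by_cases h : ∀ e : G.edgeSet, p.1.fst ∈ e.1 → z.1 e = 0
    · rw [if_pos h, if_pos h, h (ed p) (alf_fst p), add_zero]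
    · rw [if_neg h, if_neg h]
      exact hL.2 p

private theorem alf_dL (z : cyc G) {L : Flag G → F2}
    (hL0 : ∀ p : Flag G, (∀ e : G.edgeSet, p.1.fst ∈ e.1 → z.1 e = 0) → L p = 0) (e : G.edgeSet)
    (h : ∀ (u : V) (e0 : G.edgeSet), u ∈ e.1 → u ∈ e0.1 → z.1 e0 = 0) : dL L e = 0 := by
  have h1 : (rp e).1.fst ∈ e.1 := by
    have h2 := alf_fst (rp e)
    rwa [Pool.Agent.BEO.ed_rp] at h2
  have h3 : (across (rp e)).1.fst ∈ e.1 := by
    have h2 := alf_snd (rp e)
    rwa [Pool.Agent.BEO.ed_rp] at h2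
  show L (rp e) + L (across (rp e)) = 0
  rw [hL0 (rp e) (fun e0 he0 => h _ e0 h1 he0), hL0 (across (rp e)) (fun e0 he0 => h _ e0 h3 he0), add_zero]

theorem frm_far (M : GMap G) (z z' : cyc G)
    (h : ∀ (u : V) (e e' : G.edgeSet), u ∈ e.1 → u ∈ e'.1 → z.1 e = 0 ∨ z'.1 e' = 0) : frm M z z' = 0 := by
  obtain ⟨L, hL, hL0⟩ := alf_L M z
  rw [Pool.Agent.BEO.frm_eq M z z' hL]
  refine Finset.sum_eq_zero fun e _ => ?_
  by_cases he : z'.1 e = 0
  · rw [he, mul_zero]
  · rw [alf_dL z hL0 e, zero_mul]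
    intro u e0 hu hu0
    exact (h u e0 e hu0 hu).resolve_right he

private theorem alf_ne (M : GMap G) {b : V → Flag G} (hb : IsBase b) (v : V) {i j : ℕ} (hi : i < (nb G v).card)
    (hj : j < (nb G v).card) (h : ed (cf M b v i) = ed (cf M b v j)) : i = j := by
  have h1 : (cf M b v i).1.edge = (cf M b v j).1.edge := congrArg Subtype.val h
  rcases (SimpleGraph.dart_edge_eq_iff _ _).1 h1 with h2 | h2
  · exact Pool.Agent.EPH.ed_cf_inj M hb v hi hj h2
  · exfalso
    have h3 : (cf M b v i).1.fst = (cf M b v j).1.snd := congrArg (fun d : G.Dart => d.fst) h2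
    rw [Pool.Agent.EPH.cf_fst M hb] at h3
    have h4 := (cf M b v j).1.adj
    have h5 : (cf M b v j).1.fst = v := Pool.Agent.EPH.cf_fst M hb v j
    exact h4.ne (h5.trans h3)

theorem frm_near (M : GMap G) (b : V → Flag G) (hb : IsBase b) (v : V) (z z' : cyc G)
    (h : ∀ (u : V) (e e' : G.edgeSet), u ≠ v → u ∈ e.1 → u ∈ e'.1 → z.1 e = 0 ∨ z'.1 e' = 0) (i j : ℕ) (hij : i < j)
    (hj : j < (nb G v).card)
    (h' : ∀ t, t < (nb G v).card → z'.1 (ed (cf M b v t)) = if t = i ∨ t = j then 1 else 0) :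
    frm M z z' = ∑ t ∈ Ioc i j, z.1 (ed (cf M b v t)) := by
  have hi : i < (nb G v).card := hij.trans hj
  obtain ⟨L, hL, hL0⟩ := alf_L M z
  rw [Pool.Agent.BEO.frm_eq M z z' hL]
  have hne : ed (cf M b v i) ≠ ed (cf M b v j) := fun h1 => hij.ne (alf_ne M hb v hi hj h1)
  have h0 : ∑ e, dL L e * z'.1 e = ∑ e ∈ ({ed (cf M b v i), ed (cf M b v j)} : Finset G.edgeSet), dL L e * z'.1 e := by
    refine (Finset.sum_subset (subset_univ _) fun e _ he => ?_).symm
    by_cases he' : z'.1 e = 0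
    · rw [he', mul_zero]
    · by_cases hv : v ∈ e.1
      · exfalso
        have h1 : ∃ q : Flag G, ed q = e ∧ q.1.fst = v := by
          have h2 : (ed (rp e)).1 = e.1 := congrArg Subtype.val (Pool.Agent.BEO.ed_rp e)
          have h3 : v ∈ (ed (rp e)).1 := by
            rw [h2]
            exact hv
          rcases Sym2.mem_iff.1 h3 with h4 | h4
          · exact ⟨rp e, Pool.Agent.BEO.ed_rp e, h4.symm⟩
          · exact ⟨across (rp e), (Pool.Agent.BEO.ed_across _).trans (Pool.Agent.BEO.ed_rp e), h4.symm⟩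
        obtain ⟨q, hq, hqv⟩ := h1
        obtain ⟨t, ht, h2⟩ := Pool.Agent.EPH.cf_cover M hb v q hqv
        have h3 : e = ed (cf M b v t) := by
          rcases h2 with h2 | h2
          · rw [← hq, h2]
          · rw [← hq, h2, Pool.Agent.BEO.ed_side]
        have h4 := h' t ht
        rw [← h3] at h4
        by_cases h5 : t = i ∨ t = j
        · refine he ?_
          rw [h3]
          rcases h5 with rfl | rfl
          · exact mem_insert_self _ _
          · exact mem_insert_of_mem (mem_singleton_self _)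
        · rw [if_neg h5] at h4
          exact he' h4
      · rw [alf_dL z hL0 e, zero_mul]
        intro u e0 hu hu0
        have hun : u ≠ v := by
          rintro rfl
          exact hv hu
        exact (h u e0 e hun hu0 hu).resolve_right he'
  have hend : ∀ t, t < (nb G v).card → (t = i ∨ t = j) → dL L (ed (cf M b v t)) * z'.1 (ed (cf M b v t)) =
      L (cf M b v t) := by
    intro t ht hti
    have h1 : z'.1 (ed (cf M b v t)) = 1 := by
      rw [h' t ht, if_pos hti]
    rw [h1, mul_one, Pool.Agent.BEO.dL_eq hL]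
    have h2 : L (across (cf M b v t)) = 0 := by
      refine hL0 _ fun e0 he0 => ?_
      have h3 : (across (cf M b v t)).1.fst = (cf M b v t).1.snd := rfl
      rw [h3] at he0
      have h4 : (cf M b v t).1.snd ≠ v := by
        intro h5
        have h6 := (cf M b v t).1.adj
        exact h6.ne ((Pool.Agent.EPH.cf_fst M hb v t).trans h5.symm)
      refine (h _ e0 (ed (cf M b v t)) h4 he0 (alf_snd _)).resolve_right ?_
      rw [h1]
      exact one_ne_zero
    rw [h2, add_zero]
  rw [h0, Finset.sum_pair hne, hend i hi (Or.inl rfl), hend j hj (Or.inr rfl)]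
  have hstep : ∀ t, L (cf M b v (t + 1)) = L (cf M b v t) + z.1 (ed (cf M b v (t + 1))) := by
    intro t
    have h1 := hL.2 (M.nxt (cf M b v t))
    rw [hL.1] at h1
    rw [Pool.Agent.EPH.cf_succ, Pool.Agent.BEO.ed_side, ← h1, ← add_assoc, CharTwo.add_self_eq_zero, zero_add]
  have hsum : ∀ m, L (cf M b v (i + m)) = L (cf M b v i) + ∑ t ∈ Ioc i (i + m), z.1 (ed (cf M b v t)) := by
    intro m
    induction m with
    | zero => rw [add_zero, Finset.Ioc_self, Finset.sum_empty, add_zero]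
    | succ m ih =>
      rw [← add_assoc, hstep, ih, Finset.sum_Ioc_succ_top (by omega), add_assoc]
  obtain ⟨m, rfl⟩ := Nat.exists_eq_add_of_le hij.le
  rw [hsum m, ← add_assoc, CharTwo.add_self_eq_zero, zero_add]

end Pool.Agent.FGT
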