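import Pool.Agent.FGT.DcDef

/-!
# FGT-SmF: bridges

PLAN. `br_cls`: if both ends of `e` are in `I`, no other edge is related to `e`. Otherwise let `K` be the set of the vertices reachable from an end of `e`
outside `I` by steps `G.Adj x y ∧ y ∉ I`; `brC I e = rk K`. `brc_hcn`: `{e}` is connected; in `rk K` the edges at a vertex of `K` are joined by the
corners at this vertex (`S.conn`), and adjacent vertices of `K` have a common edge. More directly: if `brR I x y` then `x`, `y` are joined by corners
at the common end, whose edges are all related. `mx_sum`: `MX S I` is the disjoint union of the sets `mix B S`, `B ∈ brs I`.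
-/

set_option autoImplicit false

open Finset
open scoped Classical

namespace Pool.Agent.FGT

open Pool.Agent.Helper35.OG (Flag GMap across side)
open Pool.Agent.BEO (F2 ed rp cyc ev bdF nb)

variable {V : Type} {G : SimpleGraph V} [Fintype V]

private theorem inv_eqv {α : Type*} {r : α → α → Prop} {P : α → Prop} (h : ∀ x y, r x y → (P x ↔ P y)) {x y : α}
    (hxy : Relation.EqvGen r x y) : P x ↔ P y := by
  induction hxy with
  | rel x y hr => exact h x y hr
  | refl x => exact Iff.rfl
  | symm x y _ ih => exact ih.symm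
  | trans x y z _ _ ih1 ih2 => exact ih1.trans ih2

private theorem mem_brC (I : Finset V) (e f : G.edgeSet) : f ∈ brC I e ↔ Relation.EqvGen (brR I) e f := by
  simp [brC]

private theorem brC_eq {I : Finset V} {e f : G.edgeSet} (h : Relation.EqvGen (brR I) e f) : brC I e = brC I f := by
  ext x
  rw [mem_brC, mem_brC]
  exact ⟨fun hx => Relation.EqvGen.trans _ _ _ (Relation.EqvGen.symm _ _ h) hx,
    fun hx => Relation.EqvGen.trans _ _ _ h hx⟩

omit [Fintype V] in
private theorem fst_mem (p : Flag G) : p.1.fst ∈ (ed p).1 := by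
  show p.1.fst ∈ p.1.edge
  exact Sym2.mem_mk_left _ _

omit [Fintype V] in
private theorem ex_flag {v : V} (e : G.edgeSet) (h : v ∈ e.1) : ∃ p : Flag G, ed p = e ∧ p.1.fst = v := by
  obtain ⟨w, hw⟩ := Sym2.mem_iff_exists.1 h
  have hadj : G.Adj v w := by
    rw [← SimpleGraph.mem_edgeSet, ← hw]
    exact e.2
  refine ⟨(⟨(v, w), hadj⟩, true), ?_, rfl⟩
  apply Subtype.ext
  exact hw.symm

theorem br_cls (I : Finset V) (e : G.edgeSet) : (brC I e = {e} ∧ ∀ v ∈ e.1, v ∈ I) ∨
    ∃ K : Finset V, K.Nonempty ∧ (∀ u ∈ K, ∀ v ∈ K, Relation.ReflTransGen (fun x y => G.Adj x y ∧ y ∈ K) u v) ∧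
      (∀ v ∈ K, v ∉ I) ∧ (∀ v ∈ K, ∀ w, G.Adj v w → w ∈ K ∨ w ∈ I) ∧ brC I e = rk K := by
  by_cases hI : ∀ v ∈ e.1, v ∈ I
  · left
    refine ⟨?_, hI⟩
    ext f
    rw [mem_brC, Finset.mem_singleton]
    constructor
    · intro h
      have h1 : (fun x => x = e) e ↔ (fun x => x = e) f := by
        refine inv_eqv (r := brR I) (P := fun x => x = e) ?_ h
        intro x y hr
        obtain ⟨v, hv, hx, hy⟩ := hr
        constructor
        · intro h2
          subst h2
          exact absurd (hI v hx) hv
        · intro h2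
          subst h2
          exact absurd (hI v hy) hv
      exact h1.1 rfl
    · rintro rfl
      exact Relation.EqvGen.refl _
  · right
    push Not at hI
    obtain ⟨v0, hv0, hv0I⟩ := hI
    set K : Finset V := univ.filter fun v => Relation.ReflTransGen (fun x y => G.Adj x y ∧ y ∉ I) v0 v with hK
    have memK : ∀ v, v ∈ K ↔ Relation.ReflTransGen (fun x y => G.Adj x y ∧ y ∉ I) v0 v := by
      intro v
      simp [hK]
    have hKI : ∀ v ∈ K, v ∉ I := by
      intro v hv
      rw [memK] at hv
      cases hv with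
      | refl => exact hv0I
      | tail _ h => exact h.2
    have hstep : ∀ v ∈ K, ∀ w, G.Adj v w → w ∈ K ∨ w ∈ I := by
      intro v hv w hw
      by_cases hwI : w ∈ I
      · right
        exact hwI
      · left
        rw [memK] at hv ⊢
        exact hv.tail ⟨hw, hwI⟩
    have hv0K : v0 ∈ K := (memK v0).2 Relation.ReflTransGen.refl
    have hto : ∀ v, Relation.ReflTransGen (fun x y => G.Adj x y ∧ y ∉ I) v0 v →
        Relation.ReflTransGen (fun x y => G.Adj x y ∧ y ∈ K) v0 v ∧
        Relation.ReflTransGen (fun x y => G.Adj x y ∧ y ∈ K) v v0 := by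
      intro v hv
      induction hv with
      | refl => exact ⟨Relation.ReflTransGen.refl, Relation.ReflTransGen.refl⟩
      | @tail b c hb hbc ih =>
        have hbK : b ∈ K := (memK b).2 hb
        have hcK : c ∈ K := (memK c).2 (hb.tail hbc)
        exact ⟨ih.1.tail ⟨hbc.1, hcK⟩, Relation.ReflTransGen.head ⟨hbc.1.symm, hbK⟩ ih.2⟩
    refine ⟨K, ⟨v0, hv0K⟩, ?_, hKI, hstep, ?_⟩
    · intro u hu v hv
      exact (hto u ((memK u).1 hu)).2.trans (hto v ((memK v).1 hv)).1
    · ext f
      rw [mem_brC]
      constructor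
      · intro h
        have h1 : (∃ v ∈ K, v ∈ e.1) ↔ (∃ v ∈ K, v ∈ f.1) := by
          refine inv_eqv (r := brR I) (P := fun x : G.edgeSet => ∃ v ∈ K, v ∈ x.1) ?_ h
          have key : ∀ x y : G.edgeSet, brR I x y → (∃ v ∈ K, v ∈ x.1) → (∃ v ∈ K, v ∈ y.1) := by
            intro x y hr hx
            obtain ⟨v, hv, hvx, hvy⟩ := hr
            obtain ⟨w, hwK, hwx⟩ := hx
            refine ⟨v, ?_, hvy⟩
            by_cases hvw : w = v
            · rw [← hvw]
              exact hwK
            · have h2 : x.1 = s(w, v) := (Sym2.mem_and_mem_iff hvw).1 ⟨hwx, hvx⟩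
              have hadj : G.Adj w v := by
                rw [← SimpleGraph.mem_edgeSet, ← h2]
                exact x.2
              rcases hstep w hwK v hadj with h3 | h3
              · exact h3
              · exact absurd h3 hv
          intro x y hr
          refine ⟨key x y hr, key y x ?_⟩
          obtain ⟨v, hv, hvx, hvy⟩ := hr
          exact ⟨v, hv, hvy, hvx⟩
        obtain ⟨v, hv, hvf⟩ := h1.1 ⟨v0, hv0K, hv0⟩
        simp only [rk, Finset.mem_filter, Finset.mem_univ, true_and]
        exact ⟨v, hv, hvf⟩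
      · intro h
        simp only [rk, Finset.mem_filter, Finset.mem_univ, true_and] at h
        obtain ⟨v, hv, hvf⟩ := h
        rw [memK] at hv
        have key : ∀ v, Relation.ReflTransGen (fun x y => G.Adj x y ∧ y ∉ I) v0 v →
            ∀ f : G.edgeSet, v ∈ f.1 → Relation.EqvGen (brR I) e f := by
          intro v hv
          induction hv with
          | refl =>
            intro f hf
            exact Relation.EqvGen.rel _ _ ⟨v0, hv0I, hv0, hf⟩
          | @tail b c hb hbc ih =>
            intro f hf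
            have h1 := ih ⟨s(b, c), hbc.1⟩ (Sym2.mem_mk_left b c)
            exact Relation.EqvGen.trans _ _ _ h1 (Relation.EqvGen.rel _ _ ⟨c, hbc.2, Sym2.mem_mk_right b c, hf⟩)
        exact key v hv f hvf

private theorem mem_brs {I : Finset V} {A : Finset G.edgeSet} (h : A ∈ brs I) {e : G.edgeSet} (he : e ∈ A) :
    A = brC I e := by
  simp only [brs, Finset.mem_image, Finset.mem_univ, true_and] at h
  obtain ⟨x, rfl⟩ := h
  rw [mem_brC] at he
  exact brC_eq he

private theorem self_brC (I : Finset V) (e : G.edgeSet) : e ∈ brC I e := by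
  rw [mem_brC]
  exact Relation.EqvGen.refl _

private theorem brC_mem (I : Finset V) (e : G.edgeSet) : brC I e ∈ brs I := by
  simp only [brs, Finset.mem_image, Finset.mem_univ, true_and]
  exact ⟨e, rfl⟩

private theorem mem_mx {S : GMap G} {A : Finset G.edgeSet} {p : Flag G} : p ∈ mix A S ↔ ed p ∈ A ∧ ed (S.nxt p) ∉ A := by
  simp [mix]

theorem ptn_brs (S : GMap G) (I : Finset V) : Ptn S (brs I) I := by
  refine ⟨?_, ?_, ?_, ?_, ?_⟩
  · intro A hA
    simp only [brs, Finset.mem_image, Finset.mem_univ, true_and] at hA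
    obtain ⟨x, rfl⟩ := hA
    exact ⟨x, self_brC I x⟩
  · intro A hA A' hA' hne
    rw [Finset.disjoint_left]
    intro x hx hx'
    exact hne ((mem_brs hA hx).trans (mem_brs hA' hx').symm)
  · intro e
    exact ⟨brC I e, brC_mem I e, self_brC I e⟩
  · intro A hA e he e' he'
    have hA1 := mem_brs hA he
    have hee : Relation.EqvGen (brR I) e e' := by
      rw [hA1, mem_brC] at he'
      exact he'
    have clos : ∀ x y : G.edgeSet, Relation.EqvGen (brR I) x y → (x ∈ A ↔ y ∈ A) := by
      intro x y hxy
      rw [hA1, mem_brC, mem_brC]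
      exact ⟨fun h => Relation.EqvGen.trans _ _ _ h hxy,
        fun h => Relation.EqvGen.trans _ _ _ h (Relation.EqvGen.symm _ _ hxy)⟩
    have hrel : ∀ x y : G.edgeSet, brR I x y → x ∈ A → Relation.EqvGen
        (fun x y => x ∈ A ∧ y ∈ A ∧ ∃ p : Flag G, ed p = x ∧ ed (S.nxt p) = y) x y := by
      intro x y hr hx
      obtain ⟨v, hv, hvx, hvy⟩ := hr
      obtain ⟨p, hp, hpv⟩ := ex_flag x hvx
      obtain ⟨q, hq, hqv⟩ := ex_flag y hvy
      have hall : ∀ r : Flag G, r.1.fst = v → ed r ∈ A := by
        intro r hr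
        refine (clos x (ed r) (Relation.EqvGen.rel _ _ ⟨v, hv, hvx, ?_⟩)).1 hx
        have := fst_mem r
        rw [hr] at this
        exact this
      have hind : ∀ a b : Flag G, Relation.EqvGen (fun x y => y = S.nxt x ∨ y = side x) a b → (a.1.fst = v ↔ b.1.fst = v) ∧
          (a.1.fst = v → Relation.EqvGen
            (fun x y => x ∈ A ∧ y ∈ A ∧ ∃ p : Flag G, ed p = x ∧ ed (S.nxt p) = y) (ed a) (ed b)) := by
        intro a b hab
        induction hab with
        | rel a b h =>
          rcases h with h | h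
          · subst h
            refine ⟨by rw [S.nxt_fst], ?_⟩
            intro ha
            refine Relation.EqvGen.rel _ _ ⟨hall a ha, hall _ (by rw [S.nxt_fst]; exact ha), a, rfl, rfl⟩
          · subst h
            exact ⟨Iff.rfl, fun _ => Relation.EqvGen.refl _⟩
        | refl a => exact ⟨Iff.rfl, fun _ => Relation.EqvGen.refl _⟩
        | symm a b _ ih => exact ⟨ih.1.symm, fun h => Relation.EqvGen.symm _ _ (ih.2 (ih.1.2 h))⟩
        | trans a b c _ _ ih1 ih2 =>
          exact ⟨ih1.1.trans ih2.1, fun h => Relation.EqvGen.trans _ _ _ (ih1.2 h) (ih2.2 (ih1.1.1 h))⟩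
      have h1 := (hind p q (S.conn p q (by rw [hpv, hqv]))).2 hpv
      rw [hp, hq] at h1
      exact h1
    have hfin : ∀ x y : G.edgeSet, Relation.EqvGen (brR I) x y → x ∈ A → Relation.EqvGen
        (fun x y => x ∈ A ∧ y ∈ A ∧ ∃ p : Flag G, ed p = x ∧ ed (S.nxt p) = y) x y := by
      intro x y hxy
      induction hxy with
      | rel x y h => exact hrel x y h
      | refl x => exact fun _ => Relation.EqvGen.refl _
      | symm x y h ih => exact fun hy => Relation.EqvGen.symm _ _ (ih ((clos x y h).2 hy))
      | trans x y z h1 h2 ih1 ih2 =>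
        exact fun hx => Relation.EqvGen.trans _ _ _ (ih1 hx) (ih2 ((clos x y h1).1 hx))
    exact hfin e e' hee he
  · intro A hA p hp
    by_contra hI
    rw [mem_mx] at hp
    have hA1 := mem_brs hA hp.1
    apply hp.2
    rw [hA1, mem_brC]
    refine Relation.EqvGen.rel _ _ ⟨p.1.fst, hI, fst_mem p, ?_⟩
    have := fst_mem (S.nxt p)
    rw [S.nxt_fst] at this
    exact this

theorem mx_sum (S : GMap G) (I : Finset V) : (MX S I).card = rB S (brs I) := by
  have h1 : MX S I = (brs I).biUnion fun A => mix A S := by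
    ext p
    simp only [MX, Finset.mem_filter, Finset.mem_univ, true_and, Finset.mem_biUnion]
    constructor
    · intro h
      refine ⟨brC I (ed p), brC_mem I _, ?_⟩
      rw [mem_mx, mem_brC, mem_brC]
      exact ⟨Relation.EqvGen.refl _, h⟩
    · rintro ⟨A, hA, hp⟩
      rw [mem_mx] at hp
      intro h
      apply hp.2
      rw [mem_brs hA hp.1, mem_brC]
      exact h
  rw [h1, Finset.card_biUnion]
  · rfl
  · intro A hA B hB hne
    show Disjoint (mix A S) (mix B S)
    rw [Finset.disjoint_left]
    intro p hp hp'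
    rw [mem_mx] at hp hp'
    exact hne ((mem_brs hA hp.1).trans (mem_brs hB hp'.1).symm)

end Pool.Agent.FGT
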