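import Pool.Agent.FGT.DcDef
import Pool.Agent.FGT.SmF

/-!
# FGT-AlP: cycles in a bridge

PLAN. `x ≠ y` are in the bridge, so it is not a single edge: `br_cls` gives `J` with `brC I e = rk J`, and `x = v u`, `y = v u'` with `u, u' ∈ J` (`v ∈ I` is not in `J`). A path in `G` from `u` to `u'`
inside `J` and the edges `x`, `y`: let `z` be the number mod 2 of its passages (the edges of the closed walk `v u .. u' v`, `List.count`, parity at every vertex; or induct on `ReflTransGen`: for every `w ∈ J` there is a
function `z` on the edges with both ends in `J` with odd sum exactly at `u` and `w` (sum `0` everywhere if `w = u`)).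
-/

set_option autoImplicit false

open Finset
open scoped Classical

namespace Pool.Agent.FGT

open Pool.Agent.Helper35.OG (Flag GMap across side)
open Pool.Agent.BEO (F2 ed rp cyc ev bdF nb)

variable {V : Type} {G : SimpleGraph V} [Fintype V]

/-- the sum at a vertex -/
private noncomputable def dsum (z : G.edgeSet → F2) (t : V) : F2 :=
  ∑ d ∈ univ.filter (fun d : G.Dart => d.fst = t), z (ed (d, true))

private theorem dsum_add (z z' : G.edgeSet → F2) (t : V) : dsum (z + z') t = dsum z t + dsum z' t := by
  unfold dsum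
  rw [← Finset.sum_add_distrib]
  rfl

/-- the function of an edge -/
private noncomputable def sg (f : G.edgeSet) : G.edgeSet → F2 := fun g => if g = f then 1 else 0

private theorem dsum_sg (a b : V) (h : G.Adj a b) (f : G.edgeSet) (hf : f.1 = s(a, b)) (t : V) :
    dsum (sg f) t = (if t = a then 1 else 0) + if t = b then 1 else 0 := by
  have hab : a ≠ b := h.ne
  have key : ∀ c d : V, (hcd : G.Adj c d) → f.1 = s(c, d) → dsum (sg f) c = 1 := by
    intro c d hcd hfc
    unfold dsum
    rw [Finset.sum_eq_single (⟨(c, d), hcd⟩ : G.Dart)]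
    · show sg f (ed ((⟨(c, d), hcd⟩ : G.Dart), true)) = 1
      unfold sg
      rw [if_pos]
      apply Subtype.ext
      exact hfc.symm
    · intro e he hne
      show sg f (ed (e, true)) = 0
      unfold sg
      rw [if_neg]
      intro h1
      apply hne
      rw [Finset.mem_filter] at he
      have h2 : s(e.fst, e.snd) = s(c, d) := by
        rw [← hfc, ← h1]
        rfl
      rw [he.2] at h2
      have h3 : e.snd = d := by
        rw [Sym2.eq_iff] at h2
        rcases h2 with h2 | h2
        · exact h2.2
        · exact absurd h2.1 hcd.ne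
      apply SimpleGraph.Dart.ext
      exact Prod.ext he.2 h3
    · intro hn
      exact (hn (Finset.mem_filter.2 ⟨Finset.mem_univ _, rfl⟩)).elim
  by_cases h1 : t = a
  · subst h1
    rw [if_pos rfl, if_neg hab, add_zero]
    exact key t b h hf
  · by_cases h2 : t = b
    · subst h2
      rw [if_neg h1, if_pos rfl, zero_add]
      exact key t a h.symm (hf.trans Sym2.eq_swap)
    · rw [if_neg h1, if_neg h2, add_zero]
      unfold dsum
      refine Finset.sum_eq_zero fun e he => ?_
      rw [Finset.mem_filter] at he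
      unfold sg
      rw [if_neg]
      intro h3
      have h4 : t ∈ (s(a, b) : Sym2 V) := by
        rw [← hf, ← h3, ← he.2]
        exact Sym2.mem_mk_left _ _
      rw [Sym2.mem_iff] at h4
      exact h4.elim h1 h2

private theorem path_fn (J : Finset V) (u : V) (hu : u ∈ J) (w : V)
    (h : Relation.ReflTransGen (fun x y => G.Adj x y ∧ y ∈ J) u w) :
    w ∈ J ∧ ∃ z : G.edgeSet → F2, (∀ f, z f ≠ 0 → ∀ t ∈ f.1, t ∈ J) ∧
      ∀ t, dsum z t = (if t = u then 1 else 0) + if t = w then 1 else 0 := by
  induction h with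
  | refl =>
    refine ⟨hu, 0, fun f hf => absurd rfl hf, fun t => ?_⟩
    rw [CharTwo.add_self_eq_zero]
    unfold dsum
    exact Finset.sum_eq_zero fun _ _ => rfl
  | @tail b c hb hbc ih =>
    obtain ⟨hbJ, z, hz1, hz2⟩ := ih
    refine ⟨hbc.2, z + sg ⟨s(b, c), hbc.1⟩, fun f hf t ht => ?_, fun t => ?_⟩
    · by_cases h1 : z f = 0
      · by_cases h2 : f = ⟨s(b, c), hbc.1⟩
        · rw [h2] at ht
          have h3 : t ∈ (s(b, c) : Sym2 V) := ht
          rw [Sym2.mem_iff] at h3
          rcases h3 with h3 | h3
          · rw [h3]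
            exact hbJ
          · rw [h3]
            exact hbc.2
        · exfalso
          apply hf
          show z f + sg ⟨s(b, c), hbc.1⟩ f = 0
          unfold sg
          rw [h1, if_neg h2, add_zero]
      · exact hz1 f h1 t ht
    · rw [dsum_add, hz2, dsum_sg b c hbc.1 _ rfl t]
      have h5 : ∀ p q r : F2, p + q + (q + r) = p + r := by decide
      exact h5 _ _ _

theorem bridge_cycle (I : Finset V) (e x y : G.edgeSet) (v : V) (hv : v ∈ I) (hx : x ∈ brC I e) (hy : y ∈ brC I e)
    (hvx : v ∈ x.1) (hvy : v ∈ y.1) (hxy : x ≠ y) :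
    ∃ z : cyc G, (∀ f, z.1 f ≠ 0 → f ∈ brC I e) ∧
      ∀ f : G.edgeSet, (∃ u ∈ I, u ∈ f.1) → z.1 f = if f = x ∨ f = y then 1 else 0 := by
  rcases br_cls I e with ⟨h1, _⟩ | ⟨J, _, hconn, hJI, _, hbr⟩
  · rw [h1, Finset.mem_singleton] at hx hy
    exact absurd (hx.trans hy.symm) hxy
  · have hend : ∀ g : G.edgeSet, g ∈ brC I e → v ∈ g.1 → ∃ u ∈ J, ∃ _ : G.Adj v u, g.1 = s(v, u) := by
      intro g hg hvg
      rw [hbr] at hg
      have hg2 := (Finset.mem_filter.1 hg).2
      obtain ⟨u, huJ, hug⟩ := hg2
      have hne : v ≠ u := by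
        rintro rfl
        exact hJI v huJ hv
      have h2 : g.1 = s(v, u) := (Sym2.mem_and_mem_iff hne).1 ⟨hvg, hug⟩
      refine ⟨u, huJ, ?_, h2⟩
      rw [← SimpleGraph.mem_edgeSet, ← h2]
      exact g.2
    obtain ⟨u, huJ, hadj, hxu⟩ := hend x hx hvx
    obtain ⟨w, hwJ, hadj', hyw⟩ := hend y hy hvy
    obtain ⟨_, z, hz1, hz2⟩ := path_fn J u huJ w (hconn u huJ w hwJ)
    have hcyc : z + (sg x + sg y) ∈ cyc G := by
      intro t
      have h3 : dsum (z + (sg x + sg y)) t = 0 := by
        rw [dsum_add, dsum_add, hz2, dsum_sg v u hadj x hxu t, dsum_sg v w hadj' y hyw t]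
        have h5 : ∀ p q r : F2, p + q + (r + p + (r + q)) = 0 := by decide
        exact h5 _ _ _
      exact h3
    have hval : ∀ f, (z + (sg x + sg y)) f = z f + if f = x ∨ f = y then 1 else 0 := by
      intro f
      show z f + (sg x f + sg y f) = _
      unfold sg
      by_cases h4 : f = x
      · have h5 : f ≠ y := by
          rw [h4]
          exact hxy
        rw [if_pos h4, if_neg h5, if_pos (Or.inl h4), add_zero]
      · by_cases h5 : f = y
        · rw [if_neg h4, if_pos h5, if_pos (Or.inr h5), zero_add]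
        · rw [if_neg h4, if_neg h5, if_neg (fun h => h.elim h4 h5), add_zero]
    refine ⟨⟨z + (sg x + sg y), hcyc⟩, fun f hf => ?_, fun f hf => ?_⟩
    · have hf2 : (z + (sg x + sg y)) f ≠ 0 := hf
      rw [hval] at hf2
      by_cases h4 : f = x ∨ f = y
      · rcases h4 with h4 | h4
        · rw [h4]
          exact hx
        · rw [h4]
          exact hy
      · rw [if_neg h4, add_zero] at hf2
        rw [hbr]
        refine Finset.mem_filter.2 ⟨Finset.mem_univ _, ?_⟩
        have h6 := hz1 f hf2
        obtain ⟨p, hp⟩ := Pool.Agent.BEO.ed_surj f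
        have h7 : p.1.fst ∈ f.1 := by
          rw [← hp]
          exact Sym2.mem_mk_left _ _
        exact ⟨p.1.fst, h6 _ h7, h7⟩
    · show (z + (sg x + sg y)) f = _
      rw [hval]
      obtain ⟨t, htI, htf⟩ := hf
      have h8 : z f = 0 := by
        by_contra h9
        exact hJI t (hz1 f h9 t htf) htI
      rw [h8, zero_add]

end Pool.Agent.FGT
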