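import Pool.Agent.FGT.AlL
import Pool.Agent.FGT.AlP
import Pool.Agent.FGT.AlF
import Pool.Agent.BEO.FrmRank

/-!
# FGT-AlA: alternations at a vertex raise the rank

PLAN. If `s.card ≤ 1`: `rkZ T I ≤ finrank (range (frm T)) = T.eg` (`frm_rank`). Let `s = {i 0 < i 1 < .. < i m}` (`Finset.orderEmbOfFin`), `x t = ed (cf (i t))`, `y t = ed (cf (i t + 1))` (all `x t` are distinct by `cf_inj` and
`cf_ne_side`, also the `y t`: `i t + 1` are distinct modulo the degree). `bridge_cycle` gives `c (t)` for `x 0`, `x (t + 1)` in the bridge of `e` and `c' (t)` for `y 0`, `y (t + 1)` in the bridge of `e'`. `frm_near` for `z = c' t`, `z' = c s`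
(`i = i 0`, `j = i (s + 1)`): `frm T (c' t) (c s) = ` the number of the indices among `i 0 + 1`, `i (t + 1) + 1` (modulo the degree) in `(i 0, i (s + 1)]`, `= 1 + [t < s] = [s ≤ t]`; the form is symmetric (BEO/FrmSym).
`rank_add` with `W = ZI G I`, `W1` the members vanishing outside `brC I e`, `W2` those vanishing on `brC I e`: `W1 ⊔ W2 = W` because the restriction of `z ∈ ZI` to a bridge is a cycle (at a
vertex outside `I` all edges are in one bridge). Orthogonality by `frm_far`: a common end of edges of different bridges is in `I`, and members of `ZI` vanish on the edges at `I`.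
-/

set_option autoImplicit false

open Finset
open scoped Classical

namespace Pool.Agent.FGT

open Pool.Agent.Helper35.OG (Flag GMap across side)
open Pool.Agent.BEO (F2 ed rp cyc ev bdF nb)
open Pool.Agent.Helper35.OG (IsBand)
open Pool.Agent.BEO (frm IsL dL)
open Pool.Agent.EPH (IsBase cf)

variable {V : Type} {G : SimpleGraph V} [Fintype V]

private theorem a_brC (I : Finset V) (e f : G.edgeSet) : f ∈ brC I e ↔ Relation.EqvGen (brR I) e f := by
  unfold brC
  rw [mem_filter]
  exact ⟨fun h => h.2, fun h => ⟨mem_univ _, h⟩⟩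

private theorem a_brC_eq {I : Finset V} {e f : G.edgeSet} (h : f ∈ brC I e) : brC I e = brC I f := by
  rw [a_brC] at h
  ext x
  rw [a_brC, a_brC]
  exact ⟨fun hx => Relation.EqvGen.trans _ _ _ (Relation.EqvGen.symm _ _ h) hx,
    fun hx => Relation.EqvGen.trans _ _ _ h hx⟩

private theorem a_step {I : Finset V} {e f f' : G.edgeSet} {u : V} (hu : u ∉ I) (h1 : u ∈ f.1) (h2 : u ∈ f'.1) :
    f ∈ brC I e ↔ f' ∈ brC I e := by
  rw [a_brC, a_brC]
  have h3 : Relation.EqvGen (brR I) f f' := Relation.EqvGen.rel _ _ ⟨u, hu, h1, h2⟩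
  exact ⟨fun hx => Relation.EqvGen.trans _ _ _ hx h3,
    fun hx => Relation.EqvGen.trans _ _ _ hx (Relation.EqvGen.symm _ _ h3)⟩

omit [Fintype V] in
private theorem a_side {p q : Flag G} (h1 : p.1.fst = q.1.fst) (h2 : ed p = ed q) : p = q ∨ p = side q := by
  have h3 : p.1.edge = q.1.edge := congrArg Subtype.val h2
  rw [SimpleGraph.dart_edge_eq_iff] at h3
  rcases h3 with h3 | h3
  · by_cases h4 : p.2 = q.2
    · exact Or.inl (Prod.ext h3 h4)
    · right
      refine Prod.ext h3 ?_
      change p.2 = !q.2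
      revert h4
      cases p.2 <;> cases q.2 <;> simp
  · exfalso
    have h4 : p.1.fst = q.1.snd := by rw [h3]; rfl
    exact q.1.adj.ne (h1.symm.trans h4)

private theorem a_inj (T : GMap G) {b : V → Flag G} (hb : IsBase b) (v : V) {i j : ℕ} (hi : i < (nb G v).card)
    (hj : j < (nb G v).card) (h : ed (cf T b v i) = ed (cf T b v j)) : i = j := by
  rcases a_side (((Pool.Agent.EPH.cf_fst T hb v i).trans (Pool.Agent.EPH.cf_fst T hb v j).symm)) h with h1 | h1
  · exact Pool.Agent.EPH.cf_inj T hb v hi hj h1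
  · exact absurd h1 (Pool.Agent.EPH.cf_ne_side T b v i j)

omit [Fintype V] in
private theorem a_fst (p : Flag G) : p.1.fst ∈ (ed p).1 := by
  show p.1.fst ∈ p.1.edge
  exact Sym2.mem_mk_left _ _

/-- the members of `ZI` with support in `B` (`t = true`), outside `B` (`t = false`) -/
private noncomputable def aW (I : Finset V) (B : Finset G.edgeSet) (t : Prop) : Submodule F2 (cyc G) where
  carrier := {z | z ∈ ZI G I ∧ ∀ f : G.edgeSet, (f ∈ B ↔ ¬ t) → z.1 f = 0}
  add_mem' := by
    rintro z z' ⟨h1, h2⟩ ⟨h1', h2'⟩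
    refine ⟨(ZI G I).add_mem h1 h1', fun f hf => ?_⟩
    rw [Submodule.coe_add, Pi.add_apply, h2 f hf, h2' f hf, add_zero]
  zero_mem' := ⟨(ZI G I).zero_mem, fun _ _ => rfl⟩
  smul_mem' := by
    rintro r z ⟨h1, h2⟩
    refine ⟨(ZI G I).smul_mem r h1, fun f hf => ?_⟩
    rw [Submodule.coe_smul, Pi.smul_apply, h2 f hf, smul_zero]

private theorem a_mem_ZI (I : Finset V) (z : cyc G) : z ∈ ZI G I ↔ ∀ e : G.edgeSet, (∃ v ∈ I, v ∈ e.1) → z.1 e = 0 :=
  Iff.rfl

private theorem a_res (I : Finset V) (e : G.edgeSet) (z : cyc G) (hz : z ∈ ZI G I) :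
    (fun f => if f ∈ brC I e then z.1 f else 0) ∈ cyc G := by
  intro u
  have h0 := z.2 u
  by_cases hu : u ∈ I
  · refine Finset.sum_eq_zero fun d hd => ?_
    have hd2 : d.fst = u := (mem_filter.1 hd).2
    have h1 : z.1 (ed (d, true)) = 0 := hz _ ⟨u, hu, by rw [← hd2]; exact a_fst (d, true)⟩
    simp only [h1, ite_self]
  · by_cases hne : ∃ d : G.Dart, d.fst = u ∧ ed (d, true) ∈ brC I e
    · obtain ⟨d0, hd0, hd1⟩ := hne
      rw [← h0]
      refine Finset.sum_congr rfl fun d hd => ?_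
      have hd2 : d.fst = u := (mem_filter.1 hd).2
      have h1 : ed (d, true) ∈ brC I e :=
        (a_step hu (by rw [← hd0]; exact a_fst (d0, true)) (by rw [← hd2]; exact a_fst (d, true))).1 hd1
      exact if_pos h1
    · refine Finset.sum_eq_zero fun d hd => ?_
      have hd2 : d.fst = u := (mem_filter.1 hd).2
      exact if_neg fun h => hne ⟨d, hd2, h⟩

private theorem a_sup (I : Finset V) (e : G.edgeSet) : aW I (brC I e) True ⊔ aW I (brC I e) False = ZI G I := by
  apply le_antisymm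
  · apply sup_le
    · intro z hz
      exact hz.1
    · intro z hz
      exact hz.1
  · intro z hz
    obtain ⟨w, hw⟩ : ∃ w : cyc G, ∀ f, w.1 f = if f ∈ brC I e then z.1 f else 0 :=
      ⟨⟨_, a_res I e z hz⟩, fun f => rfl⟩
    have h1 : w ∈ ZI G I := by
      intro f hf
      rw [hw, hz f hf, ite_self]
    have h2 : w ∈ aW I (brC I e) True := by
      refine ⟨h1, fun f hf => ?_⟩
      rw [hw]
      exact if_neg fun h => (hf.1 h) trivial
    have h3 : z - w ∈ aW I (brC I e) False := by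
      refine ⟨(ZI G I).sub_mem hz h1, fun f hf => ?_⟩
      have h4 : (z - w).1 f = z.1 f - w.1 f := rfl
      rw [h4, hw, if_pos (hf.2 not_false), sub_self]
    have h5 := Submodule.add_mem_sup h2 h3
    rwa [add_sub_cancel] at h5

private theorem a_far (T : GMap G) (I : Finset V) (e : G.edgeSet) (z z' : cyc G)
    (h1 : ∀ f, z.1 f ≠ 0 → f ∈ brC I e) (h2 : ∀ f, z'.1 f ≠ 0 → f ∉ brC I e)
    (h3 : z ∈ ZI G I ∨ z' ∈ ZI G I) : frm T z z' = 0 := by
  refine frm_far T z z' fun u f f' hf hf' => ?_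
  by_contra h4
  push Not at h4
  have h5 := h1 f h4.1
  have h6 := h2 f' h4.2
  by_cases hu : u ∈ I
  · rcases h3 with h3 | h3
    · exact h4.1 (h3 f ⟨u, hu, hf⟩)
    · exact h4.2 (h3 f' ⟨u, hu, hf'⟩)
  · exact h6 ((a_step hu hf hf').1 h5)

private theorem a_far' (T : GMap G) (I : Finset V) (e : G.edgeSet) (z z' : cyc G)
    (h1 : ∀ f, z.1 f ≠ 0 → f ∉ brC I e) (h2 : ∀ f, z'.1 f ≠ 0 → f ∈ brC I e)
    (h3 : z ∈ ZI G I ∨ z' ∈ ZI G I) : frm T z z' = 0 := by
  rw [Pool.Agent.BEO.frm_symm]
  exact a_far T I e z' z h2 h1 h3.symm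

private theorem a_dj {I : Finset V} {e e' : G.edgeSet} (hne : brC I e ≠ brC I e') {f : G.edgeSet}
    (h : f ∈ brC I e') : f ∉ brC I e := fun h' => hne ((a_brC_eq h').trans (a_brC_eq h).symm)

private theorem a_sum (a d r : ℕ) (had : a < d) (har : a + 1 ≠ r) :
    ∑ τ ∈ Ioc a d, (if τ = a + 1 ∨ τ = r then (1 : F2) else 0) = 1 + if a < r ∧ r ≤ d then 1 else 0 := by
  have h1 : ∀ τ ∈ Ioc a d, (if τ = a + 1 ∨ τ = r then (1 : F2) else 0) =
      (if τ = a + 1 then 1 else 0) + (if τ = r then 1 else 0) := by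
    intro τ _
    by_cases h2 : τ = a + 1
    · rw [if_pos (Or.inl h2), if_pos h2, if_neg (by rw [h2]; exact har), add_zero]
    · by_cases h3 : τ = r
      · rw [if_pos (Or.inr h3), if_neg h2, if_pos h3, zero_add]
      · rw [if_neg (by rintro (h | h); exacts [h2 h, h3 h]), if_neg h2, if_neg h3, add_zero]
  rw [Finset.sum_congr rfl h1, Finset.sum_add_distrib, Finset.sum_ite_eq', Finset.sum_ite_eq', if_pos]
  · congr 1
    simp only [mem_Ioc]
  · rw [mem_Ioc]
    omega

theorem alt_rank [Nontrivial V] (hG : G.Connected) (T : GMap G) (I : Finset V) (v : V) (hv : v ∈ I) (b : V → Flag G)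
    (hb : IsBase b) (e e' : G.edgeSet) (hne : brC I e ≠ brC I e') (s : Finset ℕ)
    (hs : ∀ i ∈ s, i < (nb G v).card ∧ ed (cf T b v i) ∈ brC I e ∧ ed (cf T b v (i + 1)) ∈ brC I e') :
    (rkZ T I : ℤ) + s.card ≤ T.eg + 1 := by
  have hrk := Pool.Agent.BEO.frm_rank hG T
  have hmain : ∀ (m : ℕ) (c c' : Fin m → cyc G), (∀ i, ∀ f, (c i).1 f ≠ 0 → f ∈ brC I e) →
      (∀ i, ∀ f, (c' i).1 f ≠ 0 → f ∈ brC I e') →
      (∀ i j, frm T (c i) (c' j) = if i ≤ j then 1 else 0) → (rkZ T I : ℤ) + m ≤ T.eg := by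
    intro m c c' hc1 hc2 hc3
    have h1 : ∀ z ∈ aW I (brC I e) True, ∀ f, z.1 f ≠ 0 → f ∈ brC I e := by
      intro z hz f hf
      by_contra h2
      exact hf (hz.2 f ⟨fun h3 => absurd h3 h2, fun h3 => absurd trivial h3⟩)
    have h2 : ∀ z ∈ aW I (brC I e) False, ∀ f, z.1 f ≠ 0 → f ∉ brC I e := by
      intro z hz f hf h3
      exact hf (hz.2 f ⟨fun _ => not_false, fun _ => h3⟩)
    have h := rank_add (frm T) (ZI G I) (aW I (brC I e) True) (aW I (brC I e) False) (a_sup I e) m c c'
      (fun z hz z' hz' => a_far T I e z z' (h1 z hz) (h2 z' hz') (Or.inl hz.1))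
      (fun z hz z' hz' => a_far' T I e z z' (h2 z hz) (h1 z' hz') (Or.inl hz.1))
      (fun z hz j => a_far T I e z (c' j) (h1 z hz) (fun f hf => a_dj hne (hc2 j f hf)) (Or.inl hz.1))
      (fun j z hz => a_far T I e (c j) z (hc1 j) (h2 z hz) (Or.inr hz.1)) hc3
    have h3 : rkZ T I + m ≤ Module.finrank F2 (LinearMap.range (frm T)) := h
    rw [← hrk]
    exact_mod_cast h3
  rcases Nat.eq_zero_or_pos s.card with h0 | h0
  · have h1 := hmain 0 Fin.elim0 Fin.elim0 (fun i => i.elim0) (fun i => i.elim0) (fun i => i.elim0)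
    rw [h0]
    push_cast at h1 ⊢
    omega
  · obtain ⟨m, hm⟩ : ∃ m, s.card = m + 1 := ⟨s.card - 1, by omega⟩
    set ii : Fin (m + 1) ↪o ℕ := s.orderEmbOfFin hm with hii
    have hmem : ∀ t, ii t ∈ s := fun t => Finset.orderEmbOfFin_mem s hm t
    have hlt : ∀ t, ii t < (nb G v).card := fun t => (hs _ (hmem t)).1
    have hmono : ∀ t t', ii t < ii t' ↔ t < t' := fun t t' => ii.lt_iff_lt
    have hd0 : 0 < (nb G v).card := Pool.Agent.EPH.deg_pos hb v
    have hvm : ∀ i, v ∈ (ed (cf T b v i)).1 := fun i => by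
      have h1 := a_fst (cf T b v i)
      rwa [Pool.Agent.EPH.cf_fst T hb v i] at h1
    -- the indices of the `y t`
    have hr : ∀ t : Fin m, (ii t.succ + 1) % (nb G v).card < (nb G v).card := fun t => Nat.mod_lt _ hd0
    have h00 : ∀ t : Fin m, ii 0 < ii t.succ := fun t => (hmono _ _).2 (Fin.succ_pos t)
    have hrr : ∀ t : Fin m, (ii t.succ + 1 < (nb G v).card ∧ (ii t.succ + 1) % (nb G v).card = ii t.succ + 1) ∨
        (ii t.succ + 1 = (nb G v).card ∧ (ii t.succ + 1) % (nb G v).card = 0) := by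
      intro t
      have h1 := hlt t.succ
      rcases Nat.lt_or_ge (ii t.succ + 1) (nb G v).card with h2 | h2
      · exact Or.inl ⟨h2, Nat.mod_eq_of_lt h2⟩
      · have h3 : ii t.succ + 1 = (nb G v).card := by omega
        exact Or.inr ⟨h3, by rw [h3, Nat.mod_self]⟩
    have hr0 : ∀ t : Fin m, ii 0 + 1 ≠ (ii t.succ + 1) % (nb G v).card := by
      intro t
      have h1 := h00 t
      rcases hrr t with ⟨_, h2⟩ | ⟨_, h2⟩ <;> omega
    have h1d : ∀ _ : Fin m, ii 0 + 1 < (nb G v).card := by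
      intro t
      have h1 := h00 t
      have h2 := hlt t.succ
      omega
    have hcfr : ∀ t : Fin m, ed (cf T b v ((ii t.succ + 1) % (nb G v).card)) = ed (cf T b v (ii t.succ + 1)) :=
      fun t => by rw [Pool.Agent.EPH.cf_mod T hb v]
    have hc : ∀ t : Fin m, ∃ z : cyc G, (∀ f, z.1 f ≠ 0 → f ∈ brC I e) ∧
        ∀ f : G.edgeSet, (∃ u ∈ I, u ∈ f.1) →
          z.1 f = if f = ed (cf T b v (ii 0)) ∨ f = ed (cf T b v (ii t.succ)) then 1 else 0 := by
      intro t
      refine bridge_cycle I e _ _ v hv (hs _ (hmem 0)).2.1 (hs _ (hmem t.succ)).2.1 (hvm _) (hvm _) ?_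
      intro h1
      have h2 := a_inj T hb v (hlt 0) (hlt t.succ) h1
      have h3 := h00 t
      omega
    have hc' : ∀ t : Fin m, ∃ z : cyc G, (∀ f, z.1 f ≠ 0 → f ∈ brC I e') ∧
        ∀ f : G.edgeSet, (∃ u ∈ I, u ∈ f.1) →
          z.1 f = if f = ed (cf T b v (ii 0 + 1)) ∨ f = ed (cf T b v (ii t.succ + 1)) then 1 else 0 := by
      intro t
      refine bridge_cycle I e' _ _ v hv (hs _ (hmem 0)).2.2 (hs _ (hmem t.succ)).2.2 (hvm _) (hvm _) ?_
      intro h1
      rw [← hcfr t] at h1
      exact hr0 t (a_inj T hb v (h1d t) (hr t) h1)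
    choose c hc1 hc2 using hc
    choose c' hc1' hc2' using hc'
    have hfin := hmain m c c' hc1 hc1' (by
      intro i j
      rw [Pool.Agent.BEO.frm_symm]
      rw [frm_near T b hb v (c' j) (c i) ?_ (ii 0) (ii i.succ) (h00 i) (hlt i.succ) ?_]
      · have h1 : ∀ τ ∈ Ioc (ii 0) (ii i.succ), (c' j).1 (ed (cf T b v τ)) =
            if τ = ii 0 + 1 ∨ τ = (ii j.succ + 1) % (nb G v).card then (1 : F2) else 0 := by
          intro τ hτ
          have hτ2 : τ < (nb G v).card := lt_of_le_of_lt (mem_Ioc.1 hτ).2 (hlt i.succ)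
          rw [hc2' j _ ⟨v, hv, hvm τ⟩, ← hcfr j]
          have h2 : (ed (cf T b v τ) = ed (cf T b v (ii 0 + 1)) ∨
              ed (cf T b v τ) = ed (cf T b v ((ii j.succ + 1) % (nb G v).card))) ↔
              (τ = ii 0 + 1 ∨ τ = (ii j.succ + 1) % (nb G v).card) := by
            constructor
            · rintro (h3 | h3)
              · exact Or.inl (a_inj T hb v hτ2 (h1d j) h3)
              · exact Or.inr (a_inj T hb v hτ2 (hr j) h3)
            · rintro (h3 | h3)
              · exact Or.inl (by rw [h3])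
              · exact Or.inr (by rw [← h3])
          simp only [h2]
        rw [Finset.sum_congr rfl h1, a_sum _ _ _ (h00 i) (hr0 j)]
        have h3 : (ii 0 < (ii j.succ + 1) % (nb G v).card ∧ (ii j.succ + 1) % (nb G v).card ≤ ii i.succ) ↔ j < i := by
          have h4 := h00 j
          have h5 : ii j.succ < ii i.succ ↔ j < i := (hmono _ _).trans Fin.succ_lt_succ_iff
          rw [← h5]
          have h6 := hlt i.succ
          rcases hrr j with ⟨h7, h8⟩ | ⟨h7, h8⟩ <;> omega
        by_cases h4 : i ≤ j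
        · rw [if_pos h4, if_neg fun h5 => absurd (h3.1 h5) (not_lt.2 h4), add_zero]
        · rw [if_neg h4, if_pos (h3.2 (not_le.1 h4))]
          exact CharTwo.add_self_eq_zero 1
      · intro u f f' huv hf hf'
        by_contra h1
        push Not at h1
        have h2 := hc1' j f h1.1
        have h3 := hc1 i f' h1.2
        by_cases hu : u ∈ I
        · have h4 := hc2' j f ⟨u, hu, hf⟩
          have h5 := hc2 i f' ⟨u, hu, hf'⟩
          have h6 : v ∈ f.1 := by
            by_cases h7 : f = ed (cf T b v (ii 0 + 1)) ∨ f = ed (cf T b v (ii j.succ + 1))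
            · rcases h7 with h7 | h7
              · rw [h7]; exact hvm _
              · rw [h7]; exact hvm _
            · rw [if_neg h7] at h4
              exact absurd h4 h1.1
          have h8 : v ∈ f'.1 := by
            by_cases h7 : f' = ed (cf T b v (ii 0)) ∨ f' = ed (cf T b v (ii i.succ))
            · rcases h7 with h7 | h7
              · rw [h7]; exact hvm _
              · rw [h7]; exact hvm _
            · rw [if_neg h7] at h5
              exact absurd h5 h1.2
          have h9 : f.1 = s(u, v) := (Sym2.mem_and_mem_iff huv).1 ⟨hf, h6⟩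
          have h10 : f'.1 = s(u, v) := (Sym2.mem_and_mem_iff huv).1 ⟨hf', h8⟩
          have h11 : f = f' := Subtype.ext (h9.trans h10.symm)
          rw [h11] at h2
          exact a_dj hne h2 h3
        · exact a_dj hne h2 ((a_step hu hf' hf).1 h3)
      · intro t ht
        rw [hc2 i _ ⟨v, hv, hvm t⟩]
        have h2 : (ed (cf T b v t) = ed (cf T b v (ii 0)) ∨ ed (cf T b v t) = ed (cf T b v (ii i.succ))) ↔
            (t = ii 0 ∨ t = ii i.succ) := by
          constructor
          · rintro (h3 | h3)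
            · exact Or.inl (a_inj T hb v ht (hlt 0) h3)
            · exact Or.inr (a_inj T hb v ht (hlt i.succ) h3)
          · rintro (h3 | h3)
            · exact Or.inl (by rw [h3])
            · exact Or.inr (by rw [h3])
        simp only [h2])
    rw [hm]
    push_cast
    omega

end Pool.Agent.FGT
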