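import Pool.Agent.FGT.RsA

/-!
# FGT-RsB: restricting a map to a spanning connected subgraph

PLAN. `restr`: induction on the number of edges of `G` which are not in `G'`. If there is none, `G' = G` (`xt G G z = z`, take `M' = M`). Otherwise let `e0` be one,
`G1 = G.deleteEdges {e0}`, `G' ≤ G1 ≤ G`; `G1` is connected (`hG'.mono`), `e0` has an end in `I` (`hI`). `del_one` and the induction hypothesis for `G' ≤ G1`; compose
(`xt G1 G (xt G' G1 z) = xt G' G z`; for `FRes` the middle cycles exist by `xt_mem`). `res_eg`: by `frm_rank` the Euler genera are the ranks of the forms; `FRes` says that the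
form of `M'` is the restriction of that of `M` along the injective linear map `cyc G' → cyc G` (`xt`, `xt_mem`), so its rank is not larger.
-/

set_option autoImplicit false

open Finset
open scoped Classical

namespace Pool.Agent.FGT

open Pool.Agent.Helper35.OG (Flag GMap across side)
open Pool.Agent.BEO (F2 ed rp cyc ev bdF nb)
open Pool.Agent.Helper35.OG (IsBand)
open Pool.Agent.BEO (frm IsL dL)
open Pool.Agent.EPH (IsBase cf)

variable {V : Type} {G : SimpleGraph V} [Fintype V]

omit [Fintype V] in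
private theorem rsb_xt {G' G1 G : SimpleGraph V} (h : G' ≤ G1) (z : G'.edgeSet → F2) :
    xt G1 G (xt G' G1 z) = xt G' G z := by
  funext e
  unfold xt
  by_cases h1 : e.1 ∈ G'.edgeSet
  · have h2 : e.1 ∈ G1.edgeSet := SimpleGraph.edgeSet_mono h h1
    rw [dif_pos h2, dif_pos h1]
  · rw [dif_neg h1]
    by_cases h2 : e.1 ∈ G1.edgeSet
    · rw [dif_pos h2]
      rw [dif_neg h1]
    · rw [dif_neg h2]

omit [Fintype V] in
private theorem rsb_xt_self (G : SimpleGraph V) (z : G.edgeSet → F2) : xt G G z = z := by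
  funext e
  unfold xt
  rw [dif_pos e.2]

private theorem rsb_ind [Nontrivial V] {G' : SimpleGraph V} (hG' : G'.Connected) (I : Finset V) :
    ∀ (n : ℕ) (G : SimpleGraph V) (_ : G' ≤ G)
      (_ : (univ.filter (fun e : Sym2 V => e ∈ G.edgeSet ∧ e ∉ G'.edgeSet)).card = n)
      (_ : ∀ u v, G.Adj u v → ¬ G'.Adj u v → u ∈ I ∨ v ∈ I) (M : GMap G),
    ∃ M' : GMap G', (M.Orientable → M'.Orientable) ∧ FRes M M' ∧
      ∀ κ' : Flag G' → F2, IsBand κ' → ∃ κ : Flag G → F2, IsBand κ ∧ (bo M κ I).card ≤ (bo M' κ' I).card := by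
  intro n
  induction n with
  | zero =>
    intro G h hn hI M
    have hGG : G' = G := by
      apply le_antisymm h
      intro u v huv
      by_contra hh
      rw [Finset.card_eq_zero] at hn
      have : (s(u, v) : Sym2 V) ∈ (univ.filter (fun e : Sym2 V => e ∈ G.edgeSet ∧ e ∉ G'.edgeSet)) := by
        rw [Finset.mem_filter]
        exact ⟨Finset.mem_univ _, huv, hh⟩
      rw [hn] at this
      exact absurd this (Finset.notMem_empty _)
    subst hGG
    refine ⟨M, id, ?_, fun κ' hκ => ⟨κ', hκ, le_refl _⟩⟩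
    intro z z' w w' hw hw'
    rw [rsb_xt_self] at hw hw'
    have h1 : w = z := Subtype.ext hw
    have h2 : w' = z' := Subtype.ext hw'
    rw [h1, h2]
  | succ n ih =>
    intro G h hn hI M
    have hne : (univ.filter (fun e : Sym2 V => e ∈ G.edgeSet ∧ e ∉ G'.edgeSet)).Nonempty := by
      rw [← Finset.card_pos, hn]
      omega
    obtain ⟨e0, he0⟩ := hne
    rw [Finset.mem_filter] at he0
    obtain ⟨_, he1, he2⟩ := he0
    have hG1 : G' ≤ G.deleteEdges {e0} := by
      intro u v huv
      rw [SimpleGraph.deleteEdges_adj]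
      refine ⟨h huv, ?_⟩
      intro hh
      rw [Set.mem_singleton_iff] at hh
      rw [← hh] at he2
      exact he2 huv
    have hle : G.deleteEdges {e0} ≤ G := SimpleGraph.deleteEdges_le _
    have hc1 : (G.deleteEdges {e0}).Connected := hG'.mono hG1
    have hI0 : ∃ v ∈ I, v ∈ e0 := by
      induction e0 using Sym2.ind with
      | _ u v =>
        rcases hI u v he1 he2 with hu | hv
        · exact ⟨u, hu, Sym2.mem_mk_left _ _⟩
        · exact ⟨v, hv, Sym2.mem_mk_right _ _⟩
    obtain ⟨M1, a1, a2, a3⟩ := del_one hle hc1 e0 he1 rfl I hI0 M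
    have hn1 : (univ.filter (fun e : Sym2 V => e ∈ (G.deleteEdges {e0}).edgeSet ∧ e ∉ G'.edgeSet)).card = n := by
      have : (univ.filter (fun e : Sym2 V => e ∈ (G.deleteEdges {e0}).edgeSet ∧ e ∉ G'.edgeSet)) =
          (univ.filter (fun e : Sym2 V => e ∈ G.edgeSet ∧ e ∉ G'.edgeSet)).erase e0 := by
        ext e
        rw [Finset.mem_erase, Finset.mem_filter, Finset.mem_filter, SimpleGraph.edgeSet_deleteEdges]
        constructor
        · rintro ⟨_, ⟨b1, b2⟩, b3⟩
          exact ⟨b2, Finset.mem_univ _, b1, b3⟩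
        · rintro ⟨b2, _, b1, b3⟩
          exact ⟨Finset.mem_univ _, ⟨b1, b2⟩, b3⟩
      rw [this, Finset.card_erase_of_mem, hn]
      · omega
      · rw [Finset.mem_filter]
        exact ⟨Finset.mem_univ _, he1, he2⟩
    obtain ⟨M', b1, b2, b3⟩ := ih (G.deleteEdges {e0}) hG1 (by convert hn1) (fun u v huv hn' => hI u v (hle huv) hn') M1
    refine ⟨M', fun ho => b1 (a1 ho), ?_, ?_⟩
    · intro z z' w w' hw hw'
      have c1 := b2 z z' ⟨xt G' _ z.1, xt_mem hG1 z.1 z.2⟩ ⟨xt G' _ z'.1, xt_mem hG1 z'.1 z'.2⟩ rfl rfl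
      rw [c1]
      apply a2
      · rw [hw]
        exact (rsb_xt hG1 z.1).symm
      · rw [hw']
        exact (rsb_xt hG1 z'.1).symm
    · intro κ' hκ'
      obtain ⟨κ1, c1, c2⟩ := b3 κ' hκ'
      obtain ⟨κ, d1, d2⟩ := a3 κ1 c1
      exact ⟨κ, d1, d2.trans c2⟩

theorem restr [Nontrivial V] {G' G : SimpleGraph V} (h : G' ≤ G) (hG' : G'.Connected) (I : Finset V)
    (hI : ∀ u v, G.Adj u v → ¬ G'.Adj u v → u ∈ I ∨ v ∈ I) (M : GMap G) :
    ∃ M' : GMap G', (M.Orientable → M'.Orientable) ∧ FRes M M' ∧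
      ∀ κ' : Flag G' → F2, IsBand κ' → ∃ κ : Flag G → F2, IsBand κ ∧ (bo M κ I).card ≤ (bo M' κ' I).card :=
  rsb_ind hG' I _ G h rfl hI M

theorem res_eg [Nontrivial V] {G' G : SimpleGraph V} (h : G' ≤ G) (hG' : G'.Connected) (M : GMap G) (M' : GMap G')
    (hf : FRes M M') : M'.eg ≤ M.eg := by
  rw [← Pool.Agent.BEO.frm_rank hG' M', ← Pool.Agent.BEO.frm_rank (hG'.mono h) M]
  let E : cyc G' →ₗ[F2] cyc G :=
    { toFun := fun z => ⟨xt G' G z.1, xt_mem h z.1 z.2⟩
      map_add' := by
        intro z z'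
        apply Subtype.ext
        funext e
        show xt G' G (z.1 + z'.1) e = xt G' G z.1 e + xt G' G z'.1 e
        unfold xt
        by_cases he : e.1 ∈ G'.edgeSet
        · rw [dif_pos he, dif_pos he, dif_pos he]
          rfl
        · rw [dif_neg he, dif_neg he, dif_neg he, add_zero]
      map_smul' := by
        intro a z
        apply Subtype.ext
        funext e
        show xt G' G (a • z.1) e = a • xt G' G z.1 e
        unfold xt
        by_cases he : e.1 ∈ G'.edgeSet
        · rw [dif_pos he, dif_pos he]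
          rfl
        · rw [dif_neg he, dif_neg he, smul_zero] }
  have h1 : LinearMap.range (frm M') ≤ (LinearMap.range (frm M)).map E.dualMap := by
    rintro _ ⟨z, rfl⟩
    refine ⟨frm M (E z), ⟨E z, rfl⟩, ?_⟩
    apply LinearMap.ext
    intro z'
    show frm M (E z) (E z') = frm M' z z'
    exact (hf z z' (E z) (E z') rfl rfl).symm
  have h2 := (Submodule.finrank_mono h1).trans (Submodule.finrank_map_le E.dualMap (LinearMap.range (frm M)))
  exact_mod_cast h2

end Pool.Agent.FGT
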