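import Pool.Agent.FGT.AlH
import Pool.Agent.FGT.RsB
import Pool.Agent.Helper58.OG.Lw
import Pool.Agent.Helper35.OG.Upper

/-!
# FGT-AlC: the Euler genus of an optimal orientable map and of its restriction
-/

set_option autoImplicit false

open Finset
open scoped Classical

namespace Pool.Agent.FGT

open Pool.Agent.Helper35.OG (Flag GMap across side)
open Pool.Agent.BEO (F2 ed rp cyc ev bdF nb)
open Pool.Agent.Helper35.OG (IsBand)
open Pool.Agent.BEO (frm IsL dL)
open Pool.Agent.EPH (IsBase cf)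

variable {V : Type} {G : SimpleGraph V} [Fintype V]

private theorem alc_two (M : GMap G) (κ : Flag G → F2) :
    (univ.filter fun p : Flag G => κ (M.nxt p) = κ p).card = 2 * M.badCorners κ := by
  rw [Pool.Agent.Helper35.OG.badCorners_eq, ← Pool.Agent.Helper35.OG.card_badFlags]
  have h2 : M.badFlags κ = ↑(univ.filter fun p : Flag G => κ (M.nxt p) = κ p) := by
    ext p
    simp [GMap.badFlags]
  rw [h2, Nat.card_coe_set_eq, Set.ncard_coe_finset]

theorem defect_res [Nontrivial V] {G' : SimpleGraph V} (hG : G.Connected) (S : GMap G) (k : ℕ) (hk : S.eg ≤ k) (I : Finset V)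
    (S' : GMap G') (hκ : ∀ κ' : Flag G' → F2, IsBand κ' →
      ∃ κ : Flag G → F2, IsBand κ ∧ (bo S κ I).card ≤ (bo S' κ' I).card) :
    S.defect ≤ S'.defect + 2 * (I.card + k) := by
  obtain ⟨κ1, hκ1⟩ := Pool.Agent.Helper35.OG.exists_band (G := G')
  have hne : {n | ∃ κ, IsBand κ ∧ S'.badCorners κ = n}.Nonempty := ⟨_, κ1, hκ1, rfl⟩
  obtain ⟨κ', hκ', hn⟩ := Nat.sInf_mem hne
  have hdef : S'.badCorners κ' = S'.defect := hn
  obtain ⟨κ0, h0, hc0⟩ := hκ κ' hκ'
  obtain ⟨κ, hb, hsub, hsm⟩ := bad_small hG S k hk I κ0 h0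
  have h1 : S.defect ≤ S.badCorners κ := Nat.sInf_le ⟨κ, hb, rfl⟩
  have h2 := alc_two S κ
  have h3 := alc_two S' κ'
  have h4 : (bo S' κ' I).card ≤ (univ.filter fun p : Flag G' => κ' (S'.nxt p) = κ' p).card := by
    refine Finset.card_le_card ?_
    intro p hp
    unfold bo at hp
    rw [Finset.mem_filter] at hp ⊢
    exact ⟨hp.1, hp.2.2⟩
  have h5 : (univ.filter fun p : Flag G => κ (S.nxt p) = κ p).card ≤ (bo S κ0 I).card +
      (univ.filter fun p : Flag G => p.1.fst ∈ I ∧ κ (S.nxt p) = κ p).card := by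
    refine (Finset.card_le_card ?_).trans (Finset.card_union_le _ _)
    intro p hp
    unfold bo
    rw [Finset.mem_filter] at hp
    rw [Finset.mem_union, Finset.mem_filter, Finset.mem_filter]
    by_cases hI : p.1.fst ∈ I
    · exact Or.inr ⟨Finset.mem_univ _, hI, hp.2⟩
    · exact Or.inl ⟨Finset.mem_univ _, hI, hsub p hp.2⟩
  omega

theorem alt_vd [Nontrivial V] {G' : SimpleGraph V} (hG : G.Connected) (h : G' ≤ G) (hG' : G'.Connected) (I : Finset V)
    (hI : ∀ u v, G.Adj u v → ¬ G'.Adj u v → u ∈ I ∨ v ∈ I) (S T : GMap G) (k : ℕ) (hk : S.eg ≤ k)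
    (hT : Opt true T) : ∃ T' : GMap G', FRes T T' ∧ T.eg ≤ T'.eg + 5 * k + I.card := by
  obtain ⟨T', hT1, hT2, -⟩ := restr h hG' I hI T
  obtain ⟨S', -, hS2, hS3⟩ := restr h hG' I hI S
  obtain ⟨T0, hT0, hT0'⟩ := Pool.Agent.Helper35.OG.upper S
  refine ⟨T', hT2, ?_⟩
  have h1 := hT.2 T0 (fun _ => hT0)
  have h2 := defect_res hG S k hk I S' hS3
  have h3 := (Pool.Agent.Helper58.OG.lower_bounds hG' S' T' (hT1 (hT.1 rfl))).2
  have h4 := res_eg h hG' S S' hS2
  have h5 : (S.defect : ℤ) ≤ (S'.defect : ℤ) + 2 * ((I.card : ℤ) + (k : ℤ)) := by exact_mod_cast h2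
  omega

end Pool.Agent.FGT
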