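import Pool.Agent.FGT.DcDef
import Pool.Agent.BEO.Frm
import Pool.Agent.EPH.Map

/-!
# FGT-AlDef: alternations in optimal maps (definitions)
-/

set_option autoImplicit false

open Finset
open scoped Classical

namespace Pool.Agent.FGT

open Pool.Agent.Helper35.OG (Flag GMap across side)
open Pool.Agent.BEO (F2 ed rp cyc ev bdF nb)
open Pool.Agent.Helper35.OG (IsBand)
open Pool.Agent.BEO (frm IsL dL)
open Pool.Agent.EPH (IsBase cf)

variable {V : Type} {G : SimpleGraph V}

/-- the flags of a subgraph -/
def fi {G' G : SimpleGraph V} (h : G' ≤ G) (p : Flag G') : Flag G := (⟨p.1.toProd, h p.1.adj⟩, p.2)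

/-- extension by zero -/
noncomputable def xt (G' G : SimpleGraph V) (z : G'.edgeSet → F2) (e : G.edgeSet) : F2 :=
  if he : e.1 ∈ G'.edgeSet then z ⟨e.1, he⟩ else 0

/-- the flags outside `I` of the corners at which `κ` does not change -/
noncomputable def bo [Fintype V] (M : GMap G) (κ : Flag G → F2) (I : Finset V) : Finset (Flag G) :=
  univ.filter fun p => p.1.fst ∉ I ∧ κ (M.nxt p) = κ p

/-- the form of `M'` is the restriction of the form of `M` -/
def FRes [Fintype V] {G' G : SimpleGraph V} (M : GMap G) (M' : GMap G') : Prop :=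
  ∀ (z z' : cyc G') (w w' : cyc G), w.1 = xt G' G z.1 → w'.1 = xt G' G z'.1 → frm M' z z' = frm M w w'

/-- the cycles without edges at `I` -/
noncomputable def ZI [Fintype V] (G : SimpleGraph V) (I : Finset V) : Submodule F2 (cyc G) where
  carrier := {z | ∀ e : G.edgeSet, (∃ v ∈ I, v ∈ e.1) → z.1 e = 0}
  add_mem' := by
    intro z z' h h' e he
    rw [Submodule.coe_add, Pi.add_apply, h e he, h' e he, add_zero]
  zero_mem' := fun _ _ => rfl
  smul_mem' := by
    intro r z h e he
    rw [Submodule.coe_smul, Pi.smul_apply, h e he, smul_zero]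

/-- the rank of the form of `T` on these cycles -/
noncomputable def rkZ [Fintype V] (T : GMap G) (I : Finset V) : ℕ :=
  Module.finrank F2 (LinearMap.range ((frm T).domRestrict₁₂ (ZI G I) (ZI G I)))

end Pool.Agent.FGT
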