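import Pool.Agent.FGT.SmF

/-!
# FGT-AlG: a connected spanning subgraph with few edges at `I`

PLAN. Let `H` be the graph of the edges of `G` without end in `I`. (1) For every `H ≤ G`, `G` connected, there is a set of at most (number of components of `H`) `- 1` edges of `G` whose addition
to `H` gives a connected graph: induction on the number of components: if `H` is not connected there is an edge `uv` of `G` between two components (a walk in `G` from one component to another one), `H ⊔ edge u v` has
fewer components (the map of the components is surjective, not injective). (2) The number of components of `H` is at most `I.card + (brs I).card`: every component is `{v}` with `v ∈ I`, or contains a vertex `u ∉ I`, which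
has an edge `e` in `G`; two vertices outside `I` which are ends of edges of the same bridge are in one component of `H` (induct on `EqvGen (brR I)`: edges with a common end `∉ I`; the
ends outside `I` of one edge are adjacent in `H`). So the components with vertices outside `I` inject into `brs I`.
-/

set_option autoImplicit false

open Finset
open scoped Classical

namespace Pool.Agent.FGT

open Pool.Agent.Helper35.OG (Flag GMap across side)
open Pool.Agent.BEO (F2 ed rp cyc ev bdF nb)

variable {V : Type} {G : SimpleGraph V} [Fintype V]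

private theorem ag_ext (hG : G.Connected) : ∀ (n : ℕ) (H : SimpleGraph V), H ≤ G →
    Nat.card H.ConnectedComponent ≤ n + 1 → ∃ G' : SimpleGraph V, H ≤ G' ∧ G' ≤ G ∧ G'.Connected ∧
      ∃ s : Finset (Sym2 V), s.card ≤ n ∧ ∀ e ∈ G'.edgeSet, e ∈ H.edgeSet ∨ e ∈ s := by
  intro n
  induction n with
  | zero =>
    intro H hH hc
    have hne : Nonempty V := hG.nonempty
    have hsub : Subsingleton H.ConnectedComponent := by
      have h1 : Finite H.ConnectedComponent := inferInstance
      exact Finite.card_le_one_iff_subsingleton.1 (by simpa using hc)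
    refine ⟨H, le_refl _, hH, ?_, ∅, by simp, fun e he => Or.inl he⟩
    rw [SimpleGraph.connected_iff]
    refine ⟨fun u v => ?_, hne⟩
    exact SimpleGraph.ConnectedComponent.exact (Subsingleton.elim _ _)
  | succ n ih =>
    intro H hH hc
    have hne : Nonempty V := hG.nonempty
    by_cases hcon : H.Connected
    · exact ⟨H, le_refl _, hH, hcon, ∅, by simp, fun e he => Or.inl he⟩
    · have h1 : ∃ u v, ¬ H.Reachable u v := by
        by_contra hcc
        push Not at hcc
        exact hcon ((SimpleGraph.connected_iff _).2 ⟨fun u v => hcc u v, hne⟩)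
      obtain ⟨u, v, huv⟩ := h1
      obtain ⟨w⟩ := hG.preconnected u v
      obtain ⟨d, -, hd1, hd2⟩ := w.exists_boundary_dart {x | H.Reachable u x}
        (SimpleGraph.Reachable.refl u) huv
      simp only [Set.mem_setOf_eq] at hd1 hd2
      have hdadj : G.Adj d.fst d.snd := d.adj
      have hne2 : d.fst ≠ d.snd := hdadj.ne
      set H' : SimpleGraph V := H ⊔ SimpleGraph.edge d.fst d.snd with hH'
      have hle : H ≤ H' := le_sup_left
      have hadj' : H'.Adj d.fst d.snd := by
        rw [hH', SimpleGraph.sup_adj]
        right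
        rw [SimpleGraph.edge_adj]
        exact ⟨Or.inl ⟨rfl, rfl⟩, hne2⟩
      have hH'G : H' ≤ G := by
        rw [hH']
        refine sup_le hH ?_
        intro x y hxy
        rw [SimpleGraph.edge_adj] at hxy
        rcases hxy.1 with ⟨h1, h2⟩ | ⟨h1, h2⟩
        · rw [h1, h2]; exact hdadj
        · rw [h1, h2]; exact hdadj.symm
      have hcard : Nat.card H'.ConnectedComponent ≤ n + 1 := by
        have hf : Function.Surjective (SimpleGraph.ConnectedComponent.map (SimpleGraph.Hom.ofLE hle)) := by
          intro c
          induction c using SimpleGraph.ConnectedComponent.ind with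
          | _ x => exact ⟨H.connectedComponentMk x, rfl⟩
        have hf2 : ¬ Function.Injective (SimpleGraph.ConnectedComponent.map (SimpleGraph.Hom.ofLE hle)) := by
          intro hinj
          have h3 : H.connectedComponentMk d.fst = H.connectedComponentMk d.snd := by
            apply hinj
            simp only [SimpleGraph.ConnectedComponent.map_mk]
            exact SimpleGraph.ConnectedComponent.sound hadj'.reachable
          exact hd2 (hd1.trans (SimpleGraph.ConnectedComponent.exact h3))
        have h4 : Nat.card H'.ConnectedComponent < Nat.card H.ConnectedComponent := by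
          have i1 : Fintype H.ConnectedComponent := Fintype.ofFinite _
          have i2 : Fintype H'.ConnectedComponent := Fintype.ofFinite _
          rw [Nat.card_eq_fintype_card, Nat.card_eq_fintype_card]
          exact Fintype.card_lt_of_surjective_not_injective _ hf hf2
        omega
      obtain ⟨G', hG1, hG2, hG3, s, hs1, hs2⟩ := ih H' hH'G hcard
      refine ⟨G', hle.trans hG1, hG2, hG3, insert s(d.fst, d.snd) s, ?_, ?_⟩
      · exact (Finset.card_insert_le _ _).trans (by omega)
      · intro e he
        rcases hs2 e he with h5 | h5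
        · induction e using Sym2.ind with
          | _ x y =>
            rw [SimpleGraph.mem_edgeSet, hH', SimpleGraph.sup_adj, SimpleGraph.edge_adj] at h5
            rcases h5 with h5 | ⟨h5, -⟩
            · left; exact h5
            · right
              apply Finset.mem_insert.2
              left
              rw [Sym2.eq_iff]
              rcases h5 with ⟨h6, h7⟩ | ⟨h6, h7⟩
              · exact Or.inl ⟨h6, h7⟩
              · exact Or.inr ⟨h6, h7⟩
        · right; exact Finset.mem_insert_of_mem h5

/-- The graph of the edges without end in `I`. -/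
private def agH (G : SimpleGraph V) (I : Finset V) : SimpleGraph V where
  Adj u v := G.Adj u v ∧ u ∉ I ∧ v ∉ I
  symm := ⟨fun _ _ h => ⟨h.1.symm, h.2.2, h.2.1⟩⟩
  loopless := ⟨fun _ h => h.1.ne rfl⟩

omit [Fintype V] in
private theorem ag_ends (I : Finset V) (e : G.edgeSet) (u v : V) (hu : u ∈ e.1) (hv : v ∈ e.1) (hu' : u ∉ I)
    (hv' : v ∉ I) : (agH G I).Reachable u v := by
  by_cases h : u = v
  · rw [h]
  · have h1 : e.1 = s(u, v) := ((Sym2.mem_and_mem_iff h).1 ⟨hu, hv⟩)
    have h2 : G.Adj u v := by
      have := e.2
      rw [h1] at this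
      exact this
    exact SimpleGraph.Adj.reachable (G := agH G I) ⟨h2, hu', hv'⟩

private theorem ag_eqv (I : Finset V) (e f : G.edgeSet) (h : Relation.EqvGen (brR I) e f) :
    e = f ∨ ∃ u ∈ e.1, u ∉ I ∧ ∃ v ∈ f.1, v ∉ I ∧ (agH G I).Reachable u v := by
  induction h with
  | rel x y hxy =>
    obtain ⟨v, hv, h1, h2⟩ := hxy
    exact Or.inr ⟨v, h1, hv, v, h2, hv, SimpleGraph.Reachable.refl _⟩
  | refl x => exact Or.inl rfl
  | symm x y _ ih =>
    rcases ih with ih | ⟨u, h1, h2, v, h3, h4, h5⟩
    · exact Or.inl ih.symm
    · exact Or.inr ⟨v, h3, h4, u, h1, h2, h5.symm⟩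
  | trans x y z _ _ ih1 ih2 =>
    rcases ih1 with ih1 | ⟨u, h1, h2, v, h3, h4, h5⟩
    · rw [ih1]; exact ih2
    · rcases ih2 with ih2 | ⟨u', h1', h2', v', h3', h4', h5'⟩
      · rw [← ih2]; exact Or.inr ⟨u, h1, h2, v, h3, h4, h5⟩
      · exact Or.inr ⟨u, h1, h2, v', h3', h4', (h5.trans (ag_ends I y v u' h3 h1' h4 h2')).trans h5'⟩

private theorem ag_eqv2 (I : Finset V) (e f : G.edgeSet) (h : Relation.EqvGen (brR I) e f) (u v : V)
    (hu : u ∈ e.1) (hu' : u ∉ I) (hv : v ∈ f.1) (hv' : v ∉ I) : (agH G I).Reachable u v := by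
  rcases ag_eqv I e f h with h1 | ⟨a, ha, ha', b, hb, hb', hab⟩
  · subst h1
    exact ag_ends I e u v hu hv hu' hv'
  · exact ((ag_ends I e u a hu ha hu' ha').trans hab).trans (ag_ends I f b v hb hv hb' hv')

private theorem ag_card [Nontrivial V] (hG : G.Connected) (I : Finset V) :
    Nat.card (agH G I).ConnectedComponent ≤ (brs (G := G) I).card + I.card := by
  have hedge : ∀ u : V, ∃ e : G.edgeSet, u ∈ e.1 := by
    intro u
    obtain ⟨v, hv⟩ := hG.preconnected.exists_adj_of_nontrivial u
    exact ⟨⟨s(u, v), hv⟩, Sym2.mem_mk_left u v⟩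
  choose ee hee using hedge
  have hP : ∀ c : (agH G I).ConnectedComponent, ∃ x : (brs (G := G) I) ⊕ I,
      (∃ u, (agH G I).connectedComponentMk u = c ∧ u ∉ I ∧ ∃ h : brC I (ee u) ∈ brs I, x = Sum.inl ⟨_, h⟩) ∨
      (∃ u, (agH G I).connectedComponentMk u = c ∧ ∃ h : u ∈ I, x = Sum.inr ⟨u, h⟩) := by
    intro c
    obtain ⟨u, hu⟩ := c.exists_rep
    by_cases h : u ∈ I
    · exact ⟨Sum.inr ⟨u, h⟩, Or.inr ⟨u, hu, h, rfl⟩⟩
    · have h1 : brC I (ee u) ∈ brs I := by
        simp only [brs, Finset.mem_image, Finset.mem_univ, true_and]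
        exact ⟨_, rfl⟩
      exact ⟨Sum.inl ⟨_, h1⟩, Or.inl ⟨u, hu, h, h1, rfl⟩⟩
  choose φ hφ using hP
  have hinj : Function.Injective φ := by
    intro c c' hcc
    rcases hφ c with ⟨u, h1, h2, h3, h4⟩ | ⟨u, h1, h3, h4⟩
    · rcases hφ c' with ⟨u', h1', h2', h3', h4'⟩ | ⟨u', h1', h3', h4'⟩
      · rw [← h1, ← h1']
        rw [hcc, h4'] at h4
        have h5 : brC I (ee u') = brC I (ee u) := congrArg Subtype.val (Sum.inl_injective h4)
        have h6 : ee u' ∈ brC I (ee u) := by
          rw [← h5]
          simp only [brC, Finset.mem_filter, Finset.mem_univ, true_and]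
          exact Relation.EqvGen.refl _
        have h7 : Relation.EqvGen (brR I) (ee u) (ee u') := by
          simpa only [brC, Finset.mem_filter, Finset.mem_univ, true_and] using h6
        exact SimpleGraph.ConnectedComponent.sound (ag_eqv2 I _ _ h7 u u' (hee u) h2 (hee u') h2')
      · rw [hcc, h4'] at h4
        exact absurd h4 (by simp)
    · rcases hφ c' with ⟨u', h1', h2', h3', h4'⟩ | ⟨u', h1', h3', h4'⟩
      · rw [hcc, h4'] at h4
        exact absurd h4 (by simp)
      · rw [← h1, ← h1']
        rw [hcc, h4'] at h4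
        have h5 : u' = u := congrArg Subtype.val (Sum.inr_injective h4)
        rw [h5]
  have h := Nat.card_le_card_of_injective φ hinj
  rw [Nat.card_sum] at h
  simpa using h

theorem exists_sub [Nontrivial V] (hG : G.Connected) (I : Finset V) : ∃ G' : SimpleGraph V, G' ≤ G ∧ G'.Connected ∧
    (∀ u v, G.Adj u v → ¬ G'.Adj u v → u ∈ I ∨ v ∈ I) ∧
    (univ.filter fun e : G'.edgeSet => ∃ v ∈ I, v ∈ e.1).card ≤ (brs (G := G) I).card + I.card := by
  have hH : agH G I ≤ G := fun u v h => h.1
  obtain ⟨G', h1, h2, h3, s, h4, h5⟩ := ag_ext hG ((brs (G := G) I).card + I.card) (agH G I) hH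
    ((ag_card hG I).trans (Nat.le_succ _))
  refine ⟨G', h2, h3, ?_, ?_⟩
  · intro u v huv hn
    by_contra hc
    push Not at hc
    exact hn (h1 ⟨huv, hc.1, hc.2⟩)
  · refine le_trans ?_ h4
    refine Finset.card_le_card_of_injOn (fun e => e.1) ?_ (fun a _ b _ h => Subtype.ext h)
    intro e he
    simp only [Finset.coe_filter, Finset.mem_univ, true_and, Set.mem_ofPred_eq] at he
    obtain ⟨v, hv, hve⟩ := he
    rcases h5 e.1 e.2 with h6 | h6
    · exfalso
      obtain ⟨e, he⟩ := e
      induction e using Sym2.ind with
      | _ x y =>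
        have h7 : (agH G I).Adj x y := h6
        rcases Sym2.mem_iff.1 hve with h8 | h8
        · exact h7.2.1 (h8 ▸ hv)
        · exact h7.2.2 (h8 ▸ hv)
    · exact h6

end Pool.Agent.FGT
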