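import Pool.Agent.FGT.RsB

/-!
# FGT-AlR: the rank on the cycles away from few vertices
-/

set_option autoImplicit false

open Finset
open scoped Classical

namespace Pool.Agent.FGT

open Pool.Agent.Helper35.OG (Flag GMap across side)
open Pool.Agent.BEO (F2 ed rp cyc ev bdF nb)
open Pool.Agent.Helper35.OG (IsBand)
open Pool.Agent.BEO (frm IsL dL frm_rank)
open Pool.Agent.EPH (IsBase cf)

variable {V : Type} {G : SimpleGraph V} [Fintype V]

private theorem rank_dom {K E F : Type} [Field K] [AddCommGroup E] [Module K E] [AddCommGroup F] [Module K F]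
    [FiniteDimensional K E] (W : Submodule K E) (phi : E →ₗ[K] F) :
    Module.finrank K (LinearMap.range phi) + Module.finrank K W ≤
      Module.finrank K (LinearMap.range (phi.domRestrict W)) + Module.finrank K E := by
  have h1 := LinearMap.finrank_range_add_finrank_ker phi
  have h2 := LinearMap.finrank_range_add_finrank_ker (phi.domRestrict W)
  have h3 : Module.finrank K (LinearMap.ker (phi.domRestrict W)) ≤ Module.finrank K (LinearMap.ker phi) := by
    let g : LinearMap.ker (phi.domRestrict W) →ₗ[K] LinearMap.ker phi :=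
      { toFun := fun x => ⟨x.1.1, by
          have h := x.2
          rw [LinearMap.mem_ker] at h
          rw [LinearMap.mem_ker]
          exact h⟩
        map_add' := fun _ _ => rfl
        map_smul' := fun _ _ => rfl }
    refine LinearMap.finrank_le_finrank_of_injective (f := g) ?_
    intro x y hxy
    have h4 : x.1.1 = y.1.1 := congrArg (fun t : LinearMap.ker phi => t.1) hxy
    exact Subtype.ext (Subtype.ext h4)
  omega

private theorem rank_comp {K E F H : Type} [Field K] [AddCommGroup E] [Module K E] [AddCommGroup F] [Module K F]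
    [AddCommGroup H] [Module K H] [FiniteDimensional K E] [FiniteDimensional K F] (psi : E →ₗ[K] F) (rho : F →ₗ[K] H) :
    Module.finrank K (LinearMap.range psi) ≤
      Module.finrank K (LinearMap.range (rho.comp psi)) + Module.finrank K (LinearMap.ker rho) := by
  have h1 := LinearMap.finrank_range_add_finrank_ker (rho.domRestrict (LinearMap.range psi))
  have h2 : LinearMap.range (rho.domRestrict (LinearMap.range psi)) = LinearMap.range (rho.comp psi) := by
    ext y
    constructor
    · rintro ⟨⟨x, ⟨w, hw⟩⟩, hx⟩
      refine ⟨w, ?_⟩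
      rw [LinearMap.comp_apply, hw]
      exact hx
    · rintro ⟨w, hw⟩
      exact ⟨⟨psi w, ⟨w, rfl⟩⟩, hw⟩
  have h3 : Module.finrank K (LinearMap.ker (rho.domRestrict (LinearMap.range psi))) ≤
      Module.finrank K (LinearMap.ker rho) := by
    let g : LinearMap.ker (rho.domRestrict (LinearMap.range psi)) →ₗ[K] LinearMap.ker rho :=
      { toFun := fun x => ⟨x.1.1, by
          have h := x.2
          rw [LinearMap.mem_ker] at h
          rw [LinearMap.mem_ker]
          exact h⟩
        map_add' := fun _ _ => rfl
        map_smul' := fun _ _ => rfl }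
    refine LinearMap.finrank_le_finrank_of_injective (f := g) ?_
    intro x y hxy
    have h4 : x.1.1 = y.1.1 := congrArg (fun t : LinearMap.ker rho => t.1) hxy
    exact Subtype.ext (Subtype.ext h4)
  rw [h2] at h1
  omega

/-- the rank of a form and the rank of its restriction -/
private theorem rank_form {E : Type} [AddCommGroup E] [Module F2 E] [FiniteDimensional F2 E]
    (W : Submodule F2 E) (B : E →ₗ[F2] E →ₗ[F2] F2) (f : ℕ) (hf : Module.finrank F2 E ≤ Module.finrank F2 W + f) :
    Module.finrank F2 (LinearMap.range B) ≤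
      Module.finrank F2 (LinearMap.range (B.domRestrict₁₂ W W)) + 2 * f := by
  have h1 := rank_dom W B
  have h2 := rank_comp (B.domRestrict W) W.dualRestrict
  have h3 : W.dualRestrict.comp (B.domRestrict W) = B.domRestrict₁₂ W W := by
    ext x y
    rfl
  have h4 : Module.finrank F2 (LinearMap.ker W.dualRestrict) + Module.finrank F2 W = Module.finrank F2 E := by
    have h5 := LinearMap.finrank_range_add_finrank_ker W.dualRestrict
    have h6 : Module.finrank F2 (LinearMap.range W.dualRestrict) = Module.finrank F2 W := by
      rw [LinearMap.range_eq_top.2 (Subspace.dualRestrict_surjective (W := W)), finrank_top]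
      exact Subspace.dual_finrank_eq
    have h7 : Module.finrank F2 (Module.Dual F2 E) = Module.finrank F2 E := Subspace.dual_finrank_eq
    omega
  rw [h3] at h2
  have h9 : Module.finrank F2 (LinearMap.range (B.domRestrict W)) ≤
      Module.finrank F2 (LinearMap.range (B.domRestrict₁₂ W W)) + Module.finrank F2 (LinearMap.ker W.dualRestrict) := h2
  have h8 : Module.finrank F2 W ≤ Module.finrank F2 E := Submodule.finrank_le W
  omega

private theorem rank_fac {E F : Type} [AddCommGroup E] [Module F2 E] [FiniteDimensional F2 E]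
    [AddCommGroup F] [Module F2 F] [FiniteDimensional F2 F]
    (A : E →ₗ[F2] E →ₗ[F2] F2) (B : F →ₗ[F2] F →ₗ[F2] F2) (g : E →ₗ[F2] F) (h : ∀ x y, A x y = B (g x) (g y)) :
    Module.finrank F2 (LinearMap.range A) ≤ Module.finrank F2 (LinearMap.range B) := by
  have h1 : LinearMap.range A ≤ (LinearMap.range B).map g.dualMap := by
    rintro _ ⟨x, rfl⟩
    refine ⟨B (g x), ⟨g x, rfl⟩, ?_⟩
    ext y
    rw [LinearMap.dualMap_apply]
    exact (h x y).symm
  exact (Submodule.finrank_mono h1).trans (Submodule.finrank_map_le _ _)

private theorem codim_ZI {G' : SimpleGraph V} (I : Finset V) (f : ℕ)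
    (hF : (univ.filter fun e : G'.edgeSet => ∃ v ∈ I, v ∈ e.1).card ≤ f) :
    Module.finrank F2 (cyc G') ≤ Module.finrank F2 (ZI G' I) + f := by
  let phi : cyc G' →ₗ[F2] ({e : G'.edgeSet // ∃ v ∈ I, v ∈ e.1} → F2) :=
    { toFun := fun z s => z.1 s.1
      map_add' := fun _ _ => rfl
      map_smul' := fun _ _ => rfl }
  have h1 := LinearMap.finrank_range_add_finrank_ker phi
  have h2 : LinearMap.ker phi = ZI G' I := by
    ext z
    rw [LinearMap.mem_ker]
    constructor
    · intro h e he
      exact congrFun h ⟨e, he⟩
    · intro h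
      funext s
      exact h s.1 s.2
  have h3 : Module.finrank F2 (LinearMap.range phi) ≤ f := by
    refine (Submodule.finrank_le _).trans ?_
    rw [Module.finrank_fintype_fun_eq_card, Fintype.card_subtype]
    exact hF
  rw [h2] at h1
  omega

theorem rk_res [Nontrivial V] {G' : SimpleGraph V} (h : G' ≤ G) (hG' : G'.Connected) (I : Finset V)
    (hI : ∀ u v, G.Adj u v → ¬ G'.Adj u v → u ∈ I ∨ v ∈ I) (T : GMap G) (T' : GMap G') (hf : FRes T T') (f : ℕ)
    (hF : (univ.filter fun e : G'.edgeSet => ∃ v ∈ I, v ∈ e.1).card ≤ f) : T'.eg ≤ (rkZ T I : ℤ) + 2 * f := by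
  have h1 : Module.finrank F2 (LinearMap.range (frm T')) ≤
      Module.finrank F2 (LinearMap.range ((frm T').domRestrict₁₂ (ZI G' I) (ZI G' I))) + 2 * f :=
    rank_form (ZI G' I) (frm T') f (codim_ZI I f hF)
  let g : ZI G' I →ₗ[F2] ZI G I :=
    { toFun := fun z => ⟨⟨xt G' G z.1.1, xt_mem h z.1.1 z.1.2⟩, by
        intro e he
        show xt G' G z.1.1 e = 0
        unfold xt
        split_ifs with h2
        · exact z.2 ⟨e.1, h2⟩ he
        · rfl⟩
      map_add' := by
        intro z z'
        refine Subtype.ext (Subtype.ext ?_)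
        funext e
        show xt G' G (z.1.1 + z'.1.1) e = xt G' G z.1.1 e + xt G' G z'.1.1 e
        unfold xt
        split_ifs with h2
        · rfl
        · rw [add_zero]
      map_smul' := by
        intro r z
        refine Subtype.ext (Subtype.ext ?_)
        funext e
        show xt G' G (r • z.1.1) e = r • xt G' G z.1.1 e
        unfold xt
        split_ifs with h2
        · rfl
        · rw [smul_zero] }
  have h3 : Module.finrank F2 (LinearMap.range ((frm T').domRestrict₁₂ (ZI G' I) (ZI G' I))) ≤ rkZ T I :=
    rank_fac _ _ g fun x y => hf x.1 y.1 (g x).1 (g y).1 rfl rfl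
  have h4 := frm_rank hG' T'
  rw [← h4]
  exact_mod_cast h1.trans (Nat.add_le_add_right h3 _)

end Pool.Agent.FGT
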