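import Pool.Agent.FGT.SmD
import Pool.Agent.FGT.SmF

/-!
# FGT-SmE: few mixed corners

PLAN. If `rB S B ≤ 8`: if `rB S B = 0` done; otherwise a mixed flag exists, so `I` is not empty (`loc`) and `24 ≤ 24 * (I.card + k)`. Let `8 < rB S B`, `R = rB S B`. No member is
`univ` (it has mixed flags? if `A = univ ∈ B` then `B = {univ}` by disjointness and `R = 0`). For every `A ∈ B`: `chi S A ≤ 1` (`chi_le`), and if `chi S A = 1` then either `Trv S A` (and
`(mix A S).card = 4`) or `(mix A S).card ≥ 6` (`hr`: not at most `4`; `sm_even`). Let `t` be the number of trivial members, `m` the number of other members with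
`chi = 1`; `∑ chi ≤ t + m` and `4 * t + 6 * m ≤ R`. By `sm_vs`, `sm_clo`, `∑ A.card = number of edges`: `2 * ∑ chi = 2 * (2 - eg) - 2 * |VM| - 2 * FM + R` (integers), `|VM| ≤ |I|`.
With `sm_face4`, `sm_face6`: `R ≤ 2 (t + m) + 2 k - 4 + 2 c + 2 FM`; `omega`/`nlinarith` (linear): `R / 4 ≤ t + m + c + k - 2`,
`R / 6 ≤ t / 3 + m + c + k - 2`, `m ≤ R / 6 - 2 t / 3` give `t ≤ 3 (c + k - 2)` and `R / 12 ≤ t / 3 + c + k - 2`, so `R ≤ 24 (c + k - 2)`.
-/

set_option autoImplicit false

open Finset
open scoped Classical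

namespace Pool.Agent.FGT

open Pool.Agent.Helper35.OG (Flag GMap across side)
open Pool.Agent.BEO (F2 ed rp cyc ev bdF nb)

variable {V : Type} {G : SimpleGraph V} [Fintype V]

theorem smix [Nontrivial V] (hG : G.Connected) (S : GMap G) (hr : Reduced S) (k : ℕ) (hk : S.eg ≤ k)
    (B : Finset (Finset G.edgeSet)) (I : Finset V) (h : Ptn S B I) : rB S B ≤ 24 * (I.card + k) := by
  by_cases h8 : 8 < rB S B
  swap
  · by_cases h0 : rB S B = 0
    · rw [h0]
      exact Nat.zero_le _
    · have h1 : ∃ A ∈ B, (mix A S).card ≠ 0 := by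
        by_contra hc
        push Not at hc
        exact h0 (Finset.sum_eq_zero hc)
      obtain ⟨A, hA, hc⟩ := h1
      obtain ⟨p, hp⟩ := Finset.card_pos.1 (Nat.pos_of_ne_zero hc)
      have h2 : 0 < I.card := Finset.card_pos.2 ⟨_, h.loc A hA p hp⟩
      omega
  · have hun : ∀ A ∈ B, A ≠ univ := by
      intro A hA hu
      have hall : ∀ A' ∈ B, (mix A' S).card = 0 := by
        intro A' hA'
        by_cases he : A' = A
        · rw [he, hu, Finset.card_eq_zero]
          unfold mix
          refine Finset.filter_eq_empty_iff.2 ?_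
          intro p _ hp
          exact hp.2 (mem_univ _)
        · exfalso
          have h1 := h.dj A' hA' A hA he
          obtain ⟨e, he'⟩ := h.ne A' hA'
          refine (Finset.disjoint_left.1 h1 he') ?_
          rw [hu]
          exact mem_univ _
      have h0 : rB S B = 0 := Finset.sum_eq_zero hall
      omega
    -- the edges
    have hE : ∑ A ∈ B, A.card = Nat.card G.edgeSet := by
      have h1 : (B.biUnion id).card = ∑ A ∈ B, (id A).card :=
        Finset.card_biUnion fun A hA A' hA' hne => h.dj A hA A' hA' hne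
      have h2 : B.biUnion id = univ := by
        refine Finset.eq_univ_of_forall fun e => ?_
        obtain ⟨A, hA, he⟩ := h.un e
        exact Finset.mem_biUnion.2 ⟨A, hA, he⟩
      rw [h2] at h1
      rw [Nat.card_eq_fintype_card, ← Finset.card_univ, h1]
      rfl
    -- the vertices
    have hVM : (VM S B).card ≤ I.card := by
      refine Finset.card_le_card ?_
      intro v hv
      obtain ⟨-, A, hA, p, hp, rfl⟩ := Finset.mem_filter.1 hv
      exact h.loc A hA p hp
    have h1 := sm_vs hG S B I h
    have h2 := sm_clo S B I h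
    have h3 := sm_face4 S B I h
    have h4 := sm_face6 hG S hr B I h h8
    -- the sum of the Euler characteristics
    have hchi : ∑ A ∈ B, chi S A = ((∑ A ∈ B, vs S A : ℕ) : ℤ) - ((∑ A ∈ B, A.card : ℕ) : ℤ)
        + ((∑ A ∈ B, clo A (part A S) : ℕ) : ℤ) := by
      unfold chi
      rw [Finset.sum_add_distrib, Finset.sum_sub_distrib]
      push_cast
      rfl
    have hle : ∀ A ∈ B, chi S A ≤ 1 := fun A hA => chi_le hG S A (h.ne A hA) (hun A hA) (h.cn A hA)
    -- members of the second kind
    have hmem : ∀ A ∈ B, chi S A ≤ (if Trv S A then 1 else 0) + (if ¬ Trv S A ∧ chi S A = 1 then 1 else 0) := by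
      intro A hA
      have h5 := hle A hA
      by_cases ht : Trv S A
      · rw [if_pos ht, if_neg fun h6 => h6.1 ht]
        omega
      · rw [if_neg ht]
        by_cases hc : chi S A = 1
        · rw [if_pos ⟨ht, hc⟩]
          omega
        · rw [if_neg fun h6 => hc h6.2]
          omega
    have hmix : ∀ A ∈ B, 4 * (if Trv S A then 1 else 0) + 6 * (if ¬ Trv S A ∧ chi S A = 1 then 1 else 0)
        ≤ (mix A S).card := by
      intro A hA
      by_cases ht : Trv S A
      · rw [if_pos ht, if_neg fun h6 => h6.1 ht, trv_mix hG S A ht]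
      · rw [if_neg ht]
        by_cases hc : chi S A = 1
        · rw [if_pos ⟨ht, hc⟩]
          have h5 : ¬ (mix A S).card ≤ 4 := fun h6 => ht (hr A (h.ne A hA) (hun A hA) (h.cn A hA) hc h6)
          obtain ⟨r, h6⟩ := sm_even S A
          omega
        · rw [if_neg fun h6 => hc h6.2]
          omega
    have ht : ∑ A ∈ B, (if Trv S A then 1 else 0) = (B.filter (Trv S)).card := by
      rw [Finset.card_filter]
    have hs1 : ∑ A ∈ B, chi S A ≤ ((B.filter (Trv S)).card : ℤ)
        + ((∑ A ∈ B, (if ¬ Trv S A ∧ chi S A = 1 then 1 else 0) : ℕ) : ℤ) := by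
      rw [← ht]
      push_cast
      rw [← Finset.sum_add_distrib]
      exact Finset.sum_le_sum hmem
    have hs2 : 4 * (B.filter (Trv S)).card + 6 * ∑ A ∈ B, (if ¬ Trv S A ∧ chi S A = 1 then 1 else 0) ≤ rB S B := by
      rw [← ht, Finset.mul_sum, Finset.mul_sum, ← Finset.sum_add_distrib]
      exact Finset.sum_le_sum hmix
    unfold GMap.eg at hk
    rw [Nat.card_eq_fintype_card (α := V), ← hE, ← h2] at hk
    push_cast at hk hchi hs1
    have h1' : 2 * ((∑ A ∈ B, vs S A : ℕ) : ℤ) + 2 * ((VM S B).card : ℤ) = 2 * (Fintype.card V : ℤ) + (rB S B : ℤ) := by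
      exact_mod_cast h1
    push_cast at h1'
    zify at h3 h4 hs2 hVM ⊢
    push_cast at hs2
    linarith

end Pool.Agent.FGT
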