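import Pool.Agent.FGT.AlA
import Pool.Agent.FGT.AlR
import Pool.Agent.FGT.AlG
import Pool.Agent.FGT.AlC
import Pool.Agent.FGT.SmE

/-!
# FGT-AlE: optimal maps have few mixed corners
-/

set_option autoImplicit false

open Finset
open scoped Classical

namespace Pool.Agent.FGT

open Pool.Agent.Helper35.OG (Flag GMap across side)
open Pool.Agent.BEO (F2 ed rp cyc ev bdF nb)
open Pool.Agent.Helper35.OG (IsBand)
open Pool.Agent.BEO (frm IsL dL)
open Pool.Agent.EPH (IsBase cf)

variable {V : Type} {G : SimpleGraph V} [Fintype V]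

private theorem ae_mem (I : Finset V) (e f : G.edgeSet) : f ∈ brC I e ↔ Relation.EqvGen (brR I) e f := by
  simp [brC]

private theorem ae_self (I : Finset V) (e : G.edgeSet) : e ∈ brC I e := by
  rw [ae_mem]
  exact Relation.EqvGen.refl _

private theorem ae_brs (I : Finset V) (e : G.edgeSet) : brC I e ∈ brs I := by
  simp only [brs, Finset.mem_image, Finset.mem_univ, true_and]
  exact ⟨e, rfl⟩

omit [Fintype V] in
private theorem ae_fst (p : Flag G) : p.1.fst ∈ (ed p).1 := by
  show p.1.fst ∈ p.1.edge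
  exact Sym2.mem_mk_left _ _

omit [Fintype V] in
private theorem ae_flag {v : V} (e : G.edgeSet) (h : v ∈ e.1) : ∃ p : Flag G, ed p = e ∧ p.1.fst = v := by
  obtain ⟨w, hw⟩ := Sym2.mem_iff_exists.1 h
  have hadj : G.Adj v w := by
    rw [← SimpleGraph.mem_edgeSet, ← hw]
    exact e.2
  refine ⟨(⟨(v, w), hadj⟩, true), ?_, rfl⟩
  apply Subtype.ext
  exact hw.symm

private theorem ae_mx {S : GMap G} {A : Finset G.edgeSet} {p : Flag G} : p ∈ mix A S ↔ ed p ∈ A ∧ ed (S.nxt p) ∉ A := by
  simp [mix]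

theorem brs_card [Nontrivial V] (hG : G.Connected) (S : GMap G) (hr : Reduced S) (k : ℕ) (hk : S.eg ≤ k) (I : Finset V) :
    (brs (G := G) I).card ≤ 1 + 24 * (I.card + k) := by
  by_cases h1 : (brs (G := G) I).card ≤ 1
  · omega
  have hp := ptn_brs S I
  have h2 := smix hG S hr k hk (brs I) I hp
  have h3 : (brs (G := G) I).card ≤ rB S (brs I) := by
    unfold rB
    rw [Finset.card_eq_sum_ones]
    refine Finset.sum_le_sum fun A hA => ?_
    rw [Nat.one_le_iff_ne_zero, ← Nat.pos_iff_ne_zero, Finset.card_pos]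
    by_contra hc
    rw [Finset.not_nonempty_iff_eq_empty] at hc
    have hcl : ∀ p : Flag G, ed p ∈ A → ed (S.nxt p) ∈ A := by
      intro p hpA
      by_contra hn
      have h4 : p ∈ mix A S := ae_mx.2 ⟨hpA, hn⟩
      rw [hc] at h4
      exact absurd h4 (Finset.notMem_empty p)
    have hall := Pool.Agent.Helper35.OG.all_const S hG (fun p : Flag G => ed p ∈ A)
      (fun p => propext ⟨fun h => by simpa only [S.nxt_nxt] using hcl _ h, hcl p⟩)
      (fun p => by rw [Pool.Agent.BEO.ed_side]) (fun p => by rw [Pool.Agent.BEO.ed_across])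
    obtain ⟨e, he⟩ := hp.ne A hA
    push Not at h1
    obtain ⟨B, hB, hBA⟩ := Finset.exists_mem_ne h1 A
    obtain ⟨f, hf⟩ := hp.ne B hB
    obtain ⟨p, hp1⟩ : ∃ p : Flag G, ed p = e := ⟨rp e, Pool.Agent.BEO.ed_rp e⟩
    obtain ⟨q, hq1⟩ : ∃ p : Flag G, ed p = f := ⟨rp f, Pool.Agent.BEO.ed_rp f⟩
    have h5 : (ed p ∈ A) = (ed q ∈ A) := hall p q
    have h6 : f ∈ A := by
      rw [← hq1, ← h5, hp1]
      exact he
    exact Finset.disjoint_left.1 (hp.dj B hB A hA hBA) hf h6
  omega

theorem alt_pair [Nontrivial V] (hG : G.Connected) (S : GMap G) (k : ℕ) (hk : S.eg ≤ k) (o : Bool) (T : GMap G)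
    (hT : Opt o T) (I : Finset V) (v : V) (hv : v ∈ I) (b : V → Flag G) (hb : IsBase b) (e e' : G.edgeSet)
    (hne : brC I e ≠ brC I e') (s : Finset ℕ)
    (hs : ∀ i ∈ s, i < (nb G v).card ∧ ed (cf T b v i) ∈ brC I e ∧ ed (cf T b v (i + 1)) ∈ brC I e') :
    s.card ≤ 1 + 5 * k + I.card + 2 * ((brs (G := G) I).card + I.card) := by
  have h1 := alt_rank hG T I v hv b hb e e' hne s hs
  cases o with
  | false =>
    have h2 := hT.2 S (fun h => absurd h Bool.false_ne_true)
    omega
  | true =>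
    obtain ⟨G', h, hG', hI, hF⟩ := exists_sub hG I
    obtain ⟨T', hf, he⟩ := alt_vd hG h hG' I hI S T k hk hT
    have h2 := rk_res h hG' I hI T T' hf _ hF
    push_cast at h2
    omega

theorem alt [Nontrivial V] (hG : G.Connected) (S : GMap G) (hr : Reduced S) (k : ℕ) (h1 : 1 ≤ k) (hk : S.eg ≤ k)
    (o : Bool) (T : GMap G) (hT : Opt o T) (C : ℕ) (D : Finset G.edgeSet) (hD : (mix D S).card ≤ C) :
    (mix D T).card ≤ 100000 * (C + k) ^ 4 := by
  set I : Finset V := (mix D S).image fun p => p.1.fst with hIdef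
  have hIC : I.card ≤ C := Finset.card_image_le.trans hD
  have hnI : ∀ p : Flag G, p.1.fst ∉ I → (ed p ∈ D ↔ ed (S.nxt p) ∈ D) := by
    intro p hpI
    have h2 : ∀ q : Flag G, q.1.fst ∉ I → ed q ∈ D → ed (S.nxt q) ∈ D := by
      intro q hq h3
      by_contra h4
      apply hq
      rw [hIdef]
      exact Finset.mem_image.2 ⟨q, ae_mx.2 ⟨h3, h4⟩, rfl⟩
    refine ⟨h2 p hpI, fun h3 => ?_⟩
    have h4 := h2 (S.nxt p) (by rw [S.nxt_fst]; exact hpI) h3
    rwa [S.nxt_nxt] at h4
  have hcl : ∀ x y : G.edgeSet, brR I x y → (x ∈ D ↔ y ∈ D) := by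
    rintro x y ⟨v, hvI, hx, hy⟩
    obtain ⟨p, hp, hpv⟩ := ae_flag x hx
    obtain ⟨q, hq, hqv⟩ := ae_flag y hy
    have h2 := Pool.Agent.Helper35.OG.vertex_const S (fun r : Flag G => r.1.fst = v → ed r ∈ D)
      (fun r => by
        refine propext ⟨fun h hr => ?_, fun h hr => ?_⟩
        · exact (hnI r (by rw [hr]; exact hvI)).2 (h (by rw [S.nxt_fst]; exact hr))
        · rw [S.nxt_fst] at hr
          exact (hnI r (by rw [hr]; exact hvI)).1 (h hr))
      (fun r => rfl) (hpv.trans hqv.symm)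
    have h3 : (p.1.fst = v → ed p ∈ D) ↔ (q.1.fst = v → ed q ∈ D) := iff_of_eq h2
    rw [hp, hq] at h3
    exact ⟨fun h => h3.1 (fun _ => h) hqv, fun h => h3.2 (fun _ => h) hpv⟩
  have hcle : ∀ x y : G.edgeSet, Relation.EqvGen (brR I) x y → (x ∈ D ↔ y ∈ D) := by
    intro x y hxy
    induction hxy with
    | rel x y h => exact hcl x y h
    | refl x => exact Iff.rfl
    | symm x y _ ih => exact ih.symm
    | trans x y z _ _ ih1 ih2 => exact ih1.trans ih2
  have hpair : ∀ x y : G.edgeSet, ¬ (x ∈ D ↔ y ∈ D) → brC I x ≠ brC I y := by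
    intro x y hxy h2
    apply hxy
    apply hcle x y
    rw [← ae_mem, h2]
    exact ae_self I y
  have hvI : ∀ p ∈ mix D T, p.1.fst ∈ I := by
    intro p hp
    rw [ae_mx] at hp
    by_contra hn
    have h2 : brR I (ed p) (ed (T.nxt p)) := by
      refine ⟨p.1.fst, hn, ae_fst p, ?_⟩
      have h3 := ae_fst (T.nxt p)
      rwa [T.nxt_fst] at h3
    exact hp.2 ((hcl _ _ h2).1 hp.1)
  choose b hb using fun v => Pool.Agent.Helper35.OG.exists_flag (G := G) hG v
  have hb' : IsBase b := hb
  set n : ℕ := (brs (G := G) I).card with hn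
  set m : ℕ := 1 + 5 * k + I.card + 2 * (n + I.card) with hm
  have hJ : ∀ v ∈ I, ((range (nb G v).card).filter fun i =>
      brC I (ed (cf T b v i)) ≠ brC I (ed (cf T b v (i + 1)))).card ≤ m * (n * n) := by
    intro v hv
    set J := (range (nb G v).card).filter fun i => brC I (ed (cf T b v i)) ≠ brC I (ed (cf T b v (i + 1))) with hJd
    refine (Finset.card_le_mul_card_image (f := fun i => (brC I (ed (cf T b v i)), brC I (ed (cf T b v (i + 1))))) J m
      ?_).trans (Nat.mul_le_mul_left m ?_)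
    · intro a ha
      obtain ⟨i0, hi0, rfl⟩ := Finset.mem_image.1 ha
      rw [hJd, Finset.mem_filter] at hi0
      refine alt_pair hG S k hk o T hT I v hv b hb' (ed (cf T b v i0)) (ed (cf T b v (i0 + 1))) hi0.2 _ ?_
      intro i hi
      rw [Finset.mem_filter] at hi
      have h2 := hi.1
      rw [hJd, Finset.mem_filter, Finset.mem_range] at h2
      have h3 := Prod.ext_iff.1 hi.2
      simp only at h3
      refine ⟨h2.1, ?_, ?_⟩
      · rw [← h3.1]
        exact ae_self I _
      · rw [← h3.2]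
        exact ae_self I _
    · rw [hn, ← Finset.card_product]
      refine Finset.card_le_card ?_
      intro a ha
      obtain ⟨i0, -, rfl⟩ := Finset.mem_image.1 ha
      exact Finset.mem_product.2 ⟨ae_brs I _, ae_brs I _⟩
  have hF : ∀ v ∈ I, ((mix D T).filter fun p => p.1.fst = v).card ≤ 2 * (m * (n * n)) := by
    intro v hv
    have h2 := hJ v hv
    set J := (range (nb G v).card).filter fun i => brC I (ed (cf T b v i)) ≠ brC I (ed (cf T b v (i + 1))) with hJd
    have h3 : ((mix D T).filter fun p => p.1.fst = v) ⊆ J.image (fun i => cf T b v i) ∪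
        J.image (fun i => side (cf T b v (i + 1))) := by
      intro p hp
      rw [Finset.mem_filter, ae_mx] at hp
      obtain ⟨⟨hp1, hp2⟩, hpv⟩ := hp
      obtain ⟨i, hi, h4 | h4⟩ := Pool.Agent.EPH.cf_cover T hb' v p hpv
      · refine Finset.mem_union_left _ (Finset.mem_image.2 ⟨i, ?_, h4.symm⟩)
        rw [hJd, Finset.mem_filter, Finset.mem_range]
        refine ⟨hi, hpair _ _ ?_⟩
        rw [h4, Pool.Agent.EPH.nxt_cf, Pool.Agent.BEO.ed_side] at hp2
        rw [h4] at hp1
        exact fun h => hp2 (h.1 hp1)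
      · refine Finset.mem_union_right _ ?_
        have hex : ∃ j, j < (nb G v).card ∧ cf T b v (j + 1) = cf T b v i := by
          rcases Nat.eq_zero_or_pos i with h0 | h0
          · refine ⟨(nb G v).card - 1, by omega, ?_⟩
            have h5 : (nb G v).card - 1 + 1 = 0 + (nb G v).card := by omega
            rw [h5, Pool.Agent.EPH.cf_period T hb', h0]
          · refine ⟨i - 1, by omega, ?_⟩
            have h5 : i - 1 + 1 = i := by omega
            rw [h5]
        obtain ⟨j, hj, hji⟩ := hex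
        rw [← hji] at h4
        refine Finset.mem_image.2 ⟨j, ?_, h4.symm⟩
        rw [hJd, Finset.mem_filter, Finset.mem_range]
        refine ⟨hj, hpair _ _ ?_⟩
        rw [h4, Pool.Agent.EPH.nxt_side_cf] at hp2
        rw [h4, Pool.Agent.BEO.ed_side] at hp1
        exact fun h => hp2 (h.2 hp1)
    have h4 := (Finset.card_le_card h3).trans (Finset.card_union_le _ _)
    have h5 : (J.image (fun i => cf T b v i)).card ≤ J.card := Finset.card_image_le
    have h6 : (J.image (fun i => side (cf T b v (i + 1)))).card ≤ J.card := Finset.card_image_le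
    omega
  have htot : (mix D T).card ≤ 2 * (m * (n * n)) * I.card := by
    refine (Finset.card_le_mul_card_image (f := fun p : Flag G => p.1.fst) (mix D T) (2 * (m * (n * n))) ?_).trans
      (Nat.mul_le_mul_left _ (Finset.card_le_card ?_))
    · intro v hv
      obtain ⟨p, hp, rfl⟩ := Finset.mem_image.1 hv
      exact hF _ (hvI p hp)
    · intro v hv
      obtain ⟨p, hp, rfl⟩ := Finset.mem_image.1 hv
      exact hvI p hp
  have hbr := brs_card hG S hr k hk I
  rw [← hn] at hbr
  obtain ⟨x, hx⟩ : ∃ x, x = C + k := ⟨_, rfl⟩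
  have hx1 : 1 ≤ x := by omega
  have hn25 : n ≤ 25 * x := by omega
  have hm58 : m ≤ 58 * x := by omega
  have hIx : I.card ≤ x := by omega
  have hnn : n * n ≤ 25 * x * (25 * x) := Nat.mul_le_mul hn25 hn25
  have h7 : m * (n * n) ≤ 58 * x * (25 * x * (25 * x)) := Nat.mul_le_mul hm58 hnn
  have h8 : 2 * (m * (n * n)) * I.card ≤ 2 * (58 * x * (25 * x * (25 * x))) * x :=
    Nat.mul_le_mul (Nat.mul_le_mul_left 2 h7) hIx
  rw [← hx]
  have h9 : 2 * (58 * x * (25 * x * (25 * x))) * x = 72500 * x ^ 4 := by ring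
  rw [h9] at h8
  have h10 : 72500 * x ^ 4 ≤ 100000 * x ^ 4 := Nat.mul_le_mul_right _ (by norm_num)
  exact htot.trans (h8.trans h10)

end Pool.Agent.FGT
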