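import Pool.Agent.FGT.DcA

/-!
# FGT-AlH1: even sets of corners are closed

A set of corners is closed if and only if it has an even number of corners at every vertex and at every face.
-/

set_option autoImplicit false

open Finset
open scoped Classical

namespace Pool.Agent.FGT

open Pool.Agent.Helper35.OG (Flag GMap across side)
open Pool.Agent.BEO (F2 ed rp cyc ev bdF nb)

variable {V : Type} {G : SimpleGraph V} [Fintype V]

private theorem ah_even {Y : Type} (A : Finset Y) (s : Y → Y) (h1 : ∀ x ∈ A, s x ∈ A) (h2 : ∀ x, s (s x) = x)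
    (h3 : ∀ x, s x ≠ x) : 2 ∣ A.card := by
  have e1 : ∑ _x ∈ A, (1 : ZMod 2) = 0 :=
    Finset.sum_involution (fun x _ => s x) (fun x _ => by decide) (fun x _ _ => h3 x) (fun x hx => h1 x hx)
      (fun x _ => h2 x)
  rw [Finset.sum_const, nsmul_eq_mul, mul_one] at e1
  exact (ZMod.natCast_eq_zero_iff _ _).1 e1

private theorem ah_f2 (a : ZMod 2) (h : a ≠ 1) : a = 0 := by
  revert a
  decide

private theorem ah_four {Y T : Type} [Fintype Y] (n s : Y → Y) (hn : ∀ x, n (n x) = x) (hn' : ∀ x, n x ≠ x)
    (hs : ∀ x, s (s x) = x) (hs' : ∀ x, s x ≠ x) (W : Y → T) (hWn : ∀ x, W (n x) = W x) (hWs : ∀ x, W (s x) = W x)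
    (w : T) (X : Finset Y) (L : Y → F2) (h1 : ∀ x, L (s x) = L x) (h2 : ∀ x, L (n x) = L x + if x ∈ X then 1 else 0) :
    4 ∣ (X.filter fun y => W y = w).card := by
  have hX : ∀ x ∈ X, n x ∈ X := by
    intro x hx
    by_contra hc
    have e1 := h2 x
    have e2 := h2 (n x)
    rw [if_pos hx] at e1
    rw [if_neg hc, hn, add_zero] at e2
    rw [← e2] at e1
    have e3 : L x + 0 = L x + 1 := by rw [add_zero]; exact e1
    exact absurd (add_left_cancel e3) (by decide)
  have hd1 : 2 ∣ ((univ : Finset Y).filter fun y => W y = w ∧ L y = 1).card := by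
    refine ah_even _ s (fun x hx => ?_) hs hs'
    rw [Finset.mem_filter] at hx ⊢
    rw [hWs, h1]
    exact ⟨Finset.mem_univ _, hx.2⟩
  have hd2 : 2 ∣ (((univ : Finset Y).filter fun y => W y = w ∧ L y = 1).filter fun y => ¬ y ∈ X).card := by
    refine ah_even _ n (fun x hx => ?_) hn hn'
    rw [Finset.mem_filter, Finset.mem_filter] at hx ⊢
    obtain ⟨⟨-, h3, h4⟩, h5⟩ := hx
    refine ⟨⟨Finset.mem_univ _, (hWn x).trans h3, ?_⟩, fun h6 => h5 ?_⟩
    · rw [h2 x, if_neg h5, add_zero, h4]
    · have h7 := hX _ h6
      rwa [hn] at h7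
  have hsum := Finset.card_filter_add_card_filter_not (s := (univ : Finset Y).filter fun y => W y = w ∧ L y = 1)
    (fun y => y ∈ X)
  have hsum2 := Finset.card_filter_add_card_filter_not (s := X.filter fun y => W y = w) (fun y => L y = 1)
  have heq : (((univ : Finset Y).filter fun y => W y = w ∧ L y = 1).filter fun y => y ∈ X) =
      (X.filter fun y => W y = w).filter fun y => L y = 1 := by
    ext y
    simp only [Finset.mem_filter, Finset.mem_univ, true_and]
    tauto
  have hbij : ((X.filter fun y => W y = w).filter fun y => L y = 1).card =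
      ((X.filter fun y => W y = w).filter fun y => ¬ L y = 1).card := by
    refine Finset.card_nbij' n n ?_ ?_ (fun x _ => hn x) (fun x _ => hn x)
    · intro x hx
      have hx' : x ∈ (X.filter fun y => W y = w).filter fun y => L y = 1 := hx
      show n x ∈ (X.filter fun y => W y = w).filter fun y => ¬ L y = 1
      rw [Finset.mem_filter, Finset.mem_filter] at hx' ⊢
      refine ⟨⟨hX x hx'.1.1, (hWn x).trans hx'.1.2⟩, ?_⟩
      rw [h2 x, if_pos hx'.1.1, hx'.2]
      decide
    · intro x hx
      have hx' : x ∈ (X.filter fun y => W y = w).filter fun y => ¬ L y = 1 := hx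
      show n x ∈ (X.filter fun y => W y = w).filter fun y => L y = 1
      rw [Finset.mem_filter, Finset.mem_filter] at hx' ⊢
      refine ⟨⟨hX x hx'.1.1, (hWn x).trans hx'.1.2⟩, ?_⟩
      rw [h2 x, if_pos hx'.1.1, ah_f2 _ hx'.2]
      decide
  rw [heq] at hsum
  obtain ⟨a, ha⟩ := hd1
  obtain ⟨b, hb⟩ := hd2
  refine ⟨a - b, ?_⟩
  omega

theorem potT {Y : Type} [Fintype Y] (n s : Y → Y) (hn : ∀ x, n (n x) = x) (hn' : ∀ x, n x ≠ x) (hs : ∀ x, s (s x) = x)
    (hs' : ∀ x, s x ≠ x) (T : Finset Y) (hT : ∀ x ∈ T, n x ∈ T)
    (h4 : ∀ x, 4 ∣ (T.filter fun y => Relation.EqvGen (fun a b => b = n a ∨ b = s a) x y).card) :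
    ∃ L : Y → F2, (∀ x, L (s x) = L x) ∧ ∀ x, L (n x) = L x + if x ∈ T then 1 else 0 := by
  generalize hN : T.card = N
  induction N using Nat.strong_induction_on generalizing T with
  | _ N ih =>
    by_cases he : T = ∅
    · subst he
      refine ⟨fun _ => 0, fun _ => rfl, fun x => ?_⟩
      rw [if_neg (Finset.notMem_empty x), add_zero]
    · obtain ⟨p, hp⟩ := Finset.nonempty_iff_ne_empty.2 he
      have hpO : p ∈ T.filter fun y => Relation.EqvGen (fun a b => b = n a ∨ b = s a) p y :=
        Finset.mem_filter.2 ⟨hp, Relation.EqvGen.refl p⟩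
      have hq : ∃ q, q ∈ T ∧ Relation.EqvGen (fun a b => b = n a ∨ b = s a) p q ∧ q ≠ p ∧ q ≠ n p := by
        by_contra hc
        have h5 : (T.filter fun y => Relation.EqvGen (fun a b => b = n a ∨ b = s a) p y) ⊆ {p, n p} := by
          intro y hy
          rw [Finset.mem_filter] at hy
          rw [Finset.mem_insert, Finset.mem_singleton]
          by_contra h6
          exact hc ⟨y, hy.1, hy.2, fun h => h6 (Or.inl h), fun h => h6 (Or.inr h)⟩
        have h6 := (Finset.card_le_card h5).trans Finset.card_le_two
        have h7 : 0 < (T.filter fun y => Relation.EqvGen (fun a b => b = n a ∨ b = s a) p y).card :=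
          Finset.card_pos.2 ⟨p, hpO⟩
        have h8 := Nat.le_of_dvd h7 (h4 p)
        omega
      obtain ⟨q, hqT, hpq, h1, h2⟩ := hq
      obtain ⟨L1, hL1, hL1'⟩ := pot2 n s hn hn' hs hs' p q hpq h1 h2
      have hPn : ∀ x, (n x = p ∨ n x = n p ∨ n x = q ∨ n x = n q) → (x = p ∨ x = n p ∨ x = q ∨ x = n q) := by
        intro x hx
        rcases hx with h | h | h | h
        · exact Or.inr (Or.inl (by rw [← hn x, h]))
        · exact Or.inl (by rw [← hn x, h, hn])
        · exact Or.inr (Or.inr (Or.inr (by rw [← hn x, h])))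
        · exact Or.inr (Or.inr (Or.inl (by rw [← hn x, h, hn])))
      have hPT : ∀ x, (x = p ∨ x = n p ∨ x = q ∨ x = n q) → x ∈ T := by
        rintro x (rfl | rfl | rfl | rfl)
        · exact hp
        · exact hT _ hp
        · exact hqT
        · exact hT _ hqT
      have hT' : ∀ x ∈ T.filter (fun x => ¬ (x = p ∨ x = n p ∨ x = q ∨ x = n q)),
          n x ∈ T.filter (fun x => ¬ (x = p ∨ x = n p ∨ x = q ∨ x = n q)) := by
        intro x hx
        rw [Finset.mem_filter] at hx ⊢
        exact ⟨hT x hx.1, fun h => hx.2 (hPn x h)⟩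
      have h4' : ∀ x, 4 ∣ ((T.filter (fun x => ¬ (x = p ∨ x = n p ∨ x = q ∨ x = n q))).filter
          fun y => Relation.EqvGen (fun a b => b = n a ∨ b = s a) x y).card := by
        intro x
        by_cases hxp : Relation.EqvGen (fun a b => b = n a ∨ b = s a) x p
        · have hn1 : ∀ y, Relation.EqvGen (fun a b => b = n a ∨ b = s a) y (n y) := fun y =>
            Relation.EqvGen.rel _ _ (Or.inl rfl)
          have hPx : ∀ y, (y = p ∨ y = n p ∨ y = q ∨ y = n q) →
              Relation.EqvGen (fun a b => b = n a ∨ b = s a) x y := by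
            rintro y (rfl | rfl | rfl | rfl)
            · exact hxp
            · exact Relation.EqvGen.trans _ _ _ hxp (hn1 _)
            · exact Relation.EqvGen.trans _ _ _ hxp hpq
            · exact Relation.EqvGen.trans _ _ _ (Relation.EqvGen.trans _ _ _ hxp hpq) (hn1 _)
          have c4 : ({p, n p, q, n q} : Finset Y).card = 4 := by
            have b1 : p ∉ ({n p, q, n q} : Finset Y) := by
              simp only [Finset.mem_insert, Finset.mem_singleton]
              rintro (h | h | h)
              · exact hn' p h.symm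
              · exact h1 h.symm
              · exact h2 (by rw [h, hn])
            have b2 : n p ∉ ({q, n q} : Finset Y) := by
              simp only [Finset.mem_insert, Finset.mem_singleton]
              rintro (h | h)
              · exact h2 h.symm
              · exact h1 (by rw [← hn q, ← h, hn])
            have b3 : q ∉ ({n q} : Finset Y) := by
              rw [Finset.mem_singleton]
              exact fun h => hn' q h.symm
            rw [Finset.card_insert_of_notMem b1, Finset.card_insert_of_notMem b2, Finset.card_insert_of_notMem b3,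
              Finset.card_singleton]
          have e1 : (T.filter fun y => Relation.EqvGen (fun a b => b = n a ∨ b = s a) x y) =
              ((T.filter (fun x => ¬ (x = p ∨ x = n p ∨ x = q ∨ x = n q))).filter
                fun y => Relation.EqvGen (fun a b => b = n a ∨ b = s a) x y) ∪ {p, n p, q, n q} := by
            ext y
            simp only [Finset.mem_union, Finset.mem_filter, Finset.mem_insert, Finset.mem_singleton]
            constructor
            · rintro ⟨h5, h6⟩
              by_cases h7 : y = p ∨ y = n p ∨ y = q ∨ y = n q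
              · exact Or.inr h7
              · exact Or.inl ⟨⟨h5, h7⟩, h6⟩
            · rintro (⟨⟨h5, -⟩, h6⟩ | h5)
              · exact ⟨h5, h6⟩
              · exact ⟨hPT y h5, hPx y h5⟩
          have e2 : Disjoint ((T.filter (fun x => ¬ (x = p ∨ x = n p ∨ x = q ∨ x = n q))).filter
                fun y => Relation.EqvGen (fun a b => b = n a ∨ b = s a) x y) {p, n p, q, n q} := by
            rw [Finset.disjoint_left]
            intro y hy hy'
            simp only [Finset.mem_filter] at hy
            simp only [Finset.mem_insert, Finset.mem_singleton] at hy'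
            exact hy.1.2 hy'
          have e3 := h4 x
          rw [e1, Finset.card_union_of_disjoint e2, c4] at e3
          exact (Nat.dvd_add_left (dvd_refl 4)).1 e3
        · have e1 : ((T.filter (fun x => ¬ (x = p ∨ x = n p ∨ x = q ∨ x = n q))).filter
                fun y => Relation.EqvGen (fun a b => b = n a ∨ b = s a) x y) =
              T.filter fun y => Relation.EqvGen (fun a b => b = n a ∨ b = s a) x y := by
            ext y
            simp only [Finset.mem_filter]
            constructor
            · rintro ⟨⟨h5, -⟩, h6⟩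
              exact ⟨h5, h6⟩
            · rintro ⟨h5, h6⟩
              refine ⟨⟨h5, fun h7 => hxp ?_⟩, h6⟩
              have hn1 : ∀ y, Relation.EqvGen (fun a b => b = n a ∨ b = s a) (n y) y := fun y =>
                Relation.EqvGen.symm _ _ (Relation.EqvGen.rel _ _ (Or.inl rfl))
              refine Relation.EqvGen.trans _ _ _ h6 ?_
              rcases h7 with rfl | rfl | rfl | rfl
              · exact Relation.EqvGen.refl _
              · exact hn1 _
              · exact Relation.EqvGen.symm _ _ hpq
              · exact Relation.EqvGen.trans _ _ _ (hn1 _) (Relation.EqvGen.symm _ _ hpq)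
          rw [e1]
          exact h4 x
      have hlt : (T.filter (fun x => ¬ (x = p ∨ x = n p ∨ x = q ∨ x = n q))).card < N := by
        rw [← hN]
        refine Finset.card_lt_card ⟨Finset.filter_subset _ _, fun hc => ?_⟩
        have h5 := hc hp
        rw [Finset.mem_filter] at h5
        exact h5.2 (Or.inl rfl)
      obtain ⟨L', hL', hL''⟩ := ih _ hlt _ hT' h4' rfl
      refine ⟨fun x => L1 x + L' x, fun x => ?_, fun x => ?_⟩
      · show L1 (s x) + L' (s x) = L1 x + L' x
        rw [hL1, hL']
      · show L1 (n x) + L' (n x) = L1 x + L' x + _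
        rw [hL1', hL'']
        by_cases h5 : x = p ∨ x = n p ∨ x = q ∨ x = n q
        · have h6 : x ∉ T.filter (fun x => ¬ (x = p ∨ x = n p ∨ x = q ∨ x = n q)) := by
            rw [Finset.mem_filter]
            exact fun h => h.2 h5
          rw [if_pos h5, if_neg h6, if_pos (hPT x h5)]
          ring
        · by_cases h7 : x ∈ T
          · have h6 : x ∈ T.filter (fun x => ¬ (x = p ∨ x = n p ∨ x = q ∨ x = n q)) := by
              rw [Finset.mem_filter]
              exact ⟨h7, h5⟩
            rw [if_neg h5, if_pos h6, if_pos h7]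
            ring
          · have h6 : x ∉ T.filter (fun x => ¬ (x = p ∨ x = n p ∨ x = q ∨ x = n q)) := by
              rw [Finset.mem_filter]
              exact fun h => h7 h.1
            rw [if_neg h5, if_neg h6, if_neg h7]
            ring

theorem even_cld (S : GMap G) (X : Finset (Flag G)) (hX : NC S X)
    (hv : ∀ v, 4 ∣ (X.filter fun p => p.1.fst = v).card) (hf : ∀ f, 4 ∣ (X.filter fun p => S.face p = f).card) :
    Cld S X := by
  have hv' : ∀ x : Flag G, (X.filter fun y => Relation.EqvGen (fun a b => b = S.nxt a ∨ b = side a) x y) =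
      X.filter fun y => y.1.fst = x.1.fst := by
    intro x
    ext y
    rw [Finset.mem_filter, Finset.mem_filter]
    refine and_congr_right fun _ => ⟨fun h => ?_, fun h => S.conn x y h.symm⟩
    have key : ∀ a b : Flag G, Relation.EqvGen (fun a b => b = S.nxt a ∨ b = side a) a b → b.1.fst = a.1.fst := by
      intro a b h
      induction h with
      | rel a b h =>
        rcases h with rfl | rfl
        · exact S.nxt_fst a
        · rfl
      | refl a => rfl
      | symm a b _ ih => exact ih.symm
      | trans a b c _ _ ih1 ih2 => exact ih2.trans ih1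
    exact key x y h
  have hf' : ∀ x : Flag G, (X.filter fun y => Relation.EqvGen (fun a b => b = S.nxt a ∨ b = across a) x y) =
      X.filter fun y => S.face y = S.face x := by
    intro x
    ext y
    rw [Finset.mem_filter, Finset.mem_filter]
    exact and_congr_right fun _ => ⟨fun h => (Quot.eqvGen_sound h).symm, fun h => Quot.eqvGen_exact h.symm⟩
  have fin : ∀ L : Flag G → F2,
      (∀ x, L (S.nxt x) = L x + @ite _ (x ∈ X) (@Finset.decidableMem _ (fun a b => Classical.propDecidable _) _ _) 1 0) →
      ∀ x, L (S.nxt x) = L x + if x ∈ X then 1 else 0 := by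
    intro L h2 x
    rw [h2 x]
    by_cases hx : x ∈ X
    · rw [if_pos hx, if_pos hx]
    · rw [if_neg hx, if_neg hx]
  constructor
  · obtain ⟨L, e1, e2⟩ := potT S.nxt side S.nxt_nxt S.nxt_ne Pool.Agent.Helper35.OG.side_side
      Pool.Agent.Helper35.OG.side_ne X hX (fun x => by rw [hv' x]; exact hv _)
    exact ⟨L, e1, fin L e2⟩
  · obtain ⟨L, e1, e2⟩ := potT S.nxt across S.nxt_nxt S.nxt_ne Pool.Agent.Helper35.OG.across_across
      Pool.Agent.Helper35.OG.across_ne X hX (fun x => by rw [hf' x]; exact hf _)
    exact ⟨L, e1, fin L e2⟩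

theorem cld_even (S : GMap G) (X : Finset (Flag G)) (hX : Cld S X) :
    (∀ v, 4 ∣ (X.filter fun p => p.1.fst = v).card) ∧ ∀ f, 4 ∣ (X.filter fun p => S.face p = f).card := by
  obtain ⟨⟨L, h1, h2⟩, L', h3, h4⟩ := hX
  have fin : ∀ L : Flag G → F2, (∀ x, L (S.nxt x) = L x + if x ∈ X then 1 else 0) → ∀ x, L (S.nxt x) =
      L x + @ite _ (x ∈ X) (@Finset.decidableMem _ (fun a b => Classical.propDecidable _) _ _) 1 0 := by
    intro L h2 x
    rw [h2 x]
    by_cases hx : x ∈ X
    · rw [if_pos hx, if_pos hx]
    · rw [if_neg hx, if_neg hx]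
  refine ⟨fun v => ?_, fun f => ?_⟩
  · exact ah_four S.nxt side S.nxt_nxt S.nxt_ne Pool.Agent.Helper35.OG.side_side Pool.Agent.Helper35.OG.side_ne
      (fun p => p.1.fst) S.nxt_fst (fun _ => rfl) v X L h1 (fin L h2)
  · exact ah_four S.nxt across S.nxt_nxt S.nxt_ne Pool.Agent.Helper35.OG.across_across
      Pool.Agent.Helper35.OG.across_ne S.face (Pool.Agent.Helper35.OG.face_nxt S)
      (Pool.Agent.Helper35.OG.face_across S) f X L' h3 (fin L' h4)

end Pool.Agent.FGT
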