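import Pool.Agent.FGT.DcA2
import Pool.Agent.FGT.AlH1
import Pool.Agent.Helper58.OG.Lw

/-!
# FGT-AlH3: minimal closed sets of corners are small
-/

set_option autoImplicit false

open Finset
open scoped Classical

namespace Pool.Agent.FGT

open Pool.Agent.Helper35.OG (Flag GMap across side)
open Pool.Agent.BEO (F2 ed rp cyc ev bdF nb)

variable {V : Type} {G : SimpleGraph V} [Fintype V]

private theorem h3_cnt (S : GMap G) (P : Flag G → Prop) [DecidablePred P] (hP : ∀ p, P (S.nxt p) ↔ P p) :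
    (univ.filter P).card = 2 * (univ.filter fun r : S.Rep => P r.1).card := by
  have h := Pool.Agent.Helper35.OG.sum_rep S (fun p => if P p then (1 : ℕ) else 0)
  rw [Finset.card_filter, Finset.card_filter, h, Finset.mul_sum]
  refine Finset.sum_congr rfl fun r _ => ?_
  rw [if_congr (hP r.1) rfl rfl, two_mul]

private theorem h3_dlt (S : GMap G) (A : Finset G.edgeSet) (p : Flag G) :
    p ∈ dlt S A ↔ ¬ (ed p ∈ A ↔ ed (S.nxt p) ∈ A) := by
  unfold dlt
  rw [Finset.mem_filter]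
  exact ⟨fun h => h.2, fun h => ⟨Finset.mem_univ _, h⟩⟩

private theorem h3_dltn (S : GMap G) (A : Finset G.edgeSet) (p : Flag G) : S.nxt p ∈ dlt S A ↔ p ∈ dlt S A := by
  rw [h3_dlt, h3_dlt, S.nxt_nxt]
  exact not_congr ⟨fun h => h.symm, fun h => h.symm⟩

private theorem h3_rep (S : GMap G) (P : Flag G → Prop) (hP : ∀ p, P (S.nxt p) ↔ P p) (p : Flag G) :
    P (S.rep p).1 ↔ P p := by
  rcases Pool.Agent.Helper35.OG.rep_eq S p with h | h
  · rw [h]
  · rw [h, hP]

private theorem h3_xor (S : GMap G) (A B : Finset G.edgeSet) (p : Flag G) :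
    (if p ∈ dlt S (symmDiff A B) then (1 : F2) else 0) =
      (if p ∈ dlt S A then 1 else 0) + if p ∈ dlt S B then 1 else 0 := by
  have h1 : ∀ x : F2, x + x = 0 := fun x => CharTwo.add_self_eq_zero x
  by_cases a1 : ed p ∈ A <;> by_cases a2 : ed (S.nxt p) ∈ A <;> by_cases b1 : ed p ∈ B <;>
    by_cases b2 : ed (S.nxt p) ∈ B <;>
    simp [h3_dlt, Finset.mem_symmDiff, a1, a2, b1, b2, h1]

/-- the space of the cuts -/
private noncomputable def h3_Cu (S : GMap G) : Submodule F2 (S.Rep → F2) where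
  carrier := {x | ∃ A : Finset G.edgeSet, ∀ r : S.Rep, x r = if r.1 ∈ dlt S A then 1 else 0}
  add_mem' := by
    rintro x y ⟨A, hA⟩ ⟨B, hB⟩
    refine ⟨symmDiff A B, fun r => ?_⟩
    rw [h3_xor, Pi.add_apply, hA, hB]
  zero_mem' := by
    refine ⟨∅, fun r => ?_⟩
    rw [Pi.zero_apply, if_neg]
    rw [h3_dlt, not_not]
    exact ⟨fun h => absurd h (Finset.notMem_empty _), fun h => absurd h (Finset.notMem_empty _)⟩
  smul_mem' := by
    rintro c x ⟨A, hA⟩
    rcases Pool.Agent.Helper35.OG.f2_cases c with hc | hc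
    · refine ⟨∅, fun r => ?_⟩
      rw [hc, zero_smul, Pi.zero_apply, if_neg]
      rw [h3_dlt, not_not]
      exact ⟨fun h => absurd h (Finset.notMem_empty _), fun h => absurd h (Finset.notMem_empty _)⟩
    · refine ⟨A, fun r => ?_⟩
      rw [hc, one_smul, hA]

private theorem h3_mem (S : GMap G) (x : S.Rep → F2) : x ∈ h3_Cu S ↔
    ∃ A : Finset G.edgeSet, ∀ r : S.Rep, x r = if r.1 ∈ dlt S A then 1 else 0 := Iff.rfl

/-- the ends of a corner -/
private noncomputable def ha (S : GMap G) (r : S.Rep) : V ⊕ S.Face := Sum.inl r.1.1.fst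

private noncomputable def hb (S : GMap G) (r : S.Rep) : V ⊕ S.Face := Sum.inr (S.face r.1)

private theorem h3_dgl (S : GMap G) (nu : Finset S.Rep) (v : V) :
    Pool.Agent.Helper35.OG.dg (ha S) (hb S) nu (Sum.inl v) = (nu.filter fun r => r.1.1.fst = v).card := by
  unfold Pool.Agent.Helper35.OG.dg
  have h1 : (nu.filter fun e => hb S e = Sum.inl v) = ∅ := by
    rw [Finset.filter_eq_empty_iff]
    intro e _ h
    exact absurd h (by unfold hb; simp)
  have h2 : (nu.filter fun e => ha S e = Sum.inl v) = nu.filter fun r => r.1.1.fst = v := by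
    refine Finset.filter_congr fun e _ => ?_
    exact ⟨fun h => Sum.inl.inj h, fun h => congrArg Sum.inl h⟩
  rw [h1, h2, Finset.card_empty, add_zero]

private theorem h3_dgr (S : GMap G) (nu : Finset S.Rep) (f : S.Face) :
    Pool.Agent.Helper35.OG.dg (ha S) (hb S) nu (Sum.inr f) = (nu.filter fun r => S.face r.1 = f).card := by
  unfold Pool.Agent.Helper35.OG.dg
  have h1 : (nu.filter fun e => ha S e = Sum.inr f) = ∅ := by
    rw [Finset.filter_eq_empty_iff]
    intro e _ h
    exact absurd h (by unfold ha; simp)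
  have h2 : (nu.filter fun e => hb S e = Sum.inr f) = nu.filter fun r => S.face r.1 = f := by
    refine Finset.filter_congr fun e _ => ?_
    exact ⟨fun h => Sum.inr.inj h, fun h => congrArg Sum.inr h⟩
  rw [h1, h2, Finset.card_empty, zero_add]

/-- the number of the flags of the corners of `nu` with an invariant property -/
private theorem h3_fc (S : GMap G) (nu : Finset S.Rep) (P : Flag G → Prop) [DecidablePred P] (hP : ∀ p, P (S.nxt p) ↔ P p) :
    ((univ.filter fun p => S.rep p ∈ nu).filter P).card = 2 * (nu.filter fun r => P r.1).card := by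
  rw [Finset.filter_filter, h3_cnt S (fun p => S.rep p ∈ nu ∧ P p) (fun p => by
    rw [Pool.Agent.Helper35.OG.rep_nxt, hP])]
  congr 2
  refine Finset.ext fun r => ?_
  rw [Finset.mem_filter, Finset.mem_filter, Pool.Agent.Helper35.OG.rep_rep]
  exact ⟨fun h => h.2, fun h => ⟨Finset.mem_univ _, h⟩⟩

private theorem h3_cld (S : GMap G) (nu : Finset S.Rep)
    (h : Pool.Agent.Helper35.OG.bd (ha S) (hb S) (Pool.Agent.Helper35.OG.ind nu) = 0) :
    Cld S (univ.filter fun p => S.rep p ∈ nu) := by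
  refine even_cld S _ (fun p hp => ?_) (fun v => ?_) (fun f => ?_)
  · rw [Finset.mem_filter] at hp ⊢
    rw [Pool.Agent.Helper35.OG.rep_nxt]
    exact ⟨Finset.mem_univ _, hp.2⟩
  · rw [h3_fc S nu (fun p => p.1.fst = v) (fun p => by rw [S.nxt_fst])]
    have h1 := Pool.Agent.Helper35.OG.dg_even (ha S) (hb S) h (Sum.inl v)
    rw [h3_dgl] at h1
    obtain ⟨c, hc⟩ := h1
    rw [hc]
    exact ⟨c, by ring⟩
  · rw [h3_fc S nu (fun p => S.face p = f) (fun p => by rw [Pool.Agent.Helper35.OG.face_nxt])]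
    have h1 := Pool.Agent.Helper35.OG.dg_even (ha S) (hb S) h (Sum.inr f)
    rw [h3_dgr] at h1
    obtain ⟨c, hc⟩ := h1
    rw [hc]
    exact ⟨c, by ring⟩

private theorem h3_dim [Nontrivial V] (hG : G.Connected) (S : GMap G) (k : ℕ) (hk : S.eg ≤ k) :
    Module.finrank F2 ((LinearMap.ker (Pool.Agent.Helper35.OG.bd (ha S) (hb S))).map (h3_Cu S).mkQ) ≤ k := by
  by_contra hcon
  push Not at hcon
  obtain ⟨f, hf⟩ := exists_linearIndependent_of_le_finrank (R := F2)
    (M := ((LinearMap.ker (Pool.Agent.Helper35.OG.bd (ha S) (hb S))).map (h3_Cu S).mkQ)) (n := k + 1) hcon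
  have hx : ∀ i, ∃ x : S.Rep → F2, Pool.Agent.Helper35.OG.bd (ha S) (hb S) x = 0 ∧ (h3_Cu S).mkQ x = (f i).1 := by
    intro i
    obtain ⟨x, hx1, hx2⟩ := (f i).2
    exact ⟨x, LinearMap.mem_ker.1 hx1, hx2⟩
  choose x hx1 hx2 using hx
  obtain ⟨I, ⟨i0, hi0⟩, A, hA⟩ := cld_dep hG S k hk
    (fun i => univ.filter fun p => S.rep p ∈ Pool.Agent.Helper35.OG.supp (x i)) (fun i => by
      refine h3_cld S _ ?_
      rw [Pool.Agent.Helper35.OG.ind_supp]
      exact hx1 i)
  have hsum : ∑ i ∈ I, x i ∈ h3_Cu S := by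
    rw [h3_mem]
    refine ⟨A, fun r => ?_⟩
    rw [hA r.1, Finset.sum_apply]
    refine Finset.sum_congr rfl fun i _ => ?_
    have h1 : r.1 ∈ (univ.filter fun p => S.rep p ∈ Pool.Agent.Helper35.OG.supp (x i)) ↔ x i r ≠ 0 := by
      rw [Finset.mem_filter, Pool.Agent.Helper35.OG.rep_rep, Pool.Agent.Helper35.OG.mem_supp]
      exact and_iff_right (Finset.mem_univ _)
    rcases Pool.Agent.Helper35.OG.f2_cases (x i r) with h2 | h2
    · rw [if_neg (fun h => h1.1 h h2), h2]
    · rw [if_pos (h1.2 (by rw [h2]; exact one_ne_zero)), h2]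
  have h0 : ∑ i, (if i ∈ I then (1 : F2) else 0) • f i = 0 := by
    refine Subtype.ext ?_
    have h1 : (h3_Cu S).mkQ (∑ i ∈ I, x i) = 0 := (Submodule.Quotient.mk_eq_zero _).2 hsum
    rw [map_sum] at h1
    have h2 : ((∑ i, (if i ∈ I then (1 : F2) else 0) • f i : _) : (S.Rep → F2) ⧸ h3_Cu S) =
        ∑ i, (if i ∈ I then (1 : F2) else 0) • (f i).1 := by
      rw [AddSubmonoidClass.coe_finsetSum]
      rfl
    rw [h2]
    refine Eq.trans ?_ h1
    rw [← Finset.sum_filter_add_sum_filter_not univ (fun i => i ∈ I)]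
    have h3 : ∑ i ∈ univ.filter (fun i => i ∉ I), (if i ∈ I then (1 : F2) else 0) • (f i).1 = 0 := by
      refine Finset.sum_eq_zero fun i hi => ?_
      rw [if_neg (Finset.mem_filter.1 hi).2, zero_smul]
    have h4 : univ.filter (fun i => i ∈ I) = I := by
      refine Finset.ext fun i => ?_
      rw [Finset.mem_filter]
      exact and_iff_right (Finset.mem_univ _)
    rw [h3, h4, add_zero]
    refine Finset.sum_congr rfl fun i hi => ?_
    rw [if_pos hi, one_smul, hx2]
  have h5 := Fintype.linearIndependent_iff.1 hf _ h0 i0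
  rw [if_pos hi0] at h5
  exact one_ne_zero h5

theorem small_nu [Nontrivial V] (hG : G.Connected) (S : GMap G) (k : ℕ) (hk : S.eg ≤ k) (X : Finset (Flag G))
    (hX : Cld S X) (hXn : NC S X) :
    ∃ (Y : Finset (Flag G)) (A : Finset G.edgeSet), Y ⊆ X ∧ NC S Y ∧ (∀ p, p ∈ Y ↔ (p ∈ X ↔ p ∉ dlt S A)) ∧
      Y.card ≤ 2 * ((univ.filter fun v : V => ∃ p ∈ X, p.1.fst = v).card + Nat.card {f : S.Face // ∃ p ∈ X, S.face p = f} + k) := by
  have hXi : ∀ p, S.nxt p ∈ X ↔ p ∈ X := fun p => ⟨fun h => by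
    have h1 := hXn _ h
    rwa [S.nxt_nxt] at h1, fun h => hXn p h⟩
  obtain ⟨mu, hmu⟩ : ∃ mu : Finset S.Rep, mu = univ.filter fun r : S.Rep => r.1 ∈ X := ⟨_, rfl⟩
  have hmem : ∀ r : S.Rep, r ∈ mu ↔ r.1 ∈ X := fun r => by
    rw [hmu, Finset.mem_filter]
    exact and_iff_right (Finset.mem_univ _)
  have hXmu : X = univ.filter fun p => S.rep p ∈ mu := by
    refine Finset.ext fun p => ?_
    rw [Finset.mem_filter, hmem, h3_rep S (fun p => p ∈ X) hXi]
    exact ⟨fun h => ⟨Finset.mem_univ _, h⟩, fun h => h.2⟩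
  obtain ⟨hc1, hc2⟩ := cld_even S X hX
  have hbd : Pool.Agent.Helper35.OG.bd (ha S) (hb S) (Pool.Agent.Helper35.OG.ind mu) = 0 := by
    refine Pool.Agent.Helper35.OG.bd_of_even (ha S) (hb S) fun v => ?_
    rcases v with v | f
    · rw [h3_dgl]
      have h1 := hc1 v
      rw [hXmu, h3_fc S mu (fun p => p.1.fst = v) (fun p => by rw [S.nxt_fst])] at h1
      obtain ⟨c, hc⟩ := h1
      exact ⟨c, by omega⟩
    · rw [h3_dgr]
      have h1 := hc2 f
      rw [hXmu, h3_fc S mu (fun p => S.face p = f) (fun p => by rw [Pool.Agent.Helper35.OG.face_nxt])] at h1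
      obtain ⟨c, hc⟩ := h1
      exact ⟨c, by omega⟩
  obtain ⟨nu, hn1, -, hn3, hn4⟩ := Pool.Agent.Helper58.OG.exists_small (ha S) (hb S) (h3_Cu S).mkQ
    (h3_dim hG S k hk) mu hbd
    ((univ.filter fun v : V => ∃ p ∈ X, p.1.fst = v).disjSum (univ.filter fun f : S.Face => ∃ p ∈ X, S.face p = f))
    (fun e he => by
      refine ⟨?_, ?_⟩
      · show Sum.inl e.1.1.fst ∈ _
        rw [Finset.inl_mem_disjSum, Finset.mem_filter]
        exact ⟨Finset.mem_univ _, e.1, (hmem e).1 he, rfl⟩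
      · show Sum.inr (S.face e.1) ∈ _
        rw [Finset.inr_mem_disjSum, Finset.mem_filter]
        exact ⟨Finset.mem_univ _, e.1, (hmem e).1 he, rfl⟩)
  have hdiff : Pool.Agent.Helper35.OG.ind nu - Pool.Agent.Helper35.OG.ind mu ∈ h3_Cu S :=
    (Submodule.Quotient.eq _).1 hn3
  obtain ⟨A, hA⟩ := (h3_mem S _).1 hdiff
  refine ⟨univ.filter fun p => S.rep p ∈ nu, A, fun p hp => ?_, fun p hp => ?_, fun p => ?_, ?_⟩
  · have h1 := (hmem _).1 (hn1 (Finset.mem_filter.1 hp).2)
    exact (h3_rep S (fun p => p ∈ X) hXi p).1 h1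
  · rw [Finset.mem_filter] at hp ⊢
    rw [Pool.Agent.Helper35.OG.rep_nxt]
    exact ⟨Finset.mem_univ _, hp.2⟩
  · have h1 := hA (S.rep p)
    rw [Pi.sub_apply] at h1
    unfold Pool.Agent.Helper35.OG.ind at h1
    have h2 : S.rep p ∈ mu ↔ p ∈ X := (hmem _).trans (h3_rep S (fun p => p ∈ X) hXi p)
    have h3 : (S.rep p).1 ∈ dlt S A ↔ p ∈ dlt S A := h3_rep S (fun p => p ∈ dlt S A) (h3_dltn S A) p
    rw [if_congr h2 rfl rfl, if_congr h3 rfl rfl] at h1
    rw [Finset.mem_filter]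
    by_cases a1 : S.rep p ∈ nu <;> by_cases a2 : p ∈ X <;> by_cases a3 : p ∈ dlt S A
    · rw [if_pos a1, if_pos a2, if_pos a3] at h1
      exact absurd h1 (by decide)
    · exact ⟨fun _ => ⟨fun _ => a3, fun _ => a2⟩, fun _ => ⟨Finset.mem_univ _, a1⟩⟩
    · exact ⟨fun _ => ⟨fun h => absurd h a2, fun h => absurd a3 h⟩, fun _ => ⟨Finset.mem_univ _, a1⟩⟩
    · rw [if_pos a1, if_neg a2, if_neg a3] at h1
      exact absurd h1 (by decide)
    · exact ⟨fun h => absurd h.2 a1, fun h => absurd a3 (h.1 a2)⟩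
    · rw [if_neg a1, if_pos a2, if_neg a3] at h1
      exact absurd h1 (by decide)
    · rw [if_neg a1, if_neg a2, if_pos a3] at h1
      exact absurd h1 (by decide)
    · exact ⟨fun h => absurd h.2 a1, fun h => absurd (h.2 a3) a2⟩
  · have h1 : (univ.filter fun p => S.rep p ∈ nu).card = 2 * nu.card := by
      have h2 := h3_fc S nu (fun _ => True) (fun _ => Iff.rfl)
      have h3 : ((univ.filter fun p => S.rep p ∈ nu).filter fun _ => True) = univ.filter fun p => S.rep p ∈ nu :=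
        Finset.filter_true_of_mem (fun _ _ => trivial)
      have h4 : (nu.filter fun _ => True) = nu := Finset.filter_true_of_mem (fun _ _ => trivial)
      exact (congrArg Finset.card h3.symm).trans (h2.trans (congrArg (fun s => 2 * Finset.card s) h4))
    rw [Finset.card_disjSum] at hn4
    have h2 : Nat.card {f : S.Face // ∃ p ∈ X, S.face p = f} =
        (univ.filter fun f : S.Face => ∃ p ∈ X, S.face p = f).card := by
      rw [Nat.card_eq_fintype_card, Fintype.card_subtype]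
    rw [h1, h2]
    omega

end Pool.Agent.FGT
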