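import Pool.Agent.FGT.AlH2
import Pool.Agent.FGT.AlH3

/-!
# FGT-AlH: bad corners at few vertices

Among the `κ` with `IsBand κ` and `bdk S κ ⊆ bdk S κ0` one with the fewest bad flags is taken; `small_nu` bounds its bad flags
by the vertices and faces they touch; a count at the vertices and at the faces gives the bound.
-/

set_option autoImplicit false

open Finset
open scoped Classical

namespace Pool.Agent.FGT

open Pool.Agent.Helper35.OG (Flag GMap across side)
open Pool.Agent.BEO (F2 ed rp cyc ev bdF nb)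
open Pool.Agent.Helper35.OG (IsBand)
open Pool.Agent.BEO (frm IsL dL)
open Pool.Agent.EPH (IsBase cf)

variable {V : Type} {G : SimpleGraph V} [Fintype V]

private theorem alh_count {X B : Type} (T : Finset X) (f : X → B) (h : ∀ x ∈ T, 4 ∣ (T.filter fun y => f y = f x).card) :
    4 * (T.image f).card ≤ T.card := by
  rw [Finset.card_eq_sum_card_image f T, mul_comm, ← smul_eq_mul]
  refine Finset.card_nsmul_le_sum _ _ _ ?_
  intro b hb
  obtain ⟨x, hx, rfl⟩ := Finset.mem_image.mp hb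
  refine Nat.le_of_dvd ?_ (h x hx)
  exact Finset.card_pos.mpr ⟨x, Finset.mem_filter.mpr ⟨hx, rfl⟩⟩

private theorem alh_min (S : GMap G) (κ0 : Flag G → F2) (h0 : IsBand κ0) :
    ∃ κ : Flag G → F2, IsBand κ ∧ bdk S κ ⊆ bdk S κ0 ∧ ∀ κ' : Flag G → F2, IsBand κ' → bdk S κ' ⊆ bdk S κ0 →
      (bdk S κ).card ≤ (bdk S κ').card := by
  have hex : ∃ n, ∃ κ : Flag G → F2, IsBand κ ∧ bdk S κ ⊆ bdk S κ0 ∧ (bdk S κ).card = n :=
    ⟨_, κ0, h0, Finset.Subset.refl _, rfl⟩
  obtain ⟨κ, h1, h2, h3⟩ := Nat.find_spec hex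
  refine ⟨κ, h1, h2, fun κ' h1' h2' => ?_⟩
  rw [h3]
  exact Nat.find_min' hex ⟨κ', h1', h2', rfl⟩

theorem bad_small [Nontrivial V] (hG : G.Connected) (S : GMap G) (k : ℕ) (hk : S.eg ≤ k) (I : Finset V)
    (κ0 : Flag G → F2) (h0 : IsBand κ0) :
    ∃ κ : Flag G → F2, IsBand κ ∧ (∀ p, κ (S.nxt p) = κ p → κ0 (S.nxt p) = κ0 p) ∧
      (univ.filter fun p : Flag G => p.1.fst ∈ I ∧ κ (S.nxt p) = κ p).card ≤ 4 * (I.card + k) := by
  obtain ⟨κ, h1, h2, hmin⟩ := alh_min S κ0 h0
  have hmem : ∀ (κ : Flag G → F2) (p : Flag G), p ∈ bdk S κ ↔ κ (S.nxt p) = κ p := by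
    intro κ p
    unfold bdk
    rw [Finset.mem_filter]
    exact ⟨fun h => h.2, fun h => ⟨Finset.mem_univ _, h⟩⟩
  obtain ⟨hn, hv, hf⟩ := bad_even S κ h1
  obtain ⟨Y, A, hYX, _, hY, hc⟩ := small_nu hG S k hk (bdk S κ) (even_cld S _ hn hv hf) hn
  obtain ⟨h3, h4⟩ := bad_add S κ h1 A
  have hYe : bdk S (fun p => κ p + if ed p ∈ A then 1 else 0) = Y := by
    ext p
    rw [h4, hY]
  have h5 := hmin _ h3 (by rw [hYe]; exact hYX.trans h2)
  rw [hYe] at h5
  have h6 : (bdk S κ).card ≤ 2 * ((univ.filter fun v : V => ∃ p ∈ bdk S κ, p.1.fst = v).card +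
      Nat.card {f : S.Face // ∃ p ∈ bdk S κ, S.face p = f} + k) := h5.trans hc
  have hF : Nat.card {f : S.Face // ∃ p ∈ bdk S κ, S.face p = f} = ((bdk S κ).image S.face).card := by
    rw [← Nat.card_eq_finsetCard]
    exact Nat.card_congr (Equiv.subtypeEquivRight (fun f => by rw [Finset.mem_image]))
  have hV : (univ.filter fun v : V => ∃ p ∈ bdk S κ, p.1.fst = v) = (bdk S κ).image (fun p => p.1.fst) := by
    ext v
    rw [Finset.mem_filter, Finset.mem_image]
    exact ⟨fun h => h.2, fun h => ⟨Finset.mem_univ _, h⟩⟩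
  rw [hF, hV] at h6
  have c1 : 4 * ((bdk S κ).image S.face).card ≤ (bdk S κ).card :=
    alh_count _ _ fun x _ => hf (S.face x)
  have c2 : 4 * (((bdk S κ).filter fun p => ¬ p.1.fst ∈ I).image (fun p => p.1.fst)).card ≤
      ((bdk S κ).filter fun p => ¬ p.1.fst ∈ I).card := by
    apply alh_count
    intro x hx
    rw [Finset.mem_filter] at hx
    have h7 := hv x.1.fst
    have h8 : (((bdk S κ).filter fun p => ¬ p.1.fst ∈ I).filter fun y => y.1.fst = x.1.fst) =
        (bdk S κ).filter fun p => p.1.fst = x.1.fst := by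
      ext y
      simp only [Finset.mem_filter]
      constructor
      · rintro ⟨⟨a, _⟩, b⟩
        exact ⟨a, b⟩
      · rintro ⟨a, b⟩
        exact ⟨⟨a, by rw [b]; exact hx.2⟩, b⟩
    rw [h8]
    exact h7
  have c3 : ((bdk S κ).image (fun p => p.1.fst)).card ≤
      I.card + (((bdk S κ).filter fun p => ¬ p.1.fst ∈ I).image (fun p => p.1.fst)).card := by
    refine le_trans (Finset.card_le_card ?_) (Finset.card_union_le _ _)
    intro v hv'
    obtain ⟨p, hp, rfl⟩ := Finset.mem_image.mp hv'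
    rw [Finset.mem_union]
    by_cases hI : p.1.fst ∈ I
    · exact Or.inl hI
    · exact Or.inr (Finset.mem_image.mpr ⟨p, Finset.mem_filter.mpr ⟨hp, hI⟩, rfl⟩)
  have c4 : ((bdk S κ).filter fun p => p.1.fst ∈ I).card + ((bdk S κ).filter fun p => ¬ p.1.fst ∈ I).card =
      (bdk S κ).card := Finset.card_filter_add_card_filter_not _
  have c5 : (univ.filter fun p : Flag G => p.1.fst ∈ I ∧ κ (S.nxt p) = κ p) =
      (bdk S κ).filter fun p => p.1.fst ∈ I := by
    ext p
    simp only [Finset.mem_filter, hmem, Finset.mem_univ, true_and]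
    exact and_comm
  refine ⟨κ, h1, fun p hp => (hmem κ0 p).mp (h2 ((hmem κ p).mpr hp)), ?_⟩
  rw [c5]
  omega

end Pool.Agent.FGT
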