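import Pool.Agent.FGT.AlDef
import Pool.Agent.FGT.AlH1

/-!
# FGT-AlH2: the bad corners of an orientation of the edge bands
-/

set_option autoImplicit false

open Finset
open scoped Classical

namespace Pool.Agent.FGT

open Pool.Agent.Helper35.OG (Flag GMap across side)
open Pool.Agent.BEO (F2 ed rp cyc ev bdF nb)
open Pool.Agent.Helper35.OG (IsBand)
open Pool.Agent.BEO (frm IsL dL)
open Pool.Agent.EPH (IsBase cf)

variable {V : Type} {G : SimpleGraph V} [Fintype V]

/-- the flags of the corners at which `κ` does not change -/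
noncomputable def bdk (S : GMap G) (κ : Flag G → F2) : Finset (Flag G) := univ.filter fun p => κ (S.nxt p) = κ p

private theorem even_inv {Y : Type} [Fintype Y] (n : Y → Y) (hn : ∀ x, n (n x) = x) (hn' : ∀ x, n x ≠ x)
    (T : Finset Y) (hT : ∀ x ∈ T, n x ∈ T) : 2 ∣ T.card := by
  have h1 : ∑ x ∈ T, (1 : ZMod 2) = 0 := by
    refine Finset.sum_involution (fun x _ => n x) ?_ ?_ ?_ ?_
    · intro x _
      decide
    · intro x _ _
      exact hn' x
    · intro x hx
      exact hT x hx
    · intro x _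
      exact hn x
  rw [Finset.sum_const, nsmul_eq_mul, mul_one] at h1
  exact (ZMod.natCast_eq_zero_iff _ _).1 h1

private theorem four {Y : Type} [Fintype Y] (n s : Y → Y) (hn : ∀ x, n (n x) = x) (hn' : ∀ x, n x ≠ x)
    (hs : ∀ x, s (s x) = x) (P : Y → Prop) (hPn : ∀ x, P (n x) ↔ P x) (hPs : ∀ x, P (s x) ↔ P x) (κ : Y → F2)
    (hκ : ∀ x, κ (s x) ≠ κ x) : 4 ∣ (univ.filter fun x => κ (n x) = κ x ∧ P x).card := by
  have f2 : ∀ a b : F2, a ≠ b → b = 0 → a = 1 := by decide
  have f3 : ∀ a b : F2, a ≠ b → b = 1 → a = 0 := by decide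
  have f4 : ∀ a : F2, a = 0 ∨ a = 1 := by decide
  -- the two classes have the same size
  have h1 : (univ.filter fun x => P x ∧ κ x = 0).card = (univ.filter fun x => P x ∧ κ x = 1).card := by
    refine Finset.card_nbij' s s ?_ ?_ ?_ ?_
    · intro x hx
      obtain ⟨-, h1, h2⟩ := mem_filter.1 hx
      exact mem_filter.2 ⟨mem_univ _, (hPs x).2 h1, f2 _ _ (hκ x) h2⟩
    · intro x hx
      obtain ⟨-, h1, h2⟩ := mem_filter.1 hx
      exact mem_filter.2 ⟨mem_univ _, (hPs x).2 h1, f3 _ _ (hκ x) h2⟩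
    · intro x _
      exact hs x
    · intro x _
      exact hs x
  have h2 : (univ.filter fun x => P x ∧ κ x = 0 ∧ κ (n x) ≠ κ x).card =
      (univ.filter fun x => P x ∧ κ x = 1 ∧ κ (n x) ≠ κ x).card := by
    refine Finset.card_nbij' n n ?_ ?_ ?_ ?_
    · intro x hx
      obtain ⟨-, h1, h2, h3⟩ := mem_filter.1 hx
      refine mem_filter.2 ⟨mem_univ _, (hPn x).2 h1, f2 _ _ h3 h2, ?_⟩
      rw [hn]
      exact h3.symm
    · intro x hx
      obtain ⟨-, h1, h2, h3⟩ := mem_filter.1 hx
      refine mem_filter.2 ⟨mem_univ _, (hPn x).2 h1, f3 _ _ h3 h2, ?_⟩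
      rw [hn]
      exact h3.symm
    · intro x _
      exact hn x
    · intro x _
      exact hn x
  have h3 : ∀ c : F2, (univ.filter fun x => P x ∧ κ x = c).card =
      (univ.filter fun x => P x ∧ κ x = c ∧ κ (n x) = κ x).card +
      (univ.filter fun x => P x ∧ κ x = c ∧ κ (n x) ≠ κ x).card := by
    intro c
    rw [← Finset.card_filter_add_card_filter_not (s := univ.filter fun x => P x ∧ κ x = c)
      (p := fun x => κ (n x) = κ x), Finset.filter_filter, Finset.filter_filter]
    congr 2 <;> exact Finset.filter_congr fun x _ => and_assoc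
  have h4 : 2 ∣ (univ.filter fun x => P x ∧ κ x = 0 ∧ κ (n x) = κ x).card := by
    refine even_inv n hn hn' _ fun x hx => ?_
    obtain ⟨-, h1, h2, h3⟩ := mem_filter.1 hx
    refine mem_filter.2 ⟨mem_univ _, (hPn x).2 h1, h3.trans h2, ?_⟩
    rw [hn]
    exact h3.symm
  have h5 : (univ.filter fun x => κ (n x) = κ x ∧ P x).card =
      (univ.filter fun x => P x ∧ κ x = 0 ∧ κ (n x) = κ x).card +
      (univ.filter fun x => P x ∧ κ x = 1 ∧ κ (n x) = κ x).card := by
    rw [← Finset.card_filter_add_card_filter_not (s := univ.filter fun x => κ (n x) = κ x ∧ P x)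
      (p := fun x => κ x = 0), Finset.filter_filter, Finset.filter_filter]
    congr 2
    · refine Finset.filter_congr fun x _ => ?_
      constructor
      · rintro ⟨⟨a, b⟩, c⟩
        exact ⟨b, c, a⟩
      · rintro ⟨b, c, a⟩
        exact ⟨⟨a, b⟩, c⟩
    · refine Finset.filter_congr fun x _ => ?_
      constructor
      · rintro ⟨⟨a, b⟩, c⟩
        exact ⟨b, (f4 _).resolve_left c, a⟩
      · rintro ⟨b, c, a⟩
        refine ⟨⟨a, b⟩, ?_⟩
        rw [c]
        decide
  have h6 := h3 0
  have h7 := h3 1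
  obtain ⟨m, hm⟩ := h4
  omega

theorem bad_even (S : GMap G) (κ : Flag G → F2) (hκ : IsBand κ) : NC S (bdk S κ) ∧
    (∀ v, 4 ∣ ((bdk S κ).filter fun p => p.1.fst = v).card) ∧ ∀ f, 4 ∣ ((bdk S κ).filter fun p => S.face p = f).card := by
  refine ⟨?_, ?_, ?_⟩
  · intro p hp
    have h1 := (mem_filter.1 hp).2
    refine mem_filter.2 ⟨mem_univ _, ?_⟩
    rw [S.nxt_nxt]
    exact h1.symm
  · intro v
    unfold bdk
    rw [Finset.filter_filter]
    refine four (fun p => S.nxt p) side S.nxt_nxt S.nxt_ne Pool.Agent.Helper35.OG.side_side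
      (fun p : Flag G => p.1.fst = v) (fun p => ?_) (fun p => Iff.rfl) κ (fun p => (hκ p).2)
    show (S.nxt p).1.fst = v ↔ p.1.fst = v
    rw [S.nxt_fst]
  · intro f
    unfold bdk
    rw [Finset.filter_filter]
    refine four (fun p => S.nxt p) across S.nxt_nxt S.nxt_ne Pool.Agent.Helper35.OG.across_across
      (fun p : Flag G => S.face p = f) (fun p => ?_) (fun p => ?_) κ (fun p => (hκ p).1)
    · show S.face (S.nxt p) = f ↔ S.face p = f
      rw [Pool.Agent.Helper35.OG.face_nxt]
    · show S.face (across p) = f ↔ S.face p = f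
      rw [Pool.Agent.Helper35.OG.face_across]

theorem bad_add (S : GMap G) (κ : Flag G → F2) (hκ : IsBand κ) (A : Finset G.edgeSet) :
    IsBand (fun p => κ p + if ed p ∈ A then 1 else 0) ∧
      ∀ p, p ∈ bdk S (fun p => κ p + if ed p ∈ A then 1 else 0) ↔ (p ∈ bdk S κ ↔ p ∉ dlt S A) := by
  constructor
  · intro p
    constructor
    · show κ (across p) + (if ed (across p) ∈ A then 1 else 0) ≠ κ p + (if ed p ∈ A then 1 else 0)
      rw [BEO.ed_across]
      intro h
      exact (hκ p).1 (add_right_cancel h)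
    · show κ (side p) + (if ed (side p) ∈ A then 1 else 0) ≠ κ p + (if ed p ∈ A then 1 else 0)
      rw [BEO.ed_side]
      intro h
      exact (hκ p).2 (add_right_cancel h)
  · intro p
    have h1 : p ∈ bdk S (fun p => κ p + if ed p ∈ A then 1 else 0) ↔
        κ (S.nxt p) + (if ed (S.nxt p) ∈ A then 1 else 0) = κ p + (if ed p ∈ A then 1 else 0) := by
      unfold bdk
      rw [mem_filter]
      exact and_iff_right (mem_univ _)
    have h2 : p ∈ bdk S κ ↔ κ (S.nxt p) = κ p := by
      unfold bdk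
      rw [mem_filter]
      exact and_iff_right (mem_univ _)
    have h3 : p ∈ dlt S A ↔ ¬ (ed p ∈ A ↔ ed (S.nxt p) ∈ A) := by
      unfold dlt
      rw [mem_filter]
      exact and_iff_right (mem_univ _)
    rw [h1, h2, h3, not_not]
    have h4 : ∀ a b : F2, (a + 0 = b + 0 ↔ (a = b ↔ True)) ∧ (a + 1 = b + 1 ↔ (a = b ↔ True)) ∧
        (a + 0 = b + 1 ↔ (a = b ↔ False)) ∧ (a + 1 = b + 0 ↔ (a = b ↔ False)) := by decide
    by_cases ha : ed p ∈ A
    · by_cases hb : ed (S.nxt p) ∈ A
      · rw [if_pos ha, if_pos hb, (h4 _ _).2.1]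
        simp only [ha, hb]
      · rw [if_pos ha, if_neg hb, (h4 _ _).2.2.1]
        simp only [ha, hb]
        simp
    · by_cases hb : ed (S.nxt p) ∈ A
      · rw [if_neg ha, if_pos hb, (h4 _ _).2.2.2]
        simp only [ha, hb]
        simp
      · rw [if_neg ha, if_neg hb, (h4 _ _).1]
        simp only [ha, hb]

end Pool.Agent.FGT
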