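import Mathlib

/-!
# FGT-AlL: a lower bound for the rank of a bilinear form (linear algebra)

PLAN. Let `R_i` be the radical of `N` on `W_i`. Consider the linear map from `W1 × W2 × (Fin m → ZMod 2)` to the dual of `W1 × W2 × (Fin m → ZMod 2)`, `(w1, w2, γ) ↦ ((w1', w2', δ) ↦
N (w1 + w2 + ∑ γ i • c i) (w1' + w2' + ∑ δ j • c' j))`. Its rank is at most the rank of `N`. If `(w1, w2, γ)` is in its kernel then: pairing with `w2'`: `w2 ∈ R_2`; pairing with `c' j`: `N w2 (c' j) + ∑ i ≤ j, γ i = 0`,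
so `γ` is determined by `w2`; pairing with `w1'`: `N w1 w1' + ∑ γ i N (c i) w1' = 0`, so `w1` is determined by `γ` up to `R_1`. So the kernel has dimension at most `dim R_1 + dim R_2`, and the
rank is at least `(dim W1 - dim R_1) + (dim W2 - dim R_2) + m`. The rank of `N` on `W1 ⊔ W2` is at most `(dim W1 - dim R_1) + (dim W2 - dim R_2)`.
-/

set_option autoImplicit false

open Finset
open scoped Classical

namespace Pool.Agent.FGT

private theorem al_res {U : Type} [AddCommGroup U] [Module (ZMod 2) U] [Module.Finite (ZMod 2) U]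
    (N : U →ₗ[ZMod 2] U →ₗ[ZMod 2] ZMod 2) (W W1 : Submodule (ZMod 2) U)
    (h : ∀ x ∈ W1, (∀ y ∈ W1, N x y = 0) → ∀ y ∈ W, N x y = 0) :
    Module.finrank (ZMod 2) (LinearMap.range (N.domRestrict₁₂ W1 W)) ≤
      Module.finrank (ZMod 2) (LinearMap.range (N.domRestrict₁₂ W1 W1)) := by
  have h1 := LinearMap.finrank_range_add_finrank_ker (N.domRestrict₁₂ W1 W)
  have h2 := LinearMap.finrank_range_add_finrank_ker (N.domRestrict₁₂ W1 W1)
  have h3 : LinearMap.ker (N.domRestrict₁₂ W1 W1) ≤ LinearMap.ker (N.domRestrict₁₂ W1 W) := by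
    intro x hx
    rw [LinearMap.mem_ker] at hx ⊢
    refine LinearMap.ext fun y => ?_
    refine h x.1 x.2 (fun z hz => ?_) y.1 y.2
    exact LinearMap.congr_fun hx ⟨z, hz⟩
  have h4 := Submodule.finrank_mono h3
  omega

private theorem al_tri {m : ℕ} (γ : Fin m → ZMod 2)
    (h : ∀ j, ∑ i, γ i * (if i ≤ j then (1 : ZMod 2) else 0) = 0) : γ = 0 := by
  have key : ∀ n : ℕ, ∀ j : Fin m, j.val < n → γ j = 0 := by
    intro n
    induction n with
    | zero => intro j hj; omega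
    | succ n ih =>
      intro j hj
      have h1 := h j
      rw [Finset.sum_eq_single j] at h1
      · simpa using h1
      · intro i _ hij
        by_cases hle : i ≤ j
        · have h2 : i.val < j.val := lt_of_le_of_ne hle fun h3 => hij (Fin.ext h3)
          rw [ih i (by omega), zero_mul]
        · rw [if_neg hle, mul_zero]
      · intro h2
        exact absurd (Finset.mem_univ j) h2
  funext j
  exact key (j.val + 1) j (Nat.lt_succ_self _)

theorem rank_add {U : Type} [AddCommGroup U] [Module (ZMod 2) U] [Module.Finite (ZMod 2) U]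
    (N : U →ₗ[ZMod 2] U →ₗ[ZMod 2] ZMod 2) (W W1 W2 : Submodule (ZMod 2) U) (hW : W1 ⊔ W2 = W) (m : ℕ) (c c' : Fin m → U)
    (h12 : ∀ x ∈ W1, ∀ y ∈ W2, N x y = 0) (h21 : ∀ x ∈ W2, ∀ y ∈ W1, N x y = 0)
    (h1 : ∀ x ∈ W1, ∀ j, N x (c' j) = 0) (h2 : ∀ i, ∀ y ∈ W2, N (c i) y = 0)
    (hc : ∀ i j, N (c i) (c' j) = if i ≤ j then 1 else 0) :
    Module.finrank (ZMod 2) (LinearMap.range (N.domRestrict₁₂ W W)) + m ≤
      Module.finrank (ZMod 2) (LinearMap.range N) := by
  -- the rank on `W`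
  have hA : LinearMap.range (N.domRestrict₁₂ W W) ≤
      LinearMap.range (N.domRestrict₁₂ W1 W) ⊔ LinearMap.range (N.domRestrict₁₂ W2 W) := by
    rintro _ ⟨w, rfl⟩
    have hw : w.1 ∈ W1 ⊔ W2 := by rw [hW]; exact w.2
    obtain ⟨w1, hw1, w2, hw2, hww⟩ := Submodule.mem_sup.1 hw
    refine Submodule.mem_sup.2 ⟨N.domRestrict₁₂ W1 W ⟨w1, hw1⟩, ⟨_, rfl⟩,
      N.domRestrict₁₂ W2 W ⟨w2, hw2⟩, ⟨_, rfl⟩, ?_⟩
    refine LinearMap.ext fun y => ?_
    change N w1 y.1 + N w2 y.1 = N w.1 y.1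
    rw [← hww, map_add, LinearMap.add_apply]
  have hA1 := al_res N W W1 (by
    intro x hx hx0 y hy
    rw [← hW] at hy
    obtain ⟨y1, hy1, y2, hy2, rfl⟩ := Submodule.mem_sup.1 hy
    rw [map_add, hx0 y1 hy1, h12 x hx y2 hy2, add_zero])
  have hA2 := al_res N W W2 (by
    intro x hx hx0 y hy
    rw [← hW] at hy
    obtain ⟨y1, hy1, y2, hy2, rfl⟩ := Submodule.mem_sup.1 hy
    rw [map_add, hx0 y2 hy2, h21 x hx y1 hy1, add_zero])
  have hA3 := (Submodule.finrank_mono hA).trans (Submodule.finrank_add_le_finrank_add_finrank _ _)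
  -- the map `A`
  let φ : (W1 × W2 × (Fin m → ZMod 2)) →ₗ[ZMod 2] U :=
    W1.subtype.coprod (W2.subtype.coprod (Fintype.linearCombination (ZMod 2) c))
  let φ' : (W1 × W2 × (Fin m → ZMod 2)) →ₗ[ZMod 2] U :=
    W1.subtype.coprod (W2.subtype.coprod (Fintype.linearCombination (ZMod 2) c'))
  have hφ : ∀ (w1 : W1) (w2 : W2) (γ : Fin m → ZMod 2),
      φ (w1, w2, γ) = w1.1 + (w2.1 + ∑ i, γ i • c i) := by
    intro w1 w2 γ
    change w1.1 + (w2.1 + Fintype.linearCombination (ZMod 2) c γ) = _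
    rw [Fintype.linearCombination_apply]
  have hφ' : ∀ (w1 : W1) (w2 : W2) (γ : Fin m → ZMod 2),
      φ' (w1, w2, γ) = w1.1 + (w2.1 + ∑ i, γ i • c' i) := by
    intro w1 w2 γ
    change w1.1 + (w2.1 + Fintype.linearCombination (ZMod 2) c' γ) = _
    rw [Fintype.linearCombination_apply]
  let A : (W1 × W2 × (Fin m → ZMod 2)) →ₗ[ZMod 2] (W1 × W2 × (Fin m → ZMod 2)) →ₗ[ZMod 2] ZMod 2 :=
    (LinearMap.lcomp (ZMod 2) (ZMod 2) φ') ∘ₗ N ∘ₗ φ
  have hAa : ∀ x y, A x y = N (φ x) (φ' y) := fun x y => rfl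
  have hrA : Module.finrank (ZMod 2) (LinearMap.range A) ≤ Module.finrank (ZMod 2) (LinearMap.range N) := by
    have h3 : LinearMap.range A ≤ (LinearMap.range N).map (LinearMap.lcomp (ZMod 2) (ZMod 2) φ') := by
      rintro _ ⟨x, rfl⟩
      exact ⟨N (φ x), ⟨_, rfl⟩, rfl⟩
    exact (Submodule.finrank_mono h3).trans (Submodule.finrank_map_le _ _)
  have hrn := LinearMap.finrank_range_add_finrank_ker A
  rw [Module.finrank_prod, Module.finrank_prod, Module.finrank_fin_fun] at hrn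
  have hr1 := LinearMap.finrank_range_add_finrank_ker (N.domRestrict₁₂ W1 W1)
  have hr2 := LinearMap.finrank_range_add_finrank_ker (N.domRestrict₁₂ W2 W2)
  -- the kernel of `A`
  have hk2 : ∀ x : LinearMap.ker A, ∀ y ∈ W2, N x.1.2.1.1 y = 0 := by
    rintro ⟨⟨w1, w2, γ⟩, hx⟩ y hy
    have h3 : N (φ (w1, w2, γ)) (φ' (0, ⟨y, hy⟩, 0)) = 0 := by
      rw [← hAa, LinearMap.mem_ker.1 hx, LinearMap.zero_apply]
    rw [hφ, hφ'] at h3
    simp only [Submodule.coe_zero, zero_add, Pi.zero_apply, zero_smul, sum_const_zero, add_zero,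
      map_add, LinearMap.add_apply, map_sum, map_smul, LinearMap.sum_apply, LinearMap.smul_apply] at h3
    rw [h12 w1.1 w1.2 y hy, zero_add] at h3
    have h4 : ∑ i, γ i • N (c i) y = 0 := sum_eq_zero fun i _ => by rw [h2 i y hy, smul_zero]
    rw [h4, add_zero] at h3
    exact h3
  have hkc : ∀ x : LinearMap.ker A, x.1.2.1 = 0 → x.1.2.2 = 0 := by
    rintro ⟨⟨w1, w2, γ⟩, hx⟩ hw2
    change w2 = 0 at hw2
    subst hw2
    change γ = 0
    refine al_tri γ fun j => ?_
    have h3 : N (φ (w1, 0, γ)) (φ' (0, 0, Pi.single j 1)) = 0 := by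
      rw [← hAa, LinearMap.mem_ker.1 hx, LinearMap.zero_apply]
    rw [hφ, hφ'] at h3
    have h5 : ∑ i, (Pi.single j 1 : Fin m → ZMod 2) i • c' i = c' j := by
      rw [Finset.sum_eq_single j]
      · rw [Pi.single_eq_same, one_smul]
      · intro i _ hij
        rw [Pi.single_eq_of_ne hij, zero_smul]
      · intro h
        exact absurd (Finset.mem_univ j) h
    rw [h5] at h3
    simp only [Submodule.coe_zero, zero_add, map_add, LinearMap.add_apply, map_sum, map_smul,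
      LinearMap.sum_apply, LinearMap.smul_apply, hc, smul_eq_mul] at h3
    rw [h1 w1.1 w1.2 j, zero_add] at h3
    exact h3
  have hk1 : ∀ x : LinearMap.ker A, x.1.2.1 = 0 → ∀ y ∈ W1, N x.1.1.1 y = 0 := by
    intro x hx2 y hy
    have hx3 := hkc x hx2
    obtain ⟨⟨w1, w2, γ⟩, hx⟩ := x
    change w2 = 0 at hx2
    change γ = 0 at hx3
    subst hx2
    subst hx3
    have h3 : N (φ (w1, 0, 0)) (φ' (⟨y, hy⟩, 0, 0)) = 0 := by
      rw [← hAa, LinearMap.mem_ker.1 hx, LinearMap.zero_apply]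
    rw [hφ, hφ'] at h3
    simp only [Submodule.coe_zero, zero_add, Pi.zero_apply, zero_smul, sum_const_zero, add_zero] at h3
    exact h3
  let π : LinearMap.ker A →ₗ[ZMod 2] LinearMap.ker (N.domRestrict₁₂ W2 W2) :=
    { toFun := fun x => ⟨x.1.2.1, by
        rw [LinearMap.mem_ker]
        refine LinearMap.ext fun y => ?_
        exact hk2 x y.1 y.2⟩
      map_add' := fun _ _ => rfl
      map_smul' := fun _ _ => rfl }
  have hπ0 : ∀ x : LinearMap.ker π, x.1.1.2.1 = 0 := by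
    intro x
    have h3 : π x.1 = 0 := x.2
    exact congrArg (fun z : LinearMap.ker (N.domRestrict₁₂ W2 W2) => z.1) h3
  let ψ : LinearMap.ker π →ₗ[ZMod 2] LinearMap.ker (N.domRestrict₁₂ W1 W1) :=
    { toFun := fun x => ⟨x.1.1.1, by
        rw [LinearMap.mem_ker]
        refine LinearMap.ext fun y => ?_
        exact hk1 x.1 (hπ0 x) y.1 y.2⟩
      map_add' := fun _ _ => rfl
      map_smul' := fun _ _ => rfl }
  have hψ : Function.Injective ψ := by
    intro x x' hxx
    have h3 : x.1.1.1 = x'.1.1.1 :=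
      congrArg (fun z : LinearMap.ker (N.domRestrict₁₂ W1 W1) => z.1) hxx
    have h4 : x.1.1.2.1 = x'.1.1.2.1 := (hπ0 x).trans (hπ0 x').symm
    have h5 : x.1.1.2.2 = x'.1.1.2.2 := (hkc x.1 (hπ0 x)).trans (hkc x'.1 (hπ0 x')).symm
    exact Subtype.ext (Subtype.ext (Prod.ext h3 (Prod.ext h4 h5)))
  have hkA := LinearMap.finrank_range_add_finrank_ker π
  have hrπ : Module.finrank (ZMod 2) (LinearMap.range π) ≤
      Module.finrank (ZMod 2) (LinearMap.ker (N.domRestrict₁₂ W2 W2)) := Submodule.finrank_le _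
  have hkπ := LinearMap.finrank_le_finrank_of_injective hψ
  omega

end Pool.Agent.FGT
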