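import Pool.Agent.SCG.Alg

/-!
# FGT: the tables (algorithm)

`l` is the code of a map `S`, `K` a list of codes of flags. The set of edges `dK l K u` consists of the edges joined to the edge
`u` by corners of `S` which are not in `K`. For every such set `d` (with at most `C` flags in `K`) a table stores entries: lists of
pairs of flags over `d` (corners of another map of the graph), for every way an entry can look from outside one with the largest
number of closed faces.
-/

set_option autoImplicit false

namespace Pool.Agent.FGT

open Pool.Agent.BEO (look memb ddp comp cds Pt Ec Inp sd ac ek fl)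
open Pool.Agent.SCG (edl nx bst bls)

/-- entries -/
abbrev En : Type := List (Pt × Pt)

/-- tables -/
abbrev Tb : Type := List (List Ec × List En)

/-- the steps between edges at the corners not in `K` -/
def hrl (l : Inp) (K : List Pt) : List (Ec × Ec) :=
  ((fl l).filter fun p => !memb K p && !memb K (nx l p)).map fun p => (ek p, ek (nx l p))

/-- their classes -/
def hcl (l : Inp) (K : List Pt) : List (Ec × Ec) := comp (edl l) (hrl l K)

/-- the edges joined to `u` by corners not in `K` -/
def dK (l : Inp) (K : List Pt) (u : Ec) : List Ec :=
  (edl l).filter fun e => decide (look (hcl l K) e e = look (hcl l K) u u)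

/-- the sets of edges with a table -/
def dks (C : ℕ) (l : Inp) : List (List Ec) :=
  (cds ((fl l).map fun p => [p]) C).flatMap fun K => (edl l).map fun u => dK l K u

/-- the flags over `d` -/
def fD (l : Inp) (d : List Ec) : List Pt := (fl l).filter fun p => memb d (ek p)

/-- the function coded by an entry -/
def nE (x : En) (p : Pt) : Pt := look x p p

/-- the open flags -/
def umD (l : Inp) (d : List Ec) (x : En) : List Pt := (fD l d).filter fun p => decide (nE x p = p)

/-- the classes of the steps around the vertices -/
def lV (l : Inp) (d : List Ec) (x : En) : List (Pt × Pt) :=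
  comp (fD l d) ((fD l d).map (fun p => (p, nE x p)) ++ (fD l d).map fun p => (p, sd p))

/-- the classes of the steps along the faces -/
def lF (l : Inp) (d : List Ec) (x : En) : List (Pt × Pt) :=
  comp (fD l d) ((fD l d).map (fun p => (p, nE x p)) ++ (fD l d).map fun p => (p, ac p))

/-- coloured flags -/
def ptD (l : Inp) (d : List Ec) : List (Pt × Bool) := (fD l d).flatMap fun p => [(p, false), (p, true)]

/-- the classes of the steps between coloured flags -/
def lC (l : Inp) (d : List Ec) (x : En) : List ((Pt × Bool) × (Pt × Bool)) :=
  comp (ptD l d) (((ptD l d).filter fun q => !decide (nE x q.1 = q.1)).map (fun q => (q, (nE x q.1, !q.2))) ++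
    ((ptD l d).map (fun q => (q, (sd q.1, !q.2))) ++ (ptD l d).map fun q => (q, (ac q.1, !q.2))))

/-- equality of labels -/
def eqF (lab : List (Pt × Pt)) (p q : Pt) : Bool := decide (look lab p p = look lab q q)

/-- equality of labels of coloured flags -/
def eqC (lab : List ((Pt × Bool) × (Pt × Bool))) (p q : Pt) (b : Bool) : Bool :=
  decide (look lab (p, false) (p, false) = look lab (q, b) (q, b))

/-- the pairs are inner corners -/
def vl1 (l : Inp) (d : List Ec) (x : En) : Bool := x.all fun y =>
  (memb (fD l d) y.1 && memb (fD l d) y.2) && (decide (y.1.1 = y.2.1) && !decide (y.1 = y.2)) &&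
    (decide (nE x y.1 = y.2) && decide (nE x y.2 = y.1))

/-- open flags are at vertices with edges outside -/
def vl2 (l : Inp) (d : List Ec) (x : En) : Bool := (umD l d x).all fun p =>
  (fl l).any fun q => decide (q.1 = p.1) && !memb d (ek q)

/-- the flags at a vertex form runs with open ends, or one cycle -/
def vl3 (l : Inp) (d : List Ec) (x : En) : Bool := (fD l d).all fun p =>
  (umD l d x).any (fun q => eqF (lV l d x) p q) ||
    (fl l).all fun q => !decide (q.1 = p.1) || (memb d (ek q) && eqF (lV l d x) p q)

/-- the entry codes an open map with at most `b` open flags -/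
def vlD (b : ℕ) (l : Inp) (d : List Ec) (x : En) : Bool :=
  (vl1 l d x && vl2 l d x) && (vl3 l d x && decide ((umD l d x).length ≤ b))

/-- the number of closed faces -/
def clD (l : Inp) (d : List Ec) (x : En) : ℕ :=
  ((ddp ((lF l d x).map Prod.snd)).filter fun c =>
    !((umD l d x).any fun p => decide (look (lF l d x) p p = c))).length

/-- the vertices with edges in `d` and outside -/
def bvD (l : Inp) (d : List Ec) : List ℕ :=
  (ddp ((fD l d).map Prod.fst)).filter fun v => (fl l).any fun q => decide (q.1 = v) && !memb d (ek q)

/-- how the entry looks from outside -/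
def sgD (l : Inp) (d : List Ec) (x : En) : List Bool :=
  (umD l d x).map (fun _ => true) ++ (false :: ((fD l d).any (fun p => eqC (lC l d x) p p true)) ::
    (((umD l d x).flatMap fun p => (bvD l d).map fun v => decide (p.1 = v)) ++
      (umD l d x).flatMap fun p => (umD l d x).flatMap fun q =>
        [eqF (lV l d x) p q, eqF (lF l d x) p q, eqC (lC l d x) p q false, eqC (lC l d x) p q true]))

/-- the entry without repetitions -/
def nrE (l : Inp) (x : En) : En := ((fl l).filter fun p => !decide (nE x p = p)).map fun p => (p, nE x p)

/-- for every way to look from outside one entry with the largest number of closed faces -/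
def slD (b m : ℕ) (l : Inp) (d : List Ec) (cs : List En) : List En :=
  (bls m).flatMap fun σ => bst (clD l d) (cs.filter fun x => vlD b l d x && decide (sgD l d x = σ))

/-- the corners which may be added between `d1` and `d2`, at most `b` of them -/
def lks (b : ℕ) (l : Inp) (d1 d2 : List Ec) : List En :=
  cds ((fD l d1).flatMap fun p => (fD l d2).map fun q => [(p, q), (q, p)]) b

/-- `d` is the disjoint union of `d1` and `d2` -/
def isU (d d1 d2 : List Ec) : Bool :=
  (d.all (fun e => memb d1 e || memb d2 e) && d1.all fun e => memb d e && !memb d2 e) && d2.all fun e => memb d e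

/-- joining entries -/
def cmD (b : ℕ) (l : Inp) (t : Tb) (d : List Ec) : List En := t.flatMap fun t1 => t.flatMap fun t2 =>
  if isU d t1.1 t2.1 then t1.2.flatMap fun x => t2.2.flatMap fun y => (lks b l t1.1 t2.1).map fun z => x ++ (y ++ z)
  else []

/-- all entries for a set of at most two edges -/
def bsD (l : Inp) (d : List Ec) : List En :=
  if decide (d.length ≤ 2) then cds ((fD l d).flatMap fun p => (fD l d).map fun q => [(p, q), (q, p)]) 4 else []

/-- one round; `cand` gives the entries for leaves -/
def rdD (C b m : ℕ) (cand : Inp → List Ec → List En) (l : Inp) (t : Tb) : Tb := (dks C l).map fun d =>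
  (d, slD b m l d ((bsD l d ++ (cand l d ++ cmD b l t d)).map (nrE l)))

/-- the tables -/
def tbD (C b m : ℕ) (cand : Inp → List Ec → List En) (l : Inp) : Tb := (rdD C b m cand l)^[(edl l).length + 1] []

/-- the entries for the whole graph -/
def enD (C b m : ℕ) (cand : Inp → List Ec → List En) (l : Inp) : List En :=
  look (tbD C b m cand l) (edl l) []

/-- orientability of an entry for the whole graph -/
def orD (l : Inp) (x : En) : Bool := !((fD l (edl l)).any fun p => eqC (lC l (edl l) x) p p true)

/-- a best entry: the code of a map of smallest Euler genus (orientable if `o` holds); the input if there is none -/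
def slv (C b m : ℕ) (cand : Inp → List Ec → List En) (o : Bool) (l : Inp) : Inp :=
  (bst (clD l (edl l)) ((enD C b m cand l).filter fun x => !o || orD l x)).headD l

end Pool.Agent.FGT
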