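import Mathlib

/-!
# FGT-SmA: orbits of two involutions (abstract)

PLAN. `two_ends`: the class of an open point `p` (`L p = p`) is a path: `x 0 = p`, `x (2 i + 1) = s (x (2 i))`, `x (2 i + 2) = L (x (2 i + 1))`
(or: the map `t = L ∘ s` is a permutation; the sequence `s p, s (t p), s (t (t p)), ..`). As the set is finite there is a first `j` with
`L (x (2 j + 1)) = x (2 j + 1)` (otherwise the sequence never stops, all `x i` are distinct by injectivity of `s`, `L`), the set
`{x 0, .., x (2 j + 1)}` is closed under `s` and `L`, so it is the whole class; its fixed points of `L` are `x 0` and `x (2 j + 1)` only, and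
`x (2 j + 1) ≠ x 0`. `one_cut`: the set `{x | f x = 1}` is closed under `s`, so its card is even (`Finset.card_involution`-like: sums over
`ZMod 2`, `Finset.sum_involution`); if exactly one of `p`, `n p` is in it, the rest is closed under `n` and has even card: contradiction.
`pot2`: take `L` equal to `n` except that `p`, `n p`, `q`, `n q` are fixed, `two_ends` for `p`: the class `T` of `p` contains exactly one of
`n p`, `q`, `n q`; not `n p` (otherwise `T` is closed under `n` and `s` and contains `q`). The potential is the indicator of `T`.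
-/

set_option autoImplicit false

open Finset
open scoped Classical

namespace Pool.Agent.FGT

private theorem eg_iff {X : Type} (R : X → X → Prop) (T : X → Prop) (hT : ∀ x y, R x y → (T x ↔ T y)) (x y : X)
    (h : Relation.EqvGen R x y) : T x ↔ T y := by
  induction h with
  | rel x y h => exact hT x y h
  | refl x => exact Iff.rfl
  | symm x y _ ih => exact ih.symm
  | trans x y z _ _ ih1 ih2 => exact ih1.trans ih2

theorem two_ends {X : Type} [Finite X] (s L : X → X) (hs : ∀ x, s (s x) = x) (hs' : ∀ x, s x ≠ x)
    (hL : ∀ x, L (L x) = x) (p : X) (hp : L p = p) :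
    ∃ q, q ≠ p ∧ L q = q ∧ Relation.EqvGen (fun x y => y = L x ∨ y = s x) p q ∧
      ∀ r, L r = r → Relation.EqvGen (fun x y => y = L x ∨ y = s x) p r → r = p ∨ r = q := by
  set t : X → X := fun x => L (s x) with ht
  have hsi : Function.Injective s := fun x y h => by rw [← hs x, h, hs]
  have hLi : Function.Injective L := fun x y h => by rw [← hL x, h, hL]
  have hti : Function.Injective t := fun x y h => hsi (hLi h)
  have hiter : ∀ i, Function.Injective t^[i] := fun i => hti.iterate i
  -- the basic identities
  have htL : ∀ y, t (L (t y)) = L y := by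
    intro y
    simp only [ht, hL, hs]
  have hback : ∀ i, t^[i] (L (t^[i] p)) = p := by
    intro i
    induction i with
    | zero => exact hp
    | succ i ih =>
      rw [Function.iterate_succ_apply, Function.iterate_succ_apply' t i p, htL, ih]
  have hsL : ∀ y, s y = L (t y) := by
    intro y
    simp only [ht, hL]
  have hper : p ∈ Function.periodicPts t := hti.mem_periodicPts p
  have hN0 : 0 < Function.minimalPeriod t p := Function.minimalPeriod_pos_of_mem_periodicPts hper
  have hNp : t^[Function.minimalPeriod t p] p = p := Function.iterate_minimalPeriod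
  have hdvd : ∀ i, t^[i] p = p → Function.minimalPeriod t p ∣ i := fun i hi =>
    Function.IsPeriodicPt.minimalPeriod_dvd hi
  have heven : ∃ k, Function.minimalPeriod t p = 2 * k := by
    rcases Nat.even_or_odd' (Function.minimalPeriod t p) with ⟨k, hk | hk⟩
    · exact ⟨k, hk⟩
    · exfalso
      apply hs' (t^[k] p)
      rw [hsL, ← Function.iterate_succ_apply' t k p]
      apply hiter (k + 1)
      rw [hback, ← Function.iterate_add_apply]
      have h1 : k + 1 + k = Function.minimalPeriod t p := by omega
      rw [h1, hNp]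
  obtain ⟨k, hk⟩ := heven
  have hk0 : 0 < k := by omega
  have hLq : L (t^[k] p) = t^[k] p := by
    apply hiter k
    rw [hback, ← Function.iterate_add_apply]
    have h1 : k + k = Function.minimalPeriod t p := by omega
    rw [h1, hNp]
  have horb : ∀ i, Relation.EqvGen (fun x y => y = L x ∨ y = s x) p (t^[i] p) := by
    intro i
    induction i with
    | zero => exact Relation.EqvGen.refl _
    | succ i ih =>
      rw [Function.iterate_succ_apply']
      refine Relation.EqvGen.trans _ _ _ ih (Relation.EqvGen.trans _ (s (t^[i] p)) _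
        (Relation.EqvGen.rel _ _ (Or.inr rfl)) (Relation.EqvGen.rel _ _ (Or.inl rfl)))
  have hOL : ∀ i, ∃ j, L (t^[i] p) = t^[j] p := by
    intro i
    refine ⟨Function.minimalPeriod t p * i - i, ?_⟩
    apply hiter i
    rw [hback, ← Function.iterate_add_apply]
    have h1 : i ≤ Function.minimalPeriod t p * i := Nat.le_mul_of_pos_left i hN0
    have h2 : i + (Function.minimalPeriod t p * i - i) = Function.minimalPeriod t p * i := by omega
    rw [h2, Function.iterate_mul]
    have h3 : ∀ j, (t^[Function.minimalPeriod t p])^[j] p = p := by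
      intro j
      induction j with
      | zero => rfl
      | succ j ih => rw [Function.iterate_succ_apply, hNp, ih]
    exact (h3 i).symm
  have hO : ∀ r, Relation.EqvGen (fun x y => y = L x ∨ y = s x) p r → ∃ i, r = t^[i] p := by
    intro r hr
    have hOL' : ∀ x, (∃ i, x = t^[i] p) → ∃ i, L x = t^[i] p := by
      rintro x ⟨i, rfl⟩
      exact hOL i
    have hOs' : ∀ x, (∃ i, x = t^[i] p) → ∃ i, s x = t^[i] p := by
      rintro x ⟨i, rfl⟩
      rw [hsL, ← Function.iterate_succ_apply' t i p]
      exact hOL (i + 1)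
    refine (eg_iff _ (fun x => ∃ i, x = t^[i] p) ?_ p r hr).1 ⟨0, rfl⟩
    rintro x y (rfl | rfl)
    · exact ⟨hOL' x, fun h => by have h1 := hOL' _ h; rwa [hL] at h1⟩
    · exact ⟨hOs' x, fun h => by have h1 := hOs' _ h; rwa [hs] at h1⟩
  refine ⟨t^[k] p, ?_, hLq, horb k, ?_⟩
  · intro h
    have h1 := Nat.le_of_dvd hk0 (hdvd k h)
    omega
  · intro r hr hpr
    obtain ⟨i, rfl⟩ := hO r hpr
    have h1 := hback i
    rw [hr, ← Function.iterate_add_apply] at h1
    obtain ⟨c, hc⟩ := hdvd _ h1
    have h2 : i = k * c := by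
      rw [hk] at hc
      have h3 : 2 * i = 2 * (k * c) := by rw [← mul_assoc, ← hc]; ring
      omega
    rcases Nat.even_or_odd' c with ⟨e, he | he⟩
    · left
      have h3 : i = Function.minimalPeriod t p * e := by rw [h2, he, hk]; ring
      have h4 : ∀ j, t^[Function.minimalPeriod t p * j] p = p := by
        intro j
        induction j with
        | zero => rfl
        | succ j ih => rw [Nat.mul_succ, Function.iterate_add_apply, hNp, ih]
      rw [h3, h4]
    · right
      have h3 : i = k + Function.minimalPeriod t p * e := by rw [h2, he, hk]; ring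
      have h4 : ∀ j, t^[Function.minimalPeriod t p * j] p = p := by
        intro j
        induction j with
        | zero => rfl
        | succ j ih => rw [Nat.mul_succ, Function.iterate_add_apply, hNp, ih]
      rw [h3, Function.iterate_add_apply, h4]

private theorem zz (a : ZMod 2) : a + a = 0 := by
  revert a
  decide

theorem one_cut {X : Type} [Finite X] (n s : X → X) (hn : ∀ x, n (n x) = x) (hn' : ∀ x, n x ≠ x) (hs : ∀ x, s (s x) = x)
    (hs' : ∀ x, s x ≠ x) (f : X → ZMod 2) (p : X) (h1 : ∀ x, f (s x) = f x)
    (h2 : ∀ x, x ≠ p → x ≠ n p → f (n x) = f x) : f (n p) = f p := by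
  have _ := Fintype.ofFinite X
  have e1 : ∑ x : X, f x = 0 :=
    Finset.sum_involution (fun x _ => s x) (fun x _ => by rw [h1, zz]) (fun x _ _ => hs' x)
      (fun x _ => mem_univ _) (fun x _ => hs x)
  have e2 : ∑ x ∈ (univ.erase p).erase (n p), f x = 0 := by
    refine Finset.sum_involution (fun x _ => n x) (fun x hx => ?_) (fun x _ _ => hn' x) (fun x hx => ?_)
      (fun x _ => hn x)
    · rw [mem_erase, mem_erase] at hx
      rw [h2 x hx.2.1 hx.1, zz]
    · rw [mem_erase, mem_erase] at hx ⊢
      refine ⟨fun h => hx.2.1 ?_, fun h => hx.1 ?_, mem_univ _⟩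
      · rw [← hn x, h, hn]
      · rw [← hn x, h]
  have e3 : n p ∈ univ.erase p := mem_erase.2 ⟨hn' p, mem_univ _⟩
  rw [← Finset.add_sum_erase _ _ (mem_univ p), ← Finset.add_sum_erase _ _ e3, e2, add_zero] at e1
  have e4 := congrArg (fun a => f p + a) e1
  have e5 : f p + (f p + f (n p)) = f p + 0 := e4
  rw [← add_assoc, zz, zero_add, add_zero] at e5
  exact e5

theorem pot2 {X : Type} [Finite X] (n s : X → X) (hn : ∀ x, n (n x) = x) (hn' : ∀ x, n x ≠ x) (hs : ∀ x, s (s x) = x)
    (hs' : ∀ x, s x ≠ x) (p q : X) (hpq : Relation.EqvGen (fun x y => y = n x ∨ y = s x) p q) (h1 : q ≠ p) (h2 : q ≠ n p) :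
    ∃ L : X → ZMod 2, (∀ x, L (s x) = L x) ∧
      ∀ x, L (n x) = L x + if x = p ∨ x = n p ∨ x = q ∨ x = n q then 1 else 0 := by
  set P : X → Prop := fun x => x = p ∨ x = n p ∨ x = q ∨ x = n q with hP
  have hPn : ∀ x, P (n x) → P x := by
    intro x hx
    rcases hx with h | h | h | h
    · exact Or.inr (Or.inl (by rw [← hn x, h]))
    · exact Or.inl (by rw [← hn x, h, hn])
    · exact Or.inr (Or.inr (Or.inr (by rw [← hn x, h])))
    · exact Or.inr (Or.inr (Or.inl (by rw [← hn x, h, hn])))
  set L0 : X → X := fun x => if P x then x else n x with hL0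
  have hfix : ∀ x, P x → L0 x = x := fun x hx => if_pos hx
  have hnfix : ∀ x, ¬ P x → L0 x = n x := fun x hx => if_neg hx
  have hfix' : ∀ x, L0 x = x → P x := by
    intro x hx
    by_contra h
    rw [hnfix x h] at hx
    exact hn' x hx
  have hLL : ∀ x, L0 (L0 x) = x := by
    intro x
    by_cases hx : P x
    · rw [hfix x hx, hfix x hx]
    · rw [hnfix x hx, hnfix _ (fun h => hx (hPn x h)), hn]
  obtain ⟨q', hq1, hq2, hq3, hq4⟩ := two_ends s L0 hs hs' hLL p (hfix p (Or.inl rfl))
  set T : X → Prop := fun x => Relation.EqvGen (fun x y => y = L0 x ∨ y = s x) p x with hT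
  have hTs : ∀ x, T (s x) ↔ T x := fun x =>
    ⟨fun h => Relation.EqvGen.trans _ _ _ h (Relation.EqvGen.rel _ _ (Or.inr (hs x).symm)),
      fun h => Relation.EqvGen.trans _ _ _ h (Relation.EqvGen.rel _ _ (Or.inr rfl))⟩
  have hTL : ∀ x, T (L0 x) ↔ T x := fun x =>
    ⟨fun h => Relation.EqvGen.trans _ _ _ h (Relation.EqvGen.rel _ _ (Or.inl (hLL x).symm)),
      fun h => Relation.EqvGen.trans _ _ _ h (Relation.EqvGen.rel _ _ (Or.inl rfl))⟩
  have hTp : T p := Relation.EqvGen.refl _
  have hTP : ∀ x, P x → T x → x = p ∨ x = q' := fun x hx hTx => hq4 x (hfix x hx) hTx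
  have hne : q' ≠ n p := by
    intro h
    have hcl : ∀ x, T x → T (n x) := by
      intro x hx
      by_cases hPx : P x
      · rcases hTP x hPx hx with rfl | rfl
        · rw [← h]; exact hq3
        · rw [h, hn]; exact hTp
      · rw [← hnfix x hPx]; exact (hTL x).2 hx
    have hTq : T q := by
      refine (eg_iff _ T ?_ p q hpq).1 hTp
      rintro x y (rfl | rfl)
      · exact ⟨hcl x, fun hh => by have h5 := hcl _ hh; rwa [hn] at h5⟩
      · exact (hTs x).symm
    rcases hTP q (Or.inr (Or.inr (Or.inl rfl))) hTq with h5 | h5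
    · exact h1 h5
    · exact h2 (h5.trans h)
  have hTnp : ¬ T (n p) := by
    intro h
    rcases hTP (n p) (Or.inr (Or.inl rfl)) h with h5 | h5
    · exact hn' p h5
    · exact hne h5.symm
  have hTnq' : ¬ T (n q') := by
    intro h
    have hPnq : P (n q') := by
      rcases hfix' q' hq2 with h5 | h5 | h5 | h5
      · exact Or.inr (Or.inl (by rw [h5]))
      · exact Or.inl (by rw [h5, hn])
      · exact Or.inr (Or.inr (Or.inr (by rw [h5])))
      · exact Or.inr (Or.inr (Or.inl (by rw [h5, hn])))
    rcases hTP (n q') hPnq h with h5 | h5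
    · exact hne (by rw [← h5, hn])
    · exact hn' q' h5
  have hqq : q' = q ∨ q' = n q := by
    rcases hfix' q' hq2 with h5 | h5 | h5 | h5
    · exact absurd h5 hq1
    · exact absurd h5 hne
    · exact Or.inl h5
    · exact Or.inr h5
  have hone : ∀ x, P x → (T (n x) ↔ ¬ T x) := by
    intro x hx
    have key : ∀ y, T y → ¬ T (n y) → (x = y ∨ x = n y) → (T (n x) ↔ ¬ T x) := by
      intro y hy hny hxy
      rcases hxy with rfl | rfl
      · exact ⟨fun h => absurd h hny, fun h => absurd hy h⟩
      · rw [hn]; exact ⟨fun _ => hny, fun _ => hy⟩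
    rcases hx with h | h | h | h
    · exact key p hTp hTnp (Or.inl h)
    · exact key p hTp hTnp (Or.inr h)
    · rcases hqq with h5 | h5
      · exact key q' hq3 hTnq' (Or.inl (by rw [h5, h]))
      · exact key q' hq3 hTnq' (Or.inr (by rw [h5, h, hn]))
    · rcases hqq with h5 | h5
      · exact key q' hq3 hTnq' (Or.inr (by rw [h5, h]))
      · exact key q' hq3 hTnq' (Or.inl (by rw [h5, h]))
  refine ⟨fun x => if T x then 1 else 0, fun x => ?_, fun x => ?_⟩
  · change (if T (s x) then (1 : ZMod 2) else 0) = if T x then 1 else 0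
    by_cases h : T x
    · rw [if_pos h, if_pos ((hTs x).2 h)]
    · rw [if_neg h, if_neg fun h5 => h ((hTs x).1 h5)]
  · change (if T (n x) then (1 : ZMod 2) else 0) = (if T x then 1 else 0) + if P x then 1 else 0
    by_cases hPx : P x
    · rw [if_pos hPx]
      by_cases h : T x
      · rw [if_pos h, if_neg fun h5 => (hone x hPx).1 h5 h]
        exact (zz 1).symm
      · rw [if_neg h, if_pos ((hone x hPx).2 h), zero_add]
    · rw [if_neg hPx, add_zero]
      have h5 := hTL x
      rw [hnfix x hPx] at h5
      by_cases h : T x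
      · rw [if_pos h, if_pos (h5.2 h)]
      · rw [if_neg h, if_neg fun h6 => h (h5.1 h6)]

end Pool.Agent.FGT
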