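import Pool.Agent.FGT.DcDef
import Pool.Agent.FGT.SmA

/-!
# FGT-DcA: short sets are closed; no smaller cuts
-/

set_option autoImplicit false

open Finset
open scoped Classical

namespace Pool.Agent.FGT

open Pool.Agent.Helper35.OG (Flag GMap across side)
open Pool.Agent.BEO (F2 ed rp cyc ev bdF nb)

variable {V : Type} {G : SimpleGraph V} [Fintype V]

omit [Fintype V] in
private theorem dc_cr (S : GMap G) (p x : Flag G) : x ∈ cr S p ↔ x = p ∨ x = S.nxt p := by
  unfold cr
  rw [Finset.mem_insert, Finset.mem_singleton]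

omit [Fintype V] in
private theorem dc_crn (S : GMap G) (p : Flag G) : NC S (cr S p) := by
  intro x hx
  rw [dc_cr] at hx ⊢
  rcases hx with rfl | rfl
  · exact Or.inr rfl
  · exact Or.inl (S.nxt_nxt p)

omit [Fintype V] in
private theorem dc_ncu (S : GMap G) {X Y : Finset (Flag G)} (hX : NC S X) (hY : NC S Y) : NC S (X ∪ Y) := by
  intro x hx
  rw [Finset.mem_union] at hx ⊢
  exact hx.imp (hX x) (hY x)

omit [Fintype V] in
private theorem dc_crc (S : GMap G) (p : Flag G) : (cr S p).card ≤ 2 := Finset.card_le_two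

private theorem dc_mem (S : GMap G) (A : Finset G.edgeSet) (p : Flag G) :
    p ∈ dlt S A ↔ ¬ (ed p ∈ A ↔ ed (S.nxt p) ∈ A) := by
  unfold dlt
  rw [Finset.mem_filter]
  exact ⟨fun h => h.2, fun h => ⟨Finset.mem_univ _, h⟩⟩

omit [Fintype V] in
private theorem dc_fst (S : GMap G) {p x : Flag G} (h : x ∈ cr S p) : x.1.fst = p.1.fst := by
  rcases (dc_cr S p x).1 h with rfl | rfl
  · rfl
  · exact S.nxt_fst p

omit [Fintype V] in
private theorem dc_face (S : GMap G) {p x : Flag G} (h : x ∈ cr S p) : S.face x = S.face p := by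
  rcases (dc_cr S p x).1 h with rfl | rfl
  · rfl
  · exact Pool.Agent.Helper35.OG.face_nxt S p

private theorem dc_pair (S : GMap G) (s : Flag G → Flag G) (hs : ∀ x, s (s x) = x) (hs' : ∀ x, s x ≠ x) (p q : Flag G)
    (hpq : Relation.EqvGen (fun x y => y = S.nxt x ∨ y = s x) p q) (h1 : q ≠ p) (h2 : q ≠ S.nxt p) :
    ∃ L : Flag G → F2, (∀ x, L (s x) = L x) ∧ ∀ x, L (S.nxt x) = L x + if x ∈ cr S p ∪ cr S q then 1 else 0 := by
  obtain ⟨L, h3, h4⟩ := pot2 S.nxt s S.nxt_nxt S.nxt_ne hs hs' p q hpq h1 h2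
  refine ⟨L, h3, fun x => ?_⟩
  rw [h4 x]
  have h5 : x ∈ cr S p ∪ cr S q ↔ (x = p ∨ x = S.nxt p ∨ x = q ∨ x = S.nxt q) := by
    rw [Finset.mem_union, dc_cr, dc_cr, or_assoc]
  congr 1
  by_cases h6 : x = p ∨ x = S.nxt p ∨ x = q ∨ x = S.nxt q
  · rw [if_pos h6, if_pos (h5.2 h6)]
  · rw [if_neg h6, if_neg (fun h7 => h6 (h5.1 h7))]

omit [Fintype V] in
private theorem dc_add (S : GMap G) (s : Flag G → Flag G) {X Y Z : Finset (Flag G)} (hd : ∀ x ∈ X, x ∉ Y)
    (hZ : ∀ x, x ∈ Z ↔ x ∈ X ∨ x ∈ Y)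
    (hX : ∃ L : Flag G → F2, (∀ x, L (s x) = L x) ∧ ∀ x, L (S.nxt x) = L x + if x ∈ X then 1 else 0)
    (hY : ∃ L : Flag G → F2, (∀ x, L (s x) = L x) ∧ ∀ x, L (S.nxt x) = L x + if x ∈ Y then 1 else 0) :
    ∃ L : Flag G → F2, (∀ x, L (s x) = L x) ∧ ∀ x, L (S.nxt x) = L x + if x ∈ Z then 1 else 0 := by
  obtain ⟨L, h1, h2⟩ := hX
  obtain ⟨L', h3, h4⟩ := hY
  refine ⟨fun x => L x + L' x, fun x => ?_, fun x => ?_⟩
  · show L (s x) + L' (s x) = L x + L' x
    rw [h1, h3]
  · show L (S.nxt x) + L' (S.nxt x) = L x + L' x + _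
    rw [h2, h4]
    by_cases hx : x ∈ X
    · rw [if_pos hx, if_neg (hd x hx), if_pos ((hZ x).2 (Or.inl hx))]
      ring
    · by_cases hy : x ∈ Y
      · rw [if_neg hx, if_pos hy, if_pos ((hZ x).2 (Or.inr hy))]
        ring
      · rw [if_neg hx, if_neg hy, if_neg (fun h => ((hZ x).1 h).elim hx hy)]
        ring

private theorem dc_side (S : GMap G) {p q : Flag G} (h : p.1.fst = q.1.fst) (h1 : q ≠ p) (h2 : q ≠ S.nxt p) :
    ∃ L : Flag G → F2, (∀ x, L (side x) = L x) ∧ ∀ x, L (S.nxt x) = L x + if x ∈ cr S p ∪ cr S q then 1 else 0 :=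
  dc_pair S side Pool.Agent.Helper35.OG.side_side Pool.Agent.Helper35.OG.side_ne p q (S.conn p q h) h1 h2

private theorem dc_across (S : GMap G) {p q : Flag G} (h : S.face p = S.face q) (h1 : q ≠ p) (h2 : q ≠ S.nxt p) :
    ∃ L : Flag G → F2, (∀ x, L (across x) = L x) ∧ ∀ x, L (S.nxt x) = L x + if x ∈ cr S p ∪ cr S q then 1 else 0 :=
  dc_pair S across Pool.Agent.Helper35.OG.across_across Pool.Agent.Helper35.OG.across_ne p q
    (Quot.eqvGen_exact h) h1 h2

private theorem dc_loc (S : GMap G) {T : Type} (W : Flag G → T) (s : Flag G → Flag G) (hs : ∀ x, s (s x) = x)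
    (hs' : ∀ x, s x ≠ x) (hn : ∀ x, W (S.nxt x) = W x) (hW : ∀ x, W (s x) = W x) (hE : ∀ x, ed (s x) = ed x)
    (A : Finset G.edgeSet) (p q : Flag G) (h : ∀ x ∈ dlt S A, W x = W p → x ∈ cr S p ∪ cr S q) (hp : p ∈ dlt S A) :
    q ∈ dlt S A := by
  by_contra hq
  have hnc : NC S (dlt S A) := by
    intro x hx
    rw [dc_mem] at hx ⊢
    rw [S.nxt_nxt]
    exact fun h' => hx h'.symm
  have h1 := one_cut S.nxt s S.nxt_nxt S.nxt_ne hs hs'
    (fun x => if W x = W p then (if ed x ∈ A then (1 : ZMod 2) else 0) else 0) p (fun x => by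
      show (if W (s x) = W p then (if ed (s x) ∈ A then (1 : ZMod 2) else 0) else 0) = _
      rw [hW, hE]) (fun x hx1 hx2 => by
      show (if W (S.nxt x) = W p then (if ed (S.nxt x) ∈ A then (1 : ZMod 2) else 0) else 0) =
        if W x = W p then (if ed x ∈ A then (1 : ZMod 2) else 0) else 0
      rw [hn]
      by_cases hx : W x = W p
      · rw [if_pos hx, if_pos hx]
        have hxd : x ∉ dlt S A := by
          intro h3
          rcases Finset.mem_union.1 (h x h3 hx) with h4 | h4
          · rcases (dc_cr S p x).1 h4 with h5 | h5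
            · exact hx1 h5
            · exact hx2 h5
          · rcases (dc_cr S q x).1 h4 with h5 | h5
            · exact hq (h5 ▸ h3)
            · have h6 := hnc x h3
              rw [h5, S.nxt_nxt] at h6
              exact hq h6
        rw [dc_mem, not_not] at hxd
        exact if_congr hxd.symm rfl rfl
      · rw [if_neg hx, if_neg hx])
  have h2 : (if W (S.nxt p) = W p then (if ed (S.nxt p) ∈ A then (1 : ZMod 2) else 0) else 0) =
      if W p = W p then (if ed p ∈ A then (1 : ZMod 2) else 0) else 0 := h1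
  rw [hn, if_pos rfl, if_pos rfl] at h2
  rw [dc_mem] at hp
  refine hp ?_
  by_cases h3 : ed p ∈ A
  · by_cases h4 : ed (S.nxt p) ∈ A
    · exact ⟨fun _ => h4, fun _ => h3⟩
    · rw [if_neg h4, if_pos h3] at h2
      exact absurd h2 (by decide)
  · by_cases h4 : ed (S.nxt p) ∈ A
    · rw [if_pos h4, if_neg h3] at h2
      exact absurd h2 (by decide)
    · exact ⟨fun h => absurd h h3, fun h => absurd h h4⟩

private theorem dc_ls (S : GMap G) (A : Finset G.edgeSet) (p q : Flag G)
    (h : ∀ x ∈ dlt S A, x.1.fst = p.1.fst → x ∈ cr S p ∪ cr S q) (hp : p ∈ dlt S A) : q ∈ dlt S A :=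
  dc_loc S (fun x => x.1.fst) side Pool.Agent.Helper35.OG.side_side Pool.Agent.Helper35.OG.side_ne S.nxt_fst
    (fun _ => rfl) (fun _ => rfl) A p q h hp

private theorem dc_la (S : GMap G) (A : Finset G.edgeSet) (p q : Flag G)
    (h : ∀ x ∈ dlt S A, S.face x = S.face p → x ∈ cr S p ∪ cr S q) (hp : p ∈ dlt S A) : q ∈ dlt S A :=
  dc_loc S (fun x => S.face x) across Pool.Agent.Helper35.OG.across_across Pool.Agent.Helper35.OG.across_ne
    (Pool.Agent.Helper35.OG.face_nxt S) (Pool.Agent.Helper35.OG.face_across S) Pool.Agent.BEO.ed_across A p q h hp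

omit [Fintype V] in
private theorem dc_in (S : GMap G) {K : Finset (Flag G)} (hK : NC S K) {p x : Flag G} (hx : x ∈ cr S p) (h : x ∈ K) :
    p ∈ K := by
  rcases (dc_cr S p x).1 hx with h1 | h1
  · exact h1 ▸ h
  · have h2 := hK x h
    rw [h1, S.nxt_nxt] at h2
    exact h2

omit [Fintype V] in
private theorem dc_out (S : GMap G) {K : Finset (Flag G)} (hK : NC S K) {p x : Flag G} (hx : x ∈ cr S p) (h : p ∈ K) :
    x ∈ K := by
  rcases (dc_cr S p x).1 hx with h1 | h1
  · exact h1 ▸ h
  · rw [h1]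
    exact hK p h

theorem dlt_nc (S : GMap G) (A : Finset G.edgeSet) : NC S (dlt S A) := by
  intro x hx
  rw [dc_mem] at hx ⊢
  rw [S.nxt_nxt]
  exact fun h' => hx h'.symm

theorem sht_nc (S : GMap G) (X : Finset (Flag G)) (hX : Sht S X) : NC S X := by
  rcases hX with ⟨p, q, -, -, -, -, rfl⟩ | ⟨p, q, p', q', -, -, -, -, -, -, rfl⟩
  · exact dc_ncu S (dc_crn S p) (dc_crn S q)
  · exact dc_ncu S (dc_ncu S (dc_crn S p) (dc_crn S q)) (dc_ncu S (dc_crn S p') (dc_crn S q'))

theorem sht_cld (S : GMap G) (X : Finset (Flag G)) (hX : Sht S X) : Cld S X := by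
  rcases hX with ⟨p, q, h1, h2, h3, h4, rfl⟩ | ⟨p, q, p', q', h1, h2, h3, h4, h5, h6, rfl⟩
  · exact ⟨dc_side S h1 h3 h4, dc_across S h2 h3 h4⟩
  · have a1 : q ≠ p := fun h => h6 (by rw [h])
    have a2 : q ≠ S.nxt p := fun h => h6 (by rw [h, Pool.Agent.Helper35.OG.face_nxt])
    have a3 : q' ≠ p' := fun h => h6 (by rw [h4, h5, h])
    have a4 : q' ≠ S.nxt p' := fun h => h6 (by rw [h4, h5, h, Pool.Agent.Helper35.OG.face_nxt])
    have b1 : p' ≠ p := fun h => h3 (by rw [h])
    have b2 : p' ≠ S.nxt p := fun h => h3 (by rw [h, S.nxt_fst])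
    have b3 : q' ≠ q := fun h => h3 (by rw [h1, h2, h])
    have b4 : q' ≠ S.nxt q := fun h => h3 (by rw [h1, h2, h, S.nxt_fst])
    constructor
    · refine dc_add S side (X := cr S p ∪ cr S q) (Y := cr S p' ∪ cr S q') ?_ ?_ (dc_side S h1 a1 a2)
        (dc_side S h2 a3 a4)
      · intro x hx hx'
        have e1 : x.1.fst = p.1.fst := by
          rcases Finset.mem_union.1 hx with h | h
          · exact dc_fst S h
          · exact (dc_fst S h).trans h1.symm
        have e2 : x.1.fst = p'.1.fst := by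
          rcases Finset.mem_union.1 hx' with h | h
          · exact dc_fst S h
          · exact (dc_fst S h).trans h2.symm
        exact h3 (e1.symm.trans e2)
      · intro x
        exact Finset.mem_union
    · refine dc_add S across (X := cr S p ∪ cr S p') (Y := cr S q ∪ cr S q') ?_ ?_ (dc_across S h4 b1 b2)
        (dc_across S h5 b3 b4)
      · intro x hx hx'
        have e1 : S.face x = S.face p := by
          rcases Finset.mem_union.1 hx with h | h
          · exact dc_face S h
          · exact (dc_face S h).trans h4.symm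
        have e2 : S.face x = S.face q := by
          rcases Finset.mem_union.1 hx' with h | h
          · exact dc_face S h
          · exact (dc_face S h).trans h5.symm
        exact h6 (e1.symm.trans e2)
      · intro x
        simp only [Finset.mem_union]
        tauto

theorem sht_card (S : GMap G) (X : Finset (Flag G)) (hX : Sht S X) : X.card ≤ 8 ∧ X.Nonempty := by
  rcases hX with ⟨p, q, -, -, -, -, rfl⟩ | ⟨p, q, p', q', -, -, -, -, -, -, rfl⟩
  · have h1 := dc_crc S p
    have h2 := dc_crc S q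
    have h3 := Finset.card_union_le (cr S p) (cr S q)
    exact ⟨by omega, ⟨p, Finset.mem_union_left _ ((dc_cr S p p).2 (Or.inl rfl))⟩⟩
  · have h1 := dc_crc S p
    have h2 := dc_crc S q
    have h3 := Finset.card_union_le (cr S p) (cr S q)
    have h4 := dc_crc S p'
    have h5 := dc_crc S q'
    have h6 := Finset.card_union_le (cr S p') (cr S q')
    have h7 := Finset.card_union_le (cr S p ∪ cr S q) (cr S p' ∪ cr S q')
    exact ⟨by omega, ⟨p, Finset.mem_union_left _ (Finset.mem_union_left _ ((dc_cr S p p).2 (Or.inl rfl)))⟩⟩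

theorem cut_sub (S : GMap G) (A : Finset G.edgeSet) (X : Finset (Flag G)) (hX : Sht S X) (hs : dlt S A ⊆ X)
    (hn : (dlt S A).Nonempty) : dlt S A = X := by
  have hnc := dlt_nc S A
  obtain ⟨y, hy⟩ := hn
  rcases hX with ⟨p, q, -, -, -, -, rfl⟩ | ⟨p, q, p', q', h1, h2, h3, h4, h5, h6, rfl⟩
  · have e1 : p ∈ dlt S A → q ∈ dlt S A := dc_ls S A p q fun x hx _ => hs hx
    have e2 : q ∈ dlt S A → p ∈ dlt S A := dc_ls S A q p fun x hx _ => by
      have h := hs hx
      rw [Finset.union_comm] at h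
      exact h
    have e3 : p ∈ dlt S A ∧ q ∈ dlt S A := by
      rcases Finset.mem_union.1 (hs hy) with h | h
      · have h7 := dc_in S hnc h hy
        exact ⟨h7, e1 h7⟩
      · have h7 := dc_in S hnc h hy
        exact ⟨e2 h7, h7⟩
    refine Finset.Subset.antisymm hs fun x hx => ?_
    rcases Finset.mem_union.1 hx with h | h
    · exact dc_out S hnc h e3.1
    · exact dc_out S hnc h e3.2
  · have hX4 : ∀ x ∈ dlt S A, x ∈ cr S p ∨ x ∈ cr S q ∨ x ∈ cr S p' ∨ x ∈ cr S q' := by
      intro x hx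
      have h := hs hx
      simp only [Finset.mem_union] at h
      tauto
    have v1 : ∀ x ∈ dlt S A, x.1.fst = p.1.fst → x ∈ cr S p ∨ x ∈ cr S q := by
      intro x hx hx'
      rcases hX4 x hx with h | h | h | h
      · exact Or.inl h
      · exact Or.inr h
      · exact absurd (hx'.symm.trans (dc_fst S h)) h3
      · exact absurd ((hx'.symm.trans (dc_fst S h)).trans h2.symm) h3
    have v2 : ∀ x ∈ dlt S A, x.1.fst = p'.1.fst → x ∈ cr S p' ∨ x ∈ cr S q' := by
      intro x hx hx'
      rcases hX4 x hx with h | h | h | h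
      · exact absurd ((dc_fst S h).symm.trans hx') h3
      · exact absurd ((h1.trans (dc_fst S h).symm).trans hx') h3
      · exact Or.inl h
      · exact Or.inr h
    have f1 : ∀ x ∈ dlt S A, S.face x = S.face p → x ∈ cr S p ∨ x ∈ cr S p' := by
      intro x hx hx'
      rcases hX4 x hx with h | h | h | h
      · exact Or.inl h
      · exact absurd (hx'.symm.trans (dc_face S h)) h6
      · exact Or.inr h
      · exact absurd ((hx'.symm.trans (dc_face S h)).trans h5.symm) h6
    have f2 : ∀ x ∈ dlt S A, S.face x = S.face q → x ∈ cr S q ∨ x ∈ cr S q' := by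
      intro x hx hx'
      rcases hX4 x hx with h | h | h | h
      · exact absurd ((dc_face S h).symm.trans hx') h6
      · exact Or.inl h
      · exact absurd ((h4.trans (dc_face S h).symm).trans hx') h6
      · exact Or.inr h
    have e1 : p ∈ dlt S A → q ∈ dlt S A := dc_ls S A p q fun x hx hx' => Finset.mem_union.2 (v1 x hx hx')
    have e2 : q ∈ dlt S A → p ∈ dlt S A := dc_ls S A q p fun x hx hx' =>
      Finset.mem_union.2 (v1 x hx (hx'.trans h1.symm)).symm
    have e3 : p' ∈ dlt S A → q' ∈ dlt S A := dc_ls S A p' q' fun x hx hx' => Finset.mem_union.2 (v2 x hx hx')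
    have e4 : q' ∈ dlt S A → p' ∈ dlt S A := dc_ls S A q' p' fun x hx hx' =>
      Finset.mem_union.2 (v2 x hx (hx'.trans h2.symm)).symm
    have e5 : p ∈ dlt S A → p' ∈ dlt S A := dc_la S A p p' fun x hx hx' => Finset.mem_union.2 (f1 x hx hx')
    have e6 : p' ∈ dlt S A → p ∈ dlt S A := dc_la S A p' p fun x hx hx' =>
      Finset.mem_union.2 (f1 x hx (hx'.trans h4.symm)).symm
    have e7 : p ∈ dlt S A := by
      rcases hX4 y hy with h | h | h | h
      · exact dc_in S hnc h hy
      · exact e2 (dc_in S hnc h hy)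
      · exact e6 (dc_in S hnc h hy)
      · exact e6 (e4 (dc_in S hnc h hy))
    refine Finset.Subset.antisymm hs fun x hx => ?_
    simp only [Finset.mem_union] at hx
    rcases hx with (h | h) | (h | h)
    · exact dc_out S hnc h e7
    · exact dc_out S hnc h (e1 e7)
    · exact dc_out S hnc h (e5 e7)
    · exact dc_out S hnc h (e3 (e5 e7))

theorem dlt_card (S : GMap G) (A : Finset G.edgeSet) : (dlt S A).card = 2 * (mix A S).card := by
  have h1 : dlt S A = mix A S ∪ (mix A S).image S.nxt := by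
    ext x
    rw [dc_mem, Finset.mem_union, Finset.mem_image]
    unfold mix
    constructor
    · intro h
      by_cases hx : ed x ∈ A
      · left
        rw [Finset.mem_filter]
        exact ⟨Finset.mem_univ _, hx, fun h' => h ⟨fun _ => h', fun _ => hx⟩⟩
      · right
        refine ⟨S.nxt x, ?_, S.nxt_nxt x⟩
        rw [Finset.mem_filter]
        refine ⟨Finset.mem_univ _, ?_, ?_⟩
        · by_contra h'
          exact h ⟨fun h2 => absurd h2 hx, fun h2 => absurd h2 h'⟩
        · rw [S.nxt_nxt]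
          exact hx
    · rintro (h | ⟨z, h, rfl⟩)
      · rw [Finset.mem_filter] at h
        exact fun h' => h.2.2 (h'.1 h.2.1)
      · rw [Finset.mem_filter] at h
        rw [S.nxt_nxt]
        exact fun h' => h.2.2 (h'.2 h.2.1)
  have h2 : Disjoint (mix A S) ((mix A S).image S.nxt) := by
    rw [Finset.disjoint_left]
    intro x hx hx'
    obtain ⟨z, hz, rfl⟩ := Finset.mem_image.1 hx'
    unfold mix at hx hz
    rw [Finset.mem_filter] at hx hz
    exact hz.2.2 hx.2.1
  have h3 : Function.Injective S.nxt := fun a b h => by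
    rw [← S.nxt_nxt a, h, S.nxt_nxt]
  rw [h1, Finset.card_union_of_disjoint h2, Finset.card_image_of_injective _ h3]
  ring

end Pool.Agent.FGT
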