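import Pool.Agent.FGT.DcA
import Pool.Agent.BEO.BdDim
import Pool.Agent.BEO.CycDim
import Pool.Agent.BEO.CutEx

/-!
# FGT-DcA2: closed sets of corners are dependent modulo cuts
-/

set_option autoImplicit false

open Finset
open scoped Classical

namespace Pool.Agent.FGT

open Pool.Agent.Helper35.OG (Flag GMap across side)
open Pool.Agent.BEO (F2 ed rp cyc ev bdF nb)

variable {V : Type} {G : SimpleGraph V} [Fintype V]

private theorem two (a : F2) : a + a = 0 := CharTwo.add_self_eq_zero a

omit [Fintype V] in
private theorem rp_cases (p : Flag G) : rp (ed p) = p ∨ rp (ed p) = side p ∨ rp (ed p) = across p ∨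
    rp (ed p) = side (across p) := by
  have h1 : (rp (ed p)).1.edge = p.1.edge := congrArg Subtype.val (BEO.ed_rp (ed p))
  have h2 := (SimpleGraph.dart_edge_eq_iff _ _).1 h1
  rcases p with ⟨d, s⟩
  generalize rp (ed (d, s)) = q at h2 ⊢
  rcases q with ⟨d', s'⟩
  simp only at h2
  rcases h2 with rfl | rfl
  · cases s <;> cases s' <;> simp [side, across]
  · cases s <;> cases s' <;> simp [side, across]

omit [Fintype V] in
/-- a function invariant under `side` and `across` is a function of the edge -/
private theorem inv_rp (f : Flag G → F2) (h1 : ∀ p, f (side p) = f p) (h2 : ∀ p, f (across p) = f p) (p : Flag G) :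
    f (rp (ed p)) = f p := by
  rcases rp_cases p with h | h | h | h
  · rw [h]
  · rw [h, h1]
  · rw [h, h2]
  · rw [h, h1, h2]

omit [Fintype V] in
private theorem dl_eq (L : Flag G → F2) (h1 : ∀ p, L (side p) = L p) (p : Flag G) :
    L (rp (ed p)) + L (across (rp (ed p))) = L p + L (across p) := by
  refine inv_rp (fun p => L p + L (across p)) (fun p => ?_) (fun p => ?_) p
  · show L (side p) + L (across (side p)) = L p + L (across p)
    have h3 : across (side p) = side (across p) := rfl
    rw [h1, h3, h1]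
  · show L (across p) + L (across (across p)) = L p + L (across p)
    rw [Pool.Agent.Helper35.OG.across_across, add_comm]

/-- a sum over the flags is a sum over the edges -/
private theorem sum_flags (f : Flag G → F2) :
    ∑ p, f p = ∑ e : G.edgeSet, (f (rp e) + f (side (rp e)) + (f (across (rp e)) + f (side (across (rp e))))) := by
  rw [Fintype.sum_prod_type, BEO.sum_edges]
  refine Finset.sum_congr rfl fun e _ => ?_
  rw [Fintype.sum_bool, Fintype.sum_bool]
  generalize rp e = q
  rcases q with ⟨d, s⟩
  cases s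
  · show f (d, true) + f (d, false) + (f (d.symm, true) + f (d.symm, false)) =
      f (d, false) + f (d, true) + (f (d.symm, true) + f (d.symm, false))
    ring
  · show f (d, true) + f (d, false) + (f (d.symm, true) + f (d.symm, false)) =
      f (d, true) + f (d, false) + (f (d.symm, false) + f (d.symm, true))
    ring

private theorem orth_bd (S : GMap G) (X : Finset (Flag G)) (L N : Flag G → F2) (h1 : ∀ p, L (side p) = L p)
    (h2 : ∀ p, L (S.nxt p) = L p + if p ∈ X then 1 else 0) (h3 : ∀ p, N (across p) = N p)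
    (h4 : ∀ p, N (S.nxt p) = N p + if p ∈ X then 1 else 0) (F : S.Face) :
    ∑ e : G.edgeSet, (L (rp e) + L (across (rp e))) * (bdF S F).1 e = 0 := by
  have e1 : ∑ p : Flag G, L p * (if S.face p = F then 1 else 0) = 0 := by
    have e2 : ∑ p : Flag G, (L p + N p) * (if S.face p = F then (1 : F2) else 0) = 0 := by
      refine Pool.Agent.Helper35.OG.sum_inv (fun p : Flag G => S.nxt p) S.nxt_nxt S.nxt_ne _ fun p => ?_
      show (L (S.nxt p) + N (S.nxt p)) * _ = _
      rw [Pool.Agent.Helper35.OG.face_nxt, h2, h4]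
      congr 1
      linear_combination two (if p ∈ X then (1 : F2) else 0)
    have e3 : ∑ p : Flag G, N p * (if S.face p = F then (1 : F2) else 0) = 0 := by
      refine Pool.Agent.Helper35.OG.sum_inv (fun p : Flag G => across p) Pool.Agent.Helper35.OG.across_across
        Pool.Agent.Helper35.OG.across_ne _ fun p => ?_
      show N (across p) * _ = _
      rw [Pool.Agent.Helper35.OG.face_across, h3]
    have e4 : ∑ p : Flag G, L p * (if S.face p = F then (1 : F2) else 0) =
        ∑ p : Flag G, (L p + N p) * (if S.face p = F then (1 : F2) else 0) +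
        ∑ p : Flag G, N p * (if S.face p = F then (1 : F2) else 0) := by
      rw [← Finset.sum_add_distrib]
      refine Finset.sum_congr rfl fun p _ => ?_
      linear_combination -(two (N p)) * (if S.face p = F then (1 : F2) else 0)
    rw [e4, e2, e3, add_zero]
  rw [← e1, sum_flags]
  refine Finset.sum_congr rfl fun e _ => ?_
  have e5 : (bdF S F).1 e = (if S.face (rp e) = F then 1 else 0) + (if S.face (side (rp e)) = F then 1 else 0) := by
    have := BEO.bdF_eq S F (rp e)
    rwa [BEO.ed_rp] at this
  have e6 : S.face (across (rp e)) = S.face (rp e) := Pool.Agent.Helper35.OG.face_across S _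
  have e7 : S.face (side (across (rp e))) = S.face (side (rp e)) := by
    have e8 : side (across (rp e)) = across (side (rp e)) := rfl
    rw [e8, Pool.Agent.Helper35.OG.face_across]
  rw [e5, e6, e7, h1, h1]
  ring

theorem cld_dep [Nontrivial V] (hG : G.Connected) (S : GMap G) (k : ℕ) (hk : S.eg ≤ k)
    (Xs : Fin (k + 1) → Finset (Flag G)) (h : ∀ i, Cld S (Xs i)) :
    ∃ I : Finset (Fin (k + 1)), I.Nonempty ∧ ∃ A : Finset G.edgeSet, ∀ p : Flag G,
      (if p ∈ dlt S A then (1 : F2) else 0) = ∑ i ∈ I, if p ∈ Xs i then 1 else 0 := by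
  choose L hL1 hL2 using fun i => (h i).1
  choose N hN1 hN2 using fun i => (h i).2
  -- the functionals
  obtain ⟨φ, hφ⟩ : ∃ φ : Fin (k + 1) → Module.Dual F2 (cyc G), ∀ i z, φ i z =
      ∑ e : G.edgeSet, (L i (rp e) + L i (across (rp e))) * z.1 e :=
    ⟨fun i =>
      { toFun := fun z => ∑ e : G.edgeSet, (L i (rp e) + L i (across (rp e))) * z.1 e
        map_add' := fun z z' => by
          rw [← Finset.sum_add_distrib]
          refine Finset.sum_congr rfl fun e _ => ?_
          show _ * (z.1 e + z'.1 e) = _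
          ring
        map_smul' := fun c z => by
          rw [RingHom.id_apply, smul_eq_mul, Finset.mul_sum]
          refine Finset.sum_congr rfl fun e _ => ?_
          show _ * (c * z.1 e) = _
          ring }, fun _ _ => rfl⟩
  have hann : ∀ i, φ i ∈ (Submodule.span F2 (Set.range (bdF S))).dualAnnihilator := by
    intro i
    rw [Submodule.mem_dualAnnihilator]
    intro z hz
    refine Submodule.span_induction (p := fun z _ => φ i z = 0) ?_ (map_zero _) ?_ ?_ hz
    · rintro _ ⟨F, rfl⟩
      rw [hφ]
      exact orth_bd S (Xs i) (L i) (N i) (hL1 i) (hL2 i) (hN1 i) (hN2 i) F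
    · intro u v _ _ hu hv
      rw [map_add, hu, hv, add_zero]
    · intro c u _ hu
      rw [map_smul, hu, smul_zero]
  have hdim : Module.finrank F2 (Submodule.span F2 (Set.range (bdF S))).dualAnnihilator ≤ k := by
    have d1 := BEO.finrank_cyc hG
    have d2 := BEO.finrank_bd hG S
    have d3 := Subspace.finrank_add_finrank_dualAnnihilator_eq (Submodule.span F2 (Set.range (bdF S)))
    have d4 : S.eg = 2 - (Nat.card V : ℤ) + (Nat.card G.edgeSet : ℤ) - (Nat.card S.Face : ℤ) := rfl
    have d5 : Module.finrank F2 (Submodule.span F2 (Set.range (bdF S))) +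
      Module.finrank F2 (Submodule.span F2 (Set.range (bdF S))).dualAnnihilator = Module.finrank F2 (cyc G) := d3
    omega
  have hdep : ¬ LinearIndependent F2 (fun i => (⟨φ i, hann i⟩ :
      (Submodule.span F2 (Set.range (bdF S))).dualAnnihilator)) := by
    intro hli
    have := hli.fintype_card_le_finrank
    rw [Fintype.card_fin] at this
    omega
  obtain ⟨g, hg, i₀, hi₀⟩ := Fintype.not_linearIndependent_iff.1 hdep
  obtain ⟨I, hI⟩ : ∃ I : Finset (Fin (k + 1)), I = univ.filter fun i => g i ≠ 0 := ⟨_, rfl⟩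
  have hg1 : ∀ x : F2, x ≠ 0 → x = 1 := by decide
  have hsum : ∀ z, ∑ i ∈ I, φ i z = 0 := by
    intro z
    have s1 : ∑ i, g i • φ i = 0 := by
      have := congrArg Subtype.val hg
      simpa using this
    have s2 : ∑ i, g i * φ i z = 0 := by
      have := LinearMap.congr_fun s1 z
      rw [LinearMap.sum_apply] at this
      simpa using this
    rw [hI, Finset.sum_filter]
    refine Eq.trans (Finset.sum_congr rfl fun i _ => ?_) s2
    split_ifs with h1
    · rw [hg1 _ h1, one_mul]
    · rw [not_not.1 h1, zero_mul]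
  refine ⟨I, ⟨i₀, by rw [hI]; exact mem_filter.2 ⟨mem_univ _, hi₀⟩⟩, ?_⟩
  obtain ⟨L', hL'⟩ : ∃ L' : Flag G → F2, ∀ p, L' p = ∑ i ∈ I, L i p := ⟨_, fun _ => rfl⟩
  have hL's : ∀ p, L' (side p) = L' p := fun p => by
    rw [hL', hL']
    exact Finset.sum_congr rfl fun i _ => hL1 i p
  obtain ⟨cv, hcv⟩ := BEO.cut_exists (G := G) (fun e => L' (rp e) + L' (across (rp e))) (by
    intro z hz
    rw [← hsum ⟨z, hz⟩]
    have s1 : ∀ e : G.edgeSet, (L' (rp e) + L' (across (rp e))) * z e =
        ∑ i ∈ I, (L i (rp e) + L i (across (rp e))) * z e := by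
      intro e
      rw [hL', hL', ← Finset.sum_add_distrib, Finset.sum_mul]
    rw [Finset.sum_congr rfl fun e _ => s1 e, Finset.sum_comm]
    refine Finset.sum_congr rfl fun i _ => ?_
    rw [hφ])
  obtain ⟨f, hf⟩ : ∃ f : Flag G → F2, ∀ p, f p = L' p + cv p.1.fst := ⟨_, fun _ => rfl⟩
  have f1 : ∀ p, f (side p) = f p := fun p => by
    rw [hf, hf, hL's]
    rfl
  have f2 : ∀ p, f (across p) = f p := fun p => by
    have h1 := hcv p
    rw [dl_eq L' hL's p] at h1
    rw [hf, hf]
    have h2 : (across p).1.fst = p.1.snd := rfl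
    rw [h2]
    linear_combination h1 - two (L' p) + two (cv p.1.snd)
  have f3 : ∀ p, f (S.nxt p) = f p + ∑ i ∈ I, if p ∈ Xs i then 1 else 0 := fun p => by
    have h1 : L' (S.nxt p) = L' p + ∑ i ∈ I, if p ∈ Xs i then 1 else 0 := by
      rw [hL', hL', ← Finset.sum_add_distrib]
      exact Finset.sum_congr rfl fun i _ => hL2 i p
    rw [hf, hf, h1, S.nxt_fst]
    ring
  refine ⟨univ.filter fun e => f (rp e) = 1, fun p => ?_⟩
  have hA : ∀ q : Flag G, ed q ∈ (univ.filter fun e => f (rp e) = 1) ↔ f q = 1 := by
    intro q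
    rw [mem_filter, inv_rp f f1 f2 q]
    exact and_iff_right (mem_univ _)
  have hd : p ∈ dlt S (univ.filter fun e => f (rp e) = 1) ↔ ¬ (f p = 1 ↔ f (S.nxt p) = 1) := by
    unfold dlt
    rw [mem_filter, hA, hA]
    exact and_iff_right (mem_univ _)
  have hx : ∀ x y : F2, (if ¬ (x = 1 ↔ x + y = 1) then (1 : F2) else 0) = y := by decide
  rw [← hx (f p) (∑ i ∈ I, if p ∈ Xs i then 1 else 0), ← f3]
  exact if_congr hd rfl rfl

end Pool.Agent.FGT
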