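import Pool.Agent.FGT.DcA2

/-!
# FGT-DcB: a small set of corners which spans

PLAN. Call a family `Xs : Fin m → Finset (Flag G)` of short sets free if no nonempty `I` has an `A` as in `cld_dep`. By `cld_dep` a free
family has `m ≤ k` (restrict a longer family to its first `k + 1` members). Take a free family with `m` as large as possible (`m = 0` is
free) and `K0 = ⋃ Xs i` (card at most `8 * m` by `sht_card`). For a short `X` disjoint from `K0` the family `Xs` with `X` added is not free:
there are `I`, `A`; `X` is in `I` (otherwise `Xs` would not be free), so outside `K0` the sum is the indicator of `X`: `dlt S A \ K0 = X`.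
-/

set_option autoImplicit false

open Finset
open scoped Classical

namespace Pool.Agent.FGT

open Pool.Agent.Helper35.OG (Flag GMap across side)
open Pool.Agent.BEO (F2 ed rp cyc ev bdF nb)

variable {V : Type} {G : SimpleGraph V} [Fintype V]

/-- a set of short sets without dependence modulo cuts -/
private def Fre (S : GMap G) (Z : Finset (Finset (Flag G))) : Prop :=
  (∀ X ∈ Z, Sht S X) ∧ ∀ I, I ⊆ Z → I.Nonempty → ¬ ∃ A : Finset G.edgeSet, ∀ p : Flag G,
    (if p ∈ dlt S A then (1 : F2) else 0) = ∑ X ∈ I, if p ∈ X then 1 else 0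

private theorem fre_card [Nontrivial V] (hG : G.Connected) (S : GMap G) (k : ℕ) (hk : S.eg ≤ k)
    (Z : Finset (Finset (Flag G))) (hZ : Fre S Z) : Z.card ≤ k := by
  by_contra hc
  push Not at hc
  obtain ⟨Y, hY1, hY2⟩ := exists_subset_card_eq (show k + 1 ≤ Z.card from hc)
  obtain ⟨I, hI, A, hA⟩ := cld_dep hG S k hk (fun i => ((Y.equivFinOfCardEq hY2).symm i).1)
    (fun i => sht_cld S _ (hZ.1 _ (hY1 ((Y.equivFinOfCardEq hY2).symm i).2)))
  refine hZ.2 (I.image fun i => ((Y.equivFinOfCardEq hY2).symm i).1) ?_ (hI.image _) ⟨A, fun p => ?_⟩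
  · intro X hX
    obtain ⟨i, -, rfl⟩ := mem_image.1 hX
    exact hY1 ((Y.equivFinOfCardEq hY2).symm i).2
  · rw [hA p, sum_image]
    intro i _ j _ hij
    exact (Y.equivFinOfCardEq hY2).symm.injective (Subtype.ext hij)

theorem exists_K0 [Nontrivial V] (hG : G.Connected) (S : GMap G) (k : ℕ) (hk : S.eg ≤ k) :
    ∃ K0 : Finset (Flag G), NC S K0 ∧ K0.card ≤ 8 * k ∧ Spn S K0 := by
  have hne : ((univ : Finset (Finset (Finset (Flag G)))).filter (Fre S)).Nonempty := by
    refine ⟨∅, mem_filter.2 ⟨mem_univ _, ?_, ?_⟩⟩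
    · intro X hX
      exact absurd hX (notMem_empty X)
    · intro I hI hI'
      rw [subset_empty.1 hI] at hI'
      exact absurd hI' not_nonempty_empty
  obtain ⟨Z, hZ, hmax⟩ := exists_max_image _ (fun Z => Z.card) hne
  have hZf : Fre S Z := (mem_filter.1 hZ).2
  have hmem : ∀ p, p ∈ Z.biUnion id ↔ ∃ X ∈ Z, p ∈ X := by
    intro p
    rw [mem_biUnion]
    rfl
  refine ⟨Z.biUnion id, ?_, ?_, ?_⟩
  · intro p hp
    obtain ⟨X, hX, hpX⟩ := (hmem p).1 hp
    exact (hmem _).2 ⟨X, hX, sht_nc S X (hZf.1 X hX) p hpX⟩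
  · calc (Z.biUnion id).card ≤ ∑ X ∈ Z, (id X).card := card_biUnion_le
      _ ≤ ∑ _X ∈ Z, 8 := sum_le_sum fun X hX => (sht_card S X (hZf.1 X hX)).1
      _ = Z.card * 8 := by rw [sum_const, smul_eq_mul]
      _ ≤ 8 * k := by
        have := fre_card hG S k hk Z hZf
        omega
  · intro X hX hd
    have hXZ : X ∉ Z := by
      intro h
      obtain ⟨p, hp⟩ := (sht_card S X hX).2
      exact disjoint_left.1 hd hp ((hmem p).2 ⟨X, h, hp⟩)
    have hnf : ¬ Fre S (insert X Z) := by
      intro h
      have h1 := hmax (insert X Z) (mem_filter.2 ⟨mem_univ _, h⟩)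
      rw [card_insert_of_notMem hXZ] at h1
      omega
    have hex : ∃ I, I ⊆ insert X Z ∧ I.Nonempty ∧ ∃ A : Finset G.edgeSet, ∀ p : Flag G,
        (if p ∈ dlt S A then (1 : F2) else 0) = ∑ Y ∈ I, if p ∈ Y then 1 else 0 := by
      by_contra hc
      push Not at hc
      refine hnf ⟨?_, ?_⟩
      · intro Y hY
        rcases mem_insert.1 hY with rfl | hY
        · exact hX
        · exact hZf.1 Y hY
      · rintro I hI hI' ⟨A, hA⟩
        obtain ⟨p, hp⟩ := hc I hI hI' A
        exact hp (hA p)
    obtain ⟨I, hI, hI', A, hA⟩ := hex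
    have hXI : X ∈ I := by
      by_contra hc
      refine hZf.2 I ?_ hI' ⟨A, hA⟩
      intro Y hY
      rcases mem_insert.1 (hI hY) with rfl | hY'
      · exact absurd hY hc
      · exact hY'
    refine ⟨A, ?_⟩
    ext p
    rw [mem_sdiff]
    by_cases hp : p ∈ Z.biUnion id
    · constructor
      · intro h
        exact absurd hp h.2
      · intro h
        exact absurd hp (disjoint_left.1 hd h)
    · have h1 : ∑ Y ∈ I, (if p ∈ Y then (1 : F2) else 0) = if p ∈ X then 1 else 0 := by
        refine sum_eq_single_of_mem X hXI ?_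
        intro Y hY hYX
        rw [if_neg]
        intro hpY
        rcases mem_insert.1 (hI hY) with h2 | h2
        · exact hYX h2
        · exact hp ((hmem p).2 ⟨Y, h2, hpY⟩)
      have h2 := hA p
      rw [h1] at h2
      by_cases h3 : p ∈ dlt S A <;> by_cases h4 : p ∈ X
      · exact ⟨fun _ => h4, fun _ => ⟨h3, hp⟩⟩
      · rw [if_pos h3, if_neg h4] at h2
        exact absurd h2 one_ne_zero
      · rw [if_neg h3, if_pos h4] at h2
        exact absurd h2.symm one_ne_zero
      · exact ⟨fun h => absurd h.1 h3, fun h => absurd h h4⟩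

end Pool.Agent.FGT
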