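import Pool.Agent.FGT.DcDef

/-!
# FGT-DcC: cutting corner by corner
-/

set_option autoImplicit false

open Finset
open scoped Classical

namespace Pool.Agent.FGT

open Pool.Agent.Helper35.OG (Flag GMap across side)
open Pool.Agent.BEO (F2 ed rp cyc ev bdF nb)

variable {V : Type} {G : SimpleGraph V} [Fintype V]

private theorem dcc_nc (S : GMap G) {K : Finset (Flag G)} (hK : NC S K) {p : Flag G} (hp : p ∉ K) : S.nxt p ∉ K := by
  intro h
  apply hp
  have := hK _ h
  rwa [S.nxt_nxt] at this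

private theorem dcc_nc1 (S : GMap G) {K : Finset (Flag G)} (hK : NC S K) (m : Flag G) : NC S (K ∪ cr S m) := by
  intro p hp
  rw [Finset.mem_union] at hp ⊢
  rcases hp with hp | hp
  · exact Or.inl (hK p hp)
  · refine Or.inr ?_
    unfold cr at hp ⊢
    rw [Finset.mem_insert, Finset.mem_singleton] at hp ⊢
    rcases hp with rfl | rfl
    · exact Or.inr rfl
    · exact Or.inl (S.nxt_nxt m)

private theorem dcc_cl (S : GMap G) {K : Finset (Flag G)} {D : Finset G.edgeSet} (hD : Cm S K D) {x y : G.edgeSet}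
    (hx : x ∈ D) (h : hR S K x y) : y ∈ D := (hD.2 x hx y).2 (Relation.EqvGen.rel _ _ h)

private theorem dcc_iff (S : GMap G) {K : Finset (Flag G)} {D : Finset G.edgeSet} (hD : Cm S K D) {x y : G.edgeSet}
    (h : Relation.EqvGen (hR S K) x y) : x ∈ D ↔ y ∈ D :=
  ⟨fun hx => (hD.2 x hx y).2 h, fun hy => (hD.2 y hy x).2 (Relation.EqvGen.symm _ _ h)⟩

private theorem dcc_lift (S : GMap G) {K : Finset (Flag G)} {D : Finset G.edgeSet} (hD : Cm S K D)
    (r : G.edgeSet → G.edgeSet → Prop) (hr : ∀ x y, x ∈ D → y ∈ D → hR S K x y → Relation.EqvGen r x y)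
    {x y : G.edgeSet} (h : Relation.EqvGen (hR S K) x y) : x ∈ D → Relation.EqvGen r x y := by
  induction h with
  | rel x y h => exact fun hx => hr x y hx (dcc_cl S hD hx h) h
  | refl x => exact fun _ => Relation.EqvGen.refl x
  | symm x y h ih => exact fun hy => Relation.EqvGen.symm _ _ (ih ((dcc_iff S hD h).2 hy))
  | trans x y z h1 h2 ih1 ih2 =>
    exact fun hx => Relation.EqvGen.trans _ _ _ (ih1 hx) (ih2 ((dcc_iff S hD h1).1 hx))

private theorem dcc_mono (S : GMap G) {K K' : Finset (Flag G)} (hK : K ⊆ K') {x y : G.edgeSet}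
    (h : Relation.EqvGen (hR S K') x y) : Relation.EqvGen (hR S K) x y := by
  induction h with
  | rel a b h =>
    obtain ⟨p, hp, h1, h2⟩ := h
    exact Relation.EqvGen.rel _ _ ⟨p, fun h => hp (hK h), h1, h2⟩
  | refl a => exact Relation.EqvGen.refl a
  | symm a b _ ih => exact Relation.EqvGen.symm _ _ ih
  | trans a b c _ _ ih1 ih2 => exact Relation.EqvGen.trans _ _ _ ih1 ih2

private theorem dcc_cases (S : GMap G) {K : Finset (Flag G)} (m : Flag G) {x y : G.edgeSet} (h : hR S K x y) :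
    hR S (K ∪ cr S m) x y ∨ (x = ed m ∧ y = ed (S.nxt m)) ∨ (x = ed (S.nxt m) ∧ y = ed m) := by
  obtain ⟨p, hp, h1, h2⟩ := h
  by_cases hm : p ∈ cr S m
  · unfold cr at hm
    rw [Finset.mem_insert, Finset.mem_singleton] at hm
    rcases hm with rfl | rfl
    · exact Or.inr (Or.inl ⟨h1.symm, h2.symm⟩)
    · rw [S.nxt_nxt] at h2
      exact Or.inr (Or.inr ⟨h1.symm, h2.symm⟩)
  · refine Or.inl ⟨p, ?_, h1, h2⟩
    rw [Finset.mem_union]
    exact fun h => h.elim hp hm

private theorem dcc_cls (S : GMap G) (K : Finset (Flag G)) (a : G.edgeSet) :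
    Cm S K (univ.filter fun z => Relation.EqvGen (hR S K) a z) := by
  refine ⟨⟨a, ?_⟩, fun x hx y => ?_⟩
  · rw [Finset.mem_filter]
    exact ⟨Finset.mem_univ _, Relation.EqvGen.refl a⟩
  · rw [Finset.mem_filter] at hx ⊢
    exact ⟨fun h => Relation.EqvGen.trans _ _ _ (Relation.EqvGen.symm _ _ hx.2) h.2,
      fun h => ⟨Finset.mem_univ _, Relation.EqvGen.trans _ _ _ hx.2 h⟩⟩

theorem cm_step (S : GMap G) (K : Finset (Flag G)) (hK : NC S K) (m : Flag G) (D : Finset G.edgeSet) (hD : Cm S K D) :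
    Cm S (K ∪ cr S m) D ∨ ∃ D1 D2, Cm S (K ∪ cr S m) D1 ∧ Cm S (K ∪ cr S m) D2 ∧ Disjoint D1 D2 ∧ D1 ∪ D2 = D := by
  by_cases hm : m ∈ K
  · have h1 : K ∪ cr S m = K := by
      rw [Finset.union_eq_left]
      unfold cr
      intro p hp
      rw [Finset.mem_insert, Finset.mem_singleton] at hp
      rcases hp with rfl | rfl
      · exact hm
      · exact hK _ hm
    rw [h1]
    exact Or.inl hD
  have hsub : K ⊆ K ∪ cr S m := Finset.subset_union_left
  have hab : hR S K (ed m) (ed (S.nxt m)) := ⟨m, hm, rfl, rfl⟩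
  by_cases ha : ed m ∈ D ∧ ¬ Relation.EqvGen (hR S (K ∪ cr S m)) (ed m) (ed (S.nxt m))
  · obtain ⟨haD, hn⟩ := ha
    refine Or.inr ⟨univ.filter fun z => Relation.EqvGen (hR S (K ∪ cr S m)) (ed m) z,
      univ.filter fun z => Relation.EqvGen (hR S (K ∪ cr S m)) (ed (S.nxt m)) z, dcc_cls S _ _, dcc_cls S _ _, ?_, ?_⟩
    · rw [Finset.disjoint_left]
      intro z hz hz'
      rw [Finset.mem_filter] at hz hz'
      exact hn (Relation.EqvGen.trans _ _ _ hz.2 (Relation.EqvGen.symm _ _ hz'.2))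
    · have hbD : ed (S.nxt m) ∈ D := dcc_cl S hD haD hab
      have key : ∀ x y, Relation.EqvGen (hR S K) x y →
          ((Relation.EqvGen (hR S (K ∪ cr S m)) (ed m) x ∨ Relation.EqvGen (hR S (K ∪ cr S m)) (ed (S.nxt m)) x) ↔
          (Relation.EqvGen (hR S (K ∪ cr S m)) (ed m) y ∨ Relation.EqvGen (hR S (K ∪ cr S m)) (ed (S.nxt m)) y)) := by
        intro x y h
        induction h with
        | rel x y h =>
          rcases dcc_cases S m h with h | ⟨rfl, rfl⟩ | ⟨rfl, rfl⟩
          · have h' : Relation.EqvGen (hR S (K ∪ cr S m)) x y := Relation.EqvGen.rel _ _ h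
            constructor
            · rintro (g | g)
              · exact Or.inl (Relation.EqvGen.trans _ _ _ g h')
              · exact Or.inr (Relation.EqvGen.trans _ _ _ g h')
            · rintro (g | g)
              · exact Or.inl (Relation.EqvGen.trans _ _ _ g (Relation.EqvGen.symm _ _ h'))
              · exact Or.inr (Relation.EqvGen.trans _ _ _ g (Relation.EqvGen.symm _ _ h'))
          · exact ⟨fun _ => Or.inr (Relation.EqvGen.refl _), fun _ => Or.inl (Relation.EqvGen.refl _)⟩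
          · exact ⟨fun _ => Or.inl (Relation.EqvGen.refl _), fun _ => Or.inr (Relation.EqvGen.refl _)⟩
        | refl x => exact Iff.rfl
        | symm x y _ ih => exact ih.symm
        | trans x y z _ _ ih1 ih2 => exact ih1.trans ih2
      ext z
      rw [Finset.mem_union, Finset.mem_filter, Finset.mem_filter]
      constructor
      · rintro (⟨-, h⟩ | ⟨-, h⟩)
        · exact (dcc_iff S hD (dcc_mono S hsub h)).1 haD
        · exact (dcc_iff S hD (dcc_mono S hsub h)).1 hbD
      · intro hz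
        rcases (key _ _ ((hD.2 _ haD z).1 hz)).1 (Or.inl (Relation.EqvGen.refl _)) with h | h
        · exact Or.inl ⟨Finset.mem_univ _, h⟩
        · exact Or.inr ⟨Finset.mem_univ _, h⟩
  · refine Or.inl ⟨hD.1, fun x hx y => ⟨fun hy => ?_, fun h => (dcc_iff S hD (dcc_mono S hsub h)).1 hx⟩⟩
    refine dcc_lift S hD _ ?_ ((hD.2 x hx y).1 hy) hx
    intro u v hu hv h
    rcases dcc_cases S m h with h | ⟨rfl, rfl⟩ | ⟨rfl, rfl⟩
    · exact Relation.EqvGen.rel _ _ h
    · by_contra hc
      exact ha ⟨hu, hc⟩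
    · by_contra hc
      exact ha ⟨hv, fun hc' => hc (Relation.EqvGen.symm _ _ hc')⟩

theorem fam_cm (S : GMap G) (C : ℕ) (K : Finset (Flag G)) (hK : NC S K) (hc : K.card ≤ C) (D : Finset G.edgeSet)
    (hD : Cm S K D) : Fam S C D := by
  refine ⟨hD.1, fun e he e' he' => ?_, (Finset.card_le_card ?_).trans hc⟩
  · refine dcc_lift S hD _ ?_ ((hD.2 e he e').1 he') he
    rintro x y hx hy ⟨p, -, h1, h2⟩
    exact Relation.EqvGen.rel _ _ ⟨hx, hy, p, h1, h2⟩
  · intro p hp
    unfold mix at hp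
    rw [Finset.mem_filter] at hp
    by_contra hpK
    exact hp.2.2 (dcc_cl S hD hp.2.1 ⟨p, hpK, rfl, rfl⟩)

theorem univ_cm [Nontrivial V] (hG : G.Connected) (S : GMap G) : Cm S ∅ univ := by
  have hf : ∀ e : G.edgeSet, ∃ p : Flag G, ed p = e := Pool.Agent.BEO.ed_surj
  refine ⟨?_, fun x _ y => ⟨fun _ => ?_, fun _ => Finset.mem_univ _⟩⟩
  · obtain ⟨v⟩ : Nonempty V := inferInstance
    obtain ⟨p, -⟩ := Pool.Agent.Helper35.OG.exists_flag hG v
    exact ⟨ed p, Finset.mem_univ _⟩
  · obtain ⟨p, rfl⟩ := hf x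
    obtain ⟨q, rfl⟩ := hf y
    have h := Pool.Agent.Helper35.OG.all_const S hG (fun q => Relation.EqvGen (hR S ∅) (ed p) (ed q)) ?_ ?_ ?_ p q
    · exact (iff_of_eq h).1 (Relation.EqvGen.refl _)
    · intro r
      have h1 : Relation.EqvGen (hR S ∅) (ed r) (ed (S.nxt r)) := Relation.EqvGen.rel _ _ ⟨r, Finset.notMem_empty r, rfl, rfl⟩
      exact propext ⟨fun h => Relation.EqvGen.trans _ _ _ h (Relation.EqvGen.symm _ _ h1),
        fun h => Relation.EqvGen.trans _ _ _ h h1⟩
    · intro r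
      show Relation.EqvGen (hR S ∅) (ed p) (ed (side r)) = _
      rw [Pool.Agent.BEO.ed_side]
    · intro r
      show Relation.EqvGen (hR S ∅) (ed p) (ed (across r)) = _
      rw [Pool.Agent.BEO.ed_across]

theorem cut_ind (S : GMap G) (C : ℕ) (P : Finset G.edgeSet → Prop)
    (h2 : ∀ D1 D2 : Finset G.edgeSet, Fam S C D1 → Fam S C D2 → Fam S C (D1 ∪ D2) → Disjoint D1 D2 → P D1 → P D2 →
      P (D1 ∪ D2)) (K K' : Finset (Flag G)) (hK : NC S K) (hK' : NC S K') (hs : K ⊆ K') (hc : K'.card ≤ C)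
    (D : Finset G.edgeSet) (hD : Cm S K D) (h : ∀ D', Cm S K' D' → D' ⊆ D → P D') : P D := by
  generalize hN : (K' \ K).card = N
  induction N using Nat.strong_induction_on generalizing K D with
  | _ N ih =>
    by_cases he : K' ⊆ K
    · have h1 : K = K' := Finset.Subset.antisymm hs he
      rw [h1] at hD
      exact h D hD (Finset.Subset.refl _)
    · rw [Finset.not_subset] at he
      obtain ⟨m, hm, hmK⟩ := he
      have hK1 := dcc_nc1 S hK m
      have hs1 : K ∪ cr S m ⊆ K' := by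
        refine Finset.union_subset hs ?_
        unfold cr
        intro p hp
        rw [Finset.mem_insert, Finset.mem_singleton] at hp
        rcases hp with rfl | rfl
        · exact hm
        · exact hK' _ hm
      have hlt : (K' \ (K ∪ cr S m)).card < N := by
        rw [← hN]
        refine Finset.card_lt_card ⟨Finset.sdiff_subset_sdiff (Finset.Subset.refl _) Finset.subset_union_left, ?_⟩
        intro hc
        have h1 : m ∈ K' \ K := Finset.mem_sdiff.2 ⟨hm, hmK⟩
        have h2 := hc h1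
        rw [Finset.mem_sdiff, Finset.mem_union] at h2
        apply h2.2
        unfold cr
        exact Or.inr (Finset.mem_insert_self _ _)
      have hc1 : (K ∪ cr S m).card ≤ C := (Finset.card_le_card hs1).trans hc
      rcases cm_step S K hK m D hD with h1 | ⟨D1, D2, h1, h1', hdj, hun⟩
      · exact ih _ hlt (K ∪ cr S m) hK1 hs1 D h1 h rfl
      · have hP1 : P D1 := ih _ hlt (K ∪ cr S m) hK1 hs1 D1 h1 (fun D' g1 g2 => h D' g1 (g2.trans (by
          rw [← hun]
          exact Finset.subset_union_left))) rfl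
        have hP2 : P D2 := ih _ hlt (K ∪ cr S m) hK1 hs1 D2 h1' (fun D' g1 g2 => h D' g1 (g2.trans (by
          rw [← hun]
          exact Finset.subset_union_right))) rfl
        have hF := fam_cm S C K hK ((Finset.card_le_card hs).trans hc) D hD
        rw [← hun] at hF ⊢
        exact h2 D1 D2 (fam_cm S C _ hK1 hc1 D1 h1) (fam_cm S C _ hK1 hc1 D2 h1') hF hdj hP1 hP2

end Pool.Agent.FGT
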