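import Pool.Agent.FGT.TsDef
import Pool.Agent.BEO.BdF

/-!
# FGT-DcDef: cuts, short sets of corners, regions (definitions)

`S` is a map, `K` a set of flags closed under `nxt` (a set of corners). The edges of the graph and the corners outside `K` form a
graph; its components, and the sets of corners between a set of edges and its complement, are used.
-/

set_option autoImplicit false

open Finset
open scoped Classical

namespace Pool.Agent.FGT

open Pool.Agent.Helper35.OG (Flag GMap across side)
open Pool.Agent.BEO (F2 ed rp cyc ev bdF nb)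

section gen

variable {V : Type} {G : SimpleGraph V}

/-- `K` is a set of corners -/
def NC (S : GMap G) (K : Finset (Flag G)) : Prop := ∀ p ∈ K, S.nxt p ∈ K

/-- the steps between edges at the corners outside `K` -/
def hR (S : GMap G) (K : Finset (Flag G)) (x y : G.edgeSet) : Prop := ∃ p : Flag G, p ∉ K ∧ ed p = x ∧ ed (S.nxt p) = y

/-- `D` is a component of the graph of the edges and the corners outside `K` -/
def Cm (S : GMap G) (K : Finset (Flag G)) (D : Finset G.edgeSet) : Prop :=
  D.Nonempty ∧ ∀ x ∈ D, ∀ y, y ∈ D ↔ Relation.EqvGen (hR S K) x y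

/-- `D` is connected by inner corners outside `K` -/
def CnK (S : GMap G) (K : Finset (Flag G)) (D : Finset G.edgeSet) : Prop :=
  ∀ x ∈ D, ∀ y ∈ D, Relation.EqvGen (fun a b => a ∈ D ∧ b ∈ D ∧ hR S K a b) x y

/-- the two flags of a corner -/
noncomputable def cr (S : GMap G) (p : Flag G) : Finset (Flag G) := {p, S.nxt p}

/-- short closed sets of corners: two corners of a face at a vertex; four corners at two vertices and two faces -/
def Sht (S : GMap G) (X : Finset (Flag G)) : Prop :=
  (∃ p q : Flag G, p.1.fst = q.1.fst ∧ S.face p = S.face q ∧ q ≠ p ∧ q ≠ S.nxt p ∧ X = cr S p ∪ cr S q) ∨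
  ∃ p q p' q' : Flag G, p.1.fst = q.1.fst ∧ p'.1.fst = q'.1.fst ∧ p.1.fst ≠ p'.1.fst ∧ S.face p = S.face p' ∧
    S.face q = S.face q' ∧ S.face p ≠ S.face q ∧ X = cr S p ∪ cr S q ∪ (cr S p' ∪ cr S q')

/-- closed sets of corners: every vertex and every face has an even number of them (given by potentials) -/
def Cld (S : GMap G) (X : Finset (Flag G)) : Prop :=
  (∃ L : Flag G → F2, (∀ p, L (side p) = L p) ∧ ∀ p, L (S.nxt p) = L p + if p ∈ X then 1 else 0) ∧
  ∃ L : Flag G → F2, (∀ p, L (across p) = L p) ∧ ∀ p, L (S.nxt p) = L p + if p ∈ X then 1 else 0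

/-- the number of runs of edges of `A` around the vertices -/
noncomputable def vs (S : GMap G) (A : Finset G.edgeSet) : ℕ :=
  Nat.card {c : Quot (rV A (part A S)) // ∃ p, Quot.mk _ p = c ∧ ed p ∈ A}

/-- the Euler characteristic of the ribbon surface of `A` with its closed faces -/
noncomputable def chi (S : GMap G) (A : Finset G.edgeSet) : ℤ := (vs S A : ℤ) - (A.card : ℤ) + (clo A (part A S) : ℤ)

end gen

variable {V : Type} {G : SimpleGraph V} [Fintype V]

/-- the flags of the corners with one edge in `A` and one outside -/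
noncomputable def dlt (S : GMap G) (A : Finset G.edgeSet) : Finset (Flag G) :=
  univ.filter fun p => ¬ (ed p ∈ A ↔ ed (S.nxt p) ∈ A)

/-- the short sets outside `K0` are cuts up to `K0` -/
def Spn (S : GMap G) (K0 : Finset (Flag G)) : Prop :=
  ∀ X, Sht S X → Disjoint X K0 → ∃ A : Finset G.edgeSet, dlt S A \ K0 = X

/-- the cut of `A` is short, and there is a cycle in `A` which is not a sum of boundaries of faces -/
def Ess (S : GMap G) (A : Finset G.edgeSet) : Prop :=
  Sht S (dlt S A) ∧ ∃ z : cyc G, (∀ e, e ∉ A → z.1 e = 0) ∧ z ∉ Submodule.span F2 (Set.range (bdF S))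

/-- the sets allowed in a reduced map: an edge; the two edges at a vertex with exactly two neighbours, which are adjacent -/
def Trv (S : GMap G) (A : Finset G.edgeSet) : Prop :=
  (A.card = 1 ∧ (mix A S).card = 4) ∨ ∃ x a b : V, a ≠ b ∧ G.Adj a b ∧ nb G x = {a, b} ∧ A = rk {x}

/-- reduced maps: a set of edges which lies in a disc meeting the rest in at most two corners at two vertices is trivial -/
def Reduced (S : GMap G) : Prop := ∀ A : Finset G.edgeSet, A.Nonempty → A ≠ univ → HCn S A → chi S A = 1 →
  (mix A S).card ≤ 4 → Trv S A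

/-- regions: a component `W` of the graph without the corners `K0`, and a set of parts of `W` -/
structure Rg (S : GMap G) (K0 : Finset (Flag G)) (W : Finset G.edgeSet) (X : Finset (Finset G.edgeSet)) : Prop where
  comp : Cm S K0 W
  sub : ∀ A ∈ X, A ⊆ W
  ne : ∀ A ∈ X, A.Nonempty
  dj : ∀ A ∈ X, ∀ B ∈ X, A ≠ B → Disjoint A B
  cn : ∀ A ∈ X, CnK S K0 A
  bd : ∀ A ∈ X, (dlt S A \ K0).card ≤ 8
  tm : ∀ A ∈ X, (∃ p ∈ K0, ed p ∈ A) ∨ Ess S A

/-- the edges of a region -/
noncomputable def rv (W : Finset G.edgeSet) (X : Finset (Finset G.edgeSet)) : Finset G.edgeSet :=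
  W.filter fun e => ∀ A ∈ X, e ∉ A

/-- the corners which bound a region -/
noncomputable def KR (S : GMap G) (K0 : Finset (Flag G)) (X : Finset (Finset G.edgeSet)) : Finset (Flag G) :=
  K0 ∪ X.biUnion (dlt S)

/-- the short sets inside `D` which avoid `K` are cuts of trivial sets -/
def Good (S : GMap G) (D : Finset G.edgeSet) (K : Finset (Flag G)) : Prop :=
  ∀ X, Sht S X → Disjoint X K → (∀ p ∈ X, ed p ∈ D) → ∃ A, Trv S A ∧ dlt S A = X

/-- the vertices at the bounding corners of `D`, and the neighbours of such vertices with two neighbours -/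
noncomputable def bI (K : Finset (Flag G)) (D : Finset G.edgeSet) : Finset V :=
  univ.filter fun v => ∃ p ∈ K, ed p ∈ D ∧ (v ∈ (ed p).1 ∨ ∃ x ∈ (ed p).1, (nb G x).card = 2 ∧ v ∈ nb G x)

/-- edges with a common end outside `I` -/
def brR (I : Finset V) (x y : G.edgeSet) : Prop := ∃ v, v ∉ I ∧ v ∈ x.1 ∧ v ∈ y.1

/-- the bridge of `I` containing the edge `e` -/
noncomputable def brC (I : Finset V) (e : G.edgeSet) : Finset G.edgeSet :=
  univ.filter fun f => Relation.EqvGen (brR I) e f

/-- the bridges of `I` -/
noncomputable def brs (I : Finset V) : Finset (Finset G.edgeSet) := univ.image (brC I)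

/-- the corners between different bridges of `I` -/
noncomputable def MX (S : GMap G) (I : Finset V) : Finset (Flag G) :=
  univ.filter fun p => ¬ Relation.EqvGen (brR I) (ed p) (ed (S.nxt p))

/-- `B` is a partition of the edges into sets connected by inner corners; the corners between different members are at vertices
of `I` -/
structure Ptn (S : GMap G) (B : Finset (Finset G.edgeSet)) (I : Finset V) : Prop where
  ne : ∀ A ∈ B, A.Nonempty
  dj : ∀ A ∈ B, ∀ A' ∈ B, A ≠ A' → Disjoint A A'
  un : ∀ e : G.edgeSet, ∃ A ∈ B, e ∈ A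
  cn : ∀ A ∈ B, HCn S A
  loc : ∀ A ∈ B, ∀ p ∈ mix A S, p.1.fst ∈ I

/-- the vertices at which different members of `B` meet -/
noncomputable def VM (S : GMap G) (B : Finset (Finset G.edgeSet)) : Finset V :=
  univ.filter fun v => ∃ A ∈ B, ∃ p ∈ mix A S, p.1.fst = v

/-- the faces at which different members of `B` meet -/
noncomputable def FM (S : GMap G) (B : Finset (Finset G.edgeSet)) : ℕ :=
  Nat.card {f : S.Face // ∃ A ∈ B, ∃ p ∈ mix A S, S.face p = f}

/-- the number of the flags of the corners between different members of `B` -/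
noncomputable def rB (S : GMap G) (B : Finset (Finset G.edgeSet)) : ℕ := ∑ A ∈ B, (mix A S).card

end Pool.Agent.FGT
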