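import Pool.Agent.FGT.DcDef

/-!
# FGT-DcE: a bond of a component in a cut

PLAN. `W ∩ A0` and `W \ A0` are not empty (a flag `p` of `X` has exactly one of `ed p`, `ed (S.nxt p)` in `A0`, and both are in `W` since `p ∉ K0`,
`W` is a component). Let `Y` be the class of an edge of `W ∩ A0` under the steps inside `W ∩ A0` at corners outside `K0`. A corner outside
`K0` with exactly one edge in `Y` has its other edge in `W` but not in `A0`, so it is in `X`. Let `Z = A2` be the class of an edge of `W \ Y` under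
the steps inside `W \ Y` outside `K0`, `A1 = W \ A2`. A corner outside `K0` with exactly one edge in `A2` has its other edge in `Y`. `A1` is connected:
`Y` is connected, and every other class of `W \ Y` is joined to `Y` by a corner outside `K0` (because `W` is connected). The cut between
`A1` and `A2` is not empty because `W` is connected. Compare SCG/DcBond (there for vertices and edges).
-/

set_option autoImplicit false

open Finset
open scoped Classical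

namespace Pool.Agent.FGT

open Pool.Agent.Helper35.OG (Flag GMap across side)
open Pool.Agent.BEO (F2 ed rp cyc ev bdF nb)

variable {V : Type} {G : SimpleGraph V} [Fintype V]

/-- the class of `e` under the steps inside `P` -/
private def clsE {E : Type} (R : E → E → Prop) (P : E → Prop) (e x : E) : Prop :=
  P x ∧ Relation.EqvGen (fun a b => P a ∧ P b ∧ R a b) e x

private theorem clsE_step {E : Type} (R : E → E → Prop) (P : E → Prop) (e a b : E) (ha : clsE R P e a)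
    (hb : P b) (h : R a b) : clsE R P e b :=
  ⟨hb, ha.2.trans _ _ _ (.rel _ _ ⟨ha.1, hb, h⟩)⟩

private theorem clsE_conn {E : Type} (R : E → E → Prop) (P : E → Prop) (e : E) {u v : E}
    (h : Relation.EqvGen (fun a b => P a ∧ P b ∧ R a b) u v) :
    (clsE R P e u ↔ clsE R P e v) ∧
      (clsE R P e u → Relation.EqvGen (fun a b => clsE R P e a ∧ clsE R P e b ∧ R a b) u v) := by
  induction h with
  | rel a b hab =>
    have h1 : clsE R P e a ↔ clsE R P e b :=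
      ⟨fun ha => ⟨hab.2.1, ha.2.trans _ _ _ (.rel _ _ hab)⟩,
        fun hb => ⟨hab.1, hb.2.trans _ _ _ (.symm _ _ (.rel _ _ hab))⟩⟩
    exact ⟨h1, fun ha => .rel _ _ ⟨ha, h1.1 ha, hab.2.2⟩⟩
  | refl a => exact ⟨Iff.rfl, fun _ => .refl _⟩
  | symm a b _ ih => exact ⟨ih.1.symm, fun hb => (ih.2 (ih.1.2 hb)).symm⟩
  | trans a b c _ _ ih1 ih2 =>
    exact ⟨ih1.1.trans ih2.1, fun ha => (ih1.2 ha).trans _ _ _ (ih2.2 (ih1.1.1 ha))⟩

private theorem eqvG_mono {E : Type} {r q : E → E → Prop} (h : ∀ a b, r a b → q a b) {x y : E}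
    (hxy : Relation.EqvGen r x y) : Relation.EqvGen q x y := by
  induction hxy with
  | rel a b hab => exact .rel _ _ (h a b hab)
  | refl a => exact .refl _
  | symm a b _ ih => exact ih.symm
  | trans a b c _ _ ih1 ih2 => exact ih1.trans _ _ _ ih2

private theorem eqvG_iff {E : Type} {r : E → E → Prop} (T : E → Prop) (h : ∀ a b, r a b → (T a ↔ T b)) {x y : E}
    (hxy : Relation.EqvGen r x y) : T x ↔ T y := by
  induction hxy with
  | rel a b hab => exact h a b hab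
  | refl a => exact Iff.rfl
  | symm a b _ ih => exact ih.symm
  | trans a b c _ _ ih1 ih2 => exact ih1.trans ih2

private theorem bondE {E : Type} (R : E → E → Prop) (hs : ∀ a b, R a b → R b a) (W A0 : E → Prop)
    (hW : ∀ x, W x → ∀ y, W y ↔ Relation.EqvGen R x y) (u v : E) (hu : W u) (hv : W v)
    (h0 : A0 u) (h1 : ¬ A0 v) :
    ∃ Z : E → Prop, (∀ x, Z x → W x) ∧ Z v ∧ ¬ Z u ∧
      (∀ x y, (W x ∧ ¬ Z x) → (W y ∧ ¬ Z y) →
        Relation.EqvGen (fun a b => (W a ∧ ¬ Z a) ∧ (W b ∧ ¬ Z b) ∧ R a b) x y) ∧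
      (∀ x y, Z x → Z y → Relation.EqvGen (fun a b => Z a ∧ Z b ∧ R a b) x y) ∧
      ∀ a b, (W a ∧ ¬ Z a) → Z b → R a b → A0 a ∧ ¬ A0 b := by
  obtain ⟨Y, hY⟩ : ∃ Y : E → Prop, Y = clsE R (fun x => W x ∧ A0 x) u := ⟨_, rfl⟩
  have hWs : ∀ a b, W a → R a b → W b := fun a b ha hab => (hW a ha b).2 (.rel _ _ hab)
  have hYu : Y u := by
    rw [hY]
    exact ⟨⟨hu, h0⟩, .refl _⟩
  have hY0 : ∀ x, Y x → W x ∧ A0 x := by
    intro x hx
    rw [hY] at hx
    exact hx.1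
  have hYs : ∀ a b, Y a → W b → A0 b → R a b → Y b := by
    intro a b ha hb hb' hab
    rw [hY] at ha ⊢
    exact clsE_step _ _ _ _ _ ha ⟨hb, hb'⟩ hab
  have hYc : ∀ x, Y x → Relation.EqvGen (fun a b => Y a ∧ Y b ∧ R a b) u x := by
    intro x hx
    rw [hY] at hx hYu ⊢
    exact (clsE_conn _ _ _ hx.2).2 hYu
  clear hY
  have hvY : ¬ Y v := fun h => h1 (hY0 v h).2
  obtain ⟨Z, hZ⟩ : ∃ Z : E → Prop, Z = clsE R (fun x => W x ∧ ¬ Y x) v := ⟨_, rfl⟩
  have hZv : Z v := by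
    rw [hZ]
    exact ⟨⟨hv, hvY⟩, .refl _⟩
  have hZ0 : ∀ x, Z x → W x ∧ ¬ Y x := by
    intro x hx
    rw [hZ] at hx
    exact hx.1
  have hZs : ∀ a b, Z a → W b → ¬ Y b → R a b → Z b := by
    intro a b ha hb hb' hab
    rw [hZ] at ha ⊢
    exact clsE_step _ _ _ _ _ ha ⟨hb, hb'⟩ hab
  have hZc : ∀ x, Z x → Relation.EqvGen (fun a b => Z a ∧ Z b ∧ R a b) v x := by
    intro x hx
    rw [hZ] at hx hZv ⊢
    exact (clsE_conn _ _ _ hx.2).2 hZv
  clear hZ
  -- the complement is connected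
  have hA : ∀ x, (W x ∧ ¬ Z x) → Relation.EqvGen (fun a b => (W a ∧ ¬ Z a) ∧ (W b ∧ ¬ Z b) ∧ R a b) u x := by
    have hYA : ∀ x, Y x → W x ∧ ¬ Z x := fun x hx => ⟨(hY0 x hx).1, fun h => (hZ0 x h).2 hx⟩
    have hYe : ∀ x, Y x → Relation.EqvGen (fun a b => (W a ∧ ¬ Z a) ∧ (W b ∧ ¬ Z b) ∧ R a b) u x := by
      intro x hx
      exact eqvG_mono (fun a b h => ⟨hYA a h.1, hYA b h.2.1, h.2.2⟩) (hYc x hx)
    intro x hx
    by_cases hYx : Y x
    · exact hYe x hYx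
    · obtain ⟨T, hT⟩ : ∃ T : E → Prop, T = clsE R (fun x => W x ∧ ¬ Y x) x := ⟨_, rfl⟩
      have hTx : T x := by
        rw [hT]
        exact ⟨⟨hx.1, hYx⟩, .refl _⟩
      have hT0 : ∀ y, T y → W y ∧ ¬ Y y := by
        intro y hy
        rw [hT] at hy
        exact hy.1
      have hTs : ∀ a b, T a → W b → ¬ Y b → R a b → T b := by
        intro a b ha hb hb' hab
        rw [hT] at ha ⊢
        exact clsE_step _ _ _ _ _ ha ⟨hb, hb'⟩ hab
      have hTc : ∀ y, T y → Relation.EqvGen (fun a b => T a ∧ T b ∧ R a b) x y := by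
        intro y hy
        rw [hT] at hy hTx ⊢
        exact (clsE_conn _ _ _ hy.2).2 hTx
      have hTZ : ∀ y, T y → ¬ Z y := by
        intro y hy hzy
        have h2 : Z y ↔ Z x := by
          refine eqvG_iff Z ?_ (hTc y hy).symm
          intro a b hab
          exact ⟨fun h => hZs a b h (hT0 b hab.2.1).1 (hT0 b hab.2.1).2 hab.2.2,
            fun h => hZs b a h (hT0 a hab.1).1 (hT0 a hab.1).2 (hs _ _ hab.2.2)⟩
        exact hx.2 (h2.1 hzy)
      have hTA : ∀ y, T y → W y ∧ ¬ Z y := fun y hy => ⟨(hT0 y hy).1, hTZ y hy⟩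
      clear hT
      by_cases hex : ∃ t y, T t ∧ Y y ∧ R t y
      · obtain ⟨t, y, ht, hy, hty⟩ := hex
        refine (hYe y hy).trans _ _ _ ?_
        have h3 : Relation.EqvGen (fun a b => (W a ∧ ¬ Z a) ∧ (W b ∧ ¬ Z b) ∧ R a b) t y :=
          .rel _ _ ⟨hTA t ht, hYA y hy, hty⟩
        refine h3.symm.trans _ _ _ ?_
        exact (eqvG_mono (fun a b h => ⟨hTA a h.1, hTA b h.2.1, h.2.2⟩) (hTc t ht)).symm
      · exfalso
        have h4 : ∀ a b, T a → R a b → T b := by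
          intro a b ha hab
          refine hTs a b ha (hWs a b (hT0 a ha).1 hab) ?_ hab
          intro hb
          exact hex ⟨a, b, ha, hb, hab⟩
        have h5 : T x ↔ T u := by
          refine eqvG_iff T (fun a b hab => ⟨fun h => h4 a b h hab, fun h => h4 b a h (hs _ _ hab)⟩) ?_
          exact (hW x hx.1 u).1 hu
        exact (hT0 u (h5.1 hTx)).2 hYu
  refine ⟨Z, fun x hx => (hZ0 x hx).1, hZv, fun h => (hZ0 u h).2 hYu, ?_, ?_, ?_⟩
  · intro x y hx hy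
    exact (hA x hx).symm.trans _ _ _ (hA y hy)
  · intro x y hx hy
    exact (hZc x hx).symm.trans _ _ _ (hZc y hy)
  · intro a b ha hb hab
    have h6 : Y a := by
      by_contra h7
      exact ha.2 (hZs b a hb ha.1 h7 (hs _ _ hab))
    refine ⟨(hY0 a h6).2, fun h8 => ?_⟩
    exact (hZ0 b hb).2 (hYs a b h6 (hZ0 b hb).1 h8 hab)

theorem exists_bond (S : GMap G) (K0 : Finset (Flag G)) (hK : NC S K0) (W : Finset G.edgeSet) (hW : Cm S K0 W)
    (X : Finset (Flag G)) (A0 : Finset G.edgeSet) (hA : dlt S A0 \ K0 = X) (hX : ∃ p ∈ X, ed p ∈ W) :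
    ∃ A1 A2 : Finset G.edgeSet, A1.Nonempty ∧ A2.Nonempty ∧ Disjoint A1 A2 ∧ A1 ∪ A2 = W ∧ CnK S K0 A1 ∧
      CnK S K0 A2 ∧ dlt S A1 \ K0 = dlt S A2 \ K0 ∧ dlt S A1 \ K0 ⊆ X ∧ (dlt S A1 \ K0).Nonempty := by
  subst hA
  have hd : ∀ (A : Finset G.edgeSet) (q : Flag G), q ∈ dlt S A ↔ ¬ (ed q ∈ A ↔ ed (S.nxt q) ∈ A) := by
    intro A q
    unfold dlt
    rw [Finset.mem_filter]
    exact ⟨fun h => h.2, fun h => ⟨Finset.mem_univ _, h⟩⟩
  have hn : ∀ p, p ∉ K0 → S.nxt p ∉ K0 := by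
    intro p hp h
    have h2 := hK _ h
    rw [S.nxt_nxt] at h2
    exact hp h2
  have hs : ∀ a b, hR S K0 a b → hR S K0 b a := by
    rintro a b ⟨p, hp, h1, h2⟩
    exact ⟨S.nxt p, hn p hp, h2, by rw [S.nxt_nxt]; exact h1⟩
  have hWn : ∀ p, p ∉ K0 → (ed p ∈ W ↔ ed (S.nxt p) ∈ W) := by
    intro p hp
    have h1 : hR S K0 (ed p) (ed (S.nxt p)) := ⟨p, hp, rfl, rfl⟩
    exact ⟨fun h => (hW.2 _ h _).2 (.rel _ _ h1), fun h => (hW.2 _ h _).2 (.symm _ _ (.rel _ _ h1))⟩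
  obtain ⟨p, hpX, hpW⟩ := hX
  have hp1 := Finset.mem_sdiff.1 hpX
  have hp2 : ¬ (ed p ∈ A0 ↔ ed (S.nxt p) ∈ A0) := (Finset.mem_filter.1 hp1.1).2
  have hpK : p ∉ K0 := hp1.2
  have key : ∃ u v : G.edgeSet, u ∈ W ∧ v ∈ W ∧ hR S K0 u v ∧ u ∈ A0 ∧ v ∉ A0 := by
    have hstep : hR S K0 (ed p) (ed (S.nxt p)) := ⟨p, hpK, rfl, rfl⟩
    by_cases h1 : ed p ∈ A0
    · refine ⟨ed p, ed (S.nxt p), hpW, (hWn p hpK).1 hpW, hstep, h1, ?_⟩
      intro h2
      exact hp2 ⟨fun _ => h2, fun _ => h1⟩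
    · refine ⟨ed (S.nxt p), ed p, (hWn p hpK).1 hpW, hpW, hs _ _ hstep, ?_, h1⟩
      by_contra h2
      exact hp2 ⟨fun h => absurd h h1, fun h => absurd h h2⟩
  obtain ⟨u, v, hu, hv, huv, h0, h1⟩ := key
  obtain ⟨Z, z1, z2, z3, z4, z5, z6⟩ := bondE (hR S K0) hs (fun e => e ∈ W) (fun e => e ∈ A0) hW.2 u v hu hv h0 h1
  have hm1 : ∀ e, e ∈ W.filter (fun e => ¬ Z e) ↔ e ∈ W ∧ ¬ Z e := fun e => Finset.mem_filter
  have hm2 : ∀ e, e ∈ W.filter (fun e => Z e) ↔ Z e := fun e =>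
    ⟨fun h => (Finset.mem_filter.1 h).2, fun h => Finset.mem_filter.2 ⟨z1 e h, h⟩⟩
  refine ⟨W.filter (fun e => ¬ Z e), W.filter (fun e => Z e), ⟨u, (hm1 u).2 ⟨hu, z3⟩⟩, ⟨v, (hm2 v).2 z2⟩, ?_, ?_, ?_, ?_,
    ?_, ?_, ?_⟩
  · rw [Finset.disjoint_left]
    intro e he he'
    exact ((hm1 e).1 he).2 ((hm2 e).1 he')
  · ext e
    rw [Finset.mem_union, hm1, hm2]
    constructor
    · rintro (h | h)
      · exact h.1
      · exact z1 e h
    · intro h
      by_cases h2 : Z e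
      · exact Or.inr h2
      · exact Or.inl ⟨h, h2⟩
  · intro x hx y hy
    refine eqvG_mono ?_ (z4 x y ((hm1 x).1 hx) ((hm1 y).1 hy))
    intro a b hab
    exact ⟨(hm1 a).2 hab.1, (hm1 b).2 hab.2.1, hab.2.2⟩
  · intro x hx y hy
    refine eqvG_mono ?_ (z5 x y ((hm2 x).1 hx) ((hm2 y).1 hy))
    intro a b hab
    exact ⟨(hm2 a).2 hab.1, (hm2 b).2 hab.2.1, hab.2.2⟩
  · ext q
    rw [Finset.mem_sdiff, Finset.mem_sdiff, hd, hd, hm1, hm1, hm2, hm2]
    constructor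
    · rintro ⟨h3, h4⟩
      have h5 := hWn q h4
      refine ⟨?_, h4⟩
      have z7 := z1 (ed q)
      have z8 := z1 (ed (S.nxt q))
      tauto
    · rintro ⟨h3, h4⟩
      have h5 := hWn q h4
      refine ⟨?_, h4⟩
      have z7 := z1 (ed q)
      have z8 := z1 (ed (S.nxt q))
      tauto
  · intro q hq
    rw [Finset.mem_sdiff] at hq ⊢
    obtain ⟨hq1, hq2⟩ := hq
    refine ⟨?_, hq2⟩
    rw [hd, hm1, hm1] at hq1
    rw [hd]
    have h5 := hWn q hq2
    have hst : hR S K0 (ed q) (ed (S.nxt q)) := ⟨q, hq2, rfl, rfl⟩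
    by_cases h6 : ed q ∈ W
    · have h7 := h5.1 h6
      by_cases h8 : Z (ed q)
      · have h9 : ¬ Z (ed (S.nxt q)) := by
          intro h10
          exact hq1 ⟨fun h => absurd h8 h.2, fun h => absurd h10 h.2⟩
        have h11 := z6 _ _ ⟨h7, h9⟩ h8 (hs _ _ hst)
        intro h12
        exact h11.2 (h12.2 h11.1)
      · have h9 : Z (ed (S.nxt q)) := by
          by_contra h10
          exact hq1 ⟨fun _ => ⟨h7, h10⟩, fun _ => ⟨h6, h8⟩⟩
        have h11 := z6 _ _ ⟨h6, h8⟩ h9 hst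
        intro h12
        exact h11.2 (h12.1 h11.1)
    · exfalso
      have h7 : ed (S.nxt q) ∉ W := fun h => h6 (h5.2 h)
      exact hq1 ⟨fun h => absurd h.1 h6, fun h => absurd h.1 h7⟩
  · obtain ⟨q, hq1, hq2, hq3⟩ := huv
    refine ⟨q, ?_⟩
    rw [Finset.mem_sdiff, hd, hm1, hm1, hq2, hq3]
    refine ⟨?_, hq1⟩
    intro h
    exact (h.1 ⟨hu, z3⟩).2 z2

end Pool.Agent.FGT
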