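import Pool.Agent.FGT.DcR

/-!
# FGT-DcF: a set with short cut without essential cycles is a disc

PLAN. Let `Z` be the space of the `z : A → F2` which are even at every run: for every class `c` of `rV A (part A S)` over `A` the sum over the
flags `p` in `c` over `A` with `p.2 = true` of `z (ed p)` is `0`. The image of the map (`A → F2`) to (classes `→ F2`) lies in the functions
with sum `0` (every edge has two ends), so `dim Z ≥ A.card - (vs S A - 1)`. An element of `Z`, extended by `0`, is in `cyc G`; by `hz` and `span_iff`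
it is given by a function `g`, and by `res_cut` by `g'` which vanishes on the flags outside `A`, so on all faces which are not closed in
`A`: `g'` is given by a function on the closed faces (the classes counted by `clo A (part A S)`), so `dim Z ≤ clo`. Together `chi ≥ 1`. (`A` is not
empty because its cut is short, so not empty, `sht_card`.)
-/

set_option autoImplicit false

open Finset
open scoped Classical

namespace Pool.Agent.FGT

open Pool.Agent.Helper35.OG (Flag GMap across side)
open Pool.Agent.BEO (F2 ed rp cyc ev bdF nb ed_rp ed_side ed_across)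
open Pool.Agent.Helper35.OG (eqvGen_eq sum_inv)

variable {V : Type} {G : SimpleGraph V} [Fintype V]

private theorem lin_countF {K ι κ μ : Type} [Field K] [Fintype ι] [Fintype κ] [Fintype μ] [Nonempty κ]
    (T : (ι → K) →ₗ[K] (κ → K)) (Φ : (μ → K) →ₗ[K] (ι → K)) (hT : ∀ z, ∑ c, T z c = 0)
    (hZ : ∀ z, T z = 0 → ∃ h, Φ h = z) : Fintype.card ι + 1 ≤ Fintype.card κ + Fintype.card μ := by
  obtain ⟨σ, hσ⟩ : ∃ σ : (κ → K) →ₗ[K] K, ∀ f, σ f = ∑ c, f c :=
    ⟨{ toFun := fun f => ∑ c, f c
       map_add' := fun f g => by simp [Finset.sum_add_distrib]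
       map_smul' := fun r f => by simp [Finset.mul_sum] }, fun f => rfl⟩
  have h1 := LinearMap.finrank_range_add_finrank_ker T
  have h2 := LinearMap.finrank_range_add_finrank_ker σ
  have h3 := LinearMap.finrank_range_add_finrank_ker Φ
  rw [Module.finrank_fintype_fun_eq_card] at h1 h2 h3
  have h4 : LinearMap.range σ = ⊤ := by
    rw [LinearMap.range_eq_top]
    intro x
    obtain ⟨c0⟩ := ‹Nonempty κ›
    refine ⟨Pi.single c0 x, ?_⟩
    rw [hσ]
    simp
  have h5 : Module.finrank K (LinearMap.range σ) = 1 := by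
    rw [h4]
    simp
  have h6 : LinearMap.range T ≤ LinearMap.ker σ := by
    rintro _ ⟨z, rfl⟩
    rw [LinearMap.mem_ker, hσ]
    exact hT z
  have h7 : LinearMap.ker T ≤ LinearMap.range Φ := by
    intro z hz
    exact hZ z (LinearMap.mem_ker.1 hz)
  have h8 := Submodule.finrank_mono h6
  have h9 := Submodule.finrank_mono h7
  omega

theorem chi_ge (S : GMap G) (A : Finset G.edgeSet) (hA : Sht S (dlt S A))
    (hz : ∀ z : cyc G, (∀ e, e ∉ A → z.1 e = 0) → z ∈ Submodule.span F2 (Set.range (bdF S))) : 1 ≤ chi S A := by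
  obtain ⟨L, hL⟩ : ∃ L : Flag G → Flag G, L = part A S := ⟨_, rfl⟩
  have hL1 : ∀ p, L p = S.nxt p ∨ L p = p := by
    intro p
    rw [hL]
    unfold part
    by_cases h : ed p ∈ A ∧ ed (S.nxt p) ∈ A
    · rw [if_pos h]
      exact Or.inl rfl
    · rw [if_neg h]
      exact Or.inr rfl
  have hL2 : ∀ p, ed p ∈ A → L p = p → ed (S.nxt p) ∉ A := by
    intro p hp hpp h
    rw [hL] at hpp
    unfold part at hpp
    rw [if_pos ⟨hp, h⟩] at hpp
    exact S.nxt_ne p hpp
  have hfst : ∀ p, (L p).1.fst = p.1.fst := by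
    intro p
    rcases hL1 p with h | h
    · rw [h, S.nxt_fst]
    · rw [h]
  -- a nonempty set
  have hAne : ∃ p : Flag G, ed p ∈ A := by
    obtain ⟨p, hp⟩ := (sht_card S _ hA).2
    unfold dlt at hp
    have h1 := (Finset.mem_filter.1 hp).2
    by_cases h2 : ed p ∈ A
    · exact ⟨p, h2⟩
    · refine ⟨S.nxt p, ?_⟩
      by_contra h3
      exact h1 ⟨fun h => absurd h h2, fun h => absurd h h3⟩
  unfold chi vs clo
  rw [← hL]
  have : Finite (Quot (rV A L)) := Quot.finite _
  have : Finite (Quot (rF A L)) := Quot.finite _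
  let : Fintype (Quot (rV A L)) := Fintype.ofFinite _
  let i1 : Fintype {c : Quot (rV A L) // ∃ p, Quot.mk _ p = c ∧ ed p ∈ A} := Fintype.ofFinite _
  let i2 : Fintype {c : Quot (rF A L) // (∃ p, Quot.mk _ p = c ∧ ed p ∈ A) ∧ ∀ q, Um A L q → Quot.mk _ q ≠ c} :=
    Fintype.ofFinite _
  have i3 : Nonempty {c : Quot (rV A L) // ∃ p, Quot.mk _ p = c ∧ ed p ∈ A} := by
    obtain ⟨p, hp⟩ := hAne
    exact ⟨⟨Quot.mk _ p, p, rfl, hp⟩⟩
  -- the extension by zero
  obtain ⟨ex, hex⟩ : ∃ ex : (A → F2) →ₗ[F2] (G.edgeSet → F2), ∀ z e, ex z e = if h : e ∈ A then z ⟨e, h⟩ else 0 := by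
    refine ⟨{ toFun := fun z e => if h : e ∈ A then z ⟨e, h⟩ else 0
              map_add' := ?_
              map_smul' := ?_ }, fun z e => rfl⟩
    · intro f g
      funext e
      by_cases h : e ∈ A <;> simp [h]
    · intro r f
      funext e
      by_cases h : e ∈ A <;> simp [h]
  have hex0 : ∀ z e, e ∉ A → ex z e = 0 := by
    intro z e h
    rw [hex, dif_neg h]
  obtain ⟨T, hT⟩ : ∃ T : (A → F2) →ₗ[F2] ({c : Quot (rV A L) // ∃ p, Quot.mk _ p = c ∧ ed p ∈ A} → F2),
      ∀ z c, T z c = ∑ d : G.Dart, if Quot.mk (rV A L) (d, true) = c.1 then ex z (ed (d, true)) else 0 := by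
    refine ⟨{ toFun := fun z c => ∑ d : G.Dart, if Quot.mk (rV A L) (d, true) = c.1 then ex z (ed (d, true)) else 0
              map_add' := ?_
              map_smul' := ?_ }, fun z c => rfl⟩
    · intro f g
      funext c
      rw [Pi.add_apply, ← Finset.sum_add_distrib]
      refine Finset.sum_congr rfl fun d _ => ?_
      rw [map_add, Pi.add_apply]
      split_ifs
      · rfl
      · rw [add_zero]
    · intro r f
      funext c
      rw [RingHom.id_apply, Pi.smul_apply, smul_eq_mul, Finset.mul_sum]
      refine Finset.sum_congr rfl fun d _ => ?_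
      rw [map_smul, Pi.smul_apply, smul_eq_mul]
      split_ifs
      · rfl
      · rw [mul_zero]
  obtain ⟨HH, hHH⟩ : ∃ HH : ({c : Quot (rF A L) // (∃ p, Quot.mk _ p = c ∧ ed p ∈ A) ∧
      ∀ q, Um A L q → Quot.mk _ q ≠ c} → F2) →ₗ[F2] (Flag G → F2),
      ∀ h p, HH h p = if hp : (∃ q, Quot.mk _ q = Quot.mk (rF A L) p ∧ ed q ∈ A) ∧
        ∀ q, Um A L q → Quot.mk _ q ≠ Quot.mk (rF A L) p then h ⟨Quot.mk _ p, hp⟩ else 0 := by
    refine ⟨{ toFun := fun h p => if hp : (∃ q, Quot.mk _ q = Quot.mk (rF A L) p ∧ ed q ∈ A) ∧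
                ∀ q, Um A L q → Quot.mk _ q ≠ Quot.mk (rF A L) p then h ⟨Quot.mk _ p, hp⟩ else 0
              map_add' := ?_
              map_smul' := ?_ }, fun z e => rfl⟩
    · intro f g
      funext p
      simp only [Pi.add_apply]
      split_ifs
      · rfl
      · rw [add_zero]
    · intro r f
      funext p
      simp only [Pi.smul_apply, RingHom.id_apply]
      split_ifs
      · rfl
      · rw [smul_zero]
  obtain ⟨Φ, hΦ⟩ : ∃ Φ : ({c : Quot (rF A L) // (∃ p, Quot.mk _ p = c ∧ ed p ∈ A) ∧
      ∀ q, Um A L q → Quot.mk _ q ≠ c} → F2) →ₗ[F2] (A → F2),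
      ∀ h e, Φ h e = HH h (rp e.1) + HH h (side (rp e.1)) := by
    refine ⟨{ toFun := fun h e => HH h (rp e.1) + HH h (side (rp e.1))
              map_add' := ?_
              map_smul' := ?_ }, fun z e => rfl⟩
    · intro f g
      funext e
      rw [map_add]
      simp only [Pi.add_apply]
      ring
    · intro r f
      funext e
      rw [map_smul]
      simp only [Pi.smul_apply, RingHom.id_apply, smul_eq_mul]
      ring
  have key := lin_countF T Φ ?_ ?_
  · rw [Fintype.card_coe] at key
    rw [Nat.card_eq_fintype_card, Nat.card_eq_fintype_card]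
    omega
  · -- the sum over the classes
    intro z
    have h1 : ∀ d : G.Dart, ∑ c : {c : Quot (rV A L) // ∃ p, Quot.mk _ p = c ∧ ed p ∈ A},
        (if Quot.mk (rV A L) (d, true) = c.1 then ex z (ed (d, true)) else 0) = ex z (ed (d, true)) := by
      intro d
      by_cases hd : ed (d, true) ∈ A
      · rw [Finset.sum_eq_single (⟨Quot.mk (rV A L) (d, true), (d, true), rfl, hd⟩ :
          {c : Quot (rV A L) // ∃ p, Quot.mk _ p = c ∧ ed p ∈ A})]
        · rw [if_pos rfl]
        · intro c _ hc
          rw [if_neg]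
          intro h
          exact hc (Subtype.ext h.symm)
        · intro h
          exact absurd (Finset.mem_univ _) h
      · rw [hex0 z _ hd]
        exact Finset.sum_eq_zero fun c _ => by split_ifs <;> rfl
    rw [Finset.sum_congr rfl fun c _ => hT z c, Finset.sum_comm, Finset.sum_congr rfl fun d _ => h1 d]
    refine sum_inv (fun d : G.Dart => d.symm) (fun d => d.symm_symm) (fun d => d.symm_ne) _ ?_
    intro d
    have h2 : ed (d.symm, true) = ed (d, true) := by
      have h3 : ((d.symm, true) : Flag G) = side (across (d, true)) := rfl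
      rw [h3, ed_side, ed_across]
    rw [h2]
  · intro z hz0
    -- the extension is a cycle
    have hcyc : ex z ∈ cyc G := by
      intro v
      have hcl : ∀ x y, Quot.mk (rV A L) x = Quot.mk (rV A L) y → x.1.fst = y.1.fst := by
        intro x y hxy
        refine eqvGen_eq (fun p : Flag G => p.1.fst) ?_ (Quot.eqvGen_exact hxy)
        rintro a b ⟨_, h | h⟩
        · rw [h, hfst]
        · rw [h]
          rfl
      rw [Finset.sum_filter]
      have h1 : ∀ d : G.Dart, (if d.fst = v then ex z (ed (d, true)) else 0) =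
          ∑ c : Quot (rV A L), if Quot.mk (rV A L) (d, true) = c then
            (if d.fst = v then ex z (ed (d, true)) else 0) else 0 := by
        intro d
        rw [Finset.sum_ite_eq, if_pos (Finset.mem_univ _)]
      rw [Finset.sum_congr rfl fun d _ => h1 d, Finset.sum_comm]
      refine Finset.sum_eq_zero fun c _ => ?_
      by_cases hc : ∃ p, Quot.mk (rV A L) p = c ∧ ed p ∈ A
      · by_cases hv : ∃ d : G.Dart, Quot.mk (rV A L) (d, true) = c ∧ d.fst = v
        · obtain ⟨d0, hd0, hv0⟩ := hv
          have h2 : ∀ d : G.Dart, (if Quot.mk (rV A L) (d, true) = c then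
              (if d.fst = v then ex z (ed (d, true)) else 0) else 0) =
              if Quot.mk (rV A L) (d, true) = c then ex z (ed (d, true)) else 0 := by
            intro d
            by_cases h3 : Quot.mk (rV A L) (d, true) = c
            · have h4 : d.fst = v := (hcl _ _ (h3.trans hd0.symm)).trans hv0
              rw [if_pos h3, if_pos h3, if_pos h4]
            · rw [if_neg h3, if_neg h3]
          rw [Finset.sum_congr rfl fun d _ => h2 d]
          have h5 := hT z ⟨c, hc⟩
          rw [hz0, Pi.zero_apply] at h5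
          exact h5.symm
        · refine Finset.sum_eq_zero fun d _ => ?_
          by_cases h3 : Quot.mk (rV A L) (d, true) = c
          · rw [if_pos h3, if_neg]
            intro h4
            exact hv ⟨d, h3, h4⟩
          · rw [if_neg h3]
      · refine Finset.sum_eq_zero fun d _ => ?_
        by_cases h3 : Quot.mk (rV A L) (d, true) = c
        · rw [if_pos h3, hex0 z _ (fun h => hc ⟨_, h3, h⟩)]
          split_ifs <;> rfl
        · rw [if_neg h3]
    have hsp := hz ⟨ex z, hcyc⟩ (fun e he => hex0 z e he)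
    obtain ⟨g, g1, g2, g3⟩ := (span_iff S _).1 hsp
    have hsame : (fun e => if e ∈ A then ex z e else 0) = ex z := by
      funext e
      by_cases h : e ∈ A
      · rw [if_pos h]
      · rw [if_neg h, hex0 z e h]
    obtain ⟨g', k1, k2, k3, k4⟩ := res_cut S A hA (ex z) (by rw [hsame]; exact hcyc) g g1 g2 (fun p _ => g3 p)
    have hconst : ∀ x y, Quot.mk (rF A L) x = Quot.mk (rF A L) y → g' x = g' y := by
      intro x y hxy
      refine eqvGen_eq g' ?_ (Quot.eqvGen_exact hxy)
      rintro a b ⟨_, h | h⟩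
      · rw [h]
        rcases hL1 a with h1 | h1
        · rw [h1, k1]
        · rw [h1]
      · rw [h, k2]
    refine ⟨fun c => g' (Quot.out c.1), ?_⟩
    funext e
    have hH : ∀ p, ed p ∈ A → HH (fun c => g' (Quot.out c.1)) p = g' p := by
      intro p hp
      rw [hHH]
      split_ifs with h
      · refine hconst _ _ ?_
        exact Quot.out_eq _
      · have h1 : ∃ q, Um A L q ∧ Quot.mk (rF A L) q = Quot.mk (rF A L) p := by
          by_contra h2
          exact h ⟨⟨p, rfl, hp⟩, fun q hq hq' => h2 ⟨q, hq, hq'⟩⟩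
        obtain ⟨q, hq, hqp⟩ := h1
        rw [← hconst _ _ hqp, ← k1 q]
        exact (k3 _ (hL2 q hq.1 hq.2)).symm
    have he : ed (rp e.1) = e.1 := ed_rp e.1
    have he1 : ed (rp e.1) ∈ A := by
      rw [he]
      exact e.2
    rw [hΦ, hH _ he1, hH _ (by rw [ed_side]; exact he1), k4 _ he1, he, hex, dif_pos e.2]

end Pool.Agent.FGT
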