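import Pool.Agent.FGT.DcR
import Pool.Agent.BEO.BdDim
import Pool.Agent.BEO.CycDim

/-!
# FGT-DcS: disjoint essential sets are few

PLAN. Choose `z_A` for every `A ∈ Y`. They are linearly independent modulo `span (bdF)`: if `z = ∑ A ∈ Y', z_A` (a nonempty `Y' ⊆ Y`) is in
the span, then `g` from `span_iff`, and for `A ∈ Y'` the restriction of `z` to `A` is `z_A` (the others vanish on `A`, disjointness), which is in `cyc G`:
`res_cut` and `span_iff` give `z_A ∈ span`, a contradiction. So `Y.card ≤ finrank (cyc G) - finrank (span) = S.eg ≤ k`.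
-/

set_option autoImplicit false

open Finset
open scoped Classical

namespace Pool.Agent.FGT

open Pool.Agent.Helper35.OG (Flag GMap across side)
open Pool.Agent.BEO (F2 ed rp cyc ev bdF nb)

variable {V : Type} {G : SimpleGraph V} [Fintype V]

theorem ess_card [Nontrivial V] (hG : G.Connected) (S : GMap G) (k : ℕ) (hk : S.eg ≤ k)
    (Y : Finset (Finset G.edgeSet)) (hd : ∀ A ∈ Y, ∀ B ∈ Y, A ≠ B → Disjoint A B) (he : ∀ A ∈ Y, Ess S A) :
    Y.card ≤ k := by
  set Wsp : Submodule F2 (cyc G) := Submodule.span F2 (Set.range (bdF S)) with hW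
  choose! z hz0 hzs using fun A (hA : A ∈ Y) => (he A hA).2
  have hli : LinearIndependent F2 (fun A : {A // A ∈ Y} => Wsp.mkQ (z A.1)) := by
    rw [linearIndependent_iff']
    intro s g hg A hA
    by_contra hgA
    have hgA1 : g A = 1 := by
      have h2 : ∀ x : F2, x ≠ 0 → x = 1 := by decide
      exact h2 _ hgA
    have hsum : (∑ i ∈ s, g i • z i.1) ∈ Wsp := by
      rw [← Submodule.ker_mkQ Wsp, LinearMap.mem_ker, map_sum]
      simpa only [map_smul] using hg
    obtain ⟨g0, g1, g2, g3⟩ := (span_iff S _).1 hsum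
    have hval : ∀ e, e ∈ A.1 → (∑ i ∈ s, g i • z i.1 : cyc G).1 e = (z A.1).1 e := by
      intro e heA
      have h1 : ((∑ i ∈ s, g i • z i.1 : cyc G) : G.edgeSet → F2) = ∑ i ∈ s, g i • (z i.1).1 := by
        rw [Submodule.coe_sum]
        rfl
      rw [h1, Finset.sum_apply, Finset.sum_eq_single A]
      · rw [Pi.smul_apply, hgA1, one_smul]
      · intro B _ hBA
        have hne : B.1 ≠ A.1 := fun h => hBA (Subtype.ext h)
        have hdis := hd B.1 B.2 A.1 A.2 hne
        have heB : e ∉ B.1 := fun h => Finset.disjoint_left.1 hdis h heA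
        rw [Pi.smul_apply, hz0 B.1 B.2 e heB, smul_zero]
      · intro h
        exact absurd hA h
    have hcy : (fun e => if e ∈ A.1 then (∑ i ∈ s, g i • z i.1 : cyc G).1 e else 0) ∈ cyc G := by
      have h1 : (fun e => if e ∈ A.1 then (∑ i ∈ s, g i • z i.1 : cyc G).1 e else 0) = (z A.1).1 := by
        funext e
        by_cases h : e ∈ A.1
        · rw [if_pos h, hval e h]
        · rw [if_neg h, hz0 A.1 A.2 e h]
      rw [h1]
      exact (z A.1).2
    obtain ⟨g', k1, k2, k3, k4⟩ := res_cut S A.1 (he A.1 A.2).1 _ hcy g0 g1 g2 (fun p _ => g3 p)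
    apply hzs A.1 A.2
    rw [← hW, span_iff]
    refine ⟨g', k1, k2, fun p => ?_⟩
    by_cases h : ed p ∈ A.1
    · rw [k4 p h, hval _ h]
    · have h2 : ed (side p) ∉ A.1 := h
      rw [k3 p h, k3 _ h2, hz0 A.1 A.2 _ h, add_zero]
  have hcard := hli.fintype_card_le_finrank
  rw [Fintype.card_coe] at hcard
  have h1 := Submodule.finrank_quotient_add_finrank Wsp
  have h2 := Pool.Agent.BEO.finrank_cyc hG
  have h3 := Pool.Agent.BEO.finrank_bd hG S
  have h4 : ((Module.finrank F2 (LinearMap.range (Pool.Agent.BEO.frm S)) : ℕ) : ℤ) = S.eg :=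
    Pool.Agent.BEO.frm_rank hG S
  have h5 : S.eg = 2 - (Nat.card V : ℤ) + (Nat.card G.edgeSet : ℤ) - (Nat.card S.Face : ℤ) := by
    simp only [Pool.Agent.Helper35.OG.GMap.eg]
  rw [← hW] at h3
  have h6 : (Y.card : ℤ) ≤ k := by
    have : (Y.card : ℤ) ≤ (Module.finrank F2 (cyc G ⧸ Wsp) : ℤ) := by exact_mod_cast hcard
    omega
  exact_mod_cast h6

end Pool.Agent.FGT
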