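import Pool.Agent.FGT.DcDef
import Pool.Agent.BEO.DLf

/-!
# FGT-SmB: the Euler characteristic of a connected part is at most one

PLAN. Linear algebra over `F2`. The classes of `rV A (part A S)` over `A` are called runs, the classes counted by `clo A (part A S)` closed faces.
`M` = the matrix of the closed faces against the edges of `A` (two sides of every edge), `B` = the matrix of the edges of `A` against the runs (two
ends). `M * B = 0`: an entry is the sum over all flags of the run in the face, which `part A S` pairs without fixed points (closed faces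
contain no open flags). The rows of `M` are independent, the kernel of `B` consists of constant functions.
-/

set_option autoImplicit false

open Finset
open scoped Classical

namespace Pool.Agent.FGT

open Pool.Agent.Helper35.OG (Flag GMap across side)
open Pool.Agent.BEO (F2 ed rp cyc ev bdF nb)

variable {V : Type} {G : SimpleGraph V} [Fintype V]

private theorem smb_flags (f : Flag G → F2) :
    ∑ p, f p = ∑ e : G.edgeSet, ((f (rp e) + f (side (rp e))) +
      (f (across (rp e)) + f (side (across (rp e))))) := by
  have h1 : ∑ p, f p = ∑ d : G.Dart, (f (d, true) + f (d, false)) := by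
    rw [Fintype.sum_prod_type]
    refine Finset.sum_congr rfl fun d _ => ?_
    rw [Fintype.sum_bool]
  rw [h1, Pool.Agent.BEO.sum_edges]
  refine Finset.sum_congr rfl fun e _ => ?_
  obtain ⟨d, b⟩ := rp e
  cases b
  · show (f (d, true) + f (d, false)) + (f (d.symm, true) + f (d.symm, false)) =
      (f (d, false) + f (d, true)) + (f (d.symm, true) + f (d.symm, false))
    ring
  · show (f (d, true) + f (d, false)) + (f (d.symm, true) + f (d.symm, false)) =
      (f (d, true) + f (d, false)) + (f (d.symm, false) + f (d.symm, true))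
    ring

omit [Fintype V] in
private theorem smb_edq (p : Flag G) : rp (ed p) = p ∨ rp (ed p) = side p ∨ rp (ed p) = across p ∨
    rp (ed p) = side (across p) := by
  have h1 : (rp (ed p)).1.edge = p.1.edge := congrArg Subtype.val (Pool.Agent.BEO.ed_rp (ed p))
  have h2 := (SimpleGraph.dart_edge_eq_iff _ _).1 h1
  rcases p with ⟨d, s⟩
  generalize rp (ed (d, s)) = q at h2 ⊢
  rcases q with ⟨d', s'⟩
  simp only at h2
  rcases h2 with rfl | rfl
  · cases s <;> cases s' <;> simp [side, across]
  · cases s <;> cases s' <;> simp [side, across]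

omit [Fintype V] in
/-- a function invariant under `side`, `across` and inner corners over the connected set `A` is constant over `A` -/
private theorem smb_const (S : GMap G) (A : Finset G.edgeSet) (hc : HCn S A) (g : Flag G → F2)
    (h1 : ∀ p, ed p ∈ A → g (side p) = g p) (h2 : ∀ p, ed p ∈ A → g (across p) = g p)
    (h3 : ∀ p, ed p ∈ A → ed (S.nxt p) ∈ A → g (S.nxt p) = g p) (p q : Flag G) (hp : ed p ∈ A) (hq : ed q ∈ A) :
    g p = g q := by
  have h4 : ∀ p : Flag G, ed p ∈ A → g (rp (ed p)) = g p := by
    intro p hp
    have ha : ed (across p) ∈ A := by rw [Pool.Agent.BEO.ed_across]; exact hp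
    rcases smb_edq p with h | h | h | h
    · rw [h]
    · rw [h, h1 p hp]
    · rw [h, h2 p hp]
    · rw [h, h1 _ ha, h2 p hp]
  rw [← h4 p hp, ← h4 q hq]
  have h5 := Pool.Agent.Helper35.OG.eqvGen_eq (fun e : G.edgeSet => if e ∈ A then g (rp e) else 0)
    (fun x y (hxy : x ∈ A ∧ y ∈ A ∧ ∃ p : Flag G, ed p = x ∧ ed (S.nxt p) = y) => by
      obtain ⟨hx, hy, p, rfl, rfl⟩ := hxy
      show (if ed p ∈ A then g (rp (ed p)) else 0) = (if ed (S.nxt p) ∈ A then g (rp (ed (S.nxt p))) else 0)
      rw [if_pos hx, if_pos hy, h4 p hx, h4 _ hy, h3 p hx hy]) (hc (ed p) hp (ed q) hq)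
  have h6 : (if ed p ∈ A then g (rp (ed p)) else 0) = (if ed q ∈ A then g (rp (ed q)) else 0) := h5
  rwa [if_pos hp, if_pos hq] at h6

theorem chi_le [Nontrivial V] (hG : G.Connected) (S : GMap G) (A : Finset G.edgeSet) (hne : A.Nonempty) (hu : A ≠ univ)
    (hc : HCn S A) : chi S A ≤ 1 := by
  -- the two kinds of classes
  set L : Flag G → Flag G := part A S with hL
  let R : Type := {c : Quot (rV A L) // ∃ p, Quot.mk _ p = c ∧ ed p ∈ A}
  let Fc : Type := {c : Quot (rF A L) // (∃ p, Quot.mk _ p = c ∧ ed p ∈ A) ∧ ∀ q, Um A L q → Quot.mk _ q ≠ c}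
  have : Finite (Quot (rV A L)) := Quot.finite _
  have : Finite (Quot (rF A L)) := Quot.finite _
  have : Finite R := Subtype.finite
  have : Finite Fc := Subtype.finite
  let _ : Fintype R := Fintype.ofFinite _
  let _ : Fintype Fc := Fintype.ofFinite _
  have hLn : ∀ p, ed p ∈ A → ed (S.nxt p) ∈ A → L p = S.nxt p := by
    intro p h1 h2
    rw [hL]
    unfold part
    rw [if_pos ⟨h1, h2⟩]
  have hLo : ∀ p, ed p ∈ A → ed (S.nxt p) ∉ A → Um A L p := by
    intro p h1 h2
    refine ⟨h1, ?_⟩
    rw [hL]
    unfold part
    rw [if_neg fun h => h2 h.2]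
  let xF : Fc → Flag G → F2 := fun f p => if Quot.mk _ p = f.1 then 1 else 0
  let xR : R → Flag G → F2 := fun r p => if Quot.mk _ p = r.1 then 1 else 0
  have xF_across : ∀ f p, ed p ∈ A → xF f (across p) = xF f p := by
    intro f p hp
    have h : (Quot.mk (rF A L) p) = Quot.mk _ (across p) := Quot.sound ⟨hp, Or.inr rfl⟩
    show (if Quot.mk _ (across p) = f.1 then (1 : F2) else 0) = if Quot.mk _ p = f.1 then 1 else 0
    rw [h]
  have xF_nxt : ∀ f p, ed p ∈ A → ed (S.nxt p) ∈ A → xF f (S.nxt p) = xF f p := by
    intro f p hp hq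
    have h : (Quot.mk (rF A L) p) = Quot.mk _ (S.nxt p) := Quot.sound ⟨hp, Or.inl (hLn p hp hq).symm⟩
    show (if Quot.mk _ (S.nxt p) = f.1 then (1 : F2) else 0) = if Quot.mk _ p = f.1 then 1 else 0
    rw [h]
  have xF_open : ∀ f p, ed p ∈ A → ed (S.nxt p) ∉ A → xF f p = 0 := by
    intro f p hp hq
    exact if_neg (f.2.2 p (hLo p hp hq))
  have xR_side : ∀ f p, ed p ∈ A → xR f (side p) = xR f p := by
    intro f p hp
    have h : (Quot.mk (rV A L) p) = Quot.mk _ (side p) := Quot.sound ⟨hp, Or.inr rfl⟩
    show (if Quot.mk _ (side p) = f.1 then (1 : F2) else 0) = if Quot.mk _ p = f.1 then 1 else 0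
    rw [h]
  have xR_nxt : ∀ f p, ed p ∈ A → ed (S.nxt p) ∈ A → xR f (S.nxt p) = xR f p := by
    intro f p hp hq
    have h : (Quot.mk (rV A L) p) = Quot.mk _ (S.nxt p) := Quot.sound ⟨hp, Or.inl (hLn p hp hq).symm⟩
    show (if Quot.mk _ (S.nxt p) = f.1 then (1 : F2) else 0) = if Quot.mk _ p = f.1 then 1 else 0
    rw [h]
  -- an open flag
  obtain ⟨q0, hq0, hq0'⟩ : ∃ q : Flag G, ed q ∈ A ∧ ed (S.nxt q) ∉ A := by
    by_contra hno
    have h0 : ∀ q : Flag G, ed q ∈ A → ed (S.nxt q) ∈ A := fun q hq => by
      by_contra h
      exact hno ⟨q, hq, h⟩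
    have h1 := Pool.Agent.Helper35.OG.all_const S hG (fun p : Flag G => (ed p ∈ A : Prop))
      (fun p => propext ⟨fun h => by
        have := h0 (S.nxt p) h
        rwa [S.nxt_nxt] at this, fun h => h0 p h⟩)
      (fun p => by rw [Pool.Agent.BEO.ed_side]) (fun p => by rw [Pool.Agent.BEO.ed_across])
    obtain ⟨e, he⟩ := hne
    apply hu
    rw [Finset.eq_univ_iff_forall]
    intro e'
    have h2 := h1 (rp e) (rp e')
    simp only [Pool.Agent.BEO.ed_rp] at h2
    rw [← h2]
    exact he
  -- the matrices
  let M : Matrix Fc A F2 := fun f e => xF f (rp e.1) + xF f (side (rp e.1))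
  let B : Matrix A R F2 := fun e r => xR r (rp e.1) + xR r (across (rp e.1))
  have hMB : M * B = 0 := by
    ext f r
    rw [Matrix.mul_apply, Matrix.zero_apply]
    have hF : ∀ e : A, M f e * B e r = ((xF f (rp e.1) * xR r (rp e.1) + xF f (side (rp e.1)) * xR r (side (rp e.1))) +
        (xF f (across (rp e.1)) * xR r (across (rp e.1)) +
          xF f (side (across (rp e.1))) * xR r (side (across (rp e.1))))) := by
      intro e
      have he : ed (rp e.1) ∈ A := by rw [Pool.Agent.BEO.ed_rp]; exact e.2
      have he2 : ed (across (rp e.1)) ∈ A := by rw [Pool.Agent.BEO.ed_across]; exact he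
      have he3 : ed (side (rp e.1)) ∈ A := by rw [Pool.Agent.BEO.ed_side]; exact he
      have e1 := xR_side r _ he
      have e2 := xF_across f _ he
      have e3 := xR_side r _ he2
      have e4 : xF f (side (across (rp e.1))) = xF f (side (rp e.1)) := xF_across f (side (rp e.1)) he3
      rw [e1, e2, e3, e4]
      show (xF f (rp e.1) + xF f (side (rp e.1))) * (xR r (rp e.1) + xR r (across (rp e.1))) = _
      ring
    rw [Finset.sum_congr rfl fun e _ => hF e]
    have h1 := Pool.Agent.Helper35.OG.sum_inv S.nxt S.nxt_nxt S.nxt_ne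
      (fun p : Flag G => if ed p ∈ A then xF f p * xR r p else 0) (fun p => by
        show (if ed (S.nxt p) ∈ A then xF f (S.nxt p) * xR r (S.nxt p) else 0) = (if ed p ∈ A then xF f p * xR r p else 0)
        by_cases ha : ed p ∈ A
        · by_cases hb : ed (S.nxt p) ∈ A
          · rw [if_pos ha, if_pos hb, xF_nxt f p ha hb, xR_nxt r p ha hb]
          · rw [if_pos ha, if_neg hb, xF_open f p ha hb, zero_mul]
        · by_cases hb : ed (S.nxt p) ∈ A
          · rw [if_neg ha, if_pos hb, xF_open f (S.nxt p) hb (by rw [S.nxt_nxt]; exact ha), zero_mul]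
          · rw [if_neg ha, if_neg hb])
    rw [smb_flags] at h1
    rw [← h1]
    refine (Finset.sum_coe_sort A (fun e : G.edgeSet => ((xF f (rp e) * xR r (rp e) + xF f (side (rp e)) * xR r (side (rp e))) +
        (xF f (across (rp e)) * xR r (across (rp e)) + xF f (side (across (rp e))) * xR r (side (across (rp e))))))).trans ?_
    refine Eq.trans ?_ (Finset.sum_subset (Finset.subset_univ A) ?_)
    · refine Finset.sum_congr rfl fun e he => ?_
      have he1 : ed (rp e) ∈ A := by rw [Pool.Agent.BEO.ed_rp]; exact he
      have he2 : ed (side (rp e)) ∈ A := he1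
      have he3 : ed (across (rp e)) ∈ A := by rw [Pool.Agent.BEO.ed_across]; exact he1
      have he4 : ed (side (across (rp e))) ∈ A := he3
      rw [if_pos he1, if_pos he2, if_pos he3, if_pos he4]
    · intro e _ he
      have he1 : ed (rp e) ∉ A := by rw [Pool.Agent.BEO.ed_rp]; exact he
      have he2 : ed (side (rp e)) ∉ A := he1
      have he3 : ed (across (rp e)) ∉ A := by rw [Pool.Agent.BEO.ed_across]; exact he1
      have he4 : ed (side (across (rp e))) ∉ A := he3
      rw [if_neg he1, if_neg he2, if_neg he3, if_neg he4]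
      simp
  -- the rows of `M` are independent
  have hMr : Module.finrank F2 (LinearMap.range M.mulVecLin) = Fintype.card Fc := by
    have h1 : M.rank = M.transpose.rank := (Matrix.rank_transpose M).symm
    have h2 : M.transpose.rank = Fintype.card Fc := by
      unfold Matrix.rank
      rw [LinearMap.finrank_range_of_inj, Module.finrank_fintype_fun_eq_card]
      rw [← LinearMap.ker_eq_bot, LinearMap.ker_eq_bot']
      intro c hc0
      let g : Flag G → F2 := fun p => ∑ f, xF f p * c f
      have hg0 : ∀ e ∈ A, g (rp e) = g (side (rp e)) := by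
        intro e he
        have h3 := congrFun hc0 ⟨e, he⟩
        rw [Matrix.mulVecLin_apply, Matrix.mulVec, dotProduct] at h3
        have h4 : ∑ f, (xF f (rp e) + xF f (side (rp e))) * c f = 0 := h3
        simp only [add_mul, Finset.sum_add_distrib] at h4
        exact CharTwo.add_eq_zero.1 h4
      have hga : ∀ p, ed p ∈ A → g (across p) = g p := by
        intro p hp
        exact Finset.sum_congr rfl fun f _ => by rw [xF_across f p hp]
      have hgs : ∀ p, ed p ∈ A → g (side p) = g p := by
        intro p hp
        have h5 := hg0 _ hp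
        have hp2 : ed (side p) ∈ A := by rw [Pool.Agent.BEO.ed_side]; exact hp
        have h6 : g (side (across p)) = g (side p) := hga (side p) hp2
        rcases smb_edq p with h | h | h | h
        · rw [h] at h5
          exact h5.symm
        · rw [h, Pool.Agent.Helper35.OG.side_side] at h5
          exact h5
        · rw [h, h6, hga p hp] at h5
          exact h5.symm
        · rw [h, Pool.Agent.Helper35.OG.side_side, h6, hga p hp] at h5
          exact h5
      have hgn : ∀ p, ed p ∈ A → ed (S.nxt p) ∈ A → g (S.nxt p) = g p := by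
        intro p hp hq
        exact Finset.sum_congr rfl fun f _ => by rw [xF_nxt f p hp hq]
      have hgq : g q0 = 0 := Finset.sum_eq_zero fun f _ => by rw [xF_open f q0 hq0 hq0', zero_mul]
      funext f
      obtain ⟨⟨p, hpf, hp⟩, -⟩ := f.2
      have h7 : g p = 0 := (smb_const S A hc g hgs hga hgn p q0 hp hq0).trans hgq
      have h8 : g p = c f := by
        show ∑ f', xF f' p * c f' = c f
        rw [Finset.sum_eq_single f]
        · show (if Quot.mk _ p = f.1 then (1 : F2) else 0) * c f = c f
          rw [if_pos hpf, one_mul]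
        · intro f' _ hf'
          show (if Quot.mk _ p = f'.1 then (1 : F2) else 0) * c f' = 0
          rw [if_neg fun h => hf' (Subtype.ext (h.symm.trans hpf)), zero_mul]
        · intro h
          exact absurd (Finset.mem_univ f) h
      rw [← h8, h7]
      rfl
    exact h1.trans h2
  -- the kernel of `B`
  have hBk : Module.finrank F2 (LinearMap.ker B.mulVecLin) ≤ 1 := by
    obtain ⟨r0⟩ : Nonempty R := ⟨⟨Quot.mk _ q0, q0, rfl, hq0⟩⟩
    let φ : LinearMap.ker B.mulVecLin →ₗ[F2] F2 := (LinearMap.proj r0).comp (LinearMap.ker B.mulVecLin).subtype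
    have hφ : Function.Injective φ := by
      rw [← LinearMap.ker_eq_bot, LinearMap.ker_eq_bot']
      rintro ⟨h, hh⟩ h0
      have h0' : h r0 = 0 := h0
      rw [LinearMap.mem_ker] at hh
      let g : Flag G → F2 := fun p => ∑ r, xR r p * h r
      have hg0 : ∀ e ∈ A, g (rp e) = g (across (rp e)) := by
        intro e he
        have h3 := congrFun hh ⟨e, he⟩
        rw [Matrix.mulVecLin_apply, Matrix.mulVec, dotProduct] at h3
        have h4 : ∑ r, (xR r (rp e) + xR r (across (rp e))) * h r = 0 := h3
        simp only [add_mul, Finset.sum_add_distrib] at h4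
        exact CharTwo.add_eq_zero.1 h4
      have hgs : ∀ p, ed p ∈ A → g (side p) = g p := by
        intro p hp
        exact Finset.sum_congr rfl fun f _ => by rw [xR_side f p hp]
      have hga : ∀ p, ed p ∈ A → g (across p) = g p := by
        intro p hp
        have h5 := hg0 _ hp
        have hp2 : ed (across p) ∈ A := by rw [Pool.Agent.BEO.ed_across]; exact hp
        have h6 : g (side (across p)) = g (across p) := hgs (across p) hp2
        rcases smb_edq p with h | h | h | h
        · rw [h] at h5
          exact h5.symm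
        · have h7 : across (side p) = side (across p) := rfl
          rw [h, h7, hgs p hp, h6] at h5
          exact h5.symm
        · rw [h, Pool.Agent.Helper35.OG.across_across] at h5
          exact h5
        · have h7 : across (side (across p)) = side (across (across p)) := rfl
          rw [h, h7, Pool.Agent.Helper35.OG.across_across, h6, hgs p hp] at h5
          exact h5
      have hgn : ∀ p, ed p ∈ A → ed (S.nxt p) ∈ A → g (S.nxt p) = g p := by
        intro p hp hq
        exact Finset.sum_congr rfl fun f _ => by rw [xR_nxt f p hp hq]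
      have h8 : ∀ r : R, ∀ p, Quot.mk _ p = r.1 → g p = h r := by
        intro r p hpr
        show ∑ r', xR r' p * h r' = h r
        rw [Finset.sum_eq_single r]
        · show (if Quot.mk _ p = r.1 then (1 : F2) else 0) * h r = h r
          rw [if_pos hpr, one_mul]
        · intro f' _ hf'
          show (if Quot.mk _ p = f'.1 then (1 : F2) else 0) * h f' = 0
          rw [if_neg fun h => hf' (Subtype.ext (h.symm.trans hpr)), zero_mul]
        · intro h
          exact absurd (Finset.mem_univ r) h
      apply Subtype.ext
      funext r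
      show h r = 0
      obtain ⟨p, hpr, hp⟩ := r.2
      obtain ⟨p', hpr', hp'⟩ := r0.2
      rw [← h8 r p hpr, smb_const S A hc g hgs hga hgn p p' hp hp', h8 r0 p' hpr', h0']
    refine (LinearMap.finrank_le_finrank_of_injective hφ).trans ?_
    rw [Module.finrank_self]
  -- counting
  have h1 := LinearMap.finrank_range_add_finrank_ker B.mulVecLin
  have h2 := LinearMap.finrank_range_add_finrank_ker M.mulVecLin
  rw [Module.finrank_fintype_fun_eq_card] at h1 h2
  have h3 : LinearMap.range B.mulVecLin ≤ LinearMap.ker M.mulVecLin := by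
    rw [LinearMap.range_le_ker_iff, ← Matrix.mulVecLin_mul, hMB]
    ext
    simp
  have h4 := Submodule.finrank_mono h3
  have h5 : Fintype.card A = A.card := Fintype.card_coe A
  have h6 : vs S A = Fintype.card R := by
    show Nat.card R = _
    rw [Nat.card_eq_fintype_card]
  have h7 : clo A L = Fintype.card Fc := by
    show Nat.card Fc = _
    rw [Nat.card_eq_fintype_card]
  unfold chi
  rw [h6, ← hL, h7]
  omega

end Pool.Agent.FGT
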