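import Pool.Agent.FGT.DcF
import Pool.Agent.FGT.SmB
import Pool.Agent.FGT.DcE
import Pool.Agent.FGT.DcS

/-!
# FGT-DcG: splitting a bad region; the size of the boundary of a region

PLAN. `kr_card`: the members of `X` with a flag of `K0` over them are at most `K0.card` (they are disjoint), the others at most `k` (`ess_card`);
`KR = K0 ∪ ⋃ (dlt S A \ K0)`. `reg_split`: `hb` gives a short `Y` over `rv W X`, disjoint from `K0`, which is not the cut of a trivial set;
`hS` gives `A0`, `exists_bond` gives `A1`, `A2` with `Z = dlt S A1 \ K0 ⊆ Y`. Put `X1 = insert A2 (X.filter (· ⊆ A1))`, `X2 = insert A1 (X.filter (· ⊆ A2))`.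
A member `A` of `X` is in `A1` or in `A2`: it is connected by corners outside `K0`, and the corners between `A1` and `A2` outside `K0` are over
`rv W X`. `tm`: if no flag of `K0` is over `A2` then `dlt S A2 ∩ K0 = ∅` (`NC`), so `dlt S A2 = Y` (`cut_sub`), short; if all cycles in `A2` are sums
of faces then `chi S A2 = 1` (`chi_ge`, `chi_le`; `A2 ≠ univ`), `(mix A2 S).card ≤ 4` (`dlt_card`, `sht_card`), so `A2` is trivial by `hr`, a contradiction to the
choice of `Y`; so `Ess S A2`. The same for `A1`. `rv W X1 = rv W X ∩ A1`, not empty because a flag of `Z` is over it. The last statements: a flag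
`p` over `rv W X1 ⊆ A1` in `dlt S A`, `A ⊆ A2`, has `ed (S.nxt p) ∈ A ⊆ A2`, so `p ∈ dlt S A2`; if `p ∈ dlt S A1` is not in `K0` then `ed (S.nxt p) ∈ W` is in `A2`.
-/

set_option autoImplicit false

open Finset
open scoped Classical

namespace Pool.Agent.FGT

open Pool.Agent.Helper35.OG (Flag GMap across side)
open Pool.Agent.BEO (F2 ed rp cyc ev bdF nb)

variable {V : Type} {G : SimpleGraph V} [Fintype V]

private theorem mem_dltG (S : GMap G) (A : Finset G.edgeSet) (p : Flag G) :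
    p ∈ dlt S A ↔ ¬ (ed p ∈ A ↔ ed (S.nxt p) ∈ A) := by
  unfold dlt
  rw [mem_filter]
  exact ⟨fun h => h.2, fun h => ⟨mem_univ _, h⟩⟩

private theorem mem_rvG (W : Finset G.edgeSet) (X : Finset (Finset G.edgeSet)) (e : G.edgeSet) :
    e ∈ rv W X ↔ e ∈ W ∧ ∀ A ∈ X, e ∉ A := by
  unfold rv
  rw [mem_filter]

private theorem mem_KRG (S : GMap G) (K0 : Finset (Flag G)) (X : Finset (Finset G.edgeSet)) (p : Flag G) :
    p ∈ KR S K0 X ↔ p ∈ K0 ∨ ∃ A ∈ X, p ∈ dlt S A := by
  unfold KR
  rw [mem_union, mem_biUnion]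

theorem kr_card [Nontrivial V] (hG : G.Connected) (S : GMap G) (k : ℕ) (hk : S.eg ≤ k) (K0 : Finset (Flag G))
    (hK : NC S K0) (hc : K0.card ≤ 8 * k) (W : Finset G.edgeSet) (X : Finset (Finset G.edgeSet)) (h : Rg S K0 W X) :
    NC S (KR S K0 X) ∧ (KR S K0 X).card ≤ 80 * k := by
  refine ⟨?_, ?_⟩
  · intro p hp
    rw [mem_KRG] at hp ⊢
    rcases hp with hp | ⟨A, hA, hp⟩
    · exact Or.inl (hK p hp)
    · exact Or.inr ⟨A, hA, dlt_nc S A p hp⟩
  · have h1 : (X.filter fun A => ∃ p ∈ K0, ed p ∈ A).card ≤ K0.card := by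
      have hch : ∀ A : Finset G.edgeSet, ∃ p : Flag G, (∃ p ∈ K0, ed p ∈ A) → p ∈ K0 ∧ ed p ∈ A := by
        intro A
        by_cases hA : ∃ p ∈ K0, ed p ∈ A
        · obtain ⟨p, hp⟩ := hA
          exact ⟨p, fun _ => hp⟩
        · by_cases hF : Nonempty (Flag G)
          · obtain ⟨p⟩ := hF
            exact ⟨p, fun h => absurd h hA⟩
          · exfalso
            obtain ⟨e, -⟩ := h.comp.1
            exact hF ⟨rp e⟩
      choose f hf using hch
      refine card_le_card_of_injOn f ?_ ?_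
      · intro A hA
        have hA2 := (mem_filter.1 (mem_coe.1 hA)).2
        exact mem_coe.2 (hf A hA2).1
      · intro A hA B hB hAB
        have hA2 := mem_filter.1 (mem_coe.1 hA)
        have hB2 := mem_filter.1 (mem_coe.1 hB)
        by_contra hne
        have h3 := (hf A hA2.2).2
        have h4 := (hf B hB2.2).2
        rw [hAB] at h3
        exact (Finset.disjoint_left.1 (h.dj A hA2.1 B hB2.1 hne)) h3 h4
    have h2 : (X.filter fun A => ¬ ∃ p ∈ K0, ed p ∈ A).card ≤ k := by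
      refine ess_card hG S k hk _ ?_ ?_
      · intro A hA B hB hne
        exact h.dj A (mem_filter.1 hA).1 B (mem_filter.1 hB).1 hne
      · intro A hA
        rcases h.tm A (mem_filter.1 hA).1 with h3 | h3
        · exact absurd h3 (mem_filter.1 hA).2
        · exact h3
    have h3 : X.card ≤ 9 * k := by
      rw [← card_filter_add_card_filter_not (s := X) (fun A => ∃ p ∈ K0, ed p ∈ A)]
      omega
    have h4 : KR S K0 X ⊆ K0 ∪ X.biUnion fun A => dlt S A \ K0 := by
      intro p hp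
      rw [mem_KRG] at hp
      by_cases hpK : p ∈ K0
      · exact mem_union_left _ hpK
      · rcases hp with hp | ⟨A, hA, hp⟩
        · exact absurd hp hpK
        · exact mem_union_right _ (mem_biUnion.2 ⟨A, hA, mem_sdiff.2 ⟨hp, hpK⟩⟩)
    have h5 : (X.biUnion fun A => dlt S A \ K0).card ≤ X.card * 8 := card_biUnion_le_card_mul _ _ _ h.bd
    have h6 := (card_le_card h4).trans (card_union_le _ _)
    omega

private theorem one_sideG [Nontrivial V] (hG : G.Connected) (S : GMap G) (hr : Reduced S) (K0 : Finset (Flag G))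
    (hK : NC S K0) (W : Finset G.edgeSet) (X : Finset (Finset G.edgeSet)) (h : Rg S K0 W X) (Y : Finset (Flag G))
    (hY : Sht S Y) (hYr : ∀ p ∈ Y, ed p ∈ rv W X) (hYt : ¬ ∃ A, Trv S A ∧ dlt S A = Y) (A1 A2 : Finset G.edgeSet)
    (hn1 : A1.Nonempty) (hn2 : A2.Nonempty) (hd : Disjoint A1 A2) (hu : A1 ∪ A2 = W) (hc2 : CnK S K0 A2)
    (he : dlt S A1 \ K0 = dlt S A2 \ K0) (hs : dlt S A1 \ K0 ⊆ Y) (hz : (dlt S A1 \ K0).Nonempty)
    (hsp : ∀ A ∈ X, A ⊆ A1 ∨ A ⊆ A2) :
    Rg S K0 W (insert A2 (X.filter fun A => A ⊆ A1)) ∧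
      (∀ e, e ∈ rv W (insert A2 (X.filter fun A => A ⊆ A1)) ↔ e ∈ rv W X ∧ e ∈ A1) ∧
      (rv W (insert A2 (X.filter fun A => A ⊆ A1))).Nonempty ∧
      (∀ p, ed p ∈ rv W (insert A2 (X.filter fun A => A ⊆ A1)) →
        p ∈ KR S K0 X ∪ (KR S K0 (insert A2 (X.filter fun A => A ⊆ A1)) ∪
          KR S K0 (insert A1 (X.filter fun A => A ⊆ A2))) → p ∈ KR S K0 (insert A2 (X.filter fun A => A ⊆ A1))) := by
  have hW1 : ∀ e ∈ A1, e ∈ W := fun e he1 => by rw [← hu]; exact mem_union_left _ he1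
  have hW2 : ∀ e ∈ A2, e ∈ W := fun e he1 => by rw [← hu]; exact mem_union_right _ he1
  have hrv : ∀ e, e ∈ rv W (insert A2 (X.filter fun A => A ⊆ A1)) ↔ e ∈ rv W X ∧ e ∈ A1 := by
    intro e
    rw [mem_rvG, mem_rvG]
    constructor
    · rintro ⟨h1, h2⟩
      have h3 : e ∉ A2 := h2 A2 (mem_insert_self _ _)
      refine ⟨⟨h1, fun A hA heA => ?_⟩, ?_⟩
      · rcases hsp A hA with h4 | h4
        · exact h2 A (mem_insert_of_mem (mem_filter.2 ⟨hA, h4⟩)) heA
        · exact h3 (h4 heA)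
      · rw [← hu, mem_union] at h1
        rcases h1 with h4 | h4
        · exact h4
        · exact absurd h4 h3
    · rintro ⟨⟨h1, h2⟩, h3⟩
      refine ⟨h1, fun A hA => ?_⟩
      rcases mem_insert.1 hA with h4 | h4
      · rw [h4]
        exact Finset.disjoint_left.1 hd h3
      · exact h2 A (mem_filter.1 h4).1
  refine ⟨?_, hrv, ?_, ?_⟩
  · refine ⟨h.comp, ?_, ?_, ?_, ?_, ?_, ?_⟩
    · intro A hA
      rcases mem_insert.1 hA with h4 | h4
      · rw [h4]
        exact hW2
      · exact h.sub A (mem_filter.1 h4).1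
    · intro A hA
      rcases mem_insert.1 hA with h4 | h4
      · rw [h4]
        exact hn2
      · exact h.ne A (mem_filter.1 h4).1
    · intro A hA B hB hne
      rcases mem_insert.1 hA with h4 | h4 <;> rcases mem_insert.1 hB with h5 | h5
      · exact absurd (h4.trans h5.symm) hne
      · rw [h4]
        exact (Finset.disjoint_of_subset_left (mem_filter.1 h5).2 hd).symm
      · rw [h5]
        exact Finset.disjoint_of_subset_left (mem_filter.1 h4).2 hd
      · exact h.dj A (mem_filter.1 h4).1 B (mem_filter.1 h5).1 hne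
    · intro A hA
      rcases mem_insert.1 hA with h4 | h4
      · rw [h4]
        exact hc2
      · exact h.cn A (mem_filter.1 h4).1
    · intro A hA
      rcases mem_insert.1 hA with h4 | h4
      · rw [h4, ← he]
        exact (card_le_card hs).trans (sht_card S Y hY).1
      · exact h.bd A (mem_filter.1 h4).1
    · intro A hA
      rcases mem_insert.1 hA with h4 | h4
      · rw [h4]
        by_cases hK2 : ∃ p ∈ K0, ed p ∈ A2
        · exact Or.inl hK2
        · right
          have hdK : dlt S A2 \ K0 = dlt S A2 := by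
            rw [Finset.sdiff_eq_self_iff_disjoint, Finset.disjoint_left]
            intro p hp hpK
            rw [mem_dltG] at hp
            apply hp
            constructor
            · intro h5
              exact absurd ⟨p, hpK, h5⟩ hK2
            · intro h5
              exact absurd ⟨S.nxt p, hK p hpK, h5⟩ hK2
          have hdY : dlt S A2 = Y := by
            refine cut_sub S A2 Y hY ?_ ?_
            · rw [← hdK, ← he]
              exact hs
            · rw [← hdK, ← he]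
              exact hz
          have hsh : Sht S (dlt S A2) := by
            rw [hdY]
            exact hY
          by_contra hE
          have hcyc : ∀ z : cyc G, (∀ e, e ∉ A2 → z.1 e = 0) →
              z ∈ Submodule.span F2 (Set.range (bdF S)) := by
            intro z hz1
            by_contra hz2
            exact hE ⟨hsh, z, hz1, hz2⟩
          have h6 := chi_ge S A2 hsh hcyc
          have hne2 : A2 ≠ univ := by
            intro h7
            obtain ⟨e, he1⟩ := hn1
            exact Finset.disjoint_left.1 hd he1 (by rw [h7]; exact mem_univ e)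
          have hH : HCn S A2 := by
            intro e he1 e' he2
            refine Relation.EqvGen.mono ?_ e e' (hc2 e he1 e' he2)
            rintro x y ⟨hx, hy, p, -, hp1, hp2⟩
            exact ⟨hx, hy, p, hp1, hp2⟩
          have h7 := chi_le hG S A2 hn2 hne2 hH
          have h8 : (mix A2 S).card ≤ 4 := by
            have h9 := dlt_card S A2
            have h10 := (sht_card S (dlt S A2) hsh).1
            omega
          exact hYt ⟨A2, hr A2 hn2 hne2 hH (le_antisymm h7 h6) h8, hdY⟩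
      · exact h.tm A (mem_filter.1 h4).1
  · obtain ⟨p, hp⟩ := hz
    have hpY := hs hp
    have hpd := (mem_dltG S A1 p).1 (mem_sdiff.1 hp).1
    by_cases hp1 : ed p ∈ A1
    · exact ⟨ed p, (hrv _).2 ⟨hYr p hpY, hp1⟩⟩
    · have hp2 : ed (S.nxt p) ∈ A1 := by
        by_contra h5
        exact hpd ⟨fun h6 => absurd h6 hp1, fun h6 => absurd h6 h5⟩
      exact ⟨ed (S.nxt p), (hrv _).2 ⟨hYr _ (sht_nc S Y hY p hpY), hp2⟩⟩
  · intro p hp hpK
    have hp1 : ed p ∈ A1 := ((hrv _).1 hp).2
    have hp2 : ed p ∉ A2 := Finset.disjoint_left.1 hd hp1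
    by_cases hK1 : p ∈ K0
    · exact (mem_KRG _ _ _ _).2 (Or.inl hK1)
    have hin2 : ∀ A, A ⊆ A2 → p ∈ dlt S A → p ∈ KR S K0 (insert A2 (X.filter fun A => A ⊆ A1)) := by
      intro A hA hpA
      refine (mem_KRG _ _ _ _).2 (Or.inr ⟨A2, mem_insert_self _ _, (mem_dltG _ _ _).2 ?_⟩)
      rw [mem_dltG] at hpA
      intro h5
      apply hpA
      constructor
      · intro h6
        exact absurd (hA h6) hp2
      · intro h6
        exact absurd (h5.2 (hA h6)) hp2
    rcases mem_union.1 hpK with h5 | h5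
    · rcases (mem_KRG _ _ _ _).1 h5 with h6 | ⟨A, hA, hpA⟩
      · exact absurd h6 hK1
      · rcases hsp A hA with h7 | h7
        · exact (mem_KRG _ _ _ _).2 (Or.inr ⟨A, mem_insert_of_mem (mem_filter.2 ⟨hA, h7⟩), hpA⟩)
        · exact hin2 A h7 hpA
    · rcases mem_union.1 h5 with h6 | h6
      · exact h6
      · rcases (mem_KRG _ _ _ _).1 h6 with h7 | ⟨A, hA, hpA⟩
        · exact absurd h7 hK1
        · rcases mem_insert.1 hA with h8 | h8
          · rw [h8] at hpA
            have h9 : p ∈ dlt S A2 \ K0 := by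
              rw [← he]
              exact mem_sdiff.2 ⟨hpA, hK1⟩
            exact (mem_KRG _ _ _ _).2 (Or.inr ⟨A2, mem_insert_self _ _, (mem_sdiff.1 h9).1⟩)
          · exact hin2 A (mem_filter.1 h8).2 hpA

theorem reg_split [Nontrivial V] (hG : G.Connected) (S : GMap G) (hr : Reduced S) (K0 : Finset (Flag G))
    (hK : NC S K0) (hS : Spn S K0) (W : Finset G.edgeSet) (X : Finset (Finset G.edgeSet)) (h : Rg S K0 W X)
    (hb : ¬ Good S (rv W X) K0) :
    ∃ X1 X2 : Finset (Finset G.edgeSet), Rg S K0 W X1 ∧ Rg S K0 W X2 ∧ Disjoint (rv W X1) (rv W X2) ∧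
      rv W X1 ∪ rv W X2 = rv W X ∧ (rv W X1).Nonempty ∧ (rv W X2).Nonempty ∧
      (∀ p, ed p ∈ rv W X1 → p ∈ KR S K0 X ∪ (KR S K0 X1 ∪ KR S K0 X2) → p ∈ KR S K0 X1) ∧
      (∀ p, ed p ∈ rv W X2 → p ∈ KR S K0 X ∪ (KR S K0 X1 ∪ KR S K0 X2) → p ∈ KR S K0 X2) := by
  have hb2 : ∃ Y, Sht S Y ∧ Disjoint Y K0 ∧ (∀ p ∈ Y, ed p ∈ rv W X) ∧ ¬ ∃ A, Trv S A ∧ dlt S A = Y := by
    by_contra h1
    apply hb
    intro Y hY1 hY2 hY3
    by_contra hY4
    exact h1 ⟨Y, hY1, hY2, hY3, hY4⟩
  obtain ⟨Y, hY, hYK, hYr, hYt⟩ := hb2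
  obtain ⟨A0, hA0⟩ := hS Y hY hYK
  have hYW : ∃ p ∈ Y, ed p ∈ W := by
    obtain ⟨p, hp⟩ := (sht_card S Y hY).2
    exact ⟨p, hp, ((mem_rvG _ _ _).1 (hYr p hp)).1⟩
  obtain ⟨A1, A2, hn1, hn2, hd, hu, hc1, hc2, he, hs, hz⟩ := exists_bond S K0 hK W h.comp Y A0 hA0 hYW
  have hsp : ∀ A ∈ X, A ⊆ A1 ∨ A ⊆ A2 := by
    intro A hA
    have hst : ∀ x y, (x ∈ A ∧ y ∈ A ∧ hR S K0 x y) → (x ∈ A1 ↔ y ∈ A1) := by
      rintro x y ⟨hx, hy, p, hpK, rfl, rfl⟩
      by_contra h1
      have h2 : p ∈ dlt S A1 \ K0 := mem_sdiff.2 ⟨(mem_dltG _ _ _).2 h1, hpK⟩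
      exact ((mem_rvG _ _ _).1 (hYr p (hs h2))).2 A hA hx
    have hst2 : ∀ x y, Relation.EqvGen (fun a b => a ∈ A ∧ b ∈ A ∧ hR S K0 a b) x y → (x ∈ A1 ↔ y ∈ A1) := by
      intro x y hxy
      induction hxy with
      | rel x y h => exact hst x y h
      | refl x => exact Iff.rfl
      | symm x y _ ih => exact ih.symm
      | trans x y z _ _ ih1 ih2 => exact ih1.trans ih2
    by_cases h1 : A ⊆ A1
    · exact Or.inl h1
    · right
      obtain ⟨x, hx, hx1⟩ := Finset.not_subset.1 h1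
      intro y hy
      have h2 : y ∉ A1 := fun h3 => hx1 ((hst2 x y (h.cn A hA x hx y hy)).2 h3)
      have h3 : y ∈ A1 ∪ A2 := by
        rw [hu]
        exact h.sub A hA hy
      rcases mem_union.1 h3 with h4 | h4
      · exact absurd h4 h2
      · exact h4
  obtain ⟨a1, a2, a3, a4⟩ := one_sideG hG S hr K0 hK W X h Y hY hYr hYt A1 A2 hn1 hn2 hd hu hc2 he hs hz hsp
  obtain ⟨b1, b2, b3, b4⟩ := one_sideG hG S hr K0 hK W X h Y hY hYr hYt A2 A1 hn2 hn1 hd.symm
    (by rw [union_comm]; exact hu) hc1 he.symm (by rw [← he]; exact hs) (by rw [← he]; exact hz)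
    (fun A hA => (hsp A hA).symm)
  refine ⟨_, _, a1, b1, ?_, ?_, a3, b3, a4, ?_⟩
  · rw [Finset.disjoint_left]
    intro e h1 h2
    exact Finset.disjoint_left.1 hd ((a2 e).1 h1).2 ((b2 e).1 h2).2
  · ext e
    rw [mem_union, a2, b2]
    constructor
    · rintro (h1 | h1)
      · exact h1.1
      · exact h1.1
    · intro h1
      have h3 : e ∈ A1 ∪ A2 := by
        rw [hu]
        exact ((mem_rvG _ _ _).1 h1).1
      rcases mem_union.1 h3 with h4 | h4
      · exact Or.inl ⟨h1, h4⟩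
      · exact Or.inr ⟨h1, h4⟩
  · intro p hp1 hp2
    refine b4 p hp1 ?_
    rw [union_comm (KR S K0 (insert A1 (X.filter fun A => A ⊆ A2)))]
    exact hp2

end Pool.Agent.FGT
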