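import Pool.Agent.FGT.DcDef
import Pool.Agent.FGT.DcA

/-!
# FGT-DcR: restricting a sum of faces to a set with a short cut
-/

set_option autoImplicit false

open Finset
open scoped Classical

namespace Pool.Agent.FGT

open Pool.Agent.Helper35.OG (Flag GMap across side)
open Pool.Agent.BEO (F2 ed rp cyc ev bdF nb)

variable {V : Type} {G : SimpleGraph V} [Fintype V]

omit [Fintype V] in
private theorem dr_lift (S : GMap G) {A : Type} (g : Flag G → A) (g1 : ∀ p, g (S.nxt p) = g p)
    (g2 : ∀ p, g (across p) = g p) : ∃ h : S.Face → A, ∀ p, h (S.face p) = g p :=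
  ⟨Quot.lift g (by
    rintro x y (h | h)
    · rw [h, g1]
    · rw [h, g2]), fun p => rfl⟩

omit [Fintype V] in
private theorem dr_face (S : GMap G) {A : Type} (g : Flag G → A) (g1 : ∀ p, g (S.nxt p) = g p)
    (g2 : ∀ p, g (across p) = g p) {p q : Flag G} (h : S.face p = S.face q) : g p = g q := by
  obtain ⟨k, hk⟩ := dr_lift S g g1 g2
  rw [← hk, ← hk, h]

private theorem dr_f2 (a : F2) : a + a = 0 := by
  revert a
  decide

private theorem dr_eq {a b : F2} (h : a + b = 0) : a = b := by
  revert a b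
  decide

/-- the flag over `A` at a corner of the cut -/
private theorem dr_fl (S : GMap G) (A : Finset G.edgeSet) {p : Flag G} (hp : p ∈ dlt S A) :
    ∃ p0, p0.1.fst = p.1.fst ∧ S.face p0 = S.face p ∧ ed p0 ∈ A ∧ ed (S.nxt p0) ∉ A ∧
      ∀ x ∈ cr S p, ed x ∈ A → x = p0 := by
  unfold dlt at hp
  rw [Finset.mem_filter] at hp
  have hp2 := hp.2
  by_cases h : ed p ∈ A
  · have h2 : ed (S.nxt p) ∉ A := fun h2 => hp2 ⟨fun _ => h2, fun _ => h⟩
    refine ⟨p, rfl, rfl, h, h2, fun x hx hxA => ?_⟩
    unfold cr at hx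
    rcases Finset.mem_insert.1 hx with rfl | hx
    · rfl
    · rw [Finset.mem_singleton.1 hx] at hxA
      exact absurd hxA h2
  · have h2 : ed (S.nxt p) ∈ A := by
      by_contra h2
      exact hp2 ⟨fun h3 => absurd h3 h, fun h3 => absurd h3 h2⟩
    refine ⟨S.nxt p, S.nxt_fst p, Pool.Agent.Helper35.OG.face_nxt S p, h2, by rw [S.nxt_nxt]; exact h,
      fun x hx hxA => ?_⟩
    unfold cr at hx
    rcases Finset.mem_insert.1 hx with rfl | hx
    · exact absurd hxA h
    · exact Finset.mem_singleton.1 hx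

/-- the sum of `g` over the flags over `A` at a vertex -/
private theorem dr_sum (S : GMap G) (A : Finset G.edgeSet) (z : G.edgeSet → F2)
    (hz : (fun e => if e ∈ A then z e else 0) ∈ cyc G) (g : Flag G → F2) (g1 : ∀ p, g (S.nxt p) = g p)
    (g3 : ∀ p, ed p ∈ A → g p + g (side p) = z (ed p)) (v : V) :
    ∑ x : Flag G, (if x.1.fst = v ∧ ed x ∈ A ∧ ed (S.nxt x) ∉ A then g x else 0) = 0 := by
  have h1 : ∑ x : Flag G, (if x.1.fst = v ∧ ed x ∈ A then g x else 0) = 0 := by
    refine Eq.trans ?_ (hz v)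
    rw [Fintype.sum_prod_type, Finset.sum_filter]
    refine Finset.sum_congr rfl fun d _ => ?_
    rw [Fintype.sum_bool]
    have e1 : ed ((d, false) : Flag G) = ed (d, true) := rfl
    by_cases h2 : d.fst = v
    · by_cases h3 : ed ((d, true) : Flag G) ∈ A
      · have h4 := g3 (d, true) h3
        have h5 : side ((d, true) : Flag G) = (d, false) := rfl
        rw [h5] at h4
        simp only [h2, true_and, e1, h3, if_true]
        exact h4
      · simp only [h2, true_and, e1, h3, if_false, if_true, add_zero]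
    · simp only [h2, false_and, if_false, add_zero]
  have h2 : ∑ x : Flag G, (if x.1.fst = v ∧ ed x ∈ A ∧ ed (S.nxt x) ∈ A then g x else 0) = 0 := by
    refine Pool.Agent.Helper35.OG.sum_inv (fun p : Flag G => S.nxt p) S.nxt_nxt S.nxt_ne _ fun p => ?_
    rw [S.nxt_fst, S.nxt_nxt, g1]
    exact if_congr (by tauto) rfl rfl
  have h3 : ∑ x : Flag G, (if x.1.fst = v ∧ ed x ∈ A ∧ ed (S.nxt x) ∉ A then g x else 0) +
      ∑ x : Flag G, (if x.1.fst = v ∧ ed x ∈ A ∧ ed (S.nxt x) ∈ A then g x else 0) =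
      ∑ x : Flag G, (if x.1.fst = v ∧ ed x ∈ A then g x else 0) := by
    rw [← Finset.sum_add_distrib]
    refine Finset.sum_congr rfl fun x _ => ?_
    by_cases a1 : x.1.fst = v <;> by_cases a2 : ed x ∈ A <;> by_cases a3 : ed (S.nxt x) ∈ A <;>
      simp only [a1, a2, a3, true_and, false_and, and_true, and_false, not_true, not_false_iff, if_true, if_false,
        add_zero, zero_add]
  rwa [h2, add_zero, h1] at h3

private theorem dr_two (S : GMap G) (A : Finset G.edgeSet) {p q p' q' : Flag G} (h1 : p.1.fst = q.1.fst)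
    (h2 : p'.1.fst = q'.1.fst) (h3 : p.1.fst ≠ p'.1.fst) (h4 : S.face p ≠ S.face q)
    (hX : dlt S A = cr S p ∪ cr S q ∪ (cr S p' ∪ cr S q')) (z : G.edgeSet → F2)
    (hz : (fun e => if e ∈ A then z e else 0) ∈ cyc G) (g : Flag G → F2) (g1 : ∀ p, g (S.nxt p) = g p)
    (g2 : ∀ p, g (across p) = g p) (g3 : ∀ p, ed p ∈ A → g p + g (side p) = z (ed p)) : g p = g q := by
  have hpX : p ∈ dlt S A := by
    rw [hX]
    exact Finset.mem_union_left _ (Finset.mem_union_left _ (Finset.mem_insert_self _ _))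
  have hqX : q ∈ dlt S A := by
    rw [hX]
    exact Finset.mem_union_left _ (Finset.mem_union_right _ (Finset.mem_insert_self _ _))
  obtain ⟨p0, a1, a2, a3, a4, a5⟩ := dr_fl S A hpX
  obtain ⟨q0, b1, b2, b3, b4, b5⟩ := dr_fl S A hqX
  have hne : p0 ≠ q0 := by
    rintro rfl
    exact h4 (a2.symm.trans b2)
  have h5 := dr_sum S A z hz g g1 g3 p.1.fst
  rw [Fintype.sum_eq_add p0 q0 hne, if_pos ⟨a1, a3, a4⟩, if_pos ⟨b1.trans h1.symm, b3, b4⟩] at h5
  · rw [← dr_face S g g1 g2 a2, ← dr_face S g g1 g2 b2]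
    exact dr_eq h5
  · rintro x ⟨hx1, hx2⟩
    refine if_neg ?_
    rintro ⟨c1, c2, c3⟩
    have hx : x ∈ dlt S A := by
      unfold dlt
      rw [Finset.mem_filter]
      exact ⟨Finset.mem_univ _, fun h => c3 (h.1 c2)⟩
    have hcr : ∀ y, x ∈ cr S y → x.1.fst = y.1.fst := by
      intro y hy
      unfold cr at hy
      rcases Finset.mem_insert.1 hy with rfl | hy
      · rfl
      · rw [Finset.mem_singleton.1 hy, S.nxt_fst]
    rw [hX] at hx
    rcases Finset.mem_union.1 hx with hx | hx
    · rcases Finset.mem_union.1 hx with hx | hx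
      · exact hx1 (a5 x hx c2)
      · exact hx2 (b5 x hx c2)
    · rcases Finset.mem_union.1 hx with hx | hx
      · exact h3 (c1.symm.trans (hcr _ hx))
      · exact h3 (c1.symm.trans ((hcr _ hx).trans h2.symm))

theorem res_cut (S : GMap G) (A : Finset G.edgeSet) (hA : Sht S (dlt S A)) (z : G.edgeSet → F2)
    (hz : (fun e => if e ∈ A then z e else 0) ∈ cyc G) (g : Flag G → F2) (g1 : ∀ p, g (S.nxt p) = g p)
    (g2 : ∀ p, g (across p) = g p) (g3 : ∀ p, ed p ∈ A → g p + g (side p) = z (ed p)) :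
    ∃ g' : Flag G → F2, (∀ p, g' (S.nxt p) = g' p) ∧ (∀ p, g' (across p) = g' p) ∧ (∀ p, ed p ∉ A → g' p = 0) ∧
      ∀ p, ed p ∈ A → g' p + g' (side p) = z (ed p) := by
  have key : ∃ c : F2, ∀ p ∈ dlt S A, g p = c := by
    have hcr : ∀ x y, x ∈ cr S y → g x = g y := by
      intro x y hy
      unfold cr at hy
      rcases Finset.mem_insert.1 hy with rfl | hy
      · rfl
      · rw [Finset.mem_singleton.1 hy, g1]
    rcases hA with ⟨p, q, h1, h2, -, -, hX⟩ | ⟨p, q, p', q', h1, h2, h3, h4, h5, h6, hX⟩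
    · have h3 := dr_face S g g1 g2 h2
      refine ⟨g p, fun x hx => ?_⟩
      rw [hX] at hx
      rcases Finset.mem_union.1 hx with hx | hx
      · exact hcr _ _ hx
      · rw [h3]
        exact hcr _ _ hx
    · have h7 : g p = g q := dr_two S A h1 h2 h3 h6 hX z hz g g1 g2 g3
      have h8 := dr_face S g g1 g2 h4
      have h9 := dr_face S g g1 g2 h5
      refine ⟨g p, fun x hx => ?_⟩
      rw [hX] at hx
      rcases Finset.mem_union.1 hx with hx | hx
      · rcases Finset.mem_union.1 hx with hx | hx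
        · exact hcr _ _ hx
        · rw [h7]
          exact hcr _ _ hx
      · rcases Finset.mem_union.1 hx with hx | hx
        · rw [h8]
          exact hcr _ _ hx
        · rw [h7, h9]
          exact hcr _ _ hx
  obtain ⟨c, hc⟩ := key
  refine ⟨fun p => if ed p ∈ A then g p + c else 0, fun p => ?_, fun p => ?_, fun p hp => ?_, fun p hp => ?_⟩
  · by_cases h : (ed p ∈ A ↔ ed (S.nxt p) ∈ A)
    · by_cases h1 : ed p ∈ A
      · simp only [h1, h.1 h1, if_true, g1]
      · have h2 : ed (S.nxt p) ∉ A := fun h2 => h1 (h.2 h2)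
        simp only [h1, h2, if_false]
    · have h1 : g p + c = 0 := by
        rw [hc p (Finset.mem_filter.2 ⟨Finset.mem_univ _, h⟩)]
        exact dr_f2 c
      simp only [g1, h1, ite_self]
  · show (if ed (across p) ∈ A then g (across p) + c else 0) = if ed p ∈ A then g p + c else 0
    rw [Pool.Agent.BEO.ed_across, g2]
  · exact if_neg hp
  · show (if ed p ∈ A then g p + c else 0) + (if ed (side p) ∈ A then g (side p) + c else 0) = z (ed p)
    rw [Pool.Agent.BEO.ed_side, if_pos hp, if_pos hp, ← g3 p hp]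
    have h := dr_f2 c
    linear_combination h

/-- sums of boundaries of faces are given by functions on the faces -/
theorem span_iff (S : GMap G) (z : cyc G) : z ∈ Submodule.span F2 (Set.range (bdF S)) ↔
    ∃ g : Flag G → F2, (∀ p, g (S.nxt p) = g p) ∧ (∀ p, g (across p) = g p) ∧ ∀ p, g p + g (side p) = z.1 (ed p) := by
  constructor
  · intro hz
    induction hz using Submodule.span_induction with
    | mem x hx =>
      obtain ⟨F, rfl⟩ := hx
      refine ⟨fun p => if S.face p = F then 1 else 0, fun p => ?_, fun p => ?_, fun p => ?_⟩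
      · show (if S.face (S.nxt p) = F then (1 : F2) else 0) = if S.face p = F then 1 else 0
        rw [Pool.Agent.Helper35.OG.face_nxt]
      · show (if S.face (across p) = F then (1 : F2) else 0) = if S.face p = F then 1 else 0
        rw [Pool.Agent.Helper35.OG.face_across]
      · exact (Pool.Agent.BEO.bdF_eq S F p).symm
    | zero => exact ⟨fun _ => 0, fun _ => rfl, fun _ => rfl, fun _ => add_zero 0⟩
    | add x y _ _ hx hy =>
      obtain ⟨g, a1, a2, a3⟩ := hx
      obtain ⟨h, b1, b2, b3⟩ := hy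
      refine ⟨fun p => g p + h p, fun p => ?_, fun p => ?_, fun p => ?_⟩
      · show g (S.nxt p) + h (S.nxt p) = g p + h p
        rw [a1, b1]
      · show g (across p) + h (across p) = g p + h p
        rw [a2, b2]
      · show g p + h p + (g (side p) + h (side p)) = x.1 (ed p) + y.1 (ed p)
        rw [← a3, ← b3]
        ring
    | smul c x _ hx =>
      obtain ⟨g, a1, a2, a3⟩ := hx
      refine ⟨fun p => c * g p, fun p => ?_, fun p => ?_, fun p => ?_⟩
      · show c * g (S.nxt p) = c * g p
        rw [a1]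
      · show c * g (across p) = c * g p
        rw [a2]
      · show c * g p + c * g (side p) = c * x.1 (ed p)
        rw [← a3]
        ring
  · rintro ⟨g, g1, g2, g3⟩
    obtain ⟨h, hh⟩ := dr_lift S g g1 g2
    have hz : z = ∑ F : S.Face, h F • bdF S F := by
      apply Subtype.ext
      funext e
      obtain ⟨p, rfl⟩ := Pool.Agent.BEO.ed_surj e
      have h1 : (∑ F : S.Face, h F • bdF S F).1 (ed p) = ∑ F : S.Face, h F * (bdF S F).1 (ed p) := by
        have h2 := map_sum (Pool.Agent.BEO.ev (ed p)) (fun F : S.Face => h F • bdF S F) Finset.univ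
        exact h2
      rw [h1, ← g3 p, ← hh, ← hh]
      have h3 : ∀ F : S.Face, h F * (bdF S F).1 (ed p) =
          (if S.face p = F then h F else 0) + (if S.face (side p) = F then h F else 0) := by
        intro F
        rw [Pool.Agent.BEO.bdF_eq, mul_add, mul_ite, mul_ite, mul_one, mul_zero]
      rw [Finset.sum_congr rfl fun F _ => h3 F, Finset.sum_add_distrib, Finset.sum_ite_eq, Finset.sum_ite_eq,
        if_pos (Finset.mem_univ _), if_pos (Finset.mem_univ _)]
    rw [hz]
    exact Submodule.sum_mem _ fun F _ => Submodule.smul_mem _ _ (Submodule.subset_span ⟨F, rfl⟩)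

end Pool.Agent.FGT
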