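import Pool.Agent.FGT.DcA
import Pool.Agent.FGT.SmB

/-!
# FGT-DcT: trivial sets; vertices of small degree in reduced maps

For a vertex `x` all neighbours of which have at least two neighbours, the set `rk {x}` of the edges at `x` is connected by its
corners at `x`, its open flags are the flags opposite to `x`, and its Euler characteristic is one.
-/

set_option autoImplicit false

open Finset
open scoped Classical

namespace Pool.Agent.FGT

open Pool.Agent.Helper35.OG (Flag GMap across side)
open Pool.Agent.BEO (F2 ed rp cyc ev bdF nb)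

variable {V : Type} {G : SimpleGraph V} [Fintype V]

private theorem dct_mem_rk (x : V) (e : G.edgeSet) : e ∈ rk (G := G) {x} ↔ x ∈ e.1 := by
  unfold rk
  rw [Finset.mem_filter]
  constructor
  · rintro ⟨_, v, hv, h⟩
    rw [Finset.mem_singleton] at hv
    rw [← hv]
    exact h
  · intro h
    exact ⟨Finset.mem_univ _, x, Finset.mem_singleton_self x, h⟩

private theorem dct_ed_mem (x : V) (p : Flag G) : ed p ∈ rk (G := G) {x} ↔ p.1.fst = x ∨ p.1.snd = x := by
  rw [dct_mem_rk]
  show x ∈ s(p.1.fst, p.1.snd) ↔ _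
  rw [Sym2.mem_iff]
  constructor
  · rintro (h | h)
    · exact Or.inl h.symm
    · exact Or.inr h.symm
  · rintro (h | h)
    · exact Or.inl h.symm
    · exact Or.inr h.symm

private theorem dct_mem_nb (x y : V) : y ∈ nb G x ↔ G.Adj x y := by
  unfold nb
  rw [Finset.mem_filter]
  exact ⟨fun h => h.2, fun h => ⟨Finset.mem_univ _, h⟩⟩

private theorem dct_adj (p : Flag G) : G.Adj p.1.fst p.1.snd := p.1.adj

/-- flags with the same ends -/
private theorem dct_same (p q : Flag G) (h1 : q.1.fst = p.1.fst) (h2 : q.1.snd = p.1.snd) : q = p ∨ q = side p := by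
  rcases p with ⟨⟨⟨a, b⟩, hab⟩, s⟩
  rcases q with ⟨⟨⟨c, d⟩, hcd⟩, t⟩
  simp only at h1 h2
  subst h1 h2
  cases s <;> cases t <;> simp [side]

private theorem dct_out (S : GMap G) (x : V) (p : Flag G) (hp : p.1.snd = x) (h2 : 2 ≤ (nb G p.1.fst).card) :
    ed (S.nxt p) ∉ rk (G := G) {x} := by
  intro h
  have hne : p.1.fst ≠ x := by
    intro h'
    exact G.ne_of_adj (dct_adj p) (h'.trans hp.symm)
  have hs : (S.nxt p).1.snd = p.1.snd := by
    rcases (dct_ed_mem x _).mp h with h' | h'
    · rw [S.nxt_fst] at h'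
      exact absurd h' hne
    · exact h'.trans hp.symm
  have hside : S.nxt p = side p := by
    rcases dct_same p (S.nxt p) (S.nxt_fst p) hs with h' | h'
    · exact absurd h' (S.nxt_ne p)
    · exact h'
  have hside' : S.nxt (side p) = p := by
    rw [← hside, S.nxt_nxt]
  obtain ⟨u, hu, hux⟩ : ∃ u ∈ nb G p.1.fst, u ≠ x := Finset.exists_mem_ne (by omega) x
  rw [dct_mem_nb] at hu
  have key := Pool.Agent.Helper35.OG.vertex_const S (fun q => (q = p ∨ q = side p : Prop))
    (fun q => by
      refine propext ⟨?_, ?_⟩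
      · rintro (h' | h')
        · right
          rw [← hside, ← h', S.nxt_nxt]
        · left
          have h3 : S.nxt (S.nxt q) = S.nxt (side p) := by rw [h']
          rw [S.nxt_nxt, hside'] at h3
          exact h3
      · rintro (h' | h')
        · right
          rw [h', hside]
        · left
          rw [h', hside'])
    (fun q => by
      refine propext ⟨?_, ?_⟩
      · rintro (h' | h')
        · right
          rw [← h', Pool.Agent.Helper35.OG.side_side]
        · left
          have h3 : side (side q) = side (side p) := by rw [h']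
          rw [Pool.Agent.Helper35.OG.side_side, Pool.Agent.Helper35.OG.side_side] at h3
          exact h3
      · rintro (h' | h')
        · right
          rw [h']
        · left
          rw [h', Pool.Agent.Helper35.OG.side_side])
    (p := p) (q := ((⟨(p.1.fst, u), hu⟩ : G.Dart), true)) rfl
  have h3 := key.mp (Or.inl rfl)
  have h4 : u = p.1.snd := by
    rcases h3 with h3 | h3
    · rw [← h3]
    · have h5 : (side p).1.snd = p.1.snd := rfl
      rw [← h5, ← h3]
  exact hux (h4.trans hp)

private theorem dct_card_rk (x : V) : (rk (G := G) {x}).card = (nb G x).card := by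
  symm
  refine Finset.card_bij (fun y hy => (⟨s(x, y), (dct_mem_nb x y).mp hy⟩ : G.edgeSet)) ?_ ?_ ?_
  · intro y hy
    rw [dct_mem_rk]
    exact Sym2.mem_mk_left x y
  · intro y hy y' hy' h
    have h1 : s(x, y) = s(x, y') := congrArg Subtype.val h
    exact Sym2.congr_right.mp h1
  · intro e he
    rw [dct_mem_rk] at he
    obtain ⟨e, hG⟩ := e
    obtain ⟨y, hy⟩ := Sym2.mem_iff_exists.mp he
    simp only at hy
    subst hy
    exact ⟨y, (dct_mem_nb x y).mpr hG, rfl⟩

/-- the open flags of the edges at `x` -/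
private theorem dct_mix_iff (S : GMap G) (x : V) (h : ∀ y, G.Adj x y → 2 ≤ (nb G y).card) (p : Flag G) :
    p ∈ mix (rk (G := G) {x}) S ↔ p.1.snd = x := by
  unfold mix
  rw [Finset.mem_filter]
  constructor
  · rintro ⟨_, h1, h2⟩
    rcases (dct_ed_mem x p).mp h1 with h3 | h3
    · exfalso
      apply h2
      rw [dct_ed_mem]
      left
      rw [S.nxt_fst, h3]
    · exact h3
  · intro h1
    refine ⟨Finset.mem_univ _, (dct_ed_mem x p).mpr (Or.inr h1), dct_out S x p h1 (h _ ?_)⟩
    rw [← h1]
    exact (dct_adj p).symm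

private theorem dct_mix_card (S : GMap G) (x : V) (h : ∀ y, G.Adj x y → 2 ≤ (nb G y).card) :
    (mix (rk (G := G) {x}) S).card = 2 * (nb G x).card := by
  have h1 : (mix (rk (G := G) {x}) S).card = ((nb G x) ×ˢ (univ : Finset Bool)).card := by
    refine Finset.card_bij (fun p _ => (p.1.fst, p.2)) ?_ ?_ ?_
    · intro p hp
      rw [dct_mix_iff S x h] at hp
      rw [Finset.mem_product]
      refine ⟨?_, Finset.mem_univ _⟩
      rw [dct_mem_nb, ← hp]
      exact (dct_adj p).symm
    · intro p hp q hq hpq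
      rw [dct_mix_iff S x h] at hp hq
      have e1 : p.1.fst = q.1.fst := (Prod.mk.inj hpq).1
      have e2 : p.2 = q.2 := (Prod.mk.inj hpq).2
      rcases dct_same q p e1 (hp.trans hq.symm) with h' | h'
      · exact h'
      · exfalso
        rw [h'] at e2
        have e3 : (side q).2 = !q.2 := rfl
        rw [e3] at e2
        cases hq2 : q.2 <;> rw [hq2] at e2 <;> simp at e2
    · rintro ⟨y, s⟩ hy
      rw [Finset.mem_product] at hy
      have hy1 := (dct_mem_nb x y).mp hy.1
      refine ⟨((⟨(y, x), hy1.symm⟩ : G.Dart), s), ?_, rfl⟩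
      rw [dct_mix_iff S x h]
  rw [h1, Finset.card_product]
  simp [mul_comm]

private theorem dct_part (S : GMap G) (x : V) (p : Flag G) (hp : p.1.fst = x) :
    part (rk (G := G) {x}) S p = S.nxt p := by
  unfold part
  rw [if_pos]
  exact ⟨(dct_ed_mem x p).mpr (Or.inl hp), (dct_ed_mem x _).mpr (Or.inl ((S.nxt_fst p).trans hp))⟩

private theorem dct_vs (S : GMap G) (x : V) (hx : (nb G x).Nonempty) :
    vs S (rk (G := G) {x}) = (nb G x).card + 1 := by
  have hlift : ∀ p q : Flag G, rV (rk (G := G) {x}) (part (rk (G := G) {x}) S) p q → p.1.fst = q.1.fst := by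
    rintro p q ⟨_, h | h⟩
    · rw [h]
      exact ((omap_part (rk (G := G) {x}) S).fst p).symm
    · rw [h]
      rfl
  have hcls : ∀ p q : Flag G, ed p ∈ rk (G := G) {x} → ed q ∈ rk (G := G) {x} → p.1.fst = q.1.fst →
      Quot.mk (rV (rk (G := G) {x}) (part (rk (G := G) {x}) S)) p =
        Quot.mk (rV (rk (G := G) {x}) (part (rk (G := G) {x}) S)) q := by
    intro p q hp hq hpq
    by_cases hpx : p.1.fst = x
    · have h3 := Pool.Agent.Helper35.OG.eqvGen_eq
        (fun r : Flag G => (r.1.fst = x ∧ Quot.mk (rV (rk (G := G) {x}) (part (rk (G := G) {x}) S)) p =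
          Quot.mk (rV (rk (G := G) {x}) (part (rk (G := G) {x}) S)) r : Prop)) (fun r r' hr => by
        have key : ∀ r : Flag G, r.1.fst = x → Quot.mk (rV (rk (G := G) {x}) (part (rk (G := G) {x}) S)) r =
            Quot.mk (rV (rk (G := G) {x}) (part (rk (G := G) {x}) S)) (S.nxt r) := fun r hr =>
          Quot.sound ⟨(dct_ed_mem x r).mpr (Or.inl hr), Or.inl (dct_part S x r hr).symm⟩
        have key2 : ∀ r : Flag G, r.1.fst = x → Quot.mk (rV (rk (G := G) {x}) (part (rk (G := G) {x}) S)) r =
            Quot.mk (rV (rk (G := G) {x}) (part (rk (G := G) {x}) S)) (side r) := fun r hr =>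
          Quot.sound ⟨(dct_ed_mem x r).mpr (Or.inl hr), Or.inr rfl⟩
        rcases hr with hr | hr
        · subst hr
          refine propext ⟨fun h => ⟨(S.nxt_fst r).trans h.1, h.2.trans (key r h.1)⟩, fun h => ?_⟩
          have h1 : r.1.fst = x := (S.nxt_fst r).symm.trans h.1
          exact ⟨h1, h.2.trans (key r h1).symm⟩
        · subst hr
          refine propext ⟨fun h => ⟨h.1, h.2.trans (key2 r h.1)⟩, fun h => ?_⟩
          have h1 : r.1.fst = x := h.1
          exact ⟨h1, h.2.trans (key2 r h1).symm⟩) (S.conn p q hpq)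
      exact (h3.mp ⟨hpx, rfl⟩).2
    · have h1 : p.1.snd = x := by
        rcases (dct_ed_mem x p).mp hp with h | h
        · exact absurd h hpx
        · exact h
      have h2 : q.1.snd = x := by
        rcases (dct_ed_mem x q).mp hq with h | h
        · exact absurd (hpq.trans h) hpx
        · exact h
      rcases dct_same p q hpq.symm (h2.trans h1.symm) with h | h
      · rw [h]
      · rw [h]
        exact Quot.sound ⟨hp, Or.inr rfl⟩
  let f : {c : Quot (rV (rk (G := G) {x}) (part (rk (G := G) {x}) S)) // ∃ p, Quot.mk _ p = c ∧ ed p ∈ rk (G := G) {x}} →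
      ↥(insert x (nb G x)) := fun c => ⟨Quot.lift (fun p : Flag G => p.1.fst) hlift c.1, by
    obtain ⟨c, p, hp, he⟩ := c
    subst hp
    show p.1.fst ∈ insert x (nb G x)
    rw [Finset.mem_insert, dct_mem_nb]
    rcases (dct_ed_mem x p).mp he with h | h
    · exact Or.inl h
    · right
      rw [← h]
      exact (dct_adj p).symm⟩
  have hf : Function.Bijective f := by
    constructor
    · rintro ⟨c, p, hp, he⟩ ⟨c', p', hp', he'⟩ h
      subst hp hp'
      have h1 : p.1.fst = p'.1.fst := congrArg Subtype.val h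
      apply Subtype.ext
      exact hcls p p' he he' h1
    · rintro ⟨v, hv⟩
      have hv' := hv
      rw [Finset.mem_insert, dct_mem_nb] at hv'
      rcases hv' with h | h
      · subst h
        obtain ⟨y, hy⟩ := hx
        rw [dct_mem_nb] at hy
        refine ⟨⟨Quot.mk _ ((⟨(v, y), hy⟩ : G.Dart), true), _, rfl, (dct_ed_mem v _).mpr (Or.inl rfl)⟩, rfl⟩
      · refine ⟨⟨Quot.mk _ ((⟨(v, x), h.symm⟩ : G.Dart), true), _, rfl, (dct_ed_mem x _).mpr (Or.inr rfl)⟩, rfl⟩
  unfold vs
  rw [Nat.card_congr (Equiv.ofBijective f hf), Nat.card_eq_fintype_card, Fintype.card_coe,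
    Finset.card_insert_of_notMem]
  rw [dct_mem_nb]
  exact G.irrefl

private theorem dct_clo (S : GMap G) (x : V) (h : ∀ y, G.Adj x y → 2 ≤ (nb G y).card) :
    clo (rk (G := G) {x}) (part (rk (G := G) {x}) S) = 0 := by
  unfold clo
  rw [Nat.card_eq_zero]
  left
  constructor
  rintro ⟨c, ⟨p, hp, he⟩, hq⟩
  subst hp
  rcases (dct_ed_mem x p).mp he with h1 | h1
  · have h2 : across p ∈ mix (rk (G := G) {x}) S := (dct_mix_iff S x h _).mpr h1
    rw [mem_mix] at h2
    exact hq _ h2 (Quot.sound ⟨he, Or.inr rfl⟩).symm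
  · have h2 : p ∈ mix (rk (G := G) {x}) S := (dct_mix_iff S x h _).mpr h1
    rw [mem_mix] at h2
    exact hq _ h2 rfl

private theorem dct_chi (S : GMap G) (x : V) (hx : (nb G x).Nonempty) (h : ∀ y, G.Adj x y → 2 ≤ (nb G y).card) :
    chi S (rk (G := G) {x}) = 1 := by
  unfold chi
  rw [dct_vs S x hx, dct_clo S x h, dct_card_rk]
  push_cast
  ring

private theorem dct_flag (x : V) (e : G.edgeSet) (he : e ∈ rk (G := G) {x}) : ∃ p : Flag G, ed p = e ∧ p.1.fst = x := by
  rw [dct_mem_rk] at he
  obtain ⟨p, hp⟩ := Pool.Agent.BEO.ed_surj e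
  subst hp
  have h1 := (dct_ed_mem x p).mp ((dct_mem_rk x _).mpr he)
  rcases h1 with h1 | h1
  · exact ⟨p, rfl, h1⟩
  · exact ⟨across p, Pool.Agent.BEO.ed_across p, h1⟩

private theorem dct_hcn (S : GMap G) (x : V) : HCn S (rk (G := G) {x}) := by
  intro e he e' he'
  obtain ⟨p, hp, hpx⟩ := dct_flag x e he
  obtain ⟨q, hq, hqx⟩ := dct_flag x e' he'
  subst hp hq
  have h3 := Pool.Agent.Helper35.OG.eqvGen_eq
    (fun r : Flag G => (r.1.fst = x ∧ Relation.EqvGen (fun u v => u ∈ rk (G := G) {x} ∧ v ∈ rk (G := G) {x} ∧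
      ∃ p : Flag G, ed p = u ∧ ed (S.nxt p) = v) (ed p) (ed r) : Prop)) (fun r r' hr => by
    rcases hr with hr | hr
    · subst hr
      have key : r.1.fst = x → Relation.EqvGen (fun u v => u ∈ rk (G := G) {x} ∧ v ∈ rk (G := G) {x} ∧
          ∃ p : Flag G, ed p = u ∧ ed (S.nxt p) = v) (ed r) (ed (S.nxt r)) := fun h =>
        Relation.EqvGen.rel _ _ ⟨(dct_ed_mem x r).mpr (Or.inl h),
          (dct_ed_mem x _).mpr (Or.inl ((S.nxt_fst r).trans h)), r, rfl, rfl⟩
      refine propext ⟨fun h => ⟨(S.nxt_fst r).trans h.1, Relation.EqvGen.trans _ _ _ h.2 (key h.1)⟩, fun h => ?_⟩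
      have h1 : r.1.fst = x := (S.nxt_fst r).symm.trans h.1
      exact ⟨h1, Relation.EqvGen.trans _ _ _ h.2 (Relation.EqvGen.symm _ _ (key h1))⟩
    · subst hr
      exact propext ⟨fun h => h, fun h => h⟩) (S.conn p q (hpx.trans hqx.symm))
  exact (h3.mp ⟨hpx, Relation.EqvGen.refl _⟩).2

theorem trv_mix [Nontrivial V] (hG : G.Connected) (S : GMap G) (A : Finset G.edgeSet) (hA : Trv S A) :
    (mix A S).card = 4 := by
  rcases hA with hA | ⟨x, a, b, hab, hadj, hnb, rfl⟩
  · exact hA.2
  · have hxa : G.Adj x a := by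
      rw [← dct_mem_nb, hnb]
      simp
    have hxb : G.Adj x b := by
      rw [← dct_mem_nb, hnb]
      simp
    have h2 : ∀ y, G.Adj x y → 2 ≤ (nb G y).card := by
      intro y hy
      rw [← dct_mem_nb, hnb, Finset.mem_insert, Finset.mem_singleton] at hy
      rcases hy with rfl | rfl
      · have h3 : ({x, b} : Finset V) ⊆ nb G y := by
          intro z hz
          rw [Finset.mem_insert, Finset.mem_singleton] at hz
          rw [dct_mem_nb]
          rcases hz with rfl | rfl
          · exact hxa.symm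
          · exact hadj
        have h4 := Finset.card_le_card h3
        rwa [Finset.card_pair (G.ne_of_adj hxb)] at h4
      · have h3 : ({x, a} : Finset V) ⊆ nb G y := by
          intro z hz
          rw [Finset.mem_insert, Finset.mem_singleton] at hz
          rw [dct_mem_nb]
          rcases hz with rfl | rfl
          · exact hxb.symm
          · exact hadj.symm
        have h4 := Finset.card_le_card h3
        rwa [Finset.card_pair (G.ne_of_adj hxa)] at h4
    rw [dct_mix_card S x h2, hnb, Finset.card_pair hab]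

/-- a neighbour of `x` with another neighbour gives an edge not at `x` -/
private theorem dct_ne_univ (x y : V) (hxy : G.Adj x y) (h2 : 2 ≤ (nb G y).card) : rk (G := G) {x} ≠ univ := by
  intro h
  obtain ⟨u, hu, hux⟩ : ∃ u ∈ nb G y, u ≠ x := Finset.exists_mem_ne (by omega) x
  rw [dct_mem_nb] at hu
  have h1 : (⟨s(y, u), hu⟩ : G.edgeSet) ∈ rk (G := G) {x} := by
    rw [h]
    exact Finset.mem_univ _
  rw [dct_mem_rk] at h1
  rcases Sym2.mem_iff.mp h1 with h3 | h3
  · exact G.ne_of_adj hxy h3
  · exact hux h3.symm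

theorem deg_ge [Nontrivial V] (hG : G.Connected) (S : GMap G) (hr : Reduced S) (h1 : 1 ≤ S.eg) (x : V) :
    2 ≤ (nb G x).card := by
  by_contra hlt
  obtain ⟨y, hxy⟩ := hG.preconnected.exists_adj_of_nontrivial x
  have hne : (nb G x).Nonempty := ⟨y, (dct_mem_nb x y).mpr hxy⟩
  have hc1 : (nb G x).card = 1 := by
    have := hne.card_pos
    omega
  have hu : ∀ z, G.Adj x z → z = y := by
    intro z hz
    have h2 := Finset.card_le_one.mp hc1.le z ((dct_mem_nb x z).mpr hz) y ((dct_mem_nb x y).mpr hxy)
    exact h2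
  by_cases hy : 2 ≤ (nb G y).card
  · have h2 : ∀ z, G.Adj x z → 2 ≤ (nb G z).card := fun z hz => by rw [hu z hz]; exact hy
    have hcard : (rk (G := G) {x}).card = 1 := by rw [dct_card_rk, hc1]
    have hmix : (mix (rk (G := G) {x}) S).card = 2 := by rw [dct_mix_card S x h2, hc1]
    have ht := hr (rk (G := G) {x}) (Finset.card_pos.mp (by omega)) (dct_ne_univ x y hxy hy) (dct_hcn S x)
      (dct_chi S x hne h2) (by omega)
    rcases ht with ht | ⟨x', a, b, hab, _, hnb, he⟩
    · rw [hmix] at ht
      omega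
    · rw [he, dct_card_rk, hnb, Finset.card_pair hab] at hcard
      omega
  · have hv : ∀ z, G.Adj y z → z = x := by
      intro z hz
      have h2 := Finset.card_le_one.mp (by omega : (nb G y).card ≤ 1) z ((dct_mem_nb y z).mpr hz) x
        ((dct_mem_nb y x).mpr hxy.symm)
      exact h2
    have hW := Pool.Agent.Helper35.OG.all_const S hG (fun q => (q.1.fst = x ∨ q.1.fst = y : Prop))
      (fun q => by rw [S.nxt_fst]) (fun q => rfl)
      (fun q => by
        have e1 : (across q).1.fst = q.1.snd := rfl
        rw [e1]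
        refine propext ⟨?_, ?_⟩
        · rintro (h | h)
          · right
            exact hu _ (by rw [← h]; exact (dct_adj q).symm)
          · left
            exact hv _ (by rw [← h]; exact (dct_adj q).symm)
        · rintro (h | h)
          · right
            exact hu _ (by rw [← h]; exact dct_adj q)
          · left
            exact hv _ (by rw [← h]; exact dct_adj q)) ((⟨(x, y), hxy⟩ : G.Dart), true)
    have hE : Nat.card G.edgeSet ≤ 1 := by
      rw [Nat.card_eq_fintype_card, Fintype.card_le_one_iff_subsingleton]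
      have key : ∀ e : G.edgeSet, e.1 = s(x, y) := by
        intro e
        obtain ⟨p, hp⟩ := Pool.Agent.BEO.ed_surj e
        subst hp
        show s(p.1.fst, p.1.snd) = s(x, y)
        have h5 := (hW p).mp (Or.inl rfl)
        rcases h5 with h5 | h5
        · have h6 : p.1.snd = y := hu _ (by rw [← h5]; exact dct_adj p)
          rw [h5, h6]
        · have h6 : p.1.snd = x := hv _ (by rw [← h5]; exact dct_adj p)
          rw [h5, h6]
          exact Sym2.eq_swap
      exact ⟨fun e e' => Subtype.ext ((key e).trans (key e').symm)⟩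
    have hF : 1 ≤ Nat.card S.Face := by
      haveI : Finite S.Face := Quot.finite _
      haveI : Nonempty S.Face := ⟨S.face ((⟨(x, y), hxy⟩ : G.Dart), true)⟩
      exact Nat.card_pos
    have hV : 2 ≤ Nat.card V := by
      rw [Nat.card_eq_fintype_card]
      exact Fintype.one_lt_card
    unfold GMap.eg at h1
    omega

theorem deg_two [Nontrivial V] (hG : G.Connected) (S : GMap G) (hr : Reduced S) (h1 : 1 ≤ S.eg) (x : V)
    (hx : (nb G x).card = 2) : ∃ a b : V, a ≠ b ∧ G.Adj a b ∧ nb G x = {a, b} := by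
  obtain ⟨y, hxy⟩ := hG.preconnected.exists_adj_of_nontrivial x
  have hne : (nb G x).Nonempty := ⟨y, (dct_mem_nb x y).mpr hxy⟩
  have h2 : ∀ z, G.Adj x z → 2 ≤ (nb G z).card := fun z _ => deg_ge hG S hr h1 z
  have hcard : (rk (G := G) {x}).card = 2 := by rw [dct_card_rk, hx]
  have hmix : (mix (rk (G := G) {x}) S).card = 4 := by rw [dct_mix_card S x h2, hx]
  have ht := hr (rk (G := G) {x}) (Finset.card_pos.mp (by omega)) (dct_ne_univ x y hxy (h2 y hxy)) (dct_hcn S x)
    (dct_chi S x hne h2) (by omega)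
  rcases ht with ht | ⟨x', a, b, hab, hadj, hnb, he⟩
  · omega
  · by_cases hxx : x' = x
    · subst hxx
      exact ⟨a, b, hab, hadj, hnb⟩
    · exfalso
      have h3 : (rk (G := G) {x}).card ≤ 1 := by
        rw [Finset.card_le_one]
        intro e he1 e' he2
        have h4 : ∀ f ∈ rk (G := G) {x}, f.1 = s(x, x') := by
          intro f hf
          have h5 := (dct_mem_rk x f).mp hf
          rw [he] at hf
          have h6 := (dct_mem_rk x' f).mp hf
          exact (Sym2.mem_and_mem_iff (Ne.symm hxx)).mp ⟨h5, h6⟩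
        exact Subtype.ext ((h4 e he1).trans (h4 e' he2).symm)
      omega

end Pool.Agent.FGT
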