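import Pool.Agent.FGT.DcT

/-!
# FGT-DcU: a vertex with two adjacent neighbours is near the boundary
-/

set_option autoImplicit false

open Finset
open scoped Classical

namespace Pool.Agent.FGT

open Pool.Agent.Helper35.OG (Flag GMap across side)
open Pool.Agent.BEO (F2 ed rp cyc ev bdF nb)

variable {V : Type} {G : SimpleGraph V} [Fintype V]

private theorem DcU_sd (p q : Flag G) (h1 : q.1.fst = p.1.fst) (h2 : q.1.snd = p.1.snd) :
    q = p ∨ q = side p := by
  obtain ⟨d, s⟩ := p
  obtain ⟨d', s'⟩ := q
  have h : d' = d := SimpleGraph.Dart.ext _ _ (Prod.ext h1 h2)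
  subst h
  by_cases hs : s' = s
  · left
    rw [hs]
  · right
    show (d', s') = (d', !s)
    cases s <;> cases s' <;> simp_all

private theorem DcU_mem (p : Flag G) (y : V) : y ∈ (ed p).1 ↔ y = p.1.fst ∨ y = p.1.snd :=
  Sym2.mem_iff

private theorem DcU_cr (S : GMap G) (p r : Flag G) : r ∈ cr S p ↔ r = p ∨ r = S.nxt p := by
  unfold cr
  rw [mem_insert, mem_singleton]

private def DcU_Ok (S : GMap G) (D : Finset G.edgeSet) (K : Finset (Flag G)) (p : Flag G) : Prop :=
  ed p ∈ D ∧ ed (S.nxt p) ∈ D ∧ p ∉ K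

private theorem DcU_ok (S : GMap G) (D : Finset G.edgeSet) (K : Finset (Flag G)) (hK : NC S K) {p r : Flag G}
    (hp : DcU_Ok S D K p) (hr : r ∈ cr S p) : ed r ∈ D ∧ r ∉ K := by
  obtain ⟨h1, h2, h3⟩ := hp
  rcases (DcU_cr S p r).1 hr with rfl | rfl
  · exact ⟨h1, h3⟩
  · refine ⟨h2, fun h => h3 ?_⟩
    have h4 := hK _ h
    rw [S.nxt_nxt] at h4
    exact h4

private theorem DcU_zero [Nontrivial V] (hG : G.Connected) (S : GMap G) (D : Finset G.edgeSet)
    (K : Finset (Flag G)) (hK : NC S K) (hgd : Good S D K) (p q : Flag G) (h : p.1.fst = q.1.fst)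
    (hf : S.face p = S.face q) (hp : DcU_Ok S D K p) (hq : DcU_Ok S D K q) : q = p ∨ q = S.nxt p := by
  by_contra hc
  rw [not_or] at hc
  obtain ⟨hc1, hc2⟩ := hc
  have hall : ∀ r ∈ cr S p ∪ cr S q, ed r ∈ D ∧ r ∉ K := by
    intro r hr
    rcases mem_union.1 hr with hr | hr
    · exact DcU_ok S D K hK hp hr
    · exact DcU_ok S D K hK hq hr
  obtain ⟨A, hA, hX⟩ := hgd (cr S p ∪ cr S q) (Or.inl ⟨p, q, h, hf, hc1, hc2, rfl⟩)
    (disjoint_left.2 fun r hr => (hall r hr).2) (fun r hr => (hall r hr).1)
  have h1 := trv_mix hG S A hA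
  have h2 := dlt_card S A
  rw [hX, h1] at h2
  have h3 : (cr S p ∪ cr S q).card ≤ 2 + 2 :=
    (card_union_le _ _).trans (Nat.add_le_add card_le_two card_le_two)
  omega

private theorem DcU_one [Nontrivial V] (hG : G.Connected) (S : GMap G) (D : Finset G.edgeSet)
    (K : Finset (Flag G)) (hK : NC S K) (hgd : Good S D K) (x a b : V) (hab : a ≠ b) (hxa : x ≠ a) (hxb : x ≠ b)
    (ρ τ σ : Flag G) (r1 : ρ.1.fst = a) (r2 : ρ.1.snd = x) (t1 : τ.1.fst = a) (t2 : τ.1.snd = b)
    (s1 : σ.1.fst = b) (s2 : σ.1.snd = x) (hf : S.face ρ = S.face σ)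
    (or : DcU_Ok S D K ρ) (ot : DcU_Ok S D K τ) (os : DcU_Ok S D K σ) (ou : DcU_Ok S D K (across τ)) :
    (S.nxt ρ = τ ∧ S.nxt σ = across τ) ∨ (S.nxt ρ = side τ ∧ S.nxt σ = across (side τ)) ∨
      (S.nxt (side ρ) = τ ∧ S.nxt (side σ) = across τ) ∨
      ∃ y, y ≠ x ∧ y ≠ a ∧ y ≠ b ∧ nb G y = {a, b} ∧ (S.nxt ρ).1.snd = y ∧ S.nxt τ = side (S.nxt ρ) ∧
        (S.nxt σ).1.snd = y ∧ S.nxt (across τ) = side (S.nxt σ) := by
  have u1 : (across τ).1.fst = b := t2
  have u2 : (across τ).1.snd = a := t1
  have hfu : S.face τ = S.face (across τ) := (Pool.Agent.Helper35.OG.face_across S τ).symm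
  by_cases hrt : S.face ρ = S.face τ
  · left
    constructor
    · rcases DcU_zero hG S D K hK hgd ρ τ (r1.trans t1.symm) hrt or ot with h | h
      · exfalso
        apply hxb
        rw [← r2, ← t2, h]
      · exact h.symm
    · rcases DcU_zero hG S D K hK hgd σ (across τ) (s1.trans u1.symm)
        (hf.symm.trans (hrt.trans hfu)) os ou with h | h
      · exfalso
        apply hxa
        rw [← s2, ← u2, h]
      · exact h.symm
  · right
    have hall : ∀ r ∈ cr S ρ ∪ cr S τ ∪ (cr S σ ∪ cr S (across τ)), ed r ∈ D ∧ r ∉ K := by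
      intro r hr
      rcases mem_union.1 hr with hr | hr
      · rcases mem_union.1 hr with hr | hr
        · exact DcU_ok S D K hK or hr
        · exact DcU_ok S D K hK ot hr
      · rcases mem_union.1 hr with hr | hr
        · exact DcU_ok S D K hK os hr
        · exact DcU_ok S D K hK ou hr
    obtain ⟨A, hA, hX⟩ := hgd (cr S ρ ∪ cr S τ ∪ (cr S σ ∪ cr S (across τ)))
      (Or.inr ⟨ρ, τ, σ, across τ, r1.trans t1.symm, s1.trans u1.symm, by rw [r1, s1]; exact hab, hf, hfu, hrt, rfl⟩)
      (disjoint_left.2 fun r hr => (hall r hr).2) (fun r hr => (hall r hr).1)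
    have hm : ∀ p : Flag G, p ∈ cr S ρ ∪ cr S τ ∪ (cr S σ ∪ cr S (across τ)) →
        ¬ (ed p ∈ A ↔ ed (S.nxt p) ∈ A) := by
      intro p hp
      rw [← hX] at hp
      exact (mem_filter.1 hp).2
    have mr := hm ρ (mem_union_left _ (mem_union_left _ ((DcU_cr S ρ ρ).2 (Or.inl rfl))))
    have mt := hm τ (mem_union_left _ (mem_union_right _ ((DcU_cr S τ τ).2 (Or.inl rfl))))
    have ms := hm σ (mem_union_right _ (mem_union_left _ ((DcU_cr S σ σ).2 (Or.inl rfl))))
    have mu := hm (across τ) (mem_union_right _ (mem_union_right _ ((DcU_cr S _ _).2 (Or.inl rfl))))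
    have nr1 : (S.nxt ρ).1.fst = a := (S.nxt_fst ρ).trans r1
    have nt1 : (S.nxt τ).1.fst = a := (S.nxt_fst τ).trans t1
    have ns1 : (S.nxt σ).1.fst = b := (S.nxt_fst σ).trans s1
    have nu1 : (S.nxt (across τ)).1.fst = b := (S.nxt_fst _).trans u1
    have er : ∀ v, v ∈ (ed ρ).1 ↔ v = a ∨ v = x := fun v => by rw [DcU_mem, r1, r2]
    have et : ∀ v, v ∈ (ed τ).1 ↔ v = a ∨ v = b := fun v => by rw [DcU_mem, t1, t2]
    have es : ∀ v, v ∈ (ed σ).1 ↔ v = b ∨ v = x := fun v => by rw [DcU_mem, s1, s2]
    have eu : ∀ v, v ∈ (ed (across τ)).1 ↔ v = b ∨ v = a := fun v => by rw [DcU_mem, u1, u2]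
    have enr : ∀ v, v ∈ (ed (S.nxt ρ)).1 ↔ v = a ∨ v = (S.nxt ρ).1.snd := fun v => by rw [DcU_mem, nr1]
    have ent : ∀ v, v ∈ (ed (S.nxt τ)).1 ↔ v = a ∨ v = (S.nxt τ).1.snd := fun v => by rw [DcU_mem, nt1]
    have ens : ∀ v, v ∈ (ed (S.nxt σ)).1 ↔ v = b ∨ v = (S.nxt σ).1.snd := fun v => by rw [DcU_mem, ns1]
    have enu : ∀ v, v ∈ (ed (S.nxt (across τ))).1 ↔ v = b ∨ v = (S.nxt (across τ)).1.snd :=
      fun v => by rw [DcU_mem, nu1]
    have fr : S.face (S.nxt ρ) = S.face ρ := Pool.Agent.Helper35.OG.face_nxt S ρ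
    have ft : S.face (S.nxt τ) = S.face τ := Pool.Agent.Helper35.OG.face_nxt S τ
    have fs : S.face (S.nxt σ) = S.face σ := Pool.Agent.Helper35.OG.face_nxt S σ
    have fu : S.face (S.nxt (across τ)) = S.face (across τ) := Pool.Agent.Helper35.OG.face_nxt S _
    rcases hA with ⟨hA1, -⟩ | ⟨y, a', b', hab', hadj', hy, hA⟩
    · left
      obtain ⟨e, rfl⟩ := card_eq_one.1 hA1
      have hae : a ∈ e.1 := by
        by_contra h
        apply mr
        rw [mem_singleton, mem_singleton]
        constructor
        · intro h1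
          exact absurd (by rw [← h1, er]; exact Or.inl rfl) h
        · intro h1
          exact absurd (by rw [← h1, enr]; exact Or.inl rfl) h
      have hbe : b ∈ e.1 := by
        by_contra h
        apply ms
        rw [mem_singleton, mem_singleton]
        constructor
        · intro h1
          exact absurd (by rw [← h1, es]; exact Or.inl rfl) h
        · intro h1
          exact absurd (by rw [← h1, ens]; exact Or.inl rfl) h
      have h1 : ed (S.nxt ρ) = e := by
        by_contra h
        apply mr
        rw [mem_singleton, mem_singleton]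
        constructor
        · intro h1
          rw [← h1, er] at hbe
          rcases hbe with h2 | h2
          · exact absurd h2.symm hab
          · exact absurd h2.symm hxb
        · intro h1
          exact absurd h1 h
      have h2 : ed (S.nxt σ) = e := by
        by_contra h
        apply ms
        rw [mem_singleton, mem_singleton]
        constructor
        · intro h1
          rw [← h1, es] at hae
          rcases hae with h2 | h2
          · exact absurd h2 hab
          · exact absurd h2.symm hxa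
        · intro h1
          exact absurd h1 h
      have h3 : (S.nxt ρ).1.snd = b := by
        have h4 := hbe
        rw [← h1, enr] at h4
        rcases h4 with h4 | h4
        · exact absurd h4.symm hab
        · exact h4.symm
      have h4 : (S.nxt σ).1.snd = a := by
        have h4 := hae
        rw [← h2, ens] at h4
        rcases h4 with h4 | h4
        · exact absurd h4 hab
        · exact h4.symm
      constructor
      · rcases DcU_sd τ (S.nxt ρ) (nr1.trans t1.symm) (h3.trans t2.symm) with h | h
        · exfalso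
          apply hrt
          rw [← fr, h]
        · exact h
      · rcases DcU_sd (across τ) (S.nxt σ) (ns1.trans u1.symm) (h4.trans u2.symm) with h | h
        · exfalso
          apply hrt
          rw [hf, ← fs, h, hfu]
        · exact h
    · right
      have hAm : ∀ p : Flag G, ed p ∈ A ↔ y ∈ (ed p).1 := by
        intro p
        rw [hA]
        unfold rk
        rw [mem_filter]
        constructor
        · rintro ⟨-, v, hv, hv2⟩
          rw [mem_singleton] at hv
          rw [← hv]
          exact hv2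
        · intro h
          exact ⟨mem_univ _, y, mem_singleton_self y, h⟩
      rw [hAm, hAm] at mr mt ms mu
      rw [er, enr] at mr
      rw [et, ent] at mt
      rw [es, ens] at ms
      rw [eu, enu] at mu
      have hya : y ≠ a := by
        intro h
        exact mr ⟨fun _ => Or.inl h, fun _ => Or.inl h⟩
      have hyb : y ≠ b := by
        intro h
        exact ms ⟨fun _ => Or.inl h, fun _ => Or.inl h⟩
      by_cases hyx : y = x
      · left
        have h1 : y = (S.nxt τ).1.snd := by
          by_contra h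
          exact mt ⟨fun h1 => h1.elim (fun h2 => absurd h2 hya) (fun h2 => absurd h2 hyb),
            fun h1 => h1.elim (fun h2 => absurd h2 hya) (fun h2 => absurd h2 h)⟩
        have h2 : y = (S.nxt (across τ)).1.snd := by
          by_contra h
          exact mu ⟨fun h1 => h1.elim (fun h2 => absurd h2 hyb) (fun h2 => absurd h2 hya),
            fun h1 => h1.elim (fun h2 => absurd h2 hyb) (fun h2 => absurd h2 h)⟩
        constructor
        · rcases DcU_sd ρ (S.nxt τ) (nt1.trans r1.symm) (h1.symm.trans (hyx.trans r2.symm)) with h | h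
          · exfalso
            apply hrt
            rw [← ft, h]
          · rw [← h, S.nxt_nxt]
        · rcases DcU_sd σ (S.nxt (across τ)) (nu1.trans s1.symm) (h2.symm.trans (hyx.trans s2.symm)) with h | h
          · exfalso
            apply hrt
            rw [hf, ← h, fu, hfu]
          · rw [← h, S.nxt_nxt]
      · right
        have h1 : y = (S.nxt τ).1.snd := by
          by_contra h
          exact mt ⟨fun h1 => h1.elim (fun h2 => absurd h2 hya) (fun h2 => absurd h2 hyb),
            fun h1 => h1.elim (fun h2 => absurd h2 hya) (fun h2 => absurd h2 h)⟩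
        have h2 : y = (S.nxt (across τ)).1.snd := by
          by_contra h
          exact mu ⟨fun h1 => h1.elim (fun h2 => absurd h2 hyb) (fun h2 => absurd h2 hya),
            fun h1 => h1.elim (fun h2 => absurd h2 hyb) (fun h2 => absurd h2 h)⟩
        have h3 : y = (S.nxt ρ).1.snd := by
          by_contra h
          exact mr ⟨fun h1 => h1.elim (fun h2 => absurd h2 hya) (fun h2 => absurd h2 hyx),
            fun h1 => h1.elim (fun h2 => absurd h2 hya) (fun h2 => absurd h2 h)⟩
        have h4 : y = (S.nxt σ).1.snd := by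
          by_contra h
          exact ms ⟨fun h1 => h1.elim (fun h2 => absurd h2 hyb) (fun h2 => absurd h2 hyx),
            fun h1 => h1.elim (fun h2 => absurd h2 hyb) (fun h2 => absurd h2 h)⟩
        have ha : a ∈ nb G y := by
          unfold nb
          rw [mem_filter]
          refine ⟨mem_univ _, ?_⟩
          have h5 := (S.nxt ρ).1.adj
          rw [show (S.nxt ρ).1.toProd.1 = a from nr1, show (S.nxt ρ).1.toProd.2 = y from h3.symm] at h5
          exact h5.symm
        have hb : b ∈ nb G y := by
          unfold nb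
          rw [mem_filter]
          refine ⟨mem_univ _, ?_⟩
          have h5 := (S.nxt σ).1.adj
          rw [show (S.nxt σ).1.toProd.1 = b from ns1, show (S.nxt σ).1.toProd.2 = y from h4.symm] at h5
          exact h5.symm
        refine ⟨y, hyx, hya, hyb, ?_, h3.symm, ?_, h4.symm, ?_⟩
        · rw [hy] at ha hb ⊢
          rw [mem_insert, mem_singleton] at ha hb
          rcases ha with rfl | rfl <;> rcases hb with rfl | rfl
          · exact absurd rfl hab
          · rfl
          · exact pair_comm _ _
          · exact absurd rfl hab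
        · rcases DcU_sd (S.nxt ρ) (S.nxt τ) (nt1.trans nr1.symm) (h1.symm.trans h3) with h | h
          · exfalso
            apply hrt
            rw [← fr, ← h, ft]
          · exact h
        · rcases DcU_sd (S.nxt σ) (S.nxt (across τ)) (nu1.trans ns1.symm) (h2.symm.trans h4) with h | h
          · exfalso
            apply hrt
            rw [hf, ← fs, ← h, fu, hfu]
          · exact h

/-- a set of flags closed under `nxt`, `side` contains all flags at the vertex -/
private theorem DcU_cl (S : GMap G) (L : Finset (Flag G)) (p0 : Flag G) (h0 : p0 ∈ L)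
    (hs : ∀ p ∈ L, side p ∈ L) (hn : ∀ p ∈ L, S.nxt p ∈ L) (q : Flag G) (hq : q.1.fst = p0.1.fst) : q ∈ L := by
  have h := Pool.Agent.Helper35.OG.vertex_const S (A := Prop) (fun p => p ∈ L)
    (fun p => propext ⟨fun h => by rw [← S.nxt_nxt p]; exact hn _ h, hn p⟩)
    (fun p => propext ⟨fun h => by rw [← Pool.Agent.Helper35.OG.side_side p]; exact hs _ h, hs p⟩) hq
  have h1 : (q ∈ L) = (p0 ∈ L) := h
  rw [h1]
  exact h0

private theorem DcU_all (hG : G.Connected) (S : GMap G) (E0 : Finset G.edgeSet) (Z : Finset V)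
    (hA : ∀ p : Flag G, p.1.fst ∈ Z → ed p ∈ E0) (hB : ∀ p : Flag G, ed p ∈ E0 → p.1.fst ∈ Z)
    (p0 : Flag G) (h0 : ed p0 ∈ E0) (e : G.edgeSet) : e ∈ E0 := by
  obtain ⟨q, rfl⟩ := Pool.Agent.BEO.ed_surj e
  have h := Pool.Agent.Helper35.OG.all_const S hG (A := Prop) (fun p => ed p ∈ E0)
    (fun p => propext ⟨fun h => hA p (by
        have h1 := hB _ h
        rw [S.nxt_fst] at h1
        exact h1), fun h => hA _ (by
        rw [S.nxt_fst]
        exact hB p h)⟩)
    (fun p => rfl)
    (fun p => by
      show (ed (across p) ∈ E0) = (ed p ∈ E0)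
      rw [Pool.Agent.BEO.ed_across]) q p0
  have h1 : (ed q ∈ E0) = (ed p0 ∈ E0) := h
  rw [h1]
  exact h0

private theorem DcU_eg (S : GMap G) (E0 : Finset G.edgeSet) (hE : ∀ e, e ∈ E0) (Z : Finset V) (n : ℕ)
    (f : Fin n → S.Face) (hf : Function.Injective f) (h : E0.card + 2 ≤ Z.card + n) : S.eg ≤ 0 := by
  have h1 : Nat.card G.edgeSet ≤ E0.card := by
    rw [Nat.card_eq_fintype_card, ← card_univ]
    exact card_le_card fun e _ => hE e
  have h2 : Z.card ≤ Nat.card V := by
    rw [Nat.card_eq_fintype_card]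
    exact card_le_univ Z
  have h3 : n ≤ Nat.card S.Face := by
    have h4 : Finite S.Face := Quot.finite _
    have h5 := Nat.card_le_card_of_injective f hf
    rw [Nat.card_eq_fintype_card, Fintype.card_fin] at h5
    exact h5
  unfold GMap.eg
  omega

theorem no_tri [Nontrivial V] (hG : G.Connected) (S : GMap G) (h1 : 1 ≤ S.eg) (D : Finset G.edgeSet)
    (K : Finset (Flag G)) (hK : NC S K) (hgd : Good S D K) (x a b : V) (hab : a ≠ b) (hadj : G.Adj a b)
    (hx : nb G x = {a, b}) (hD : ∀ p : Flag G, p.1.fst = a ∨ p.1.fst = x → ed p ∈ D ∧ p ∉ K)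
    (hb : ∀ p : Flag G, p.1.fst = b → p.1.snd = x ∨ p.1.snd = a → p ∉ K ∧ ed (S.nxt p) ∈ D) : False := by
  have hxa' : G.Adj x a := by
    have h : a ∈ nb G x := by
      rw [hx]
      exact mem_insert_self _ _
    exact (mem_filter.1 h).2
  have hxb' : G.Adj x b := by
    have h : b ∈ nb G x := by
      rw [hx]
      exact mem_insert_of_mem (mem_singleton_self _)
    exact (mem_filter.1 h).2
  have hxa : x ≠ a := hxa'.ne
  have hxb : x ≠ b := hxb'.ne
  have hxn : ∀ v, G.Adj x v → v = a ∨ v = b := by
    intro v hv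
    have h : v ∈ nb G x := mem_filter.2 ⟨mem_univ _, hv⟩
    rw [hx, mem_insert, mem_singleton] at h
    exact h
  -- good flags
  have oka : ∀ p : Flag G, p.1.fst = a → DcU_Ok S D K p := by
    intro p hp
    exact ⟨(hD p (Or.inl hp)).1, (hD _ (Or.inl ((S.nxt_fst p).trans hp))).1, (hD p (Or.inl hp)).2⟩
  have okb : ∀ p : Flag G, p.1.fst = b → p.1.snd = x ∨ p.1.snd = a → DcU_Ok S D K p := by
    intro p hp hp2
    refine ⟨?_, (hb p hp hp2).2, (hb p hp hp2).1⟩
    rw [← Pool.Agent.BEO.ed_across]
    refine (hD (across p) ?_).1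
    rcases hp2 with h | h
    · exact Or.inr h
    · exact Or.inl h
  have hZ : ∀ p q : Flag G, p.1.fst = a → q.1.fst = a → S.face p = S.face q → q = p ∨ q = S.nxt p :=
    fun p q hp hq hf => DcU_zero hG S D K hK hgd p q (hp.trans hq.symm) hf (oka p hp) (oka q hq)
  -- at `x`, `nxt` changes the neighbour
  have hnx : ∀ p : Flag G, p.1.fst = x → (S.nxt p).1.snd ≠ p.1.snd := by
    intro p hp h
    have h2 : S.nxt p = side p := by
      rcases DcU_sd p (S.nxt p) (S.nxt_fst p) h with h3 | h3
      · exact absurd h3 (S.nxt_ne p)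
      · exact h3
    have h3 : S.nxt (side p) = p := by rw [← h2, S.nxt_nxt]
    have hcl := DcU_cl S {p, side p} p (mem_insert_self _ _)
      (by
        intro q hq
        rw [mem_insert, mem_singleton] at hq ⊢
        rcases hq with rfl | rfl
        · exact Or.inr rfl
        · exact Or.inl (Pool.Agent.Helper35.OG.side_side p))
      (by
        intro q hq
        rw [mem_insert, mem_singleton] at hq ⊢
        rcases hq with rfl | rfl
        · exact Or.inr h2
        · exact Or.inl h3)
    have key : ∀ v, G.Adj x v → v = p.1.snd := by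
      intro v hv
      have h4 := hcl ((⟨(x, v), hv⟩ : G.Dart), true) hp.symm
      rw [mem_insert, mem_singleton] at h4
      rcases h4 with h4 | h4
      · rw [← h4]
      · have h5 : (side p).1.snd = p.1.snd := rfl
        rw [← h5, ← h4]
    exact hab ((key a hxa').trans (key b hxb').symm)
  -- the flag at `b` opposite to a flag at `a` over `ax`
  have sg : ∀ ρ : Flag G, ρ.1.fst = a → ρ.1.snd = x → (across (S.nxt (across ρ))).1.fst = b ∧
      (across (S.nxt (across ρ))).1.snd = x ∧ S.face ρ = S.face (across (S.nxt (across ρ))) := by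
    intro ρ hr1 hr2
    have h2 : (across ρ).1.fst = x := hr2
    have h3 : (S.nxt (across ρ)).1.fst = x := (S.nxt_fst _).trans h2
    refine ⟨?_, h3, ?_⟩
    · show (S.nxt (across ρ)).1.snd = b
      have h4 : G.Adj x (S.nxt (across ρ)).1.snd := by
        have h5 := (S.nxt (across ρ)).1.adj
        rw [show (S.nxt (across ρ)).1.toProd.1 = x from h3] at h5
        exact h5
      rcases hxn _ h4 with h5 | h5
      · exact absurd (h5.trans hr1.symm) (hnx (across ρ) h2)
      · exact h5
    · rw [Pool.Agent.Helper35.OG.face_across, Pool.Agent.Helper35.OG.face_nxt, Pool.Agent.Helper35.OG.face_across]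
  have sg2 : ∀ ρ : Flag G, ρ.1.fst = a → ρ.1.snd = x →
      across (S.nxt (across (side ρ))) = side (across (S.nxt (across ρ))) := by
    intro ρ hr1 hr2
    obtain ⟨h2, h3, -⟩ := sg ρ hr1 hr2
    obtain ⟨h4, h5, -⟩ := sg (side ρ) hr1 hr2
    rcases DcU_sd _ _ (h4.trans h2.symm) (h5.trans h3.symm) with h | h
    · exfalso
      have h6 := congrArg across h
      rw [Pool.Agent.Helper35.OG.across_across, Pool.Agent.Helper35.OG.across_across] at h6
      have h7 := congrArg across (Pool.Agent.Helper35.OG.nxt_inj S h6)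
      rw [Pool.Agent.Helper35.OG.across_across, Pool.Agent.Helper35.OG.across_across] at h7
      exact Pool.Agent.Helper35.OG.side_ne ρ h7
    · exact h
  have one : ∀ ρ τ : Flag G, ρ.1.fst = a → ρ.1.snd = x → τ.1.fst = a → τ.1.snd = b →
      (S.nxt ρ = τ ∧ S.nxt (across (S.nxt (across ρ))) = across τ) ∨
      (S.nxt ρ = side τ ∧ S.nxt (across (S.nxt (across ρ))) = across (side τ)) ∨
      (S.nxt (side ρ) = τ ∧ S.nxt (across (S.nxt (across (side ρ)))) = across τ) ∨
      ∃ y, y ≠ x ∧ y ≠ a ∧ y ≠ b ∧ nb G y = {a, b} ∧ (S.nxt ρ).1.snd = y ∧ S.nxt τ = side (S.nxt ρ) ∧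
        (S.nxt (across (S.nxt (across ρ)))).1.snd = y ∧
        S.nxt (across τ) = side (S.nxt (across (S.nxt (across ρ)))) := by
    intro ρ τ r1 r2 t1 t2
    obtain ⟨s1, s2, s3⟩ := sg ρ r1 r2
    rw [sg2 ρ r1 r2]
    exact DcU_one hG S D K hK hgd x a b hab hxa hxb ρ τ _ r1 r2 t1 t2 s1 s2 s3 (oka ρ r1) (oka τ t1)
      (okb _ s1 (Or.inl s2)) (okb _ t2 (Or.inr t1))
  -- a pair of the first kind
  have ex : ∃ ρ τ : Flag G, ρ.1.fst = a ∧ ρ.1.snd = x ∧ τ.1.fst = a ∧ τ.1.snd = b ∧ S.nxt ρ = τ ∧
      S.nxt (across (S.nxt (across ρ))) = across τ := by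
    let ρ : Flag G := ((⟨(a, x), hxa'.symm⟩ : G.Dart), true)
    let τ : Flag G := ((⟨(a, b), hadj⟩ : G.Dart), true)
    rcases one ρ τ rfl rfl rfl rfl with ⟨h2, h3⟩ | ⟨h2, h3⟩ | ⟨h2, h3⟩ | ⟨y, -, -, -, -, h2, h3, -⟩
    · exact ⟨ρ, τ, rfl, rfl, rfl, rfl, h2, h3⟩
    · exact ⟨ρ, side τ, rfl, rfl, rfl, rfl, h2, h3⟩
    · exact ⟨side ρ, τ, rfl, rfl, rfl, rfl, h2, h3⟩
    · rcases one ρ (side τ) rfl rfl rfl rfl with ⟨h4, h5⟩ | ⟨h4, h5⟩ | ⟨h4, h5⟩ | ⟨y', -, -, -, -, h4, h5, -⟩
      · exact ⟨ρ, side τ, rfl, rfl, rfl, rfl, h4, h5⟩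
      · exact ⟨ρ, side (side τ), rfl, rfl, rfl, rfl, h4, h5⟩
      · exact ⟨side ρ, side τ, rfl, rfl, rfl, rfl, h4, h5⟩
      · exfalso
        have h6 : S.nxt (side τ) = S.nxt τ := by rw [h3, h5]
        exact Pool.Agent.Helper35.OG.side_ne τ (Pool.Agent.Helper35.OG.nxt_inj S h6)
  obtain ⟨ρ, τ, r1, r2, t1, t2, hI, hJ⟩ := ex
  obtain ⟨s1, s2, s3⟩ := sg ρ r1 r2
  have hs2 := sg2 ρ r1 r2
  have htr : S.nxt τ = ρ := by rw [← hI, S.nxt_nxt]
  have hF1 : S.face ρ ≠ S.face (side ρ) := by
    intro h
    rcases hZ ρ (side ρ) r1 r1 h with h2 | h2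
    · exact Pool.Agent.Helper35.OG.side_ne ρ h2
    · rw [hI] at h2
      apply hxb
      rw [← r2, ← t2, ← h2]
      rfl
  have hss : ∀ p : Flag G, side (side p) = p := Pool.Agent.Helper35.OG.side_side
  have hxin : ∀ p : Flag G, p.1.fst = x → (across p).1.fst = a ∨ (across p).1.fst = b := by
    intro p hp
    have h5 := p.1.adj
    rw [show p.1.toProd.1 = x from hp] at h5
    exact hxn _ h5
  have eas : ∀ p : Flag G, ed (side p) = ed p := Pool.Agent.BEO.ed_side
  have eac : ∀ p : Flag G, ed (across p) = ed p := Pool.Agent.BEO.ed_across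
  have er : ∀ v, v ∈ (ed ρ).1 → v = a ∨ v = x := fun v hv => by
    rw [DcU_mem, r1, r2] at hv
    exact hv
  have et : ∀ v, v ∈ (ed τ).1 → v = a ∨ v = b := fun v hv => by
    rw [DcU_mem, t1, t2] at hv
    exact hv
  rcases one (side ρ) (side τ) r1 r2 t1 t2 with ⟨h2, h3⟩ | ⟨h2, h3⟩ | ⟨h2, h3⟩ |
    ⟨y, hyx, hya, hyb, hy, h2, h3, h4, h5⟩
  · -- three vertices
    rw [hs2] at h3
    generalize across (S.nxt (across ρ)) = σ at *
    have htr2 : S.nxt (side τ) = side ρ := by rw [← h2, S.nxt_nxt]
    have hJ2 : S.nxt (across τ) = σ := by rw [← hJ, S.nxt_nxt]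
    have h32 : S.nxt (side (across τ)) = side σ := by
      have h6 : S.nxt (side σ) = side (across τ) := h3
      rw [← h6, S.nxt_nxt]
    have es : ∀ v, v ∈ (ed σ).1 → v = b ∨ v = x := fun v hv => by
      rw [DcU_mem, s1, s2] at hv
      exact hv
    have cla := DcU_cl S {ρ, side ρ, τ, side τ} ρ (mem_insert_self _ _)
      (by
        intro q hq
        simp only [mem_insert, mem_singleton] at hq ⊢
        rcases hq with rfl | rfl | rfl | rfl
        · exact Or.inr (Or.inl rfl)
        · exact Or.inl (hss _)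
        · exact Or.inr (Or.inr (Or.inr rfl))
        · exact Or.inr (Or.inr (Or.inl (hss _))))
      (by
        intro q hq
        simp only [mem_insert, mem_singleton] at hq ⊢
        rcases hq with rfl | rfl | rfl | rfl
        · exact Or.inr (Or.inr (Or.inl hI))
        · exact Or.inr (Or.inr (Or.inr h2))
        · exact Or.inl htr
        · exact Or.inr (Or.inl htr2))
    have clb := DcU_cl S {σ, side σ, across τ, side (across τ)} σ (mem_insert_self _ _)
      (by
        intro q hq
        simp only [mem_insert, mem_singleton] at hq ⊢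
        rcases hq with rfl | rfl | rfl | rfl
        · exact Or.inr (Or.inl rfl)
        · exact Or.inl (hss _)
        · exact Or.inr (Or.inr (Or.inr rfl))
        · exact Or.inr (Or.inr (Or.inl (hss _))))
      (by
        intro q hq
        simp only [mem_insert, mem_singleton] at hq ⊢
        rcases hq with rfl | rfl | rfl | rfl
        · exact Or.inr (Or.inr (Or.inl hJ))
        · exact Or.inr (Or.inr (Or.inr h3))
        · exact Or.inl hJ2
        · exact Or.inr (Or.inl h32))
    have ea : ∀ p : Flag G, p.1.fst = a → ed p ∈ ({ed ρ, ed τ, ed σ} : Finset G.edgeSet) := by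
      intro p hp
      have h6 := cla p (hp.trans r1.symm)
      simp only [mem_insert, mem_singleton] at h6 ⊢
      rcases h6 with rfl | rfl | rfl | rfl
      · exact Or.inl rfl
      · exact Or.inl rfl
      · exact Or.inr (Or.inl rfl)
      · exact Or.inr (Or.inl rfl)
    have eb : ∀ p : Flag G, p.1.fst = b → ed p ∈ ({ed ρ, ed τ, ed σ} : Finset G.edgeSet) := by
      intro p hp
      have h6 := clb p (hp.trans s1.symm)
      simp only [mem_insert, mem_singleton] at h6 ⊢
      rcases h6 with rfl | rfl | rfl | rfl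
      · exact Or.inr (Or.inr rfl)
      · exact Or.inr (Or.inr rfl)
      · exact Or.inr (Or.inl (eac _))
      · exact Or.inr (Or.inl (eac _))
    have hall := DcU_all hG S {ed ρ, ed τ, ed σ} {a, b, x}
      (by
        intro p hp
        simp only [mem_insert, mem_singleton] at hp
        rcases hp with hp | hp | hp
        · exact ea p hp
        · exact eb p hp
        · rw [← eac p]
          rcases hxin p hp with h6 | h6
          · exact ea _ h6
          · exact eb _ h6)
      (by
        intro p hp
        have h6 : p.1.fst ∈ (ed p).1 := (DcU_mem p _).2 (Or.inl rfl)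
        simp only [mem_insert, mem_singleton] at hp ⊢
        rcases hp with hp | hp | hp
        · rw [hp] at h6
          rcases er _ h6 with h7 | h7
          · exact Or.inl h7
          · exact Or.inr (Or.inr h7)
        · rw [hp] at h6
          rcases et _ h6 with h7 | h7
          · exact Or.inl h7
          · exact Or.inr (Or.inl h7)
        · rw [hp] at h6
          rcases es _ h6 with h7 | h7
          · exact Or.inr (Or.inl h7)
          · exact Or.inr (Or.inr h7)) ρ (mem_insert_self _ _)
    have hV : ({a, b, x} : Finset V).card = 3 := by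
      rw [card_eq_three]
      exact ⟨a, b, x, hab, hxa.symm, hxb.symm, rfl⟩
    have h7 := DcU_eg S {ed ρ, ed τ, ed σ} hall {a, b, x} 2 ![S.face ρ, S.face (side ρ)]
      (by
        intro i j hij
        fin_cases i <;> fin_cases j
        · rfl
        · exact absurd hij hF1
        · exact absurd hij.symm hF1
        · rfl)
      (by
        rw [hV]
        have h8 : ({ed ρ, ed τ, ed σ} : Finset G.edgeSet).card ≤ 3 := card_le_three
        omega)
    omega
  · rw [hss] at h2
    exact Pool.Agent.Helper35.OG.side_ne ρ (Pool.Agent.Helper35.OG.nxt_inj S (h2.trans hI.symm))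
  · rw [hss] at h2
    exact Pool.Agent.Helper35.OG.side_ne τ (h2.symm.trans hI)
  · -- four vertices
    rw [hs2] at h4 h5
    generalize across (S.nxt (across ρ)) = σ at *
    have h5' : S.nxt (side (across τ)) = side (S.nxt (side σ)) := h5
    have hJ2 : S.nxt (across τ) = σ := by rw [← hJ, S.nxt_nxt]
    obtain ⟨η, hη⟩ : ∃ η, S.nxt (side ρ) = η := ⟨_, rfl⟩
    obtain ⟨θ, hθ⟩ : ∃ θ, S.nxt (side σ) = θ := ⟨_, rfl⟩
    have n1 : η.1.fst = a := by rw [← hη]; exact (S.nxt_fst _).trans r1
    have n2 : θ.1.fst = b := by rw [← hθ]; exact (S.nxt_fst _).trans s1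
    rw [hη] at h2 h3
    rw [hθ] at h4 h5'
    have hn3 : S.nxt (side η) = side τ := by rw [← h3, S.nxt_nxt]
    have hn4 : S.nxt (side θ) = side (across τ) := by rw [← h5', S.nxt_nxt]
    have hn5 : S.nxt η = side ρ := by rw [← hη, S.nxt_nxt]
    have hn6 : S.nxt θ = side σ := by rw [← hθ, S.nxt_nxt]
    have es : ∀ v, v ∈ (ed σ).1 → v = b ∨ v = x := fun v hv => by
      rw [DcU_mem, s1, s2] at hv
      exact hv
    have en : ∀ v, v ∈ (ed η).1 → v = a ∨ v = y := fun v hv => by
      rw [DcU_mem, n1, h2] at hv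
      exact hv
    have et2 : ∀ v, v ∈ (ed θ).1 → v = b ∨ v = y := fun v hv => by
      rw [DcU_mem, n2, h4] at hv
      exact hv
    have cla := DcU_cl S {ρ, side ρ, τ, side τ, η, side η} ρ (mem_insert_self _ _)
      (by
        intro q hq
        simp only [mem_insert, mem_singleton] at hq ⊢
        rcases hq with rfl | rfl | rfl | rfl | rfl | rfl
        · exact Or.inr (Or.inl rfl)
        · exact Or.inl (hss _)
        · exact Or.inr (Or.inr (Or.inr (Or.inl rfl)))
        · exact Or.inr (Or.inr (Or.inl (hss _)))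
        · exact Or.inr (Or.inr (Or.inr (Or.inr (Or.inr rfl))))
        · exact Or.inr (Or.inr (Or.inr (Or.inr (Or.inl (hss _))))))
      (by
        intro q hq
        simp only [mem_insert, mem_singleton] at hq ⊢
        rcases hq with hq | hq | hq | hq | hq | hq
        · rw [hq]; exact Or.inr (Or.inr (Or.inl hI))
        · rw [hq]; exact Or.inr (Or.inr (Or.inr (Or.inr (Or.inl hη))))
        · rw [hq]; exact Or.inl htr
        · rw [hq]; exact Or.inr (Or.inr (Or.inr (Or.inr (Or.inr h3))))
        · rw [hq]; exact Or.inr (Or.inl hn5)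
        · rw [hq]; exact Or.inr (Or.inr (Or.inr (Or.inl hn3))))
    have clb := DcU_cl S {σ, side σ, across τ, side (across τ), θ, side θ} σ (mem_insert_self _ _)
      (by
        intro q hq
        simp only [mem_insert, mem_singleton] at hq ⊢
        rcases hq with rfl | rfl | rfl | rfl | rfl | rfl
        · exact Or.inr (Or.inl rfl)
        · exact Or.inl (hss _)
        · exact Or.inr (Or.inr (Or.inr (Or.inl rfl)))
        · exact Or.inr (Or.inr (Or.inl (hss _)))
        · exact Or.inr (Or.inr (Or.inr (Or.inr (Or.inr rfl))))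
        · exact Or.inr (Or.inr (Or.inr (Or.inr (Or.inl (hss _))))))
      (by
        intro q hq
        simp only [mem_insert, mem_singleton] at hq ⊢
        rcases hq with hq | hq | hq | hq | hq | hq
        · rw [hq]; exact Or.inr (Or.inr (Or.inl hJ))
        · rw [hq]; exact Or.inr (Or.inr (Or.inr (Or.inr (Or.inl hθ))))
        · rw [hq]; exact Or.inl hJ2
        · rw [hq]; exact Or.inr (Or.inr (Or.inr (Or.inr (Or.inr h5'))))
        · rw [hq]; exact Or.inr (Or.inl hn6)
        · rw [hq]; exact Or.inr (Or.inr (Or.inr (Or.inl hn4))))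
    have ea : ∀ p : Flag G, p.1.fst = a → ed p ∈ ({ed ρ, ed τ, ed σ, ed η, ed θ} : Finset G.edgeSet) := by
      intro p hp
      have h6 := cla p (hp.trans r1.symm)
      simp only [mem_insert, mem_singleton] at h6 ⊢
      rcases h6 with h6 | h6 | h6 | h6 | h6 | h6
      · exact Or.inl (by rw [h6])
      · exact Or.inl (by rw [h6]; rfl)
      · exact Or.inr (Or.inl (by rw [h6]))
      · exact Or.inr (Or.inl (by rw [h6]; rfl))
      · exact Or.inr (Or.inr (Or.inr (Or.inl (by rw [h6]))))
      · exact Or.inr (Or.inr (Or.inr (Or.inl (by rw [h6]; rfl))))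
    have eb : ∀ p : Flag G, p.1.fst = b → ed p ∈ ({ed ρ, ed τ, ed σ, ed η, ed θ} : Finset G.edgeSet) := by
      intro p hp
      have h6 := clb p (hp.trans s1.symm)
      simp only [mem_insert, mem_singleton] at h6 ⊢
      rcases h6 with h6 | h6 | h6 | h6 | h6 | h6
      · exact Or.inr (Or.inr (Or.inl (by rw [h6])))
      · exact Or.inr (Or.inr (Or.inl (by rw [h6]; rfl)))
      · exact Or.inr (Or.inl (by rw [h6, eac]))
      · exact Or.inr (Or.inl (by rw [h6, eas, eac]))
      · exact Or.inr (Or.inr (Or.inr (Or.inr (by rw [h6]))))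
      · exact Or.inr (Or.inr (Or.inr (Or.inr (by rw [h6]; rfl))))
    have hyin : ∀ p : Flag G, p.1.fst = y → (across p).1.fst = a ∨ (across p).1.fst = b := by
      intro p hp
      have h6 := p.1.adj
      rw [show p.1.toProd.1 = y from hp] at h6
      have h7 : p.1.toProd.2 ∈ nb G y := mem_filter.2 ⟨mem_univ _, h6⟩
      rw [hy, mem_insert, mem_singleton] at h7
      exact h7
    have hall := DcU_all hG S {ed ρ, ed τ, ed σ, ed η, ed θ} {a, b, x, y}
      (by
        intro p hp
        simp only [mem_insert, mem_singleton] at hp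
        rcases hp with hp | hp | hp | hp
        · exact ea p hp
        · exact eb p hp
        · rw [← eac p]
          rcases hxin p hp with h6 | h6
          · exact ea _ h6
          · exact eb _ h6
        · rw [← eac p]
          rcases hyin p hp with h6 | h6
          · exact ea _ h6
          · exact eb _ h6)
      (by
        intro p hp
        have h6 : p.1.fst ∈ (ed p).1 := (DcU_mem p _).2 (Or.inl rfl)
        simp only [mem_insert, mem_singleton] at hp ⊢
        rcases hp with hp | hp | hp | hp | hp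
        · rw [hp] at h6
          rcases er _ h6 with h7 | h7
          · exact Or.inl h7
          · exact Or.inr (Or.inr (Or.inl h7))
        · rw [hp] at h6
          rcases et _ h6 with h7 | h7
          · exact Or.inl h7
          · exact Or.inr (Or.inl h7)
        · rw [hp] at h6
          rcases es _ h6 with h7 | h7
          · exact Or.inr (Or.inl h7)
          · exact Or.inr (Or.inr (Or.inl h7))
        · rw [hp] at h6
          rcases en _ h6 with h7 | h7
          · exact Or.inl h7
          · exact Or.inr (Or.inr (Or.inr h7))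
        · rw [hp] at h6
          rcases et2 _ h6 with h7 | h7
          · exact Or.inr (Or.inl h7)
          · exact Or.inr (Or.inr (Or.inr h7))) ρ (mem_insert_self _ _)
    have hV : ({a, b, x, y} : Finset V).card = 4 := by
      rw [card_insert_of_notMem, card_insert_of_notMem, card_insert_of_notMem, card_singleton]
      · rw [mem_singleton]
        exact hyx.symm
      · rw [mem_insert, mem_singleton, not_or]
        exact ⟨hxb.symm, hyb.symm⟩
      · rw [mem_insert, mem_insert, mem_singleton, not_or, not_or]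
        exact ⟨hab, hxa.symm, hya.symm⟩
    have hF2 : S.face ρ ≠ S.face (side τ) := by
      intro h
      rcases hZ ρ (side τ) r1 t1 h with h6 | h6
      · apply hxb
        rw [← r2, ← t2, ← h6]
        rfl
      · rw [hI] at h6
        exact Pool.Agent.Helper35.OG.side_ne τ h6
    have hF3 : S.face (side ρ) ≠ S.face (side τ) := by
      intro h
      rcases hZ (side ρ) (side τ) r1 t1 h with h6 | h6
      · apply hxb
        rw [← r2, ← t2]
        exact (congrArg (fun p : Flag G => p.1.snd) h6).symm
      · rw [hη] at h6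
        apply hyb
        rw [← h2, ← h6]
        exact t2
    have h7 := DcU_eg S {ed ρ, ed τ, ed σ, ed η, ed θ} hall {a, b, x, y} 3
      ![S.face ρ, S.face (side ρ), S.face (side τ)]
      (by
        intro i j hij
        fin_cases i <;> fin_cases j
        · rfl
        · exact absurd hij hF1
        · exact absurd hij hF2
        · exact absurd hij.symm hF1
        · rfl
        · exact absurd hij hF3
        · exact absurd hij.symm hF2
        · exact absurd hij.symm hF3
        · rfl)
      (by
        rw [hV]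
        have h8 : ({ed ρ, ed τ, ed σ, ed η, ed θ} : Finset G.edgeSet).card ≤ 5 := card_le_five
        omega)
    omega

end Pool.Agent.FGT
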