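import Pool.Agent.FGT.DcU

/-!
# FGT-DcV: the boundary vertices of a good component
-/

set_option autoImplicit false

open Finset
open scoped Classical

namespace Pool.Agent.FGT

open Pool.Agent.Helper35.OG (Flag GMap across side)
open Pool.Agent.BEO (F2 ed rp cyc ev bdF nb)

variable {V : Type} {G : SimpleGraph V} [Fintype V]

private theorem dcv_mem (p : Flag G) (v : V) : v ∈ (ed p).1 ↔ v = p.1.fst ∨ v = p.1.snd := by
  show v ∈ p.1.edge ↔ _
  unfold SimpleGraph.Dart.edge
  exact Sym2.mem_iff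

private theorem dcv_flag (e : G.edgeSet) (v : V) (h : v ∈ e.1) : ∃ p : Flag G, p.1.fst = v ∧ ed p = e := by
  obtain ⟨q, rfl⟩ := Pool.Agent.BEO.ed_surj e
  rcases (dcv_mem q v).1 h with h | h
  · exact ⟨q, h.symm, rfl⟩
  · exact ⟨across q, h.symm, Pool.Agent.BEO.ed_across q⟩

private theorem dcv_cl (S : GMap G) {K : Finset (Flag G)} {D : Finset G.edgeSet} (hD : Cm S K D) {p : Flag G}
    (hp : ed p ∈ D) (h : p ∉ K) : ed (S.nxt p) ∈ D :=
  (hD.2 _ hp _).2 (Relation.EqvGen.rel _ _ ⟨p, h, rfl, rfl⟩)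

private theorem dcv_all (S : GMap G) (K : Finset (Flag G)) (D : Finset G.edgeSet) (hD : Cm S K D) (v : V)
    (hv : ∀ p ∈ K, ed p ∈ D → v ∉ (ed p).1) (e : G.edgeSet) (he : e ∈ D) (hve : v ∈ e.1) :
    ∀ p : Flag G, p.1.fst = v → ed p ∈ D ∧ p ∉ K := by
  have hK' : ∀ p : Flag G, p.1.fst = v → ed p ∈ D → p ∉ K := by
    intro p hp hpD hpK
    exact hv p hpK hpD ((dcv_mem p v).2 (Or.inl hp.symm))
  have key : ∀ p : Flag G, p.1.fst = v → ed p ∈ D := by
    intro p hp
    obtain ⟨q, hq, hqe⟩ := dcv_flag e v hve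
    have h1 := Pool.Agent.Helper35.OG.vertex_const S (fun r => r.1.fst = v → ed r ∈ D) ?_ ?_ (hq.trans hp.symm)
    · refine (iff_of_eq h1).1 (fun _ => ?_) hp
      rw [hqe]
      exact he
    · intro r
      refine propext ⟨fun h hr => ?_, fun h hr => ?_⟩
      · have h2 : (S.nxt r).1.fst = v := by
          rw [S.nxt_fst]
          exact hr
        have h3 := h h2
        have h4 := dcv_cl S hD h3 (hK' _ h2 h3)
        rwa [S.nxt_nxt] at h4
      · have hr' : r.1.fst = v := by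
          rw [← S.nxt_fst]
          exact hr
        exact dcv_cl S hD (h hr') (hK' _ hr' (h hr'))
    · intro r
      rfl
  exact fun p hp => ⟨key p hp, hK' p hp (key p hp)⟩

private theorem dcv_in {K : Finset (Flag G)} {D : Finset G.edgeSet} {p : Flag G} (hp : p ∈ K) (hpD : ed p ∈ D) {v : V}
    (hv : v ∈ (ed p).1) : v ∈ bI K D := by
  unfold bI
  rw [Finset.mem_filter]
  exact ⟨Finset.mem_univ _, p, hp, hpD, Or.inl hv⟩

private theorem dcv_in2 {K : Finset (Flag G)} {D : Finset G.edgeSet} {p : Flag G} (hp : p ∈ K) (hpD : ed p ∈ D)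
    {v x : V} (hx : x ∈ (ed p).1) (hc : (nb G x).card = 2) (hv : v ∈ nb G x) : v ∈ bI K D := by
  unfold bI
  rw [Finset.mem_filter]
  exact ⟨Finset.mem_univ _, p, hp, hpD, Or.inr ⟨x, hx, hc, hv⟩⟩

theorem bi_card (K : Finset (Flag G)) (D : Finset G.edgeSet) : (bI K D).card ≤ 6 * K.card := by
  have h1 : bI K D ⊆ K.biUnion fun p => ({p.1.fst, p.1.snd} ∪ (if (nb G p.1.fst).card = 2 then nb G p.1.fst else ∅)) ∪
      (if (nb G p.1.snd).card = 2 then nb G p.1.snd else ∅) := by
    intro v hv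
    unfold bI at hv
    rw [Finset.mem_filter] at hv
    obtain ⟨-, p, hp, -, h⟩ := hv
    rw [Finset.mem_biUnion]
    refine ⟨p, hp, ?_⟩
    rw [Finset.mem_union, Finset.mem_union, Finset.mem_insert, Finset.mem_singleton]
    rcases h with h | ⟨x, hx, hc, hv⟩
    · exact Or.inl (Or.inl ((dcv_mem p v).1 h))
    · rcases (dcv_mem p x).1 hx with rfl | rfl
      · rw [if_pos hc]
        exact Or.inl (Or.inr hv)
      · rw [if_pos hc (t := nb G p.1.snd)]
        exact Or.inr hv
  have h2 : ∀ x : V, (if (nb G x).card = 2 then nb G x else ∅).card ≤ 2 := by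
    intro x
    split_ifs with h
    · omega
    · rw [Finset.card_empty]
      omega
  refine (Finset.card_le_card h1).trans ((Finset.card_biUnion_le_card_mul _ _ 6 fun p _ => ?_).trans (by omega))
  have h3 : ({p.1.fst, p.1.snd} : Finset V).card ≤ 2 := Finset.card_le_two
  have h4 := Finset.card_union_le ({p.1.fst, p.1.snd} : Finset V) (if (nb G p.1.fst).card = 2 then nb G p.1.fst else ∅)
  have h5 := Finset.card_union_le (({p.1.fst, p.1.snd} : Finset V) ∪ (if (nb G p.1.fst).card = 2 then nb G p.1.fst else ∅))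
    (if (nb G p.1.snd).card = 2 then nb G p.1.snd else ∅)
  have h6 := h2 p.1.fst
  have h7 := h2 p.1.snd
  omega

theorem bi_all (S : GMap G) (K : Finset (Flag G)) (hK : NC S K) (D : Finset G.edgeSet) (hD : Cm S K D) (v : V)
    (hv : v ∉ bI K D) (e : G.edgeSet) (he : e ∈ D) (hve : v ∈ e.1) : ∀ p : Flag G, p.1.fst = v → ed p ∈ D ∧ p ∉ K := by
  exact dcv_all S K D hD v (fun p hp hpD h => hv (dcv_in hp hpD h)) e he hve

theorem bi_two [Nontrivial V] (hG : G.Connected) (S : GMap G) (hr : Reduced S) (h1 : 1 ≤ S.eg) (K : Finset (Flag G))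
    (hK : NC S K) (D : Finset G.edgeSet) (hD : Cm S K D) (hgd : Good S D K) (x : V) (hx : (nb G x).card = 2)
    (e : G.edgeSet) (he : e ∈ D) (hxe : x ∈ e.1) : nb G x ⊆ bI K D := by
  obtain ⟨a', b', hab', hadj', hnb'⟩ := deg_two hG S hr h1 x hx
  intro a ha
  by_contra hna
  have hex : ∃ b, a ≠ b ∧ G.Adj a b ∧ nb G x = {a, b} := by
    rw [hnb', Finset.mem_insert, Finset.mem_singleton] at ha
    rcases ha with rfl | rfl
    · exact ⟨b', hab', hadj', hnb'⟩
    · exact ⟨a', hab'.symm, hadj'.symm, by rw [hnb', Finset.pair_comm]⟩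
  obtain ⟨b, hab, hadj, hnb⟩ := hex
  have hx0 : ∀ p ∈ K, ed p ∈ D → x ∉ (ed p).1 := fun p hp hpD h => hna (dcv_in2 hp hpD h hx ha)
  have hxD := dcv_all S K D hD x hx0 e he hxe
  have hxa : G.Adj x a := by
    unfold nb at ha
    rw [Finset.mem_filter] at ha
    exact ha.2
  have haD : ∀ p : Flag G, p.1.fst = a → ed p ∈ D ∧ p ∉ K := by
    have h2 := (hxD ((⟨(x, a), hxa⟩ : G.Dart), true) rfl).1
    exact bi_all S K hK D hD a hna _ h2 ((dcv_mem _ a).2 (Or.inr rfl))
  refine no_tri hG S h1 D K hK hgd x a b hab hadj hnb ?_ ?_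
  · rintro p (hp | hp)
    · exact haD p hp
    · exact hxD p hp
  · rintro p hp (hp' | hp')
    · have h2 : ed p ∈ D := by
        rw [← Pool.Agent.BEO.ed_across]
        exact (hxD (across p) hp').1
      have h3 : p ∉ K := fun h => hx0 p h h2 ((dcv_mem p x).2 (Or.inr hp'.symm))
      exact ⟨h3, dcv_cl S hD h2 h3⟩
    · have h2 : ed p ∈ D := by
        rw [← Pool.Agent.BEO.ed_across]
        exact (haD (across p) hp').1
      have h3 : p ∉ K := fun h => hna (dcv_in h h2 ((dcv_mem p a).2 (Or.inr hp'.symm)))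
      exact ⟨h3, dcv_cl S hD h2 h3⟩

end Pool.Agent.FGT
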