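import Pool.Agent.FGT.DcV
import Pool.Agent.FGT.SmE

/-!
# FGT-DcX: the leaves

The bridges over good components are leaves.
-/

set_option autoImplicit false

open Finset
open scoped Classical

namespace Pool.Agent.FGT

open Pool.Agent.Helper35.OG (Flag GMap across side across_fst face_nxt face_across)
open Pool.Agent.BEO (F2 ed rp cyc ev bdF nb ed_across)

variable {V : Type} {G : SimpleGraph V} [Fintype V]

omit [Fintype V] in
private theorem fst_mem (p : Flag G) : p.1.fst ∈ (ed p).1 := by
  change p.1.fst ∈ s(p.1.fst, p.1.snd)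
  exact Sym2.mem_mk_left _ _

omit [Fintype V] in
private theorem ed_mem {p : Flag G} {x : V} (h : x ∈ (ed p).1) : x = p.1.fst ∨ x = p.1.snd := by
  change x ∈ s(p.1.fst, p.1.snd) at h
  exact Sym2.mem_iff.1 h

omit [Fintype V] in
private theorem ed_same {p q : Flag G} (h : ed p = ed q) (h1 : p.1.fst = q.1.fst) : q = p ∨ q = side p := by
  have h2 : p.1.edge = q.1.edge := congrArg Subtype.val h
  rw [SimpleGraph.dart_edge_eq_iff] at h2
  have h3 : p.1 = q.1 := by
    rcases h2 with h2 | h2
    · exact h2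
    · exfalso
      have h4 : p.1.fst = q.1.snd := by rw [h2]; rfl
      exact q.1.adj.ne (h1.symm.trans h4)
  by_cases h4 : q.2 = p.2
  · exact Or.inl (Prod.ext h3.symm h4)
  · refine Or.inr (Prod.ext h3.symm ?_)
    change q.2 = !p.2
    cases hq : q.2 <;> cases hp : p.2 <;> simp_all

omit [Fintype V] in
private theorem ed_opp {p q : Flag G} (h : ed p = ed q) (h1 : p.1.fst ≠ q.1.fst) :
    q = across p ∨ q = side (across p) := by
  have h2 : p.1.edge = q.1.edge := congrArg Subtype.val h
  rw [SimpleGraph.dart_edge_eq_iff] at h2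
  refine ed_same ((ed_across p).trans h) ?_
  rw [across_fst]
  rcases h2 with h2 | h2
  · exact absurd (by rw [h2]) h1
  · rw [h2]; rfl

omit [Fintype V] in
private theorem side_across_comm (p : Flag G) : side (across p) = across (side p) := rfl

private theorem mem_rk {J : Finset V} {e : G.edgeSet} : e ∈ rk J ↔ ∃ v ∈ J, v ∈ e.1 := by
  unfold rk
  rw [mem_filter]
  exact ⟨fun h => h.2, fun h => ⟨mem_univ _, h⟩⟩

private theorem mem_dlt {S : GMap G} {A : Finset G.edgeSet} {p : Flag G} :
    p ∈ dlt S A ↔ ¬ (ed p ∈ A ↔ ed (S.nxt p) ∈ A) := by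
  unfold dlt
  rw [mem_filter]
  exact ⟨fun h => h.2, fun h => ⟨mem_univ _, h⟩⟩

omit [Fintype V] in
private theorem mem_cr {S : GMap G} {p x : Flag G} : x ∈ cr S p ↔ x = p ∨ x = S.nxt p := by
  unfold cr
  rw [mem_insert, mem_singleton]

private theorem mem_nb {x v : V} : v ∈ nb G x ↔ G.Adj x v := by
  unfold nb
  rw [mem_filter]
  exact ⟨fun h => h.2, fun h => ⟨mem_univ _, h⟩⟩

/-- of the two flags of a corner of the cut of one edge, one is over the edge -/
private theorem one_over {S : GMap G} {e : G.edgeSet} {p : Flag G} (h : p ∈ dlt S {e}) :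
    ∃ r : Flag G, ed r = e ∧ (r = p ∨ r = S.nxt p) := by
  rw [mem_dlt, mem_singleton, mem_singleton] at h
  by_cases h1 : ed p = e
  · exact ⟨p, h1, Or.inl rfl⟩
  · by_cases h2 : ed (S.nxt p) = e
    · exact ⟨S.nxt p, h2, Or.inr rfl⟩
    · exact absurd (iff_of_false h1 h2) h

omit [Fintype V] in
private theorem fst_of {S : GMap G} {p r : Flag G} (h : r = p ∨ r = S.nxt p) : r.1.fst = p.1.fst := by
  rcases h with h | h
  · rw [h]
  · rw [h, S.nxt_fst]

omit [Fintype V] in
private theorem face_of {S : GMap G} {p r : Flag G} (h : r = p ∨ r = S.nxt p) : S.face r = S.face p := by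
  rcases h with h | h
  · rw [h]
  · rw [h, face_nxt]

omit [Fintype V] in
private theorem back_of {S : GMap G} {p r : Flag G} (h : r = p ∨ r = S.nxt p) : p = r ∨ p = S.nxt r := by
  rcases h with h | h
  · exact Or.inl h.symm
  · right
    rw [h, S.nxt_nxt]

omit [Fintype V] in
private theorem face_side_across (S : GMap G) (p : Flag G) : S.face (side (across p)) = S.face (side p) := by
  rw [side_across_comm, face_across]

/-- the case of one edge -/
private theorem two_edge (S : GMap G) (e : G.edgeSet) (p q p' q' : Flag G) (h1 : p.1.fst = q.1.fst)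
    (h2 : p'.1.fst = q'.1.fst) (h3 : p.1.fst ≠ p'.1.fst) (h4 : S.face p = S.face p') (h5 : S.face q = S.face q')
    (h6 : S.face p ≠ S.face q) (hp : p ∈ dlt S {e}) (hq : q ∈ dlt S {e}) (hp' : p' ∈ dlt S {e})
    (hq' : q' ∈ dlt S {e}) : ∃ r : Flag G, r.1.fst = p.1.fst ∧ r.1.snd = p'.1.fst ∧ ed r = e ∧ (r = p ∨ r = S.nxt p) ∧
      (p = r ∨ p = S.nxt r) ∧ (q = side r ∨ q = S.nxt (side r)) ∧
      (p' = across r ∨ p' = S.nxt (across r)) ∧ (q' = side (across r) ∨ q' = S.nxt (side (across r))) := by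
  obtain ⟨r, re, rp'⟩ := one_over hp
  obtain ⟨s, se, sq⟩ := one_over hq
  obtain ⟨r', re', rp''⟩ := one_over hp'
  obtain ⟨s', se', sq'⟩ := one_over hq'
  have fr := face_of rp'
  have fs := face_of sq
  have fr' := face_of rp''
  have fs' := face_of sq'
  have vr := fst_of rp'
  have vs := fst_of sq
  have vr' := fst_of rp''
  have vs' := fst_of sq'
  have hs : s = side r := by
    rcases ed_same (re.trans se.symm) (vr.trans (h1.trans vs.symm)) with h | h
    · exfalso
      apply h6
      rw [← fr, ← fs, h]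
    · exact h
  have fside : S.face (side r) = S.face q := by rw [← hs, fs]
  have hr' : r' = across r := by
    have hne : r.1.fst ≠ r'.1.fst := by
      rw [vr, vr']
      exact h3
    rcases ed_opp (re.trans re'.symm) hne with h | h
    · exact h
    · exfalso
      apply h6
      rw [h4, ← fr', h, face_side_across, fside]
  have hs' : s' = side (across r) := by
    have hne : r.1.fst ≠ s'.1.fst := by
      rw [vr, vs', ← h2]
      exact h3
    rcases ed_opp (re.trans se'.symm) hne with h | h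
    · exfalso
      apply h6
      rw [h5, ← fs', h, face_across, fr]
    · exact h
  refine ⟨r, vr, ?_, re, rp', back_of rp', ?_, ?_, ?_⟩
  · rw [← vr', hr', across_fst]
  · rw [← hs]
    exact back_of sq
  · rw [← hr']
    exact back_of rp''
  · rw [← hs']
    exact back_of sq'

theorem mk_leaf [Nontrivial V] (hG : G.Connected) (S : GMap G) (hr : Reduced S) (h1 : 1 ≤ S.eg) (k : ℕ) (hk : S.eg ≤ k)
    (K : Finset (Flag G)) (hK : NC S K) (hc : K.card ≤ 80 * k) (D : Finset G.edgeSet) (hD : Cm S K D) (hgd : Good S D K)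
    (J : Finset V) (hne : J.Nonempty)
    (hcn : ∀ u ∈ J, ∀ v ∈ J, Relation.ReflTransGen (fun x y => G.Adj x y ∧ y ∈ J) u v)
    (hi : ∀ v ∈ J, v ∉ bI K D) (hcl : ∀ v ∈ J, ∀ w, G.Adj v w → w ∈ J ∨ w ∈ bI K D) (hJ : ∃ e : G.edgeSet, brC (bI K D) e = rk J)
    (hs : (rk J : Finset G.edgeSet) ⊆ D) (h3 : ∀ x, J = {x} → 3 ≤ (nb G x).card) :
    ∃ Q : Finset (Flag G), Leaf S J Q (12000 * k) := by
  have hbI : (bI K D).card ≤ 480 * k := by
    have := bi_card K D
    omega
  have hdeg : ∀ v ∈ J, 3 ≤ (nb G v).card := by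
    intro v hv
    by_contra hlt
    have h2 := deg_ge hG S hr h1 v
    have hx : (nb G v).card = 2 := by omega
    obtain ⟨w, hw⟩ : (nb G v).Nonempty := by
      rw [← card_pos]
      omega
    rw [mem_nb] at hw
    have hxe : v ∈ (ed ((⟨(v, w), hw⟩ : G.Dart), true) : G.edgeSet).1 := fst_mem _
    have hsub := bi_two hG S hr h1 K hK D hD hgd v hx (ed ((⟨(v, w), hw⟩ : G.Dart), true)) (hs (mem_rk.2 ⟨v, hv, hxe⟩)) hxe
    have hJv : J = {v} := by
      ext u
      rw [mem_singleton]
      constructor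
      · intro hu
        rcases (Relation.ReflTransGen.cases_head (hcn v hv u hu)) with h | ⟨c, ⟨hc1, hc2⟩, _⟩
        · exact h.symm
        · exact absurd (hsub (mem_nb.2 hc1)) (hi c hc2)
      · intro hu
        rw [hu]
        exact hv
    have := h3 v hJv
    omega
  have hQ : ∀ p, p ∈ K.filter (fun p => ed p ∈ rk J ∧ ed (S.nxt p) ∈ rk J) ↔ p ∈ K ∧ ed p ∈ rk J ∧ ed (S.nxt p) ∈ rk J :=
    fun p => mem_filter
  have hgdK : ∀ p, Gd S (rk J) (K.filter (fun p => ed p ∈ rk J ∧ ed (S.nxt p) ∈ rk J)) p →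
      ∀ x, x = p ∨ x = S.nxt p → x ∉ K ∧ ed x ∈ rk J := by
    rintro p ⟨g1, g2, g3⟩ x hx
    have g4 : p ∉ K := fun h => g3 ((hQ p).2 ⟨h, g1, g2⟩)
    rcases hx with hx | hx
    · rw [hx]
      exact ⟨g4, g1⟩
    · rw [hx]
      refine ⟨fun h => g4 ?_, g2⟩
      have := hK _ h
      rwa [S.nxt_nxt] at this
  refine ⟨K.filter (fun p => ed p ∈ rk J ∧ ed (S.nxt p) ∈ rk J), hne, hcn, ?_, hdeg, ?_, ?_, ?_, ?_, ?_, ?_⟩
  · refine (card_le_card ?_).trans (hbI.trans (by omega))
    intro v hv
    rw [mem_filter] at hv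
    obtain ⟨_, hv1, w, hw, hadj⟩ := hv
    rcases hcl w hw v hadj.symm with h | h
    · exact absurd h hv1
    · exact h
  · obtain ⟨e, he⟩ := hJ
    have hsub : mix (rk J) S ⊆ MX S (bI K D) := by
      intro p hp
      unfold mix at hp
      rw [mem_filter] at hp
      obtain ⟨_, m1, m2⟩ := hp
      unfold MX
      rw [mem_filter]
      refine ⟨mem_univ _, fun hE => m2 ?_⟩
      rw [← he] at m1 ⊢
      unfold brC at m1 ⊢
      rw [mem_filter] at m1 ⊢
      exact ⟨mem_univ _, m1.2.trans _ _ _ hE⟩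
    have h2 := card_le_card hsub
    rw [mx_sum] at h2
    have h4 := smix hG S hr k hk (brs (bI K D)) (bI K D) (ptn_brs S _)
    omega
  · refine (card_le_card (filter_subset _ _)).trans (hc.trans (by omega))
  · intro p hp
    rw [hQ] at hp ⊢
    obtain ⟨q1, q2, q3⟩ := hp
    refine ⟨hK p q1, q3, ?_⟩
    rw [S.nxt_nxt]
    exact q2
  · intro p hp hpJ
    rw [hQ] at hp
    obtain ⟨q1, q2, q3⟩ := hp
    apply hi _ hpJ
    unfold bI
    rw [mem_filter]
    exact ⟨mem_univ _, p, q1, hs q2, Or.inl (fst_mem p)⟩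
  · intro p q gp gq hv hf
    by_contra hcon
    rw [not_or] at hcon
    obtain ⟨A, hA, hX⟩ := hgd (cr S p ∪ cr S q) (Or.inl ⟨p, q, hv, hf, hcon.1, hcon.2, rfl⟩) (by
      rw [Finset.disjoint_left]
      intro x hx
      rw [mem_union, mem_cr, mem_cr] at hx
      rcases hx with hx | hx
      · exact (hgdK p gp x hx).1
      · exact (hgdK q gq x hx).1) (by
      intro x hx
      rw [mem_union, mem_cr, mem_cr] at hx
      rcases hx with hx | hx
      · exact hs (hgdK p gp x hx).2
      · exact hs (hgdK q gq x hx).2)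
    have c1 := dlt_card S A
    rw [trv_mix hG S A hA, hX] at c1
    have c2 := card_union_le (cr S p) (cr S q)
    have c3 : (cr S p).card ≤ 2 := card_le_two
    have c4 : (cr S q).card ≤ 2 := card_le_two
    omega
  · intro p q p' q' gp gq gp' gq' hv hv' hvv hf hf' hff
    obtain ⟨A, hA, hX⟩ := hgd (cr S p ∪ cr S q ∪ (cr S p' ∪ cr S q'))
      (Or.inr ⟨p, q, p', q', hv, hv', hvv, hf, hf', hff, rfl⟩) (by
      rw [Finset.disjoint_left]
      intro x hx
      rw [mem_union, mem_union, mem_union, mem_cr, mem_cr, mem_cr, mem_cr] at hx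
      rcases hx with (hx | hx) | (hx | hx)
      · exact (hgdK p gp x hx).1
      · exact (hgdK q gq x hx).1
      · exact (hgdK p' gp' x hx).1
      · exact (hgdK q' gq' x hx).1) (by
      intro x hx
      rw [mem_union, mem_union, mem_union, mem_cr, mem_cr, mem_cr, mem_cr] at hx
      rcases hx with (hx | hx) | (hx | hx)
      · exact hs (hgdK p gp x hx).2
      · exact hs (hgdK q gq x hx).2
      · exact hs (hgdK p' gp' x hx).2
      · exact hs (hgdK q' gq' x hx).2)
    have mp : p ∈ dlt S A := by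
      rw [hX, mem_union, mem_union, mem_cr]
      exact Or.inl (Or.inl (Or.inl rfl))
    have mq : q ∈ dlt S A := by
      rw [hX, mem_union, mem_union, mem_cr (p := q)]
      exact Or.inl (Or.inr (Or.inl rfl))
    have mp' : p' ∈ dlt S A := by
      rw [hX, mem_union, mem_union (s := cr S p'), mem_cr (p := p')]
      exact Or.inr (Or.inl (Or.inl rfl))
    have mq' : q' ∈ dlt S A := by
      rw [hX, mem_union, mem_union (s := cr S p'), mem_cr (p := q')]
      exact Or.inr (Or.inr (Or.inl rfl))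
    rcases hA with ⟨hA1, _⟩ | ⟨x, a, b, hab, hadj, hnb, hAx⟩
    · obtain ⟨e, rfl⟩ := card_eq_one.1 hA1
      obtain ⟨r, t1, t2, t3, t4, t5, t6, t7, t8⟩ := two_edge S e p q p' q' hv hv' hvv hf hf' hff mp mq mp' mq'
      exact ⟨r, t1, t2, (hgdK p gp r t4).2, t5, t6, t7, t8⟩
    · exfalso
      have hcard : (nb G x).card = 2 := by rw [hnb, card_pair hab]
      have hxJ : x ∉ J := by
        intro h
        have := hdeg x h
        omega
      rw [hAx, mem_dlt] at mp
      have hpx : p.1.fst ≠ x := by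
        intro h
        apply mp
        refine iff_of_true (mem_rk.2 ⟨x, mem_singleton_self _, ?_⟩) (mem_rk.2 ⟨x, mem_singleton_self _, ?_⟩)
        · rw [← h]
          exact fst_mem p
        · rw [← h, ← S.nxt_fst p]
          exact fst_mem _
      obtain ⟨r, hr1, hr2⟩ : ∃ r : Flag G, (r = p ∨ r = S.nxt p) ∧ ed r ∈ rk {x} := by
        by_cases t1 : ed p ∈ rk {x}
        · exact ⟨p, Or.inl rfl, t1⟩
        · by_cases t2 : ed (S.nxt p) ∈ rk {x}
          · exact ⟨S.nxt p, Or.inr rfl, t2⟩
          · exact absurd (iff_of_false t1 t2) mp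
      have hrv := fst_of hr1
      have hrJ := (hgdK p gp r hr1).2
      have hrx : x ∈ (ed r).1 := by
        obtain ⟨y, hy, hy'⟩ := mem_rk.1 hr2
        rw [mem_singleton] at hy
        rwa [hy] at hy'
      have hsnd : x = r.1.snd := by
        rcases ed_mem hrx with h | h
        · exact absurd (hrv.symm.trans h.symm) hpx
        · exact h
      have hsub := bi_two hG S hr h1 K hK D hD hgd x hcard (ed r) (hs hrJ) hrx
      obtain ⟨v, hvJ, hve⟩ := mem_rk.1 hrJ
      rcases ed_mem hve with h | h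
      · refine hi v hvJ (hsub (mem_nb.2 ?_))
        rw [h, hsnd]
        exact r.1.adj.symm
      · rw [← hsnd] at h
        rw [h] at hvJ
        exact hxJ hvJ

end Pool.Agent.FGT
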