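import Pool.Agent.FGT.DcX
import Pool.Agent.FGT.DcC

/-!
# FGT-DcY: good components

The components of a good component without the corners between different bridges are bridges: edges, or leaves.
-/

set_option autoImplicit false

open Finset
open scoped Classical

namespace Pool.Agent.FGT

open Pool.Agent.Helper35.OG (Flag GMap across side)
open Pool.Agent.BEO (F2 ed rp cyc ev bdF nb)

variable {V : Type} {G : SimpleGraph V} [Fintype V]

private theorem dcy_mx (S : GMap G) (I : Finset V) : NC S (MX S I) := by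
  intro p hp
  unfold MX at hp ⊢
  rw [Finset.mem_filter] at hp ⊢
  refine ⟨Finset.mem_univ _, ?_⟩
  rw [S.nxt_nxt]
  exact fun h => hp.2 (Relation.EqvGen.symm _ _ h)

omit [Fintype V] in
private theorem dcy_fst (p : Flag G) : p.1.fst ∈ (ed p).1 := by
  show p.1.fst ∈ (s(p.1.fst, p.1.snd) : Sym2 V)
  exact Sym2.mem_mk_left _ _

omit [Fintype V] in
private theorem dcy_flag (e : G.edgeSet) (v : V) (h : v ∈ e.1) : ∃ p : Flag G, ed p = e ∧ p.1.fst = v := by
  obtain ⟨p, rfl⟩ := Pool.Agent.BEO.ed_surj e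
  have h1 : v ∈ (s(p.1.fst, p.1.snd) : Sym2 V) := h
  rw [Sym2.mem_iff] at h1
  rcases h1 with rfl | rfl
  · exact ⟨p, rfl, rfl⟩
  · exact ⟨across p, Pool.Agent.BEO.ed_across p, rfl⟩

omit [Fintype V] in
private theorem dcy_vert (S : GMap G) {K' : Finset (Flag G)} {D' : Finset G.edgeSet} (hD' : Cm S K' D') (v : V)
    (hv : ∀ p : Flag G, p.1.fst = v → p ∉ K') {x y : G.edgeSet} (hx : v ∈ x.1) (hy : v ∈ y.1) : x ∈ D' → y ∈ D' := by
  obtain ⟨p, rfl, hp⟩ := dcy_flag x v hx
  obtain ⟨q, rfl, hq⟩ := dcy_flag y v hy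
  have key : ∀ a b : Flag G, Relation.EqvGen (fun x y => y = S.nxt x ∨ y = side x) a b →
      a.1.fst = b.1.fst ∧ (a.1.fst = v → (ed a ∈ D' ↔ ed b ∈ D')) := by
    intro a b h
    induction h with
    | rel a b h =>
      rcases h with rfl | rfl
      · refine ⟨(S.nxt_fst a).symm, fun ha => ?_⟩
        have h1 : hR S K' (ed a) (ed (S.nxt a)) := ⟨a, hv a ha, rfl, rfl⟩
        have h2 : Relation.EqvGen (hR S K') (ed a) (ed (S.nxt a)) := Relation.EqvGen.rel _ _ h1
        exact ⟨fun h => (hD'.2 _ h _).2 h2, fun h => (hD'.2 _ h _).2 (Relation.EqvGen.symm _ _ h2)⟩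
      · exact ⟨rfl, fun _ => Iff.rfl⟩
    | refl a => exact ⟨rfl, fun _ => Iff.rfl⟩
    | symm a b _ ih => exact ⟨ih.1.symm, fun h => (ih.2 (ih.1.trans h)).symm⟩
    | trans a b c _ _ ih1 ih2 =>
      exact ⟨ih1.1.trans ih2.1, fun h => (ih1.2 h).trans (ih2.2 (ih1.1.symm.trans h))⟩
  exact ((key p q (S.conn p q (hp.trans hq.symm))).2 hp).1

private theorem dcy_rk (x : V) : (rk {x} : Finset G.edgeSet).card ≤ (nb G x).card := by
  by_cases hne : (rk {x} : Finset G.edgeSet).Nonempty
  · obtain ⟨e0, -⟩ := hne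
    refine Finset.card_le_card_of_surjOn (fun y => if h : G.Adj x y then (⟨s(x, y), h⟩ : G.edgeSet) else e0) ?_
    intro e he
    have he' : e ∈ (rk {x} : Finset G.edgeSet) := he
    unfold rk at he'
    rw [Finset.mem_filter] at he'
    obtain ⟨-, v, hv, hve⟩ := he'
    rw [Finset.mem_singleton] at hv
    rw [hv] at hve
    obtain ⟨p, rfl, hp⟩ := dcy_flag e x hve
    subst hp
    refine ⟨p.1.snd, ?_, ?_⟩
    · show p.1.snd ∈ nb G p.1.fst
      unfold nb
      rw [Finset.mem_filter]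
      exact ⟨Finset.mem_univ _, p.1.adj⟩
    · show (if h : G.Adj p.1.fst p.1.snd then (⟨s(p.1.fst, p.1.snd), h⟩ : G.edgeSet) else e0) = ed p
      rw [dif_pos p.1.adj]
      exact Subtype.ext rfl
  · rw [Finset.not_nonempty_iff_eq_empty] at hne
    rw [hne]
    exact Nat.zero_le _

theorem good_ind [Nontrivial V] (hG : G.Connected) (S : GMap G) (hr : Reduced S) (he : 1 ≤ S.eg) (k : ℕ)
    (hk : S.eg ≤ k) (P : Finset G.edgeSet → Prop)
    (h0 : ∀ (J : Finset V) (Q : Finset (Flag G)), Leaf S J Q (12000 * k) → Fam S (12000 * k) (rk J) → P (rk J))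
    (h1 : ∀ D : Finset G.edgeSet, Fam S (12000 * k) D → D.card ≤ 2 → P D)
    (h2 : ∀ D1 D2 : Finset G.edgeSet, Fam S (12000 * k) D1 → Fam S (12000 * k) D2 → Fam S (12000 * k) (D1 ∪ D2) →
      Disjoint D1 D2 → P D1 → P D2 → P (D1 ∪ D2))
    (K : Finset (Flag G)) (hK : NC S K) (hc : K.card ≤ 80 * k) (D : Finset G.edgeSet) (hD : Cm S K D)
    (hgd : Good S D K) : P D := by
  have he' := he
  have hI : (bI K D).card ≤ 6 * K.card := bi_card K D
  have hmx : (MX S (bI K D)).card ≤ 24 * ((bI K D).card + k) := by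
    rw [mx_sum]
    exact smix hG S hr k hk (brs (bI K D)) (bI K D) (ptn_brs S (bI K D))
  have hc' : (K ∪ MX S (bI K D)).card ≤ 12000 * k := by
    have := Finset.card_union_le K (MX S (bI K D))
    omega
  have hK' : NC S (K ∪ MX S (bI K D)) := by
    intro p hp
    rw [Finset.mem_union] at hp ⊢
    rcases hp with hp | hp
    · exact Or.inl (hK p hp)
    · exact Or.inr (dcy_mx S _ p hp)
  refine cut_ind S (12000 * k) P h2 K (K ∪ MX S (bI K D)) hK hK' Finset.subset_union_left hc' D hD ?_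
  intro D' hD' hsub
  have hF := fam_cm S (12000 * k) _ hK' hc' D' hD'
  obtain ⟨e, he⟩ := hD'.1
  have hcl : ∀ x y, Relation.EqvGen (brR (bI K D)) x y → (x ∈ D' ↔ y ∈ D') := by
    have h1 : ∀ x y, brR (bI K D) x y → x ∈ D' → y ∈ D' := by
      rintro x y ⟨v, hv, hx, hy⟩ hxD
      refine dcy_vert S hD' v ?_ hx hy hxD
      intro p hp hpK
      rw [Finset.mem_union] at hpK
      rcases hpK with hpK | hpK
      · exact (bi_all S K hK D hD v hv x (hsub hxD) hx p hp).2 hpK
      · unfold MX at hpK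
        rw [Finset.mem_filter] at hpK
        apply hpK.2
        refine Relation.EqvGen.rel _ _ ⟨v, hv, ?_, ?_⟩
        · rw [← hp]
          exact dcy_fst p
        · rw [← hp, ← S.nxt_fst p]
          exact dcy_fst (S.nxt p)
    intro x y h
    induction h with
    | rel x y h =>
      obtain ⟨v, hv, hx, hy⟩ := h
      exact ⟨h1 x y ⟨v, hv, hx, hy⟩, h1 y x ⟨v, hv, hy, hx⟩⟩
    | refl x => exact Iff.rfl
    | symm x y _ ih => exact ih.symm
    | trans x y z _ _ ih1 ih2 => exact ih1.trans ih2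
  have hup : ∀ x y, Relation.EqvGen (hR S (K ∪ MX S (bI K D))) x y → Relation.EqvGen (brR (bI K D)) x y := by
    intro x y h
    induction h with
    | rel x y h =>
      obtain ⟨p, hp, rfl, rfl⟩ := h
      by_contra hn
      apply hp
      rw [Finset.mem_union]
      refine Or.inr ?_
      unfold MX
      rw [Finset.mem_filter]
      exact ⟨Finset.mem_univ _, hn⟩
    | refl x => exact Relation.EqvGen.refl _
    | symm x y _ ih => exact Relation.EqvGen.symm _ _ ih
    | trans x y z _ _ ih1 ih2 => exact Relation.EqvGen.trans _ _ _ ih1 ih2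
  have hbr : brC (bI K D) e = D' := by
    ext f
    unfold brC
    rw [Finset.mem_filter]
    constructor
    · rintro ⟨-, h⟩
      exact (hcl e f h).1 he
    · intro hf
      exact ⟨Finset.mem_univ _, hup _ _ ((hD'.2 e he f).1 hf)⟩
  rcases br_cls (bI K D) e with ⟨h3, -⟩ | ⟨J, hJne, hJcn, hJi, hJcl, hJ⟩
  · rw [hbr] at h3
    refine h1 D' hF ?_
    rw [h3, Finset.card_singleton]
    norm_num
  · have hDJ : D' = rk J := hbr.symm.trans hJ
    by_cases h3 : ∀ x, J = {x} → 3 ≤ (nb G x).card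
    · obtain ⟨Q, hQ⟩ := mk_leaf hG S hr he' k hk K hK hc D hD hgd J hJne hJcn hJi hJcl ⟨e, hJ⟩
        (by rw [← hDJ]; exact hsub) h3
      rw [hDJ] at hF ⊢
      exact h0 J Q hQ hF
    · push Not at h3
      obtain ⟨x, hx, hx2⟩ := h3
      refine h1 D' hF ?_
      rw [hDJ, hx]
      exact (dcy_rk x).trans (by omega)

end Pool.Agent.FGT
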