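import Pool.Agent.FGT.TsC

/-!
# FGT-TsE: the closed faces are counted correctly

PLAN. Compare `SCG/SpC.lean`. The labels `(lF l d x).map Prod.snd` without repetitions are in bijection with the classes of `Quot (rF D L)` which
contain a flag over `D` (`lF_iff`; `comp`: every flag over `D` is stored with its label); a label `c` is removed iff it is the label of an open
flag.
-/

set_option autoImplicit false

open Finset
open scoped Classical

namespace Pool.Agent.FGT

open Pool.Agent.Helper35.OG (Flag GMap across side)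
open Pool.Agent.BEO (F2 ed rp cyc ev cod Codes ec look memb ddp comp cds Pt Ec Inp sd ac ek fl nb)
open Pool.Agent.SCG (edl nx bst bls)

variable {n : ℕ} {G : SimpleGraph (Fin n)} {S : GMap G} {l : Inp}

/-- the steps along the faces do not leave `D` -/
private theorem rF_eqv (D : Finset G.edgeSet) (L : Flag G → Flag G) (h3 : ∀ p, ed p ∈ D → ed (L p) ∈ D)
    {p q : Flag G} (h : Relation.EqvGen (rF D L) p q) : ed p ∈ D ↔ ed q ∈ D := by
  induction h with
  | rel x y hxy =>
    refine ⟨fun _ => ?_, fun _ => hxy.1⟩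
    rcases hxy.2 with h2 | h2
    · rw [h2]; exact h3 x hxy.1
    · rw [h2, Pool.Agent.BEO.ed_across]; exact hxy.1
  | refl x => exact Iff.rfl
  | symm x y _ ih => exact ih.symm
  | trans x y z _ _ ih1 ih2 => exact ih1.trans ih2

private theorem mem_sndF (h : Codes S l) (D : Finset G.edgeSet) (d : List Ec) (hd : DCodes D d) (x : En)
    (y : Pt) : y ∈ (lF l d x).map Prod.snd ↔
      ∃ p : Flag G, ed p ∈ D ∧ y = look (lF l d x) (cod p) (cod p) := by
  have hfst : (lF l d x).map Prod.fst = fD l d := Pool.Agent.BEO.comp_fst _ _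
  have hnd : ((lF l d x).map Prod.fst).Nodup := by
    rw [hfst]
    exact fD_nodup _ _
  have hlk : ∀ z ∈ fD l d, (z, look (lF l d x) z z) ∈ lF l d x := by
    intro z hz
    apply Pool.Agent.BEO.look_mem
    rw [← hfst, List.mem_map] at hz
    obtain ⟨⟨a, b⟩, hab, rfl⟩ := hz
    exact ⟨b, hab⟩
  rw [List.mem_map]
  constructor
  · rintro ⟨⟨a, b⟩, hab, rfl⟩
    have ha : a ∈ fD l d := by
      rw [← hfst]
      exact List.mem_map.2 ⟨(a, b), hab, rfl⟩
    obtain ⟨p, rfl, hp⟩ := (mem_fD h D d hd a).1 ha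
    refine ⟨p, hp, ?_⟩
    have h1 := List.inj_on_of_nodup_map hnd hab (hlk _ ha) rfl
    exact (Prod.mk.inj h1).2
  · rintro ⟨p, hp, rfl⟩
    exact ⟨_, hlk _ ((mem_fD h D d hd _).2 ⟨p, rfl, hp⟩), rfl⟩

theorem clD_eq (h : Codes S l) (D : Finset G.edgeSet) (d : List Ec) (hd : DCodes D d) (L : Flag G → Flag G) (x : En)
    (hx : ECodes L x) (h1 : ∀ p, L (L p) = p) (h3 : ∀ p, ed p ∈ D → ed (L p) ∈ D) : clD l d x = clo D L := by
  have hiff : ∀ p q : Flag G, ed p ∈ D → ed q ∈ D →
      (look (lF l d x) (cod p) (cod p) = look (lF l d x) (cod q) (cod q) ↔ Relation.EqvGen (rF D L) p q) := by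
    intro p q hp hq
    rw [← lF_iff h D d hd L x hx h1 h3 p q hp hq]
    unfold eqF
    rw [decide_eq_true_iff]
  have hmem : ∀ y, y ∈ ((ddp ((lF l d x).map Prod.snd)).filter fun c =>
      !((umD l d x).any fun p => decide (look (lF l d x) p p = c))).toFinset ↔
      (∃ p : Flag G, ed p ∈ D ∧ y = look (lF l d x) (cod p) (cod p)) ∧
      ∀ q : Flag G, Um D L q → look (lF l d x) (cod q) (cod q) ≠ y := by
    intro y
    rw [List.mem_toFinset, List.mem_filter, Pool.Agent.BEO.mem_ddp, mem_sndF h D d hd x]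
    refine and_congr Iff.rfl ?_
    rw [Bool.not_eq_true', List.any_eq_false]
    constructor
    · intro h4 q hq h5
      exact h4 (cod q) ((mem_umD h D d hd L x hx _).2 ⟨q, rfl, hq⟩) (decide_eq_true h5)
    · intro h4 z hz h5
      obtain ⟨q, rfl, hq⟩ := (mem_umD h D d hd L x hx z).1 hz
      exact h4 q hq (of_decide_eq_true h5)
  unfold clD clo
  rw [← List.toFinset_card_of_nodup ((Pool.Agent.BEO.nodup_ddp _).filter _)]
  have hrep : ∀ c' : {c : Quot (rF D L) // (∃ p, Quot.mk _ p = c ∧ ed p ∈ D) ∧ ∀ q, Um D L q → Quot.mk _ q ≠ c},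
      ∃ p : Flag G, Quot.mk _ p = c'.1 ∧ ed p ∈ D := fun c' => c'.2.1
  choose rep hrep1 hrep2 using hrep
  have hb : Function.Bijective (fun c' : {c : Quot (rF D L) //
      (∃ p, Quot.mk _ p = c ∧ ed p ∈ D) ∧ ∀ q, Um D L q → Quot.mk _ q ≠ c} =>
      (⟨look (lF l d x) (cod (rep c')) (cod (rep c')), (hmem _).2 ⟨⟨rep c', hrep2 c', rfl⟩, by
        intro q hq h5
        have h6 := (hiff q (rep c') hq.1 (hrep2 c')).1 h5
        refine c'.2.2 q hq ?_
        rw [← hrep1 c']
        exact Quot.eqvGen_sound h6⟩⟩ :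
      ((ddp ((lF l d x).map Prod.snd)).filter fun c =>
      !((umD l d x).any fun p => decide (look (lF l d x) p p = c))).toFinset)) := by
    constructor
    · intro c1 c2 h12
      have h4 := congrArg Subtype.val h12
      have h5 := (hiff (rep c1) (rep c2) (hrep2 c1) (hrep2 c2)).1 h4
      apply Subtype.ext
      rw [← hrep1 c1, ← hrep1 c2]
      exact Quot.eqvGen_sound h5
    · rintro ⟨y, hy⟩
      obtain ⟨⟨p, hp, hyp⟩, hy2⟩ := (hmem y).1 hy
      refine ⟨⟨Quot.mk _ p, ⟨p, rfl, hp⟩, ?_⟩, ?_⟩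
      · intro q hq h5
        have hqp := Quot.eqvGen_exact h5
        refine hy2 q hq ?_
        rw [hyp]
        exact (hiff q p hq.1 hp).2 hqp
      · apply Subtype.ext
        refine Eq.trans ?_ hyp.symm
        refine (hiff _ p (hrep2 _) hp).2 ?_
        exact Quot.eqvGen_exact (hrep1 _)
  rw [Nat.card_congr (Equiv.ofBijective _ hb), Nat.card_eq_fintype_card, Fintype.card_coe]

end Pool.Agent.FGT
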