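import Pool.Agent.FGT.TsC

/-!
# FGT-TsF: equal signatures

PLAN. `sgD_same`: equality of `replicate`-like prefix (`map (fun _ => true)`) followed by `false` gives equal numbers of open flags
(`umD l d x`, `umD l d x'` have the same length) and equality of the rests; then entrywise equality (`flat_inj` in SCG/SpE is a pattern; here the two
lists run over different lists of the same length: use `List.zip`/indices). Put `θ (the i-th open flag of L) := the i-th open flag of L'` (`cod_inj`,
`fD_nodup`), `θ p := p` for the other flags. `fst`: the vertex of an open flag is in `bvD l d` (`OMap.ub`) and the signatures give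
`decide (p.1 = v)` for all `v ∈ bvD l d`. `v`, `f`, `c`: `lV_iff`, `lF_iff`, `lC_iff` (for `c` with `b = false, true`). `ni`: the second Boolean of the
signature. `sgD_len`: `umD` has at most `b` members; `bvD l d` has at most `C` members: at a vertex with flags over `D` and outside there is a
flag in `mix D S` (`S.conn`), and different vertices have different ones (`bvD` has no repetitions: `ddp`).
-/

set_option autoImplicit false

open Finset
open scoped Classical

namespace Pool.Agent.FGT

open Pool.Agent.Helper35.OG (Flag GMap across side)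
open Pool.Agent.BEO (F2 ed rp cyc ev cod Codes ec look memb ddp comp cds Pt Ec Inp sd ac ek fl nb)
open Pool.Agent.SCG (edl nx bst bls)

variable {n : ℕ} {G : SimpleGraph (Fin n)} {S : GMap G} {l : Inp}

private theorem pre_inj {α : Type} (a b : List α) (r s : List Bool)
    (h : a.map (fun _ => true) ++ false :: r = b.map (fun _ => true) ++ false :: s) :
    a.length = b.length ∧ r = s := by
  induction a generalizing b with
  | nil =>
    cases b with
    | nil => exact ⟨rfl, (List.cons.inj h).2⟩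
    | cons y b => exact absurd (List.cons.inj h).1 (by simp)
  | cons x a ih =>
    cases b with
    | nil => exact absurd (List.cons.inj h).1 (by simp)
    | cons y b =>
      obtain ⟨h1, h2⟩ := ih b (List.cons.inj h).2
      exact ⟨by rw [List.length_cons, List.length_cons, h1], h2⟩

private theorem flat2 {α β : Type} (f g : α → List β) (a b : List α) (hl : a.length = b.length)
    (hfg : ∀ x y, (f x).length = (g y).length) (h : a.flatMap f = b.flatMap g) :
    ∀ p ∈ a.zip b, f p.1 = g p.2 := by
  induction a generalizing b with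
  | nil =>
    intro p hp
    exact absurd hp (by simp)
  | cons x a ih =>
    cases b with
    | nil => exact absurd hl (by simp)
    | cons y b =>
      rw [List.flatMap_cons, List.flatMap_cons] at h
      obtain ⟨h1, h2⟩ := List.append_inj h (hfg x y)
      intro p hp
      rw [List.zip_cons_cons] at hp
      rcases List.mem_cons.1 hp with rfl | hp
      · exact h1
      · exact ih b (by simpa using hl) h2 p hp

private theorem flat_len {α β : Type} (f : α → List β) (a : List α) (k : ℕ) (hf : ∀ x, (f x).length = k) :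
    (a.flatMap f).length = a.length * k := by
  induction a with
  | nil => simp
  | cons x a ih =>
    rw [List.flatMap_cons, List.length_append, ih, hf, List.length_cons]
    ring

private theorem zip_l {α β : Type} (a : List α) (b : List β) (hl : a.length = b.length) (x : α) (hx : x ∈ a) :
    ∃ y, (x, y) ∈ a.zip b := by
  induction a generalizing b with
  | nil => exact absurd hx (by simp)
  | cons z a ih =>
    cases b with
    | nil => exact absurd hl (by simp)
    | cons w b =>
      rw [List.zip_cons_cons]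
      rcases List.mem_cons.1 hx with rfl | hx
      · exact ⟨w, List.mem_cons_self⟩
      · obtain ⟨y, hy⟩ := ih b (by simpa using hl) hx
        exact ⟨y, List.mem_cons_of_mem _ hy⟩

private theorem zip_r {α β : Type} (a : List α) (b : List β) (hl : a.length = b.length) (y : β) (hy : y ∈ b) :
    ∃ x, (x, y) ∈ a.zip b := by
  induction a generalizing b with
  | nil =>
    cases b with
    | nil => exact absurd hy (by simp)
    | cons w b => exact absurd hl (by simp)
  | cons z a ih =>
    cases b with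
    | nil => exact absurd hl (by simp)
    | cons w b =>
      rw [List.zip_cons_cons]
      rcases List.mem_cons.1 hy with rfl | hy
      · exact ⟨z, List.mem_cons_self⟩
      · obtain ⟨x, hx⟩ := ih b (by simpa using hl) hy
        exact ⟨x, List.mem_cons_of_mem _ hx⟩

private theorem zip_fun {α β : Type} (a : List α) (b : List β) (ha : a.Nodup) (x : α) (y y' : β)
    (h : (x, y) ∈ a.zip b) (h' : (x, y') ∈ a.zip b) : y = y' := by
  induction a generalizing b with
  | nil => exact absurd h (by simp)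
  | cons z a ih =>
    cases b with
    | nil => exact absurd h (by simp)
    | cons w b =>
      rw [List.nodup_cons] at ha
      rw [List.zip_cons_cons] at h h'
      rcases List.mem_cons.1 h with h1 | h1 <;> rcases List.mem_cons.1 h' with h2 | h2
      · rw [Prod.mk.injEq] at h1 h2
        exact h1.2.trans h2.2.symm
      · rw [Prod.mk.injEq] at h1
        exact absurd (List.of_mem_zip h2).1 (by rw [h1.1]; exact ha.1)
      · rw [Prod.mk.injEq] at h2
        exact absurd (List.of_mem_zip h1).1 (by rw [h2.1]; exact ha.1)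
      · exact ih b ha.2 h1 h2

private theorem zip_inj {α β : Type} (a : List α) (b : List β) (hb : b.Nodup) (x x' : α) (y : β)
    (h : (x, y) ∈ a.zip b) (h' : (x', y) ∈ a.zip b) : x = x' := by
  induction a generalizing b with
  | nil => exact absurd h (by simp)
  | cons z a ih =>
    cases b with
    | nil => exact absurd h (by simp)
    | cons w b =>
      rw [List.nodup_cons] at hb
      rw [List.zip_cons_cons] at h h'
      rcases List.mem_cons.1 h with h1 | h1 <;> rcases List.mem_cons.1 h' with h2 | h2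
      · rw [Prod.mk.injEq] at h1 h2
        exact h1.1.trans h2.1.symm
      · rw [Prod.mk.injEq] at h1
        exact absurd (List.of_mem_zip h2).2 (by rw [h1.2]; exact hb.1)
      · rw [Prod.mk.injEq] at h2
        exact absurd (List.of_mem_zip h1).2 (by rw [h2.2]; exact hb.1)
      · exact ih b hb.2 h1 h2

private theorem umD_nodup (l : Inp) (d : List Ec) (x : En) : (umD l d x).Nodup := (fD_nodup l d).filter _

private theorem mem_out (D : Finset G.edgeSet) (d : List Ec) (hd : DCodes D d) (q : Flag G) :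
    memb d (ek (cod q)) = true ↔ ed q ∈ D := by
  rw [Pool.Agent.BEO.memb_iff, hd, Pool.Agent.BEO.ek_cod]
  constructor
  · rintro ⟨e, he, h1⟩
    rw [Pool.Agent.BEO.ec_inj h1]
    exact he
  · intro hq
    exact ⟨_, hq, rfl⟩

private theorem mem_bvD (h : Codes S l) (D : Finset G.edgeSet) (d : List Ec) (hd : DCodes D d) (v : ℕ) :
    v ∈ bvD l d ↔ ∃ p q : Flag G, v = (p.1.fst : ℕ) ∧ ed p ∈ D ∧ q.1.fst = p.1.fst ∧ ed q ∉ D := by
  unfold bvD
  rw [List.mem_filter, Pool.Agent.BEO.mem_ddp, List.mem_map, List.any_eq_true]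
  constructor
  · rintro ⟨⟨y, hy, rfl⟩, z, hz, hz2⟩
    obtain ⟨p, rfl, hp⟩ := (mem_fD h D d hd y).1 hy
    obtain ⟨q, rfl⟩ := (Pool.Agent.BEO.mem_fl h z).1 hz
    rw [Bool.and_eq_true, decide_eq_true_iff, Bool.not_eq_true', ← Bool.not_eq_true, mem_out D d hd] at hz2
    exact ⟨p, q, rfl, hp, Fin.ext hz2.1, hz2.2⟩
  · rintro ⟨p, q, rfl, hp, hq, hq2⟩
    refine ⟨⟨cod p, (mem_fD h D d hd _).2 ⟨p, rfl, hp⟩, rfl⟩, cod q, (Pool.Agent.BEO.mem_fl h _).2 ⟨q, rfl⟩, ?_⟩
    rw [Bool.and_eq_true, decide_eq_true_iff, Bool.not_eq_true', ← Bool.not_eq_true, mem_out D d hd]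
    exact ⟨congrArg Fin.val hq, hq2⟩

private theorem any_iff (h : Codes S l) (D : Finset G.edgeSet) (d : List Ec) (hd : DCodes D d) (L : Flag G → Flag G)
    (x : En) (hx : ECodes L x) (hL : OMap D L) : ((fD l d).any (fun p => eqC (lC l d x) p p true)) = true ↔
      ∃ p, ed p ∈ D ∧ Relation.EqvGen (rC D L) (p, false) (p, true) := by
  rw [List.any_eq_true]
  constructor
  · rintro ⟨y, hy, h1⟩
    obtain ⟨p, rfl, hp⟩ := (mem_fD h D d hd y).1 hy
    exact ⟨p, hp, (lC_iff h D d hd L x hx hL.inv hL.mem p p hp hp true).1 h1⟩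
  · rintro ⟨p, hp, h1⟩
    exact ⟨cod p, (mem_fD h D d hd _).2 ⟨p, rfl, hp⟩, (lC_iff h D d hd L x hx hL.inv hL.mem p p hp hp true).2 h1⟩

theorem sgD_same (h : Codes S l) (D : Finset G.edgeSet) (d : List Ec) (hd : DCodes D d) (L L' : Flag G → Flag G) (x x' : En)
    (hx : ECodes L x) (hx' : ECodes L' x') (hL : OMap D L) (hL' : OMap D L') (hs : sgD l d x = sgD l d x') :
    ∃ θ, Same D L L' θ := by
  unfold sgD at hs
  obtain ⟨hlen, hs1⟩ := pre_inj _ _ _ _ hs
  obtain ⟨hany, hs2⟩ := List.cons.inj hs1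
  obtain ⟨hA, hB⟩ := List.append_inj hs2 (by
    rw [flat_len _ _ (bvD l d).length (fun p => by rw [List.length_map]),
      flat_len _ _ (bvD l d).length (fun p => by rw [List.length_map]), hlen])
  have hA2 := flat2 _ _ _ _ hlen (fun p q => by rw [List.length_map, List.length_map]) hA
  have hB2 := flat2 _ _ _ _ hlen (fun p q => by
    rw [flat_len _ _ 4 (fun q => rfl), flat_len _ _ 4 (fun q => rfl), hlen]) hB
  have hB3 : ∀ p ∈ (umD l d x).zip (umD l d x'), ∀ q ∈ (umD l d x).zip (umD l d x'),
      [eqF (lV l d x) p.1 q.1, eqF (lF l d x) p.1 q.1, eqC (lC l d x) p.1 q.1 false, eqC (lC l d x) p.1 q.1 true] =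
      [eqF (lV l d x') p.2 q.2, eqF (lF l d x') p.2 q.2, eqC (lC l d x') p.2 q.2 false,
        eqC (lC l d x') p.2 q.2 true] := by
    intro p hp q hq
    have h0 := hB2 p hp
    beta_reduce at h0
    have h1 := flat2 _ _ _ _ hlen (by intro a b; rfl) h0 q hq
    exact h1
  have hU : ∀ p : Flag G, Um D L p → cod p ∈ umD l d x := fun p hp => (mem_umD h D d hd L x hx _).2 ⟨p, rfl, hp⟩
  have hU' : ∀ p : Flag G, Um D L' p → cod p ∈ umD l d x' := fun p hp =>
    (mem_umD h D d hd L' x' hx' _).2 ⟨p, rfl, hp⟩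
  have hex : ∀ p : Flag G, ∃ q : Flag G, Um D L p → Um D L' q ∧ (cod p, cod q) ∈ (umD l d x).zip (umD l d x') := by
    intro p
    by_cases hp : Um D L p
    · obtain ⟨y, hy⟩ := zip_l _ _ hlen _ (hU p hp)
      obtain ⟨q, rfl, hq⟩ := (mem_umD h D d hd L' x' hx' _).1 (List.of_mem_zip hy).2
      exact ⟨q, fun _ => ⟨hq, hy⟩⟩
    · exact ⟨p, fun hp2 => absurd hp2 hp⟩
  choose θ hθ using hex
  have hfst : ∀ p, Um D L p → (θ p).1.fst = p.1.fst := by
    intro p hp
    obtain ⟨h1, h2⟩ := hθ p hp
    have h3 := hA2 _ h2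
    have h4 : (cod p).1 ∈ bvD l d := by
      obtain ⟨q, hq1, hq2⟩ := hL.ub p hp
      exact (mem_bvD h D d hd _).2 ⟨p, q, rfl, hp.1, hq1, hq2⟩
    have h5 := List.map_inj_left.1 h3 _ h4
    have h6 : decide ((cod p).1 = (cod p).1) = decide ((cod (θ p)).1 = (cod p).1) := h5
    rw [decide_eq_true rfl] at h6
    exact Fin.ext (of_decide_eq_true h6.symm)
  have hq4 : ∀ p q, Um D L p → Um D L q →
      eqF (lV l d x) (cod p) (cod q) = eqF (lV l d x') (cod (θ p)) (cod (θ q)) ∧
      eqF (lF l d x) (cod p) (cod q) = eqF (lF l d x') (cod (θ p)) (cod (θ q)) ∧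
      ∀ b, eqC (lC l d x) (cod p) (cod q) b = eqC (lC l d x') (cod (θ p)) (cod (θ q)) b := by
    intro p q hp hq
    have h1 := hB3 _ (hθ p hp).2 _ (hθ q hq).2
    obtain ⟨h2, h3⟩ := List.cons.inj h1
    obtain ⟨h4, h5⟩ := List.cons.inj h3
    obtain ⟨h6, h7⟩ := List.cons.inj h5
    obtain ⟨h8, _⟩ := List.cons.inj h7
    refine ⟨h2, h4, fun b => ?_⟩
    cases b
    · exact h6
    · exact h8
  refine ⟨θ, fun p hp => (hθ p hp).1, ?_, ?_, hfst, ?_, ?_, ?_, ?_⟩
  · intro p q hp hq hpq
    have h1 := (hθ p hp).2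
    have h2 := (hθ q hq).2
    rw [hpq] at h1
    exact Pool.Agent.BEO.cod_inj (zip_inj _ _ (umD_nodup l d x') _ _ _ h1 h2)
  · intro q hq
    obtain ⟨y, hy⟩ := zip_r _ _ hlen _ (hU' q hq)
    obtain ⟨p, rfl, hp⟩ := (mem_umD h D d hd L x hx _).1 (List.of_mem_zip hy).1
    exact ⟨p, hp, Pool.Agent.BEO.cod_inj (zip_fun _ _ (umD_nodup l d x) _ _ _ (hθ p hp).2 hy)⟩
  · intro p q hp hq
    rw [← lV_iff h D d hd L x hx hL.inv hL.mem p q hp.1 hq.1, (hq4 p q hp hq).1,
      lV_iff h D d hd L' x' hx' hL'.inv hL'.mem _ _ (hθ p hp).1.1 (hθ q hq).1.1]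
  · intro p q hp hq
    rw [← lF_iff h D d hd L x hx hL.inv hL.mem p q hp.1 hq.1, (hq4 p q hp hq).2.1,
      lF_iff h D d hd L' x' hx' hL'.inv hL'.mem _ _ (hθ p hp).1.1 (hθ q hq).1.1]
  · intro p q hp hq b
    rw [← lC_iff h D d hd L x hx hL.inv hL.mem p q hp.1 hq.1 b, (hq4 p q hp hq).2.2 b,
      lC_iff h D d hd L' x' hx' hL'.inv hL'.mem _ _ (hθ p hp).1.1 (hθ q hq).1.1 b]
  · intro h1
    rw [← any_iff h D d hd L' x' hx' hL', ← hany, any_iff h D d hd L x hx hL] at h1
    exact h1

private theorem mem_mixF {V : Type} [Fintype V] {G : SimpleGraph V} (D : Finset G.edgeSet) (M : GMap G) (p : Flag G) :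
    p ∈ mix D M ↔ ed p ∈ D ∧ ed (M.nxt p) ∉ D := by
  unfold mix
  rw [mem_filter]
  exact ⟨fun h => h.2, fun h => ⟨mem_univ _, h⟩⟩

private theorem mix_at (S : GMap G) (D : Finset G.edgeSet) (p q : Flag G) (hv : q.1.fst = p.1.fst) (hp : ed p ∈ D)
    (hq : ed q ∉ D) : ∃ r ∈ mix D S, r.1.fst = p.1.fst := by
  by_contra hno
  push Not at hno
  have hno2 : ∀ r : Flag G, r.1.fst = p.1.fst → ed r ∈ D → ed (S.nxt r) ∈ D := by
    intro r hr hrD
    by_contra h1
    exact hno r ((mem_mixF D S r).2 ⟨hrD, h1⟩) hr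
  have key : ∀ a b : Flag G, Relation.EqvGen (fun x y => y = S.nxt x ∨ y = side x) a b →
      (a.1.fst = b.1.fst) ∧ (a.1.fst = p.1.fst → (ed a ∈ D ↔ ed b ∈ D)) := by
    intro a b hab
    induction hab with
    | rel a b hab =>
      rcases hab with rfl | rfl
      · refine ⟨(S.nxt_fst a).symm, fun ha => ⟨hno2 a ha, fun hb => ?_⟩⟩
        have h1 := hno2 (S.nxt a) (by rw [S.nxt_fst]; exact ha) hb
        rwa [S.nxt_nxt] at h1
      · refine ⟨rfl, fun _ => Iff.rfl⟩
    | refl a => exact ⟨rfl, fun _ => Iff.rfl⟩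
    | symm a b _ ih => exact ⟨ih.1.symm, fun hb => (ih.2 (ih.1.trans hb)).symm⟩
    | trans a b c _ _ ih1 ih2 =>
      exact ⟨ih1.1.trans ih2.1, fun ha => (ih1.2 ha).trans (ih2.2 (ih1.1.symm.trans ha))⟩
  exact hq (((key p q (S.conn p q hv.symm)).2 rfl).1 hp)

private theorem bvD_len (h : Codes S l) (C : ℕ) (D : Finset G.edgeSet) (d : List Ec) (hd : DCodes D d)
    (hC : (mix D S).card ≤ C) : (bvD l d).length ≤ C := by
  have hnd : (bvD l d).Nodup := (Pool.Agent.BEO.nodup_ddp _).filter _
  rw [← List.toFinset_card_of_nodup hnd]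
  have hsub : (bvD l d).toFinset ⊆ (mix D S).image fun p => (p.1.fst : ℕ) := by
    intro v hv
    rw [List.mem_toFinset, mem_bvD h D d hd] at hv
    obtain ⟨p, q, rfl, hp, hq, hq2⟩ := hv
    obtain ⟨r, hr, hr2⟩ := mix_at S D p q hq hp hq2
    exact mem_image.2 ⟨r, hr, congrArg Fin.val hr2⟩
  exact (card_le_card hsub).trans (card_image_le.trans hC)

theorem sgD_len (h : Codes S l) (C b : ℕ) (D : Finset G.edgeSet) (d : List Ec) (hd : DCodes D d) (hC : (mix D S).card ≤ C)
    (x : En) (hx : (umD l d x).length ≤ b) : (sgD l d x).length ≤ mm C b := by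
  have h1 := bvD_len h C D d hd hC
  unfold sgD mm
  rw [List.length_append, List.length_map, List.length_cons, List.length_cons, List.length_append,
    flat_len _ _ (bvD l d).length (fun p => by rw [List.length_map]),
    flat_len _ _ ((umD l d x).length * 4) (fun p => flat_len _ _ 4 (fun q => rfl))]
  have h2 : (umD l d x).length * (bvD l d).length ≤ b * C := Nat.mul_le_mul hx h1
  have h3 : (umD l d x).length * ((umD l d x).length * 4) ≤ b * (b * 4) :=
    Nat.mul_le_mul hx (Nat.mul_le_mul_right 4 hx)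
  have h4 : b * (b * 4) = 4 * (b * b) := by ring
  omega

end Pool.Agent.FGT
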