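import Pool.Agent.FGT.TsD
import Pool.Agent.FGT.TsE
import Pool.Agent.FGT.TsF

/-!
# FGT-TsG: the selection
-/

set_option autoImplicit false

open Finset
open scoped Classical

namespace Pool.Agent.FGT

open Pool.Agent.Helper35.OG (Flag GMap across side)
open Pool.Agent.BEO (F2 ed rp cyc ev cod Codes ec look memb ddp comp cds Pt Ec Inp sd ac ek fl nb)
open Pool.Agent.SCG (edl nx bst bls)

variable {n : ℕ} {G : SimpleGraph (Fin n)} {S : GMap G} {l : Inp}

theorem slD_spec (h : Codes S l) (C b : ℕ) (D : Finset G.edgeSet) (d : List Ec) (hd : DCodes D d) (hC : (mix D S).card ≤ C)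
    (cs : List En) (x : En) (hxc : x ∈ cs) (L : Flag G → Flag G) (hx : ECodes L x) (hL : OMap D L)
    (hb : (univ.filter fun p : Flag G => Um D L p).card ≤ b) :
    ∃ x' ∈ slD b (mm C b) l d cs, ∃ L' : Flag G → Flag G, ECodes L' x' ∧ OMap D L' ∧ (∃ θ, Same D L L' θ) ∧
      clo D L ≤ clo D L' := by
  have h1 := vlD_of h D d hd b L x hx hL hb
  have h2 : (umD l d x).length ≤ b := by
    rw [umD_len h D d hd L x hx]
    exact hb
  have h3 := sgD_len h C b D d hd hC x h2
  obtain ⟨x', h4, h5⟩ := Pool.Agent.SCG.bst_spec (clD l d)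
    (cs.filter fun x' => vlD b l d x' && decide (sgD l d x' = sgD l d x)) x
    (List.mem_filter.2 ⟨hxc, by rw [h1, decide_eq_true rfl]; rfl⟩)
  have h6 := (List.mem_filter.1 (Pool.Agent.SCG.bst_mem _ _ _ h4)).2
  rw [Bool.and_eq_true, decide_eq_true_eq] at h6
  obtain ⟨L', h7, h8, -⟩ := of_vlD h D d hd b x' h6.1
  refine ⟨x', List.mem_flatMap.2 ⟨sgD l d x, (Pool.Agent.SCG.mem_bls _ _).2 h3, h4⟩, L', h7, h8,
    sgD_same h D d hd L L' x x' hx h7 hL h8 h6.2.symm, ?_⟩
  rw [← clD_eq h D d hd L x hx hL.inv hL.mem, ← clD_eq h D d hd L' x' h7 h8.inv h8.mem]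
  exact h5

private theorem compl_any {α : Type} [Fintype α] (i j : DecidableEq α) (s : Finset α) :
    (letI := i; sᶜ) = (letI := j; sᶜ) := by
  have e : i = j := Subsingleton.elim _ _
  subst e
  rfl

theorem slD_cpl (h : Codes S l) (hG : G.Connected) (C b : ℕ) (o : Bool) (D : Finset G.edgeSet) (d : List Ec)
    (hd : DCodes D d) (hC : (mix D S).card ≤ C) (hb : ∀ M : GMap G, Opt o M → (mix D M).card ≤ b) (cs : List En)
    (hc : CplD o D cs) : CplD o D (slD b (mm C b) l d (cs.map (nrE l))) := by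
  intro M hM
  obtain ⟨M', h1, h2, x, h3, h4⟩ := hc M hM
  have h5 := nr_ent h (part D M') x h4
  have h6 : (univ.filter fun p : Flag G => Um D (part D M') p).card ≤ b := by
    refine le_trans (le_of_eq ?_) (hb M' h1)
    congr 1
    ext p
    rw [mem_filter, mem_mix]
    exact ⟨fun h7 => h7.2, fun h7 => ⟨mem_univ _, h7⟩⟩
  obtain ⟨x', h7, L', h8, h9, ⟨θ, h10⟩, h11⟩ := slD_spec h C b D d hd hC (cs.map (nrE l)) (nrE l x)
    (List.mem_map.2 ⟨x, h3, rfl⟩) (part D M') h5 (omap_part D M') h6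
  obtain ⟨M'', h12, h13, h14, h15⟩ := exch hG D M' L' θ h9 h10 h11
  have h13' : ∀ p, part Dᶜ M'' p = part Dᶜ M' p := by
    intro p
    refine (congrArg (fun E => part E M'' p) ?_).trans ((h13 p).trans (congrArg (fun E => part E M' p) ?_))
    · exact compl_any _ _ _
    · exact compl_any _ _ _
  refine ⟨M'', ⟨fun ho => h14 (h1.1 ho), fun M1 hM1 => le_trans h15 (h1.2 M1 hM1)⟩,
    fun p => (h13' p).trans (h2 p), x', h7, ?_⟩
  have h16 : part D M'' = L' := funext h12
  rw [h16]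
  exact h8

end Pool.Agent.FGT
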