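import Pool.Agent.FGT.TsB

/-!
# FGT-TsH: joining two parts, small sets of edges

Joining parts over disjoint sets of edges (the corners between them are listed by `lks`), and the entries over at most two
edges (at most four corners) (proved by helper77).
-/

set_option autoImplicit false

open Finset
open scoped Classical

namespace Pool.Agent.FGT

open Pool.Agent.Helper35.OG (Flag GMap across side)
open Pool.Agent.BEO (F2 ed rp cyc ev cod Codes ec look memb ddp comp cds Pt Ec Inp sd ac ek fl nb)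
open Pool.Agent.SCG (edl nx bst bls)

variable {n : ℕ} {G : SimpleGraph (Fin n)} {S : GMap G} {l : Inp}

private theorem th_ec (D : Finset G.edgeSet) (M : GMap G) (x : En) : ECodes (part D M) x ↔
    ∀ w, w ∈ x ↔ ∃ p : Flag G, (ed p ∈ D ∧ ed (M.nxt p) ∈ D) ∧ w = (cod p, cod (M.nxt p)) := by
  have h1 : ∀ w : Pt × Pt, (∃ p : Flag G, part D M p ≠ p ∧ w = (cod p, cod (part D M p))) ↔
      ∃ p : Flag G, (ed p ∈ D ∧ ed (M.nxt p) ∈ D) ∧ w = (cod p, cod (M.nxt p)) := by
    intro w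
    refine exists_congr fun p => ?_
    by_cases h : ed p ∈ D ∧ ed (M.nxt p) ∈ D
    · have h2 : part D M p = M.nxt p := if_pos h
      rw [h2]
      exact ⟨fun h3 => ⟨h, h3.2⟩, fun h3 => ⟨M.nxt_ne p, h3.2⟩⟩
    · have h2 : part D M p = p := if_neg h
      rw [h2]
      exact ⟨fun h3 => absurd rfl h3.1, fun h3 => absurd h3.1 h⟩
  unfold ECodes
  exact forall_congr' fun w => by rw [h1 w]

/-- the concatenation of the two pairs of the corners of a list of flags -/
private theorem th_flat (M : GMap G) (F : List (Flag G)) (w : Pt × Pt) :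
    w ∈ (F.map fun p => [(cod p, cod (M.nxt p)), (cod (M.nxt p), cod p)]).flatten ↔
      ∃ p ∈ F, w = (cod p, cod (M.nxt p)) ∨ w = (cod (M.nxt p), cod p) := by
  rw [List.mem_flatten]
  constructor
  · rintro ⟨u, hu, hw⟩
    obtain ⟨p, hp, rfl⟩ := List.mem_map.1 hu
    simp only [List.mem_cons, List.not_mem_nil, or_false] at hw
    exact ⟨p, hp, hw⟩
  · rintro ⟨p, hp, hw⟩
    refine ⟨_, List.mem_map.2 ⟨p, hp, rfl⟩, ?_⟩
    simp only [List.mem_cons, List.not_mem_nil, or_false]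
    exact hw

theorem lks_mem (h : Codes S l) (b : ℕ) (D1 D2 : Finset G.edgeSet) (d1 d2 : List Ec) (h1 : DCodes D1 d1)
    (h2 : DCodes D2 d2) (hdj : Disjoint D1 D2) (M : GMap G) (hb : (mix D1 M).card ≤ b) (x y : En)
    (hx : ECodes (part D1 M) x) (hy : ECodes (part D2 M) y) :
    ∃ z ∈ lks b l d1 d2, ECodes (part (D1 ∪ D2) M) (x ++ (y ++ z)) := by
  obtain ⟨F, hF⟩ : ∃ F : Finset (Flag G), F = (mix D1 M).filter fun p => ed (M.nxt p) ∈ D2 := ⟨_, rfl⟩
  have hmem : ∀ p, p ∈ F ↔ ed p ∈ D1 ∧ ed (M.nxt p) ∈ D2 := by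
    intro p
    rw [hF, mem_filter, mem_mix, um_part]
    exact ⟨fun h => ⟨h.1.1, h.2⟩, fun h => ⟨⟨h.1, fun h' => (Finset.disjoint_left.1 hdj h') h.2⟩, h.2⟩⟩
  have hz := th_flat M F.toList
  refine ⟨(F.toList.map fun p => [(cod p, cod (M.nxt p)), (cod (M.nxt p), cod p)]).flatten, ?_, ?_⟩
  · unfold lks
    rw [BEO.mem_cds]
    refine ⟨_, ?_, ?_, rfl⟩
    · rw [List.length_map, Finset.length_toList]
      refine le_trans ?_ hb
      rw [hF]
      exact Finset.card_filter_le _ _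
    · intro u hu
      obtain ⟨p, hp, rfl⟩ := List.mem_map.1 hu
      obtain ⟨h3, h4⟩ := (hmem p).1 (Finset.mem_toList.1 hp)
      rw [List.mem_flatMap]
      refine ⟨cod p, (mem_fD h D1 d1 h1 _).2 ⟨p, rfl, h3⟩, List.mem_map.2 ⟨cod (M.nxt p), ?_, rfl⟩⟩
      exact (mem_fD h D2 d2 h2 _).2 ⟨M.nxt p, rfl, h4⟩
  · rw [th_ec] at hx hy ⊢
    intro w
    rw [List.mem_append, List.mem_append, hx, hy, hz]
    constructor
    · rintro (⟨p, ⟨h3, h4⟩, h5⟩ | ⟨p, ⟨h3, h4⟩, h5⟩ | ⟨p, hp, h5⟩)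
      · exact ⟨p, ⟨mem_union_left _ h3, mem_union_left _ h4⟩, h5⟩
      · exact ⟨p, ⟨mem_union_right _ h3, mem_union_right _ h4⟩, h5⟩
      · obtain ⟨h3, h4⟩ := (hmem p).1 (Finset.mem_toList.1 hp)
        rcases h5 with h5 | h5
        · exact ⟨p, ⟨mem_union_left _ h3, mem_union_right _ h4⟩, h5⟩
        · refine ⟨M.nxt p, ⟨mem_union_right _ h4, ?_⟩, ?_⟩
          · rw [M.nxt_nxt]
            exact mem_union_left _ h3
          · rw [M.nxt_nxt]
            exact h5
    · rintro ⟨p, ⟨h3, h4⟩, h5⟩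
      rcases mem_union.1 h3 with h3 | h3 <;> rcases mem_union.1 h4 with h4 | h4
      · exact Or.inl ⟨p, ⟨h3, h4⟩, h5⟩
      · exact Or.inr (Or.inr ⟨p, Finset.mem_toList.2 ((hmem p).2 ⟨h3, h4⟩), Or.inl h5⟩)
      · refine Or.inr (Or.inr ⟨M.nxt p, Finset.mem_toList.2 ((hmem _).2 ⟨h4, ?_⟩), Or.inr ?_⟩)
        · rw [M.nxt_nxt]
          exact h3
        · rw [M.nxt_nxt]
          exact h5
      · exact Or.inr (Or.inl ⟨p, ⟨h3, h4⟩, h5⟩)

theorem join_cpl (h : Codes S l) (b : ℕ) (o : Bool) (D1 D2 : Finset G.edgeSet) (d1 d2 : List Ec) (h1 : DCodes D1 d1)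
    (h2 : DCodes D2 d2) (hdj : Disjoint D1 D2) (hb : ∀ M : GMap G, Opt o M → (mix D1 M).card ≤ b) (T1 T2 T : List En)
    (hT1 : CplD o D1 T1) (hT2 : CplD o D2 T2)
    (hT : ∀ x ∈ T1, ∀ y ∈ T2, ∀ z ∈ lks b l d1 d2, x ++ (y ++ z) ∈ T) : CplD o (D1 ∪ D2) T := by
  intro M hM
  obtain ⟨M1, hM1, hp1, x, hx, hcx⟩ := hT1 M hM
  obtain ⟨M2, hM2, hp2, y, hy, hcy⟩ := hT2 M1 hM1
  have hs : D1 ⊆ D2ᶜ := fun e he => Finset.mem_compl.2 fun h' => (Finset.disjoint_left.1 hdj he) h'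
  have hx2 : ECodes (part D1 M2) x := by
    have h3 : part D1 M2 = part D1 M1 := funext fun p => part_mono D1 D2ᶜ hs M2 M1 hp2 p
    rw [h3]
    exact hcx
  obtain ⟨z, hz, hcz⟩ := lks_mem h b D1 D2 d1 d2 h1 h2 hdj M2 (hb M2 hM2) x y hx2 hcy
  refine ⟨M2, hM2, fun p => ?_, x ++ (y ++ z), hT x hx y hy z hz, hcz⟩
  have h3 : (D1 ∪ D2)ᶜ ⊆ D2ᶜ := Finset.compl_subset_compl.2 Finset.subset_union_right
  have h4 : (D1 ∪ D2)ᶜ ⊆ D1ᶜ := Finset.compl_subset_compl.2 Finset.subset_union_left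
  exact (part_mono _ _ h3 M2 M1 hp2 p).trans (part_mono _ _ h4 M1 M hp1 p)

private theorem th_four (p q : Flag G) (h : ed p = ed q) :
    p = q ∨ p = side q ∨ p = across q ∨ p = side (across q) := by
  have h2 : p.1.edge = q.1.edge := congrArg Subtype.val h
  rw [SimpleGraph.dart_edge_eq_iff] at h2
  obtain ⟨d, b⟩ := p
  obtain ⟨d', b'⟩ := q
  simp only at h2
  rcases h2 with rfl | rfl
  · by_cases hb : b = b'
    · rw [hb]
      exact Or.inl rfl
    · have : b = !b' := by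
        cases b <;> cases b' <;> simp_all
      rw [this]
      exact Or.inr (Or.inl rfl)
  · by_cases hb : b = b'
    · rw [hb]
      refine Or.inr (Or.inr (Or.inr ?_))
      unfold side across
      simp
    · have : b = !b' := by
        cases b <;> cases b' <;> simp_all
      rw [this]
      exact Or.inr (Or.inr (Or.inl rfl))

private theorem th_card (D : Finset G.edgeSet) (k : ℕ) (hk : D.card ≤ k) :
    (univ.filter fun p : Flag G => ed p ∈ D).card ≤ 4 * k := by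
  have h1 : (univ.filter fun p : Flag G => ed p ∈ D) ⊆
      D.biUnion fun e => {rp e, side (rp e), across (rp e), side (across (rp e))} := by
    intro p hp
    rw [mem_filter] at hp
    rw [Finset.mem_biUnion]
    refine ⟨ed p, hp.2, ?_⟩
    have h2 := th_four p (rp (ed p)) (BEO.ed_rp _).symm
    simp only [Finset.mem_insert, Finset.mem_singleton]
    exact h2
  refine (Finset.card_le_card h1).trans ?_
  refine (Finset.card_biUnion_le_card_mul D _ 4 fun e _ => ?_).trans ?_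
  · exact Finset.card_le_four
  · omega

private theorem th_dlen (D : Finset G.edgeSet) (d : List Ec) (hd : DCodes D d) : D.card ≤ d.length := by
  have h1 : D.image (fun e => ec e) ⊆ d.toFinset := by
    intro y hy
    obtain ⟨e, he, rfl⟩ := Finset.mem_image.1 hy
    exact List.mem_toFinset.2 ((hd _).2 ⟨e, he, rfl⟩)
  rw [← Finset.card_image_of_injective D (f := fun e => ec e) fun e e' h => BEO.ec_inj h]
  exact (Finset.card_le_card h1).trans (List.toFinset_card_le d)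

theorem base_mem (h : Codes S l) (D : Finset G.edgeSet) (d : List Ec) (hd : DCodes D d) (hlen : d.length ≤ 2) (M : GMap G) :
    ∃ x ∈ bsD l d, ECodes (part D M) x := by
  obtain ⟨o, ho⟩ : ∃ o : Flag G → ℕ, Function.Injective o :=
    ⟨fun p => (Fintype.equivFin (Flag G) p : ℕ), fun p q h => (Fintype.equivFin (Flag G)).injective (Fin.ext h)⟩
  obtain ⟨R, hR⟩ : ∃ R : Finset (Flag G), R =
      univ.filter fun p : Flag G => (ed p ∈ D ∧ ed (M.nxt p) ∈ D) ∧ o p < o (M.nxt p) := ⟨_, rfl⟩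
  have hmem : ∀ p, p ∈ R ↔ (ed p ∈ D ∧ ed (M.nxt p) ∈ D) ∧ o p < o (M.nxt p) := by
    intro p
    rw [hR, mem_filter]
    exact ⟨fun h => h.2, fun h => ⟨mem_univ _, h⟩⟩
  have hinj : Function.Injective M.nxt := fun p q h => by
    rw [← M.nxt_nxt p, h, M.nxt_nxt]
  have hcard : R.card ≤ 4 := by
    have h1 : Disjoint R (R.image M.nxt) := by
      rw [Finset.disjoint_left]
      intro p hp hp2
      obtain ⟨q, hq, rfl⟩ := Finset.mem_image.1 hp2
      have h3 := ((hmem _).1 hp).2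
      have h4 := ((hmem _).1 hq).2
      rw [M.nxt_nxt] at h3
      omega
    have h2 : R ∪ R.image M.nxt ⊆ univ.filter fun p : Flag G => ed p ∈ D := by
      intro p hp
      rw [mem_filter]
      refine ⟨mem_univ _, ?_⟩
      rcases mem_union.1 hp with hp | hp
      · exact ((hmem _).1 hp).1.1
      · obtain ⟨q, hq, rfl⟩ := Finset.mem_image.1 hp
        exact ((hmem _).1 hq).1.2
    have h3 := Finset.card_le_card h2
    rw [Finset.card_union_of_disjoint h1, Finset.card_image_of_injective _ hinj] at h3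
    have h4 := th_card D 2 ((th_dlen D d hd).trans hlen)
    omega
  refine ⟨(R.toList.map fun p => [(cod p, cod (M.nxt p)), (cod (M.nxt p), cod p)]).flatten, ?_, ?_⟩
  · unfold bsD
    rw [if_pos (decide_eq_true hlen), BEO.mem_cds]
    refine ⟨_, ?_, ?_, rfl⟩
    · rw [List.length_map, Finset.length_toList]
      exact hcard
    · intro u hu
      obtain ⟨p, hp, rfl⟩ := List.mem_map.1 hu
      obtain ⟨⟨h3, h4⟩, -⟩ := (hmem p).1 (Finset.mem_toList.1 hp)
      rw [List.mem_flatMap]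
      refine ⟨cod p, (mem_fD h D d hd _).2 ⟨p, rfl, h3⟩, List.mem_map.2 ⟨cod (M.nxt p), ?_, rfl⟩⟩
      exact (mem_fD h D d hd _).2 ⟨M.nxt p, rfl, h4⟩
  · rw [th_ec]
    intro w
    rw [th_flat M]
    constructor
    · rintro ⟨p, hp, h5⟩
      obtain ⟨⟨h3, h4⟩, -⟩ := (hmem p).1 (Finset.mem_toList.1 hp)
      rcases h5 with h5 | h5
      · exact ⟨p, ⟨h3, h4⟩, h5⟩
      · refine ⟨M.nxt p, ⟨h4, ?_⟩, ?_⟩
        · rw [M.nxt_nxt]
          exact h3
        · rw [M.nxt_nxt]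
          exact h5
    · rintro ⟨p, ⟨h3, h4⟩, h5⟩
      rcases lt_or_gt_of_ne (fun h => M.nxt_ne p (ho h).symm : o p ≠ o (M.nxt p)) with h6 | h6
      · exact ⟨p, Finset.mem_toList.2 ((hmem p).2 ⟨⟨h3, h4⟩, h6⟩), Or.inl h5⟩
      · refine ⟨M.nxt p, Finset.mem_toList.2 ((hmem _).2 ⟨⟨h4, ?_⟩, ?_⟩), Or.inr ?_⟩
        · rw [M.nxt_nxt]
          exact h3
        · rw [M.nxt_nxt]
          exact h6
        · rw [M.nxt_nxt]
          exact h5

end Pool.Agent.FGT
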