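import Pool.Agent.FGT.TsA
import Pool.Agent.FGT.TsG
import Pool.Agent.FGT.TsH

/-!
# FGT-TsI: the tables are complete

PLAN. `tb_look`: `look` in one round (`look_eq` for `(dks C l).map fun d => (d, f d)`: all pairs with first component `d` are `(d, f d)`;
compare `rnd_look` in SCG/SpF). Induction on the rounds (`hind` is used for the property `∀ r, D.card ≤ r → CplD o D (look ((rdD ..)^[r] [])
(dl l D) [])`, `D.card ≥ 1` since `D` is nonempty, so `r = r' + 1`): the candidates of the last round contain `bsD`, `cand l d`, `cmD`;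
`slD_cpl` with `hb`. Leaf: `hleaf`. Small: `base_mem` (`dl_len`). Union: `D1`, `D2` are nonempty and disjoint, so their cards are at most
`r'`; `join_cpl`; the pairs `(dl l D1, look ..)`, `(dl l D2, look ..)` are members of the table of round `r'` (`dks_mem`, `tb_look`; a member
of `look t d []` comes from a member of the table with first component `d`), `isU` holds (`mem_dl`). `mono`: `CplD` is monotone in the list.
-/

set_option autoImplicit false

open Finset
open scoped Classical

namespace Pool.Agent.FGT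

open Pool.Agent.Helper35.OG (Flag GMap across side)
open Pool.Agent.BEO (F2 ed rp cyc ev cod Codes ec look memb ddp comp cds Pt Ec Inp sd ac ek fl nb)
open Pool.Agent.SCG (edl nx bst bls)

variable {n : ℕ} {G : SimpleGraph (Fin n)} {S : GMap G} {l : Inp}

/-- the induction principle for the sets of edges with a table: leaves, small sets, unions -/
def Indp (S : GMap G) (C c : ℕ) : Prop := ∀ P : Finset G.edgeSet → Prop,
  (∀ (K : Finset (Fin n)) (Q : Finset (Flag G)), Leaf S K Q c → Fam S C (rk K) → P (rk K)) →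
  (∀ D : Finset G.edgeSet, Fam S C D → D.card ≤ 2 → P D) →
  (∀ D1 D2 : Finset G.edgeSet, Fam S C D1 → Fam S C D2 → Fam S C (D1 ∪ D2) → Disjoint D1 D2 → P D1 → P D2 →
    P (D1 ∪ D2)) → P univ

private theorem cpl_mono {o : Bool} {D : Finset G.edgeSet} {T T' : List En} (h : ∀ x ∈ T, x ∈ T')
    (hc : CplD o D T) : CplD o D T' := by
  intro M hM
  obtain ⟨M', h1, h2, x, h3, h4⟩ := hc M hM
  exact ⟨M', h1, h2, x, h x h3, h4⟩

private theorem rd_look (C b m : ℕ) (cand : Inp → List Ec → List En) (l : Inp) (t : Tb) (d : List Ec)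
    (hd : d ∈ dks C l) : look (rdD C b m cand l t) d [] =
      slD b m l d ((bsD l d ++ (cand l d ++ cmD b l t d)).map (nrE l)) := by
  apply Pool.Agent.BEO.look_eq
  · unfold rdD
    exact List.mem_map.2 ⟨d, hd, rfl⟩
  · intro y' hy'
    unfold rdD at hy'
    obtain ⟨q, _, he⟩ := List.mem_map.1 hy'
    rw [Prod.mk.injEq] at he
    obtain ⟨h1, h2⟩ := he
    subst h1
    exact h2.symm

private theorem look_entry {t : Tb} {d : List Ec} {x : En} (hx : x ∈ look t d []) :
    ∃ T, (d, T) ∈ t ∧ x ∈ T := by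
  by_cases h : ∃ y, (d, y) ∈ t
  · exact ⟨_, Pool.Agent.BEO.look_mem t d [] h, hx⟩
  · rw [Pool.Agent.BEO.look_none t d [] fun y hy => h ⟨y, hy⟩] at hx
    exact absurd hx List.not_mem_nil

private theorem memb_iff' {X : Type} [DecidableEq X] (l : List X) (x : X) : memb l x = true ↔ x ∈ l := by
  unfold memb
  rw [List.any_eq_true]
  constructor
  · rintro ⟨y, hy, h⟩
    rw [← of_decide_eq_true h]
    exact hy
  · exact fun h => ⟨x, h, decide_eq_true rfl⟩

private theorem isU_dl (h : Codes S l) (D1 D2 : Finset G.edgeSet) (hdj : Disjoint D1 D2) :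
    isU (dl l (D1 ∪ D2)) (dl l D1) (dl l D2) = true := by
  have hinj : ∀ x y : G.edgeSet, (ec x : Ec) = ec y → x = y := by
    intro x y hxy
    have h1 : dl l ({x} : Finset G.edgeSet) = dl l {y} := by
      unfold dl
      apply List.filter_congr
      intro e _
      simp [hxy]
    have h2 := dl_inj h _ _ h1
    exact Finset.singleton_injective h2
  unfold isU
  rw [Bool.and_eq_true, Bool.and_eq_true, List.all_eq_true, List.all_eq_true, List.all_eq_true]
  refine ⟨⟨?_, ?_⟩, ?_⟩
  · intro e he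
    obtain ⟨x, hx, rfl⟩ := (mem_dl h _ _).1 he
    rw [Bool.or_eq_true, memb_iff', memb_iff']
    rcases Finset.mem_union.1 hx with hx | hx
    · exact Or.inl ((mem_dl h _ _).2 ⟨x, hx, rfl⟩)
    · exact Or.inr ((mem_dl h _ _).2 ⟨x, hx, rfl⟩)
  · intro e he
    obtain ⟨x, hx, rfl⟩ := (mem_dl h _ _).1 he
    rw [Bool.and_eq_true, memb_iff', Bool.not_eq_true', ← Bool.not_eq_true, memb_iff']
    refine ⟨(mem_dl h _ _).2 ⟨x, Finset.mem_union_left _ hx, rfl⟩, fun h2 => ?_⟩
    obtain ⟨y, hy, hxy⟩ := (mem_dl h _ _).1 h2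
    have := hinj x y hxy
    subst this
    exact Finset.disjoint_left.1 hdj hx hy
  · intro e he
    obtain ⟨x, hx, rfl⟩ := (mem_dl h _ _).1 he
    rw [memb_iff']
    exact (mem_dl h _ _).2 ⟨x, Finset.mem_union_right _ hx, rfl⟩

theorem tb_cpl (h : Codes S l) (hG : G.Connected) (hn : 2 ≤ n) (C b c : ℕ) (o : Bool) (cand : Inp → List Ec → List En)
    (hind : Indp S C c)
    (hb : ∀ M : GMap G, Opt o M → ∀ D : Finset G.edgeSet, (mix D S).card ≤ C → (mix D M).card ≤ b)
    (hleaf : ∀ (K : Finset (Fin n)) (Q : Finset (Flag G)), Leaf S K Q c → ∀ d, DCodes (G := G) (rk K) d →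
      CplD o (rk K : Finset G.edgeSet) (cand l d)) :
    CplD o (univ : Finset G.edgeSet) (enD C b (mm C b) cand l) := by
  -- one round
  have step : ∀ D : Finset G.edgeSet, Fam S C D → ∀ r, CplD o D (bsD l (dl l D) ++
      (cand l (dl l D) ++ cmD b l ((rdD C b (mm C b) cand l)^[r] []) (dl l D))) →
      CplD o D (look ((rdD C b (mm C b) cand l)^[r + 1] []) (dl l D) []) := by
    intro D hD r hc
    rw [Function.iterate_succ_apply', rd_look _ _ _ _ _ _ _ (dks_mem h C D hD)]
    exact slD_cpl h hG C b o D (dl l D) (mem_dl h D) hD.2.2 (fun M hM => hb M hM D hD.2.2) _ hc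
  have main := hind (fun D => ∀ r, D.card ≤ r →
    CplD o D (look ((rdD C b (mm C b) cand l)^[r] []) (dl l D) [])) ?_ ?_ ?_
  · have h1 := main ((edl l).length + 1) (by rw [← dl_len h univ, dl_univ h]; omega)
    rw [dl_univ h] at h1
    exact h1
  · intro K Q hL hF r hr
    obtain ⟨r, rfl⟩ : ∃ r', r = r' + 1 := ⟨r - 1, by have := hF.1.card_pos; omega⟩
    refine step _ hF r (cpl_mono ?_ (hleaf K Q hL (dl l (rk K)) (mem_dl h _)))
    intro x hx
    exact List.mem_append_right _ (List.mem_append_left _ hx)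
  · intro D hF h2 r hr
    obtain ⟨r, rfl⟩ : ∃ r', r = r' + 1 := ⟨r - 1, by have := hF.1.card_pos; omega⟩
    refine step _ hF r ?_
    intro M hM
    obtain ⟨x, hx, hxc⟩ := base_mem h D (dl l D) (mem_dl h D) (by rw [dl_len h]; exact h2) M
    exact ⟨M, hM, fun _ => rfl, x, List.mem_append_left _ hx, hxc⟩
  · intro D1 D2 h1 h2 h12 hdj hp1 hp2 r hr
    have hc : (D1 ∪ D2).card = D1.card + D2.card := Finset.card_union_of_disjoint hdj
    have c1 := h1.1.card_pos
    have c2 := h2.1.card_pos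
    obtain ⟨r, rfl⟩ : ∃ r', r = r' + 1 := ⟨r - 1, by omega⟩
    refine step _ h12 r ?_
    refine join_cpl h b o D1 D2 (dl l D1) (dl l D2) (mem_dl h D1) (mem_dl h D2) hdj
      (fun M hM => hb M hM D1 h1.2.2) _ _ _ (hp1 r (by omega)) (hp2 r (by omega)) ?_
    intro x hx y hy z hz
    obtain ⟨T1, hT1, hx⟩ := look_entry hx
    obtain ⟨T2, hT2, hy⟩ := look_entry hy
    refine List.mem_append_right _ (List.mem_append_right _ ?_)
    unfold cmD
    refine List.mem_flatMap.2 ⟨_, hT1, List.mem_flatMap.2 ⟨_, hT2, ?_⟩⟩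
    rw [if_pos (isU_dl h D1 D2 hdj)]
    exact List.mem_flatMap.2 ⟨x, hx, List.mem_flatMap.2 ⟨y, hy, List.mem_map.2 ⟨z, hz, rfl⟩⟩⟩

end Pool.Agent.FGT
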