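import Pool.Agent.FGT.DcY
import Pool.Agent.FGT.DcG
import Pool.Agent.FGT.DcB
import Pool.Agent.FGT.TsI

/-!
# FGT-DcZ: the induction principle holds for reduced maps

PLAN. `1 ≤ k`. `exists_K0` gives `K0`. Claim: for every region `(W, X)` and every component `D ⊆ rv W X` for `KR S K0 X`, `P D`. Induction on the card of `rv W X`. If
`Good S (rv W X) K0` then `Good S D (KR S K0 X)` (monotone: `D ⊆ rv W X`, `K0 ⊆ KR S K0 X`), `good_ind` with `kr_card`. Otherwise `reg_split`; `cut_ind` from `K = KR S K0 X` to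
`K' = K ∪ (KR S K0 X1 ∪ KR S K0 X2)` (card at most `3 * 80 * k`). Let `D' ⊆ D` be a component for `K'`. `D' ⊆ rv W X1` or `D' ⊆ rv W X2`: a corner outside `K'` with an edge in
`rv W X1` has its other edge in `W` (as `K0 ⊆ K'`) and in no member of `X1` (as `dlt S A ⊆ K'`), so in `rv W X1`. Say `D' ⊆ rv W X1`: `D'` is a component for `KR S K0 X1`, because a
flag over `rv W X1` is in `K'` iff it is in `KR S K0 X1`, and the steps from `rv W X1` at corners outside `KR S K0 X1` stay in `rv W X1`. So `P D'` by induction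
(`rv W X1` is smaller because `rv W X2` is not empty and disjoint from it). Finally `cut_ind` from `∅` (`univ_cm`) to `K0`: every component `W` for `K0` is the region `(W, ∅)` with
`rv W ∅ = W`, `KR S K0 ∅ = K0`.
-/

set_option autoImplicit false

open Finset
open scoped Classical

namespace Pool.Agent.FGT

open Pool.Agent.Helper35.OG (Flag GMap across side)
open Pool.Agent.BEO (F2 ed rp cyc ev bdF nb)

section gen

variable {V : Type} {G : SimpleGraph V} [Fintype V] {S : GMap G}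

private theorem dcz_nc {K : Finset (Flag G)} (hK : NC S K) {p : Flag G} (hp : p ∉ K) : S.nxt p ∉ K := by
  intro h
  apply hp
  have := hK _ h
  rwa [S.nxt_nxt] at this

private theorem dcz_iff {K : Finset (Flag G)} {D : Finset G.edgeSet} (hD : ∀ x y, hR S K x y → (x ∈ D ↔ y ∈ D))
    {x y : G.edgeSet} (h : Relation.EqvGen (hR S K) x y) : x ∈ D ↔ y ∈ D := by
  induction h with
  | rel x y h => exact hD x y h
  | refl x => exact Iff.rfl
  | symm x y _ ih => exact ih.symm
  | trans x y z _ _ ih1 ih2 => exact ih1.trans ih2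

private theorem dcz_mono {K K' : Finset (Flag G)} (hK : K ⊆ K') {x y : G.edgeSet}
    (h : Relation.EqvGen (hR S K') x y) : Relation.EqvGen (hR S K) x y := by
  induction h with
  | rel a b h =>
    obtain ⟨p, hp, h1, h2⟩ := h
    exact Relation.EqvGen.rel _ _ ⟨p, fun h => hp (hK h), h1, h2⟩
  | refl a => exact Relation.EqvGen.refl a
  | symm a b _ ih => exact Relation.EqvGen.symm _ _ ih
  | trans a b c _ _ ih1 ih2 => exact Relation.EqvGen.trans _ _ _ ih1 ih2

private theorem dcz_k0 (K0 : Finset (Flag G)) (X : Finset (Finset G.edgeSet)) : K0 ⊆ KR S K0 X :=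
  Finset.subset_union_left

private theorem dcz_one {K0 K' : Finset (Flag G)} {W : Finset G.edgeSet} {X : Finset (Finset G.edgeSet)}
    (h : Rg S K0 W X) (hs : KR S K0 X ⊆ K') {x y : G.edgeSet} (hxy : hR S K' x y) (hx : x ∈ rv W X) : y ∈ rv W X := by
  obtain ⟨p, hp, rfl, rfl⟩ := hxy
  unfold rv at hx ⊢
  rw [Finset.mem_filter] at hx ⊢
  obtain ⟨hW, hA⟩ := hx
  refine ⟨?_, fun A hAX hA' => ?_⟩
  · exact (h.comp.2 _ hW _).2 (Relation.EqvGen.rel _ _ ⟨p, fun hp0 => hp (hs (dcz_k0 K0 X hp0)), rfl, rfl⟩)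
  · apply hp
    apply hs
    unfold KR
    refine Finset.mem_union_right _ (Finset.mem_biUnion.2 ⟨A, hAX, ?_⟩)
    unfold dlt
    rw [Finset.mem_filter]
    exact ⟨Finset.mem_univ _, fun hc => hA A hAX (hc.2 hA')⟩

private theorem dcz_sym {K : Finset (Flag G)} (hK : NC S K) {x y : G.edgeSet} (h : hR S K x y) : hR S K y x := by
  obtain ⟨p, hp, h1, h2⟩ := h
  exact ⟨S.nxt p, dcz_nc hK hp, h2, by rw [S.nxt_nxt]; exact h1⟩

private theorem dcz_main {K0 K' : Finset (Flag G)} {W : Finset G.edgeSet} {X : Finset (Finset G.edgeSet)}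
    (h : Rg S K0 W X) (hK : NC S (KR S K0 X)) (hK' : NC S K') (hs : KR S K0 X ⊆ K')
    (hp : ∀ p, ed p ∈ rv W X → p ∈ K' → p ∈ KR S K0 X) {D : Finset G.edgeSet} (hD : Cm S K' D) {e : G.edgeSet}
    (he : e ∈ D) (he' : e ∈ rv W X) : Cm S (KR S K0 X) D ∧ D ⊆ rv W X := by
  have hsub : D ⊆ rv W X := by
    intro y hy
    refine (dcz_iff (K := K') (D := rv W X) ?_ ((hD.2 e he y).1 hy)).1 he'
    exact fun x y hxy => ⟨dcz_one h hs hxy, dcz_one h hs (dcz_sym hK' hxy)⟩
  refine ⟨⟨hD.1, fun x hx y => ⟨fun hy => dcz_mono hs ((hD.2 x hx y).1 hy), fun hxy => ?_⟩⟩, hsub⟩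
  refine (dcz_iff (K := KR S K0 X) (D := D) ?_ hxy).1 hx
  have key : ∀ a b, hR S (KR S K0 X) a b → a ∈ D → b ∈ D := by
    rintro _ _ ⟨p, hp1, rfl, rfl⟩ ha
    exact (hD.2 _ ha _).2 (Relation.EqvGen.rel _ _ ⟨p, fun hc => hp1 (hp p (hsub ha) hc), rfl, rfl⟩)
  exact fun a b hab => ⟨key a b hab, key b a (dcz_sym hK hab)⟩

private theorem dcz_union {K K' : Finset (Flag G)} (hK : NC S K) (hK' : NC S K') : NC S (K ∪ K') := by
  intro p hp
  rw [Finset.mem_union] at hp ⊢
  exact hp.imp (hK p) (hK' p)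

private theorem dcz_gen [Nontrivial V] (hG : G.Connected) (hr : Reduced S) (h1 : 1 ≤ S.eg) (k : ℕ) (hk : S.eg ≤ k)
    (P : Finset G.edgeSet → Prop)
    (h0 : ∀ (J : Finset V) (Q : Finset (Flag G)), Leaf S J Q (12000 * k) → Fam S (12000 * k) (rk J) → P (rk J))
    (h1' : ∀ D : Finset G.edgeSet, Fam S (12000 * k) D → D.card ≤ 2 → P D)
    (h2 : ∀ D1 D2 D3 : Finset G.edgeSet, (∀ e, e ∈ D3 ↔ e ∈ D1 ∨ e ∈ D2) → Fam S (12000 * k) D1 →
      Fam S (12000 * k) D2 → Fam S (12000 * k) D3 → Disjoint D1 D2 → P D1 → P D2 → P D3)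
    (U : Finset G.edgeSet) (hU : ∀ e, e ∈ U) : P U := by
  have h2' : ∀ D1 D2 : Finset G.edgeSet, Fam S (12000 * k) D1 → Fam S (12000 * k) D2 →
      Fam S (12000 * k) (D1 ∪ D2) → Disjoint D1 D2 → P D1 → P D2 → P (D1 ∪ D2) :=
    fun D1 D2 => h2 D1 D2 (D1 ∪ D2) fun e => Finset.mem_union
  have hUu : U = univ := Finset.ext fun e => ⟨fun _ => Finset.mem_univ e, fun _ => hU e⟩
  rw [hUu]
  obtain ⟨K0, hK0, hc0, hS0⟩ := exists_K0 hG S k hk
  have claim : ∀ N : ℕ, ∀ (W : Finset G.edgeSet) (X : Finset (Finset G.edgeSet)), Rg S K0 W X →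
      (rv W X).card = N → ∀ D, Cm S (KR S K0 X) D → D ⊆ rv W X → P D := by
    intro N
    induction N using Nat.strong_induction_on with
    | _ N ih =>
      intro W X h hN D hD hsub
      obtain ⟨hKn, hKc⟩ := kr_card hG S k hk K0 hK0 hc0 W X h
      by_cases hb : Good S (rv W X) K0
      · refine good_ind hG S hr h1 k hk P h0 h1' h2' (KR S K0 X) hKn hKc D hD ?_
        intro Y hY hdj hYD
        exact hb Y hY (Finset.disjoint_of_subset_right (dcz_k0 K0 X) hdj) fun p hp => hsub (hYD p hp)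
      · obtain ⟨X1, X2, hR1, hR2, hdj, hun, hne1, hne2, hk1, hk2⟩ := reg_split hG S hr K0 hK0 hS0 W X h hb
        obtain ⟨hKn1, hKc1⟩ := kr_card hG S k hk K0 hK0 hc0 W X1 hR1
        obtain ⟨hKn2, hKc2⟩ := kr_card hG S k hk K0 hK0 hc0 W X2 hR2
        have hcu : (rv W X1).card + (rv W X2).card = N := by
          rw [← Finset.card_union_of_disjoint hdj, hun, hN]
        have hp1 := Finset.card_pos.2 hne1
        have hp2 := Finset.card_pos.2 hne2
        have hK' : NC S (KR S K0 X ∪ (KR S K0 X1 ∪ KR S K0 X2)) := dcz_union hKn (dcz_union hKn1 hKn2)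
        refine cut_ind S (12000 * k) P h2' (KR S K0 X) (KR S K0 X ∪ (KR S K0 X1 ∪ KR S K0 X2)) hKn hK'
          Finset.subset_union_left ?_ D hD ?_
        · have g1 := Finset.card_union_le (KR S K0 X) (KR S K0 X1 ∪ KR S K0 X2)
          have g2 := Finset.card_union_le (KR S K0 X1) (KR S K0 X2)
          omega
        · intro D' hD' hsD
          obtain ⟨e, he⟩ := hD'.1
          have he2 : e ∈ rv W X1 ∪ rv W X2 := by
            rw [hun]
            exact hsub (hsD he)
          rcases Finset.mem_union.1 he2 with he2 | he2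
          · obtain ⟨g1, g2⟩ := dcz_main hR1 hKn1 hK'
              (Finset.subset_union_left.trans Finset.subset_union_right) hk1 hD' he he2
            exact ih _ (by omega) W X1 hR1 rfl D' g1 g2
          · obtain ⟨g1, g2⟩ := dcz_main hR2 hKn2 hK'
              (Finset.subset_union_right.trans Finset.subset_union_right) hk2 hD' he he2
            exact ih _ (by omega) W X2 hR2 rfl D' g1 g2
  refine cut_ind S (12000 * k) P h2' ∅ K0 (fun p hp => absurd hp (Finset.notMem_empty p)) hK0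
    (Finset.empty_subset _) (by omega) univ (univ_cm hG S) ?_
  intro D' hD' _
  have hrv : rv D' (∅ : Finset (Finset G.edgeSet)) = D' := by
    unfold rv
    simp
  have hKR : KR S K0 (∅ : Finset (Finset G.edgeSet)) = K0 := by
    unfold KR
    simp
  refine claim _ D' ∅ ⟨hD', ?_, ?_, ?_, ?_, ?_, ?_⟩ rfl D' ?_ ?_
  · exact fun A hA => absurd hA (Finset.notMem_empty A)
  · exact fun A hA => absurd hA (Finset.notMem_empty A)
  · exact fun A hA => absurd hA (Finset.notMem_empty A)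
  · exact fun A hA => absurd hA (Finset.notMem_empty A)
  · exact fun A hA => absurd hA (Finset.notMem_empty A)
  · exact fun A hA => absurd hA (Finset.notMem_empty A)
  · rw [hKR]
    exact hD'
  · rw [hrv]

end gen

variable {n : ℕ} {G : SimpleGraph (Fin n)} {S : GMap G}

theorem dec_indp (hG : G.Connected) (hn : 2 ≤ n) (hr : Reduced S) (h1 : 1 ≤ S.eg) (k : ℕ) (hk : S.eg ≤ k) :
    Indp S (12000 * k) (12000 * k) := by
  haveI : Nontrivial (Fin n) := Fin.nontrivial_iff_two_le.2 hn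
  intro P h0 h1' h2
  refine dcz_gen hG hr h1 k hk P h0 h1' ?_ _ fun e => Finset.mem_univ e
  intro D1 D2 D3 h3
  have hD : D3 = D1 ∪ D2 := Finset.ext fun e => (h3 e).trans Finset.mem_union.symm
  subst hD
  exact h2 D1 D2

end Pool.Agent.FGT
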