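import Pool.Agent.EPH.Map
import Pool.Agent.BEO.CodS

/-!
# FGT: parts of a map, leaves (definitions)

`D` is a set of edges of `G`, `M` a map of `G`. The part of `M` at `D` consists of the corners both flags of which lie over
`D`. Entries of the tables of the algorithm code such parts.
-/

set_option autoImplicit false

open Finset
open scoped Classical

namespace Pool.Agent.FGT

open Pool.Agent.BEO
open Pool.Agent.Helper35.OG hiding F2 dg

section parts

variable {V : Type} {G : SimpleGraph V}

/-- the part of the map `M` at the edges of `D`: `nxt` on the corners inside, the identity elsewhere -/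
noncomputable def part (D : Finset G.edgeSet) (M : GMap G) (p : Flag G) : Flag G :=
  if ed p ∈ D ∧ ed (M.nxt p) ∈ D then M.nxt p else p

/-- the flags over `D` whose corner has its other flag outside `D` -/
noncomputable def mix [Fintype V] (D : Finset G.edgeSet) (M : GMap G) : Finset (Flag G) :=
  univ.filter fun p => ed p ∈ D ∧ ed (M.nxt p) ∉ D

/-- the edges with an end in `K` -/
noncomputable def rk [Fintype V] (K : Finset V) : Finset G.edgeSet := univ.filter fun e => ∃ v ∈ K, v ∈ e.1

/-- `M` has the smallest Euler genus of all maps (of all orientable maps, if `o` holds) of `G` -/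
def Opt (o : Bool) (M : GMap G) : Prop :=
  (o = true → M.Orientable) ∧ ∀ M' : GMap G, (o = true → M'.Orientable) → M.eg ≤ M'.eg

/-- the corner of `p` lies inside `D` and is not in `Q` -/
def Gd (S : GMap G) (D : Finset G.edgeSet) (Q : Finset (Flag G)) (p : Flag G) : Prop :=
  ed p ∈ D ∧ ed (S.nxt p) ∈ D ∧ p ∉ Q

/-- A leaf: `K` is a connected set of vertices with few neighbours outside; the vertices of `K` have at least three
neighbours; away from a few corners (`Q`) at vertices outside `K`, the embedding of the edges with an end in `K` is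
polyhedral. -/
structure Leaf [Fintype V] (S : GMap G) (K : Finset V) (Q : Finset (Flag G)) (c : ℕ) : Prop where
  ne : K.Nonempty
  cn : ∀ u ∈ K, ∀ v ∈ K, Relation.ReflTransGen (fun x y => G.Adj x y ∧ y ∈ K) u v
  bd : (univ.filter fun v => v ∉ K ∧ ∃ w ∈ K, G.Adj v w).card ≤ c
  deg : ∀ v ∈ K, 3 ≤ (nb G v).card
  mx : (mix (rk K) S).card ≤ c
  qc : Q.card ≤ c
  qn : ∀ p ∈ Q, S.nxt p ∈ Q
  qk : ∀ p ∈ Q, p.1.fst ∉ K
  one : ∀ p q : Flag G, Gd S (rk K) Q p → Gd S (rk K) Q q → p.1.fst = q.1.fst → S.face p = S.face q →
    q = p ∨ q = S.nxt p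
  two : ∀ p q p' q' : Flag G, Gd S (rk K) Q p → Gd S (rk K) Q q → Gd S (rk K) Q p' → Gd S (rk K) Q q' →
    p.1.fst = q.1.fst → p'.1.fst = q'.1.fst → p.1.fst ≠ p'.1.fst →
    S.face p = S.face p' → S.face q = S.face q' → S.face p ≠ S.face q →
    ∃ r : Flag G, r.1.fst = p.1.fst ∧ r.1.snd = p'.1.fst ∧ ed r ∈ rk K ∧
      (p = r ∨ p = S.nxt r) ∧ (q = side r ∨ q = S.nxt (side r)) ∧
      (p' = across r ∨ p' = S.nxt (across r)) ∧ (q' = side (across r) ∨ q' = S.nxt (side (across r)))

end parts

section codes

/-- the entries of the tables: lists of pairs of codes of flags -/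
abbrev Ent : Type := List (Pt × Pt)

variable {n : ℕ} {G : SimpleGraph (Fin n)}

/-- the entry `x` codes the function `L` on the flags (its fixed points are not listed) -/
def ECodes (L : Flag G → Flag G) (x : Ent) : Prop :=
  ∀ y, y ∈ x ↔ ∃ p : Flag G, L p ≠ p ∧ y = (cod p, cod (L p))

/-- the members of the list `d` are the codes of the edges of `D` -/
def DCodes (D : Finset G.edgeSet) (d : List Ec) : Prop := ∀ y, y ∈ d ↔ ∃ e ∈ D, y = ec e

end codes

end Pool.Agent.FGT
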