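import Pool.Agent.FGT.AlDef
import Pool.Agent.BEO.FrmRank
import Pool.Agent.Helper35.OG.Upper

/-!
# FGT-RsA: deleting one edge

PLAN. Let `e0` be the edge `ab`, `G' = G.deleteEdges {e0}`, every vertex has an edge of `G'` at it (`G'` connected, `V` nontrivial). For a flag `p` of
`G'` let `q = M.nxt (fi h p)`; if `q` is not over `e0`, `nxt' p` is the flag of `G'` given by `q`; otherwise by `M.nxt (side q)`, which is not over `e0` (the flags over
`e0` at the vertex are `q`, `side q`; `M.nxt (side q) = q` would give `side q = M.nxt q = fi h p`; `M.nxt (side q) ≠ side q`). Involution: clear. `conn`: map a chain for `M` to a chain for `M'`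
(send the flags over `e0` at a vertex to the flag before them, e.g. use a class function: a function invariant under `nxt'` and `side` on the flags
of `G'` at a vertex extends to the flags of `G` at the vertex: `W (e0-flag q) = W (the flag of G' paired with q)`; the two sides of `e0` get the same value, since
otherwise `W` .. ; or use `conn_of` in Helper35/OG/Upper, or the cyclic enumeration `cf` in EPH/LRot). `FRes`: if `IsL M w.1 L` with `w.1 = xt z.1` then `IsL M' z.1 (L ∘ fi h)`:
at a corner over `e0` the value passes `e0`, where `w.1 e0 = 0`. Then `frm_eq` and `dL_eq` (BEO). Orientability: `κ ∘ fi h` changes at the corners of `M'` (three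
changes of `κ` in the second case). Last statement: let `κ'` be given, the end `w` of `e0` not in `I` (if both ends are in `I` extend in any way to
the four flags of `e0`). The flags of `e0` at `w`: `x = M.nxt (fi h p)`, `side x = M.nxt (fi h q)` with `M'.nxt p = q`; put `κ x = κ' q`, `κ (side x) = κ' q + 1`, and the same on the
other end (`κ (across x) = κ x + 1`, ..). The corner `side x`, `q` is good, the corner `x`, `p` is bad iff `κ' p = κ' q`, iff the corner of `p` in `M'` is bad. At `I` nothing is counted.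
-/

set_option autoImplicit false

open Finset
open scoped Classical

namespace Pool.Agent.FGT

open Pool.Agent.Helper35.OG (Flag GMap across side)
open Pool.Agent.BEO (F2 ed rp cyc ev bdF nb)
open Pool.Agent.Helper35.OG (IsBand)
open Pool.Agent.BEO (frm IsL dL)
open Pool.Agent.EPH (IsBase cf)

variable {V : Type} {G : SimpleGraph V} [Fintype V]

section aux

variable {G' G : SimpleGraph V}

private theorem fi_inj (h : G' ≤ G) {p q : Flag G'} (hpq : fi h p = fi h q) : p = q := by
  rcases p with ⟨⟨x, hx⟩, s⟩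
  rcases q with ⟨⟨y, hy⟩, t⟩
  have h1 := congrArg (fun r : Flag G => r.1.toProd) hpq
  have h2 := congrArg (fun r : Flag G => r.2) hpq
  simp only [fi] at h1 h2
  subst h1
  subst h2
  rfl

private theorem fi_side (h : G' ≤ G) (p : Flag G') : fi h (side p) = side (fi h p) := rfl

private theorem fi_across (h : G' ≤ G) (p : Flag G') : fi h (across p) = across (fi h p) := rfl

private theorem fi_fst (h : G' ≤ G) (p : Flag G') : (fi h p).1.fst = p.1.fst := rfl

private theorem fi_ed (h : G' ≤ G) (p : Flag G') : (ed (fi h p)).1 = (ed p).1 := rfl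

private theorem xt_fi (h : G' ≤ G) (z : G'.edgeSet → F2) (p : Flag G') : xt G' G z (ed (fi h p)) = z (ed p) := by
  unfold xt
  rw [dif_pos (show (ed (fi h p)).1 ∈ G'.edgeSet from (ed p).2)]
  rfl

private theorem xt_ed (h : G' ≤ G) (z : G'.edgeSet → F2) (e : G'.edgeSet) : xt G' G z ⟨e.1, SimpleGraph.edgeSet_mono h e.2⟩ = z e := by
  unfold xt
  rw [dif_pos e.2]

private theorem xt_zero (z : G'.edgeSet → F2) (e : G.edgeSet) (he : e.1 ∉ G'.edgeSet) : xt G' G z e = 0 := by
  unfold xt
  rw [dif_neg he]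

variable (e0 : Sym2 V) (hA : ∀ a b, G'.Adj a b ↔ G.Adj a b ∧ s(a, b) ≠ e0)

include hA in
private theorem fi_ne (h : G' ≤ G) (p : Flag G') : (fi h p).1.edge ≠ e0 := ((hA _ _).1 p.1.adj).2

include hA in
private theorem fi_ex (h : G' ≤ G) (q : Flag G) (hq : q.1.edge ≠ e0) : ∃ p : Flag G', fi h p = q :=
  ⟨(⟨q.1.toProd, (hA _ _).2 ⟨q.1.adj, hq⟩⟩, q.2), rfl⟩

private theorem ov_two {q r : Flag G} (hq : q.1.edge = e0) (hr : r.1.edge = e0) (h : r.1.fst = q.1.fst) :
    r = q ∨ r = side q := by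
  have h1 : r.1 = q.1 := by
    rcases (SimpleGraph.dart_edge_eq_iff _ _).1 (hr.trans hq.symm) with h2 | h2
    · exact h2
    · exfalso
      have h3 : r.1.fst = q.1.snd := by rw [h2]; rfl
      exact q.1.adj.ne (h.symm.trans h3)
  rcases r with ⟨r1, r2⟩
  rcases q with ⟨q1, q2⟩
  simp only at h1
  subst h1
  cases r2 <;> cases q2 <;> simp [side]

private theorem side_edge (q : Flag G) : (side q).1.edge = q.1.edge := rfl

private theorem across_edge (q : Flag G) : (across q).1.edge = q.1.edge := q.1.edge_symm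

include hA in
private theorem nx_ne (h : G' ≤ G) (M : GMap G) (p : Flag G') (hp : (M.nxt (fi h p)).1.edge = e0) :
    (M.nxt (side (M.nxt (fi h p)))).1.edge ≠ e0 := by
  intro h1
  rcases ov_two e0 hp h1 (M.nxt_fst _) with h2 | h2
  · have h3 : side (M.nxt (fi h p)) = fi h p := by
      have h4 := congrArg M.nxt h2
      rwa [M.nxt_nxt, M.nxt_nxt] at h4
    have h5 := fi_ne e0 hA h p
    rw [← h3] at h5
    exact h5 hp
  · exact M.nxt_ne _ h2

include hA in
private theorem nx_ex (h : G' ≤ G) (M : GMap G) (p : Flag G') : ∃ q : Flag G',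
    ((M.nxt (fi h p)).1.edge ≠ e0 → fi h q = M.nxt (fi h p)) ∧
    ((M.nxt (fi h p)).1.edge = e0 → fi h q = M.nxt (side (M.nxt (fi h p)))) := by
  by_cases hp : (M.nxt (fi h p)).1.edge = e0
  · obtain ⟨q, hq⟩ := fi_ex e0 hA h _ (nx_ne e0 hA h M p hp)
    exact ⟨q, fun h1 => absurd hp h1, fun _ => hq⟩
  · obtain ⟨q, hq⟩ := fi_ex e0 hA h _ hp
    exact ⟨q, fun _ => hq, fun h1 => absurd h1 hp⟩

/-- the other flag of the corner of the smaller graph -/
private noncomputable def nx (h : G' ≤ G) (M : GMap G) (p : Flag G') : Flag G' := Classical.choose (nx_ex e0 hA h M p)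

private theorem nx_1 (h : G' ≤ G) (M : GMap G) (p : Flag G') (hp : (M.nxt (fi h p)).1.edge ≠ e0) :
    fi h (nx e0 hA h M p) = M.nxt (fi h p) := (Classical.choose_spec (nx_ex e0 hA h M p)).1 hp

private theorem nx_2 (h : G' ≤ G) (M : GMap G) (p : Flag G') (hp : (M.nxt (fi h p)).1.edge = e0) :
    fi h (nx e0 hA h M p) = M.nxt (side (M.nxt (fi h p))) := (Classical.choose_spec (nx_ex e0 hA h M p)).2 hp

private theorem nx_nx (h : G' ≤ G) (M : GMap G) (p : Flag G') : nx e0 hA h M (nx e0 hA h M p) = p := by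
  apply fi_inj h
  by_cases hp : (M.nxt (fi h p)).1.edge = e0
  · have h1 := nx_2 e0 hA h M p hp
    have h2 : M.nxt (fi h (nx e0 hA h M p)) = side (M.nxt (fi h p)) := by rw [h1, M.nxt_nxt]
    rw [nx_2 e0 hA h M _ (by rw [h2, side_edge]; exact hp), h2, Pool.Agent.Helper35.OG.side_side, M.nxt_nxt]
  · have h1 := nx_1 e0 hA h M p hp
    have h2 : M.nxt (fi h (nx e0 hA h M p)) = fi h p := by rw [h1, M.nxt_nxt]
    rw [nx_1 e0 hA h M _ (by rw [h2]; exact fi_ne e0 hA h p), h2]

private theorem nx_fne (h : G' ≤ G) (M : GMap G) (p : Flag G') : nx e0 hA h M p ≠ p := by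
  intro h0
  have h3 := congrArg (fi h) h0
  by_cases hp : (M.nxt (fi h p)).1.edge = e0
  · rw [nx_2 e0 hA h M p hp] at h3
    have h4 : M.nxt (side (M.nxt (fi h p))) = M.nxt (M.nxt (fi h p)) := by rw [h3, M.nxt_nxt]
    exact Pool.Agent.Helper35.OG.side_ne _ (Pool.Agent.Helper35.OG.nxt_inj M h4)
  · rw [nx_1 e0 hA h M p hp] at h3
    exact M.nxt_ne _ h3

private theorem nx_fst (h : G' ≤ G) (M : GMap G) (p : Flag G') : (nx e0 hA h M p).1.fst = p.1.fst := by
  rw [← fi_fst h, ← fi_fst h]
  by_cases hp : (M.nxt (fi h p)).1.edge = e0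
  · rw [nx_2 e0 hA h M p hp, M.nxt_fst]
    exact M.nxt_fst _
  · rw [nx_1 e0 hA h M p hp]
    exact M.nxt_fst _

include hA in
private theorem ov_nxt [Nontrivial V] (h : G' ≤ G) (hG' : G'.Connected) (M : GMap G) (x : Flag G) (hx : x.1.edge = e0) :
    (M.nxt x).1.edge ≠ e0 := by
  intro h1
  have h2 : M.nxt x = side x := by
    rcases ov_two e0 hx h1 (M.nxt_fst x) with h2 | h2
    · exact absurd h2 (M.nxt_ne x)
    · exact h2
  obtain ⟨p, hp⟩ := Pool.Agent.Helper35.OG.exists_flag hG' x.1.fst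
  have h3 : M.nxt (side x) = x := by rw [← h2, M.nxt_nxt]
  have h4 := Pool.Agent.Helper35.OG.vertex_const M (fun y : Flag G => (y = x ∨ y = side x : Prop))
    (by
      intro y
      apply propext
      constructor
      · rintro (h5 | h5)
        · right
          rw [← h2, ← h5, M.nxt_nxt]
        · left
          rw [← h3, ← h5, M.nxt_nxt]
      · rintro (h5 | h5)
        · right
          rw [h5, h2]
        · left
          rw [h5, h3])
    (by
      intro y
      apply propext
      constructor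
      · rintro (h5 | h5)
        · right
          rw [← h5, Pool.Agent.Helper35.OG.side_side]
        · left
          rw [← Pool.Agent.Helper35.OG.side_side y, h5, Pool.Agent.Helper35.OG.side_side]
      · rintro (h5 | h5)
        · right
          rw [h5]
        · left
          rw [h5, Pool.Agent.Helper35.OG.side_side])
    (show x.1.fst = (fi h p).1.fst from hp.symm)
  have h5 : (fi h p = x ∨ fi h p = side x) := by
    have h6 : (x = x ∨ x = side x) = (fi h p = x ∨ fi h p = side x) := h4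
    rw [← h6]
    exact Or.inl rfl
  rcases h5 with h5 | h5
  · exact fi_ne e0 hA h p (by rw [h5]; exact hx)
  · exact fi_ne e0 hA h p (by rw [h5, side_edge]; exact hx)

/-- the map of the smaller graph -/
private noncomputable def MM [Nontrivial V] (h : G' ≤ G) (hG' : G'.Connected) (M : GMap G) : GMap G' where
  nxt := nx e0 hA h M
  nxt_nxt := nx_nx e0 hA h M
  nxt_ne := nx_fne e0 hA h M
  nxt_fst := nx_fst e0 hA h M
  conn := by
    apply Pool.Agent.Helper35.OG.conn_of
    intro W hW1 hW2 x y hxy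
    obtain ⟨U, hU1, hU2⟩ : ∃ U : Flag G → F2, (∀ p, U (fi h p) = W p) ∧
        ∀ q, q.1.edge = e0 → U q = U (M.nxt q) := by
      have hex : ∀ q : Flag G, ∃ a : F2, (∀ p, fi h p = q → a = W p) ∧
          (q.1.edge = e0 → ∀ p, fi h p = M.nxt q → a = W p) := by
        intro q
        by_cases hq : q.1.edge = e0
        · obtain ⟨p, hp⟩ := fi_ex e0 hA h _ (ov_nxt e0 hA h hG' M q hq)
          refine ⟨W p, fun p' hp' => ?_, fun _ p' hp' => ?_⟩
          · exact absurd hq (by rw [← hp']; exact fi_ne e0 hA h p')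
          · rw [fi_inj h (hp.trans hp'.symm)]
        · obtain ⟨p, hp⟩ := fi_ex e0 hA h _ hq
          refine ⟨W p, fun p' hp' => ?_, fun h' => absurd h' hq⟩
          rw [fi_inj h (hp.trans hp'.symm)]
      choose U hU using hex
      refine ⟨U, fun p => (hU _).1 p rfl, fun q hq => ?_⟩
      obtain ⟨p, hp⟩ := fi_ex e0 hA h _ (ov_nxt e0 hA h hG' M q hq)
      rw [(hU q).2 hq p hp, (hU _).1 p hp]
    have hn : ∀ q, U (M.nxt q) = U q := by
      intro q
      by_cases hq : q.1.edge = e0
      · exact (hU2 q hq).symm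
      · by_cases hq' : (M.nxt q).1.edge = e0
        · rw [hU2 _ hq', M.nxt_nxt]
        · obtain ⟨p, rfl⟩ := fi_ex e0 hA h _ hq
          rw [← nx_1 e0 hA h M p hq', hU1, hU1, hW1]
    have hs : ∀ q, U (side q) = U q := by
      intro q
      by_cases hq : q.1.edge = e0
      · obtain ⟨p, hp⟩ := fi_ex e0 hA h _ (ov_nxt e0 hA h hG' M q hq)
        have h1 : M.nxt (fi h p) = q := by rw [hp, M.nxt_nxt]
        have h2 := nx_2 e0 hA h M p (by rw [h1]; exact hq)
        rw [h1] at h2
        rw [hU2 q hq, hU2 (side q) hq, ← h2, ← hp, hU1, hU1, hW1]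
      · obtain ⟨p, rfl⟩ := fi_ex e0 hA h _ hq
        rw [← fi_side, hU1, hU1, hW2]
    have h3 := Pool.Agent.Helper35.OG.vertex_const M U hn hs (show (fi h x).1.fst = (fi h y).1.fst from hxy)
    rwa [hU1, hU1] at h3

private theorem MM_nxt [Nontrivial V] (h : G' ≤ G) (hG' : G'.Connected) (M : GMap G) (p : Flag G') :
    (MM e0 hA h hG' M).nxt p = nx e0 hA h M p := rfl

private theorem MM_ori [Nontrivial V] (h : G' ≤ G) (hG' : G'.Connected) (M : GMap G) (hM : M.Orientable) :
    (MM e0 hA h hG' M).Orientable := by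
  have hz : ∀ a b c d : F2, a ≠ b → b ≠ c → c ≠ d → a ≠ d := by decide
  obtain ⟨κ, h1, h2⟩ := hM
  refine ⟨fun p => κ (fi h p), fun p => h1 (fi h p), fun p => ?_⟩
  rw [MM_nxt]
  by_cases hp : (M.nxt (fi h p)).1.edge = e0
  · have h3 := nx_2 e0 hA h M p hp
    show κ (fi h (nx e0 hA h M p)) ≠ κ (fi h p)
    rw [h3]
    exact hz _ _ _ _ (h2 _) (h1 _).2 (h2 _)
  · show κ (fi h (nx e0 hA h M p)) ≠ κ (fi h p)
    rw [nx_1 e0 hA h M p hp]
    exact h2 _

private theorem MM_res [Nontrivial V] (h : G' ≤ G) (hG' : G'.Connected) (M : GMap G) (he : e0 ∉ G'.edgeSet) :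
    FRes M (MM e0 hA h hG' M) := by
  intro z z' w w' hw hw'
  obtain ⟨L, hL⟩ := Pool.Agent.BEO.exists_L M w.1 w.2
  have hL' : IsL (MM e0 hA h hG' M) z.1 (fun p => L (fi h p)) := by
    refine ⟨fun p => ?_, fun p => ?_⟩
    · show L (fi h (nx e0 hA h M p)) = L (fi h p)
      by_cases hp : (M.nxt (fi h p)).1.edge = e0
      · rw [nx_2 e0 hA h M p hp, hL.1]
        have h1 := hL.2 (M.nxt (fi h p))
        have h2 : w.1 (ed (M.nxt (fi h p))) = 0 := by
          rw [hw]
          apply xt_zero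
          show (M.nxt (fi h p)).1.edge ∉ G'.edgeSet
          rw [hp]
          exact he
        rw [h2] at h1
        rw [← CharTwo.add_eq_zero.1 h1, hL.1]
      · rw [nx_1 e0 hA h M p hp, hL.1]
    · show L (fi h p) + L (fi h (side p)) = z.1 (ed p)
      rw [fi_side, hL.2, hw, xt_fi]
  rw [Pool.Agent.BEO.frm_eq _ z z' hL', Pool.Agent.BEO.frm_eq _ w w' hL]
  refine Fintype.sum_of_injective (fun e : G'.edgeSet => (⟨e.1, SimpleGraph.edgeSet_mono h e.2⟩ : G.edgeSet)) ?_ _ _ ?_ ?_
  · intro e e' hee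
    have h2 : (⟨e.1, SimpleGraph.edgeSet_mono h e.2⟩ : G.edgeSet) = ⟨e'.1, SimpleGraph.edgeSet_mono h e'.2⟩ := hee
    exact Subtype.ext (congrArg (fun t : G.edgeSet => t.1) h2)
  · intro e hne
    have h1 : w'.1 e = 0 := by
      rw [hw']
      apply xt_zero
      intro h2
      exact hne ⟨⟨e.1, h2⟩, rfl⟩
    rw [h1, mul_zero]
  · intro e
    rw [hw', xt_ed h]
    congr 1
    obtain ⟨p, rfl⟩ := Pool.Agent.BEO.ed_surj e
    rw [Pool.Agent.BEO.dL_eq hL' p]
    exact (Pool.Agent.BEO.dL_eq hL (fi h p)).symm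

private theorem MM_bo [Nontrivial V] (h : G' ≤ G) (hG' : G'.Connected) (M : GMap G) (he : e0 ∈ G.edgeSet)
    (I : Finset V) (hI : ∃ v ∈ I, v ∈ e0) (κ' : Flag G' → F2) (hκ : IsBand κ') :
    ∃ κ : Flag G → F2, IsBand κ ∧ (bo M κ I).card ≤ (bo (MM e0 hA h hG' M) κ' I).card := by
  have hz1 : ∀ a b : F2, a ≠ b ↔ a = b + 1 := by decide
  -- the end at which the corners count
  obtain ⟨x0, hx0, hx1⟩ : ∃ x : Flag G, x.1.edge = e0 ∧ x.1.snd ∈ I := by
    obtain ⟨v, hv, hve⟩ := hI
    obtain ⟨q, hq⟩ := Pool.Agent.BEO.ed_surj (⟨e0, he⟩ : G.edgeSet)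
    have hq' : q.1.edge = e0 := congrArg Subtype.val hq
    rw [← hq'] at hve
    have h1 : v = q.1.fst ∨ v = q.1.snd := by
      have h2 : v ∈ s(q.1.fst, q.1.snd) := hve
      exact Sym2.mem_iff.1 h2
    rcases h1 with h1 | h1
    · refine ⟨across q, ?_, ?_⟩
      · rw [across_edge, hq']
      · show q.1.fst ∈ I
        rw [← h1]
        exact hv
    · exact ⟨q, hq', by rw [← h1]; exact hv⟩
  obtain ⟨p0, hp0⟩ := fi_ex e0 hA h _ (ov_nxt e0 hA h hG' M (side x0) hx0)
  obtain ⟨p1, hp1⟩ := fi_ex e0 hA h _ (ov_nxt e0 hA h hG' M x0 hx0)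
  have hn0 : nx e0 hA h M p1 = p0 := by
    apply fi_inj h
    have h1 : M.nxt (fi h p1) = x0 := by rw [hp1, M.nxt_nxt]
    rw [nx_2 e0 hA h M p1 (by rw [h1]; exact hx0), h1, hp0]
  -- the four flags of the edge
  have four : ∀ q : Flag G, q.1.edge = e0 → q = x0 ∨ q = side x0 ∨ q = across x0 ∨ q = side (across x0) := by
    intro q hq
    have h1 : q.1 = x0.1 ∨ q.1 = x0.1.symm := (SimpleGraph.dart_edge_eq_iff _ _).1 (hq.trans hx0.symm)
    rcases q with ⟨q1, q2⟩
    rcases x0 with ⟨y1, y2⟩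
    simp only at h1
    rcases h1 with rfl | rfl
    · cases q2 <;> cases y2 <;> simp [side, across]
    · cases q2 <;> cases y2 <;> simp [side, across]
  have hex : ∀ q : Flag G, ∃ a : F2, (∀ p, fi h p = q → a = κ' p) ∧
      (q.1.edge = e0 → a = if q = x0 ∨ q = side (across x0) then κ' p0 else κ' p0 + 1) := by
    intro q
    by_cases hq : q.1.edge = e0
    · refine ⟨_, fun p hp => ?_, fun _ => rfl⟩
      exact absurd hq (by rw [← hp]; exact fi_ne e0 hA h p)
    · obtain ⟨p, hp⟩ := fi_ex e0 hA h _ hq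
      refine ⟨κ' p, fun p' hp' => ?_, fun h' => absurd h' hq⟩
      rw [fi_inj h (hp.trans hp'.symm)]
  choose κ hκ0 using hex
  have k1 : ∀ p, κ (fi h p) = κ' p := fun p => (hκ0 _).1 p rfl
  have as : side (across x0) = across (side x0) := rfl
  have hsx : (side x0).1.edge = e0 := hx0
  have hax : (across x0).1.edge = e0 := by rw [across_edge, hx0]
  have hsax : (side (across x0)).1.edge = e0 := hax
  have d1 : side x0 ≠ x0 := Pool.Agent.Helper35.OG.side_ne x0
  have d2 : x0.1.fst ≠ x0.1.snd := x0.1.adj.ne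
  have d3 : side x0 ≠ side (across x0) := fun h1 => d2 (congrArg (fun r : Flag G => r.1.fst) h1)
  have d4 : across x0 ≠ x0 := fun h1 => d2 (congrArg (fun r : Flag G => r.1.fst) h1).symm
  have d5 : across x0 ≠ side (across x0) := fun h1 => Pool.Agent.Helper35.OG.side_ne (across x0) h1.symm
  have k2 : κ x0 = κ' p0 := by rw [(hκ0 x0).2 hx0, if_pos (Or.inl rfl)]
  have k3 : κ (side (across x0)) = κ' p0 := by rw [(hκ0 _).2 hsax, if_pos (Or.inr rfl)]
  have k4 : κ (side x0) = κ' p0 + 1 := by
    rw [(hκ0 _).2 hsx, if_neg]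
    rintro (h1 | h1)
    · exact d1 h1
    · exact d3 h1
  have k5 : κ (across x0) = κ' p0 + 1 := by
    rw [(hκ0 _).2 hax, if_neg]
    rintro (h1 | h1)
    · exact d4 h1
    · exact d5 h1
  have aa : across (across x0) = x0 := Pool.Agent.Helper35.OG.across_across x0
  have ss : side (side x0) = x0 := Pool.Agent.Helper35.OG.side_side x0
  have hz2 : ∀ a : F2, a + 1 ≠ a := by decide
  have hz3 : ∀ a : F2, a ≠ a + 1 := by decide
  refine ⟨κ, ?_, ?_⟩
  · intro q
    by_cases hq : q.1.edge = e0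
    · rcases four q hq with rfl | rfl | rfl | rfl
      · rw [k5, k4, k2]
        exact ⟨hz2 _, hz2 _⟩
      · rw [← as, ss, k3, k4, k2]
        exact ⟨hz3 _, hz3 _⟩
      · rw [aa, k2, k3, k5]
        exact ⟨hz3 _, hz3 _⟩
      · rw [as, Pool.Agent.Helper35.OG.across_across, ← as, Pool.Agent.Helper35.OG.side_side, k3, k4, k5]
        exact ⟨hz2 _, hz2 _⟩
    · obtain ⟨p, rfl⟩ := fi_ex e0 hA h _ hq
      rw [← fi_across, ← fi_side, k1, k1, k1]
      exact hκ p
  · -- flags of the edge outside `I`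
    have hout : ∀ q : Flag G, q.1.edge = e0 → q.1.fst ∉ I → q = x0 ∨ q = side x0 := by
      intro q hq hqI
      rcases four q hq with h1 | h1 | h1 | h1
      · exact Or.inl h1
      · exact Or.inr h1
      · exact absurd hx1 (by rw [h1] at hqI; exact hqI)
      · exact absurd hx1 (by rw [h1] at hqI; exact hqI)
    have kn0 : κ (M.nxt (side x0)) = κ' p0 := by rw [← hp0, k1]
    have kn1 : κ (M.nxt x0) = κ' p1 := by rw [← hp1, k1]
    have hgood : ∀ q : Flag G, q ∈ bo M κ I → q ≠ side x0 ∧ q ≠ M.nxt (side x0) := by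
      intro q hq
      have h1 := (mem_filter.1 hq).2.2
      refine ⟨?_, ?_⟩
      · rintro rfl
        rw [kn0, k4] at h1
        exact hz3 _ h1
      · rintro rfl
        rw [M.nxt_nxt, kn0, k4] at h1
        exact hz2 _ h1
    have hbad : ∀ q : Flag G, q ∈ bo M κ I → q = x0 ∨ M.nxt q = x0 → κ' p1 = κ' p0 := by
      intro q hq h2
      have h1 := (mem_filter.1 hq).2.2
      rcases h2 with rfl | h2
      · rw [kn1, k2] at h1
        exact h1
      · have h3 : q = M.nxt x0 := by rw [← h2, M.nxt_nxt]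
        rw [h2, k2, h3, kn1] at h1
        exact h1.symm
    -- the injection
    have hphi : ∀ q : Flag G, ∃ p : Flag G', (∀ p', fi h p' = q → p = p') ∧ (q = x0 → p = p0) := by
      intro q
      by_cases hq : q.1.edge = e0
      · exact ⟨p0, fun p' hp' => absurd hq (by rw [← hp']; exact fi_ne e0 hA h p'), fun _ => rfl⟩
      · obtain ⟨p, hp⟩ := fi_ex e0 hA h _ hq
        exact ⟨p, fun p' hp' => fi_inj h (hp.trans hp'.symm), fun h' => absurd hx0 (by rw [← h']; exact hq)⟩
    choose φ hφ using hphi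
    refine card_le_card_of_injOn φ ?_ ?_
    · intro q hq
      have hq0 : q ∈ bo M κ I := hq
      have hqI := (mem_filter.1 hq0).2.1
      have hqk := (mem_filter.1 hq0).2.2
      show φ q ∈ bo (MM e0 hA h hG' M) κ' I
      unfold bo
      rw [mem_filter]
      refine ⟨mem_univ _, ?_⟩
      rw [MM_nxt]
      by_cases hqe : q.1.edge = e0
      · have h1 : q = x0 := by
          rcases hout q hqe hqI with h1 | h1
          · exact h1
          · exact absurd h1 (hgood q hq0).1
        rw [(hφ q).2 h1]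
        have h2 : nx e0 hA h M p0 = p1 := by rw [← hn0, nx_nx]
        refine ⟨?_, ?_⟩
        · have h3 : p0.1.fst = q.1.fst := by
            rw [← fi_fst h, hp0, M.nxt_fst, h1]
            rfl
          rw [h3]
          exact hqI
        · rw [h2]
          exact hbad q hq0 (Or.inl h1)
      · obtain ⟨p, hp⟩ := fi_ex e0 hA h _ hqe
        rw [(hφ q).1 p hp]
        refine ⟨?_, ?_⟩
        · rw [← fi_fst h, hp]
          exact hqI
        · by_cases hqn : (M.nxt q).1.edge = e0
          · have h1 : M.nxt q = x0 := by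
              rcases hout _ hqn (by rw [M.nxt_fst]; exact hqI) with h1 | h1
              · exact h1
              · exact absurd (by rw [← h1, M.nxt_nxt]) (hgood q hq0).2
            have h2 : p = p1 := fi_inj h (by rw [hp, hp1, ← h1, M.nxt_nxt])
            rw [h2, hn0]
            exact (hbad q hq0 (Or.inr h1)).symm
          · have h1 : fi h (nx e0 hA h M p) = M.nxt q := by
              rw [← hp]
              exact nx_1 e0 hA h M p (by rw [hp]; exact hqn)
            rw [← k1, ← k1, h1, hp]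
            exact hqk
    · intro q hq r hr hqr
      have hq0 : q ∈ bo M κ I := hq
      have hr0 : r ∈ bo M κ I := hr
      have key : ∀ y : Flag G, y ∈ bo M κ I → (y = x0 ∧ φ y = p0) ∨ (fi h (φ y) = y ∧ φ y ≠ p0) := by
        intro y hy
        by_cases hye : y.1.edge = e0
        · left
          have h1 : y = x0 := by
            rcases hout y hye (mem_filter.1 hy).2.1 with h1 | h1
            · exact h1
            · exact absurd h1 (hgood y hy).1
          exact ⟨h1, (hφ y).2 h1⟩
        · right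
          obtain ⟨p, hp⟩ := fi_ex e0 hA h _ hye
          rw [(hφ y).1 p hp]
          refine ⟨hp, ?_⟩
          rintro rfl
          exact (hgood y hy).2 (hp.symm.trans hp0)
      rcases key q hq0 with ⟨h1, h2⟩ | ⟨h1, h2⟩ <;> rcases key r hr0 with ⟨h3, h4⟩ | ⟨h3, h4⟩
      · rw [h1, h3]
      · exact absurd (hqr.symm.trans h2) h4
      · exact absurd (hqr.trans h4) h2
      · rw [← h1, ← h3, hqr]

end aux

theorem xt_mem {G' G : SimpleGraph V} (h : G' ≤ G) (z : G'.edgeSet → F2) (hz : z ∈ cyc G') : xt G' G z ∈ cyc G := by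
  intro v
  have h1 := hz v
  rw [← h1]
  symm
  refine Finset.sum_of_injOn (fun d : G'.Dart => (⟨d.toProd, h d.adj⟩ : G.Dart)) ?_ ?_ ?_ ?_
  · intro d _ d' _ hdd
    have h2 := congrArg SimpleGraph.Dart.toProd hdd
    exact SimpleGraph.Dart.ext d d' h2
  · intro d hd
    have h2 := (mem_filter.1 (Finset.mem_coe.1 hd)).2
    exact Finset.mem_coe.2 (mem_filter.2 ⟨mem_univ _, h2⟩)
  · intro d hd hne
    apply xt_zero
    intro h2
    have h3 : d.edge ∈ G'.edgeSet := h2
    have h4 : G'.Adj d.fst d.snd := h3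
    exact hne ⟨⟨d.toProd, h4⟩, Finset.mem_coe.2 (mem_filter.2 ⟨mem_univ _, (mem_filter.1 hd).2⟩), rfl⟩
  · intro d _
    exact (xt_fi h z (d, true)).symm

theorem del_one [Nontrivial V] {G' G : SimpleGraph V} (h : G' ≤ G) (hG' : G'.Connected) (e0 : Sym2 V) (he : e0 ∈ G.edgeSet)
    (hd : G' = G.deleteEdges {e0}) (I : Finset V) (hI : ∃ v ∈ I, v ∈ e0) (M : GMap G) :
    ∃ M' : GMap G', (M.Orientable → M'.Orientable) ∧ FRes M M' ∧
      ∀ κ' : Flag G' → F2, IsBand κ' → ∃ κ : Flag G → F2, IsBand κ ∧ (bo M κ I).card ≤ (bo M' κ' I).card := by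
  have hA : ∀ a b, G'.Adj a b ↔ G.Adj a b ∧ s(a, b) ≠ e0 := by
    intro a b
    rw [hd, SimpleGraph.deleteEdges_adj, Set.mem_singleton_iff]
  have he' : e0 ∉ G'.edgeSet := by
    rw [hd, SimpleGraph.edgeSet_deleteEdges]
    intro h1
    exact h1.2 rfl
  exact ⟨MM e0 hA h hG' M, MM_ori e0 hA h hG' M, MM_res e0 hA h hG' M he', MM_bo e0 hA h hG' M he I hI⟩

end Pool.Agent.FGT
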