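import Pool.Agent.FGT.RdDef
import Pool.Agent.FGT.RsA

/-!
# FGT-RdK: restricting a map to any subgraph
-/

set_option autoImplicit false

open Finset
open scoped Classical

namespace Pool.Agent.FGT

open Pool.Agent.Helper35.OG (Flag GMap across side)
open Pool.Agent.BEO (F2 ed rp cyc ev bdF nb)
open Pool.Agent.BEO (frm IsL)

variable {V : Type} {G : SimpleGraph V} [Fintype V]

section aux

variable {G' G : SimpleGraph V}

private theorem fi_inj (h : G' ≤ G) {p q : Flag G'} (hpq : fi h p = fi h q) : p = q := by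
  rcases p with ⟨⟨x, hx⟩, s⟩
  rcases q with ⟨⟨y, hy⟩, t⟩
  have h1 := congrArg (fun r : Flag G => r.1.toProd) hpq
  have h2 := congrArg (fun r : Flag G => r.2) hpq
  simp only [fi] at h1 h2
  subst h1
  subst h2
  rfl

private theorem fi_side (h : G' ≤ G) (p : Flag G') : fi h (side p) = side (fi h p) := rfl

private theorem fi_across (h : G' ≤ G) (p : Flag G') : fi h (across p) = across (fi h p) := rfl

private theorem fi_fst (h : G' ≤ G) (p : Flag G') : (fi h p).1.fst = p.1.fst := rfl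

private theorem fi_ed (h : G' ≤ G) (p : Flag G') : (ed (fi h p)).1 = (ed p).1 := rfl

private theorem xt_fi (h : G' ≤ G) (z : G'.edgeSet → F2) (p : Flag G') : xt G' G z (ed (fi h p)) = z (ed p) := by
  unfold xt
  rw [dif_pos (show (ed (fi h p)).1 ∈ G'.edgeSet from (ed p).2)]
  rfl

private theorem xt_ed (h : G' ≤ G) (z : G'.edgeSet → F2) (e : G'.edgeSet) : xt G' G z ⟨e.1, SimpleGraph.edgeSet_mono h e.2⟩ = z e := by
  unfold xt
  rw [dif_pos e.2]

private theorem xt_zero (z : G'.edgeSet → F2) (e : G.edgeSet) (he : e.1 ∉ G'.edgeSet) : xt G' G z e = 0 := by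
  unfold xt
  rw [dif_neg he]

variable (e0 : Sym2 V) (hA : ∀ a b, G'.Adj a b ↔ G.Adj a b ∧ s(a, b) ≠ e0)

include hA in
private theorem fi_ne (h : G' ≤ G) (p : Flag G') : (fi h p).1.edge ≠ e0 := ((hA _ _).1 p.1.adj).2

include hA in
private theorem fi_ex (h : G' ≤ G) (q : Flag G) (hq : q.1.edge ≠ e0) : ∃ p : Flag G', fi h p = q :=
  ⟨(⟨q.1.toProd, (hA _ _).2 ⟨q.1.adj, hq⟩⟩, q.2), rfl⟩

private theorem ov_two {q r : Flag G} (hq : q.1.edge = e0) (hr : r.1.edge = e0) (h : r.1.fst = q.1.fst) :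
    r = q ∨ r = side q := by
  have h1 : r.1 = q.1 := by
    rcases (SimpleGraph.dart_edge_eq_iff _ _).1 (hr.trans hq.symm) with h2 | h2
    · exact h2
    · exfalso
      have h3 : r.1.fst = q.1.snd := by rw [h2]; rfl
      exact q.1.adj.ne (h.symm.trans h3)
  rcases r with ⟨r1, r2⟩
  rcases q with ⟨q1, q2⟩
  simp only at h1
  subst h1
  cases r2 <;> cases q2 <;> simp [side]

private theorem side_edge (q : Flag G) : (side q).1.edge = q.1.edge := rfl

private theorem across_edge (q : Flag G) : (across q).1.edge = q.1.edge := q.1.edge_symm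

include hA in
private theorem nx_ne (h : G' ≤ G) (M : GMap G) (p : Flag G') (hp : (M.nxt (fi h p)).1.edge = e0) :
    (M.nxt (side (M.nxt (fi h p)))).1.edge ≠ e0 := by
  intro h1
  rcases ov_two e0 hp h1 (M.nxt_fst _) with h2 | h2
  · have h3 : side (M.nxt (fi h p)) = fi h p := by
      have h4 := congrArg M.nxt h2
      rwa [M.nxt_nxt, M.nxt_nxt] at h4
    have h5 := fi_ne e0 hA h p
    rw [← h3] at h5
    exact h5 hp
  · exact M.nxt_ne _ h2

include hA in
private theorem nx_ex (h : G' ≤ G) (M : GMap G) (p : Flag G') : ∃ q : Flag G',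
    ((M.nxt (fi h p)).1.edge ≠ e0 → fi h q = M.nxt (fi h p)) ∧
    ((M.nxt (fi h p)).1.edge = e0 → fi h q = M.nxt (side (M.nxt (fi h p)))) := by
  by_cases hp : (M.nxt (fi h p)).1.edge = e0
  · obtain ⟨q, hq⟩ := fi_ex e0 hA h _ (nx_ne e0 hA h M p hp)
    exact ⟨q, fun h1 => absurd hp h1, fun _ => hq⟩
  · obtain ⟨q, hq⟩ := fi_ex e0 hA h _ hp
    exact ⟨q, fun _ => hq, fun h1 => absurd h1 hp⟩

/-- the other flag of the corner of the smaller graph -/
private noncomputable def nx (h : G' ≤ G) (M : GMap G) (p : Flag G') : Flag G' := Classical.choose (nx_ex e0 hA h M p)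

private theorem nx_1 (h : G' ≤ G) (M : GMap G) (p : Flag G') (hp : (M.nxt (fi h p)).1.edge ≠ e0) :
    fi h (nx e0 hA h M p) = M.nxt (fi h p) := (Classical.choose_spec (nx_ex e0 hA h M p)).1 hp

private theorem nx_2 (h : G' ≤ G) (M : GMap G) (p : Flag G') (hp : (M.nxt (fi h p)).1.edge = e0) :
    fi h (nx e0 hA h M p) = M.nxt (side (M.nxt (fi h p))) := (Classical.choose_spec (nx_ex e0 hA h M p)).2 hp

private theorem nx_nx (h : G' ≤ G) (M : GMap G) (p : Flag G') : nx e0 hA h M (nx e0 hA h M p) = p := by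
  apply fi_inj h
  by_cases hp : (M.nxt (fi h p)).1.edge = e0
  · have h1 := nx_2 e0 hA h M p hp
    have h2 : M.nxt (fi h (nx e0 hA h M p)) = side (M.nxt (fi h p)) := by rw [h1, M.nxt_nxt]
    rw [nx_2 e0 hA h M _ (by rw [h2, side_edge]; exact hp), h2, Pool.Agent.Helper35.OG.side_side, M.nxt_nxt]
  · have h1 := nx_1 e0 hA h M p hp
    have h2 : M.nxt (fi h (nx e0 hA h M p)) = fi h p := by rw [h1, M.nxt_nxt]
    rw [nx_1 e0 hA h M _ (by rw [h2]; exact fi_ne e0 hA h p), h2]

private theorem nx_fne (h : G' ≤ G) (M : GMap G) (p : Flag G') : nx e0 hA h M p ≠ p := by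
  intro h0
  have h3 := congrArg (fi h) h0
  by_cases hp : (M.nxt (fi h p)).1.edge = e0
  · rw [nx_2 e0 hA h M p hp] at h3
    have h4 : M.nxt (side (M.nxt (fi h p))) = M.nxt (M.nxt (fi h p)) := by rw [h3, M.nxt_nxt]
    exact Pool.Agent.Helper35.OG.side_ne _ (Pool.Agent.Helper35.OG.nxt_inj M h4)
  · rw [nx_1 e0 hA h M p hp] at h3
    exact M.nxt_ne _ h3

private theorem nx_fst (h : G' ≤ G) (M : GMap G) (p : Flag G') : (nx e0 hA h M p).1.fst = p.1.fst := by
  rw [← fi_fst h, ← fi_fst h]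
  by_cases hp : (M.nxt (fi h p)).1.edge = e0
  · rw [nx_2 e0 hA h M p hp, M.nxt_fst]
    exact M.nxt_fst _
  · rw [nx_1 e0 hA h M p hp]
    exact M.nxt_fst _

/-- the map of the smaller graph -/
private noncomputable def KM (h : G' ≤ G) (M : GMap G) : GMap G' where
  nxt := nx e0 hA h M
  nxt_nxt := nx_nx e0 hA h M
  nxt_ne := nx_fne e0 hA h M
  nxt_fst := nx_fst e0 hA h M
  conn := by
    apply Pool.Agent.Helper35.OG.conn_of
    intro W hW1 hW2 x y hxy
    have hex : ∀ q : Flag G, ∃ a : F2, (∀ p, fi h p = q → a = W p) ∧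
        (q.1.edge = e0 → ∀ p, fi h p = M.nxt q → a = W p) ∧ (q.1.edge = e0 → (M.nxt q).1.edge = e0 → a = 0) := by
      intro q
      by_cases hq : q.1.edge = e0
      · by_cases hq' : (M.nxt q).1.edge = e0
        · refine ⟨0, fun p' hp' => ?_, fun _ p' hp' => ?_, fun _ _ => rfl⟩
          · exact absurd hq (by rw [← hp']; exact fi_ne e0 hA h p')
          · exact absurd hq' (by rw [← hp']; exact fi_ne e0 hA h p')
        · obtain ⟨p, hp⟩ := fi_ex e0 hA h _ hq'
          refine ⟨W p, fun p' hp' => ?_, fun _ p' hp' => ?_, fun _ h' => absurd h' hq'⟩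
          · exact absurd hq (by rw [← hp']; exact fi_ne e0 hA h p')
          · rw [fi_inj h (hp.trans hp'.symm)]
      · obtain ⟨p, hp⟩ := fi_ex e0 hA h _ hq
        refine ⟨W p, fun p' hp' => ?_, fun h' => absurd h' hq, fun h' => absurd h' hq⟩
        rw [fi_inj h (hp.trans hp'.symm)]
    choose U hU using hex
    have hU1 : ∀ p, U (fi h p) = W p := fun p => (hU _).1 p rfl
    have hU3 : ∀ q, q.1.edge = e0 → (M.nxt q).1.edge = e0 → U q = 0 := fun q h1 h2 => (hU q).2.2 h1 h2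
    have hU2 : ∀ q, q.1.edge = e0 → U q = U (M.nxt q) := by
      intro q hq
      by_cases hq' : (M.nxt q).1.edge = e0
      · rw [hU3 q hq hq', hU3 (M.nxt q) hq' (by rw [M.nxt_nxt]; exact hq)]
      · obtain ⟨p, hp⟩ := fi_ex e0 hA h _ hq'
        rw [(hU q).2.1 hq p hp, (hU _).1 p hp]
    have hn : ∀ q, U (M.nxt q) = U q := by
      intro q
      by_cases hq : q.1.edge = e0
      · exact (hU2 q hq).symm
      · by_cases hq' : (M.nxt q).1.edge = e0
        · rw [hU2 _ hq', M.nxt_nxt]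
        · obtain ⟨p, rfl⟩ := fi_ex e0 hA h _ hq
          rw [← nx_1 e0 hA h M p hq', hU1, hU1, hW1]
    have hs : ∀ q, U (side q) = U q := by
      intro q
      by_cases hq : q.1.edge = e0
      · by_cases hq' : (M.nxt q).1.edge = e0
        · have h2 : M.nxt q = side q := by
            rcases ov_two e0 hq hq' (M.nxt_fst q) with h2 | h2
            · exact absurd h2 (M.nxt_ne q)
            · exact h2
          rw [← h2]
          exact (hU2 q hq).symm
        · obtain ⟨p, hp⟩ := fi_ex e0 hA h _ hq'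
          have h1 : M.nxt (fi h p) = q := by rw [hp, M.nxt_nxt]
          have h2 := nx_2 e0 hA h M p (by rw [h1]; exact hq)
          rw [h1] at h2
          rw [hU2 q hq, hU2 (side q) hq, ← h2, ← hp, hU1, hU1, hW1]
      · obtain ⟨p, rfl⟩ := fi_ex e0 hA h _ hq
        rw [← fi_side, hU1, hU1, hW2]
    have h3 := Pool.Agent.Helper35.OG.vertex_const M U hn hs (show (fi h x).1.fst = (fi h y).1.fst from hxy)
    rwa [hU1, hU1] at h3

private theorem KM_nxt (h : G' ≤ G) (M : GMap G) (p : Flag G') :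
    (KM e0 hA h M).nxt p = nx e0 hA h M p := rfl

private theorem KM_ori (h : G' ≤ G) (M : GMap G) (hM : M.Orientable) :
    (KM e0 hA h M).Orientable := by
  have hz : ∀ a b c d : F2, a ≠ b → b ≠ c → c ≠ d → a ≠ d := by decide
  obtain ⟨κ, h1, h2⟩ := hM
  refine ⟨fun p => κ (fi h p), fun p => h1 (fi h p), fun p => ?_⟩
  rw [KM_nxt]
  by_cases hp : (M.nxt (fi h p)).1.edge = e0
  · have h3 := nx_2 e0 hA h M p hp
    show κ (fi h (nx e0 hA h M p)) ≠ κ (fi h p)
    rw [h3]
    exact hz _ _ _ _ (h2 _) (h1 _).2 (h2 _)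
  · show κ (fi h (nx e0 hA h M p)) ≠ κ (fi h p)
    rw [nx_1 e0 hA h M p hp]
    exact h2 _

private theorem KM_cor (h : G' ≤ G) (M : GMap G) (p q : Flag G') (hpq : M.nxt (fi h p) = fi h q) :
    (KM e0 hA h M).nxt p = q := by
  rw [KM_nxt]
  apply fi_inj h
  rw [nx_1 e0 hA h M p (by rw [hpq]; exact fi_ne e0 hA h q), hpq]

private theorem KM_res (h : G' ≤ G) (M : GMap G) (he : e0 ∉ G'.edgeSet) :
    FRes M (KM e0 hA h M) := by
  intro z z' w w' hw hw'
  obtain ⟨L, hL⟩ := Pool.Agent.BEO.exists_L M w.1 w.2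
  have hL' : IsL (KM e0 hA h M) z.1 (fun p => L (fi h p)) := by
    refine ⟨fun p => ?_, fun p => ?_⟩
    · show L (fi h (nx e0 hA h M p)) = L (fi h p)
      by_cases hp : (M.nxt (fi h p)).1.edge = e0
      · rw [nx_2 e0 hA h M p hp, hL.1]
        have h1 := hL.2 (M.nxt (fi h p))
        have h2 : w.1 (ed (M.nxt (fi h p))) = 0 := by
          rw [hw]
          apply xt_zero
          show (M.nxt (fi h p)).1.edge ∉ G'.edgeSet
          rw [hp]
          exact he
        rw [h2] at h1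
        rw [← CharTwo.add_eq_zero.1 h1, hL.1]
      · rw [nx_1 e0 hA h M p hp, hL.1]
    · show L (fi h p) + L (fi h (side p)) = z.1 (ed p)
      rw [fi_side, hL.2, hw, xt_fi]
  rw [Pool.Agent.BEO.frm_eq _ z z' hL', Pool.Agent.BEO.frm_eq _ w w' hL]
  refine Fintype.sum_of_injective (fun e : G'.edgeSet => (⟨e.1, SimpleGraph.edgeSet_mono h e.2⟩ : G.edgeSet)) ?_ _ _ ?_ ?_
  · intro e e' hee
    have h2 : (⟨e.1, SimpleGraph.edgeSet_mono h e.2⟩ : G.edgeSet) = ⟨e'.1, SimpleGraph.edgeSet_mono h e'.2⟩ := hee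
    exact Subtype.ext (congrArg (fun t : G.edgeSet => t.1) h2)
  · intro e hne
    have h1 : w'.1 e = 0 := by
      rw [hw']
      apply xt_zero
      intro h2
      exact hne ⟨⟨e.1, h2⟩, rfl⟩
    rw [h1, mul_zero]
  · intro e
    rw [hw', xt_ed h]
    congr 1
    obtain ⟨p, rfl⟩ := Pool.Agent.BEO.ed_surj e
    rw [Pool.Agent.BEO.dL_eq hL' p]
    exact (Pool.Agent.BEO.dL_eq hL (fi h p)).symm

end aux

private theorem kn_step {G' : SimpleGraph V} (h : G' ≤ G) (M : GMap G) (e0 : Sym2 V) (hd : G' = G.deleteEdges {e0}) :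
    ∃ M' : GMap G', (M.Orientable → M'.Orientable) ∧ FRes M M' ∧
      ∀ p q : Flag G', M.nxt (fi h p) = fi h q → M'.nxt p = q := by
  have hA : ∀ a b, G'.Adj a b ↔ G.Adj a b ∧ s(a, b) ≠ e0 := by
    intro a b
    rw [hd, SimpleGraph.deleteEdges_adj, Set.mem_singleton_iff]
  have he' : e0 ∉ G'.edgeSet := by
    rw [hd, SimpleGraph.edgeSet_deleteEdges]
    intro h1
    exact h1.2 rfl
  exact ⟨KM e0 hA h M, KM_ori e0 hA h M, KM_res e0 hA h M he', KM_cor e0 hA h M⟩

private theorem kn_xt {G' G1 : SimpleGraph V} (h1 : G' ≤ G1) (z : G'.edgeSet → F2) :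
    xt G1 G (xt G' G1 z) = xt G' G z := by
  funext e
  unfold xt
  by_cases he : e.1 ∈ G'.edgeSet
  · rw [dif_pos he, dif_pos (SimpleGraph.edgeSet_mono h1 he), dif_pos he]
  · rw [dif_neg he]
    by_cases he1 : e.1 ∈ G1.edgeSet
    · rw [dif_pos he1, dif_neg he]
    · rw [dif_neg he1]

private theorem kn_all (n : ℕ) : ∀ (G G' : SimpleGraph V) (h : G' ≤ G), (G.edgeSet \ G'.edgeSet).ncard = n →
    ∀ M : GMap G, ∃ M' : GMap G', (M.Orientable → M'.Orientable) ∧ FRes M M' ∧
      ∀ p q : Flag G', M.nxt (fi h p) = fi h q → M'.nxt p = q := by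
  induction n using Nat.strong_induction_on with
  | _ n ih =>
    intro G G' h hn M
    by_cases hE : G.edgeSet ⊆ G'.edgeSet
    · have hGG : G = G' := le_antisymm (SimpleGraph.edgeSet_subset_edgeSet.1 hE) h
      subst hGG
      refine ⟨M, fun h1 => h1, ?_, fun p q hpq => hpq⟩
      intro z z' w w' hw hw'
      have h1 : ∀ z : G.edgeSet → F2, xt G G z = z := by
        intro z
        funext e
        unfold xt
        rw [dif_pos e.2]
      rw [h1] at hw hw'
      rw [Subtype.ext hw, Subtype.ext hw']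
    · obtain ⟨e0, he0, he0'⟩ := Set.not_subset.1 hE
      have h1 : G' ≤ G.deleteEdges {e0} := by
        intro a b hab
        rw [SimpleGraph.deleteEdges_adj]
        refine ⟨h hab, fun h2 => he0' ?_⟩
        rw [← Set.mem_singleton_iff.1 h2]
        exact hab
      have h2 : G.deleteEdges {e0} ≤ G := SimpleGraph.deleteEdges_le _
      obtain ⟨M1, hM1, hM2, hM3⟩ := kn_step h2 M e0 rfl
      have hlt : ((G.deleteEdges {e0}).edgeSet \ G'.edgeSet).ncard < n := by
        rw [← hn]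
        refine Set.ncard_lt_ncard ⟨?_, fun h3 => ?_⟩ (Set.toFinite _)
        · exact Set.sdiff_subset_sdiff_left (SimpleGraph.edgeSet_mono h2)
        · have h4 := (h3 ⟨he0, he0'⟩).1
          rw [SimpleGraph.edgeSet_deleteEdges] at h4
          exact h4.2 rfl
      obtain ⟨M', hM1', hM2', hM3'⟩ := ih _ hlt (G.deleteEdges {e0}) G' h1 rfl M1
      refine ⟨M', fun h3 => hM1' (hM1 h3), ?_, fun p q hpq => hM3' p q (hM3 _ _ hpq)⟩
      intro z z' w w' hw hw'
      rw [hM2' z z' ⟨xt G' (G.deleteEdges {e0}) z.1, xt_mem h1 z.1 z.2⟩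
        ⟨xt G' (G.deleteEdges {e0}) z'.1, xt_mem h1 z'.1 z'.2⟩ rfl rfl]
      refine hM2 _ _ w w' ?_ ?_
      · show w.1 = xt _ G (xt G' _ z.1)
        rw [kn_xt h1, hw]
      · show w'.1 = xt _ G (xt G' _ z'.1)
        rw [kn_xt h1, hw']

theorem rst {G' : SimpleGraph V} (h : G' ≤ G) (M : GMap G) :
    ∃ M' : GMap G', (M.Orientable → M'.Orientable) ∧ FRes M M' ∧
      ∀ p q : Flag G', M.nxt (fi h p) = fi h q → M'.nxt p = q :=
  kn_all _ G G' h rfl M

end Pool.Agent.FGT
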