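import Pool.Agent.FGT.DiDef
import Pool.Agent.FGT.RdK

/-!
# FGT-DiA: extending a map to a larger graph, the form restricts

PLAN. `ext_one`: `e0 = s(a, b)`; `r` the flag over `e0` at `a` with `r.2 = true`. If `a` has a flag in `G'` choose one, `y`; `M.nxt`: `y ↔ r`, `M'.nxt y ↔ side r`; otherwise `r ↔ side r`. The same at `b` with `across r`; all other flags (images under `fi h`) as in `M'`. The condition at the vertices: the flags at `a` form one cycle again
(compare `GMap` in Helper35/OG/Map). `FRes M M'`: let `L` be a potential for `xt G' G z` (`exists_L`, `frm_eq`): it is constant on the flags at `a` over `e0`, because `xt G' G z` is zero at `e0`; so `L (fi h (M'.nxt p)) = L (fi h p)` also for `p = y`. Hence `L ∘ fi h` is a potential for `z` in `M'`; the sums over the edges are equal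
(`dL_eq`, the summand at `e0` is zero). The proofs in `RdK`, `RsA` (private lemmas `xt_fi`, `fi_ex`, `ov_two`) can be copied. `ext_all`: induction on the number of edges of `G` outside `G'` (compare `rsb_ind` in `RsB`, `kn_all` in `RdK`), `xt G1 G (xt G' G1 z) = xt G' G z`.
-/

set_option autoImplicit false

open Finset
open scoped Classical

namespace Pool.Agent.FGT

open Pool.Agent.Helper35.OG (Flag GMap across side)
open Pool.Agent.BEO (F2 ed rp cyc ev bdF nb)
open Pool.Agent.BEO (frm IsL)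

section aux

variable {V : Type} {G' G : SimpleGraph V}

private theorem fi_inj (h : G' ≤ G) {p q : Flag G'} (hpq : fi h p = fi h q) : p = q := by
  rcases p with ⟨⟨x, hx⟩, s⟩
  rcases q with ⟨⟨y, hy⟩, t⟩
  have h1 := congrArg (fun r : Flag G => r.1.toProd) hpq
  have h2 := congrArg (fun r : Flag G => r.2) hpq
  simp only [fi] at h1 h2
  subst h1
  subst h2
  rfl

private theorem fi_side (h : G' ≤ G) (p : Flag G') : fi h (side p) = side (fi h p) := rfl

private theorem fi_fst (h : G' ≤ G) (p : Flag G') : (fi h p).1.fst = p.1.fst := rfl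

private theorem xt_fi (h : G' ≤ G) (z : G'.edgeSet → F2) (p : Flag G') : xt G' G z (ed (fi h p)) = z (ed p) := by
  unfold xt
  rw [dif_pos (show (ed (fi h p)).1 ∈ G'.edgeSet from (ed p).2)]
  rfl

private theorem xt_ed (h : G' ≤ G) (z : G'.edgeSet → F2) (e : G'.edgeSet) : xt G' G z ⟨e.1, SimpleGraph.edgeSet_mono h e.2⟩ = z e := by
  unfold xt
  rw [dif_pos e.2]

private theorem xt_zero (z : G'.edgeSet → F2) (e : G.edgeSet) (he : e.1 ∉ G'.edgeSet) : xt G' G z e = 0 := by
  unfold xt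
  rw [dif_neg he]

variable (e0 : Sym2 V) (hA : ∀ a b, G'.Adj a b ↔ G.Adj a b ∧ s(a, b) ≠ e0)

include hA in
private theorem fi_ne (h : G' ≤ G) (p : Flag G') : (fi h p).1.edge ≠ e0 := ((hA _ _).1 p.1.adj).2

include hA in
private theorem fi_ex (h : G' ≤ G) (q : Flag G) (hq : q.1.edge ≠ e0) : ∃ p : Flag G', fi h p = q :=
  ⟨(⟨q.1.toProd, (hA _ _).2 ⟨q.1.adj, hq⟩⟩, q.2), rfl⟩

private theorem ov_two {q r : Flag G} (hq : q.1.edge = e0) (hr : r.1.edge = e0) (h : r.1.fst = q.1.fst) :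
    r = q ∨ r = side q := by
  have h1 : r.1 = q.1 := by
    rcases (SimpleGraph.dart_edge_eq_iff _ _).1 (hr.trans hq.symm) with h2 | h2
    · exact h2
    · exfalso
      have h3 : r.1.fst = q.1.snd := by rw [h2]; rfl
      exact q.1.adj.ne (h.symm.trans h3)
  rcases r with ⟨r1, r2⟩
  rcases q with ⟨q1, q2⟩
  simp only at h1
  subst h1
  cases r2 <;> cases q2 <;> simp [side]

private theorem side_edge (q : Flag G) : (side q).1.edge = q.1.edge := rfl

/-- the corners before the insertion of the edge: the two sides of `e0` are joined -/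
private noncomputable def t0 (h : G' ≤ G) (M' : GMap G') (x : Flag G) : Flag G :=
  if hx : x.1.edge = e0 then side x else fi h (M'.nxt (⟨x.1.toProd, (hA _ _).2 ⟨x.1.adj, hx⟩⟩, x.2))

private theorem t0_pos (h : G' ≤ G) (M' : GMap G') (x : Flag G) (hx : x.1.edge = e0) :
    t0 e0 hA h M' x = side x := by
  unfold t0
  rw [dif_pos hx]

private theorem t0_fi (h : G' ≤ G) (M' : GMap G') (p : Flag G') :
    t0 e0 hA h M' (fi h p) = fi h (M'.nxt p) := by
  unfold t0
  rw [dif_neg (fi_ne e0 hA h p)]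
  rfl

private theorem t0_t0 (h : G' ≤ G) (M' : GMap G') (x : Flag G) :
    t0 e0 hA h M' (t0 e0 hA h M' x) = x := by
  by_cases hx : x.1.edge = e0
  · rw [t0_pos e0 hA h M' x hx, t0_pos e0 hA h M' (side x) hx, Pool.Agent.Helper35.OG.side_side]
  · obtain ⟨p, rfl⟩ := fi_ex e0 hA h x hx
    rw [t0_fi, t0_fi, M'.nxt_nxt]

private theorem t0_ne (h : G' ≤ G) (M' : GMap G') (x : Flag G) : t0 e0 hA h M' x ≠ x := by
  by_cases hx : x.1.edge = e0
  · rw [t0_pos e0 hA h M' x hx]
    exact Pool.Agent.Helper35.OG.side_ne x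
  · obtain ⟨p, rfl⟩ := fi_ex e0 hA h x hx
    rw [t0_fi]
    intro h1
    exact M'.nxt_ne p (fi_inj h h1)

private theorem t0_fst (h : G' ≤ G) (M' : GMap G') (x : Flag G) : (t0 e0 hA h M' x).1.fst = x.1.fst := by
  by_cases hx : x.1.edge = e0
  · rw [t0_pos e0 hA h M' x hx]
    rfl
  · obtain ⟨p, rfl⟩ := fi_ex e0 hA h x hx
    rw [t0_fi]
    exact M'.nxt_fst p

/-- the exchange at the vertex `c` -/
private noncomputable def sw (h : G' ≤ G) (M' : GMap G') (c : V) : Equiv.Perm (Flag G) :=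
  if hc : ∃ t : Flag G × Flag G', t.1.1.edge = e0 ∧ t.1.1.fst = c ∧ t.2.1.fst = c then
    Equiv.swap (fi h (M'.nxt hc.choose.2)) hc.choose.1 else 1

private theorem sw_cases (h : G' ≤ G) (M' : GMap G') (c : V) :
    (∃ (r : Flag G) (y : Flag G'), r.1.edge = e0 ∧ r.1.fst = c ∧ y.1.fst = c ∧
      sw e0 h M' c = Equiv.swap (fi h (M'.nxt y)) r) ∨
    ((∀ (r : Flag G) (y : Flag G'), r.1.edge = e0 → r.1.fst = c → y.1.fst = c → False) ∧ sw e0 h M' c = 1) := by
  by_cases hc : ∃ t : Flag G × Flag G', t.1.1.edge = e0 ∧ t.1.1.fst = c ∧ t.2.1.fst = c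
  · left
    refine ⟨hc.choose.1, hc.choose.2, hc.choose_spec.1, hc.choose_spec.2.1, hc.choose_spec.2.2, ?_⟩
    unfold sw
    rw [dif_pos hc]
  · right
    refine ⟨fun r y h1 h2 h3 => hc ⟨(r, y), h1, h2, h3⟩, ?_⟩
    unfold sw
    rw [dif_neg hc]

private theorem sw_sw (h : G' ≤ G) (M' : GMap G') (c : V) (x : Flag G) :
    sw e0 h M' c (sw e0 h M' c x) = x := by
  rcases sw_cases e0 h M' c with ⟨r, y, _, _, _, h1⟩ | ⟨_, h1⟩
  · rw [h1, Equiv.swap_apply_self]
  · rw [h1]
    rfl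

private theorem sw_fst (h : G' ≤ G) (M' : GMap G') (c : V) (x : Flag G) :
    (sw e0 h M' c x).1.fst = x.1.fst := by
  rcases sw_cases e0 h M' c with ⟨r, y, _, h2, h3, h1⟩ | ⟨_, h1⟩
  · rw [h1, Equiv.swap_apply_def]
    have h4 : (fi h (M'.nxt y)).1.fst = c := by rw [fi_fst, M'.nxt_fst, h3]
    split_ifs with h5 h6
    · rw [h5, h4, h2]
    · rw [h6, h4, h2]
    · rfl
  · rw [h1]
    rfl

/-- the other flag of the corner in the larger graph -/
private noncomputable def tx (h : G' ≤ G) (M' : GMap G') (x : Flag G) : Flag G :=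
  sw e0 h M' x.1.fst (t0 e0 hA h M' (sw e0 h M' x.1.fst x))

private theorem tx_fst (h : G' ≤ G) (M' : GMap G') (x : Flag G) : (tx e0 hA h M' x).1.fst = x.1.fst := by
  unfold tx
  rw [sw_fst, t0_fst, sw_fst]

private theorem tx_tx (h : G' ≤ G) (M' : GMap G') (x : Flag G) : tx e0 hA h M' (tx e0 hA h M' x) = x := by
  have h1 := tx_fst e0 hA h M' x
  have h2 : tx e0 hA h M' (tx e0 hA h M' x) = sw e0 h M' (tx e0 hA h M' x).1.fst
      (t0 e0 hA h M' (sw e0 h M' (tx e0 hA h M' x).1.fst (tx e0 hA h M' x))) := rfl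
  have h3 : tx e0 hA h M' x = sw e0 h M' x.1.fst (t0 e0 hA h M' (sw e0 h M' x.1.fst x)) := rfl
  rw [h2, h1, h3, sw_sw, t0_t0, sw_sw]

private theorem tx_ne (h : G' ≤ G) (M' : GMap G') (x : Flag G) : tx e0 hA h M' x ≠ x := by
  intro h1
  unfold tx at h1
  have h2 := congrArg (sw e0 h M' x.1.fst) h1
  rw [sw_sw] at h2
  exact t0_ne e0 hA h M' _ h2

/-- the flags around the inserted side -/
private theorem tx_r (h : G' ≤ G) (M' : GMap G') {r : Flag G} {y : Flag G'} (hr : r.1.edge = e0)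
    (hy : y.1.fst = r.1.fst) (hs : sw e0 h M' r.1.fst = Equiv.swap (fi h (M'.nxt y)) r) :
    tx e0 hA h M' (fi h y) = r ∧ tx e0 hA h M' (side r) = fi h (M'.nxt y) := by
  have n1 : ∀ p : Flag G', fi h p ≠ r := fun p h1 => fi_ne e0 hA h p (by rw [h1, hr])
  have n2 : ∀ p : Flag G', side r ≠ fi h p := fun p h1 => fi_ne e0 hA h p (by rw [← h1, side_edge, hr])
  have n3 : fi h y ≠ fi h (M'.nxt y) := fun h1 => M'.nxt_ne y (fi_inj h h1).symm
  constructor
  · unfold tx
    rw [fi_fst, hy, hs, Equiv.swap_apply_of_ne_of_ne n3 (n1 y), t0_fi, Equiv.swap_apply_left]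
  · unfold tx
    have h1 : (side r).1.fst = r.1.fst := rfl
    rw [h1, hs, Equiv.swap_apply_of_ne_of_ne (n2 _) (Pool.Agent.Helper35.OG.side_ne r),
      t0_pos e0 hA h M' (side r) hr, Pool.Agent.Helper35.OG.side_side, Equiv.swap_apply_right]

private theorem tx_key (h : G' ≤ G) (M' : GMap G') (W : Flag G → F2) (h1 : ∀ x, W (tx e0 hA h M' x) = W x)
    (h2 : ∀ x : Flag G, x.1.edge = e0 → W (side x) = W x) (p : Flag G') : W (fi h (M'.nxt p)) = W (fi h p) := by
  rcases sw_cases e0 h M' p.1.fst with ⟨r, y, hr, hrp, hyp, hs⟩ | ⟨_, hs⟩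
  · have hyr : y.1.fst = r.1.fst := hyp.trans hrp.symm
    obtain ⟨a1, a2⟩ := tx_r e0 hA h M' hr hyr (by rw [hrp]; exact hs)
    have b1 : W (fi h (M'.nxt y)) = W (fi h y) := by
      rw [← a2, h1, h2 r hr, ← a1, h1]
    by_cases c1 : p = y
    · rw [c1, b1]
    · by_cases c2 : p = M'.nxt y
      · rw [c2, M'.nxt_nxt, b1]
      · have n1 : ∀ p : Flag G', fi h p ≠ r := fun p h1 => fi_ne e0 hA h p (by rw [h1, hr])
        have c3 : fi h p ≠ fi h (M'.nxt y) := fun h3 => c2 (fi_inj h h3)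
        have c4 : fi h (M'.nxt p) ≠ fi h (M'.nxt y) := by
          intro h3
          apply c1
          have h4 := congrArg M'.nxt (fi_inj h h3)
          rwa [M'.nxt_nxt, M'.nxt_nxt] at h4
        have c5 : tx e0 hA h M' (fi h p) = fi h (M'.nxt p) := by
          unfold tx
          rw [fi_fst, hs, Equiv.swap_apply_of_ne_of_ne c3 (n1 p), t0_fi, Equiv.swap_apply_of_ne_of_ne c4 (n1 _)]
        rw [← c5, h1]
  · have c5 : tx e0 hA h M' (fi h p) = fi h (M'.nxt p) := by
      unfold tx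
      rw [fi_fst, hs]
      exact t0_fi e0 hA h M' p
    rw [← c5, h1]

variable [Fintype V]

private theorem tx_over (h : G' ≤ G) (M' : GMap G') (W : Flag G → F2) (h1 : ∀ x, W (tx e0 hA h M' x) = W x)
    (h2 : ∀ x : Flag G, W (side x) = W x) (x : Flag G) (hx : x.1.edge = e0) (p : Flag G')
    (hp : p.1.fst = x.1.fst) : W x = W (fi h p) := by
  rcases sw_cases e0 h M' x.1.fst with ⟨r, y, hr, hrp, hyp, hs⟩ | ⟨h3, _⟩
  · have hyr : y.1.fst = r.1.fst := hyp.trans hrp.symm
    obtain ⟨a1, a2⟩ := tx_r e0 hA h M' hr hyr (by rw [hrp]; exact hs)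
    have b1 : W x = W r := by
      rcases ov_two e0 hr hx hrp.symm with h4 | h4
      · rw [h4]
      · rw [h4, h2]
    have b2 : W r = W (fi h y) := by rw [← a1, h1]
    have b3 := Pool.Agent.Helper35.OG.vertex_const M' (fun q => W (fi h q))
      (fun q => tx_key e0 hA h M' W h1 (fun z _ => h2 z) q) (fun q => by
        show W (fi h (side q)) = W (fi h q)
        rw [fi_side, h2]) (show y.1.fst = p.1.fst from hyp.trans hp.symm)
    rw [b1, b2]
    exact b3
  · exact absurd (h3 x p hx rfl hp) (fun h4 => h4)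

/-- the map of the larger graph -/
private noncomputable def XM (h : G' ≤ G) (M' : GMap G') : GMap G where
  nxt := tx e0 hA h M'
  nxt_nxt := tx_tx e0 hA h M'
  nxt_ne := tx_ne e0 hA h M'
  nxt_fst := tx_fst e0 hA h M'
  conn := by
    apply Pool.Agent.Helper35.OG.conn_of
    intro W h1 h2 x y hxy
    by_cases hx : x.1.edge = e0
    · by_cases hy : y.1.edge = e0
      · rcases ov_two e0 hx hy hxy.symm with h4 | h4
        · rw [h4]
        · rw [h4, h2]
      · obtain ⟨p, rfl⟩ := fi_ex e0 hA h y hy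
        exact tx_over e0 hA h M' W h1 h2 x hx p hxy.symm
    · obtain ⟨p, rfl⟩ := fi_ex e0 hA h x hx
      by_cases hy : y.1.edge = e0
      · exact (tx_over e0 hA h M' W h1 h2 y hy p hxy).symm
      · obtain ⟨q, rfl⟩ := fi_ex e0 hA h y hy
        exact Pool.Agent.Helper35.OG.vertex_const M' (fun q => W (fi h q))
          (fun q => tx_key e0 hA h M' W h1 (fun z _ => h2 z) q) (fun q => by
            show W (fi h (side q)) = W (fi h q)
            rw [fi_side, h2]) (show p.1.fst = q.1.fst from hxy)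

private theorem XM_res (h : G' ≤ G) (M' : GMap G') (he : e0 ∉ G'.edgeSet) :
    FRes (XM e0 hA h M') M' := by
  intro z z' w w' hw hw'
  obtain ⟨L, hL⟩ := Pool.Agent.BEO.exists_L (XM e0 hA h M') w.1 w.2
  have hL' : IsL M' z.1 (fun p => L (fi h p)) := by
    refine ⟨fun p => ?_, fun p => ?_⟩
    · refine tx_key e0 hA h M' L (fun x => hL.1 x) (fun x hx => ?_) p
      have h1 := hL.2 x
      have h2 : w.1 (ed x) = 0 := by
        rw [hw]
        apply xt_zero
        show x.1.edge ∉ G'.edgeSet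
        rw [hx]
        exact he
      rw [h2] at h1
      exact (CharTwo.add_eq_zero.1 h1).symm
    · show L (fi h p) + L (fi h (side p)) = z.1 (ed p)
      rw [fi_side, hL.2, hw, xt_fi]
  rw [Pool.Agent.BEO.frm_eq _ z z' hL', Pool.Agent.BEO.frm_eq _ w w' hL]
  refine Fintype.sum_of_injective (fun e : G'.edgeSet => (⟨e.1, SimpleGraph.edgeSet_mono h e.2⟩ : G.edgeSet)) ?_ _ _ ?_ ?_
  · intro e e' hee
    have h2 : (⟨e.1, SimpleGraph.edgeSet_mono h e.2⟩ : G.edgeSet) = ⟨e'.1, SimpleGraph.edgeSet_mono h e'.2⟩ := hee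
    exact Subtype.ext (congrArg (fun t : G.edgeSet => t.1) h2)
  · intro e hne
    have h1 : w'.1 e = 0 := by
      rw [hw']
      apply xt_zero
      intro h2
      exact hne ⟨⟨e.1, h2⟩, rfl⟩
    rw [h1, mul_zero]
  · intro e
    rw [hw', xt_ed h]
    congr 1
    obtain ⟨p, rfl⟩ := Pool.Agent.BEO.ed_surj e
    rw [Pool.Agent.BEO.dL_eq hL' p]
    exact (Pool.Agent.BEO.dL_eq hL (fi h p)).symm

end aux

variable {V : Type} [Fintype V] {G' G : SimpleGraph V}

theorem ext_one (h : G' ≤ G) (e0 : Sym2 V) (he : e0 ∈ G.edgeSet) (hd : G' = G.deleteEdges {e0}) (M' : GMap G') :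
    ∃ M : GMap G, FRes M M' := by
  have hA : ∀ a b, G'.Adj a b ↔ G.Adj a b ∧ s(a, b) ≠ e0 := by
    intro a b
    rw [hd, SimpleGraph.deleteEdges_adj, Set.mem_singleton_iff]
  have he' : e0 ∉ G'.edgeSet := by
    rw [hd, SimpleGraph.edgeSet_deleteEdges]
    intro h1
    exact h1.2 rfl
  exact ⟨XM e0 hA h M', XM_res e0 hA h M' he'⟩

omit [Fintype V] in
private theorem di_xt {G' G1 : SimpleGraph V} (h1 : G' ≤ G1) (z : G'.edgeSet → F2) :
    xt G1 G (xt G' G1 z) = xt G' G z := by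
  funext e
  unfold xt
  by_cases he : e.1 ∈ G'.edgeSet
  · rw [dif_pos he, dif_pos (SimpleGraph.edgeSet_mono h1 he), dif_pos he]
  · rw [dif_neg he]
    by_cases he1 : e.1 ∈ G1.edgeSet
    · rw [dif_pos he1, dif_neg he]
    · rw [dif_neg he1]

private theorem di_all (n : ℕ) : ∀ (G G' : SimpleGraph V), G' ≤ G → (G.edgeSet \ G'.edgeSet).ncard = n →
    ∀ M' : GMap G', ∃ M : GMap G, FRes M M' := by
  induction n using Nat.strong_induction_on with
  | _ n ih =>
    intro G G' h hn M'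
    by_cases hE : G.edgeSet ⊆ G'.edgeSet
    · have hGG : G = G' := le_antisymm (SimpleGraph.edgeSet_subset_edgeSet.1 hE) h
      subst hGG
      refine ⟨M', ?_⟩
      intro z z' w w' hw hw'
      have h1 : ∀ z : G.edgeSet → F2, xt G G z = z := by
        intro z
        funext e
        unfold xt
        rw [dif_pos e.2]
      rw [h1] at hw hw'
      rw [Subtype.ext hw, Subtype.ext hw']
    · obtain ⟨e0, he0, he0'⟩ := Set.not_subset.1 hE
      have h1 : G' ≤ G.deleteEdges {e0} := by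
        intro a b hab
        rw [SimpleGraph.deleteEdges_adj]
        refine ⟨h hab, fun h2 => he0' ?_⟩
        rw [← Set.mem_singleton_iff.1 h2]
        exact hab
      have h2 : G.deleteEdges {e0} ≤ G := SimpleGraph.deleteEdges_le _
      have hlt : ((G.deleteEdges {e0}).edgeSet \ G'.edgeSet).ncard < n := by
        rw [← hn]
        refine Set.ncard_lt_ncard ⟨?_, fun h3 => ?_⟩ (Set.toFinite _)
        · exact Set.sdiff_subset_sdiff_left (SimpleGraph.edgeSet_mono h2)
        · have h4 := (h3 ⟨he0, he0'⟩).1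
          rw [SimpleGraph.edgeSet_deleteEdges] at h4
          exact h4.2 rfl
      obtain ⟨M1, hM1⟩ := ih _ hlt (G.deleteEdges {e0}) G' h1 rfl M'
      obtain ⟨M, hM⟩ := ext_one h2 e0 he0 rfl M1
      refine ⟨M, ?_⟩
      intro z z' w w' hw hw'
      rw [hM1 z z' ⟨xt G' (G.deleteEdges {e0}) z.1, xt_mem h1 z.1 z.2⟩
        ⟨xt G' (G.deleteEdges {e0}) z'.1, xt_mem h1 z'.1 z'.2⟩ rfl rfl]
      refine hM _ _ w w' ?_ ?_
      · show w.1 = xt _ G (xt G' _ z.1)
        rw [di_xt h1, hw]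
      · show w'.1 = xt _ G (xt G' _ z'.1)
        rw [di_xt h1, hw']

theorem ext_all (h : G' ≤ G) (M' : GMap G') : ∃ M : GMap G, FRes M M' :=
  di_all _ G G' h rfl M'

end Pool.Agent.FGT
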