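import Pool.Agent.FGT.RdAlg

/-!
# FGT-DiAlg: connecting the components of a graph (definitions of the algorithm)
-/

set_option autoImplicit false

namespace Pool.Agent.FGT

open Pool.Agent.BEO (look memb ddp comp cds Pt Ec Inp sd ac ek fl)
open Pool.Agent.SCG (edl nx bst vl Adl std tre cmA)

/-- the vertices of the edges of `A` -/
def vA (A : Adl) : List ℕ := ddp (A.map Prod.fst ++ A.map Prod.snd)

/-- the representative of the component of `v` -/
def rpA (A : Adl) (v : ℕ) : ℕ :=
  ((vA A).filter fun u => decide (look (cmA A A) u u = look (cmA A A) v v)).headD 0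

/-- the first representative -/
def rtA (A : Adl) : ℕ := rpA A ((vA A).headD 0)

/-- the graph with the components connected -/
def cn0 (A : Adl) : Adl := A ++ ((ddp ((vA A).map (rpA A))).filter fun x => !decide (x = rtA A)).map fun x => (rtA A, x)

/-- numbering the vertices again -/
def cnn (A : Adl) : Adl := (cn0 A).map fun e => (rkU (vA A) e.1, rkU (vA A) e.2)

/-- the orientable genus -/
def gn1 (F : Bool → Inp → Inp) (A : Adl) : ℕ := if A.isEmpty then 0 else gen F (cnn A)

end Pool.Agent.FGT
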