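import Pool.Agent.FGT.RdDef
import Pool.Agent.BEO.FrmRank
import Pool.Agent.BEO.FrmRad
import Pool.Agent.BEO.BdDim
import Pool.Agent.BEO.CycDim

/-!
# FGT-RdJ: the rank of the form for graphs with isolated vertices
-/

set_option autoImplicit false

open Finset
open scoped Classical

namespace Pool.Agent.FGT

open Pool.Agent.Helper35.OG (Flag GMap across side)
open Pool.Agent.BEO (F2 ed rp cyc ev bdF nb)
open Pool.Agent.BEO (frm)

variable {V : Type} {G : SimpleGraph V} [Fintype V]

private theorem RdJ_const (hG : EC G) (M : GMap G) {A : Type} (W : Flag G → A) (h1 : ∀ p, W (M.nxt p) = W p)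
    (h2 : ∀ p, W (side p) = W p) (h3 : ∀ p, W (across p) = W p) (p q : Flag G) : W p = W q := by
  have key : ∀ u v : V, G.Reachable u v → ∀ p q : Flag G, p.1.fst = u → q.1.fst = v → W p = W q := by
    rintro u v ⟨w⟩
    induction w with
    | nil =>
      intro p q hp hq
      exact Pool.Agent.Helper35.OG.vertex_const M W h1 h2 (hp.trans hq.symm)
    | cons hadj w ih =>
      intro p q hp hq
      rename_i u' v' w'
      have e1 : W p = W ((⟨(u', v'), hadj⟩ : G.Dart), true) :=
        Pool.Agent.Helper35.OG.vertex_const M W h1 h2 hp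
      have e2 : W (across ((⟨(u', v'), hadj⟩ : G.Dart), true)) = W ((⟨(u', v'), hadj⟩ : G.Dart), true) := h3 _
      rw [e1, ← e2]
      exact ih _ q rfl hq
  exact key _ _ (hG.2 _ _ ⟨_, p.1.adj⟩ ⟨_, q.1.adj⟩) p q rfl rfl

private theorem RdJ_bd_val (M : GMap G) (φ : M.Face → F2) (p : Flag G) :
    (Fintype.linearCombination F2 (bdF M) φ).1 (ed p) = φ (M.face p) + φ (M.face (side p)) := by
  have h1 : (Fintype.linearCombination F2 (bdF M) φ).1 (ed p) =
      ∑ F, φ F * ((if M.face p = F then 1 else 0) + (if M.face (side p) = F then 1 else 0)) := by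
    rw [Fintype.linearCombination_apply]
    have h2 : ((∑ F, φ F • bdF M F : cyc G) : G.edgeSet → F2) = ∑ F, φ F • (bdF M F).1 := by
      rw [Submodule.coe_sum]
      rfl
    rw [h2, Finset.sum_apply]
    refine sum_congr rfl fun F _ => ?_
    rw [Pi.smul_apply, smul_eq_mul, Pool.Agent.BEO.bdF_eq]
  rw [h1]
  simp only [mul_add, mul_ite, mul_one, mul_zero, sum_add_distrib]
  rw [Finset.sum_ite_eq, Finset.sum_ite_eq, if_pos (mem_univ _), if_pos (mem_univ _)]

private theorem RdJ_finrank_bd (hG : EC G) (M : GMap G) :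
    Module.finrank F2 (Submodule.span F2 (Set.range (bdF M))) + 1 = Nat.card M.Face := by
  obtain ⟨p₀⟩ : Nonempty (Flag G) := by
    obtain ⟨u, v, huv⟩ := hG.1
    exact ⟨((⟨(u, v), huv⟩ : G.Dart), true)⟩
  have hker : LinearMap.ker (Fintype.linearCombination F2 (bdF M)) =
      Submodule.span F2 {(fun _ => 1 : M.Face → F2)} := by
    ext φ
    rw [LinearMap.mem_ker, Submodule.mem_span_singleton]
    constructor
    · intro h
      have h1 : ∀ p : Flag G, φ (M.face (side p)) = φ (M.face p) := fun p => by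
        have h2 := RdJ_bd_val M φ p
        rw [h] at h2
        have h3 : φ (M.face p) + φ (M.face (side p)) = 0 := h2.symm
        have h4 := eq_neg_of_add_eq_zero_left h3
        rw [h4, ZMod.neg_eq_self_mod_two]
      have hc := RdJ_const hG M (fun p => φ (M.face p))
        (fun p => by rw [Pool.Agent.Helper35.OG.face_nxt]) h1
        (fun p => by rw [Pool.Agent.Helper35.OG.face_across])
      refine ⟨φ (M.face p₀), funext fun F => ?_⟩
      obtain ⟨q, rfl⟩ := Pool.Agent.Helper35.OG.face_surj M F
      rw [Pi.smul_apply, smul_eq_mul, mul_one]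
      exact hc p₀ q
    · rintro ⟨c, rfl⟩
      apply Subtype.ext
      funext e
      obtain ⟨p, rfl⟩ := Pool.Agent.BEO.ed_surj e
      rw [RdJ_bd_val]
      show c • (1 : F2) + c • (1 : F2) = 0
      exact CharTwo.add_self_eq_zero _
  have hne : (fun _ => 1 : M.Face → F2) ≠ 0 := by
    intro h
    exact one_ne_zero (congrFun h (M.face p₀))
  have h1 := LinearMap.finrank_range_add_finrank_ker (Fintype.linearCombination F2 (bdF M))
  rw [hker, finrank_span_singleton hne, Fintype.range_linearCombination,
    Module.finrank_fintype_fun_eq_card, ← Nat.card_eq_fintype_card] at h1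
  exact h1

private theorem RdJ_ker_eq {X Y : Type} [Fintype X] [Fintype Y] [Nonempty Y] (m : X → Y → F2)
    (hconn : ∀ w : Y → F2, (∀ x, ∑ y, m x y * w y = 0) ↔ ∀ y y', w y = w y')
    (K : Submodule F2 (X → F2)) (hK : ∀ z, z ∈ K ↔ ∀ y, ∑ x, z x * m x y = 0) :
    Module.finrank F2 K + Fintype.card Y = Fintype.card X + 1 := by
  let A : Matrix Y X F2 := fun y x => m x y
  have h1 := LinearMap.finrank_range_add_finrank_ker A.mulVecLin
  rw [Module.finrank_fintype_fun_eq_card] at h1
  have h2 := LinearMap.finrank_range_add_finrank_ker A.transpose.mulVecLin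
  rw [Module.finrank_fintype_fun_eq_card] at h2
  have h3 : Module.finrank F2 (LinearMap.range A.mulVecLin) =
      Module.finrank F2 (LinearMap.range A.transpose.mulVecLin) := (Matrix.rank_transpose A).symm
  have h4 : LinearMap.ker A.transpose.mulVecLin = Submodule.span F2 {(fun _ => 1 : Y → F2)} := by
    ext w
    rw [LinearMap.mem_ker, Submodule.mem_span_singleton]
    constructor
    · intro hw
      have h : ∀ x, ∑ y, m x y * w y = 0 := fun x => congrFun hw x
      rw [hconn] at h
      obtain ⟨y0⟩ := (inferInstance : Nonempty Y)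
      refine ⟨w y0, ?_⟩
      funext y
      rw [Pi.smul_apply, smul_eq_mul, mul_one]
      exact h _ _
    · rintro ⟨r, rfl⟩
      have h : ∀ x, ∑ y, m x y * (r • (fun _ => 1 : Y → F2)) y = 0 := by
        rw [hconn]
        intro y y'
        simp
      funext x
      exact h x
  have h4' : Module.finrank F2 (LinearMap.ker A.transpose.mulVecLin) = 1 := by
    rw [h4]
    apply finrank_span_singleton
    intro h
    obtain ⟨y0⟩ := (inferInstance : Nonempty Y)
    have := congrFun h y0
    simp at this
  have h5 : LinearMap.ker A.mulVecLin = K := by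
    ext z
    rw [LinearMap.mem_ker, hK]
    constructor
    · intro h y
      have h' : ∑ x, m x y * z x = 0 := congrFun h y
      rw [← h']
      exact Finset.sum_congr rfl fun x _ => mul_comm _ _
    · intro h
      funext y
      have h' := h y
      show ∑ x, m x y * z x = 0
      rw [← h']
      exact Finset.sum_congr rfl fun x _ => mul_comm _ _
  rw [h5] at h1
  omega

private theorem RdJ_add_eq_zero (x y : F2) : x + y = 0 ↔ x = y := by
  revert x y
  decide

private theorem RdJ_nis {u v : V} (h : G.Adj u v) : u ∈ nis G := mem_filter.2 ⟨mem_univ _, v, h⟩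

private theorem RdJ_finrank_cyc (hG : EC G) :
    Module.finrank F2 (cyc G) + (nis G).card = Nat.card G.edgeSet + 1 := by
  have hne : Nonempty {v // v ∈ nis G} := by
    obtain ⟨u, v, huv⟩ := hG.1
    exact ⟨⟨u, RdJ_nis huv⟩⟩
  rw [Nat.card_eq_fintype_card, ← Fintype.card_coe (nis G)]
  let a : G.edgeSet → {v // v ∈ nis G} := fun e => ⟨(rp e).1.fst, RdJ_nis (rp e).1.adj⟩
  let b : G.edgeSet → {v // v ∈ nis G} := fun e => ⟨(rp e).1.snd, RdJ_nis (rp e).1.adj.symm⟩
  have key : ∀ (e : G.edgeSet) (w : {v // v ∈ nis G} → F2),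
      ∑ y, ((if a e = y then (1 : F2) else 0) + (if b e = y then 1 else 0)) * w y = w (a e) + w (b e) := by
    intro e w
    simp only [add_mul, Finset.sum_add_distrib, ite_mul, one_mul, zero_mul, Finset.sum_ite_eq, Finset.mem_univ,
      if_true]
  apply RdJ_ker_eq (fun (e : G.edgeSet) (v : {v // v ∈ nis G}) =>
    (if a e = v then (1 : F2) else 0) + (if b e = v then 1 else 0))
  · intro w
    constructor
    · intro h
      let W : V → F2 := fun v => if hv : v ∈ nis G then w ⟨v, hv⟩ else 0
      have hW : ∀ y : {v // v ∈ nis G}, W y.1 = w y := fun y => by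
        show (if hv : y.1 ∈ nis G then w ⟨y.1, hv⟩ else 0) = w y
        rw [dif_pos y.2]
      have hadj : ∀ u v, G.Adj u v → W u = W v := by
        intro u v huv
        have h1 := h ⟨s(u, v), huv⟩
        rw [key, RdJ_add_eq_zero] at h1
        have h2 : (rp ⟨s(u, v), huv⟩ : Flag G).1.edge = s(u, v) :=
          congrArg Subtype.val (Pool.Agent.BEO.ed_rp ⟨s(u, v), huv⟩)
        have h3 : s((rp ⟨s(u, v), huv⟩ : Flag G).1.fst, (rp ⟨s(u, v), huv⟩ : Flag G).1.snd) = s(u, v) := h2
        rw [← hW, ← hW] at h1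
        have h1' : W (rp ⟨s(u, v), huv⟩ : Flag G).1.fst = W (rp ⟨s(u, v), huv⟩ : Flag G).1.snd := h1
        rw [Sym2.eq_iff] at h3
        rcases h3 with ⟨h4, h5⟩ | ⟨h4, h5⟩
        · exact (congrArg W h4).symm.trans (h1'.trans (congrArg W h5))
        · exact (congrArg W h5).symm.trans (h1'.symm.trans (congrArg W h4))
      intro y y'
      rw [← hW, ← hW]
      obtain ⟨p⟩ := hG.2 y.1 y'.1 (mem_filter.1 y.2).2 (mem_filter.1 y'.2).2
      clear hW
      generalize y.1 = u at p
      generalize y'.1 = u' at p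
      induction p with
      | nil => rfl
      | cons hh _ ih => exact (hadj _ _ hh).trans ih
    · intro h e
      rw [key, RdJ_add_eq_zero]
      exact h _ _
  · intro z
    have hv : ∀ v : V, ∑ d ∈ univ.filter (fun d : G.Dart => d.fst = v), z (ed (d, true)) =
        ∑ e, z e * ((if (rp e).1.fst = v then (1 : F2) else 0) + (if (rp e).1.snd = v then 1 else 0)) := by
      intro v
      rw [Finset.sum_filter, Pool.Agent.BEO.sum_edges]
      apply Finset.sum_congr rfl
      intro e _
      have h1 : ed ((rp e).1, true) = e := by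
        conv_rhs => rw [← Pool.Agent.BEO.ed_rp e]
        rfl
      have h2 : ed ((rp e).1.symm, true) = e := by
        conv_rhs => rw [← Pool.Agent.BEO.ed_rp e]
        apply Subtype.ext
        exact (rp e).1.edge_symm
      rw [h1, h2]
      show (if (rp e).1.fst = v then z e else 0) + (if (rp e).1.snd = v then z e else 0) = _
      rw [mul_add, mul_ite, mul_ite, mul_one, mul_zero]
    have hy : ∀ y : {v // v ∈ nis G}, ∑ d ∈ univ.filter (fun d : G.Dart => d.fst = y.1), z (ed (d, true)) =
        ∑ e, z e * ((if a e = y then (1 : F2) else 0) + (if b e = y then 1 else 0)) := by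
      intro y
      rw [hv]
      refine Finset.sum_congr rfl fun e _ => ?_
      have h1 : (a e = y) ↔ (rp e).1.fst = y.1 := Subtype.ext_iff
      have h2 : (b e = y) ↔ (rp e).1.snd = y.1 := Subtype.ext_iff
      rw [if_congr h1 rfl rfl, if_congr h2 rfl rfl]
    constructor
    · intro hz y
      have h1 : ∑ d ∈ univ.filter (fun d : G.Dart => d.fst = y.1), z (ed (d, true)) = 0 := hz y.1
      rw [hy y] at h1
      exact h1
    · intro hz v
      show ∑ d ∈ univ.filter (fun d : G.Dart => d.fst = v), z (ed (d, true)) = 0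
      by_cases hvn : v ∈ nis G
      · rw [hy ⟨v, hvn⟩]
        exact hz ⟨v, hvn⟩
      · apply Finset.sum_eq_zero
        intro d hd
        exfalso
        apply hvn
        rw [← (mem_filter.1 hd).2]
        exact RdJ_nis d.adj

private theorem RdJ_rk (hG : EC G) (M : GMap G) :
    ((Module.finrank F2 (LinearMap.range (frm M)) : ℕ) : ℤ) = egs M := by
  have h1 := LinearMap.finrank_range_add_finrank_ker (frm M)
  have h2 := RdJ_finrank_cyc hG
  have h3 := RdJ_finrank_bd hG M
  have h4 : LinearMap.ker (frm M) = Submodule.span F2 (Set.range (bdF M)) := by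
    ext z
    rw [LinearMap.mem_ker, ← Pool.Agent.BEO.frm_rad M z]
    constructor
    · intro h z'
      rw [h, LinearMap.zero_apply]
    · intro h
      exact LinearMap.ext h
  rw [h4] at h1
  unfold egs
  omega

theorem rk_egs (hG : EC G) (M : GMap G) : ((Module.finrank F2 (LinearMap.range (frm M)) : ℕ) : ℤ) = egs M :=
  RdJ_rk hG M

section aux

variable {G' : SimpleGraph V}

private theorem RdJ_xt_fi (h : G' ≤ G) (z : G'.edgeSet → F2) (p : Flag G') :
    xt G' G z (ed (fi h p)) = z (ed p) := by
  unfold xt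
  rw [dif_pos (show (ed (fi h p)).1 ∈ G'.edgeSet from (ed p).2)]
  rfl

private theorem RdJ_xt_zero (z : G'.edgeSet → F2) (e : G.edgeSet) (he : e.1 ∉ G'.edgeSet) :
    xt G' G z e = 0 := by
  unfold xt
  rw [dif_neg he]

private theorem RdJ_xt_mem (h : G' ≤ G) (z : G'.edgeSet → F2) (hz : z ∈ cyc G') : xt G' G z ∈ cyc G := by
  intro v
  have h1 := hz v
  rw [← h1]
  symm
  refine Finset.sum_of_injOn (fun d : G'.Dart => (⟨d.toProd, h d.adj⟩ : G.Dart)) ?_ ?_ ?_ ?_
  · intro d _ d' _ hdd
    have h2 := congrArg SimpleGraph.Dart.toProd hdd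
    exact SimpleGraph.Dart.ext d d' h2
  · intro d hd
    have h2 := (mem_filter.1 (Finset.mem_coe.1 hd)).2
    exact Finset.mem_coe.2 (mem_filter.2 ⟨mem_univ _, h2⟩)
  · intro d hd hne
    apply RdJ_xt_zero
    intro h2
    have h3 : d.edge ∈ G'.edgeSet := h2
    have h4 : G'.Adj d.fst d.snd := h3
    exact hne ⟨⟨d.toProd, h4⟩, Finset.mem_coe.2 (mem_filter.2 ⟨mem_univ _, (mem_filter.1 hd).2⟩), rfl⟩
  · intro d _
    exact (RdJ_xt_fi h z (d, true)).symm

/-- extension by zero as a linear map -/
private noncomputable def RdJ_ext (h : G' ≤ G) : cyc G' →ₗ[F2] cyc G where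
  toFun z := ⟨xt G' G z.1, RdJ_xt_mem h z.1 z.2⟩
  map_add' x y := by
    apply Subtype.ext
    funext e
    show xt G' G (x + y).1 e = xt G' G x.1 e + xt G' G y.1 e
    unfold xt
    by_cases he : e.1 ∈ G'.edgeSet
    · rw [dif_pos he, dif_pos he, dif_pos he]
      rfl
    · rw [dif_neg he, dif_neg he, dif_neg he, add_zero]
  map_smul' r x := by
    apply Subtype.ext
    funext e
    show xt G' G (r • x).1 e = r • xt G' G x.1 e
    unfold xt
    by_cases he : e.1 ∈ G'.edgeSet
    · rw [dif_pos he, dif_pos he]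
      rfl
    · rw [dif_neg he, dif_neg he, smul_zero]

end aux

theorem mon {G' : SimpleGraph V} (hG : EC G) (hG' : EC G') (h : G' ≤ G) (M : GMap G) (M' : GMap G') (hf : FRes M M') :
    egs M' ≤ egs M := by
  rw [← RdJ_rk hG M, ← RdJ_rk hG' M', Nat.cast_le]
  let R : (cyc G →ₗ[F2] F2) →ₗ[F2] (cyc G' →ₗ[F2] F2) := LinearMap.lcomp F2 F2 (RdJ_ext h)
  have h1 : frm M' = (R.comp (frm M)).comp (RdJ_ext h) := by
    apply LinearMap.ext
    intro z
    apply LinearMap.ext
    intro z'
    exact hf z z' (RdJ_ext h z) (RdJ_ext h z') rfl rfl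
  have h2 : LinearMap.range (frm M') ≤ (LinearMap.range (frm M)).map R := by
    rw [h1]
    rintro _ ⟨z, rfl⟩
    exact ⟨frm M (RdJ_ext h z), ⟨_, rfl⟩, rfl⟩
  exact (Submodule.finrank_mono h2).trans (Submodule.finrank_map_le R _)

theorem egs_eq [Nontrivial V] (hG : G.Connected) (M : GMap G) : EC G ∧ egs M = M.eg := by
  have hn : ∀ v : V, ∃ w, G.Adj v w := fun v => hG.preconnected.exists_adj_of_nontrivial v
  constructor
  · obtain ⟨v⟩ := hG.nonempty
    obtain ⟨w, hw⟩ := hn v
    exact ⟨⟨v, w, hw⟩, fun u v _ _ => hG.preconnected u v⟩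
  · have h1 : nis G = univ := by
      ext v
      constructor
      · intro _
        exact mem_univ _
      · intro _
        exact mem_filter.2 ⟨mem_univ _, hn v⟩
    unfold egs GMap.eg
    rw [h1, card_univ, Nat.card_eq_fintype_card (α := V)]

end Pool.Agent.FGT
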