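import Pool.Agent.FGT.DiA
import Pool.Agent.FGT.RdJ
import Pool.Agent.BEO.FrmOri

/-!
# FGT-DiB: comparing maps of two graphs with a common subgraph

PLAN. `rst` (RdK) gives a map `M0` of `G` with `FRes M M0`; `ext_all` a map `M'` of `H'` with `FRes M' M0`. A cycle `z` of `H'` vanishes outside `G`, so `z = xt G H' y` with `y ∈ cyc G` (`y e = z ⟨e.1, _⟩`; compare the proof of `xt_mem` in RsA), and `frm M' z z' = frm M0 y y' = frm M (xt G H y) (xt G H y')`. So the rank of `frm M'` is at most the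
rank of `frm M` (as in `mon` in RdJ), which are the numbers `egs` (`rk_egs`); orientability: `frm_alt`.
-/

set_option autoImplicit false

open Finset
open scoped Classical

namespace Pool.Agent.FGT

open Pool.Agent.Helper35.OG (Flag GMap across side)
open Pool.Agent.BEO (F2 ed rp cyc ev bdF nb)
open Pool.Agent.BEO (frm)

variable {V : Type} [Fintype V] {G H H' : SimpleGraph V}

/-- restriction to a subgraph -/
private def DiB_rs (h' : G ≤ H') (z : H'.edgeSet → F2) (e : G.edgeSet) : F2 :=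
  z ⟨e.1, SimpleGraph.edgeSet_mono h' e.2⟩

private theorem DiB_mem (h' : G ≤ H') (z : H'.edgeSet → F2) (hzc : z ∈ cyc H')
    (hz : ∀ e : H'.edgeSet, e.1 ∉ G.edgeSet → z e = 0) : DiB_rs h' z ∈ cyc G := by
  intro v
  have h1 := hzc v
  rw [← h1]
  refine Finset.sum_of_injOn (fun d : G.Dart => (⟨d.toProd, h' d.adj⟩ : H'.Dart)) ?_ ?_ ?_ ?_
  · intro d _ d' _ hdd
    have h2 := congrArg SimpleGraph.Dart.toProd hdd
    exact SimpleGraph.Dart.ext d d' h2
  · intro d hd
    have h2 := (mem_filter.1 (Finset.mem_coe.1 hd)).2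
    exact Finset.mem_coe.2 (mem_filter.2 ⟨mem_univ _, h2⟩)
  · intro d hd hne
    apply hz
    intro h2
    have h3 : d.edge ∈ G.edgeSet := h2
    have h4 : G.Adj d.fst d.snd := h3
    exact hne ⟨⟨d.toProd, h4⟩, Finset.mem_coe.2 (mem_filter.2 ⟨mem_univ _, (mem_filter.1 hd).2⟩), rfl⟩
  · intro d _
    rfl

private theorem DiB_eq (h' : G ≤ H') (z : H'.edgeSet → F2)
    (hz : ∀ e : H'.edgeSet, e.1 ∉ G.edgeSet → z e = 0) : z = xt G H' (DiB_rs h' z) := by
  funext e
  unfold xt
  by_cases he : e.1 ∈ G.edgeSet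
  · rw [dif_pos he]
    rfl
  · rw [dif_neg he, hz e he]

/-- restriction to a subgraph as a linear map -/
private noncomputable def DiB_R (h' : G ≤ H') (hz : ∀ z ∈ cyc H', ∀ e : H'.edgeSet, e.1 ∉ G.edgeSet → z e = 0) :
    cyc H' →ₗ[F2] cyc G where
  toFun z := ⟨DiB_rs h' z.1, DiB_mem h' z.1 z.2 (hz z.1 z.2)⟩
  map_add' x y := by
    apply Subtype.ext
    funext e
    rfl
  map_smul' r x := by
    apply Subtype.ext
    funext e
    rfl

/-- extension by zero as a linear map -/
private noncomputable def DiB_E (h : G ≤ H) : cyc G →ₗ[F2] cyc H where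
  toFun z := ⟨xt G H z.1, xt_mem h z.1 z.2⟩
  map_add' x y := by
    apply Subtype.ext
    funext e
    show xt G H (x + y).1 e = xt G H x.1 e + xt G H y.1 e
    unfold xt
    by_cases he : e.1 ∈ G.edgeSet
    · rw [dif_pos he, dif_pos he, dif_pos he]
      rfl
    · rw [dif_neg he, dif_neg he, dif_neg he, add_zero]
  map_smul' r x := by
    apply Subtype.ext
    funext e
    show xt G H (r • x).1 e = r • xt G H x.1 e
    unfold xt
    by_cases he : e.1 ∈ G.edgeSet
    · rw [dif_pos he, dif_pos he]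
      rfl
    · rw [dif_neg he, dif_neg he, smul_zero]

theorem cmp (hH : EC H) (hH' : EC H') (h : G ≤ H) (h' : G ≤ H')
    (hz : ∀ z ∈ cyc H', ∀ e : H'.edgeSet, e.1 ∉ G.edgeSet → z e = 0) (M : GMap H) :
    ∃ M' : GMap H', egs M' ≤ egs M ∧ (M.Orientable → M'.Orientable) := by
  obtain ⟨M0, -, hF0, -⟩ := rst h M
  obtain ⟨M', hF'⟩ := ext_all h' M0
  let T : cyc H' →ₗ[F2] cyc H := (DiB_E h).comp (DiB_R h' hz)
  have key : ∀ z z' : cyc H', frm M' z z' = frm M (T z) (T z') := by
    intro z z'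
    rw [← hF' (DiB_R h' hz z) (DiB_R h' hz z') z z' (DiB_eq h' z.1 (hz z.1 z.2))
      (DiB_eq h' z'.1 (hz z'.1 z'.2))]
    exact hF0 (DiB_R h' hz z) (DiB_R h' hz z') (T z) (T z') rfl rfl
  refine ⟨M', ?_, ?_⟩
  · rw [← rk_egs hH M, ← rk_egs hH' M', Nat.cast_le]
    let R : (cyc H →ₗ[F2] F2) →ₗ[F2] (cyc H' →ₗ[F2] F2) := LinearMap.lcomp F2 F2 T
    have h1 : frm M' = (R.comp (frm M)).comp T := by
      apply LinearMap.ext
      intro z
      apply LinearMap.ext
      intro z'
      exact key z z'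
    have h2 : LinearMap.range (frm M') ≤ (LinearMap.range (frm M)).map R := by
      rw [h1]
      rintro _ ⟨z, rfl⟩
      exact ⟨frm M (T z), ⟨_, rfl⟩, rfl⟩
    exact (Submodule.finrank_mono h2).trans (Submodule.finrank_map_le R _)
  · intro hM
    rw [Pool.Agent.BEO.frm_alt] at hM ⊢
    intro z
    rw [key]
    exact hM _

end Pool.Agent.FGT
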