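import Pool.Agent.FGT.DiDef
import Pool.Agent.BEO.DLf

/-!
# FGT-DiC: connecting the components by a star

PLAN. `st_cyc`: `e = s(r, x)` with `x ∈ R`. Let `cv v = 1` if `G.Reachable x v`, `0` otherwise. By `dL_orth cv z hz` the sum of `dL (fun p => cv p.1.fst) f * z f` over the edges `f` of `StG G r R` is zero; edges of `G` have both ends in the component of `x` or none; an edge `r y`, `y ∈ R`, has exactly one end there iff `y = x` (`Reps`). So `z e = 0`.
`st_ec`: every vertex `v` with an edge is joined to `r`. The new edges join vertices which have edges in `G`, so `nis` is the same. `st_cn`: `R' = R ∪ (univ \ nis G)`: an isolated vertex is reachable from itself only; the graph is connected because `r` is joined to everything.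
-/

set_option autoImplicit false

open Finset
open scoped Classical

namespace Pool.Agent.FGT

open Pool.Agent.Helper35.OG (Flag GMap across side)
open Pool.Agent.BEO (F2 ed rp cyc ev bdF nb)
open Pool.Agent.BEO (frm)

variable {V : Type} [Fintype V] {G : SimpleGraph V} {r : V} {R : Finset V}

private theorem dic_iso {G : SimpleGraph V} {x y : V} (hx : ¬ ∃ w, G.Adj x w) (h : G.Reachable x y) :
    x = y := by
  obtain ⟨p⟩ := h
  cases p with
  | nil => rfl
  | cons hadj _ => exact absurd ⟨_, hadj⟩ hx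

private theorem dic_adj {G : SimpleGraph V} {r : V} {R : Finset V} {a b : V} (h : (StG G r R).Adj a b) :
    G.Adj a b ∨ (a ≠ b ∧ ((a = r ∧ b ∈ R) ∨ (b = r ∧ a ∈ R))) := by
  rcases h with h | h
  · exact Or.inl h
  · exact Or.inr ((SimpleGraph.fromRel_adj _ _ _).1 h)

private theorem dic_star {G : SimpleGraph V} {r : V} {R : Finset V} {x : V} (h : x ∈ R) :
    (StG G r R).Reachable r x := by
  by_cases hx : r = x
  · rw [hx]
  · exact SimpleGraph.Adj.reachable (Or.inr ((SimpleGraph.fromRel_adj _ _ _).2 ⟨hx, Or.inl ⟨rfl, h⟩⟩))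

theorem st_cyc (h : Reps G r R) (z : (StG G r R).edgeSet → F2) (hz : z ∈ cyc (StG G r R)) (e : (StG G r R).edgeSet)
    (he : e.1 ∉ G.edgeSet) : z e = 0 := by
  have key : ∃ x ∈ R, e.1 = s(r, x) ∧ r ≠ x := by
    obtain ⟨e, hee⟩ := e
    induction e using Sym2.ind with
    | _ a b =>
      rcases dic_adj ((SimpleGraph.mem_edgeSet _).1 hee) with h1 | ⟨h1, ⟨h2, h3⟩ | ⟨h2, h3⟩⟩
      · exact absurd ((SimpleGraph.mem_edgeSet _).2 h1) he
      · exact ⟨b, h3, by show s(a, b) = s(r, b); rw [h2], by rw [← h2]; exact h1⟩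
      · exact ⟨a, h3, by show s(a, b) = s(r, a); rw [h2]; exact Sym2.eq_swap, by rw [← h2]; exact h1.symm⟩
  obtain ⟨x, hx, hex, hrx⟩ := key
  let cv : V → F2 := fun v => if G.Reachable x v then 1 else 0
  have hsum := BEO.dL_orth cv z hz
  have hval : ∀ f : (StG G r R).edgeSet, ∀ a b : V, f.1 = s(a, b) →
      BEO.dL (fun p : Flag (StG G r R) => cv p.1.fst) f = cv a + cv b := by
    intro f a b hf
    have h1 : BEO.dL (fun p : Flag (StG G r R) => cv p.1.fst) f = cv (rp f).1.fst + cv (rp f).1.snd := rfl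
    have h2 : (rp f).1.edge = s(a, b) := (congrArg Subtype.val (BEO.ed_rp f)).trans hf
    have h3 : s((rp f).1.fst, (rp f).1.snd) = s(a, b) := h2
    rw [h1]
    rcases Sym2.eq_iff.1 h3 with ⟨h4, h5⟩ | ⟨h4, h5⟩
    · rw [h4, h5]
    · rw [h4, h5, add_comm]
  have hr0 : cv r = 0 := if_neg fun h1 => h.nr x hx h1.symm
  have hx1 : cv x = 1 := if_pos (SimpleGraph.Reachable.refl x)
  rw [Finset.sum_eq_single e] at hsum
  · rw [hval e r x hex, hr0, hx1, zero_add, one_mul] at hsum
    exact hsum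
  · intro f _ hfe
    have hf0 : BEO.dL (fun p : Flag (StG G r R) => cv p.1.fst) f = 0 := by
      obtain ⟨f, hff⟩ := f
      induction f using Sym2.ind with
      | _ a b =>
        rw [hval _ a b rfl]
        have hstar : ∀ y ∈ R, s(a, b) = s(r, y) → cv r + cv y = 0 := by
          intro y hy hab
          rw [hr0, zero_add]
          refine if_neg fun h1 => ?_
          apply hfe
          have h2 := h.inj x hx y hy h1
          exact Subtype.ext (by rw [hex, h2]; exact hab)
        rcases dic_adj ((SimpleGraph.mem_edgeSet _).1 hff) with h1 | ⟨h1, ⟨h2, h3⟩ | ⟨h2, h3⟩⟩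
        · have h2 : G.Reachable x a ↔ G.Reachable x b :=
            ⟨fun h3 => h3.trans h1.reachable, fun h3 => h3.trans h1.symm.reachable⟩
          have h3 : cv a = cv b := by
            show (if G.Reachable x a then (1 : F2) else 0) = if G.Reachable x b then 1 else 0
            simp only [h2]
          rw [h3]
          exact CharTwo.add_self_eq_zero _
        · rw [h2]
          exact hstar b h3 (by rw [h2])
        · rw [h2, add_comm]
          exact hstar a h3 (by rw [h2]; exact Sym2.eq_swap)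
    rw [hf0, zero_mul]
  · intro h1
    exact absurd (mem_univ e) h1

theorem st_le : G ≤ StG G r R := by
  exact le_sup_left

theorem st_ec (hr : ∃ w, G.Adj r w) (hR : ∀ x ∈ R, ∃ w, G.Adj x w)
    (hc : ∀ v, (∃ w, G.Adj v w) → G.Reachable r v ∨ ∃ x ∈ R, G.Reachable x v) :
    EC (StG G r R) ∧ nis (StG G r R) = nis G := by
  have hle : G ≤ StG G r R := le_sup_left
  have h1 : ∀ v, (∃ w, (StG G r R).Adj v w) ↔ ∃ w, G.Adj v w := by
    intro v
    constructor
    · rintro ⟨w, hw⟩
      rcases dic_adj hw with h2 | ⟨_, ⟨h2, _⟩ | ⟨_, h2⟩⟩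
      · exact ⟨w, h2⟩
      · rw [h2]; exact hr
      · exact hR v h2
    · rintro ⟨w, hw⟩
      exact ⟨w, hle hw⟩
  have h2 : ∀ v, (∃ w, (StG G r R).Adj v w) → (StG G r R).Reachable r v := by
    intro v hv
    rcases hc v ((h1 v).1 hv) with h3 | ⟨x, hx, h3⟩
    · exact h3.mono hle
    · exact (dic_star hx).trans (h3.mono hle)
  refine ⟨⟨?_, fun u v hu hv => (h2 u hu).symm.trans (h2 v hv)⟩, ?_⟩
  · obtain ⟨w, hw⟩ := hr
    exact ⟨r, w, hle hw⟩
  · unfold nis
    refine Finset.filter_congr fun v _ => h1 v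

theorem st_cn (h : Reps G r R) (hr : ∃ w, G.Adj r w) (hR : ∀ x ∈ R, ∃ w, G.Adj x w)
    (hc : ∀ v, (∃ w, G.Adj v w) → G.Reachable r v ∨ ∃ x ∈ R, G.Reachable x v) :
    ∃ R' : Finset V, Reps G r R' ∧ (StG G r R').Connected ∧ StG G r R ≤ StG G r R' := by
  have hmem : ∀ v, v ∈ R ∪ univ.filter (fun v => ¬ ∃ w, G.Adj v w) ↔ v ∈ R ∨ ¬ ∃ w, G.Adj v w := by
    intro v
    rw [mem_union, mem_filter]
    exact ⟨fun h1 => h1.imp id fun h2 => h2.2, fun h1 => h1.imp id fun h2 => ⟨mem_univ _, h2⟩⟩
  refine ⟨R ∪ univ.filter (fun v => ¬ ∃ w, G.Adj v w), ⟨?_, ?_⟩, ?_, ?_⟩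
  · intro x hx hrx
    rcases (hmem x).1 hx with h1 | h1
    · exact h.nr x h1 hrx
    · have h2 := dic_iso h1 hrx.symm
      rw [h2] at h1
      exact h1 hr
  · intro x hx y hy hxy
    rcases (hmem x).1 hx with h1 | h1
    · rcases (hmem y).1 hy with h2 | h2
      · exact h.inj x h1 y h2 hxy
      · exact (dic_iso h2 hxy.symm).symm
    · exact dic_iso h1 hxy
  · have h1 : ∀ v, (StG G r (R ∪ univ.filter (fun v => ¬ ∃ w, G.Adj v w))).Reachable r v := by
      intro v
      have hle : G ≤ StG G r (R ∪ univ.filter (fun v => ¬ ∃ w, G.Adj v w)) := le_sup_left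
      by_cases hv : ∃ w, G.Adj v w
      · rcases hc v hv with h2 | ⟨x, hx, h2⟩
        · exact h2.mono hle
        · exact (dic_star ((hmem x).2 (Or.inl hx))).trans (h2.mono hle)
      · exact dic_star ((hmem v).2 (Or.inr hv))
    haveI : Nonempty V := ⟨r⟩
    exact ⟨fun u v => (h1 u).symm.trans (h1 v)⟩
  · refine sup_le_sup_left ?_ _
    intro a b hab
    rw [SimpleGraph.fromRel_adj] at hab ⊢
    refine ⟨hab.1, ?_⟩
    rcases hab.2 with h1 | h1
    · exact Or.inl ⟨h1.1, (hmem _).2 (Or.inl h1.2)⟩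
    · exact Or.inr ⟨h1.1, (hmem _).2 (Or.inl h1.2)⟩

/-- a graph without edges -/
theorem st_bot [Nontrivial V] : ∃ H : SimpleGraph V, H.Connected ∧ ∀ z ∈ cyc H, z = 0 := by
  obtain ⟨r⟩ : Nonempty V := inferInstance
  have hR : Reps (⊥ : SimpleGraph V) r (univ.erase r) := by
    constructor
    · intro x hx h1
      exact (mem_erase.1 hx).1 (SimpleGraph.reachable_bot.1 h1).symm
    · intro x _ y _ h1
      exact SimpleGraph.reachable_bot.1 h1
  refine ⟨StG ⊥ r (univ.erase r), ?_, ?_⟩
  · have h1 : ∀ v, (StG (⊥ : SimpleGraph V) r (univ.erase r)).Reachable r v := by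
      intro v
      by_cases hv : v = r
      · rw [hv]
      · exact dic_star (mem_erase.2 ⟨hv, mem_univ v⟩)
    haveI : Nonempty V := ⟨r⟩
    exact ⟨fun u v => (h1 u).symm.trans (h1 v)⟩
  · intro z hz
    funext e
    refine st_cyc hR z hz e ?_
    simp

end Pool.Agent.FGT
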