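import Pool.Agent.FGT.RdDef

/-!
# FGT-DiDef: graphs which are not connected (definitions)
-/

set_option autoImplicit false

open Finset
open scoped Classical

namespace Pool.Agent.FGT

open Pool.Agent.Helper35.OG (Flag GMap across side)
open Pool.Agent.BEO (F2 ed rp cyc ev bdF nb)
open Pool.Agent.BEO (frm)

variable {V : Type}

/-- `G` with the edges `r x`, `x ∈ R` -/
def StG (G : SimpleGraph V) (r : V) (R : Finset V) : SimpleGraph V := G ⊔ SimpleGraph.fromRel fun a b => a = r ∧ b ∈ R

/-- `r` and the members of `R` are in different components of `G` -/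
structure Reps (G : SimpleGraph V) (r : V) (R : Finset V) : Prop where
  nr : ∀ x ∈ R, ¬ G.Reachable r x
  inj : ∀ x ∈ R, ∀ y ∈ R, G.Reachable x y → x = y

/-- the orientable genus: the least `g` such that `G` is contained in a connected graph (with the same vertices) which has a map on the
orientable surface of genus `g` -/
noncomputable def gam (G : SimpleGraph V) [Fintype V] : ℕ :=
  sInf {g : ℕ | ∃ H : SimpleGraph V, G ≤ H ∧ H.Connected ∧ ∃ M : GMap H, M.Orientable ∧ M.eg = 2 * (g : ℤ)}

end Pool.Agent.FGT
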