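import Pool.Agent.FGT.DiAlg
import Pool.Agent.FGT.DiDef
import Pool.Agent.SCG.HTre

/-!
# FGT-DiD: the list of the edges of the connected graph

PLAN. The members of `vA A` are the numbers of the vertices with an edge. `comp_look` (CompS): the labels in `cmA A A` of two such vertices are equal iff they are related by `EqvGen`, iff reachable in `G` (`gen_iff` in SCG/HTre, private: copy its proof). `rpA A v` is the first member of `vA A` reachable from `v`, so it is reachable from `v` and depends on the component only.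
`r` = the vertex with the number `rtA A`, `R` = the vertices with numbers in `ddp ((vA A).map (rpA A))` other than `rtA A`.
-/

set_option autoImplicit false

open Finset
open scoped Classical

namespace Pool.Agent.FGT

open Pool.Agent.Helper35.OG (Flag GMap across side)
open Pool.Agent.BEO (F2 ed rp cyc ev cod Codes ec look memb ddp comp cds Pt Ec Inp sd ac ek fl nb)
open Pool.Agent.SCG (edl nx vl bst std Adl tre cmA)
open Pool.Agent.SCG (Lists stdM)

variable {n : ℕ} {G : SimpleGraph (Fin n)} {A : Adl}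

private theorem did_reach (h : Lists G A) {a b : ℕ} (hab : Relation.EqvGen (fun a b => (a, b) ∈ A) a b) :
    a = b ∨ ∃ u v : Fin n, (u : ℕ) = a ∧ (v : ℕ) = b ∧ G.Reachable u v := by
  induction hab with
  | rel a b hab =>
    obtain ⟨u, v, huv, e⟩ := h.2 _ hab
    have e1 : a = u := congrArg Prod.fst e
    have e2 : b = v := congrArg Prod.snd e
    exact Or.inr ⟨u, v, e1.symm, e2.symm, SimpleGraph.Adj.reachable huv⟩
  | refl a => exact Or.inl rfl
  | symm a b _ ih =>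
    rcases ih with ih | ⟨u, v, h1, h2, h3⟩
    · exact Or.inl ih.symm
    · exact Or.inr ⟨v, u, h2, h1, h3.symm⟩
  | trans a b c _ _ ih1 ih2 =>
    rcases ih1 with ih1 | ⟨u, v, h1, h2, h3⟩
    · rw [ih1]
      exact ih2
    · rcases ih2 with ih2 | ⟨u', v', h1', h2', h3'⟩
      · exact Or.inr ⟨u, v, h1, h2.trans ih2, h3⟩
      · have e : v = u' := Fin.ext (h2.trans h1'.symm)
        rw [← e] at h3'
        exact Or.inr ⟨u, v', h1, h2', h3.trans h3'⟩

private theorem did_iff (h : Lists G A) (u v : Fin n) :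
    Relation.EqvGen (fun a b => (a, b) ∈ A) (u : ℕ) (v : ℕ) ↔ G.Reachable u v := by
  constructor
  · intro hg
    rcases did_reach h hg with e | ⟨u', v', h1, h2, h3⟩
    · rw [Fin.ext e]
    · rw [Fin.ext h1, Fin.ext h2] at h3
      exact h3
  · intro hr
    rw [SimpleGraph.reachable_iff_reflTransGen] at hr
    induction hr with
    | refl => exact Relation.EqvGen.refl _
    | tail _ hab ih =>
      refine Relation.EqvGen.trans _ _ _ ih ?_
      rcases (h.1 _ _).1 hab with h1 | h1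
      · exact Relation.EqvGen.rel _ _ h1
      · exact Relation.EqvGen.symm _ _ (Relation.EqvGen.rel _ _ h1)

private theorem did_vA (h : Lists G A) (a : ℕ) : a ∈ vA A ↔ ∃ v : Fin n, (v : ℕ) = a ∧ ∃ w, G.Adj v w := by
  unfold vA
  rw [Pool.Agent.BEO.mem_ddp, List.mem_append, List.mem_map, List.mem_map]
  constructor
  · rintro (⟨x, hx, rfl⟩ | ⟨x, hx, rfl⟩)
    · obtain ⟨u, v, huv, rfl⟩ := h.2 x hx
      exact ⟨u, rfl, v, huv⟩
    · obtain ⟨u, v, huv, rfl⟩ := h.2 x hx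
      exact ⟨v, rfl, u, huv.symm⟩
  · rintro ⟨v, rfl, w, hw⟩
    rcases (h.1 _ _).1 hw with h1 | h1
    · exact Or.inl ⟨_, h1, rfl⟩
    · exact Or.inr ⟨_, h1, rfl⟩

private theorem did_lab (h : Lists G A) (u v : Fin n) (hu : ∃ w, G.Adj u w) (hv : ∃ w, G.Adj v w) :
    (look (cmA A A) (u : ℕ) (u : ℕ) = look (cmA A A) (v : ℕ) (v : ℕ)) ↔ G.Reachable u v := by
  rw [← did_iff h]
  have hm : ∀ x ∈ A, x.1 ∈ ddp (A.map Prod.fst ++ A.map Prod.snd) ∧ x.2 ∈ ddp (A.map Prod.fst ++ A.map Prod.snd) := by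
    intro x hx
    rw [Pool.Agent.BEO.mem_ddp, Pool.Agent.BEO.mem_ddp]
    exact ⟨List.mem_append_left _ (List.mem_map_of_mem hx), List.mem_append_right _ (List.mem_map_of_mem hx)⟩
  unfold cmA
  exact Pool.Agent.BEO.comp_look _ _ (fun r hr => hm r hr) _ _ ((did_vA h _).2 ⟨u, rfl, hu⟩)
    ((did_vA h _).2 ⟨v, rfl, hv⟩)

private theorem did_rp (h : Lists G A) (v : Fin n) (hv : ∃ w, G.Adj v w) :
    ∃ u : Fin n, (u : ℕ) = rpA A v ∧ (∃ w, G.Adj u w) ∧ G.Reachable u v := by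
  have h1 : (v : ℕ) ∈ (vA A).filter fun u => decide (look (cmA A A) u u = look (cmA A A) v v) := by
    rw [List.mem_filter]
    exact ⟨(did_vA h _).2 ⟨v, rfl, hv⟩, decide_eq_true rfl⟩
  have h2 : rpA A v ∈ (vA A).filter fun u => decide (look (cmA A A) u u = look (cmA A A) v v) := by
    unfold rpA
    obtain ⟨l, hl⟩ : ∃ l, l = (vA A).filter fun u => decide (look (cmA A A) u u = look (cmA A A) v v) := ⟨_, rfl⟩
    rw [← hl] at h1 ⊢
    cases l with
    | nil => exact absurd h1 List.not_mem_nil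
    | cons a l => exact List.mem_cons_self
  rw [List.mem_filter] at h2
  obtain ⟨u, hu1, hu2⟩ := (did_vA h _).1 h2.1
  refine ⟨u, hu1, hu2, ?_⟩
  rw [← did_lab h u v hu2 hv]
  have h3 := of_decide_eq_true h2.2
  rw [← hu1] at h3
  exact h3

private theorem did_rp_eq (h : Lists G A) (u v : Fin n) (hu : ∃ w, G.Adj u w) (hv : ∃ w, G.Adj v w)
    (huv : G.Reachable u v) : rpA A u = rpA A v := by
  unfold rpA
  rw [(did_lab h u v hu hv).2 huv]

theorem cn0_spec (hA : Lists G A) (hne : A ≠ []) : ∃ (r : Fin n) (R : Finset (Fin n)), Reps G r R ∧ (∃ w, G.Adj r w) ∧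
    (∀ x ∈ R, ∃ w, G.Adj x w) ∧ (∀ v, (∃ w, G.Adj v w) → G.Reachable r v ∨ ∃ x ∈ R, G.Reachable x v) ∧
    Lists (StG G r R) (cn0 A) := by
  -- the first vertex
  have h0 : ∃ v0 : Fin n, (v0 : ℕ) = (vA A).headD 0 ∧ ∃ w, G.Adj v0 w := by
    have h1 : ∃ a, a ∈ vA A := by
      obtain ⟨x, hx⟩ := List.exists_mem_of_ne_nil A hne
      obtain ⟨u, v, huv, -⟩ := hA.2 x hx
      exact ⟨u, (did_vA hA _).2 ⟨u, rfl, v, huv⟩⟩
    have h2 : (vA A).headD 0 ∈ vA A := by
      obtain ⟨a, ha⟩ := h1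
      obtain ⟨l, hl⟩ : ∃ l, l = vA A := ⟨_, rfl⟩
      rw [← hl] at ha ⊢
      cases l with
      | nil => exact absurd ha List.not_mem_nil
      | cons a l => exact List.mem_cons_self
    exact (did_vA hA _).1 h2
  obtain ⟨v0, hv0, hv0w⟩ := h0
  obtain ⟨r, hr1, hr2, hr3⟩ := did_rp hA v0 hv0w
  have hr : (r : ℕ) = rtA A := by
    unfold rtA
    rw [hr1, hv0]
  -- the representatives
  have hrr : rpA A r = r := by
    rw [did_rp_eq hA r v0 hr2 hv0w hr3, hr1]
  obtain ⟨R, hR⟩ : ∃ R : Finset (Fin n), ∀ x, x ∈ R ↔ ((x : ℕ) ∈ ddp ((vA A).map (rpA A)) ∧ (x : ℕ) ≠ rtA A) :=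
    ⟨univ.filter fun x => (x : ℕ) ∈ ddp ((vA A).map (rpA A)) ∧ (x : ℕ) ≠ rtA A, fun x => by
      rw [mem_filter]
      exact ⟨fun h => h.2, fun h => ⟨mem_univ _, h⟩⟩⟩
  have hmem : ∀ a : ℕ, a ∈ ddp ((vA A).map (rpA A)) → ∃ x : Fin n, (x : ℕ) = a ∧ (∃ w, G.Adj x w) ∧ rpA A x = x := by
    intro a ha
    rw [Pool.Agent.BEO.mem_ddp, List.mem_map] at ha
    obtain ⟨b, hb1, rfl⟩ := ha
    obtain ⟨v, rfl, hv⟩ := (did_vA hA _).1 hb1
    obtain ⟨u, hu1, hu2, hu3⟩ := did_rp hA v hv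
    refine ⟨u, hu1, hu2, ?_⟩
    rw [did_rp_eq hA u v hu2 hv hu3, hu1]
  have hRs : ∀ x ∈ R, (∃ w, G.Adj x w) ∧ rpA A x = x := by
    intro x hx
    obtain ⟨y, hy1, hy2, hy3⟩ := hmem x ((hR x).1 hx).1
    have hyx : y = x := Fin.ext hy1
    rw [hyx] at hy2 hy3
    exact ⟨hy2, hy3⟩
  have hrR : r ∉ R := fun h => ((hR r).1 h).2 hr
  have hadj : ∀ u v : Fin n, (StG G r R).Adj u v ↔ G.Adj u v ∨ (u = r ∧ v ∈ R) ∨ (v = r ∧ u ∈ R) := by
    intro u v
    unfold StG
    rw [SimpleGraph.sup_adj, SimpleGraph.fromRel_adj]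
    constructor
    · rintro (h1 | h1)
      · exact Or.inl h1
      · exact Or.inr h1.2
    · rintro (h1 | h1)
      · exact Or.inl h1
      · refine Or.inr ⟨?_, h1⟩
        rintro rfl
        rcases h1 with h1 | h1
        · exact hrR (h1.1 ▸ h1.2)
        · exact hrR (h1.1 ▸ h1.2)
  have hcn : ∀ x : ℕ × ℕ, x ∈ cn0 A ↔ x ∈ A ∨ ∃ v ∈ R, x = ((r : ℕ), (v : ℕ)) := by
    intro x
    unfold cn0
    rw [List.mem_append, List.mem_map]
    refine or_congr Iff.rfl ?_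
    constructor
    · rintro ⟨a, ha, rfl⟩
      rw [List.mem_filter] at ha
      obtain ⟨y, hy1, -, -⟩ := hmem a ha.1
      refine ⟨y, (hR y).2 ⟨by rw [hy1]; exact ha.1, ?_⟩, ?_⟩
      · rw [hy1]
        intro h1
        have h2 := ha.2
        rw [h1] at h2
        simp at h2
      · rw [hr, hy1]
    · rintro ⟨v, hv, rfl⟩
      refine ⟨(v : ℕ), ?_, ?_⟩
      · rw [List.mem_filter]
        refine ⟨((hR v).1 hv).1, ?_⟩
        rw [decide_eq_false ((hR v).1 hv).2]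
        rfl
      · rw [hr]
  refine ⟨r, R, ⟨?_, ?_⟩, hr2, fun x hx => (hRs x hx).1, ?_, ?_, ?_⟩
  · intro x hx hrx
    have h1 := did_rp_eq hA r x hr2 (hRs x hx).1 hrx
    rw [hrr, (hRs x hx).2] at h1
    exact hrR ((Fin.ext h1 : r = x) ▸ hx)
  · intro x hx y hy hxy
    have h1 := did_rp_eq hA x y (hRs x hx).1 (hRs y hy).1 hxy
    rw [(hRs x hx).2, (hRs y hy).2] at h1
    exact Fin.ext h1
  · intro v hv
    obtain ⟨u, hu1, hu2, hu3⟩ := did_rp hA v hv
    by_cases h1 : (u : ℕ) = rtA A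
    · left
      have h2 : u = r := Fin.ext (h1.trans hr.symm)
      rw [h2] at hu3
      exact hu3
    · right
      refine ⟨u, (hR u).2 ⟨?_, h1⟩, hu3⟩
      rw [Pool.Agent.BEO.mem_ddp, List.mem_map]
      exact ⟨v, (did_vA hA _).2 ⟨v, rfl, hv⟩, hu1.symm⟩
  · intro u v
    rw [hadj, hcn, hcn, hA.1 u v]
    constructor
    · rintro ((h1 | h1) | ⟨rfl, h1⟩ | ⟨rfl, h1⟩)
      · exact Or.inl (Or.inl h1)
      · exact Or.inr (Or.inl h1)
      · exact Or.inl (Or.inr ⟨v, h1, rfl⟩)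
      · exact Or.inr (Or.inr ⟨u, h1, rfl⟩)
    · rintro ((h1 | ⟨w, hw, h1⟩) | (h1 | ⟨w, hw, h1⟩))
      · exact Or.inl (Or.inl h1)
      · rw [Prod.mk.injEq] at h1
        have e1 : u = r := Fin.ext h1.1
        have e2 : v = w := Fin.ext h1.2
        exact Or.inr (Or.inl ⟨e1, e2 ▸ hw⟩)
      · exact Or.inl (Or.inr h1)
      · rw [Prod.mk.injEq] at h1
        have e1 : v = r := Fin.ext h1.1
        have e2 : u = w := Fin.ext h1.2
        exact Or.inr (Or.inr ⟨e1, e2 ▸ hw⟩)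
  · intro x hx
    rcases (hcn x).1 hx with h1 | ⟨v, hv, h1⟩
    · obtain ⟨u, v, huv, e⟩ := hA.2 x h1
      exact ⟨u, v, (hadj u v).2 (Or.inl huv), e⟩
    · exact ⟨r, v, (hadj r v).2 (Or.inr (Or.inl ⟨rfl, hv⟩)), h1⟩

end Pool.Agent.FGT
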