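import Pool.Agent.FGT.RdDef
import Pool.Agent.BEO.CodS

/-!
# FGT-RdR1: numbering the vertices again (maps)

PLAN. `relab`: `n2 = (nis G').card`, `ι = (nis G').orderEmbOfFin rfl`, `G2 = G'.comap ι`; `2 ≤ n2` because there is an edge; connected by `EC` (all vertices of a walk in `G'` from a vertex of `nis G'` are in `nis G'`). `relab_dn`, `relab_up`: the flags of `G2` correspond to those of `G'` (`fvi`); transport `nxt`, the connectedness at a vertex. `relab_eq`: a bijection of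
the faces, of the edges, of `Fin n2` and `nis G'`; colourings are transported.
-/

set_option autoImplicit false

open Finset
open scoped Classical

namespace Pool.Agent.FGT

open Pool.Agent.Helper35.OG (Flag GMap across side)
open Pool.Agent.BEO (F2 ed rp cyc ev bdF nb)

variable {n n2 : ℕ}

/-- the value of a flag in the larger graph -/
def fvi (ι : Fin n2 ↪o Fin n) {G2 : SimpleGraph (Fin n2)} (p : Flag G2) : (Fin n × Fin n) × Bool :=
  ((ι p.1.fst, ι p.1.snd), p.2)

/-- `G2` is `G'` without its isolated vertices -/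
def Rel (ι : Fin n2 ↪o Fin n) (G2 : SimpleGraph (Fin n2)) (G' : SimpleGraph (Fin n)) : Prop :=
  2 ≤ n2 ∧ G2.Connected ∧ (∀ u v, G2.Adj u v ↔ G'.Adj (ι u) (ι v)) ∧ ∀ v, v ∈ nis G' ↔ ∃ u, ι u = v

/-- corresponding maps -/
def RM (ι : Fin n2 ↪o Fin n) {G2 : SimpleGraph (Fin n2)} {G' : SimpleGraph (Fin n)} (M2 : GMap G2) (M' : GMap G') : Prop :=
  ∀ (p : Flag G2) (p' : Flag G'), fv p' = fvi ι p → fv (M'.nxt p') = fvi ι (M2.nxt p)

private theorem rr_nis {G : SimpleGraph (Fin n)} {v : Fin n} : v ∈ nis G ↔ ∃ w, G.Adj v w := by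
  unfold nis
  simp only [mem_filter, mem_univ, true_and]

theorem relab (G' : SimpleGraph (Fin n)) (hG : EC G') : ∃ (n2 : ℕ) (ι : Fin n2 ↪o Fin n) (G2 : SimpleGraph (Fin n2)),
    Rel ι G2 G' := by
  obtain ⟨⟨a, b, hab⟩, hr⟩ := hG
  have hι : ∀ v, v ∈ nis G' ↔ ∃ u, (nis G').orderEmbOfFin rfl u = v := by
    intro v
    have h1 := (nis G').range_orderEmbOfFin rfl
    have h2 : v ∈ Set.range ((nis G').orderEmbOfFin rfl) ↔ v ∈ (nis G' : Set (Fin n)) := by
      rw [h1]
    exact h2.symm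
  have ha : a ∈ nis G' := rr_nis.2 ⟨b, hab⟩
  have hb : b ∈ nis G' := rr_nis.2 ⟨a, hab.symm⟩
  have hw : ∀ (x y : Fin n) (_ : G'.Walk x y) (u v : Fin (nis G').card),
      (nis G').orderEmbOfFin rfl u = x → (nis G').orderEmbOfFin rfl v = y →
      (G'.comap ((nis G').orderEmbOfFin rfl)).Reachable u v := by
    intro x y w
    induction w with
    | nil =>
      intro u v h1 h2
      have h3 : u = v := ((nis G').orderEmbOfFin rfl).injective (h1.trans h2.symm)
      rw [h3]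
    | cons h w ih =>
      intro u v h1 h2
      obtain ⟨c, hc⟩ := (hι _).1 (rr_nis.2 ⟨_, h.symm⟩)
      refine SimpleGraph.Reachable.trans ?_ (ih c v hc h2)
      apply SimpleGraph.Adj.reachable
      show G'.Adj ((nis G').orderEmbOfFin rfl u) ((nis G').orderEmbOfFin rfl c)
      rw [h1, hc]
      exact h
  refine ⟨(nis G').card, (nis G').orderEmbOfFin rfl, G'.comap ((nis G').orderEmbOfFin rfl), ?_, ?_, ?_, hι⟩
  · exact Finset.one_lt_card.2 ⟨a, ha, b, hb, hab.ne⟩
  · obtain ⟨u0, _⟩ := (hι a).1 ha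
    refine (SimpleGraph.connected_iff _).2 ⟨?_, ⟨u0⟩⟩
    intro u v
    have h1 := rr_nis.1 ((hι _).2 ⟨u, rfl⟩)
    have h2 := rr_nis.1 ((hι _).2 ⟨v, rfl⟩)
    obtain ⟨w⟩ := hr _ _ h1 h2
    exact hw _ _ w u v rfl rfl
  · intro u v
    exact Iff.rfl

private theorem rr_fv {G : SimpleGraph (Fin n)} {p q : Flag G} (h : fv p = fv q) : p = q := by
  unfold fv at h
  have h1 := congrArg Prod.fst h
  have h2 := congrArg Prod.snd h
  exact Prod.ext (SimpleGraph.Dart.ext _ _ h1) h2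

/-- the flag in the larger graph -/
private def rr_up (ι : Fin n2 ↪o Fin n) {G2 : SimpleGraph (Fin n2)} {G' : SimpleGraph (Fin n)}
    (h : ∀ u v, G2.Adj u v ↔ G'.Adj (ι u) (ι v)) (p : Flag G2) : Flag G' :=
  (⟨(ι p.1.fst, ι p.1.snd), (h _ _).1 p.1.adj⟩, p.2)

private theorem rr_bij (ι : Fin n2 ↪o Fin n) {G2 : SimpleGraph (Fin n2)} {G' : SimpleGraph (Fin n)} (h : Rel ι G2 G') :
    Function.Bijective (rr_up ι h.2.2.1) := by
  constructor
  · intro p q hpq
    have h1 : ι p.1.fst = ι q.1.fst := congrArg (fun x : Flag G' => x.1.fst) hpq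
    have h2 : ι p.1.snd = ι q.1.snd := congrArg (fun x : Flag G' => x.1.snd) hpq
    have h3 : p.2 = q.2 := congrArg (fun x : Flag G' => x.2) hpq
    exact Prod.ext (SimpleGraph.Dart.ext _ _ (Prod.ext (ι.injective h1) (ι.injective h2))) h3
  · rintro ⟨⟨⟨a, b⟩, hab⟩, s⟩
    have hab' : G'.Adj a b := hab
    obtain ⟨u, rfl⟩ := (h.2.2.2 a).1 (rr_nis.2 ⟨b, hab'⟩)
    obtain ⟨v, rfl⟩ := (h.2.2.2 b).1 (rr_nis.2 ⟨_, hab'.symm⟩)
    exact ⟨(⟨(u, v), (h.2.2.1 u v).2 hab'⟩, s), rfl⟩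

/-- the flags of the two graphs -/
private noncomputable def rr_e (ι : Fin n2 ↪o Fin n) {G2 : SimpleGraph (Fin n2)} {G' : SimpleGraph (Fin n)}
    (h : Rel ι G2 G') : Flag G2 ≃ Flag G' := Equiv.ofBijective _ (rr_bij ι h)

private theorem rr_fst (ι : Fin n2 ↪o Fin n) {G2 : SimpleGraph (Fin n2)} {G' : SimpleGraph (Fin n)}
    (h : Rel ι G2 G') (p : Flag G2) : (rr_e ι h p).1.fst = ι p.1.fst := rfl

private theorem rr_fvi (ι : Fin n2 ↪o Fin n) {G2 : SimpleGraph (Fin n2)} {G' : SimpleGraph (Fin n)}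
    (h : Rel ι G2 G') (p : Flag G2) : fv (rr_e ι h p) = fvi ι p := rfl

private theorem rr_side (ι : Fin n2 ↪o Fin n) {G2 : SimpleGraph (Fin n2)} {G' : SimpleGraph (Fin n)}
    (h : Rel ι G2 G') (p : Flag G2) : rr_e ι h (side p) = side (rr_e ι h p) := rfl

private theorem rr_across (ι : Fin n2 ↪o Fin n) {G2 : SimpleGraph (Fin n2)} {G' : SimpleGraph (Fin n)}
    (h : Rel ι G2 G') (p : Flag G2) : rr_e ι h (across p) = across (rr_e ι h p) := rfl

private theorem rr_RM (ι : Fin n2 ↪o Fin n) {G2 : SimpleGraph (Fin n2)} {G' : SimpleGraph (Fin n)}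
    (h : Rel ι G2 G') (M2 : GMap G2) (M' : GMap G') :
    RM ι M2 M' ↔ ∀ p, M'.nxt (rr_e ι h p) = rr_e ι h (M2.nxt p) := by
  constructor
  · intro h1 p
    exact rr_fv ((h1 p _ (rr_fvi ι h p)).trans (rr_fvi ι h _).symm)
  · intro h1 p p' hp
    have h2 : p' = rr_e ι h p := rr_fv (hp.trans (rr_fvi ι h p).symm)
    rw [h2, h1]
    rfl

private theorem rr_gen {α β : Type} {r : α → α → Prop} {s : β → β → Prop} (f : α → β)
    (hf : ∀ x y, r x y → s (f x) (f y)) {x y : α} (h : Relation.EqvGen r x y) : Relation.EqvGen s (f x) (f y) := by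
  induction h with
  | rel x y h => exact Relation.EqvGen.rel _ _ (hf x y h)
  | refl x => exact Relation.EqvGen.refl _
  | symm x y _ ih => exact Relation.EqvGen.symm _ _ ih
  | trans x y z _ _ ih1 ih2 => exact Relation.EqvGen.trans _ _ _ ih1 ih2

theorem relab_dn (ι : Fin n2 ↪o Fin n) (G2 : SimpleGraph (Fin n2)) (G' : SimpleGraph (Fin n)) (h : Rel ι G2 G')
    (M' : GMap G') : ∃ M2 : GMap G2, RM ι M2 M' := by
  refine ⟨{ nxt := fun p => (rr_e ι h).symm (M'.nxt (rr_e ι h p))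
            nxt_nxt := ?_
            nxt_ne := ?_
            nxt_fst := ?_
            conn := ?_ }, ?_⟩
  · intro p
    show (rr_e ι h).symm (M'.nxt (rr_e ι h ((rr_e ι h).symm (M'.nxt (rr_e ι h p))))) = p
    rw [Equiv.apply_symm_apply, M'.nxt_nxt, Equiv.symm_apply_apply]
  · intro p hp
    apply M'.nxt_ne (rr_e ι h p)
    have h1 := congrArg (rr_e ι h) hp
    rwa [Equiv.apply_symm_apply] at h1
  · intro p
    apply ι.injective
    rw [← rr_fst ι h, Equiv.apply_symm_apply, M'.nxt_fst, rr_fst]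
  · intro p q hpq
    have h1 : (rr_e ι h p).1.fst = (rr_e ι h q).1.fst := by
      rw [rr_fst, rr_fst, hpq]
    have h2 := rr_gen (s := fun x y : Flag G2 => y = (rr_e ι h).symm (M'.nxt (rr_e ι h x)) ∨ y = side x)
      (rr_e ι h).symm (fun x y hxy => by
        rcases hxy with hxy | hxy
        · left
          rw [Equiv.apply_symm_apply, hxy]
        · right
          rw [Equiv.symm_apply_eq, rr_side, Equiv.apply_symm_apply, hxy]) (M'.conn _ _ h1)
    rw [Equiv.symm_apply_apply, Equiv.symm_apply_apply] at h2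
    exact h2
  · rw [rr_RM ι h]
    intro p
    show _ = rr_e ι h ((rr_e ι h).symm (M'.nxt (rr_e ι h p)))
    rw [Equiv.apply_symm_apply]

theorem relab_up (ι : Fin n2 ↪o Fin n) (G2 : SimpleGraph (Fin n2)) (G' : SimpleGraph (Fin n)) (h : Rel ι G2 G')
    (M2 : GMap G2) : ∃ M' : GMap G', RM ι M2 M' := by
  refine ⟨{ nxt := fun p => rr_e ι h (M2.nxt ((rr_e ι h).symm p))
            nxt_nxt := ?_
            nxt_ne := ?_
            nxt_fst := ?_
            conn := ?_ }, ?_⟩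
  · intro p
    show rr_e ι h (M2.nxt ((rr_e ι h).symm (rr_e ι h (M2.nxt ((rr_e ι h).symm p))))) = p
    rw [Equiv.symm_apply_apply, M2.nxt_nxt, Equiv.apply_symm_apply]
  · intro p hp
    apply M2.nxt_ne ((rr_e ι h).symm p)
    have h1 := congrArg (rr_e ι h).symm hp
    rwa [Equiv.symm_apply_apply] at h1
  · intro p
    show (rr_e ι h (M2.nxt ((rr_e ι h).symm p))).1.fst = _
    rw [rr_fst, M2.nxt_fst, ← rr_fst ι h, Equiv.apply_symm_apply]
  · intro p q hpq
    have h1 : ((rr_e ι h).symm p).1.fst = ((rr_e ι h).symm q).1.fst := by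
      apply ι.injective
      rw [← rr_fst ι h, ← rr_fst ι h, Equiv.apply_symm_apply, Equiv.apply_symm_apply, hpq]
    have h2 := rr_gen (s := fun x y : Flag G' => y = rr_e ι h (M2.nxt ((rr_e ι h).symm x)) ∨ y = side x)
      (rr_e ι h) (fun x y hxy => by
        rcases hxy with hxy | hxy
        · left
          rw [Equiv.symm_apply_apply, hxy]
        · right
          rw [hxy, rr_side]) (M2.conn _ _ h1)
    rw [Equiv.apply_symm_apply, Equiv.apply_symm_apply] at h2
    exact h2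
  · rw [rr_RM ι h]
    intro p
    show rr_e ι h (M2.nxt ((rr_e ι h).symm (rr_e ι h p))) = _
    rw [Equiv.symm_apply_apply]

theorem relab_card (ι : Fin n2 ↪o Fin n) (G2 : SimpleGraph (Fin n2)) (G' : SimpleGraph (Fin n)) (h : Rel ι G2 G') :
    Nat.card G2.edgeSet = Nat.card G'.edgeSet := by
  have h1 : ∀ e : Sym2 (Fin n2), e ∈ G2.edgeSet ↔ Sym2.map ι e ∈ G'.edgeSet := by
    intro e
    induction e using Sym2.ind with
    | _ x y =>
      rw [Sym2.map_mk, SimpleGraph.mem_edgeSet, SimpleGraph.mem_edgeSet]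
      exact h.2.2.1 x y
  apply Nat.card_congr
  refine Equiv.ofBijective (fun e : G2.edgeSet => (⟨Sym2.map ι e.1, (h1 _).1 e.2⟩ : G'.edgeSet)) ⟨?_, ?_⟩
  · intro e f hef
    apply Subtype.ext
    exact Sym2.map.injective ι.injective (congrArg Subtype.val hef)
  · rintro ⟨e, he⟩
    induction e using Sym2.ind with
    | _ x y =>
      have hxy : G'.Adj x y := he
      obtain ⟨u, rfl⟩ := (h.2.2.2 x).1 (rr_nis.2 ⟨y, hxy⟩)
      obtain ⟨v, rfl⟩ := (h.2.2.2 y).1 (rr_nis.2 ⟨_, hxy.symm⟩)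
      exact ⟨⟨s(u, v), (h.2.2.1 u v).2 hxy⟩, rfl⟩

private theorem rr_nisc (ι : Fin n2 ↪o Fin n) (G2 : SimpleGraph (Fin n2)) (G' : SimpleGraph (Fin n)) (h : Rel ι G2 G') :
    (nis G').card = n2 := by
  have h1 : nis G' = univ.map ι.toEmbedding := by
    ext v
    rw [h.2.2.2 v, mem_map]
    exact ⟨fun ⟨u, hu⟩ => ⟨u, mem_univ _, hu⟩, fun ⟨u, _, hu⟩ => ⟨u, hu⟩⟩
  rw [h1, card_map, card_univ, Fintype.card_fin]

theorem relab_eq (ι : Fin n2 ↪o Fin n) (G2 : SimpleGraph (Fin n2)) (G' : SimpleGraph (Fin n)) (h : Rel ι G2 G')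
    (M2 : GMap G2) (M' : GMap G') (hM : RM ι M2 M') : M2.eg = egs M' ∧ (M2.Orientable ↔ M'.Orientable) := by
  rw [rr_RM ι h] at hM
  constructor
  · have h1 : Nat.card M2.Face = Nat.card M'.Face := by
      apply Nat.card_congr
      refine Quot.congr (rr_e ι h) ?_
      intro x y
      rw [hM, ← rr_across, Equiv.apply_eq_iff_eq, Equiv.apply_eq_iff_eq]
    unfold GMap.eg egs
    rw [h1, relab_card ι G2 G' h, rr_nisc ι G2 G' h, Nat.card_eq_fintype_card, Fintype.card_fin]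
  · constructor
    · rintro ⟨κ, h1, h2⟩
      refine ⟨fun p => κ ((rr_e ι h).symm p), ?_, ?_⟩
      · intro p
        obtain ⟨q, rfl⟩ := (rr_e ι h).surjective p
        have h3 := h1 q
        show κ ((rr_e ι h).symm (across (rr_e ι h q))) ≠ κ ((rr_e ι h).symm (rr_e ι h q)) ∧
          κ ((rr_e ι h).symm (side (rr_e ι h q))) ≠ κ ((rr_e ι h).symm (rr_e ι h q))
        rw [← rr_across, ← rr_side, Equiv.symm_apply_apply, Equiv.symm_apply_apply, Equiv.symm_apply_apply]
        exact h3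
      · intro p
        obtain ⟨q, rfl⟩ := (rr_e ι h).surjective p
        show κ ((rr_e ι h).symm (M'.nxt (rr_e ι h q))) ≠ κ ((rr_e ι h).symm (rr_e ι h q))
        rw [hM, Equiv.symm_apply_apply, Equiv.symm_apply_apply]
        exact h2 q
    · rintro ⟨κ, h1, h2⟩
      refine ⟨fun p => κ (rr_e ι h p), ?_, ?_⟩
      · intro p
        show κ (rr_e ι h (across p)) ≠ κ (rr_e ι h p) ∧ κ (rr_e ι h (side p)) ≠ κ (rr_e ι h p)
        rw [rr_across, rr_side]
        exact h1 _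
      · intro p
        show κ (rr_e ι h (M2.nxt p)) ≠ κ (rr_e ι h p)
        rw [← hM]
        exact h2 _

end Pool.Agent.FGT
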