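import Pool.Agent.FGT.DiAlg
import Pool.Agent.FGT.DiDef
import Pool.Agent.FGT.RdR1
import Pool.Agent.SCG.HCod

/-!
# FGT-DiE: numbering the vertices of the connected graph again

PLAN. `vA A` lists the numbers of the vertices in `nis G = nis H` without repetition (`ddp`), these are the `ι i`; `rkU (vA A) (ι i) = i`, since the members of `vA A` below `ι i` are the `ι j`, `j < i` (compare RdR2). So the members of `cnn A` are the pairs `(u, v)` with `(ι u, ι v) ∈ cn0 A`; `G2.Adj u v ↔ H.Adj (ι u) (ι v)`.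
-/

set_option autoImplicit false

open Finset
open scoped Classical

namespace Pool.Agent.FGT

open Pool.Agent.Helper35.OG (Flag GMap across side)
open Pool.Agent.BEO (F2 ed rp cyc ev cod Codes ec look memb ddp comp cds Pt Ec Inp sd ac ek fl nb)
open Pool.Agent.SCG (edl nx vl bst std Adl tre cmA)
open Pool.Agent.SCG (Lists stdM)

variable {n n2 : ℕ} {G H : SimpleGraph (Fin n)} {A : Adl}

private theorem die_nis0 {V : Type} [Fintype V] {K : SimpleGraph V} (v : V) : v ∈ nis K ↔ ∃ w, K.Adj v w := by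
  unfold nis
  rw [Finset.mem_filter]
  exact ⟨fun h => h.2, fun h => ⟨Finset.mem_univ _, h⟩⟩

private theorem die_nis {K : SimpleGraph (Fin n)} (v : Fin n) : v ∈ nis K ↔ ∃ w, K.Adj v w := die_nis0 v

private theorem die_rk {ι : Fin n2 ↪o Fin n} {U : List ℕ} (hU : U.Nodup)
    (hm : ∀ v, v ∈ U ↔ ∃ u : Fin n2, v = ((ι u : Fin n) : ℕ)) (i : Fin n2) :
    rkU U ((ι i : Fin n) : ℕ) = (i : ℕ) := by
  unfold rkU
  rw [← List.toFinset_card_of_nodup (hU.filter _)]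
  have h1 : (U.filter fun u => decide (u < ((ι i : Fin n) : ℕ))).toFinset =
      (Finset.Iio i).image fun j : Fin n2 => ((ι j : Fin n) : ℕ) := by
    ext v
    rw [List.mem_toFinset, List.mem_filter, decide_eq_true_iff, hm, Finset.mem_image]
    constructor
    · rintro ⟨⟨u, rfl⟩, h2⟩
      exact ⟨u, Finset.mem_Iio.2 (ι.lt_iff_lt.1 (Fin.lt_def.2 h2)), rfl⟩
    · rintro ⟨u, h2, rfl⟩
      exact ⟨⟨u, rfl⟩, Fin.lt_def.1 (ι.lt_iff_lt.2 (Finset.mem_Iio.1 h2))⟩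
  rw [h1, Finset.card_image_of_injective, Fin.card_Iio]
  intro a b hab
  exact ι.injective (Fin.ext hab)

private theorem die_mem (hA : Lists G A) (v : ℕ) : v ∈ vA A ↔ ∃ x : Fin n, x ∈ nis G ∧ v = (x : ℕ) := by
  unfold vA
  rw [Pool.Agent.BEO.mem_ddp, List.mem_append, List.mem_map, List.mem_map]
  constructor
  · rintro (⟨e, he, rfl⟩ | ⟨e, he, rfl⟩)
    · obtain ⟨x, y, hxy, rfl⟩ := hA.2 e he
      exact ⟨x, (die_nis x).2 ⟨y, hxy⟩, rfl⟩
    · obtain ⟨x, y, hxy, rfl⟩ := hA.2 e he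
      exact ⟨y, (die_nis y).2 ⟨x, hxy.symm⟩, rfl⟩
  · rintro ⟨x, hx, rfl⟩
    obtain ⟨y, hxy⟩ := (die_nis x).1 hx
    rcases (hA.1 x y).1 hxy with h | h
    · exact Or.inl ⟨_, h, rfl⟩
    · exact Or.inr ⟨_, h, rfl⟩

theorem cnn_spec (hA : Lists G A) (hH : Lists H (cn0 A)) (hn : nis H = nis G) (ι : Fin n2 ↪o Fin n)
    (G2 : SimpleGraph (Fin n2)) (h : Rel ι G2 H) : Lists G2 (cnn A) := by
  obtain ⟨_, _, hadj, hnis⟩ := h
  have hU : (vA A).Nodup := Pool.Agent.BEO.nodup_ddp _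
  have hm : ∀ v, v ∈ vA A ↔ ∃ u : Fin n2, v = ((ι u : Fin n) : ℕ) := by
    intro v
    rw [die_mem hA, ← hn]
    constructor
    · rintro ⟨x, hx, rfl⟩
      obtain ⟨u, rfl⟩ := (hnis x).1 hx
      exact ⟨u, rfl⟩
    · rintro ⟨u, rfl⟩
      exact ⟨ι u, (hnis _).2 ⟨u, rfl⟩, rfl⟩
  have hrk := fun i => die_rk (ι := ι) hU hm i
  have hall : ∀ x ∈ cnn A, ∃ u v : Fin n2, G2.Adj u v ∧ (((ι u : Fin n) : ℕ), ((ι v : Fin n) : ℕ)) ∈ cn0 A ∧
      x = ((u : ℕ), (v : ℕ)) := by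
    intro x hx
    unfold cnn at hx
    obtain ⟨e, he, rfl⟩ := List.mem_map.1 hx
    obtain ⟨a, b, hab, rfl⟩ := hH.2 e he
    obtain ⟨u, rfl⟩ := (hnis a).1 ((die_nis a).2 ⟨b, hab⟩)
    obtain ⟨v, rfl⟩ := (hnis b).1 ((die_nis b).2 ⟨_, hab.symm⟩)
    exact ⟨u, v, (hadj u v).2 hab, he, by rw [hrk, hrk]⟩
  have hiff : ∀ u v : Fin n2, ((u : ℕ), (v : ℕ)) ∈ cnn A ↔
      (((ι u : Fin n) : ℕ), ((ι v : Fin n) : ℕ)) ∈ cn0 A := by
    intro u v
    constructor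
    · intro hx
      obtain ⟨u', v', _, h1, h2⟩ := hall _ hx
      rw [Prod.mk.injEq] at h2
      rw [Fin.ext h2.1, Fin.ext h2.2]
      exact h1
    · intro hx
      unfold cnn
      refine List.mem_map.2 ⟨_, hx, ?_⟩
      rw [hrk, hrk]
  constructor
  · intro u v
    rw [hadj, hiff, hiff]
    exact hH.1 _ _
  · intro x hx
    obtain ⟨u, v, h1, _, h2⟩ := hall x hx
    exact ⟨u, v, h1, h2⟩

end Pool.Agent.FGT
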