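import Pool.Agent.FGT.FvD
import Pool.Agent.SCG.FpTre
import Pool.Agent.SCG.FpMain

/-!
# FGT-FvE: the algorithm runs in polynomial time

Compositions and `FP.foldl`; the first component of the state grows by at most one edge in every step, the second component is the old one or a solution for a map of the graph so far.
-/

set_option autoImplicit false

namespace Pool.Agent.FGT

open Turing Function N487b59b3 N68a2faeb Pool.Agent.Helper22 Pool.Agent.Helper6.WB Pool.Agent.Helper47.TR Computability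
open Pool.Agent.BEO (look memb ddp comp cds Pt Ec Inp sd ac ek fl fp_eq fp_mapc fp_flat fp_filt fp_look fp_memb fp_ddp fp_comp
  fp_sd fp_ac fp_ek fp_fl fp_cds)
open Pool.Agent.SCG (edl nx vl bst std Adl tre fp_edl fp_nx fp_vl fp_bst fp_std fp_tre)
open Pool.Agent.BEO (fp_half fp_sub)

section

variable {α β γ δ : Type} [N487b59b3 α] [N487b59b3 β] [N487b59b3 γ] [N487b59b3 δ]

private theorem fe_est (F : Bool → Inp → Inp) (hF : ∀ o, FP (F o)) :
    FP fun p : (Adl × Inp) × (ℕ × ℕ) => est F p.1 p.2 := by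
  have hA : FP fun p : (Adl × Inp) × (ℕ × ℕ) => p.1.1 := FP.fst.comp FP.fst
  have hx : FP fun p : (Adl × Inp) × (ℕ × ℕ) => p.1.2 := FP.snd.comp FP.fst
  have he : FP fun p : (Adl × Inp) × (ℕ × ℕ) => p.2 := FP.snd
  have h1 : FP fun p : (Adl × Inp) × (ℕ × ℕ) => p.1.1 ++ [p.2] := FP.append hA (FP.cons he (FP.const []))
  have h2 : FP fun p : (Adl × Inp) × (ℕ × ℕ) => std (p.1.1 ++ [p.2]) := fp_std h1
  have h3 : FP fun p : (Adl × Inp) × (ℕ × ℕ) => cg p.1.2 [] (fl (std (p.1.1 ++ [p.2]))) [] :=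
    fp_cg hx (FP.const []) (fp_fl h2) (FP.const [])
  exact FP.ite (FP.or (fp_memb hA he) (fp_memb hA (FP.pair he.snd' he.fst'))) FP.fst
    (FP.pair h1 (fp_sol F hF false (fp_pk false h2 h3)))

private theorem fe_fold (F : Bool → Inp → Inp) {B : ℕ → ℕ} (hm : Monotone B)
    (hle : ∀ (X : Adl) (cs : List En), sz (sol F false (pk false (std X) cs)) ≤ B (sz X)) :
    ∀ (A : Adl) (s : Adl × Inp), sz (A.foldl (est F) s).1 ≤ sz s.1 + sz A ∧
      sz (A.foldl (est F) s).2 ≤ sz s.2 + B (sz s.1 + sz A) := by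
  intro A
  induction A using List.reverseRecOn with
  | nil =>
    intro s
    exact ⟨by simp, by simp⟩
  | append_singleton A e ih =>
    intro s
    obtain ⟨h1, h2⟩ := ih s
    rw [List.foldl_append]
    show sz (est F (A.foldl (est F) s) e).1 ≤ _ ∧ sz (est F (A.foldl (est F) s) e).2 ≤ _
    generalize A.foldl (est F) s = t at h1 h2
    have h3 : sz (A ++ [e]) = sz A + sz [e] := sz_append _ _
    have h4 : B (sz s.1 + sz A) ≤ B (sz s.1 + sz (A ++ [e])) := hm (by omega)
    unfold est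
    split_ifs
    · exact ⟨by omega, by omega⟩
    · have h5 : sz (t.1 ++ [e]) = sz t.1 + sz [e] := sz_append _ _
      refine ⟨?_, ?_⟩
      · show sz (t.1 ++ [e]) ≤ _
        omega
      · have h6 := hle (t.1 ++ [e]) (cg t.2 [] (fl (std (t.1 ++ [e]))) [])
        have h7 : B (sz (t.1 ++ [e])) ≤ B (sz s.1 + sz (A ++ [e])) := hm (by omega)
        show sz (sol F false (pk false (std (t.1 ++ [e])) (cg t.2 [] (fl (std (t.1 ++ [e]))) []))) ≤ _
        omega

private theorem fe_emb (F : Bool → Inp → Inp) (hF : ∀ o, FP (F o)) : FP fun A : Adl => emb F A := by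
  obtain ⟨B1, hB1, hm1, h1⟩ := sol_sz
  obtain ⟨B2, hB2, hm2, h2⟩ := pk_sz
  have h0 : FP fun X : Adl => std X := fp_std FP.id
  obtain ⟨B3, hB3, hm3, h3⟩ := h0.bound
  have hle : ∀ (X : Adl) (cs : List En), sz (sol F false (pk false (std X) cs)) ≤ B1 (B2 (B3 (sz X))) := fun X cs =>
    (h1 F false _).trans (hm1 ((h2 false _ cs).trans (hm2 (h3 X))))
  have hm : Monotone fun n => B1 (B2 (B3 n)) := hm1.comp (hm2.comp hm3)
  have hB : PB fun n => B1 (B2 (B3 n)) := PB.comp hB1 (PB.comp hB2 hB3)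
  have h4 : FP fun p : Adl × (Adl × Inp) => p.1.foldl (est F) p.2 := by
    refine FP.foldl (g := est F) (fe_est F hF) (B := fun n => 2 * n + 1 + (n + B1 (B2 (B3 n)))) ?_ ?_
    · exact PB.add (PB.add (PB.mul (PB.const 2) PB.id) (PB.const 1)) (PB.add PB.id hB)
    · intro A s
      obtain ⟨h5, h6⟩ := fe_fold F hm hle A s
      have h7 : sz (A.foldl (est F) s) = 2 * sz (A.foldl (est F) s).1 + 1 + sz (A.foldl (est F) s).2 := sz_pair _ _
      have h8 : sz s = 2 * sz s.1 + 1 + sz s.2 := sz_pair _ _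
      have h9 : B1 (B2 (B3 (sz s.1 + sz A))) ≤ B1 (B2 (B3 (sz A + sz s))) := hm (by omega)
      show _ ≤ 2 * (sz A + sz s) + 1 + ((sz A + sz s) + B1 (B2 (B3 (sz A + sz s))))
      omega
  exact h4.comp (FP.pair FP.id (FP.pair (fp_tre FP.id) (fp_std (fp_tre FP.id))))

theorem fp_gen (F : Bool → Inp → Inp) (hF : ∀ o, FP (F o)) : IsPolyTime (gen F) := by
  rw [isPolyTime_iff]
  have hx : FP fun A : Adl => sol F true (emb F A).2 := fp_sol F hF true (fe_emb F hF).snd'
  have h1 : FP fun A : Adl => (edl (sol F true (emb F A).2)).length := FP.length (fp_edl hx)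
  have h2 : FP fun A : Adl => (vl (sol F true (emb F A).2)).length := FP.length (fp_vl hx)
  have h3 : FP fun A : Adl => clD (sol F true (emb F A).2) (edl (sol F true (emb F A).2)) (sol F true (emb F A).2) :=
    fp_clD hx (fp_edl hx) hx
  exact fp_half (fp_sub (FP.natAdd (FP.const 2) h1) (FP.natAdd h2 h3))

end

end Pool.Agent.FGT
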