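import Pool.Agent.FGT.DiAlg
import Pool.Agent.FGT.FvE

/-!
# FGT-DiF: polynomial time

PLAN. Compositions; `cmA`, `comp`, `ddp`, `look`: as in SCG/FpTre (`fp_tre`) and SCG/FpStd. `rkU`: a length of a filtered list (see FvC). `fp_gn1`: `fp_gen` composed with `cnn`, a case distinction.
-/

set_option autoImplicit false

namespace Pool.Agent.FGT

open Turing Function N487b59b3 N68a2faeb Pool.Agent.Helper22 Pool.Agent.Helper6.WB Pool.Agent.Helper47.TR Computability
open Pool.Agent.BEO (look memb ddp comp cds Pt Ec Inp sd ac ek fl fp_eq fp_mapc fp_flat fp_filt fp_look fp_memb fp_ddp fp_comp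
  fp_sd fp_ac fp_ek fp_fl fp_cds)
open Pool.Agent.SCG (edl nx vl bst std Adl tre fp_edl fp_nx fp_bst fp_std fp_tre)

section

variable {α β γ δ : Type} [N487b59b3 α] [N487b59b3 β] [N487b59b3 γ] [N487b59b3 δ]

private theorem df_lt {f g : α → ℕ} (hf : FP f) (hg : FP g) : FP fun a => decide (f a < g a) := by
  have h1 := FP.not (FP.natLe hg hf)
  refine (congrArg FP (funext fun a => ?_)).mp h1
  by_cases h : f a < g a
  · simp [h]
  · simp [not_lt.1 h]

private theorem df_headD [Inhabited β] {f : α → List β} {d : α → β} (hf : FP f) (hd : FP d) :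
    FP fun a => (f a).headD (d a) := by
  have h := FP.ite (FP.isEmpty hf) hd (FP.headD hf default)
  refine (congrArg FP (funext fun a => ?_)).mp h
  cases f a with
  | nil => simp
  | cons x l => simp

private theorem df_rk {U : α → List ℕ} {v : α → ℕ} (hU : FP U) (hv : FP v) : FP fun a => rkU (U a) (v a) := by
  have h : FP fun q : α × ℕ => decide (q.2 < v q.1) := df_lt FP.snd (hv.comp FP.fst)
  exact FP.length (fp_filt h hU)

private theorem df_vA {A : α → Adl} (hA : FP A) : FP fun a => vA (A a) :=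
  fp_ddp (FP.append (FP.map FP.fst hA) (FP.map FP.snd hA))

private theorem df_cm {A : α → Adl} (hA : FP A) : FP fun a => Pool.Agent.SCG.cmA (A a) (A a) :=
  fp_comp (fp_ddp (FP.append (FP.map FP.fst hA) (FP.map FP.snd hA))) hA

private theorem df_rp {A : α → Adl} {v : α → ℕ} (hA : FP A) (hv : FP v) : FP fun a => rpA (A a) (v a) := by
  have hc : FP fun q : α × ℕ => Pool.Agent.SCG.cmA (A q.1) (A q.1) := df_cm (hA.comp FP.fst)
  have hu : FP fun q : α × ℕ => q.2 := FP.snd
  have hw : FP fun q : α × ℕ => v q.1 := hv.comp FP.fst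
  have h : FP fun q : α × ℕ => decide (look (Pool.Agent.SCG.cmA (A q.1) (A q.1)) q.2 q.2 =
      look (Pool.Agent.SCG.cmA (A q.1) (A q.1)) (v q.1) (v q.1)) :=
    fp_eq (fp_look hc hu hu) (fp_look hc hw hw)
  exact df_headD (fp_filt h (df_vA hA)) (FP.const 0)

private theorem df_rt {A : α → Adl} (hA : FP A) : FP fun a => rtA (A a) :=
  df_rp hA (df_headD (df_vA hA) (FP.const 0))

private theorem df_cn0 {A : α → Adl} (hA : FP A) : FP fun a => cn0 (A a) := by
  have h1 : FP fun a => (vA (A a)).map (rpA (A a)) :=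
    fp_mapc (h := fun q : α × ℕ => rpA (A q.1) q.2) (df_rp (hA.comp FP.fst) FP.snd) (df_vA hA)
  have h2 : FP fun q : α × ℕ => !decide (q.2 = rtA (A q.1)) :=
    FP.not (fp_eq FP.snd (df_rt (hA.comp FP.fst)))
  have h3 : FP fun a => (ddp ((vA (A a)).map (rpA (A a)))).filter fun x => !decide (x = rtA (A a)) :=
    fp_filt h2 (fp_ddp h1)
  have h4 : FP fun q : α × ℕ => (rtA (A q.1), q.2) := FP.pair (df_rt (hA.comp FP.fst)) FP.snd
  exact FP.append hA (fp_mapc h4 h3)

theorem fp_cnn {A : α → Adl} (hA : FP A) : FP fun a => cnn (A a) := by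
  have hU : FP fun q : α × (ℕ × ℕ) => vA (A q.1) := df_vA (hA.comp FP.fst)
  have he : FP fun q : α × (ℕ × ℕ) => q.2 := FP.snd
  have h : FP fun q : α × (ℕ × ℕ) => (rkU (vA (A q.1)) q.2.1, rkU (vA (A q.1)) q.2.2) :=
    FP.pair (df_rk hU he.fst') (df_rk hU he.snd')
  exact fp_mapc h (df_cn0 hA)

theorem fp_gn1 (F : Bool → Inp → Inp) (hF : ∀ o, FP (F o)) : IsPolyTime (gn1 F) := by
  rw [isPolyTime_iff]
  have h1 : FP (gen F) := (isPolyTime_iff _).1 (fp_gen F hF)
  have h2 : FP fun A : Adl => gen F (cnn A) := h1.comp (fp_cnn FP.id)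
  exact FP.ite (FP.isEmpty FP.id) (FP.const 0) h2

end

end Pool.Agent.FGT
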