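import Pool.Agent.FGT.EmB

/-!
# FGT-EmC: the algorithm computes the orientable genus

PLAN. `emb_spec`: the code of a map of Euler genus at most `k ≤ k + 2`; `hF` with `o = true`: the code `x` of an optimal orientable map `M`. Its Euler genus is `2 * orientableGenus G` (`orientableGenus` is the least `g` with an orientable map of Euler genus `2 g`; orientable maps have even nonnegative Euler genus: `even_eg` in Helper35/OG/Orient, `frm_rank`). `gnx x`: `(edl x).length` is
the number of edges, `(vl x).length = n` (every vertex has a flag), `clD x (edl x) x` the number of faces (`clD_eq` for `part univ M`, as in `pk_spec`).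
-/

set_option autoImplicit false

open Finset
open scoped Classical

namespace Pool.Agent.FGT

open Pool.Agent.Helper35.OG (Flag GMap across side)
open Pool.Agent.BEO (F2 ed rp cyc ev cod Codes ec look memb ddp comp cds Pt Ec Inp sd ac ek fl nb)
open Pool.Agent.SCG (edl nx vl bst std Adl tre)
open Pool.Agent.SCG (Lists stdM AddE)

variable {n : ℕ}

private theorem ec_clo {G : SimpleGraph (Fin n)} (M : GMap G) :
    clo (univ : Finset G.edgeSet) M.nxt = Nat.card M.Face := by
  have hr : rF (univ : Finset G.edgeSet) M.nxt = fun p q : Flag G => q = M.nxt p ∨ q = across p := by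
    funext p q
    unfold rF
    exact propext ⟨fun h => h.2, fun h => ⟨mem_univ _, h⟩⟩
  unfold clo GMap.Face
  rw [hr]
  refine Nat.card_congr (Equiv.subtypeUnivEquiv ?_)
  intro c
  constructor
  · obtain ⟨p, hp⟩ := Quot.exists_rep c
    exact ⟨p, hp, mem_univ _⟩
  · intro q hq
    exact absurd hq.2 (M.nxt_ne q)

private theorem ec_gnx {G : SimpleGraph (Fin n)} (hG : G.Connected) (hn : 2 ≤ n) (M : GMap G) (x : Inp)
    (h : Codes M x) : (edl x).length = Nat.card G.edgeSet ∧ (vl x).length = n ∧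
      clD x (edl x) x = Nat.card M.Face := by
  refine ⟨?_, ?_, ?_⟩
  · rw [← dl_univ h, dl_len h, Nat.card_eq_fintype_card]
    exact Finset.card_univ
  · have hnd : (vl x).Nodup := Pool.Agent.BEO.nodup_ddp _
    rw [← List.toFinset_card_of_nodup hnd]
    have h1 : (vl x).toFinset = Finset.range n := by
      ext y
      rw [List.mem_toFinset, Pool.Agent.SCG.mem_vl h hG hn, Finset.mem_range]
    rw [h1, Finset.card_range]
  · have hdc : DCodes (univ : Finset G.edgeSet) (edl x) := by
      intro y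
      rw [← dl_univ h]
      exact mem_dl h _ y
    have hec : ECodes M.nxt x := by
      intro y
      rw [h y]
      exact ⟨fun ⟨p, hp⟩ => ⟨p, M.nxt_ne p, hp⟩, fun ⟨p, _, hp⟩ => ⟨p, hp⟩⟩
    rw [clD_eq h univ (edl x) hdc M.nxt x hec M.nxt_nxt (fun _ _ => mem_univ _), ec_clo]

theorem gen_spec (k : ℕ) (F : Bool → Inp → Inp) (hF : SolA (k + 2) (sol F)) (G : SimpleGraph (Fin n)) (hG : G.Connected)
    (hn : 2 ≤ n) (M0 : GMap G) (hk : M0.eg ≤ k) (A : Adl) (hA : Lists G A) :
    gen F A = Pool.Agent.Helper35.OG.orientableGenus G ∧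
      ∃ M : GMap G, M.Orientable ∧ M.eg = 2 * (Pool.Agent.Helper35.OG.orientableGenus G : ℤ) := by
  have hnt : Nontrivial (Fin n) := Fin.nontrivial_iff_two_le.2 hn
  obtain ⟨M1, ho1, hc1⟩ := emb_spec k F hF G hG hn M0 hk A hA
  have h1 : M1.eg ≤ ((k + 2 : ℕ) : ℤ) := by
    have h2 := ho1.2 M0 (fun h => absurd h (by decide))
    push_cast
    linarith
  obtain ⟨M, hO, hc⟩ := hF n G hG hn M1 h1 (emb F A).2 hc1 true
  have hM : M.Orientable := hO.1 rfl
  obtain ⟨g, hg1, hg2⟩ := Pool.Agent.SCG.gen_le' hG M hM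
  have hmem : Pool.Agent.Helper35.OG.orientableGenus G ∈ {g : ℕ | ∃ M : GMap G, M.Orientable ∧ M.eg = 2 * (g : ℤ)} :=
    Nat.sInf_mem ⟨g, M, hM, hg1⟩
  obtain ⟨M', hM', he'⟩ := hmem
  have h2 := hO.2 M' (fun _ => hM')
  have heg : M.eg = 2 * (Pool.Agent.Helper35.OG.orientableGenus G : ℤ) := by omega
  refine ⟨?_, M, hM, heg⟩
  obtain ⟨k1, k2, k3⟩ := ec_gnx hG hn M (sol F true (emb F A).2) hc
  unfold gen gnx
  rw [k1, k2, k3]
  unfold Pool.Agent.Helper35.OG.GMap.eg at heg
  rw [Nat.card_fin] at heg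
  omega

end Pool.Agent.FGT
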