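import Pool.Agent.FGT.DiB
import Pool.Agent.FGT.DiC
import Pool.Agent.FGT.DiD
import Pool.Agent.FGT.DiE
import Pool.Agent.FGT.EmC
import Pool.Agent.SCG.Fin

/-!
# FGT-DiH: the orientable genus of all graphs
-/

set_option autoImplicit false

open Finset
open scoped Classical

namespace Pool.Agent.FGT

open Pool.Agent.Helper35.OG (Flag GMap across side)
open Pool.Agent.BEO (F2 ed rp cyc ev cod Codes ec look memb ddp comp cds Pt Ec Inp sd ac ek fl nb frm frm_rank frm_alt)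
open Pool.Agent.SCG (edl nx vl bst std Adl tre cmA)
open Pool.Agent.SCG (Lists stdM)

variable {n : ℕ} {G : SimpleGraph (Fin n)} {A : Adl}

private theorem gam_mem {g : ℕ} (h : ∃ H : SimpleGraph (Fin n), G ≤ H ∧ H.Connected ∧
    ∃ M : GMap H, M.Orientable ∧ M.eg = 2 * (g : ℤ)) : ∃ H : SimpleGraph (Fin n), G ≤ H ∧ H.Connected ∧
    ∃ M : GMap H, M.Orientable ∧ M.eg = 2 * (gam G : ℤ) := by
  have h1 : gam G ∈ {g : ℕ | ∃ H : SimpleGraph (Fin n), G ≤ H ∧ H.Connected ∧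
      ∃ M : GMap H, M.Orientable ∧ M.eg = 2 * (g : ℤ)} := Nat.sInf_mem ⟨g, h⟩
  exact h1

private theorem even_nat [Nontrivial (Fin n)] {H : SimpleGraph (Fin n)} (hH : H.Connected) (M : GMap H)
    (hM : M.Orientable) : ∃ g : ℕ, M.eg = 2 * (g : ℤ) := by
  obtain ⟨g, hg, -⟩ := Pool.Agent.SCG.gen_le' hH M hM
  exact ⟨g, hg⟩

private theorem gam_le {g : ℕ} {H : SimpleGraph (Fin n)} (h : G ≤ H) (hH : H.Connected) (M : GMap H)
    (hM : M.Orientable) (hg : M.eg = 2 * (g : ℤ)) : gam G ≤ g := Nat.sInf_le ⟨H, h, hH, M, hM, hg⟩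

private theorem no_edge (hn : 2 ≤ n) (hA : Lists G A) (he : A = []) :
    gam G = 0 ∧ ∃ H : SimpleGraph (Fin n), G ≤ H ∧ H.Connected ∧ ∃ M : GMap H, M.Orientable ∧ M.eg = 2 * (gam G : ℤ) := by
  have hnt : Nontrivial (Fin n) := Fin.nontrivial_iff_two_le.2 hn
  obtain ⟨H, hH, hz⟩ := st_bot (V := Fin n)
  have hGH : G ≤ H := by
    intro u v huv
    rcases (hA.1 u v).1 huv with h1 | h1
    · rw [he] at h1
      exact absurd h1 List.not_mem_nil
    · rw [he] at h1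
      exact absurd h1 List.not_mem_nil
  have h0 : ∀ z : cyc H, z = 0 := fun z => Subtype.ext (hz z.1 z.2)
  have hM : (stdM H).Orientable := (frm_alt (stdM H)).2 fun z => by rw [h0 z, map_zero]
  have hr : (stdM H).eg = 0 := by
    rw [← frm_rank hH (stdM H)]
    have h1 : LinearMap.range (frm (stdM H)) = ⊥ := by
      rw [LinearMap.range_eq_bot]
      apply LinearMap.ext
      intro z
      rw [h0 z, map_zero, LinearMap.zero_apply]
    rw [h1, finrank_bot]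
    rfl
  have h2 : (stdM H).eg = 2 * ((0 : ℕ) : ℤ) := by rw [hr]; rfl
  exact ⟨Nat.le_zero.1 (gam_le hGH hH _ hM h2), gam_mem ⟨H, hGH, hH, _, hM, h2⟩⟩

theorem gen_all (k : ℕ) (F : Bool → Inp → Inp) (hF : SolA (k + 2) (sol F)) (hn : 2 ≤ n) (H0 : SimpleGraph (Fin n))
    (h0 : G ≤ H0) (hH0 : H0.Connected) (M0 : GMap H0) (hk : M0.eg ≤ k) (hA : Lists G A) :
    gn1 F A = gam G ∧ ∃ H : SimpleGraph (Fin n), G ≤ H ∧ H.Connected ∧ ∃ M : GMap H, M.Orientable ∧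
      M.eg = 2 * (gam G : ℤ) := by
  have hnt : Nontrivial (Fin n) := Fin.nontrivial_iff_two_le.2 hn
  by_cases he : A = []
  · obtain ⟨h1, h2⟩ := no_edge hn hA he
    refine ⟨?_, h2⟩
    rw [h1, he]
    rfl
  obtain ⟨r, R, h1, h2, h3, h4, h5⟩ := cn0_spec hA he
  obtain ⟨h6, h7⟩ := st_ec h2 h3 h4
  obtain ⟨R', h8, h9, h10⟩ := st_cn h1 h2 h3 h4
  obtain ⟨n2, ι, G2, hι⟩ := relab _ h6
  have hL := cnn_spec hA h5 h7 ι G2 hι
  have hz := st_cyc h1
  -- from maps of connected graphs to maps of `G2`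
  have dn : ∀ H : SimpleGraph (Fin n), G ≤ H → H.Connected → ∀ M : GMap H, ∃ M2 : GMap G2, M2.eg ≤ M.eg ∧
      (M.Orientable → M2.Orientable) := by
    intro H hGH hH M
    obtain ⟨e1, e2⟩ := egs_eq hH M
    obtain ⟨M', h11, h12⟩ := cmp e1 h6 hGH st_le hz M
    obtain ⟨M2, h13⟩ := relab_dn ι G2 _ hι M'
    obtain ⟨h14, h15⟩ := relab_eq ι G2 _ hι M2 M' h13
    refine ⟨M2, ?_, fun h16 => h15.2 (h12 h16)⟩
    rw [h14, ← e2]
    exact h11
  obtain ⟨M2, h11, -⟩ := dn H0 h0 hH0 M0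
  obtain ⟨h12, M3, h13, h14⟩ := gen_spec k F hF G2 hι.2.1 hι.1 M2 (h11.trans hk) (cnn A) hL
  have hgn : gn1 F A = gen F (cnn A) := by
    unfold gn1
    cases A with
    | nil => exact absurd rfl he
    | cons a A => rfl
  rw [hgn, h12]
  -- the lower bound for `gam`
  obtain ⟨M', h15⟩ := relab_up ι G2 _ hι M3
  obtain ⟨h16, h17⟩ := relab_eq ι G2 _ hι M3 M' h15
  obtain ⟨M'', h18, h19⟩ := cmp h6 (egs_eq h9 (stdM _)).1 st_le st_le (st_cyc h8) M'
  have h20 := h19 (h17.1 h13)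
  obtain ⟨g, hg⟩ := even_nat h9 M'' h20
  have hle1 : g ≤ Pool.Agent.Helper35.OG.orientableGenus G2 := by
    rw [(egs_eq h9 M'').2, hg, ← h16, h14] at h18
    omega
  have h21 := gam_mem ⟨_, st_le, h9, M'', h20, hg⟩
  refine ⟨le_antisymm ?_ ((gam_le st_le h9 M'' h20 hg).trans hle1), h21⟩
  obtain ⟨H, h22, h23, M, h24, h25⟩ := h21
  obtain ⟨M4, h26, h27⟩ := dn H h22 h23 M
  have hnt2 : Nontrivial (Fin n2) := Fin.nontrivial_iff_two_le.2 hι.1
  obtain ⟨g4, h28, h29⟩ := Pool.Agent.SCG.gen_le' hι.2.1 M4 (h27 h24)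
  omega

end Pool.Agent.FGT
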