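import Pool.Agent.FGT.DcDef
import Pool.Agent.FGT.AlDef

/-!
# FGT-RdDef: replacing a disc of a map (definitions)

The graphs `G`, `G'` have the same vertices (isolated vertices are allowed); the edges outside `A` (a set of edges of `G`) and outside `A'`
(a set of edges of `G'`) are the same. Flags of different graphs are compared by their values `fv`.
-/

set_option autoImplicit false

open Finset
open scoped Classical

namespace Pool.Agent.FGT

open Pool.Agent.Helper35.OG (Flag GMap across side)
open Pool.Agent.BEO (F2 ed rp cyc ev bdF nb)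
open Pool.Agent.BEO (frm)

section gen

variable {V : Type} {G : SimpleGraph V}

/-- the value of a flag -/
def fv (p : Flag G) : (V × V) × Bool := (p.1.toProd, p.2)

/-- connected up to isolated vertices, with an edge -/
def EC (G : SimpleGraph V) : Prop := (∃ u v, G.Adj u v) ∧
  ∀ u v, (∃ w, G.Adj u w) → (∃ w, G.Adj v w) → G.Reachable u v

/-- the number of runs of an open map -/
noncomputable def vsL (A : Finset G.edgeSet) (L : Flag G → Flag G) : ℕ :=
  Nat.card {c : Quot (rV A L) // ∃ p, Quot.mk _ p = c ∧ ed p ∈ A}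

/-- the Euler characteristic of the surface of an open map with its closed faces -/
noncomputable def chiL (A : Finset G.edgeSet) (L : Flag G → Flag G) : ℤ :=
  (vsL A L : ℤ) - (A.card : ℤ) + (clo A L : ℤ)

/-- `A` is connected by the inner corners of `L` -/
def CnL (A : Finset G.edgeSet) (L : Flag G → Flag G) : Prop := ∀ e ∈ A, ∀ e' ∈ A,
  Relation.EqvGen (fun x y => x ∈ A ∧ y ∈ A ∧ ∃ p : Flag G, ed p = x ∧ ed (L p) = y) e e'

/-- discs attached at one or two vertices, with one run at every vertex -/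
structure Dsc (A : Finset G.edgeSet) (L : Flag G → Flag G) : Prop where
  om : OMap A L
  cn : CnL A L
  um : ∃ p, Um A L p
  run : ∀ p q, Um A L p → Um A L q → p.1.fst = q.1.fst → Relation.EqvGen (rV A L) p q
  two : ∃ v v' : V, ∀ p, Um A L p → p.1.fst = v ∨ p.1.fst = v'
  chi : chiL A L = 1

/-- the edges of `G` outside `A` are the edges of `G'` outside `A'` -/
def Out {G G' : SimpleGraph V} (A : Finset G.edgeSet) (A' : Finset G'.edgeSet) : Prop :=
  ∀ e : Sym2 V, (∃ f : G.edgeSet, f.1 = e ∧ f ∉ A) ↔ ∃ f : G'.edgeSet, f.1 = e ∧ f ∉ A'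

/-- `L` and `L'` look the same from outside, `θ` maps the open flags of `L` to those of `L'` -/
structure SameX {G G' : SimpleGraph V} (A : Finset G.edgeSet) (L : Flag G → Flag G) (A' : Finset G'.edgeSet)
    (L' : Flag G' → Flag G') (θ : Flag G → Flag G') : Prop where
  map : ∀ p, Um A L p → Um A' L' (θ p)
  inj : ∀ p q, Um A L p → Um A L q → θ p = θ q → p = q
  sur : ∀ q, Um A' L' q → ∃ p, Um A L p ∧ θ p = q
  fst : ∀ p, Um A L p → (θ p).1.fst = p.1.fst
  v : ∀ p q, Um A L p → Um A L q → (Relation.EqvGen (rV A L) p q ↔ Relation.EqvGen (rV A' L') (θ p) (θ q))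
  f : ∀ p q, Um A L p → Um A L q → (Relation.EqvGen (rF A L) p q ↔ Relation.EqvGen (rF A' L') (θ p) (θ q))
  c : ∀ p q, Um A L p → Um A L q → ∀ b, (Relation.EqvGen (rC A L) (p, false) (q, b) ↔
    Relation.EqvGen (rC A' L') (θ p, false) (θ q, b))
  ni : (∃ p, ed p ∈ A' ∧ Relation.EqvGen (rC A' L') (p, false) (p, true)) →
    ∃ p, ed p ∈ A ∧ Relation.EqvGen (rC A L) (p, false) (p, true)

/-- `M'` has the corners of `M` outside -/
def OutC {G G' : SimpleGraph V} (A : Finset G.edgeSet) (M : GMap G) (M' : GMap G') : Prop :=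
  ∀ (p : Flag G) (p' : Flag G'), ed p ∉ A → ed (M.nxt p) ∉ A → fv p' = fv p → fv (M'.nxt p') = fv (M.nxt p)

end gen

variable {V : Type} {G : SimpleGraph V} [Fintype V]

/-- the vertices which are not isolated -/
noncomputable def nis (G : SimpleGraph V) : Finset V := univ.filter fun v => ∃ w, G.Adj v w

/-- the Euler genus, isolated vertices are not counted -/
noncomputable def egs (M : GMap G) : ℤ :=
  2 - ((nis G).card : ℤ) + (Nat.card G.edgeSet : ℤ) - (Nat.card M.Face : ℤ)

/-- the vertices at which an open map is attached -/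
noncomputable def att (A : Finset G.edgeSet) (L : Flag G → Flag G) : Finset V :=
  univ.filter fun v => ∃ p, Um A L p ∧ p.1.fst = v

/-- the ends of the edges of `A` -/
noncomputable def tv (A : Finset G.edgeSet) : Finset V := univ.filter fun v => ∃ e ∈ A, v ∈ e.1

/-- sets of edges which can be replaced -/
def Bad (S : GMap G) (A : Finset G.edgeSet) : Prop :=
  A.Nonempty ∧ A ≠ univ ∧ HCn S A ∧ chi S A = 1 ∧ (mix A S).card ≤ 4 ∧ ¬ Trv S A

/-- the flags of the corners of `M1` outside `D1` which are not broken -/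
def Kp {G1 : SimpleGraph V} (M1 : GMap G1) (D1 : Finset G1.edgeSet) (bk : Finset (Flag G1)) (p : Flag G1) : Prop :=
  ed p ∉ D1 ∧ ed (M1.nxt p) ∉ D1 ∧ p ∉ bk ∧ M1.nxt p ∉ bk

/-- `M2` arises from `M1` by deleting the edges of `D1`, breaking at most two corners, adding edges with the inner corners of `L2`,
and at most six new corners -/
def Near {G1 G2 : SimpleGraph V} (M1 : GMap G1) (D1 : Finset G1.edgeSet) (M2 : GMap G2)
    (L2 : Flag G2 → Flag G2) : Prop :=
  ∃ bk : Finset (Flag G1), bk.card ≤ 2 ∧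
    (∀ p, Kp M1 D1 bk p → ∃ p' : Flag G2, fv p' = fv p ∧ fv (M2.nxt p') = fv (M1.nxt p)) ∧
    (∀ p, L2 p ≠ p → M2.nxt p = L2 p) ∧
    (univ.filter fun p' : Flag G2 => L2 p' = p' ∧ ¬ ∃ p, Kp M1 D1 bk p ∧ fv p' = fv p).card ≤ 12

end Pool.Agent.FGT
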