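import Pool.Agent.FGT.RdAlg
import Pool.Agent.FGT.RdDef
import Pool.Agent.FGT.RsB
import Pool.Agent.SCG.HAdd
import Pool.Agent.SCG.HCod

/-!
# FGT-EmA: inserting an edge

PLAN. Choose flags `y` at `a` and `y'` at `b` of `G1` (`exists_flag`). Let `r` be the flag over `ab` at `a` with `r.2 = true`. `M2.nxt`: `y ↔ r`, `M1.nxt y ↔ side r`, `y' ↔ across r`, `M1.nxt y' ↔ side (across r)`, the other flags as in `M1`. `Near` with `bk = {y, y'}`: the remaining flags are the four over `ab` and four others. The form of `M1` is the restriction of the form of `M2`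
(`FRes M2 M1`: potentials for a cycle without the edge `ab` restrict), `cyc G1` has codimension one in `cyc G2` (`finrank_cyc`), so the rank of `frm M2` is at most the rank of `frm M1` plus two (`frm_rank`). (Or: one face less at most, by counting.)
-/

set_option autoImplicit false

open Finset
open scoped Classical

namespace Pool.Agent.FGT

open Pool.Agent.Helper35.OG (Flag GMap across side)
open Pool.Agent.BEO (F2 ed rp cyc ev cod Codes ec look memb ddp comp cds Pt Ec Inp sd ac ek fl nb)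
open Pool.Agent.SCG (edl nx vl bst std Adl tre)
open Pool.Agent.SCG (Lists stdM AddE)

variable {n : ℕ}

section ea

open Pool.Agent.Helper35.OG (side_side across_across side_ne across_ne nxt_inj vertex_const conn_of exists_flag)
open Pool.Agent.SCG (fI eI addE_le cyc_add rkOn rk_le_sub)
open Pool.Agent.BEO (frm frm_rank finrank_cyc IsL dL dL_eq frm_eq exists_L ed_surj)

private theorem ea_inj {G1 G2 : SimpleGraph (Fin n)} (h : G1 ≤ G2) {p q : Flag G1} (hpq : fI h p = fI h q) :
    p = q := by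
  rcases p with ⟨⟨x, hx⟩, s⟩
  rcases q with ⟨⟨y, hy⟩, t⟩
  have h1 := congrArg (fun r : Flag G2 => r.1.toProd) hpq
  have h2 := congrArg (fun r : Flag G2 => r.2) hpq
  simp only [fI] at h1 h2
  subst h1
  subst h2
  rfl

/-- the corners of the new map -/
private noncomputable def eaN {G1 G2 : SimpleGraph (Fin n)} (h : G1 ≤ G2) (M : GMap G1) (r : Flag G2)
    (y y' : Flag G1) (q : Flag G2) : Flag G2 :=
  if q = r then fI h y
  else if q = side r then fI h (M.nxt y)
  else if q = across r then fI h y'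
  else if q = side (across r) then fI h (M.nxt y')
  else if hq : ∃ p, fI h p = q then
    (if hq.choose = y then r else if hq.choose = M.nxt y then side r else if hq.choose = y' then across r
      else if hq.choose = M.nxt y' then side (across r) else fI h (M.nxt hq.choose))
  else q

section one

variable {G1 G2 : SimpleGraph (Fin n)} (h : G1 ≤ G2) (M : GMap G1) (r : Flag G2) (y y' : Flag G1)
  (hno : ∀ p : Flag G1, fI h p ≠ r ∧ fI h p ≠ side r ∧ fI h p ≠ across r ∧ fI h p ≠ side (across r))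
  (hal : ∀ q : Flag G2, (∃ p, fI h p = q) ∨ q = r ∨ q = side r ∨ q = across r ∨ q = side (across r))
  (hy : y.1.fst = r.1.fst) (hy' : y'.1.fst = r.1.snd)

private theorem ea_d1 (r : Flag G2) : r ≠ across r ∧ r ≠ side (across r) ∧ side r ≠ across r ∧
    side r ≠ side (across r) := by
  have d : r.1.fst ≠ r.1.snd := r.1.adj.ne
  exact ⟨fun h1 => d (congrArg (fun r : Flag G2 => r.1.fst) h1), fun h1 => d (congrArg (fun r : Flag G2 => r.1.fst) h1),
    fun h1 => d (congrArg (fun r : Flag G2 => r.1.fst) h1), fun h1 => d (congrArg (fun r : Flag G2 => r.1.fst) h1)⟩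

include hy hy' in
private theorem ea_d2 : y ≠ y' ∧ y ≠ M.nxt y' ∧ M.nxt y ≠ y' ∧ M.nxt y ≠ M.nxt y' := by
  have d : y.1.fst ≠ y'.1.fst := by
    rw [hy, hy']
    exact r.1.adj.ne
  refine ⟨fun h1 => d (congrArg (fun r : Flag G1 => r.1.fst) h1), fun h1 => d ?_, fun h1 => d ?_, fun h1 => d ?_⟩
  · rw [← M.nxt_fst y']
    exact congrArg (fun r : Flag G1 => r.1.fst) h1
  · rw [← M.nxt_fst y]
    exact congrArg (fun r : Flag G1 => r.1.fst) h1
  · rw [← M.nxt_fst y, ← M.nxt_fst y']
    exact congrArg (fun r : Flag G1 => r.1.fst) h1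

private theorem ea1 : eaN h M r y y' r = fI h y := by
  unfold eaN
  rw [if_pos rfl]

private theorem ea2 : eaN h M r y y' (side r) = fI h (M.nxt y) := by
  unfold eaN
  rw [if_neg (side_ne r), if_pos rfl]

private theorem ea3 : eaN h M r y y' (across r) = fI h y' := by
  obtain ⟨d1, d2, d3, d4⟩ := ea_d1 r
  unfold eaN
  rw [if_neg d1.symm, if_neg d3.symm, if_pos rfl]

private theorem ea4 : eaN h M r y y' (side (across r)) = fI h (M.nxt y') := by
  obtain ⟨d1, d2, d3, d4⟩ := ea_d1 r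
  unfold eaN
  rw [if_neg d2.symm, if_neg d4.symm, if_neg (side_ne _), if_pos rfl]

include hno in
private theorem eaF (p : Flag G1) : eaN h M r y y' (fI h p) =
    if p = y then r else if p = M.nxt y then side r else if p = y' then across r
      else if p = M.nxt y' then side (across r) else fI h (M.nxt p) := by
  obtain ⟨c1, c2, c3, c4⟩ := hno p
  have hq : ∃ p', fI h p' = fI h p := ⟨p, rfl⟩
  have hc : hq.choose = p := ea_inj h hq.choose_spec
  unfold eaN
  rw [if_neg c1, if_neg c2, if_neg c3, if_neg c4, dif_pos hq, hc]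

include hno in
private theorem ea5 : eaN h M r y y' (fI h y) = r := by
  rw [eaF h M r y y' hno, if_pos rfl]

include hno in
private theorem ea6 : eaN h M r y y' (fI h (M.nxt y)) = side r := by
  rw [eaF h M r y y' hno, if_neg (M.nxt_ne y), if_pos rfl]

include hno hy hy' in
private theorem ea7 : eaN h M r y y' (fI h y') = across r := by
  obtain ⟨d1, d2, d3, d4⟩ := ea_d2 M r y y' hy hy'
  rw [eaF h M r y y' hno, if_neg d1.symm, if_neg d3.symm, if_pos rfl]

include hno hy hy' in
private theorem ea8 : eaN h M r y y' (fI h (M.nxt y')) = side (across r) := by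
  obtain ⟨d1, d2, d3, d4⟩ := ea_d2 M r y y' hy hy'
  rw [eaF h M r y y' hno, if_neg d2.symm, if_neg d4.symm, if_neg (M.nxt_ne y'), if_pos rfl]

include hno in
private theorem ea9 (p : Flag G1) (h1 : p ≠ y) (h2 : p ≠ M.nxt y) (h3 : p ≠ y') (h4 : p ≠ M.nxt y') :
    eaN h M r y y' (fI h p) = fI h (M.nxt p) := by
  rw [eaF h M r y y' hno, if_neg h1, if_neg h2, if_neg h3, if_neg h4]

private theorem ea_nn {p z : Flag G1} (h1 : p ≠ z) (h2 : p ≠ M.nxt z) : M.nxt p ≠ z ∧ M.nxt p ≠ M.nxt z :=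
  ⟨fun h3 => h2 (by rw [← h3, M.nxt_nxt]), fun h3 => h1 (nxt_inj M h3)⟩

include hal in
private theorem ea_cases (q : Flag G2) : q = r ∨ q = side r ∨ q = across r ∨ q = side (across r) ∨
    q = fI h y ∨ q = fI h (M.nxt y) ∨ q = fI h y' ∨ q = fI h (M.nxt y') ∨
    ∃ p, q = fI h p ∧ p ≠ y ∧ p ≠ M.nxt y ∧ p ≠ y' ∧ p ≠ M.nxt y' := by
  rcases hal q with ⟨p, hp⟩ | h1 | h1 | h1 | h1
  · by_cases h1 : p = y
    · rw [h1] at hp
      exact Or.inr (Or.inr (Or.inr (Or.inr (Or.inl hp.symm))))
    · by_cases h2 : p = M.nxt y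
      · rw [h2] at hp
        exact Or.inr (Or.inr (Or.inr (Or.inr (Or.inr (Or.inl hp.symm)))))
      · by_cases h3 : p = y'
        · rw [h3] at hp
          exact Or.inr (Or.inr (Or.inr (Or.inr (Or.inr (Or.inr (Or.inl hp.symm))))))
        · by_cases h4 : p = M.nxt y'
          · rw [h4] at hp
            exact Or.inr (Or.inr (Or.inr (Or.inr (Or.inr (Or.inr (Or.inr (Or.inl hp.symm)))))))
          · exact Or.inr (Or.inr (Or.inr (Or.inr (Or.inr (Or.inr (Or.inr (Or.inr ⟨p, hp.symm, h1, h2, h3, h4⟩)))))))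
  · exact Or.inl h1
  · exact Or.inr (Or.inl h1)
  · exact Or.inr (Or.inr (Or.inl h1))
  · exact Or.inr (Or.inr (Or.inr (Or.inl h1)))

private theorem ea_fst (p : Flag G1) : (fI h p).1.fst = p.1.fst := rfl

/-- the new map -/
private noncomputable def eaM : GMap G2 where
  nxt := eaN h M r y y'
  nxt_nxt := by
    intro q
    rcases ea_cases h M r y y' hal q with rfl | rfl | rfl | rfl | rfl | rfl | rfl | rfl | ⟨p, rfl, h1, h2, h3, h4⟩
    · rw [ea1, ea5 h M _ y y' hno]
    · rw [ea2, ea6 h M _ y y' hno]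
    · rw [ea3, ea7 h M _ y y' hno hy hy']
    · rw [ea4, ea8 h M _ y y' hno hy hy']
    · rw [ea5 h M _ y y' hno, ea1]
    · rw [ea6 h M _ y y' hno, ea2]
    · rw [ea7 h M _ y y' hno hy hy', ea3]
    · rw [ea8 h M _ y y' hno hy hy', ea4]
    · obtain ⟨k1, k2⟩ := ea_nn M h1 h2
      obtain ⟨k3, k4⟩ := ea_nn M h3 h4
      rw [ea9 h M _ y y' hno p h1 h2 h3 h4, ea9 h M _ y y' hno _ k1 k2 k3 k4, M.nxt_nxt]
  nxt_ne := by
    intro q
    rcases ea_cases h M r y y' hal q with rfl | rfl | rfl | rfl | rfl | rfl | rfl | rfl | ⟨p, rfl, h1, h2, h3, h4⟩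
    · rw [ea1]
      exact (hno y).1
    · rw [ea2]
      exact (hno _).2.1
    · rw [ea3]
      exact (hno _).2.2.1
    · rw [ea4]
      exact (hno _).2.2.2
    · rw [ea5 h M _ y y' hno]
      exact (hno y).1.symm
    · rw [ea6 h M _ y y' hno]
      exact (hno _).2.1.symm
    · rw [ea7 h M _ y y' hno hy hy']
      exact (hno _).2.2.1.symm
    · rw [ea8 h M _ y y' hno hy hy']
      exact (hno _).2.2.2.symm
    · rw [ea9 h M _ y y' hno p h1 h2 h3 h4]
      intro h5
      exact M.nxt_ne p (ea_inj h h5)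
  nxt_fst := by
    intro q
    rcases ea_cases h M r y y' hal q with rfl | rfl | rfl | rfl | rfl | rfl | rfl | rfl | ⟨p, rfl, h1, h2, h3, h4⟩
    · rw [ea1, ea_fst]
      exact hy
    · rw [ea2, ea_fst, M.nxt_fst]
      exact hy
    · rw [ea3, ea_fst]
      exact hy'
    · rw [ea4, ea_fst, M.nxt_fst]
      exact hy'
    · rw [ea5 h M _ y y' hno, ea_fst]
      exact hy.symm
    · rw [ea6 h M _ y y' hno, ea_fst, M.nxt_fst]
      exact hy.symm
    · rw [ea7 h M _ y y' hno hy hy', ea_fst]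
      exact hy'.symm
    · rw [ea8 h M _ y y' hno hy hy', ea_fst, M.nxt_fst]
      exact hy'.symm
    · rw [ea9 h M _ y y' hno p h1 h2 h3 h4, ea_fst, ea_fst, M.nxt_fst]
  conn := by
    apply conn_of
    intro W hW1 hW2
    have w1 : W (fI h y) = W r := by rw [← hW1 r, ea1]
    have w2 : W (fI h (M.nxt y)) = W r := by rw [← hW2 r, ← hW1 (side r), ea2]
    have w3 : W (fI h y') = W (across r) := by rw [← hW1 (across r), ea3]
    have w4 : W (fI h (M.nxt y')) = W (across r) := by rw [← hW2 (across r), ← hW1 (side (across r)), ea4]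
    have hn : ∀ p, W (fI h (M.nxt p)) = W (fI h p) := by
      intro p
      by_cases h1 : p = y
      · rw [h1, w1, w2]
      · by_cases h2 : p = M.nxt y
        · rw [h2, M.nxt_nxt, w1, w2]
        · by_cases h3 : p = y'
          · rw [h3, w3, w4]
          · by_cases h4 : p = M.nxt y'
            · rw [h4, M.nxt_nxt, w3, w4]
            · rw [← hW1 (fI h p), ea9 h M _ y y' hno p h1 h2 h3 h4]
    have hs : ∀ p, W (fI h (side p)) = W (fI h p) := fun p => hW2 (fI h p)
    have hv : ∀ p q : Flag G1, p.1.fst = q.1.fst → W (fI h p) = W (fI h q) := fun p q hpq =>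
      vertex_const M (fun p => W (fI h p)) hn hs hpq
    have hx : ∀ q : Flag G2, ∃ p : Flag G1, p.1.fst = q.1.fst ∧ W q = W (fI h p) := by
      intro q
      rcases hal q with ⟨p, rfl⟩ | rfl | rfl | rfl | rfl
      · exact ⟨p, rfl, rfl⟩
      · exact ⟨y, hy, w1.symm⟩
      · exact ⟨y, hy, (hW2 r).trans w1.symm⟩
      · exact ⟨y', hy', w3.symm⟩
      · exact ⟨y', hy', (hW2 _).trans w3.symm⟩
    intro x x' hxx
    obtain ⟨p, p1, p2⟩ := hx x
    obtain ⟨p', p1', p2'⟩ := hx x'
    rw [p2, p2']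
    exact hv p p' (p1.trans (hxx.trans p1'.symm))

private theorem eaM_nxt (q : Flag G2) : (eaM h M r y y' hno hal hy hy').nxt q = eaN h M r y y' q := rfl

private theorem ea_card {α : Type} (s : Finset α) (P : α → Prop) (i : DecidablePred P) (t : Finset α)
    (h : ∀ q, P q → q ∈ t) : (@Finset.filter α P i s).card ≤ t.card :=
  Finset.card_le_card fun q hq => h q (Finset.mem_filter.1 hq).2

private theorem ea_near : Near M ∅ (eaM h M r y y' hno hal hy hy') (fun p => p) := by
  refine ⟨{y, y'}, Finset.card_le_two, ?_, fun p hp => absurd rfl hp, ?_⟩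
  · rintro p ⟨-, -, k1, k2⟩
    rw [Finset.mem_insert, Finset.mem_singleton, not_or] at k1 k2
    refine ⟨fI h p, rfl, ?_⟩
    rw [eaM_nxt, ea9 h M r y y' hno p k1.1 ?_ k1.2 ?_]
    · rfl
    · rintro rfl
      exact k2.1 (M.nxt_nxt _)
    · rintro rfl
      exact k2.2 (M.nxt_nxt _)
  · refine (ea_card _ _ _ {r, side r, across r, side (across r), fI h y, fI h (M.nxt y), fI h y',
      fI h (M.nxt y')} ?_).trans ?_
    · rintro q ⟨-, h5⟩
      simp only [Finset.mem_insert, Finset.mem_singleton]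
      rcases ea_cases h M r y y' hal q with h1 | h1 | h1 | h1 | h1 | h1 | h1 | h1 | ⟨p, rfl, h1, h2, h3, h4⟩
      · exact Or.inl h1
      · exact Or.inr (Or.inl h1)
      · exact Or.inr (Or.inr (Or.inl h1))
      · exact Or.inr (Or.inr (Or.inr (Or.inl h1)))
      · exact Or.inr (Or.inr (Or.inr (Or.inr (Or.inl h1))))
      · exact Or.inr (Or.inr (Or.inr (Or.inr (Or.inr (Or.inl h1)))))
      · exact Or.inr (Or.inr (Or.inr (Or.inr (Or.inr (Or.inr (Or.inl h1))))))
      · exact Or.inr (Or.inr (Or.inr (Or.inr (Or.inr (Or.inr (Or.inr h1))))))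
      · exfalso
        apply h5
        obtain ⟨k1, -⟩ := ea_nn M h1 h2
        obtain ⟨k3, -⟩ := ea_nn M h3 h4
        refine ⟨p, ⟨Finset.notMem_empty _, Finset.notMem_empty _, ?_, ?_⟩, rfl⟩
        · rw [Finset.mem_insert, Finset.mem_singleton, not_or]
          exact ⟨h1, h3⟩
        · rw [Finset.mem_insert, Finset.mem_singleton, not_or]
          exact ⟨k1, k3⟩
    refine (Finset.card_insert_le _ _).trans (Nat.succ_le_succ ?_)
    refine (Finset.card_insert_le _ _).trans (Nat.succ_le_succ ?_)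
    refine (Finset.card_insert_le _ _).trans (Nat.succ_le_succ ?_)
    refine (Finset.card_insert_le _ _).trans (Nat.succ_le_succ ?_)
    refine (Finset.card_insert_le _ _).trans (Nat.succ_le_succ ?_)
    refine (Finset.card_insert_le _ _).trans (Nat.succ_le_succ ?_)
    refine (Finset.card_insert_le _ _).trans (Nat.succ_le_succ ?_)
    rw [Finset.card_singleton]
    omega

private theorem ea_pot (z1 : G1.edgeSet → F2) (z2 : G2.edgeSet → F2) (hz : ∀ e, z2 (eI h e) = z1 e)
    (h0 : z2 (ed r) = 0) (L : Flag G2 → F2) (hL : IsL (eaM h M r y y' hno hal hy hy') z2 L) :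
    IsL M z1 fun p => L (fI h p) := by
  have hN : ∀ q, L (eaN h M r y y' q) = L q := fun q => hL.1 q
  have h01 : L (side r) = L r := by
    have h1 := hL.2 r
    rw [h0] at h1
    exact (CharTwo.add_eq_zero.1 h1).symm
  have h02 : L (side (across r)) = L (across r) := by
    have h1 := hL.2 (across r)
    have h2 : ed (across r) = ed r := Subtype.ext r.1.edge_symm
    rw [h2, h0] at h1
    exact (CharTwo.add_eq_zero.1 h1).symm
  have w1 : L (fI h y) = L r := by rw [← hN r, ea1]
  have w2 : L (fI h (M.nxt y)) = L r := by rw [← h01, ← hN (side r), ea2]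
  have w3 : L (fI h y') = L (across r) := by rw [← hN (across r), ea3]
  have w4 : L (fI h (M.nxt y')) = L (across r) := by rw [← h02, ← hN (side (across r)), ea4]
  refine ⟨?_, ?_⟩
  · intro p
    show L (fI h (M.nxt p)) = L (fI h p)
    by_cases h1 : p = y
    · rw [h1, w1, w2]
    · by_cases h2 : p = M.nxt y
      · rw [h2, M.nxt_nxt, w1, w2]
      · by_cases h3 : p = y'
        · rw [h3, w3, w4]
        · by_cases h4 : p = M.nxt y'
          · rw [h4, M.nxt_nxt, w3, w4]
          · rw [← hN (fI h p), ea9 h M _ y y' hno p h1 h2 h3 h4]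
  · intro p
    exact (hL.2 (fI h p)).trans (hz (ed p))

end one

private theorem ea_sum {G1 G2 : SimpleGraph (Fin n)} (hle : G1 ≤ G2) (f : G2.edgeSet → F2)
    (hf : ∀ e : G2.edgeSet, e.1 ∉ G1.edgeSet → f e = 0) : ∑ e, f e = ∑ e : G1.edgeSet, f (eI hle e) := by
  symm
  have hinj : Function.Injective (eI hle) := by
    intro e e' h
    apply Subtype.ext
    exact congrArg (fun x : G2.edgeSet => x.1) h
  rw [← Finset.sum_image (s := univ) (g := eI hle) (f := f) (fun x _ y _ h => hinj h)]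
  refine Finset.sum_subset (Finset.subset_univ _) ?_
  intro e _ he
  apply hf
  intro h1
  apply he
  rw [mem_image]
  exact ⟨⟨e.1, h1⟩, mem_univ _, rfl⟩

private theorem ea_irk {A B C : Type*} [AddCommGroup A] [Module (ZMod 2) A] [AddCommGroup B] [Module (ZMod 2) B]
    [AddCommGroup C] [Module (ZMod 2) C] (f : B →ₗ[ZMod 2] C) (hf : Function.Injective f)
    (g : A →ₗ[ZMod 2] B) :
    Module.finrank (ZMod 2) (LinearMap.range (f ∘ₗ g)) = Module.finrank (ZMod 2) (LinearMap.range g) := by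
  rw [LinearMap.range_comp]
  exact (LinearEquiv.finrank_eq (Submodule.equivMapOfInjective f hf (LinearMap.range g))).symm

private theorem ea_pull {Z U : Type} [AddCommGroup Z] [Module (ZMod 2) Z] [AddCommGroup U] [Module (ZMod 2) U]
    (N : Z →ₗ[ZMod 2] Z →ₗ[ZMod 2] ZMod 2) (f : U →ₗ[ZMod 2] Z) :
    Module.finrank (ZMod 2) (LinearMap.range ((f.dualMap ∘ₗ N) ∘ₗ f)) = rkOn N (LinearMap.range f) := by
  have h1 : (f.dualMap ∘ₗ N) ∘ₗ f = (f.rangeRestrict.dualMap ∘ₗ
      (((LinearMap.range f).subtype.dualMap ∘ₗ N) ∘ₗ (LinearMap.range f).subtype)) ∘ₗ f.rangeRestrict := by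
    ext x y
    rfl
  unfold rkOn
  rw [h1, LinearMap.comp_assoc, ea_irk]
  · rw [LinearMap.range_comp, LinearMap.range_rangeRestrict, Submodule.map_top]
  · exact LinearMap.dualMap_injective_of_surjective f.surjective_rangeRestrict

private theorem ea_eg {G1 G2 : SimpleGraph (Fin n)} {a b : Fin n} (h : AddE G1 G2 a b) (h1 : G1.Connected)
    (h2 : G2.Connected) (hn : 2 ≤ n) (M1 : GMap G1) (M2 : GMap G2)
    (hpot : ∀ (z1 : G1.edgeSet → F2) (z2 : G2.edgeSet → F2), (∀ e, z2 (eI (addE_le h) e) = z1 e) →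
      (∀ e : G2.edgeSet, e.1 ∉ G1.edgeSet → z2 e = 0) → ∀ L : Flag G2 → F2, IsL M2 z2 L →
        IsL M1 z1 fun p => L (fI (addE_le h) p)) : M2.eg ≤ M1.eg + 2 := by
  have : Nontrivial (Fin n) := Fin.nontrivial_iff_two_le.2 hn
  obtain ⟨J, hJi, hJ1, hJ0⟩ := cyc_add h
  rw [← frm_rank h1 M1, ← frm_rank h2 M2]
  have hform : ((J.dualMap ∘ₗ frm M2) ∘ₗ J) = frm M1 := by
    refine LinearMap.ext fun z => LinearMap.ext fun z' => ?_
    show frm M2 (J z) (J z') = frm M1 z z'
    obtain ⟨L, hL⟩ := exists_L M2 (J z).1 (J z).2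
    have hL1 := hpot z.1 (J z).1 (hJ1 z) (hJ0 z) L hL
    rw [frm_eq M2 (J z) (J z') hL, frm_eq M1 z z' hL1]
    rw [ea_sum (addE_le h) (fun e => dL L e * (J z').1 e) (fun e he => by rw [hJ0 z' e he, mul_zero])]
    refine Finset.sum_congr rfl fun e _ => ?_
    rw [hJ1 z' e]
    congr 1
    obtain ⟨p, hp⟩ := ed_surj e
    rw [← hp]
    have h1 : eI (addE_le h) (ed p) = ed (fI (addE_le h) p) := rfl
    rw [h1, dL_eq hL, dL_eq hL1]
    rfl
  have hrk : Module.finrank F2 (LinearMap.range (frm M1)) = rkOn (frm M2) (LinearMap.range J) := by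
    rw [← hform]
    exact ea_pull _ J
  have hd1 := finrank_cyc h1
  have hd2 := finrank_cyc h2
  have hed : Nat.card G2.edgeSet ≤ Nat.card G1.edgeSet + 1 := by
    have hsub : (univ : Finset G2.edgeSet) ⊆ insert (⟨s(a, b), (h.2.2 a b).2 (Or.inr (Or.inl ⟨rfl, rfl⟩))⟩ : G2.edgeSet)
        ((univ : Finset G1.edgeSet).image (eI (addE_le h))) := by
      intro e _
      obtain ⟨e, he⟩ := e
      induction e using Sym2.ind with
      | _ u v =>
        rw [mem_insert]
        rcases (h.2.2 u v).1 he with h3 | ⟨h3, h4⟩ | ⟨h3, h4⟩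
        · right
          rw [mem_image]
          exact ⟨⟨s(u, v), h3⟩, mem_univ _, rfl⟩
        · left
          apply Subtype.ext
          show s(u, v) = s(a, b)
          rw [h3, h4]
        · left
          apply Subtype.ext
          show s(u, v) = s(a, b)
          rw [h3, h4]
          exact Sym2.eq_swap
    have h3 := Finset.card_le_card hsub
    rw [Finset.card_univ] at h3
    have h4 := Finset.card_insert_le (⟨s(a, b), (h.2.2 a b).2 (Or.inr (Or.inl ⟨rfl, rfl⟩))⟩ : G2.edgeSet)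
      ((univ : Finset G1.edgeSet).image (eI (addE_le h)))
    have h5 : ((univ : Finset G1.edgeSet).image (eI (addE_le h))).card ≤ Fintype.card G1.edgeSet :=
      Finset.card_image_le.trans (le_of_eq Finset.card_univ)
    rw [Nat.card_eq_fintype_card, Nat.card_eq_fintype_card]
    omega
  have hJr : Module.finrank F2 (LinearMap.range J) = Module.finrank F2 (cyc G1) := LinearMap.finrank_range_of_inj hJi
  have hbig : Module.finrank F2 (cyc G2) ≤ Module.finrank F2 (LinearMap.range J) + 1 := by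
    rw [hJr]
    omega
  have k2 : Module.finrank F2 (LinearMap.range (frm M2)) ≤ rkOn (frm M2) (LinearMap.range J) + 2 * 1 :=
    rk_le_sub _ _ 1 hbig
  rw [← hrk] at k2
  exact_mod_cast k2

end ea

theorem ins_edge (G1 G2 : SimpleGraph (Fin n)) (a b : Fin n) (h : AddE G1 G2 a b) (h1 : G1.Connected) (hn : 2 ≤ n)
    (M1 : GMap G1) : ∃ M2 : GMap G2, Near M1 ∅ M2 (fun p => p) ∧ M2.eg ≤ M1.eg + 2 := by
  have : Nontrivial (Fin n) := Fin.nontrivial_iff_two_le.2 hn
  have hle : G1 ≤ G2 := Pool.Agent.SCG.addE_le h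
  have h2 : G2.Connected := h1.mono hle
  obtain ⟨y, hy⟩ := Pool.Agent.Helper35.OG.exists_flag h1 a
  obtain ⟨y', hy'⟩ := Pool.Agent.Helper35.OG.exists_flag h1 b
  have hab : G2.Adj a b := (h.2.2 a b).2 (Or.inr (Or.inl ⟨rfl, rfl⟩))
  obtain ⟨r, hr⟩ : ∃ r : Flag G2, r = (⟨(a, b), hab⟩, true) := ⟨_, rfl⟩
  have hno : ∀ p : Flag G1, Pool.Agent.SCG.fI hle p ≠ r ∧ Pool.Agent.SCG.fI hle p ≠ side r ∧
      Pool.Agent.SCG.fI hle p ≠ across r ∧ Pool.Agent.SCG.fI hle p ≠ side (across r) := by
    intro p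
    have k : ∀ q : Flag G2, q.1.edge = s(a, b) → Pool.Agent.SCG.fI hle p ≠ q := by
      intro q hq hpq
      have e1 : (Pool.Agent.SCG.fI hle p).1.edge = s(a, b) := by
        rw [hpq]
        exact hq
      have e2 : p.1.edge = s(a, b) := e1
      have e3 : p.1.edge ∈ G1.edgeSet := p.1.edge_mem
      rw [e2] at e3
      exact h.2.1 e3
    rw [hr]
    exact ⟨k _ rfl, k _ rfl, k _ Sym2.eq_swap, k _ Sym2.eq_swap⟩
  have hal : ∀ q : Flag G2, (∃ p, Pool.Agent.SCG.fI hle p = q) ∨ q = r ∨ q = side r ∨ q = across r ∨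
      q = side (across r) := by
    rintro ⟨⟨⟨u, v⟩, huv⟩, t⟩
    rcases (h.2.2 u v).1 huv with h3 | ⟨h3, h4⟩ | ⟨h3, h4⟩
    · exact Or.inl ⟨(⟨(u, v), h3⟩, t), rfl⟩
    · subst h3
      subst h4
      subst hr
      cases t
      · exact Or.inr (Or.inr (Or.inl rfl))
      · exact Or.inr (Or.inl rfl)
    · subst h3
      subst h4
      subst hr
      cases t
      · exact Or.inr (Or.inr (Or.inr (Or.inl rfl)))
      · exact Or.inr (Or.inr (Or.inr (Or.inr rfl)))
  have hyr : y.1.fst = r.1.fst := by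
    rw [hy, hr]
  have hyr' : y'.1.fst = r.1.snd := by
    rw [hy', hr]
  refine ⟨eaM hle M1 r y y' hno hal hyr hyr', ea_near hle M1 r y y' hno hal hyr hyr',
    ea_eg h h1 h2 hn M1 _ ?_⟩
  intro z1 z2 hz h0 L hL
  refine ea_pot hle M1 r y y' hno hal hyr hyr' z1 z2 hz (h0 _ ?_) L hL
  intro h3
  have h4 : s(a, b) ∈ G1.edgeSet := by
    have h5 : (ed r).1 = s(a, b) := by
      rw [hr]
      rfl
    rwa [h5] at h3
  exact h.2.1 h4

end Pool.Agent.FGT
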