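import Pool.Agent.FGT.ExB

/-!
# FGT-ExC: exchanging the part of a map: faces and orientability

The flags are divided into `{p // ed p ∈ D}` and `{p // ed p ∉ D}`; the steps along the faces, and between the coloured flags, generate the
same equivalence as the glued relation of `Glue2`.
-/

set_option autoImplicit false

open Finset
open scoped Classical

namespace Pool.Agent.FGT

open Pool.Agent.BEO
open Pool.Agent.Helper35.OG hiding F2 dg

variable {V : Type} {G : SimpleGraph V}

/-- all steps between coloured flags of a map -/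
def rM (M : GMap G) (x y : Flag G × Bool) : Prop :=
  y = (M.nxt x.1, !x.2) ∨ y = (side x.1, !x.2) ∨ y = (across x.1, !x.2)

private theorem ec_map {α β : Type} {r : α → α → Prop} {s : β → β → Prop} (f : α → β)
    (h : ∀ x y, r x y → Relation.EqvGen s (f x) (f y)) {x y : α} (hxy : Relation.EqvGen r x y) :
    Relation.EqvGen s (f x) (f y) := by
  induction hxy with
  | rel x y h1 => exact h x y h1
  | refl x => exact Relation.EqvGen.refl _
  | symm x y _ ih => exact Relation.EqvGen.symm _ _ ih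
  | trans x y z _ _ ih1 ih2 => exact Relation.EqvGen.trans _ _ _ ih1 ih2

private theorem ec_card {α β : Type} {r : α → α → Prop} {s : β → β → Prop} (e : α ≃ β)
    (h1 : ∀ x y, r x y → Relation.EqvGen s (e x) (e y))
    (h2 : ∀ x y, s x y → Relation.EqvGen r (e.symm x) (e.symm y)) : Nat.card (Quot r) = Nat.card (Quot s) := by
  refine Nat.card_congr ⟨Quot.lift (fun x => Quot.mk s (e x)) (fun x y h => Quot.eqvGen_sound (h1 x y h)),
    Quot.lift (fun x => Quot.mk r (e.symm x)) (fun x y h => Quot.eqvGen_sound (h2 x y h)), ?_, ?_⟩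
  · intro c
    obtain ⟨x, rfl⟩ := Quot.exists_rep c
    show Quot.mk r (e.symm (e x)) = _
    rw [e.symm_apply_apply]
  · intro c
    obtain ⟨x, rfl⟩ := Quot.exists_rep c
    show Quot.mk s (e (e.symm x)) = _
    rw [e.apply_symm_apply]

private theorem z2_ne {a b : ZMod 2} (h : a ≠ b) : a = b + 1 := by
  revert a b; decide

private theorem bad {T : GMap G} (hG : G.Connected) (hO : ¬ T.Orientable) (A : Flag G → Bool → Prop) (p0 : Flag G)
    (h0 : A p0 false) (h1 : ∀ p b, A p b → A (T.nxt p) (!b)) (h2 : ∀ p b, A p b → A (side p) (!b))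
    (h3 : ∀ p b, A p b → A (across p) (!b)) : A p0 true := by
  by_contra hc
  apply hO
  have hex : ∀ p, ∃ b, A p b := by
    intro p
    have := all_const T hG (fun p => ∃ b, A p b) ?_ ?_ ?_ p p0
    · rw [this]
      exact ⟨false, h0⟩
    · intro p
      apply propext
      constructor
      · rintro ⟨b, hb⟩
        have := h1 _ _ hb
        rw [T.nxt_nxt] at this
        exact ⟨_, this⟩
      · rintro ⟨b, hb⟩
        exact ⟨_, h1 _ _ hb⟩
    · intro p
      apply propext
      constructor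
      · rintro ⟨b, hb⟩
        have := h2 _ _ hb
        rw [side_side] at this
        exact ⟨_, this⟩
      · rintro ⟨b, hb⟩
        exact ⟨_, h2 _ _ hb⟩
    · intro p
      apply propext
      constructor
      · rintro ⟨b, hb⟩
        have := h3 _ _ hb
        rw [across_across] at this
        exact ⟨_, this⟩
      · rintro ⟨b, hb⟩
        exact ⟨_, h3 _ _ hb⟩
  have hnb : ∀ p, ¬ (A p false ∧ A p true) := by
    intro p hp
    have := all_const T hG (fun p => A p false ∧ A p true) ?_ ?_ ?_ p p0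
    · rw [this] at hp
      exact hc hp.2
    · intro p
      apply propext
      constructor
      · rintro ⟨hb, hb'⟩
        have e1 := h1 _ _ hb
        have e2 := h1 _ _ hb'
        rw [T.nxt_nxt] at e1 e2
        exact ⟨e2, e1⟩
      · rintro ⟨hb, hb'⟩
        exact ⟨h1 _ _ hb', h1 _ _ hb⟩
    · intro p
      apply propext
      constructor
      · rintro ⟨hb, hb'⟩
        have e1 := h2 _ _ hb
        have e2 := h2 _ _ hb'
        rw [side_side] at e1 e2
        exact ⟨e2, e1⟩
      · rintro ⟨hb, hb'⟩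
        exact ⟨h2 _ _ hb', h2 _ _ hb⟩
    · intro p
      apply propext
      constructor
      · rintro ⟨hb, hb'⟩
        have e1 := h3 _ _ hb
        have e2 := h3 _ _ hb'
        rw [across_across] at e1 e2
        exact ⟨e2, e1⟩
      · rintro ⟨hb, hb'⟩
        exact ⟨h3 _ _ hb', h3 _ _ hb⟩
  have key : ∀ p q, (∀ b, A p b → A q (!b)) →
      (if A q false then (0 : ZMod 2) else 1) ≠ if A p false then (0 : ZMod 2) else 1 := by
    intro p q hpq
    by_cases hp : A p false
    · have hq : A q true := hpq _ hp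
      have hq' : ¬ A q false := fun h => hnb q ⟨h, hq⟩
      rw [if_pos hp, if_neg hq']
      decide
    · have hp' : A p true := by
        obtain ⟨b, hb⟩ := hex p
        cases b
        · exact absurd hb hp
        · exact hb
      have hq : A q false := hpq _ hp'
      rw [if_neg hp, if_pos hq]
      decide
  refine ⟨fun p => if A p false then 0 else 1, ?_, ?_⟩
  · intro p
    exact ⟨key _ _ (fun b => h3 p b), key _ _ (fun b => h2 p b)⟩
  · intro p
    exact key _ _ (fun b => h1 p b)

theorem ori_iff' (hG : G.Connected) (M : GMap G) (p0 : Flag G) :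
    M.Orientable ↔ ¬ Relation.EqvGen (rM M) (p0, false) (p0, true) := by
  constructor
  · rintro ⟨κ, hκ, hκT⟩ hR
    have hstep : ∀ (p q : Flag G) (b : Bool), κ q ≠ κ p →
        κ p + (if b then (1 : ZMod 2) else 0) = κ q + if (!b) then (1 : ZMod 2) else 0 := by
      intro p q b hpq
      rw [z2_ne hpq]
      have h2 : (1 : ZMod 2) + 1 = 0 := by decide
      cases b
      · simp [add_assoc, h2]
      · simp
    have := eqvGen_eq (fun x : Flag G × Bool => κ x.1 + if x.2 then (1 : ZMod 2) else 0)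
      (r := rM M) ?_ hR
    · simp at this
    · rintro ⟨p, b⟩ ⟨q, b'⟩ hxy
      unfold rM at hxy
      simp only [Prod.mk.injEq] at hxy
      show κ p + _ = κ q + if b' then (1 : ZMod 2) else 0
      rcases hxy with ⟨h1, h2⟩ | ⟨h1, h2⟩ | ⟨h1, h2⟩
      · rw [h2]
        refine hstep p q b ?_
        rw [h1]
        exact hκT p
      · rw [h2]
        refine hstep p q b ?_
        rw [h1]
        exact (hκ p).2
      · rw [h2]
        refine hstep p q b ?_
        rw [h1]
        exact (hκ p).1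
  · intro hne
    by_contra hO
    apply hne
    exact bad hG hO (fun p b => Relation.EqvGen (rM M) (p0, false) (p, b)) p0 (Relation.EqvGen.refl _)
      (fun p b hb => hb.trans _ _ _ (Relation.EqvGen.rel _ _ (Or.inl rfl)))
      (fun p b hb => hb.trans _ _ _ (Relation.EqvGen.rel _ _ (Or.inr (Or.inl rfl))))
      (fun p b hb => hb.trans _ _ _ (Relation.EqvGen.rel _ _ (Or.inr (Or.inr rfl))))

/-- the relation of the faces inside -/
private def RAf (D : Finset G.edgeSet) (L : Flag G → Flag G) (x y : {p : Flag G // ed p ∈ D}) : Prop := rF D L x.1 y.1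

/-- the relation of the faces outside -/
private def RBf (D : Finset G.edgeSet) (N : GMap G) (x y : {p : Flag G // ¬ ed p ∈ D}) : Prop :=
  y.1 = N.nxt x.1 ∨ y.1 = across x.1

private theorem part_pos {D : Finset G.edgeSet} {N : GMap G} {p : Flag G} (h1 : ed p ∈ D) (h2 : ed (N.nxt p) ∈ D) :
    part D N p = N.nxt p := if_pos ⟨h1, h2⟩

private theorem part_or (D : Finset G.edgeSet) (N : GMap G) (p : Flag G) : part D N p = N.nxt p ∨ part D N p = p := by
  by_cases h : ed p ∈ D ∧ ed (N.nxt p) ∈ D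
  · exact Or.inl (if_pos h)
  · exact Or.inr (if_neg h)

private theorem sc_pos {D : Finset G.edgeSet} {x : Flag G} (h : ed x ∈ D) :
    (Equiv.sumCompl (fun p : Flag G => ed p ∈ D)).symm x = Sum.inl ⟨x, h⟩ :=
  Equiv.sumCompl_symm_apply_of_pos (p := fun p : Flag G => ed p ∈ D) h

private theorem sc_neg {D : Finset G.edgeSet} {x : Flag G} (h : ¬ ed x ∈ D) :
    (Equiv.sumCompl (fun p : Flag G => ed p ∈ D)).symm x = Sum.inr ⟨x, h⟩ :=
  Equiv.sumCompl_symm_apply_of_neg (p := fun p : Flag G => ed p ∈ D) h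

private theorem face_glu (D : Finset G.edgeSet) (N : GMap G) {ι : Type} (u : ι → {p : Flag G // ed p ∈ D})
    (w : ι → {p : Flag G // ¬ ed p ∈ D}) (hu : ∀ i, N.nxt (u i).1 = (w i).1)
    (hsu : ∀ p, ed p ∈ D → ed (N.nxt p) ∉ D → ∃ i, (u i).1 = p) :
    Nat.card (Quot (glu (RAf D (part D N)) (RBf D N) u w)) = Nat.card N.Face := by
  unfold GMap.Face
  refine ec_card (Equiv.sumCompl (fun p : Flag G => ed p ∈ D)) ?_ ?_
  · rintro (x | x) (y | y) h
    · show Relation.EqvGen _ x.1 y.1
      rcases h.2 with h1 | h1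
      · rcases part_or D N x.1 with h2 | h2
        · rw [h2] at h1
          exact Relation.EqvGen.rel _ _ (Or.inl h1)
        · rw [h2] at h1
          rw [h1]
          exact Relation.EqvGen.refl _
      · exact Relation.EqvGen.rel _ _ (Or.inr h1)
    · show Relation.EqvGen _ x.1 y.1
      obtain ⟨i, rfl, rfl⟩ := h
      exact Relation.EqvGen.rel _ _ (Or.inl (hu i).symm)
    · exact h.elim
    · show Relation.EqvGen _ x.1 y.1
      exact Relation.EqvGen.rel _ _ h
  · intro x y h
    by_cases hx : ed x ∈ D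
    · rw [sc_pos hx]
      by_cases hy : ed y ∈ D
      · rw [sc_pos hy]
        refine Relation.EqvGen.rel _ _ ?_
        show rF D (part D N) x y
        rcases h with h | h
        · refine ⟨hx, Or.inl ?_⟩
          rw [part_pos hx (by rw [← h]; exact hy), h]
        · exact ⟨hx, Or.inr h⟩
      · rw [sc_neg hy]
        refine Relation.EqvGen.rel _ _ ?_
        rcases h with h | h
        · obtain ⟨i, hi⟩ := hsu x hx (by rw [← h]; exact hy)
          refine ⟨i, Subtype.ext hi, Subtype.ext ?_⟩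
          rw [← hu i, hi]
          exact h.symm
        · exact absurd (by rw [h, ed_across]; exact hx) hy
    · rw [sc_neg hx]
      by_cases hy : ed y ∈ D
      · rw [sc_pos hy]
        refine Relation.EqvGen.symm _ _ (Relation.EqvGen.rel _ _ ?_)
        rcases h with h | h
        · have h' : N.nxt y = x := by rw [h, N.nxt_nxt]
          obtain ⟨i, hi⟩ := hsu y hy (by rw [h']; exact hx)
          refine ⟨i, Subtype.ext hi, Subtype.ext ?_⟩
          rw [← hu i, hi]
          exact h'
        · exact absurd (by rw [h, ed_across] at hy; exact hy) hx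
      · rw [sc_neg hy]
        exact Relation.EqvGen.rel _ _ h

private theorem key_f {D : Finset G.edgeSet} {L : Flag G → Flag G} (hL : OMap D L) {x y : Flag G}
    (h : Relation.EqvGen (rF D L) x y) : (ed x ∈ D ↔ ed y ∈ D) ∧ ∀ (hx : ed x ∈ D) (hy : ed y ∈ D),
      Relation.EqvGen (RAf D L) ⟨x, hx⟩ ⟨y, hy⟩ := by
  induction h with
  | rel x y h1 =>
    have h2 : ed y ∈ D := by
      rcases h1.2 with h2 | h2
      · rw [h2]
        exact hL.mem x h1.1
      · rw [h2, ed_across]
        exact h1.1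
    exact ⟨⟨fun _ => h2, fun _ => h1.1⟩, fun hx hy => Relation.EqvGen.rel _ _ h1⟩
  | refl x => exact ⟨Iff.rfl, fun _ _ => Relation.EqvGen.refl _⟩
  | symm x y _ ih => exact ⟨ih.1.symm, fun hx hy => Relation.EqvGen.symm _ _ (ih.2 hy hx)⟩
  | trans x y z _ _ ih1 ih2 =>
    exact ⟨ih1.1.trans ih2.1, fun hx hz => Relation.EqvGen.trans _ _ _ (ih1.2 hx (ih1.1.1 hx)) (ih2.2 (ih1.1.1 hx) hz)⟩

private theorem iff_f {D : Finset G.edgeSet} {L : Flag G → Flag G} (hL : OMap D L) (x y : {p : Flag G // ed p ∈ D}) :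
    Relation.EqvGen (RAf D L) x y ↔ Relation.EqvGen (rF D L) x.1 y.1 :=
  ⟨fun h => ec_map Subtype.val (fun _ _ h1 => Relation.EqvGen.rel _ _ h1) h, fun h => (key_f hL h).2 x.2 y.2⟩

private theorem clo_glu {D : Finset G.edgeSet} {L : Flag G → Flag G} (hL : OMap D L) {ι : Type}
    (u : ι → {p : Flag G // ed p ∈ D}) (hu : ∀ i, Um D L (u i).1) (hsu : ∀ q, Um D L q → ∃ i, (u i).1 = q) :
    cloG (RAf D L) u = clo D L := by
  unfold cloG clo
  obtain ⟨g, hg⟩ : ∃ g : Quot (RAf D L) → Quot (rF D L), ∀ x, g (Quot.mk _ x) = Quot.mk _ x.1 :=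
    ⟨Quot.map Subtype.val (fun _ _ h => h), fun x => rfl⟩
  have hinj : ∀ c d, g c = g d → c = d := by
    intro c d h
    obtain ⟨x, rfl⟩ := Quot.exists_rep c
    obtain ⟨y, rfl⟩ := Quot.exists_rep d
    rw [hg, hg] at h
    exact Quot.eqvGen_sound ((iff_f hL x y).2 (Quot.eqvGen_exact h))
  have hin : ∀ c : {c : Quot (RAf D L) // ∀ i, Quot.mk (RAf D L) (u i) ≠ c},
      (∃ p, Quot.mk _ p = g c.1 ∧ ed p ∈ D) ∧ ∀ q, Um D L q → Quot.mk (rF D L) q ≠ g c.1 := by
    rintro ⟨c, hc⟩
    refine ⟨?_, ?_⟩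
    · obtain ⟨x, rfl⟩ := Quot.exists_rep c
      exact ⟨x.1, (hg x).symm, x.2⟩
    · intro q hq h
      obtain ⟨i, hi⟩ := hsu q hq
      refine hc i (hinj _ _ ?_)
      rw [hg, hi]
      exact h
  refine Nat.card_congr (Equiv.ofBijective (fun c => ⟨g c.1, hin c⟩) ⟨?_, ?_⟩)
  · rintro ⟨c, hc⟩ ⟨d, hd⟩ h
    exact Subtype.ext (hinj _ _ (congrArg Subtype.val h))
  · rintro ⟨c, ⟨p, rfl, hp⟩, hc⟩
    refine ⟨⟨Quot.mk _ ⟨p, hp⟩, fun i h => hc (u i).1 (hu i) ?_⟩, Subtype.ext (hg _)⟩
    rw [← hg, h, hg]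

/-- the part of the hypotheses which is used -/
private theorem nx_out {D : Finset G.edgeSet} {M M' : GMap G} {L' θ : Flag G → Flag G}
    (hs : Same D (part D M) L' θ)
    (h2 : ∀ p, ed p ∉ D → ed (M.nxt p) ∉ D → M'.nxt p = M.nxt p)
    (h3 : ∀ p, Um D (part D M) p → M'.nxt (θ p) = M.nxt p) {x y : Flag G} (hx : ed x ∉ D) (hy : ed y ∉ D) :
    y = M'.nxt x ↔ y = M.nxt x := by
  by_cases h : ed (M.nxt x) ∈ D
  · have hq : Um D (part D M) (M.nxt x) := (um_part D M _).2 ⟨h, by rw [M.nxt_nxt]; exact hx⟩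
    have e1 := h3 _ hq
    rw [M.nxt_nxt] at e1
    have e2 : M'.nxt x = θ (M.nxt x) := by
      have e3 := congrArg M'.nxt e1
      rw [M'.nxt_nxt] at e3
      exact e3.symm
    constructor
    · intro h4
      rw [h4, e2] at hy
      exact absurd (hs.map _ hq).1 hy
    · intro h4
      rw [h4] at hy
      exact absurd h hy
  · rw [h2 x hx h]

theorem exch_face [Finite V] (D : Finset G.edgeSet) (M M' : GMap G) (L' θ : Flag G → Flag G) (hL : OMap D L')
    (hs : Same D (part D M) L' θ) (h1 : ∀ p, part D M' p = L' p)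
    (h2 : ∀ p, ed p ∉ D → ed (M.nxt p) ∉ D → M'.nxt p = M.nxt p)
    (h3 : ∀ p, Um D (part D M) p → M'.nxt (θ p) = M.nxt p) :
    Nat.card M'.Face + clo D (part D M) = Nat.card M.Face + clo D L' := by
  have : Finite (Flag G) := by
    have := Fintype.ofFinite V
    infer_instance
  have hL' : part D M' = L' := funext h1
  set ι : Type := {p : Flag G // Um D (part D M) p} with hι
  set u : ι → {p : Flag G // ed p ∈ D} := fun i => ⟨i.1, i.2.1⟩ with hu
  set u' : ι → {p : Flag G // ed p ∈ D} := fun i => ⟨θ i.1, (hs.map _ i.2).1⟩ with hu'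
  set w : ι → {p : Flag G // ¬ ed p ∈ D} := fun i => ⟨M.nxt i.1, ((um_part D M i.1).1 i.2).2⟩ with hw
  have hM := omap_part D M
  have key := glue2_card (RAf D (part D M)) (RAf D L') (RBf D M) u u' w (fun i j => by
    rw [iff_f hM, iff_f hL]
    exact hs.f i.1 j.1 i.2 j.2)
  have c1 := face_glu D M u w (fun i => rfl) (fun p hp hp' => ⟨⟨p, (um_part D M p).2 ⟨hp, hp'⟩⟩, rfl⟩)
  have c2 := face_glu D M' u' w (fun i => h3 i.1 i.2) (fun p hp hp' => by
    have h4 : Um D L' p := by
      rw [← hL']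
      exact (um_part D M' p).2 ⟨hp, hp'⟩
    obtain ⟨q, hq, e⟩ := hs.sur p h4
    exact ⟨⟨q, hq⟩, e⟩)
  have e1 : RBf D M' = RBf D M := by
    funext x y
    apply propext
    exact or_congr (nx_out hs h2 h3 x.2 y.2) Iff.rfl
  rw [e1, hL'] at c2
  have c3 := clo_glu hM u (fun i => i.2) (fun q hq => ⟨⟨q, hq⟩, rfl⟩)
  have c4 := clo_glu hL u' (fun i => hs.map _ i.2) (fun q hq => by
    obtain ⟨p, hp, e⟩ := hs.sur q hq
    exact ⟨⟨p, hp⟩, e⟩)
  rw [c1, c2, c3, c4] at key
  exact key.symm

/-- the relation of the coloured flags inside -/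
private def RAc (D : Finset G.edgeSet) (L : Flag G → Flag G) (x y : {p : Flag G // ed p ∈ D} × Bool) : Prop :=
  rC D L (x.1.1, x.2) (y.1.1, y.2)

/-- the relation of the coloured flags outside -/
private def RBc (D : Finset G.edgeSet) (N : GMap G) (x y : {p : Flag G // ¬ ed p ∈ D} × Bool) : Prop :=
  (y.1.1 = N.nxt x.1.1 ∨ y.1.1 = side x.1.1 ∨ y.1.1 = across x.1.1) ∧ y.2 = !x.2

/-- from the two parts to the coloured flags -/
private def toF (D : Finset G.edgeSet) : ({p : Flag G // ed p ∈ D} × Bool) ⊕ ({p : Flag G // ¬ ed p ∈ D} × Bool) →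
    Flag G × Bool
  | Sum.inl x => (x.1.1, x.2)
  | Sum.inr x => (x.1.1, x.2)

/-- from the coloured flags to the two parts -/
private noncomputable def toS (D : Finset G.edgeSet) (x : Flag G × Bool) :
    ({p : Flag G // ed p ∈ D} × Bool) ⊕ ({p : Flag G // ¬ ed p ∈ D} × Bool) :=
  if h : ed x.1 ∈ D then Sum.inl (⟨x.1, h⟩, x.2) else Sum.inr (⟨x.1, h⟩, x.2)

private theorem toS_pos {D : Finset G.edgeSet} {x : Flag G × Bool} (h : ed x.1 ∈ D) :
    toS D x = Sum.inl (⟨x.1, h⟩, x.2) := dif_pos h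

private theorem toS_neg {D : Finset G.edgeSet} {x : Flag G × Bool} (h : ¬ ed x.1 ∈ D) :
    toS D x = Sum.inr (⟨x.1, h⟩, x.2) := dif_neg h

private theorem glu_rM (D : Finset G.edgeSet) (N : GMap G) {ι : Type} (u : ι → {p : Flag G // ed p ∈ D})
    (w : ι → {p : Flag G // ¬ ed p ∈ D}) (hu : ∀ i, N.nxt (u i).1 = (w i).1)
    {x y : ({p : Flag G // ed p ∈ D} × Bool) ⊕ ({p : Flag G // ¬ ed p ∈ D} × Bool)}
    (h : Relation.EqvGen (glu (RAc D (part D N)) (RBc D N) (fun i : ι × Bool => (u i.1, i.2))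
      (fun i : ι × Bool => (w i.1, !i.2))) x y) : Relation.EqvGen (rM N) (toF D x) (toF D y) := by
  refine ec_map (toF D) ?_ h
  rintro (x | x) (y | y) h
  · obtain ⟨hx, h⟩ := h
    show Relation.EqvGen _ (x.1.1, x.2) (y.1.1, y.2)
    rcases h with ⟨h4, h5⟩ | h5 | h5
    · rcases part_or D N x.1.1 with h6 | h6
      · rw [h5]
        refine Relation.EqvGen.rel _ _ (Or.inl ?_)
        show (part D N x.1.1, !x.2) = (N.nxt x.1.1, !x.2)
        rw [h6]
      · exact absurd h6 h4
    · exact Relation.EqvGen.rel _ _ (Or.inr (Or.inl h5))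
    · exact Relation.EqvGen.rel _ _ (Or.inr (Or.inr h5))
  · obtain ⟨i, rfl, rfl⟩ := h
    show Relation.EqvGen _ ((u i.1).1, i.2) ((w i.1).1, !i.2)
    refine Relation.EqvGen.rel _ _ (Or.inl ?_)
    show ((w i.1).1, !i.2) = (N.nxt (u i.1).1, !i.2)
    rw [hu]
  · exact h.elim
  · show Relation.EqvGen _ (x.1.1, x.2) (y.1.1, y.2)
    obtain ⟨h4, h5⟩ := h
    rw [h5]
    rcases h4 with h4 | h4 | h4
    · rw [h4]
      exact Relation.EqvGen.rel _ _ (Or.inl rfl)
    · rw [h4]
      exact Relation.EqvGen.rel _ _ (Or.inr (Or.inl rfl))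
    · rw [h4]
      exact Relation.EqvGen.rel _ _ (Or.inr (Or.inr rfl))

private theorem rM_glu (D : Finset G.edgeSet) (N : GMap G) {ι : Type} (u : ι → {p : Flag G // ed p ∈ D})
    (w : ι → {p : Flag G // ¬ ed p ∈ D}) (hu : ∀ i, N.nxt (u i).1 = (w i).1)
    (hsu : ∀ p, ed p ∈ D → ed (N.nxt p) ∉ D → ∃ i, (u i).1 = p) {x y : Flag G × Bool}
    (h : Relation.EqvGen (rM N) x y) :
    Relation.EqvGen (glu (RAc D (part D N)) (RBc D N) (fun i : ι × Bool => (u i.1, i.2))
      (fun i : ι × Bool => (w i.1, !i.2))) (toS D x) (toS D y) := by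
  refine ec_map (toS D) ?_ h
  rintro ⟨x, a⟩ ⟨y, b⟩ h
  have hb : b = !a := by
    rcases h with h | h | h
    · exact congrArg Prod.snd h
    · exact congrArg Prod.snd h
    · exact congrArg Prod.snd h
  have hy : y = N.nxt x ∨ y = side x ∨ y = across x := by
    rcases h with h | h | h
    · exact Or.inl (congrArg Prod.fst h)
    · exact Or.inr (Or.inl (congrArg Prod.fst h))
    · exact Or.inr (Or.inr (congrArg Prod.fst h))
  clear h
  subst hb
  by_cases hxD : ed x ∈ D
  · rw [toS_pos (D := D) (x := (x, a)) hxD]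
    by_cases hyD : ed y ∈ D
    · rw [toS_pos (D := D) (x := (y, !a)) hyD]
      refine Relation.EqvGen.rel _ _ ?_
      show rC D (part D N) (x, a) (y, !a)
      refine ⟨hxD, ?_⟩
      rcases hy with h | h | h
      · left
        have e1 : part D N x = N.nxt x := part_pos hxD (by rw [← h]; exact hyD)
        refine ⟨?_, ?_⟩
        · show part D N x ≠ x
          rw [e1]
          exact N.nxt_ne x
        · show (y, !a) = (part D N x, !a)
          rw [e1, h]
      · right; left
        rw [h]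
      · right; right
        rw [h]
    · rw [toS_neg (D := D) (x := (y, !a)) hyD]
      refine Relation.EqvGen.rel _ _ ?_
      rcases hy with h | h | h
      · obtain ⟨i, hi⟩ := hsu x hxD (by rw [← h]; exact hyD)
        refine ⟨(i, a), ?_, ?_⟩
        · exact Prod.ext (Subtype.ext hi) rfl
        · refine Prod.ext (Subtype.ext ?_) rfl
          show (w i).1 = y
          rw [← hu i, hi, h]
      · exact absurd (by rw [h]; exact hxD) hyD
      · exact absurd (by rw [h, ed_across]; exact hxD) hyD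
  · rw [toS_neg (D := D) (x := (x, a)) hxD]
    by_cases hyD : ed y ∈ D
    · rw [toS_pos (D := D) (x := (y, !a)) hyD]
      refine Relation.EqvGen.symm _ _ (Relation.EqvGen.rel _ _ ?_)
      rcases hy with h | h | h
      · have h' : N.nxt y = x := by rw [h, N.nxt_nxt]
        obtain ⟨i, hi⟩ := hsu y hyD (by rw [h']; exact hxD)
        refine ⟨(i, !a), ?_, ?_⟩
        · exact Prod.ext (Subtype.ext hi) rfl
        · refine Prod.ext (Subtype.ext ?_) (Bool.not_not a)
          show (w i).1 = x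
          rw [← hu i, hi, h']
      · exact absurd (by rw [h] at hyD; exact hyD) hxD
      · exact absurd (by rw [h, ed_across] at hyD; exact hyD) hxD
    · rw [toS_neg (D := D) (x := (y, !a)) hyD]
      exact Relation.EqvGen.rel _ _ ⟨hy, rfl⟩

private theorem key_c {D : Finset G.edgeSet} {L : Flag G → Flag G} (hL : OMap D L) {x y : Flag G × Bool}
    (h : Relation.EqvGen (rC D L) x y) : (ed x.1 ∈ D ↔ ed y.1 ∈ D) ∧ ∀ (hx : ed x.1 ∈ D) (hy : ed y.1 ∈ D),
      Relation.EqvGen (RAc D L) (⟨x.1, hx⟩, x.2) (⟨y.1, hy⟩, y.2) := by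
  induction h with
  | rel x y h1 =>
    have h2 : ed y.1 ∈ D := by
      rcases h1.2 with h2 | h2 | h2
      · rw [h2.2]
        exact hL.mem x.1 h1.1
      · rw [h2]
        exact h1.1
      · rw [h2]
        show ed (across x.1) ∈ D
        rw [ed_across]
        exact h1.1
    exact ⟨⟨fun _ => h2, fun _ => h1.1⟩, fun hx hy => Relation.EqvGen.rel _ _ h1⟩
  | refl x => exact ⟨Iff.rfl, fun _ _ => Relation.EqvGen.refl _⟩
  | symm x y _ ih => exact ⟨ih.1.symm, fun hx hy => Relation.EqvGen.symm _ _ (ih.2 hy hx)⟩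
  | trans x y z _ _ ih1 ih2 =>
    exact ⟨ih1.1.trans ih2.1, fun hx hz => Relation.EqvGen.trans _ _ _ (ih1.2 hx (ih1.1.1 hx)) (ih2.2 (ih1.1.1 hx) hz)⟩

private theorem iff_c {D : Finset G.edgeSet} {L : Flag G → Flag G} (hL : OMap D L)
    (x y : {p : Flag G // ed p ∈ D} × Bool) :
    Relation.EqvGen (RAc D L) x y ↔ Relation.EqvGen (rC D L) (x.1.1, x.2) (y.1.1, y.2) :=
  ⟨fun h => ec_map (fun x : {p : Flag G // ed p ∈ D} × Bool => (x.1.1, x.2))
    (fun _ _ h1 => Relation.EqvGen.rel _ _ h1) h, fun h => (key_c hL h).2 x.1.2 y.1.2⟩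

/-- changing the colours -/
private theorem flip_c {D : Finset G.edgeSet} {L : Flag G → Flag G} {x y : Flag G × Bool}
    (h : Relation.EqvGen (rC D L) x y) : Relation.EqvGen (rC D L) (x.1, !x.2) (y.1, !y.2) := by
  refine ec_map (fun x : Flag G × Bool => (x.1, !x.2)) ?_ h
  rintro x y ⟨h1, h2⟩
  refine Relation.EqvGen.rel _ _ ⟨h1, ?_⟩
  rcases h2 with ⟨h2, h3⟩ | h3 | h3
  · rw [h3]
    exact Or.inl ⟨h2, rfl⟩
  · rw [h3]
    exact Or.inr (Or.inl rfl)
  · rw [h3]
    exact Or.inr (Or.inr rfl)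

private theorem same_c {D : Finset G.edgeSet} {L L' θ : Flag G → Flag G} (hs : Same D L L' θ) {p q : Flag G}
    (hp : Um D L p) (hq : Um D L q) (a b : Bool) :
    Relation.EqvGen (rC D L) (p, a) (q, b) ↔ Relation.EqvGen (rC D L') (θ p, a) (θ q, b) := by
  cases a
  · exact hs.c p q hp hq b
  · constructor
    · intro h
      have h1 := (hs.c p q hp hq (!b)).1 (flip_c h)
      have h2 := flip_c h1
      rw [Bool.not_not] at h2
      exact h2
    · intro h
      have h1 := (hs.c p q hp hq (!b)).2 (flip_c h)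
      have h2 := flip_c h1
      rw [Bool.not_not] at h2
      exact h2

theorem exch_ori [Finite V] (hG : G.Connected) (D : Finset G.edgeSet) (M M' : GMap G) (L' θ : Flag G → Flag G) (hL : OMap D L')
    (hs : Same D (part D M) L' θ) (h1 : ∀ p, part D M' p = L' p)
    (h2 : ∀ p, ed p ∉ D → ed (M.nxt p) ∉ D → M'.nxt p = M.nxt p)
    (h3 : ∀ p, Um D (part D M) p → M'.nxt (θ p) = M.nxt p) (hM : M.Orientable) : M'.Orientable := by
  have hL' : part D M' = L' := funext h1
  by_cases hex : ∃ p : Flag G, ed p ∉ D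
  · obtain ⟨p, hp⟩ := hex
    rw [ori_iff' hG M' p]
    intro hc
    refine (ori_iff' hG M p).1 hM ?_
    set ι : Type := {p : Flag G // Um D (part D M) p} with hι
    set u : ι → {p : Flag G // ed p ∈ D} := fun i => ⟨i.1, i.2.1⟩ with hu
    set u' : ι → {p : Flag G // ed p ∈ D} := fun i => ⟨θ i.1, (hs.map _ i.2).1⟩ with hu'
    set w : ι → {p : Flag G // ¬ ed p ∈ D} := fun i => ⟨M.nxt i.1, ((um_part D M i.1).1 i.2).2⟩ with hw
    have c2 := rM_glu D M' u' w (fun i => h3 i.1 i.2) (fun p hp hp' => by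
      have h4 : Um D L' p := by
        rw [← hL']
        exact (um_part D M' p).2 ⟨hp, hp'⟩
      obtain ⟨q, hq, e⟩ := hs.sur p h4
      exact ⟨⟨q, hq⟩, e⟩) hc
    rw [toS_neg (D := D) (x := (p, false)) hp, toS_neg (D := D) (x := (p, true)) hp] at c2
    have e1 : RBc D M' = RBc D M := by
      funext x y
      apply propext
      exact and_congr (or_congr (nx_out hs h2 h3 x.1.2 y.1.2) Iff.rfl) Iff.rfl
    rw [e1, hL'] at c2
    have c3 := (glue2_iff (RAc D (part D M)) (RAc D L') (RBc D M) (fun i : ι × Bool => (u i.1, i.2))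
      (fun i : ι × Bool => (u' i.1, i.2)) (fun i : ι × Bool => (w i.1, !i.2)) (fun i j => by
        rw [iff_c (omap_part D M), iff_c hL]
        exact same_c hs i.1.2 j.1.2 i.2 j.2) (⟨p, hp⟩, false) (⟨p, hp⟩, true)).2 c2
    exact glu_rM D M u w (fun i => rfl) c3
  · have hall : ∀ p : Flag G, ed p ∈ D := fun p => by
      by_contra h
      exact hex ⟨p, h⟩
    by_cases hne : Nonempty (Flag G)
    · obtain ⟨p0⟩ := hne
      rw [ori_iff' hG M' p0]
      intro hc
      have c1 : Relation.EqvGen (rC D L') (p0, false) (p0, true) := by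
        refine ec_map id ?_ hc
        intro x y h
        change Relation.EqvGen (rC D L') x y
        refine Relation.EqvGen.rel _ _ ⟨hall _, ?_⟩
        have e1 : L' x.1 = M'.nxt x.1 := by
          rw [← h1]
          exact part_pos (hall _) (hall _)
        rcases h with h | h | h
        · left
          rw [e1]
          exact ⟨M'.nxt_ne _, h⟩
        · exact Or.inr (Or.inl h)
        · exact Or.inr (Or.inr h)
      obtain ⟨p, -, hp⟩ := hs.ni ⟨p0, hall _, c1⟩
      refine (ori_iff' hG M p).1 hM (ec_map id ?_ hp)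
      rintro x y ⟨-, h⟩
      change Relation.EqvGen (rM M) x y
      rcases h with ⟨h4, h5⟩ | h5 | h5
      · rcases part_or D M x.1 with h6 | h6
        · rw [h6] at h5
          exact Relation.EqvGen.rel _ _ (Or.inl h5)
        · exact absurd h6 h4
      · exact Relation.EqvGen.rel _ _ (Or.inr (Or.inl h5))
      · exact Relation.EqvGen.rel _ _ (Or.inr (Or.inr h5))
    · exact ⟨fun _ => 0, fun p => (hne ⟨p⟩).elim, fun p => (hne ⟨p⟩).elim⟩

end Pool.Agent.FGT
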