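import Mathlib

/-!
# FGT-Glue2: the classes of a relation glued from two parts (Mathlib only)

`A` is the inner part with the relation `RA`, `B` the outer part with the relation `RB`; for every `i : ι` the point `u i` of
`A` is linked to the point `w i` of `B`. If `A'`, `RA'`, `u'` is another inner part such that `u' i`, `u' j` are in one class
of `RA'` iff `u i`, `u j` are in one class of `RA`, then the classes of the outer points are the same, and the numbers of
classes differ by the numbers of the classes of `RA`, `RA'` without linked points (`cloG`).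
-/

set_option autoImplicit false

open scoped Classical

namespace Pool.Agent.FGT

variable {A A' B ι : Type}

/-- the glued relation -/
def glu (RA : A → A → Prop) (RB : B → B → Prop) (u : ι → A) (w : ι → B) : A ⊕ B → A ⊕ B → Prop
  | Sum.inl x, Sum.inl y => RA x y
  | Sum.inr x, Sum.inr y => RB x y
  | Sum.inl x, Sum.inr y => ∃ i, u i = x ∧ w i = y
  | Sum.inr _, Sum.inl _ => False

/-- the number of classes of `RA` without linked points -/
noncomputable def cloG (RA : A → A → Prop) (u : ι → A) : ℕ := Nat.card {c : Quot RA // ∀ i, Quot.mk RA (u i) ≠ c}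

/-- the outer points and indices met by the class of `z` in its own part -/
private def Jg (RA : A → A → Prop) (u : ι → A) : A ⊕ B → B ⊕ ι → Prop
  | Sum.inl x, v => ∃ i, v = Sum.inr i ∧ Relation.EqvGen RA x (u i)
  | Sum.inr y, v => v = Sum.inl y

/-- the point of an outer point or an index -/
private def ptg (u : ι → A) : B ⊕ ι → A ⊕ B
  | Sum.inl y => Sum.inr y
  | Sum.inr i => Sum.inl (u i)

private theorem g2_inl {RA : A → A → Prop} (RB : B → B → Prop) (u : ι → A) (w : ι → B) {x y : A}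
    (h : Relation.EqvGen RA x y) : Relation.EqvGen (glu RA RB u w) (Sum.inl x) (Sum.inl y) := by
  induction h with
  | rel x y h1 => exact Relation.EqvGen.rel _ _ h1
  | refl x => exact Relation.EqvGen.refl _
  | symm x y _ ih => exact Relation.EqvGen.symm _ _ ih
  | trans x y z _ _ ih1 ih2 => exact Relation.EqvGen.trans _ _ _ ih1 ih2

private theorem g2_self (RA : A → A → Prop) (u : ι → A) (v : B ⊕ ι) : Jg RA u (ptg u v) v := by
  rcases v with y | i
  · rfl
  · exact ⟨i, rfl, Relation.EqvGen.refl _⟩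

private theorem g2_jj {RA : A → A → Prop} {RA' : A' → A' → Prop} (RB : B → B → Prop) {u : ι → A} {u' : ι → A'}
    (w : ι → B) (h : ∀ i j, Relation.EqvGen RA (u i) (u j) ↔ Relation.EqvGen RA' (u' i) (u' j)) {z : A ⊕ B}
    {a b : B ⊕ ι} (ha : Jg RA u z a) (hb : Jg RA u z b) :
    Relation.EqvGen (glu RA' RB u' w) (ptg u' a) (ptg u' b) := by
  rcases z with x | y
  · obtain ⟨i, rfl, h1⟩ := ha
    obtain ⟨j, rfl, h2⟩ := hb
    exact g2_inl RB u' w ((h i j).1 (Relation.EqvGen.trans _ _ _ (Relation.EqvGen.symm _ _ h1) h2))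
  · have h1 : a = Sum.inl y := ha
    have h2 : b = Sum.inl y := hb
    rw [h1, h2]
    exact Relation.EqvGen.refl _

private theorem g2_key {RA : A → A → Prop} {RA' : A' → A' → Prop} (RB : B → B → Prop) {u : ι → A} {u' : ι → A'}
    (w : ι → B) (h : ∀ i j, Relation.EqvGen RA (u i) (u j) ↔ Relation.EqvGen RA' (u' i) (u' j)) {x y : A ⊕ B}
    (hxy : Relation.EqvGen (glu RA RB u w) x y) :
    ((∃ a, Jg RA u x a) ↔ ∃ b, Jg RA u y b) ∧
      ∀ a b, Jg RA u x a → Jg RA u y b → Relation.EqvGen (glu RA' RB u' w) (ptg u' a) (ptg u' b) := by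
  induction hxy with
  | rel x y h1 =>
    rcases x with x | x <;> rcases y with y | y
    · have h2 : Relation.EqvGen RA x y := Relation.EqvGen.rel _ _ h1
      have h3 : ∀ a, Jg RA u (Sum.inl x : A ⊕ B) a ↔ Jg RA u (Sum.inl y : A ⊕ B) a := by
        intro a
        constructor
        · rintro ⟨i, rfl, h4⟩
          exact ⟨i, rfl, Relation.EqvGen.trans _ _ _ (Relation.EqvGen.symm _ _ h2) h4⟩
        · rintro ⟨i, rfl, h4⟩
          exact ⟨i, rfl, Relation.EqvGen.trans _ _ _ h2 h4⟩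
      exact ⟨exists_congr h3, fun a b ha hb => g2_jj RB w h ((h3 a).1 ha) hb⟩
    · obtain ⟨i, rfl, rfl⟩ := h1
      have jx : Jg RA u (Sum.inl (u i) : A ⊕ B) (Sum.inr i) := ⟨i, rfl, Relation.EqvGen.refl _⟩
      have jy : Jg RA u (Sum.inr (w i) : A ⊕ B) (Sum.inl (w i)) := rfl
      refine ⟨⟨fun _ => ⟨_, jy⟩, fun _ => ⟨_, jx⟩⟩, fun a b ha hb => ?_⟩
      exact Relation.EqvGen.trans _ _ _ (g2_jj RB w h ha jx) (Relation.EqvGen.trans _ _ _
        (Relation.EqvGen.rel (Sum.inl (u' i)) (Sum.inr (w i)) ⟨i, rfl, rfl⟩) (g2_jj RB w h jy hb))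
    · exact h1.elim
    · have jx : Jg RA u (Sum.inr x : A ⊕ B) (Sum.inl x) := rfl
      have jy : Jg RA u (Sum.inr y : A ⊕ B) (Sum.inl y) := rfl
      refine ⟨⟨fun _ => ⟨_, jy⟩, fun _ => ⟨_, jx⟩⟩, fun a b ha hb => ?_⟩
      have h2 : glu RA' RB u' w (Sum.inr x) (Sum.inr y) := h1
      exact Relation.EqvGen.trans _ _ _ (g2_jj RB w h ha jx) (Relation.EqvGen.trans _ _ _
        (Relation.EqvGen.rel _ _ h2) (g2_jj RB w h jy hb))
  | refl x => exact ⟨Iff.rfl, fun a b ha hb => g2_jj RB w h ha hb⟩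
  | symm x y _ ih => exact ⟨ih.1.symm, fun a b ha hb => Relation.EqvGen.symm _ _ (ih.2 b a hb ha)⟩
  | trans x y z _ _ ih1 ih2 =>
    refine ⟨ih1.1.trans ih2.1, fun a c ha hc => ?_⟩
    obtain ⟨b, hb⟩ := ih1.1.1 ⟨a, ha⟩
    exact Relation.EqvGen.trans _ _ _ (ih1.2 a b ha hb) (ih2.2 b c hb hc)

/-- a class of `RA` without linked points is a class of the glued relation -/
private theorem g2_cls {RA : A → A → Prop} (RB : B → B → Prop) {u : ι → A} (w : ι → B) {a : A}
    (ha : ∀ i, ¬ Relation.EqvGen RA a (u i)) {z : A ⊕ B}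
    (h : Relation.EqvGen (glu RA RB u w) (Sum.inl a) z) : ∃ b, z = Sum.inl b ∧ Relation.EqvGen RA a b := by
  have key : ∀ x y, Relation.EqvGen (glu RA RB u w) x y → ((∃ b, x = Sum.inl b ∧ Relation.EqvGen RA a b) ↔
      ∃ b, y = Sum.inl b ∧ Relation.EqvGen RA a b) := by
    intro x y hxy
    induction hxy with
    | rel x y h1 =>
      rcases x with x | x <;> rcases y with y | y
      · have h2 : Relation.EqvGen RA x y := Relation.EqvGen.rel _ _ h1
        constructor
        · rintro ⟨b, h3, h4⟩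
          cases h3
          exact ⟨y, rfl, Relation.EqvGen.trans _ _ _ h4 h2⟩
        · rintro ⟨b, h3, h4⟩
          cases h3
          exact ⟨x, rfl, Relation.EqvGen.trans _ _ _ h4 (Relation.EqvGen.symm _ _ h2)⟩
      · obtain ⟨i, rfl, rfl⟩ := h1
        constructor
        · rintro ⟨b, h3, h4⟩
          cases h3
          exact absurd h4 (ha i)
        · rintro ⟨b, h3, -⟩
          cases h3
      · exact h1.elim
      · constructor
        · rintro ⟨b, h3, -⟩
          cases h3
        · rintro ⟨b, h3, -⟩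
          cases h3
    | refl x => exact Iff.rfl
    | symm x y _ ih => exact ih.symm
    | trans x y z _ _ ih1 ih2 => exact ih1.trans ih2
  exact (key _ _ h).1 ⟨a, rfl, Relation.EqvGen.refl _⟩

private theorem g2_mk {C : Type} (S : C → C → Prop) (x y : C) : Quot.mk S x = Quot.mk S y ↔ Relation.EqvGen S x y :=
  ⟨fun h => Quot.eqvGen_exact h, fun h => Quot.eqvGen_sound h⟩

private theorem g2_range {C D E : Type} (f : C → D) (g : C → E) (h : ∀ x y, f x = f y ↔ g x = g y) :
    Nat.card (Set.range f) = Nat.card (Set.range g) := by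
  have h1 : Setoid.ker f = Setoid.ker g := by
    ext x y
    rw [Setoid.ker_def, Setoid.ker_def]
    exact h x y
  rw [Nat.card_congr (Setoid.quotientKerEquivRange f).symm, Nat.card_congr (Setoid.quotientKerEquivRange g).symm, h1]

private theorem g2_card [Finite A] [Finite B] (RA : A → A → Prop) (RB : B → B → Prop) (u : ι → A) (w : ι → B) :
    Nat.card (Quot (glu RA RB u w)) =
      Nat.card (Set.range fun v : B ⊕ ι => Quot.mk (glu RA RB u w) (ptg u v)) + cloG RA u := by
  set f : B ⊕ ι → Quot (glu RA RB u w) := fun v => Quot.mk (glu RA RB u w) (ptg u v) with hf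
  have h1 : Nat.card (Quot (glu RA RB u w)) = Nat.card (Set.range f) +
      Nat.card ((Set.range f)ᶜ : Set (Quot (glu RA RB u w))) := by
    rw [← Nat.card_sum]
    exact Nat.card_congr (Equiv.Set.sumCompl (Set.range f)).symm
  rw [h1]
  congr 1
  unfold cloG
  symm
  obtain ⟨g, hg⟩ : ∃ g : Quot RA → Quot (glu RA RB u w), ∀ x, g (Quot.mk RA x) = Quot.mk _ (Sum.inl x) :=
    ⟨Quot.map (fun x => (Sum.inl x : A ⊕ B)) (fun _ _ h2 => h2), fun x => rfl⟩
  have hno : ∀ x : A, (∀ i, Quot.mk RA (u i) ≠ Quot.mk RA x) → ∀ i, ¬ Relation.EqvGen RA x (u i) := by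
    intro x hx i h2
    exact hx i ((g2_mk RA _ _).2 (Relation.EqvGen.symm _ _ h2))
  have hin : ∀ c : {c : Quot RA // ∀ i, Quot.mk RA (u i) ≠ c}, g c.1 ∈ (Set.range f)ᶜ := by
    rintro ⟨c, hc⟩
    obtain ⟨x, rfl⟩ := Quot.exists_rep c
    rintro ⟨v, hv⟩
    have h2 : f v = Quot.mk _ (Sum.inl x) := hv.trans (hg x)
    rw [hf] at h2
    obtain ⟨b, h3, h4⟩ := g2_cls RB w (hno x hc) (Relation.EqvGen.symm _ _ ((g2_mk _ _ _).1 h2))
    rcases v with y | i
    · cases h3
    · cases h3
      exact hno x hc i h4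
  refine Nat.card_congr (Equiv.ofBijective (fun c => ⟨g c.1, hin c⟩) ⟨?_, ?_⟩)
  · rintro ⟨c, hc⟩ ⟨d, hd⟩ h2
    obtain ⟨x, rfl⟩ := Quot.exists_rep c
    obtain ⟨y, rfl⟩ := Quot.exists_rep d
    have h3 : g (Quot.mk RA x) = g (Quot.mk RA y) := congrArg Subtype.val h2
    rw [hg, hg, g2_mk] at h3
    obtain ⟨b, h4, h5⟩ := g2_cls RB w (hno x hc) h3
    cases h4
    exact Subtype.ext ((g2_mk RA _ _).2 h5)
  · rintro ⟨c, hc⟩
    obtain ⟨z, rfl⟩ := Quot.exists_rep c
    rcases z with x | y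
    · refine ⟨⟨Quot.mk RA x, fun i h2 => hc ⟨Sum.inr i, ?_⟩⟩, Subtype.ext (hg x)⟩
      exact (g2_mk _ _ _).2 (g2_inl RB u w ((g2_mk RA _ _).1 h2))
    · exact absurd ⟨Sum.inl y, rfl⟩ hc

theorem glue2_iff (RA : A → A → Prop) (RA' : A' → A' → Prop) (RB : B → B → Prop) (u : ι → A) (u' : ι → A') (w : ι → B)
    (h : ∀ i j, Relation.EqvGen RA (u i) (u j) ↔ Relation.EqvGen RA' (u' i) (u' j)) (x y : B) :
    Relation.EqvGen (glu RA RB u w) (Sum.inr x) (Sum.inr y) ↔
      Relation.EqvGen (glu RA' RB u' w) (Sum.inr x) (Sum.inr y) := by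
  constructor
  · intro h1
    exact (g2_key RB w h h1).2 (Sum.inl x) (Sum.inl y) rfl rfl
  · intro h1
    exact (g2_key RB w (fun i j => (h i j).symm) h1).2 (Sum.inl x) (Sum.inl y) rfl rfl

theorem glue2_card [Finite A] [Finite A'] [Finite B] (RA : A → A → Prop) (RA' : A' → A' → Prop) (RB : B → B → Prop)
    (u : ι → A) (u' : ι → A') (w : ι → B)
    (h : ∀ i j, Relation.EqvGen RA (u i) (u j) ↔ Relation.EqvGen RA' (u' i) (u' j)) :
    Nat.card (Quot (glu RA RB u w)) + cloG RA' u' = Nat.card (Quot (glu RA' RB u' w)) + cloG RA u := by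
  rw [g2_card RA RB u w, g2_card RA' RB u' w]
  have h1 : Nat.card (Set.range fun v : B ⊕ ι => Quot.mk (glu RA RB u w) (ptg u v)) =
      Nat.card (Set.range fun v : B ⊕ ι => Quot.mk (glu RA' RB u' w) (ptg u' v)) := by
    refine g2_range _ _ fun v v' => ?_
    rw [g2_mk, g2_mk]
    constructor
    · intro h2
      exact (g2_key RB w h h2).2 v v' (g2_self RA u v) (g2_self RA u v')
    · intro h2
      exact (g2_key RB w (fun i j => (h i j).symm) h2).2 v v' (g2_self RA' u' v) (g2_self RA' u' v')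
  omega

/-- inner points which are related in the glued relation but not in the inner relation are both related to linked points -/
theorem glue2_in (RA : A → A → Prop) (RB : B → B → Prop) (u : ι → A) (w : ι → B) (x y : A)
    (h : Relation.EqvGen (glu RA RB u w) (Sum.inl x) (Sum.inl y)) :
    Relation.EqvGen RA x y ∨ ((∃ i, Relation.EqvGen RA x (u i)) ∧ ∃ j, Relation.EqvGen RA y (u j)) := by
  by_cases hx : ∃ i, Relation.EqvGen RA x (u i)
  · obtain ⟨i, hi⟩ := hx
    obtain ⟨b, j, -, hj⟩ := (g2_key RB (u' := u) w (fun i j => Iff.rfl) h).1.1 ⟨Sum.inr i, i, rfl, hi⟩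
    exact Or.inr ⟨⟨i, hi⟩, j, hj⟩
  · obtain ⟨b, h1, h2⟩ := g2_cls RB w (not_exists.1 hx) h
    cases h1
    exact Or.inl h2

/-- an inner point related to an outer point is related inside to a linked point -/
theorem glue2_out (RA : A → A → Prop) (RB : B → B → Prop) (u : ι → A) (w : ι → B) (x : A) (y : B)
    (h : Relation.EqvGen (glu RA RB u w) (Sum.inl x) (Sum.inr y)) : ∃ i, Relation.EqvGen RA x (u i) := by
  obtain ⟨b, i, -, hi⟩ := (g2_key RB (u' := u) w (fun i j => Iff.rfl) h).1.2 ⟨Sum.inl y, rfl⟩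
  exact ⟨i, hi⟩

end Pool.Agent.FGT
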