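import Pool.Agent.FGT.RdDef
import Pool.Agent.FGT.Glue2
import Pool.Agent.FGT.ExC

/-!
# FGT-RdF: exchanging parts of maps of two graphs: orientability

As `exch_ori` in `ExC`, without connectedness; the outside flags of the two graphs correspond to each other by their values.
-/

set_option autoImplicit false

open Finset
open scoped Classical

namespace Pool.Agent.FGT

open Pool.Agent.Helper35.OG (Flag GMap across side)
open Pool.Agent.BEO (F2 ed rp cyc ev bdF nb)
open Pool.Agent.BEO (frm)
open Pool.Agent.BEO (ed_across)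
open Pool.Agent.Helper35.OG (eqvGen_eq side_side across_across)

variable {V : Type} {G G' : SimpleGraph V}

private theorem ec_map {α β : Type} {r : α → α → Prop} {s : β → β → Prop} (f : α → β)
    (h : ∀ x y, r x y → Relation.EqvGen s (f x) (f y)) {x y : α} (hxy : Relation.EqvGen r x y) :
    Relation.EqvGen s (f x) (f y) := by
  induction hxy with
  | rel x y h1 => exact h x y h1
  | refl x => exact Relation.EqvGen.refl _
  | symm x y _ ih => exact Relation.EqvGen.symm _ _ ih
  | trans x y z _ _ ih1 ih2 => exact Relation.EqvGen.trans _ _ _ ih1 ih2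

private theorem z2_ne {a b : ZMod 2} (h : a ≠ b) : a = b + 1 := by
  revert a b; decide

private theorem flip_M {M : GMap G} {x y : Flag G × Bool} (h : Relation.EqvGen (rM M) x y) :
    Relation.EqvGen (rM M) (x.1, !x.2) (y.1, !y.2) := by
  refine ec_map (fun x : Flag G × Bool => (x.1, !x.2)) ?_ h
  rintro x y h
  refine Relation.EqvGen.rel _ _ ?_
  rcases h with h | h | h
  · rw [h]
    exact Or.inl rfl
  · rw [h]
    exact Or.inr (Or.inl rfl)
  · rw [h]
    exact Or.inr (Or.inr rfl)

private theorem lift_M {M : GMap G} {x y : Flag G}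
    (h : Relation.EqvGen (fun x y => y = M.nxt x ∨ y = side x ∨ y = across x) x y) :
    ∀ a, ∃ b, Relation.EqvGen (rM M) (x, a) (y, b) := by
  induction h with
  | rel x y h =>
    intro a
    refine ⟨!a, Relation.EqvGen.rel _ _ ?_⟩
    rcases h with h | h | h
    · rw [h]
      exact Or.inl rfl
    · rw [h]
      exact Or.inr (Or.inl rfl)
    · rw [h]
      exact Or.inr (Or.inr rfl)
  | refl x => exact fun a => ⟨a, Relation.EqvGen.refl _⟩
  | symm x y _ ih =>
    intro a
    obtain ⟨b, hb⟩ := ih false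
    by_cases hba : b = a
    · rw [hba] at hb
      exact ⟨false, Relation.EqvGen.symm _ _ hb⟩
    · have h1 := flip_M hb
      have h2 : (!b) = a := by
        cases a <;> cases b <;> simp at hba ⊢
      refine ⟨true, Relation.EqvGen.symm _ _ ?_⟩
      rw [← h2]
      exact h1
  | trans x y z _ _ ih1 ih2 =>
    intro a
    obtain ⟨b, hb⟩ := ih1 a
    obtain ⟨c, hc⟩ := ih2 b
    exact ⟨c, Relation.EqvGen.trans _ _ _ hb hc⟩

theorem ori_all [Finite V] (M : GMap G) : M.Orientable ↔ ∀ p, ¬ Relation.EqvGen (rM M) (p, false) (p, true) := by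
  constructor
  · rintro ⟨κ, hκ, hκT⟩ p0 hR
    have hstep : ∀ (p q : Flag G) (b : Bool), κ q ≠ κ p →
        κ p + (if b then (1 : ZMod 2) else 0) = κ q + if (!b) then (1 : ZMod 2) else 0 := by
      intro p q b hpq
      rw [z2_ne hpq]
      have h2 : (1 : ZMod 2) + 1 = 0 := by decide
      cases b
      · simp [add_assoc, h2]
      · simp
    have := eqvGen_eq (fun x : Flag G × Bool => κ x.1 + if x.2 then (1 : ZMod 2) else 0)
      (r := rM M) ?_ hR
    · simp at this
    · rintro ⟨p, b⟩ ⟨q, b'⟩ hxy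
      unfold rM at hxy
      simp only [Prod.mk.injEq] at hxy
      show κ p + _ = κ q + if b' then (1 : ZMod 2) else 0
      rcases hxy with ⟨h1, h2⟩ | ⟨h1, h2⟩ | ⟨h1, h2⟩
      · rw [h2]
        refine hstep p q b ?_
        rw [h1]
        exact hκT p
      · rw [h2]
        refine hstep p q b ?_
        rw [h1]
        exact (hκ p).2
      · rw [h2]
        refine hstep p q b ?_
        rw [h1]
        exact (hκ p).1
  · intro hne
    obtain ⟨rep, hrep1, hrep2⟩ : ∃ rep : Flag G → Flag G,
        (∀ p, Relation.EqvGen (fun x y => y = M.nxt x ∨ y = side x ∨ y = across x) (rep p) p) ∧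
        ∀ p q, (q = M.nxt p ∨ q = side p ∨ q = across p) → rep q = rep p := by
      refine ⟨fun p => (Quot.mk (fun x y : Flag G => y = M.nxt x ∨ y = side x ∨ y = across x) p).out, fun p => ?_,
        fun p q h => ?_⟩
      · exact Quot.eqvGen_exact (Quot.out_eq _)
      · have h1 : Quot.mk (fun x y : Flag G => y = M.nxt x ∨ y = side x ∨ y = across x) q =
            Quot.mk (fun x y : Flag G => y = M.nxt x ∨ y = side x ∨ y = across x) p :=
          (Quot.sound (r := fun x y : Flag G => y = M.nxt x ∨ y = side x ∨ y = across x) h).symm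
        show (Quot.mk _ q).out = (Quot.mk _ p).out
        rw [h1]
    have hex : ∀ p, ∃ b, Relation.EqvGen (rM M) (rep p, false) (p, b) := fun p => lift_M (hrep1 p) false
    have hnb : ∀ p, ¬ (Relation.EqvGen (rM M) (rep p, false) (p, false) ∧
        Relation.EqvGen (rM M) (rep p, false) (p, true)) := fun p hp =>
      hne p (Relation.EqvGen.trans _ _ _ (Relation.EqvGen.symm _ _ hp.1) hp.2)
    have key : ∀ p q, (q = M.nxt p ∨ q = side p ∨ q = across p) →
        (if Relation.EqvGen (rM M) (rep q, false) (q, false) then (0 : ZMod 2) else 1) ≠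
          if Relation.EqvGen (rM M) (rep p, false) (p, false) then (0 : ZMod 2) else 1 := by
      intro p q hpq
      have hstep : ∀ b, Relation.EqvGen (rM M) (rep p, false) (p, b) →
          Relation.EqvGen (rM M) (rep q, false) (q, !b) := by
        intro b hb
        rw [hrep2 p q hpq]
        refine Relation.EqvGen.trans _ _ _ hb (Relation.EqvGen.rel _ _ ?_)
        rcases hpq with h | h | h
        · rw [h]
          exact Or.inl rfl
        · rw [h]
          exact Or.inr (Or.inl rfl)
        · rw [h]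
          exact Or.inr (Or.inr rfl)
      by_cases hp : Relation.EqvGen (rM M) (rep p, false) (p, false)
      · have hq := hstep _ hp
        have hq' : ¬ Relation.EqvGen (rM M) (rep q, false) (q, false) := fun h => hnb q ⟨h, hq⟩
        rw [if_pos hp, if_neg hq']
        decide
      · have hp' : Relation.EqvGen (rM M) (rep p, false) (p, true) := by
          obtain ⟨b, hb⟩ := hex p
          cases b
          · exact absurd hb hp
          · exact hb
        have hq : Relation.EqvGen (rM M) (rep q, false) (q, false) := hstep _ hp'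
        rw [if_neg hp, if_pos hq]
        decide
    refine ⟨fun p => if Relation.EqvGen (rM M) (rep p, false) (p, false) then 0 else 1, ?_, ?_⟩
    · intro p
      exact ⟨key _ _ (Or.inr (Or.inr rfl)), key _ _ (Or.inr (Or.inl rfl))⟩
    · intro p
      exact key _ _ (Or.inl rfl)

private theorem part_pos {D : Finset G.edgeSet} {N : GMap G} {p : Flag G} (h1 : ed p ∈ D) (h2 : ed (N.nxt p) ∈ D) :
    part D N p = N.nxt p := if_pos ⟨h1, h2⟩

private theorem part_or (D : Finset G.edgeSet) (N : GMap G) (p : Flag G) : part D N p = N.nxt p ∨ part D N p = p := by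
  by_cases h : ed p ∈ D ∧ ed (N.nxt p) ∈ D
  · exact Or.inl (if_pos h)
  · exact Or.inr (if_neg h)

/-- the relation of the coloured flags inside -/
private def RAc (D : Finset G.edgeSet) (L : Flag G → Flag G) (x y : {p : Flag G // ed p ∈ D} × Bool) : Prop :=
  rC D L (x.1.1, x.2) (y.1.1, y.2)

/-- the relation of the coloured flags outside -/
private def RBc (D : Finset G.edgeSet) (N : GMap G) (x y : {p : Flag G // ¬ ed p ∈ D} × Bool) : Prop :=
  (y.1.1 = N.nxt x.1.1 ∨ y.1.1 = side x.1.1 ∨ y.1.1 = across x.1.1) ∧ y.2 = !x.2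

/-- from the two parts to the coloured flags -/
private def toF (D : Finset G.edgeSet) : ({p : Flag G // ed p ∈ D} × Bool) ⊕ ({p : Flag G // ¬ ed p ∈ D} × Bool) →
    Flag G × Bool
  | Sum.inl x => (x.1.1, x.2)
  | Sum.inr x => (x.1.1, x.2)

/-- from the coloured flags to the two parts -/
private noncomputable def toS (D : Finset G.edgeSet) (x : Flag G × Bool) :
    ({p : Flag G // ed p ∈ D} × Bool) ⊕ ({p : Flag G // ¬ ed p ∈ D} × Bool) :=
  if h : ed x.1 ∈ D then Sum.inl (⟨x.1, h⟩, x.2) else Sum.inr (⟨x.1, h⟩, x.2)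

private theorem toS_pos {D : Finset G.edgeSet} {x : Flag G × Bool} (h : ed x.1 ∈ D) :
    toS D x = Sum.inl (⟨x.1, h⟩, x.2) := dif_pos h

private theorem toS_neg {D : Finset G.edgeSet} {x : Flag G × Bool} (h : ¬ ed x.1 ∈ D) :
    toS D x = Sum.inr (⟨x.1, h⟩, x.2) := dif_neg h

private theorem glu_rM (D : Finset G.edgeSet) (N : GMap G) {ι : Type} (u : ι → {p : Flag G // ed p ∈ D})
    (w : ι → {p : Flag G // ¬ ed p ∈ D}) (hu : ∀ i, N.nxt (u i).1 = (w i).1)
    {x y : ({p : Flag G // ed p ∈ D} × Bool) ⊕ ({p : Flag G // ¬ ed p ∈ D} × Bool)}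
    (h : Relation.EqvGen (glu (RAc D (part D N)) (RBc D N) (fun i : ι × Bool => (u i.1, i.2))
      (fun i : ι × Bool => (w i.1, !i.2))) x y) : Relation.EqvGen (rM N) (toF D x) (toF D y) := by
  refine ec_map (toF D) ?_ h
  rintro (x | x) (y | y) h
  · obtain ⟨hx, h⟩ := h
    show Relation.EqvGen _ (x.1.1, x.2) (y.1.1, y.2)
    rcases h with ⟨h4, h5⟩ | h5 | h5
    · rcases part_or D N x.1.1 with h6 | h6
      · rw [h5]
        refine Relation.EqvGen.rel _ _ (Or.inl ?_)
        show (part D N x.1.1, !x.2) = (N.nxt x.1.1, !x.2)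
        rw [h6]
      · exact absurd h6 h4
    · exact Relation.EqvGen.rel _ _ (Or.inr (Or.inl h5))
    · exact Relation.EqvGen.rel _ _ (Or.inr (Or.inr h5))
  · obtain ⟨i, rfl, rfl⟩ := h
    show Relation.EqvGen _ ((u i.1).1, i.2) ((w i.1).1, !i.2)
    refine Relation.EqvGen.rel _ _ (Or.inl ?_)
    show ((w i.1).1, !i.2) = (N.nxt (u i.1).1, !i.2)
    rw [hu]
  · exact h.elim
  · show Relation.EqvGen _ (x.1.1, x.2) (y.1.1, y.2)
    obtain ⟨h4, h5⟩ := h
    rw [h5]
    rcases h4 with h4 | h4 | h4
    · rw [h4]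
      exact Relation.EqvGen.rel _ _ (Or.inl rfl)
    · rw [h4]
      exact Relation.EqvGen.rel _ _ (Or.inr (Or.inl rfl))
    · rw [h4]
      exact Relation.EqvGen.rel _ _ (Or.inr (Or.inr rfl))

private theorem rM_glu (D : Finset G.edgeSet) (N : GMap G) {ι : Type} (u : ι → {p : Flag G // ed p ∈ D})
    (w : ι → {p : Flag G // ¬ ed p ∈ D}) (hu : ∀ i, N.nxt (u i).1 = (w i).1)
    (hsu : ∀ p, ed p ∈ D → ed (N.nxt p) ∉ D → ∃ i, (u i).1 = p) {x y : Flag G × Bool}
    (h : Relation.EqvGen (rM N) x y) :
    Relation.EqvGen (glu (RAc D (part D N)) (RBc D N) (fun i : ι × Bool => (u i.1, i.2))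
      (fun i : ι × Bool => (w i.1, !i.2))) (toS D x) (toS D y) := by
  refine ec_map (toS D) ?_ h
  rintro ⟨x, a⟩ ⟨y, b⟩ h
  have hb : b = !a := by
    rcases h with h | h | h
    · exact congrArg Prod.snd h
    · exact congrArg Prod.snd h
    · exact congrArg Prod.snd h
  have hy : y = N.nxt x ∨ y = side x ∨ y = across x := by
    rcases h with h | h | h
    · exact Or.inl (congrArg Prod.fst h)
    · exact Or.inr (Or.inl (congrArg Prod.fst h))
    · exact Or.inr (Or.inr (congrArg Prod.fst h))
  clear h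
  subst hb
  by_cases hxD : ed x ∈ D
  · rw [toS_pos (D := D) (x := (x, a)) hxD]
    by_cases hyD : ed y ∈ D
    · rw [toS_pos (D := D) (x := (y, !a)) hyD]
      refine Relation.EqvGen.rel _ _ ?_
      show rC D (part D N) (x, a) (y, !a)
      refine ⟨hxD, ?_⟩
      rcases hy with h | h | h
      · left
        have e1 : part D N x = N.nxt x := part_pos hxD (by rw [← h]; exact hyD)
        refine ⟨?_, ?_⟩
        · show part D N x ≠ x
          rw [e1]
          exact N.nxt_ne x
        · show (y, !a) = (part D N x, !a)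
          rw [e1, h]
      · right; left
        rw [h]
      · right; right
        rw [h]
    · rw [toS_neg (D := D) (x := (y, !a)) hyD]
      refine Relation.EqvGen.rel _ _ ?_
      rcases hy with h | h | h
      · obtain ⟨i, hi⟩ := hsu x hxD (by rw [← h]; exact hyD)
        refine ⟨(i, a), ?_, ?_⟩
        · exact Prod.ext (Subtype.ext hi) rfl
        · refine Prod.ext (Subtype.ext ?_) rfl
          show (w i).1 = y
          rw [← hu i, hi, h]
      · exact absurd (by rw [h]; exact hxD) hyD
      · exact absurd (by rw [h, ed_across]; exact hxD) hyD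
  · rw [toS_neg (D := D) (x := (x, a)) hxD]
    by_cases hyD : ed y ∈ D
    · rw [toS_pos (D := D) (x := (y, !a)) hyD]
      refine Relation.EqvGen.symm _ _ (Relation.EqvGen.rel _ _ ?_)
      rcases hy with h | h | h
      · have h' : N.nxt y = x := by rw [h, N.nxt_nxt]
        obtain ⟨i, hi⟩ := hsu y hyD (by rw [h']; exact hxD)
        refine ⟨(i, !a), ?_, ?_⟩
        · exact Prod.ext (Subtype.ext hi) rfl
        · refine Prod.ext (Subtype.ext ?_) (Bool.not_not a)
          show (w i).1 = x
          rw [← hu i, hi, h']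
      · exact absurd (by rw [h] at hyD; exact hyD) hxD
      · exact absurd (by rw [h, ed_across] at hyD; exact hyD) hxD
    · rw [toS_neg (D := D) (x := (y, !a)) hyD]
      exact Relation.EqvGen.rel _ _ ⟨hy, rfl⟩

private theorem key_c {D : Finset G.edgeSet} {L : Flag G → Flag G} (hL : OMap D L) {x y : Flag G × Bool}
    (h : Relation.EqvGen (rC D L) x y) : (ed x.1 ∈ D ↔ ed y.1 ∈ D) ∧ ∀ (hx : ed x.1 ∈ D) (hy : ed y.1 ∈ D),
      Relation.EqvGen (RAc D L) (⟨x.1, hx⟩, x.2) (⟨y.1, hy⟩, y.2) := by
  induction h with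
  | rel x y h1 =>
    have h2 : ed y.1 ∈ D := by
      rcases h1.2 with h2 | h2 | h2
      · rw [h2.2]
        exact hL.mem x.1 h1.1
      · rw [h2]
        exact h1.1
      · rw [h2]
        show ed (across x.1) ∈ D
        rw [ed_across]
        exact h1.1
    exact ⟨⟨fun _ => h2, fun _ => h1.1⟩, fun hx hy => Relation.EqvGen.rel _ _ h1⟩
  | refl x => exact ⟨Iff.rfl, fun _ _ => Relation.EqvGen.refl _⟩
  | symm x y _ ih => exact ⟨ih.1.symm, fun hx hy => Relation.EqvGen.symm _ _ (ih.2 hy hx)⟩
  | trans x y z _ _ ih1 ih2 =>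
    exact ⟨ih1.1.trans ih2.1, fun hx hz => Relation.EqvGen.trans _ _ _ (ih1.2 hx (ih1.1.1 hx)) (ih2.2 (ih1.1.1 hx) hz)⟩

private theorem iff_c {D : Finset G.edgeSet} {L : Flag G → Flag G} (hL : OMap D L)
    (x y : {p : Flag G // ed p ∈ D} × Bool) :
    Relation.EqvGen (RAc D L) x y ↔ Relation.EqvGen (rC D L) (x.1.1, x.2) (y.1.1, y.2) :=
  ⟨fun h => ec_map (fun x : {p : Flag G // ed p ∈ D} × Bool => (x.1.1, x.2))
    (fun _ _ h1 => Relation.EqvGen.rel _ _ h1) h, fun h => (key_c hL h).2 x.1.2 y.1.2⟩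

/-- changing the colours -/
private theorem flip_c {D : Finset G.edgeSet} {L : Flag G → Flag G} {x y : Flag G × Bool}
    (h : Relation.EqvGen (rC D L) x y) : Relation.EqvGen (rC D L) (x.1, !x.2) (y.1, !y.2) := by
  refine ec_map (fun x : Flag G × Bool => (x.1, !x.2)) ?_ h
  rintro x y ⟨h1, h2⟩
  refine Relation.EqvGen.rel _ _ ⟨h1, ?_⟩
  rcases h2 with ⟨h2, h3⟩ | h3 | h3
  · rw [h3]
    exact Or.inl ⟨h2, rfl⟩
  · rw [h3]
    exact Or.inr (Or.inl rfl)
  · rw [h3]
    exact Or.inr (Or.inr rfl)

private theorem same_c {D : Finset G.edgeSet} {D' : Finset G'.edgeSet} {L : Flag G → Flag G}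
    {L' : Flag G' → Flag G'} {θ : Flag G → Flag G'} (hs : SameX D L D' L' θ) {p q : Flag G}
    (hp : Um D L p) (hq : Um D L q) (a b : Bool) :
    Relation.EqvGen (rC D L) (p, a) (q, b) ↔ Relation.EqvGen (rC D' L') (θ p, a) (θ q, b) := by
  cases a
  · exact hs.c p q hp hq b
  · constructor
    · intro h
      have h1 := (hs.c p q hp hq (!b)).1 (flip_c h)
      have h2 := flip_c h1
      rw [Bool.not_not] at h2
      exact h2
    · intro h
      have h1 := (hs.c p q hp hq (!b)).2 (flip_c h)
      have h2 := flip_c h1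
      rw [Bool.not_not] at h2
      exact h2

private theorem fv_inj {p q : Flag G} (h : fv p = fv q) : p = q := by
  rcases p with ⟨⟨x, hx⟩, s⟩
  rcases q with ⟨⟨y, hy⟩, t⟩
  have h1 : x = y := congrArg Prod.fst h
  have h2 : s = t := congrArg Prod.snd h
  subst h1 h2
  rfl

private theorem tr_ex {A : Finset G.edgeSet} {A' : Finset G'.edgeSet} (hO : Out A A') (p : Flag G) (hp : ¬ ed p ∈ A) :
    ∃ p' : Flag G', fv p' = fv p ∧ ¬ ed p' ∈ A' := by
  obtain ⟨f, hf, hfA⟩ := (hO (ed p).1).1 ⟨ed p, rfl, hp⟩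
  have hadj : G'.Adj p.1.fst p.1.snd := by
    have h1 := f.2
    rw [hf] at h1
    exact h1
  refine ⟨(⟨p.1.toProd, hadj⟩, p.2), rfl, ?_⟩
  have h2 : (ed ((⟨p.1.toProd, hadj⟩, p.2) : Flag G') : G'.edgeSet) = f := by
    apply Subtype.ext
    rw [hf]
    rfl
  rw [h2]
  exact hfA

private theorem out_symm {A : Finset G.edgeSet} {A' : Finset G'.edgeSet} (hO : Out A A') : Out A' A :=
  fun e => (hO e).symm

/-- the outside flags of the two graphs correspond to each other -/
private noncomputable def eps {A : Finset G.edgeSet} {A' : Finset G'.edgeSet} (hO : Out A A') :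
    {p : Flag G // ¬ ed p ∈ A} ≃ {p : Flag G' // ¬ ed p ∈ A'} where
  toFun x := ⟨Classical.choose (tr_ex hO x.1 x.2), (Classical.choose_spec (tr_ex hO x.1 x.2)).2⟩
  invFun y := ⟨Classical.choose (tr_ex (out_symm hO) y.1 y.2), (Classical.choose_spec (tr_ex (out_symm hO) y.1 y.2)).2⟩
  left_inv x := by
    apply Subtype.ext
    apply fv_inj
    have h1 := (Classical.choose_spec (tr_ex hO x.1 x.2)).1
    exact (Classical.choose_spec (tr_ex (out_symm hO) (Classical.choose (tr_ex hO x.1 x.2))
      (Classical.choose_spec (tr_ex hO x.1 x.2)).2)).1.trans h1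
  right_inv y := by
    apply Subtype.ext
    apply fv_inj
    have h1 := (Classical.choose_spec (tr_ex (out_symm hO) y.1 y.2)).1
    exact (Classical.choose_spec (tr_ex hO (Classical.choose (tr_ex (out_symm hO) y.1 y.2))
      (Classical.choose_spec (tr_ex (out_symm hO) y.1 y.2)).2)).1.trans h1

private theorem eps_fv {A : Finset G.edgeSet} {A' : Finset G'.edgeSet} (hO : Out A A')
    (x : {p : Flag G // ¬ ed p ∈ A}) : fv (eps hO x).1 = fv x.1 :=
  (Classical.choose_spec (tr_ex hO x.1 x.2)).1

private theorem fv_across (p : Flag G) : fv (across p) = ((fv p).1.swap, !(fv p).2) := rfl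

private theorem fv_side (p : Flag G) : fv (side p) = ((fv p).1, !(fv p).2) := rfl

private theorem eps_across {A : Finset G.edgeSet} {A' : Finset G'.edgeSet} (hO : Out A A')
    (x y : {p : Flag G // ¬ ed p ∈ A}) : (eps hO y).1 = across (eps hO x).1 ↔ y.1 = across x.1 := by
  constructor
  · intro h
    apply fv_inj
    rw [← eps_fv hO y, h, fv_across, fv_across, eps_fv]
  · intro h
    apply fv_inj
    rw [eps_fv hO y, h, fv_across, fv_across, eps_fv]

/-- the part of the hypotheses which is used -/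
private theorem nx_out {A : Finset G.edgeSet} {A' : Finset G'.edgeSet} (hO : Out A A') {M : GMap G} {M' : GMap G'}
    {L' : Flag G' → Flag G'} {θ : Flag G → Flag G'} (hs : SameX A (part A M) A' L' θ) (h2 : OutC A M M')
    (h3 : ∀ p, Um A (part A M) p → fv (M'.nxt (θ p)) = fv (M.nxt p)) (x y : {p : Flag G // ¬ ed p ∈ A}) :
    (eps hO y).1 = M'.nxt (eps hO x).1 ↔ y.1 = M.nxt x.1 := by
  by_cases h : ed (M.nxt x.1) ∈ A
  · have hq : Um A (part A M) (M.nxt x.1) := (um_part A M _).2 ⟨h, by rw [M.nxt_nxt]; exact x.2⟩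
    have e1 := h3 _ hq
    rw [M.nxt_nxt, ← eps_fv hO x] at e1
    have e2 : M'.nxt (eps hO x).1 = θ (M.nxt x.1) := by
      rw [← fv_inj e1, M'.nxt_nxt]
    constructor
    · intro h4
      have h5 := (eps hO y).2
      rw [h4, e2] at h5
      exact absurd (hs.map _ hq).1 h5
    · intro h4
      have h5 := y.2
      rw [h4] at h5
      exact absurd h h5
  · have e1 := h2 x.1 (eps hO x).1 x.2 h (eps_fv hO x)
    constructor
    · intro h4
      apply fv_inj
      rw [← eps_fv hO y, h4, e1]
    · intro h4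
      apply fv_inj
      rw [eps_fv hO y, h4, e1]

private theorem eps_side {A : Finset G.edgeSet} {A' : Finset G'.edgeSet} (hO : Out A A')
    (x y : {p : Flag G // ¬ ed p ∈ A}) : (eps hO y).1 = side (eps hO x).1 ↔ y.1 = side x.1 := by
  constructor
  · intro h
    apply fv_inj
    rw [← eps_fv hO y, h, fv_side, fv_side, eps_fv]
  · intro h
    apply fv_inj
    rw [eps_fv hO y, h, fv_side, fv_side, eps_fv]

theorem xexch_ori [Finite V] (A : Finset G.edgeSet) (A' : Finset G'.edgeSet) (hO : Out A A') (M : GMap G) (M' : GMap G')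
    (L' : Flag G' → Flag G') (θ : Flag G → Flag G') (hL : OMap A' L') (hs : SameX A (part A M) A' L' θ)
    (h1 : ∀ p, part A' M' p = L' p) (h2 : OutC A M M')
    (h3 : ∀ p, Um A (part A M) p → fv (M'.nxt (θ p)) = fv (M.nxt p)) (hM : M.Orientable) : M'.Orientable := by
  have hL' : part A' M' = L' := funext h1
  rw [ori_all] at hM
  set ι : Type := {p : Flag G // Um A (part A M) p} with hι
  set u : ι → {p : Flag G // ed p ∈ A} := fun i => ⟨i.1, i.2.1⟩ with hu
  set u' : ι → {p : Flag G' // ed p ∈ A'} := fun i => ⟨θ i.1, (hs.map _ i.2).1⟩ with hu'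
  set w : ι → {p : Flag G // ¬ ed p ∈ A} := fun i => ⟨M.nxt i.1, ((um_part A M i.1).1 i.2).2⟩ with hw
  have hw' : ∀ i, M'.nxt (u' i).1 = (eps hO (w i)).1 := by
    intro i
    apply fv_inj
    rw [eps_fv]
    exact h3 i.1 i.2
  have hsu' : ∀ p, ed p ∈ A' → ed (M'.nxt p) ∉ A' → ∃ i, (u' i).1 = p := by
    intro p hp hp'
    have h4 : Um A' L' p := by
      rw [← hL']
      exact (um_part A' M' p).2 ⟨hp, hp'⟩
    obtain ⟨q, hq, e⟩ := hs.sur p h4
    exact ⟨⟨q, hq⟩, e⟩
  -- outside flags
  have hout : ∀ p' : Flag G', ¬ ed p' ∈ A' → ¬ Relation.EqvGen (rM M') (p', false) (p', true) := by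
    intro p' hp' hc
    have c2 := rM_glu A' M' u' (fun i => eps hO (w i)) hw' hsu' hc
    rw [toS_neg (D := A') (x := (p', false)) hp', toS_neg (D := A') (x := (p', true)) hp', hL'] at c2
    obtain ⟨x, hx⟩ := (eps hO).surjective ⟨p', hp'⟩
    have c3 : Relation.EqvGen (glu (RAc A' L') (RBc A M) (fun i : ι × Bool => (u' i.1, i.2))
        (fun i : ι × Bool => (w i.1, !i.2))) (Sum.inr (x, false)) (Sum.inr (x, true)) := by
      have c4 := ec_map (s := glu (RAc A' L') (RBc A M) (fun i : ι × Bool => (u' i.1, i.2))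
        (fun i : ι × Bool => (w i.1, !i.2))) (Sum.map id (Prod.map (eps hO).symm id)) (by
          rintro (a | a) (b | b) h
          · exact Relation.EqvGen.rel _ _ h
          · obtain ⟨i, h4, h5⟩ := h
            refine Relation.EqvGen.rel _ _ ⟨i, h4, ?_⟩
            rw [← h5]
            exact Prod.ext ((eps hO).symm_apply_apply _).symm rfl
          · exact h.elim
          · refine Relation.EqvGen.rel _ _ ?_
            obtain ⟨h4, h5⟩ := h
            refine ⟨?_, h5⟩
            show ((eps hO).symm b.1).1 = M.nxt ((eps hO).symm a.1).1 ∨ ((eps hO).symm b.1).1 = side ((eps hO).symm a.1).1 ∨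
              ((eps hO).symm b.1).1 = across ((eps hO).symm a.1).1
            have h6 := nx_out hO hs h2 h3 ((eps hO).symm a.1) ((eps hO).symm b.1)
            have h7 := eps_across hO ((eps hO).symm a.1) ((eps hO).symm b.1)
            have h8 := eps_side hO ((eps hO).symm a.1) ((eps hO).symm b.1)
            rw [(eps hO).apply_symm_apply, (eps hO).apply_symm_apply] at h6 h7 h8
            exact h4.imp h6.1 (Or.imp h8.1 h7.1)) c2
      have e1 : ∀ b : Bool, Sum.map (id : ({p : Flag G' // ed p ∈ A'} × Bool) → _) (Prod.map (eps hO).symm id)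
          (Sum.inr (⟨p', hp'⟩, b)) = Sum.inr (x, b) := by
        intro b
        show Sum.inr ((eps hO).symm ⟨p', hp'⟩, b) = Sum.inr (x, b)
        rw [← hx, (eps hO).symm_apply_apply]
      rw [e1, e1] at c4
      exact c4
    have c5 := (glue2_iff (RAc A (part A M)) (RAc A' L') (RBc A M) (fun i : ι × Bool => (u i.1, i.2))
      (fun i : ι × Bool => (u' i.1, i.2)) (fun i : ι × Bool => (w i.1, !i.2)) (fun i j => by
        rw [iff_c (omap_part A M), iff_c hL]
        exact same_c hs i.1.2 j.1.2 i.2 j.2) (x, false) (x, true)).2 c3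
    exact hM x.1 (glu_rM A M u w (fun i => rfl) c5)
  rw [ori_all]
  intro p' hc
  by_cases hp' : ed p' ∈ A'
  · have c2 := rM_glu A' M' u' (fun i => eps hO (w i)) hw' hsu' hc
    rw [toS_pos (D := A') (x := (p', false)) hp', toS_pos (D := A') (x := (p', true)) hp', hL'] at c2
    rcases glue2_in _ _ _ _ _ _ c2 with c3 | ⟨⟨⟨i, b⟩, c3⟩, -⟩
    · rw [iff_c hL] at c3
      obtain ⟨p, -, hp⟩ := hs.ni ⟨p', hp', c3⟩
      refine hM p (ec_map id ?_ hp)
      rintro x y ⟨-, h⟩
      change Relation.EqvGen (rM M) x y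
      rcases h with ⟨h4, h5⟩ | h5 | h5
      · rcases part_or A M x.1 with h6 | h6
        · rw [h6] at h5
          exact Relation.EqvGen.rel _ _ (Or.inl h5)
        · exact absurd h6 h4
      · exact Relation.EqvGen.rel _ _ (Or.inr (Or.inl h5))
      · exact Relation.EqvGen.rel _ _ (Or.inr (Or.inr h5))
    · rw [iff_c hL] at c3
      have c4 : Relation.EqvGen (rM M') (p', false) (θ i.1, b) := by
        refine ec_map id ?_ c3
        rintro x y ⟨-, h⟩
        change Relation.EqvGen (rM M') x y
        rcases h with ⟨h4, h5⟩ | h5 | h5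
        · rw [← h1] at h4 h5
          rcases part_or A' M' x.1 with h6 | h6
          · rw [h6] at h5
            exact Relation.EqvGen.rel _ _ (Or.inl h5)
          · exact absurd h6 h4
        · exact Relation.EqvGen.rel _ _ (Or.inr (Or.inl h5))
        · exact Relation.EqvGen.rel _ _ (Or.inr (Or.inr h5))
      have c5 : Relation.EqvGen (rM M') (p', false) (M'.nxt (θ i.1), !b) :=
        Relation.EqvGen.trans _ _ _ c4 (Relation.EqvGen.rel _ _ (Or.inl rfl))
      have c6 := flip_M c5
      have c7 : Relation.EqvGen (rM M') (M'.nxt (θ i.1), !b) (M'.nxt (θ i.1), !(!b)) :=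
        Relation.EqvGen.trans _ _ _ (Relation.EqvGen.symm _ _ c5) (Relation.EqvGen.trans _ _ _ hc c6)
      have hq : ¬ ed (M'.nxt (θ i.1)) ∈ A' := by
        have h5 := hw' i
        have h6 : M'.nxt (θ i.1) = (eps hO (w i)).1 := h5
        rw [h6]
        exact (eps hO (w i)).2
      refine hout _ hq ?_
      cases b
      · exact Relation.EqvGen.symm _ _ c7
      · exact c7
  · exact hout p' hp' hc

end Pool.Agent.FGT
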