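import Pool.Agent.FGT.TsI
import Pool.Agent.SCG.Gen

/-!
# FGT-TsJ: the result of the tables codes an optimal map
-/

set_option autoImplicit false

open Finset
open scoped Classical

namespace Pool.Agent.FGT

open Pool.Agent.Helper35.OG (Flag GMap across side)
open Pool.Agent.BEO (F2 ed rp cyc ev cod Codes ec look memb ddp comp cds Pt Ec Inp sd ac ek fl nb)
open Pool.Agent.SCG (edl nx bst bls)

variable {n : ℕ} {G : SimpleGraph (Fin n)} {S : GMap G} {l : Inp}

/-- there is an optimal map -/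
theorem exists_opt (hG : G.Connected) (hn : 2 ≤ n) (o : Bool) (S : GMap G) : ∃ M : GMap G, Opt o M := by
  have hnt : Nontrivial (Fin n) := Fin.nontrivial_iff_two_le.2 hn
  have hpos : ∀ M : GMap G, 0 ≤ M.eg := by
    intro M
    rw [← Pool.Agent.BEO.frm_rank hG M]
    exact Int.natCast_nonneg _
  have hex : ∃ k : ℕ, ∃ M : GMap G, (o = true → M.Orientable) ∧ M.eg = (k : ℤ) := by
    obtain ⟨lam, hlam⟩ := Pool.Agent.SCG.exists_ori hG S
    exact ⟨(Pool.Agent.BEO.twist S lam).eg.toNat, Pool.Agent.BEO.twist S lam, fun _ => hlam,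
      (Int.toNat_of_nonneg (hpos _)).symm⟩
  obtain ⟨M, h1, h2⟩ := Nat.find_spec hex
  refine ⟨M, h1, fun M' hM' => ?_⟩
  have h3 := Nat.find_min' hex ⟨M', hM', (Int.toNat_of_nonneg (hpos M')).symm⟩
  have h4 := hpos M'
  rw [h2]
  omega

private theorem tj_part (M : GMap G) : part (univ : Finset G.edgeSet) M = M.nxt := by
  funext p
  unfold part
  rw [if_pos ⟨mem_univ _, mem_univ _⟩]

private theorem tj_clo [Fintype G.edgeSet] (M : GMap G) : clo (univ : Finset G.edgeSet) M.nxt = Nat.card M.Face := by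
  have hr : rF (univ : Finset G.edgeSet) M.nxt = fun p q : Flag G => q = M.nxt p ∨ q = across p := by
    funext p q
    unfold rF
    exact propext ⟨fun h => h.2, fun h => ⟨mem_univ _, h⟩⟩
  unfold clo GMap.Face
  rw [hr]
  refine Nat.card_congr (Equiv.subtypeUnivEquiv ?_)
  intro c
  constructor
  · obtain ⟨p, hp⟩ := Quot.exists_rep c
    exact ⟨p, hp, mem_univ _⟩
  · intro q hq
    exact absurd hq.2 (M.nxt_ne q)

private theorem tj_dc (h : Codes S l) : DCodes (univ : Finset G.edgeSet) (edl l) := by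
  intro y
  rw [← dl_univ h]
  exact mem_dl h _ y

private theorem tj_rC (M : GMap G) : rC (univ : Finset G.edgeSet) M.nxt = rM M := by
  funext x y
  unfold rC rM
  refine propext ⟨?_, ?_⟩
  · rintro ⟨-, ⟨-, h⟩ | h | h⟩
    · exact Or.inl h
    · exact Or.inr (Or.inl h)
    · exact Or.inr (Or.inr h)
  · rintro (h | h | h)
    · exact ⟨mem_univ _, Or.inl ⟨M.nxt_ne _, h⟩⟩
    · exact ⟨mem_univ _, Or.inr (Or.inl h)⟩
    · exact ⟨mem_univ _, Or.inr (Or.inr h)⟩

private theorem tj_ori (h : Codes S l) (hG : G.Connected) (hn : 2 ≤ n) (M : GMap G) (x : En)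
    (hx : ECodes M.nxt x) : orD l x = true ↔ M.Orientable := by
  have hnt : Nontrivial (Fin n) := Fin.nontrivial_iff_two_le.2 hn
  have key : ∀ p : Flag G, eqC (lC l (edl l) x) (cod p) (cod p) true = true ↔
      Relation.EqvGen (rM M) (p, false) (p, true) := by
    intro p
    rw [lC_iff h univ (edl l) (tj_dc h) M.nxt x hx M.nxt_nxt (fun _ _ => mem_univ _) p p (mem_univ _)
      (mem_univ _) true, tj_rC]
  unfold orD
  rw [Bool.not_eq_true', ← Bool.not_eq_true, List.any_eq_true]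
  constructor
  · intro h1
    obtain ⟨p0, -⟩ := Pool.Agent.Helper35.OG.exists_flag hG (⟨0, by omega⟩ : Fin n)
    rw [ori_iff' hG M p0]
    intro h2
    exact h1 ⟨cod p0, (mem_fD h univ (edl l) (tj_dc h) _).2 ⟨p0, rfl, mem_univ _⟩, (key p0).2 h2⟩
  · rintro h1 ⟨y, hy, hy'⟩
    obtain ⟨p, rfl, -⟩ := (mem_fD h univ (edl l) (tj_dc h) y).1 hy
    exact (ori_iff' hG M p).1 h1 ((key p).1 hy')

private theorem tj_map (L : Flag G → Flag G) (hL : OMap (univ : Finset G.edgeSet) L) :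
    ∃ M : GMap G, M.nxt = L := by
  have hne : ∀ p, L p ≠ p := by
    intro p hp
    obtain ⟨q, -, hq⟩ := hL.ub p ⟨mem_univ _, hp⟩
    exact hq (mem_univ _)
  refine ⟨⟨L, hL.inv, hne, hL.fst, ?_⟩, rfl⟩
  intro p q hpq
  rcases hL.run p (mem_univ _) with ⟨r, hr, -⟩ | h
  · exact absurd hr.2 (hne r)
  · have h2 : ∀ a b : Flag G, rV (univ : Finset G.edgeSet) L a b → (b = L a ∨ b = side a) := fun a b hab => hab.2
    exact Relation.EqvGen.mono h2 p q (h q hpq.symm).2

private theorem tj_vl (C b m : ℕ) (cand : Inp → List Ec → List En) (y : En) (hy : y ∈ enD C b m cand l) :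
    vlD b l (edl l) y = true := by
  unfold enD tbD at hy
  rw [Function.iterate_succ_apply'] at hy
  obtain ⟨t, ht⟩ : ∃ t, t = (rdD C b m cand l)^[(edl l).length] [] := ⟨_, rfl⟩
  rw [← ht] at hy
  by_cases hex : ∃ z, (edl l, z) ∈ rdD C b m cand l t
  · have h1 := Pool.Agent.BEO.look_mem _ _ ([] : List En) hex
    unfold rdD at h1 hy
    rw [List.mem_map] at h1
    obtain ⟨d, -, hd⟩ := h1
    rw [Prod.mk.injEq] at hd
    obtain ⟨hd1, hd2⟩ := hd
    rw [← hd2] at hy
    unfold slD at hy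
    rw [List.mem_flatMap] at hy
    obtain ⟨σ, -, hσ⟩ := hy
    have h2 := (List.mem_filter.1 (Pool.Agent.SCG.bst_mem _ _ _ hσ)).2
    rw [Bool.and_eq_true] at h2
    rw [← hd1]
    exact h2.1
  · rw [Pool.Agent.BEO.look_none _ _ _ (fun z hz => hex ⟨z, hz⟩)] at hy
    exact absurd hy List.not_mem_nil

theorem slv_spec (h : Codes S l) (hG : G.Connected) (hn : 2 ≤ n) (C b c : ℕ) (o : Bool) (cand : Inp → List Ec → List En)
    (hind : Indp S C c)
    (hb : ∀ M : GMap G, Opt o M → ∀ D : Finset G.edgeSet, (mix D S).card ≤ C → (mix D M).card ≤ b)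
    (hleaf : ∀ (K : Finset (Fin n)) (Q : Finset (Flag G)), Leaf S K Q c → ∀ d, DCodes (G := G) (rk K) d →
      CplD o (rk K : Finset G.edgeSet) (cand l d)) :
    ∃ M : GMap G, Opt o M ∧ Codes M (slv C b (mm C b) cand o l) := by
  have hcpl := tb_cpl h hG hn C b c o cand hind hb hleaf
  obtain ⟨M0, hM0⟩ := exists_opt hG hn o S
  obtain ⟨M1, hM1, -, x, hxE, hx⟩ := hcpl M0 hM0
  rw [tj_part] at hx
  have hxT : x ∈ (enD C b (mm C b) cand l).filter fun x => !o || orD l x := by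
    rw [List.mem_filter]
    refine ⟨hxE, ?_⟩
    cases o with
    | false => rfl
    | true =>
      rw [(tj_ori h hG hn M1 x hx).2 (hM1.1 rfl)]
      rfl
  obtain ⟨hy1, hy2⟩ := Pool.Agent.SCG.bst_head (clD l (edl l)) _ x l hxT
  obtain ⟨y, hy⟩ : ∃ y, y = slv C b (mm C b) cand o l := ⟨_, rfl⟩
  have hy' : (bst (clD l (edl l)) ((enD C b (mm C b) cand l).filter fun x => !o || orD l x)).headD l = y :=
    hy.symm
  rw [hy'] at hy1 hy2
  rw [← hy]
  rw [List.mem_filter] at hy1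
  obtain ⟨L, hL1, hL2, -⟩ := of_vlD h univ (edl l) (tj_dc h) b y (tj_vl C b (mm C b) cand y hy1.1)
  obtain ⟨M, rfl⟩ := tj_map L hL2
  refine ⟨M, ⟨?_, ?_⟩, ?_⟩
  · intro ho
    subst ho
    exact (tj_ori h hG hn M y hL1).1 (by simpa using hy1.2)
  · intro M' hM'
    refine le_trans ?_ (hM1.2 M' hM')
    rw [clD_eq h univ (edl l) (tj_dc h) M1.nxt x hx M1.nxt_nxt (fun _ _ => mem_univ _),
      clD_eq h univ (edl l) (tj_dc h) M.nxt y hL1 M.nxt_nxt (fun _ _ => mem_univ _), tj_clo, tj_clo] at hy2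
    unfold GMap.eg
    have h5 : (Nat.card M1.Face : ℤ) ≤ (Nat.card M.Face : ℤ) := by exact_mod_cast hy2
    omega
  · intro z
    rw [hL1 z]
    constructor
    · rintro ⟨p, -, hp⟩
      exact ⟨p, hp⟩
    · rintro ⟨p, hp⟩
      exact ⟨p, M.nxt_ne p, hp⟩

end Pool.Agent.FGT
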