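import Pool.Agent.FGT.RdAlg
import Pool.Agent.FGT.RdDef
import Pool.Agent.FGT.TsJ
import Pool.Agent.FGT.RdF

/-!
# FGT-RdS: choosing a best valid candidate

PLAN. Compare `slv_spec` in `TsJ`. `dl_univ`: `edl l` codes `univ`. A code `x` of a map `M` is an entry for `part univ M` (no fixed points), which is an open map without open flags (`omap_part` in ExA), so `vlD 0 l (edl l) (nrE l x)` (`nr_ent`, `vlD_of`); `orD l (nrE l x) = true` iff `M` is orientable (`lC_iff`, `ori_all` in RdF: the steps of `rC univ (part univ M)` and of `rM M` are the same). `clD` is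
the number of faces (`clD_eq`, `clo univ _`). Conversely a valid candidate codes a map (`of_vlD`: an open map on `univ` without open flags gives a `GMap`, `OMap.run`, `OMap.ub`). `bst_mem`, `bst_head` as in `TsJ`. No connectedness is needed. `pk_len`: `nrE l x` has at most as many members as `fl l`, whose members are the flags (`mem_fl`, no repetitions): `4 * E`.
-/

set_option autoImplicit false

open Finset
open scoped Classical

namespace Pool.Agent.FGT

open Pool.Agent.Helper35.OG (Flag GMap across side)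
open Pool.Agent.BEO (F2 ed rp cyc ev cod Codes ec look memb ddp comp cds Pt Ec Inp sd ac ek fl nb)
open Pool.Agent.SCG (edl nx vl bst std Adl tre)

variable {n : ℕ} {G : SimpleGraph (Fin n)} {S : GMap G} {l : Inp}

private theorem ps_part (M : GMap G) : part (univ : Finset G.edgeSet) M = M.nxt := by
  funext p
  unfold part
  rw [if_pos ⟨mem_univ _, mem_univ _⟩]

private theorem ps_clo [Fintype G.edgeSet] (M : GMap G) : clo (univ : Finset G.edgeSet) M.nxt = Nat.card M.Face := by
  have hr : rF (univ : Finset G.edgeSet) M.nxt = fun p q : Flag G => q = M.nxt p ∨ q = across p := by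
    funext p q
    unfold rF
    exact propext ⟨fun h => h.2, fun h => ⟨mem_univ _, h⟩⟩
  unfold clo GMap.Face
  rw [hr]
  refine Nat.card_congr (Equiv.subtypeUnivEquiv ?_)
  intro c
  constructor
  · obtain ⟨p, hp⟩ := Quot.exists_rep c
    exact ⟨p, hp, mem_univ _⟩
  · intro q hq
    exact absurd hq.2 (M.nxt_ne q)

private theorem ps_dc (h : Codes S l) : DCodes (univ : Finset G.edgeSet) (edl l) := by
  intro y
  rw [← dl_univ h]
  exact mem_dl h _ y

private theorem ps_rC (M : GMap G) : rC (univ : Finset G.edgeSet) M.nxt = rM M := by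
  funext x y
  unfold rC rM
  refine propext ⟨?_, ?_⟩
  · rintro ⟨-, ⟨-, h⟩ | h | h⟩
    · exact Or.inl h
    · exact Or.inr (Or.inl h)
    · exact Or.inr (Or.inr h)
  · rintro (h | h | h)
    · exact ⟨mem_univ _, Or.inl ⟨M.nxt_ne _, h⟩⟩
    · exact ⟨mem_univ _, Or.inr (Or.inl h)⟩
    · exact ⟨mem_univ _, Or.inr (Or.inr h)⟩

private theorem ps_ori (h : Codes S l) (M : GMap G) (x : En) (hx : ECodes M.nxt x) :
    orD l x = true ↔ M.Orientable := by
  have key : ∀ p : Flag G, eqC (lC l (edl l) x) (cod p) (cod p) true = true ↔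
      Relation.EqvGen (rM M) (p, false) (p, true) := by
    intro p
    rw [lC_iff h univ (edl l) (ps_dc h) M.nxt x hx M.nxt_nxt (fun _ _ => mem_univ _) p p (mem_univ _)
      (mem_univ _) true, ps_rC]
  unfold orD
  rw [Bool.not_eq_true', ← Bool.not_eq_true, List.any_eq_true, ori_all]
  constructor
  · intro h1 p hp
    exact h1 ⟨cod p, (mem_fD h univ (edl l) (ps_dc h) _).2 ⟨p, rfl, mem_univ _⟩, (key p).2 hp⟩
  · rintro h1 ⟨y, hy, hy'⟩
    obtain ⟨p, rfl, -⟩ := (mem_fD h univ (edl l) (ps_dc h) y).1 hy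
    exact h1 p ((key p).1 hy')

private theorem ps_map (L : Flag G → Flag G) (hL : OMap (univ : Finset G.edgeSet) L) :
    ∃ M : GMap G, M.nxt = L := by
  have hne : ∀ p, L p ≠ p := by
    intro p hp
    obtain ⟨q, -, hq⟩ := hL.ub p ⟨mem_univ _, hp⟩
    exact hq (mem_univ _)
  refine ⟨⟨L, hL.inv, hne, hL.fst, ?_⟩, rfl⟩
  intro p q hpq
  rcases hL.run p (mem_univ _) with ⟨r, hr, -⟩ | h
  · exact absurd hr.2 (hne r)
  · have h2 : ∀ a b : Flag G, rV (univ : Finset G.edgeSet) L a b → (b = L a ∨ b = side a) := fun a b hab => hab.2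
    exact Relation.EqvGen.mono h2 p q (h q hpq.symm).2

private theorem ps_ec (M : GMap G) (x : Inp) (hx : Codes M x) : ECodes M.nxt x := by
  intro y
  rw [hx y]
  exact ⟨fun ⟨p, hp⟩ => ⟨p, M.nxt_ne p, hp⟩, fun ⟨p, _, hp⟩ => ⟨p, hp⟩⟩

private theorem ps_ce (M : GMap G) (x : Inp) (hx : ECodes M.nxt x) : Codes M x := by
  intro y
  rw [hx y]
  exact ⟨fun ⟨p, _, hp⟩ => ⟨p, hp⟩, fun ⟨p, hp⟩ => ⟨p, M.nxt_ne p, hp⟩⟩

private theorem ps_val (h : Codes S l) (M : GMap G) (x : En) (hx : ECodes M.nxt x) :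
    vlD 0 l (edl l) x = true := by
  have h1 := omap_part (univ : Finset G.edgeSet) M
  rw [ps_part] at h1
  refine vlD_of h univ (edl l) (ps_dc h) 0 M.nxt x hx h1 ?_
  rw [Nat.le_zero, Finset.card_eq_zero, Finset.filter_eq_empty_iff]
  intro p _ hp
  exact M.nxt_ne p hp.2

private theorem ps_mem (h : Codes S l) (o : Bool) (cs : List En) (x : En) (hx : x ∈ cs) (M : GMap G)
    (hM : Codes M x) (ho : o = true → M.Orientable) :
    nrE l x ∈ (cs.map (nrE l)).filter fun x => vlD 0 l (edl l) x && (!o || orD l x) := by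
  have h1 := nr_ent h M.nxt x (ps_ec M x hM)
  rw [List.mem_filter]
  refine ⟨List.mem_map.2 ⟨x, hx, rfl⟩, ?_⟩
  rw [Bool.and_eq_true]
  refine ⟨ps_val h M _ h1, ?_⟩
  cases o with
  | false => rfl
  | true =>
    rw [(ps_ori h M _ h1).2 (ho rfl)]
    rfl

private theorem ps_pk (h : Codes S l) (o : Bool) (cs : List En)
    (x : En) (hx : x ∈ cs) (M : GMap G) (hM : Codes M x) (ho : o = true → M.Orientable) :
    pk o l cs ∈ ((cs.map (nrE l)).filter fun x => vlD 0 l (edl l) x && (!o || orD l x)) ∧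
      clD l (edl l) (nrE l x) ≤ clD l (edl l) (pk o l cs) :=
  Pool.Agent.SCG.bst_head (clD l (edl l)) _ (nrE l x) l (ps_mem h o cs x hx M hM ho)

theorem pk_spec (h : Codes S l) (o : Bool) (cs : List En)
    (hc : ∃ x ∈ cs, ∃ M : GMap G, Codes M x ∧ (o = true → M.Orientable)) :
    ∃ M : GMap G, Codes M (pk o l cs) ∧ (o = true → M.Orientable) ∧
      ∀ x ∈ cs, ∀ M' : GMap G, Codes M' x → (o = true → M'.Orientable) → Nat.card M'.Face ≤ Nat.card M.Face := by
  obtain ⟨x, hx, M0, hM0, ho⟩ := hc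
  obtain ⟨h1, -⟩ := ps_pk h o cs x hx M0 hM0 ho
  rw [List.mem_filter, Bool.and_eq_true] at h1
  obtain ⟨-, h2, h3⟩ := h1
  obtain ⟨L, hL1, hL2, -⟩ := of_vlD h univ (edl l) (ps_dc h) 0 _ h2
  obtain ⟨M, rfl⟩ := ps_map L hL2
  refine ⟨M, ps_ce M _ hL1, ?_, ?_⟩
  · intro ho
    subst ho
    exact (ps_ori h M _ hL1).1 (by simpa using h3)
  · intro x' hx' M' hM' ho'
    obtain ⟨-, h4⟩ := ps_pk h o cs x' hx' M' hM' ho'
    rw [clD_eq h univ (edl l) (ps_dc h) M'.nxt (nrE l x') (nr_ent h M'.nxt x' (ps_ec M' x' hM')) M'.nxt_nxt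
      (fun _ _ => mem_univ _),
      clD_eq h univ (edl l) (ps_dc h) M.nxt _ hL1 M.nxt_nxt (fun _ _ => mem_univ _), ps_clo, ps_clo] at h4
    exact h4

theorem pk_len (h : Codes S l) (o : Bool) (cs : List En)
    (hc : ∃ x ∈ cs, ∃ M : GMap G, Codes M x ∧ (o = true → M.Orientable)) :
    (pk o l cs).length ≤ 4 * Nat.card G.edgeSet ∧ 4 * Nat.card G.edgeSet ≤ l.length := by
  have hfc : Fintype.card (Flag G) = 4 * Nat.card G.edgeSet := by
    rw [Fintype.card_prod, Fintype.card_bool, G.dart_card_eq_twice_card_edges, Nat.card_eq_fintype_card,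
      ← SimpleGraph.edgeFinset_card]
    ring
  rw [← hfc]
  constructor
  · obtain ⟨x, hx, M0, hM0, ho⟩ := hc
    obtain ⟨h1, -⟩ := ps_pk h o cs x hx M0 hM0 ho
    rw [List.mem_filter, List.mem_map] at h1
    obtain ⟨⟨z, -, hz⟩, -⟩ := h1
    rw [← hz]
    unfold nrE
    rw [List.length_map]
    refine (List.length_filter_le _ _).trans ?_
    have hnd : (fl l).Nodup := Pool.Agent.BEO.nodup_ddp _
    rw [← List.toFinset_card_of_nodup hnd]
    have hsub : (fl l).toFinset ⊆ (univ : Finset (Flag G)).image cod := by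
      intro y hy
      rw [List.mem_toFinset] at hy
      obtain ⟨p, rfl⟩ := (Pool.Agent.BEO.mem_fl h y).1 hy
      exact Finset.mem_image.2 ⟨p, mem_univ _, rfl⟩
    refine (Finset.card_le_card hsub).trans ?_
    exact Finset.card_image_le
  · have hsub : (univ : Finset (Flag G)).image (fun p => (cod p, cod (S.nxt p))) ⊆ l.toFinset := by
      intro y hy
      obtain ⟨p, -, rfl⟩ := Finset.mem_image.1 hy
      rw [List.mem_toFinset]
      exact (h _).2 ⟨p, rfl⟩
    have h2 := (Finset.card_le_card hsub).trans (List.toFinset_card_le l)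
    rw [Finset.card_image_of_injective] at h2
    · exact h2
    · intro p q hpq
      exact Pool.Agent.BEO.cod_inj (congrArg Prod.fst hpq)

end Pool.Agent.FGT
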