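import Pool.Agent.FGT.TsDef

/-!
# FGT-TsA: the sets of edges with a table

PLAN. `mem_edl` (SCG/SpA): the members of `edl l` are the codes `ec e`; `ec_inj`. `mem_dl`, `dl_codes`: `List.mem_filter`.
`dl_inj`. `dks_form`: `dK l K u` is a filter of `edl l`, take `D := {e | ec e ∈ dK l K u}`. `dks_mem`: `K :=` the list of the codes of the flags
in `mix D S` (length at most `C`), `u := ec e0` for some `e0 ∈ D`; `mem_cds` (concatenations of single codes; compare `mem_bls` in SCG/SpF). A
corner `p`, `S.nxt p` with `p`, `S.nxt p` not in `mix D S` has both flags over `D` or none, so by `comp_look` (BEO/CompS) and `HCn S D` the edges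
with the label of `e0` are those of `D` (the inner corners of `D` have no flag in `mix D S`). `fl`, `nx`: `mem_fl`, `look_cod`.
-/

set_option autoImplicit false

open Finset
open scoped Classical

namespace Pool.Agent.FGT

open Pool.Agent.Helper35.OG (Flag GMap across side)
open Pool.Agent.BEO (F2 ed rp cyc ev cod Codes ec look memb ddp comp cds Pt Ec Inp sd ac ek fl nb)
open Pool.Agent.SCG (edl nx bst bls)

variable {n : ℕ} {G : SimpleGraph (Fin n)} {S : GMap G} {l : Inp}

theorem mem_dl (h : Codes S l) (D : Finset G.edgeSet) (y : Ec) : y ∈ dl l D ↔ ∃ x ∈ D, y = ec x := by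
  unfold dl
  rw [List.mem_filter, decide_eq_true_iff]
  constructor
  · rintro ⟨_, h2⟩
    exact h2
  · rintro ⟨x, hx, rfl⟩
    exact ⟨(Pool.Agent.SCG.mem_edl h _).2 ⟨x, rfl⟩, x, hx, rfl⟩

theorem dl_univ (h : Codes S l) : dl l (univ : Finset G.edgeSet) = edl l := by
  unfold dl
  rw [List.filter_eq_self]
  intro a ha
  obtain ⟨e, rfl⟩ := (Pool.Agent.SCG.mem_edl h a).1 ha
  rw [decide_eq_true_iff]
  exact ⟨e, mem_univ _, rfl⟩

theorem dl_inj (h : Codes S l) (D D' : Finset G.edgeSet) (hd : dl l D = dl l D') : D = D' := by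
  have key : ∀ A B : Finset G.edgeSet, dl l A = dl l B → ∀ e ∈ A, e ∈ B := by
    intro A B hAB e he
    have h1 : ec e ∈ dl l A := (mem_dl h A _).2 ⟨e, he, rfl⟩
    rw [hAB] at h1
    obtain ⟨x, hx, hex⟩ := (mem_dl h B _).1 h1
    rw [Pool.Agent.BEO.ec_inj hex]
    exact hx
  exact Finset.Subset.antisymm (key D D' hd) (key D' D hd.symm)

theorem dl_len (h : Codes S l) (D : Finset G.edgeSet) : (dl l D).length = D.card := by
  have hnd : (dl l D).Nodup := by
    unfold dl edl
    exact (Pool.Agent.BEO.nodup_ddp _).filter _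
  have h1 : (dl l D).toFinset = D.image ec := by
    ext y
    rw [List.mem_toFinset, mem_dl h, Finset.mem_image]
    constructor
    · rintro ⟨x, hx, rfl⟩
      exact ⟨x, hx, rfl⟩
    · rintro ⟨x, hx, rfl⟩
      exact ⟨x, hx, rfl⟩
  rw [← List.toFinset_card_of_nodup hnd, h1]
  exact Finset.card_image_of_injective _ fun _ _ hab => Pool.Agent.BEO.ec_inj hab

theorem dks_form (h : Codes S l) (C : ℕ) (d : List Ec) (hd : d ∈ dks C l) : ∃ D : Finset G.edgeSet, d = dl l D := by
  unfold dks at hd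
  obtain ⟨K, _, hK⟩ := List.mem_flatMap.1 hd
  obtain ⟨u, _, rfl⟩ := List.mem_map.1 hK
  refine ⟨Finset.univ.filter fun e : G.edgeSet => look (hcl l K) (ec e) (ec e) = look (hcl l K) u u, ?_⟩
  unfold dK dl
  refine List.filter_congr fun y hy => ?_
  obtain ⟨e, rfl⟩ := (Pool.Agent.SCG.mem_edl h y).1 hy
  rw [decide_eq_decide]
  constructor
  · intro h1
    exact ⟨e, Finset.mem_filter.2 ⟨mem_univ _, h1⟩, rfl⟩
  · rintro ⟨x, hx, hex⟩
    rw [Pool.Agent.BEO.ec_inj hex]
    exact (Finset.mem_filter.1 hx).2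

private theorem flatten_single {X Y : Type} (f : X → Y) (s : List X) : ((s.map f).map fun b => [b]).flatten = s.map f := by
  induction s with
  | nil => rfl
  | cons a t ih =>
    rw [List.map_cons, List.map_cons, List.flatten_cons, ih]
    rfl

private theorem mem_mixA (D : Finset G.edgeSet) (p : Flag G) : p ∈ mix D S ↔ ed p ∈ D ∧ ed (S.nxt p) ∉ D := by
  rw [mem_mix D S p, um_part]

private theorem mem_hrl (h : Codes S l) (D : Finset G.edgeSet) (a b : Ec) :
    (a, b) ∈ hrl l ((mix D S).toList.map cod) ↔ ∃ p : Flag G, p ∉ mix D S ∧ S.nxt p ∉ mix D S ∧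
      a = ec (ed p) ∧ b = ec (ed (S.nxt p)) := by
  have hm : ∀ q : Flag G, (!memb ((mix D S).toList.map cod) (cod q)) = true ↔ q ∉ mix D S := by
    intro q
    rw [Bool.not_eq_true', ← Bool.not_eq_true, Pool.Agent.BEO.memb_iff, List.mem_map]
    refine not_congr ⟨?_, ?_⟩
    · rintro ⟨q', hq', he⟩
      rw [← Pool.Agent.BEO.cod_inj he]
      exact Finset.mem_toList.1 hq'
    · intro hq
      exact ⟨q, Finset.mem_toList.2 hq, rfl⟩
  have hnx : ∀ q : Flag G, nx l (cod q) = cod (S.nxt q) := fun q => Pool.Agent.BEO.look_cod h q _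
  unfold hrl
  rw [List.mem_map]
  constructor
  · rintro ⟨x, hx, hab⟩
    rw [List.mem_filter] at hx
    obtain ⟨hx, hk⟩ := hx
    obtain ⟨p, rfl⟩ := (Pool.Agent.BEO.mem_fl h x).1 hx
    rw [Bool.and_eq_true, hnx, hm, hm] at hk
    have h1 : ek (cod p) = a := congrArg Prod.fst hab
    have h2 : ek (nx l (cod p)) = b := congrArg Prod.snd hab
    rw [hnx, Pool.Agent.BEO.ek_cod] at h2
    rw [Pool.Agent.BEO.ek_cod] at h1
    exact ⟨p, hk.1, hk.2, h1.symm, h2.symm⟩
  · rintro ⟨p, h1, h2, rfl, rfl⟩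
    refine ⟨cod p, ?_, ?_⟩
    · rw [List.mem_filter, Bool.and_eq_true, hnx, hm, hm]
      exact ⟨(Pool.Agent.BEO.mem_fl h _).2 ⟨p, rfl⟩, h1, h2⟩
    · rw [hnx, Pool.Agent.BEO.ek_cod, Pool.Agent.BEO.ek_cod]

theorem dks_mem (h : Codes S l) (C : ℕ) (D : Finset G.edgeSet) (hD : Fam S C D) : dl l D ∈ dks C l := by
  obtain ⟨⟨e0, he0⟩, hc, hC⟩ := hD
  unfold dks
  rw [List.mem_flatMap]
  refine ⟨(mix D S).toList.map cod, ?_, ?_⟩
  · rw [Pool.Agent.BEO.mem_cds]
    refine ⟨((mix D S).toList.map cod).map fun b => [b], ?_, ?_, (flatten_single _ _).symm⟩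
    · rw [List.length_map, List.length_map, Finset.length_toList]
      exact hC
    · intro w hw
      obtain ⟨b, hb, rfl⟩ := List.mem_map.1 hw
      obtain ⟨q, _, rfl⟩ := List.mem_map.1 hb
      exact List.mem_map.2 ⟨cod q, (Pool.Agent.BEO.mem_fl h _).2 ⟨q, rfl⟩, rfl⟩
  · rw [List.mem_map]
    refine ⟨ec e0, (Pool.Agent.SCG.mem_edl h _).2 ⟨e0, rfl⟩, ?_⟩
    unfold dK dl
    refine List.filter_congr fun y hy => ?_
    obtain ⟨e, rfl⟩ := (Pool.Agent.SCG.mem_edl h y).1 hy
    rw [decide_eq_decide]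
    unfold hcl
    rw [Pool.Agent.BEO.comp_look (edl l) _ ?_ (ec e) (ec e0) ((Pool.Agent.SCG.mem_edl h _).2 ⟨e, rfl⟩)
      ((Pool.Agent.SCG.mem_edl h _).2 ⟨e0, rfl⟩)]
    · constructor
      · intro hr
        have hinv : ∀ a b : Ec, Relation.EqvGen (fun a b => (a, b) ∈ hrl l ((mix D S).toList.map cod)) a b →
            ((∃ x ∈ D, a = ec x) ↔ ∃ x ∈ D, b = ec x) := by
          intro a b hr
          induction hr with
          | rel a b hab =>
            obtain ⟨p, h1, h2, rfl, rfl⟩ := (mem_hrl h D a b).1 hab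
            rw [mem_mixA] at h1 h2
            rw [S.nxt_nxt] at h2
            constructor
            · rintro ⟨x, hx, hex⟩
              have h3 : ed p ∈ D := by rw [Pool.Agent.BEO.ec_inj hex]; exact hx
              refine ⟨ed (S.nxt p), ?_, rfl⟩
              by_contra hn
              exact h1 ⟨h3, hn⟩
            · rintro ⟨x, hx, hex⟩
              have h3 : ed (S.nxt p) ∈ D := by rw [Pool.Agent.BEO.ec_inj hex]; exact hx
              refine ⟨ed p, ?_, rfl⟩
              by_contra hn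
              exact h2 ⟨h3, hn⟩
          | refl a => exact Iff.rfl
          | symm a b _ ih => exact ih.symm
          | trans a b c _ _ ih1 ih2 => exact ih1.trans ih2
        exact (hinv _ _ hr).2 ⟨e0, he0, rfl⟩
      · rintro ⟨x, hx, hex⟩
        rw [hex]
        have hmap : ∀ a b : G.edgeSet, Relation.EqvGen
            (fun x y => x ∈ D ∧ y ∈ D ∧ ∃ p : Flag G, ed p = x ∧ ed (S.nxt p) = y) a b →
            Relation.EqvGen (fun a b => (a, b) ∈ hrl l ((mix D S).toList.map cod)) (ec a) (ec b) := by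
          intro a b hr
          induction hr with
          | rel a b hab =>
            obtain ⟨ha, hb, p, rfl, rfl⟩ := hab
            refine Relation.EqvGen.rel _ _ ((mem_hrl h D _ _).2 ⟨p, ?_, ?_, rfl, rfl⟩)
            · rw [mem_mixA]
              exact fun h1 => h1.2 hb
            · rw [mem_mixA, S.nxt_nxt]
              exact fun h1 => h1.2 ha
          | refl a => exact Relation.EqvGen.refl _
          | symm a b _ ih => exact Relation.EqvGen.symm _ _ ih
          | trans a b c _ _ ih1 ih2 => exact Relation.EqvGen.trans _ _ _ ih1 ih2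
        exact hmap _ _ (hc x hx e0 he0)
    · rintro ⟨a, b⟩ hr
      obtain ⟨p, _, _, rfl, rfl⟩ := (mem_hrl h D a b).1 hr
      exact ⟨(Pool.Agent.SCG.mem_edl h _).2 ⟨_, rfl⟩, (Pool.Agent.SCG.mem_edl h _).2 ⟨_, rfl⟩⟩

end Pool.Agent.FGT
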