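import Pool.Agent.FGT.RdAlg
import Pool.Agent.FGT.RdDef
import Pool.Agent.FGT.TsA

/-!
# FGT-RdT: near maps have codes among the candidates

A map near a given one has a code in the list of candidates.
-/

set_option autoImplicit false

open Finset
open scoped Classical

namespace Pool.Agent.FGT

open Pool.Agent.Helper35.OG (Flag GMap across side)
open Pool.Agent.BEO (F2 ed rp cyc ev cod Codes ec look memb ddp comp cds Pt Ec Inp sd ac ek fl nb)
open Pool.Agent.SCG (edl nx vl bst std Adl tre)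

variable {n : ℕ} {G1 G2 : SimpleGraph (Fin n)}

private theorem rdt_near {V : Type} [Fintype V] {G1 G2 : SimpleGraph V} (M1 : GMap G1) (D1 : Finset G1.edgeSet)
    (M2 : GMap G2) (L2 : Flag G2 → Flag G2) (hN : Near M1 D1 M2 L2) :
    ∃ bk : Finset (Flag G1), bk.card ≤ 2 ∧
      (∀ p, Kp M1 D1 bk p → ∃ p' : Flag G2, fv p' = fv p ∧ fv (M2.nxt p') = fv (M1.nxt p)) ∧
      (∀ p, L2 p ≠ p → M2.nxt p = L2 p) ∧ ∃ Q : Finset (Flag G2), Q.card ≤ 12 ∧
        ∀ p, p ∈ Q ↔ L2 p = p ∧ ¬ ∃ q, Kp M1 D1 bk q ∧ fv p = fv q := by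
  obtain ⟨bk, hbk, hk1, hk2, hk3⟩ := hN
  refine ⟨bk, hbk, hk1, hk2, _, hk3, fun p => ?_⟩
  rw [mem_filter]
  exact ⟨fun h => h.2, fun h => ⟨mem_univ _, h⟩⟩

private theorem rdt_fv (p : Flag G2) (q : Flag G1) (h : fv p = fv q) : cod p = cod q := by
  unfold fv at h
  have e1 : p.1.toProd = q.1.toProd := congrArg Prod.fst h
  have e2 : p.2 = q.2 := congrArg Prod.snd h
  have e3 : p.1.fst = q.1.fst := congrArg Prod.fst e1
  have e4 : p.1.snd = q.1.snd := congrArg Prod.snd e1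
  unfold cod
  rw [e2, e3, e4]

private theorem rdt_inj (p q : Flag G2) (h : fv p = fv q) : p = q := Pool.Agent.BEO.cod_inj (rdt_fv p q h)

private theorem rdt_flatten {X Y : Type} (f : X → Y) (s : List X) :
    ((s.map f).map fun b => [b]).flatten = s.map f := by
  induction s with
  | nil => rfl
  | cons a t ih =>
    rw [List.map_cons, List.map_cons, List.flatten_cons, ih]
    rfl

private theorem rdt_not {X : Type} [DecidableEq X] (l : List X) (a : X) : (!memb l a) = true ↔ a ∉ l := by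
  rw [Bool.not_eq_true', ← Bool.not_eq_true, Pool.Agent.BEO.memb_iff]

theorem cg_mem (M1 : GMap G1) (x : Inp) (h1 : Codes M1 x) (D1 : Finset G1.edgeSet) (d : List Ec) (hd : DCodes D1 d)
    (S2 : GMap G2) (l : Inp) (h2 : Codes S2 l) (L2 : Flag G2 → Flag G2) (hL : ∀ p, L2 (L2 p) = p) (xa : En)
    (ha : ECodes L2 xa) (M2 : GMap G2) (hN : Near M1 D1 M2 L2) : ∃ y ∈ cg x d (fl l) xa, Codes M2 y := by
  obtain ⟨bk, hbk, hk1, hk2, Q, hQc, hQm⟩ := rdt_near M1 D1 M2 L2 hN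
  -- the involution on the new corners
  have hKn : ∀ q, Kp M1 D1 bk q → Kp M1 D1 bk (M1.nxt q) := by
    rintro q ⟨a1, a2, a3, a4⟩
    refine ⟨a2, ?_, a4, ?_⟩
    · rw [M1.nxt_nxt]
      exact a1
    · rw [M1.nxt_nxt]
      exact a3
  have hKv : ∀ (p : Flag G2) (q : Flag G1), Kp M1 D1 bk q → fv p = fv q → fv (M2.nxt p) = fv (M1.nxt q) := by
    intro p q hq hpq
    obtain ⟨p', e1, e2⟩ := hk1 q hq
    have e3 : p' = p := rdt_inj p' p (e1.trans hpq.symm)
    rw [← e3]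
    exact e2
  have hQn : ∀ p ∈ Q, M2.nxt p ∈ Q := by
    intro p hp
    rw [hQm] at hp ⊢
    refine ⟨?_, ?_⟩
    · by_contra hc
      have e1 := hk2 _ hc
      rw [M2.nxt_nxt] at e1
      have e2 : L2 p = M2.nxt p := by
        rw [e1, hL]
        rw [← e1]
      exact M2.nxt_ne p (e2.symm.trans hp.1)
    · rintro ⟨q, hq, hpq⟩
      have e1 := hKv _ _ hq hpq
      rw [M2.nxt_nxt] at e1
      exact hp.2 ⟨M1.nxt q, hKn q hq, e1⟩
  obtain ⟨o, ho⟩ : ∃ o : Flag G2 → ℕ, Function.Injective o :=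
    ⟨fun p => (Fintype.equivFin (Flag G2) p : ℕ), fun p q h => (Fintype.equivFin (Flag G2)).injective (Fin.ext h)⟩
  obtain ⟨R, hR⟩ : ∃ R : Finset (Flag G2), R = Q.filter fun p => o p < o (M2.nxt p) := ⟨_, rfl⟩
  have hRm : ∀ p, p ∈ R ↔ p ∈ Q ∧ o p < o (M2.nxt p) := by
    intro p
    rw [hR, mem_filter]
  have hinj : Function.Injective M2.nxt := fun p q h => by
    rw [← M2.nxt_nxt p, h, M2.nxt_nxt]
  have hcard : R.card ≤ 6 := by
    have e1 : Disjoint R (R.image M2.nxt) := by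
      rw [Finset.disjoint_left]
      intro p hp hp2
      obtain ⟨q, hq, rfl⟩ := Finset.mem_image.1 hp2
      have e3 := ((hRm _).1 hp).2
      have e4 := ((hRm _).1 hq).2
      rw [M2.nxt_nxt] at e3
      omega
    have e2 : R ∪ R.image M2.nxt ⊆ Q := by
      intro p hp
      rcases mem_union.1 hp with hp | hp
      · exact ((hRm _).1 hp).1
      · obtain ⟨q, hq, rfl⟩ := Finset.mem_image.1 hp
        exact hQn q ((hRm _).1 hq).1
    have e3 := Finset.card_le_card e2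
    rw [Finset.card_union_of_disjoint e1, Finset.card_image_of_injective _ hinj] at e3
    omega
  have hdm : ∀ p : Flag G1, (!memb d (ek (cod p))) = true ↔ ed p ∉ D1 := by
    intro p
    rw [rdt_not, Pool.Agent.BEO.ek_cod, hd]
    refine not_congr ⟨?_, fun h => ⟨_, h, rfl⟩⟩
    rintro ⟨e, he, hee⟩
    rw [Pool.Agent.BEO.ec_inj hee]
    exact he
  have hbm : ∀ p : Flag G1, (!memb (bk.toList.map cod) (cod p)) = true ↔ p ∉ bk := by
    intro p
    rw [rdt_not, List.mem_map]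
    refine not_congr ⟨?_, fun h => ⟨p, Finset.mem_toList.2 h, rfl⟩⟩
    rintro ⟨q, hq, hqe⟩
    rw [← Pool.Agent.BEO.cod_inj hqe]
    exact Finset.mem_toList.1 hq
  refine ⟨(x.filter fun y => (!memb d (ek y.1) && !memb d (ek y.2)) &&
      (!memb (bk.toList.map cod) y.1 && !memb (bk.toList.map cod) y.2)) ++
      (xa ++ (R.toList.map fun p => [(cod p, cod (M2.nxt p)), (cod (M2.nxt p), cod p)]).flatten), ?_, ?_⟩
  · unfold cg
    rw [List.mem_flatMap]
    refine ⟨bk.toList.map cod, ?_, ?_⟩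
    · rw [Pool.Agent.BEO.mem_cds]
      refine ⟨(bk.toList.map cod).map fun b => [b], ?_, ?_, (rdt_flatten _ _).symm⟩
      · rw [List.length_map, List.length_map, Finset.length_toList]
        exact hbk
      · intro w hw
        obtain ⟨b, hb, rfl⟩ := List.mem_map.1 hw
        obtain ⟨q, _, rfl⟩ := List.mem_map.1 hb
        exact List.mem_map.2 ⟨cod q, (Pool.Agent.BEO.mem_fl h1 _).2 ⟨q, rfl⟩, rfl⟩
    · rw [List.mem_map]
      refine ⟨_, ?_, rfl⟩
      rw [Pool.Agent.BEO.mem_cds]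
      refine ⟨_, ?_, ?_, rfl⟩
      · rw [List.length_map, Finset.length_toList]
        exact hcard
      · intro u hu
        obtain ⟨p, hp, rfl⟩ := List.mem_map.1 hu
        rw [List.mem_flatMap]
        exact ⟨cod p, (Pool.Agent.BEO.mem_fl h2 _).2 ⟨p, rfl⟩, List.mem_map.2 ⟨cod (M2.nxt p),
          (Pool.Agent.BEO.mem_fl h2 _).2 ⟨M2.nxt p, rfl⟩, rfl⟩⟩
  · intro w
    rw [List.mem_append, List.mem_append, List.mem_filter, List.mem_flatten]
    constructor
    · rintro (⟨hw, hc⟩ | hw | ⟨u, hu, hw⟩)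
      · obtain ⟨q, rfl⟩ := (h1 w).1 hw
        rw [Bool.and_eq_true, Bool.and_eq_true, Bool.and_eq_true] at hc
        have hKq : Kp M1 D1 bk q :=
          ⟨(hdm q).1 hc.1.1, (hdm (M1.nxt q)).1 hc.1.2, (hbm q).1 hc.2.1, (hbm (M1.nxt q)).1 hc.2.2⟩
        obtain ⟨p', e1, e2⟩ := hk1 q hKq
        exact ⟨p', by rw [rdt_fv p' q e1, rdt_fv _ _ e2]⟩
      · obtain ⟨p, hp, rfl⟩ := (ha w).1 hw
        exact ⟨p, by rw [hk2 p hp]⟩
      · obtain ⟨p, _, rfl⟩ := List.mem_map.1 hu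
        rcases List.mem_cons.1 hw with rfl | hw
        · exact ⟨p, rfl⟩
        · rw [List.mem_singleton] at hw
          exact ⟨M2.nxt p, by rw [hw, M2.nxt_nxt]⟩
    · rintro ⟨p, rfl⟩
      by_cases hp : L2 p = p
      · by_cases hq : ∃ q, Kp M1 D1 bk q ∧ fv p = fv q
        · obtain ⟨q, hq, hpq⟩ := hq
          left
          have e1 := hKv p q hq hpq
          rw [rdt_fv p q hpq, rdt_fv _ _ e1]
          refine ⟨(h1 _).2 ⟨q, rfl⟩, ?_⟩
          rw [Bool.and_eq_true, Bool.and_eq_true, Bool.and_eq_true]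
          exact ⟨⟨(hdm q).2 hq.1, (hdm (M1.nxt q)).2 hq.2.1⟩, (hbm q).2 hq.2.2.1, (hbm (M1.nxt q)).2 hq.2.2.2⟩
        · right
          right
          have hpQ : p ∈ Q := (hQm p).2 ⟨hp, hq⟩
          rcases lt_or_gt_of_ne (fun h => M2.nxt_ne p (ho h).symm : o p ≠ o (M2.nxt p)) with h6 | h6
          · refine ⟨_, List.mem_map.2 ⟨p, Finset.mem_toList.2 ((hRm p).2 ⟨hpQ, h6⟩), rfl⟩, ?_⟩
            exact List.mem_cons_self
          · have e1 : M2.nxt p ∈ R := (hRm _).2 ⟨hQn p hpQ, by rw [M2.nxt_nxt]; exact h6⟩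
            refine ⟨_, List.mem_map.2 ⟨M2.nxt p, Finset.mem_toList.2 e1, rfl⟩, ?_⟩
            rw [M2.nxt_nxt]
            exact List.mem_cons_of_mem _ List.mem_cons_self
      · right
        left
        rw [hk2 p hp]
        exact (ha _).2 ⟨p, hp, rfl⟩

end Pool.Agent.FGT
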