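import Pool.Agent.FGT.RdW

/-!
# FGT-RdX: solving the problem for all maps

PLAN. `base`: if `1 ≤ S.eg` the code `F o l` of an optimal map is a candidate; otherwise `S.eg ≤ 0`, the rank of `frm S` is `0` (`frm_rank`), `S` is orientable (`frm_alt` in BEO/FrmOri), and optimal because all Euler genera are nonnegative; `l` is a candidate. `pk_spec`: the chosen map has at least as many faces as an optimal one, so it is optimal (same `V`, `E`).
`sol_spec`: let `hs X l = X.foldl (fun h _ => nxs (h.headD []) :: h) [l]` for a list `X`; `hs` depends on the length `m` of `X` only, and `hs (m + 1) l = hs m (nxs l) ++ [l]`. Claim by induction on `m`, for all `n`, `G`, `S`, `l` with `Nat.card G.edgeSet ≤ m` or `bad l` empty: the fold over `(hs m l).drop 1` gives the code of an optimal map. If `bad l` is empty: `nxs l = l`,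
`lft o l x = x`, all members of `hs m l` are `l`: `base` with `nxs_red`. Otherwise `nxs_stp`. The length of `l` is at least `4 * Nat.card G.edgeSet` (`mem_fl`: the first components of the members of `l` are all flags; `pk_len`).
-/

set_option autoImplicit false

open Finset
open scoped Classical

namespace Pool.Agent.FGT

open Pool.Agent.Helper35.OG (Flag GMap across side)
open Pool.Agent.BEO (F2 ed rp cyc ev cod Codes ec look memb ddp comp cds Pt Ec Inp sd ac ek fl nb)
open Pool.Agent.SCG (edl nx vl bst std Adl tre)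

/-- `F` solves the problem for reduced maps of Euler genus between `1` and `k` -/
def SolR (k : ℕ) (F : Bool → Inp → Inp) : Prop := ∀ (n : ℕ) (G : SimpleGraph (Fin n)), G.Connected → 2 ≤ n →
  ∀ S : GMap G, Reduced S → 1 ≤ S.eg → S.eg ≤ k → ∀ l, Codes S l → ∀ o, ∃ M : GMap G, Opt o M ∧ Codes M (F o l)

/-- `F` solves the problem for all maps of Euler genus at most `k` -/
def SolA (k : ℕ) (F : Bool → Inp → Inp) : Prop := ∀ (n : ℕ) (G : SimpleGraph (Fin n)), G.Connected → 2 ≤ n →
  ∀ S : GMap G, S.eg ≤ k → ∀ l, Codes S l → ∀ o, ∃ M : GMap G, Opt o M ∧ Codes M (F o l)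

private theorem opt_ge {n : ℕ} {G : SimpleGraph (Fin n)} {S : GMap G} {l : Inp} (h : Codes S l) (o : Bool)
    (cs : List En) (x : En) (hx : x ∈ cs) (M0 : GMap G) (h0 : Opt o M0) (hc : Codes M0 x) :
    ∃ M : GMap G, Opt o M ∧ Codes M (pk o l cs) := by
  obtain ⟨M, h1, h2, h3⟩ := pk_spec h o cs ⟨x, hx, M0, hc, h0.1⟩
  have h4 := h3 x hx M0 hc h0.1
  refine ⟨M, ⟨h2, fun M' hM' => ?_⟩, h1⟩
  refine le_trans ?_ (h0.2 M' hM')
  unfold Pool.Agent.Helper35.OG.GMap.eg
  have h5 : (Nat.card M0.Face : ℤ) ≤ (Nat.card M.Face : ℤ) := by exact_mod_cast h4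
  omega

theorem base (k : ℕ) (F : Bool → Inp → Inp) (hF : SolR k F) (n : ℕ) (G : SimpleGraph (Fin n)) (hG : G.Connected)
    (hn : 2 ≤ n) (S : GMap G) (hr : Reduced S) (hk : S.eg ≤ k) (l : Inp) (h : Codes S l) (o : Bool) :
    ∃ M : GMap G, Opt o M ∧ Codes M (pk o l [F o l, l]) := by
  have hnt : Nontrivial (Fin n) := Fin.nontrivial_iff_two_le.2 hn
  have hpos : ∀ M : GMap G, 0 ≤ M.eg := by
    intro M
    rw [← Pool.Agent.BEO.frm_rank hG M]
    exact Int.natCast_nonneg _
  by_cases h1 : 1 ≤ S.eg
  · obtain ⟨M0, hM0, hc0⟩ := hF n G hG hn S hr h1 hk l h o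
    exact opt_ge h o _ _ List.mem_cons_self M0 hM0 hc0
  · have h2 : S.eg = 0 := le_antisymm (by omega) (hpos S)
    have h3 := Pool.Agent.BEO.frm_rank hG S
    rw [h2] at h3
    have h4 : LinearMap.range (Pool.Agent.BEO.frm S) = ⊥ := by
      rw [← Submodule.finrank_eq_zero (R := F2)]
      exact_mod_cast h3
    have h5 : S.Orientable := by
      rw [Pool.Agent.BEO.frm_alt]
      intro z
      rw [LinearMap.range_eq_bot.1 h4]
      rfl
    refine opt_ge h o _ l (List.mem_cons_of_mem _ List.mem_cons_self) S ⟨fun _ => h5, fun M' _ => ?_⟩ h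
    rw [h2]
    exact hpos M'

private def hsm : ℕ → Inp → List Inp
  | 0, l => [l]
  | m + 1, l => hsm m (nxs l) ++ [l]

private theorem hsm_ne (m : ℕ) : ∀ l : Inp, hsm m l ≠ [] := by
  intro l
  cases m with
  | zero => exact List.cons_ne_nil _ _
  | succ m =>
    show hsm m (nxs l) ++ [l] ≠ []
    intro h
    exact List.cons_ne_nil _ _ (List.append_eq_nil_iff.1 h).2

private theorem fold_app (X : List (Pt × Pt)) : ∀ (h t : List Inp), h ≠ [] →
    X.foldl (fun h _ => nxs (h.headD []) :: h) (h ++ t) = X.foldl (fun h _ => nxs (h.headD []) :: h) h ++ t := by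
  induction X with
  | nil => exact fun _ _ _ => rfl
  | cons x X ih =>
    intro h t hh
    cases h with
    | nil => exact absurd rfl hh
    | cons a h => exact ih (nxs a :: a :: h) t (List.cons_ne_nil _ _)

private theorem fold_hsm (X : List (Pt × Pt)) : ∀ l : Inp,
    X.foldl (fun h _ => nxs (h.headD []) :: h) [l] = hsm X.length l := by
  induction X with
  | nil => exact fun _ => rfl
  | cons x X ih =>
    intro l
    have h1 := fold_app X [nxs l] [l] (List.cons_ne_nil _ _)
    rw [ih (nxs l)] at h1
    exact h1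

private def slh (F : Bool → Inp → Inp) (o : Bool) (h : List Inp) : Inp :=
  (h.drop 1).foldl (fun x li => lft o li x) (pk o (h.headD []) [F o (h.headD []), h.headD []])

private theorem slh_app (F : Bool → Inp → Inp) (o : Bool) (h : List Inp) (hh : h ≠ []) (l : Inp) :
    slh F o (h ++ [l]) = lft o l (slh F o h) := by
  cases h with
  | nil => exact absurd rfl hh
  | cons a h =>
    show (h ++ [l]).foldl (fun x li => lft o li x) (pk o a [F o a, a]) = _
    rw [List.foldl_append]
    rfl

private theorem slh_bad (F : Bool → Inp → Inp) (o : Bool) (l : Inp) (hb : (bad l).isEmpty = true) (m : ℕ) :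
    slh F o (hsm m l) = pk o l [F o l, l] := by
  induction m with
  | zero => rfl
  | succ m ih =>
    have h1 : nxs l = l := by
      unfold nxs
      rw [if_pos hb]
    have h2 : hsm (m + 1) l = hsm m l ++ [l] := by
      show hsm m (nxs l) ++ [l] = _
      rw [h1]
    rw [h2, slh_app F o _ (hsm_ne m l), ih]
    unfold lft
    rw [if_pos hb]

private theorem slh_spec (k : ℕ) (F : Bool → Inp → Inp) (hF : SolR k F) (o : Bool) (m : ℕ) :
    ∀ (n : ℕ) (G : SimpleGraph (Fin n)), G.Connected → 2 ≤ n → ∀ S : GMap G, S.eg ≤ k → ∀ l, Codes S l →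
      (Nat.card G.edgeSet ≤ m ∨ (bad l).isEmpty = true) →
      ∃ M : GMap G, Opt o M ∧ Codes M (slh F o (hsm m l)) := by
  induction m with
  | zero =>
    intro n G hG hn S hk l h hm
    cases hb : (bad l).isEmpty with
    | true =>
      rw [slh_bad F o l hb]
      exact base k F hF n G hG hn S (nxs_red h hb) hk l h o
    | false =>
      obtain ⟨n2, G2, S2, -, -, -, -, h1, -⟩ := nxs_stp h hG hn hb
      rcases hm with hm | hm
      · omega
      · rw [hb] at hm
        exact absurd hm (by decide)
  | succ m ih =>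
    intro n G hG hn S hk l h hm
    cases hb : (bad l).isEmpty with
    | true =>
      rw [slh_bad F o l hb]
      exact base k F hF n G hG hn S (nxs_red h hb) hk l h o
    | false =>
      obtain ⟨n2, G2, S2, hn2, hG2, hc2, he2, h1, h2⟩ := nxs_stp h hG hn hb
      have hm' : Nat.card G.edgeSet ≤ m + 1 := by
        rcases hm with hm | hm
        · exact hm
        · rw [hb] at hm
          exact absurd hm (by decide)
      obtain ⟨T2, hT2, hx⟩ := ih n2 G2 hG2 hn2 S2 (le_trans he2 hk) (nxs l) hc2 (Or.inl (by omega))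
      obtain ⟨T, hT, hx'⟩ := h2 o T2 _ hT2 hx
      refine ⟨T, hT, ?_⟩
      show Codes T (slh F o (hsm m (nxs l) ++ [l]))
      rw [slh_app F o _ (hsm_ne m (nxs l))]
      exact hx'

theorem sol_spec (k : ℕ) (F : Bool → Inp → Inp) (hF : SolR k F) : SolA k (sol F) := by
  intro n G hG hn S hk l h o
  have h1 : sol F o l = slh F o (hsm l.length l) := by
    show slh F o (hst l) = _
    rw [← fold_hsm l l]
    rfl
  have h2 := (pk_len h false [l] ⟨l, List.mem_cons_self, S, h, fun h3 => absurd h3 (by decide)⟩).2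
  rw [h1]
  exact slh_spec k F hF o l.length n G hG hn S hk l h (Or.inl (by omega))

end Pool.Agent.FGT
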