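import Pool.Agent.FGT.EmA
import Pool.Agent.FGT.RdX
import Pool.Agent.FGT.RdT
import Pool.Agent.FGT.RdS
import Pool.Agent.FGT.RsB
import Pool.Agent.SCG.HTre

/-!
# FGT-EmB: the embedding algorithm

PLAN. Invariant of the fold (compare SCG/HStq, SCG/HEmb): there are `G1 ≤ G` connected with `Lists G1 s.1` and a map `M` of `G1` with `Opt false M`, `Codes M s.2`; all edges handled so far are in `G1`. Start: `tre_spec`, `std_codes`, `tree_eg` (Euler genus `0`, which is least: `frm_rank`). Step `e = (a, b)`: if `e` or its reverse is in `s.1`, nothing changes.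
Otherwise `G2` is `G1` with the edge `ab`, `G2 ≤ G`, `Lists G2 (s.1 ++ [e])`. `M.eg ≤ k`: the given map `M0` of `G` restricts to `G1` (`restr` with `I = univ`, `res_eg`) and `M` is optimal. `ins_edge`, `cg_mem` (`D1 = ∅`, `L2 = id`), `pk_spec`: `pk ..` codes a map of `G2` of Euler genus at most `k + 2`; `hF`.
-/

set_option autoImplicit false

open Finset
open scoped Classical

namespace Pool.Agent.FGT

open Pool.Agent.Helper35.OG (Flag GMap across side)
open Pool.Agent.BEO (F2 ed rp cyc ev cod Codes ec look memb ddp comp cds Pt Ec Inp sd ac ek fl nb)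
open Pool.Agent.SCG (edl nx vl bst std Adl tre)
open Pool.Agent.SCG (Lists stdM AddE)

variable {n : ℕ}

/-- the invariant of the fold -/
private def emInv (G : SimpleGraph (Fin n)) (s : Adl × Inp) : Prop :=
  ∃ G1 : SimpleGraph (Fin n), G1 ≤ G ∧ G1.Connected ∧ Lists G1 s.1 ∧ ∃ M : GMap G1, Opt false M ∧ Codes M s.2

private theorem em_sub (F : Bool → Inp → Inp) (s : Adl × Inp) (e : ℕ × ℕ) : ∀ x ∈ s.1, x ∈ (est F s e).1 := by
  intro x hx
  unfold est
  split
  · exact hx
  · exact List.mem_append_left _ hx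

private theorem em_new (F : Bool → Inp → Inp) (s : Adl × Inp) (e : ℕ × ℕ) :
    e ∈ (est F s e).1 ∨ (e.2, e.1) ∈ (est F s e).1 := by
  unfold est
  split
  · rename_i h
    rw [Bool.or_eq_true, Pool.Agent.BEO.memb_iff, Pool.Agent.BEO.memb_iff] at h
    exact h
  · exact Or.inl (List.mem_append_right _ List.mem_cons_self)

private theorem em_fsub (F : Bool → Inp → Inp) (A : Adl) : ∀ s : Adl × Inp, ∀ x ∈ s.1, x ∈ (A.foldl (est F) s).1 := by
  induction A with
  | nil => exact fun s x hx => hx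
  | cons e A ih =>
    intro s x hx
    rw [List.foldl_cons]
    exact ih _ _ (em_sub F s e x hx)

private theorem em_fnew (F : Bool → Inp → Inp) (A : Adl) : ∀ s : Adl × Inp, ∀ e ∈ A,
    e ∈ (A.foldl (est F) s).1 ∨ (e.2, e.1) ∈ (A.foldl (est F) s).1 := by
  induction A with
  | nil => exact fun s e he => absurd he List.not_mem_nil
  | cons e0 A ih =>
    intro s e he
    rw [List.foldl_cons]
    rcases List.mem_cons.1 he with rfl | he
    · rcases em_new F s e with h | h
      · exact Or.inl (em_fsub F A _ _ h)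
      · exact Or.inr (em_fsub F A _ _ h)
    · exact ih _ e he

private theorem em_step (k : ℕ) (F : Bool → Inp → Inp) (hF : SolA (k + 2) (sol F)) (G : SimpleGraph (Fin n))
    (hn : 2 ≤ n) (M0 : GMap G) (hk : M0.eg ≤ k) (s : Adl × Inp) (h : emInv G s) (a b : Fin n) (hab : G.Adj a b) :
    emInv G (est F s ((a : ℕ), (b : ℕ))) := by
  obtain ⟨G1, hle, hcon, hlist, M, hopt, hcod⟩ := h
  unfold est
  split
  · exact ⟨G1, hle, hcon, hlist, M, hopt, hcod⟩
  · rename_i hm
    rw [Bool.or_eq_true, Pool.Agent.BEO.memb_iff, Pool.Agent.BEO.memb_iff] at hm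
    have h1 : ¬ G1.Adj a b := by
      intro h1
      exact hm ((hlist.1 a b).1 h1)
    obtain ⟨G2, hG2⟩ : ∃ G2 : SimpleGraph (Fin n), ∀ u v, G2.Adj u v ↔ G1.Adj u v ∨ (u = a ∧ v = b) ∨ (u = b ∧ v = a) := by
      refine ⟨⟨fun u v => G1.Adj u v ∨ (u = a ∧ v = b) ∨ (u = b ∧ v = a), ?_, ?_⟩, fun u v => Iff.rfl⟩
      · refine ⟨?_⟩
        rintro u v (h2 | ⟨h2, h3⟩ | ⟨h2, h3⟩)
        · exact Or.inl h2.symm
        · exact Or.inr (Or.inr ⟨h3, h2⟩)
        · exact Or.inr (Or.inl ⟨h3, h2⟩)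
      · refine ⟨?_⟩
        rintro u (h2 | ⟨h2, h3⟩ | ⟨h2, h3⟩)
        · exact G1.irrefl h2
        · exact hab.ne (h2.symm.trans h3)
        · exact hab.ne (h3.symm.trans h2)
    have hadd : AddE G1 G2 a b := ⟨hab.ne, h1, hG2⟩
    have hle2 : G2 ≤ G := by
      intro u v huv
      rcases (hG2 u v).1 huv with h2 | ⟨rfl, rfl⟩ | ⟨rfl, rfl⟩
      · exact hle h2
      · exact hab
      · exact hab.symm
    have hcon2 : G2.Connected := hcon.mono (Pool.Agent.SCG.addE_le hadd)
    have hlist2 : Lists G2 (s.1 ++ [((a : ℕ), (b : ℕ))]) := by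
      refine ⟨?_, ?_⟩
      · intro u v
        rw [List.mem_append, List.mem_append, List.mem_singleton, List.mem_singleton, hG2, hlist.1 u v]
        constructor
        · rintro ((h2 | h2) | ⟨rfl, rfl⟩ | ⟨rfl, rfl⟩)
          · exact Or.inl (Or.inl h2)
          · exact Or.inr (Or.inl h2)
          · exact Or.inl (Or.inr rfl)
          · exact Or.inr (Or.inr rfl)
        · rintro ((h2 | h2) | (h2 | h2))
          · exact Or.inl (Or.inl h2)
          · obtain ⟨h3, h4⟩ := Prod.mk.inj h2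
            exact Or.inr (Or.inl ⟨Fin.ext h3, Fin.ext h4⟩)
          · exact Or.inl (Or.inr h2)
          · obtain ⟨h3, h4⟩ := Prod.mk.inj h2
            exact Or.inr (Or.inr ⟨Fin.ext h4, Fin.ext h3⟩)
      · intro x hx
        rw [List.mem_append, List.mem_singleton] at hx
        rcases hx with hx | rfl
        · obtain ⟨u, v, huv, rfl⟩ := hlist.2 x hx
          exact ⟨u, v, (hG2 u v).2 (Or.inl huv), rfl⟩
        · exact ⟨a, b, (hG2 a b).2 (Or.inr (Or.inl ⟨rfl, rfl⟩)), rfl⟩
    have hnt : Nontrivial (Fin n) := Fin.nontrivial_iff_two_le.2 hn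
    have hMk : M.eg ≤ k := by
      obtain ⟨M', -, hf, -⟩ := restr hle hcon (univ : Finset (Fin n)) (fun u _ _ _ => Or.inl (mem_univ u)) M0
      exact (hopt.2 M' (fun h => absurd h (by decide))).trans ((res_eg hle hcon M0 M' hf).trans hk)
    obtain ⟨M2, hN, he2⟩ := ins_edge G1 G2 a b hadd hcon hn M
    have hS2 := Pool.Agent.SCG.std_codes hlist2
    have hd : DCodes (∅ : Finset G1.edgeSet) [] := by
      intro y
      refine ⟨fun h => absurd h List.not_mem_nil, ?_⟩
      rintro ⟨e, he, -⟩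
      exact absurd he (Finset.notMem_empty e)
    have ha : ECodes (fun p : Flag G2 => p) [] := by
      intro y
      refine ⟨fun h => absurd h List.not_mem_nil, ?_⟩
      rintro ⟨p, hp, -⟩
      exact absurd rfl hp
    obtain ⟨y, hy, hyc⟩ := cg_mem M s.2 hcod ∅ [] hd (stdM G2) _ hS2 (fun p => p) (fun _ => rfl) [] ha M2 hN
    obtain ⟨M3, hc3, -, hf3⟩ := pk_spec hS2 false _ ⟨y, hy, M2, hyc, fun h => absurd h (by decide)⟩
    have h4 := hf3 y hy M2 hyc (fun h => absurd h (by decide))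
    have h5 : M3.eg ≤ ((k + 2 : ℕ) : ℤ) := by
      have h6 : M3.eg ≤ M2.eg := by
        unfold Pool.Agent.Helper35.OG.GMap.eg
        have h7 : (Nat.card M2.Face : ℤ) ≤ (Nat.card M3.Face : ℤ) := by exact_mod_cast h4
        omega
      push_cast
      linarith
    obtain ⟨M4, ho4, hc4⟩ := hF n G2 hcon2 hn M3 h5 _ hc3 false
    exact ⟨G2, hle2, hcon2, hlist2, M4, ho4, hc4⟩

private theorem em_fold (k : ℕ) (F : Bool → Inp → Inp) (hF : SolA (k + 2) (sol F)) (G : SimpleGraph (Fin n))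
    (hn : 2 ≤ n) (M0 : GMap G) (hk : M0.eg ≤ k) (A : Adl)
    (hA : ∀ x ∈ A, ∃ u v : Fin n, G.Adj u v ∧ x = ((u : ℕ), (v : ℕ))) :
    ∀ s : Adl × Inp, emInv G s → emInv G (A.foldl (est F) s) := by
  induction A with
  | nil => exact fun s hs => hs
  | cons e A ih =>
    intro s hs
    rw [List.foldl_cons]
    refine ih (fun x hx => hA x (List.mem_cons_of_mem _ hx)) _ ?_
    obtain ⟨u, v, huv, rfl⟩ := hA e List.mem_cons_self
    exact em_step k F hF G hn M0 hk s hs u v huv

theorem emb_spec (k : ℕ) (F : Bool → Inp → Inp) (hF : SolA (k + 2) (sol F)) (G : SimpleGraph (Fin n)) (hG : G.Connected)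
    (hn : 2 ≤ n) (M0 : GMap G) (hk : M0.eg ≤ k) (A : Adl) (hA : Lists G A) :
    ∃ M : GMap G, Opt false M ∧ Codes M (emb F A).2 := by
  have hstart : emInv G (tre A, std (tre A)) := by
    obtain ⟨G0, h0le, h0c, h0l, h0n⟩ := Pool.Agent.SCG.tre_spec hA hG hn
    refine ⟨G0, h0le, h0c, h0l, stdM G0, ⟨fun h => absurd h (by decide), fun M' _ => ?_⟩,
      Pool.Agent.SCG.std_codes h0l⟩
    rw [Pool.Agent.SCG.tree_eg h0c hn h0n, Pool.Agent.SCG.tree_eg h0c hn h0n]
  obtain ⟨G1, hle, hcon, hlist, M, hopt, hcod⟩ := em_fold k F hF G hn M0 hk A hA.2 _ hstart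
  have hG1 : G1 = G := by
    refine le_antisymm hle (fun u v huv => ?_)
    rw [hlist.1 u v]
    rcases (hA.1 u v).1 huv with h | h
    · exact em_fnew F A (tre A, std (tre A)) _ h
    · exact (em_fnew F A (tre A, std (tre A)) _ h).symm
  subst hG1
  exact ⟨M, hopt, hcod⟩

end Pool.Agent.FGT
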