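import Pool.Agent.FGT.ExC

/-!
# FGT-Ex: exchanging the part of a map

the exchange theorem for parts of maps
-/

set_option autoImplicit false

open Finset
open scoped Classical

namespace Pool.Agent.FGT

open Pool.Agent.BEO
open Pool.Agent.Helper35.OG hiding F2 dg

variable {V : Type} {G : SimpleGraph V}

theorem exch [Fintype V] (hG : G.Connected) (D : Finset G.edgeSet) (M : GMap G) (L' θ : Flag G → Flag G) (hL : OMap D L')
    (hs : Same D (part D M) L' θ) (hc : clo D (part D M) ≤ clo D L') :
    ∃ M' : GMap G, (∀ p, part D M' p = L' p) ∧ (∀ p, part Dᶜ M' p = part Dᶜ M p) ∧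
      (M.Orientable → M'.Orientable) ∧ M'.eg ≤ M.eg := by
  obtain ⟨M', h1, h2, h3⟩ := exch0 D M L' θ hL hs
  refine ⟨M', h1, ?_, exch_ori hG D M M' L' θ hL hs h1 h2 h3, ?_⟩
  · intro p
    unfold part
    by_cases hp : ed p ∈ D
    · rw [if_neg, if_neg]
      · rintro ⟨h, -⟩
        exact (Finset.mem_compl.1 h) hp
      · rintro ⟨h, -⟩
        exact (Finset.mem_compl.1 h) hp
    · by_cases hq : ed (M.nxt p) ∈ D
      · have hu : Um D (part D M) (M.nxt p) := by
          rw [um_part, M.nxt_nxt]
          exact ⟨hq, hp⟩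
        have h4 : M'.nxt p = θ (M.nxt p) := by
          have h5 := h3 _ hu
          rw [M.nxt_nxt] at h5
          rw [← M'.nxt_nxt (θ (M.nxt p)), h5]
        have h6 : ed (M'.nxt p) ∈ D := by
          rw [h4]
          exact (hs.map _ hu).1
        rw [if_neg, if_neg]
        · rintro ⟨-, h⟩
          exact (Finset.mem_compl.1 h) hq
        · rintro ⟨-, h⟩
          exact (Finset.mem_compl.1 h) h6
      · rw [h2 p hp hq]
  · have h := exch_face D M M' L' θ hL hs h1 h2 h3
    unfold GMap.eg
    have h4 : Nat.card M.Face ≤ Nat.card M'.Face := by omega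
    have h5 : (Nat.card M.Face : ℤ) ≤ (Nat.card M'.Face : ℤ) := by exact_mod_cast h4
    omega
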