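import Pool.Agent.FGT.ExDef

/-!
# FGT-ExA: the part of a map is an open map
-/

set_option autoImplicit false

open Finset
open scoped Classical

namespace Pool.Agent.FGT

open Pool.Agent.BEO
open Pool.Agent.Helper35.OG hiding F2 dg

variable {V : Type} {G : SimpleGraph V}

theorem omap_part (D : Finset G.edgeSet) (M : GMap G) : OMap D (part D M) := by
  have hL : ∀ p, ed p ∈ D → ed (M.nxt p) ∈ D → part D M p = M.nxt p := fun p h1 h2 => if_pos ⟨h1, h2⟩
  have hN : ∀ p, ¬ (ed p ∈ D ∧ ed (M.nxt p) ∈ D) → part D M p = p := fun p h => if_neg h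
  refine ⟨fun p => ?_, fun p h => ?_, fun p h => ?_, fun p => ?_, fun p h => ?_, fun p h => ?_⟩
  · by_cases h : ed p ∈ D ∧ ed (M.nxt p) ∈ D
    · rw [hL p h.1 h.2, hL (M.nxt p) h.2 (by rw [M.nxt_nxt]; exact h.1), M.nxt_nxt]
    · rw [hN p h, hN p h]
  · exact hN p fun h' => h h'.1
  · by_cases h' : ed p ∈ D ∧ ed (M.nxt p) ∈ D
    · rw [hL p h'.1 h'.2]
      exact h'.2
    · rw [hN p h']
      exact h
  · by_cases h' : ed p ∈ D ∧ ed (M.nxt p) ∈ D
    · rw [hL p h'.1 h'.2]
      exact M.nxt_fst p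
    · rw [hN p h']
  · refine ⟨M.nxt p, M.nxt_fst p, fun h' => ?_⟩
    have h2 := h.2
    rw [hL p h.1 h'] at h2
    exact M.nxt_ne p h2
  · by_cases hex : ∃ q, Um D (part D M) q ∧ Relation.EqvGen (rV D (part D M)) p q
    · exact Or.inl hex
    · refine Or.inr fun q hq => ?_
      have h1 : ∀ x, (ed x ∈ D ∧ Relation.EqvGen (rV D (part D M)) p x) →
          (ed (side x) ∈ D ∧ Relation.EqvGen (rV D (part D M)) p (side x)) := by
        rintro x ⟨hx, hpx⟩
        exact ⟨hx, Relation.EqvGen.trans _ _ _ hpx (Relation.EqvGen.rel _ _ ⟨hx, Or.inr rfl⟩)⟩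
      have h2 : ∀ x, (ed x ∈ D ∧ Relation.EqvGen (rV D (part D M)) p x) →
          (ed (M.nxt x) ∈ D ∧ Relation.EqvGen (rV D (part D M)) p (M.nxt x)) := by
        rintro x ⟨hx, hpx⟩
        by_cases hn : ed (M.nxt x) ∈ D
        · exact ⟨hn, Relation.EqvGen.trans _ _ _ hpx (Relation.EqvGen.rel _ _ ⟨hx, Or.inl (hL x hx hn).symm⟩)⟩
        · exact absurd ⟨x, ⟨hx, hN x fun h' => hn h'.2⟩, hpx⟩ hex
      have h3 := eqvGen_eq (fun x => ed x ∈ D ∧ Relation.EqvGen (rV D (part D M)) p x) (fun x y hxy => by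
        refine propext ⟨fun hx => ?_, fun hy => ?_⟩
        · rcases hxy with rfl | rfl
          · exact h2 x hx
          · exact h1 x hx
        · rcases hxy with rfl | rfl
          · have h4 := h2 _ hy
            rw [M.nxt_nxt] at h4
            exact h4
          · have h4 := h1 _ hy
            rw [side_side] at h4
            exact h4) (M.conn p q hq.symm)
      exact h3.mp ⟨h, Relation.EqvGen.refl _⟩

theorem um_part (D : Finset G.edgeSet) (M : GMap G) (p : Flag G) :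
    Um D (part D M) p ↔ ed p ∈ D ∧ ed (M.nxt p) ∉ D := by
  unfold Um part
  constructor
  · rintro ⟨h1, h2⟩
    refine ⟨h1, fun h3 => ?_⟩
    rw [if_pos ⟨h1, h3⟩] at h2
    exact M.nxt_ne p h2
  · rintro ⟨h1, h2⟩
    exact ⟨h1, if_neg fun h3 => h2 h3.2⟩

theorem mem_mix [Fintype V] (D : Finset G.edgeSet) (M : GMap G) (p : Flag G) :
    p ∈ mix D M ↔ Um D (part D M) p := by
  rw [um_part]
  unfold mix
  rw [Finset.mem_filter]
  exact ⟨fun h' => h'.2, fun h' => ⟨Finset.mem_univ _, h'⟩⟩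

/-- the part of a map at a smaller set -/
theorem part_mono (D D' : Finset G.edgeSet) (h : D ⊆ D') (M M' : GMap G) (hM : ∀ p, part D' M p = part D' M' p) (p : Flag G) :
    part D M p = part D M' p := by
  have key : ∀ N N' : GMap G, (∀ p, part D' N p = part D' N' p) → ∀ p, ed p ∈ D → ed (N.nxt p) ∈ D →
      N'.nxt p = N.nxt p := by
    intro N N' hN p h1 h2
    have h3 := hN p
    have h4 : part D' N p = N.nxt p := if_pos ⟨h h1, h h2⟩
    rw [h4] at h3
    by_cases h5 : ed p ∈ D' ∧ ed (N'.nxt p) ∈ D'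
    · have h6 : part D' N' p = N'.nxt p := if_pos h5
      rw [h3, h6]
    · have h6 : part D' N' p = p := if_neg h5
      rw [h6] at h3
      exact absurd h3 (N.nxt_ne p)
  by_cases h1 : ed p ∈ D ∧ ed (M.nxt p) ∈ D
  · have h2 := key M M' hM p h1.1 h1.2
    have h3 : part D M p = M.nxt p := if_pos h1
    have h4 : part D M' p = M'.nxt p := if_pos ⟨h1.1, by rw [h2]; exact h1.2⟩
    rw [h3, h4, h2]
  · have h2 : ¬ (ed p ∈ D ∧ ed (M'.nxt p) ∈ D) := by
      rintro ⟨h3, h4⟩
      have h5 := key M' M (fun p => (hM p).symm) p h3 h4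
      exact h1 ⟨h3, by rw [h5]; exact h4⟩
    have h3 : part D M p = p := if_neg h1
    have h4 : part D M' p = p := if_neg h2
    rw [h3, h4]

end Pool.Agent.FGT
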