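import Pool.Agent.FGT.ExA
import Pool.Agent.FGT.Glue2

/-!
# FGT-ExB: exchanging the part of a map: the new map

`exch0`: the map `M'` with the part `L'` at `D`, the same part as `M` outside, and the corners `(θ p, M.nxt p)` for the open flags `p` of
`part D M`.
-/

set_option autoImplicit false

open Finset
open scoped Classical

namespace Pool.Agent.FGT

open Pool.Agent.BEO
open Pool.Agent.Helper35.OG hiding F2 dg

variable {V : Type} {G : SimpleGraph V}

/-- steps of `rV` between flags over `D` are steps of the relation on the subtype -/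
private theorem exb_sub (D : Finset G.edgeSet) (L : Flag G → Flag G) (hm : ∀ p, ed p ∈ D → ed (L p) ∈ D) {p q : Flag G}
    (h : Relation.EqvGen (rV D L) p q) : p = q ∨ ∃ (hp : ed p ∈ D) (hq : ed q ∈ D),
      Relation.EqvGen (fun x y : {p : Flag G // ed p ∈ D} => rV D L x.1 y.1) ⟨p, hp⟩ ⟨q, hq⟩ := by
  induction h with
  | rel x y h1 =>
    refine Or.inr ⟨h1.1, ?_, Relation.EqvGen.rel _ _ h1⟩
    rcases h1.2 with h2 | h2
    · rw [h2]
      exact hm x h1.1
    · rw [h2, ed_side]
      exact h1.1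
  | refl x => exact Or.inl rfl
  | symm x y _ ih =>
    rcases ih with h1 | ⟨h1, h2, h3⟩
    · exact Or.inl h1.symm
    · exact Or.inr ⟨h2, h1, Relation.EqvGen.symm _ _ h3⟩
  | trans x y z _ _ ih1 ih2 =>
    rcases ih1 with h1 | ⟨h1, h2, h3⟩
    · rw [h1]
      exact ih2
    · rcases ih2 with h4 | ⟨h4, h5, h6⟩
      · rw [← h4]
        exact Or.inr ⟨h1, h2, h3⟩
      · exact Or.inr ⟨h1, h5, Relation.EqvGen.trans _ _ _ h3 h6⟩

/-- classes are mapped to classes -/
private theorem exb_map {X Y : Type} {r : X → X → Prop} {s : Y → Y → Prop} (f : X → Y)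
    (h : ∀ x y, r x y → Relation.EqvGen s (f x) (f y)) {x y : X} (hxy : Relation.EqvGen r x y) :
    Relation.EqvGen s (f x) (f y) := by
  induction hxy with
  | rel x y h1 => exact h x y h1
  | refl x => exact Relation.EqvGen.refl _
  | symm x y _ ih => exact Relation.EqvGen.symm _ _ ih
  | trans x y z _ _ ih1 ih2 => exact Relation.EqvGen.trans _ _ _ ih1 ih2

private theorem exb_iff (D : Finset G.edgeSet) (L : Flag G → Flag G) (hm : ∀ p, ed p ∈ D → ed (L p) ∈ D)
    (x y : {p : Flag G // ed p ∈ D}) :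
    Relation.EqvGen (fun x y : {p : Flag G // ed p ∈ D} => rV D L x.1 y.1) x y ↔ Relation.EqvGen (rV D L) x.1 y.1 := by
  constructor
  · intro h
    exact exb_map (s := rV D L) (fun z : {p : Flag G // ed p ∈ D} => z.1)
      (fun a b hab => Relation.EqvGen.rel _ _ hab) h
  · intro h
    rcases exb_sub D L hm h with h1 | ⟨h1, h2, h3⟩
    · rw [Subtype.ext h1]
      exact Relation.EqvGen.refl _
    · exact h3

theorem exch0 (D : Finset G.edgeSet) (M : GMap G) (L' θ : Flag G → Flag G) (hL : OMap D L')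
    (hs : Same D (part D M) L' θ) : ∃ M' : GMap G, (∀ p, part D M' p = L' p) ∧
      (∀ p, ed p ∉ D → ed (M.nxt p) ∉ D → M'.nxt p = M.nxt p) ∧ ∀ p, Um D (part D M) p → M'.nxt (θ p) = M.nxt p := by
  have hLp := omap_part D M
  have hsur : ∀ q, ∃ p, Um D L' q → Um D (part D M) p ∧ θ p = q := by
    intro q
    by_cases hq : Um D L' q
    · obtain ⟨p, h1, h2⟩ := hs.sur q hq
      exact ⟨p, fun _ => ⟨h1, h2⟩⟩
    · exact ⟨q, fun h => absurd h hq⟩
  choose σ hσ using hsur
  obtain ⟨nx, ha, hb, hc, hd⟩ : ∃ nx : Flag G → Flag G, (∀ p, ed p ∈ D → L' p ≠ p → nx p = L' p) ∧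
      (∀ p, Um D L' p → nx p = M.nxt (σ p)) ∧ (∀ p, ed p ∉ D → ed (M.nxt p) ∈ D → nx p = θ (M.nxt p)) ∧
      ∀ p, ed p ∉ D → ed (M.nxt p) ∉ D → nx p = M.nxt p := by
    refine ⟨fun p => if ed p ∈ D then (if L' p = p then M.nxt (σ p) else L' p) else
      (if ed (M.nxt p) ∈ D then θ (M.nxt p) else M.nxt p), fun p h1 h2 => ?_, fun p h1 => ?_, fun p h1 h2 => ?_,
      fun p h1 h2 => ?_⟩
    · show (if ed p ∈ D then (if L' p = p then M.nxt (σ p) else L' p) else
        (if ed (M.nxt p) ∈ D then θ (M.nxt p) else M.nxt p)) = L' p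
      rw [if_pos h1, if_neg h2]
    · show (if ed p ∈ D then (if L' p = p then M.nxt (σ p) else L' p) else
        (if ed (M.nxt p) ∈ D then θ (M.nxt p) else M.nxt p)) = M.nxt (σ p)
      rw [if_pos h1.1, if_pos h1.2]
    · show (if ed p ∈ D then (if L' p = p then M.nxt (σ p) else L' p) else
        (if ed (M.nxt p) ∈ D then θ (M.nxt p) else M.nxt p)) = θ (M.nxt p)
      rw [if_neg h1, if_pos h2]
    · show (if ed p ∈ D then (if L' p = p then M.nxt (σ p) else L' p) else
        (if ed (M.nxt p) ∈ D then θ (M.nxt p) else M.nxt p)) = M.nxt p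
      rw [if_neg h1, if_neg h2]
  have hUo : ∀ p, Um D (part D M) p → ed (M.nxt p) ∉ D := fun p h => ((um_part D M p).1 h).2
  have hUi : ∀ p, ed p ∉ D → ed (M.nxt p) ∈ D → Um D (part D M) (M.nxt p) := by
    intro p h1 h2
    rw [um_part, M.nxt_nxt]
    exact ⟨h2, h1⟩
  have he : ∀ p, Um D (part D M) p → nx (θ p) = M.nxt p := by
    intro p hp
    have h1 := hs.map p hp
    obtain ⟨h2, h3⟩ := hσ (θ p) h1
    rw [hb _ h1, hs.inj _ _ h2 hp h3]
  -- the four cases
  have hcase : ∀ p, (ed p ∈ D ∧ L' p ≠ p) ∨ Um D L' p ∨ (ed p ∉ D ∧ ed (M.nxt p) ∈ D) ∨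
      (ed p ∉ D ∧ ed (M.nxt p) ∉ D) := by
    intro p
    by_cases h1 : ed p ∈ D
    · by_cases h2 : L' p = p
      · exact Or.inr (Or.inl ⟨h1, h2⟩)
      · exact Or.inl ⟨h1, h2⟩
    · by_cases h2 : ed (M.nxt p) ∈ D
      · exact Or.inr (Or.inr (Or.inl ⟨h1, h2⟩))
      · exact Or.inr (Or.inr (Or.inr ⟨h1, h2⟩))
  have hnn : ∀ p, nx (nx p) = p := by
    intro p
    rcases hcase p with ⟨h1, h2⟩ | h1 | ⟨h1, h2⟩ | ⟨h1, h2⟩
    · rw [ha p h1 h2, ha (L' p) (hL.mem p h1) (by rw [hL.inv]; exact fun h => h2 h.symm), hL.inv]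
    · obtain ⟨h2, h3⟩ := hσ p h1
      rw [hb p h1, hc (M.nxt (σ p)) (hUo _ h2) (by rw [M.nxt_nxt]; exact h2.1), M.nxt_nxt, h3]
    · rw [hc p h1 h2, he _ (hUi p h1 h2), M.nxt_nxt]
    · rw [hd p h1 h2, hd (M.nxt p) h2 (by rw [M.nxt_nxt]; exact h1), M.nxt_nxt]
  have hne : ∀ p, nx p ≠ p := by
    intro p
    rcases hcase p with ⟨h1, h2⟩ | h1 | ⟨h1, h2⟩ | ⟨h1, h2⟩
    · rw [ha p h1 h2]
      exact h2
    · obtain ⟨h2, h3⟩ := hσ p h1
      rw [hb p h1]
      intro h4
      have h5 := hUo _ h2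
      rw [h4] at h5
      exact h5 h1.1
    · rw [hc p h1 h2]
      intro h4
      have h5 := (hs.map _ (hUi p h1 h2)).1
      rw [h4] at h5
      exact h1 h5
    · rw [hd p h1 h2]
      exact M.nxt_ne p
  have hfst : ∀ p, (nx p).1.fst = p.1.fst := by
    intro p
    rcases hcase p with ⟨h1, h2⟩ | h1 | ⟨h1, h2⟩ | ⟨h1, h2⟩
    · rw [ha p h1 h2, hL.fst]
    · obtain ⟨h2, h3⟩ := hσ p h1
      rw [hb p h1, M.nxt_fst, ← hs.fst _ h2, h3]
    · rw [hc p h1 h2, hs.fst _ (hUi p h1 h2), M.nxt_fst]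
    · rw [hd p h1 h2, M.nxt_fst]
  -- inner steps
  have hV : ∀ x y, rV D L' x y → Relation.EqvGen (fun x y => y = nx x ∨ y = side x) x y := by
    rintro x y ⟨h1, h2⟩
    rcases h2 with h2 | h2
    · by_cases h3 : L' x = x
      · rw [h2, h3]
        exact Relation.EqvGen.refl _
      · exact Relation.EqvGen.rel _ _ (Or.inl (by rw [ha x h1 h3]; exact h2))
    · exact Relation.EqvGen.rel _ _ (Or.inr h2)
  -- outer flags at one vertex
  have hout : ∀ p q : Flag G, ed p ∉ D → ed q ∉ D → p.1.fst = q.1.fst →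
      Relation.EqvGen (fun x y => y = nx x ∨ y = side x) p q := by
    intro p q hp hq hpq
    have hM := M.conn p q hpq
    set RA : {p : Flag G // ed p ∈ D} → {p : Flag G // ed p ∈ D} → Prop := fun x y => rV D (part D M) x.1 y.1 with hRA
    set RA' : {p : Flag G // ed p ∈ D} → {p : Flag G // ed p ∈ D} → Prop := fun x y => rV D L' x.1 y.1 with hRA'
    set RB : {p : Flag G // ed p ∉ D} → {p : Flag G // ed p ∉ D} → Prop :=
      fun x y => y.1 = M.nxt x.1 ∨ y.1 = side x.1 with hRB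
    set u : {p : Flag G // Um D (part D M) p} → {p : Flag G // ed p ∈ D} := fun i => ⟨i.1, i.2.1⟩ with hu
    set u' : {p : Flag G // Um D (part D M) p} → {p : Flag G // ed p ∈ D} := fun i => ⟨θ i.1, (hs.map i.1 i.2).1⟩ with hu'
    set w : {p : Flag G // Um D (part D M) p} → {p : Flag G // ed p ∉ D} := fun i => ⟨M.nxt i.1, hUo i.1 i.2⟩ with hw
    set e : Flag G → {p : Flag G // ed p ∈ D} ⊕ {p : Flag G // ed p ∉ D} :=
      fun p => if h : ed p ∈ D then Sum.inl ⟨p, h⟩ else Sum.inr ⟨p, h⟩ with he'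
    have hein : ∀ x (h : ed x ∈ D), e x = Sum.inl ⟨x, h⟩ := fun x h => dif_pos h
    have heout : ∀ x (h : ed x ∉ D), e x = Sum.inr ⟨x, h⟩ := fun x h => dif_neg h
    have h1 : Relation.EqvGen (glu RA RB u w) (e p) (e q) := by
      refine exb_map e ?_ hM
      rintro x y (h2 | h2)
      · by_cases hx : ed x ∈ D
        · by_cases hy : ed y ∈ D
          · rw [hein x hx, hein y hy]
            refine Relation.EqvGen.rel _ _ ?_
            show rV D (part D M) x y
            refine ⟨hx, Or.inl ?_⟩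
            have h3 : part D M x = M.nxt x := if_pos ⟨hx, by rw [← h2]; exact hy⟩
            rw [h3, h2]
          · rw [hein x hx, heout y hy]
            refine Relation.EqvGen.rel _ _ ?_
            have h3 : Um D (part D M) x := by
              rw [um_part]
              exact ⟨hx, by rw [← h2]; exact hy⟩
            exact ⟨⟨x, h3⟩, rfl, Subtype.ext h2.symm⟩
        · by_cases hy : ed y ∈ D
          · rw [heout x hx, hein y hy]
            refine Relation.EqvGen.symm _ _ (Relation.EqvGen.rel _ _ ?_)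
            have h4 : M.nxt y = x := by rw [h2, M.nxt_nxt]
            have h3 : Um D (part D M) y := by
              rw [um_part]
              exact ⟨hy, by rw [h4]; exact hx⟩
            exact ⟨⟨y, h3⟩, rfl, Subtype.ext h4⟩
          · rw [heout x hx, heout y hy]
            refine Relation.EqvGen.rel _ _ ?_
            exact Or.inl h2
      · by_cases hx : ed x ∈ D
        · have hy : ed y ∈ D := by
            rw [h2, ed_side]
            exact hx
          rw [hein x hx, hein y hy]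
          refine Relation.EqvGen.rel _ _ ?_
          show rV D (part D M) x y
          exact ⟨hx, Or.inr h2⟩
        · have hy : ed y ∉ D := by
            rw [h2, ed_side]
            exact hx
          rw [heout x hx, heout y hy]
          refine Relation.EqvGen.rel _ _ ?_
          exact Or.inr h2
    rw [heout p hp, heout q hq] at h1
    have hh : ∀ i j, Relation.EqvGen RA (u i) (u j) ↔ Relation.EqvGen RA' (u' i) (u' j) := by
      intro i j
      exact (exb_iff D (part D M) hLp.mem (u i) (u j)).trans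
        ((hs.v i.1 j.1 i.2 j.2).trans (exb_iff D L' hL.mem (u' i) (u' j)).symm)
    have h2 := (glue2_iff RA RA' RB u u' w hh ⟨p, hp⟩ ⟨q, hq⟩).1 h1
    refine exb_map (r := glu RA' RB u' w) (s := fun x y => y = nx x ∨ y = side x)
      (fun z : {p : Flag G // ed p ∈ D} ⊕ {p : Flag G // ed p ∉ D} => Sum.elim (fun a => a.1) (fun a => a.1) z) ?_ h2
    rintro (x | x) (y | y) h3
    · exact hV x.1 y.1 h3
    · obtain ⟨i, h4, h5⟩ := h3
      refine Relation.EqvGen.rel _ _ (Or.inl ?_)
      show y.1 = nx x.1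
      have h6 : x.1 = θ i.1 := by rw [← h4]
      have h7 : y.1 = M.nxt i.1 := by rw [← h5]
      rw [h6, h7, he _ i.2]
    · exact h3.elim
    · have h4 : y.1 = M.nxt x.1 ∨ y.1 = side x.1 := h3
      refine Relation.EqvGen.rel _ _ ?_
      show y.1 = nx x.1 ∨ y.1 = side x.1
      rcases h4 with h4 | h4
      · refine Or.inl ?_
        rw [hd x.1 x.2 (by rw [← h4]; exact y.2)]
        exact h4
      · exact Or.inr h4
  have hv : ∀ {p q : Flag G}, Relation.EqvGen (fun x y => y = nx x ∨ y = side x) p q → p.1.fst = q.1.fst := by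
    intro p q h
    refine eqvGen_eq (fun x : Flag G => x.1.fst) ?_ h
    rintro x y (h1 | h1)
    · rw [h1, hfst]
    · rw [h1, side_fst]
  have hin : ∀ p, (∃ q, ed q ∉ D ∧ Relation.EqvGen (fun x y => y = nx x ∨ y = side x) p q) ∨
      ∀ q : Flag G, q.1.fst = p.1.fst → Relation.EqvGen (fun x y => y = nx x ∨ y = side x) p q := by
    intro p
    by_cases hp : ed p ∈ D
    · rcases hL.run p hp with ⟨q, h1, h2⟩ | h1
      · refine Or.inl ⟨nx q, ?_, Relation.EqvGen.trans _ q _ (exb_map (s := fun x y => y = nx x ∨ y = side x)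
          (fun x : Flag G => x) hV h2) (Relation.EqvGen.rel _ _ (Or.inl rfl))⟩
        rw [hb q h1]
        exact hUo _ (hσ q h1).1
      · exact Or.inr fun q hq => exb_map (s := fun x y => y = nx x ∨ y = side x) (fun x : Flag G => x) hV (h1 q hq).2
    · exact Or.inl ⟨p, hp, Relation.EqvGen.refl _⟩
  refine ⟨⟨nx, hnn, hne, hfst, fun p q hpq => ?_⟩, fun p => ?_, fun p h1 h2 => hd p h1 h2, fun p hp => he p hp⟩
  · rcases hin p with ⟨p', h1, h2⟩ | h1
    · rcases hin q with ⟨q', h3, h4⟩ | h3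
      · exact Relation.EqvGen.trans _ _ _ h2 (Relation.EqvGen.trans _ _ _
          (hout p' q' h1 h3 (by rw [← hv h2, ← hv h4]; exact hpq)) (Relation.EqvGen.symm _ _ h4))
      · exact Relation.EqvGen.symm _ _ (h3 p hpq)
    · exact h1 q hpq.symm
  · show (if ed p ∈ D ∧ ed (nx p) ∈ D then nx p else p) = L' p
    rcases hcase p with ⟨h1, h2⟩ | h1 | ⟨h1, h2⟩ | ⟨h1, h2⟩
    · rw [ha p h1 h2, if_pos ⟨h1, hL.mem p h1⟩]
    · rw [if_neg, h1.2]
      rintro ⟨-, h2⟩
      rw [hb p h1] at h2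
      exact hUo _ (hσ p h1).1 h2
    · rw [if_neg fun h => h1 h.1, hL.out p h1]
    · rw [if_neg fun h => h1 h.1, hL.out p h1]

end Pool.Agent.FGT
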