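import Pool.Agent.FGT.Defs

/-!
# FGT-ExDef: open maps on a set of edges (definitions)

An open map on `D` is an involution `L` of the flags which is the identity outside `D`; its fixed points over `D` are the open
flags (their corner is completed outside `D`). The relations `rV`, `rF`, `rC` are the steps inside `D` around the vertices, along
the faces, and between coloured flags.
-/

set_option autoImplicit false

open Finset
open scoped Classical

namespace Pool.Agent.FGT

open Pool.Agent.BEO
open Pool.Agent.Helper35.OG hiding F2 dg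

variable {V : Type} {G : SimpleGraph V}

/-- steps inside `D` around the vertices -/
def rV (D : Finset G.edgeSet) (L : Flag G → Flag G) (x y : Flag G) : Prop := ed x ∈ D ∧ (y = L x ∨ y = side x)

/-- steps inside `D` along the faces -/
def rF (D : Finset G.edgeSet) (L : Flag G → Flag G) (x y : Flag G) : Prop := ed x ∈ D ∧ (y = L x ∨ y = across x)

/-- steps inside `D` between coloured flags: every step changes the colour -/
def rC (D : Finset G.edgeSet) (L : Flag G → Flag G) (x y : Flag G × Bool) : Prop :=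
  ed x.1 ∈ D ∧ ((L x.1 ≠ x.1 ∧ y = (L x.1, !x.2)) ∨ y = (side x.1, !x.2) ∨ y = (across x.1, !x.2))

/-- `p` is an open flag of `L` -/
def Um (D : Finset G.edgeSet) (L : Flag G → Flag G) (p : Flag G) : Prop := ed p ∈ D ∧ L p = p

/-- open maps on `D` -/
structure OMap (D : Finset G.edgeSet) (L : Flag G → Flag G) : Prop where
  inv : ∀ p, L (L p) = p
  out : ∀ p, ed p ∉ D → L p = p
  mem : ∀ p, ed p ∈ D → ed (L p) ∈ D
  fst : ∀ p, (L p).1.fst = p.1.fst
  ub : ∀ p, Um D L p → ∃ q : Flag G, q.1.fst = p.1.fst ∧ ed q ∉ D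
  run : ∀ p, ed p ∈ D → (∃ q, Um D L q ∧ Relation.EqvGen (rV D L) p q) ∨
    ∀ q : Flag G, q.1.fst = p.1.fst → ed q ∈ D ∧ Relation.EqvGen (rV D L) p q

/-- the number of faces closed inside `D` -/
noncomputable def clo (D : Finset G.edgeSet) (L : Flag G → Flag G) : ℕ :=
  Nat.card {c : Quot (rF D L) // (∃ p, Quot.mk _ p = c ∧ ed p ∈ D) ∧ ∀ q, Um D L q → Quot.mk _ q ≠ c}

/-- `L` and `L'` look the same from outside, `θ` maps the open flags of `L` to those of `L'` -/
structure Same (D : Finset G.edgeSet) (L L' : Flag G → Flag G) (θ : Flag G → Flag G) : Prop where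
  map : ∀ p, Um D L p → Um D L' (θ p)
  inj : ∀ p q, Um D L p → Um D L q → θ p = θ q → p = q
  sur : ∀ q, Um D L' q → ∃ p, Um D L p ∧ θ p = q
  fst : ∀ p, Um D L p → (θ p).1.fst = p.1.fst
  v : ∀ p q, Um D L p → Um D L q → (Relation.EqvGen (rV D L) p q ↔ Relation.EqvGen (rV D L') (θ p) (θ q))
  f : ∀ p q, Um D L p → Um D L q → (Relation.EqvGen (rF D L) p q ↔ Relation.EqvGen (rF D L') (θ p) (θ q))
  c : ∀ p q, Um D L p → Um D L q → ∀ b, (Relation.EqvGen (rC D L) (p, false) (q, b) ↔
    Relation.EqvGen (rC D L') (θ p, false) (θ q, b))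
  ni : (∃ p, ed p ∈ D ∧ Relation.EqvGen (rC D L') (p, false) (p, true)) →
    ∃ p, ed p ∈ D ∧ Relation.EqvGen (rC D L) (p, false) (p, true)

end Pool.Agent.FGT
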