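import Pool.Agent.FGT.FuA
import Pool.Agent.SCG.FpSz

/-!
# FGT-FuE: the size of the tables is polynomially bounded

PLAN. Compare `SCG/FpSz.lean`. Every entry stored by `slD b m l d (cs.map (nrE l))` is `nrE l x` and passes `vl1 l d`, so it is
`(fl l).filter _ |>.map fun p => (p, nE x p)` with all `nE x p` in `fD l d`, a sublist of `fl l`: its size is at most
`(number of members of fl l) * (size of a pair of members of fl l)`. `bst` returns at most one element for every signature. The sets of edges: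
`fp_dks` and the bound of an `FP` function.
-/

set_option autoImplicit false

namespace Pool.Agent.FGT

open Turing Function N487b59b3 N68a2faeb Pool.Agent.Helper22 Pool.Agent.Helper6.WB Pool.Agent.Helper47.TR Computability
open Pool.Agent.BEO (look memb ddp comp cds Pt Ec Inp sd ac ek fl fp_eq fp_mapc fp_flat fp_filt fp_look fp_memb fp_ddp fp_comp
  fp_sd fp_ac fp_ek fp_fl fp_cds)
open Pool.Agent.SCG (edl nx bst bls fp_edl fp_nx fp_bst)

section

variable {α β γ δ : Type} [N487b59b3 α] [N487b59b3 β] [N487b59b3 γ] [N487b59b3 δ]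

omit [N487b59b3 β] in
private theorem fe_len (val : β → ℕ) (l : List β) : (bst val l).length ≤ 1 := by
  have key : ∀ (l acc : List β), acc.length ≤ 1 →
      (l.foldl (fun acc x => if acc.any (fun y => decide (val x ≤ val y)) then acc else [x]) acc).length ≤ 1 := by
    intro l
    induction l with
    | nil => exact fun acc h => h
    | cons a l ih =>
      intro acc h
      rw [List.foldl_cons]
      refine ih _ ?_
      split
      · exact h
      · exact le_rfl
  exact key l [] (Nat.zero_le 1)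

private theorem fe_ent (l : Inp) (d : List Ec) (x : En) (h : vl1 l d (nrE l x) = true) :
    sz (nrE l x) ≤ sz (fl l) * (2 * (2 * sz (fl l) + 1 + sz (fl l)) + 1) := by
  have h1 : ∀ y ∈ nrE l x, y.2 ∈ fl l := by
    intro y hy
    unfold vl1 at h
    rw [List.all_eq_true] at h
    have h2 := h y hy
    simp only [Bool.and_eq_true] at h2
    have h3 := (Pool.Agent.BEO.memb_iff _ _).1 h2.1.1.2
    exact List.mem_of_mem_filter h3
  have h4 : sz (nrE l x) ≤ ((fl l).filter fun p => !decide (nE x p = p)).length *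
      (2 * (2 * sz (fl l) + 1 + sz (fl l)) + 1) := by
    refine sz_map_le (fun p : Pt => (p, nE x p)) _ _ ?_
    intro p hp
    rw [sz_pair]
    have h5 : sz p ≤ sz (fl l) := sz_mem_le (List.mem_of_mem_filter hp)
    have h6 : sz (nE x p) ≤ sz (fl l) :=
      sz_mem_le (h1 (p, nE x p) (List.mem_map.2 ⟨p, hp, rfl⟩))
    omega
  refine h4.trans (Nat.mul_le_mul_right _ ?_)
  exact (List.length_filter_le _ _).trans (length_le_sz _)

private theorem fe_sel (b m : ℕ) (l : Inp) (d : List Ec) (cs : List En) :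
    sz (slD b m l d (cs.map (nrE l))) ≤ (bls m).length *
      (2 * (sz (fl l) * (2 * (2 * sz (fl l) + 1 + sz (fl l)) + 1)) + 1) := by
  unfold slD
  refine Pool.Agent.Helper47.TR.sz_flatMap_le _ _ _ fun σ _ => ?_
  have h1 := sz_map_le (fun b : En => b)
    (bst (clD l d) ((cs.map (nrE l)).filter fun x => vlD b l d x && decide (sgD l d x = σ)))
    (sz (fl l) * (2 * (2 * sz (fl l) + 1 + sz (fl l)) + 1)) (by
      intro y hy
      have h2 := Pool.Agent.SCG.bst_mem _ _ _ hy
      rw [List.mem_filter] at h2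
      obtain ⟨h3, h4⟩ := h2
      obtain ⟨x, _, rfl⟩ := List.mem_map.1 h3
      simp only [vlD, Bool.and_eq_true] at h4
      exact fe_ent l d x h4.1.1.1)
  rw [List.map_id'] at h1
  refine h1.trans ?_
  have h3 := fe_len (clD l d) ((cs.map (nrE l)).filter fun x => vlD b l d x && decide (sgD l d x = σ))
  calc _ ≤ 1 * (2 * (sz (fl l) * (2 * (2 * sz (fl l) + 1 + sz (fl l)) + 1)) + 1) := Nat.mul_le_mul_right _ h3
    _ = _ := one_mul _

theorem rd_sz (C b m : ℕ) (cand : Inp → List Ec → List En) : ∃ B : ℕ → ℕ, PB B ∧ Monotone B ∧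
    ∀ (l : Inp) (t : Tb), sz (rdD C b m cand l t) ≤ B (sz l) := by
  obtain ⟨Bk, hBk, hBkm, hBkle⟩ := (fp_dks C (f := fun l : Inp => l) FP.id).bound
  obtain ⟨Be, hBe, hBem, hBele⟩ := (fp_fl (f := fun l : Inp => l) FP.id).bound
  refine ⟨fun n => Bk n * (2 * (2 * Bk n + 1 + (bls m).length *
    (2 * (Be n * (2 * (2 * Be n + 1 + Be n) + 1)) + 1)) + 1), ?_, ?_, ?_⟩
  · exact hBk.mul (((PB.const 2).mul ((((PB.const 2).mul hBk).add (PB.const 1)).add
      ((PB.const _).mul (((PB.const 2).mul (hBe.mul (((PB.const 2).mul ((((PB.const 2).mul hBe).add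
        (PB.const 1)).add hBe)).add (PB.const 1)))).add (PB.const 1))))).add (PB.const 1))
  · intro a b hab
    have h1 := hBkm hab
    have h2 := hBem hab
    have h2' : Be a * (2 * (2 * Be a + 1 + Be a) + 1) ≤ Be b * (2 * (2 * Be b + 1 + Be b) + 1) :=
      Nat.mul_le_mul h2 (by omega)
    have h3 : (bls m).length * (2 * (Be a * (2 * (2 * Be a + 1 + Be a) + 1)) + 1) ≤
        (bls m).length * (2 * (Be b * (2 * (2 * Be b + 1 + Be b) + 1)) + 1) :=
      Nat.mul_le_mul_left _ (by omega)
    exact Nat.mul_le_mul h1 (by omega)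
  · intro l t
    have h1 := hBkle l
    have h2 := hBele l
    have h2' : sz (fl l) * (2 * (2 * sz (fl l) + 1 + sz (fl l)) + 1) ≤
        Be (sz l) * (2 * (2 * Be (sz l) + 1 + Be (sz l)) + 1) :=
      Nat.mul_le_mul h2 (by omega)
    have h3 : (bls m).length * (2 * (sz (fl l) * (2 * (2 * sz (fl l) + 1 + sz (fl l)) + 1)) + 1) ≤
        (bls m).length * (2 * (Be (sz l) * (2 * (2 * Be (sz l) + 1 + Be (sz l)) + 1)) + 1) :=
      Nat.mul_le_mul_left _ (by omega)
    unfold rdD
    have h4 := sz_map_le (fun d : List Ec =>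
      (d, slD b m l d ((bsD l d ++ (cand l d ++ cmD b l t d)).map (nrE l)))) (dks C l)
      (2 * Bk (sz l) + 1 + (bls m).length * (2 * (Be (sz l) * (2 * (2 * Be (sz l) + 1 + Be (sz l)) + 1)) + 1)) (by
        intro q hq
        have h5 := sz_mem_le hq
        have h6 := fe_sel b m l q (bsD l q ++ (cand l q ++ cmD b l t q))
        show sz (q, slD b m l q ((bsD l q ++ (cand l q ++ cmD b l t q)).map (nrE l))) ≤ _
        rw [sz_pair]
        omega)
    refine h4.trans (Nat.mul_le_mul_right _ ?_)
    exact (length_le_sz _).trans h1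

end

end Pool.Agent.FGT
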