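import Pool.Agent.FGT.FuD
import Pool.Agent.FGT.FuE

/-!
# FGT-FuF: the tables in polynomial time

PLAN. As `SCG/FpTab.lean` (`FP.iterate` with the bound `rd_sz`) and `SCG/FpEnt.lean`.
-/

set_option autoImplicit false

namespace Pool.Agent.FGT

open Turing Function N487b59b3 N68a2faeb Pool.Agent.Helper22 Pool.Agent.Helper6.WB Pool.Agent.Helper47.TR Computability
open Pool.Agent.BEO (look memb ddp comp cds Pt Ec Inp sd ac ek fl fp_eq fp_mapc fp_flat fp_filt fp_look fp_memb fp_ddp fp_comp
  fp_sd fp_ac fp_ek fp_fl fp_cds)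
open Pool.Agent.SCG (edl nx bst bls fp_edl fp_nx fp_bst)

section

variable {α β γ δ : Type} [N487b59b3 α] [N487b59b3 β] [N487b59b3 γ] [N487b59b3 δ]

private theorem ff_rd (C b m : ℕ) (cand : Inp → List Ec → List En)
    (hc : FP fun p : Inp × List Ec => cand p.1 p.2) {f : α → Inp} {t : α → Tb} (hf : FP f) (ht : FP t) :
    FP fun a => rdD C b m cand (f a) (t a) := by
  have hf' : FP fun q : α × List Ec => f q.1 := hf.comp FP.fst
  have ht' : FP fun q : α × List Ec => t q.1 := ht.comp FP.fst
  have h0 : FP fun q : α × List Ec => cand (f q.1) q.2 := hc.comp (FP.pair hf' FP.snd)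
  have h1 : FP fun q : α × List Ec => bsD (f q.1) q.2 ++ (cand (f q.1) q.2 ++ cmD b (f q.1) (t q.1) q.2) :=
    FP.append (fp_bsD hf' FP.snd) (FP.append h0 (fp_cmD b hf' ht' FP.snd))
  have h2 : FP fun w : (α × List Ec) × En => nrE (f w.1.1) w.2 :=
    fp_nrE (hf.comp (FP.fst.comp FP.fst)) FP.snd
  have h3 : FP fun q : α × List Ec => (bsD (f q.1) q.2 ++ (cand (f q.1) q.2 ++
      cmD b (f q.1) (t q.1) q.2)).map (nrE (f q.1)) := fp_mapc h2 h1
  have h4 : FP fun q : α × List Ec => (q.2, slD b m (f q.1) q.2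
      ((bsD (f q.1) q.2 ++ (cand (f q.1) q.2 ++ cmD b (f q.1) (t q.1) q.2)).map (nrE (f q.1)))) :=
    FP.pair FP.snd (fp_slD b m hf' FP.snd h3)
  exact fp_mapc h4 (fp_dks C hf)

private theorem ff_state (C b m : ℕ) (cand : Inp → List Ec → List En) (l : Inp) (t : Tb) (i : ℕ) :
    (fun s : Inp × Tb => (s.1, rdD C b m cand s.1 s.2))^[i] (l, t) = (l, (rdD C b m cand l)^[i] t) := by
  induction i with
  | zero => rfl
  | succ i ih => rw [Function.iterate_succ_apply', Function.iterate_succ_apply', ih]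

private theorem ff_tb (C b m : ℕ) (cand : Inp → List Ec → List En)
    (hc : FP fun p : Inp × List Ec => cand p.1 p.2) {f : α → Inp} (hf : FP f) :
    FP fun a => tbD C b m cand (f a) := by
  obtain ⟨B, hB, hm, hle⟩ := rd_sz C b m cand
  have hst : FP fun s : Inp × Tb => (s.1, rdD C b m cand s.1 s.2) :=
    FP.pair FP.fst (ff_rd C b m cand hc FP.fst FP.snd)
  have hB' : PB fun n => n + (2 * n + 1 + B n) :=
    PB.add PB.id (PB.add (PB.add (PB.mul (PB.const 2) PB.id) (PB.const 1)) hB)
  have h := FP.iterate (β := Ec) hst (B := fun n => n + (2 * n + 1 + B n)) hB' (by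
    rintro l ⟨A, t⟩ i hi
    have h1 : sz (A, t) = 2 * sz A + 1 + sz t := sz_pair A t
    have h3 : sz A ≤ sz l + sz (A, t) := by omega
    cases i with
    | zero =>
      show sz (A, t) ≤ _
      omega
    | succ i =>
      rw [ff_state, Function.iterate_succ_apply', sz_pair]
      have h2 := hle A ((rdD C b m cand A)^[i] t)
      have h4 := hm h3
      omega)
  have hp : FP fun a => (((0, 0) : Ec) :: edl (f a)) := FP.cons (FP.const _) (fp_edl hf)
  have h2 := (h.comp (FP.pair hp (FP.pair hf (FP.const [])))).snd'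
  refine (congrArg FP (funext fun a => ?_)).mp h2
  simp only [ff_state]
  rfl

private theorem ff_any [Inhabited β] {h : α × β → Bool} (hh : FP h) {l : α → List β} (hl : FP l) :
    FP fun a => (l a).any fun b => h (a, b) :=
  (FP.any_ctx hh).comp (FP.pair FP.id hl)

private theorem ff_headD [Inhabited β] {l : α → List β} {d : α → β} (hl : FP l) (hd : FP d) :
    FP fun a => (l a).headD (d a) := by
  have h1 : FP fun a => if (l a).isEmpty then d a else (l a).headD default :=
    FP.ite (FP.isEmpty hl) hd (FP.headD hl default)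
  refine (congrArg FP (funext fun a => ?_)).mp h1
  cases l a <;> rfl

theorem fp_slv (C b m : ℕ) (cand : Inp → List Ec → List En) (hc : FP fun p : Inp × List Ec => cand p.1 p.2) (o : Bool)
    {f : α → Inp} (hf : FP f) : FP fun a => slv C b m cand o (f a) := by
  have h1 : FP fun a => enD C b m cand (f a) :=
    fp_look (ff_tb C b m cand hc hf) (fp_edl hf) (FP.const [])
  have hf2 : FP fun q : α × En => f q.1 := hf.comp FP.fst
  have he2 : FP fun q : α × En => edl (f q.1) := fp_edl hf2
  have h3 : FP fun q : (α × En) × Pt => eqC (lC (f q.1.1) (edl (f q.1.1)) q.1.2) q.2 q.2 true :=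
    fp_eqC (fp_lC (hf2.comp FP.fst) (he2.comp FP.fst) (FP.snd.comp FP.fst)) FP.snd FP.snd (FP.const true)
  have h2 : FP fun q : α × En => orD (f q.1) q.2 :=
    FP.not (ff_any h3 (fp_fD hf2 he2))
  have h4 : FP fun q : α × En => !o || orD (f q.1) q.2 := FP.or (FP.const _) h2
  have h5 : FP fun a => (enD C b m cand (f a)).filter fun x => !o || orD (f a) x := fp_filt h4 h1
  have h6 : FP fun q : α × En => clD (f q.1) (edl (f q.1)) q.2 := fp_clD hf2 he2 FP.snd
  have h7 : FP fun a => bst (clD (f a) (edl (f a))) ((enD C b m cand (f a)).filter fun x => !o || orD (f a) x) :=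
    fp_bst h6 h5
  exact ff_headD h7 hf

end

end Pool.Agent.FGT
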