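import Pool.Agent.FGT.DcZ
import Pool.Agent.FGT.AlE
import Pool.Agent.FGT.TsJ
import Pool.Agent.FGT.RdX
import Pool.Agent.FGT.FuF

/-!
# FGT-FinR: the solution for reduced maps from the candidates for leaves
-/

set_option autoImplicit false

open Finset
open scoped Classical

namespace Pool.Agent.FGT

open Pool.Agent.Helper35.OG (Flag GMap across side)
open Pool.Agent.BEO (F2 ed rp cyc ev cod Codes ec look memb ddp comp cds Pt Ec Inp sd ac ek fl nb)
open N487b59b3 Pool.Agent.Helper22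

/-- `cand` gives candidates for the parts of maps at leaves -/
def LeafT (k c B : ℕ) (o : Bool) (cand : Inp → List Ec → List En) : Prop :=
  ∀ (n : ℕ) (G : SimpleGraph (Fin n)), G.Connected → 2 ≤ n → ∀ S : GMap G, S.eg ≤ k → ∀ l, Codes S l →
    ∀ (K : Finset (Fin n)) (Q : Finset (Flag G)), Leaf S K Q c → ∀ d, DCodes (G := G) (rk K) d →
    ∀ M : GMap G, (o = true → M.Orientable) → (o = false → M.eg ≤ k) → (mix (rk K) M).card ≤ B →
      ∃ M' : GMap G, (∀ p, part (rk K : Finset G.edgeSet)ᶜ M' p = part (rk K : Finset G.edgeSet)ᶜ M p) ∧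
        (o = true → M'.Orientable) ∧ M'.eg ≤ M.eg ∧ ∃ x ∈ cand l d, ECodes (part (rk K) M') x

/-- the bound for the number of mixed flags of an optimal map -/
def bB (k : ℕ) : ℕ := 100000 * (12000 * k + k) ^ 4

/-- the algorithm for reduced maps -/
def slR (k : ℕ) (cand : Bool → Inp → List Ec → List En) (o : Bool) (l : Inp) : Inp :=
  slv (12000 * k) (bB k) (mm (12000 * k) (bB k)) (cand o) o l

theorem solR_of (k : ℕ) (h1 : 1 ≤ k) (cand : Bool → Inp → List Ec → List En)
    (hl : ∀ o, LeafT k (12000 * k) (bB k) o (cand o)) : SolR k (slR k cand) := by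
  intro n G hG hn S hr hS1 hSk l h o
  have hnt : Nontrivial (Fin n) := Fin.nontrivial_iff_two_le.2 hn
  refine slv_spec h hG hn _ _ (12000 * k) o (cand o) (dec_indp hG hn hr hS1 k hSk) ?_ ?_
  · intro M hM D hD
    exact alt hG S hr k h1 hSk o M hM (12000 * k) D hD
  · intro K Q hL d hd M hM
    obtain ⟨M', h2, h3, h4, h5⟩ := hl o n G hG hn S hSk l h K Q hL d hd M hM.1
      (fun ho => (hM.2 S (fun h6 => absurd (ho.symm.trans h6) Bool.false_ne_true)).trans hSk)
      (alt hG S hr k h1 hSk o M hM (12000 * k) (rk K) hL.mx)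
    exact ⟨M', ⟨h3, fun M'' h6 => h4.trans (hM.2 M'' h6)⟩, h2, h5⟩

theorem fp_slR (k : ℕ) (cand : Bool → Inp → List Ec → List En)
    (hc : ∀ o, FP fun p : Inp × List Ec => cand o p.1 p.2) (o : Bool) : FP (slR k cand o) :=
  fp_slv _ _ _ (cand o) (hc o) o FP.id

theorem solA_of (k : ℕ) (h1 : 1 ≤ k) (cand : Bool → Inp → List Ec → List En)
    (hl : ∀ o, LeafT k (12000 * k) (bB k) o (cand o)) : SolA k (sol (slR k cand)) :=
  sol_spec k _ (solR_of k h1 cand hl)

end Pool.Agent.FGT
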