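import Pool.Agent.FGT.FinR
import Pool.Agent.FGT.DiH
import Pool.Agent.FGT.DiF
import Pool.Agent.FGT.FvE

/-!
# FGT-FinS: the main theorem from the leaf theorem
-/

set_option autoImplicit false

open Finset
open scoped Classical

namespace Pool.Agent.FGT

open Pool.Agent.Helper35.OG (Flag GMap orientableGenus)
open Pool.Agent.BEO (Inp Ec)
open Pool.Agent.SCG (Lists)
open N487b59b3 N68a2faeb Pool.Agent.Helper22

variable {n : ℕ}

/-- the statement of the leaf theorem -/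
def LeafS : Prop := ∀ (k c B : ℕ) (o : Bool), ∃ cand : Inp → List Ec → List En,
  (FP fun p : Inp × List Ec => cand p.1 p.2) ∧ LeafT k c B o cand

theorem lists_of {G : SimpleGraph (Fin n)} {l : List (ℕ × ℕ)}
    (hl : ∀ x, x ∈ l ↔ ∃ u v : Fin n, G.Adj u v ∧ x = ((u : ℕ), (v : ℕ))) : Lists G l := by
  refine ⟨?_, fun x hx => (hl x).1 hx⟩
  intro u v
  constructor
  · intro huv
    exact Or.inl ((hl _).2 ⟨u, v, huv, rfl⟩)
  · rintro (h1 | h1)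
    · obtain ⟨u', v', h2, h3'⟩ := (hl _).1 h1
      obtain ⟨h4, h5⟩ := Prod.mk.inj h3'
      rw [Fin.ext h4, Fin.ext h5]
      exact h2
    · obtain ⟨u', v', h2, h3'⟩ := (hl _).1 h1
      obtain ⟨h4, h5⟩ := Prod.mk.inj h3'
      rw [Fin.ext h4, Fin.ext h5]
      exact h2.symm

theorem gam_conn {G : SimpleGraph (Fin n)} (hn : 2 ≤ n) (hG : G.Connected) : gam G = orientableGenus G := by
  have hnt : Nontrivial (Fin n) := Fin.nontrivial_iff_two_le.2 hn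
  obtain ⟨lam, hlam⟩ := Pool.Agent.SCG.exists_ori hG (Pool.Agent.SCG.stdM G)
  obtain ⟨g, hg, -⟩ := Pool.Agent.SCG.gen_le' hG _ hlam
  have hmem : orientableGenus G ∈ {g : ℕ | ∃ M : GMap G, M.Orientable ∧ M.eg = 2 * (g : ℤ)} :=
    Nat.sInf_mem ⟨g, _, hlam, hg⟩
  obtain ⟨M, hM1, hM2⟩ := hmem
  have hle : gam G ≤ orientableGenus G := Nat.sInf_le ⟨G, le_refl G, hG, M, hM1, hM2⟩
  refine le_antisymm hle ?_
  have h1 : gam G ∈ {g : ℕ | ∃ H : SimpleGraph (Fin n), G ≤ H ∧ H.Connected ∧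
      ∃ M : GMap H, M.Orientable ∧ M.eg = 2 * (g : ℤ)} := Nat.sInf_mem ⟨_, G, le_refl G, hG, M, hM1, hM2⟩
  obtain ⟨H, h2, h3, M', h4, h5⟩ := h1
  obtain ⟨M'', h6, h7⟩ := cmp (egs_eq h3 M').1 (egs_eq hG M).1 h2 (le_refl G)
    (fun z _ e he => absurd e.2 he) M'
  obtain ⟨g', h8, h9⟩ := Pool.Agent.SCG.gen_le' hG M'' (h7 h4)
  rw [(egs_eq h3 M').2, (egs_eq hG M'').2, h5, h8] at h6
  omega

theorem main_of (hS : LeafS) (k : ℕ) : ∃ f : List (ℕ × ℕ) → ℕ, IsPolyTime f ∧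
    ∀ (n : ℕ) (G : SimpleGraph (Fin n)), 2 ≤ n →
      (∃ H : SimpleGraph (Fin n), G ≤ H ∧ H.Connected ∧ ∃ M : GMap H, M.eg ≤ k) →
      ∀ l : List (ℕ × ℕ), (∀ x, x ∈ l ↔ ∃ u v : Fin n, G.Adj u v ∧ x = ((u : ℕ), (v : ℕ))) →
        f l = gam G ∧ (∃ H : SimpleGraph (Fin n), G ≤ H ∧ H.Connected ∧ ∃ M : GMap H, M.Orientable ∧
          M.eg = 2 * (gam G : ℤ)) ∧ (G.Connected → f l = orientableGenus G) := by
  choose cand hc hl using hS (k + 2) (12000 * (k + 2)) (bB (k + 2))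
  refine ⟨gn1 (slR (k + 2) cand), fp_gn1 _ (fp_slR (k + 2) cand hc), ?_⟩
  intro n G hn hH l hll
  obtain ⟨H, h1, h2, M, h3⟩ := hH
  obtain ⟨h4, h5⟩ := gen_all k _ (solA_of (k + 2) (by omega) cand hl) hn H h1 h2 M h3 (lists_of hll)
  exact ⟨h4, h5, fun hG => h4.trans (gam_conn hn hG)⟩

end Pool.Agent.FGT
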