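import Pool.Agent.FGT.FinS
import Pool.Agent.RPH.AMainA

/-!
# FGT-FinT: the leaf theorem in the form of `FinS`
-/

set_option autoImplicit false

open Finset
open scoped Classical

namespace Pool.Agent.FGT

open Pool.Agent.Helper35.OG (Flag GMap orientableGenus)
open Pool.Agent.BEO (Inp Ec)
open N487b59b3 N68a2faeb Pool.Agent.Helper22

theorem leafS : LeafS := by
  intro k c B o
  obtain ⟨cand, h1, h2⟩ := Pool.Agent.RPH.leaf k c B o
  refine ⟨cand, h1, ?_⟩
  intro n G hG hn S hk l hl K Q hL d hd M hM hMk hB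
  obtain ⟨M', -, h3, h4, h5, h6⟩ := h2 n G hG hn S hk l hl K Q hL d hd M hM hMk hB
  refine ⟨M', ?_, h4, h5, h6⟩
  intro p
  have key : ∀ D1 D2 : Finset G.edgeSet, D1 = D2 → part D2 M' p = part D2 M p → part D1 M' p = part D1 M p := by
    intro D1 D2 e1 e2
    rw [e1]
    exact e2
  exact key _ _ (Finset.ext fun e => by simp only [Finset.mem_compl]) (h3 p)

end Pool.Agent.FGT
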