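import Pool.Agent.FGT.Alg
import Pool.Agent.SCG.FpSel

/-!
# FGT-FuA: the sets of edges with a table in polynomial time
-/

set_option autoImplicit false

namespace Pool.Agent.FGT

open Turing Function N487b59b3 N68a2faeb Pool.Agent.Helper22 Pool.Agent.Helper6.WB Pool.Agent.Helper47.TR Computability
open Pool.Agent.BEO (look memb ddp comp cds Pt Ec Inp sd ac ek fl fp_eq fp_mapc fp_flat fp_filt fp_look fp_memb fp_ddp fp_comp
  fp_sd fp_ac fp_ek fp_fl fp_cds)
open Pool.Agent.SCG (edl nx bst bls fp_edl fp_nx fp_bst)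

section

variable {α β γ δ : Type} [N487b59b3 α] [N487b59b3 β] [N487b59b3 γ] [N487b59b3 δ]

private theorem fp_hrl {f : α → Inp} {K : α → List Pt} (hf : FP f) (hK : FP K) : FP fun a => hrl (f a) (K a) := by
  have h1 : FP fun q : α × Pt => !memb (K q.1) q.2 && !memb (K q.1) (nx (f q.1) q.2) :=
    FP.and (FP.not (fp_memb (hK.comp FP.fst) FP.snd))
      (FP.not (fp_memb (hK.comp FP.fst) (fp_nx (hf.comp FP.fst) FP.snd)))
  have h2 : FP fun q : α × Pt => (ek q.2, ek (nx (f q.1) q.2)) :=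
    FP.pair (fp_ek FP.snd) (fp_ek (fp_nx (hf.comp FP.fst) FP.snd))
  exact fp_mapc h2 (fp_filt h1 (fp_fl hf))

theorem fp_hcl {f : α → Inp} {K : α → List Pt} (hf : FP f) (hK : FP K) : FP fun a => hcl (f a) (K a) :=
  fp_comp (fp_edl hf) (fp_hrl hf hK)

theorem fp_dK {f : α → Inp} {K : α → List Pt} {u : α → Ec} (hf : FP f) (hK : FP K) (hu : FP u) :
    FP fun a => dK (f a) (K a) (u a) := by
  have h0 : FP fun q : α × Ec => hcl (f q.1) (K q.1) := fp_hcl (hf.comp FP.fst) (hK.comp FP.fst)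
  have h1 : FP fun q : α × Ec => decide (look (hcl (f q.1) (K q.1)) q.2 q.2 =
      look (hcl (f q.1) (K q.1)) (u q.1) (u q.1)) :=
    fp_eq (fp_look h0 FP.snd FP.snd) (fp_look h0 (hu.comp FP.fst) (hu.comp FP.fst))
  exact fp_filt h1 (fp_edl hf)

theorem fp_dks (C : ℕ) {f : α → Inp} (hf : FP f) : FP fun a => dks C (f a) := by
  have h1 : FP fun a => cds ((fl (f a)).map fun p => [p]) C :=
    fp_cds C (fp_mapc (h := fun w : α × Pt => [w.2]) (FP.cons FP.snd (FP.const [])) (fp_fl hf))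
  have h2 : FP fun q : α × List Pt => (edl (f q.1)).map fun u => dK (f q.1) q.2 u :=
    fp_mapc (h := fun w : (α × List Pt) × Ec => dK (f w.1.1) w.1.2 w.2)
      (fp_dK (hf.comp (FP.fst.comp FP.fst)) (FP.snd.comp FP.fst) FP.snd) (fp_edl (hf.comp FP.fst))
  exact fp_flat h2 h1

end

end Pool.Agent.FGT
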