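import Pool.Agent.FGT.Alg
import Pool.Agent.SCG.FpSel

/-!
# FGT-FuB: the labels of an entry in polynomial time
-/

set_option autoImplicit false

namespace Pool.Agent.FGT

open Turing Function N487b59b3 N68a2faeb Pool.Agent.Helper22 Pool.Agent.Helper6.WB Pool.Agent.Helper47.TR Computability
open Pool.Agent.BEO (look memb ddp comp cds Pt Ec Inp sd ac ek fl fp_eq fp_mapc fp_flat fp_filt fp_look fp_memb fp_ddp fp_comp
  fp_sd fp_ac fp_ek fp_fl fp_cds)
open Pool.Agent.SCG (edl nx bst bls fp_edl fp_nx fp_bst)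

section

variable {α β γ δ : Type} [N487b59b3 α] [N487b59b3 β] [N487b59b3 γ] [N487b59b3 δ]

theorem fp_fD {f : α → Inp} {d : α → List Ec} (hf : FP f) (hd : FP d) : FP fun a => fD (f a) (d a) := by
  have h : FP fun q : α × Pt => memb (d q.1) (ek q.2) := fp_memb (hd.comp FP.fst) (fp_ek FP.snd)
  exact fp_filt h (fp_fl hf)

theorem fp_nE {x : α → En} {p : α → Pt} (hx : FP x) (hp : FP p) : FP fun a => nE (x a) (p a) := by
  exact fp_look hx hp hp

theorem fp_umD {f : α → Inp} {d : α → List Ec} {x : α → En} (hf : FP f) (hd : FP d) (hx : FP x) :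
    FP fun a => umD (f a) (d a) (x a) := by
  have h : FP fun q : α × Pt => decide (nE (x q.1) q.2 = q.2) := fp_eq (fp_nE (hx.comp FP.fst) FP.snd) FP.snd
  exact fp_filt h (fp_fD hf hd)

theorem fp_lV {f : α → Inp} {d : α → List Ec} {x : α → En} (hf : FP f) (hd : FP d) (hx : FP x) :
    FP fun a => lV (f a) (d a) (x a) := by
  have hD := fp_fD hf hd
  have h1 : FP fun q : α × Pt => (q.2, nE (x q.1) q.2) := FP.pair FP.snd (fp_nE (hx.comp FP.fst) FP.snd)
  have h2 : FP fun q : α × Pt => (q.2, sd q.2) := FP.pair FP.snd (fp_sd FP.snd)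
  exact fp_comp hD (FP.append (fp_mapc h1 hD) (fp_mapc h2 hD))

theorem fp_lF {f : α → Inp} {d : α → List Ec} {x : α → En} (hf : FP f) (hd : FP d) (hx : FP x) :
    FP fun a => lF (f a) (d a) (x a) := by
  have hD := fp_fD hf hd
  have h1 : FP fun q : α × Pt => (q.2, nE (x q.1) q.2) := FP.pair FP.snd (fp_nE (hx.comp FP.fst) FP.snd)
  have h2 : FP fun q : α × Pt => (q.2, ac q.2) := FP.pair FP.snd (fp_ac FP.snd)
  exact fp_comp hD (FP.append (fp_mapc h1 hD) (fp_mapc h2 hD))

private theorem fub_ptD {f : α → Inp} {d : α → List Ec} (hf : FP f) (hd : FP d) : FP fun a => ptD (f a) (d a) := by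
  have h : FP fun q : α × Pt => [(q.2, false), (q.2, true)] :=
    FP.cons (FP.pair FP.snd (FP.const false)) (FP.cons (FP.pair FP.snd (FP.const true)) (FP.const []))
  exact fp_flat h (fp_fD hf hd)

theorem fp_lC {f : α → Inp} {d : α → List Ec} {x : α → En} (hf : FP f) (hd : FP d) (hx : FP x) :
    FP fun a => lC (f a) (d a) (x a) := by
  have h2 : FP fun q : α × (Pt × Bool) => q.2 := FP.snd
  have h1 : FP fun q : α × (Pt × Bool) => q.2.1 := h2.fst'
  have h0 : FP fun q : α × (Pt × Bool) => !q.2.2 := h2.snd'.not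
  have hp := fub_ptD hf hd
  have hn : FP fun q : α × (Pt × Bool) => nE (x q.1) q.2.1 := fp_nE (hx.comp FP.fst) h1
  have a0 : FP fun a => (ptD (f a) (d a)).filter fun q => !decide (nE (x a) q.1 = q.1) :=
    fp_filt (h := fun q : α × (Pt × Bool) => !decide (nE (x q.1) q.2.1 = q.2.1)) (FP.not (fp_eq hn h1)) hp
  have a1 : FP fun a => ((ptD (f a) (d a)).filter fun q => !decide (nE (x a) q.1 = q.1)).map
      fun q => (q, (nE (x a) q.1, !q.2)) :=
    fp_mapc (h := fun q : α × (Pt × Bool) => (q.2, (nE (x q.1) q.2.1, !q.2.2))) (FP.pair h2 (FP.pair hn h0)) a0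
  have a2 : FP fun a => (ptD (f a) (d a)).map fun q => (q, (sd q.1, !q.2)) :=
    fp_mapc (h := fun q : α × (Pt × Bool) => (q.2, (sd q.2.1, !q.2.2))) (FP.pair h2 (FP.pair (fp_sd h1) h0)) hp
  have a3 : FP fun a => (ptD (f a) (d a)).map fun q => (q, (ac q.1, !q.2)) :=
    fp_mapc (h := fun q : α × (Pt × Bool) => (q.2, (ac q.2.1, !q.2.2))) (FP.pair h2 (FP.pair (fp_ac h1) h0)) hp
  exact fp_comp hp (FP.append a1 (FP.append a2 a3))

theorem fp_eqF {l : α → List (Pt × Pt)} {p q : α → Pt} (hl : FP l) (hp : FP p) (hq : FP q) :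
    FP fun a => eqF (l a) (p a) (q a) := by
  exact fp_eq (fp_look hl hp hp) (fp_look hl hq hq)

theorem fp_eqC {l : α → List ((Pt × Bool) × (Pt × Bool))} {p q : α → Pt} {b : α → Bool} (hl : FP l) (hp : FP p) (hq : FP q)
    (hb : FP b) : FP fun a => eqC (l a) (p a) (q a) (b a) := by
  exact fp_eq (fp_look hl (FP.pair hp (FP.const false)) (FP.pair hp (FP.const false)))
    (fp_look hl (FP.pair hq hb) (FP.pair hq hb))

end

end Pool.Agent.FGT
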