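import Pool.Agent.FGT.FuB

/-!
# FGT-FuC: the test, the number of closed faces and the signature in polynomial time
-/

set_option autoImplicit false

namespace Pool.Agent.FGT

open Turing Function N487b59b3 N68a2faeb Pool.Agent.Helper22 Pool.Agent.Helper6.WB Pool.Agent.Helper47.TR Computability
open Pool.Agent.BEO (look memb ddp comp cds Pt Ec Inp sd ac ek fl fp_eq fp_mapc fp_flat fp_filt fp_look fp_memb fp_ddp fp_comp
  fp_sd fp_ac fp_ek fp_fl fp_cds)
open Pool.Agent.SCG (edl nx bst bls fp_edl fp_nx fp_bst)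

section

variable {α β γ δ : Type} [N487b59b3 α] [N487b59b3 β] [N487b59b3 γ] [N487b59b3 δ]

private theorem fc_any [Inhabited β] {h : α × β → Bool} (hh : FP h) {l : α → List β} (hl : FP l) :
    FP fun a => (l a).any fun b => h (a, b) :=
  (FP.any_ctx hh).comp (FP.pair FP.id hl)

private theorem fc_all [Inhabited β] {h : α × β → Bool} (hh : FP h) {l : α → List β} (hl : FP l) :
    FP fun a => (l a).all fun b => h (a, b) := by
  have h1 := FP.not (fc_any (FP.not hh) hl)
  refine (congrArg FP (funext fun a => ?_)).mp h1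
  rw [List.all_eq_not_any_not]

private theorem fc_out {f : α → Inp} {d : α → List Ec} {v : α → ℕ} (hf : FP f) (hd : FP d) (hv : FP v) :
    FP fun a => (fl (f a)).any fun q => decide (q.1 = v a) && !memb (d a) (ek q) := by
  have h1 : FP fun q : α × Pt => decide (q.2.1 = v q.1) && !memb (d q.1) (ek q.2) :=
    FP.and (fp_eq FP.snd.fst' (hv.comp FP.fst)) (FP.not (fp_memb (hd.comp FP.fst) (fp_ek FP.snd)))
  exact fc_any h1 (fp_fl hf)

private theorem fc_vl1 {f : α → Inp} {d : α → List Ec} {x : α → En} (hf : FP f) (hd : FP d) (hx : FP x) :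
    FP fun a => vl1 (f a) (d a) (x a) := by
  have hF := fp_fD hf hd
  have h1 : FP fun q : α × (Pt × Pt) => (memb (fD (f q.1) (d q.1)) q.2.1 && memb (fD (f q.1) (d q.1)) q.2.2) &&
      (decide (q.2.1.1 = q.2.2.1) && !decide (q.2.1 = q.2.2)) &&
      (decide (nE (x q.1) q.2.1 = q.2.2) && decide (nE (x q.1) q.2.2 = q.2.1)) := by
    have hy : FP fun q : α × (Pt × Pt) => q.2 := FP.snd
    refine FP.and (FP.and (FP.and (fp_memb (hF.comp FP.fst) hy.fst') (fp_memb (hF.comp FP.fst) hy.snd'))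
      (FP.and (fp_eq hy.fst'.fst' hy.snd'.fst') (FP.not (fp_eq hy.fst' hy.snd')))) (FP.and ?_ ?_)
    · exact fp_eq (fp_nE (hx.comp FP.fst) hy.fst') hy.snd'
    · exact fp_eq (fp_nE (hx.comp FP.fst) hy.snd') hy.fst'
  exact fc_all h1 hx

private theorem fc_vl2 {f : α → Inp} {d : α → List Ec} {x : α → En} (hf : FP f) (hd : FP d) (hx : FP x) :
    FP fun a => vl2 (f a) (d a) (x a) := by
  have hy : FP fun q : α × Pt => q.2 := FP.snd
  exact fc_all (fc_out (hf.comp FP.fst) (hd.comp FP.fst) hy.fst') (fp_umD hf hd hx)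

private theorem fc_vl3 {f : α → Inp} {d : α → List Ec} {x : α → En} (hf : FP f) (hd : FP d) (hx : FP x) :
    FP fun a => vl3 (f a) (d a) (x a) := by
  have hV := fp_lV hf hd hx
  have hU := fp_umD hf hd hx
  have h1 : FP fun q : (α × Pt) × Pt => eqF (lV (f q.1.1) (d q.1.1) (x q.1.1)) q.1.2 q.2 :=
    fp_eqF (hV.comp (FP.fst.comp FP.fst)) (FP.snd.comp FP.fst) FP.snd
  have h2 : FP fun q : (α × Pt) × Pt => !decide (q.2.1 = q.1.2.1) ||
      (memb (d q.1.1) (ek q.2) && eqF (lV (f q.1.1) (d q.1.1) (x q.1.1)) q.1.2 q.2) := by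
    have hy : FP fun q : (α × Pt) × Pt => q.2 := FP.snd
    have hz : FP fun q : (α × Pt) × Pt => q.1.2 := FP.snd.comp FP.fst
    exact FP.or (FP.not (fp_eq hy.fst' hz.fst')) (FP.and (fp_memb (hd.comp (FP.fst.comp FP.fst)) (fp_ek hy)) h1)
  have h3 : FP fun q : α × Pt => (umD (f q.1) (d q.1) (x q.1)).any (fun r => eqF (lV (f q.1) (d q.1) (x q.1)) q.2 r) ||
      (fl (f q.1)).all fun r => !decide (r.1 = q.2.1) ||
        (memb (d q.1) (ek r) && eqF (lV (f q.1) (d q.1) (x q.1)) q.2 r) :=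
    FP.or (fc_any h1 (hU.comp FP.fst)) (fc_all h2 (fp_fl (hf.comp FP.fst)))
  exact fc_all h3 (fp_fD hf hd)

private theorem fc_bv {f : α → Inp} {d : α → List Ec} (hf : FP f) (hd : FP d) : FP fun a => bvD (f a) (d a) := by
  exact fp_filt (fc_out (hf.comp FP.fst) (hd.comp FP.fst) FP.snd) (fp_ddp (FP.map FP.fst (fp_fD hf hd)))

theorem fp_vlD (b : ℕ) {f : α → Inp} {d : α → List Ec} {x : α → En} (hf : FP f) (hd : FP d) (hx : FP x) :
    FP fun a => vlD b (f a) (d a) (x a) := by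
  exact FP.and (FP.and (fc_vl1 hf hd hx) (fc_vl2 hf hd hx))
    (FP.and (fc_vl3 hf hd hx) (FP.natLe (FP.length (fp_umD hf hd hx)) (FP.const b)))

theorem fp_clD {f : α → Inp} {d : α → List Ec} {x : α → En} (hf : FP f) (hd : FP d) (hx : FP x) :
    FP fun a => clD (f a) (d a) (x a) := by
  have hl := fp_lF hf hd hx
  have h3 : FP fun q : (α × Pt) × Pt =>
      decide (look (lF (f q.1.1) (d q.1.1) (x q.1.1)) q.2 q.2 = q.1.2) :=
    fp_eq (fp_look (hl.comp (FP.fst.comp FP.fst)) FP.snd FP.snd) (FP.snd.comp FP.fst)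
  have h4 : FP fun q : α × Pt => !((umD (f q.1) (d q.1) (x q.1)).any fun p =>
      decide (look (lF (f q.1) (d q.1) (x q.1)) p p = q.2)) :=
    FP.not (fc_any h3 ((fp_umD hf hd hx).comp FP.fst))
  exact FP.length (fp_filt h4 (fp_ddp (FP.map FP.snd hl)))

theorem fp_sgD {f : α → Inp} {d : α → List Ec} {x : α → En} (hf : FP f) (hd : FP d) (hx : FP x) :
    FP fun a => sgD (f a) (d a) (x a) := by
  have hV := fp_lV hf hd hx
  have hF := fp_lF hf hd hx
  have hC := fp_lC hf hd hx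
  have hU := fp_umD hf hd hx
  have h1 : FP fun a => (umD (f a) (d a) (x a)).map fun _ => true := fp_mapc (FP.const true) hU
  have h2 : FP fun a => (fD (f a) (d a)).any (fun p => eqC (lC (f a) (d a) (x a)) p p true) :=
    fc_any (fp_eqC (hC.comp FP.fst) FP.snd FP.snd (FP.const true)) (fp_fD hf hd)
  have h3 : FP fun q : (α × Pt) × ℕ => decide (q.1.2.1 = q.2) := by
    have hz : FP fun q : (α × Pt) × ℕ => q.1.2 := FP.snd.comp FP.fst
    exact fp_eq hz.fst' FP.snd
  have h4 : FP fun q : α × Pt => (bvD (f q.1) (d q.1)).map fun v => decide (q.2.1 = v) :=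
    fp_mapc h3 ((fc_bv hf hd).comp FP.fst)
  have h5 : FP fun a => (umD (f a) (d a) (x a)).flatMap fun p => (bvD (f a) (d a)).map fun v => decide (p.1 = v) :=
    fp_flat h4 hU
  have h6 : FP fun q : (α × Pt) × Pt => [eqF (lV (f q.1.1) (d q.1.1) (x q.1.1)) q.1.2 q.2,
      eqF (lF (f q.1.1) (d q.1.1) (x q.1.1)) q.1.2 q.2, eqC (lC (f q.1.1) (d q.1.1) (x q.1.1)) q.1.2 q.2 false,
      eqC (lC (f q.1.1) (d q.1.1) (x q.1.1)) q.1.2 q.2 true] := by
    have hz : FP fun q : (α × Pt) × Pt => q.1.2 := FP.snd.comp FP.fst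
    exact FP.cons (fp_eqF (hV.comp (FP.fst.comp FP.fst)) hz FP.snd)
      (FP.cons (fp_eqF (hF.comp (FP.fst.comp FP.fst)) hz FP.snd)
      (FP.cons (fp_eqC (hC.comp (FP.fst.comp FP.fst)) hz FP.snd (FP.const false))
      (FP.cons (fp_eqC (hC.comp (FP.fst.comp FP.fst)) hz FP.snd (FP.const true)) (FP.const []))))
  have h7 : FP fun a => (umD (f a) (d a) (x a)).flatMap fun p => (umD (f a) (d a) (x a)).flatMap fun q =>
      [eqF (lV (f a) (d a) (x a)) p q, eqF (lF (f a) (d a) (x a)) p q, eqC (lC (f a) (d a) (x a)) p q false,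
        eqC (lC (f a) (d a) (x a)) p q true] :=
    fp_flat (fp_flat h6 (hU.comp FP.fst)) hU
  exact FP.append h1 (FP.cons (FP.const false) (FP.cons h2 (FP.append h5 h7)))

end

end Pool.Agent.FGT
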