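import Pool.Agent.FGT.FuC

/-!
# FGT-FuD: the selection and the candidates in polynomial time

PLAN. Compositions (`FuB`, `FuC`, `fp_bst`, `fp_flat`, `fp_cds`; compare `SCG/FpSel.lean`, `SCG/FpKey.lean`).
-/

set_option autoImplicit false

namespace Pool.Agent.FGT

open Turing Function N487b59b3 N68a2faeb Pool.Agent.Helper22 Pool.Agent.Helper6.WB Pool.Agent.Helper47.TR Computability
open Pool.Agent.BEO (look memb ddp comp cds Pt Ec Inp sd ac ek fl fp_eq fp_mapc fp_flat fp_filt fp_look fp_memb fp_ddp fp_comp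
  fp_sd fp_ac fp_ek fp_fl fp_cds)
open Pool.Agent.SCG (edl nx bst bls fp_edl fp_nx fp_bst)

section

variable {α β γ δ : Type} [N487b59b3 α] [N487b59b3 β] [N487b59b3 γ] [N487b59b3 δ]

private theorem fd_any [Inhabited β] {h : α × β → Bool} (hh : FP h) {l : α → List β} (hl : FP l) :
    FP fun a => (l a).any fun b => h (a, b) :=
  (FP.any_ctx hh).comp (FP.pair FP.id hl)

private theorem fd_all [Inhabited β] {h : α × β → Bool} (hh : FP h) {l : α → List β} (hl : FP l) :
    FP fun a => (l a).all fun b => h (a, b) := by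
  have h1 := FP.not (fd_any (FP.not hh) hl)
  refine (congrArg FP (funext fun a => ?_)).mp h1
  rw [List.all_eq_not_any_not]

theorem fp_nrE {f : α → Inp} {x : α → En} (hf : FP f) (hx : FP x) : FP fun a => nrE (f a) (x a) := by
  have h0 : FP fun q : α × Pt => nE (x q.1) q.2 := fp_nE (hx.comp FP.fst) FP.snd
  have h1 : FP fun q : α × Pt => !decide (nE (x q.1) q.2 = q.2) := FP.not (fp_eq h0 FP.snd)
  have h2 : FP fun q : α × Pt => (q.2, nE (x q.1) q.2) := FP.pair FP.snd h0
  exact fp_mapc h2 (fp_filt h1 (fp_fl hf))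

theorem fp_slD (b m : ℕ) {f : α → Inp} {d : α → List Ec} {cs : α → List En} (hf : FP f) (hd : FP d) (hc : FP cs) :
    FP fun a => slD b m (f a) (d a) (cs a) := by
  have hv : FP fun w : (α × List Bool) × En => clD (f w.1.1) (d w.1.1) w.2 :=
    fp_clD (hf.comp (FP.fst.comp FP.fst)) (hd.comp (FP.fst.comp FP.fst)) FP.snd
  have hs : FP fun w : (α × List Bool) × En => vlD b (f w.1.1) (d w.1.1) w.2 &&
      decide (sgD (f w.1.1) (d w.1.1) w.2 = w.1.2) :=
    FP.and (fp_vlD b (hf.comp (FP.fst.comp FP.fst)) (hd.comp (FP.fst.comp FP.fst)) FP.snd)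
      (fp_eq (fp_sgD (hf.comp (FP.fst.comp FP.fst)) (hd.comp (FP.fst.comp FP.fst)) FP.snd)
        (FP.snd.comp FP.fst))
  have hl : FP fun q : α × List Bool => (cs q.1).filter fun c => vlD b (f q.1) (d q.1) c &&
      decide (sgD (f q.1) (d q.1) c = q.2) :=
    fp_filt hs (hc.comp FP.fst)
  have h1 : FP fun q : α × List Bool => bst (clD (f q.1) (d q.1))
      ((cs q.1).filter fun c => vlD b (f q.1) (d q.1) c && decide (sgD (f q.1) (d q.1) c = q.2)) := fp_bst hv hl
  exact fp_flat h1 (FP.const (bls m))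

private theorem fd_prs {f : α → Inp} {d1 d2 : α → List Ec} (hf : FP f) (h1 : FP d1) (h2 : FP d2) :
    FP fun a => (fD (f a) (d1 a)).flatMap fun p => (fD (f a) (d2 a)).map fun q => [(p, q), (q, p)] := by
  have e1 : FP fun w : (α × Pt) × Pt => w.1.2 := FP.snd.comp FP.fst
  have h3 : FP fun w : (α × Pt) × Pt => [(w.1.2, w.2), (w.2, w.1.2)] :=
    FP.cons (FP.pair e1 FP.snd) (FP.cons (FP.pair FP.snd e1) (FP.const []))
  have h4 : FP fun w : α × Pt => (fD (f w.1) (d2 w.1)).map fun q => [(w.2, q), (q, w.2)] :=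
    fp_mapc h3 (fp_fD (hf.comp FP.fst) (h2.comp FP.fst))
  exact fp_flat h4 (fp_fD hf h1)

theorem fp_bsD {f : α → Inp} {d : α → List Ec} (hf : FP f) (hd : FP d) : FP fun a => bsD (f a) (d a) := by
  have h1 : FP fun a => decide ((d a).length ≤ 2) := FP.natLe (FP.length hd) (FP.const 2)
  exact FP.ite h1 (fp_cds 4 (fd_prs hf hd hd)) (FP.const [])

private theorem fd_isU {d d1 d2 : α → List Ec} (hd : FP d) (h1 : FP d1) (h2 : FP d2) :
    FP fun a => isU (d a) (d1 a) (d2 a) := by
  have e0 : FP fun q : α × Ec => memb (d q.1) q.2 := fp_memb (hd.comp FP.fst) FP.snd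
  have e1 : FP fun q : α × Ec => memb (d1 q.1) q.2 := fp_memb (h1.comp FP.fst) FP.snd
  have e2 : FP fun q : α × Ec => memb (d2 q.1) q.2 := fp_memb (h2.comp FP.fst) FP.snd
  exact FP.and (FP.and (fd_all (FP.or e1 e2) hd) (fd_all (FP.and e0 (FP.not e2)) h1)) (fd_all e0 h2)

theorem fp_cmD (b : ℕ) {f : α → Inp} {t : α → Tb} {d : α → List Ec} (hf : FP f) (ht : FP t) (hd : FP d) :
    FP fun a => cmD b (f a) (t a) (d a) := by
  -- context: `((((α × (List Ec × List En)) × (List Ec × List En)) × En) × En) × En`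
  have k1 : FP fun w : ((((α × (List Ec × List En)) × (List Ec × List En)) × En) × En) × En =>
      w.1.1.2 ++ (w.1.2 ++ w.2) :=
    FP.append (FP.fst.fst'.snd') (FP.append FP.fst.snd' FP.snd)
  have g1 : FP fun w : (((α × (List Ec × List En)) × (List Ec × List En)) × En) × En => f w.1.1.1.1 :=
    hf.comp FP.fst.fst'.fst'.fst'
  have g2 : FP fun w : (((α × (List Ec × List En)) × (List Ec × List En)) × En) × En => w.1.1.1.2.1 :=
    FP.fst.fst'.fst'.snd'.fst'
  have g3 : FP fun w : (((α × (List Ec × List En)) × (List Ec × List En)) × En) × En => w.1.1.2.1 :=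
    FP.fst.fst'.snd'.fst'
  have k2 : FP fun w : (((α × (List Ec × List En)) × (List Ec × List En)) × En) × En =>
      (lks b (f w.1.1.1.1) w.1.1.1.2.1 w.1.1.2.1).map fun z => w.1.2 ++ (w.2 ++ z) :=
    fp_mapc k1 (fp_cds b (fd_prs g1 g2 g3))
  have k3 : FP fun w : ((α × (List Ec × List En)) × (List Ec × List En)) × En =>
      w.1.2.2.flatMap fun y => (lks b (f w.1.1.1) w.1.1.2.1 w.1.2.1).map fun z => w.2 ++ (y ++ z) :=
    fp_flat k2 FP.fst.snd'.snd'
  have k4 : FP fun w : (α × (List Ec × List En)) × (List Ec × List En) =>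
      w.1.2.2.flatMap fun x => w.2.2.flatMap fun y =>
        (lks b (f w.1.1) w.1.2.1 w.2.1).map fun z => x ++ (y ++ z) :=
    fp_flat k3 FP.fst.snd'.snd'
  have k5 : FP fun w : (α × (List Ec × List En)) × (List Ec × List En) =>
      isU (d w.1.1) w.1.2.1 w.2.1 :=
    fd_isU (hd.comp FP.fst.fst') FP.fst.snd'.fst' FP.snd.fst'
  have k6 : FP fun w : (α × (List Ec × List En)) × (List Ec × List En) =>
      if isU (d w.1.1) w.1.2.1 w.2.1 then w.1.2.2.flatMap fun x => w.2.2.flatMap fun y =>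
        (lks b (f w.1.1) w.1.2.1 w.2.1).map fun z => x ++ (y ++ z) else [] :=
    FP.ite k5 k4 (FP.const [])
  have k7 : FP fun w : α × (List Ec × List En) => (t w.1).flatMap fun t2 =>
      if isU (d w.1) w.2.1 t2.1 then w.2.2.flatMap fun x => t2.2.flatMap fun y =>
        (lks b (f w.1) w.2.1 t2.1).map fun z => x ++ (y ++ z) else [] :=
    fp_flat k6 (ht.comp FP.fst)
  exact fp_flat k7 ht

end

end Pool.Agent.FGT
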