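import Pool.Agent.FGT.RdAlg
import Pool.Agent.FGT.FuC
import Pool.Agent.FGT.FuD
import Pool.Agent.SCG.FpStd
import Pool.Agent.SCG.FpTre

/-!
# FGT-FvA: the candidates in polynomial time

Compositions as in `FuA`, `FuD`, `FuF`. `pk_sz`: `pk o l cs` is `l` or a normalised valid candidate `nrE l x`: at most
`(fl l).length` pairs `(p, nE x p)`, with both components members of `fl l` by `vl1`.
-/

set_option autoImplicit false

namespace Pool.Agent.FGT

open Turing Function N487b59b3 N68a2faeb Pool.Agent.Helper22 Pool.Agent.Helper6.WB Pool.Agent.Helper47.TR Computability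
open Pool.Agent.BEO (look memb ddp comp cds Pt Ec Inp sd ac ek fl fp_eq fp_mapc fp_flat fp_filt fp_look fp_memb fp_ddp fp_comp
  fp_sd fp_ac fp_ek fp_fl fp_cds)
open Pool.Agent.SCG (edl nx vl bst std Adl tre fp_edl fp_nx fp_bst fp_std fp_tre)

section

variable {α β γ δ : Type} [N487b59b3 α] [N487b59b3 β] [N487b59b3 γ] [N487b59b3 δ]

private theorem fv_prs {fs : α → List Pt} (hfs : FP fs) :
    FP fun a => (fs a).flatMap fun p => (fs a).map fun q => [(p, q), (q, p)] := by
  have e1 : FP fun w : (α × Pt) × Pt => w.1.2 := FP.snd.comp FP.fst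
  have h3 : FP fun w : (α × Pt) × Pt => [(w.1.2, w.2), (w.2, w.1.2)] :=
    FP.cons (FP.pair e1 FP.snd) (FP.cons (FP.pair FP.snd e1) (FP.const []))
  have h4 : FP fun w : α × Pt => (fs w.1).map fun q => [(w.2, q), (q, w.2)] :=
    fp_mapc h3 (hfs.comp FP.fst)
  exact fp_flat h4 hfs

theorem fp_cg {x xa : α → Inp} {d : α → List Ec} {fs : α → List Pt} (hx : FP x) (hd : FP d) (hfs : FP fs) (ha : FP xa) :
    FP fun a => cg (x a) (d a) (fs a) (xa a) := by
  have hy1 : FP fun w : ((α × List Pt) × En) × (Pt × Pt) => w.2.1 := FP.snd.fst'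
  have hy2 : FP fun w : ((α × List Pt) × En) × (Pt × Pt) => w.2.2 := FP.snd.snd'
  have hb : FP fun w : ((α × List Pt) × En) × (Pt × Pt) => w.1.1.2 := FP.fst.fst'.snd'
  have hd' : FP fun w : ((α × List Pt) × En) × (Pt × Pt) => d w.1.1.1 := hd.comp FP.fst.fst'.fst'
  have h1 : FP fun w : ((α × List Pt) × En) × (Pt × Pt) =>
      (!memb (d w.1.1.1) (ek w.2.1) && !memb (d w.1.1.1) (ek w.2.2)) &&
        (!memb w.1.1.2 w.2.1 && !memb w.1.1.2 w.2.2) :=
    FP.and (FP.and (FP.not (fp_memb hd' (fp_ek hy1))) (FP.not (fp_memb hd' (fp_ek hy2))))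
      (FP.and (FP.not (fp_memb hb hy1)) (FP.not (fp_memb hb hy2)))
  have h2 : FP fun w : (α × List Pt) × En =>
      ((x w.1.1).filter fun y => (!memb (d w.1.1) (ek y.1) && !memb (d w.1.1) (ek y.2)) &&
        (!memb w.1.2 y.1 && !memb w.1.2 y.2)) ++ (xa w.1.1 ++ w.2) :=
    FP.append (fp_filt h1 (hx.comp FP.fst.fst')) (FP.append (ha.comp FP.fst.fst') FP.snd)
  have h3 : FP fun q : α × List Pt =>
      (cds ((fs q.1).flatMap fun p => (fs q.1).map fun r => [(p, r), (r, p)]) 6).map fun z =>
        ((x q.1).filter fun y => (!memb (d q.1) (ek y.1) && !memb (d q.1) (ek y.2)) &&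
          (!memb q.2 y.1 && !memb q.2 y.2)) ++ (xa q.1 ++ z) :=
    fp_mapc h2 (fp_cds 6 (fv_prs (hfs.comp FP.fst)))
  have h4 : FP fun a => cds ((fl (x a)).map fun p => [p]) 2 :=
    fp_cds 2 (fp_mapc (h := fun w : α × Pt => [w.2]) (FP.cons FP.snd (FP.const [])) (fp_fl hx))
  exact fp_flat h3 h4

private theorem fv_any [Inhabited β] {h : α × β → Bool} (hh : FP h) {l : α → List β} (hl : FP l) :
    FP fun a => (l a).any fun b => h (a, b) :=
  (FP.any_ctx hh).comp (FP.pair FP.id hl)

private theorem fv_headD [Inhabited β] {l : α → List β} {d : α → β} (hl : FP l) (hd : FP d) :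
    FP fun a => (l a).headD (d a) := by
  have h1 : FP fun a => if (l a).isEmpty then d a else (l a).headD default :=
    FP.ite (FP.isEmpty hl) hd (FP.headD hl default)
  refine (congrArg FP (funext fun a => ?_)).mp h1
  cases l a <;> rfl

theorem fp_pk (o : Bool) {l : α → Inp} {cs : α → List En} (hl : FP l) (hc : FP cs) : FP fun a => pk o (l a) (cs a) := by
  have h1 : FP fun a => (cs a).map (nrE (l a)) :=
    fp_mapc (h := fun q : α × En => nrE (l q.1) q.2) (fp_nrE (hl.comp FP.fst) FP.snd) hc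
  have hf2 : FP fun q : α × En => l q.1 := hl.comp FP.fst
  have he2 : FP fun q : α × En => edl (l q.1) := fp_edl hf2
  have h3 : FP fun q : (α × En) × Pt => eqC (lC (l q.1.1) (edl (l q.1.1)) q.1.2) q.2 q.2 true :=
    fp_eqC (fp_lC (hf2.comp FP.fst) (he2.comp FP.fst) (FP.snd.comp FP.fst)) FP.snd FP.snd (FP.const true)
  have h2 : FP fun q : α × En => orD (l q.1) q.2 :=
    FP.not (fv_any h3 (fp_fD hf2 he2))
  have h4 : FP fun q : α × En => vlD 0 (l q.1) (edl (l q.1)) q.2 && (!o || orD (l q.1) q.2) :=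
    FP.and (fp_vlD 0 hf2 he2 FP.snd) (FP.or (FP.const _) h2)
  have h5 : FP fun a => ((cs a).map (nrE (l a))).filter fun x =>
      vlD 0 (l a) (edl (l a)) x && (!o || orD (l a) x) := fp_filt h4 h1
  have h6 : FP fun q : α × En => clD (l q.1) (edl (l q.1)) q.2 := fp_clD hf2 he2 FP.snd
  have h7 : FP fun a => bst (clD (l a) (edl (l a))) (((cs a).map (nrE (l a))).filter fun x =>
      vlD 0 (l a) (edl (l a)) x && (!o || orD (l a) x)) := fp_bst h6 h5
  exact fv_headD h7 hl

private theorem fv_memb {X : Type} [DecidableEq X] (l : List X) (x : X) (h : memb l x = true) : x ∈ l := by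
  unfold memb at h
  rw [List.any_eq_true] at h
  obtain ⟨y, hy, h⟩ := h
  rw [← of_decide_eq_true h]
  exact hy

private theorem fv_bst {X : Type} (val : X → ℕ) (l : List X) (y : X) (hy : y ∈ bst val l) : y ∈ l := by
  have key : ∀ (l acc : List X), y ∈ l.foldl (fun acc x =>
      if acc.any (fun y => decide (val x ≤ val y)) then acc else [x]) acc → y ∈ acc ∨ y ∈ l := by
    intro l
    induction l with
    | nil => exact fun acc h => Or.inl h
    | cons a l ih =>
      intro acc h
      rw [List.foldl_cons] at h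
      rcases ih _ h with h1 | h1
      · split at h1
        · exact Or.inl h1
        · exact Or.inr (List.mem_cons.2 (Or.inl (List.mem_singleton.1 h1)))
      · exact Or.inr (List.mem_cons_of_mem _ h1)
  rcases key l [] hy with h | h
  · exact absurd h List.not_mem_nil
  · exact h

private theorem fv_ent (l : Inp) (d : List Ec) (x : En) (h : vl1 l d (nrE l x) = true) :
    sz (nrE l x) ≤ sz (fl l) * (2 * (2 * sz (fl l) + 1 + sz (fl l)) + 1) := by
  have h1 : ∀ y ∈ nrE l x, y.2 ∈ fl l := by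
    intro y hy
    unfold vl1 at h
    rw [List.all_eq_true] at h
    have h2 := h y hy
    simp only [Bool.and_eq_true] at h2
    have h3 := fv_memb _ _ h2.1.1.2
    exact List.mem_of_mem_filter h3
  have h4 : sz (nrE l x) ≤ ((fl l).filter fun p => !decide (nE x p = p)).length *
      (2 * (2 * sz (fl l) + 1 + sz (fl l)) + 1) := by
    refine sz_map_le (fun p : Pt => (p, nE x p)) _ _ ?_
    intro p hp
    rw [sz_pair]
    have h5 : sz p ≤ sz (fl l) := sz_mem_le (List.mem_of_mem_filter hp)
    have h6 : sz (nE x p) ≤ sz (fl l) :=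
      sz_mem_le (h1 (p, nE x p) (List.mem_map.2 ⟨p, hp, rfl⟩))
    omega
  refine h4.trans (Nat.mul_le_mul_right _ ?_)
  exact (List.length_filter_le _ _).trans (length_le_sz _)

theorem pk_sz : ∃ B : ℕ → ℕ, PB B ∧ Monotone B ∧ ∀ (o : Bool) (l : Inp) (cs : List En), sz (pk o l cs) ≤ B (sz l) := by
  obtain ⟨Be, hBe, hBem, hBele⟩ := (fp_fl (f := fun l : Inp => l) FP.id).bound
  refine ⟨fun n => n + Be n * (2 * (2 * Be n + 1 + Be n) + 1), ?_, ?_, ?_⟩
  · exact PB.id.add (hBe.mul (((PB.const 2).mul ((((PB.const 2).mul hBe).add (PB.const 1)).add hBe)).add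
      (PB.const 1)))
  · intro a b hab
    have h2 := hBem hab
    have h2' : Be a * (2 * (2 * Be a + 1 + Be a) + 1) ≤ Be b * (2 * (2 * Be b + 1 + Be b) + 1) :=
      Nat.mul_le_mul h2 (by omega)
    exact Nat.add_le_add hab h2'
  · intro o l cs
    have h2 := hBele l
    have h2' : sz (fl l) * (2 * (2 * sz (fl l) + 1 + sz (fl l)) + 1) ≤
        Be (sz l) * (2 * (2 * Be (sz l) + 1 + Be (sz l)) + 1) :=
      Nat.mul_le_mul h2 (by omega)
    rcases hb : bst (clD l (edl l)) ((cs.map (nrE l)).filter fun x => vlD 0 l (edl l) x && (!o || orD l x))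
      with _ | ⟨y, t⟩
    · have h3 : pk o l cs = l := by
        unfold pk
        rw [hb]
        rfl
      rw [h3]
      exact Nat.le_add_right _ _
    · have h3 : pk o l cs = y := by
        unfold pk
        rw [hb]
        rfl
      rw [h3]
      have h4 : y ∈ bst (clD l (edl l)) ((cs.map (nrE l)).filter fun x =>
          vlD 0 l (edl l) x && (!o || orD l x)) := by
        rw [hb]
        exact List.mem_cons_self
      have h5 := fv_bst _ _ _ h4
      rw [List.mem_filter] at h5
      obtain ⟨h6, h7⟩ := h5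
      obtain ⟨x, _, rfl⟩ := List.mem_map.1 h6
      simp only [vlD, Bool.and_eq_true] at h7
      exact ((fv_ent l (edl l) x h7.1.1.1).trans h2').trans (Nat.le_add_left _ _)

end

end Pool.Agent.FGT
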