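import Pool.Agent.FGT.RdAlg
import Pool.Agent.FGT.FuA
import Pool.Agent.FGT.FuC
import Pool.Agent.FGT.FvA
import Pool.Agent.SCG.FpStd

/-!
# FGT-FvB: the reduction step in polynomial time
-/

set_option autoImplicit false

namespace Pool.Agent.FGT

open Turing Function N487b59b3 N68a2faeb Pool.Agent.Helper22 Pool.Agent.Helper6.WB Pool.Agent.Helper47.TR Computability
open Pool.Agent.BEO (look memb ddp comp cds Pt Ec Inp sd ac ek fl fp_eq fp_mapc fp_flat fp_filt fp_look fp_memb fp_ddp fp_comp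
  fp_sd fp_ac fp_ek fp_fl fp_cds)
open Pool.Agent.SCG (edl nx vl bst std Adl tre fp_edl fp_nx fp_bst fp_std fp_tre)

section

variable {α β γ δ : Type} [N487b59b3 α] [N487b59b3 β] [N487b59b3 γ] [N487b59b3 δ]

private theorem vb_any [Inhabited β] {h : α × β → Bool} (hh : FP h) {l : α → List β} (hl : FP l) :
    FP fun a => (l a).any fun b => h (a, b) :=
  (FP.any_ctx hh).comp (FP.pair FP.id hl)

private theorem vb_all [Inhabited β] {h : α × β → Bool} (hh : FP h) {l : α → List β} (hl : FP l) :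
    FP fun a => (l a).all fun b => h (a, b) := by
  have h1 := FP.not (vb_any (FP.not hh) hl)
  refine (congrArg FP (funext fun a => ?_)).mp h1
  rw [List.all_eq_not_any_not]

private theorem vb_lt {f g : α → ℕ} (hf : FP f) (hg : FP g) : FP fun a => decide (f a < g a) := by
  have h := FP.not (FP.natLe hg hf)
  refine (congrArg FP (funext fun a => ?_)).mp h
  by_cases h1 : f a < g a
  · simp [h1]
  · simp [h1, Nat.le_of_not_lt h1]

private theorem vb_bv {f : α → Inp} {d : α → List Ec} (hf : FP f) (hd : FP d) : FP fun a => bvD (f a) (d a) := by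
  have h1 : FP fun q : (α × ℕ) × Pt => decide (q.2.1 = q.1.2) && !memb (d q.1.1) (ek q.2) :=
    FP.and (fp_eq FP.snd.fst' (FP.snd.comp FP.fst)) (FP.not (fp_memb (hd.comp (FP.fst.comp FP.fst)) (fp_ek FP.snd)))
  have h2 : FP fun q : α × ℕ => (fl (f q.1)).any fun r => decide (r.1 = q.2) && !memb (d q.1) (ek r) :=
    vb_any h1 (fp_fl (hf.comp FP.fst))
  exact fp_filt h2 (fp_ddp (FP.map FP.fst (fp_fD hf hd)))

theorem fp_inn {l : α → Inp} {d : α → List Ec} (hl : FP l) (hd : FP d) : FP fun a => inn (l a) (d a) := by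
  have hy : FP fun q : α × (Pt × Pt) => q.2 := FP.snd
  have h : FP fun q : α × (Pt × Pt) => memb (d q.1) (ek q.2.1) && memb (d q.1) (ek q.2.2) :=
    FP.and (fp_memb (hd.comp FP.fst) (fp_ek hy.fst')) (fp_memb (hd.comp FP.fst) (fp_ek hy.snd'))
  exact fp_filt h hl

private theorem vb_nv {l : α → Inp} {d : α → List Ec} {x : α → En} (hl : FP l) (hd : FP d) (hx : FP x) :
    FP fun a => nvD (l a) (d a) (x a) :=
  FP.length (fp_ddp (FP.map FP.snd (fp_lV hl hd hx)))

private theorem vb_cp {l : α → Inp} {d : α → List Ec} (hl : FP l) (hd : FP d) : FP fun a => cpD (l a) (d a) := by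
  have hy : FP fun q : α × (Pt × Pt) => q.2 := FP.snd
  have h : FP fun q : α × (Pt × Pt) => (ek q.2.1, ek q.2.2) := FP.pair (fp_ek hy.fst') (fp_ek hy.snd')
  exact fp_comp hd (fp_mapc h (fp_inn hl hd))

private theorem vb_cn {l : α → Inp} {d : α → List Ec} (hl : FP l) (hd : FP d) : FP fun a => cnD (l a) (d a) := by
  have h0 : FP fun q : (α × Ec) × Ec => cpD (l q.1.1) (d q.1.1) :=
    vb_cp (hl.comp (FP.fst.comp FP.fst)) (hd.comp (FP.fst.comp FP.fst))
  have h1 : FP fun q : (α × Ec) × Ec => decide (look (cpD (l q.1.1) (d q.1.1)) q.1.2 q.1.2 =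
      look (cpD (l q.1.1) (d q.1.1)) q.2 q.2) :=
    fp_eq (fp_look h0 (FP.snd.comp FP.fst) (FP.snd.comp FP.fst)) (fp_look h0 FP.snd FP.snd)
  have h2 : FP fun q : α × Ec => (d q.1).all fun f => decide (look (cpD (l q.1) (d q.1)) q.2 q.2 =
      look (cpD (l q.1) (d q.1)) f f) := vb_all h1 (hd.comp FP.fst)
  exact vb_all h2 hd

private theorem vb_nb {l : α → Inp} {v : α → ℕ} (hl : FP l) (hv : FP v) : FP fun a => nbD (l a) (v a) := by
  have hy : FP fun q : α × Pt => q.2 := FP.snd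
  have h1 : FP fun q : α × Pt => decide (q.2.1 = v q.1) := fp_eq hy.fst' (hv.comp FP.fst)
  have h2 : FP fun q : α × Pt => q.2.2.1 := hy.snd'.fst'
  exact fp_ddp (fp_mapc h2 (fp_filt h1 (fp_fl hl)))

private theorem vb_tr {l : α → Inp} {d : α → List Ec} (hl : FP l) (hd : FP d) : FP fun a => trD (l a) (d a) := by
  have hl1 : FP fun q : α × ℕ => l q.1 := hl.comp FP.fst
  have hd1 : FP fun q : α × ℕ => d q.1 := hd.comp FP.fst
  have a1 : FP fun a => decide ((d a).length = 1) && decide ((umD (l a) (d a) (inn (l a) (d a))).length = 4) :=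
    FP.and (fp_eq (FP.length hd) (FP.const 1)) (fp_eq (FP.length (fp_umD hl hd (fp_inn hl hd))) (FP.const 4))
  have b1 : FP fun q : α × ℕ => decide ((nbD (l q.1) q.2).length = 2) :=
    fp_eq (FP.length (vb_nb hl1 FP.snd)) (FP.const 2)
  have b2 : FP fun q : α × ℕ => (d q.1).all fun e => decide (e.1 = q.2) || decide (e.2 = q.2) := by
    have hy : FP fun r : (α × ℕ) × Ec => r.2 := FP.snd
    have hz : FP fun r : (α × ℕ) × Ec => r.1.2 := FP.snd.comp FP.fst
    exact vb_all (h := fun r : (α × ℕ) × Ec => decide (r.2.1 = r.1.2) || decide (r.2.2 = r.1.2))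
      (FP.or (fp_eq hy.fst' hz) (fp_eq hy.snd' hz)) hd1
  have b3 : FP fun q : α × ℕ => (fl (l q.1)).all fun p => !decide (p.1 = q.2) || memb (d q.1) (ek p) := by
    have hy : FP fun r : (α × ℕ) × Pt => r.2 := FP.snd
    have hz : FP fun r : (α × ℕ) × Pt => r.1.2 := FP.snd.comp FP.fst
    exact vb_all (h := fun r : (α × ℕ) × Pt => !decide (r.2.1 = r.1.2) || memb (d r.1.1) (ek r.2))
      (FP.or (FP.not (fp_eq hy.fst' hz)) (fp_memb (hd.comp (FP.fst.comp FP.fst)) (fp_ek hy))) (fp_fl hl1)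
  have b4 : FP fun q : α × ℕ => (fl (l q.1)).any fun r => memb (nbD (l q.1) q.2) r.1 && memb (nbD (l q.1) q.2) r.2.1 := by
    have hy : FP fun r : (α × ℕ) × Pt => r.2 := FP.snd
    have hz : FP fun r : (α × ℕ) × Pt => nbD (l r.1.1) r.1.2 :=
      vb_nb (hl.comp (FP.fst.comp FP.fst)) (FP.snd.comp FP.fst)
    exact vb_any (h := fun r : (α × ℕ) × Pt => memb (nbD (l r.1.1) r.1.2) r.2.1 && memb (nbD (l r.1.1) r.1.2) r.2.2.1)
      (FP.and (fp_memb hz hy.fst') (fp_memb hz hy.snd'.fst')) (fp_fl hl1)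
  have b : FP fun a => (vl (l a)).any fun x => (decide ((nbD (l a) x).length = 2) && (d a).all fun e =>
      decide (e.1 = x) || decide (e.2 = x)) && (((fl (l a)).all fun p => !decide (p.1 = x) || memb (d a) (ek p)) &&
      (fl (l a)).any fun q => memb (nbD (l a) x) q.1 && memb (nbD (l a) x) q.2.1) :=
    vb_any (h := fun q : α × ℕ => (decide ((nbD (l q.1) q.2).length = 2) && (d q.1).all fun e =>
      decide (e.1 = q.2) || decide (e.2 = q.2)) && (((fl (l q.1)).all fun p => !decide (p.1 = q.2) ||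
      memb (d q.1) (ek p)) && (fl (l q.1)).any fun r => memb (nbD (l q.1) q.2) r.1 && memb (nbD (l q.1) q.2) r.2.1))
      (FP.and (FP.and b1 b2) (FP.and b3 b4)) (Pool.Agent.SCG.fp_vl hl)
  exact FP.or a1 b

private theorem vb_tst {l : α → Inp} {d : α → List Ec} (hl : FP l) (hd : FP d) : FP fun a => tst (l a) (d a) := by
  have hi := fp_inn hl hd
  have h1 : FP fun a => decide ((umD (l a) (d a) (inn (l a) (d a))).length ≤ 4) :=
    FP.natLe (FP.length (fp_umD hl hd hi)) (FP.const 4)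
  have h2 : FP fun a => decide ((d a).length < (edl (l a)).length) :=
    vb_lt (FP.length hd) (FP.length (fp_edl hl))
  have h3 : FP fun a => decide (nvD (l a) (d a) (inn (l a) (d a)) + clD (l a) (d a) (inn (l a) (d a)) =
      (d a).length + 1) :=
    fp_eq (FP.natAdd (vb_nv hl hd hi) (fp_clD hl hd hi)) (FP.natAdd (FP.length hd) (FP.const 1))
  have h4 : FP fun a => decide (0 < (d a).length) := vb_lt (FP.const 0) (FP.length hd)
  exact FP.and (FP.and h1 h2) (FP.and (FP.and h3 h4) (FP.and (vb_cn hl hd) (FP.not (vb_tr hl hd))))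

theorem fp_bad {l : α → Inp} (hl : FP l) : FP fun a => bad (l a) := by
  have h : FP fun q : α × List Ec => tst (l q.1) q.2 := vb_tst (hl.comp FP.fst) FP.snd
  exact fp_filt h (fp_dks 4 hl)

private theorem vb_nme {v w : α → ℕ} (hv : FP v) (hw : FP w) : FP fun a => nme (v a) (w a) :=
  FP.ite (FP.natLe hv hw) (FP.pair hv hw) (FP.pair hw hv)

private theorem vb_rr0 {l : α → Inp} {d : α → List Ec} {t : α → List ℕ} {v w x : α → ℕ} (hl : FP l) (hd : FP d)
    (ht : FP t) (hv : FP v) (hw : FP w) (hx : FP x) : FP fun a => rr0 (l a) (d a) (t a) (v a) (w a) (x a) := by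
  have h1 : FP fun a => decide ((t a).length ≤ 1) := FP.natLe (FP.length ht) (FP.const 1)
  have h2 : FP fun q : α × Ec => !memb (d q.1) q.2 && decide (q.2 = nme (v q.1) (w q.1)) :=
    FP.and (FP.not (fp_memb (hd.comp FP.fst) FP.snd))
      (fp_eq FP.snd (vb_nme (hv.comp FP.fst) (hw.comp FP.fst)))
  have h3 : FP fun a => (edl (l a)).any fun e => !memb (d a) e && decide (e = nme (v a) (w a)) :=
    vb_any h2 (fp_edl hl)
  exact FP.ite h1 (FP.const []) (FP.ite h3 (FP.cons (vb_nme hv hx) (FP.cons (vb_nme hx hw) (FP.const [])))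
    (FP.cons (vb_nme hv hw) (FP.const [])))

theorem fp_rrD {l : α → Inp} {d : α → List Ec} (hl : FP l) (hd : FP d) : FP fun a => rrD (l a) (d a) := by
  have hb := vb_bv hl hd
  have h1 : FP fun a => ((bvD (l a) (d a)).drop 1).headD 0 := FP.headD (FP.drop hb (FP.const [true])) 0
  have h2 : FP fun q : α × ℕ => !memb (bvD (l q.1) (d q.1)) q.2 := FP.not (fp_memb (hb.comp FP.fst) FP.snd)
  have h3 : FP fun a => ((ddp ((fD (l a) (d a)).map Prod.fst)).filter fun u => !memb (bvD (l a) (d a)) u).headD 0 :=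
    FP.headD (fp_filt h2 (fp_ddp (FP.map FP.fst (fp_fD hl hd)))) 0
  exact vb_rr0 hl hd hb (FP.headD hb 0) h1 h3

private theorem vb_tg {l : α → Inp} {d : α → List Ec} (hl : FP l) (hd : FP d) : FP fun a => tgD (l a) (d a) := by
  have h2 : FP fun q : α × Ec => !memb (d q.1) q.2 := FP.not (fp_memb (hd.comp FP.fst) FP.snd)
  exact FP.append (fp_filt h2 (fp_edl hl)) (fp_rrD hl hd)

theorem fp_st1 {l : α → Inp} {d : α → List Ec} (hl : FP l) (hd : FP d) : FP fun a => st1 (l a) (d a) := by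
  have hs := fp_std (vb_tg hl hd)
  exact fp_pk false hs (fp_cg hl hd (fp_fl hs) (FP.const []))

end

end Pool.Agent.FGT
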