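import Pool.Agent.FGT.FvB

/-!
# FGT-FvC: numbering the vertices again, lifting, in polynomial time

Compositions. If the graph is changed, all numbers in `nxs l` are ranks, bounded by the number of vertices of `st1 l d`, which is linear in the length of `l`.
-/

set_option autoImplicit false

namespace Pool.Agent.FGT

open Turing Function N487b59b3 N68a2faeb Pool.Agent.Helper22 Pool.Agent.Helper6.WB Pool.Agent.Helper47.TR Computability
open Pool.Agent.BEO (look memb ddp comp cds Pt Ec Inp sd ac ek fl fp_eq fp_mapc fp_flat fp_filt fp_look fp_memb fp_ddp fp_comp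
  fp_sd fp_ac fp_ek fp_fl fp_cds)
open Pool.Agent.SCG (edl nx vl bst std Adl tre fp_edl fp_nx fp_vl fp_bst fp_std fp_tre)

section

variable {α β γ δ : Type} [N487b59b3 α] [N487b59b3 β] [N487b59b3 γ] [N487b59b3 δ]

private theorem fc_lt {f g : α → ℕ} (hf : FP f) (hg : FP g) : FP fun a => decide (f a < g a) := by
  have h1 := FP.not (FP.natLe hg hf)
  refine (congrArg FP (funext fun a => ?_)).mp h1
  by_cases h : f a < g a
  · simp [h]
  · simp [not_lt.1 h]

private theorem fc_rk {U : α → List ℕ} {v : α → ℕ} (hU : FP U) (hv : FP v) : FP fun a => rkU (U a) (v a) := by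
  have h : FP fun q : α × ℕ => decide (q.2 < v q.1) := fc_lt FP.snd (hv.comp FP.fst)
  exact FP.length (fp_filt h hU)

private theorem fc_iv {U : α → List ℕ} {v : α → ℕ} (hU : FP U) (hv : FP v) : FP fun a => ivU (U a) (v a) := by
  have h : FP fun q : α × ℕ => (rkU (U q.1) q.2, q.2) := FP.pair (fc_rk (hU.comp FP.fst) FP.snd) FP.snd
  exact fp_look (fp_mapc h hU) hv (FP.const 0)

private theorem fc_rlx {x : α → Inp} (hx : FP x) : FP fun a => rlx (x a) := by
  have hU : FP fun q : α × (Pt × Pt) => vl (x q.1) := fp_vl (hx.comp FP.fst)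
  have hy : FP fun q : α × (Pt × Pt) => q.2 := FP.snd
  have h : FP fun q : α × (Pt × Pt) =>
      ((rkU (vl (x q.1)) q.2.1.1, (rkU (vl (x q.1)) q.2.1.2.1, q.2.1.2.2)),
        (rkU (vl (x q.1)) q.2.2.1, (rkU (vl (x q.1)) q.2.2.2.1, q.2.2.2.2))) :=
    FP.pair (FP.pair (fc_rk hU hy.fst'.fst') (FP.pair (fc_rk hU hy.fst'.snd'.fst') hy.fst'.snd'.snd'))
      (FP.pair (fc_rk hU hy.snd'.fst') (FP.pair (fc_rk hU hy.snd'.snd'.fst') hy.snd'.snd'.snd'))
  exact fp_mapc h hx

private theorem fc_ulx {U : α → List ℕ} {x : α → Inp} (hU : FP U) (hx : FP x) : FP fun a => ulx (U a) (x a) := by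
  have hU1 : FP fun q : α × (Pt × Pt) => U q.1 := hU.comp FP.fst
  have hy : FP fun q : α × (Pt × Pt) => q.2 := FP.snd
  have h : FP fun q : α × (Pt × Pt) =>
      ((ivU (U q.1) q.2.1.1, (ivU (U q.1) q.2.1.2.1, q.2.1.2.2)),
        (ivU (U q.1) q.2.2.1, (ivU (U q.1) q.2.2.2.1, q.2.2.2.2))) :=
    FP.pair (FP.pair (fc_iv hU1 hy.fst'.fst') (FP.pair (fc_iv hU1 hy.fst'.snd'.fst') hy.fst'.snd'.snd'))
      (FP.pair (fc_iv hU1 hy.snd'.fst') (FP.pair (fc_iv hU1 hy.snd'.snd'.fst') hy.snd'.snd'.snd'))
  exact fp_mapc h hx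

theorem fp_nxs {l : α → Inp} (hl : FP l) : FP fun a => nxs (l a) := by
  have hb := fp_bad hl
  exact FP.ite (FP.isEmpty hb) hl (FP.take (fc_rlx (fp_st1 hl (FP.headD hb []))) hl)

theorem fp_lft (o : Bool) {l x : α → Inp} (hl : FP l) (hx : FP x) : FP fun a => lft o (l a) (x a) := by
  have hb := fp_bad hl
  have hd := FP.headD hb []
  exact FP.ite (FP.isEmpty hb) hx (fp_pk o hl (fp_cg (fc_ulx (fp_vl (fp_st1 hl hd)) hx) (fp_rrD hl hd) (fp_fl hl)
    (fp_inn hl hd)))

theorem nxs_len (l : Inp) : (nxs l).length ≤ l.length := by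
  unfold nxs
  split_ifs
  · exact le_rfl
  · exact List.length_take_le _ _

private theorem ddp_len {X : Type} [DecidableEq X] (l : List X) : (ddp l).length ≤ l.length := by
  have h : ∀ (l : List X) (acc : List X),
      (l.foldl (fun acc x => if memb acc x then acc else x :: acc) acc).length ≤ acc.length + l.length := by
    intro l
    induction l with
    | nil => simp
    | cons a l ih =>
      intro acc
      rw [List.foldl_cons]
      refine (ih _).trans ?_
      split_ifs <;> simp <;> omega
  exact (h l []).trans (by simp)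

private theorem bst_mem1 {β : Type} (val : β → ℕ) (l : List β) (y : β) (hy : y ∈ bst val l) : y ∈ l := by
  have h : ∀ (l acc : List β),
      y ∈ l.foldl (fun acc x => if acc.any (fun y => decide (val x ≤ val y)) then acc else [x]) acc → y ∈ acc ∨ y ∈ l := by
    intro l
    induction l with
    | nil => exact fun acc h => Or.inl h
    | cons a l ih =>
      intro acc h
      rw [List.foldl_cons] at h
      rcases ih _ h with h1 | h1
      · split_ifs at h1
        · exact Or.inl h1
        · rw [List.mem_singleton] at h1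
          exact Or.inr (by simp [h1])
      · exact Or.inr (List.mem_cons_of_mem _ h1)
  rcases h l [] hy with h1 | h1
  · simp at h1
  · exact h1

private theorem nrE_len (l : Inp) (x : En) : (nrE l x).length ≤ l.length := by
  unfold nrE
  rw [List.length_map]
  refine (List.length_filter_le _ _).trans ?_
  refine (ddp_len _).trans ?_
  rw [List.length_map]

private theorem pk_len (o : Bool) (l : Inp) (cs : List En) : (pk o l cs).length ≤ l.length := by
  have h : ∀ L : List En, (∀ y ∈ L, List.length y ≤ l.length) → (L.headD l).length ≤ l.length := by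
    intro L hL
    cases L with
    | nil => exact le_rfl
    | cons a L => exact hL a (by simp)
  refine h _ fun y hy => ?_
  have h1 := bst_mem1 _ _ y hy
  obtain ⟨x, _, rfl⟩ := List.mem_map.1 (List.mem_filter.1 h1).1
  exact nrE_len l x

private theorem std_len (A : Adl) : (std A).length = 4 * A.length := by
  unfold std
  rw [List.length_flatMap]
  have h : (A.map fun e => (Pool.Agent.SCG.stp1 A e.1 e.2 ++ Pool.Agent.SCG.stp1 A e.2 e.1).length) =
      A.map fun _ => 4 := rfl
  rw [h]
  simp [mul_comm]

private theorem rrD_len (l : Inp) (d : List Ec) : (rrD l d).length ≤ 2 := by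
  unfold rrD rr0
  split_ifs <;> simp

private theorem st1_len (l : Inp) (d : List Ec) : (vl (st1 l d)).length ≤ 4 * (l.length + 2) := by
  have h1 : (vl (st1 l d)).length ≤ (st1 l d).length := by
    refine (ddp_len _).trans ?_
    rw [List.length_map]
    refine (ddp_len _).trans ?_
    rw [List.length_map]
  have h2 : (st1 l d).length ≤ (std (tgD l d)).length := pk_len _ _ _
  rw [std_len] at h2
  have h3 : (tgD l d).length ≤ l.length + 2 := by
    unfold tgD
    rw [List.length_append]
    have h4 : (edl l).length ≤ l.length := by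
      refine (ddp_len _).trans ?_
      rw [List.length_map]
      refine (ddp_len _).trans ?_
      rw [List.length_map]
    have h5 := (List.length_filter_le (fun e => !memb d e) (edl l)).trans h4
    exact Nat.add_le_add h5 (rrD_len l d)
  exact h1.trans (h2.trans (Nat.mul_le_mul_left 4 h3))

private theorem sz_rk (U : List ℕ) (v : ℕ) : sz (rkU U v) ≤ U.length := by
  rw [sz_nat]
  have h : rkU U v ≤ U.length := List.length_filter_le _ _
  exact (Nat.size_le_size h).trans (Nat.size_le.2 Nat.lt_two_pow_self)

theorem nxs_sz : ∃ B : ℕ → ℕ, PB B ∧ Monotone B ∧ ∀ l : Inp, nxs l = l ∨ sz (nxs l) ≤ B l.length := by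
  refine ⟨fun n => n * (2 * (12 * (4 * (n + 2)) + 10) + 1), by fun_prop, ?_, ?_⟩
  · intro m n hmn
    exact Nat.mul_le_mul hmn (by omega)
  · intro l
    unfold nxs
    split_ifs
    · exact Or.inl rfl
    · right
      generalize (bad l).headD [] = d
      have hN := st1_len l d
      unfold rlx
      rw [← List.map_take]
      refine (sz_map_le _ _ (12 * (4 * (l.length + 2)) + 10) ?_).trans ?_
      · intro y _
        simp only [sz_pair, sz_bool]
        have h1 := (sz_rk (vl (st1 l d)) y.1.1).trans hN
        have h2 := (sz_rk (vl (st1 l d)) y.1.2.1).trans hN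
        have h3 := (sz_rk (vl (st1 l d)) y.2.1).trans hN
        have h4 := (sz_rk (vl (st1 l d)) y.2.2.1).trans hN
        omega
      · exact Nat.mul_le_mul_right _ (List.length_take_le _ _)

end

end Pool.Agent.FGT
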