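import Pool.Agent.FGT.FvC

/-!
# FGT-FvD: the solution for all maps in polynomial time

PLAN. `hst`: `FP.foldl` (compare `fp_emb` in SCG/FpMain): the members of the final list have sizes at most `max (sz l) (B l.length)` by `nxs_sz`, `nxs_len` (for an arbitrary initial list `s` the same with its head and the other members). The second fold: `lft o li x` is `x` or `pk o li ..`, of size at most `B' (sz li)` (`pk_sz`). `sol_sz`: the last member of `hst l` is `l`; if `l = []` the list is `[l]` and
`sol F o l = pk o l ..`; otherwise the last step is `lft o l x`, which is `pk o l ..`, or `x` if `bad l` is empty, and then all members of `hst l` are `l` and `x = pk o l ..`: so the size is at most `B' (sz l)`.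
-/

set_option autoImplicit false

namespace Pool.Agent.FGT

open Turing Function N487b59b3 N68a2faeb Pool.Agent.Helper22 Pool.Agent.Helper6.WB Pool.Agent.Helper47.TR Computability
open Pool.Agent.BEO (look memb ddp comp cds Pt Ec Inp sd ac ek fl fp_eq fp_mapc fp_flat fp_filt fp_look fp_memb fp_ddp fp_comp
  fp_sd fp_ac fp_ek fp_fl fp_cds)
open Pool.Agent.SCG (edl nx vl bst std Adl tre fp_edl fp_nx fp_bst fp_std fp_tre)

section

variable {α β γ δ : Type} [N487b59b3 α] [N487b59b3 β] [N487b59b3 γ] [N487b59b3 δ]

/-- the list of the first fold: bounds for the head and for the size -/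
private theorem vd_hst {B : ℕ → ℕ} (hm : Monotone B) (hB : ∀ l : Inp, nxs l = l ∨ sz (nxs l) ≤ B l.length)
    (s : List Inp) : ∀ X : Inp,
      ((X.foldl (fun h _ => nxs (h.headD []) :: h) s).headD []).length ≤ (s.headD []).length ∧
      sz ((X.foldl (fun h _ => nxs (h.headD []) :: h) s).headD []) ≤ sz (s.headD []) + B (s.headD []).length ∧
      sz (X.foldl (fun h _ => nxs (h.headD []) :: h) s) ≤
        sz s + X.length * (2 * (sz (s.headD []) + B (s.headD []).length) + 2) := by
  intro X
  induction X using List.reverseRecOn with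
  | nil =>
    refine ⟨le_refl _, Nat.le_add_right _ _, Nat.le_add_right _ _⟩
  | append_singleton X y ih =>
    obtain ⟨h1, h2, h3⟩ := ih
    rw [List.foldl_append]
    simp only [List.foldl_cons, List.foldl_nil, List.headD_cons, List.length_append, List.length_cons,
      List.length_nil, sz_cons]
    generalize X.foldl (fun h _ => nxs (h.headD []) :: h) s = t at h1 h2 h3
    have h4 : (nxs (t.headD [])).length ≤ (t.headD []).length := nxs_len _
    have h5 : sz (nxs (t.headD [])) ≤ sz (s.headD []) + B (s.headD []).length := by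
      rcases hB (t.headD []) with h6 | h6
      · rw [h6]
        exact h2
      · exact (h6.trans (hm h1)).trans (Nat.le_add_left _ _)
    refine ⟨h4.trans h1, h5, ?_⟩
    have h7 : (X.length + (0 + 1)) * (2 * (sz (s.headD []) + B (s.headD []).length) + 2) =
        X.length * (2 * (sz (s.headD []) + B (s.headD []).length) + 2) +
          (2 * (sz (s.headD []) + B (s.headD []).length) + 2) := by ring
    rw [h7]
    omega

private theorem vd_head (s : List Inp) : sz (s.headD []) ≤ sz s := by
  cases s with
  | nil => exact le_refl _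
  | cons a s => exact sz_mem_le List.mem_cons_self

private theorem vd_fold {B : ℕ → ℕ} (hm : Monotone B)
    (hB : ∀ (o : Bool) (l : Inp) (cs : List En), sz (pk o l cs) ≤ B (sz l)) (o : Bool) (x : Inp) :
    ∀ L : List Inp, sz (L.foldl (fun x li => lft o li x) x) ≤ sz x + B (sz L) := by
  intro L
  induction L using List.reverseRecOn with
  | nil => exact Nat.le_add_right _ _
  | append_singleton L y ih =>
    rw [List.foldl_append]
    simp only [List.foldl_cons, List.foldl_nil]
    generalize L.foldl (fun x li => lft o li x) x = t at ih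
    have h1 : sz (L ++ [y]) = sz L + sz [y] := sz_append _ _
    have h2 : sz y ≤ sz (L ++ [y]) := sz_mem_le (List.mem_append_right _ List.mem_cons_self)
    unfold lft
    split_ifs
    · exact ih.trans (Nat.add_le_add_left (hm (by omega)) _)
    · exact ((hB o y _).trans (hm h2)).trans (Nat.le_add_left _ _)

private theorem vd_fp_hst {l : α → Inp} (hl : FP l) : FP fun a => hst (l a) := by
  obtain ⟨B, hB, hm, hle⟩ := nxs_sz
  have hg : FP fun p : List Inp × (Pt × Pt) => nxs (p.1.headD []) :: p.1 :=
    FP.cons (fp_nxs (FP.headD FP.fst [])) FP.fst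
  have h1 : FP fun p : Inp × List Inp => p.1.foldl (fun h _ => nxs (h.headD []) :: h) p.2 := by
    refine FP.foldl (g := fun (h : List Inp) (_ : Pt × Pt) => nxs (h.headD []) :: h) hg
      (B := fun n => n + n * (2 * (n + B n) + 2)) ?_ ?_
    · exact PB.add PB.id (PB.mul PB.id (PB.add (PB.mul (PB.const 2) (PB.add PB.id hB)) (PB.const 2)))
    · intro X s
      have h2 := (vd_hst hm hle s X).2.2
      have h3 := vd_head s
      have h4 : (s.headD []).length ≤ sz (s.headD []) := length_le_sz _
      have h5 : X.length ≤ sz X := length_le_sz _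
      have h6 : B (s.headD []).length ≤ B (sz X + sz s) := hm (by omega)
      refine h2.trans (Nat.add_le_add (by omega) (Nat.mul_le_mul (by omega) (by omega)))
  exact h1.comp (FP.pair hl (FP.cons hl (FP.const [])))

theorem fp_sol (F : Bool → Inp → Inp) (hF : ∀ o, FP (F o)) (o : Bool) {l : α → Inp} (hl : FP l) :
    FP fun a => sol F o (l a) := by
  obtain ⟨B, hB, hm, hle⟩ := pk_sz
  have hg : FP fun p : Inp × Inp => lft o p.2 p.1 := fp_lft o FP.snd FP.fst
  have h1 : FP fun p : List Inp × Inp => p.1.foldl (fun x li => lft o li x) p.2 := by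
    refine FP.foldl (g := fun (x li : Inp) => lft o li x) hg (B := fun n => n + B n) (PB.add PB.id hB) ?_
    intro L x
    have h2 := vd_fold hm hle o x L
    have h3 : B (sz L) ≤ B (sz L + sz x) := hm (Nat.le_add_right _ _)
    show _ ≤ (sz L + sz x) + B (sz L + sz x)
    omega
  have h2 : FP fun a => hst (l a) := vd_fp_hst hl
  have h3 : FP fun a => (hst (l a)).headD [] := FP.headD h2 []
  have h4 : FP fun a => (hst (l a)).drop 1 := FP.drop h2 (FP.const [true])
  have h5 : FP fun a => F o ((hst (l a)).headD []) := (hF o).comp h3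
  have h6 : FP fun a => pk o ((hst (l a)).headD []) [F o ((hst (l a)).headD []), (hst (l a)).headD []] :=
    fp_pk o h3 (FP.cons h5 (FP.cons h3 (FP.const [])))
  exact h1.comp (FP.pair h4 h6)

private def vsm : ℕ → Inp → List Inp
  | 0, l => [l]
  | m + 1, l => vsm m (nxs l) ++ [l]

private theorem vsm_ne (m : ℕ) : ∀ l : Inp, vsm m l ≠ [] := by
  intro l
  cases m with
  | zero => exact List.cons_ne_nil _ _
  | succ m =>
    show vsm m (nxs l) ++ [l] ≠ []
    intro h
    exact List.cons_ne_nil _ _ (List.append_eq_nil_iff.1 h).2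

private theorem vfold_app (X : List (Pt × Pt)) : ∀ (h t : List Inp), h ≠ [] →
    X.foldl (fun h _ => nxs (h.headD []) :: h) (h ++ t) = X.foldl (fun h _ => nxs (h.headD []) :: h) h ++ t := by
  induction X with
  | nil => exact fun _ _ _ => rfl
  | cons x X ih =>
    intro h t hh
    cases h with
    | nil => exact absurd rfl hh
    | cons a h => exact ih (nxs a :: a :: h) t (List.cons_ne_nil _ _)

private theorem vfold_vsm (X : List (Pt × Pt)) : ∀ l : Inp,
    X.foldl (fun h _ => nxs (h.headD []) :: h) [l] = vsm X.length l := by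
  induction X with
  | nil => exact fun _ => rfl
  | cons x X ih =>
    intro l
    have h1 := vfold_app X [nxs l] [l] (List.cons_ne_nil _ _)
    rw [ih (nxs l)] at h1
    exact h1

private def vlh (F : Bool → Inp → Inp) (o : Bool) (h : List Inp) : Inp :=
  (h.drop 1).foldl (fun x li => lft o li x) (pk o (h.headD []) [F o (h.headD []), h.headD []])

private theorem vlh_app (F : Bool → Inp → Inp) (o : Bool) (h : List Inp) (hh : h ≠ []) (l : Inp) :
    vlh F o (h ++ [l]) = lft o l (vlh F o h) := by
  cases h with
  | nil => exact absurd rfl hh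
  | cons a h =>
    show (h ++ [l]).foldl (fun x li => lft o li x) (pk o a [F o a, a]) = _
    rw [List.foldl_append]
    rfl

private theorem vlh_bad (F : Bool → Inp → Inp) (o : Bool) (l : Inp) (hb : (bad l).isEmpty = true) (m : ℕ) :
    vlh F o (vsm m l) = pk o l [F o l, l] := by
  induction m with
  | zero => rfl
  | succ m ih =>
    have h1 : nxs l = l := by
      unfold nxs
      rw [if_pos hb]
    have h2 : vsm (m + 1) l = vsm m l ++ [l] := by
      show vsm m (nxs l) ++ [l] = _
      rw [h1]
    rw [h2, vlh_app F o _ (vsm_ne m l), ih]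
    unfold lft
    rw [if_pos hb]

private theorem vlh_pk (F : Bool → Inp → Inp) (o : Bool) (l : Inp) (m : ℕ) :
    ∃ cs : List En, vlh F o (vsm m l) = pk o l cs := by
  cases hb : (bad l).isEmpty with
  | true => exact ⟨_, vlh_bad F o l hb m⟩
  | false =>
    cases m with
    | zero => exact ⟨[F o l, l], rfl⟩
    | succ m =>
      have h1 : vlh F o (vsm (m + 1) l) = lft o l (vlh F o (vsm m (nxs l))) := vlh_app F o _ (vsm_ne m _) l
      rw [h1]
      unfold lft
      rw [if_neg (by simp [hb])]
      exact ⟨_, rfl⟩

theorem sol_sz : ∃ B : ℕ → ℕ, PB B ∧ Monotone B ∧ ∀ (F : Bool → Inp → Inp) (o : Bool) (l : Inp),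
    sz (sol F o l) ≤ B (sz l) := by
  obtain ⟨B, hB, hm, hle⟩ := pk_sz
  refine ⟨B, hB, hm, fun F o l => ?_⟩
  have h1 : sol F o l = vlh F o (vsm l.length l) := by
    show vlh F o (hst l) = _
    rw [← vfold_vsm l l]
    rfl
  obtain ⟨cs, h2⟩ := vlh_pk F o l l.length
  rw [h1, h2]
  exact hle o l cs

end

end Pool.Agent.FGT
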