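import Pool.Agent.FGT.RdDef
import Pool.Agent.FGT.SmA
import Pool.Agent.BEO.DLf

/-!
# FGT-RdA: the Euler characteristic of open maps

PLAN. As in `SmB` (`chi_le`), which is the case `L = part A S`: copy and adapt. `Z` = the functions `z : A → F2` with sum `0` at every run (class of `rV A L` over `A`); `dim Z ≤ A.card - (vsL A L - 1)` by `CnL`.
The boundaries `b f` of the closed faces are in `Z` and independent, because there is an open flag. `chiL_le0`: let `w` be the indicator of the flags `p` over `A` which are related by `rF A L` to an open flag in `U`. The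
function `b w e = w (rp e) + w (side (rp e))` is in `Z` as well: at a run the flags `p` with `w p = 1` are paired by `L`, except for the open ones in `U`; a run has no or two open flags (`two_ends` in SmA), which are both in `U` or both not in `U`
(`hv`). The `b f` together with `b w` are independent: if a sum is `0`, the corresponding function `g` on the flags over `A` (value `c f` on the face `f`, `c w` on the flags with `w = 1`, `0` else) is invariant under `side`, `across`, `L`, so constant by `CnL`, and `0` at the open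
flag not in `U`. So `clo + 1 ≤ A.card - vsL + 1`.
-/

set_option autoImplicit false

open Finset
open scoped Classical

namespace Pool.Agent.FGT

open Pool.Agent.Helper35.OG (Flag GMap across side)
open Pool.Agent.BEO (F2 ed rp cyc ev bdF nb)
open Pool.Agent.BEO (frm)

variable {V : Type} {G : SimpleGraph V} [Fintype V]

private theorem rda_flags (f : Flag G → F2) :
    ∑ p, f p = ∑ e : G.edgeSet, ((f (rp e) + f (side (rp e))) +
      (f (across (rp e)) + f (side (across (rp e))))) := by
  have h1 : ∑ p, f p = ∑ d : G.Dart, (f (d, true) + f (d, false)) := by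
    rw [Fintype.sum_prod_type]
    refine Finset.sum_congr rfl fun d _ => ?_
    rw [Fintype.sum_bool]
  rw [h1, Pool.Agent.BEO.sum_edges]
  refine Finset.sum_congr rfl fun e _ => ?_
  obtain ⟨d, b⟩ := rp e
  cases b
  · show (f (d, true) + f (d, false)) + (f (d.symm, true) + f (d.symm, false)) =
      (f (d, false) + f (d, true)) + (f (d.symm, true) + f (d.symm, false))
    ring
  · show (f (d, true) + f (d, false)) + (f (d.symm, true) + f (d.symm, false)) =
      (f (d, true) + f (d, false)) + (f (d.symm, false) + f (d.symm, true))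
    ring

omit [Fintype V] in
private theorem rda_edq (p : Flag G) : rp (ed p) = p ∨ rp (ed p) = side p ∨ rp (ed p) = across p ∨
    rp (ed p) = side (across p) := by
  have h1 : (rp (ed p)).1.edge = p.1.edge := congrArg Subtype.val (Pool.Agent.BEO.ed_rp (ed p))
  have h2 := (SimpleGraph.dart_edge_eq_iff _ _).1 h1
  rcases p with ⟨d, s⟩
  generalize rp (ed (d, s)) = q at h2 ⊢
  rcases q with ⟨d', s'⟩
  simp only at h2
  rcases h2 with rfl | rfl
  · cases s <;> cases s' <;> simp [side, across]
  · cases s <;> cases s' <;> simp [side, across]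

omit [Fintype V] in
/-- a function invariant under `side`, `across` and inner corners over the connected set `A` is constant over `A` -/
private theorem rda_const (L : Flag G → Flag G) (A : Finset G.edgeSet) (hc : CnL A L) (g : Flag G → F2)
    (h1 : ∀ p, ed p ∈ A → g (side p) = g p) (h2 : ∀ p, ed p ∈ A → g (across p) = g p)
    (h3 : ∀ p, ed p ∈ A → g (L p) = g p) (p q : Flag G) (hp : ed p ∈ A) (hq : ed q ∈ A) :
    g p = g q := by
  have h4 : ∀ p : Flag G, ed p ∈ A → g (rp (ed p)) = g p := by
    intro p hp
    have ha : ed (across p) ∈ A := by rw [Pool.Agent.BEO.ed_across]; exact hp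
    rcases rda_edq p with h | h | h | h
    · rw [h]
    · rw [h, h1 p hp]
    · rw [h, h2 p hp]
    · rw [h, h1 _ ha, h2 p hp]
  rw [← h4 p hp, ← h4 q hq]
  have h5 := Pool.Agent.Helper35.OG.eqvGen_eq (fun e : G.edgeSet => if e ∈ A then g (rp e) else 0)
    (fun x y (hxy : x ∈ A ∧ y ∈ A ∧ ∃ p : Flag G, ed p = x ∧ ed (L p) = y) => by
      obtain ⟨hx, hy, p, rfl, rfl⟩ := hxy
      show (if ed p ∈ A then g (rp (ed p)) else 0) = (if ed (L p) ∈ A then g (rp (ed (L p))) else 0)
      rw [if_pos hx, if_pos hy, h4 p hx, h4 _ hy, h3 p hx]) (hc (ed p) hp (ed q) hq)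
  have h6 : (if ed p ∈ A then g (rp (ed p)) else 0) = (if ed q ∈ A then g (rp (ed q)) else 0) := h5
  rwa [if_pos hp, if_pos hq] at h6

private theorem rda_mono {X : Type} {r s : X → X → Prop} (h : ∀ x y, r x y → s x y) {x y : X}
    (hxy : Relation.EqvGen r x y) : Relation.EqvGen s x y := by
  induction hxy with
  | rel x y hxy => exact Relation.EqvGen.rel _ _ (h x y hxy)
  | refl x => exact Relation.EqvGen.refl x
  | symm x y _ ih => exact Relation.EqvGen.symm _ _ ih
  | trans x y z _ _ ih1 ih2 => exact Relation.EqvGen.trans _ _ _ ih1 ih2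

omit [Fintype V] in
private theorem rda_eg (A : Finset G.edgeSet) (L : Flag G → Flag G) (hL : OMap A L) (x y : Flag G)
    (h : Relation.EqvGen (fun x y : Flag G => y = L x ∨ y = side x) x y) :
    (ed x ∈ A ↔ ed y ∈ A) ∧ (ed x ∈ A → Relation.EqvGen (rV A L) x y) := by
  induction h with
  | rel x y h =>
    rcases h with rfl | rfl
    · refine ⟨⟨hL.mem x, fun h => ?_⟩, fun h => Relation.EqvGen.rel _ _ ⟨h, Or.inl rfl⟩⟩
      have := hL.mem _ h
      rwa [hL.inv] at this
    · refine ⟨by rw [Pool.Agent.BEO.ed_side], fun h => Relation.EqvGen.rel _ _ ⟨h, Or.inr rfl⟩⟩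
  | refl x => exact ⟨Iff.rfl, fun _ => Relation.EqvGen.refl _⟩
  | symm x y _ ih => exact ⟨ih.1.symm, fun h => Relation.EqvGen.symm _ _ (ih.2 (ih.1.2 h))⟩
  | trans x y z _ _ ih1 ih2 =>
    exact ⟨ih1.1.trans ih2.1, fun h => Relation.EqvGen.trans _ _ _ (ih1.2 h) (ih2.2 (ih1.1.1 h))⟩

private theorem rda_key (A : Finset G.edgeSet) (L : Flag G → Flag G) (hL : OMap A L) (hc : CnL A L)
    (q0 : Flag G) (hq0 : ed q0 ∈ A) {I : Type} [Fintype I] (x : I → Flag G → F2)
    (hxa : ∀ i p, ed p ∈ A → x i (across p) = x i p)
    (hxL : ∀ i p, ed p ∈ A → x i (L p) = x i p)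
    (hxo : ∀ i (r : Quot (rV A L)), ∑ p ∈ univ.filter (fun p => Um A L p),
      (if Quot.mk _ p = r then x i p else 0) = 0)
    (hind : ∀ c : I → F2, (∀ p, ed p ∈ A → ∑ i, x i (side p) * c i = ∑ i, x i p * c i) → c = 0) :
    (vsL A L : ℤ) - (A.card : ℤ) + (Fintype.card I : ℤ) ≤ 1 := by
  let R : Type := {c : Quot (rV A L) // ∃ p, Quot.mk _ p = c ∧ ed p ∈ A}
  have : Finite (Quot (rV A L)) := Quot.finite _
  have : Finite R := Subtype.finite
  let _ : Fintype R := Fintype.ofFinite _
  let xR : R → Flag G → F2 := fun r p => if Quot.mk _ p = r.1 then 1 else 0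
  have xR_side : ∀ f p, ed p ∈ A → xR f (side p) = xR f p := by
    intro f p hp
    have h : (Quot.mk (rV A L) p) = Quot.mk _ (side p) := Quot.sound ⟨hp, Or.inr rfl⟩
    show (if Quot.mk _ (side p) = f.1 then (1 : F2) else 0) = if Quot.mk _ p = f.1 then 1 else 0
    rw [h]
  have xR_L : ∀ f p, ed p ∈ A → xR f (L p) = xR f p := by
    intro f p hp
    have h : (Quot.mk (rV A L) p) = Quot.mk _ (L p) := Quot.sound ⟨hp, Or.inl rfl⟩
    show (if Quot.mk _ (L p) = f.1 then (1 : F2) else 0) = if Quot.mk _ p = f.1 then 1 else 0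
    rw [h]
  -- the matrices
  let M : Matrix I A F2 := fun f e => x f (rp e.1) + x f (side (rp e.1))
  let B : Matrix A R F2 := fun e r => xR r (rp e.1) + xR r (across (rp e.1))
  have hMB : M * B = 0 := by
    ext f r
    rw [Matrix.mul_apply, Matrix.zero_apply]
    have hF : ∀ e : A, M f e * B e r = ((x f (rp e.1) * xR r (rp e.1) + x f (side (rp e.1)) * xR r (side (rp e.1))) +
        (x f (across (rp e.1)) * xR r (across (rp e.1)) +
          x f (side (across (rp e.1))) * xR r (side (across (rp e.1))))) := by
      intro e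
      have he : ed (rp e.1) ∈ A := by rw [Pool.Agent.BEO.ed_rp]; exact e.2
      have he2 : ed (across (rp e.1)) ∈ A := by rw [Pool.Agent.BEO.ed_across]; exact he
      have he3 : ed (side (rp e.1)) ∈ A := by rw [Pool.Agent.BEO.ed_side]; exact he
      have e1 := xR_side r _ he
      have e2 := hxa f _ he
      have e3 := xR_side r _ he2
      have e4 : x f (side (across (rp e.1))) = x f (side (rp e.1)) := hxa f (side (rp e.1)) he3
      rw [e1, e2, e3, e4]
      show (x f (rp e.1) + x f (side (rp e.1))) * (xR r (rp e.1) + xR r (across (rp e.1))) = _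
      ring
    rw [Finset.sum_congr rfl fun e _ => hF e]
    set F : Flag G → F2 := fun p : Flag G => if ed p ∈ A then x f p * xR r p else 0 with hFdef
    have hFL : ∀ p, F (L p) = F p := by
      intro p
      by_cases ha : ed p ∈ A
      · show (if ed (L p) ∈ A then x f (L p) * xR r (L p) else 0) = (if ed p ∈ A then x f p * xR r p else 0)
        rw [if_pos ha, if_pos (hL.mem p ha), hxL f p ha, xR_L r p ha]
      · rw [hL.out p ha]
    have h1 : ∑ p, F p = 0 := by
      rw [← Finset.sum_filter_add_sum_filter_not univ (fun p => L p = p) F]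
      have h2 : ∑ p ∈ univ.filter (fun p => ¬ L p = p), F p = 0 := by
        refine Finset.sum_involution (fun p _ => L p) ?_ ?_ ?_ ?_
        · intro p _
          rw [hFL]
          exact CharTwo.add_self_eq_zero _
        · intro p hp _
          exact (Finset.mem_filter.1 hp).2
        · intro p hp
          refine Finset.mem_filter.2 ⟨Finset.mem_univ _, ?_⟩
          rw [hL.inv]
          exact fun h => (Finset.mem_filter.1 hp).2 h.symm
        · intro p _
          exact hL.inv p
      rw [h2, add_zero]
      refine Eq.trans ?_ (hxo f r.1)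
      have h9 : ∑ p ∈ univ.filter (fun p => Um A L p), F p = ∑ p ∈ univ.filter (fun p => L p = p), F p := by
        refine Finset.sum_subset ?_ ?_
        · intro p hp
          exact Finset.mem_filter.2 ⟨Finset.mem_univ _, ((Finset.mem_filter.1 hp).2).2⟩
        · intro p hp hp2
          have h3 : ed p ∉ A := fun h => hp2 (Finset.mem_filter.2 ⟨Finset.mem_univ _, h, (Finset.mem_filter.1 hp).2⟩)
          exact if_neg h3
      refine h9.symm.trans ?_
      · refine Finset.sum_congr rfl fun p hp => ?_
        have h3 : ed p ∈ A := ((Finset.mem_filter.1 hp).2).1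
        show (if ed p ∈ A then x f p * xR r p else 0) = _
        rw [if_pos h3]
        show x f p * (if Quot.mk _ p = r.1 then (1 : F2) else 0) = _
        split_ifs
        · rw [mul_one]
        · rw [mul_zero]
    rw [rda_flags] at h1
    rw [← h1]
    refine (Finset.sum_coe_sort A (fun e : G.edgeSet => ((x f (rp e) * xR r (rp e) + x f (side (rp e)) * xR r (side (rp e))) +
        (x f (across (rp e)) * xR r (across (rp e)) + x f (side (across (rp e))) * xR r (side (across (rp e))))))).trans ?_
    refine Eq.trans ?_ (Finset.sum_subset (Finset.subset_univ A) ?_)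
    · refine Finset.sum_congr rfl fun e he => ?_
      have he1 : ed (rp e) ∈ A := by rw [Pool.Agent.BEO.ed_rp]; exact he
      have he2 : ed (side (rp e)) ∈ A := he1
      have he3 : ed (across (rp e)) ∈ A := by rw [Pool.Agent.BEO.ed_across]; exact he1
      have he4 : ed (side (across (rp e))) ∈ A := he3
      simp only [hFdef]
      rw [if_pos he1, if_pos he2, if_pos he3, if_pos he4]
    · intro e _ he
      have he1 : ed (rp e) ∉ A := by rw [Pool.Agent.BEO.ed_rp]; exact he
      have he2 : ed (side (rp e)) ∉ A := he1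
      have he3 : ed (across (rp e)) ∉ A := by rw [Pool.Agent.BEO.ed_across]; exact he1
      have he4 : ed (side (across (rp e))) ∉ A := he3
      simp only [hFdef]
      rw [if_neg he1, if_neg he2, if_neg he3, if_neg he4]
      simp
  -- the rows of `M` are independent
  have hMr : Module.finrank F2 (LinearMap.range M.mulVecLin) = Fintype.card I := by
    have h1 : M.rank = M.transpose.rank := (Matrix.rank_transpose M).symm
    have h2 : M.transpose.rank = Fintype.card I := by
      unfold Matrix.rank
      rw [LinearMap.finrank_range_of_inj, Module.finrank_fintype_fun_eq_card]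
      rw [← LinearMap.ker_eq_bot, LinearMap.ker_eq_bot']
      intro c hc0
      apply hind c
      let g : Flag G → F2 := fun p => ∑ f, x f p * c f
      have hg0 : ∀ e ∈ A, g (rp e) = g (side (rp e)) := by
        intro e he
        have h3 := congrFun hc0 ⟨e, he⟩
        rw [Matrix.mulVecLin_apply, Matrix.mulVec, dotProduct] at h3
        have h4 : ∑ f, (x f (rp e) + x f (side (rp e))) * c f = 0 := h3
        simp only [add_mul, Finset.sum_add_distrib] at h4
        exact CharTwo.add_eq_zero.1 h4
      have hga : ∀ p, ed p ∈ A → g (across p) = g p := by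
        intro p hp
        exact Finset.sum_congr rfl fun f _ => by rw [hxa f p hp]
      intro p hp
      show g (side p) = g p
      have h5 := hg0 _ hp
      have hp2 : ed (side p) ∈ A := by rw [Pool.Agent.BEO.ed_side]; exact hp
      have h6 : g (side (across p)) = g (side p) := hga (side p) hp2
      rcases rda_edq p with h | h | h | h
      · rw [h] at h5
        exact h5.symm
      · rw [h, Pool.Agent.Helper35.OG.side_side] at h5
        exact h5
      · rw [h, h6, hga p hp] at h5
        exact h5.symm
      · rw [h, Pool.Agent.Helper35.OG.side_side, h6, hga p hp] at h5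
        exact h5
    exact h1.trans h2
  -- the kernel of `B`
  have hBk : Module.finrank F2 (LinearMap.ker B.mulVecLin) ≤ 1 := by
    obtain ⟨r0⟩ : Nonempty R := ⟨⟨Quot.mk _ q0, q0, rfl, hq0⟩⟩
    let φ : LinearMap.ker B.mulVecLin →ₗ[F2] F2 := (LinearMap.proj r0).comp (LinearMap.ker B.mulVecLin).subtype
    have hφ : Function.Injective φ := by
      rw [← LinearMap.ker_eq_bot, LinearMap.ker_eq_bot']
      rintro ⟨h, hh⟩ h0
      have h0' : h r0 = 0 := h0
      rw [LinearMap.mem_ker] at hh
      let g : Flag G → F2 := fun p => ∑ r, xR r p * h r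
      have hg0 : ∀ e ∈ A, g (rp e) = g (across (rp e)) := by
        intro e he
        have h3 := congrFun hh ⟨e, he⟩
        rw [Matrix.mulVecLin_apply, Matrix.mulVec, dotProduct] at h3
        have h4 : ∑ r, (xR r (rp e) + xR r (across (rp e))) * h r = 0 := h3
        simp only [add_mul, Finset.sum_add_distrib] at h4
        exact CharTwo.add_eq_zero.1 h4
      have hgs : ∀ p, ed p ∈ A → g (side p) = g p := by
        intro p hp
        exact Finset.sum_congr rfl fun f _ => by rw [xR_side f p hp]
      have hga : ∀ p, ed p ∈ A → g (across p) = g p := by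
        intro p hp
        have h5 := hg0 _ hp
        have hp2 : ed (across p) ∈ A := by rw [Pool.Agent.BEO.ed_across]; exact hp
        have h6 : g (side (across p)) = g (across p) := hgs (across p) hp2
        rcases rda_edq p with h | h | h | h
        · rw [h] at h5
          exact h5.symm
        · have h7 : across (side p) = side (across p) := rfl
          rw [h, h7, hgs p hp, h6] at h5
          exact h5.symm
        · rw [h, Pool.Agent.Helper35.OG.across_across] at h5
          exact h5
        · have h7 : across (side (across p)) = side (across (across p)) := rfl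
          rw [h, h7, Pool.Agent.Helper35.OG.across_across, h6, hgs p hp] at h5
          exact h5
      have hgn : ∀ p, ed p ∈ A → g (L p) = g p := by
        intro p hp
        exact Finset.sum_congr rfl fun f _ => by rw [xR_L f p hp]
      have h8 : ∀ r : R, ∀ p, Quot.mk _ p = r.1 → g p = h r := by
        intro r p hpr
        show ∑ r', xR r' p * h r' = h r
        rw [Finset.sum_eq_single r]
        · show (if Quot.mk _ p = r.1 then (1 : F2) else 0) * h r = h r
          rw [if_pos hpr, one_mul]
        · intro f' _ hf'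
          show (if Quot.mk _ p = f'.1 then (1 : F2) else 0) * h f' = 0
          rw [if_neg fun h => hf' (Subtype.ext (h.symm.trans hpr)), zero_mul]
        · intro h
          exact absurd (Finset.mem_univ r) h
      apply Subtype.ext
      funext r
      show h r = 0
      obtain ⟨p, hpr, hp⟩ := r.2
      obtain ⟨p', hpr', hp'⟩ := r0.2
      rw [← h8 r p hpr, rda_const L A hc g hgs hga hgn p p' hp hp', h8 r0 p' hpr', h0']
    refine (LinearMap.finrank_le_finrank_of_injective hφ).trans ?_
    rw [Module.finrank_self]
  -- counting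
  have h1 := LinearMap.finrank_range_add_finrank_ker B.mulVecLin
  have h2 := LinearMap.finrank_range_add_finrank_ker M.mulVecLin
  rw [Module.finrank_fintype_fun_eq_card] at h1 h2
  have h3 : LinearMap.range B.mulVecLin ≤ LinearMap.ker M.mulVecLin := by
    rw [LinearMap.range_le_ker_iff, ← Matrix.mulVecLin_mul, hMB]
    ext
    simp
  have h4 := Submodule.finrank_mono h3
  have h5 : Fintype.card A = A.card := Fintype.card_coe A
  have h6 : vsL A L = Fintype.card R := by
    show Nat.card R = _
    rw [Nat.card_eq_fintype_card]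
  rw [h6]
  omega

omit [Fintype V] in
private theorem rda_cF (A : Finset G.edgeSet) (L : Flag G → Flag G) (c : Quot (rF A L)) (p : Flag G) (hp : ed p ∈ A) :
    (if Quot.mk _ (across p) = c then (1 : F2) else 0) = (if Quot.mk _ p = c then 1 else 0) ∧
    (if Quot.mk _ (L p) = c then (1 : F2) else 0) = (if Quot.mk _ p = c then 1 else 0) := by
  have h1 : (Quot.mk (rF A L) p) = Quot.mk _ (across p) := Quot.sound ⟨hp, Or.inr rfl⟩
  have h2 : (Quot.mk (rF A L) p) = Quot.mk _ (L p) := Quot.sound ⟨hp, Or.inl rfl⟩
  exact ⟨by rw [h1], by rw [h2]⟩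

theorem chiL_le (A : Finset G.edgeSet) (L : Flag G → Flag G) (hL : OMap A L) (hc : CnL A L) (hu : ∃ p, Um A L p) :
    chiL A L ≤ 1 := by
  obtain ⟨q0, hq0⟩ := hu
  let Fc : Type := {c : Quot (rF A L) // (∃ p, Quot.mk _ p = c ∧ ed p ∈ A) ∧ ∀ q, Um A L q → Quot.mk _ q ≠ c}
  have : Finite (Quot (rF A L)) := Quot.finite _
  have : Finite Fc := Subtype.finite
  let _ : Fintype Fc := Fintype.ofFinite _
  let xF : Fc → Flag G → F2 := fun f p => if Quot.mk _ p = f.1 then 1 else 0
  have hxa : ∀ f p, ed p ∈ A → xF f (across p) = xF f p := fun f p hp => (rda_cF A L f.1 p hp).1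
  have hxL : ∀ f p, ed p ∈ A → xF f (L p) = xF f p := fun f p hp => (rda_cF A L f.1 p hp).2
  have hx0 : ∀ f p, Um A L p → xF f p = 0 := fun f p hp => if_neg (f.2.2 p hp)
  have h7 : clo A L = Fintype.card Fc := by
    show Nat.card Fc = _
    rw [Nat.card_eq_fintype_card]
  unfold chiL
  rw [h7]
  refine rda_key A L hL hc q0 hq0.1 xF hxa hxL ?_ ?_
  · intro f r
    refine Finset.sum_eq_zero fun p hp => ?_
    rw [hx0 f p (Finset.mem_filter.1 hp).2, ite_self]
  · intro c hcs
    funext f
    obtain ⟨⟨p, hpf, hp⟩, -⟩ := f.2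
    have h8 := rda_const L A hc (fun p => ∑ f, xF f p * c f) hcs
      (fun p hp => Finset.sum_congr rfl fun f _ => by rw [hxa f p hp])
      (fun p hp => Finset.sum_congr rfl fun f _ => by rw [hxL f p hp]) p q0 hp hq0.1
    have h9 : ∑ f, xF f q0 * c f = 0 := Finset.sum_eq_zero fun f _ => by rw [hx0 f q0 hq0, zero_mul]
    have h10 : ∑ f', xF f' p * c f' = c f := by
      rw [Finset.sum_eq_single f]
      · show (if Quot.mk _ p = f.1 then (1 : F2) else 0) * c f = c f
        rw [if_pos hpf, one_mul]
      · intro f' _ hf'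
        show (if Quot.mk _ p = f'.1 then (1 : F2) else 0) * c f' = 0
        rw [if_neg fun h => hf' (Subtype.ext (h.symm.trans hpf)), zero_mul]
      · intro h
        exact absurd (Finset.mem_univ f) h
    rw [← h10]
    exact h8.trans h9

/-- if the open flags split into two parts which are not joined by runs or faces, the Euler characteristic is at most zero -/
theorem chiL_le0 (A : Finset G.edgeSet) (L : Flag G → Flag G) (hL : OMap A L) (hc : CnL A L) (U : Flag G → Prop)
    (h1 : ∃ p, Um A L p ∧ U p) (h2 : ∃ p, Um A L p ∧ ¬ U p)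
    (hv : ∀ p q, Um A L p → Um A L q → Relation.EqvGen (rV A L) p q → (U p ↔ U q))
    (hf : ∀ p q, Um A L p → Um A L q → Relation.EqvGen (rF A L) p q → (U p ↔ U q)) : chiL A L ≤ 0 := by
  obtain ⟨q1, hq1, hU1⟩ := h1
  obtain ⟨q2, hq2, hU2⟩ := h2
  let Fc : Type := {c : Quot (rF A L) // (∃ p, Quot.mk _ p = c ∧ ed p ∈ A) ∧ ∀ q, Um A L q → Quot.mk _ q ≠ c}
  have : Finite (Quot (rF A L)) := Quot.finite _
  have : Finite Fc := Subtype.finite
  let _ : Fintype Fc := Fintype.ofFinite _
  let xF : Fc → Flag G → F2 := fun f p => if Quot.mk _ p = f.1 then 1 else 0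
  have hxa : ∀ f p, ed p ∈ A → xF f (across p) = xF f p := fun f p hp => (rda_cF A L f.1 p hp).1
  have hxL : ∀ f p, ed p ∈ A → xF f (L p) = xF f p := fun f p hp => (rda_cF A L f.1 p hp).2
  have hx0 : ∀ f p, Um A L p → xF f p = 0 := fun f p hp => if_neg (f.2.2 p hp)
  let w : Flag G → F2 := fun p => if ∃ q, Um A L q ∧ U q ∧ Relation.EqvGen (rF A L) p q then 1 else 0
  have hwgen : ∀ p q, Relation.EqvGen (rF A L) p q → w q = w p := by
    intro p q h
    have h3 : (∃ q', Um A L q' ∧ U q' ∧ Relation.EqvGen (rF A L) q q') ↔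
        ∃ q', Um A L q' ∧ U q' ∧ Relation.EqvGen (rF A L) p q' :=
      ⟨fun ⟨q', h4, h5, h6⟩ => ⟨q', h4, h5, Relation.EqvGen.trans _ _ _ h h6⟩,
        fun ⟨q', h4, h5, h6⟩ => ⟨q', h4, h5, Relation.EqvGen.trans _ _ _ (Relation.EqvGen.symm _ _ h) h6⟩⟩
    show (if _ then (1 : F2) else 0) = if _ then (1 : F2) else 0
    rw [if_congr h3 rfl rfl]
  have hwa : ∀ p, ed p ∈ A → w (across p) = w p := fun p hp =>
    hwgen _ _ (Relation.EqvGen.rel _ _ ⟨hp, Or.inr rfl⟩)
  have hwL : ∀ p, ed p ∈ A → w (L p) = w p := fun p hp =>
    hwgen _ _ (Relation.EqvGen.rel _ _ ⟨hp, Or.inl rfl⟩)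
  have hwU : ∀ p, Um A L p → w p = if U p then 1 else 0 := by
    intro p hp
    have h3 : (∃ q, Um A L q ∧ U q ∧ Relation.EqvGen (rF A L) p q) ↔ U p :=
      ⟨fun ⟨q, h4, h5, h6⟩ => (hf p q hp h4 h6).2 h5, fun h => ⟨p, hp, h, Relation.EqvGen.refl _⟩⟩
    show (if _ then (1 : F2) else 0) = if _ then (1 : F2) else 0
    rw [if_congr h3 rfl rfl]
  let x : Option Fc → Flag G → F2 := fun i => Option.elim i w xF
  have h7 : clo A L = Fintype.card Fc := by
    show Nat.card Fc = _
    rw [Nat.card_eq_fintype_card]
  have hkey := rda_key A L hL hc q1 hq1.1 x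
    (fun i p hp => by
      cases i with
      | none => exact hwa p hp
      | some f => exact hxa f p hp)
    (fun i p hp => by
      cases i with
      | none => exact hwL p hp
      | some f => exact hxL f p hp) ?_ ?_
  · rw [Fintype.card_option] at hkey
    unfold chiL
    rw [h7]
    push_cast at hkey
    omega
  · intro i r
    cases i with
    | some f =>
      refine Finset.sum_eq_zero fun p hp => ?_
      have h3 : x (some f) p = 0 := hx0 f p (Finset.mem_filter.1 hp).2
      rw [h3, ite_self]
    | none =>
      show ∑ p ∈ univ.filter (fun p => Um A L p), (if Quot.mk _ p = r then w p else 0) = 0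
      rw [← Finset.sum_filter]
      rcases Finset.eq_empty_or_nonempty ((univ.filter (fun p => Um A L p)).filter
        (fun p => Quot.mk (rV A L) p = r)) with he | ⟨p, hp⟩
      · rw [he, Finset.sum_empty]
      · obtain ⟨hp1, hpr⟩ := Finset.mem_filter.1 hp
        have hpU : Um A L p := (Finset.mem_filter.1 hp1).2
        obtain ⟨q, hqp, hLq, hpq, hall⟩ := two_ends (side : Flag G → Flag G) L Pool.Agent.Helper35.OG.side_side
          Pool.Agent.Helper35.OG.side_ne hL.inv p hpU.2
        obtain ⟨h3, h4⟩ := rda_eg A L hL p q hpq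
        have hqU : Um A L q := ⟨h3.1 hpU.1, hLq⟩
        have hset : (univ.filter (fun p => Um A L p)).filter (fun p => Quot.mk (rV A L) p = r) = {p, q} := by
          ext y
          rw [Finset.mem_filter, Finset.mem_filter, Finset.mem_insert, Finset.mem_singleton]
          constructor
          · rintro ⟨⟨-, hy⟩, hyr⟩
            refine hall y hy.2 ?_
            have h5 : Relation.EqvGen (rV A L) p y := Quot.eqvGen_exact (hpr.trans hyr.symm)
            exact rda_mono (fun a b hab => hab.2) h5
          · rintro (rfl | rfl)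
            · exact ⟨⟨Finset.mem_univ _, hpU⟩, hpr⟩
            · exact ⟨⟨Finset.mem_univ _, hqU⟩, (Quot.eqvGen_sound (h4 hpU.1)).symm.trans hpr⟩
        rw [hset, Finset.sum_pair (Ne.symm hqp), hwU p hpU, hwU q hqU, if_congr (hv p q hpU hqU (h4 hpU.1)) rfl rfl]
        exact CharTwo.add_self_eq_zero _
  · intro c hcs
    have hsum : ∀ p, ∑ i, x i p * c i = w p * c none + ∑ f, xF f p * c (some f) := by
      intro p
      rw [Fintype.sum_option]
      rfl
    have hconst := rda_const L A hc (fun p => ∑ i, x i p * c i) hcs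
      (fun p hp => by
        show ∑ i, x i (across p) * c i = ∑ i, x i p * c i
        rw [hsum, hsum, hwa p hp]
        congr 1
        exact Finset.sum_congr rfl fun f _ => by rw [hxa f p hp])
      (fun p hp => by
        show ∑ i, x i (L p) * c i = ∑ i, x i p * c i
        rw [hsum, hsum, hwL p hp]
        congr 1
        exact Finset.sum_congr rfl fun f _ => by rw [hxL f p hp])
    have h20 : ∑ i, x i q2 * c i = 0 := by
      rw [hsum, hwU q2 hq2, if_neg hU2, zero_mul, zero_add]
      exact Finset.sum_eq_zero fun f _ => by rw [hx0 f q2 hq2, zero_mul]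
    have h10 : c none = 0 := by
      have h3 := (hconst q1 q2 hq1.1 hq2.1).trans h20
      have h4 : ∑ i, x i q1 * c i = c none := by
        rw [hsum, hwU q1 hq1, if_pos hU1, one_mul]
        rw [Finset.sum_eq_zero fun f _ => by rw [hx0 f q1 hq1, zero_mul], add_zero]
      exact h4.symm.trans h3
    funext i
    cases i with
    | none => exact h10
    | some f =>
      obtain ⟨⟨p, hpf, hp⟩, -⟩ := f.2
      have h3 := (hconst p q2 hp hq2.1).trans h20
      have h4 : ∑ i, x i p * c i = c (some f) := by
        rw [hsum, h10, mul_zero, zero_add]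
        rw [Finset.sum_eq_single f]
        · show (if Quot.mk _ p = f.1 then (1 : F2) else 0) * c (some f) = c (some f)
          rw [if_pos hpf, one_mul]
        · intro f' _ hf'
          show (if Quot.mk _ p = f'.1 then (1 : F2) else 0) * c (some f') = 0
          rw [if_neg fun h => hf' (Subtype.ext (h.symm.trans hpf)), zero_mul]
        · intro h
          exact absurd (Finset.mem_univ f) h
      exact h4.symm.trans h3

end Pool.Agent.FGT
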