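import Pool.Agent.FGT.Alg

/-!
# FGT-RdAlg: the reduction and the embedding algorithm (definitions)

`bad l` lists the sets of edges which can be replaced; `nxs` replaces the first one and numbers the vertices again, `lft` changes the code of a map of the new graph to the code of a map of the old graph. New maps are found among few candidates: delete edges, break at most two corners,
add at most six corners, and take a valid candidate with the largest number of faces.
-/

set_option autoImplicit false

namespace Pool.Agent.FGT

open Pool.Agent.BEO (look memb ddp comp cds Pt Ec Inp sd ac ek fl)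
open Pool.Agent.SCG (edl nx bst vl Adl std tre)

/-- candidates: delete the edges of `d`, break at most two corners, add the corners `xa` and at most six corners -/
def cg (x : Inp) (d : List Ec) (fs : List Pt) (xa : En) : List En :=
  (cds ((fl x).map fun p => [p]) 2).flatMap fun bk =>
    (cds (fs.flatMap fun p => fs.map fun q => [(p, q), (q, p)]) 6).map fun z =>
      (x.filter fun y => (!memb d (ek y.1) && !memb d (ek y.2)) && (!memb bk y.1 && !memb bk y.2)) ++ (xa ++ z)

/-- a valid candidate with the largest number of faces; `l` codes any map of the graph -/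
def pk (o : Bool) (l : Inp) (cs : List En) : Inp :=
  (bst (clD l (edl l)) ((cs.map (nrE l)).filter fun x => vlD 0 l (edl l) x && (!o || orD l x))).headD l

/-- the inner corners of `d` -/
def inn (l : Inp) (d : List Ec) : En := l.filter fun y => memb d (ek y.1) && memb d (ek y.2)

/-- the number of runs -/
def nvD (l : Inp) (d : List Ec) (x : En) : ℕ := (ddp ((lV l d x).map Prod.snd)).length

/-- the classes of the edges of `d` joined by inner corners -/
def cpD (l : Inp) (d : List Ec) : List (Ec × Ec) := comp d ((inn l d).map fun y => (ek y.1, ek y.2))

/-- is `d` connected? -/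
def cnD (l : Inp) (d : List Ec) : Bool :=
  d.all fun e => d.all fun f => decide (look (cpD l d) e e = look (cpD l d) f f)

/-- the neighbours of a vertex -/
def nbD (l : Inp) (v : ℕ) : List ℕ := ddp (((fl l).filter fun p => decide (p.1 = v)).map fun p => p.2.1)

/-- trivial sets -/
def trD (l : Inp) (d : List Ec) : Bool := (decide (d.length = 1) && decide ((umD l d (inn l d)).length = 4)) ||
  (vl l).any fun x => (decide ((nbD l x).length = 2) && d.all fun e => decide (e.1 = x) || decide (e.2 = x)) &&
    (((fl l).all fun p => !decide (p.1 = x) || memb d (ek p)) &&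
      (fl l).any fun q => memb (nbD l x) q.1 && memb (nbD l x) q.2.1)

/-- can `d` be replaced? -/
def tst (l : Inp) (d : List Ec) : Bool :=
  (decide ((umD l d (inn l d)).length ≤ 4) && decide (d.length < (edl l).length)) &&
    ((decide (nvD l d (inn l d) + clD l d (inn l d) = d.length + 1) && decide (0 < d.length)) &&
      (cnD l d && !trD l d))

/-- the sets which can be replaced -/
def bad (l : Inp) : List (List Ec) := (dks 4 l).filter (tst l)

/-- the code of the edge `v w` -/
def nme (v w : ℕ) : Ec := if decide (v ≤ w) then (v, w) else (w, v)

/-- the new edges; `t` lists the attachments, `x` is another vertex -/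
def rr0 (l : Inp) (d : List Ec) (t : List ℕ) (v w x : ℕ) : List Ec :=
  if decide (t.length ≤ 1) then []
  else if (edl l).any fun e => !memb d e && decide (e = nme v w) then [nme v x, nme x w] else [nme v w]

/-- the new edges -/
def rrD (l : Inp) (d : List Ec) : List Ec := rr0 l d (bvD l d) ((bvD l d).headD 0) (((bvD l d).drop 1).headD 0)
  (((ddp ((fD l d).map Prod.fst)).filter fun u => !memb (bvD l d) u).headD 0)

/-- the edges of the new graph -/
def tgD (l : Inp) (d : List Ec) : Adl := ((edl l).filter fun e => !memb d e) ++ rrD l d

/-- the code of a map of the new graph -/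
def st1 (l : Inp) (d : List Ec) : Inp := pk false (std (tgD l d)) (cg l d (fl (std (tgD l d))) [])

/-- the rank of `v` in `U` -/
def rkU (U : List ℕ) (v : ℕ) : ℕ := (U.filter fun u => decide (u < v)).length

/-- numbering the vertices again -/
def rlx (x : Inp) : Inp := x.map fun y =>
  ((rkU (vl x) y.1.1, (rkU (vl x) y.1.2.1, y.1.2.2)), (rkU (vl x) y.2.1, (rkU (vl x) y.2.2.1, y.2.2.2)))

/-- the element of `U` of rank `i` -/
def ivU (U : List ℕ) (i : ℕ) : ℕ := look (U.map fun u => (rkU U u, u)) i 0

/-- the old numbers of the vertices -/
def ulx (U : List ℕ) (x : Inp) : Inp := x.map fun y =>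
  ((ivU U y.1.1, (ivU U y.1.2.1, y.1.2.2)), (ivU U y.2.1, (ivU U y.2.2.1, y.2.2.2)))

/-- one reduction step -/
def nxs (l : Inp) : Inp := if (bad l).isEmpty then l else (rlx (st1 l ((bad l).headD []))).take l.length

/-- lifting a map of the new graph -/
def lft (o : Bool) (l x : Inp) : Inp :=
  if (bad l).isEmpty then x
  else pk o l (cg (ulx (vl (st1 l ((bad l).headD []))) x) (rrD l ((bad l).headD [])) (fl l) (inn l ((bad l).headD [])))

/-- the reductions, the last one first -/
def hst (l : Inp) : List Inp := l.foldl (fun h _ => nxs (h.headD []) :: h) [l]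

/-- the code of an optimal map, if `F` solves the problem for reduced maps -/
def sol (F : Bool → Inp → Inp) (o : Bool) (l : Inp) : Inp :=
  ((hst l).drop 1).foldl (fun x li => lft o li x)
    (pk o ((hst l).headD []) [F o ((hst l).headD []), (hst l).headD []])

/-- adding an edge: the state consists of the edges so far and the code of a map -/
def est (F : Bool → Inp → Inp) (s : Adl × Inp) (e : ℕ × ℕ) : Adl × Inp :=
  if memb s.1 e || memb s.1 (e.2, e.1) then s
  else (s.1 ++ [e], sol F false (pk false (std (s.1 ++ [e])) (cg s.2 [] (fl (std (s.1 ++ [e]))) [])))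

/-- the embedding algorithm -/
def emb (F : Bool → Inp → Inp) (A : Adl) : Adl × Inp := A.foldl (est F) (tre A, std (tre A))

/-- half of the Euler genus of the map with the code `x` -/
def gnx (x : Inp) : ℕ := (2 + (edl x).length - ((vl x).length + clD x (edl x) x)) / 2

/-- the orientable genus -/
def gen (F : Bool → Inp → Inp) (A : Adl) : ℕ := gnx (sol F true (emb F A).2)

end Pool.Agent.FGT
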