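import Pool.Agent.FGT.RdA
import Pool.Agent.BEO.DLf
import Pool.Agent.BEO.ChiEx

/-!
# FGT-RdB: discs are orientable

Otherwise the orientation double cover of the disc is connected; it has an open flag and Euler characteristic two, but the Euler
characteristic of a connected open surface is at most one (linear algebra over `F2`, as in `SmB`).
-/

set_option autoImplicit false

open Finset
open scoped Classical

namespace Pool.Agent.FGT

open Pool.Agent.Helper35.OG (Flag GMap across side)
open Pool.Agent.BEO (F2 ed rp cyc ev bdF nb)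
open Pool.Agent.BEO (frm)

variable {V : Type} {G : SimpleGraph V} [Fintype V]

private theorem rdb_flags (f : Flag G → F2) :
    ∑ p, f p = ∑ e : G.edgeSet, ((f (rp e) + f (side (rp e))) +
      (f (across (rp e)) + f (side (across (rp e))))) := by
  have h1 : ∑ p, f p = ∑ d : G.Dart, (f (d, true) + f (d, false)) := by
    rw [Fintype.sum_prod_type]
    refine Finset.sum_congr rfl fun d _ => ?_
    rw [Fintype.sum_bool]
  rw [h1, Pool.Agent.BEO.sum_edges]
  refine Finset.sum_congr rfl fun e _ => ?_
  obtain ⟨d, b⟩ := rp e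
  cases b
  · show (f (d, true) + f (d, false)) + (f (d.symm, true) + f (d.symm, false)) =
      (f (d, false) + f (d, true)) + (f (d.symm, true) + f (d.symm, false))
    ring
  · show (f (d, true) + f (d, false)) + (f (d.symm, true) + f (d.symm, false)) =
      (f (d, true) + f (d, false)) + (f (d.symm, false) + f (d.symm, true))
    ring

omit [Fintype V] in
private theorem rdb_edq (p : Flag G) : rp (ed p) = p ∨ rp (ed p) = side p ∨ rp (ed p) = across p ∨
    rp (ed p) = side (across p) := by
  have h1 : (rp (ed p)).1.edge = p.1.edge := congrArg Subtype.val (Pool.Agent.BEO.ed_rp (ed p))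
  have h2 := (SimpleGraph.dart_edge_eq_iff _ _).1 h1
  rcases p with ⟨d, s⟩
  generalize rp (ed (d, s)) = q at h2 ⊢
  rcases q with ⟨d', s'⟩
  simp only at h2
  rcases h2 with rfl | rfl
  · cases s <;> cases s' <;> simp [side, across]
  · cases s <;> cases s' <;> simp [side, across]

omit [Fintype V] in
/-- a function invariant under `side`, `across` and `L` over the connected set `A` is constant over `A` -/
private theorem rdb_const (L : Flag G → Flag G) (A : Finset G.edgeSet) (hc : CnL A L) (g : Flag G → F2)
    (h1 : ∀ p, ed p ∈ A → g (side p) = g p) (h2 : ∀ p, ed p ∈ A → g (across p) = g p)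
    (h3 : ∀ p, ed p ∈ A → g (L p) = g p) (p q : Flag G) (hp : ed p ∈ A) (hq : ed q ∈ A) :
    g p = g q := by
  have h4 : ∀ p : Flag G, ed p ∈ A → g (rp (ed p)) = g p := by
    intro p hp
    have ha : ed (across p) ∈ A := by rw [Pool.Agent.BEO.ed_across]; exact hp
    rcases rdb_edq p with h | h | h | h
    · rw [h]
    · rw [h, h1 p hp]
    · rw [h, h2 p hp]
    · rw [h, h1 _ ha, h2 p hp]
  rw [← h4 p hp, ← h4 q hq]
  have h5 := Pool.Agent.Helper35.OG.eqvGen_eq (fun e : G.edgeSet => if e ∈ A then g (rp e) else 0)
    (fun x y (hxy : x ∈ A ∧ y ∈ A ∧ ∃ p : Flag G, ed p = x ∧ ed (L p) = y) => by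
      obtain ⟨hx, hy, p, rfl, rfl⟩ := hxy
      show (if ed p ∈ A then g (rp (ed p)) else 0) = (if ed (L p) ∈ A then g (rp (ed (L p))) else 0)
      rw [if_pos hx, if_pos hy, h4 p hx, h4 _ hy, h3 p hx]) (hc (ed p) hp (ed q) hq)
  have h6 : (if ed p ∈ A then g (rp (ed p)) else 0) = (if ed q ∈ A then g (rp (ed q)) else 0) := h5
  rwa [if_pos hp, if_pos hq] at h6

omit [Fintype V] in
/-- the same for functions on the connected double cover -/
private theorem rdb_const2 (L : Flag G → Flag G) (A : Finset G.edgeSet) (hc : CnL A L) (p0 : Flag G)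
    (hp0 : ed p0 ∈ A) (hE : Relation.EqvGen (rC A L) (p0, false) (p0, true)) (g : Flag G → Bool → F2)
    (h1 : ∀ p, ed p ∈ A → ∀ t, g (side p) (!t) = g p t)
    (h2 : ∀ p, ed p ∈ A → ∀ t, g (across p) (!t) = g p t)
    (h3 : ∀ p, ed p ∈ A → L p ≠ p → ∀ t, g (L p) (!t) = g p t)
    (p q : Flag G) (t u : Bool) (hp : ed p ∈ A) (hq : ed q ∈ A) : g p t = g q u := by
  have e0 : g p0 false = g p0 true := by
    refine Pool.Agent.Helper35.OG.eqvGen_eq (fun x : Flag G × Bool => g x.1 x.2) ?_ hE
    rintro ⟨x, b⟩ y ⟨hx, ⟨hL, rfl⟩ | rfl | rfl⟩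
    · exact (h3 x hx hL b).symm
    · exact (h1 x hx b).symm
    · exact (h2 x hx b).symm
  have hD : ∀ p, ed p ∈ A → g p false + g p true = 0 := by
    intro p hp
    have h := rdb_const L A hc (fun p => g p false + g p true) (fun p hp => by
      show g (side p) false + g (side p) true = g p false + g p true
      rw [← h1 p hp false, ← h1 p hp true]
      exact add_comm _ _) (fun p hp => by
      show g (across p) false + g (across p) true = g p false + g p true
      rw [← h2 p hp false, ← h2 p hp true]
      exact add_comm _ _) (fun p hp => by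
      show g (L p) false + g (L p) true = g p false + g p true
      by_cases hL : L p = p
      · rw [hL]
      · rw [← h3 p hp hL false, ← h3 p hp hL true]
        exact add_comm _ _) p p0 hp hp0
    have h' : g p false + g p true = g p0 false + g p0 true := h
    rw [h', e0]
    exact CharTwo.add_self_eq_zero _
  have hE2 : ∀ p, ed p ∈ A → ∀ t, g p (!t) = g p t := by
    intro p hp t
    have h := CharTwo.add_eq_zero.1 (hD p hp)
    cases t
    · exact h.symm
    · exact h
  have hmem : ∀ p, ed p ∈ A → ed (side p) ∈ A := fun p hp => hp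
  have h := rdb_const L A hc (fun p => g p true) (fun p hp => by
      show g (side p) true = g p true
      rw [← hE2 (side p) (hmem p hp) true]
      exact h1 p hp true) (fun p hp => by
      show g (across p) true = g p true
      have ha : ed (across p) ∈ A := by rw [Pool.Agent.BEO.ed_across]; exact hp
      rw [← hE2 (across p) ha true]
      exact h2 p hp true) (fun p hp => by
      show g (L p) true = g p true
      by_cases hL : L p = p
      · rw [hL]
      · have h5 := h3 p hp hL false
        rw [Bool.not_false] at h5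
        rw [h5]
        exact (hE2 p hp false).symm) p q hp hq
  have h' : g p true = g q true := h
  have ht : ∀ p, ed p ∈ A → ∀ t, g p t = g p true := by
    intro p hp t
    cases t
    · exact (hE2 p hp false).symm
    · rfl
  rw [ht p hp t, ht q hq u, h']

private theorem rdb_bool : ∀ a b : ZMod 2, a ≠ b → (decide (a = 1)) = !(decide (b = 1)) := by decide

private theorem rdb_col {X : Type} [Finite X] (σ τ : X → X) (hσ : ∀ x, σ (σ x) = x) (hσ' : ∀ x, σ x ≠ x)
    (hτ : ∀ x, τ (τ x) = x) : ∃ κ : X → Bool, (∀ x, κ (σ x) = !(κ x)) ∧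
      ∀ x, τ x ≠ x → κ (τ x) = !(κ x) := by
  obtain ⟨χ, hχ⟩ := Pool.Agent.BEO.exists_chi (X := X × Bool) (fun x => (σ x.1, x.2))
    (fun x => if τ x.1 = x.1 then (x.1, !x.2) else (τ x.1, x.2))
    (fun x => by show (σ (σ x.1), x.2) = x; rw [hσ])
    (fun x h => hσ' x.1 (congrArg Prod.fst h))
    (fun x => by
      by_cases h : τ x.1 = x.1
      · simp only [if_pos h]
        rw [Bool.not_not]
      · simp only [if_neg h]
        have h2 : ¬ τ (τ x.1) = τ x.1 := by
          rw [hτ]
          exact fun h3 => h h3.symm
        rw [if_neg h2, hτ])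
    (fun x h => by
      by_cases h1 : τ x.1 = x.1
      · simp only [if_pos h1] at h
        have h2 := congrArg Prod.snd h
        simp at h2
      · simp only [if_neg h1] at h
        exact h1 (congrArg Prod.fst h))
  refine ⟨fun x => decide (χ (x, false) = 1), fun x => ?_, fun x hx => ?_⟩
  · exact rdb_bool _ _ (hχ (x, false)).1
  · have h := (hχ (x, false)).2
    simp only [if_neg hx] at h
    exact rdb_bool _ _ h

theorem dsc_ori (A : Finset G.edgeSet) (L : Flag G → Flag G) (h : Dsc A L) (p : Flag G) :
    ¬ Relation.EqvGen (rC A L) (p, false) (p, true) := by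
  intro hE
  have hmemL := h.om.mem
  -- the flag `p` lies over `A`
  have hpA : ed p ∈ A := by
    by_contra hp
    have h1 := Pool.Agent.Helper35.OG.eqvGen_eq
      (fun x : Flag G × Bool => if ed x.1 ∈ A then true else x.2) (by
        rintro ⟨x, b⟩ y ⟨hx, ⟨-, rfl⟩ | rfl | rfl⟩
        · show (if ed x ∈ A then true else b) = if ed (L x) ∈ A then true else !b
          rw [if_pos hx, if_pos (hmemL x hx)]
        · show (if ed x ∈ A then true else b) = if ed (side x) ∈ A then true else !b
          rw [if_pos hx, Pool.Agent.BEO.ed_side, if_pos hx]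
        · show (if ed x ∈ A then true else b) = if ed (across x) ∈ A then true else !b
          rw [if_pos hx, Pool.Agent.BEO.ed_across, if_pos hx]) hE
    have h2 : (if ed p ∈ A then true else false) = (if ed p ∈ A then true else true) := h1
    rw [if_neg hp, if_neg hp] at h2
    exact absurd h2 (by decide)
  -- the two kinds of classes
  let R : Type := {c : Quot (rV A L) // ∃ p, Quot.mk _ p = c ∧ ed p ∈ A}
  let Fc : Type := {c : Quot (rF A L) // (∃ p, Quot.mk _ p = c ∧ ed p ∈ A) ∧ ∀ q, Um A L q → Quot.mk _ q ≠ c}
  have : Finite (Quot (rV A L)) := Quot.finite _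
  have : Finite (Quot (rF A L)) := Quot.finite _
  have : Finite R := Subtype.finite
  have : Finite Fc := Subtype.finite
  let _ : Fintype R := Fintype.ofFinite _
  let _ : Fintype Fc := Fintype.ofFinite _
  obtain ⟨κF, hF1, hF2⟩ := rdb_col (X := Flag G) across L Pool.Agent.Helper35.OG.across_across
    Pool.Agent.Helper35.OG.across_ne h.om.inv
  obtain ⟨κR, hR1, hR2⟩ := rdb_col (X := Flag G) side L Pool.Agent.Helper35.OG.side_side
    Pool.Agent.Helper35.OG.side_ne h.om.inv
  let xF : Fc × Bool → Flag G → Bool → F2 := fun f p t => if Quot.mk _ p = f.1.1 ∧ (κF p).xor t = f.2 then 1 else 0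
  let xR : R × Bool → Flag G → Bool → F2 := fun r p t => if Quot.mk _ p = r.1.1 ∧ (κR p).xor t = r.2 then 1 else 0
  have hxor : ∀ a b : Bool, (!a).xor (!b) = a.xor b := by decide
  have xF_across : ∀ f p, ed p ∈ A → ∀ t, xF f (across p) (!t) = xF f p t := by
    intro f p hp t
    have h : (Quot.mk (rF A L) p) = Quot.mk _ (across p) := Quot.sound ⟨hp, Or.inr rfl⟩
    show (if Quot.mk _ (across p) = f.1.1 ∧ (κF (across p)).xor (!t) = f.2 then (1 : F2) else 0) =
      if Quot.mk _ p = f.1.1 ∧ (κF p).xor t = f.2 then 1 else 0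
    rw [h, hF1, hxor]
  have xF_nxt : ∀ f p, ed p ∈ A → L p ≠ p → ∀ t, xF f (L p) (!t) = xF f p t := by
    intro f p hp hq t
    have h : (Quot.mk (rF A L) p) = Quot.mk _ (L p) := Quot.sound ⟨hp, Or.inl rfl⟩
    show (if Quot.mk _ (L p) = f.1.1 ∧ (κF (L p)).xor (!t) = f.2 then (1 : F2) else 0) =
      if Quot.mk _ p = f.1.1 ∧ (κF p).xor t = f.2 then 1 else 0
    rw [h, hF2 p hq, hxor]
  have xF_open : ∀ f p, ed p ∈ A → L p = p → ∀ t, xF f p t = 0 := by
    intro f p hp hq t
    exact if_neg (fun h6 => f.1.2.2 p ⟨hp, hq⟩ h6.1)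
  have xR_side : ∀ f p, ed p ∈ A → ∀ t, xR f (side p) (!t) = xR f p t := by
    intro f p hp t
    have h : (Quot.mk (rV A L) p) = Quot.mk _ (side p) := Quot.sound ⟨hp, Or.inr rfl⟩
    show (if Quot.mk _ (side p) = f.1.1 ∧ (κR (side p)).xor (!t) = f.2 then (1 : F2) else 0) =
      if Quot.mk _ p = f.1.1 ∧ (κR p).xor t = f.2 then 1 else 0
    rw [h, hR1, hxor]
  have xR_nxt : ∀ f p, ed p ∈ A → L p ≠ p → ∀ t, xR f (L p) (!t) = xR f p t := by
    intro f p hp hq t
    have h : (Quot.mk (rV A L) p) = Quot.mk _ (L p) := Quot.sound ⟨hp, Or.inl rfl⟩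
    show (if Quot.mk _ (L p) = f.1.1 ∧ (κR (L p)).xor (!t) = f.2 then (1 : F2) else 0) =
      if Quot.mk _ p = f.1.1 ∧ (κR p).xor t = f.2 then 1 else 0
    rw [h, hR2 p hq, hxor]
  -- an open flag
  obtain ⟨q0, hq0, hq0'⟩ := h.um
  -- the matrices
  let M : Matrix (Fc × Bool) (A × Bool) F2 := fun f e => xF f (rp e.1.1) e.2 + xF f (side (rp e.1.1)) (!e.2)
  let B : Matrix (A × Bool) (R × Bool) F2 := fun e r => xR r (rp e.1.1) e.2 + xR r (across (rp e.1.1)) (!e.2)
  have hMB : M * B = 0 := by
    ext f r
    rw [Matrix.mul_apply, Matrix.zero_apply, Fintype.sum_prod_type]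
    have h1 : ∑ x : Flag G × Bool, (if ed x.1 ∈ A then xF f x.1 x.2 * xR r x.1 x.2 else 0) = 0 := by
      refine Finset.sum_involution (fun x _ => (L x.1, !x.2)) ?_ ?_ ?_ ?_
      · rintro ⟨x, t⟩ -
        show (if ed x ∈ A then xF f x t * xR r x t else 0) +
          (if ed (L x) ∈ A then xF f (L x) (!t) * xR r (L x) (!t) else 0) = 0
        by_cases ha : ed x ∈ A
        · rw [if_pos ha, if_pos (hmemL x ha)]
          by_cases hL : L x = x
          · rw [xF_open f x ha hL, hL, xF_open f x ha hL, zero_mul, zero_mul, add_zero]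
          · rw [xF_nxt f x ha hL, xR_nxt r x ha hL]
            exact CharTwo.add_self_eq_zero _
        · rw [if_neg ha, h.om.out x ha, if_neg ha, add_zero]
      · rintro ⟨x, t⟩ - - h5
        have h6 := congrArg Prod.snd h5
        simp at h6
      · intro x _
        exact mem_univ _
      · rintro ⟨x, t⟩ -
        show (L (L x), !(!t)) = (x, t)
        rw [h.om.inv, Bool.not_not]
    rw [Fintype.sum_prod_type] at h1
    have h2 := rdb_flags (fun x : Flag G => ∑ t : Bool, (if ed x ∈ A then xF f x t * xR r x t else 0))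
    rw [h1] at h2
    rw [h2]
    refine (Finset.sum_coe_sort A (fun e : G.edgeSet => ∑ t : Bool,
      ((xF f (rp e) t + xF f (side (rp e)) (!t)) * (xR r (rp e) t + xR r (across (rp e)) (!t))))).trans ?_
    refine Eq.trans ?_ (Finset.sum_subset (Finset.subset_univ A) ?_)
    · refine Finset.sum_congr rfl fun e he => ?_
      have he1 : ed (rp e) ∈ A := by rw [Pool.Agent.BEO.ed_rp]; exact he
      have he2 : ed (side (rp e)) ∈ A := he1
      have he3 : ed (across (rp e)) ∈ A := by rw [Pool.Agent.BEO.ed_across]; exact he1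
      have he4 : ed (side (across (rp e))) ∈ A := he3
      simp only [if_pos he1, if_pos he2, if_pos he3, if_pos he4, Fintype.sum_bool]
      have a1 := xR_side r _ he1 true
      have a2 := xR_side r _ he1 false
      have a3 := xF_across f _ he1 true
      have a4 := xF_across f _ he1 false
      have a5 := xR_side r _ he3 true
      have a6 := xR_side r _ he3 false
      have a7 : xF f (side (across (rp e))) (!true) = xF f (side (rp e)) true := xF_across f (side (rp e)) he2 true
      have a8 : xF f (side (across (rp e))) (!false) = xF f (side (rp e)) false := xF_across f (side (rp e)) he2 false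
      rw [Bool.not_true] at a1 a3 a5 a7
      rw [Bool.not_false] at a2 a4 a6 a8
      rw [Bool.not_true, Bool.not_false, a1, a2, a3, a4, a5, a6, a7, a8]
      ring
    · intro e _ he
      have he1 : ed (rp e) ∉ A := by rw [Pool.Agent.BEO.ed_rp]; exact he
      have he2 : ed (side (rp e)) ∉ A := he1
      have he3 : ed (across (rp e)) ∉ A := by rw [Pool.Agent.BEO.ed_across]; exact he1
      have he4 : ed (side (across (rp e))) ∉ A := he3
      simp only [if_neg he1, if_neg he2, if_neg he3, if_neg he4]
      simp
  -- the rows of `M` are independent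
  have hMr : Module.finrank F2 (LinearMap.range M.mulVecLin) = Fintype.card (Fc × Bool) := by
    have h1 : M.rank = M.transpose.rank := (Matrix.rank_transpose M).symm
    have h2 : M.transpose.rank = Fintype.card (Fc × Bool) := by
      unfold Matrix.rank
      rw [LinearMap.finrank_range_of_inj, Module.finrank_fintype_fun_eq_card]
      rw [← LinearMap.ker_eq_bot, LinearMap.ker_eq_bot']
      intro c hc0
      let g : Flag G → Bool → F2 := fun p t => ∑ f, xF f p t * c f
      have hg0 : ∀ e ∈ A, ∀ t, g (rp e) t = g (side (rp e)) (!t) := by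
        intro e he t
        have h3 := congrFun hc0 (⟨e, he⟩, t)
        rw [Matrix.mulVecLin_apply, Matrix.mulVec, dotProduct] at h3
        have h4 : ∑ f, (xF f (rp e) t + xF f (side (rp e)) (!t)) * c f = 0 := h3
        simp only [add_mul, Finset.sum_add_distrib] at h4
        exact CharTwo.add_eq_zero.1 h4
      have hga : ∀ p, ed p ∈ A → ∀ t, g (across p) (!t) = g p t := by
        intro p hp t
        exact Finset.sum_congr rfl fun f _ => by rw [xF_across f p hp t]
      have hgs : ∀ p, ed p ∈ A → ∀ t, g (side p) (!t) = g p t := by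
        intro p hp t
        have hp2 : ed (side p) ∈ A := by rw [Pool.Agent.BEO.ed_side]; exact hp
        have h6 : ∀ t, g (side (across p)) (!t) = g (side p) t := hga (side p) hp2
        rcases rdb_edq p with h | h | h | h
        · have h5 := hg0 _ hp t
          rw [h] at h5
          exact h5.symm
        · have h5 := hg0 _ hp (!t)
          rw [h, Pool.Agent.Helper35.OG.side_side, Bool.not_not] at h5
          exact h5
        · have h5 := hg0 _ hp (!t)
          rw [h, hga p hp t, Bool.not_not] at h5
          have h7 := h6 (!t)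
          rw [Bool.not_not] at h7
          rw [h5, h7]
        · have h5 := hg0 _ hp t
          rw [h, Pool.Agent.Helper35.OG.side_side, hga p hp t] at h5
          have h7 := h6 (!t)
          rw [Bool.not_not] at h7
          rw [← h5, h7]
      have hgn : ∀ p, ed p ∈ A → L p ≠ p → ∀ t, g (L p) (!t) = g p t := by
        intro p hp hq t
        exact Finset.sum_congr rfl fun f _ => by rw [xF_nxt f p hp hq t]
      have hgq : g q0 true = 0 := Finset.sum_eq_zero fun f _ => by rw [xF_open f q0 hq0 hq0' true, zero_mul]
      funext f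
      obtain ⟨⟨p1, hpf, hp1⟩, -⟩ := f.1.2
      have h7 : g p1 ((κF p1).xor f.2) = 0 :=
        (rdb_const2 L A h.cn p hpA hE g hgs hga hgn p1 q0 _ true hp1 hq0).trans hgq
      have h8 : g p1 ((κF p1).xor f.2) = c f := by
        show ∑ f', xF f' p1 ((κF p1).xor f.2) * c f' = c f
        have hx : (κF p1).xor ((κF p1).xor f.2) = f.2 := by
          cases κF p1 <;> cases f.2 <;> rfl
        rw [Finset.sum_eq_single f]
        · show (if Quot.mk _ p1 = f.1.1 ∧ (κF p1).xor ((κF p1).xor f.2) = f.2 then (1 : F2) else 0) * c f = c f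
          rw [if_pos ⟨hpf, hx⟩, one_mul]
        · intro f' _ hf'
          show (if Quot.mk _ p1 = f'.1.1 ∧ (κF p1).xor ((κF p1).xor f.2) = f'.2 then (1 : F2) else 0) * c f' = 0
          rw [if_neg, zero_mul]
          rintro ⟨h9, h10⟩
          exact hf' (Prod.ext (Subtype.ext (h9.symm.trans hpf)) (h10.symm.trans hx))
        · intro h
          exact absurd (Finset.mem_univ f) h
      rw [← h8, h7]
      rfl
    exact h1.trans h2
  -- the kernel of `B`
  have hBk : Module.finrank F2 (LinearMap.ker B.mulVecLin) ≤ 1 := by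
    obtain ⟨r0⟩ : Nonempty (R × Bool) := ⟨(⟨Quot.mk _ q0, q0, rfl, hq0⟩, true)⟩
    let φ : LinearMap.ker B.mulVecLin →ₗ[F2] F2 := (LinearMap.proj r0).comp (LinearMap.ker B.mulVecLin).subtype
    have hφ : Function.Injective φ := by
      rw [← LinearMap.ker_eq_bot, LinearMap.ker_eq_bot']
      rintro ⟨c, hh⟩ h0
      have h0' : c r0 = 0 := h0
      rw [LinearMap.mem_ker] at hh
      let g : Flag G → Bool → F2 := fun p t => ∑ r, xR r p t * c r
      have hg0 : ∀ e ∈ A, ∀ t, g (rp e) t = g (across (rp e)) (!t) := by
        intro e he t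
        have h3 := congrFun hh (⟨e, he⟩, t)
        rw [Matrix.mulVecLin_apply, Matrix.mulVec, dotProduct] at h3
        have h4 : ∑ r, (xR r (rp e) t + xR r (across (rp e)) (!t)) * c r = 0 := h3
        simp only [add_mul, Finset.sum_add_distrib] at h4
        exact CharTwo.add_eq_zero.1 h4
      have hgs : ∀ p, ed p ∈ A → ∀ t, g (side p) (!t) = g p t := by
        intro p hp t
        exact Finset.sum_congr rfl fun f _ => by rw [xR_side f p hp t]
      have hga : ∀ p, ed p ∈ A → ∀ t, g (across p) (!t) = g p t := by
        intro p hp t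
        have hp2 : ed (across p) ∈ A := by rw [Pool.Agent.BEO.ed_across]; exact hp
        have h6 : ∀ t, g (side (across p)) (!t) = g (across p) t := hgs (across p) hp2
        have h11 : across (side p) = side (across p) := rfl
        rcases rdb_edq p with h | h | h | h
        · have h5 := hg0 _ hp t
          rw [h] at h5
          exact h5.symm
        · have h5 := hg0 _ hp (!t)
          rw [h, h11, hgs p hp t, Bool.not_not] at h5
          have h7 := h6 (!t)
          rw [Bool.not_not] at h7
          rw [← h7, ← h5]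
        · have h5 := hg0 _ hp (!t)
          rw [h, Pool.Agent.Helper35.OG.across_across, Bool.not_not] at h5
          exact h5
        · have h12 : across (side (across p)) = side (across (across p)) := rfl
          have h5 := hg0 _ hp t
          rw [h, h12, Pool.Agent.Helper35.OG.across_across, hgs p hp t] at h5
          have h7 := h6 (!t)
          rw [Bool.not_not] at h7
          rw [← h7, h5]
      have hgn : ∀ p, ed p ∈ A → L p ≠ p → ∀ t, g (L p) (!t) = g p t := by
        intro p hp hq t
        exact Finset.sum_congr rfl fun f _ => by rw [xR_nxt f p hp hq t]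
      have h8 : ∀ r : R × Bool, ∀ p, Quot.mk _ p = r.1.1 → g p ((κR p).xor r.2) = c r := by
        intro r p hpr
        show ∑ r', xR r' p ((κR p).xor r.2) * c r' = c r
        have hx : (κR p).xor ((κR p).xor r.2) = r.2 := by
          cases κR p <;> cases r.2 <;> rfl
        rw [Finset.sum_eq_single r]
        · show (if Quot.mk _ p = r.1.1 ∧ (κR p).xor ((κR p).xor r.2) = r.2 then (1 : F2) else 0) * c r = c r
          rw [if_pos ⟨hpr, hx⟩, one_mul]
        · intro f' _ hf'
          show (if Quot.mk _ p = f'.1.1 ∧ (κR p).xor ((κR p).xor r.2) = f'.2 then (1 : F2) else 0) * c f' = 0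
          rw [if_neg, zero_mul]
          rintro ⟨h9, h10⟩
          exact hf' (Prod.ext (Subtype.ext (h9.symm.trans hpr)) (h10.symm.trans hx))
        · intro h
          exact absurd (Finset.mem_univ r) h
      apply Subtype.ext
      funext r
      show c r = 0
      obtain ⟨p1, hpr, hp1⟩ := r.1.2
      obtain ⟨p', hpr', hp'⟩ := r0.1.2
      rw [← h8 r p1 hpr, rdb_const2 L A h.cn p hpA hE g hgs hga hgn p1 p' _ ((κR p').xor r0.2) hp1 hp',
        h8 r0 p' hpr', h0']
    refine (LinearMap.finrank_le_finrank_of_injective hφ).trans ?_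
    rw [Module.finrank_self]
  -- counting
  have h1 := LinearMap.finrank_range_add_finrank_ker B.mulVecLin
  have h2 := LinearMap.finrank_range_add_finrank_ker M.mulVecLin
  rw [Module.finrank_fintype_fun_eq_card] at h1 h2
  have h3 : LinearMap.range B.mulVecLin ≤ LinearMap.ker M.mulVecLin := by
    rw [LinearMap.range_le_ker_iff, ← Matrix.mulVecLin_mul, hMB]
    ext
    simp
  have h4 := Submodule.finrank_mono h3
  have h5 : Fintype.card A = A.card := Fintype.card_coe A
  have h6 : vsL A L = Fintype.card R := by
    show Nat.card R = _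
    rw [Nat.card_eq_fintype_card]
  have h7 : clo A L = Fintype.card Fc := by
    show Nat.card Fc = _
    rw [Nat.card_eq_fintype_card]
  have h8 := h.chi
  unfold chiL at h8
  rw [h6, h7] at h8
  rw [Fintype.card_prod, Fintype.card_bool] at h1 h2 hMr
  omega

end Pool.Agent.FGT
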