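import Pool.Agent.FGT.RdB
import Pool.Agent.FGT.SmA

/-!
# FGT-RdC: how a disc looks from outside
-/

set_option autoImplicit false

open Finset
open scoped Classical

namespace Pool.Agent.FGT

open Pool.Agent.Helper35.OG (Flag GMap across side)
open Pool.Agent.BEO (F2 ed rp cyc ev bdF nb)
open Pool.Agent.BEO (frm)

variable {V : Type} {G : SimpleGraph V} [Fintype V]

private theorem rdc_in (A : Finset G.edgeSet) (L s : Flag G → Flag G) (hm : ∀ p, ed p ∈ A → ed (L p) ∈ A)
    (hs : ∀ p, ed (s p) = ed p) {x y : Flag G}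
    (h : Relation.EqvGen (fun x y => ed x ∈ A ∧ (y = L x ∨ y = s x)) x y) :
    ((ed x ∈ A ↔ ed y ∈ A) ∧ ∀ (hx : ed x ∈ A) (hy : ed y ∈ A),
      Relation.EqvGen (fun x y : {p : Flag G // ed p ∈ A} => y = ⟨L x.1, hm x.1 x.2⟩ ∨
        y = ⟨s x.1, by rw [hs]; exact x.2⟩) ⟨x, hx⟩ ⟨y, hy⟩) := by
  induction h with
  | rel x y h =>
    obtain ⟨hx, rfl | rfl⟩ := h
    · exact ⟨⟨fun _ => hm x hx, fun _ => hx⟩, fun _ _ => Relation.EqvGen.rel _ _ (Or.inl rfl)⟩
    · exact ⟨⟨fun _ => by rw [hs]; exact hx, fun _ => hx⟩, fun _ _ => Relation.EqvGen.rel _ _ (Or.inr rfl)⟩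
  | refl x => exact ⟨Iff.rfl, fun _ _ => Relation.EqvGen.refl _⟩
  | symm x y _ ih => exact ⟨ih.1.symm, fun hx hy => Relation.EqvGen.symm _ _ (ih.2 hy hx)⟩
  | trans x y z _ _ ih1 ih2 =>
    exact ⟨ih1.1.trans ih2.1, fun hx hz => Relation.EqvGen.trans _ _ _ (ih1.2 hx (ih1.1.1 hx)) (ih2.2 (ih1.1.1 hx) hz)⟩

private theorem rdc_out (A : Finset G.edgeSet) (L s : Flag G → Flag G) (hm : ∀ p, ed p ∈ A → ed (L p) ∈ A)
    (hs : ∀ p, ed (s p) = ed p) {x y : {p : Flag G // ed p ∈ A}}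
    (h : Relation.EqvGen (fun x y : {p : Flag G // ed p ∈ A} => y = ⟨L x.1, hm x.1 x.2⟩ ∨
        y = ⟨s x.1, by rw [hs]; exact x.2⟩) x y) :
    Relation.EqvGen (fun x y => ed x ∈ A ∧ (y = L x ∨ y = s x)) x.1 y.1 := by
  induction h with
  | rel x y h =>
    refine Relation.EqvGen.rel _ _ ⟨x.2, ?_⟩
    rcases h with rfl | rfl
    · exact Or.inl rfl
    · exact Or.inr rfl
  | refl x => exact Relation.EqvGen.refl _
  | symm x y _ ih => exact Relation.EqvGen.symm _ _ ih
  | trans x y z _ _ ih1 ih2 => exact Relation.EqvGen.trans _ _ _ ih1 ih2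

private theorem rdc_ends (A : Finset G.edgeSet) (L s : Flag G → Flag G) (hL : OMap A L) (hs : ∀ p, ed (s p) = ed p)
    (hss : ∀ p, s (s p) = p) (hsn : ∀ p, s p ≠ p) (p : Flag G) (hp : Um A L p) :
    ∃ q, q ≠ p ∧ Um A L q ∧ Relation.EqvGen (fun x y => ed x ∈ A ∧ (y = L x ∨ y = s x)) p q ∧
      ∀ r, Um A L r → Relation.EqvGen (fun x y => ed x ∈ A ∧ (y = L x ∨ y = s x)) p r → r = p ∨ r = q := by
  obtain ⟨q, h1, h2, h3, h4⟩ := two_ends (X := {p : Flag G // ed p ∈ A}) (fun x => ⟨s x.1, by rw [hs]; exact x.2⟩)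
    (fun x => ⟨L x.1, hL.mem x.1 x.2⟩) (fun x => Subtype.ext (hss x.1)) (fun x h => hsn x.1 (congrArg Subtype.val h))
    (fun x => Subtype.ext (hL.inv x.1)) ⟨p, hp.1⟩ (Subtype.ext hp.2)
  refine ⟨q.1, fun h => h1 (Subtype.ext h), ⟨q.2, congrArg Subtype.val h2⟩, rdc_out A L s hL.mem hs h3, ?_⟩
  intro r hr h
  have h5 := (rdc_in A L s hL.mem hs h).2 hp.1 hr.1
  rcases h4 ⟨r, hr.1⟩ (Subtype.ext hr.2) h5 with h6 | h6
  · exact Or.inl (congrArg Subtype.val h6)
  · exact Or.inr (congrArg Subtype.val h6)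

private theorem rdc_fst (A : Finset G.edgeSet) (L : Flag G → Flag G) (hL : OMap A L) {p q : Flag G}
    (h : Relation.EqvGen (rV A L) p q) : q.1.fst = p.1.fst := by
  induction h with
  | rel x y h =>
    obtain ⟨-, rfl | rfl⟩ := h
    · exact hL.fst x
    · rfl
  | refl x => rfl
  | symm x y _ ih => exact ih.symm
  | trans x y z _ _ ih1 ih2 => exact ih2.trans ih1

private theorem rdc_four (p q : Flag G) (h : ed p = ed q) :
    q = p ∨ q = side p ∨ q = across p ∨ q = side (across p) := by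
  obtain ⟨d, s⟩ := p
  obtain ⟨d', s'⟩ := q
  have h1 : d.edge = d'.edge := congrArg Subtype.val h
  rcases SimpleGraph.dart_edge_eq_iff d d' |>.1 h1 with rfl | rfl
  · cases s <;> cases s' <;> simp [side, across]
  · cases s <;> cases s' <;> simp [side, across, SimpleGraph.Dart.symm_symm]

private theorem rdc_flip (A : Finset G.edgeSet) (L : Flag G → Flag G) {x y : Flag G × Bool}
    (h : Relation.EqvGen (rC A L) x y) : Relation.EqvGen (rC A L) (x.1, !x.2) (y.1, !y.2) := by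
  induction h with
  | rel x y h =>
    refine Relation.EqvGen.rel _ _ ⟨h.1, ?_⟩
    rcases h.2 with ⟨h1, rfl⟩ | rfl | rfl
    · exact Or.inl ⟨h1, rfl⟩
    · exact Or.inr (Or.inl rfl)
    · exact Or.inr (Or.inr rfl)
  | refl x => exact Relation.EqvGen.refl _
  | symm x y _ ih => exact Relation.EqvGen.symm _ _ ih
  | trans x y z _ _ ih1 ih2 => exact Relation.EqvGen.trans _ _ _ ih1 ih2

private theorem rdc_s (A : Finset G.edgeSet) (L s : Flag G → Flag G) (hs : s = side ∨ s = across) {x : Flag G}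
    (hx : ed x ∈ A) (b : Bool) : Relation.EqvGen (rC A L) (x, b) (s x, !b) := by
  refine Relation.EqvGen.rel _ _ ⟨hx, ?_⟩
  rcases hs with rfl | rfl
  · exact Or.inr (Or.inl rfl)
  · exact Or.inr (Or.inr rfl)

private theorem rdc_L (A : Finset G.edgeSet) (L : Flag G → Flag G) {x : Flag G} (hx : ed x ∈ A) (h : L x ≠ x) (b : Bool) :
    Relation.EqvGen (rC A L) (x, b) (L x, !b) :=
  Relation.EqvGen.rel _ _ ⟨hx, Or.inl ⟨h, rfl⟩⟩

private theorem rdc_same (A : Finset G.edgeSet) (L : Flag G → Flag G) {p x y : Flag G} (hx : ed x ∈ A)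
    (h : ed x = ed y) (hp : ∃ b : Bool, Relation.EqvGen (rC A L) (p, false) (x, b)) :
    ∃ b : Bool, Relation.EqvGen (rC A L) (p, false) (y, b) := by
  obtain ⟨b, hb⟩ := hp
  rcases rdc_four x y h with rfl | rfl | rfl | rfl
  · exact ⟨b, hb⟩
  · exact ⟨_, Relation.EqvGen.trans _ _ _ hb (rdc_s A L side (Or.inl rfl) hx b)⟩
  · exact ⟨_, Relation.EqvGen.trans _ _ _ hb (rdc_s A L across (Or.inr rfl) hx b)⟩
  · have h1 : ed (across x) ∈ A := by
      rw [Pool.Agent.BEO.ed_across]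
      exact hx
    exact ⟨_, Relation.EqvGen.trans _ _ _ (Relation.EqvGen.trans _ _ _ hb (rdc_s A L across (Or.inr rfl) hx b))
      (rdc_s A L side (Or.inl rfl) h1 _)⟩

private theorem rdc_edge (A : Finset G.edgeSet) (L : Flag G → Flag G) (hL : OMap A L) (p : Flag G) {x y : G.edgeSet}
    (h : Relation.EqvGen (fun x y => x ∈ A ∧ y ∈ A ∧ ∃ p : Flag G, ed p = x ∧ ed (L p) = y) x y) :
    (∃ q, ed q ∈ A ∧ ed q = x ∧ ∃ b : Bool, Relation.EqvGen (rC A L) (p, false) (q, b)) ↔
      ∃ q, ed q ∈ A ∧ ed q = y ∧ ∃ b : Bool, Relation.EqvGen (rC A L) (p, false) (q, b) := by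
  induction h with
  | rel x y h =>
    obtain ⟨hx, hy, r, rfl, rfl⟩ := h
    constructor
    · rintro ⟨q, hq, hqe, hb⟩
      obtain ⟨b, hb'⟩ := rdc_same A L hq hqe hb
      refine ⟨L r, hy, rfl, ?_⟩
      by_cases hr : L r = r
      · exact ⟨b, by rw [hr]; exact hb'⟩
      · exact ⟨_, Relation.EqvGen.trans _ _ _ hb' (rdc_L A L hx hr b)⟩
    · rintro ⟨q, hq, hqe, hb⟩
      obtain ⟨b, hb'⟩ := rdc_same A L hq hqe hb
      refine ⟨r, hx, rfl, ?_⟩
      by_cases hr : L r = r
      · rw [hr] at hb'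
        exact ⟨b, hb'⟩
      · have h1 := rdc_L A L hx hr (!b)
        rw [Bool.not_not] at h1
        exact ⟨_, Relation.EqvGen.trans _ _ _ hb' (Relation.EqvGen.symm _ _ h1)⟩
  | refl x => exact Iff.rfl
  | symm x y _ ih => exact ih.symm
  | trans x y z _ _ ih1 ih2 => exact ih1.trans ih2

/-- there are exactly two open flags at an attachment -/
theorem dsc_at (A : Finset G.edgeSet) (L : Flag G → Flag G) (h : Dsc A L) (p : Flag G) (hp : Um A L p) :
    ∃ q, q ≠ p ∧ Um A L q ∧ q.1.fst = p.1.fst ∧ Relation.EqvGen (rV A L) p q ∧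
      ∀ r, Um A L r → r.1.fst = p.1.fst → r = p ∨ r = q := by
  obtain ⟨q, h1, h2, h3, h4⟩ := rdc_ends A L side h.om (fun _ => rfl) Pool.Agent.Helper35.OG.side_side
    Pool.Agent.Helper35.OG.side_ne p hp
  exact ⟨q, h1, h2, rdc_fst A L h.om h3, h3, fun r hr hrp => h4 r hr (h.run p r hp hr hrp.symm)⟩

/-- an open flag is joined along its face to exactly one other open flag, at the other attachment if there is one -/
theorem dsc_face (A : Finset G.edgeSet) (L : Flag G → Flag G) (h : Dsc A L) (p : Flag G) (hp : Um A L p) :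
    ∃ q, q ≠ p ∧ Um A L q ∧ Relation.EqvGen (rF A L) p q ∧ (∀ r, Um A L r → Relation.EqvGen (rF A L) p r → r = p ∨ r = q) ∧
      ((∃ r, Um A L r ∧ r.1.fst ≠ p.1.fst) → q.1.fst ≠ p.1.fst) := by
  obtain ⟨q, h1, h2, h3, h4⟩ := rdc_ends A L across h.om Pool.Agent.BEO.ed_across
    Pool.Agent.Helper35.OG.across_across Pool.Agent.Helper35.OG.across_ne p hp
  refine ⟨q, h1, h2, h3, h4, ?_⟩
  rintro ⟨r, hr, hrp⟩ hq
  obtain ⟨q', g1, g2, g3, g4, g5⟩ := dsc_at A L h p hp
  have hqq : q' = q := by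
    rcases g5 q h2 hq with g6 | g6
    · exact absurd g6 h1
    · exact g6.symm
  have hU : ∀ x, Um A L x → x.1.fst = p.1.fst → x = p ∨ x = q := by
    intro x hx hxp
    rw [← hqq]
    exact g5 x hx hxp
  have hcl : ∀ x y, Um A L x → Um A L y → Relation.EqvGen (rF A L) x y → x.1.fst = p.1.fst → y.1.fst = p.1.fst := by
    intro x y hx hy hxy hxp
    have h5 : Relation.EqvGen (rF A L) p y := by
      rcases hU x hx hxp with rfl | rfl
      · exact hxy
      · exact Relation.EqvGen.trans _ _ _ h3 hxy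
    rcases h4 y hy h5 with rfl | rfl
    · rfl
    · exact hq
  have h6 := chiL_le0 A L h.om h.cn (fun x => x.1.fst = p.1.fst) ⟨p, hp, rfl⟩ ⟨r, hr, hrp⟩ ?_ ?_
  · rw [h.chi] at h6
    omega
  · intro x y _ _ hxy
    have h7 := rdc_fst A L h.om hxy
    rw [h7]
  · intro x y hx hy hxy
    exact ⟨hcl x y hx hy hxy, hcl y x hy hx (Relation.EqvGen.symm _ _ hxy)⟩

/-- all flags are joined, with exactly one colour -/
theorem dsc_col (A : Finset G.edgeSet) (L : Flag G → Flag G) (h : Dsc A L) (p q : Flag G) (hp : ed p ∈ A) (hq : ed q ∈ A) :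
    ∃ b : Bool, Relation.EqvGen (rC A L) (p, false) (q, b) ∧ ¬ Relation.EqvGen (rC A L) (p, false) (q, !b) := by
  obtain ⟨r, hr, hre, hb⟩ := (rdc_edge A L h.om p (h.cn _ hp _ hq)).1 ⟨p, hp, rfl, false, Relation.EqvGen.refl _⟩
  obtain ⟨b, hb'⟩ := rdc_same A L hr hre hb
  refine ⟨b, hb', fun h1 => ?_⟩
  have h2 : Relation.EqvGen (rC A L) (q, b) (q, !b) := Relation.EqvGen.trans _ _ _ (Relation.EqvGen.symm _ _ hb') h1
  cases b with
  | false => exact dsc_ori A L h q h2
  | true => exact dsc_ori A L h q (Relation.EqvGen.symm _ _ h2)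

private theorem rdc_odd (A : Finset G.edgeSet) (L s : Flag G → Flag G) (h : Dsc A L) (hs : s = side ∨ s = across)
    (p q : Flag G) (hp : Um A L p) (hne : q ≠ p) (hq : Um A L q)
    (hpq : Relation.EqvGen (fun x y => ed x ∈ A ∧ (y = L x ∨ y = s x)) p q) :
    Relation.EqvGen (rC A L) (p, false) (q, true) := by
  have hse : ∀ x, ed (s x) = ed x := by
    rcases hs with rfl | rfl
    · exact fun _ => rfl
    · exact Pool.Agent.BEO.ed_across
  have hss : ∀ x, s (s x) = x := by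
    rcases hs with rfl | rfl
    · exact Pool.Agent.Helper35.OG.side_side
    · exact Pool.Agent.Helper35.OG.across_across
  have hsn : ∀ x, s x ≠ x := by
    rcases hs with rfl | rfl
    · exact Pool.Agent.Helper35.OG.side_ne
    · exact Pool.Agent.Helper35.OG.across_ne
  set κ : Flag G → ℤ := fun x => if Relation.EqvGen (rC A L) (p, false) (x, true) then -1 else 1 with hκ
  have hflip : ∀ x y, ed x ∈ A → (∀ b, Relation.EqvGen (rC A L) (x, b) (y, !b)) → ed y ∈ A → κ y = - κ x := by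
    intro x y hx hxy hy
    obtain ⟨b, hb1, hb2⟩ := dsc_col A L h p x hp.1 hx
    obtain ⟨c, hc1, hc2⟩ := dsc_col A L h p y hp.1 hy
    have hb3 := Relation.EqvGen.trans _ _ _ hb1 (hxy b)
    have hbc : c = !b := by
      by_contra hcb
      have h5 : c = b := by
        revert hcb
        cases b <;> cases c <;> decide
      rw [h5] at hc2
      exact hc2 hb3
    subst hbc
    show (if Relation.EqvGen (rC A L) (p, false) (y, true) then (-1 : ℤ) else 1) =
      -(if Relation.EqvGen (rC A L) (p, false) (x, true) then (-1 : ℤ) else 1)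
    cases b with
    | false =>
      rw [if_pos (show Relation.EqvGen (rC A L) (p, false) (y, true) from hc1),
        if_neg (show ¬ Relation.EqvGen (rC A L) (p, false) (x, true) from hb2)]
    | true =>
      rw [if_neg (show ¬ Relation.EqvGen (rC A L) (p, false) (y, true) from hc2),
        if_pos (show Relation.EqvGen (rC A L) (p, false) (x, true) from hb1), neg_neg]
  have hκ0 : ∀ x, κ x ≠ 0 := by
    intro x
    show (if Relation.EqvGen (rC A L) (p, false) (x, true) then (-1 : ℤ) else 1) ≠ 0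
    split_ifs <;> norm_num
  set R : Flag G → Flag G → Prop := fun x y => ed x ∈ A ∧ (y = L x ∨ y = s x) with hR
  have hCA : ∀ x, Relation.EqvGen R p x → ed x ∈ A := fun x hx => ((rdc_in A L s h.om.mem hse hx).1).1 hp.1
  set C : Finset (Flag G) := univ.filter fun x => Relation.EqvGen R p x with hC
  have hCs : ∀ x ∈ C, s x ∈ C := by
    intro x hx
    rw [hC, Finset.mem_filter] at hx ⊢
    exact ⟨Finset.mem_univ _, Relation.EqvGen.trans _ _ _ hx.2 (Relation.EqvGen.rel _ _ ⟨hCA x hx.2, Or.inr rfl⟩)⟩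
  have hCL : ∀ x ∈ C, L x ∈ C := by
    intro x hx
    rw [hC, Finset.mem_filter] at hx ⊢
    exact ⟨Finset.mem_univ _, Relation.EqvGen.trans _ _ _ hx.2 (Relation.EqvGen.rel _ _ ⟨hCA x hx.2, Or.inl rfl⟩)⟩
  have hCA' : ∀ x ∈ C, ed x ∈ A := by
    intro x hx
    rw [hC, Finset.mem_filter] at hx
    exact hCA x hx.2
  have e1 : ∑ x ∈ C, κ x = 0 := by
    refine Finset.sum_involution (fun x _ => s x) (fun x hx => ?_) (fun x _ _ => hsn x) (fun x hx => hCs x hx)
      (fun x _ => hss x)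
    have h1 := hCA' x hx
    rw [hflip x (s x) h1 (fun b => rdc_s A L s hs h1 b) (by rw [hse]; exact h1), add_neg_cancel]
  have e2 : ∑ x ∈ C.filter (fun x => ¬ L x = x), κ x = 0 := by
    refine Finset.sum_involution (fun x _ => L x) (fun x hx => ?_) (fun x hx _ => (Finset.mem_filter.1 hx).2)
      (fun x hx => ?_) (fun x _ => h.om.inv x)
    · rw [Finset.mem_filter] at hx
      have h1 := hCA' x hx.1
      rw [hflip x (L x) h1 (fun b => rdc_L A L h1 hx.2 b) (h.om.mem x h1), add_neg_cancel]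
    · rw [Finset.mem_filter] at hx ⊢
      refine ⟨hCL x hx.1, ?_⟩
      rw [h.om.inv]
      exact fun h1 => hx.2 h1.symm
  have e3 : ∑ x ∈ C.filter (fun x => L x = x), κ x = 0 := by
    have e4 := Finset.sum_filter_add_sum_filter_not C (fun x => L x = x) κ
    rw [e2, add_zero, e1] at e4
    exact e4
  have e5 : C.filter (fun x => L x = x) = {p, q} := by
    obtain ⟨q', g1, g2, g3, g4⟩ := rdc_ends A L s h.om hse hss hsn p hp
    have hqq : q = q' := by
      rcases g4 q hq hpq with g5 | g5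
      · exact absurd g5 hne
      · exact g5
    ext x
    rw [Finset.mem_filter, Finset.mem_insert, Finset.mem_singleton, hC, Finset.mem_filter]
    constructor
    · rintro ⟨⟨-, hx⟩, hx'⟩
      rw [hqq]
      exact g4 x ⟨hCA x hx, hx'⟩ hx
    · rintro (rfl | rfl)
      · exact ⟨⟨Finset.mem_univ _, Relation.EqvGen.refl _⟩, hp.2⟩
      · exact ⟨⟨Finset.mem_univ _, hpq⟩, hq.2⟩
  rw [e5, Finset.sum_pair hne.symm] at e3
  have e6 : κ p = 1 := by
    rw [hκ]
    exact if_neg (dsc_ori A L h p)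
  by_contra hc
  have e7 : κ q = 1 := by
    rw [hκ]
    exact if_neg hc
  rw [e6, e7] at e3
  norm_num at e3

/-- the colour changes between the two open flags of a run or of a face -/
theorem dsc_odd (A : Finset G.edgeSet) (L : Flag G → Flag G) (h : Dsc A L) (p q : Flag G) (hp : Um A L p) (hq : Um A L q)
    (hne : q ≠ p) (hpq : Relation.EqvGen (rV A L) p q ∨ Relation.EqvGen (rF A L) p q) :
    Relation.EqvGen (rC A L) (p, false) (q, true) := by
  rcases hpq with hpq | hpq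
  · exact rdc_odd A L side h (Or.inl rfl) p q hp hne hq hpq
  · exact rdc_odd A L across h (Or.inr rfl) p q hp hne hq hpq

end Pool.Agent.FGT
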