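import Pool.Agent.FGT.RdDef

/-!
# FGT-RdD: exchanging parts of maps of two graphs: existence
-/

set_option autoImplicit false

open Finset
open scoped Classical

namespace Pool.Agent.FGT

open Pool.Agent.Helper35.OG (Flag GMap across side)
open Pool.Agent.BEO (F2 ed rp cyc ev bdF nb)
open Pool.Agent.BEO (frm)

variable {V : Type} {G G' : SimpleGraph V}

private theorem rd_inj {p q : Flag G} (h : fv p = fv q) : p = q := by
  obtain ⟨d, s⟩ := p
  obtain ⟨d', s'⟩ := q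
  have h1 : d.toProd = d'.toProd := congrArg Prod.fst h
  have h2 : s = s' := congrArg Prod.snd h
  rw [SimpleGraph.Dart.ext _ _ h1, h2]

private theorem rd_fst {p : Flag G} {q : Flag G'} (h : fv p = fv q) : p.1.fst = q.1.fst :=
  congrArg (fun x : (V × V) × Bool => x.1.1) h

private theorem rd_side {p : Flag G} {q : Flag G'} (h : fv p = fv q) : fv (side p) = fv (side q) := by
  obtain ⟨d, s⟩ := p
  obtain ⟨d', s'⟩ := q
  have h1 : d.toProd = d'.toProd := congrArg Prod.fst h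
  have h2 : s = s' := congrArg Prod.snd h
  show (d.toProd, !s) = (d'.toProd, !s')
  rw [h1, h2]

private theorem rd_ex {A : Finset G.edgeSet} {A' : Finset G'.edgeSet}
    (hO : ∀ e : Sym2 V, (∃ f : G.edgeSet, f.1 = e ∧ f ∉ A) → ∃ f : G'.edgeSet, f.1 = e ∧ f ∉ A')
    (p : {p : Flag G // ed p ∉ A}) : ∃ p' : {p : Flag G' // ed p ∉ A'}, fv p'.1 = fv p.1 := by
  obtain ⟨⟨d, s⟩, hp⟩ := p
  obtain ⟨f, h1, h2⟩ := hO d.edge ⟨ed (d, s), rfl, hp⟩
  have h3 : G'.Adj d.toProd.1 d.toProd.2 := by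
    rw [← SimpleGraph.mem_edgeSet]
    have h4 : s(d.toProd.1, d.toProd.2) = f.1 := by
      rw [h1]
      rfl
    rw [h4]
    exact f.2
  refine ⟨⟨(⟨d.toProd, h3⟩, s), fun h => h2 ?_⟩, rfl⟩
  have h4 : ed ((⟨d.toProd, h3⟩, s) : Flag G') = f := Subtype.ext (by
    rw [h1]
    rfl)
  rwa [h4] at h

private theorem rd_tau {A : Finset G.edgeSet} {A' : Finset G'.edgeSet} (hO : Out A A') :
    ∃ τ : {p : Flag G // ed p ∉ A} ≃ {p : Flag G' // ed p ∉ A'}, ∀ p, fv (τ p).1 = fv p.1 := by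
  choose f hf using rd_ex (A := A) (A' := A') fun e => (hO e).1
  choose g hg using rd_ex (A := A') (A' := A) fun e => (hO e).2
  exact ⟨⟨f, g, fun p => Subtype.ext (rd_inj ((hg _).trans (hf p))),
    fun p => Subtype.ext (rd_inj ((hf _).trans (hg p)))⟩, hf⟩

/-- steps of `rV` between flags over `D` are steps of the relation on the subtype -/
private theorem exb_sub (D : Finset G.edgeSet) (L : Flag G → Flag G) (hm : ∀ p, ed p ∈ D → ed (L p) ∈ D) {p q : Flag G}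
    (h : Relation.EqvGen (rV D L) p q) : p = q ∨ ∃ (hp : ed p ∈ D) (hq : ed q ∈ D),
      Relation.EqvGen (fun x y : {p : Flag G // ed p ∈ D} => rV D L x.1 y.1) ⟨p, hp⟩ ⟨q, hq⟩ := by
  induction h with
  | rel x y h1 =>
    refine Or.inr ⟨h1.1, ?_, Relation.EqvGen.rel _ _ h1⟩
    rcases h1.2 with h2 | h2
    · rw [h2]
      exact hm x h1.1
    · rw [h2, Pool.Agent.BEO.ed_side]
      exact h1.1
  | refl x => exact Or.inl rfl
  | symm x y _ ih =>
    rcases ih with h1 | ⟨h1, h2, h3⟩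
    · exact Or.inl h1.symm
    · exact Or.inr ⟨h2, h1, Relation.EqvGen.symm _ _ h3⟩
  | trans x y z _ _ ih1 ih2 =>
    rcases ih1 with h1 | ⟨h1, h2, h3⟩
    · rw [h1]
      exact ih2
    · rcases ih2 with h4 | ⟨h4, h5, h6⟩
      · rw [← h4]
        exact Or.inr ⟨h1, h2, h3⟩
      · exact Or.inr ⟨h1, h5, Relation.EqvGen.trans _ _ _ h3 h6⟩

/-- classes are mapped to classes -/
private theorem exb_map {X Y : Type} {r : X → X → Prop} {s : Y → Y → Prop} (f : X → Y)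
    (h : ∀ x y, r x y → Relation.EqvGen s (f x) (f y)) {x y : X} (hxy : Relation.EqvGen r x y) :
    Relation.EqvGen s (f x) (f y) := by
  induction hxy with
  | rel x y h1 => exact h x y h1
  | refl x => exact Relation.EqvGen.refl _
  | symm x y _ ih => exact Relation.EqvGen.symm _ _ ih
  | trans x y z _ _ ih1 ih2 => exact Relation.EqvGen.trans _ _ _ ih1 ih2

private theorem exb_iff (D : Finset G.edgeSet) (L : Flag G → Flag G) (hm : ∀ p, ed p ∈ D → ed (L p) ∈ D)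
    (x y : {p : Flag G // ed p ∈ D}) :
    Relation.EqvGen (fun x y : {p : Flag G // ed p ∈ D} => rV D L x.1 y.1) x y ↔ Relation.EqvGen (rV D L) x.1 y.1 := by
  constructor
  · intro h
    exact exb_map (s := rV D L) (fun z : {p : Flag G // ed p ∈ D} => z.1)
      (fun a b hab => Relation.EqvGen.rel _ _ hab) h
  · intro h
    rcases exb_sub D L hm h with h1 | ⟨h1, h2, h3⟩
    · rw [Subtype.ext h1]
      exact Relation.EqvGen.refl _
    · exact h3

theorem xexch0 (A : Finset G.edgeSet) (A' : Finset G'.edgeSet) (hO : Out A A') (M : GMap G) (L' : Flag G' → Flag G')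
    (θ : Flag G → Flag G') (hL : OMap A' L') (hs : SameX A (part A M) A' L' θ) :
    ∃ M' : GMap G', (∀ p, part A' M' p = L' p) ∧ OutC A M M' ∧
      ∀ p, Um A (part A M) p → fv (M'.nxt (θ p)) = fv (M.nxt p) := by
  obtain ⟨τ, hτ⟩ := rd_tau hO
  have hLp := omap_part A M
  have hUo : ∀ p, Um A (part A M) p → ed (M.nxt p) ∉ A := fun p h => ((um_part A M p).1 h).2
  have hUi : ∀ p, ed p ∉ A → ed (M.nxt p) ∈ A → Um A (part A M) (M.nxt p) := by
    intro p h1 h2
    rw [um_part, M.nxt_nxt]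
    exact ⟨h2, h1⟩
  have hsur : ∀ q : {q : Flag G' // Um A' L' q}, ∃ p : {p : Flag G // Um A (part A M) p}, θ p.1 = q.1 := by
    rintro ⟨q, hq⟩
    obtain ⟨p, h1, h2⟩ := hs.sur q hq
    exact ⟨⟨p, h1⟩, h2⟩
  choose σ hσ using hsur
  obtain ⟨nx, ha, he, hc, hd⟩ : ∃ nx : Flag G' → Flag G', (∀ p, ed p ∈ A' → L' p ≠ p → nx p = L' p) ∧
      (∀ p (hp : Um A (part A M) p), nx (θ p) = (τ ⟨M.nxt p, hUo p hp⟩).1) ∧
      (∀ p : {p : Flag G // ed p ∉ A}, ed (M.nxt p.1) ∈ A → nx (τ p).1 = θ (M.nxt p.1)) ∧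
      ∀ (p : {p : Flag G // ed p ∉ A}) (h : ed (M.nxt p.1) ∉ A), nx (τ p).1 = (τ ⟨M.nxt p.1, h⟩).1 := by
    refine ⟨fun p => if h : ed p ∈ A' then (if h2 : L' p = p then
        (τ ⟨M.nxt (σ ⟨p, h, h2⟩).1, hUo _ (σ ⟨p, h, h2⟩).2⟩).1 else L' p) else
      (if h2 : ed (M.nxt (τ.symm ⟨p, h⟩).1) ∈ A then θ (M.nxt (τ.symm ⟨p, h⟩).1) else
        (τ ⟨M.nxt (τ.symm ⟨p, h⟩).1, h2⟩).1), fun p h1 h2 => ?_, fun p h1 => ?_, fun p h1 => ?_,
      fun p h1 => ?_⟩
    · simp only [dif_pos h1, dif_neg h2]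
    · have h2 := hs.map p h1
      simp only [dif_pos h2.1, dif_pos h2.2]
      have h3 : (σ ⟨θ p, h2.1, h2.2⟩).1 = p := hs.inj _ _ (σ ⟨θ p, h2.1, h2.2⟩).2 h1 (hσ ⟨θ p, h2.1, h2.2⟩)
      have h4 : (⟨M.nxt (σ ⟨θ p, h2.1, h2.2⟩).1, hUo _ (σ ⟨θ p, h2.1, h2.2⟩).2⟩ : {p : Flag G // ed p ∉ A}) =
          ⟨M.nxt p, hUo p h1⟩ := Subtype.ext (by show M.nxt (σ ⟨θ p, h2.1, h2.2⟩).1 = M.nxt p; rw [h3])
      rw [h4]
    · have h2 : τ.symm ⟨(τ p).1, (τ p).2⟩ = p := τ.symm_apply_apply p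
      have h3 : ed (M.nxt (τ.symm ⟨(τ p).1, (τ p).2⟩).1) ∈ A := by rw [h2]; exact h1
      simp only [dif_neg (τ p).2, dif_pos h3]
      rw [h2]
    · have h2 : τ.symm ⟨(τ p).1, (τ p).2⟩ = p := τ.symm_apply_apply p
      have h3 : ed (M.nxt (τ.symm ⟨(τ p).1, (τ p).2⟩).1) ∉ A := by rw [h2]; exact h1
      simp only [dif_neg (τ p).2, dif_neg h3]
      have h4 : (⟨M.nxt (τ.symm ⟨(τ p).1, (τ p).2⟩).1, h3⟩ : {p : Flag G // ed p ∉ A}) = ⟨M.nxt p.1, h1⟩ :=
        Subtype.ext (by show M.nxt (τ.symm ⟨(τ p).1, (τ p).2⟩).1 = M.nxt p.1; rw [h2])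
      rw [h4]
  -- the four cases
  have hcase : ∀ p, (ed p ∈ A' ∧ L' p ≠ p) ∨ (∃ q, Um A (part A M) q ∧ p = θ q) ∨
      (∃ q : {p : Flag G // ed p ∉ A}, ed (M.nxt q.1) ∈ A ∧ p = (τ q).1) ∨
      ∃ q : {p : Flag G // ed p ∉ A}, ed (M.nxt q.1) ∉ A ∧ p = (τ q).1 := by
    intro p
    by_cases h1 : ed p ∈ A'
    · by_cases h2 : L' p = p
      · exact Or.inr (Or.inl ⟨(σ ⟨p, h1, h2⟩).1, (σ ⟨p, h1, h2⟩).2, (hσ ⟨p, h1, h2⟩).symm⟩)
      · exact Or.inl ⟨h1, h2⟩
    · have h3 : p = (τ (τ.symm ⟨p, h1⟩)).1 := by rw [τ.apply_symm_apply]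
      by_cases h2 : ed (M.nxt (τ.symm ⟨p, h1⟩).1) ∈ A
      · exact Or.inr (Or.inr (Or.inl ⟨_, h2, h3⟩))
      · exact Or.inr (Or.inr (Or.inr ⟨_, h2, h3⟩))
  have hnn : ∀ p, nx (nx p) = p := by
    intro p
    rcases hcase p with ⟨h1, h2⟩ | ⟨q, h1, rfl⟩ | ⟨q, h1, rfl⟩ | ⟨q, h1, rfl⟩
    · rw [ha p h1 h2, ha (L' p) (hL.mem p h1) (by rw [hL.inv]; exact fun h => h2 h.symm), hL.inv]
    · rw [he q h1, hc ⟨M.nxt q, hUo q h1⟩ (by rw [M.nxt_nxt]; exact h1.1), M.nxt_nxt]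
    · rw [hc q h1, he _ (hUi q.1 q.2 h1)]
      exact congrArg (fun x => (τ x).1) (Subtype.ext (M.nxt_nxt q.1))
    · rw [hd q h1, hd ⟨M.nxt q.1, h1⟩ (by rw [M.nxt_nxt]; exact q.2)]
      exact congrArg (fun x => (τ x).1) (Subtype.ext (M.nxt_nxt q.1))
  have hne : ∀ p, nx p ≠ p := by
    intro p
    rcases hcase p with ⟨h1, h2⟩ | ⟨q, h1, rfl⟩ | ⟨q, h1, rfl⟩ | ⟨q, h1, rfl⟩
    · rw [ha p h1 h2]
      exact h2
    · rw [he q h1]
      intro h4
      have h5 := (τ ⟨M.nxt q, hUo q h1⟩).2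
      rw [h4] at h5
      exact h5 (hs.map q h1).1
    · rw [hc q h1]
      intro h4
      have h5 := (hs.map _ (hUi q.1 q.2 h1)).1
      rw [h4] at h5
      exact (τ q).2 h5
    · rw [hd q h1]
      intro h4
      have h5 := τ.injective (Subtype.ext h4)
      exact M.nxt_ne q.1 (congrArg Subtype.val h5)
  have hfst : ∀ p, (nx p).1.fst = p.1.fst := by
    intro p
    rcases hcase p with ⟨h1, h2⟩ | ⟨q, h1, rfl⟩ | ⟨q, h1, rfl⟩ | ⟨q, h1, rfl⟩
    · rw [ha p h1 h2, hL.fst]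
    · rw [he q h1, hs.fst q h1, rd_fst (hτ _), M.nxt_fst]
    · rw [hc q h1, hs.fst _ (hUi q.1 q.2 h1), rd_fst (hτ _), M.nxt_fst]
    · rw [hd q h1, rd_fst (hτ _), rd_fst (hτ _), M.nxt_fst]
  -- inner steps
  have hV : ∀ x y, rV A' L' x y → Relation.EqvGen (fun x y => y = nx x ∨ y = side x) x y := by
    rintro x y ⟨h1, h2⟩
    rcases h2 with h2 | h2
    · by_cases h3 : L' x = x
      · rw [h2, h3]
        exact Relation.EqvGen.refl _
      · exact Relation.EqvGen.rel _ _ (Or.inl (by rw [ha x h1 h3]; exact h2))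
    · exact Relation.EqvGen.rel _ _ (Or.inr h2)
  -- outer flags at one vertex
  have hout0 : ∀ p q : {p : Flag G // ed p ∉ A}, p.1.1.fst = q.1.1.fst →
      Relation.EqvGen (fun x y => y = nx x ∨ y = side x) (τ p).1 (τ q).1 := by
    rintro ⟨p, hp⟩ ⟨q, hq⟩ hpq
    have hM := M.conn p q hpq
    set RA : {p : Flag G // ed p ∈ A} → {p : Flag G // ed p ∈ A} → Prop := fun x y => rV A (part A M) x.1 y.1 with hRA
    set RA' : {p : Flag G' // ed p ∈ A'} → {p : Flag G' // ed p ∈ A'} → Prop := fun x y => rV A' L' x.1 y.1 with hRA'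
    set RB : {p : Flag G // ed p ∉ A} → {p : Flag G // ed p ∉ A} → Prop :=
      fun x y => y.1 = M.nxt x.1 ∨ y.1 = side x.1 with hRB
    set u : {p : Flag G // Um A (part A M) p} → {p : Flag G // ed p ∈ A} := fun i => ⟨i.1, i.2.1⟩ with hu
    set u' : {p : Flag G // Um A (part A M) p} → {p : Flag G' // ed p ∈ A'} := fun i => ⟨θ i.1, (hs.map i.1 i.2).1⟩
      with hu'
    set w : {p : Flag G // Um A (part A M) p} → {p : Flag G // ed p ∉ A} := fun i => ⟨M.nxt i.1, hUo i.1 i.2⟩ with hw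
    set e : Flag G → {p : Flag G // ed p ∈ A} ⊕ {p : Flag G // ed p ∉ A} :=
      fun p => if h : ed p ∈ A then Sum.inl ⟨p, h⟩ else Sum.inr ⟨p, h⟩ with he'
    have hein : ∀ x (h : ed x ∈ A), e x = Sum.inl ⟨x, h⟩ := fun x h => dif_pos h
    have heout : ∀ x (h : ed x ∉ A), e x = Sum.inr ⟨x, h⟩ := fun x h => dif_neg h
    have h1 : Relation.EqvGen (glu RA RB u w) (e p) (e q) := by
      refine exb_map e ?_ hM
      rintro x y (h2 | h2)
      · by_cases hx : ed x ∈ A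
        · by_cases hy : ed y ∈ A
          · rw [hein x hx, hein y hy]
            refine Relation.EqvGen.rel _ _ ?_
            show rV A (part A M) x y
            refine ⟨hx, Or.inl ?_⟩
            have h3 : part A M x = M.nxt x := if_pos ⟨hx, by rw [← h2]; exact hy⟩
            rw [h3, h2]
          · rw [hein x hx, heout y hy]
            refine Relation.EqvGen.rel _ _ ?_
            have h3 : Um A (part A M) x := by
              rw [um_part]
              exact ⟨hx, by rw [← h2]; exact hy⟩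
            exact ⟨⟨x, h3⟩, rfl, Subtype.ext h2.symm⟩
        · by_cases hy : ed y ∈ A
          · rw [heout x hx, hein y hy]
            refine Relation.EqvGen.symm _ _ (Relation.EqvGen.rel _ _ ?_)
            have h4 : M.nxt y = x := by rw [h2, M.nxt_nxt]
            have h3 : Um A (part A M) y := by
              rw [um_part]
              exact ⟨hy, by rw [h4]; exact hx⟩
            exact ⟨⟨y, h3⟩, rfl, Subtype.ext h4⟩
          · rw [heout x hx, heout y hy]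
            refine Relation.EqvGen.rel _ _ ?_
            exact Or.inl h2
      · by_cases hx : ed x ∈ A
        · have hy : ed y ∈ A := by
            rw [h2, Pool.Agent.BEO.ed_side]
            exact hx
          rw [hein x hx, hein y hy]
          refine Relation.EqvGen.rel _ _ ?_
          show rV A (part A M) x y
          exact ⟨hx, Or.inr h2⟩
        · have hy : ed y ∉ A := by
            rw [h2, Pool.Agent.BEO.ed_side]
            exact hx
          rw [heout x hx, heout y hy]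
          refine Relation.EqvGen.rel _ _ ?_
          exact Or.inr h2
    rw [heout p hp, heout q hq] at h1
    have hh : ∀ i j, Relation.EqvGen RA (u i) (u j) ↔ Relation.EqvGen RA' (u' i) (u' j) := by
      intro i j
      exact (exb_iff A (part A M) hLp.mem (u i) (u j)).trans
        ((hs.v i.1 j.1 i.2 j.2).trans (exb_iff A' L' hL.mem (u' i) (u' j)).symm)
    have h2 := (glue2_iff RA RA' RB u u' w hh ⟨p, hp⟩ ⟨q, hq⟩).1 h1
    refine exb_map (r := glu RA' RB u' w) (s := fun x y => y = nx x ∨ y = side x)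
      (fun z : {p : Flag G' // ed p ∈ A'} ⊕ {p : Flag G // ed p ∉ A} => Sum.elim (fun a => a.1) (fun a => (τ a).1) z)
      ?_ h2
    rintro (x | x) (y | y) h3
    · exact hV x.1 y.1 h3
    · obtain ⟨i, h4, h5⟩ := h3
      refine Relation.EqvGen.rel _ _ (Or.inl ?_)
      show (τ y).1 = nx x.1
      have h6 : x.1 = θ i.1 := by rw [← h4]
      rw [h6, he _ i.2, ← h5]
    · exact h3.elim
    · have h4 : y.1 = M.nxt x.1 ∨ y.1 = side x.1 := h3
      refine Relation.EqvGen.rel _ _ ?_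
      show (τ y).1 = nx (τ x).1 ∨ (τ y).1 = side (τ x).1
      rcases h4 with h4 | h4
      · refine Or.inl ?_
        have h5 : ed (M.nxt x.1) ∉ A := by rw [← h4]; exact y.2
        rw [hd x h5]
        exact congrArg (fun x => (τ x).1) (Subtype.ext h4)
      · refine Or.inr (rd_inj ?_)
        rw [hτ, h4]
        exact rd_side (hτ x).symm
  have hout : ∀ p q : Flag G', ed p ∉ A' → ed q ∉ A' → p.1.fst = q.1.fst →
      Relation.EqvGen (fun x y => y = nx x ∨ y = side x) p q := by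
    intro p q hp hq hpq
    have h1 : (τ (τ.symm ⟨p, hp⟩)).1 = p := by rw [τ.apply_symm_apply]
    have h2 : (τ (τ.symm ⟨q, hq⟩)).1 = q := by rw [τ.apply_symm_apply]
    have h3 := hout0 (τ.symm ⟨p, hp⟩) (τ.symm ⟨q, hq⟩) (by
      rw [← rd_fst (hτ (τ.symm ⟨p, hp⟩)), ← rd_fst (hτ (τ.symm ⟨q, hq⟩)), h1, h2]
      exact hpq)
    rwa [h1, h2] at h3
  have hv : ∀ {p q : Flag G'}, Relation.EqvGen (fun x y => y = nx x ∨ y = side x) p q → p.1.fst = q.1.fst := by
    intro p q h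
    refine Pool.Agent.Helper35.OG.eqvGen_eq (fun x : Flag G' => x.1.fst) ?_ h
    rintro x y (h1 | h1)
    · rw [h1, hfst]
    · rw [h1, Pool.Agent.Helper35.OG.side_fst]
  have hin : ∀ p, (∃ q, ed q ∉ A' ∧ Relation.EqvGen (fun x y => y = nx x ∨ y = side x) p q) ∨
      ∀ q : Flag G', q.1.fst = p.1.fst → Relation.EqvGen (fun x y => y = nx x ∨ y = side x) p q := by
    intro p
    by_cases hp : ed p ∈ A'
    · rcases hL.run p hp with ⟨q, h1, h2⟩ | h1
      · refine Or.inl ⟨nx q, ?_, Relation.EqvGen.trans _ q _ (exb_map (s := fun x y => y = nx x ∨ y = side x)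
          (fun x : Flag G' => x) hV h2) (Relation.EqvGen.rel _ _ (Or.inl rfl))⟩
        have h3 : q = θ (σ ⟨q, h1⟩).1 := (hσ ⟨q, h1⟩).symm
        rw [h3, he _ (σ ⟨q, h1⟩).2]
        exact (τ _).2
      · exact Or.inr fun q hq => exb_map (s := fun x y => y = nx x ∨ y = side x) (fun x : Flag G' => x) hV (h1 q hq).2
    · exact Or.inl ⟨p, hp, Relation.EqvGen.refl _⟩
  refine ⟨⟨nx, hnn, hne, hfst, fun p q hpq => ?_⟩, fun p => ?_, fun p p' h1 h2 h3 => ?_, fun p hp => ?_⟩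
  · rcases hin p with ⟨p', h1, h2⟩ | h1
    · rcases hin q with ⟨q', h3, h4⟩ | h3
      · exact Relation.EqvGen.trans _ _ _ h2 (Relation.EqvGen.trans _ _ _
          (hout p' q' h1 h3 (by rw [← hv h2, ← hv h4]; exact hpq)) (Relation.EqvGen.symm _ _ h4))
      · exact Relation.EqvGen.symm _ _ (h3 p hpq)
    · exact h1 q hpq.symm
  · show (if ed p ∈ A' ∧ ed (nx p) ∈ A' then nx p else p) = L' p
    rcases hcase p with ⟨h1, h2⟩ | ⟨q, h1, rfl⟩ | ⟨q, h1, rfl⟩ | ⟨q, h1, rfl⟩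
    · rw [ha p h1 h2, if_pos ⟨h1, hL.mem p h1⟩]
    · rw [if_neg, (hs.map q h1).2]
      rintro ⟨-, h2⟩
      rw [he q h1] at h2
      exact (τ _).2 h2
    · rw [if_neg fun h => (τ q).2 h.1, hL.out _ (τ q).2]
    · rw [if_neg fun h => (τ q).2 h.1, hL.out _ (τ q).2]
  · show fv (nx p') = fv (M.nxt p)
    have h4 : p' = (τ ⟨p, h1⟩).1 := rd_inj (h3.trans (hτ ⟨p, h1⟩).symm)
    rw [h4, hd ⟨p, h1⟩ h2, hτ]
  · show fv (nx (θ p)) = fv (M.nxt p)
    rw [he p hp, hτ]

end Pool.Agent.FGT
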