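import Pool.Agent.FGT.RdDef

/-!
# FGT-RdDef2: the reduction step (definitions)
-/

set_option autoImplicit false

open Finset
open scoped Classical

namespace Pool.Agent.FGT

open Pool.Agent.Helper35.OG (Flag GMap across side)
open Pool.Agent.BEO (F2 ed rp cyc ev bdF nb)
open Pool.Agent.BEO (frm)

variable {V : Type} {G : SimpleGraph V} [Fintype V]

/-- `P` is a path from `v` to `w` -/
structure IsP (P : Finset G.edgeSet) (v w : V) : Prop where
  ne : v ≠ w
  hv : v ∈ tv P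
  hw : w ∈ tv P
  one : ∀ e ∈ P, ∀ f ∈ P, ∀ x, x = v ∨ x = w → x ∈ e.1 → x ∈ f.1 → e = f
  cn : ∀ e ∈ P, ∀ f ∈ P, Relation.EqvGen (fun x y : G.edgeSet => x ∈ P ∧ y ∈ P ∧ ∃ u, u ≠ v ∧ u ≠ w ∧ u ∈ x.1 ∧ u ∈ y.1) e f
  cd : P.card + 1 ≤ (tv P).card

/-- there is an edge `v w` of `G` outside `A` -/
def Oe (A : Finset G.edgeSet) (v w : V) : Prop := ∃ f : G.edgeSet, f ∉ A ∧ f.1 = s(v, w)

/-- the edges which replace `A`: none if `A` is attached at one vertex; the edge joining the two attachments, or a path of length two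
through a vertex of `A` if they are adjacent outside `A` -/
def RR (S : GMap G) (A : Finset G.edgeSet) (R : Finset (Sym2 V)) : Prop :=
  ((att A (part A S)).card ≤ 1 ∧ R = ∅) ∨ ∃ v w : V, v ≠ w ∧ att A (part A S) = {v, w} ∧
    ((¬ Oe A v w ∧ R = {s(v, w)}) ∨ (Oe A v w ∧ ∃ x ∈ tv A, x ≠ v ∧ x ≠ w ∧ R = {s(v, x), s(x, w)}))

/-- the new graph -/
def GR (A : Finset G.edgeSet) (R : Finset (Sym2 V)) : SimpleGraph V :=
  SimpleGraph.fromEdgeSet ({e | ∃ f : G.edgeSet, f.1 = e ∧ f ∉ A} ∪ (R : Set (Sym2 V)))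

/-- the edges of the graph `H` in `R` -/
noncomputable def DR (H : SimpleGraph V) (R : Finset (Sym2 V)) : Finset H.edgeSet := univ.filter fun e => e.1 ∈ R

end Pool.Agent.FGT
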