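import Pool.Agent.FGT.RdDef
import Pool.Agent.FGT.Glue2

/-!
# FGT-RdE: exchanging parts of maps of two graphs: faces

As `exch_face` in `ExC`; the outside flags of the two graphs correspond to each other by their values.
-/

set_option autoImplicit false

open Finset
open scoped Classical

namespace Pool.Agent.FGT

open Pool.Agent.Helper35.OG (Flag GMap across side)
open Pool.Agent.BEO (F2 ed rp cyc ev bdF nb)
open Pool.Agent.BEO (frm)
open Pool.Agent.BEO (ed_across)

variable {V : Type} {G G' : SimpleGraph V}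

private theorem ec_map {α β : Type} {r : α → α → Prop} {s : β → β → Prop} (f : α → β)
    (h : ∀ x y, r x y → Relation.EqvGen s (f x) (f y)) {x y : α} (hxy : Relation.EqvGen r x y) :
    Relation.EqvGen s (f x) (f y) := by
  induction hxy with
  | rel x y h1 => exact h x y h1
  | refl x => exact Relation.EqvGen.refl _
  | symm x y _ ih => exact Relation.EqvGen.symm _ _ ih
  | trans x y z _ _ ih1 ih2 => exact Relation.EqvGen.trans _ _ _ ih1 ih2

private theorem ec_card {α β : Type} {r : α → α → Prop} {s : β → β → Prop} (e : α ≃ β)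
    (h1 : ∀ x y, r x y → Relation.EqvGen s (e x) (e y))
    (h2 : ∀ x y, s x y → Relation.EqvGen r (e.symm x) (e.symm y)) : Nat.card (Quot r) = Nat.card (Quot s) := by
  refine Nat.card_congr ⟨Quot.lift (fun x => Quot.mk s (e x)) (fun x y h => Quot.eqvGen_sound (h1 x y h)),
    Quot.lift (fun x => Quot.mk r (e.symm x)) (fun x y h => Quot.eqvGen_sound (h2 x y h)), ?_, ?_⟩
  · intro c
    obtain ⟨x, rfl⟩ := Quot.exists_rep c
    show Quot.mk r (e.symm (e x)) = _
    rw [e.symm_apply_apply]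
  · intro c
    obtain ⟨x, rfl⟩ := Quot.exists_rep c
    show Quot.mk s (e (e.symm x)) = _
    rw [e.apply_symm_apply]

/-- the relation of the faces inside -/
private def RAf (D : Finset G.edgeSet) (L : Flag G → Flag G) (x y : {p : Flag G // ed p ∈ D}) : Prop := rF D L x.1 y.1

/-- the relation of the faces outside -/
private def RBf (D : Finset G.edgeSet) (N : GMap G) (x y : {p : Flag G // ¬ ed p ∈ D}) : Prop :=
  y.1 = N.nxt x.1 ∨ y.1 = across x.1

private theorem part_pos {D : Finset G.edgeSet} {N : GMap G} {p : Flag G} (h1 : ed p ∈ D) (h2 : ed (N.nxt p) ∈ D) :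
    part D N p = N.nxt p := if_pos ⟨h1, h2⟩

private theorem part_or (D : Finset G.edgeSet) (N : GMap G) (p : Flag G) : part D N p = N.nxt p ∨ part D N p = p := by
  by_cases h : ed p ∈ D ∧ ed (N.nxt p) ∈ D
  · exact Or.inl (if_pos h)
  · exact Or.inr (if_neg h)

private theorem sc_pos {D : Finset G.edgeSet} {x : Flag G} (h : ed x ∈ D) :
    (Equiv.sumCompl (fun p : Flag G => ed p ∈ D)).symm x = Sum.inl ⟨x, h⟩ :=
  Equiv.sumCompl_symm_apply_of_pos (p := fun p : Flag G => ed p ∈ D) h

private theorem sc_neg {D : Finset G.edgeSet} {x : Flag G} (h : ¬ ed x ∈ D) :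
    (Equiv.sumCompl (fun p : Flag G => ed p ∈ D)).symm x = Sum.inr ⟨x, h⟩ :=
  Equiv.sumCompl_symm_apply_of_neg (p := fun p : Flag G => ed p ∈ D) h

private theorem face_glu (D : Finset G.edgeSet) (N : GMap G) {ι : Type} (u : ι → {p : Flag G // ed p ∈ D})
    (w : ι → {p : Flag G // ¬ ed p ∈ D}) (hu : ∀ i, N.nxt (u i).1 = (w i).1)
    (hsu : ∀ p, ed p ∈ D → ed (N.nxt p) ∉ D → ∃ i, (u i).1 = p) :
    Nat.card (Quot (glu (RAf D (part D N)) (RBf D N) u w)) = Nat.card N.Face := by
  unfold GMap.Face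
  refine ec_card (Equiv.sumCompl (fun p : Flag G => ed p ∈ D)) ?_ ?_
  · rintro (x | x) (y | y) h
    · show Relation.EqvGen _ x.1 y.1
      rcases h.2 with h1 | h1
      · rcases part_or D N x.1 with h2 | h2
        · rw [h2] at h1
          exact Relation.EqvGen.rel _ _ (Or.inl h1)
        · rw [h2] at h1
          rw [h1]
          exact Relation.EqvGen.refl _
      · exact Relation.EqvGen.rel _ _ (Or.inr h1)
    · show Relation.EqvGen _ x.1 y.1
      obtain ⟨i, rfl, rfl⟩ := h
      exact Relation.EqvGen.rel _ _ (Or.inl (hu i).symm)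
    · exact h.elim
    · show Relation.EqvGen _ x.1 y.1
      exact Relation.EqvGen.rel _ _ h
  · intro x y h
    by_cases hx : ed x ∈ D
    · rw [sc_pos hx]
      by_cases hy : ed y ∈ D
      · rw [sc_pos hy]
        refine Relation.EqvGen.rel _ _ ?_
        show rF D (part D N) x y
        rcases h with h | h
        · refine ⟨hx, Or.inl ?_⟩
          rw [part_pos hx (by rw [← h]; exact hy), h]
        · exact ⟨hx, Or.inr h⟩
      · rw [sc_neg hy]
        refine Relation.EqvGen.rel _ _ ?_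
        rcases h with h | h
        · obtain ⟨i, hi⟩ := hsu x hx (by rw [← h]; exact hy)
          refine ⟨i, Subtype.ext hi, Subtype.ext ?_⟩
          rw [← hu i, hi]
          exact h.symm
        · exact absurd (by rw [h, ed_across]; exact hx) hy
    · rw [sc_neg hx]
      by_cases hy : ed y ∈ D
      · rw [sc_pos hy]
        refine Relation.EqvGen.symm _ _ (Relation.EqvGen.rel _ _ ?_)
        rcases h with h | h
        · have h' : N.nxt y = x := by rw [h, N.nxt_nxt]
          obtain ⟨i, hi⟩ := hsu y hy (by rw [h']; exact hx)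
          refine ⟨i, Subtype.ext hi, Subtype.ext ?_⟩
          rw [← hu i, hi]
          exact h'
        · exact absurd (by rw [h, ed_across] at hy; exact hy) hx
      · rw [sc_neg hy]
        exact Relation.EqvGen.rel _ _ h

private theorem key_f {D : Finset G.edgeSet} {L : Flag G → Flag G} (hL : OMap D L) {x y : Flag G}
    (h : Relation.EqvGen (rF D L) x y) : (ed x ∈ D ↔ ed y ∈ D) ∧ ∀ (hx : ed x ∈ D) (hy : ed y ∈ D),
      Relation.EqvGen (RAf D L) ⟨x, hx⟩ ⟨y, hy⟩ := by
  induction h with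
  | rel x y h1 =>
    have h2 : ed y ∈ D := by
      rcases h1.2 with h2 | h2
      · rw [h2]
        exact hL.mem x h1.1
      · rw [h2, ed_across]
        exact h1.1
    exact ⟨⟨fun _ => h2, fun _ => h1.1⟩, fun hx hy => Relation.EqvGen.rel _ _ h1⟩
  | refl x => exact ⟨Iff.rfl, fun _ _ => Relation.EqvGen.refl _⟩
  | symm x y _ ih => exact ⟨ih.1.symm, fun hx hy => Relation.EqvGen.symm _ _ (ih.2 hy hx)⟩
  | trans x y z _ _ ih1 ih2 =>
    exact ⟨ih1.1.trans ih2.1, fun hx hz => Relation.EqvGen.trans _ _ _ (ih1.2 hx (ih1.1.1 hx)) (ih2.2 (ih1.1.1 hx) hz)⟩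

private theorem iff_f {D : Finset G.edgeSet} {L : Flag G → Flag G} (hL : OMap D L) (x y : {p : Flag G // ed p ∈ D}) :
    Relation.EqvGen (RAf D L) x y ↔ Relation.EqvGen (rF D L) x.1 y.1 :=
  ⟨fun h => ec_map Subtype.val (fun _ _ h1 => Relation.EqvGen.rel _ _ h1) h, fun h => (key_f hL h).2 x.2 y.2⟩

private theorem clo_glu {D : Finset G.edgeSet} {L : Flag G → Flag G} (hL : OMap D L) {ι : Type}
    (u : ι → {p : Flag G // ed p ∈ D}) (hu : ∀ i, Um D L (u i).1) (hsu : ∀ q, Um D L q → ∃ i, (u i).1 = q) :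
    cloG (RAf D L) u = clo D L := by
  unfold cloG clo
  obtain ⟨g, hg⟩ : ∃ g : Quot (RAf D L) → Quot (rF D L), ∀ x, g (Quot.mk _ x) = Quot.mk _ x.1 :=
    ⟨Quot.map Subtype.val (fun _ _ h => h), fun x => rfl⟩
  have hinj : ∀ c d, g c = g d → c = d := by
    intro c d h
    obtain ⟨x, rfl⟩ := Quot.exists_rep c
    obtain ⟨y, rfl⟩ := Quot.exists_rep d
    rw [hg, hg] at h
    exact Quot.eqvGen_sound ((iff_f hL x y).2 (Quot.eqvGen_exact h))
  have hin : ∀ c : {c : Quot (RAf D L) // ∀ i, Quot.mk (RAf D L) (u i) ≠ c},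
      (∃ p, Quot.mk _ p = g c.1 ∧ ed p ∈ D) ∧ ∀ q, Um D L q → Quot.mk (rF D L) q ≠ g c.1 := by
    rintro ⟨c, hc⟩
    refine ⟨?_, ?_⟩
    · obtain ⟨x, rfl⟩ := Quot.exists_rep c
      exact ⟨x.1, (hg x).symm, x.2⟩
    · intro q hq h
      obtain ⟨i, hi⟩ := hsu q hq
      refine hc i (hinj _ _ ?_)
      rw [hg, hi]
      exact h
  refine Nat.card_congr (Equiv.ofBijective (fun c => ⟨g c.1, hin c⟩) ⟨?_, ?_⟩)
  · rintro ⟨c, hc⟩ ⟨d, hd⟩ h
    exact Subtype.ext (hinj _ _ (congrArg Subtype.val h))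
  · rintro ⟨c, ⟨p, rfl, hp⟩, hc⟩
    refine ⟨⟨Quot.mk _ ⟨p, hp⟩, fun i h => hc (u i).1 (hu i) ?_⟩, Subtype.ext (hg _)⟩
    rw [← hg, h, hg]

private theorem fv_inj {p q : Flag G} (h : fv p = fv q) : p = q := by
  rcases p with ⟨⟨x, hx⟩, s⟩
  rcases q with ⟨⟨y, hy⟩, t⟩
  have h1 : x = y := congrArg Prod.fst h
  have h2 : s = t := congrArg Prod.snd h
  subst h1 h2
  rfl

private theorem tr_ex {A : Finset G.edgeSet} {A' : Finset G'.edgeSet} (hO : Out A A') (p : Flag G) (hp : ¬ ed p ∈ A) :
    ∃ p' : Flag G', fv p' = fv p ∧ ¬ ed p' ∈ A' := by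
  obtain ⟨f, hf, hfA⟩ := (hO (ed p).1).1 ⟨ed p, rfl, hp⟩
  have hadj : G'.Adj p.1.fst p.1.snd := by
    have h1 := f.2
    rw [hf] at h1
    exact h1
  refine ⟨(⟨p.1.toProd, hadj⟩, p.2), rfl, ?_⟩
  have h2 : (ed ((⟨p.1.toProd, hadj⟩, p.2) : Flag G') : G'.edgeSet) = f := by
    apply Subtype.ext
    rw [hf]
    rfl
  rw [h2]
  exact hfA

private theorem out_symm {A : Finset G.edgeSet} {A' : Finset G'.edgeSet} (hO : Out A A') : Out A' A :=
  fun e => (hO e).symm

/-- the outside flags of the two graphs correspond to each other -/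
private noncomputable def eps {A : Finset G.edgeSet} {A' : Finset G'.edgeSet} (hO : Out A A') :
    {p : Flag G // ¬ ed p ∈ A} ≃ {p : Flag G' // ¬ ed p ∈ A'} where
  toFun x := ⟨Classical.choose (tr_ex hO x.1 x.2), (Classical.choose_spec (tr_ex hO x.1 x.2)).2⟩
  invFun y := ⟨Classical.choose (tr_ex (out_symm hO) y.1 y.2), (Classical.choose_spec (tr_ex (out_symm hO) y.1 y.2)).2⟩
  left_inv x := by
    apply Subtype.ext
    apply fv_inj
    have h1 := (Classical.choose_spec (tr_ex hO x.1 x.2)).1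
    exact (Classical.choose_spec (tr_ex (out_symm hO) (Classical.choose (tr_ex hO x.1 x.2))
      (Classical.choose_spec (tr_ex hO x.1 x.2)).2)).1.trans h1
  right_inv y := by
    apply Subtype.ext
    apply fv_inj
    have h1 := (Classical.choose_spec (tr_ex (out_symm hO) y.1 y.2)).1
    exact (Classical.choose_spec (tr_ex hO (Classical.choose (tr_ex (out_symm hO) y.1 y.2))
      (Classical.choose_spec (tr_ex (out_symm hO) y.1 y.2)).2)).1.trans h1

private theorem eps_fv {A : Finset G.edgeSet} {A' : Finset G'.edgeSet} (hO : Out A A')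
    (x : {p : Flag G // ¬ ed p ∈ A}) : fv (eps hO x).1 = fv x.1 :=
  (Classical.choose_spec (tr_ex hO x.1 x.2)).1

private theorem fv_across (p : Flag G) : fv (across p) = ((fv p).1.swap, !(fv p).2) := rfl

private theorem fv_side (p : Flag G) : fv (side p) = ((fv p).1, !(fv p).2) := rfl

private theorem eps_across {A : Finset G.edgeSet} {A' : Finset G'.edgeSet} (hO : Out A A')
    (x y : {p : Flag G // ¬ ed p ∈ A}) : (eps hO y).1 = across (eps hO x).1 ↔ y.1 = across x.1 := by
  constructor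
  · intro h
    apply fv_inj
    rw [← eps_fv hO y, h, fv_across, fv_across, eps_fv]
  · intro h
    apply fv_inj
    rw [eps_fv hO y, h, fv_across, fv_across, eps_fv]

/-- the part of the hypotheses which is used -/
private theorem nx_out {A : Finset G.edgeSet} {A' : Finset G'.edgeSet} (hO : Out A A') {M : GMap G} {M' : GMap G'}
    {L' : Flag G' → Flag G'} {θ : Flag G → Flag G'} (hs : SameX A (part A M) A' L' θ) (h2 : OutC A M M')
    (h3 : ∀ p, Um A (part A M) p → fv (M'.nxt (θ p)) = fv (M.nxt p)) (x y : {p : Flag G // ¬ ed p ∈ A}) :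
    (eps hO y).1 = M'.nxt (eps hO x).1 ↔ y.1 = M.nxt x.1 := by
  by_cases h : ed (M.nxt x.1) ∈ A
  · have hq : Um A (part A M) (M.nxt x.1) := (um_part A M _).2 ⟨h, by rw [M.nxt_nxt]; exact x.2⟩
    have e1 := h3 _ hq
    rw [M.nxt_nxt, ← eps_fv hO x] at e1
    have e2 : M'.nxt (eps hO x).1 = θ (M.nxt x.1) := by
      rw [← fv_inj e1, M'.nxt_nxt]
    constructor
    · intro h4
      have h5 := (eps hO y).2
      rw [h4, e2] at h5
      exact absurd (hs.map _ hq).1 h5
    · intro h4
      have h5 := y.2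
      rw [h4] at h5
      exact absurd h h5
  · have e1 := h2 x.1 (eps hO x).1 x.2 h (eps_fv hO x)
    constructor
    · intro h4
      apply fv_inj
      rw [← eps_fv hO y, h4, e1]
    · intro h4
      apply fv_inj
      rw [eps_fv hO y, h4, e1]

theorem xexch_face [Finite V] (A : Finset G.edgeSet) (A' : Finset G'.edgeSet) (hO : Out A A') (M : GMap G) (M' : GMap G')
    (L' : Flag G' → Flag G') (θ : Flag G → Flag G') (hL : OMap A' L') (hs : SameX A (part A M) A' L' θ)
    (h1 : ∀ p, part A' M' p = L' p) (h2 : OutC A M M')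
    (h3 : ∀ p, Um A (part A M) p → fv (M'.nxt (θ p)) = fv (M.nxt p)) :
    Nat.card M'.Face + clo A (part A M) = Nat.card M.Face + clo A' L' := by
  have hfG : Finite (Flag G) := by
    have := Fintype.ofFinite V
    infer_instance
  have hfG' : Finite (Flag G') := by
    have := Fintype.ofFinite V
    infer_instance
  have hL' : part A' M' = L' := funext h1
  set ι : Type := {p : Flag G // Um A (part A M) p} with hι
  set u : ι → {p : Flag G // ed p ∈ A} := fun i => ⟨i.1, i.2.1⟩ with hu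
  set u' : ι → {p : Flag G' // ed p ∈ A'} := fun i => ⟨θ i.1, (hs.map _ i.2).1⟩ with hu'
  set w : ι → {p : Flag G // ¬ ed p ∈ A} := fun i => ⟨M.nxt i.1, ((um_part A M i.1).1 i.2).2⟩ with hw
  have hM := omap_part A M
  have key := glue2_card (RAf A (part A M)) (RAf A' L') (RBf A M) u u' w (fun i j => by
    rw [iff_f hM, iff_f hL]
    exact hs.f i.1 j.1 i.2 j.2)
  have c1 := face_glu A M u w (fun i => rfl) (fun p hp hp' => ⟨⟨p, (um_part A M p).2 ⟨hp, hp'⟩⟩, rfl⟩)
  have c2 := face_glu A' M' u' (fun i => eps hO (w i)) (fun i => by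
      apply fv_inj
      rw [eps_fv]
      exact h3 i.1 i.2) (fun p hp hp' => by
    have h4 : Um A' L' p := by
      rw [← hL']
      exact (um_part A' M' p).2 ⟨hp, hp'⟩
    obtain ⟨q, hq, e⟩ := hs.sur p h4
    exact ⟨⟨q, hq⟩, e⟩)
  rw [hL'] at c2
  have c5 : Nat.card (Quot (glu (RAf A' L') (RBf A M) u' w)) =
      Nat.card (Quot (glu (RAf A' L') (RBf A' M') u' (fun i => eps hO (w i)))) := by
    refine ec_card (Equiv.sumCongr (Equiv.refl _) (eps hO)) ?_ ?_
    · rintro (x | x) (y | y) h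
      · exact Relation.EqvGen.rel _ _ h
      · obtain ⟨i, h4, h5⟩ := h
        refine Relation.EqvGen.rel _ _ ⟨i, h4, ?_⟩
        show eps hO (w i) = eps hO y
        rw [h5]
      · exact h.elim
      · refine Relation.EqvGen.rel _ _ ?_
        show (eps hO y).1 = M'.nxt (eps hO x).1 ∨ (eps hO y).1 = across (eps hO x).1
        exact h.imp (nx_out hO hs h2 h3 x y).2 (eps_across hO x y).2
    · rintro (x | x) (y | y) h
      · exact Relation.EqvGen.rel _ _ h
      · obtain ⟨i, h4, h5⟩ := h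
        refine Relation.EqvGen.rel _ _ ⟨i, h4, ?_⟩
        rw [← h5]
        exact ((eps hO).symm_apply_apply _).symm
      · exact h.elim
      · refine Relation.EqvGen.rel _ _ ?_
        show ((eps hO).symm y).1 = M.nxt ((eps hO).symm x).1 ∨ ((eps hO).symm y).1 = across ((eps hO).symm x).1
        have h4 := nx_out hO hs h2 h3 ((eps hO).symm x) ((eps hO).symm y)
        have h5 := eps_across hO ((eps hO).symm x) ((eps hO).symm y)
        rw [(eps hO).apply_symm_apply, (eps hO).apply_symm_apply] at h4 h5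
        exact h.imp h4.1 h5.1
  have c3 := clo_glu hM u (fun i => i.2) (fun q hq => ⟨⟨q, hq⟩, rfl⟩)
  have c4 := clo_glu hL u' (fun i => hs.map _ i.2) (fun q hq => by
    obtain ⟨p, hp, e⟩ := hs.sur q hq
    exact ⟨⟨p, hp⟩, e⟩)
  rw [c5, c1, c2, c3, c4] at key
  exact key.symm

end Pool.Agent.FGT
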