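import Pool.Agent.FGT.RdDef
import Pool.Agent.FGT.SmA

/-!
# FGT-RdG: counting vertices

PLAN. `vs_tv`: for an open map with one run at every attachment, the runs correspond to the touched vertices: a run determines its vertex (`L` and `side` keep it); at a vertex with an open flag every flag over `A` is in a run with an open flag (`OMap.run`), all of which are equal; at the other touched vertices `OMap.run` gives one class.
`att_iff`: a vertex is an attachment iff it is an end of an edge of `A` and of an edge outside: `OMap.ub`, and if there were no open flag at `v`, `OMap.run` says that all flags at `v` are over `A`. `nis_eq`: `nis G = tv A ∪ (ends of the edges outside)`, the intersection is `att A L`; the outside part is the same for `G'`, and `att` is the same.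
-/

set_option autoImplicit false

open Finset
open scoped Classical

namespace Pool.Agent.FGT

open Pool.Agent.Helper35.OG (Flag GMap across side)
open Pool.Agent.BEO (F2 ed rp cyc ev bdF nb)
open Pool.Agent.BEO (frm)

variable {V : Type} {G G' : SimpleGraph V} [Fintype V]

omit [Fintype V] in
private theorem rdg_fst_mem (p : Flag G) : p.1.fst ∈ (ed p).1 := by
  show p.1.fst ∈ p.1.edge
  exact Sym2.mem_mk_left _ _

omit [Fintype V] in
private theorem rdg_flag {v : V} (e : G.edgeSet) (h : v ∈ e.1) : ∃ p : Flag G, ed p = e ∧ p.1.fst = v := by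
  obtain ⟨w, hw⟩ := Sym2.mem_iff_exists.1 h
  have hadj : G.Adj v w := by
    rw [← SimpleGraph.mem_edgeSet, ← hw]
    exact e.2
  refine ⟨(⟨(v, w), hadj⟩, true), ?_, rfl⟩
  apply Subtype.ext
  exact hw.symm

omit [Fintype V] in
private theorem rdg_step (A : Finset G.edgeSet) (L : Flag G → Flag G) (hL : OMap A L) (p q : Flag G) (h : rV A L p q) :
    p.1.fst = q.1.fst := by
  rcases h.2 with h1 | h1
  · rw [h1, hL.fst]
  · rw [h1]
    rfl

omit [Fintype V] in
private theorem rdg_eqv (A : Finset G.edgeSet) (L : Flag G → Flag G) (hL : OMap A L) (p q : Flag G)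
    (h : Relation.EqvGen (rV A L) p q) : p.1.fst = q.1.fst := by
  induction h with
  | rel x y hr => exact rdg_step A L hL x y hr
  | refl x => rfl
  | symm x y _ ih => exact ih.symm
  | trans x y z _ _ ih1 ih2 => exact ih1.trans ih2

private theorem mem_tv (A : Finset G.edgeSet) (v : V) : v ∈ tv A ↔ ∃ e ∈ A, v ∈ e.1 := by
  unfold tv
  rw [Finset.mem_filter]
  exact ⟨fun h => h.2, fun h => ⟨Finset.mem_univ _, h⟩⟩

theorem vs_tv (A : Finset G.edgeSet) (L : Flag G → Flag G) (hL : OMap A L)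
    (hr : ∀ p q, Um A L p → Um A L q → p.1.fst = q.1.fst → Relation.EqvGen (rV A L) p q) : vsL A L = (tv A).card := by
  have hf : ∀ c : {c : Quot (rV A L) // ∃ p, Quot.mk _ p = c ∧ ed p ∈ A},
      Quot.lift (fun p : Flag G => p.1.fst) (rdg_step A L hL) c.1 ∈ tv A := by
    rintro ⟨c, p, rfl, hp⟩
    exact (mem_tv A _).2 ⟨ed p, hp, rdg_fst_mem p⟩
  have hb : Function.Bijective (fun c : {c : Quot (rV A L) // ∃ p, Quot.mk _ p = c ∧ ed p ∈ A} =>
      (⟨Quot.lift (fun p : Flag G => p.1.fst) (rdg_step A L hL) c.1, hf c⟩ : {v // v ∈ tv A})) := by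
    constructor
    · rintro ⟨c, p, rfl, hp⟩ ⟨c', q, rfl, hq⟩ h
      have h1 : p.1.fst = q.1.fst := congrArg Subtype.val h
      apply Subtype.ext
      show Quot.mk _ p = Quot.mk _ q
      apply Quot.eqvGen_sound
      rcases hL.run p hp with ⟨p', hp', hpp'⟩ | h2
      · rcases hL.run q hq with ⟨q', hq', hqq'⟩ | h3
        · have h4 : p'.1.fst = q'.1.fst := by
            rw [← rdg_eqv A L hL _ _ hpp', ← rdg_eqv A L hL _ _ hqq', h1]
          exact Relation.EqvGen.trans _ _ _ hpp' (Relation.EqvGen.trans _ _ _ (hr p' q' hp' hq' h4)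
            (Relation.EqvGen.symm _ _ hqq'))
        · exact Relation.EqvGen.symm _ _ (h3 p h1).2
      · exact (h2 q h1.symm).2
    · rintro ⟨v, hv⟩
      obtain ⟨e, he, hve⟩ := (mem_tv A v).1 hv
      obtain ⟨p, hp, hpv⟩ := rdg_flag e hve
      refine ⟨⟨Quot.mk _ p, p, rfl, by rw [hp]; exact he⟩, ?_⟩
      apply Subtype.ext
      exact hpv
  unfold vsL
  rw [Nat.card_congr (Equiv.ofBijective _ hb), Nat.card_eq_fintype_card, Fintype.card_coe]

theorem att_iff (A : Finset G.edgeSet) (L : Flag G → Flag G) (hL : OMap A L) (v : V) :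
    v ∈ att A L ↔ v ∈ tv A ∧ ∃ e : G.edgeSet, e ∉ A ∧ v ∈ e.1 := by
  unfold att
  rw [Finset.mem_filter]
  constructor
  · rintro ⟨_, p, hp, rfl⟩
    refine ⟨(mem_tv A _).2 ⟨ed p, hp.1, rdg_fst_mem p⟩, ?_⟩
    obtain ⟨q, hq1, hq2⟩ := hL.ub p hp
    refine ⟨ed q, hq2, ?_⟩
    rw [← hq1]
    exact rdg_fst_mem q
  · rintro ⟨h1, e, he, hve⟩
    refine ⟨Finset.mem_univ _, ?_⟩
    obtain ⟨f, hf, hvf⟩ := (mem_tv A v).1 h1
    obtain ⟨p, hp, hpv⟩ := rdg_flag f hvf
    obtain ⟨q, hq, hqv⟩ := rdg_flag e hve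
    rcases hL.run p (by rw [hp]; exact hf) with ⟨p', hp', hpp'⟩ | h2
    · refine ⟨p', hp', ?_⟩
      rw [← rdg_eqv A L hL _ _ hpp', hpv]
    · exfalso
      apply he
      rw [← hq]
      exact (h2 q (hqv.trans hpv.symm)).1

/-- the ends of the edges outside `A` -/
private noncomputable def ov (A : Finset G.edgeSet) : Finset V := univ.filter fun v => ∃ e : G.edgeSet, e ∉ A ∧ v ∈ e.1

private theorem mem_ov (A : Finset G.edgeSet) (v : V) : v ∈ ov A ↔ ∃ e : G.edgeSet, e ∉ A ∧ v ∈ e.1 := by
  unfold ov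
  rw [Finset.mem_filter]
  exact ⟨fun h => h.2, fun h => ⟨Finset.mem_univ _, h⟩⟩

private theorem nis_card (A : Finset G.edgeSet) (L : Flag G → Flag G) (hL : OMap A L) :
    (nis G).card + (att A L).card = (tv A).card + (ov A).card := by
  have h1 : nis G = tv A ∪ ov A := by
    ext v
    rw [Finset.mem_union, mem_tv, mem_ov]
    unfold nis
    rw [Finset.mem_filter]
    constructor
    · rintro ⟨_, w, hw⟩
      by_cases h : (⟨s(v, w), hw⟩ : G.edgeSet) ∈ A
      · exact Or.inl ⟨_, h, Sym2.mem_mk_left _ _⟩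
      · exact Or.inr ⟨_, h, Sym2.mem_mk_left _ _⟩
    · intro h
      refine ⟨Finset.mem_univ _, ?_⟩
      have key : ∀ e : G.edgeSet, v ∈ e.1 → ∃ w, G.Adj v w := by
        intro e he
        obtain ⟨p, _, hp⟩ := rdg_flag e he
        refine ⟨p.1.snd, ?_⟩
        rw [← hp]
        exact p.1.adj
      rcases h with ⟨e, _, he⟩ | ⟨e, _, he⟩
      · exact key e he
      · exact key e he
  have h2 : att A L = tv A ∩ ov A := by
    ext v
    rw [Finset.mem_inter, att_iff A L hL, mem_ov]
  rw [h1, h2, Finset.card_union_add_card_inter]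

theorem nis_eq (A : Finset G.edgeSet) (A' : Finset G'.edgeSet) (hO : Out A A') (L : Flag G → Flag G) (L' : Flag G' → Flag G')
    (hL : OMap A L) (hL' : OMap A' L') (ha : att A L = att A' L') :
    (nis G).card + (tv A').card = (nis G').card + (tv A).card := by
  have h1 := nis_card A L hL
  have h2 := nis_card A' L' hL'
  have h3 : ov A = ov A' := by
    ext v
    rw [mem_ov, mem_ov]
    constructor
    · rintro ⟨e, he, hv⟩
      obtain ⟨f, hf, hfA⟩ := (hO e.1).1 ⟨e, rfl, he⟩
      exact ⟨f, hfA, by rw [hf]; exact hv⟩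
    · rintro ⟨e, he, hv⟩
      obtain ⟨f, hf, hfA⟩ := (hO e.1).2 ⟨e, rfl, he⟩
      exact ⟨f, hfA, by rw [hf]; exact hv⟩
  rw [ha] at h1
  rw [h3] at h1
  omega

theorem card_eq (A : Finset G.edgeSet) (A' : Finset G'.edgeSet) (hO : Out A A') :
    Nat.card G.edgeSet + A'.card = Nat.card G'.edgeSet + A.card := by
  have h1 : A.card + (Aᶜ).card = Nat.card G.edgeSet := by
    rw [Finset.card_add_card_compl, Nat.card_eq_fintype_card]
  have h2 : A'.card + (A'ᶜ).card = Nat.card G'.edgeSet := by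
    rw [Finset.card_add_card_compl, Nat.card_eq_fintype_card]
  have h3 : (Aᶜ).card = (A'ᶜ).card := by
    rw [← Finset.card_image_of_injective (Aᶜ) (Subtype.val_injective : Function.Injective (fun e : G.edgeSet => e.1)),
      ← Finset.card_image_of_injective (A'ᶜ) (Subtype.val_injective : Function.Injective (fun e : G'.edgeSet => e.1))]
    congr 1
    ext e
    rw [Finset.mem_image, Finset.mem_image]
    constructor
    · rintro ⟨f, hf, rfl⟩
      obtain ⟨g, hg, hgA⟩ := (hO f.1).1 ⟨f, rfl, Finset.mem_compl.1 hf⟩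
      exact ⟨g, Finset.mem_compl.2 hgA, hg⟩
    · rintro ⟨f, hf, rfl⟩
      obtain ⟨g, hg, hgA⟩ := (hO f.1).2 ⟨f, rfl, Finset.mem_compl.1 hf⟩
      exact ⟨g, Finset.mem_compl.2 hgA, hg⟩
  omega

end Pool.Agent.FGT
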