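import Pool.Agent.FGT.RdC
import Pool.Agent.FGT.RdD
import Pool.Agent.FGT.RdE
import Pool.Agent.FGT.RdF
import Pool.Agent.FGT.RdG

/-!
# FGT-RdH: swapping discs
-/

set_option autoImplicit false

open Finset
open scoped Classical

namespace Pool.Agent.FGT

open Pool.Agent.Helper35.OG (Flag GMap across side)
open Pool.Agent.BEO (F2 ed rp cyc ev bdF nb)
open Pool.Agent.BEO (frm)

variable {V : Type} {G G' : SimpleGraph V} [Fintype V]

section general

variable {W : Type} {H : SimpleGraph W}

private theorem rdH_flip (A : Finset H.edgeSet) (L : Flag H → Flag H) (x y : Flag H × Bool)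
    (h : Relation.EqvGen (rC A L) x y) : Relation.EqvGen (rC A L) (x.1, !x.2) (y.1, !y.2) := by
  induction h with
  | rel x y h =>
    apply Relation.EqvGen.rel
    obtain ⟨h1, h2⟩ := h
    refine ⟨h1, ?_⟩
    rcases h2 with ⟨h3, rfl⟩ | rfl | rfl
    · exact Or.inl ⟨h3, rfl⟩
    · exact Or.inr (Or.inl rfl)
    · exact Or.inr (Or.inr rfl)
  | refl x => exact Relation.EqvGen.refl _
  | symm x y _ ih => exact Relation.EqvGen.symm _ _ ih
  | trans x y z _ _ ih1 ih2 => exact Relation.EqvGen.trans _ _ _ ih1 ih2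

private theorem rdH_ctrans (A : Finset H.edgeSet) (L : Flag H → Flag H) (p q r : Flag H) (b c : Bool)
    (h1 : Relation.EqvGen (rC A L) (p, false) (q, b)) (h2 : Relation.EqvGen (rC A L) (q, false) (r, c)) :
    Relation.EqvGen (rC A L) (p, false) (r, xor b c) := by
  cases b with
  | false => simpa using Relation.EqvGen.trans _ _ _ h1 h2
  | true =>
    have h3 := rdH_flip A L _ _ h2
    simpa using Relation.EqvGen.trans _ _ _ h1 h3

private theorem rdH_csymm (A : Finset H.edgeSet) (L : Flag H → Flag H) (p q : Flag H) (b : Bool)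
    (h1 : Relation.EqvGen (rC A L) (p, false) (q, b)) : Relation.EqvGen (rC A L) (q, false) (p, b) := by
  cases b with
  | false => exact Relation.EqvGen.symm _ _ h1
  | true => exact Relation.EqvGen.symm _ _ (rdH_flip A L _ _ h1)

private theorem rdH_fstV (A : Finset H.edgeSet) (L : Flag H → Flag H) (hL : OMap A L) (p q : Flag H)
    (h : Relation.EqvGen (rV A L) p q) : q.1.fst = p.1.fst := by
  induction h with
  | rel x y h =>
    obtain ⟨_, rfl | rfl⟩ := h
    · exact hL.fst x
    · rfl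
  | refl x => rfl
  | symm x y _ ih => exact ih.symm
  | trans x y z _ _ ih1 ih2 => exact ih2.trans ih1

private theorem rdH_two {v v' a b c : W} (ha : a = v ∨ a = v') (hb : b = v ∨ b = v') (hc : c = v ∨ c = v')
    (h1 : b ≠ a) (h2 : c ≠ a) : c = b := by
  rcases ha with h3 | h3 <;> rcases hb with h4 | h4 <;> rcases hc with h5 | h5
  · exact absurd (h4.trans h3.symm) h1
  · exact absurd (h4.trans h3.symm) h1
  · exact absurd (h5.trans h3.symm) h2
  · exact h5.trans h4.symm
  · exact h5.trans h4.symm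
  · exact absurd (h5.trans h3.symm) h2
  · exact absurd (h4.trans h3.symm) h1
  · exact absurd (h4.trans h3.symm) h1

variable [Fintype W]

private theorem rdH_uniq (A : Finset H.edgeSet) (L : Flag H → Flag H) (h : Dsc A L) (p q : Flag H) (b c : Bool)
    (h1 : Relation.EqvGen (rC A L) (p, false) (q, b)) (h2 : Relation.EqvGen (rC A L) (p, false) (q, c)) :
    c = b := by
  by_contra hne
  have h3 := rdH_ctrans A L _ _ _ _ _ h1 (rdH_csymm A L _ _ _ h2)
  have h4 : xor b c = true := by
    cases b <;> cases c <;> simp_all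
  rw [h4] at h3
  exact dsc_ori A L h p h3

/-- the four open flags of a disc with two attachments -/
private theorem rdH_four (A : Finset H.edgeSet) (L : Flag H → Flag H) (h : Dsc A L) (u1 : Flag H)
    (hu : Um A L u1) (hex : ∃ r, Um A L r ∧ r.1.fst ≠ u1.1.fst) :
    ∃ u2 w1 w2, Um A L u2 ∧ Um A L w1 ∧ Um A L w2 ∧ u2.1.fst = u1.1.fst ∧ w2.1.fst = w1.1.fst ∧
      w1.1.fst ≠ u1.1.fst ∧ u2 ≠ u1 ∧ w2 ≠ w1 ∧
      Relation.EqvGen (rF A L) u1 w1 ∧ Relation.EqvGen (rF A L) u2 w2 ∧
      (∀ r, Um A L r → r = u1 ∨ r = u2 ∨ r = w1 ∨ r = w2) ∧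
      (∀ r, Um A L r → Relation.EqvGen (rF A L) u1 r → r = u1 ∨ r = w1) ∧
      (∀ r, Um A L r → Relation.EqvGen (rF A L) u2 r → r = u2 ∨ r = w2) := by
  obtain ⟨u2, hu21, hu2, hu2f, -, hat⟩ := dsc_at A L h u1 hu
  obtain ⟨w1, hw1n, hw1, hw1F, hw1u, hw1f⟩ := dsc_face A L h u1 hu
  obtain ⟨w2, hw2n, hw2, hw2F, hw2u, hw2f⟩ := dsc_face A L h u2 hu2
  have hf1 := hw1f hex
  have hex2 : ∃ r, Um A L r ∧ r.1.fst ≠ u2.1.fst := by
    rw [hu2f]; exact hex
  have hf2 := hw2f hex2
  rw [hu2f] at hf2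
  obtain ⟨v, v', htwo⟩ := h.two
  have hff : w2.1.fst = w1.1.fst := rdH_two (htwo u1 hu) (htwo w1 hw1) (htwo w2 hw2) hf1 hf2
  have hw : w2 ≠ w1 := by
    intro he
    subst he
    have h5 := hw1u u2 hu2 (Relation.EqvGen.trans _ _ _ hw1F (Relation.EqvGen.symm _ _ hw2F))
    rcases h5 with h5 | h5
    · exact hu21 h5
    · exact hf1 (by rw [← h5]; exact hu2f)
  obtain ⟨x, hx1, hx2, hx3, -, hatw⟩ := dsc_at A L h w1 hw1
  have hxw : w2 = x := (hatw w2 hw2 hff).resolve_left hw
  refine ⟨u2, w1, w2, hu2, hw1, hw2, hu2f, hff, hf1, hu21, hw, hw1F, hw2F, ?_, hw1u, hw2u⟩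
  intro r hr
  by_cases h6 : r.1.fst = u1.1.fst
  · rcases hat r hr h6 with h7 | h7
    · exact Or.inl h7
    · exact Or.inr (Or.inl h7)
  · have h8 : r.1.fst = w1.1.fst := rdH_two (htwo u1 hu) (htwo w1 hw1) (htwo r hr) hf1 h6
    rcases hatw r hr h8 with h7 | h7
    · exact Or.inr (Or.inr (Or.inl h7))
    · exact Or.inr (Or.inr (Or.inr (h7.trans hxw.symm)))

end general

private theorem rdH_same (A : Finset G.edgeSet) (A' : Finset G'.edgeSet) (L : Flag G → Flag G)
    (L' : Flag G' → Flag G') (θ : Flag G → Flag G') (h : Dsc A L) (h' : Dsc A' L')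
    (map : ∀ p, Um A L p → Um A' L' (θ p))
    (inj : ∀ p q, Um A L p → Um A L q → θ p = θ q → p = q)
    (sur : ∀ q, Um A' L' q → ∃ p, Um A L p ∧ θ p = q)
    (fst : ∀ p, Um A L p → (θ p).1.fst = p.1.fst)
    (hf : ∀ p q, Um A L p → Um A L q → Relation.EqvGen (rF A L) p q → Relation.EqvGen (rF A' L') (θ p) (θ q)) :
    SameX A L A' L' θ := by
  refine ⟨map, inj, sur, fst, ?_, ?_, ?_, ?_⟩
  · intro p q hp hq
    constructor
    · intro hpq
      refine h'.run _ _ (map p hp) (map q hq) ?_
      rw [fst p hp, fst q hq, rdH_fstV A L h.om p q hpq]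
    · intro hpq
      refine h.run _ _ hp hq ?_
      have := rdH_fstV A' L' h'.om _ _ hpq
      rw [fst p hp, fst q hq] at this
      exact this.symm
  · intro p q hp hq
    refine ⟨hf p q hp hq, fun hpq => ?_⟩
    obtain ⟨q0, hq0n, hq0, hq0F, -, -⟩ := dsc_face A L h p hp
    obtain ⟨q1, hq1n, hq1, hq1F, hq1u, -⟩ := dsc_face A' L' h' (θ p) (map p hp)
    have h1 := hq1u _ (map q0 hq0) (hf p q0 hp hq0 hq0F)
    have h2 : θ q0 = q1 := h1.resolve_left (fun h3 => hq0n (inj _ _ hq0 hp h3))
    rcases hq1u _ (map q hq) hpq with h3 | h3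
    · rw [inj _ _ hq hp h3]
      exact Relation.EqvGen.refl _
    · rw [← h2] at h3
      rw [inj _ _ hq hq0 h3]
      exact hq0F
  · intro p q hp hq b
    have key : ∃ b0, Relation.EqvGen (rC A L) (p, false) (q, b0) ∧
        Relation.EqvGen (rC A' L') (θ p, false) (θ q, b0) := by
      have hsame : ∀ p q, Um A L p → Um A L q → p ≠ q → p.1.fst = q.1.fst →
          Relation.EqvGen (rC A L) (p, false) (q, true) ∧
          Relation.EqvGen (rC A' L') (θ p, false) (θ q, true) := by
        intro p q hp hq hne hfst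
        constructor
        · exact dsc_odd A L h p q hp hq (fun h3 => hne h3.symm) (Or.inl (h.run p q hp hq hfst))
        · refine dsc_odd A' L' h' _ _ (map p hp) (map q hq) (fun h3 => hne (inj _ _ hq hp h3).symm)
            (Or.inl (h'.run _ _ (map p hp) (map q hq) ?_))
          rw [fst p hp, fst q hq, hfst]
      by_cases hpq : p = q
      · subst hpq
        exact ⟨false, Relation.EqvGen.refl _, Relation.EqvGen.refl _⟩
      · by_cases hfst : p.1.fst = q.1.fst
        · exact ⟨true, hsame p q hp hq hpq hfst⟩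
        · obtain ⟨r, hrn, hr, hrF, -, hrf⟩ := dsc_face A L h p hp
          have hrp := hrf ⟨q, hq, fun h3 => hfst h3.symm⟩
          have hrq : r.1.fst = q.1.fst := by
            obtain ⟨v, v', htwo⟩ := h.two
            exact rdH_two (htwo p hp) (htwo q hq) (htwo r hr) (fun h3 => hfst h3.symm) hrp
          have h1 : Relation.EqvGen (rC A L) (p, false) (r, true) :=
            dsc_odd A L h p r hp hr hrn (Or.inr hrF)
          have h2 : Relation.EqvGen (rC A' L') (θ p, false) (θ r, true) :=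
            dsc_odd A' L' h' _ _ (map p hp) (map r hr) (fun h3 => hrn (inj _ _ hr hp h3))
              (Or.inr (hf p r hp hr hrF))
          by_cases hrq' : r = q
          · subst hrq'
            exact ⟨true, h1, h2⟩
          · obtain ⟨h3, h4⟩ := hsame r q hr hq hrq' hrq
            exact ⟨false, by simpa using rdH_ctrans A L _ _ _ _ _ h1 h3,
              by simpa using rdH_ctrans A' L' _ _ _ _ _ h2 h4⟩
    obtain ⟨b0, k1, k2⟩ := key
    constructor
    · intro h1
      rw [rdH_uniq A L h p q b0 b k1 h1]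
      exact k2
    · intro h1
      rw [rdH_uniq A' L' h' _ _ b0 b k2 h1]
      exact k1
  · rintro ⟨p, -, hp⟩
    exact absurd hp (dsc_ori A' L' h' p)

private theorem rdH_theta (A : Finset G.edgeSet) (A' : Finset G'.edgeSet) (L : Flag G → Flag G)
    (L' : Flag G' → Flag G') (h : Dsc A L) (h' : Dsc A' L') (ha : att A L = att A' L') :
    ∃ θ : Flag G → Flag G', SameX A L A' L' θ := by
  have hatt : ∀ v : V, (∃ p, Um A L p ∧ p.1.fst = v) ↔ ∃ p, Um A' L' p ∧ p.1.fst = v := by
    intro v
    have h1 : v ∈ att A L ↔ v ∈ att A' L' := by rw [ha]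
    simpa only [att, Finset.mem_filter, Finset.mem_univ, true_and] using h1
  obtain ⟨u1, hu1⟩ := h.um
  obtain ⟨u1', hu1', hu1f⟩ := (hatt u1.1.fst).1 ⟨u1, hu1, rfl⟩
  by_cases hex : ∃ r, Um A L r ∧ r.1.fst ≠ u1.1.fst
  · obtain ⟨u2, w1, w2, hu2, hw1, hw2, fu, fw, fne, nu, nw, F1, F2', all, U1, U2⟩ := rdH_four A L h u1 hu1 hex
    obtain ⟨r', hr', hr'f⟩ := (hatt w1.1.fst).1 ⟨w1, hw1, rfl⟩
    have hex' : ∃ r, Um A' L' r ∧ r.1.fst ≠ u1'.1.fst := ⟨r', hr', by rw [hr'f, hu1f]; exact fne⟩
    obtain ⟨u2', w1', w2', hu2', hw1', hw2', fu', fw', fne', nu', nw', F1', F2'', all', U1', U2'⟩ :=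
      rdH_four A' L' h' u1' hu1' hex'
    have fww : w1'.1.fst = w1.1.fst := by
      rcases all' r' hr' with h1 | h1 | h1 | h1
      · exfalso; apply fne; rw [← hr'f, h1, hu1f]
      · exfalso; apply fne; rw [← hr'f, h1, fu', hu1f]
      · rw [← hr'f, h1]
      · rw [← hr'f, h1, fw']
    have n1 : w1 ≠ u1 := fun h1 => fne (by rw [h1])
    have n2 : w1 ≠ u2 := fun h1 => fne (by rw [h1, fu])
    have n3 : w2 ≠ u1 := fun h1 => fne (by rw [← fw, h1])
    have n4 : w2 ≠ u2 := fun h1 => fne (by rw [← fw, h1, fu])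
    have n1' : w1' ≠ u1' := fun h1 => fne' (by rw [h1])
    have n2' : w1' ≠ u2' := fun h1 => fne' (by rw [h1, fu'])
    have n3' : w2' ≠ u1' := fun h1 => fne' (by rw [← fw', h1])
    have n4' : w2' ≠ u2' := fun h1 => fne' (by rw [← fw', h1, fu'])
    let θ : Flag G → Flag G' := fun x =>
      if x = u1 then u1' else if x = u2 then u2' else if x = w1 then w1' else w2'
    have t1 : θ u1 = u1' := if_pos rfl
    have t2 : θ u2 = u2' := by
      show (if u2 = u1 then u1' else if u2 = u2 then u2' else if u2 = w1 then w1' else w2') = u2'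
      rw [if_neg nu, if_pos rfl]
    have t3 : θ w1 = w1' := by
      show (if w1 = u1 then u1' else if w1 = u2 then u2' else if w1 = w1 then w1' else w2') = w1'
      rw [if_neg n1, if_neg n2, if_pos rfl]
    have t4 : θ w2 = w2' := by
      show (if w2 = u1 then u1' else if w2 = u2 then u2' else if w2 = w1 then w1' else w2') = w2'
      rw [if_neg n3, if_neg n4, if_neg nw]
    refine ⟨θ, rdH_same A A' L L' θ h h' ?_ ?_ ?_ ?_ ?_⟩
    · intro p hp
      rcases all p hp with rfl | rfl | rfl | rfl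
      · rw [t1]; exact hu1'
      · rw [t2]; exact hu2'
      · rw [t3]; exact hw1'
      · rw [t4]; exact hw2'
    · intro p q hp hq hpq
      rcases all p hp with h1 | h1 | h1 | h1 <;> rcases all q hq with h2 | h2 | h2 | h2 <;>
        rw [h1, h2] at hpq ⊢ <;> simp only [t1, t2, t3, t4] at hpq <;> exfalso
      · exact nu' hpq.symm
      · exact n1' hpq.symm
      · exact n3' hpq.symm
      · exact nu' hpq
      · exact n2' hpq.symm
      · exact n4' hpq.symm
      · exact n1' hpq
      · exact n2' hpq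
      · exact nw' hpq.symm
      · exact n3' hpq
      · exact n4' hpq
      · exact nw' hpq
    · intro q hq
      rcases all' q hq with rfl | rfl | rfl | rfl
      · exact ⟨u1, hu1, t1⟩
      · exact ⟨u2, hu2, t2⟩
      · exact ⟨w1, hw1, t3⟩
      · exact ⟨w2, hw2, t4⟩
    · intro p hp
      rcases all p hp with rfl | rfl | rfl | rfl
      · rw [t1]; exact hu1f
      · rw [t2, fu', fu]; exact hu1f
      · rw [t3]; exact fww
      · rw [t4, fw', fw]; exact fww
    · intro p q hp hq hpq
      rcases all p hp with h1 | h1 | h1 | h1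
      · rw [h1] at hpq ⊢
        rcases U1 q hq hpq with h2 | h2
        · rw [h2]; exact Relation.EqvGen.refl _
        · rw [h2, t1, t3]; exact F1'
      · rw [h1] at hpq ⊢
        rcases U2 q hq hpq with h2 | h2
        · rw [h2]; exact Relation.EqvGen.refl _
        · rw [h2, t2, t4]; exact F2''
      · rw [h1] at hpq ⊢
        rcases U1 q hq (Relation.EqvGen.trans _ _ _ F1 hpq) with h2 | h2
        · rw [h2, t1, t3]; exact Relation.EqvGen.symm _ _ F1'
        · rw [h2]; exact Relation.EqvGen.refl _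
      · rw [h1] at hpq ⊢
        rcases U2 q hq (Relation.EqvGen.trans _ _ _ F2' hpq) with h2 | h2
        · rw [h2, t2, t4]; exact Relation.EqvGen.symm _ _ F2''
        · rw [h2]; exact Relation.EqvGen.refl _
  · push Not at hex
    obtain ⟨u2, nu, hu2, fu, -, hat⟩ := dsc_at A L h u1 hu1
    obtain ⟨u2', nu', hu2', fu', -, hat'⟩ := dsc_at A' L' h' u1' hu1'
    have all : ∀ r, Um A L r → r = u1 ∨ r = u2 := fun r hr => hat r hr (hex r hr)
    have all' : ∀ r, Um A' L' r → r = u1' ∨ r = u2' := by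
      intro r hr
      refine hat' r hr ?_
      obtain ⟨s, hs, hsf⟩ := (hatt r.1.fst).2 ⟨r, hr, rfl⟩
      rw [← hsf, hex s hs, hu1f]
    have F' : Relation.EqvGen (rF A' L') u1' u2' := by
      obtain ⟨q, hqn, hq, hqF, -, -⟩ := dsc_face A' L' h' u1' hu1'
      rcases all' q hq with h1 | h1
      · exact absurd h1 hqn
      · rw [← h1]; exact hqF
    let θ : Flag G → Flag G' := fun x => if x = u1 then u1' else u2'
    have t1 : θ u1 = u1' := if_pos rfl
    have t2 : θ u2 = u2' := if_neg nu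
    refine ⟨θ, rdH_same A A' L L' θ h h' ?_ ?_ ?_ ?_ ?_⟩
    · intro p hp
      rcases all p hp with rfl | rfl
      · rw [t1]; exact hu1'
      · rw [t2]; exact hu2'
    · intro p q hp hq hpq
      rcases all p hp with h1 | h1 <;> rcases all q hq with h2 | h2 <;>
        rw [h1, h2] at hpq ⊢ <;> simp only [t1, t2] at hpq <;> exfalso
      · exact nu' hpq.symm
      · exact nu' hpq
    · intro q hq
      rcases all' q hq with rfl | rfl
      · exact ⟨u1, hu1, t1⟩
      · exact ⟨u2, hu2, t2⟩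
    · intro p hp
      rcases all p hp with rfl | rfl
      · rw [t1]; exact hu1f
      · rw [t2, fu', fu]; exact hu1f
    · intro p q hp hq hpq
      rcases all p hp with h1 | h1 <;> rcases all q hq with h2 | h2 <;> rw [h1, h2] <;>
        simp only [t1, t2]
      · exact Relation.EqvGen.refl _
      · exact F'
      · exact Relation.EqvGen.symm _ _ F'
      · exact Relation.EqvGen.refl _

theorem swap_dsc (A : Finset G.edgeSet) (A' : Finset G'.edgeSet) (hO : Out A A') (M : GMap G) (hM : Dsc A (part A M))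
    (L' : Flag G' → Flag G') (hL' : Dsc A' L') (ha : att A (part A M) = att A' L') :
    ∃ M' : GMap G', (∀ p, part A' M' p = L' p) ∧ OutC A M M' ∧ egs M' = egs M ∧ (M.Orientable → M'.Orientable) := by
  obtain ⟨θ, hs⟩ := rdH_theta A A' (part A M) L' hM hL' ha
  obtain ⟨M', h1, h2, h3⟩ := xexch0 A A' hO M L' θ hL'.om hs
  refine ⟨M', h1, h2, ?_, xexch_ori A A' hO M M' L' θ hL'.om hs h1 h2 h3⟩
  have e1 := xexch_face A A' hO M M' L' θ hL'.om hs h1 h2 h3
  have e2 := vs_tv A (part A M) hM.om hM.run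
  have e3 := vs_tv A' L' hL'.om hL'.run
  have e4 := nis_eq A A' hO (part A M) L' hM.om hL'.om ha
  have e5 := card_eq A A' hO
  have e6 := hM.chi
  have e7 := hL'.chi
  unfold chiL at e6 e7
  unfold egs
  rw [e2] at e6
  rw [e3] at e7
  omega

end Pool.Agent.FGT
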