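import Pool.Agent.FGT.RdDef

/-!
# FGT-RdI: swapped maps are near

With `bk = ∅`: a flag `p'` outside `D2` has the value of a flag `p` outside `D1` (`Out`); if `p` is not a kept flag, then
`M1.nxt p` is in `mix D1 M1`, so there are at most `(mix D1 M1).card` such flags.
-/

set_option autoImplicit false

open Finset
open scoped Classical

namespace Pool.Agent.FGT

open Pool.Agent.Helper35.OG (Flag GMap across side)
open Pool.Agent.BEO (F2 ed rp cyc ev bdF nb)
open Pool.Agent.BEO (frm)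

variable {V : Type} {G1 G2 : SimpleGraph V} [Fintype V]

omit [Fintype V] in
private lemma ri_fv_inj {G : SimpleGraph V} {p q : Flag G} (h : fv p = fv q) : p = q := by
  rcases p with ⟨d, b⟩
  rcases q with ⟨d', b'⟩
  simp only [fv, Prod.mk.injEq] at h
  obtain ⟨h1, h2⟩ := h
  have h3 : d = d' := SimpleGraph.Dart.ext _ _ h1
  rw [h3, h2]

omit [Fintype V] in
/-- a flag over an edge of another graph -/
private lemma ri_lift {G G' : SimpleGraph V} (p : Flag G) (f : G'.edgeSet) (h : f.1 = (ed p).1) :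
    ∃ p' : Flag G', fv p' = fv p ∧ ed p' = f := by
  have hadj : G'.Adj p.1.fst p.1.snd := by
    have h1 := f.2
    rw [h] at h1
    exact h1
  refine ⟨(⟨p.1.toProd, hadj⟩, p.2), rfl, ?_⟩
  apply Subtype.ext
  rw [h]
  rfl

theorem near_of (M1 : GMap G1) (D1 : Finset G1.edgeSet) (M2 : GMap G2) (D2 : Finset G2.edgeSet) (hO : Out D1 D2)
    (hC : OutC D1 M1 M2) (L2 : Flag G2 → Flag G2) (hL : ∀ p, L2 p ≠ p → M2.nxt p = L2 p)
    (k : ℕ) (hk : (univ.filter fun p : Flag G2 => ed p ∈ D2 ∧ L2 p = p).card ≤ k)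
    (hm : k + (mix D1 M1).card ≤ 12) : Near M1 D1 M2 L2 := by
  refine ⟨∅, by simp, ?_, hL, ?_⟩
  · rintro p ⟨h1, h2, -, -⟩
    obtain ⟨f, hf, -⟩ := (hO (ed p).1).1 ⟨ed p, rfl, h1⟩
    obtain ⟨p', hp', -⟩ := ri_lift p f hf
    exact ⟨p', hp', hC p p' h1 h2 hp'⟩
  · set S := univ.filter fun p' : Flag G2 => L2 p' = p' ∧ ¬ ∃ p, Kp M1 D1 ∅ p ∧ fv p' = fv p with hS
    have h1 : (S.filter fun p' => ed p' ∈ D2).card ≤ k := by
      refine le_trans (Finset.card_le_card ?_) hk
      intro p' hp'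
      rw [Finset.mem_filter, hS, Finset.mem_filter] at hp'
      rw [Finset.mem_filter]
      exact ⟨Finset.mem_univ _, hp'.2, hp'.1.2.1⟩
    have h2 : (S.filter fun p' => ed p' ∉ D2).card ≤ (mix D1 M1).card := by
      refine Finset.card_le_card_of_forall_subsingleton (fun p' q => fv (M1.nxt q) = fv p') ?_ ?_
      · intro p' hp'
        rw [Finset.mem_filter, hS, Finset.mem_filter] at hp'
        obtain ⟨⟨-, -, hn⟩, ho⟩ := hp'
        obtain ⟨f, hf, hfD⟩ := (hO (ed p').1).2 ⟨ed p', rfl, ho⟩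
        obtain ⟨p, hp, hpf⟩ := ri_lift p' f hf
        have hpD : ed p ∉ D1 := by rw [hpf]; exact hfD
        refine ⟨M1.nxt p, ?_, ?_⟩
        · unfold mix
          rw [Finset.mem_filter]
          refine ⟨Finset.mem_univ _, ?_, ?_⟩
          · by_contra hc
            exact hn ⟨p, ⟨hpD, hc, by simp, by simp⟩, hp.symm⟩
          · rw [M1.nxt_nxt]
            exact hpD
        · rw [M1.nxt_nxt]
          exact hp
      · rintro q - a ⟨-, ha⟩ b ⟨-, hb⟩
        exact ri_fv_inj (ha.symm.trans hb)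
    have h3 := Finset.card_filter_add_card_filter_not (s := S) (fun p' : Flag G2 => ed p' ∈ D2)
    omega

end Pool.Agent.FGT
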