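import Pool.Agent.FGT.RdDef
import Pool.Agent.FGT.ExA

/-!
# FGT-RdL: inserting a pendant edge

PLAN. Let `r` be the flag at `v` over the new edge with `r.2 = true`, `y' = M'.nxt y`. `M2.nxt`: the flags of `G'` as in `M'`, except `y ↔ r`, `y' ↔ side r`; at `w`: `across r ↔ side (across r)`. The faces: the new flags belong to the face of `y` (a bijection of the faces). `nis` has one more element, `w`; one more edge. Orientability: a colouring
`κ` of the flags of `G'` extends: `κ r = κ y'`, `κ (side r) = κ y`, (`κ y ≠ κ y'`), `κ (across r) = κ r + 1`, .. . `Dsc`: the open flags of `{vw}` are `r`, `side r` (`v` has another edge, the corner of `r` is `{r, y}`), at `w` one closed run; `chiL = 2 - 1 + 0` (the class of `r` under `rF` is the whole edge and has open flags).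
-/

set_option autoImplicit false

open Finset
open scoped Classical

namespace Pool.Agent.FGT

open Pool.Agent.Helper35.OG (Flag GMap across side)
open Pool.Agent.BEO (F2 ed rp cyc ev bdF nb)
open Pool.Agent.BEO (frm)

variable {V : Type} {G' G2 : SimpleGraph V} [Fintype V]

open Pool.Agent.Helper35.OG (across_across side_side across_ne side_ne face_nxt face_across)
open Pool.Agent.BEO (ed_side ed_across)

section aux

variable {v w : V}

omit [Fintype V] in
private theorem pd_inj (h : G' ≤ G2) {p q : Flag G'} (hpq : fi h p = fi h q) : p = q := by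
  rcases p with ⟨⟨x, hx⟩, s⟩
  rcases q with ⟨⟨y, hy⟩, t⟩
  have h1 := congrArg (fun r : Flag G2 => r.1.toProd) hpq
  have h2 := congrArg (fun r : Flag G2 => r.2) hpq
  simp only [fi] at h1 h2
  subst h1
  subst h2
  rfl

omit [Fintype V] in
private theorem pd_fvinj {p q : Flag G2} (h : fv p = fv q) : p = q := by
  obtain ⟨d, s⟩ := p
  obtain ⟨d', s'⟩ := q
  have h1 : d.toProd = d'.toProd := congrArg Prod.fst h
  have h2 : s = s' := congrArg Prod.snd h
  rw [SimpleGraph.Dart.ext _ _ h1, h2]

omit [Fintype V] in
private theorem pd_cases (h : G' ≤ G2)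
    (h2 : ∀ u u', G2.Adj u u' ↔ G'.Adj u u' ∨ (u = v ∧ u' = w) ∨ (u = w ∧ u' = v)) (r : Flag G2)
    (hr1 : r.1.fst = v) (hr2 : r.1.snd = w) (q : Flag G2) :
    (∃ p, q = fi h p) ∨ q = r ∨ q = side r ∨ q = across r ∨ q = side (across r) := by
  have hq := (h2 _ _).1 q.1.adj
  rcases hq with hq | ⟨h3, h4⟩ | ⟨h3, h4⟩
  · left
    exact ⟨(⟨q.1.toProd, hq⟩, q.2), rfl⟩
  · right
    have h5 : q.1 = r.1 := SimpleGraph.Dart.ext _ _ (Prod.ext (h3.trans hr1.symm) (h4.trans hr2.symm))
    by_cases h6 : q.2 = r.2
    · left
      exact Prod.ext h5 h6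
    · right; left
      refine Prod.ext h5 ?_
      show q.2 = !r.2
      cases h7 : q.2 <;> cases h8 : r.2 <;> simp_all
  · right; right; right
    have h5 : q.1 = r.1.symm := SimpleGraph.Dart.ext _ _ (Prod.ext (h3.trans hr2.symm) (h4.trans hr1.symm))
    by_cases h6 : q.2 = !r.2
    · left
      exact Prod.ext h5 h6
    · right
      refine Prod.ext h5 ?_
      show q.2 = !(!r.2)
      cases h7 : q.2 <;> cases h8 : r.2 <;> simp_all

/-- a function on the flags with given values -/
private theorem pd_fun {X : Type} (h : G' ≤ G2) (r : Flag G2) (hr1 : r.1.fst = v) (hr2 : r.1.snd = w)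
    (hvw : v ≠ w) (hn : ¬ G'.Adj v w) (f : Flag G' → X) (a b c d : X) :
    ∃ g : Flag G2 → X, (∀ p, g (fi h p) = f p) ∧ g r = a ∧ g (side r) = b ∧ g (across r) = c ∧
      g (side (across r)) = d := by
  have hfst : (across r).1.fst = w := hr2
  have hfs : (side r).1.fst = v := hr1
  have hfsa : (side (across r)).1.fst = w := hr2
  have e1 : side r ≠ r := side_ne r
  have e2 : across r ≠ r := across_ne r
  have e3 : across r ≠ side r := fun h' => hvw (by
    have := congrArg (fun x : Flag G2 => x.1.fst) h'
    exact (hfst.symm.trans (this.trans hfs)).symm)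
  have e4 : side (across r) ≠ r := fun h' => hvw (by
    have := congrArg (fun x : Flag G2 => x.1.fst) h'
    exact (hfsa.symm.trans (this.trans hr1)).symm)
  have e5 : side (across r) ≠ side r := fun h' => hvw (by
    have := congrArg (fun x : Flag G2 => x.1.fst) h'
    exact (hfsa.symm.trans (this.trans hfs)).symm)
  have e6 : side (across r) ≠ across r := side_ne _
  have k1 : ∀ p : Flag G', fi h p ≠ r := fun p h' => hn (by
    have h3 := congrArg (fun x : Flag G2 => x.1.fst) h'
    have h4 := congrArg (fun x : Flag G2 => x.1.snd) h'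
    have h5 : p.1.fst = v := h3.trans hr1
    have h6 : p.1.snd = w := h4.trans hr2
    have h7 := p.1.adj
    rwa [h5, h6] at h7)
  have k2 : ∀ p : Flag G', fi h p ≠ side r := fun p h' => k1 (side p) (by
    show side (fi h p) = r
    rw [h', side_side])
  have k3 : ∀ p : Flag G', fi h p ≠ across r := fun p h' => k1 (across p) (by
    show across (fi h p) = r
    rw [h', across_across])
  have k4 : ∀ p : Flag G', fi h p ≠ side (across r) := fun p h' => k3 (side p) (by
    show side (fi h p) = across r
    rw [h', side_side])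
  refine ⟨fun q => if q = r then a else if q = side r then b else if q = across r then c
    else if q = side (across r) then d else if hq : ∃ p, fi h p = q then f (Classical.choose hq) else a,
    fun p => ?_, ?_, ?_, ?_, ?_⟩
  · have hq : ∃ p', fi h p' = fi h p := ⟨p, rfl⟩
    show (if fi h p = r then a else if fi h p = side r then b else if fi h p = across r then c
      else if fi h p = side (across r) then d else if hq : ∃ p', fi h p' = fi h p then f (Classical.choose hq) else a) = f p
    rw [if_neg (k1 p), if_neg (k2 p), if_neg (k3 p), if_neg (k4 p), dif_pos hq, pd_inj h (Classical.choose_spec hq)]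
  · exact if_pos rfl
  · show (if side r = r then a else if side r = side r then b else _) = b
    rw [if_neg e1, if_pos rfl]
  · show (if across r = r then a else if across r = side r then b else if across r = across r then c else _) = c
    rw [if_neg e2, if_neg e3, if_pos rfl]
  · show (if side (across r) = r then a else if side (across r) = side r then b else if side (across r) = across r then c
      else if side (across r) = side (across r) then d else _) = d
    rw [if_neg e4, if_neg e5, if_neg e6, if_pos rfl]

end aux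

theorem pend (v w : V) (hvw : v ≠ w) (hw : ∀ u, ¬ G'.Adj w u)
    (h2 : ∀ u u', G2.Adj u u' ↔ G'.Adj u u' ∨ (u = v ∧ u' = w) ∨ (u = w ∧ u' = v)) (M' : GMap G') (y : Flag G')
    (hy : y.1.fst = v) (e : G2.edgeSet) (he : e.1 = s(v, w)) :
    ∃ M2 : GMap G2, egs M2 = egs M' ∧ (M'.Orientable → M2.Orientable) ∧ Dsc {e} (part {e} M2) ∧
      att {e} (part {e} M2) = {v} ∧
      ∀ (p : Flag G') (p2 : Flag G2), p ≠ y → p ≠ M'.nxt y → fv p2 = fv p → fv (M2.nxt p2) = fv (M'.nxt p) := by
  have h : G' ≤ G2 := fun a b hab => (h2 a b).2 (Or.inl hab)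
  have hn : ¬ G'.Adj v w := fun h' => hw v h'.symm
  have hadj : G2.Adj v w := (h2 v w).2 (Or.inr (Or.inl ⟨rfl, rfl⟩))
  obtain ⟨r, hr1, hr2⟩ : ∃ r : Flag G2, r.1.fst = v ∧ r.1.snd = w := ⟨(⟨(v, w), hadj⟩, true), rfl, rfl⟩
  have hc := pd_cases h h2 r hr1 hr2
  have hfa : (across r).1.fst = w := hr2
  have hfs : (side r).1.fst = v := hr1
  have hfsa : (side (across r)).1.fst = w := hr2
  have hy'v : (M'.nxt y).1.fst = v := (M'.nxt_fst y).trans hy
  have hyy : M'.nxt y ≠ y := M'.nxt_ne y
  have hfiw : ∀ p : Flag G', (fi h p).1.fst ≠ w := fun p h' => hw p.1.snd (by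
    have h3 : p.1.fst = w := h'
    have h4 := p.1.adj
    rwa [h3] at h4)
  have k1 : ∀ p : Flag G', fi h p ≠ r := fun p h' => hn (by
    have h3 := congrArg (fun x : Flag G2 => x.1.fst) h'
    have h4 := congrArg (fun x : Flag G2 => x.1.snd) h'
    have h5 : p.1.fst = v := h3.trans hr1
    have h6 : p.1.snd = w := h4.trans hr2
    have h7 := p.1.adj
    rwa [h5, h6] at h7)
  obtain ⟨nx, n0, n1, n2, n3, n4⟩ := pd_fun h r hr1 hr2 hvw hn
    (fun p => if p = y then r else if p = M'.nxt y then side r else fi h (M'.nxt p)) (fi h y) (fi h (M'.nxt y))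
    (side (across r)) (across r)
  have m1 : nx (fi h y) = r := by rw [n0, if_pos rfl]
  have m2 : nx (fi h (M'.nxt y)) = side r := by rw [n0, if_neg hyy, if_pos rfl]
  have m3 : ∀ p, p ≠ y → p ≠ M'.nxt y → nx (fi h p) = fi h (M'.nxt p) := by
    intro p hp1 hp2
    rw [n0, if_neg hp1, if_neg hp2]
  have hstep : ∀ p, p ≠ y → p ≠ M'.nxt y → M'.nxt p ≠ y ∧ M'.nxt p ≠ M'.nxt y := by
    intro p hp1 hp2
    refine ⟨fun h' => hp2 ?_, fun h' => hp1 ?_⟩
    · rw [← h', M'.nxt_nxt]
    · rw [← M'.nxt_nxt p, h', M'.nxt_nxt]
  have hnn : ∀ q, nx (nx q) = q := by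
    intro q
    rcases hc q with ⟨p, rfl⟩ | rfl | rfl | rfl | rfl
    · by_cases hp1 : p = y
      · rw [hp1, m1, n1]
      · by_cases hp2 : p = M'.nxt y
        · rw [hp2, m2, n2]
        · obtain ⟨h3, h4⟩ := hstep p hp1 hp2
          rw [m3 p hp1 hp2, m3 _ h3 h4, M'.nxt_nxt]
    · rw [n1, m1]
    · rw [n2, m2]
    · rw [n3, n4]
    · rw [n4, n3]
  have hnf : ∀ q, (nx q).1.fst = q.1.fst := by
    intro q
    rcases hc q with ⟨p, rfl⟩ | rfl | rfl | rfl | rfl
    · by_cases hp1 : p = y
      · rw [hp1, m1, hr1]
        exact hy.symm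
      · by_cases hp2 : p = M'.nxt y
        · rw [hp2, m2, hfs]
          exact hy'v.symm
        · rw [m3 p hp1 hp2]
          exact M'.nxt_fst p
    · rw [n1, hr1]
      exact hy
    · rw [n2, hfs]
      exact hy'v
    · rw [n3]
      rfl
    · rw [n4]
      rfl
  have hne : ∀ q, nx q ≠ q := by
    intro q
    rcases hc q with ⟨p, rfl⟩ | rfl | rfl | rfl | rfl
    · by_cases hp1 : p = y
      · rw [hp1, m1]
        exact fun h' => k1 y h'.symm
      · by_cases hp2 : p = M'.nxt y
        · rw [hp2, m2]
          intro h'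
          apply k1 (side (M'.nxt y))
          show side (fi h (M'.nxt y)) = r
          rw [← h', side_side]
        · rw [m3 p hp1 hp2]
          exact fun h' => M'.nxt_ne p (pd_inj h h')
    · rw [n1]
      exact k1 y
    · rw [n2]
      intro h'
      apply k1 (side (M'.nxt y))
      show side (fi h (M'.nxt y)) = r
      rw [h', side_side]
    · rw [n3]
      exact side_ne _
    · rw [n4]
      exact fun h' => side_ne (across r) h'.symm
  have R1 : Relation.EqvGen (fun x z => z = nx x ∨ z = side x) (fi h y) r :=
    Relation.EqvGen.rel _ _ (Or.inl m1.symm)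
  have R2 : Relation.EqvGen (fun x z => z = nx x ∨ z = side x) r (side r) :=
    Relation.EqvGen.rel _ _ (Or.inr rfl)
  have R3 : Relation.EqvGen (fun x z => z = nx x ∨ z = side x) (side r) (fi h (M'.nxt y)) :=
    Relation.EqvGen.rel _ _ (Or.inl n2.symm)
  have hmap : ∀ p q : Flag G', Relation.EqvGen (fun x z => z = M'.nxt x ∨ z = side x) p q →
      Relation.EqvGen (fun x z => z = nx x ∨ z = side x) (fi h p) (fi h q) := by
    intro p q hpq
    induction hpq with
    | rel x z hxz =>
      rcases hxz with rfl | rfl
      · by_cases hp1 : x = y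
        · rw [hp1]
          exact R1.trans _ _ _ (R2.trans _ _ _ R3)
        · by_cases hp2 : x = M'.nxt y
          · rw [hp2, M'.nxt_nxt]
            exact (R1.trans _ _ _ (R2.trans _ _ _ R3)).symm
          · exact Relation.EqvGen.rel _ _ (Or.inl (m3 x hp1 hp2).symm)
      · exact Relation.EqvGen.rel _ _ (Or.inr rfl)
    | refl x => exact Relation.EqvGen.refl _
    | symm x z _ ih => exact Relation.EqvGen.symm _ _ ih
    | trans x z t _ _ ih1 ih2 => exact Relation.EqvGen.trans _ _ _ ih1 ih2
  have hv : ∀ q : Flag G2, q.1.fst = v →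
      Relation.EqvGen (fun x z => z = nx x ∨ z = side x) q (fi h y) := by
    intro q hq
    rcases hc q with ⟨p, rfl⟩ | rfl | rfl | rfl | rfl
    · exact hmap p y (M'.conn p y (Eq.trans hq hy.symm))
    · exact R1.symm
    · exact R2.symm.trans _ _ _ R1.symm
    · exact absurd (hq.symm.trans hfa) hvw
    · exact absurd (hq.symm.trans hfsa) hvw
  have hwc : ∀ q : Flag G2, q.1.fst = w →
      Relation.EqvGen (fun x z => z = nx x ∨ z = side x) q (across r) := by
    intro q hq
    rcases hc q with ⟨p, rfl⟩ | rfl | rfl | rfl | rfl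
    · exact absurd hq (hfiw p)
    · exact absurd (hr1.symm.trans hq) hvw
    · exact absurd (hfs.symm.trans hq) hvw
    · exact Relation.EqvGen.refl _
    · exact Relation.EqvGen.symm _ _ (Relation.EqvGen.rel _ _ (Or.inr rfl))
  have hconn : ∀ p q : Flag G2, p.1.fst = q.1.fst →
      Relation.EqvGen (fun x z => z = nx x ∨ z = side x) p q := by
    intro p q hpq
    by_cases hpv : p.1.fst = v
    · exact (hv p hpv).trans _ _ _ (hv q (hpq.symm.trans hpv)).symm
    · by_cases hpw : p.1.fst = w
      · exact (hwc p hpw).trans _ _ _ (hwc q (hpq.symm.trans hpw)).symm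
      · rcases hc p with ⟨p', rfl⟩ | rfl | rfl | rfl | rfl
        · rcases hc q with ⟨q', rfl⟩ | rfl | rfl | rfl | rfl
          · exact hmap p' q' (M'.conn p' q' hpq)
          · exact absurd (hpq.trans hr1) hpv
          · exact absurd (hpq.trans hfs) hpv
          · exact absurd (hpq.trans hfa) hpw
          · exact absurd (hpq.trans hfsa) hpw
        · exact absurd hr1 hpv
        · exact absurd hfs hpv
        · exact absurd hfa hpw
        · exact absurd hfsa hpw
  obtain ⟨M2, hM⟩ : ∃ M2 : GMap G2, M2.nxt = nx := ⟨⟨nx, hnn, hne, hnf, hconn⟩, rfl⟩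
  have hedr : ed r = e := by
    apply Subtype.ext
    rw [he]
    show s(r.1.fst, r.1.snd) = s(v, w)
    rw [hr1, hr2]
  have hedfi : ∀ p : Flag G', ed (fi h p) ≠ e := by
    intro p hp
    have h3 : s(p.1.fst, p.1.snd) = s(v, w) := by
      rw [← he, ← hp]
      rfl
    have h4 : G'.Adj v w := by
      rw [← SimpleGraph.mem_edgeSet, ← h3]
      exact p.1.adj
    exact hn h4
  have hmem : ∀ q : Flag G2, ed q ∈ ({e} : Finset G2.edgeSet) ↔
      (q = r ∨ q = side r ∨ q = across r ∨ q = side (across r)) := by
    intro q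
    rw [mem_singleton]
    constructor
    · intro hq
      rcases hc q with ⟨p, rfl⟩ | hq'
      · exact absurd hq (hedfi p)
      · exact hq'
    · rintro (rfl | rfl | rfl | rfl)
      · exact hedr
      · rw [ed_side, hedr]
      · rw [ed_across, hedr]
      · rw [ed_side, ed_across, hedr]
  have hpr : part {e} M2 r = r := by
    apply if_neg
    rintro ⟨-, h3⟩
    rw [hM, n1, mem_singleton] at h3
    exact hedfi _ h3
  have hps : part {e} M2 (side r) = side r := by
    apply if_neg
    rintro ⟨-, h3⟩
    rw [hM, n2, mem_singleton] at h3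
    exact hedfi _ h3
  have hpa : part {e} M2 (across r) = side (across r) := by
    have h3 : part {e} M2 (across r) = M2.nxt (across r) := by
      apply if_pos
      rw [hM, n3]
      exact ⟨(hmem _).2 (Or.inr (Or.inr (Or.inl rfl))), (hmem _).2 (Or.inr (Or.inr (Or.inr rfl)))⟩
    rw [h3, hM, n3]
  have hpsa : part {e} M2 (side (across r)) = across r := by
    have h3 : part {e} M2 (side (across r)) = M2.nxt (side (across r)) := by
      apply if_pos
      rw [hM, n4]
      exact ⟨(hmem _).2 (Or.inr (Or.inr (Or.inr rfl))), (hmem _).2 (Or.inr (Or.inr (Or.inl rfl)))⟩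
    rw [h3, hM, n4]
  have hUm : ∀ q, Um {e} (part {e} M2) q ↔ (q = r ∨ q = side r) := by
    intro q
    constructor
    · rintro ⟨h3, h4⟩
      rcases (hmem q).1 h3 with rfl | rfl | rfl | rfl
      · exact Or.inl rfl
      · exact Or.inr rfl
      · rw [hpa] at h4
        exact absurd h4 (side_ne _)
      · rw [hpsa] at h4
        exact absurd h4.symm (side_ne _)
    · rintro (rfl | rfl)
      · exact ⟨(hmem _).2 (Or.inl rfl), hpr⟩
      · exact ⟨(hmem _).2 (Or.inr (Or.inl rfl)), hps⟩
  have hom : OMap {e} (part {e} M2) := omap_part {e} M2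
  refine ⟨M2, ?_, ?_, ⟨hom, ?_, ⟨r, (hUm r).2 (Or.inl rfl)⟩, ?_, ⟨v, w, ?_⟩, ?_⟩, ?_, ?_⟩
  · -- the Euler genus
    have c1 : nis G2 = insert w (nis G') := by
      ext x
      rw [mem_insert]
      unfold nis
      rw [mem_filter, mem_filter]
      constructor
      · rintro ⟨-, u, hu⟩
        rcases (h2 x u).1 hu with h3 | ⟨h3, -⟩ | ⟨h3, -⟩
        · exact Or.inr ⟨mem_univ _, u, h3⟩
        · right
          refine ⟨mem_univ _, y.1.snd, ?_⟩
          have h4 := y.1.adj
          have h5 : y.1.toProd.1 = x := hy.trans h3.symm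
          rwa [h5] at h4
        · exact Or.inl h3
      · rintro (rfl | ⟨-, u, hu⟩)
        · exact ⟨mem_univ _, v, hadj.symm⟩
        · exact ⟨mem_univ _, u, h hu⟩
    have c2 : w ∉ nis G' := by
      unfold nis
      rw [mem_filter]
      rintro ⟨-, u, hu⟩
      exact hw u hu
    have c3 : (nis G2).card = (nis G').card + 1 := by rw [c1, card_insert_of_notMem c2]
    have c4 : Nat.card G2.edgeSet = Nat.card G'.edgeSet + 1 := by
      have h3 : G2.edgeSet = insert s(v, w) G'.edgeSet := by
        ext f
        rw [Set.mem_insert_iff]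
        induction f using Sym2.ind with
        | _ a b =>
          rw [SimpleGraph.mem_edgeSet, SimpleGraph.mem_edgeSet, h2, Sym2.eq_iff]
          constructor
          · rintro (h4 | h4 | h4)
            · exact Or.inr h4
            · exact Or.inl (Or.inl h4)
            · exact Or.inl (Or.inr h4)
          · rintro ((h4 | h4) | h4)
            · exact Or.inr (Or.inl h4)
            · exact Or.inr (Or.inr h4)
            · exact Or.inl h4
      have h4 : s(v, w) ∉ G'.edgeSet := hn
      rw [h3, Nat.card_coe_set_eq, Nat.card_coe_set_eq]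
      exact Set.ncard_insert_of_notMem h4 (Set.toFinite _)
    have c5 : Nat.card M2.Face = Nat.card M'.Face := by
      have w1 : M2.face (side r) = M2.face r := by
        have h3 : M2.face (across (side r)) = M2.face (across r) := by
          have h4 := face_nxt M2 (across r)
          rw [hM, n3] at h4
          exact h4
        rw [face_across, face_across] at h3
        exact h3
      have w2 : M2.face (fi h y) = M2.face r := by
        have h4 := face_nxt M2 r
        rw [hM, n1] at h4
        exact h4
      have w3 : M2.face (fi h (M'.nxt y)) = M2.face r := by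
        have h4 := face_nxt M2 (side r)
        rw [hM, n2] at h4
        exact h4.trans w1
      have hwell : ∀ p q : Flag G', (q = M'.nxt p ∨ q = across p) → M2.face (fi h p) = M2.face (fi h q) := by
        rintro p q (rfl | rfl)
        · by_cases hp1 : p = y
          · rw [hp1, w2, w3]
          · by_cases hp2 : p = M'.nxt y
            · rw [hp2, M'.nxt_nxt, w2, w3]
            · have h4 := face_nxt M2 (fi h p)
              rw [hM, m3 p hp1 hp2] at h4
              exact h4.symm
        · exact (face_across M2 (fi h p)).symm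
      obtain ⟨g0, q0, q1, q2, q3, q4⟩ := pd_fun h r hr1 hr2 hvw hn (fun p => M'.face p) (M'.face y) (M'.face y)
        (M'.face y) (M'.face y)
      have hg : ∀ p q : Flag G2, (q = M2.nxt p ∨ q = across p) → g0 p = g0 q := by
        rintro p q (rfl | rfl)
        · rw [hM]
          rcases hc p with ⟨p, rfl⟩ | rfl | rfl | rfl | rfl
          · by_cases hp1 : p = y
            · rw [hp1, m1, q0, q1]
            · by_cases hp2 : p = M'.nxt y
              · rw [hp2, m2, q0, q2, face_nxt]
              · rw [m3 p hp1 hp2, q0, q0, face_nxt]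
          · rw [n1, q0, q1]
          · rw [n2, q0, q2, face_nxt]
          · rw [n3, q3, q4]
          · rw [n4, q3, q4]
        · rcases hc p with ⟨p, rfl⟩ | rfl | rfl | rfl | rfl
          · have h3 : across (fi h p) = fi h (across p) := rfl
            rw [h3, q0, q0, face_across]
          · rw [q1, q3]
          · have h3 : across (side r) = side (across r) := rfl
            rw [h3, q2, q4]
          · rw [across_across, q3, q1]
          · have h3 : across (side (across r)) = side (across (across r)) := rfl
            rw [h3, across_across, q4, q2]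
      let F : M'.Face → M2.Face := Quot.lift (fun p => M2.face (fi h p)) hwell
      let K : M2.Face → M'.Face := Quot.lift g0 hg
      symm
      apply Nat.card_eq_of_bijective F
      constructor
      · intro a b hab
        obtain ⟨p, rfl⟩ := Quot.exists_rep a
        obtain ⟨q, rfl⟩ := Quot.exists_rep b
        have h3 : K (M2.face (fi h p)) = K (M2.face (fi h q)) := congrArg K hab
        have h4 : g0 (fi h p) = g0 (fi h q) := h3
        rw [q0, q0] at h4
        exact h4
      · intro b
        obtain ⟨q, rfl⟩ := Quot.exists_rep b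
        rcases hc q with ⟨p, rfl⟩ | rfl | rfl | rfl | rfl
        · exact ⟨M'.face p, rfl⟩
        · exact ⟨M'.face y, w2⟩
        · exact ⟨M'.face y, w2.trans w1.symm⟩
        · exact ⟨M'.face y, w2.trans (face_across M2 r).symm⟩
        · refine ⟨M'.face y, w2.trans ?_⟩
          have h4 := face_nxt M2 (across r)
          rw [hM, n3, face_across] at h4
          exact h4.symm
    unfold egs
    rw [c3, c4, c5]
    push_cast
    ring
  · -- orientability
    rintro ⟨κ, hκ1, hκ2⟩
    have t0 : ∀ a : ZMod 2, a + 1 ≠ a := by decide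
    have t1 : ∀ a b : ZMod 2, a ≠ b → a = b + 1 := by decide
    have t2 : κ (M'.nxt y) = κ y + 1 := t1 _ _ (hκ2 y)
    obtain ⟨κ2, q0, q1, q2, q3, q4⟩ := pd_fun h r hr1 hr2 hvw hn κ (κ y + 1) (κ y) (κ y) (κ y + 1)
    refine ⟨κ2, fun q => ?_, fun q => ?_⟩
    · rcases hc q with ⟨p, rfl⟩ | rfl | rfl | rfl | rfl
      · have h3 : across (fi h p) = fi h (across p) := rfl
        have h4 : side (fi h p) = fi h (side p) := rfl
        rw [h3, h4, q0, q0, q0]
        exact hκ1 p
      · rw [q1, q2, q3]
        exact ⟨(t0 _).symm, (t0 _).symm⟩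
      · have h3 : across (side r) = side (across r) := rfl
        rw [h3, side_side, q1, q2, q4]
        exact ⟨t0 _, t0 _⟩
      · rw [across_across, q1, q3, q4]
        exact ⟨t0 _, t0 _⟩
      · have h3 : across (side (across r)) = side (across (across r)) := rfl
        rw [h3, across_across, side_side, q2, q3, q4]
        exact ⟨(t0 _).symm, (t0 _).symm⟩
    · rw [hM]
      rcases hc q with ⟨p, rfl⟩ | rfl | rfl | rfl | rfl
      · by_cases hp1 : p = y
        · rw [hp1, m1, q0, q1]
          exact t0 _
        · by_cases hp2 : p = M'.nxt y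
          · rw [hp2, m2, q0, q2, t2]
            exact (t0 _).symm
          · rw [m3 p hp1 hp2, q0, q0]
            exact hκ2 p
      · rw [n1, q0, q1]
        exact (t0 _).symm
      · rw [n2, q0, q2, t2]
        exact t0 _
      · rw [n3, q3, q4]
        exact t0 _
      · rw [n4, q3, q4]
        exact (t0 _).symm
  · -- connected
    intro a ha b hb
    rw [mem_singleton] at ha hb
    rw [ha, hb]
    exact Relation.EqvGen.refl _
  · -- runs
    intro p q hp hq hpq
    rcases (hUm p).1 hp with rfl | rfl <;> rcases (hUm q).1 hq with rfl | rfl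
    · exact Relation.EqvGen.refl _
    · exact Relation.EqvGen.rel _ _ ⟨hp.1, Or.inr rfl⟩
    · exact Relation.EqvGen.symm _ _ (Relation.EqvGen.rel _ _ ⟨hq.1, Or.inr rfl⟩)
    · exact Relation.EqvGen.refl _
  · intro p hp
    rcases (hUm p).1 hp with rfl | rfl
    · exact Or.inl hr1
    · exact Or.inl hfs
  · -- the Euler characteristic
    have mr : ed r ∈ ({e} : Finset G2.edgeSet) := (hmem _).2 (Or.inl rfl)
    have ms : ed (side r) ∈ ({e} : Finset G2.edgeSet) := (hmem _).2 (Or.inr (Or.inl rfl))
    have ma : ed (across r) ∈ ({e} : Finset G2.edgeSet) := (hmem _).2 (Or.inr (Or.inr (Or.inl rfl)))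
    have msa : ed (side (across r)) ∈ ({e} : Finset G2.edgeSet) := (hmem _).2 (Or.inr (Or.inr (Or.inr rfl)))
    have d1 : vsL {e} (part {e} M2) = 2 := by
      unfold vsL
      rw [Nat.card_eq_two_iff]
      refine ⟨⟨Quot.mk _ r, r, rfl, mr⟩, ⟨Quot.mk _ (across r), across r, rfl, ma⟩, ?_, ?_⟩
      · intro h3
        have h4 : Quot.mk (rV {e} (part {e} M2)) r = Quot.mk _ (across r) := congrArg Subtype.val h3
        have h5 := Quot.eqvGen_exact h4
        have h6 : r.1.fst = (across r).1.fst := by
          refine Pool.Agent.Helper35.OG.eqvGen_eq (fun x : Flag G2 => x.1.fst) ?_ h5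
          rintro a b ⟨-, h6 | h6⟩
          · rw [h6]
            exact (hom.fst a).symm
          · rw [h6]
            rfl
        exact hvw (hr1.symm.trans (h6.trans hfa))
      · rw [Set.eq_univ_iff_forall]
        rintro ⟨c, p, rfl, hp⟩
        rw [Set.mem_insert_iff, Set.mem_singleton_iff]
        rcases (hmem p).1 hp with rfl | rfl | rfl | rfl
        · exact Or.inl rfl
        · left
          apply Subtype.ext
          have h7 : rV {e} (part {e} M2) r (side r) := ⟨mr, Or.inr rfl⟩
          exact (@Quot.sound _ (rV {e} (part {e} M2)) _ _ h7).symm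
        · exact Or.inr rfl
        · right
          apply Subtype.ext
          have h7 : rV {e} (part {e} M2) (across r) (side (across r)) := ⟨ma, Or.inr rfl⟩
          exact (@Quot.sound _ (rV {e} (part {e} M2)) _ _ h7).symm
    have d2 : clo {e} (part {e} M2) = 0 := by
      unfold clo
      rw [Nat.card_eq_zero]
      left
      constructor
      rintro ⟨c, ⟨p, rfl, hp⟩, hc2⟩
      have s1 : Quot.mk (rF {e} (part {e} M2)) r = Quot.mk _ (across r) :=
        Quot.sound ⟨mr, Or.inr rfl⟩
      have s2 : Quot.mk (rF {e} (part {e} M2)) (across r) = Quot.mk _ (side (across r)) :=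
        Quot.sound ⟨ma, Or.inl hpa.symm⟩
      have hur : Um {e} (part {e} M2) r := (hUm r).2 (Or.inl rfl)
      have hus : Um {e} (part {e} M2) (side r) := (hUm _).2 (Or.inr rfl)
      rcases (hmem p).1 hp with rfl | rfl | rfl | rfl
      · exact hc2 _ hur rfl
      · exact hc2 _ hus rfl
      · exact hc2 _ hur s1
      · exact hc2 _ hur (s1.trans s2)
    unfold chiL
    rw [d1, d2, card_singleton]
    norm_num
  · -- attachments
    ext x
    unfold att
    rw [mem_filter, mem_singleton]
    constructor
    · rintro ⟨-, p, hp, rfl⟩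
      rcases (hUm p).1 hp with rfl | rfl
      · exact hr1
      · exact hfs
    · rintro rfl
      exact ⟨mem_univ _, r, (hUm r).2 (Or.inl rfl), hr1⟩
  · intro p p2 hp1 hp2 hpp
    have h3 : p2 = fi h p := pd_fvinj hpp
    rw [h3, hM, m3 p hp1 hp2]
    rfl

end Pool.Agent.FGT
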