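import Pool.Agent.FGT.DcDef
import Pool.Agent.FGT.SmA

/-!
# FGT-SmC: counting runs, closed faces and edges of a partition

PLAN. A flag `p` lies over exactly one member `A` of `B`; let `q = part A S p`: this defines an involution `P` on all flags (`P p = S.nxt p` if `p` is not mixed,
`P p = p` if `p` is mixed, i.e. in `mix A S` for the member `A` over which it lies). The runs of all members together are the classes of the flags
under `P`, `side`; the closed faces are the classes under `P`, `across` without mixed flags. `sm_vs`: at a vertex without mixed flags there is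
one class (`S.conn`); at a vertex `v` with mixed flags every class contains exactly two mixed flags (`two_ends` if it contains one; if it contained none
it would be closed under `nxt` and `side`, so would be the whole vertex); so the number of classes there is half of the number of mixed flags at `v`.
`sm_clo`: a face of `S` without mixed flags is one closed class, and a class without mixed flags is closed under `nxt` and `across`. `sm_even`: the mixed flags
over `A` are paired by `two_ends` (`L = part A S`, `s = side`).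
-/

set_option autoImplicit false

open Finset
open scoped Classical

namespace Pool.Agent.FGT

open Pool.Agent.Helper35.OG (Flag GMap across side)
open Pool.Agent.BEO (F2 ed rp cyc ev bdF nb)

/-! ### abstract lemmas -/

private theorem sc_mk {C : Type} (R : C → C → Prop) (x y : C) : Quot.mk R x = Quot.mk R y ↔ Relation.EqvGen R x y :=
  ⟨fun h => Quot.eqvGen_exact h, fun h => Quot.eqvGen_sound h⟩

/-- a set closed under a fixed-point free involution is even -/
private theorem sc_even {X : Type} (t : Finset X) (s : X → X) (h0 : ∀ x ∈ t, s x ∈ t) (h1 : ∀ x, s (s x) = x)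
    (h2 : ∀ x, s x ≠ x) : Even t.card := by
  have h3 : ∑ x ∈ t, (1 : ZMod 2) = 0 := by
    refine Finset.sum_involution (fun x _ => s x) (fun x _ => ?_) (fun x _ _ => h2 x) (fun x hx => h0 x hx) fun x _ => h1 x
    decide
  rw [Finset.sum_const, nsmul_one] at h3
  exact (ZMod.natCast_eq_zero_iff_even).1 h3

/-- the classes of the members of a partition -/
private theorem sc_part {X K : Type} (a : X → K) (R : X → X → Prop) (hR : ∀ x y, R x y → a x = a y)
    (T : X → Prop) (k : K) :
    Nat.card {c : Quot (fun x y => a x = k ∧ R x y) // (∃ p, Quot.mk _ p = c ∧ a p = k) ∧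
      ∀ q, a q = k → T q → Quot.mk _ q ≠ c} =
    Nat.card {c : Quot R // (∀ q, T q → Quot.mk _ q ≠ c) ∧ Quot.lift a hR c = k} := by
  have e1 : ∀ x y, Relation.EqvGen (fun x y => a x = k ∧ R x y) x y → Relation.EqvGen R x y := by
    intro x y h
    induction h with
    | rel x y h => exact Relation.EqvGen.rel _ _ h.2
    | refl x => exact Relation.EqvGen.refl _
    | symm x y _ ih => exact Relation.EqvGen.symm _ _ ih
    | trans x y z _ _ ih1 ih2 => exact Relation.EqvGen.trans _ _ _ ih1 ih2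
  have e0 : ∀ x y, Relation.EqvGen R x y → a x = a y := fun x y h =>
    Pool.Agent.Helper35.OG.eqvGen_eq a hR h
  have e2 : ∀ x y, Relation.EqvGen R x y → a x = k → Relation.EqvGen (fun x y => a x = k ∧ R x y) x y := by
    intro x y h
    induction h with
    | rel x y h => exact fun h1 => Relation.EqvGen.rel _ _ ⟨h1, h⟩
    | refl x => exact fun _ => Relation.EqvGen.refl _
    | symm x y h ih => exact fun h1 => Relation.EqvGen.symm _ _ (ih ((e0 _ _ h).trans h1))
    | trans x y z h h' ih1 ih2 =>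
      exact fun h1 => Relation.EqvGen.trans _ _ _ (ih1 h1) (ih2 ((e0 _ _ h).symm.trans h1))
  refine Nat.card_congr (Equiv.ofBijective (fun c => ⟨Quot.lift (fun x => Quot.mk R x)
    (fun x y h => Quot.sound h.2) c.1, ?_⟩) ⟨?_, ?_⟩)
  · obtain ⟨c, ⟨p, rfl, hp⟩, hc⟩ := c
    refine ⟨fun q hq h => ?_, hp⟩
    have h1 := (sc_mk _ _ _).1 h
    have h2 : a q = k := (e0 _ _ h1).trans hp
    exact hc q h2 hq (Quot.eqvGen_sound (e2 _ _ h1 h2))
  · rintro ⟨c, ⟨p, rfl, hp⟩, hc⟩ ⟨c', ⟨p', rfl, hp'⟩, hc'⟩ h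
    have h1 := congrArg Subtype.val h
    apply Subtype.ext
    exact Quot.eqvGen_sound (e2 _ _ ((sc_mk _ _ _).1 h1) hp)
  · rintro ⟨c, hc, hk⟩
    obtain ⟨p, rfl⟩ := Quot.exists_rep c
    refine ⟨⟨Quot.mk _ p, ⟨p, rfl, hk⟩, fun q hq hT h => ?_⟩, rfl⟩
    exact hc q hT (Quot.eqvGen_sound (e1 _ _ ((sc_mk _ _ _).1 h)))

/-- sum over the labels -/
private theorem sc_sum {C K : Type} [Finite C] (f : C → K) (Q : C → Prop) (B : Finset K) (hB : ∀ c, f c ∈ B) :
    ∑ k ∈ B, Nat.card {c : C // Q c ∧ f c = k} = Nat.card {c : C // Q c} := by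
  haveI := Fintype.ofFinite C
  have h1 : ∀ k, Nat.card {c : C // Q c ∧ f c = k} = ((univ.filter fun c : C => Q c).filter fun c => f c = k).card := by
    intro k
    rw [Nat.card_eq_fintype_card, Fintype.card_subtype, Finset.filter_filter]
  rw [Finset.sum_congr rfl fun k _ => h1 k, ← Finset.card_eq_sum_card_fiberwise (fun c _ => hB c),
    Nat.card_eq_fintype_card, Fintype.card_subtype]

/-- the classes without mixed points are the same -/
private theorem sc_free {X : Type} (N P s : X → X) (T : X → Prop) (hT : ∀ x, T (N x) ↔ T x)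
    (hP : ∀ x, ¬ T x → P x = N x) (hP' : ∀ x, T x → P x = x) :
    Nat.card {c : Quot (fun x y => y = P x ∨ y = s x) // ∀ q, T q → Quot.mk _ q ≠ c} =
    Nat.card {c : Quot (fun x y => y = N x ∨ y = s x) // ∀ q, T q → Quot.mk _ q ≠ c} := by
  have e1 : ∀ p, (∀ q, T q → ¬ Relation.EqvGen (fun x y => y = P x ∨ y = s x) q p) → ∀ x y,
      Relation.EqvGen (fun x y => y = N x ∨ y = s x) x y →
      (Relation.EqvGen (fun x y => y = P x ∨ y = s x) x p ↔ Relation.EqvGen (fun x y => y = P x ∨ y = s x) y p) := by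
    intro p hp x y h
    induction h with
    | rel x y h =>
      rcases h with rfl | rfl
      · constructor
        · intro h1
          have h2 : ¬ T x := fun h3 => hp x h3 h1
          exact Relation.EqvGen.trans _ _ _ (Relation.EqvGen.symm _ _ (Relation.EqvGen.rel _ _ (Or.inl (hP x h2).symm))) h1
        · intro h1
          have h2 : ¬ T (N x) := fun h3 => hp _ h3 h1
          have h3 : N x = P x := (hP x fun h4 => h2 ((hT x).2 h4)).symm
          exact Relation.EqvGen.trans _ _ _ (Relation.EqvGen.rel _ _ (Or.inl h3)) h1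
      · have h1 : Relation.EqvGen (fun x y => y = P x ∨ y = s x) x (s x) := Relation.EqvGen.rel _ _ (Or.inr rfl)
        exact ⟨fun h2 => Relation.EqvGen.trans _ _ _ (Relation.EqvGen.symm _ _ h1) h2,
          fun h2 => Relation.EqvGen.trans _ _ _ h1 h2⟩
    | refl x => exact Iff.rfl
    | symm x y _ ih => exact ih.symm
    | trans x y z _ _ ih1 ih2 => exact ih1.trans ih2
  have e2 : ∀ x y, Relation.EqvGen (fun x y => y = P x ∨ y = s x) x y → Relation.EqvGen (fun x y => y = N x ∨ y = s x) x y := by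
    intro x y h
    induction h with
    | rel x y h =>
      rcases h with rfl | rfl
      · by_cases h1 : T x
        · rw [hP' x h1]
          exact Relation.EqvGen.refl _
        · rw [hP x h1]
          exact Relation.EqvGen.rel _ _ (Or.inl rfl)
      · exact Relation.EqvGen.rel _ _ (Or.inr rfl)
    | refl x => exact Relation.EqvGen.refl _
    | symm x y _ ih => exact Relation.EqvGen.symm _ _ ih
    | trans x y z _ _ ih1 ih2 => exact Relation.EqvGen.trans _ _ _ ih1 ih2
  have e3 : ∀ p, (∀ q, T q → ¬ Relation.EqvGen (fun x y => y = P x ∨ y = s x) q p) → ∀ x,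
      Relation.EqvGen (fun x y => y = N x ∨ y = s x) x p → Relation.EqvGen (fun x y => y = P x ∨ y = s x) x p :=
    fun p hp x h => (e1 p hp _ _ h).2 (Relation.EqvGen.refl _)
  refine Nat.card_congr (Equiv.ofBijective (fun c => ⟨Quot.lift (fun x => Quot.mk (fun x y => y = N x ∨ y = s x) x)
    (fun x y h => Quot.eqvGen_sound (e2 _ _ (Relation.EqvGen.rel _ _ h))) c.1, ?_⟩) ⟨?_, ?_⟩)
  · obtain ⟨c, hc⟩ := c
    obtain ⟨p, rfl⟩ := Quot.exists_rep c
    intro q hq h
    have h1 : ∀ q, T q → ¬ Relation.EqvGen (fun x y => y = P x ∨ y = s x) q p :=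
      fun q hq h2 => hc q hq (Quot.eqvGen_sound h2)
    exact h1 q hq (e3 p h1 q ((sc_mk _ _ _).1 h))
  · rintro ⟨c, hc⟩ ⟨c', hc'⟩ h
    obtain ⟨p, rfl⟩ := Quot.exists_rep c
    obtain ⟨p', rfl⟩ := Quot.exists_rep c'
    have h1 := congrArg Subtype.val h
    apply Subtype.ext
    exact Quot.eqvGen_sound (e3 p' (fun q hq h2 => hc' q hq (Quot.eqvGen_sound h2)) p ((sc_mk _ _ _).1 h1))
  · rintro ⟨c, hc⟩
    obtain ⟨p, rfl⟩ := Quot.exists_rep c
    exact ⟨⟨Quot.mk _ p, fun q hq h => hc q hq (Quot.eqvGen_sound (e2 _ _ ((sc_mk _ _ _).1 h)))⟩, rfl⟩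

/-- the classes with mixed points contain two of them -/
private theorem sc_two {X : Type} [Finite X] (s P : X → X) (hs : ∀ x, s (s x) = x) (hs' : ∀ x, s x ≠ x)
    (hP : ∀ x, P (P x) = x) :
    2 * Nat.card {c : Quot (fun x y => y = P x ∨ y = s x) // ∃ q, P q = q ∧ Quot.mk _ q = c} =
      Nat.card {q : X // P q = q} := by
  haveI := Fintype.ofFinite X
  haveI : Finite (Quot fun x y => y = P x ∨ y = s x) := Quot.finite _
  haveI := Fintype.ofFinite (Quot fun x y => y = P x ∨ y = s x)
  rw [Nat.card_eq_fintype_card, Nat.card_eq_fintype_card, Fintype.card_subtype, Fintype.card_subtype]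
  rw [Finset.card_eq_sum_card_fiberwise (s := univ.filter fun q : X => P q = q)
    (t := univ.filter fun c : Quot (fun x y => y = P x ∨ y = s x) => ∃ q, P q = q ∧ Quot.mk _ q = c)
    (f := fun q => Quot.mk _ q)]
  · rw [Finset.sum_const_nat (m := 2), mul_comm]
    intro c hc
    obtain ⟨p, hp, rfl⟩ := (Finset.mem_filter.1 hc).2
    obtain ⟨q, hq, hq1, hq2, hq3⟩ := two_ends s P hs hs' hP p hp
    rw [Finset.card_eq_two]
    refine ⟨p, q, hq.symm, ?_⟩
    ext r
    rw [Finset.mem_filter, Finset.mem_filter, Finset.mem_insert, Finset.mem_singleton]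
    constructor
    · rintro ⟨⟨-, h1⟩, h2⟩
      exact hq3 r h1 (Relation.EqvGen.symm _ _ ((sc_mk _ _ _).1 h2))
    · rintro (rfl | rfl)
      · exact ⟨⟨Finset.mem_univ _, hp⟩, rfl⟩
      · exact ⟨⟨Finset.mem_univ _, hq1⟩, Quot.eqvGen_sound (Relation.EqvGen.symm _ _ hq2)⟩
  · intro q hq
    have h1 := (Finset.mem_filter.1 (Finset.mem_coe.1 hq)).2
    exact Finset.mem_coe.2 (Finset.mem_filter.2 ⟨Finset.mem_univ _, q, h1, rfl⟩)

/-- splitting the classes -/
private theorem sc_split {C : Type} [Finite C] (Q : C → Prop) :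
    Nat.card {c : C // Q c} + Nat.card {c : C // ¬ Q c} = Nat.card C := by
  haveI := Fintype.ofFinite C
  rw [Nat.card_eq_fintype_card, Nat.card_eq_fintype_card, Nat.card_eq_fintype_card, Fintype.card_subtype,
    Fintype.card_subtype, Finset.card_filter_add_card_filter_not, Finset.card_univ]

variable {V : Type} {G : SimpleGraph V} [Fintype V]

/-- `p` is a flag of a corner between two members of `B` -/
private def Tm (S : GMap G) (B : Finset (Finset G.edgeSet)) (p : Flag G) : Prop := ∃ A ∈ B, p ∈ mix A S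

private theorem sc_mix (S : GMap G) (A : Finset G.edgeSet) (p : Flag G) : p ∈ mix A S ↔ ed p ∈ A ∧ ed (S.nxt p) ∉ A := by
  unfold mix
  rw [Finset.mem_filter]
  exact ⟨fun h => h.2, fun h => ⟨Finset.mem_univ _, h⟩⟩

private theorem sc_side (p : Flag G) : ed (side p) = ed p := rfl

private theorem sc_across (p : Flag G) : ed (across p) = ed p := by
  apply Subtype.ext
  exact SimpleGraph.Dart.edge_symm p.1

theorem sm_even (S : GMap G) (A : Finset G.edgeSet) : Even (mix A S).card := by
  have h1 : Even (univ.filter fun p : Flag G => ed p ∈ A).card := by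
    refine sc_even _ side (fun x hx => ?_) Pool.Agent.Helper35.OG.side_side Pool.Agent.Helper35.OG.side_ne
    rw [Finset.mem_filter] at hx ⊢
    exact ⟨Finset.mem_univ _, hx.2⟩
  have h2 : Even ((univ.filter fun p : Flag G => ed p ∈ A).filter fun p => ed (S.nxt p) ∈ A).card := by
    refine sc_even _ S.nxt (fun x hx => ?_) S.nxt_nxt S.nxt_ne
    rw [Finset.mem_filter, Finset.mem_filter] at hx ⊢
    refine ⟨⟨Finset.mem_univ _, hx.2⟩, ?_⟩
    rw [S.nxt_nxt]
    exact hx.1.2
  have h3 := Finset.card_filter_add_card_filter_not (s := univ.filter fun p : Flag G => ed p ∈ A)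
    (fun p => ed (S.nxt p) ∈ A)
  rw [Finset.filter_filter (fun p : Flag G => ed p ∈ A) (fun p => ¬ ed (S.nxt p) ∈ A)] at h3
  have h4 : (univ.filter fun p : Flag G => ed p ∈ A ∧ ¬ ed (S.nxt p) ∈ A) = mix A S := rfl
  rw [h4] at h3
  rw [← h3] at h1
  exact (Nat.even_add.1 h1).1 h2

/-- the member of a partition over which a flag lies -/
private theorem sc_lab {S : GMap G} {B : Finset (Finset G.edgeSet)} {I : Finset V} (h : Ptn S B I) :
    ∃ a : Flag G → Finset G.edgeSet, (∀ p, a p ∈ B) ∧ ∀ p, ∀ A ∈ B, (a p = A ↔ ed p ∈ A) := by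
  choose f hf using h.un
  refine ⟨fun p => f (ed p), fun p => (hf _).1, fun p A hA => ⟨fun h1 => ?_, fun h1 => ?_⟩⟩
  · rw [← h1]
    exact (hf _).2
  · by_contra h2
    exact Finset.disjoint_left.1 (h.dj _ (hf _).1 A hA h2) (hf (ed p)).2 h1

/-- the involution of the parts of a partition -/
private noncomputable def Pm (S : GMap G) (B : Finset (Finset G.edgeSet)) (p : Flag G) : Flag G :=
  if Tm S B p then p else S.nxt p

private theorem tm_nxt {S : GMap G} {B : Finset (Finset G.edgeSet)} {I : Finset V} (h : Ptn S B I) (p : Flag G) :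
    Tm S B (S.nxt p) ↔ Tm S B p := by
  obtain ⟨a, ha, hb⟩ := sc_lab h
  have key : ∀ q, Tm S B q → Tm S B (S.nxt q) := by
    rintro q ⟨A, hA, hq⟩
    rw [sc_mix] at hq
    refine ⟨a (S.nxt q), ha _, ?_⟩
    rw [sc_mix, S.nxt_nxt]
    refine ⟨(hb _ _ (ha _)).1 rfl, fun h1 => hq.2 ?_⟩
    have h2 : a q = a (S.nxt q) := (hb _ _ (ha _)).2 h1
    have h3 : a q = A := (hb _ _ hA).2 hq.1
    exact (hb _ _ hA).1 (h2.symm.trans h3)
  refine ⟨fun h1 => ?_, key p⟩
  have h2 := key _ h1
  rw [S.nxt_nxt] at h2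
  exact h2

private theorem tm_iff {S : GMap G} {B : Finset (Finset G.edgeSet)} {I : Finset V} (h : Ptn S B I)
    {A : Finset G.edgeSet} (hA : A ∈ B) {p : Flag G} (hp : ed p ∈ A) : Tm S B p ↔ p ∈ mix A S := by
  refine ⟨?_, fun h1 => ⟨A, hA, h1⟩⟩
  rintro ⟨A', hA', h1⟩
  by_contra h2
  have h3 : A' ≠ A := by
    rintro rfl
    exact h2 h1
  rw [sc_mix] at h1
  exact Finset.disjoint_left.1 (h.dj _ hA' _ hA h3) h1.1 hp

private theorem pm_part {S : GMap G} {B : Finset (Finset G.edgeSet)} {I : Finset V} (h : Ptn S B I)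
    {A : Finset G.edgeSet} (hA : A ∈ B) {p : Flag G} (hp : ed p ∈ A) : part A S p = Pm S B p := by
  unfold part Pm
  by_cases h1 : ed (S.nxt p) ∈ A
  · rw [if_pos ⟨hp, h1⟩, if_neg]
    rw [tm_iff h hA hp, sc_mix]
    exact fun h2 => h2.2 h1
  · rw [if_neg fun h2 => h1 h2.2, if_pos]
    rw [tm_iff h hA hp, sc_mix]
    exact ⟨hp, h1⟩

private theorem pm_pm {S : GMap G} {B : Finset (Finset G.edgeSet)} {I : Finset V} (h : Ptn S B I) (p : Flag G) :
    Pm S B (Pm S B p) = p := by
  unfold Pm
  by_cases h1 : Tm S B p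
  · rw [if_pos h1, if_pos h1]
  · rw [if_neg h1, if_neg (fun h2 => h1 ((tm_nxt h p).1 h2)), S.nxt_nxt]

private theorem pm_fix {S : GMap G} {B : Finset (Finset G.edgeSet)} (p : Flag G) : Pm S B p = p ↔ Tm S B p := by
  unfold Pm
  constructor
  · intro h1
    by_contra h2
    rw [if_neg h2] at h1
    exact S.nxt_ne p h1
  · intro h1
    rw [if_pos h1]

private theorem pm_lab {S : GMap G} {B : Finset (Finset G.edgeSet)} {I : Finset V} (h : Ptn S B I)
    {a : Flag G → Finset G.edgeSet} (ha : ∀ p, a p ∈ B) (hb : ∀ p, ∀ A ∈ B, (a p = A ↔ ed p ∈ A)) (p : Flag G) :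
    a p = a (Pm S B p) := by
  unfold Pm
  by_cases h1 : Tm S B p
  · rw [if_pos h1]
  · rw [if_neg h1]
    symm
    rw [hb _ _ (ha p)]
    by_contra h2
    exact h1 ⟨a p, ha p, (sc_mix S _ p).2 ⟨(hb _ _ (ha p)).1 rfl, h2⟩⟩

/-- the sum over the members -/
private theorem sm_gen (S : GMap G) (B : Finset (Finset G.edgeSet)) (I : Finset V) (h : Ptn S B I)
    (s : Flag G → Flag G) (hs : ∀ p, ed (s p) = ed p) (T : Flag G → Prop) :
    ∑ A ∈ B, Nat.card {c : Quot (fun x y => ed x ∈ A ∧ (y = part A S x ∨ y = s x)) //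
      (∃ p, Quot.mk _ p = c ∧ ed p ∈ A) ∧ ∀ q, ed q ∈ A → T q → Quot.mk _ q ≠ c} =
    Nat.card {c : Quot (fun x y => y = Pm S B x ∨ y = s x) // ∀ q, T q → Quot.mk _ q ≠ c} := by
  obtain ⟨a, ha, hb⟩ := sc_lab h
  have hR : ∀ x y, (y = Pm S B x ∨ y = s x) → a x = a y := by
    rintro x y (rfl | rfl)
    · exact pm_lab h ha hb x
    · symm
      rw [hb _ _ (ha x), hs]
      exact (hb _ _ (ha x)).1 rfl
  haveI : Finite (Quot fun x y => y = Pm S B x ∨ y = s x) := Quot.finite _
  rw [← sc_sum (Quot.lift a hR) (fun c => ∀ q, T q → Quot.mk _ q ≠ c) B]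
  · refine Finset.sum_congr rfl fun A hA => ?_
    rw [← sc_part a _ hR T A]
    have e1 : (fun x y : Flag G => ed x ∈ A ∧ (y = part A S x ∨ y = s x)) =
        fun x y => a x = A ∧ (y = Pm S B x ∨ y = s x) := by
      funext x y
      apply propext
      rw [hb _ _ hA]
      constructor
      · rintro ⟨h1, h2⟩
        refine ⟨h1, ?_⟩
        rw [← pm_part h hA h1]
        exact h2
      · rintro ⟨h1, h2⟩
        refine ⟨h1, ?_⟩
        rw [pm_part h hA h1]
        exact h2
    rw [e1]
    have e2 : ∀ p, (a p = A) = (ed p ∈ A) := fun p => propext (hb p A hA)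
    simp only [e2]
  · intro c
    obtain ⟨p, rfl⟩ := Quot.exists_rep c
    exact ha p

theorem sm_vs [Nontrivial V] (hG : G.Connected) (S : GMap G) (B : Finset (Finset G.edgeSet)) (I : Finset V)
    (h : Ptn S B I) : 2 * ∑ A ∈ B, vs S A + 2 * (VM S B).card = 2 * Fintype.card V + rB S B := by
  have h1 := sm_gen S B I h side sc_side (fun _ => False)
  have h2 : ∑ A ∈ B, vs S A = Nat.card (Quot (fun x y => y = Pm S B x ∨ y = side x)) := by
    have e1 : ∀ A ∈ B, vs S A = Nat.card {c : Quot (fun x y => ed x ∈ A ∧ (y = part A S x ∨ y = side x)) //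
      (∃ p, Quot.mk _ p = c ∧ ed p ∈ A) ∧ ∀ q, ed q ∈ A → False → Quot.mk _ q ≠ c} := by
      intro A _
      refine Nat.card_congr (Equiv.subtypeEquivRight fun c => ?_)
      exact ⟨fun h => ⟨h, fun _ _ h => h.elim⟩, fun h => h.1⟩
    rw [Finset.sum_congr rfl e1, h1]
    exact Nat.card_congr (Equiv.subtypeUnivEquiv fun c q h => h.elim)
  haveI : Finite (Quot fun x y => y = Pm S B x ∨ y = side x) := Quot.finite _
  have h3 := sc_split (fun c : Quot (fun x y => y = Pm S B x ∨ y = side x) => ∃ q, Pm S B q = q ∧ Quot.mk _ q = c)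
  have h4 := sc_two side (Pm S B) Pool.Agent.Helper35.OG.side_side Pool.Agent.Helper35.OG.side_ne (pm_pm h)
  have h5 : Nat.card {c : Quot (fun x y => y = Pm S B x ∨ y = side x) // ¬ ∃ q, Pm S B q = q ∧ Quot.mk _ q = c} =
      Fintype.card V - (VM S B).card := by
    have e1 := sc_free S.nxt (Pm S B) side (Tm S B) (tm_nxt h) (fun x hx => if_neg hx) (fun x hx => if_pos hx)
    have e2 : Nat.card {c : Quot (fun x y => y = Pm S B x ∨ y = side x) // ¬ ∃ q, Pm S B q = q ∧ Quot.mk _ q = c} =
        Nat.card {c : Quot (fun x y => y = Pm S B x ∨ y = side x) // ∀ q, Tm S B q → Quot.mk _ q ≠ c} := by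
      refine Nat.card_congr (Equiv.subtypeEquivRight fun c => ?_)
      constructor
      · intro h6 q hq h7
        exact h6 ⟨q, (pm_fix q).2 hq, h7⟩
      · rintro h6 ⟨q, hq, h7⟩
        exact h6 q ((pm_fix q).1 hq) h7
    rw [e2, e1]
    have hfst : ∀ x y : Flag G, (y = S.nxt x ∨ y = side x) → x.1.fst = y.1.fst := by
      rintro x y (rfl | rfl)
      · exact (S.nxt_fst x).symm
      · rfl
    have e3 : Nat.card {c : Quot (fun x y => y = S.nxt x ∨ y = side x) // ∀ q, Tm S B q → Quot.mk _ q ≠ c} =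
        Nat.card {v : V // v ∉ VM S B} := by
      refine Nat.card_congr (Equiv.ofBijective (fun c => ⟨Quot.lift (fun p : Flag G => p.1.fst) hfst c.1, ?_⟩) ⟨?_, ?_⟩)
      · obtain ⟨c, hc⟩ := c
        obtain ⟨p, rfl⟩ := Quot.exists_rep c
        intro h6
        unfold VM at h6
        rw [Finset.mem_filter] at h6
        obtain ⟨-, A, hA, q, hq, h7⟩ := h6
        exact hc q ⟨A, hA, hq⟩ (Quot.eqvGen_sound (S.conn q p h7))
      · rintro ⟨c, hc⟩ ⟨c', hc'⟩ h6
        obtain ⟨p, rfl⟩ := Quot.exists_rep c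
        obtain ⟨p', rfl⟩ := Quot.exists_rep c'
        have h7 := congrArg Subtype.val h6
        apply Subtype.ext
        exact Quot.eqvGen_sound (S.conn p p' h7)
      · rintro ⟨v, hv⟩
        obtain ⟨p, hp⟩ := Pool.Agent.Helper35.OG.exists_flag hG v
        refine ⟨⟨Quot.mk _ p, ?_⟩, Subtype.ext hp⟩
        rintro q ⟨A, hA, hq⟩ h6
        apply hv
        unfold VM
        rw [Finset.mem_filter]
        refine ⟨Finset.mem_univ _, A, hA, q, hq, ?_⟩
        rw [← hp]
        exact Pool.Agent.Helper35.OG.eqvGen_eq (fun p : Flag G => p.1.fst) hfst ((sc_mk _ _ _).1 h6)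
    rw [e3, Nat.card_eq_fintype_card, Fintype.card_subtype_compl, Fintype.card_coe]
  have h6 : Nat.card {q : Flag G // Pm S B q = q} = rB S B := by
    have e1 : Nat.card {q : Flag G // Pm S B q = q} = (B.biUnion fun A => mix A S).card := by
      rw [Nat.card_eq_fintype_card, Fintype.card_subtype]
      congr 1
      ext q
      rw [Finset.mem_filter, Finset.mem_biUnion, pm_fix]
      exact ⟨fun h => h.2, fun h => ⟨Finset.mem_univ _, h⟩⟩
    rw [e1, Finset.card_biUnion]
    · rfl
    · intro A hA A' hA' hne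
      change Disjoint (mix A S) (mix A' S)
      rw [Finset.disjoint_left]
      intro q hq hq'
      rw [sc_mix] at hq hq'
      exact Finset.disjoint_left.1 (h.dj A hA A' hA' hne) hq.1 hq'.1
  have h7 : (VM S B).card ≤ Fintype.card V := Finset.card_le_univ _
  rw [h6] at h4
  rw [h5] at h3
  rw [h2, ← h3, ← h4]
  omega

theorem sm_clo (S : GMap G) (B : Finset (Finset G.edgeSet)) (I : Finset V) (h : Ptn S B I) :
    ∑ A ∈ B, clo A (part A S) + FM S B = Nat.card S.Face := by
  have h1 := sm_gen S B I h across sc_across (Tm S B)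
  have h2 : ∑ A ∈ B, clo A (part A S) = Nat.card {f : S.Face // ¬ ∃ A ∈ B, ∃ p ∈ mix A S, S.face p = f} := by
    have e1 : ∀ A ∈ B, clo A (part A S) = Nat.card {c : Quot (fun x y => ed x ∈ A ∧ (y = part A S x ∨ y = across x)) //
      (∃ p, Quot.mk _ p = c ∧ ed p ∈ A) ∧ ∀ q, ed q ∈ A → Tm S B q → Quot.mk _ q ≠ c} := by
      intro A hA
      refine Nat.card_congr (Equiv.subtypeEquivRight fun c => ?_)
      refine and_congr_right fun _ => ?_
      constructor
      · intro h3 q hq hT
        refine h3 q ⟨hq, ?_⟩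
        rw [pm_part h hA hq]
        exact (pm_fix q).2 hT
      · rintro h3 q ⟨hq, hT⟩
        refine h3 q hq ?_
        rw [pm_part h hA hq] at hT
        exact (pm_fix q).1 hT
    rw [Finset.sum_congr rfl e1, h1,
      sc_free S.nxt (Pm S B) across (Tm S B) (tm_nxt h) (fun x hx => if_neg hx) (fun x hx => if_pos hx)]
    refine Nat.card_congr (Equiv.subtypeEquivRight fun c => ?_)
    constructor
    · rintro h3 ⟨A, hA, p, hp, h4⟩
      exact h3 p ⟨A, hA, hp⟩ h4
    · rintro h3 q ⟨A, hA, hq⟩ h4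
      exact h3 ⟨A, hA, q, hq, h4⟩
  haveI : Finite S.Face := Quot.finite _
  rw [h2]
  have h3 := sc_split (fun f : S.Face => ∃ A ∈ B, ∃ p ∈ mix A S, S.face p = f)
  unfold FM
  rw [add_comm]
  exact h3

end Pool.Agent.FGT
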