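import Pool.Agent.FGT.RdDef2
import Pool.Agent.FGT.RdA
import Pool.Agent.FGT.SmA
import Pool.Agent.FGT.SmC
import Pool.Agent.FGT.RdG

/-!
# FGT-RdM: discs from bad sets

PLAN. `A ≠ univ` and `G` is connected, so there is an open flag of `part A S`; the number of open flags is even (`sm_even`) and at most four: two or four. Every run with an open flag has exactly two (`two_ends`), at one vertex. Two open flags: one run, `L = part A S`. Four open flags at two vertices: two at each, one run each, `L = part A S`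
(`chi S A = chiL A (part A S)` by definition, `CnL` from `HCn`). Four open flags at one vertex `v`: two runs `{u1, u2}`, `{u3, u4}`. By `chiL_le0` (`U` = `{u1, u2}`) some flag of the first run, say `u2`, is related by `rF` to one of the second, say `u3`. Let `L` be `part A S` with `u2 ↔ u3` added: one run less, one closed face more (the class of `u2`, whose only open flags were
`u2`, `u3`): `chiL = 1`; the open flags are `u1`, `u4`, in one run.
-/

set_option autoImplicit false

open Finset
open scoped Classical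

namespace Pool.Agent.FGT

open Pool.Agent.Helper35.OG (Flag GMap across side)
open Pool.Agent.BEO (F2 ed rp cyc ev bdF nb)
open Pool.Agent.BEO (frm)

variable {V : Type} {G : SimpleGraph V} [Fintype V]

private theorem rdm_mk {C : Type} (R : C → C → Prop) (x y : C) : Quot.mk R x = Quot.mk R y ↔ Relation.EqvGen R x y :=
  ⟨fun h => Quot.eqvGen_exact h, fun h => Quot.eqvGen_sound h⟩

omit [Fintype V] in
private theorem rdm_in {A : Finset G.edgeSet} {L : Flag G → Flag G} (hL : OMap A L) (s : Flag G → Flag G)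
    (hs : ∀ p, ed (s p) = ed p) {p q : Flag G} (h : Relation.EqvGen (fun x y => y = L x ∨ y = s x) p q) :
    (ed p ∈ A ↔ ed q ∈ A) ∧
      (ed p ∈ A → Relation.EqvGen (fun x y => ed x ∈ A ∧ (y = L x ∨ y = s x)) p q) := by
  induction h with
  | rel x y h =>
    have h1 : ed x ∈ A ↔ ed y ∈ A := by
      rcases h with rfl | rfl
      · by_cases hx : ed x ∈ A
        · exact ⟨fun _ => hL.mem x hx, fun _ => hx⟩
        · rw [hL.out x hx]
      · rw [hs]
    exact ⟨h1, fun hx => Relation.EqvGen.rel _ _ ⟨hx, h⟩⟩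
  | refl x => exact ⟨Iff.rfl, fun _ => Relation.EqvGen.refl _⟩
  | symm x y _ ih => exact ⟨ih.1.symm, fun hy => Relation.EqvGen.symm _ _ (ih.2 (ih.1.2 hy))⟩
  | trans x y z _ _ ih1 ih2 =>
    exact ⟨ih1.1.trans ih2.1, fun hx => Relation.EqvGen.trans _ _ _ (ih1.2 hx) (ih2.2 (ih1.1.1 hx))⟩

omit [Fintype V] in
private theorem rdm_mono {C : Type} {R R' : C → C → Prop} (h : ∀ x y, R x y → R' x y) {a b : C}
    (hab : Relation.EqvGen R a b) : Relation.EqvGen R' a b := by
  induction hab with
  | rel x y h1 => exact Relation.EqvGen.rel _ _ (h x y h1)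
  | refl x => exact Relation.EqvGen.refl _
  | symm x y _ ih => exact Relation.EqvGen.symm _ _ ih
  | trans x y z _ _ ih1 ih2 => exact Relation.EqvGen.trans _ _ _ ih1 ih2

/-- the partner of an open flag -/
private theorem rdm_pair {A : Finset G.edgeSet} {L : Flag G → Flag G} (hL : OMap A L) (s : Flag G → Flag G)
    (hs : ∀ p, ed (s p) = ed p) (hs1 : ∀ p, s (s p) = p) (hs2 : ∀ p, s p ≠ p) (p : Flag G) (hp : Um A L p) :
    ∃ q, q ≠ p ∧ Um A L q ∧ Relation.EqvGen (fun x y => ed x ∈ A ∧ (y = L x ∨ y = s x)) p q ∧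
      ∀ r, Um A L r → Relation.EqvGen (fun x y => ed x ∈ A ∧ (y = L x ∨ y = s x)) p r → r = p ∨ r = q := by
  have : Finite (Flag G) := inferInstance
  obtain ⟨q, h1, h2, h3, h4⟩ := two_ends s L hs1 hs2 hL.inv p hp.2
  have h5 := rdm_in hL s hs h3
  refine ⟨q, h1, ⟨h5.1.1 hp.1, h2⟩, h5.2 hp.1, fun r hr h6 => h4 r hr.2 ?_⟩
  exact rdm_mono (fun x y h => h.2) h6

omit [Fintype V] in
private theorem rdm_fst {A : Finset G.edgeSet} {L : Flag G → Flag G} (hL : OMap A L) {p q : Flag G}
    (h : Relation.EqvGen (rV A L) p q) : p.1.fst = q.1.fst := by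
  refine Pool.Agent.Helper35.OG.eqvGen_eq (fun x : Flag G => x.1.fst) ?_ h
  rintro x y ⟨-, rfl | rfl⟩
  · exact (hL.fst x).symm
  · rfl

omit [Fintype V] in
private theorem rdm_cn (S : GMap G) (A : Finset G.edgeSet) (h : HCn S A) : CnL A (part A S) := by
  intro e he e' he'
  refine rdm_mono ?_ (h e he e' he')
  rintro x y ⟨hx, hy, p, hp, hq⟩
  refine ⟨hx, hy, p, hp, ?_⟩
  have h1 : part A S p = S.nxt p := if_pos ⟨by rw [hp]; exact hx, by rw [hq]; exact hy⟩
  rw [h1, hq]

/-- there is an open flag -/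
private theorem rdm_open [Nontrivial V] (hG : G.Connected) (S : GMap G) (A : Finset G.edgeSet) (hne : A.Nonempty)
    (hun : A ≠ univ) : ∃ p, Um A (part A S) p := by
  by_contra hcon
  have h1 : ∀ p : Flag G, ed p ∈ A → ed (S.nxt p) ∈ A := by
    intro p hp
    by_contra h2
    exact hcon ⟨p, (um_part A S p).2 ⟨hp, h2⟩⟩
  have h2 : ∀ p q : Flag G, p.1.fst = q.1.fst → ed p ∈ A → ed q ∈ A := by
    intro p q hpq
    have h3 := Pool.Agent.Helper35.OG.eqvGen_eq (fun x : Flag G => ed x ∈ A) (fun x y hxy => by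
      rcases hxy with rfl | rfl
      · refine propext ⟨h1 x, fun h => ?_⟩
        have h4 := h1 _ h
        rwa [S.nxt_nxt] at h4
      · rfl) (S.conn p q hpq)
    exact fun h => h3.mp h
  have h3 : ∀ v w : V, G.Adj v w → (∀ p : Flag G, p.1.fst = v → ed p ∈ A) → ∀ p : Flag G, p.1.fst = w → ed p ∈ A := by
    intro v w hvw hv p hp
    have h4 : ed ((⟨(v, w), hvw⟩, true) : Flag G) ∈ A := hv _ rfl
    have h5 : ed (across ((⟨(v, w), hvw⟩, true) : Flag G)) ∈ A := by
      rw [Pool.Agent.BEO.ed_across]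
      exact h4
    refine h2 _ p ?_ h5
    rw [hp]
    rfl
  obtain ⟨e, he⟩ := hne
  have h4 : ∀ w : V, ∀ p : Flag G, p.1.fst = w → ed p ∈ A := by
    intro w
    have h5 : ∀ p : Flag G, p.1.fst = (rp e).1.fst → ed p ∈ A := by
      intro p hp
      refine h2 (rp e) p hp.symm ?_
      rw [Pool.Agent.BEO.ed_rp]
      exact he
    obtain ⟨wk⟩ := hG.preconnected (rp e).1.fst w
    generalize (rp e).1.fst = u0 at h5 wk
    induction wk with
    | nil => exact h5
    | cons h _ ih => exact ih (h3 _ _ h h5)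
  apply hun
  ext f
  refine ⟨fun _ => mem_univ _, fun _ => ?_⟩
  have h5 := h4 _ (rp f) rfl
  rwa [Pool.Agent.BEO.ed_rp] at h5

/-- the map with the new corner -/
private noncomputable def rdm_sw (L0 : Flag G → Flag G) (x y z : Flag G) : Flag G :=
  if z = x then y else if z = y then x else L0 z

omit [Fintype V] in
private theorem sw_x (L0 : Flag G → Flag G) (x y : Flag G) : rdm_sw L0 x y x = y := if_pos rfl

omit [Fintype V] in
private theorem sw_y (L0 : Flag G → Flag G) (x y : Flag G) : rdm_sw L0 x y y = x := by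
  unfold rdm_sw
  by_cases h : y = x
  · rw [if_pos h, h]
  · rw [if_neg h, if_pos rfl]

omit [Fintype V] in
private theorem sw_o (L0 : Flag G → Flag G) (x y z : Flag G) (h1 : z ≠ x) (h2 : z ≠ y) : rdm_sw L0 x y z = L0 z := by
  unfold rdm_sw
  rw [if_neg h1, if_neg h2]

/-- number of classes if two classes are joined -/
private theorem rdm_join {C : Type} [Finite C] (R R' : C → C → Prop) (P : C → Prop) (a b : C) (ha : P a) (hb : P b)
    (hab : ¬ Relation.EqvGen R a b) (h1 : ∀ x y, Relation.EqvGen R x y → Relation.EqvGen R' x y)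
    (h2 : Relation.EqvGen R' a b)
    (h3 : ∀ x y, Relation.EqvGen R' x y → Relation.EqvGen R x y ∨
      ((Relation.EqvGen R x a ∨ Relation.EqvGen R x b) ∧ (Relation.EqvGen R y a ∨ Relation.EqvGen R y b))) :
    Nat.card {c : Quot R // ∃ p, Quot.mk _ p = c ∧ P p} =
      Nat.card {c : Quot R' // ∃ p, Quot.mk _ p = c ∧ P p} + 1 := by
  classical
  have : Finite (Quot R) := Quot.finite _
  have : Finite (Quot R') := Quot.finite _
  have := Fintype.ofFinite {c : Quot R // ∃ p, Quot.mk _ p = c ∧ P p}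
  let c0 : {c : Quot R // ∃ p, Quot.mk _ p = c ∧ P p} := ⟨Quot.mk _ b, b, rfl, hb⟩
  have e1 : Nat.card {c : {c : Quot R // ∃ p, Quot.mk _ p = c ∧ P p} // c ≠ c0} + 1 =
      Nat.card {c : Quot R // ∃ p, Quot.mk _ p = c ∧ P p} := by
    rw [Nat.card_eq_fintype_card, Nat.card_eq_fintype_card]
    have h4 := Fintype.card_subtype_compl (fun c : {c : Quot R // ∃ p, Quot.mk _ p = c ∧ P p} => c = c0)
    rw [Fintype.card_subtype_eq] at h4
    have h5 : 0 < Fintype.card {c : Quot R // ∃ p, Quot.mk _ p = c ∧ P p} := Fintype.card_pos_iff.2 ⟨c0⟩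
    have h6 : Fintype.card {c : {c : Quot R // ∃ p, Quot.mk _ p = c ∧ P p} // c ≠ c0} =
      Fintype.card {c : {c : Quot R // ∃ p, Quot.mk _ p = c ∧ P p} // ¬ c = c0} := Fintype.card_congr (Equiv.refl _)
    rw [h6, h4]
    omega
  rw [← e1]
  congr 1
  refine Nat.card_congr (Equiv.ofBijective (fun c => ⟨Quot.lift (fun x => Quot.mk R' x)
    (fun x y h => Quot.eqvGen_sound (h1 x y (Relation.EqvGen.rel _ _ h))) c.1.1, ?_⟩) ⟨?_, ?_⟩)
  · obtain ⟨⟨c, p, rfl, hp⟩, hc⟩ := c
    exact ⟨p, rfl, hp⟩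
  · rintro ⟨⟨c, p, rfl, hp⟩, hc⟩ ⟨⟨c', p', rfl, hp'⟩, hc'⟩ h
    have h4 := (rdm_mk R' _ _).1 (congrArg Subtype.val h)
    have hn : ¬ Relation.EqvGen R p b := fun h5 => hc (Subtype.ext (Quot.eqvGen_sound h5))
    have hn' : ¬ Relation.EqvGen R p' b := fun h5 => hc' (Subtype.ext (Quot.eqvGen_sound h5))
    apply Subtype.ext
    apply Subtype.ext
    apply Quot.eqvGen_sound
    rcases h3 _ _ h4 with h5 | ⟨h5 | h5, h6 | h6⟩
    · exact h5
    · exact Relation.EqvGen.trans _ _ _ h5 (Relation.EqvGen.symm _ _ h6)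
    · exact absurd h6 hn'
    · exact absurd h5 hn
    · exact absurd h5 hn
  · rintro ⟨c, p, rfl, hp⟩
    by_cases h4 : Relation.EqvGen R p b
    · refine ⟨⟨⟨Quot.mk _ a, a, rfl, ha⟩, fun h5 => hab ((rdm_mk R _ _).1 (congrArg Subtype.val h5))⟩, ?_⟩
      apply Subtype.ext
      exact Quot.eqvGen_sound (Relation.EqvGen.trans _ _ _ h2 (Relation.EqvGen.symm _ _ (h1 _ _ h4)))
    · exact ⟨⟨⟨Quot.mk _ p, p, rfl, hp⟩, fun h5 => h4 ((rdm_mk R _ _).1 (congrArg Subtype.val h5))⟩, Subtype.ext rfl⟩

/-- number of closed classes if one class is closed -/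
private theorem rdm_close {C : Type} [Finite C] (R R' : C → C → Prop) (P U U' : C → Prop) (a b : C) (ha : P a)
    (h1 : ∀ x y, Relation.EqvGen R x y ↔ Relation.EqvGen R' x y) (hab : Relation.EqvGen R a b) (hU : U a)
    (h2 : ∀ q, U q ↔ U' q ∨ q = a ∨ q = b) (h3 : ∀ q, U' q → ¬ Relation.EqvGen R q a) :
    Nat.card {c : Quot R' // (∃ p, Quot.mk _ p = c ∧ P p) ∧ ∀ q, U' q → Quot.mk _ q ≠ c} =
      Nat.card {c : Quot R // (∃ p, Quot.mk _ p = c ∧ P p) ∧ ∀ q, U q → Quot.mk _ q ≠ c} + 1 := by
  classical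
  have : Finite (Quot R) := Quot.finite _
  have : Finite (Quot R') := Quot.finite _
  have := Fintype.ofFinite {c : Quot R' // (∃ p, Quot.mk _ p = c ∧ P p) ∧ ∀ q, U' q → Quot.mk _ q ≠ c}
  have hc0 : ∀ q, U' q → Quot.mk R' q ≠ Quot.mk R' a := fun q hq h =>
    h3 q hq ((h1 _ _).2 ((rdm_mk R' _ _).1 h))
  let c0 : {c : Quot R' // (∃ p, Quot.mk _ p = c ∧ P p) ∧ ∀ q, U' q → Quot.mk _ q ≠ c} :=
    ⟨Quot.mk _ a, ⟨a, rfl, ha⟩, hc0⟩
  have e1 : Nat.card {c : {c : Quot R' // (∃ p, Quot.mk _ p = c ∧ P p) ∧ ∀ q, U' q → Quot.mk _ q ≠ c} // c ≠ c0} + 1 =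
      Nat.card {c : Quot R' // (∃ p, Quot.mk _ p = c ∧ P p) ∧ ∀ q, U' q → Quot.mk _ q ≠ c} := by
    rw [Nat.card_eq_fintype_card, Nat.card_eq_fintype_card]
    have h4 := Fintype.card_subtype_compl (fun c : {c : Quot R' // (∃ p, Quot.mk _ p = c ∧ P p) ∧
      ∀ q, U' q → Quot.mk _ q ≠ c} => c = c0)
    rw [Fintype.card_subtype_eq] at h4
    have h5 : 0 < Fintype.card {c : Quot R' // (∃ p, Quot.mk _ p = c ∧ P p) ∧ ∀ q, U' q → Quot.mk _ q ≠ c} :=
      Fintype.card_pos_iff.2 ⟨c0⟩
    have h6 : Fintype.card {c : {c : Quot R' // (∃ p, Quot.mk _ p = c ∧ P p) ∧ ∀ q, U' q → Quot.mk _ q ≠ c} // c ≠ c0} =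
      Fintype.card {c : {c : Quot R' // (∃ p, Quot.mk _ p = c ∧ P p) ∧ ∀ q, U' q → Quot.mk _ q ≠ c} // ¬ c = c0} :=
      Fintype.card_congr (Equiv.refl _)
    rw [h6, h4]
    omega
  rw [← e1]
  congr 1
  symm
  refine Nat.card_congr (Equiv.ofBijective (fun c => ⟨⟨Quot.lift (fun x => Quot.mk R' x)
    (fun x y h => Quot.eqvGen_sound ((h1 x y).1 (Relation.EqvGen.rel _ _ h))) c.1, ?_⟩, ?_⟩) ⟨?_, ?_⟩)
  · obtain ⟨c, ⟨p, rfl, hp⟩, hc⟩ := c
    refine ⟨⟨p, rfl, hp⟩, fun q hq h => ?_⟩
    exact hc q ((h2 q).2 (Or.inl hq)) (Quot.eqvGen_sound ((h1 _ _).2 ((rdm_mk R' _ _).1 h)))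
  · obtain ⟨c, ⟨p, rfl, hp⟩, hc⟩ := c
    intro h
    have h4 := (rdm_mk R' _ _).1 (congrArg Subtype.val h)
    exact hc a hU (Quot.eqvGen_sound (Relation.EqvGen.symm _ _ ((h1 _ _).2 h4)))
  · rintro ⟨c, ⟨p, rfl, hp⟩, hc⟩ ⟨c', ⟨p', rfl, hp'⟩, hc'⟩ h
    have h4 := (rdm_mk R' _ _).1 (congrArg Subtype.val (congrArg Subtype.val h))
    apply Subtype.ext
    exact Quot.eqvGen_sound ((h1 _ _).2 h4)
  · rintro ⟨⟨c, ⟨p, rfl, hp⟩, hc⟩, hc1⟩
    refine ⟨⟨Quot.mk _ p, ⟨p, rfl, hp⟩, fun q hq h => ?_⟩, Subtype.ext (Subtype.ext rfl)⟩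
    have h4 := (rdm_mk R _ _).1 h
    rcases (h2 q).1 hq with h5 | rfl | rfl
    · exact hc q h5 (Quot.eqvGen_sound ((h1 _ _).1 h4))
    · exact hc1 (Subtype.ext (Quot.eqvGen_sound (Relation.EqvGen.symm _ _ ((h1 _ _).1 h4))))
    · refine hc1 (Subtype.ext (Quot.eqvGen_sound (Relation.EqvGen.symm _ _ ((h1 _ _).1 ?_))))
      exact Relation.EqvGen.trans _ _ _ hab h4

/-- four open flags at one vertex -/
private theorem rdm_core (S : GMap G) (A : Finset G.edgeSet) (hcn : HCn S A) (hchi : chi S A = 1)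
    (h4 : (mix A S).card ≤ 4) (x y : Flag G) (hx : Um A (part A S) x) (hy : Um A (part A S) y)
    (hxy : x.1.fst = y.1.fst) (hV : ¬ Relation.EqvGen (rV A (part A S)) x y)
    (hF : Relation.EqvGen (rF A (part A S)) x y) :
    ∃ L : Flag G → Flag G, Dsc A L ∧ att A L = att A (part A S) ∧ (∀ p, part A S p ≠ p → L p = part A S p) ∧
      ((att A (part A S)).card = 2 → L = part A S) := by
  have hL := omap_part A S
  obtain ⟨x', hx1, hx2, hx3, hx4⟩ := rdm_pair hL side Pool.Agent.BEO.ed_side Pool.Agent.Helper35.OG.side_side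
    Pool.Agent.Helper35.OG.side_ne x hx
  obtain ⟨y', hy1, hy2, hy3, hy4⟩ := rdm_pair hL side Pool.Agent.BEO.ed_side Pool.Agent.Helper35.OG.side_side
    Pool.Agent.Helper35.OG.side_ne y hy
  obtain ⟨f, hf1, hf2, hf3, hf4⟩ := rdm_pair hL across Pool.Agent.BEO.ed_across Pool.Agent.Helper35.OG.across_across
    Pool.Agent.Helper35.OG.across_ne x hx
  change Relation.EqvGen (rV A (part A S)) x x' at hx3
  change Relation.EqvGen (rV A (part A S)) y y' at hy3
  have hxyne : y ≠ x := fun h => hV (by rw [h]; exact Relation.EqvGen.refl _)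
  have hx'y : x' ≠ y := fun h => hV (by rw [← h]; exact hx3)
  have hy'x : y' ≠ x := fun h => hV (by
    rw [← h]
    exact Relation.EqvGen.symm _ _ hy3)
  have hx'y' : x' ≠ y' := fun h => hV (Relation.EqvGen.trans _ _ _ hx3 (by
    rw [h]
    exact Relation.EqvGen.symm _ _ hy3))
  have hmix : ∀ q, Um A (part A S) q ↔ q = x ∨ q = x' ∨ q = y ∨ q = y' := by
    have h5 : ({x, x', y, y'} : Finset (Flag G)) ⊆ mix A S := by
      intro q hq
      rw [mem_insert, mem_insert, mem_insert, mem_singleton] at hq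
      rw [mem_mix]
      rcases hq with rfl | rfl | rfl | rfl
      · exact hx
      · exact hx2
      · exact hy
      · exact hy2
    have h6 : ({x, x', y, y'} : Finset (Flag G)).card = 4 := by
      rw [card_insert_of_notMem, card_insert_of_notMem, card_insert_of_notMem, card_singleton]
      · rw [mem_singleton]
        exact hy1.symm
      · rw [mem_insert, mem_singleton]
        rintro (h | h)
        · exact hx'y h
        · exact hx'y' h
      · rw [mem_insert, mem_insert, mem_singleton]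
        rintro (h | h | h)
        · exact hx1 h.symm
        · exact hxyne h.symm
        · exact hy'x h.symm
    have h7 := Finset.eq_of_subset_of_card_le h5 (by rw [h6]; exact h4)
    intro q
    rw [← mem_mix, ← h7, mem_insert, mem_insert, mem_insert, mem_singleton]
  have hfy : f = y := by
    rcases hf4 y hy hF with h | h
    · exact absurd h hxyne
    · exact h.symm
  set L0 := part A S with hL0
  set L := rdm_sw L0 x y with hLd
  have hLx : L x = y := sw_x L0 x y
  have hLy : L y = x := sw_y L0 x y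
  have hLo : ∀ z, z ≠ x → z ≠ y → L z = L0 z := fun z h1 h2 => sw_o L0 x y z h1 h2
  have hUm : ∀ q, Um A L0 q ↔ Um A L q ∨ q = x ∨ q = y := by
    intro q
    constructor
    · intro h
      by_cases h1 : q = x
      · exact Or.inr (Or.inl h1)
      by_cases h2 : q = y
      · exact Or.inr (Or.inr h2)
      refine Or.inl ⟨h.1, ?_⟩
      rw [hLo q h1 h2]
      exact h.2
    · rintro (h | rfl | rfl)
      · by_cases h1 : q = x
        · rw [h1]
          exact hx
        by_cases h2 : q = y
        · rw [h2]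
          exact hy
        refine ⟨h.1, ?_⟩
        rw [← hLo q h1 h2]
        exact h.2
      · exact hx
      · exact hy
  have hUmL : ∀ q, Um A L q ↔ q = x' ∨ q = y' := by
    intro q
    constructor
    · intro h
      have h1 : q ≠ x := by
        rintro rfl
        exact hxyne (hLx.symm.trans h.2)
      have h2 : q ≠ y := by
        rintro rfl
        exact hxyne (hLy.symm.trans h.2).symm
      rcases (hmix q).1 ((hUm q).2 (Or.inl h)) with h5 | h5 | h5 | h5
      · exact absurd h5 h1
      · exact Or.inl h5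
      · exact absurd h5 h2
      · exact Or.inr h5
    · rintro (rfl | rfl)
      · refine ⟨hx2.1, ?_⟩
        rw [hLo q hx1 hx'y]
        exact hx2.2
      · refine ⟨hy2.1, ?_⟩
        rw [hLo q hy'x hy1]
        exact hy2.2
  -- steps of the old relation are steps of the new one
  have hstep : ∀ (s : Flag G → Flag G) (a b : Flag G),
      Relation.EqvGen (fun u v => ed u ∈ A ∧ (v = L0 u ∨ v = s u)) a b →
      Relation.EqvGen (fun u v => ed u ∈ A ∧ (v = L u ∨ v = s u)) a b := by
    intro s a b h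
    induction h with
    | rel u v h =>
      obtain ⟨h1, h2 | h2⟩ := h
      · by_cases h5 : u = x
        · have h6 : v = u := by rw [h2, h5]; exact hx.2
          rw [h6]
          exact Relation.EqvGen.refl _
        by_cases h6 : u = y
        · have h7 : v = u := by rw [h2, h6]; exact hy.2
          rw [h7]
          exact Relation.EqvGen.refl _
        exact Relation.EqvGen.rel _ _ ⟨h1, Or.inl (by rw [h2, hLo u h5 h6])⟩
      · exact Relation.EqvGen.rel _ _ ⟨h1, Or.inr h2⟩
    | refl u => exact Relation.EqvGen.refl _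
    | symm u v _ ih => exact Relation.EqvGen.symm _ _ ih
    | trans u v w _ _ ih1 ih2 => exact Relation.EqvGen.trans _ _ _ ih1 ih2
  have hVs : ∀ a b, Relation.EqvGen (rV A L0) a b → Relation.EqvGen (rV A L) a b := hstep side
  have hFs : ∀ a b, Relation.EqvGen (rF A L0) a b → Relation.EqvGen (rF A L) a b := hstep across
  have hVxy : Relation.EqvGen (rV A L) x y := Relation.EqvGen.rel _ _ ⟨hx.1, Or.inl hLx.symm⟩
  have hFs' : ∀ a b, Relation.EqvGen (rF A L) a b → Relation.EqvGen (rF A L0) a b := by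
    intro a b h
    induction h with
    | rel u v h =>
      obtain ⟨h1, h2 | h2⟩ := h
      · by_cases h5 : u = x
        · rw [h2, h5, hLx]
          exact hF
        by_cases h6 : u = y
        · rw [h2, h6, hLy]
          exact Relation.EqvGen.symm _ _ hF
        exact Relation.EqvGen.rel _ _ ⟨h1, Or.inl (by rw [h2, hLo u h5 h6])⟩
      · exact Relation.EqvGen.rel _ _ ⟨h1, Or.inr h2⟩
    | refl u => exact Relation.EqvGen.refl _
    | symm u v _ ih => exact Relation.EqvGen.symm _ _ ih
    | trans u v w _ _ ih1 ih2 => exact Relation.EqvGen.trans _ _ _ ih1 ih2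
  have hV3 : ∀ a b, Relation.EqvGen (rV A L) a b → Relation.EqvGen (rV A L0) a b ∨
      ((Relation.EqvGen (rV A L0) a x ∨ Relation.EqvGen (rV A L0) a y) ∧
        (Relation.EqvGen (rV A L0) b x ∨ Relation.EqvGen (rV A L0) b y)) := by
    intro a b h
    induction h with
    | rel u v h =>
      obtain ⟨h1, h2 | h2⟩ := h
      · by_cases h5 : u = x
        · rw [h2, h5, hLx]
          exact Or.inr ⟨Or.inl (Relation.EqvGen.refl _), Or.inr (Relation.EqvGen.refl _)⟩
        by_cases h6 : u = y
        · rw [h2, h6, hLy]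
          exact Or.inr ⟨Or.inr (Relation.EqvGen.refl _), Or.inl (Relation.EqvGen.refl _)⟩
        exact Or.inl (Relation.EqvGen.rel _ _ ⟨h1, Or.inl (by rw [h2, hLo u h5 h6])⟩)
      · exact Or.inl (Relation.EqvGen.rel _ _ ⟨h1, Or.inr h2⟩)
    | refl u => exact Or.inl (Relation.EqvGen.refl _)
    | symm u v _ ih =>
      rcases ih with h1 | ⟨h1, h2⟩
      · exact Or.inl (Relation.EqvGen.symm _ _ h1)
      · exact Or.inr ⟨h2, h1⟩
    | trans u v w _ _ ih1 ih2 =>
      have tr : ∀ {a b c : Flag G}, Relation.EqvGen (rV A L0) a b → Relation.EqvGen (rV A L0) b c →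
        Relation.EqvGen (rV A L0) a c := fun h1 h2 => Relation.EqvGen.trans _ _ _ h1 h2
      have sy : ∀ {a b : Flag G}, Relation.EqvGen (rV A L0) a b → Relation.EqvGen (rV A L0) b a :=
        fun h1 => Relation.EqvGen.symm _ _ h1
      rcases ih1 with h1 | ⟨h1, h2⟩ <;> rcases ih2 with h5 | ⟨h5, h6⟩
      · exact Or.inl (tr h1 h5)
      · refine Or.inr ⟨?_, h6⟩
        rcases h5 with h5 | h5
        · exact Or.inl (tr h1 h5)
        · exact Or.inr (tr h1 h5)
      · refine Or.inr ⟨h1, ?_⟩
        rcases h2 with h2 | h2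
        · exact Or.inl (tr (sy h5) h2)
        · exact Or.inr (tr (sy h5) h2)
      · exact Or.inr ⟨h1, h6⟩
  have hfstL : ∀ p, (L p).1.fst = p.1.fst := by
    intro p
    by_cases h5 : p = x
    · rw [h5, hLx, hxy]
    by_cases h6 : p = y
    · rw [h6, hLy, hxy]
    rw [hLo p h5 h6]
    exact hL.fst p
  have hoL : OMap A L := by
    refine ⟨fun p => ?_, fun p h => ?_, fun p h => ?_, hfstL, fun p h => hL.ub p ((hUm p).2 (Or.inl h)),
      fun p h => ?_⟩
    · by_cases h5 : p = x
      · rw [h5, hLx, hLy]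
      by_cases h6 : p = y
      · rw [h6, hLy, hLx]
      rw [hLo p h5 h6]
      rw [hLo, hL.inv]
      · intro h7
        apply h5
        rw [← hL.inv p, h7]
        exact hx.2
      · intro h7
        apply h6
        rw [← hL.inv p, h7]
        exact hy.2
    · have h5 : p ≠ x := fun h6 => h (by rw [h6]; exact hx.1)
      have h6 : p ≠ y := fun h7 => h (by rw [h7]; exact hy.1)
      rw [hLo p h5 h6]
      exact hL.out p h
    · by_cases h5 : p = x
      · rw [h5, hLx]
        exact hy.1
      by_cases h6 : p = y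
      · rw [h6, hLy]
        exact hx.1
      rw [hLo p h5 h6]
      exact hL.mem p h
    · rcases hL.run p h with ⟨q, hq, h5⟩ | h5
      · left
        refine ⟨x', (hUmL x').2 (Or.inl rfl), ?_⟩
        have h6 := hVs _ _ h5
        have e1 : Relation.EqvGen (rV A L) x x' := hVs _ _ hx3
        have e2 : Relation.EqvGen (rV A L) y y' := hVs _ _ hy3
        have e3 : Relation.EqvGen (rV A L) x q := by
          rcases (hmix q).1 hq with rfl | rfl | rfl | rfl
          · exact Relation.EqvGen.refl _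
          · exact e1
          · exact hVxy
          · exact Relation.EqvGen.trans _ _ _ hVxy e2
        exact Relation.EqvGen.trans _ _ _ h6 (Relation.EqvGen.trans _ _ _ (Relation.EqvGen.symm _ _ e3) e1)
      · right
        intro q hq
        exact ⟨(h5 q hq).1, hVs _ _ (h5 q hq).2⟩
  have hcnL : CnL A L := by
    intro e he e' he'
    have h5 := rdm_cn S A hcn e he e' he'
    induction h5 with
    | rel u v h =>
      obtain ⟨h1, h2, p, h5, h6⟩ := h
      by_cases h7 : p = x
      · have h8 : v = u := by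
          rw [← h6, ← h5, h7]
          exact congrArg ed hx.2
        rw [h8]
        exact Relation.EqvGen.refl _
      by_cases h8 : p = y
      · have h9 : v = u := by
          rw [← h6, ← h5, h8]
          exact congrArg ed hy.2
        rw [h9]
        exact Relation.EqvGen.refl _
      exact Relation.EqvGen.rel _ _ ⟨h1, h2, p, h5, by rw [hLo p h7 h8]; exact h6⟩
    | refl u => exact Relation.EqvGen.refl _
    | symm u v _ ih => exact Relation.EqvGen.symm _ _ (ih he' he)
    | trans u v w h5 _ ih1 ih2 =>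
      by_cases hv : v ∈ A
      · exact Relation.EqvGen.trans _ _ _ (ih1 he hv) (ih2 hv he')
      · exfalso
        have h7 := Pool.Agent.Helper35.OG.eqvGen_eq (fun z : G.edgeSet => z ∈ A) (fun a b hab => by
          refine propext ⟨fun _ => hab.2.1, fun _ => hab.1⟩) h5
        exact hv (h7.mp he)
  have hchiL : chiL A L = 1 := by
    have e1 : vsL A L0 = vsL A L + 1 :=
      rdm_join (rV A L0) (rV A L) (fun p => ed p ∈ A) x y hx.1 hy.1 hV hVs hVxy hV3
    have e2 : clo A L = clo A L0 + 1 := by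
      refine rdm_close (rF A L0) (rF A L) (fun p => ed p ∈ A) (Um A L0) (Um A L) x y hx.1
        (fun a b => ⟨hFs a b, hFs' a b⟩) hF hx hUm ?_
      intro q hq h5
      have h6 := hf4 q ((hUm q).2 (Or.inl hq)) (Relation.EqvGen.symm _ _ h5)
      rw [hfy] at h6
      rcases (hUmL q).1 hq with h7 | h7 <;> rcases h6 with h6 | h6
      · exact hx1 (h7.symm.trans h6)
      · exact hx'y (h7.symm.trans h6)
      · exact hy'x (h7.symm.trans h6)
      · exact hy1 (h7.symm.trans h6)
    have e3 : chiL A L0 = 1 := hchi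
    unfold chiL at e3 ⊢
    rw [e1] at e3
    rw [e2]
    push_cast at e3 ⊢
    linarith
  have hatt : ∀ M : Flag G → Flag G, (∃ p, Um A M p ∧ p.1.fst = x.1.fst) → (∀ p, Um A M p → p.1.fst = x.1.fst) →
      att A M = {x.1.fst} := by
    intro M h1 h2
    ext v
    unfold att
    rw [mem_filter, mem_singleton]
    constructor
    · rintro ⟨-, p, hp, rfl⟩
      exact h2 p hp
    · rintro rfl
      exact ⟨mem_univ _, h1⟩
  have hfx' : x'.1.fst = x.1.fst := (rdm_fst hL hx3).symm
  have hfy' : y'.1.fst = x.1.fst := (rdm_fst hL hy3).symm.trans hxy.symm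
  have ha0 : att A L0 = {x.1.fst} := by
    refine hatt L0 ⟨x, hx, rfl⟩ ?_
    intro p hp
    rcases (hmix p).1 hp with rfl | rfl | rfl | rfl
    · rfl
    · exact hfx'
    · exact hxy.symm
    · exact hfy'
  have ha1 : att A L = {x.1.fst} := by
    refine hatt L ⟨x', (hUmL x').2 (Or.inl rfl), hfx'⟩ ?_
    intro p hp
    rcases (hUmL p).1 hp with rfl | rfl
    · exact hfx'
    · exact hfy'
  refine ⟨L, ⟨hoL, hcnL, ⟨x', (hUmL x').2 (Or.inl rfl)⟩, ?_, ⟨x.1.fst, x.1.fst, ?_⟩, hchiL⟩, ?_, ?_, ?_⟩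
  · have e1 : Relation.EqvGen (rV A L) x x' := hVs _ _ hx3
    have e2 : Relation.EqvGen (rV A L) y y' := hVs _ _ hy3
    have e3 : ∀ q, Um A L q → Relation.EqvGen (rV A L) x q := by
      intro q hq
      rcases (hUmL q).1 hq with rfl | rfl
      · exact e1
      · exact Relation.EqvGen.trans _ _ _ hVxy e2
    intro p q hp hq _
    exact Relation.EqvGen.trans _ _ _ (Relation.EqvGen.symm _ _ (e3 p hp)) (e3 q hq)
  · intro p hp
    left
    rcases (hUmL p).1 hp with rfl | rfl
    · exact hfx'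
    · exact hfy'
  · rw [ha0, ha1]
  · intro p hp
    refine hLo p ?_ ?_
    · rintro rfl
      exact hp hx.2
    · rintro rfl
      exact hp hy.2
  · rw [ha0, card_singleton]
    intro h
    omega

/-- at most two runs have open flags -/
private theorem rdm_all (S : GMap G) (A : Finset G.edgeSet) (h4 : (mix A S).card ≤ 4) (x y : Flag G)
    (hx : Um A (part A S) x) (hy : Um A (part A S) y) (hV : ¬ Relation.EqvGen (rV A (part A S)) x y)
    (r : Flag G) (hr : Um A (part A S) r) :
    Relation.EqvGen (rV A (part A S)) x r ∨ Relation.EqvGen (rV A (part A S)) y r := by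
  have hL := omap_part A S
  obtain ⟨x', hx1, hx2, hx3, -⟩ := rdm_pair hL side Pool.Agent.BEO.ed_side Pool.Agent.Helper35.OG.side_side
    Pool.Agent.Helper35.OG.side_ne x hx
  obtain ⟨y', hy1, hy2, hy3, -⟩ := rdm_pair hL side Pool.Agent.BEO.ed_side Pool.Agent.Helper35.OG.side_side
    Pool.Agent.Helper35.OG.side_ne y hy
  change Relation.EqvGen (rV A (part A S)) x x' at hx3
  change Relation.EqvGen (rV A (part A S)) y y' at hy3
  have hxyne : y ≠ x := fun h => hV (by rw [h]; exact Relation.EqvGen.refl _)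
  have hx'y : x' ≠ y := fun h => hV (by rw [← h]; exact hx3)
  have hy'x : y' ≠ x := fun h => hV (by
    rw [← h]
    exact Relation.EqvGen.symm _ _ hy3)
  have hx'y' : x' ≠ y' := fun h => hV (Relation.EqvGen.trans _ _ _ hx3 (by
    rw [h]
    exact Relation.EqvGen.symm _ _ hy3))
  have h5 : ({x, x', y, y'} : Finset (Flag G)) ⊆ mix A S := by
    intro q hq
    rw [mem_insert, mem_insert, mem_insert, mem_singleton] at hq
    rw [mem_mix]
    rcases hq with rfl | rfl | rfl | rfl
    · exact hx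
    · exact hx2
    · exact hy
    · exact hy2
  have h6 : ({x, x', y, y'} : Finset (Flag G)).card = 4 := by
    rw [card_insert_of_notMem, card_insert_of_notMem, card_insert_of_notMem, card_singleton]
    · rw [mem_singleton]
      exact hy1.symm
    · rw [mem_insert, mem_singleton]
      rintro (h | h)
      · exact hx'y h
      · exact hx'y' h
    · rw [mem_insert, mem_insert, mem_singleton]
      rintro (h | h | h)
      · exact hx1 h.symm
      · exact hxyne h.symm
      · exact hy'x h.symm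
  have h7 := Finset.eq_of_subset_of_card_le h5 (by rw [h6]; exact h4)
  have h8 : r ∈ mix A S := (mem_mix A S r).2 hr
  rw [← h7, mem_insert, mem_insert, mem_insert, mem_singleton] at h8
  rcases h8 with rfl | rfl | rfl | rfl
  · exact Or.inl (Relation.EqvGen.refl _)
  · exact Or.inl hx3
  · exact Or.inr (Relation.EqvGen.refl _)
  · exact Or.inr hy3

theorem bad_dsc [Nontrivial V] (hG : G.Connected) (S : GMap G) (A : Finset G.edgeSet) (h : Bad S A) :
    ∃ L : Flag G → Flag G, Dsc A L ∧ att A L = att A (part A S) ∧ (∀ p, part A S p ≠ p → L p = part A S p) ∧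
      ((att A (part A S)).card = 2 → L = part A S) := by
  obtain ⟨hne, hun, hcn, hchi, h4, -⟩ := h
  have hL := omap_part A S
  obtain ⟨p, hp⟩ := rdm_open hG S A hne hun
  have hall : ∀ q, Um A (part A S) q → ¬ Relation.EqvGen (rV A (part A S)) p q →
      ∀ r, Um A (part A S) r → Relation.EqvGen (rV A (part A S)) p r ∨ Relation.EqvGen (rV A (part A S)) q r :=
    fun q hq hn r hr => rdm_all S A h4 p q hp hq hn r hr
  by_cases hc : ∀ q, Um A (part A S) q → Relation.EqvGen (rV A (part A S)) p q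
  · refine ⟨part A S, ⟨hL, rdm_cn S A hcn, ⟨p, hp⟩, ?_, ⟨p.1.fst, p.1.fst, ?_⟩, hchi⟩, rfl, fun _ _ => rfl,
      fun _ => rfl⟩
    · intro a b ha hb _
      exact Relation.EqvGen.trans _ _ _ (Relation.EqvGen.symm _ _ (hc a ha)) (hc b hb)
    · intro a ha
      exact Or.inl (rdm_fst hL (hc a ha)).symm
  · push Not at hc
    obtain ⟨q, hq, hn⟩ := hc
    have hr := hall q hq hn
    by_cases hv : p.1.fst = q.1.fst
    · have hfst : ∀ r, Um A (part A S) r → r.1.fst = p.1.fst := by
        intro r hr1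
        rcases hr r hr1 with h5 | h5
        · exact (rdm_fst hL h5).symm
        · rw [hv]
          exact (rdm_fst hL h5).symm
      have h5 : ∃ x y, Um A (part A S) x ∧ Um A (part A S) y ∧ Relation.EqvGen (rF A (part A S)) x y ∧
          ¬ Relation.EqvGen (rV A (part A S)) x y := by
        by_contra hcon
        have h6 : chiL A (part A S) ≤ 0 := by
          refine chiL_le0 A (part A S) hL (rdm_cn S A hcn) (fun z => Relation.EqvGen (rV A (part A S)) p z)
            ⟨p, hp, Relation.EqvGen.refl _⟩ ⟨q, hq, hn⟩ ?_ ?_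
          · intro a b _ _ hab
            exact ⟨fun h1 => Relation.EqvGen.trans _ _ _ h1 hab,
              fun h1 => Relation.EqvGen.trans _ _ _ h1 (Relation.EqvGen.symm _ _ hab)⟩
          · intro a b ha hb hab
            have h7 : Relation.EqvGen (rV A (part A S)) a b := by
              by_contra h8
              exact hcon ⟨a, b, ha, hb, hab, h8⟩
            exact ⟨fun h1 => Relation.EqvGen.trans _ _ _ h1 h7,
              fun h1 => Relation.EqvGen.trans _ _ _ h1 (Relation.EqvGen.symm _ _ h7)⟩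
        have h7 : chiL A (part A S) = 1 := hchi
        omega
      obtain ⟨x, y, hx, hy, hF, hV⟩ := h5
      exact rdm_core S A hcn hchi h4 x y hx hy ((hfst x hx).trans (hfst y hy).symm) hV hF
    · refine ⟨part A S, ⟨hL, rdm_cn S A hcn, ⟨p, hp⟩, ?_, ⟨p.1.fst, q.1.fst, ?_⟩, hchi⟩, rfl, fun _ _ => rfl,
        fun _ => rfl⟩
      · intro a b ha hb hab
        rcases hr a ha with h5 | h5 <;> rcases hr b hb with h6 | h6
        · exact Relation.EqvGen.trans _ _ _ (Relation.EqvGen.symm _ _ h5) h6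
        · exact absurd ((rdm_fst hL h5).trans (hab.trans (rdm_fst hL h6).symm)) hv
        · exact absurd ((rdm_fst hL h6).trans (hab.symm.trans (rdm_fst hL h5).symm)) hv
        · exact Relation.EqvGen.trans _ _ _ (Relation.EqvGen.symm _ _ h5) h6
      · intro a ha
        rcases hr a ha with h5 | h5
        · exact Or.inl (rdm_fst hL h5).symm
        · exact Or.inr (rdm_fst hL h5).symm

theorem bad_att [Nontrivial V] (hG : G.Connected) (S : GMap G) (A : Finset G.edgeSet) (h : Bad S A) :
    (att A (part A S)).Nonempty ∧ (att A (part A S)).card ≤ 2 := by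
  obtain ⟨hne, hun, hcn, hchi, h4, -⟩ := h
  have hL := omap_part A S
  obtain ⟨p, hp⟩ := rdm_open hG S A hne hun
  refine ⟨⟨p.1.fst, ?_⟩, ?_⟩
  · unfold att
    rw [mem_filter]
    exact ⟨mem_univ _, p, hp, rfl⟩
  · by_cases hc : ∀ q, Um A (part A S) q → Relation.EqvGen (rV A (part A S)) p q
    · refine le_trans (card_le_card (t := {p.1.fst}) ?_) (by rw [card_singleton]; omega)
      intro v hv
      unfold att at hv
      rw [mem_filter] at hv
      obtain ⟨-, r, hr, rfl⟩ := hv
      rw [mem_singleton]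
      exact (rdm_fst hL (hc r hr)).symm
    · push Not at hc
      obtain ⟨q, hq, hn⟩ := hc
      refine le_trans (card_le_card (t := {p.1.fst, q.1.fst}) ?_) card_le_two
      intro v hv
      unfold att at hv
      rw [mem_filter] at hv
      obtain ⟨-, r, hr, rfl⟩ := hv
      rw [mem_insert, mem_singleton]
      rcases rdm_all S A h4 p q hp hq hn r hr with h5 | h5
      · exact Or.inl (rdm_fst hL h5).symm
      · exact Or.inr (rdm_fst hL h5).symm

end Pool.Agent.FGT
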