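import Pool.Agent.FGT.RdDef2

/-!
# FGT-RdN: paths in connected sets of edges

PLAN. The graph `H` on `V` with the edges in `A` has `v`, `w` in one component (`hc`: two edges joined by a chain of edges with common ends; each edge joins its ends). Take a path (`Walk.toPath`, `IsPath`) in `H` from `v` to `w`, `P` = its edges. `one`, `cn`, `cd`: induction on the path (or from the support: `IsPath` has no repeated vertices, so
the path has `length + 1` vertices, all in `tv P`, and its edges are distinct; two consecutive edges have a common end which is an inner vertex; the ends `v`, `w` are on one edge each).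
-/

set_option autoImplicit false

open Finset
open scoped Classical

namespace Pool.Agent.FGT

open Pool.Agent.Helper35.OG (Flag GMap across side)
open Pool.Agent.BEO (F2 ed rp cyc ev bdF nb)
open Pool.Agent.BEO (frm)

variable {V : Type} {G : SimpleGraph V} [Fintype V]

omit [Fintype V] in
private theorem inv_eqv' {α : Type*} {r : α → α → Prop} {P : α → Prop} (h : ∀ x y, r x y → (P x ↔ P y)) {x y : α}
    (hxy : Relation.EqvGen r x y) : P x ↔ P y := by
  induction hxy with
  | rel x y hr => exact h x y hr
  | refl x => exact Iff.rfl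
  | symm x y _ ih => exact ih.symm
  | trans x y z _ _ ih1 ih2 => exact ih1.trans ih2

private def HA (A : Finset G.edgeSet) : SimpleGraph V :=
  SimpleGraph.fromEdgeSet {e | ∃ f ∈ A, f.1 = e}

omit [Fintype V] in
private theorem HA_adj (A : Finset G.edgeSet) (a b : V) : (HA A).Adj a b ↔ (∃ f ∈ A, f.1 = s(a, b)) ∧ a ≠ b := by
  simp only [HA, SimpleGraph.fromEdgeSet_adj, Set.mem_ofPred_eq]

omit [Fintype V] in
private theorem reach_of_edge (A : Finset G.edgeSet) {e : G.edgeSet} (he : e ∈ A) {a b : V} (ha : a ∈ e.1) (hb : b ∈ e.1) :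
    (HA A).Reachable a b := by
  by_cases h : a = b
  · rw [h]
  · apply SimpleGraph.Adj.reachable
    rw [HA_adj]
    exact ⟨⟨e, he, (Sym2.mem_and_mem_iff h).1 ⟨ha, hb⟩⟩, h⟩

omit [Fintype V] in
private theorem ends_ne (e : G.edgeSet) {a b : V} (h : e.1 = s(a, b)) : a ≠ b := by
  have h1 : G.Adj a b := by
    rw [← SimpleGraph.mem_edgeSet, ← h]
    exact e.2
  exact h1.ne

private theorem core (A : Finset G.edgeSet) (v w : V) (hvw : v ≠ w) (m : ℕ) (g : ℕ → V)
    (hadj : ∀ i, i < m → ∃ f ∈ A, f.1 = s(g i, g (i + 1)))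
    (hinj : ∀ i j, i ≤ m → j ≤ m → g i = g j → i = j) (h0 : g 0 = v) (hml : g m = w) : ∃ P ⊆ A, IsP P v w := by
  have hmpos : 0 < m := by
    rcases Nat.eq_zero_or_pos m with h | h
    · exfalso
      rw [h, h0] at hml
      exact hvw hml
    · exact h
  haveI : Nonempty G.edgeSet := ⟨(hadj 0 hmpos).choose⟩
  choose! E hE using hadj
  set P : Finset G.edgeSet := (Finset.range m).image E with hP
  have memP : ∀ x : G.edgeSet, x ∈ P ↔ ∃ i < m, E i = x := by
    intro x
    simp [hP]
  have memE : ∀ i, i < m → ∀ x, x ∈ (E i).1 ↔ x = g i ∨ x = g (i + 1) := by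
    intro i hi x
    rw [(hE i hi).2, Sym2.mem_iff]
  have htv : ∀ i ≤ m, g i ∈ tv P := by
    intro i hi
    simp only [tv, Finset.mem_filter, Finset.mem_univ, true_and]
    rcases Nat.lt_or_ge i m with h | h
    · exact ⟨E i, (memP _).2 ⟨i, h, rfl⟩, (memE i h _).2 (Or.inl rfl)⟩
    · have him : i = m := le_antisymm hi h
      refine ⟨E (m - 1), (memP _).2 ⟨m - 1, by omega, rfl⟩, (memE (m - 1) (by omega) _).2 (Or.inr ?_)⟩
      rw [him]
      congr 1
      omega
  refine ⟨P, ?_, hvw, ?_, ?_, ?_, ?_, ?_⟩
  · intro x hx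
    obtain ⟨i, hi, rfl⟩ := (memP x).1 hx
    exact (hE i hi).1
  · rw [← h0]
    exact htv 0 (Nat.zero_le _)
  · rw [← hml]
    exact htv m le_rfl
  · intro a ha b hb x hx hxa hxb
    obtain ⟨i, hi, rfl⟩ := (memP a).1 ha
    obtain ⟨j, hj, rfl⟩ := (memP b).1 hb
    rw [memE i hi] at hxa
    rw [memE j hj] at hxb
    have hij : i = j := by
      rcases hx with hx | hx
      · rw [hx, ← h0] at hxa hxb
        have h1 : i = 0 := by
          rcases hxa with h | h
          · exact (hinj 0 i (Nat.zero_le _) hi.le h).symm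
          · have := hinj 0 (i + 1) (Nat.zero_le _) hi h
            omega
        have h2 : j = 0 := by
          rcases hxb with h | h
          · exact (hinj 0 j (Nat.zero_le _) hj.le h).symm
          · have := hinj 0 (j + 1) (Nat.zero_le _) hj h
            omega
        rw [h1, h2]
      · rw [hx, ← hml] at hxa hxb
        have h1 : i + 1 = m := by
          rcases hxa with h | h
          · have := hinj m i le_rfl hi.le h
            omega
          · exact (hinj m (i + 1) le_rfl hi h).symm
        have h2 : j + 1 = m := by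
          rcases hxb with h | h
          · have := hinj m j le_rfl hj.le h
            omega
          · exact (hinj m (j + 1) le_rfl hj h).symm
        omega
    rw [hij]
  · have hchain : ∀ i, i < m → Relation.EqvGen
        (fun x y : G.edgeSet => x ∈ P ∧ y ∈ P ∧ ∃ u, u ≠ v ∧ u ≠ w ∧ u ∈ x.1 ∧ u ∈ y.1) (E 0) (E i) := by
      intro i
      induction i with
      | zero =>
        intro _
        exact Relation.EqvGen.refl _
      | succ i ih =>
        intro hi
        have hi' : i < m := by omega
        refine Relation.EqvGen.trans _ _ _ (ih hi') (Relation.EqvGen.rel _ _ ?_)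
        refine ⟨(memP _).2 ⟨i, hi', rfl⟩, (memP _).2 ⟨i + 1, hi, rfl⟩, g (i + 1), ?_, ?_,
          (memE i hi' _).2 (Or.inr rfl), (memE (i + 1) hi _).2 (Or.inl rfl)⟩
        · intro h
          rw [← h0] at h
          have := hinj (i + 1) 0 hi' (Nat.zero_le _) h
          omega
        · intro h
          rw [← hml] at h
          have := hinj (i + 1) m hi' le_rfl h
          omega
    intro a ha b hb
    obtain ⟨i, hi, rfl⟩ := (memP a).1 ha
    obtain ⟨j, hj, rfl⟩ := (memP b).1 hb
    exact Relation.EqvGen.trans _ _ _ (Relation.EqvGen.symm _ _ (hchain i hi)) (hchain j hj)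
  · have h1 : P.card ≤ m := by
      calc P.card ≤ (Finset.range m).card := Finset.card_image_le
        _ = m := Finset.card_range m
    have h2 : ((Finset.range (m + 1)).image g).card = m + 1 := by
      rw [Finset.card_image_of_injOn, Finset.card_range]
      intro i hi j hj h
      simp only [Finset.coe_range, Set.mem_Iio] at hi hj
      exact hinj i j (by omega) (by omega) h
    have h3 : (Finset.range (m + 1)).image g ⊆ tv P := by
      intro x hx
      simp only [Finset.mem_image, Finset.mem_range] at hx
      obtain ⟨i, hi, rfl⟩ := hx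
      exact htv i (by omega)
    have h4 := Finset.card_le_card h3
    omega

theorem exists_isP (A : Finset G.edgeSet)
    (hc : ∀ e ∈ A, ∀ f ∈ A, Relation.EqvGen (fun x y : G.edgeSet => x ∈ A ∧ y ∈ A ∧ ∃ u, u ∈ x.1 ∧ u ∈ y.1) e f)
    (v w : V) (hvw : v ≠ w) (hv : v ∈ tv A) (hw : w ∈ tv A) : ∃ P ⊆ A, IsP P v w := by
  simp only [tv, Finset.mem_filter, Finset.mem_univ, true_and] at hv hw
  obtain ⟨e, heA, hve⟩ := hv
  obtain ⟨f, hfA, hwf⟩ := hw
  have hreach : (HA A).Reachable v w := by
    have h1 := inv_eqv' (P := fun x : G.edgeSet => x ∈ A ∧ ∀ a ∈ x.1, (HA A).Reachable v a) (by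
      intro x y hr
      obtain ⟨hx, hy, u, hux, huy⟩ := hr
      constructor
      · rintro ⟨_, h⟩
        exact ⟨hy, fun a ha => (h u hux).trans (reach_of_edge A hy huy ha)⟩
      · rintro ⟨_, h⟩
        exact ⟨hx, fun a ha => (h u huy).trans (reach_of_edge A hx hux ha)⟩) (hc e heA f hfA)
    exact (h1.1 ⟨heA, fun a ha => reach_of_edge A heA hve ha⟩).2 w hwf
  obtain ⟨p, hp⟩ := hreach.exists_isPath
  set m := p.length with hm
  have hadj : ∀ i, i < m → (∃ f ∈ A, f.1 = s(p.getVert i, p.getVert (i + 1))) ∧ p.getVert i ≠ p.getVert (i + 1) := by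
    intro i hi
    rw [← HA_adj]
    exact p.adj_getVert_succ hi
  have hinj : ∀ i j, i ≤ m → j ≤ m → p.getVert i = p.getVert j → i = j := by
    intro i j hi hj h
    exact hp.getVert_injOn hi hj h
  exact core A v w hvw m p.getVert (fun i hi => (hadj i hi).1) hinj p.getVert_zero p.getVert_length

end Pool.Agent.FGT
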