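import Pool.Agent.FGT.RdDef2
import Pool.Agent.FGT.RdA
import Pool.Agent.FGT.RdG
import Pool.Agent.FGT.ExA

/-!
# FGT-RdO: paths are discs

PLAN. `om`: `omap_part`. `cn`: two edges of `P` with a common end `u ≠ v, w`: all edges of `G` at `u` are in `P` (`hin`), so the corners at `u` are inner and join them (`M.conn`). Open flags are at `v` or `w` (`hin`), and exist at both (`att_iff`, `hv`, `hw`); `run`: by `one` there is one edge of `P` at `v`, its two flags are related by `side`. `chi`: `vsL = (tv P).card ≥ P.card + 1`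
(`vs_tv`), so `chiL ≥ 1`; `chiL_le`.
-/

set_option autoImplicit false

open Finset
open scoped Classical

namespace Pool.Agent.FGT

open Pool.Agent.Helper35.OG (Flag GMap across side)
open Pool.Agent.BEO (F2 ed rp cyc ev bdF nb)
open Pool.Agent.BEO (frm)

variable {V : Type} {G : SimpleGraph V} [Fintype V]

private theorem flag_eq_of_ed {p q : Flag G} (h1 : ed p = ed q) (h2 : p.1.fst = q.1.fst) :
    q = p ∨ q = side p := by
  have h3 : p.1.edge = q.1.edge := congrArg Subtype.val h1
  have h4 : q.1 = p.1 := by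
    rcases (SimpleGraph.dart_edge_eq_iff p.1 q.1).1 h3 with h | h
    · exact h.symm
    · exfalso
      rw [h] at h2
      exact q.1.adj.ne h2.symm
  rcases p with ⟨x, s⟩
  rcases q with ⟨y, t⟩
  simp only at h4
  subst h4
  by_cases h5 : t = s
  · left
    rw [h5]
  · right
    show (y, t) = (y, !s)
    cases t <;> cases s <;> simp_all

private theorem exists_flag_at (e : G.edgeSet) (u : V) (h : u ∈ e.1) :
    ∃ p : Flag G, ed p = e ∧ p.1.fst = u := by
  obtain ⟨e, he⟩ := e
  obtain ⟨x, hx⟩ := Sym2.mem_iff_exists.1 h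
  have h1 : G.Adj u x := by
    rw [← SimpleGraph.mem_edgeSet, ← hx]
    exact he
  refine ⟨(⟨(u, x), h1⟩, true), ?_, rfl⟩
  apply Subtype.ext
  exact hx.symm

private theorem fst_mem_ed (p : Flag G) : p.1.fst ∈ (ed p).1 := by
  show p.1.fst ∈ p.1.edge
  exact Sym2.mem_mk_left _ _

theorem isP_dsc (P : Finset G.edgeSet) (v w : V) (hP : IsP P v w) (M : GMap G)
    (hin : ∀ u ∈ tv P, u ≠ v → u ≠ w → ∀ e : G.edgeSet, u ∈ e.1 → e ∈ P) (hv : ∃ e : G.edgeSet, e ∉ P ∧ v ∈ e.1)
    (hw : ∃ e : G.edgeSet, e ∉ P ∧ w ∈ e.1) : Dsc P (part P M) ∧ att P (part P M) = {v, w} := by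
  have hom : OMap P (part P M) := omap_part P M
  have hatt : att P (part P M) = {v, w} := by
    ext x
    rw [att_iff P _ hom x, mem_insert, mem_singleton]
    constructor
    · rintro ⟨h1, e, h2, h3⟩
      by_contra h4
      rw [not_or] at h4
      exact h2 (hin x h1 h4.1 h4.2 e h3)
    · rintro (rfl | rfl)
      · exact ⟨hP.hv, hv⟩
      · exact ⟨hP.hw, hw⟩
  have hvw : ∀ p, Um P (part P M) p → p.1.fst = v ∨ p.1.fst = w := by
    intro p hp
    have h1 : p.1.fst ∈ att P (part P M) := by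
      unfold att
      rw [mem_filter]
      exact ⟨mem_univ _, p, hp, rfl⟩
    rw [hatt, mem_insert, mem_singleton] at h1
    exact h1
  have hcn : CnL P (part P M) := by
    intro e he f hf
    have key : ∀ u, u ≠ v → u ≠ w → u ∈ tv P → ∀ x y : Flag G,
        Relation.EqvGen (fun x y => y = M.nxt x ∨ y = side x) x y → x.1.fst = y.1.fst ∧
        (x.1.fst = u → Relation.EqvGen (fun x y => x ∈ P ∧ y ∈ P ∧
          ∃ p : Flag G, ed p = x ∧ ed (part P M p) = y) (ed x) (ed y)) := by
      intro u hu1 hu2 hu3 x y hxy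
      induction hxy with
      | rel x y h =>
        rcases h with rfl | rfl
        · refine ⟨(M.nxt_fst x).symm, fun hx => ?_⟩
          have h1 : ed x ∈ P := hin u hu3 hu1 hu2 _ (hx ▸ fst_mem_ed x)
          have h2 : ed (M.nxt x) ∈ P :=
            hin u hu3 hu1 hu2 _ (by rw [← hx, ← M.nxt_fst x]; exact fst_mem_ed _)
          have h3 : part P M x = M.nxt x := if_pos ⟨h1, h2⟩
          exact Relation.EqvGen.rel _ _ ⟨h1, h2, x, rfl, by rw [h3]⟩
        · exact ⟨rfl, fun _ => Relation.EqvGen.refl _⟩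
      | refl x => exact ⟨rfl, fun _ => Relation.EqvGen.refl _⟩
      | symm x y _ ih =>
        exact ⟨ih.1.symm, fun h => Relation.EqvGen.symm _ _ (ih.2 (ih.1.trans h))⟩
      | trans x y z _ _ ih1 ih2 =>
        exact ⟨ih1.1.trans ih2.1, fun h =>
          Relation.EqvGen.trans _ _ _ (ih1.2 h) (ih2.2 (ih1.1.symm.trans h))⟩
    have h1 := hP.cn e he f hf
    clear he hf
    induction h1 with
    | rel x y h =>
      obtain ⟨hx, hy, u, hu1, hu2, hux, huy⟩ := h
      obtain ⟨p, hp1, hp2⟩ := exists_flag_at x u hux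
      obtain ⟨q, hq1, hq2⟩ := exists_flag_at y u huy
      have hu3 : u ∈ tv P := by
        unfold tv
        rw [mem_filter]
        exact ⟨mem_univ _, x, hx, hux⟩
      have h2 := (key u hu1 hu2 hu3 p q (M.conn p q (hp2.trans hq2.symm))).2 hp2
      rw [hp1, hq1] at h2
      exact h2
    | refl x => exact Relation.EqvGen.refl _
    | symm x y _ ih => exact Relation.EqvGen.symm _ _ ih
    | trans x y z _ _ ih1 ih2 => exact Relation.EqvGen.trans _ _ _ ih1 ih2
  have hum : ∃ p, Um P (part P M) p := by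
    have h1 : v ∈ att P (part P M) := by
      rw [hatt]
      exact mem_insert_self _ _
    unfold att at h1
    rw [mem_filter] at h1
    obtain ⟨-, p, hp, -⟩ := h1
    exact ⟨p, hp⟩
  have hrun : ∀ p q, Um P (part P M) p → Um P (part P M) q → p.1.fst = q.1.fst →
      Relation.EqvGen (rV P (part P M)) p q := by
    intro p q hp hq hpq
    have h1 : ed p = ed q :=
      hP.one (ed p) hp.1 (ed q) hq.1 p.1.fst (hvw p hp) (fst_mem_ed p) (hpq ▸ fst_mem_ed q)
    rcases flag_eq_of_ed h1 hpq with rfl | rfl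
    · exact Relation.EqvGen.refl _
    · exact Relation.EqvGen.rel _ _ ⟨hp.1, Or.inr rfl⟩
  refine ⟨⟨hom, hcn, hum, hrun, ⟨v, w, hvw⟩, ?_⟩, hatt⟩
  have h1 := chiL_le P (part P M) hom hcn hum
  have h2 := vs_tv P (part P M) hom hrun
  have h3 := hP.cd
  unfold chiL at h1 ⊢
  rw [h2] at h1 ⊢
  omega

end Pool.Agent.FGT
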