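import Pool.Agent.FGT.RdDef2
import Pool.Agent.FGT.RdG
import Pool.Agent.FGT.RdM
import Pool.Agent.FGT.ExA
import Pool.Agent.FGT.RdM

/-!
# FGT-RdP1: the new graph

PLAN. The vertices of `A` other than its attachments have all their edges in `A` (`att_iff` in RdG, `omap_part`). `stp_ec`: there is an edge outside `A` (`A ≠ univ`). Every vertex which is an end of an edge outside `A` is joined by edges outside `A` to an attachment (take a walk in `G` to a vertex of `A` and stop at the first vertex in `tv A`, which is
an attachment because it is an end of an edge outside, or it is an attachment itself); `R` joins the two attachments. `stp_card`: `R = ∅`: `A` is not empty. `R = {s(v, w)}`: `A` has at least two edges: a single edge with four mixed flags is trivial, and a single edge with two attachments has four mixed flags. `R = {s(v, x), s(x, w)}`: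
`A` has at least three edges: `A` is connected, joins `v` and `w` and does not contain the edge `v w`, so it has at least two edges, and if it has exactly two, they are `v u`, `u w`, `u` is not an attachment, so `nb G u = {v, w}`, `A = rk {u}` and `v`, `w` are adjacent (`Oe`): trivial. (`mix_um`: `mix A S` are the open flags: `mem_mix` in ExA.)
-/

set_option autoImplicit false

open Finset
open scoped Classical

namespace Pool.Agent.FGT

open Pool.Agent.Helper35.OG (Flag GMap across side)
open Pool.Agent.BEO (F2 ed rp cyc ev bdF nb)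
open Pool.Agent.BEO (frm)

variable {V : Type} {G : SimpleGraph V} [Fintype V]

omit [Fintype V] in
private theorem p1_mem (A : Finset G.edgeSet) (R : Finset (Sym2 V)) (e : Sym2 V) :
    e ∈ (GR A R).edgeSet ↔ ((∃ f : G.edgeSet, f.1 = e ∧ f ∉ A) ∨ e ∈ R) ∧ ¬ e.IsDiag := by
  unfold GR
  rw [SimpleGraph.edgeSet_fromEdgeSet]
  simp only [Set.mem_sdiff, Set.mem_union, Set.mem_ofPred_eq, Finset.mem_coe]
  exact Iff.rfl

omit [Fintype V] in
private theorem p1_adj (A : Finset G.edgeSet) (R : Finset (Sym2 V)) (a b : V) :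
    (GR A R).Adj a b ↔ ((∃ f : G.edgeSet, f.1 = s(a, b) ∧ f ∉ A) ∨ s(a, b) ∈ R) ∧ a ≠ b := by
  rw [← SimpleGraph.mem_edgeSet, p1_mem, Sym2.mk_isDiag_iff]

private theorem p1_tv (A : Finset G.edgeSet) (v : V) : v ∈ tv A ↔ ∃ e ∈ A, v ∈ e.1 := by
  unfold tv
  rw [Finset.mem_filter]
  exact ⟨fun h => h.2, fun h => ⟨Finset.mem_univ _, h⟩⟩

private theorem p1_att (S : GMap G) (A : Finset G.edgeSet) (v : V) :
    v ∈ att A (part A S) ↔ v ∈ tv A ∧ ∃ e : G.edgeSet, e ∉ A ∧ v ∈ e.1 := att_iff A _ (omap_part A S) v

private theorem p1_dr (H : SimpleGraph V) (R : Finset (Sym2 V)) (e : H.edgeSet) : e ∈ DR H R ↔ e.1 ∈ R := by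
  unfold DR
  rw [Finset.mem_filter]
  exact ⟨fun h => h.2, fun h => ⟨Finset.mem_univ _, h⟩⟩

/-- every end of an edge outside is joined to an attachment -/
private theorem p1_reach (S : GMap G) (A : Finset G.edgeSet) (R : Finset (Sym2 V)) {u t : V} (w : G.Walk u t) (ht : t ∈ tv A) :
    (∃ e : G.edgeSet, e ∉ A ∧ u ∈ e.1) → ∃ a ∈ att A (part A S), (GR A R).Reachable u a := by
  induction w with
  | nil =>
    intro h
    exact ⟨_, (p1_att S A _).2 ⟨ht, h⟩, SimpleGraph.Reachable.refl _⟩
  | @cons u u' t hadj w ih =>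
    intro h
    by_cases hu : u ∈ tv A
    · exact ⟨_, (p1_att S A _).2 ⟨hu, h⟩, SimpleGraph.Reachable.refl _⟩
    · have h1 : (⟨s(u, u'), hadj⟩ : G.edgeSet) ∉ A := fun h2 =>
        hu ((p1_tv A u).2 ⟨_, h2, Sym2.mem_mk_left _ _⟩)
      obtain ⟨a, ha, hr⟩ := ih ht ⟨_, h1, Sym2.mem_mk_right _ _⟩
      refine ⟨a, ha, SimpleGraph.Reachable.trans (SimpleGraph.Adj.reachable ?_) hr⟩
      exact (p1_adj A R u u').2 ⟨Or.inl ⟨_, rfl, h1⟩, hadj.ne⟩

omit [Fintype V] in
private theorem p1_ne (e : G.edgeSet) {a b : V} (h : e.1 = s(a, b)) : a ≠ b := by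
  have h1 : G.Adj a b := by
    rw [← SimpleGraph.mem_edgeSet, ← h]
    exact e.2
  exact h1.ne

omit [Fintype V] in
/-- an edge with two different given ends -/
private theorem p1_two {e : Sym2 V} {a b : V} (hab : a ≠ b) (ha : a ∈ e) (hb : b ∈ e) : e = s(a, b) :=
  ((Sym2.mem_and_mem_iff hab).1 ⟨ha, hb⟩)

/-- the vertices of the second kind of replacement -/
private theorem p1_x (S : GMap G) (A : Finset G.edgeSet) {v w x : V} (ha : att A (part A S) = {v, w}) (hx : x ∈ tv A)
    (hxv : x ≠ v) (hxw : x ≠ w) (e : G.edgeSet) (he : e ∉ A) : x ∉ e.1 := by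
  intro h
  have h1 := (p1_att S A x).2 ⟨hx, e, he, h⟩
  rw [ha, Finset.mem_insert, Finset.mem_singleton] at h1
  rcases h1 with h1 | h1
  · exact hxv h1
  · exact hxw h1

theorem stp_ec [Nontrivial V] (hG : G.Connected) (S : GMap G) (A : Finset G.edgeSet) (h : Bad S A) (R : Finset (Sym2 V))
    (hR : RR S A R) : EC (GR A R) := by
  obtain ⟨hne, hun, hcn, hchi, h4, htr⟩ := h
  have hb := bad_att hG S A ⟨hne, hun, hcn, hchi, h4, htr⟩
  obtain ⟨e0, he0⟩ := hne
  obtain ⟨f0, hf0⟩ : ∃ f : G.edgeSet, f ∉ A := by
    by_contra hcon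
    push Not at hcon
    exact hun (Finset.eq_univ_iff_forall.2 hcon)
  -- the attachments are joined
  have hatt : ∀ a ∈ att A (part A S), ∀ b ∈ att A (part A S), (GR A R).Reachable a b := by
    intro a ha b hb'
    rcases hR with ⟨h1, -⟩ | ⟨v, w, hvw, h1, h2⟩
    · rw [Finset.card_le_one.1 h1 a ha b hb']
    · have h3 : (GR A R).Reachable v w := by
        rcases h2 with ⟨-, rfl⟩ | ⟨-, x, hx, hxv, hxw, rfl⟩
        · exact SimpleGraph.Adj.reachable ((p1_adj A _ v w).2 ⟨Or.inr (Finset.mem_singleton_self _), hvw⟩)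
        · exact SimpleGraph.Reachable.trans
            (SimpleGraph.Adj.reachable ((p1_adj A _ v x).2 ⟨Or.inr (Finset.mem_insert_self _ _), hxv.symm⟩))
            (SimpleGraph.Adj.reachable ((p1_adj A _ x w).2
              ⟨Or.inr (Finset.mem_insert_of_mem (Finset.mem_singleton_self _)), hxw⟩))
      rw [h1, Finset.mem_insert, Finset.mem_singleton] at ha hb'
      rcases ha with rfl | rfl <;> rcases hb' with rfl | rfl
      · exact SimpleGraph.Reachable.refl _
      · exact h3
      · exact h3.symm
      · exact SimpleGraph.Reachable.refl _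
  -- everything is joined to an attachment
  have hall : ∀ u, (∃ w, (GR A R).Adj u w) → ∃ a ∈ att A (part A S), (GR A R).Reachable u a := by
    rintro u ⟨u', hu⟩
    obtain ⟨h1, h2⟩ := (p1_adj A R u u').1 hu
    rcases h1 with ⟨f, hf, hfA⟩ | h1
    · obtain ⟨t, ht⟩ : ∃ t, t ∈ e0.1 := ⟨_, Sym2.out_fst_mem e0.1⟩
      obtain ⟨wk⟩ := hG.preconnected u t
      exact p1_reach S A R wk ((p1_tv A t).2 ⟨e0, he0, ht⟩) ⟨f, hfA, by rw [hf]; exact Sym2.mem_mk_left _ _⟩
    · rcases hR with ⟨-, rfl⟩ | ⟨v, w, hvw, h3, h4⟩
      · exact absurd h1 (Finset.notMem_empty _)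
      · have hv : v ∈ att A (part A S) := by rw [h3]; exact Finset.mem_insert_self _ _
        have hw : w ∈ att A (part A S) := by
          rw [h3]; exact Finset.mem_insert_of_mem (Finset.mem_singleton_self _)
        rcases h4 with ⟨-, rfl⟩ | ⟨-, x, hx, hxv, hxw, rfl⟩
        · rw [Finset.mem_singleton] at h1
          have h5 : u ∈ s(v, w) := by rw [← h1]; exact Sym2.mem_mk_left _ _
          rcases Sym2.mem_iff.1 h5 with rfl | rfl
          · exact ⟨_, hv, SimpleGraph.Reachable.refl _⟩
          · exact ⟨_, hw, SimpleGraph.Reachable.refl _⟩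
        · rw [Finset.mem_insert, Finset.mem_singleton] at h1
          have h6 : (GR A {s(v, x), s(x, w)}).Adj x w := (p1_adj A _ x w).2
              ⟨Or.inr (Finset.mem_insert_of_mem (Finset.mem_singleton_self _)), hxw⟩
          have h5 : u = v ∨ u = x ∨ u = w := by
            rcases h1 with h1 | h1
            · have h5 : u ∈ s(v, x) := by rw [← h1]; exact Sym2.mem_mk_left _ _
              rcases Sym2.mem_iff.1 h5 with h6 | h6
              · exact Or.inl h6
              · exact Or.inr (Or.inl h6)
            · have h5 : u ∈ s(x, w) := by rw [← h1]; exact Sym2.mem_mk_left _ _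
              exact Or.inr (Sym2.mem_iff.1 h5)
          rcases h5 with rfl | rfl | rfl
          · exact ⟨_, hv, SimpleGraph.Reachable.refl _⟩
          · exact ⟨_, hw, SimpleGraph.Adj.reachable h6⟩
          · exact ⟨_, hw, SimpleGraph.Reachable.refl _⟩
  refine ⟨?_, ?_⟩
  · obtain ⟨a, b, hab⟩ : ∃ a b, f0.1 = s(a, b) := by
      refine Sym2.ind (f := fun z => ∃ a b, z = s(a, b)) (fun a b => ⟨a, b, rfl⟩) f0.1
    exact ⟨a, b, (p1_adj A R a b).2 ⟨Or.inl ⟨f0, hab, hf0⟩, p1_ne f0 hab⟩⟩
  · intro u v hu hv
    obtain ⟨a, ha, h1⟩ := hall u hu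
    obtain ⟨b, hb', h2⟩ := hall v hv
    exact (h1.trans (hatt a ha b hb')).trans h2.symm

omit [Fintype V] in
private theorem p1_fst_mem (p : Flag G) : p.1.fst ∈ (ed p).1 := by
  show p.1.fst ∈ p.1.edge
  exact Sym2.mem_mk_left _ _

omit [Fintype V] in
/-- two flags over the same edge at the same vertex -/
private theorem p1_flag {p q : Flag G} (h : ed p = ed q) (h1 : p.1.fst = q.1.fst) : q = p ∨ q = side p := by
  obtain ⟨⟨⟨a, b⟩, hab⟩, c⟩ := p
  obtain ⟨⟨⟨a', b'⟩, hab'⟩, c'⟩ := q
  have h2 : s(a, b) = s(a', b') := congrArg Subtype.val h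
  have h1' : a = a' := h1
  subst h1'
  have h3 : b = b' := by
    rcases Sym2.eq_iff.1 h2 with h3 | h3
    · exact h3.2
    · rw [h3.2, ← h3.1]
  subst h3
  by_cases hc : c' = c
  · left
    rw [hc]
  · right
    have h4 : c' = !c := by
      cases c <;> cases c' <;> simp_all
    rw [h4]
    rfl

/-- a single edge with two attachments is trivial -/
private theorem p1_one (S : GMap G) (A : Finset G.edgeSet) {v w : V} (hvw : v ≠ w) (hv : v ∈ att A (part A S))
    (hw : w ∈ att A (part A S)) (h1 : A.card = 1) : Trv S A := by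
  obtain ⟨e, rfl⟩ := Finset.card_eq_one.1 h1
  left
  refine ⟨h1, ?_⟩
  have hve : ∀ y ∈ att {e} (part {e} S), y ∈ e.1 := by
    intro y hy
    obtain ⟨f, hf, hyf⟩ := (p1_tv _ _).1 ((p1_att S _ y).1 hy).1
    rw [Finset.mem_singleton] at hf
    rwa [hf] at hyf
  have he : e.1 = s(v, w) := p1_two hvw (hve v hv) (hve w hw)
  have hadj : G.Adj v w := by
    rw [← SimpleGraph.mem_edgeSet, ← he]
    exact e.2
  -- all flags over the edge are open
  have hop : ∀ p : Flag G, ed p = e → p ∈ mix {e} S := by
    intro p hp
    rw [mem_mix]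
    have hp0 : p.1.fst ∈ att {e} (part {e} S) := by
      have h2 := p1_fst_mem p
      rw [hp, he] at h2
      rcases Sym2.mem_iff.1 h2 with h3 | h3
      · rw [h3]; exact hv
      · rw [h3]; exact hw
    obtain ⟨f, hf, hpf⟩ := ((p1_att S _ _).1 hp0).2
    by_contra hno
    have h3 : part {e} S p ≠ p := fun h => hno ⟨by rw [hp]; exact Finset.mem_singleton_self _, h⟩
    have h4 : ed (part {e} S p) = e := by
      have := (omap_part {e} S).mem p (by rw [hp]; exact Finset.mem_singleton_self _)
      rwa [Finset.mem_singleton] at this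
    have h5 : part {e} S p = side p := by
      rcases p1_flag (p := p) (q := part {e} S p) (by rw [hp, h4]) ((omap_part {e} S).fst p).symm with h6 | h6
      · exact absurd h6 h3
      · exact h6
    have h6 : part {e} S (side p) = p := by
      rw [← h5]
      exact (omap_part {e} S).inv p
    have hss : side (side p) = p := by
      obtain ⟨d, c⟩ := p
      show (d, !!c) = (d, c)
      rw [Bool.not_not]
    have h7 : ∀ x y : Flag G, Relation.EqvGen (rV {e} (part {e} S)) x y → ((x = p ∨ x = side p) ↔ (y = p ∨ y = side p)) := by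
      intro x y hxy
      induction hxy with
      | rel x y hr =>
        obtain ⟨-, rfl | rfl⟩ := hr
        · constructor
          · rintro (rfl | rfl)
            · exact Or.inr h5
            · exact Or.inl h6
          · rintro (h | h)
            · have := congrArg (part {e} S) h
              rw [(omap_part {e} S).inv, h5] at this
              exact Or.inr this
            · have := congrArg (part {e} S) h
              rw [(omap_part {e} S).inv, h6] at this
              exact Or.inl this
        · constructor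
          · rintro (rfl | rfl)
            · exact Or.inr rfl
            · exact Or.inl hss
          · rintro (h | h)
            · right
              rw [← h]
              obtain ⟨d, c⟩ := x
              show (d, c) = (d, !!c)
              rw [Bool.not_not]
            · left
              have h8 : side (side x) = side (side p) := congrArg side h
              rw [hss] at h8
              obtain ⟨d, c⟩ := x
              have h9 : (d, !!c) = p := h8
              rwa [Bool.not_not] at h9
      | refl x => exact Iff.rfl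
      | symm x y _ ih => exact ih.symm
      | trans x y z _ _ ih1 ih2 => exact ih1.trans ih2
    rcases (omap_part {e} S).run p (by rw [hp]; exact Finset.mem_singleton_self _) with ⟨q, hq, hpq⟩ | h8
    · rcases (h7 p q hpq).1 (Or.inl rfl) with rfl | rfl
      · exact h3 hq.2
      · have := hq.2
        rw [h6] at this
        apply h3
        rw [h5]
        exact this.symm
    · obtain ⟨a, hpa⟩ := Sym2.mem_iff_exists.1 hpf
      have hadj' : G.Adj p.1.fst a := by
        rw [← SimpleGraph.mem_edgeSet, ← hpa]
        exact f.2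
      have h9 := (h8 (⟨(p.1.fst, a), hadj'⟩, true) rfl).1
      apply hf
      have h10 : ed ((⟨(p.1.fst, a), hadj'⟩, true) : Flag G) = f := Subtype.ext hpa.symm
      rwa [h10] at h9
  have hmix : mix {e} S = {((⟨(v, w), hadj⟩, true) : Flag G), (⟨(v, w), hadj⟩, false), (⟨(w, v), hadj.symm⟩, true),
      (⟨(w, v), hadj.symm⟩, false)} := by
    ext p
    constructor
    · intro hp
      rw [mem_mix] at hp
      have h2 := hp.1
      rw [Finset.mem_singleton] at h2
      have h3 := p1_fst_mem p
      rw [h2, he] at h3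
      have h4 : ed ((⟨(v, w), hadj⟩, true) : Flag G) = e := Subtype.ext he.symm
      have h5 : ed ((⟨(w, v), hadj.symm⟩, true) : Flag G) = e := Subtype.ext (Sym2.eq_swap.trans he.symm)
      simp only [Finset.mem_insert, Finset.mem_singleton]
      rcases Sym2.mem_iff.1 h3 with h6 | h6
      · rcases p1_flag (p := ((⟨(v, w), hadj⟩, true) : Flag G)) (q := p) (by rw [h4, h2]) h6.symm with h7 | h7
        · exact Or.inl h7
        · exact Or.inr (Or.inl h7)
      · rcases p1_flag (p := ((⟨(w, v), hadj.symm⟩, true) : Flag G)) (q := p) (by rw [h5, h2]) h6.symm with h7 | h7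
        · exact Or.inr (Or.inr (Or.inl h7))
        · exact Or.inr (Or.inr (Or.inr h7))
    · intro hp
      simp only [Finset.mem_insert, Finset.mem_singleton] at hp
      apply hop
      rcases hp with rfl | rfl | rfl | rfl
      · exact Subtype.ext he.symm
      · exact Subtype.ext he.symm
      · exact Subtype.ext (Sym2.eq_swap.trans he.symm)
      · exact Subtype.ext (Sym2.eq_swap.trans he.symm)
  rw [hmix]
  rw [Finset.card_eq_succ]
  refine ⟨_, _, ?_, rfl, ?_⟩
  · simp [hvw, hvw.symm]
  · rw [Finset.card_eq_succ]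
    refine ⟨_, _, ?_, rfl, ?_⟩
    · simp [hvw, hvw.symm]
    · rw [Finset.card_eq_two]
      exact ⟨_, _, by simp, rfl⟩

theorem stp_card [Nontrivial V] (hG : G.Connected) (S : GMap G) (A : Finset G.edgeSet) (h : Bad S A) (R : Finset (Sym2 V))
    (hR : RR S A R) : Nat.card (GR A R).edgeSet < Nat.card G.edgeSet := by
  obtain ⟨hne, hun, hcn, hchi, h4, htr⟩ := h
  have hRA : R.card < A.card := by
    rcases hR with ⟨-, rfl⟩ | ⟨v, w, hvw, ha, hR⟩
    · rw [Finset.card_empty]
      exact hne.card_pos
    · have hv : v ∈ att A (part A S) := by rw [ha]; exact Finset.mem_insert_self _ _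
      have hw : w ∈ att A (part A S) := by
        rw [ha]; exact Finset.mem_insert_of_mem (Finset.mem_singleton_self _)
      have h1 : A.card ≠ 1 := fun h1 => htr (p1_one S A hvw hv hw h1)
      have h0 := hne.card_pos
      rcases hR with ⟨-, rfl⟩ | ⟨hoe, x, hx, hxv, hxw, rfl⟩
      · rw [Finset.card_singleton]
        omega
      · have h2 : A.card ≠ 2 := by
          intro h2
          obtain ⟨g, hg, hgvw⟩ := hoe
          obtain ⟨e, heA, hve⟩ := (p1_tv _ _).1 ((p1_att S _ v).1 hv).1
          obtain ⟨f, hfA, hwf⟩ := (p1_tv _ _).1 ((p1_att S _ w).1 hw).1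
          have hnb : ∀ y ∈ A, v ∈ y.1 → w ∉ y.1 := by
            intro y hy hvy hwy
            have h3 : y = g := Subtype.ext ((p1_two hvw hvy hwy).trans hgvw.symm)
            exact hg (h3 ▸ hy)
          have hef : e ≠ f := fun h3 => hnb e heA hve (h3 ▸ hwf)
          have hA : ∀ y ∈ A, y = e ∨ y = f := by
            intro y hy
            by_contra hcon
            push Not at hcon
            have h3 : ({y, e, f} : Finset G.edgeSet) ⊆ A := by
              intro z hz
              simp only [Finset.mem_insert, Finset.mem_singleton] at hz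
              rcases hz with rfl | rfl | rfl
              · exact hy
              · exact heA
              · exact hfA
            have h4 := Finset.card_le_card h3
            rw [Finset.card_insert_of_notMem (by simp [hcon.1, hcon.2]), Finset.card_pair hef] at h4
            omega
          -- a common vertex
          obtain ⟨u, hue, huf⟩ : ∃ u, u ∈ e.1 ∧ u ∈ f.1 := by
            by_contra hcon
            have h3 := Pool.Agent.Helper35.OG.eqvGen_eq (fun y : G.edgeSet => y = e)
              (fun y z hyz => by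
                obtain ⟨hy, hz, p, hp1, hp2⟩ := hyz
                have h5 : p.1.fst ∈ y.1 := by rw [← hp1]; exact p1_fst_mem p
                have h6 : p.1.fst ∈ z.1 := by
                  rw [← hp2, ← S.nxt_fst p]
                  exact p1_fst_mem _
                refine propext ⟨fun h => ?_, fun h => ?_⟩
                · rcases hA z hz with h7 | h7
                  · exact h7
                  · exact absurd ⟨p.1.fst, h ▸ h5, h7 ▸ h6⟩ hcon
                · rcases hA y hy with h7 | h7
                  · exact h7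
                  · exact absurd ⟨p.1.fst, h ▸ h6, h7 ▸ h5⟩ hcon) (hcn e heA f hfA)
            have h4 : f = e := h3.mp rfl
            exact hef h4.symm
          have huv : u ≠ v := fun h => hnb f hfA (h ▸ huf) hwf
          have huw : u ≠ w := fun h => hnb e heA hve (h ▸ hue)
          have heq : e.1 = s(v, u) := p1_two huv.symm hve hue
          have hfq : f.1 = s(u, w) := p1_two huw huf hwf
          have hout := fun g' hg' => p1_x S A ha ((p1_tv A u).2 ⟨e, heA, hue⟩) huv huw g' hg'
          apply htr
          right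
          refine ⟨u, v, w, hvw, ?_, ?_, ?_⟩
          · rw [← SimpleGraph.mem_edgeSet, ← hgvw]
            exact g.2
          · ext y
            rw [Finset.mem_insert, Finset.mem_singleton]
            unfold nb
            rw [Finset.mem_filter]
            constructor
            · rintro ⟨-, hy⟩
              have h5 : (⟨s(u, y), hy⟩ : G.edgeSet) ∈ A := by
                by_contra h5
                exact hout _ h5 (Sym2.mem_mk_left _ _)
              rcases hA _ h5 with h6 | h6
              · have h7 : s(u, y) = s(v, u) := (congrArg Subtype.val h6).trans heq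
                left
                rcases Sym2.eq_iff.1 h7 with h8 | h8
                · exact absurd h8.1 huv
                · exact h8.2
              · have h7 : s(u, y) = s(u, w) := (congrArg Subtype.val h6).trans hfq
                right
                rcases Sym2.eq_iff.1 h7 with h8 | h8
                · exact h8.2
                · exact absurd h8.1 huw
            · rintro (rfl | rfl)
              · refine ⟨Finset.mem_univ _, ?_⟩
                rw [← SimpleGraph.mem_edgeSet, Sym2.eq_swap, ← heq]
                exact e.2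
              · refine ⟨Finset.mem_univ _, ?_⟩
                rw [← SimpleGraph.mem_edgeSet, ← hfq]
                exact f.2
          · ext y
            unfold rk
            rw [Finset.mem_filter]
            constructor
            · intro hy
              refine ⟨Finset.mem_univ _, u, Finset.mem_singleton_self _, ?_⟩
              rcases hA y hy with rfl | rfl
              · exact hue
              · exact huf
            · rintro ⟨-, z, hz, hzy⟩
              rw [Finset.mem_singleton] at hz
              rw [hz] at hzy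
              by_contra h5
              exact hout y h5 hzy
        have h3 : ({s(v, x), s(x, w)} : Finset (Sym2 V)).card ≤ 2 := Finset.card_le_two
        omega
  -- count
  have h1 : Nat.card (GR A R).edgeSet ≤ (Aᶜ).card + R.card := by
    have h2 : (GR A R).edgeSet ⊆ ((((Aᶜ).image Subtype.val) ∪ R : Finset (Sym2 V)) : Set (Sym2 V)) := by
      intro e he
      rw [Finset.mem_coe, Finset.mem_union]
      rcases ((p1_mem A R e).1 he).1 with ⟨f, hf, hfA⟩ | h3
      · exact Or.inl (Finset.mem_image.2 ⟨f, Finset.mem_compl.2 hfA, hf⟩)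
      · exact Or.inr h3
    have h3 : Nat.card (GR A R).edgeSet ≤ (((Aᶜ).image Subtype.val) ∪ R : Finset (Sym2 V)).card := by
      rw [← Set.ncard_coe_finset]
      exact Set.ncard_le_ncard h2 (Finset.finite_toSet _)
    exact h3.trans ((Finset.card_union_le _ _).trans (Nat.add_le_add_right Finset.card_image_le _))
  have h2 : (Aᶜ).card + A.card = Nat.card G.edgeSet := by
    rw [Nat.card_eq_fintype_card, Finset.card_compl]
    have := Finset.card_le_univ A
    omega
  omega

/-- the edges outside `A` are the edges of the new graph outside `R` -/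
theorem stp_out (S : GMap G) (A : Finset G.edgeSet) (R : Finset (Sym2 V)) (hR : RR S A R) : Out A (DR (GR A R) R) := by
  intro e
  constructor
  · rintro ⟨f, rfl, hfA⟩
    have h1 : f.1 ∈ (GR A R).edgeSet :=
      (p1_mem A R f.1).2 ⟨Or.inl ⟨f, rfl, hfA⟩, G.not_isDiag_of_mem_edgeSet f.2⟩
    refine ⟨⟨f.1, h1⟩, rfl, ?_⟩
    rw [p1_dr]
    intro h2
    rcases hR with ⟨-, rfl⟩ | ⟨v, w, hvw, ha, hR⟩
    · exact absurd h2 (Finset.notMem_empty _)
    · rcases hR with ⟨hoe, rfl⟩ | ⟨hoe, x, hx, hxv, hxw, rfl⟩
      · rw [Finset.mem_singleton] at h2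
        exact hoe ⟨f, hfA, h2⟩
      · rw [Finset.mem_insert, Finset.mem_singleton] at h2
        refine p1_x S A ha hx hxv hxw f hfA ?_
        rcases h2 with h2 | h2
        · change f.1 = s(v, x) at h2
          rw [h2]
          exact Sym2.mem_mk_right _ _
        · change f.1 = s(x, w) at h2
          rw [h2]
          exact Sym2.mem_mk_left _ _
  · rintro ⟨f, rfl, hf⟩
    rw [p1_dr] at hf
    rcases ((p1_mem A R f.1).1 f.2).1 with h1 | h1
    · exact h1
    · exact absurd h1 hf

theorem stp_isP [Nontrivial V] (hG : G.Connected) (S : GMap G) (A : Finset G.edgeSet) (h : Bad S A) (R : Finset (Sym2 V))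
    (v w : V) (hvw : v ≠ w) (ha : att A (part A S) = {v, w})
    (hR : (¬ Oe A v w ∧ R = {s(v, w)}) ∨ (Oe A v w ∧ ∃ x ∈ tv A, x ≠ v ∧ x ≠ w ∧ R = {s(v, x), s(x, w)})) :
    IsP (DR (GR A R) R) v w ∧
      (∀ u ∈ tv (DR (GR A R) R), u ≠ v → u ≠ w → ∀ e : (GR A R).edgeSet, u ∈ e.1 → e ∈ DR (GR A R) R) ∧
      (∃ e : (GR A R).edgeSet, e ∉ DR (GR A R) R ∧ v ∈ e.1) ∧ (∃ e : (GR A R).edgeSet, e ∉ DR (GR A R) R ∧ w ∈ e.1) ∧
      (DR (GR A R) R).card ≤ 2 := by
  have hO : Out A (DR (GR A R) R) := stp_out S A R (Or.inr ⟨v, w, hvw, ha, hR⟩)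
  have hve : ∀ y ∈ att A (part A S), ∃ e : (GR A R).edgeSet, e ∉ DR (GR A R) R ∧ y ∈ e.1 := by
    intro y hy
    obtain ⟨e, heA, hye⟩ := ((p1_att S A y).1 hy).2
    obtain ⟨f, hf, hfD⟩ := (hO e.1).1 ⟨e, rfl, heA⟩
    exact ⟨f, hfD, by rw [hf]; exact hye⟩
  have hv : v ∈ att A (part A S) := by rw [ha]; exact Finset.mem_insert_self _ _
  have hw : w ∈ att A (part A S) := by
    rw [ha]; exact Finset.mem_insert_of_mem (Finset.mem_singleton_self _)
  have hcard : (DR (GR A R) R).card ≤ R.card :=
    Finset.card_le_card_of_injOn (fun e => e.1) (fun e he => Finset.mem_coe.2 ((p1_dr _ _ e).1 (Finset.mem_coe.1 he)))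
      (fun e _ f _ hef => Subtype.ext hef)
  refine ⟨?_, ?_, hve v hv, hve w hw, ?_⟩
  · rcases hR with ⟨hoe, rfl⟩ | ⟨hoe, x, hx, hxv, hxw, rfl⟩
    · have h1 : s(v, w) ∈ (GR A {s(v, w)}).edgeSet :=
        (p1_mem A _ _).2 ⟨Or.inr (Finset.mem_singleton_self _), by rwa [Sym2.mk_isDiag_iff]⟩
      have hD : (⟨s(v, w), h1⟩ : (GR A {s(v, w)}).edgeSet) ∈ DR (GR A {s(v, w)}) {s(v, w)} :=
        (p1_dr _ _ _).2 (Finset.mem_singleton_self _)
      have heq : ∀ e ∈ DR (GR A {s(v, w)}) {s(v, w)}, ∀ f ∈ DR (GR A {s(v, w)}) {s(v, w)}, e = f := by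
        intro e he f hf
        rw [p1_dr, Finset.mem_singleton] at he hf
        exact Subtype.ext (he.trans hf.symm)
      refine ⟨hvw, (p1_tv _ _).2 ⟨_, hD, Sym2.mem_mk_left _ _⟩, (p1_tv _ _).2 ⟨_, hD, Sym2.mem_mk_right _ _⟩,
        fun e he f hf _ _ _ _ => heq e he f hf, fun e he f hf => ?_, ?_⟩
      · rw [heq e he f hf]
        exact Relation.EqvGen.refl _
      · have h2 : ({v, w} : Finset V) ⊆ tv (DR (GR A {s(v, w)}) {s(v, w)}) := by
          intro y hy
          rw [Finset.mem_insert, Finset.mem_singleton] at hy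
          rcases hy with rfl | rfl
          · exact (p1_tv _ _).2 ⟨_, hD, Sym2.mem_mk_left _ _⟩
          · exact (p1_tv _ _).2 ⟨_, hD, Sym2.mem_mk_right _ _⟩
        have h3 := Finset.card_le_card h2
        rw [Finset.card_pair hvw] at h3
        rw [Finset.card_singleton] at hcard
        omega
    · have h1 : s(v, x) ∈ (GR A {s(v, x), s(x, w)}).edgeSet :=
        (p1_mem A _ _).2 ⟨Or.inr (Finset.mem_insert_self _ _), by rw [Sym2.mk_isDiag_iff]; exact hxv.symm⟩
      have h1' : s(x, w) ∈ (GR A {s(v, x), s(x, w)}).edgeSet :=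
        (p1_mem A _ _).2 ⟨Or.inr (Finset.mem_insert_of_mem (Finset.mem_singleton_self _)),
          by rwa [Sym2.mk_isDiag_iff]⟩
      have hD : (⟨s(v, x), h1⟩ : (GR A {s(v, x), s(x, w)}).edgeSet) ∈ DR (GR A {s(v, x), s(x, w)}) {s(v, x), s(x, w)} :=
        (p1_dr _ _ _).2 (Finset.mem_insert_self _ _)
      have hD' : (⟨s(x, w), h1'⟩ : (GR A {s(v, x), s(x, w)}).edgeSet) ∈
          DR (GR A {s(v, x), s(x, w)}) {s(v, x), s(x, w)} :=
        (p1_dr _ _ _).2 (Finset.mem_insert_of_mem (Finset.mem_singleton_self _))
      have hcs : ∀ e ∈ DR (GR A {s(v, x), s(x, w)}) {s(v, x), s(x, w)}, e.1 = s(v, x) ∨ e.1 = s(x, w) := by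
        intro e he
        rw [p1_dr, Finset.mem_insert, Finset.mem_singleton] at he
        exact he
      have hxe : ∀ e ∈ DR (GR A {s(v, x), s(x, w)}) {s(v, x), s(x, w)}, x ∈ e.1 := by
        intro e he
        rcases hcs e he with h2 | h2
        · rw [h2]; exact Sym2.mem_mk_right _ _
        · rw [h2]; exact Sym2.mem_mk_left _ _
      refine ⟨hvw, (p1_tv _ _).2 ⟨_, hD, Sym2.mem_mk_left _ _⟩, (p1_tv _ _).2 ⟨_, hD', Sym2.mem_mk_right _ _⟩,
        ?_, ?_, ?_⟩
      · intro e he f hf y hy hye hyf
        apply Subtype.ext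
        have hyx : x ≠ y := by
          rcases hy with rfl | rfl
          · exact hxv
          · exact hxw
        rw [p1_two hyx (hxe e he) hye, p1_two hyx (hxe f hf) hyf]
      · intro e he f hf
        exact Relation.EqvGen.rel _ _ ⟨he, hf, x, hxv, hxw, hxe e he, hxe f hf⟩
      · have h2 : ({x, v, w} : Finset V) ⊆ tv (DR (GR A {s(v, x), s(x, w)}) {s(v, x), s(x, w)}) := by
          intro y hy
          simp only [Finset.mem_insert, Finset.mem_singleton] at hy
          rcases hy with rfl | rfl | rfl
          · exact (p1_tv _ _).2 ⟨_, hD, Sym2.mem_mk_right _ _⟩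
          · exact (p1_tv _ _).2 ⟨_, hD, Sym2.mem_mk_left _ _⟩
          · exact (p1_tv _ _).2 ⟨_, hD', Sym2.mem_mk_right _ _⟩
        have h3 := Finset.card_le_card h2
        rw [Finset.card_insert_of_notMem (by simp [hxv, hxw]), Finset.card_pair hvw] at h3
        have h4 : ({s(v, x), s(x, w)} : Finset (Sym2 V)).card ≤ 2 := Finset.card_le_two
        omega
  · intro u hu huv huw e hue
    obtain ⟨f, hf, huf⟩ := (p1_tv _ _).1 hu
    rw [p1_dr] at hf
    rw [p1_dr]
    rcases hR with ⟨hoe, rfl⟩ | ⟨hoe, x, hx, hxv, hxw, rfl⟩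
    · rw [Finset.mem_singleton] at hf
      rw [hf] at huf
      rcases Sym2.mem_iff.1 huf with h | h
      · exact absurd h huv
      · exact absurd h huw
    · have hux : u = x := by
        rw [Finset.mem_insert, Finset.mem_singleton] at hf
        rcases hf with hf | hf
        · rw [hf] at huf
          rcases Sym2.mem_iff.1 huf with h | h
          · exact absurd h huv
          · exact h
        · rw [hf] at huf
          rcases Sym2.mem_iff.1 huf with h | h
          · exact h
          · exact absurd h huw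
      rw [hux] at hue
      rcases ((p1_mem A _ e.1).1 e.2).1 with ⟨g, hg, hgA⟩ | h1
      · exact absurd (by rw [hg]; exact hue) (p1_x S A ha hx hxv hxw g hgA)
      · exact h1
  · rcases hR with ⟨hoe, rfl⟩ | ⟨hoe, x, hx, hxv, hxw, rfl⟩
    · rw [Finset.card_singleton] at hcard
      omega
    · exact hcard.trans Finset.card_le_two

end Pool.Agent.FGT
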