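import Pool.Agent.FGT.RdP1
import Pool.Agent.FGT.RdH
import Pool.Agent.FGT.RdI
import Pool.Agent.FGT.RdJ
import Pool.Agent.FGT.RdK
import Pool.Agent.FGT.RdO

/-!
# FGT-RdP2: the new map is near the old one

PLAN. `R = ∅` (one attachment): `GR A ∅ ≤ G` (the edges outside `A`); `rst`, `mon` (`egs_eq`, `stp_ec`). `Near` with `bk = ∅`: the corners of `S` with both flags outside are kept; the other flags of the new graph have `S.nxt` over `A`: at most `(mix A S).card ≤ 4`. Two attachments: `M0` any map of `GR A R` (hypothesis `hm`); `L' = part (DR ..) M0` is a disc with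
attachments `v`, `w` (`isP_dsc`, `stp_isP`), `part A S` is a disc (`bad_dsc`), `swap_dsc`, `near_of` with `L2 = id`, `k = 8`.
-/

set_option autoImplicit false

open Finset
open scoped Classical

namespace Pool.Agent.FGT

open Pool.Agent.Helper35.OG (Flag GMap across side)
open Pool.Agent.BEO (F2 ed rp cyc ev bdF nb)
open Pool.Agent.BEO (frm)

variable {V : Type} {G : SimpleGraph V} [Fintype V]

omit [Fintype V] in
private theorem dn_rp (p : Flag G) : p = rp (ed p) ∨ p = side (rp (ed p)) ∨ p = across (rp (ed p)) ∨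
    p = side (across (rp (ed p))) := by
  have h1 : (rp (ed p)).1.edge = p.1.edge := congrArg Subtype.val (Pool.Agent.BEO.ed_rp (ed p))
  have h2 := (SimpleGraph.dart_edge_eq_iff _ _).1 h1
  generalize rp (ed p) = q at h2
  obtain ⟨d, s⟩ := p
  obtain ⟨d', s'⟩ := q
  have h3 : s = s' ∨ s = !s' := by cases s <;> cases s' <;> simp
  rcases h2 with h2 | h2
  · have h4 : d' = d := h2
    subst h4
    rcases h3 with h3 | h3
    · exact Or.inl (by rw [h3])
    · exact Or.inr (Or.inl (by rw [h3]; rfl))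
  · have h4 : d' = d.symm := h2
    subst h4
    right
    right
    rcases h3 with h3 | h3
    · right
      rw [h3]
      change (d, s') = (d.symm.symm, !!s')
      rw [SimpleGraph.Dart.symm_symm, Bool.not_not]
    · left
      rw [h3]
      change (d, !s') = (d.symm.symm, !s')
      rw [SimpleGraph.Dart.symm_symm]

private theorem dn_card (D : Finset G.edgeSet) :
    (univ.filter fun p : Flag G => ed p ∈ D ∧ p = p).card ≤ D.card * 4 := by
  have h1 : (univ.filter fun p : Flag G => ed p ∈ D ∧ p = p) ⊆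
      D.biUnion fun e => {rp e, side (rp e), across (rp e), side (across (rp e))} := by
    intro p hp
    rw [mem_filter] at hp
    refine mem_biUnion.2 ⟨ed p, hp.2.1, ?_⟩
    simp only [mem_insert, mem_singleton]
    exact dn_rp p
  refine (card_le_card h1).trans (card_biUnion_le_card_mul _ _ _ fun e _ => ?_)
  exact card_le_four

private theorem dn_mix (S : GMap G) (A : Finset G.edgeSet) (p : Flag G) :
    p ∈ mix A S ↔ ed p ∈ A ∧ ed (S.nxt p) ∉ A := by
  rw [mem_mix, um_part]

omit [Fintype V] in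
private theorem dn_le (A : Finset G.edgeSet) : GR A ∅ ≤ G := by
  intro u v h
  unfold GR at h
  rw [SimpleGraph.fromEdgeSet_adj] at h
  rcases h.1 with ⟨f, hf, -⟩ | h2
  · rw [← SimpleGraph.mem_edgeSet, ← hf]
    exact f.2
  · simp at h2

omit [Fintype V] in
private theorem dn_out (A : Finset G.edgeSet) (p : Flag (GR A ∅)) : ed (fi (dn_le A) p) ∉ A := by
  have h := p.1.adj
  unfold GR at h
  rw [SimpleGraph.fromEdgeSet_adj] at h
  rcases h.1 with ⟨f, hf, hfA⟩ | h2
  · have h1 : f = ed (fi (dn_le A) p) := Subtype.ext hf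
    rw [← h1]
    exact hfA
  · simp at h2

omit [Fintype V] in
private theorem dn_lift (A : Finset G.edgeSet) (p : Flag G) (hp : ed p ∉ A) :
    ∃ p' : Flag (GR A ∅), fi (dn_le A) p' = p := by
  have h : (GR A ∅).Adj p.1.fst p.1.snd := by
    unfold GR
    rw [SimpleGraph.fromEdgeSet_adj]
    exact ⟨Or.inl ⟨ed p, rfl, hp⟩, p.1.adj.ne⟩
  exact ⟨(⟨p.1.toProd, h⟩, p.2), rfl⟩

omit [Fintype V] in
private theorem dn_fi_inj {G' : SimpleGraph V} (h : G' ≤ G) {p q : Flag G'} (hpq : fi h p = fi h q) : p = q := by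
  have h1 : p.1.toProd = q.1.toProd := congrArg (fun r : Flag G => r.1.toProd) hpq
  have h2 : p.2 = q.2 := congrArg (fun r : Flag G => r.2) hpq
  exact Prod.ext (SimpleGraph.Dart.ext _ _ h1) h2

theorem stp_dn [Nontrivial V] (hG : G.Connected) (S : GMap G) (A : Finset G.edgeSet) (h : Bad S A) (R : Finset (Sym2 V))
    (hR : RR S A R) (hm : Nonempty (GMap (GR A R))) :
    ∃ S' : GMap (GR A R), Near S A S' (fun p => p) ∧ egs S' ≤ S.eg := by
  have hmx : (mix A S).card ≤ 4 := h.2.2.2.2.1
  obtain ⟨hEC, heg⟩ := egs_eq hG S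
  have hEC' := stp_ec hG S A h R hR
  have hOut := stp_out S A R hR
  rcases hR with ⟨-, rfl⟩ | ⟨v, w, hvw, ha, hR⟩
  · obtain ⟨S', -, hres, hkeep⟩ := rst (dn_le A) S
    refine ⟨S', ⟨∅, by simp, ?_, fun p hp => absurd rfl hp, ?_⟩, ?_⟩
    · rintro p ⟨h1, h2, -, -⟩
      obtain ⟨p', rfl⟩ := dn_lift A p h1
      obtain ⟨q', hq'⟩ := dn_lift A _ h2
      refine ⟨p', rfl, ?_⟩
      rw [hkeep p' q' hq'.symm, ← hq']
      rfl
    · have h1 : (univ.filter fun p' : Flag (GR A ∅) => p' = p' ∧ ¬ ∃ p, Kp S A ∅ p ∧ fv p' = fv p).card ≤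
          (mix A S).card := by
        refine card_le_card_of_injOn (fun p' => S.nxt (fi (dn_le A) p')) ?_ ?_
        · intro p' hp'
          have h2 := (mem_filter.1 (mem_coe.1 hp')).2.2
          refine mem_coe.2 ((dn_mix S A _).2 ⟨?_, ?_⟩)
          · by_contra h3
            exact h2 ⟨fi (dn_le A) p', ⟨dn_out A p', h3, by simp, by simp⟩, rfl⟩
          · rw [S.nxt_nxt]
            exact dn_out A p'
        · intro p' _ q' _ hpq
          have h3 : S.nxt (fi (dn_le A) p') = S.nxt (fi (dn_le A) q') := hpq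
          apply dn_fi_inj (dn_le A)
          rw [← S.nxt_nxt (fi (dn_le A) p'), h3, S.nxt_nxt]
      exact h1.trans (hmx.trans (by norm_num))
    · rw [← heg]
      exact mon hEC hEC' (dn_le A) S S' hres
  · obtain ⟨M0⟩ := hm
    obtain ⟨hP, hin, hv, hw, hcard⟩ := stp_isP hG S A h R v w hvw ha hR
    obtain ⟨hd, hatt⟩ := isP_dsc (DR (GR A R) R) v w hP M0 hin hv hw
    obtain ⟨L, hL1, -, -, hL4⟩ := bad_dsc hG S A h
    have hc2 : (att A (part A S)).card = 2 := by
      rw [ha]
      exact card_pair hvw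
    rw [hL4 hc2] at hL1
    obtain ⟨M', -, hC, hegs, -⟩ := swap_dsc A (DR (GR A R) R) hOut S hL1 (part (DR (GR A R) R) M0) hd
      (ha.trans hatt.symm)
    refine ⟨M', ?_, ?_⟩
    · refine near_of S A M' (DR (GR A R) R) hOut hC (fun p => p) (fun p hp => absurd rfl hp) 8 ?_ ?_
      · refine (dn_card _).trans ?_
        omega
      · omega
    · rw [hegs, heg]

end Pool.Agent.FGT
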