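import Pool.Agent.FGT.RdP1
import Pool.Agent.FGT.RdH
import Pool.Agent.FGT.RdJ
import Pool.Agent.FGT.RdK
import Pool.Agent.FGT.RdN
import Pool.Agent.FGT.RdO

/-!
# FGT-RdP3: maps of the old graph give maps of the new graph

PLAN. One attachment: `rst`, `mon`. Two attachments `v`, `w`: `exists_isP` gives a path `P ⊆ A` (the connectedness of `A` from `HCn`: the two edges of a corner have a common end). Let `G1 ≤ G` be the graph of the edges outside `A` and of `P`; `G1` is `EC` (as in `stp_ec`; `P` joins `v` and `w`). `rst` for `G1` gives `T1`, `egs T1 ≤ T.eg`. The path `P` (as a set of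
edges of `G1`) is a disc of `T1` (`isP_dsc`: the vertices of `P` other than `v`, `w` are not attachments of `A`, so their edges in `G1` are in `P`), attachments `{v, w}`; so is `DR (GR A R) R` for any map of `GR A R` (`stp_isP`). The edges of `G1` outside `P` are those of `GR A R` outside `R`. `swap_dsc`.
-/

set_option autoImplicit false

open Finset
open scoped Classical

namespace Pool.Agent.FGT

open Pool.Agent.Helper35.OG (Flag GMap across side)
open Pool.Agent.BEO (F2 ed rp cyc ev bdF nb)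
open Pool.Agent.BEO (frm)

variable {V : Type} {G : SimpleGraph V} [Fintype V]

omit [Fintype V] in
private theorem p3_mem (A : Finset G.edgeSet) (R : Finset (Sym2 V)) (e : Sym2 V) :
    e ∈ (GR A R).edgeSet ↔ ((∃ f : G.edgeSet, f.1 = e ∧ f ∉ A) ∨ e ∈ R) ∧ ¬ e.IsDiag := by
  unfold GR
  rw [SimpleGraph.edgeSet_fromEdgeSet]
  simp only [Set.mem_sdiff, Set.mem_union, Set.mem_ofPred_eq, Finset.mem_coe]
  exact Iff.rfl

omit [Fintype V] in
private theorem p3_adj (A : Finset G.edgeSet) (R : Finset (Sym2 V)) (a b : V) :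
    (GR A R).Adj a b ↔ ((∃ f : G.edgeSet, f.1 = s(a, b) ∧ f ∉ A) ∨ s(a, b) ∈ R) ∧ a ≠ b := by
  rw [← SimpleGraph.mem_edgeSet, p3_mem, Sym2.mk_isDiag_iff]

private theorem p3_tv (A : Finset G.edgeSet) (v : V) : v ∈ tv A ↔ ∃ e ∈ A, v ∈ e.1 := by
  unfold tv
  rw [Finset.mem_filter]
  exact ⟨fun h => h.2, fun h => ⟨Finset.mem_univ _, h⟩⟩

private theorem p3_att (S : GMap G) (A : Finset G.edgeSet) (v : V) :
    v ∈ att A (part A S) ↔ v ∈ tv A ∧ ∃ e : G.edgeSet, e ∉ A ∧ v ∈ e.1 := att_iff A _ (omap_part A S) v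

private theorem p3_dr (H : SimpleGraph V) (R : Finset (Sym2 V)) (e : H.edgeSet) : e ∈ DR H R ↔ e.1 ∈ R := by
  unfold DR
  rw [Finset.mem_filter]
  exact ⟨fun h => h.2, fun h => ⟨Finset.mem_univ _, h⟩⟩

/-- every end of an edge outside is joined to an attachment -/
private theorem p3_reach (S : GMap G) (A : Finset G.edgeSet) (R : Finset (Sym2 V)) {u t : V} (w : G.Walk u t) (ht : t ∈ tv A) :
    (∃ e : G.edgeSet, e ∉ A ∧ u ∈ e.1) → ∃ a ∈ att A (part A S), (GR A R).Reachable u a := by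
  induction w with
  | nil =>
    intro h
    exact ⟨_, (p3_att S A _).2 ⟨ht, h⟩, SimpleGraph.Reachable.refl _⟩
  | @cons u u' t hadj w ih =>
    intro h
    by_cases hu : u ∈ tv A
    · exact ⟨_, (p3_att S A _).2 ⟨hu, h⟩, SimpleGraph.Reachable.refl _⟩
    · have h1 : (⟨s(u, u'), hadj⟩ : G.edgeSet) ∉ A := fun h2 =>
        hu ((p3_tv A u).2 ⟨_, h2, Sym2.mem_mk_left _ _⟩)
      obtain ⟨a, ha, hr⟩ := ih ht ⟨_, h1, Sym2.mem_mk_right _ _⟩
      refine ⟨a, ha, SimpleGraph.Reachable.trans (SimpleGraph.Adj.reachable ?_) hr⟩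
      exact (p3_adj A R u u').2 ⟨Or.inl ⟨_, rfl, h1⟩, hadj.ne⟩

omit [Fintype V] in
private theorem p3_nd (e : G.edgeSet) : ¬ e.1.IsDiag := G.not_isDiag_of_mem_edgeSet e.2

/-- `A` is connected -/
private theorem p3_cn (S : GMap G) (A : Finset G.edgeSet) (h : HCn S A) : ∀ e ∈ A, ∀ f ∈ A,
    Relation.EqvGen (fun x y : G.edgeSet => x ∈ A ∧ y ∈ A ∧ ∃ u, u ∈ x.1 ∧ u ∈ y.1) e f := by
  intro e he f hf
  have h0 := h e he f hf
  clear he hf
  induction h0 with
  | rel x y h1 =>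
    obtain ⟨hx, hy, p, rfl, rfl⟩ := h1
    refine Relation.EqvGen.rel _ _ ⟨hx, hy, p.1.fst, Sym2.mem_mk_left _ _, ?_⟩
    have h1 : (S.nxt p).1.fst ∈ (ed (S.nxt p)).1 := Sym2.mem_mk_left _ _
    rwa [S.nxt_fst] at h1
  | refl x => exact Relation.EqvGen.refl _
  | symm x y _ ih => exact ih.symm
  | trans x y z _ _ ih1 ih2 => exact ih1.trans _ _ _ ih2

omit [Fintype V] in
private theorem p3_le (A P : Finset G.edgeSet) : GR A (P.image fun e => e.1) ≤ G := by
  intro a b h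
  rcases ((p3_adj A _ a b).1 h).1 with ⟨f, hf, -⟩ | h1
  · rw [← SimpleGraph.mem_edgeSet, ← hf]
    exact f.2
  · obtain ⟨f, -, hf⟩ := Finset.mem_image.1 h1
    rw [← SimpleGraph.mem_edgeSet, ← hf]
    exact f.2

omit [Fintype V] in
/-- two vertices of an edge of `P` are joined -/
private theorem p3_ed (A P : Finset G.edgeSet) (e : G.edgeSet) (he : e ∈ P) {a b : V} (ha : a ∈ e.1) (hb : b ∈ e.1) :
    (GR A (P.image fun e => e.1)).Reachable a b := by
  by_cases hab : a = b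
  · rw [hab]
  · refine SimpleGraph.Adj.reachable ((p3_adj A _ a b).2 ⟨Or.inr ?_, hab⟩)
    rw [← (Sym2.mem_and_mem_iff hab).1 ⟨ha, hb⟩]
    exact Finset.mem_image_of_mem _ he

/-- the vertices of `P` are joined -/
private theorem p3_P (A P : Finset G.edgeSet) {v w : V} (hP : IsP P v w) {a b : V} (ha : a ∈ tv P) (hb : b ∈ tv P) :
    (GR A (P.image fun e => e.1)).Reachable a b := by
  obtain ⟨e, he, hae⟩ := (p3_tv P a).1 ha
  obtain ⟨f, hf, hbf⟩ := (p3_tv P b).1 hb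
  have key : ∀ x y : G.edgeSet, Relation.EqvGen (fun x y : G.edgeSet => x ∈ P ∧ y ∈ P ∧ ∃ u, u ≠ v ∧ u ≠ w ∧ u ∈ x.1 ∧ u ∈ y.1)
      x y → (x ∈ P ↔ y ∈ P) ∧ (x ∈ P → ∀ c ∈ x.1, ∀ d ∈ y.1, (GR A (P.image fun e => e.1)).Reachable c d) := by
    intro x y hxy
    induction hxy with
    | rel x y h =>
      obtain ⟨hx, hy, u, -, -, h1, h2⟩ := h
      exact ⟨⟨fun _ => hy, fun _ => hx⟩, fun _ c hc d hd => (p3_ed A P x hx hc h1).trans (p3_ed A P y hy h2 hd)⟩
    | refl x => exact ⟨Iff.rfl, fun hx c hc d hd => p3_ed A P x hx hc hd⟩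
    | symm x y _ ih => exact ⟨ih.1.symm, fun hy c hc d hd => (ih.2 (ih.1.2 hy) d hd c hc).symm⟩
    | trans x y z _ _ ih1 ih2 =>
      refine ⟨ih1.1.trans ih2.1, fun hx c hc d hd => ?_⟩
      exact (ih1.2 hx c hc _ (Sym2.out_fst_mem y.1)).trans (ih2.2 (ih1.1.1 hx) _ (Sym2.out_fst_mem y.1) d hd)
  exact (key e f (hP.cn e he f hf)).2 he a hae b hbf

theorem stp_lo [Nontrivial V] (hG : G.Connected) (S : GMap G) (A : Finset G.edgeSet) (h : Bad S A) (R : Finset (Sym2 V))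
    (hR : RR S A R) (hm : Nonempty (GMap (GR A R))) (T : GMap G) :
    ∃ T' : GMap (GR A R), egs T' ≤ T.eg ∧ (T.Orientable → T'.Orientable) := by
  obtain ⟨hEC, heg⟩ := egs_eq hG T
  have hEC' := stp_ec hG S A h R hR
  have hOut := stp_out S A R hR
  rcases hR with ⟨-, rfl⟩ | ⟨v, w, hvw, ha, hR⟩
  · have hle : GR A ∅ ≤ G := by
      intro a b hab
      rcases ((p3_adj A _ a b).1 hab).1 with ⟨f, hf, -⟩ | h1
      · rw [← SimpleGraph.mem_edgeSet, ← hf]
        exact f.2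
      · exact absurd h1 (Finset.notMem_empty _)
    obtain ⟨T', ho, hres, -⟩ := rst hle T
    refine ⟨T', ?_, ho⟩
    rw [← heg]
    exact mon hEC hEC' hle T T' hres
  · obtain ⟨M0⟩ := hm
    obtain ⟨hP', hin', hv', hw', -⟩ := stp_isP hG S A h R v w hvw ha hR
    obtain ⟨hd', hatt'⟩ := isP_dsc (DR (GR A R) R) v w hP' M0 hin' hv' hw'
    have hv : v ∈ att A (part A S) := by rw [ha]; exact Finset.mem_insert_self _ _
    have hw : w ∈ att A (part A S) := by
      rw [ha]; exact Finset.mem_insert_of_mem (Finset.mem_singleton_self _)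
    obtain ⟨hv1, ev, hev, hvev⟩ := (p3_att S A v).1 hv
    obtain ⟨hw1, ew, hew, hwew⟩ := (p3_att S A w).1 hw
    obtain ⟨P, hPA, hP⟩ := exists_isP A (p3_cn S A h.2.2.1) v w hvw hv1 hw1
    obtain ⟨RP, hRP⟩ : ∃ RP : Finset (Sym2 V), RP = P.image fun e => e.1 := ⟨_, rfl⟩
    have hle : GR A RP ≤ G := by rw [hRP]; exact p3_le A P
    have hmRP : ∀ e : G.edgeSet, e.1 ∈ RP ↔ e ∈ P := by
      intro e
      rw [hRP, Finset.mem_image]
      constructor
      · rintro ⟨f, hf, hfe⟩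
        rwa [Subtype.ext hfe] at hf
      · intro he
        exact ⟨e, he, rfl⟩
    have hmG : ∀ e : Sym2 V, e ∈ (GR A RP).edgeSet ↔ ∃ f : G.edgeSet, f.1 = e ∧ (f ∉ A ∨ f ∈ P) := by
      intro e
      rw [p3_mem]
      constructor
      · rintro ⟨⟨f, hf, hfA⟩ | h1, -⟩
        · exact ⟨f, hf, Or.inl hfA⟩
        · rw [hRP] at h1
          obtain ⟨f, hf, rfl⟩ := Finset.mem_image.1 h1
          exact ⟨f, rfl, Or.inr hf⟩
      · rintro ⟨f, rfl, hf | hf⟩
        · exact ⟨Or.inl ⟨f, rfl, hf⟩, p3_nd f⟩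
        · exact ⟨Or.inr ((hmRP f).2 hf), p3_nd f⟩
    -- the graph is connected up to isolated vertices
    have hEC1 : EC (GR A RP) := by
      have hall : ∀ u, (∃ w, (GR A RP).Adj u w) → (GR A RP).Reachable u v := by
        rintro u ⟨u', hu⟩
        have hvw' : (GR A RP).Reachable w v := by rw [hRP]; exact p3_P A P hP hP.hw hP.hv
        obtain ⟨f, hf, hf2⟩ := (hmG s(u, u')).1 hu
        have huf : u ∈ f.1 := by rw [hf]; exact Sym2.mem_mk_left _ _
        rcases hf2 with hf2 | hf2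
        · obtain ⟨wk⟩ := hG.preconnected u v
          obtain ⟨a, ha1, hr⟩ := p3_reach S A RP wk hv1 ⟨f, hf2, huf⟩
          rw [ha, Finset.mem_insert, Finset.mem_singleton] at ha1
          rcases ha1 with rfl | rfl
          · exact hr
          · exact hr.trans hvw'
        · rw [hRP]
          exact p3_P A P hP ((p3_tv P u).2 ⟨f, hf2, huf⟩) hP.hv
      refine ⟨?_, fun u u' hu hu' => (hall u hu).trans (hall u' hu').symm⟩
      obtain ⟨a, hav⟩ := Sym2.mem_iff_exists.1 hvev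
      exact ⟨v, a, (hmG s(v, a)).2 ⟨ev, hav, Or.inl hev⟩⟩
    obtain ⟨T1, ho1, hres, -⟩ := rst hle T
    have hegs1 : egs T1 ≤ T.eg := by
      rw [← heg]
      exact mon hEC hEC1 hle T T1 hres
    -- edges of the path in the new graph
    have hlift : ∀ f : G.edgeSet, (f ∉ A ∨ f ∈ P) → ∃ f' : (GR A RP).edgeSet, f'.1 = f.1 := fun f hf =>
      ⟨⟨f.1, (hmG f.1).2 ⟨f, rfl, hf⟩⟩, rfl⟩
    obtain ⟨D1, hD1⟩ : ∃ D1, D1 = DR (GR A RP) RP := ⟨_, rfl⟩
    have hmD : ∀ e : (GR A RP).edgeSet, e ∈ D1 ↔ ∃ f ∈ P, f.1 = e.1 := by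
      intro e
      rw [hD1, p3_dr]
      constructor
      · intro h1
        obtain ⟨f, hf, -⟩ := (hmG e.1).1 e.2
        exact ⟨f, (hmRP f).1 (by rw [hf]; exact h1), hf⟩
      · rintro ⟨f, hf, hfe⟩
        rw [← hfe]
        exact (hmRP f).2 hf
    have htv : ∀ u, u ∈ tv D1 ↔ u ∈ tv P := by
      intro u
      rw [p3_tv, p3_tv]
      constructor
      · rintro ⟨e, he, hu⟩
        obtain ⟨f, hf, hfe⟩ := (hmD e).1 he
        exact ⟨f, hf, by rw [hfe]; exact hu⟩
      · rintro ⟨f, hf, hu⟩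
        obtain ⟨e, he⟩ := hlift f (Or.inr hf)
        exact ⟨e, (hmD e).2 ⟨f, hf, he.symm⟩, by rw [he]; exact hu⟩
    have hcard : D1.card = P.card := by
      rw [← Finset.card_image_of_injective D1 (Subtype.val_injective : Function.Injective fun e : (GR A RP).edgeSet => e.1),
        ← Finset.card_image_of_injective P (Subtype.val_injective : Function.Injective fun e : G.edgeSet => e.1)]
      congr 1
      ext e
      rw [Finset.mem_image, Finset.mem_image]
      constructor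
      · rintro ⟨x, hx, rfl⟩
        exact (hmD x).1 hx
      · rintro ⟨f, hf, rfl⟩
        obtain ⟨e, he⟩ := hlift f (Or.inr hf)
        exact ⟨e, (hmD e).2 ⟨f, hf, he.symm⟩, he⟩
    have hP1 : IsP D1 v w := by
      refine ⟨hvw, (htv v).2 hP.hv, (htv w).2 hP.hw, ?_, ?_, ?_⟩
      · intro e he f hf x hx h1 h2
        obtain ⟨e', he', hee⟩ := (hmD e).1 he
        obtain ⟨f', hf', hff⟩ := (hmD f).1 hf
        have h3 := hP.one e' he' f' hf' x hx (by rw [hee]; exact h1) (by rw [hff]; exact h2)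
        apply Subtype.ext
        rw [← hee, ← hff, h3]
      · intro e he f hf
        obtain ⟨e', he', hee⟩ := (hmD e).1 he
        obtain ⟨f', hf', hff⟩ := (hmD f).1 hf
        have key : ∀ x y : G.edgeSet, Relation.EqvGen (fun x y : G.edgeSet => x ∈ P ∧ y ∈ P ∧ ∃ u, u ≠ v ∧ u ≠ w ∧ u ∈ x.1 ∧
            u ∈ y.1) x y → (x ∈ P ↔ y ∈ P) ∧ (x ∈ P → ∀ x' y' : (GR A RP).edgeSet, x'.1 = x.1 → y'.1 = y.1 →
            Relation.EqvGen (fun x y : (GR A RP).edgeSet => x ∈ D1 ∧ y ∈ D1 ∧ ∃ u, u ≠ v ∧ u ≠ w ∧ u ∈ x.1 ∧ u ∈ y.1)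
              x' y') := by
          intro x y hxy
          induction hxy with
          | rel x y h1 =>
            obtain ⟨hx, hy, u, hu1, hu2, hu3, hu4⟩ := h1
            refine ⟨⟨fun _ => hy, fun _ => hx⟩, fun _ x' y' hx' hy' => Relation.EqvGen.rel _ _ ?_⟩
            exact ⟨(hmD x').2 ⟨x, hx, hx'.symm⟩, (hmD y').2 ⟨y, hy, hy'.symm⟩, u, hu1, hu2, by rw [hx']; exact hu3,
              by rw [hy']; exact hu4⟩
          | refl x =>
            refine ⟨Iff.rfl, fun _ x' y' hx' hy' => ?_⟩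
            have h1 : x' = y' := Subtype.ext (hx'.trans hy'.symm)
            rw [h1]
            exact Relation.EqvGen.refl _
          | symm x y _ ih => exact ⟨ih.1.symm, fun hy y' x' hy' hx' => (ih.2 (ih.1.2 hy) x' y' hx' hy').symm⟩
          | trans x y z _ _ ih1 ih2 =>
            refine ⟨ih1.1.trans ih2.1, fun hx x' z' hx' hz' => ?_⟩
            obtain ⟨y', hy'⟩ := hlift y (Or.inr (ih1.1.1 hx))
            exact (ih1.2 hx x' y' hx' hy').trans _ _ _ (ih2.2 (ih1.1.1 hx) y' z' hy' hz')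
        exact (key e' f' (hP.cn e' he' f' hf')).2 he' e f hee.symm hff.symm
      · rw [hcard]
        have h1 : tv D1 = tv P := Finset.ext htv
        rw [h1]
        exact hP.cd
    have hout1 : ∀ x : G.edgeSet, x ∉ A → ∃ e : (GR A RP).edgeSet, e ∉ D1 ∧ e.1 = x.1 := by
      intro x hx
      obtain ⟨e, he⟩ := hlift x (Or.inl hx)
      refine ⟨e, fun h1 => ?_, he⟩
      obtain ⟨f, hf, hfe⟩ := (hmD e).1 h1
      have h2 : f = x := Subtype.ext (hfe.trans he)
      rw [h2] at hf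
      exact hx (hPA hf)
    have hout2 : ∀ e : (GR A RP).edgeSet, e ∉ D1 → ∃ x : G.edgeSet, x ∉ A ∧ x.1 = e.1 := by
      intro e he
      obtain ⟨f, hf, hf2⟩ := (hmG e.1).1 e.2
      rcases hf2 with hf2 | hf2
      · exact ⟨f, hf2, hf⟩
      · exact absurd ((hmD e).2 ⟨f, hf2, hf⟩) he
    have hin : ∀ u ∈ tv D1, u ≠ v → u ≠ w → ∀ e : (GR A RP).edgeSet, u ∈ e.1 → e ∈ D1 := by
      intro u hu huv huw e hue
      by_contra he
      obtain ⟨x, hx, hxe⟩ := hout2 e he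
      obtain ⟨f, hf, huf⟩ := (p3_tv P u).1 ((htv u).1 hu)
      have h1 := (p3_att S A u).2 ⟨(p3_tv A u).2 ⟨f, hPA hf, huf⟩, x, hx, by rw [hxe]; exact hue⟩
      rw [ha, Finset.mem_insert, Finset.mem_singleton] at h1
      rcases h1 with h1 | h1
      · exact huv h1
      · exact huw h1
    obtain ⟨ev', hev1, hev2⟩ := hout1 ev hev
    obtain ⟨ew', hew1, hew2⟩ := hout1 ew hew
    obtain ⟨hd1, hatt1⟩ := isP_dsc D1 v w hP1 T1 hin ⟨ev', hev1, by rw [hev2]; exact hvev⟩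
      ⟨ew', hew1, by rw [hew2]; exact hwew⟩
    have hO : Out D1 (DR (GR A R) R) := by
      intro e
      rw [← hOut e]
      constructor
      · rintro ⟨f, rfl, hf⟩
        obtain ⟨x, hx, hxf⟩ := hout2 f hf
        exact ⟨x, hxf, hx⟩
      · rintro ⟨f, rfl, hf⟩
        obtain ⟨x, hx, hxf⟩ := hout1 f hf
        exact ⟨x, hxf, hx⟩
    obtain ⟨M', -, -, hegs, hori⟩ := swap_dsc D1 (DR (GR A R) R) hO T1 hd1 (part (DR (GR A R) R) M0) hd'
      (hatt1.trans hatt'.symm)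
    exact ⟨M', by rw [hegs]; exact hegs1, fun h1 => hori (ho1 h1)⟩

end Pool.Agent.FGT
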