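import Pool.Agent.FGT.RdP1
import Pool.Agent.FGT.RdH
import Pool.Agent.FGT.RdI
import Pool.Agent.FGT.RdJ
import Pool.Agent.FGT.RdL
import Pool.Agent.FGT.RdO

/-!
# FGT-RdP4: maps of the new graph give maps of the old graph

Two attachments: swap the disc of R for the part of S at A; one attachment: insert a pendant edge and swap it for the disc of bad_dsc.
-/

set_option autoImplicit false

open Finset
open scoped Classical

namespace Pool.Agent.FGT

open Pool.Agent.Helper35.OG (Flag GMap across side)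
open Pool.Agent.BEO (F2 ed rp cyc ev bdF nb)
open Pool.Agent.BEO (frm)

variable {V : Type} {G : SimpleGraph V} [Fintype V]

omit [Fintype V] in
private theorem q4_inj {G : SimpleGraph V} {p q : Flag G} (h : fv p = fv q) : p = q := by
  rcases p with ⟨d, b⟩
  rcases q with ⟨d', b'⟩
  simp only [fv, Prod.mk.injEq] at h
  obtain ⟨h1, h2⟩ := h
  have h3 : d = d' := SimpleGraph.Dart.ext _ _ h1
  rw [h3, h2]

omit [Fintype V] in
private theorem q4_lift {G G' : SimpleGraph V} (p : Flag G) (f : G'.edgeSet) (h : f.1 = (ed p).1) :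
    ∃ p' : Flag G', fv p' = fv p ∧ ed p' = f := by
  have hadj : G'.Adj p.1.fst p.1.snd := by
    have h1 := f.2
    rw [h] at h1
    exact h1
  refine ⟨(⟨p.1.toProd, hadj⟩, p.2), rfl, ?_⟩
  apply Subtype.ext
  rw [h]
  rfl

omit [Fintype V] in
private theorem q4_four {G : SimpleGraph V} (p q : Flag G) (h : ed p = ed q) :
    p = q ∨ p = side q ∨ p = across q ∨ p = side (across q) := by
  have h2 : p.1.edge = q.1.edge := congrArg Subtype.val h
  rw [SimpleGraph.dart_edge_eq_iff] at h2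
  obtain ⟨d, b⟩ := p
  obtain ⟨d', b'⟩ := q
  simp only at h2
  rcases h2 with rfl | rfl
  · by_cases hb : b = b'
    · rw [hb]
      exact Or.inl rfl
    · have : b = !b' := by
        cases b <;> cases b' <;> simp_all
      rw [this]
      exact Or.inr (Or.inl rfl)
  · by_cases hb : b = b'
    · rw [hb]
      refine Or.inr (Or.inr (Or.inr ?_))
      unfold side across
      simp
    · have : b = !b' := by
        cases b <;> cases b' <;> simp_all
      rw [this]
      exact Or.inr (Or.inr (Or.inl rfl))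

private theorem q4_card {G : SimpleGraph V} (D : Finset G.edgeSet) :
    (univ.filter fun p : Flag G => ed p ∈ D).card ≤ D.card * 4 := by
  have h1 : (univ.filter fun p : Flag G => ed p ∈ D) ⊆
      D.biUnion fun e => {rp e, side (rp e), across (rp e), side (across (rp e))} := by
    intro p hp
    rw [mem_filter] at hp
    rw [Finset.mem_biUnion]
    refine ⟨ed p, hp.2, ?_⟩
    have h2 := q4_four p (rp (ed p)) (BEO.ed_rp _).symm
    simp only [Finset.mem_insert, Finset.mem_singleton]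
    exact h2
  refine (Finset.card_le_card h1).trans ?_
  refine Finset.card_biUnion_le_card_mul D _ 4 fun e _ => ?_
  exact Finset.card_le_four

omit [Fintype V] in
private theorem q4_out {G G' : SimpleGraph V} {A : Finset G.edgeSet} {A' : Finset G'.edgeSet} (h : Out A A') : Out A' A :=
  fun e => (h e).symm

private theorem q4_two [Nontrivial V] (hG : G.Connected) (S : GMap G) (A : Finset G.edgeSet) (h : Bad S A)
    (R : Finset (Sym2 V)) (hR : RR S A R) (T' : GMap (GR A R)) (v w : V) (hvw : v ≠ w)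
    (ha : att A (part A S) = {v, w})
    (hR' : (¬ Oe A v w ∧ R = {s(v, w)}) ∨ (Oe A v w ∧ ∃ x ∈ tv A, x ≠ v ∧ x ≠ w ∧ R = {s(v, x), s(x, w)})) :
    ∃ T : GMap G, Near T' (DR (GR A R) R) T (part A S) ∧ T.eg ≤ egs T' ∧ (T'.Orientable → T.Orientable) := by
  obtain ⟨hP, hin, hv, hw, hc⟩ := stp_isP hG S A h R v w hvw ha hR'
  obtain ⟨hD, hatt⟩ := isP_dsc (DR (GR A R) R) v w hP T' hin hv hw
  obtain ⟨L, hL, -, -, h2⟩ := bad_dsc hG S A h
  have hc2 : (att A (part A S)).card = 2 := by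
    rw [ha]
    exact Finset.card_pair hvw
  rw [h2 hc2] at hL
  have hO : Out (DR (GR A R) R) A := q4_out (stp_out S A R hR)
  obtain ⟨T, hT1, hT2, hT3, hT4⟩ := swap_dsc (DR (GR A R) R) A hO T' hD (part A S) hL (hatt.trans ha.symm)
  have hLT : ∀ p, part A S p ≠ p → T.nxt p = part A S p := by
    intro p hp
    have h3 := hT1 p
    rw [← h3] at hp ⊢
    unfold part at hp ⊢
    split_ifs with h4
    · rfl
    · rw [if_neg h4] at hp
      exact absurd rfl hp
  refine ⟨T, near_of T' (DR (GR A R) R) T A hO hT2 (part A S) hLT 4 ?_ ?_, ?_, hT4⟩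
  · refine le_trans (Finset.card_le_card ?_) h.2.2.2.2.1
    intro p hp
    rw [Finset.mem_filter] at hp
    rw [mem_mix]
    exact hp.2
  · have h5 : (mix (DR (GR A R) R) T').card ≤ (univ.filter fun p : Flag (GR A R) => ed p ∈ DR (GR A R) R).card := by
      refine Finset.card_le_card ?_
      intro p hp
      unfold mix at hp
      rw [Finset.mem_filter] at hp
      rw [Finset.mem_filter]
      exact ⟨hp.1, hp.2.1⟩
    have h6 := q4_card (DR (GR A R) R)
    omega
  · rw [← (egs_eq hG T).2, hT3]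

omit [Fintype V] in
private theorem q4_adj (A : Finset G.edgeSet) (u u' : V) :
    (GR A (∅ : Finset (Sym2 V))).Adj u u' ↔ ∃ f : G.edgeSet, f.1 = s(u, u') ∧ f ∉ A := by
  unfold GR
  rw [SimpleGraph.fromEdgeSet_adj]
  constructor
  · rintro ⟨h1, -⟩
    rcases h1 with h1 | h1
    · exact h1
    · simp at h1
  · rintro ⟨f, hf, hfA⟩
    refine ⟨Or.inl ⟨f, hf, hfA⟩, ?_⟩
    have h1 := f.2
    rw [hf] at h1
    exact (G.mem_edgeSet.1 h1).ne

private theorem q4_one [Nontrivial V] (hG : G.Connected) (S : GMap G) (A : Finset G.edgeSet) (h : Bad S A)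
    (T' : GMap (GR A (∅ : Finset (Sym2 V)))) (v : V) (ha : att A (part A S) = {v}) :
    ∃ T : GMap G, Near T' (DR (GR A (∅ : Finset (Sym2 V))) ∅) T (part A S) ∧ T.eg ≤ egs T' ∧
      (T'.Orientable → T.Orientable) := by
  have hO := omap_part A S
  -- an edge of `A` has an end `w ≠ v`
  obtain ⟨w, hwA, hwv⟩ : ∃ w ∈ tv A, w ≠ v := by
    obtain ⟨e, he⟩ := h.1
    obtain ⟨p, hp⟩ := Pool.Agent.BEO.ed_surj e
    have h1 : p.1.fst ∈ e.1 := by
      rw [← hp]
      change p.1.fst ∈ s(p.1.fst, p.1.snd)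
      exact Sym2.mem_mk_left _ _
    have h2 : p.1.snd ∈ e.1 := by
      rw [← hp]
      change p.1.snd ∈ s(p.1.fst, p.1.snd)
      exact Sym2.mem_mk_right _ _
    by_cases h3 : p.1.fst = v
    · refine ⟨p.1.snd, ?_, ?_⟩
      · unfold tv
        rw [Finset.mem_filter]
        exact ⟨Finset.mem_univ _, e, he, h2⟩
      · rw [← h3]
        exact p.1.adj.ne'
    · refine ⟨p.1.fst, ?_, h3⟩
      unfold tv
      rw [Finset.mem_filter]
      exact ⟨Finset.mem_univ _, e, he, h1⟩
  have hwn : ∀ f : G.edgeSet, f ∉ A → w ∉ f.1 := by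
    intro f hf hwf
    have h1 : w ∈ att A (part A S) := (att_iff A (part A S) hO w).2 ⟨hwA, f, hf, hwf⟩
    rw [ha, Finset.mem_singleton] at h1
    exact hwv h1
  have hw : ∀ u, ¬ (GR A (∅ : Finset (Sym2 V))).Adj w u := by
    intro u hu
    obtain ⟨f, hf, hfA⟩ := (q4_adj A w u).1 hu
    refine hwn f hfA ?_
    rw [hf]
    exact Sym2.mem_mk_left _ _
  -- an edge outside at `v`
  obtain ⟨y, hy⟩ : ∃ y : Flag (GR A (∅ : Finset (Sym2 V))), y.1.fst = v := by
    have h1 : v ∈ att A (part A S) := by rw [ha]; exact Finset.mem_singleton_self _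
    obtain ⟨-, f, hf, hvf⟩ := (att_iff A (part A S) hO v).1 h1
    obtain ⟨u, hu⟩ := Sym2.mem_iff_exists.1 hvf
    exact ⟨(⟨(v, u), (q4_adj A v u).2 ⟨f, hu, hf⟩⟩, true), rfl⟩
  -- the graph with the pendant edge
  let G2 : SimpleGraph V :=
    { Adj := fun u u' => (GR A (∅ : Finset (Sym2 V))).Adj u u' ∨ (u = v ∧ u' = w) ∨ (u = w ∧ u' = v)
      symm := ⟨fun u u' hu => by
        rcases hu with hu | ⟨hu, hu'⟩ | ⟨hu, hu'⟩
        · exact Or.inl hu.symm
        · exact Or.inr (Or.inr ⟨hu', hu⟩)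
        · exact Or.inr (Or.inl ⟨hu', hu⟩)⟩
      loopless := ⟨fun u hu => by
        rcases hu with hu | ⟨hu, hu'⟩ | ⟨hu, hu'⟩
        · exact hu.ne rfl
        · exact hwv (hu'.symm.trans hu)
        · exact hwv (hu.symm.trans hu')⟩ }
  have hG2 : ∀ u u', G2.Adj u u' ↔ (GR A (∅ : Finset (Sym2 V))).Adj u u' ∨ (u = v ∧ u' = w) ∨ (u = w ∧ u' = v) :=
    fun u u' => Iff.rfl
  have hvwG2 : s(v, w) ∈ G2.edgeSet := Or.inr (Or.inl ⟨rfl, rfl⟩)
  let e : G2.edgeSet := ⟨s(v, w), hvwG2⟩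
  have he1 : e.1 = s(v, w) := rfl
  obtain ⟨M2, hM1, hM2, hM3, hM4, hM5⟩ := pend v w hwv.symm hw hG2 T' y hy e he1
  obtain ⟨L, hL1, hL2, hL3, -⟩ := bad_dsc hG S A h
  -- the edges outside
  have hout : Out {e} A := by
    intro x
    constructor
    · rintro ⟨f, hf, hfe⟩
      rw [Finset.mem_singleton] at hfe
      obtain ⟨q, hq⟩ := Pool.Agent.BEO.ed_surj f
      have h1 : G2.Adj q.1.fst q.1.snd := q.1.adj
      have h2 : f.1 = s(q.1.fst, q.1.snd) := by rw [← hq]; rfl
      rcases (hG2 _ _).1 h1 with h1 | ⟨h1, h3⟩ | ⟨h1, h3⟩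
      · obtain ⟨f', hf', hfA⟩ := (q4_adj A _ _).1 h1
        exact ⟨f', by rw [hf', ← h2, hf], hfA⟩
      · exfalso
        refine hfe (Subtype.ext ?_)
        rw [h2, h1, h3]
      · exfalso
        refine hfe (Subtype.ext ?_)
        rw [h2, h1, h3, he1]
        exact Sym2.eq_swap
    · rintro ⟨f, hf, hfA⟩
      obtain ⟨q, hq⟩ := Pool.Agent.BEO.ed_surj f
      have h2 : f.1 = s(q.1.fst, q.1.snd) := by rw [← hq]; rfl
      have h3 : (GR A (∅ : Finset (Sym2 V))).Adj q.1.fst q.1.snd := (q4_adj A _ _).2 ⟨f, h2, hfA⟩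
      refine ⟨⟨s(q.1.fst, q.1.snd), Or.inl h3⟩, ?_, ?_⟩
      · rw [← hf, h2]
      · rw [Finset.mem_singleton]
        intro h4
        have h5 : s(q.1.fst, q.1.snd) = s(v, w) := congrArg Subtype.val h4
        refine hwn f hfA ?_
        rw [h2, h5]
        exact Sym2.mem_mk_right _ _
  obtain ⟨T, hT1, hT2, hT3, hT4⟩ := swap_dsc {e} A hout M2 hM3 L hL1 (hM4.trans (hL2.trans ha).symm)
  -- lifting flags
  have hlift : ∀ p : Flag (GR A (∅ : Finset (Sym2 V))), ∃ p2 : Flag G2, fv p2 = fv p ∧ ed p2 ∉ ({e} : Finset G2.edgeSet) := by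
    intro p
    refine ⟨(⟨p.1.toProd, Or.inl p.1.adj⟩, p.2), rfl, ?_⟩
    rw [Finset.mem_singleton]
    intro h4
    have h5 : s(p.1.fst, p.1.snd) = s(v, w) := congrArg Subtype.val h4
    have h6 : w ∈ s(p.1.fst, p.1.snd) := by
      rw [h5]
      exact Sym2.mem_mk_right _ _
    rcases Sym2.mem_iff.1 h6 with h7 | h7
    · refine hw p.1.snd ?_
      rw [h7]
      exact p.1.adj
    · refine hw p.1.fst ?_
      rw [h7]
      exact p.1.adj.symm
  have hdn : ∀ p : Flag (GR A (∅ : Finset (Sym2 V))), ∃ p' : Flag G, fv p' = fv p ∧ ed p' ∉ A := by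
    intro p
    obtain ⟨f, hf, hfA⟩ := (q4_adj A _ _).1 p.1.adj
    obtain ⟨p', h1, h2⟩ := q4_lift p f hf
    exact ⟨p', h1, by rw [h2]; exact hfA⟩
  have hup : ∀ p' : Flag G, ed p' ∉ A → ∃ p : Flag (GR A (∅ : Finset (Sym2 V))), fv p = fv p' := by
    intro p' hp'
    have h3 : (GR A (∅ : Finset (Sym2 V))).Adj p'.1.fst p'.1.snd := (q4_adj A _ _).2 ⟨ed p', rfl, hp'⟩
    exact ⟨(⟨p'.1.toProd, h3⟩, p'.2), rfl⟩
  have hD : ∀ x : (GR A (∅ : Finset (Sym2 V))).edgeSet, x ∉ DR (GR A (∅ : Finset (Sym2 V))) ∅ := by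
    intro x hx
    unfold DR at hx
    rw [Finset.mem_filter] at hx
    simp at hx
  refine ⟨T, ⟨{y, T'.nxt y}, Finset.card_le_two, ?_, ?_, ?_⟩, ?_, fun h' => hT4 (hM2 h')⟩
  · rintro p ⟨-, -, h3, -⟩
    simp only [Finset.mem_insert, Finset.mem_singleton, not_or] at h3
    obtain ⟨p2, hp2, hp2e⟩ := hlift p
    obtain ⟨p', hp', -⟩ := hdn p
    have h4 := hM5 p p2 h3.1 h3.2 hp2
    have h5 : ed (M2.nxt p2) ∉ ({e} : Finset G2.edgeSet) := by
      obtain ⟨q2, hq2, hq2e⟩ := hlift (T'.nxt p)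
      have h6 : M2.nxt p2 = q2 := q4_inj (h4.trans hq2.symm)
      rw [h6]
      exact hq2e
    exact ⟨p', hp', (hT2 p2 p' hp2e h5 (hp'.trans hp2.symm)).trans h4⟩
  · intro p hp
    have h3 := hT1 p
    rw [hL3 p hp] at h3
    rw [← h3] at hp ⊢
    unfold part at hp ⊢
    split_ifs with h4
    · rfl
    · rw [if_neg h4] at hp
      exact absurd rfl hp
  · set F := univ.filter fun p' : Flag G => part A S p' = p' ∧
      ¬ ∃ p, Kp T' (DR (GR A (∅ : Finset (Sym2 V))) ∅) {y, T'.nxt y} p ∧ fv p' = fv p with hF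
    have h1 : (F.filter fun p' => ed p' ∈ A).card ≤ 4 := by
      refine le_trans (Finset.card_le_card ?_) h.2.2.2.2.1
      intro p' hp'
      rw [Finset.mem_filter, hF, Finset.mem_filter] at hp'
      rw [mem_mix]
      exact ⟨hp'.2, hp'.1.2.1⟩
    have h2 : (F.filter fun p' => ed p' ∉ A).card ≤ ({y, T'.nxt y} : Finset (Flag (GR A (∅ : Finset (Sym2 V))))).card := by
      refine Finset.card_le_card_of_forall_subsingleton (fun p' q => fv q = fv p') ?_ ?_
      · intro p' hp'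
        rw [Finset.mem_filter, hF, Finset.mem_filter] at hp'
        obtain ⟨⟨-, -, hn⟩, ho⟩ := hp'
        obtain ⟨p, hp⟩ := hup p' ho
        refine ⟨p, ?_, hp⟩
        by_contra hc
        refine hn ⟨p, ⟨hD _, hD _, hc, ?_⟩, hp.symm⟩
        intro h3
        refine hc ?_
        simp only [Finset.mem_insert, Finset.mem_singleton] at h3 ⊢
        rcases h3 with h3 | h3
        · refine Or.inr ?_
          rw [← h3, T'.nxt_nxt]
        · refine Or.inl ?_
          have h4 := congrArg T'.nxt h3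
          rw [T'.nxt_nxt, T'.nxt_nxt] at h4
          exact h4
      · rintro q - a ⟨-, ha'⟩ b ⟨-, hb⟩
        exact q4_inj (ha'.symm.trans hb)
    have h3 := Finset.card_filter_add_card_filter_not (s := F) (fun p' : Flag G => ed p' ∈ A)
    have h4 : ({y, T'.nxt y} : Finset (Flag (GR A (∅ : Finset (Sym2 V))))).card ≤ 2 := Finset.card_le_two
    omega
  · rw [← (egs_eq hG T).2, hT3, hM1]

theorem stp_up [Nontrivial V] (hG : G.Connected) (S : GMap G) (A : Finset G.edgeSet) (h : Bad S A) (R : Finset (Sym2 V))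
    (hR : RR S A R) (T' : GMap (GR A R)) :
    ∃ T : GMap G, Near T' (DR (GR A R) R) T (part A S) ∧ T.eg ≤ egs T' ∧ (T'.Orientable → T.Orientable) := by
  rcases hR with ⟨h1, h2⟩ | ⟨v, w, hvw, ha, h2⟩
  · have h3 := (bad_att hG S A h).1
    have h4 : (att A (part A S)).card = 1 := le_antisymm h1 (Finset.card_pos.2 h3)
    obtain ⟨v, hv⟩ := Finset.card_eq_one.1 h4
    subst h2
    exact q4_one hG S A h T' v hv
  · exact q4_two hG S A h R (Or.inr ⟨v, w, hvw, ha, h2⟩) T' v w hvw ha h2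

end Pool.Agent.FGT
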