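import Pool.Agent.FGT.RdR1
import Pool.Agent.FGT.RdAlg
import Pool.Agent.FGT.TsA

/-!
# FGT-RdR2: numbering the vertices again (codes)

The vertices of the code are the values of the numbering; the flags correspond.
-/

set_option autoImplicit false

open Finset
open scoped Classical

namespace Pool.Agent.FGT

open Pool.Agent.Helper35.OG (Flag GMap across side)
open Pool.Agent.BEO (F2 ed rp cyc ev cod Codes ec look memb ddp comp cds Pt Ec Inp sd ac ek fl nb)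
open Pool.Agent.SCG (edl nx vl bst std Adl tre)

variable {n n2 : ℕ}

/-- the larger flag -/
private def upf {ι : Fin n2 ↪o Fin n} {G2 : SimpleGraph (Fin n2)} {G' : SimpleGraph (Fin n)} (h : Rel ι G2 G')
    (p : Flag G2) : Flag G' := (⟨(ι p.1.fst, ι p.1.snd), (h.2.2.1 _ _).1 p.1.adj⟩, p.2)

private theorem fv_inj {G' : SimpleGraph (Fin n)} {p q : Flag G'} (h : fv p = fv q) : p = q := by
  have h1 : p.1.toProd = q.1.toProd := congrArg (fun z : (Fin n × Fin n) × Bool => z.1) h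
  have h2 : p.2 = q.2 := congrArg (fun z : (Fin n × Fin n) × Bool => z.2) h
  exact Prod.ext (SimpleGraph.Dart.ext _ _ h1) h2

private theorem mem_nis0 {V : Type} [Fintype V] {G' : SimpleGraph V} (v : V) : v ∈ nis G' ↔ ∃ w, G'.Adj v w := by
  unfold nis
  rw [Finset.mem_filter]
  exact ⟨fun h => h.2, fun h => ⟨Finset.mem_univ _, h⟩⟩

private theorem mem_nis' {G' : SimpleGraph (Fin n)} (v : Fin n) : v ∈ nis G' ↔ ∃ w, G'.Adj v w := mem_nis0 v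

private theorem upf_surj {ι : Fin n2 ↪o Fin n} {G2 : SimpleGraph (Fin n2)} {G' : SimpleGraph (Fin n)}
    (h : Rel ι G2 G') (p' : Flag G') : ∃ p : Flag G2, upf h p = p' := by
  have h1 : p'.1.fst ∈ nis G' := (mem_nis' _).2 ⟨_, p'.1.adj⟩
  have h2 : p'.1.snd ∈ nis G' := (mem_nis' _).2 ⟨_, p'.1.adj.symm⟩
  obtain ⟨u, hu⟩ := (h.2.2.2 _).1 h1
  obtain ⟨v, hv⟩ := (h.2.2.2 _).1 h2
  have h3 : G2.Adj u v := by
    rw [h.2.2.1, hu, hv]
    exact p'.1.adj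
  refine ⟨(⟨(u, v), h3⟩, p'.2), fv_inj ?_⟩
  show ((ι u, ι v), p'.2) = (p'.1.toProd, p'.2)
  rw [hu, hv]

private theorem upf_nxt {ι : Fin n2 ↪o Fin n} {G2 : SimpleGraph (Fin n2)} {G' : SimpleGraph (Fin n)}
    (h : Rel ι G2 G') {M2 : GMap G2} {M' : GMap G'} (hM : RM ι M2 M') (p : Flag G2) :
    M'.nxt (upf h p) = upf h (M2.nxt p) := fv_inj (hM p (upf h p) rfl)

private theorem mem_vlx {ι : Fin n2 ↪o Fin n} {G2 : SimpleGraph (Fin n2)} {G' : SimpleGraph (Fin n)}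
    (h : Rel ι G2 G') {M' : GMap G'} {x : Inp} (hx : Codes M' x) (v : ℕ) :
    v ∈ vl x ↔ ∃ u : Fin n2, v = ((ι u : Fin n) : ℕ) := by
  unfold vl
  rw [Pool.Agent.BEO.mem_ddp, List.mem_map]
  constructor
  · rintro ⟨y, hy, rfl⟩
    obtain ⟨p', rfl⟩ := (Pool.Agent.BEO.mem_fl hx y).1 hy
    obtain ⟨p, rfl⟩ := upf_surj h p'
    exact ⟨p.1.fst, rfl⟩
  · rintro ⟨u, rfl⟩
    have h1 : ι u ∈ nis G' := (h.2.2.2 _).2 ⟨u, rfl⟩
    obtain ⟨w, hw⟩ := (mem_nis' _).1 h1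
    exact ⟨cod ((⟨(ι u, w), hw⟩, true) : Flag G'), (Pool.Agent.BEO.mem_fl hx _).2 ⟨_, rfl⟩, rfl⟩

private theorem rk_eq {ι : Fin n2 ↪o Fin n} {U : List ℕ} (hU : U.Nodup)
    (hm : ∀ v, v ∈ U ↔ ∃ u : Fin n2, v = ((ι u : Fin n) : ℕ)) (i : Fin n2) :
    rkU U ((ι i : Fin n) : ℕ) = (i : ℕ) := by
  unfold rkU
  rw [← List.toFinset_card_of_nodup (hU.filter _)]
  have h1 : (U.filter fun u => decide (u < ((ι i : Fin n) : ℕ))).toFinset =
      (Finset.Iio i).image fun j : Fin n2 => ((ι j : Fin n) : ℕ) := by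
    ext v
    rw [List.mem_toFinset, List.mem_filter, decide_eq_true_iff, hm, Finset.mem_image]
    constructor
    · rintro ⟨⟨u, rfl⟩, h2⟩
      exact ⟨u, Finset.mem_Iio.2 (ι.lt_iff_lt.1 (Fin.lt_def.2 h2)), rfl⟩
    · rintro ⟨u, h2, rfl⟩
      exact ⟨⟨u, rfl⟩, Fin.lt_def.1 (ι.lt_iff_lt.2 (Finset.mem_Iio.1 h2))⟩
  rw [h1, Finset.card_image_of_injective, Fin.card_Iio]
  intro a b hab
  exact ι.injective (Fin.ext hab)

private theorem iv_eq {ι : Fin n2 ↪o Fin n} {U : List ℕ} (hU : U.Nodup)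
    (hm : ∀ v, v ∈ U ↔ ∃ u : Fin n2, v = ((ι u : Fin n) : ℕ)) (i : Fin n2) :
    ivU U (i : ℕ) = ((ι i : Fin n) : ℕ) := by
  unfold ivU
  refine Pool.Agent.BEO.look_eq _ _ _ _ ?_ ?_
  · rw [List.mem_map]
    exact ⟨((ι i : Fin n) : ℕ), (hm _).2 ⟨i, rfl⟩, by rw [rk_eq hU hm]⟩
  · intro y' hy
    obtain ⟨u, hu, he⟩ := List.mem_map.1 hy
    obtain ⟨j, rfl⟩ := (hm _).1 hu
    have h1 : rkU U ((ι j : Fin n) : ℕ) = (i : ℕ) := congrArg Prod.fst he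
    have h2 : ((ι j : Fin n) : ℕ) = y' := congrArg Prod.snd he
    rw [rk_eq hU hm] at h1
    rw [← h2, Fin.ext h1]

theorem rlx_codes (ι : Fin n2 ↪o Fin n) (G2 : SimpleGraph (Fin n2)) (G' : SimpleGraph (Fin n)) (h : Rel ι G2 G')
    (M2 : GMap G2) (M' : GMap G') (hM : RM ι M2 M') (x : Inp) (hx : Codes M' x) : Codes M2 (rlx x) := by
  have hU : (vl x).Nodup := by
    unfold vl
    exact Pool.Agent.BEO.nodup_ddp _
  have hr := rk_eq (ι := ι) hU (mem_vlx h hx)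
  have hf : ∀ p q : Flag G2,
      (((rkU (vl x) (cod (upf h p)).1, (rkU (vl x) (cod (upf h p)).2.1, (cod (upf h p)).2.2)),
        (rkU (vl x) (cod (upf h q)).1, (rkU (vl x) (cod (upf h q)).2.1, (cod (upf h q)).2.2))) : Pt × Pt) =
      (cod p, cod q) := by
    intro p q
    show (((rkU (vl x) ((ι p.1.fst : Fin n) : ℕ), (rkU (vl x) ((ι p.1.snd : Fin n) : ℕ), p.2)),
      (rkU (vl x) ((ι q.1.fst : Fin n) : ℕ), (rkU (vl x) ((ι q.1.snd : Fin n) : ℕ), q.2))) : Pt × Pt) = _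
    rw [hr, hr, hr, hr]
    rfl
  intro y
  unfold rlx
  rw [List.mem_map]
  constructor
  · rintro ⟨z, hz, rfl⟩
    obtain ⟨p', rfl⟩ := (hx z).1 hz
    obtain ⟨p, rfl⟩ := upf_surj h p'
    refine ⟨p, ?_⟩
    rw [upf_nxt h hM]
    exact hf p (M2.nxt p)
  · rintro ⟨p, rfl⟩
    refine ⟨(cod (upf h p), cod (M'.nxt (upf h p))), (hx _).2 ⟨_, rfl⟩, ?_⟩
    rw [upf_nxt h hM]
    exact hf p (M2.nxt p)

theorem ulx_codes (ι : Fin n2 ↪o Fin n) (G2 : SimpleGraph (Fin n2)) (G' : SimpleGraph (Fin n)) (h : Rel ι G2 G')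
    (M2 : GMap G2) (M' : GMap G') (hM : RM ι M2 M') (y : Inp) (hy : Codes M2 y) (M0 : GMap G') (x : Inp)
    (hx : Codes M0 x) : Codes M' (ulx (vl x) y) := by
  have hU : (vl x).Nodup := by
    unfold vl
    exact Pool.Agent.BEO.nodup_ddp _
  have hr := iv_eq (ι := ι) hU (mem_vlx h hx)
  have hf : ∀ p q : Flag G2,
      (((ivU (vl x) (cod p).1, (ivU (vl x) (cod p).2.1, (cod p).2.2)),
        (ivU (vl x) (cod q).1, (ivU (vl x) (cod q).2.1, (cod q).2.2))) : Pt × Pt) =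
      (cod (upf h p), cod (upf h q)) := by
    intro p q
    show (((ivU (vl x) (p.1.fst : ℕ), (ivU (vl x) (p.1.snd : ℕ), p.2)),
      (ivU (vl x) (q.1.fst : ℕ), (ivU (vl x) (q.1.snd : ℕ), q.2))) : Pt × Pt) = _
    rw [hr, hr, hr, hr]
    rfl
  intro z
  unfold ulx
  rw [List.mem_map]
  constructor
  · rintro ⟨w, hw, rfl⟩
    obtain ⟨p, rfl⟩ := (hy w).1 hw
    refine ⟨upf h p, ?_⟩
    rw [upf_nxt h hM]
    exact hf p (M2.nxt p)
  · rintro ⟨p', rfl⟩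
    obtain ⟨p, rfl⟩ := upf_surj h p'
    refine ⟨(cod p, cod (M2.nxt p)), (hy _).2 ⟨_, rfl⟩, ?_⟩
    rw [upf_nxt h hM]
    exact hf p (M2.nxt p)

end Pool.Agent.FGT
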