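import Pool.Agent.FGT.RdAlg
import Pool.Agent.FGT.RdDef2
import Pool.Agent.FGT.TsE
import Pool.Agent.FGT.TsA
import Pool.Agent.FGT.ExA

/-!
# FGT-RdU: the test for sets which can be replaced

PLAN. `inn_codes`: the pairs of `l` with both flags over `A`. `tst_iff`: `umD_len` with `mem_mix` (ExA) for `mix`; `dl_len`, `dl_univ` for `A ≠ univ`; `nvD` is the number of classes of `rV A (part A S)` over `A` (as in the proof of `clD_eq` in TsE), `clD_eq`; `0 < length`; `cnD`: `comp` labels are equal iff the edges are related by the inner corners (compare `lV_iff` in TsC, `tsc_key`), which is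
`HCn S A`; `trD`: the first case `A.card = 1`, four mixed flags; the second: `nbD l x` lists the neighbours of `x` without repetition, all edges of `d` are at `x` and all edges at `x` are in `d`: `A = rk {x}`, and some edge joins the two neighbours (they are different and adjacent). `bad_iff`: `dks_form`, `dks_mem` (with `Fam S 4 A`).
-/

set_option autoImplicit false

open Finset
open scoped Classical

namespace Pool.Agent.FGT

open Pool.Agent.Helper35.OG (Flag GMap across side)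
open Pool.Agent.BEO (F2 ed rp cyc ev cod Codes ec look memb ddp comp cds Pt Ec Inp sd ac ek fl nb)
open Pool.Agent.SCG (edl nx vl bst std Adl tre)

variable {n : ℕ} {G : SimpleGraph (Fin n)} {S : GMap G} {l : Inp}

private theorem rdu_key {X Y : Type} [DecidableEq Y] (κ : X → Y) (hκ : Function.Injective κ) (P : X → Prop)
    (R : X → X → Prop) (pts : List Y) (rel : List (Y × Y)) (hpts : ∀ y, y ∈ pts ↔ ∃ x, y = κ x ∧ P x)
    (hrel : ∀ a b, (a, b) ∈ rel ↔ ∃ x, a = κ x ∧ ∃ y, b = κ y ∧ R x y) (h1 : ∀ x y, R x y → P x)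
    (h2 : ∀ x y, R x y → P y) (p q : X) (hp : P p) (hq : P q) :
    look (comp pts rel) (κ p) (κ p) = look (comp pts rel) (κ q) (κ q) ↔ Relation.EqvGen R p q := by
  have hr : ∀ r ∈ rel, r.1 ∈ pts ∧ r.2 ∈ pts := by
    rintro ⟨a, b⟩ hr
    obtain ⟨x, ha, y, hb, hxy⟩ := (hrel a b).1 hr
    exact ⟨(hpts a).2 ⟨x, ha, h1 x y hxy⟩, (hpts b).2 ⟨y, hb, h2 x y hxy⟩⟩
  rw [Pool.Agent.BEO.comp_look pts rel hr (κ p) (κ q) ((hpts _).2 ⟨p, rfl, hp⟩) ((hpts _).2 ⟨q, rfl, hq⟩)]
  constructor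
  · intro hpq
    have h3 : ∀ p : X, {f : Quot R | ∃ p' : X, κ p = κ p' ∧ f = Quot.mk _ p'} = {Quot.mk _ p} := by
      intro p
      ext f
      constructor
      · rintro ⟨p', hp', rfl⟩
        rw [hκ hp']
        rfl
      · intro hf
        exact ⟨p, rfl, hf⟩
    have h4 := Pool.Agent.Helper35.OG.eqvGen_eq (fun x : Y =>
      {f : Quot R | ∃ p' : X, x = κ p' ∧ f = Quot.mk _ p'}) (by
        intro x y hxy
        obtain ⟨x', rfl, y', rfl, hxy'⟩ := (hrel _ _).1 hxy
        show {f : Quot R | ∃ p'' : X, κ x' = κ p'' ∧ f = Quot.mk _ p''} =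
            {f | ∃ p'' : X, κ y' = κ p'' ∧ f = Quot.mk _ p''}
        rw [h3, h3]
        exact congrArg _ (Quot.sound hxy')) hpq
    have h5 : {f : Quot R | ∃ p' : X, κ p = κ p' ∧ f = Quot.mk _ p'} =
        {f | ∃ p' : X, κ q = κ p' ∧ f = Quot.mk _ p'} := h4
    rw [h3, h3] at h5
    exact Quot.eqvGen_exact (Set.singleton_injective h5)
  · intro hpq
    clear hp hq
    induction hpq with
    | rel x y hxy => exact Relation.EqvGen.rel _ _ ((hrel _ _).2 ⟨x, rfl, y, rfl, hxy⟩)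
    | refl x => exact Relation.EqvGen.refl _
    | symm x y _ ih => exact Relation.EqvGen.symm _ _ ih
    | trans x y z _ _ ih1 ih2 => exact Relation.EqvGen.trans _ _ _ ih1 ih2

private theorem memb_dl (h : Codes S l) (A : Finset G.edgeSet) (p : Flag G) :
    memb (dl l A) (ek (cod p)) = true ↔ ed p ∈ A := by
  rw [Pool.Agent.BEO.memb_iff, mem_dl h, Pool.Agent.BEO.ek_cod]
  constructor
  · rintro ⟨x, hx, he⟩
    rw [Pool.Agent.BEO.ec_inj he]
    exact hx
  · intro hp
    exact ⟨_, hp, rfl⟩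

private theorem part_ne (A : Finset G.edgeSet) (p : Flag G) :
    part A S p ≠ p ↔ ed p ∈ A ∧ ed (S.nxt p) ∈ A := by
  unfold part
  by_cases h1 : ed p ∈ A ∧ ed (S.nxt p) ∈ A
  · rw [if_pos h1]
    exact ⟨fun _ => h1, fun _ => S.nxt_ne p⟩
  · rw [if_neg h1]
    exact ⟨fun h2 => absurd rfl h2, fun h2 => absurd h2 h1⟩

theorem inn_codes (h : Codes S l) (A : Finset G.edgeSet) : ECodes (part A S) (inn l (dl l A)) := by
  intro y
  unfold inn
  rw [List.mem_filter, Bool.and_eq_true]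
  constructor
  · rintro ⟨hy, h1, h2⟩
    obtain ⟨p, rfl⟩ := (h y).1 hy
    have h3 := (memb_dl h A p).1 h1
    have h4 := (memb_dl h A (S.nxt p)).1 h2
    refine ⟨p, (part_ne A p).2 ⟨h3, h4⟩, ?_⟩
    have h5 : part A S p = S.nxt p := if_pos ⟨h3, h4⟩
    rw [h5]
  · rintro ⟨p, hp, rfl⟩
    have h3 := (part_ne A p).1 hp
    have h5 : part A S p = S.nxt p := if_pos h3
    rw [h5]
    exact ⟨(h _).2 ⟨p, rfl⟩, (memb_dl h A p).2 h3.1, (memb_dl h A (S.nxt p)).2 h3.2⟩

private theorem nvD_eq (h : Codes S l) (D : Finset G.edgeSet) (d : List Ec) (hd : DCodes D d) (L : Flag G → Flag G) (x : En)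
    (hx : ECodes L x) (h1 : ∀ p, L (L p) = p) (h3 : ∀ p, ed p ∈ D → ed (L p) ∈ D) :
    nvD l d x = Nat.card {c : Quot (rV D L) // ∃ p, Quot.mk _ p = c ∧ ed p ∈ D} := by
  have hiff : ∀ p q : Flag G, ed p ∈ D → ed q ∈ D →
      (look (lV l d x) (cod p) (cod p) = look (lV l d x) (cod q) (cod q) ↔ Relation.EqvGen (rV D L) p q) := by
    intro p q hp hq
    rw [← lV_iff h D d hd L x hx h1 h3 p q hp hq]
    unfold eqF
    rw [decide_eq_true_iff]
  have hmem : ∀ y, y ∈ (ddp ((lV l d x).map Prod.snd)).toFinset ↔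
      ∃ p : Flag G, ed p ∈ D ∧ y = look (lV l d x) (cod p) (cod p) := by
    intro y
    rw [List.mem_toFinset, Pool.Agent.BEO.mem_ddp]
    have hfst : (lV l d x).map Prod.fst = fD l d := Pool.Agent.BEO.comp_fst _ _
    have hnd : ((lV l d x).map Prod.fst).Nodup := by
      rw [hfst]
      exact fD_nodup _ _
    have hlk : ∀ z ∈ fD l d, (z, look (lV l d x) z z) ∈ lV l d x := by
      intro z hz
      apply Pool.Agent.BEO.look_mem
      rw [← hfst, List.mem_map] at hz
      obtain ⟨⟨a, b⟩, hab, rfl⟩ := hz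
      exact ⟨b, hab⟩
    rw [List.mem_map]
    constructor
    · rintro ⟨⟨a, b⟩, hab, rfl⟩
      have ha : a ∈ fD l d := by
        rw [← hfst]
        exact List.mem_map.2 ⟨(a, b), hab, rfl⟩
      obtain ⟨p, rfl, hp⟩ := (mem_fD h D d hd a).1 ha
      refine ⟨p, hp, ?_⟩
      have h5 := List.inj_on_of_nodup_map hnd hab (hlk _ ha) rfl
      exact (Prod.mk.inj h5).2
    · rintro ⟨p, hp, rfl⟩
      exact ⟨_, hlk _ ((mem_fD h D d hd _).2 ⟨p, rfl, hp⟩), rfl⟩
  unfold nvD
  rw [← List.toFinset_card_of_nodup (Pool.Agent.BEO.nodup_ddp _)]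
  have hrep : ∀ c' : {c : Quot (rV D L) // ∃ p, Quot.mk _ p = c ∧ ed p ∈ D},
      ∃ p : Flag G, Quot.mk _ p = c'.1 ∧ ed p ∈ D := fun c' => c'.2
  choose rep hrep1 hrep2 using hrep
  have hb : Function.Bijective (fun c' : {c : Quot (rV D L) // ∃ p, Quot.mk _ p = c ∧ ed p ∈ D} =>
      (⟨look (lV l d x) (cod (rep c')) (cod (rep c')), (hmem _).2 ⟨rep c', hrep2 c', rfl⟩⟩ :
      (ddp ((lV l d x).map Prod.snd)).toFinset)) := by
    constructor
    · intro c1 c2 h12
      have h4 := congrArg Subtype.val h12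
      have h5 := (hiff (rep c1) (rep c2) (hrep2 c1) (hrep2 c2)).1 h4
      apply Subtype.ext
      rw [← hrep1 c1, ← hrep1 c2]
      exact Quot.eqvGen_sound h5
    · rintro ⟨y, hy⟩
      obtain ⟨p, hp, hyp⟩ := (hmem y).1 hy
      refine ⟨⟨Quot.mk _ p, p, rfl, hp⟩, ?_⟩
      apply Subtype.ext
      refine Eq.trans ?_ hyp.symm
      refine (hiff _ p (hrep2 _) hp).2 ?_
      exact Quot.eqvGen_exact (hrep1 _)
  rw [Nat.card_congr (Equiv.ofBijective _ hb), Nat.card_eq_fintype_card, Fintype.card_coe]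

private theorem cnD_iff (h : Codes S l) (A : Finset G.edgeSet) : cnD l (dl l A) = true ↔ HCn S A := by
  have hkey : ∀ e ∈ A, ∀ f ∈ A, (look (cpD l (dl l A)) (ec e) (ec e) = look (cpD l (dl l A)) (ec f) (ec f) ↔
      Relation.EqvGen (fun x y => x ∈ A ∧ y ∈ A ∧ ∃ p : Flag G, ed p = x ∧ ed (S.nxt p) = y) e f) := by
    intro e he f hf
    unfold cpD
    refine rdu_key ec (fun _ _ hab => Pool.Agent.BEO.ec_inj hab) (fun e => e ∈ A) _ _ _ ?_ ?_ (fun x y hxy => hxy.1)
      (fun x y hxy => hxy.2.1) e f he hf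
    · intro y
      rw [mem_dl h]
      constructor
      · rintro ⟨x, hx, hy⟩
        exact ⟨x, hy, hx⟩
      · rintro ⟨x, hy, hx⟩
        exact ⟨x, hx, hy⟩
    · intro a b
      rw [List.mem_map]
      constructor
      · rintro ⟨y, hy, hab⟩
        obtain ⟨p, hp, rfl⟩ := (inn_codes h A y).1 hy
        have h3 := (part_ne A p).1 hp
        have h5 : part A S p = S.nxt p := if_pos h3
        obtain ⟨e1, e2⟩ := Prod.mk.inj hab
        rw [Pool.Agent.BEO.ek_cod] at e1
        rw [h5, Pool.Agent.BEO.ek_cod] at e2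
        exact ⟨ed p, e1.symm, ed (S.nxt p), e2.symm, h3.1, h3.2, p, rfl, rfl⟩
      · rintro ⟨x, rfl, y, rfl, hx, hy, p, rfl, rfl⟩
        refine ⟨(cod p, cod (part A S p)), (inn_codes h A _).2 ⟨p, (part_ne A p).2 ⟨hx, hy⟩, rfl⟩, ?_⟩
        have h5 : part A S p = S.nxt p := if_pos ⟨hx, hy⟩
        rw [h5, Pool.Agent.BEO.ek_cod, Pool.Agent.BEO.ek_cod]
  unfold cnD
  rw [List.all_eq_true]
  constructor
  · intro h1 e he f hf
    have h2 := h1 (ec e) ((mem_dl h A _).2 ⟨e, he, rfl⟩)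
    rw [List.all_eq_true] at h2
    have h3 := h2 (ec f) ((mem_dl h A _).2 ⟨f, hf, rfl⟩)
    rw [decide_eq_true_iff] at h3
    exact (hkey e he f hf).1 h3
  · intro h1 y hy
    rw [List.all_eq_true]
    intro z hz
    obtain ⟨e, he, rfl⟩ := (mem_dl h A y).1 hy
    obtain ⟨f, hf, rfl⟩ := (mem_dl h A z).1 hz
    rw [decide_eq_true_iff]
    exact (hkey e he f hf).2 (h1 e he f hf)

private theorem mem_nbD (h : Codes S l) (x : Fin n) (u : ℕ) : u ∈ nbD l (x : ℕ) ↔ ∃ a : Fin n, G.Adj x a ∧ u = (a : ℕ) := by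
  unfold nbD
  rw [Pool.Agent.BEO.mem_ddp, List.mem_map]
  constructor
  · rintro ⟨y, hy, rfl⟩
    rw [List.mem_filter, decide_eq_true_iff] at hy
    obtain ⟨hy, h1⟩ := hy
    obtain ⟨p, rfl⟩ := (Pool.Agent.BEO.mem_fl h y).1 hy
    have h2 : p.1.fst = x := Fin.ext h1
    refine ⟨p.1.snd, ?_, rfl⟩
    rw [← h2]
    exact p.1.adj
  · rintro ⟨a, ha, rfl⟩
    refine ⟨cod ((⟨(x, a), ha⟩, true) : Flag G), ?_, rfl⟩
    rw [List.mem_filter, decide_eq_true_iff]
    exact ⟨(Pool.Agent.BEO.mem_fl h _).2 ⟨_, rfl⟩, rfl⟩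

private theorem len_nbD (h : Codes S l) (x : Fin n) : (nbD l (x : ℕ)).length = (nb G x).card := by
  have hnd : (nbD l (x : ℕ)).Nodup := Pool.Agent.BEO.nodup_ddp _
  rw [← List.toFinset_card_of_nodup hnd, ← Finset.card_image_of_injective (nb G x) Fin.val_injective]
  congr 1
  ext u
  rw [List.mem_toFinset, mem_nbD h, Finset.mem_image]
  unfold nb
  constructor
  · rintro ⟨a, ha, rfl⟩
    exact ⟨a, Finset.mem_filter.2 ⟨mem_univ _, ha⟩, rfl⟩
  · rintro ⟨a, ha, rfl⟩
    exact ⟨a, (Finset.mem_filter.1 ha).2, rfl⟩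

private theorem ec_end (e : G.edgeSet) (x : Fin n) : ((ec e).1 = (x : ℕ) ∨ (ec e).2 = (x : ℕ)) ↔ x ∈ e.1 := by
  have h1 : ed (rp e) = e := Pool.Agent.BEO.ed_rp e
  have h2 : e.1 = s((rp e).1.fst, (rp e).1.snd) := by
    conv_lhs => rw [← h1]
    rfl
  have h3 : x ∈ e.1 ↔ x = (rp e).1.fst ∨ x = (rp e).1.snd := by
    rw [h2, Sym2.mem_iff]
  have h4 : ec e = if (((rp e).1.fst : Fin n) : ℕ) ≤ (((rp e).1.snd : Fin n) : ℕ) then
      ((((rp e).1.fst : Fin n) : ℕ), (((rp e).1.snd : Fin n) : ℕ)) else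
      ((((rp e).1.snd : Fin n) : ℕ), (((rp e).1.fst : Fin n) : ℕ)) := by
    unfold ec ek cod
    by_cases h5 : (((rp e).1.fst : Fin n) : ℕ) ≤ (((rp e).1.snd : Fin n) : ℕ)
    · simp [h5]
    · simp [h5]
  rw [h3, h4]
  by_cases h5 : (((rp e).1.fst : Fin n) : ℕ) ≤ (((rp e).1.snd : Fin n) : ℕ)
  · rw [if_pos h5]
    constructor
    · rintro (h6 | h6)
      · exact Or.inl (Fin.ext h6).symm
      · exact Or.inr (Fin.ext h6).symm
    · rintro (rfl | rfl)
      · exact Or.inl rfl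
      · exact Or.inr rfl
  · rw [if_neg h5]
    constructor
    · rintro (h6 | h6)
      · exact Or.inr (Fin.ext h6).symm
      · exact Or.inl (Fin.ext h6).symm
    · rintro (rfl | rfl)
      · exact Or.inr rfl
      · exact Or.inl rfl

private theorem fst_mem (p : Flag G) : p.1.fst ∈ (ed p).1 := by
  change p.1.fst ∈ s(p.1.fst, p.1.snd)
  rw [Sym2.mem_iff]
  exact Or.inl rfl

private theorem mem_vl (h : Codes S l) (u : ℕ) : u ∈ vl l ↔ ∃ p : Flag G, u = (p.1.fst : ℕ) := by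
  unfold vl
  rw [Pool.Agent.BEO.mem_ddp, List.mem_map]
  constructor
  · rintro ⟨y, hy, rfl⟩
    obtain ⟨p, rfl⟩ := (Pool.Agent.BEO.mem_fl h y).1 hy
    exact ⟨p, rfl⟩
  · rintro ⟨p, rfl⟩
    exact ⟨cod p, (Pool.Agent.BEO.mem_fl h _).2 ⟨p, rfl⟩, rfl⟩

private theorem um_len (h : Codes S l) (A : Finset G.edgeSet) :
    (umD l (dl l A) (inn l (dl l A))).length = (mix A S).card := by
  rw [umD_len h A (dl l A) (mem_dl h A) (part A S) (inn l (dl l A)) (inn_codes h A)]
  congr 1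
  ext p
  rw [mem_mix, Finset.mem_filter]
  exact ⟨fun h1 => h1.2, fun h1 => ⟨mem_univ _, h1⟩⟩

private theorem flag_at (e : G.edgeSet) (x : Fin n) (hx : x ∈ e.1) : ∃ p : Flag G, p.1.fst = x ∧ ed p = e := by
  have h1 : ed (rp e) = e := Pool.Agent.BEO.ed_rp e
  have h2 : e.1 = s((rp e).1.fst, (rp e).1.snd) := by
    conv_lhs => rw [← h1]
    rfl
  rw [h2, Sym2.mem_iff] at hx
  rcases hx with rfl | rfl
  · exact ⟨rp e, rfl, h1⟩
  · exact ⟨across (rp e), rfl, by rw [Pool.Agent.BEO.ed_across]; exact h1⟩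

private theorem mem_rk1 (x : Fin n) (e : G.edgeSet) : e ∈ rk {x} ↔ x ∈ e.1 := by
  unfold rk
  simp

private theorem mem_nb1 (x c : Fin n) : c ∈ nb G x ↔ G.Adj x c := by
  unfold nb
  simp

private theorem pair_any {α : Type} (i j : DecidableEq α) (a b : α) :
    (letI := i; ({a, b} : Finset α)) = (letI := j; ({a, b} : Finset α)) := by
  have e : i = j := Subsingleton.elim _ _
  subst e
  rfl

private theorem trD_iff (h : Codes S l) (A : Finset G.edgeSet) : trD l (dl l A) = true ↔ Trv S A := by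
  unfold trD Trv
  rw [Bool.or_eq_true, Bool.and_eq_true, decide_eq_true_iff, decide_eq_true_iff, um_len h, dl_len h, List.any_eq_true]
  refine or_congr Iff.rfl ?_
  constructor
  · rintro ⟨u, hu, h1⟩
    obtain ⟨p0, rfl⟩ := (mem_vl h u).1 hu
    set x := p0.1.fst with hxdef
    rw [Bool.and_eq_true, Bool.and_eq_true, Bool.and_eq_true, decide_eq_true_iff, List.all_eq_true, List.all_eq_true,
      List.any_eq_true, len_nbD h] at h1
    obtain ⟨⟨h2, h3⟩, h4, q, hq, h5⟩ := h1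
    obtain ⟨a, b, hab, hnb⟩ := Finset.card_eq_two.1 h2
    rw [Bool.and_eq_true, Pool.Agent.BEO.memb_iff, Pool.Agent.BEO.memb_iff] at h5
    obtain ⟨q, rfl⟩ := (Pool.Agent.BEO.mem_fl h q).1 hq
    obtain ⟨a', ha', h6⟩ := (mem_nbD h x _).1 h5.1
    obtain ⟨b', hb', h7⟩ := (mem_nbD h x _).1 h5.2
    have h8 : q.1.fst = a' := Fin.ext h6
    have h9 : q.1.snd = b' := Fin.ext h7
    have h10 : G.Adj a' b' := by
      rw [← h8, ← h9]
      exact q.1.adj
    have h11 : ∀ c, G.Adj x c → c = a ∨ c = b := by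
      intro c hc
      have h12 : c ∈ nb G x := by
        unfold nb
        exact Finset.mem_filter.2 ⟨mem_univ _, hc⟩
      rw [hnb, Finset.mem_insert, Finset.mem_singleton] at h12
      exact h12
    have h13 : G.Adj a b := by
      rcases h11 a' ha' with e1 | e1 <;> rcases h11 b' hb' with e2 | e2
      · rw [e1, e2] at h10
        exact absurd h10 (G.irrefl)
      · rw [e1, e2] at h10
        exact h10
      · rw [e1, e2] at h10
        exact h10.symm
      · rw [e1, e2] at h10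
        exact absurd h10 (G.irrefl)
    refine ⟨x, a, b, hab, h13, hnb.trans ?_, ?_⟩
    · exact pair_any _ _ _ _
    ext e
    rw [mem_rk1]
    constructor
    · intro he
      have h14 := h3 (ec e) ((mem_dl h A _).2 ⟨e, he, rfl⟩)
      rw [Bool.or_eq_true, decide_eq_true_iff, decide_eq_true_iff] at h14
      exact (ec_end e x).1 h14
    · intro hve
      obtain ⟨p, hp, hpe⟩ := flag_at e x hve
      have h14 := h4 (cod p) ((Pool.Agent.BEO.mem_fl h _).2 ⟨p, rfl⟩)
      rw [Bool.or_eq_true, Bool.not_eq_true', decide_eq_false_iff_not, memb_dl h] at h14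
      rcases h14 with h14 | h14
      · exact absurd (congrArg Fin.val hp) h14
      · rw [← hpe]
        exact h14
  · rintro ⟨x, a, b, hab, hadj, hnb, hA⟩
    have hxa : G.Adj x a := by
      rw [← mem_nb1, hnb]
      simp
    have hxb : G.Adj x b := by
      rw [← mem_nb1, hnb]
      simp
    refine ⟨(x : ℕ), (mem_vl h _).2 ⟨(⟨(x, a), hxa⟩, true), rfl⟩, ?_⟩
    rw [Bool.and_eq_true, Bool.and_eq_true, Bool.and_eq_true, decide_eq_true_iff, List.all_eq_true, List.all_eq_true,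
      List.any_eq_true, len_nbD h]
    refine ⟨⟨?_, ?_⟩, ?_, ?_⟩
    · rw [hnb]
      exact (congrArg Finset.card (pair_any _ _ a b)).trans (Finset.card_pair hab)
    · intro y hy
      obtain ⟨e, he, rfl⟩ := (mem_dl h A y).1 hy
      rw [Bool.or_eq_true, decide_eq_true_iff, decide_eq_true_iff, ec_end]
      rw [hA, mem_rk1] at he
      exact he
    · intro y hy
      obtain ⟨p, rfl⟩ := (Pool.Agent.BEO.mem_fl h y).1 hy
      rw [Bool.or_eq_true, Bool.not_eq_true', decide_eq_false_iff_not, memb_dl h]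
      by_cases h1 : p.1.fst = x
      · right
        rw [hA, mem_rk1, ← h1]
        exact fst_mem p
      · left
        intro h2
        exact h1 (Fin.ext h2)
    · refine ⟨cod ((⟨(a, b), hadj⟩, true) : Flag G), (Pool.Agent.BEO.mem_fl h _).2 ⟨_, rfl⟩, ?_⟩
      rw [Bool.and_eq_true, Pool.Agent.BEO.memb_iff, Pool.Agent.BEO.memb_iff]
      exact ⟨(mem_nbD h x _).2 ⟨a, hxa, rfl⟩, (mem_nbD h x _).2 ⟨b, hxb, rfl⟩⟩

theorem tst_iff (h : Codes S l) (A : Finset G.edgeSet) : tst l (dl l A) = true ↔ Bad S A := by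
  have hL := omap_part A S
  have e1 : nvD l (dl l A) (inn l (dl l A)) = vs S A :=
    nvD_eq h A (dl l A) (mem_dl h A) (part A S) _ (inn_codes h A) hL.inv hL.mem
  have e2 : clD l (dl l A) (inn l (dl l A)) = clo A (part A S) :=
    clD_eq h A (dl l A) (mem_dl h A) (part A S) _ (inn_codes h A) hL.inv hL.mem
  have e3 : (edl l).length = (univ : Finset G.edgeSet).card := by
    rw [← dl_univ h, dl_len h]
  have e4 : A.card < (univ : Finset G.edgeSet).card ↔ A ≠ univ := by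
    constructor
    · intro h1 h2
      rw [h2] at h1
      exact lt_irrefl _ h1
    · intro h1
      exact Finset.card_lt_card (Finset.ssubset_univ_iff.2 h1)
  have e5 : vs S A + clo A (part A S) = A.card + 1 ↔ chi S A = 1 := by
    unfold chi
    omega
  unfold tst Bad
  rw [Bool.and_eq_true, Bool.and_eq_true, Bool.and_eq_true, Bool.and_eq_true, Bool.and_eq_true, decide_eq_true_iff,
    decide_eq_true_iff, decide_eq_true_iff, decide_eq_true_iff, Bool.not_eq_true', um_len h, dl_len h, e1, e2, e3, e4, e5,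
    cnD_iff h, Finset.card_pos, ← Bool.not_eq_true, trD_iff h]
  tauto

theorem bad_iff (h : Codes S l) : (∀ d ∈ bad l, ∃ A, d = dl l A ∧ Bad S A) ∧ ∀ A, Bad S A → dl l A ∈ bad l := by
  unfold bad
  constructor
  · intro d hd
    rw [List.mem_filter] at hd
    obtain ⟨A, rfl⟩ := dks_form h 4 d hd.1
    exact ⟨A, rfl, (tst_iff h A).1 hd.2⟩
  · intro A hA
    rw [List.mem_filter]
    exact ⟨dks_mem h 4 A ⟨hA.1, hA.2.2.1, hA.2.2.2.2.1⟩, (tst_iff h A).2 hA⟩

end Pool.Agent.FGT
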