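import Pool.Agent.FGT.RdAlg
import Pool.Agent.FGT.RdP1
import Pool.Agent.FGT.RdG
import Pool.Agent.FGT.TsA
import Pool.Agent.SCG.HCod
import Pool.Agent.SCG.HAdd

/-!
# FGT-RdV: the new edges

PLAN. `bvD l (dl l A)` lists the vertices with an edge in `A` and an edge outside, without repetitions: these are `att A (part A S)` (`att_iff` in RdG, `omap_part`), one or two vertices (`bad_att`). One: `R = ∅`. Two, `v`, `w`: `R = {s(v, w)}` if no edge of `edl l` outside `d` is `nme v w`; otherwise there is a vertex in `tv A` other than `v`, `w` (`A`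
touches `v` and does not contain the edge `v w`; so it has an edge at `v` with another end); the filtered list is not empty and its head is such an `x`. `DCodes`: the code `ec e` of the edge `e = s(v, w)` is `nme v w` (`ek_cod`). `Lists`: the edges of `edl l` outside `d` and those of `R`.
-/

set_option autoImplicit false

open Finset
open scoped Classical

namespace Pool.Agent.FGT

open Pool.Agent.Helper35.OG (Flag GMap across side)
open Pool.Agent.BEO (F2 ed rp cyc ev cod Codes ec look memb ddp comp cds Pt Ec Inp sd ac ek fl nb)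
open Pool.Agent.SCG (edl nx vl bst std Adl tre)
open Pool.Agent.SCG (Lists stdM AddE)

section gen

variable {V : Type} {G : SimpleGraph V} [Fintype V]

private theorem rdv_tv (A : Finset G.edgeSet) (v : V) : v ∈ tv A ↔ ∃ e ∈ A, v ∈ e.1 := by
  unfold tv
  rw [Finset.mem_filter]
  exact ⟨fun h => h.2, fun h => ⟨Finset.mem_univ _, h⟩⟩

private theorem rdv_dr (H : SimpleGraph V) (R : Finset (Sym2 V)) (e : H.edgeSet) : e ∈ DR H R ↔ e.1 ∈ R := by
  unfold DR
  rw [Finset.mem_filter]
  exact ⟨fun h => h.2, fun h => ⟨Finset.mem_univ _, h⟩⟩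

private theorem rdv_att (S : GMap G) (A : Finset G.edgeSet) (v w : V) (hvw : v ≠ w) (hv : v ∈ att A (part A S))
    (hw : w ∈ att A (part A S)) (h2 : (att A (part A S)).card ≤ 2) : att A (part A S) = {v, w} := by
  symm
  refine Finset.eq_of_subset_of_card_le ?_ ?_
  · intro x hx
    rw [Finset.mem_insert, Finset.mem_singleton] at hx
    rcases hx with rfl | rfl
    · exact hv
    · exact hw
  · rw [Finset.card_pair hvw]
    exact h2

private theorem rdv_rr1 (S : GMap G) (A : Finset G.edgeSet) (v w : V) (hvw : v ≠ w) (hv : v ∈ att A (part A S))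
    (hw : w ∈ att A (part A S)) (h2 : (att A (part A S)).card ≤ 2) (h : ¬ Oe A v w) : RR S A {s(v, w)} :=
  Or.inr ⟨v, w, hvw, rdv_att S A v w hvw hv hw h2, Or.inl ⟨h, rfl⟩⟩

private theorem rdv_rr2 (S : GMap G) (A : Finset G.edgeSet) (v w : V) (hvw : v ≠ w) (hv : v ∈ att A (part A S))
    (hw : w ∈ att A (part A S)) (h2 : (att A (part A S)).card ≤ 2) (h : Oe A v w) (x : V) (hx : x ∈ tv A) (hxv : x ≠ v)
    (hxw : x ≠ w) : ∃ R : Finset (Sym2 V), RR S A R ∧ ∀ e, e ∈ R ↔ e = s(v, x) ∨ e = s(x, w) := by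
  refine ⟨{s(v, x), s(x, w)}, Or.inr ⟨v, w, hvw, rdv_att S A v w hvw hv hw h2, Or.inr ⟨h, x, hx, hxv, hxw, rfl⟩⟩, ?_⟩
  intro e
  rw [Finset.mem_insert, Finset.mem_singleton]

end gen

variable {n : ℕ} {G : SimpleGraph (Fin n)} {S : GMap G} {l : Inp}

private theorem rdv_nme (a b : Fin n) : nme (a : ℕ) (b : ℕ) = ((a : ℕ), (b : ℕ)) ∨ nme (a : ℕ) (b : ℕ) = ((b : ℕ), (a : ℕ)) := by
  unfold nme
  by_cases h : (a : ℕ) ≤ (b : ℕ)
  · rw [if_pos (decide_eq_true h)]
    exact Or.inl rfl
  · rw [if_neg (by simpa using h)]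
    exact Or.inr rfl

private theorem rdv_pair {u v a b : Fin n} (h : ((u : ℕ), (v : ℕ)) = nme (a : ℕ) (b : ℕ)) : s(u, v) = s(a, b) := by
  rw [Sym2.eq_iff]
  rcases rdv_nme a b with h1 | h1
  · rw [h1, Prod.mk.injEq] at h
    exact Or.inl ⟨Fin.ext h.1, Fin.ext h.2⟩
  · rw [h1, Prod.mk.injEq] at h
    exact Or.inr ⟨Fin.ext h.1, Fin.ext h.2⟩

private theorem rdv_inj {u v a b : Fin n} (h : nme (u : ℕ) (v : ℕ) = nme (a : ℕ) (b : ℕ)) : s(u, v) = s(a, b) := by
  rcases rdv_nme u v with h1 | h1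
  · exact rdv_pair (h1.symm.trans h)
  · rw [Sym2.eq_swap]
    exact rdv_pair (h1.symm.trans h)

private theorem rdv_ec {H : SimpleGraph (Fin n)} (e : H.edgeSet) (a b : Fin n) (h : e.1 = s(a, b)) :
    ec e = nme (a : ℕ) (b : ℕ) := by
  have hadj : H.Adj a b := by
    rw [← SimpleGraph.mem_edgeSet, ← h]
    exact e.2
  have h1 := Pool.Agent.BEO.ek_cod ((⟨(a, b), hadj⟩, true) : Flag H)
  have h2 : ed ((⟨(a, b), hadj⟩, true) : Flag H) = e := Subtype.ext h.symm
  rw [h2] at h1
  rw [← h1]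
  rfl

private theorem rdv_ecI {H : SimpleGraph (Fin n)} (e : H.edgeSet) (a b : Fin n) (h : ec e = nme (a : ℕ) (b : ℕ)) :
    e.1 = s(a, b) := by
  obtain ⟨⟨x, y⟩, hxy⟩ : ∃ z : Fin n × Fin n, e.1 = s(z.1, z.2) := by
    induction e.1 using Sym2.ind with
    | _ x y => exact ⟨(x, y), rfl⟩
  rw [rdv_ec e x y hxy] at h
  rw [hxy]
  exact rdv_inj h

private theorem rdv_flag {v : Fin n} (e : G.edgeSet) (h : v ∈ e.1) : ∃ p : Flag G, ed p = e ∧ p.1.fst = v := by
  obtain ⟨w, hw⟩ := Sym2.mem_iff_exists.1 h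
  have hadj : G.Adj v w := by
    rw [← SimpleGraph.mem_edgeSet, ← hw]
    exact e.2
  refine ⟨(⟨(v, w), hadj⟩, true), ?_, rfl⟩
  apply Subtype.ext
  exact hw.symm

private theorem rdv_fst (p : Flag G) : p.1.fst ∈ (ed p).1 := by
  show p.1.fst ∈ p.1.edge
  exact Sym2.mem_mk_left _ _

private theorem rdv_memb (h : Codes S l) (A : Finset G.edgeSet) (e : G.edgeSet) : memb (dl l A) (ec e) = true ↔ e ∈ A := by
  rw [Pool.Agent.BEO.memb_iff, mem_dl h]
  constructor
  · rintro ⟨x, hx, h1⟩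
    rw [Pool.Agent.BEO.ec_inj h1]
    exact hx
  · intro h1
    exact ⟨e, h1, rfl⟩

private theorem rdv_list (h : Codes S l) (A : Finset G.edgeSet) (u : ℕ) :
    u ∈ ddp ((fD l (dl l A)).map Prod.fst) ↔ ∃ v : Fin n, u = v ∧ v ∈ tv A := by
  rw [Pool.Agent.BEO.mem_ddp, List.mem_map]
  unfold fD
  constructor
  · rintro ⟨x, hx, rfl⟩
    obtain ⟨h1, h2⟩ := List.mem_filter.1 hx
    obtain ⟨p, rfl⟩ := (Pool.Agent.BEO.mem_fl h x).1 h1
    rw [Pool.Agent.BEO.ek_cod, rdv_memb h] at h2
    exact ⟨p.1.fst, rfl, (rdv_tv A _).2 ⟨ed p, h2, rdv_fst p⟩⟩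
  · rintro ⟨v, rfl, hv⟩
    obtain ⟨e, he, hve⟩ := (rdv_tv A v).1 hv
    obtain ⟨p, hp, hpv⟩ := rdv_flag e hve
    refine ⟨cod p, List.mem_filter.2 ⟨(Pool.Agent.BEO.mem_fl h _).2 ⟨p, rfl⟩, ?_⟩, ?_⟩
    · rw [Pool.Agent.BEO.ek_cod, rdv_memb h, hp]
      exact he
    · show (p.1.fst : ℕ) = v
      rw [hpv]

private theorem rdv_bv (h : Codes S l) (A : Finset G.edgeSet) (u : ℕ) :
    u ∈ bvD l (dl l A) ↔ ∃ v : Fin n, u = v ∧ v ∈ att A (part A S) := by
  unfold bvD
  rw [List.mem_filter, rdv_list h, List.any_eq_true]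
  constructor
  · rintro ⟨⟨v, rfl, hv⟩, x, hx, h2⟩
    obtain ⟨q, rfl⟩ := (Pool.Agent.BEO.mem_fl h x).1 hx
    rw [Bool.and_eq_true] at h2
    have h3 : (q.1.fst : ℕ) = v := of_decide_eq_true h2.1
    have h4 : ed q ∉ A := by
      intro hc
      have h5 := h2.2
      rw [Pool.Agent.BEO.ek_cod, (rdv_memb h A (ed q)).2 hc] at h5
      exact absurd h5 (by decide)
    refine ⟨v, rfl, (att_iff A _ (omap_part A S) v).2 ⟨hv, ed q, h4, ?_⟩⟩
    rw [← Fin.ext h3]
    exact rdv_fst q
  · rintro ⟨v, rfl, hv⟩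
    obtain ⟨h1, e, he, hve⟩ := (att_iff A _ (omap_part A S) v).1 hv
    obtain ⟨q, hq, hqv⟩ := rdv_flag e hve
    refine ⟨⟨v, rfl, h1⟩, cod q, (Pool.Agent.BEO.mem_fl h _).2 ⟨q, rfl⟩, ?_⟩
    rw [Bool.and_eq_true]
    refine ⟨decide_eq_true ?_, ?_⟩
    · show (q.1.fst : ℕ) = v
      rw [hqv]
    · have h5 : memb (dl l A) (ek (cod q)) = false := by
        rw [Pool.Agent.BEO.ek_cod, Bool.eq_false_iff]
        intro hc
        rw [rdv_memb h, hq] at hc
        exact he hc
      rw [h5]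
      rfl

private theorem rdv_nd (A : Finset G.edgeSet) : (bvD l (dl l A)).Nodup := by
  unfold bvD
  exact (Pool.Agent.BEO.nodup_ddp _).filter _

private theorem rdv_len (h : Codes S l) (A : Finset G.edgeSet) : (bvD l (dl l A)).length = (att A (part A S)).card := by
  rw [← List.toFinset_card_of_nodup (rdv_nd A),
    ← Finset.card_image_of_injective (att A (part A S)) (Fin.val_injective : Function.Injective (fun v : Fin n => (v : ℕ)))]
  congr 1
  ext u
  rw [List.mem_toFinset, rdv_bv h, Finset.mem_image]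
  constructor
  · rintro ⟨v, rfl, hv⟩
    exact ⟨v, hv, rfl⟩
  · rintro ⟨v, hv, rfl⟩
    exact ⟨v, rfl, hv⟩

private theorem rdv_oe (h : Codes S l) (A : Finset G.edgeSet) (v w : Fin n) :
    ((edl l).any fun e => !memb (dl l A) e && decide (e = nme (v : ℕ) (w : ℕ))) = true ↔ Oe A v w := by
  rw [List.any_eq_true]
  constructor
  · rintro ⟨x, hx, h2⟩
    obtain ⟨e, rfl⟩ := (Pool.Agent.SCG.mem_edl h x).1 hx
    rw [Bool.and_eq_true] at h2
    refine ⟨e, ?_, rdv_ecI e v w (of_decide_eq_true h2.2)⟩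
    intro hc
    have h5 := h2.1
    rw [(rdv_memb h A e).2 hc] at h5
    exact absurd h5 (by decide)
  · rintro ⟨e, he, hvw⟩
    refine ⟨ec e, (Pool.Agent.SCG.mem_edl h _).2 ⟨e, rfl⟩, ?_⟩
    rw [Bool.and_eq_true]
    refine ⟨?_, decide_eq_true (rdv_ec e v w hvw)⟩
    have h5 : memb (dl l A) (ec e) = false := by
      rw [Bool.eq_false_iff]
      intro hc
      exact he ((rdv_memb h A e).1 hc)
    rw [h5]
    rfl

private theorem rdv_gr (A : Finset G.edgeSet) (R : Finset (Sym2 (Fin n))) (u v : Fin n) :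
    (GR A R).Adj u v ↔ ((∃ f : G.edgeSet, f.1 = s(u, v) ∧ f ∉ A) ∨ s(u, v) ∈ R) ∧ u ≠ v := by
  unfold GR
  rw [SimpleGraph.fromEdgeSet_adj]
  rfl

private theorem rdv_gen (h : Codes S l) (A : Finset G.edgeSet) (R : Finset (Sym2 (Fin n))) (r : List Ec)
    (h1 : ∀ y, y ∈ r ↔ ∃ a b : Fin n, s(a, b) ∈ R ∧ y = nme (a : ℕ) (b : ℕ)) (h2 : ∀ a b : Fin n, s(a, b) ∈ R → a ≠ b) :
    DCodes (DR (GR A R) R) r ∧ Lists (GR A R) (((edl l).filter fun e => !memb (dl l A) e) ++ r) := by
  have hout : ∀ x, x ∈ (edl l).filter (fun e => !memb (dl l A) e) ↔ ∃ f : G.edgeSet, f ∉ A ∧ x = ec f := by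
    intro x
    rw [List.mem_filter]
    constructor
    · rintro ⟨hx, hx2⟩
      obtain ⟨e, rfl⟩ := (Pool.Agent.SCG.mem_edl h x).1 hx
      refine ⟨e, ?_, rfl⟩
      intro hc
      rw [(rdv_memb h A e).2 hc] at hx2
      exact absurd hx2 (by decide)
    · rintro ⟨e, he, rfl⟩
      refine ⟨(Pool.Agent.SCG.mem_edl h _).2 ⟨e, rfl⟩, ?_⟩
      have h5 : memb (dl l A) (ec e) = false := by
        rw [Bool.eq_false_iff]
        intro hc
        exact he ((rdv_memb h A e).1 hc)
      rw [h5]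
      rfl
  have hmem : ∀ x, x ∈ ((edl l).filter fun e => !memb (dl l A) e) ++ r ↔
      ∃ a b : Fin n, (GR A R).Adj a b ∧ x = nme (a : ℕ) (b : ℕ) := by
    intro x
    rw [List.mem_append, hout, h1]
    constructor
    · rintro (⟨f, hf, rfl⟩ | ⟨a, b, hab, rfl⟩)
      · obtain ⟨⟨x, y⟩, hxy⟩ : ∃ z : Fin n × Fin n, f.1 = s(z.1, z.2) := by
          induction f.1 using Sym2.ind with
          | _ x y => exact ⟨(x, y), rfl⟩
        have hadj : G.Adj x y := by
          rw [← SimpleGraph.mem_edgeSet, ← hxy]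
          exact f.2
        exact ⟨x, y, (rdv_gr A R x y).2 ⟨Or.inl ⟨f, hxy, hf⟩, hadj.ne⟩, rdv_ec f x y hxy⟩
      · exact ⟨a, b, (rdv_gr A R a b).2 ⟨Or.inr hab, h2 a b hab⟩, rfl⟩
    · rintro ⟨a, b, hab, rfl⟩
      rcases ((rdv_gr A R a b).1 hab).1 with ⟨f, hf, hfA⟩ | h3
      · exact Or.inl ⟨f, hfA, (rdv_ec f a b hf).symm⟩
      · exact Or.inr ⟨a, b, h3, rfl⟩
  refine ⟨?_, ?_, ?_⟩
  · intro y
    rw [h1]
    constructor
    · rintro ⟨a, b, hab, rfl⟩
      have hadj : (GR A R).Adj a b := (rdv_gr A R a b).2 ⟨Or.inr hab, h2 a b hab⟩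
      exact ⟨⟨s(a, b), hadj⟩, (rdv_dr _ R _).2 hab, (rdv_ec _ a b rfl).symm⟩
    · rintro ⟨e, he, rfl⟩
      rw [rdv_dr] at he
      obtain ⟨⟨x, y⟩, hxy⟩ : ∃ z : Fin n × Fin n, e.1 = s(z.1, z.2) := by
        induction e.1 using Sym2.ind with
        | _ x y => exact ⟨(x, y), rfl⟩
      exact ⟨x, y, by rw [← hxy]; exact he, rdv_ec e x y hxy⟩
  · intro u v
    rw [hmem, hmem]
    constructor
    · intro huv
      rcases rdv_nme u v with h3 | h3
      · exact Or.inl ⟨u, v, huv, h3.symm⟩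
      · exact Or.inr ⟨u, v, huv, h3.symm⟩
    · rintro (⟨a, b, hab, h3⟩ | ⟨a, b, hab, h3⟩)
      · rw [← SimpleGraph.mem_edgeSet, rdv_pair h3]
        exact hab
      · rw [← SimpleGraph.mem_edgeSet, Sym2.eq_swap, rdv_pair h3]
        exact hab
  · intro x hx
    obtain ⟨a, b, hab, rfl⟩ := (hmem x).1 hx
    rcases rdv_nme a b with h3 | h3
    · exact ⟨a, b, hab, h3⟩
    · exact ⟨b, a, hab.symm, h3⟩

theorem rrD_spec (h : Codes S l) (hG : G.Connected) (hn : 2 ≤ n) (A : Finset G.edgeSet) (hA : Bad S A) :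
    ∃ R : Finset (Sym2 (Fin n)), RR S A R ∧ DCodes (DR (GR A R) R) (rrD l (dl l A)) ∧
      Lists (GR A R) (tgD l (dl l A)) := by
  have hnt : Nontrivial (Fin n) := Fin.nontrivial_iff_two_le.2 hn
  obtain ⟨h1, h2⟩ := bad_att hG S A hA
  have hlen := rdv_len h A
  by_cases hc : (att A (part A S)).card ≤ 1
  · refine ⟨∅, Or.inl ⟨hc, rfl⟩, ?_⟩
    have e : rrD l (dl l A) = [] := by
      unfold rrD rr0
      rw [if_pos (decide_eq_true (by rw [hlen]; exact hc))]
    unfold tgD
    rw [e]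
    refine rdv_gen h A ∅ [] ?_ ?_
    · intro y
      constructor
      · intro hy
        exact absurd hy List.not_mem_nil
      · rintro ⟨a, b, hab, _⟩
        exact absurd hab (Finset.notMem_empty _)
    · intro a b hab
      exact absurd hab (Finset.notMem_empty _)
  · have h3 : (bvD l (dl l A)).length = 2 := by omega
    obtain ⟨a, b, hab⟩ := List.length_eq_two.1 h3
    obtain ⟨v, rfl, hv⟩ := (rdv_bv h A a).1 (by rw [hab]; exact List.mem_cons_self)
    obtain ⟨w, rfl, hw⟩ := (rdv_bv h A b).1 (by rw [hab]; exact List.mem_cons_of_mem _ List.mem_cons_self)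
    have hvw : v ≠ w := by
      intro hc2
      have h4 := rdv_nd (l := l) A
      rw [hab, hc2] at h4
      exact absurd h4 (by simp)
    by_cases hoe : Oe A v w
    · obtain ⟨e, he, hve⟩ := (rdv_tv A v).1 ((att_iff A _ (omap_part A S) v).1 hv).1
      obtain ⟨f, hf, hfvw⟩ := hoe
      obtain ⟨u, hu⟩ := Sym2.mem_iff_exists.1 hve
      have hadj : G.Adj v u := by
        rw [← SimpleGraph.mem_edgeSet, ← hu]
        exact e.2
      have huw : u ≠ w := by
        intro hc2
        apply hf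
        have h5 : f = e := by
          apply Subtype.ext
          rw [hu, hfvw, hc2]
        rw [h5]
        exact he
      have hutv : u ∈ tv A := (rdv_tv A u).2 ⟨e, he, by rw [hu]; exact Sym2.mem_mk_right _ _⟩
      have hm : ∀ y, y ∈ ((ddp ((fD l (dl l A)).map Prod.fst)).filter fun u => !memb (bvD l (dl l A)) u) ↔
          ∃ x : Fin n, y = x ∧ x ∈ tv A ∧ x ≠ v ∧ x ≠ w := by
        intro y
        rw [List.mem_filter, rdv_list h]
        constructor
        · rintro ⟨⟨x, rfl, hx⟩, h6⟩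
          have h7 : (x : ℕ) ∉ bvD l (dl l A) := by
            intro h8
            rw [(Pool.Agent.BEO.memb_iff _ _).2 h8] at h6
            exact absurd h6 (by decide)
          refine ⟨x, rfl, hx, ?_, ?_⟩
          · intro h8
            apply h7
            rw [hab, h8]
            exact List.mem_cons_self
          · intro h8
            apply h7
            rw [hab, h8]
            exact List.mem_cons_of_mem _ List.mem_cons_self
        · rintro ⟨x, rfl, hx, hxv, hxw⟩
          refine ⟨⟨x, rfl, hx⟩, ?_⟩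
          have h7 : memb (bvD l (dl l A)) (x : ℕ) = false := by
            rw [Bool.eq_false_iff]
            intro h8
            rw [Pool.Agent.BEO.memb_iff, hab] at h8
            rcases List.mem_cons.1 h8 with h9 | h9
            · exact hxv (Fin.ext h9)
            · rcases List.mem_cons.1 h9 with h10 | h10
              · exact hxw (Fin.ext h10)
              · exact absurd h10 List.not_mem_nil
          rw [h7]
          rfl
      have hne : ((ddp ((fD l (dl l A)).map Prod.fst)).filter fun u => !memb (bvD l (dl l A)) u) ≠ [] := by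
        intro h6
        have h7 := (hm (u : ℕ)).2 ⟨u, rfl, hutv, hadj.ne.symm, huw⟩
        rw [h6] at h7
        exact absurd h7 List.not_mem_nil
      obtain ⟨y, t, hyt⟩ := List.exists_cons_of_ne_nil hne
      obtain ⟨x, rfl, hx, hxv, hxw⟩ := (hm y).1 (by rw [hyt]; exact List.mem_cons_self)
      obtain ⟨R, hR, hRm⟩ := rdv_rr2 S A v w hvw hv hw h2 ⟨f, hf, hfvw⟩ x hx hxv hxw
      refine ⟨R, hR, ?_⟩
      have e1 : rrD l (dl l A) = [nme (v : ℕ) (x : ℕ), nme (x : ℕ) (w : ℕ)] := by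
        unfold rrD
        rw [hyt, hab]
        show rr0 l (dl l A) [(v : ℕ), (w : ℕ)] (v : ℕ) (w : ℕ) (x : ℕ) = _
        unfold rr0
        rw [if_neg (by simp), if_pos ((rdv_oe h A v w).2 ⟨f, hf, hfvw⟩)]
      unfold tgD
      rw [e1]
      refine rdv_gen h A _ _ ?_ ?_
      · intro z
        constructor
        · intro hz
          rcases List.mem_cons.1 hz with hz | hz
          · exact ⟨v, x, (hRm _).2 (Or.inl rfl), hz⟩
          · rcases List.mem_cons.1 hz with hz | hz
            · exact ⟨x, w, (hRm _).2 (Or.inr rfl), hz⟩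
            · exact absurd hz List.not_mem_nil
        · rintro ⟨a, b, hab2, rfl⟩
          rw [hRm] at hab2
          have hk : ∀ c d : Fin n, s(a, b) = s(c, d) → nme (a : ℕ) (b : ℕ) = nme (c : ℕ) (d : ℕ) := by
            intro c d hcd
            rw [Sym2.eq_iff] at hcd
            rcases hcd with ⟨rfl, rfl⟩ | ⟨rfl, rfl⟩
            · rfl
            · unfold nme
              by_cases h6 : (a : ℕ) ≤ (b : ℕ)
              · by_cases h7 : (b : ℕ) ≤ (a : ℕ)
                · have h8 : (a : ℕ) = b := le_antisymm h6 h7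
                  rw [h8]
                · rw [if_pos (decide_eq_true h6), if_neg (by simpa using h7)]
              · have h7 : (b : ℕ) ≤ (a : ℕ) := by omega
                rw [if_neg (by simpa using h6), if_pos (decide_eq_true h7)]
          rcases hab2 with h6 | h6
          · rw [hk v x h6]
            exact List.mem_cons_self
          · rw [hk x w h6]
            exact List.mem_cons_of_mem _ List.mem_cons_self
      · intro a b hab2 hc2
        rw [hRm, hc2] at hab2
        rcases hab2 with h6 | h6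
        · rw [Sym2.eq_iff] at h6
          rcases h6 with ⟨h7, h8⟩ | ⟨h7, h8⟩
          · exact hxv (h8.symm.trans h7)
          · exact hxv (h7.symm.trans h8)
        · rw [Sym2.eq_iff] at h6
          rcases h6 with ⟨h7, h8⟩ | ⟨h7, h8⟩
          · exact hxw (h7.symm.trans h8)
          · exact hxw (h8.symm.trans h7)
    · refine ⟨{s(v, w)}, rdv_rr1 S A v w hvw hv hw h2 hoe, ?_⟩
      have e1 : rrD l (dl l A) = [nme (v : ℕ) (w : ℕ)] := by
        unfold rrD
        rw [hab]
        show rr0 l (dl l A) [(v : ℕ), (w : ℕ)] (v : ℕ) (w : ℕ) _ = _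
        unfold rr0
        rw [if_neg (by simp), if_neg (by rw [rdv_oe h A v w]; exact hoe)]
      unfold tgD
      rw [e1]
      refine rdv_gen h A _ _ ?_ ?_
      · intro z
        constructor
        · intro hz
          rcases List.mem_cons.1 hz with hz | hz
          · exact ⟨v, w, by simp, hz⟩
          · exact absurd hz List.not_mem_nil
        · rintro ⟨a, b, hab2, rfl⟩
          rw [Finset.mem_singleton, Sym2.eq_iff] at hab2
          rcases hab2 with ⟨rfl, rfl⟩ | ⟨rfl, rfl⟩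
          · exact List.mem_cons_self
          · have h6 : nme (a : ℕ) (b : ℕ) = nme (b : ℕ) (a : ℕ) := by
              unfold nme
              by_cases h6 : (a : ℕ) ≤ (b : ℕ)
              · by_cases h7 : (b : ℕ) ≤ (a : ℕ)
                · have h8 : (a : ℕ) = b := le_antisymm h6 h7
                  rw [h8]
                · rw [if_pos (decide_eq_true h6), if_neg (by simpa using h7)]
              · have h7 : (b : ℕ) ≤ (a : ℕ) := by omega
                rw [if_neg (by simpa using h6), if_pos (decide_eq_true h7)]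
            rw [h6]
            exact List.mem_cons_self
      · intro a b hab2 hc2
        rw [Finset.mem_singleton, hc2, Sym2.eq_iff] at hab2
        rcases hab2 with ⟨h7, h8⟩ | ⟨h7, h8⟩
        · exact hvw (h7.symm.trans h8)
        · exact hvw (h8.symm.trans h7)

end Pool.Agent.FGT
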