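import Pool.Agent.FGT.RdR2
import Pool.Agent.FGT.RdS
import Pool.Agent.FGT.RdT
import Pool.Agent.FGT.RdU
import Pool.Agent.FGT.RdV
import Pool.Agent.FGT.RdP2
import Pool.Agent.FGT.RdP3
import Pool.Agent.FGT.RdP4

/-!
# FGT-RdW: the reduction step

PLAN. `nxs_red`: `bad_iff`. `nxs_stp`: `d = (bad l).headD []` is in `bad l`, `d = dl l A`, `Bad S A`; `rrD_spec` gives `R`; `G' = GR A R`, `l0 = std (tgD l d)` codes `stdM G'` (`std_codes`). `stp_dn` gives `S'`, `cg_mem` (`D1 = A`, `L2 = id`, `xa = []`) and `pk_spec`: `st1 l d` codes a map `S1` of `G'` with at least as many faces, so `egs S1 ≤ egs S' ≤ S.eg`.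
`relab`, `relab_dn`, `rlx_codes`; `take` changes nothing (`pk_len`, `stp_card`: `4 E(G') ≤ 4 E(G) ≤ l.length`); `relab_eq`, `relab_card`. Lifting: `T2` optimal for `G2`; `relab_up` gives `T'` with code `ulx (vl (st1 l d)) x` (`ulx_codes`), `egs T' = T2.eg`; `stp_up` gives `T` of `G`, `Near T' (DR G' R) T (part A S)`, `cg_mem` (`inn_codes`, `DCodes` of `rrD`); `pk_spec` for `l`: the chosen
map has at least as many faces as `T`. It is optimal: for every map `T0` of `G` (orientable if `o`), `stp_lo` gives `T0'` of `G'` and `relab_dn` one of `G2`, so `T.eg ≤ egs T' = T2.eg ≤ T0.eg`.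
-/

set_option autoImplicit false

open Finset
open scoped Classical

namespace Pool.Agent.FGT

open Pool.Agent.Helper35.OG (Flag GMap across side)
open Pool.Agent.BEO (F2 ed rp cyc ev cod Codes ec look memb ddp comp cds Pt Ec Inp sd ac ek fl nb)
open Pool.Agent.SCG (edl nx vl bst std Adl tre)
open Pool.Agent.SCG (Lists stdM AddE)

variable {n : ℕ} {G : SimpleGraph (Fin n)} {S : GMap G} {l : Inp}

theorem nxs_red (h : Codes S l) (hb : (bad l).isEmpty = true) : Reduced S := by
  intro A h1 h2 h3 h4 h5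
  by_contra h6
  have h7 := (bad_iff h).2 A ⟨h1, h2, h3, h4, h5, h6⟩
  rw [List.isEmpty_iff] at hb
  rw [hb] at h7
  exact absurd h7 List.not_mem_nil

private theorem part_inv (A : Finset G.edgeSet) (S : GMap G) (p : Flag G) : part A S (part A S p) = p := by
  by_cases h : ed p ∈ A ∧ ed (S.nxt p) ∈ A
  · have h1 : part A S p = S.nxt p := by
      unfold part
      rw [if_pos h]
    rw [h1]
    unfold part
    rw [S.nxt_nxt, if_pos ⟨h.2, h.1⟩]
  · have h1 : part A S p = p := by
      unfold part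
      rw [if_neg h]
    rw [h1, h1]

private theorem egs_le {G' : SimpleGraph (Fin n)} (M M' : GMap G') (h : Nat.card M'.Face ≤ Nat.card M.Face) :
    egs M ≤ egs M' := by
  unfold egs
  have h1 : (Nat.card M'.Face : ℤ) ≤ (Nat.card M.Face : ℤ) := by exact_mod_cast h
  linarith

theorem nxs_stp (h : Codes S l) (hG : G.Connected) (hn : 2 ≤ n) (hb : (bad l).isEmpty = false) :
    ∃ (n2 : ℕ) (G2 : SimpleGraph (Fin n2)) (S2 : GMap G2), 2 ≤ n2 ∧ G2.Connected ∧ Codes S2 (nxs l) ∧ S2.eg ≤ S.eg ∧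
      Nat.card G2.edgeSet < Nat.card G.edgeSet ∧
      ∀ (o : Bool) (T2 : GMap G2) (x : Inp), Opt o T2 → Codes T2 x → ∃ T : GMap G, Opt o T ∧ Codes T (lft o l x) := by
  haveI : Nontrivial (Fin n) := Fin.nontrivial_iff_two_le.2 hn
  have hd0 : (bad l).headD [] ∈ bad l := by
    cases hbl : bad l with
    | nil =>
      rw [hbl] at hb
      exact absurd hb (by simp)
    | cons a t =>
      change a ∈ a :: t
      exact List.mem_cons_self
  obtain ⟨A, hdA, hA⟩ := (bad_iff h).1 _ hd0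
  generalize hd : (bad l).headD [] = d at hd0 hdA
  have hDA : DCodes A d := by
    intro y
    rw [hdA]
    exact mem_dl h A y
  obtain ⟨R, hR, hDR, hLs⟩ := rrD_spec h hG hn A hA
  rw [← hdA] at hDR hLs
  have h0 : Codes (stdM (GR A R)) (std (tgD l d)) := Pool.Agent.SCG.std_codes hLs
  obtain ⟨S', hN, hS'⟩ := stp_dn hG S A hA R hR ⟨stdM (GR A R)⟩
  obtain ⟨y, hy, hyS⟩ := cg_mem S l h A d hDA (stdM (GR A R)) (std (tgD l d)) h0 (fun p => p) (fun _ => rfl) []
    (by
      intro z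
      constructor
      · intro hz
        exact absurd hz List.not_mem_nil
      · rintro ⟨p, hp, -⟩
        exact absurd rfl hp) S' hN
  have hc : ∃ x ∈ cg l d (fl (std (tgD l d))) [], ∃ M : GMap (GR A R), Codes M x ∧ (false = true → M.Orientable) :=
    ⟨y, hy, S', hyS, fun h => absurd h (by decide)⟩
  obtain ⟨S1, hS1, -, hbest⟩ := pk_spec h0 false _ hc
  have hlen := pk_len h0 false _ hc
  have hlen0 := (pk_len h false [l] ⟨l, List.mem_singleton.2 rfl, S, h, fun h => absurd h (by decide)⟩).2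
  have hst : pk false (std (tgD l d)) (cg l d (fl (std (tgD l d))) []) = st1 l d := rfl
  rw [hst] at hS1 hlen
  have hle1 : egs S1 ≤ S.eg := (egs_le S1 S' (hbest y hy S' hyS fun h => absurd h (by decide))).trans hS'
  have hcard := stp_card hG S A hA R hR
  obtain ⟨n2, ι, G2, hRel⟩ := relab (GR A R) (stp_ec hG S A hA R hR)
  obtain ⟨S2, hS2⟩ := relab_dn ι G2 (GR A R) hRel S1
  have hx2 := rlx_codes ι G2 (GR A R) hRel S2 S1 hS2 (st1 l d) hS1
  have hnx : nxs l = rlx (st1 l d) := by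
    unfold nxs
    rw [hb, hd]
    change (rlx (st1 l d)).take l.length = rlx (st1 l d)
    apply List.take_of_length_le
    unfold rlx
    rw [List.length_map]
    omega
  refine ⟨n2, G2, S2, hRel.1, hRel.2.1, ?_, ?_, ?_, ?_⟩
  · rw [hnx]
    exact hx2
  · rw [(relab_eq ι G2 (GR A R) hRel S2 S1 hS2).1]
    exact hle1
  · rw [relab_card ι G2 (GR A R) hRel]
    exact hcard
  · intro o T2 x hT2 hx
    obtain ⟨T', hT'⟩ := relab_up ι G2 (GR A R) hRel T2
    have hcT' := ulx_codes ι G2 (GR A R) hRel T2 T' hT' x hx S1 (st1 l d) hS1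
    have heqT := relab_eq ι G2 (GR A R) hRel T2 T' hT'
    obtain ⟨T, hNT, hTle, hTor⟩ := stp_up hG S A hA R hR T'
    have hin : ECodes (part A S) (inn l d) := by
      rw [hdA]
      exact inn_codes h A
    obtain ⟨z, hz, hzT⟩ := cg_mem T' (ulx (vl (st1 l d)) x) hcT' (DR (GR A R) R) (rrD l d) hDR S l h (part A S)
      (part_inv A S) (inn l d) hin T hNT
    have hoT : o = true → T.Orientable := fun ho => hTor (heqT.2.1 (hT2.1 ho))
    obtain ⟨M, hM, hMo, hMb⟩ := pk_spec h o _ ⟨z, hz, T, hzT, hoT⟩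
    have hlf : lft o l x = pk o l (cg (ulx (vl (st1 l d)) x) (rrD l d) (fl l) (inn l d)) := by
      unfold lft
      rw [hb, hd]
      rfl
    refine ⟨M, ⟨hMo, ?_⟩, ?_⟩
    · intro T0 hT0
      obtain ⟨T0', hT0', hT0o⟩ := stp_lo hG S A hA R hR ⟨stdM (GR A R)⟩ T0
      obtain ⟨T2', hT2'⟩ := relab_dn ι G2 (GR A R) hRel T0'
      have heq0 := relab_eq ι G2 (GR A R) hRel T2' T0' hT2'
      have h1 : T2.eg ≤ T2'.eg := hT2.2 T2' fun ho => heq0.2.2 (hT0o (hT0 ho))
      have h2 : egs M ≤ egs T := egs_le M T (hMb z hz T hzT hoT)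
      rw [(egs_eq hG M).2, (egs_eq hG T).2] at h2
      have h3 := heqT.1
      have h4 := heq0.1
      linarith
    · rw [hlf]
      exact hM

end Pool.Agent.FGT
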