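import Pool.Agent.FGT.SmC
import Pool.Agent.FGT.DcT

/-!
# FGT-SmD: faces at which members of a partition meet

PLAN. Call the flags in `mix A S`, `A ∈ B`, mixed; `S.nxt` maps mixed flags to mixed flags over another member. For a face `f` with mixed flags let `a f`
be their number. For a mixed flag `p` of `f` over `A` there is a unique other mixed flag `q` over `A` in the class of `p` under `part A S`, `across` (`two_ends`);
`p, q, S.nxt p, S.nxt q` are four distinct mixed flags of `f`; so `a f ≥ 4`, and `a f` is even (`nxt`), so `a f = 4` or `a f ≥ 6`: hence `4 * FM ≤ rB`. (1) If `a f = 4`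
then `p`, `q` are over `A`, `S.nxt p`, `S.nxt q` over `A' ≠ A`, and the class of `S.nxt p` contains `S.nxt q` (`two_ends` again). Not both `A`, `A'` are trivial: the two mixed
flags of a trivial set in one class of `rF` are at its two attachments (the ends of the edge, the two neighbours of the middle vertex), which are different;
so `A`, `A'` have the same attachments `u ≠ u'`, not both are single edges, `A ∪ A'` has card at least `3`; `HCn S (A ∪ A')`
(the corner of `p`), `(mix (A ∪ A') S).card ≤ 4` (eight mixed flags over `A`, `A'`, four of them on the corners of `p`, `q`), `A ∪ A' ≠ univ`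
(otherwise `B = {A, A'}` and `rB = 8`), `chi ≥ 1`: `clo ≥ 1` (the face `f`), `vs ≥` number of the vertices touched `≥ 2 +` number of middle vertices `=` card; so
`chi = 1` (`chi_le`) and `A ∪ A'` is trivial by `hr`, of card at most two: contradiction. So a face with `a f = 4` has two mixed flags over members which are
not trivial. (2) Let `b f` be the number of mixed flags of `f` over members which are not trivial: `a f + b f ≥ 6` for all faces with mixed flags; sum up:
`6 * FM ≤ rB + (rB - 4 * number of trivial members)` (`trv_mix`).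
-/

set_option autoImplicit false

open Finset
open scoped Classical

namespace Pool.Agent.FGT

open Pool.Agent.Helper35.OG (Flag GMap across side)
open Pool.Agent.BEO (F2 ed rp cyc ev bdF nb)

variable {V : Type} {G : SimpleGraph V} [Fintype V]

private theorem sd_mem (S : GMap G) (A : Finset G.edgeSet) (p : Flag G) :
    p ∈ mix A S ↔ ed p ∈ A ∧ ed (S.nxt p) ∉ A := by
  unfold mix
  simp

private noncomputable def MFl (S : GMap G) (B : Finset (Finset G.edgeSet)) : Finset (Flag G) :=
  B.biUnion fun A => mix A S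

private theorem sd_mf (S : GMap G) (B : Finset (Finset G.edgeSet)) (p : Flag G) :
    p ∈ MFl S B ↔ ∃ A ∈ B, p ∈ mix A S := by
  unfold MFl
  simp

private theorem sd_uniq (S : GMap G) (B : Finset (Finset G.edgeSet)) (I : Finset V) (h : Ptn S B I)
    {A A' : Finset G.edgeSet} (hA : A ∈ B) (hA' : A' ∈ B) {e : G.edgeSet} (h1 : e ∈ A) (h2 : e ∈ A') : A = A' := by
  by_contra hne
  exact Finset.disjoint_left.1 (h.dj A hA A' hA' hne) h1 h2

private theorem sd_card (S : GMap G) (B B' : Finset (Finset G.edgeSet)) (I : Finset V) (h : Ptn S B I)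
    (hs : B' ⊆ B) : (MFl S B').card = ∑ A ∈ B', (mix A S).card := by
  unfold MFl
  apply Finset.card_biUnion
  intro A hA A' hA' hne
  show Disjoint (mix A S) (mix A' S)
  rw [Finset.disjoint_left]
  intro p hp hp'
  exact hne (sd_uniq S B I h (hs hA) (hs hA') ((sd_mem S A p).1 hp).1 ((sd_mem S A' p).1 hp').1)

private theorem sd_nxt (S : GMap G) (B : Finset (Finset G.edgeSet)) (I : Finset V) (h : Ptn S B I)
    {A : Finset G.edgeSet} (hA : A ∈ B) {p : Flag G} (hp : p ∈ mix A S) :
    ∃ A' ∈ B, A' ≠ A ∧ S.nxt p ∈ mix A' S := by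
  obtain ⟨A', hA', he⟩ := h.un (ed (S.nxt p))
  have h1 := (sd_mem S A p).1 hp
  have hne : A' ≠ A := by
    intro hh
    rw [hh] at he
    exact h1.2 he
  refine ⟨A', hA', hne, (sd_mem S A' _).2 ⟨he, ?_⟩⟩
  rw [S.nxt_nxt]
  intro hh
  exact hne (sd_uniq S B I h hA' hA hh h1.1)

private theorem sd_part_of_mix (S : GMap G) (A : Finset G.edgeSet) (p : Flag G) (hp : p ∈ mix A S) :
    part A S p = p := by
  have h1 := (sd_mem S A p).1 hp
  unfold part
  rw [if_neg]
  rintro ⟨_, h2⟩
  exact h1.2 h2

private theorem sd_mix_of_part (S : GMap G) (A : Finset G.edgeSet) (p : Flag G) (he : ed p ∈ A)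
    (hp : part A S p = p) : p ∈ mix A S := by
  rw [sd_mem]
  refine ⟨he, fun h2 => ?_⟩
  unfold part at hp
  rw [if_pos ⟨he, h2⟩] at hp
  exact S.nxt_ne p hp

omit [Fintype V] in
private theorem sd_part_part (S : GMap G) (A : Finset G.edgeSet) (p : Flag G) :
    part A S (part A S p) = p := by
  unfold part
  by_cases h1 : ed p ∈ A ∧ ed (S.nxt p) ∈ A
  · rw [if_pos h1, if_pos, S.nxt_nxt]
    rw [S.nxt_nxt]
    exact ⟨h1.2, h1.1⟩
  · rw [if_neg h1, if_neg h1]

omit [Fintype V] in
private theorem sd_part_ed (S : GMap G) (A : Finset G.edgeSet) (p : Flag G) :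
    ed (part A S p) ∈ A ↔ ed p ∈ A := by
  unfold part
  by_cases h1 : ed p ∈ A ∧ ed (S.nxt p) ∈ A
  · rw [if_pos h1]
    exact ⟨fun _ => h1.1, fun _ => h1.2⟩
  · rw [if_neg h1]

omit [Fintype V] in
private theorem sd_part_fst (S : GMap G) (A : Finset G.edgeSet) (p : Flag G) :
    (part A S p).1.fst = p.1.fst := by
  unfold part
  by_cases h1 : ed p ∈ A ∧ ed (S.nxt p) ∈ A
  · rw [if_pos h1, S.nxt_fst]
  · rw [if_neg h1]

omit [Fintype V] in
private theorem sd_part_face (S : GMap G) (A : Finset G.edgeSet) (p : Flag G) :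
    S.face (part A S p) = S.face p := by
  unfold part
  by_cases h1 : ed p ∈ A ∧ ed (S.nxt p) ∈ A
  · rw [if_pos h1, Pool.Agent.Helper35.OG.face_nxt]
  · rw [if_neg h1]

/-- an invariant of a relation is an invariant of its classes -/
private theorem sd_inv {X : Type} {R : X → X → Prop} {P : X → Prop} (h : ∀ x y, R x y → (P x ↔ P y))
    {x y : X} (hxy : Relation.EqvGen R x y) : P x ↔ P y := by
  induction hxy with
  | rel x y h1 => exact h x y h1
  | refl x => exact Iff.rfl
  | symm x y _ ih => exact ih.symm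
  | trans x y z _ _ ih1 ih2 => exact ih1.trans ih2

/-- the partner of a mixed flag -/
private theorem sd_partner (S : GMap G) (A : Finset G.edgeSet) (p : Flag G) (hp : p ∈ mix A S) :
    ∃ q, q ≠ p ∧ q ∈ mix A S ∧ S.face q = S.face p ∧
      Relation.EqvGen (fun x y => y = part A S x ∨ y = across x) p q := by
  have : Finite (Flag G) := inferInstance
  obtain ⟨q, h1, h2, h3, _⟩ := two_ends across (part A S) Pool.Agent.Helper35.OG.across_across
    Pool.Agent.Helper35.OG.across_ne (sd_part_part S A) p (sd_part_of_mix S A p hp)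
  have hinv : ∀ x y : Flag G, (y = part A S x ∨ y = across x) →
      ((ed x ∈ A ∧ S.face x = S.face p) ↔ (ed y ∈ A ∧ S.face y = S.face p)) := by
    rintro x y (rfl | rfl)
    · rw [sd_part_ed, sd_part_face]
    · rw [Pool.Agent.BEO.ed_across, Pool.Agent.Helper35.OG.face_across]
  have h4 := (sd_inv hinv h3).1 ⟨((sd_mem S A p).1 hp).1, rfl⟩
  exact ⟨q, h1, sd_mix_of_part S A q h4.1 h2, h4.2, h3⟩

private theorem sd_FM (S : GMap G) (B : Finset (Finset G.edgeSet)) :
    FM S B = ((MFl S B).image S.face).card := by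
  unfold FM
  apply Nat.subtype_card
  intro f
  rw [Finset.mem_image]
  constructor
  · rintro ⟨p, hp, rfl⟩
    obtain ⟨A, hA, hp'⟩ := (sd_mf S B p).1 hp
    exact ⟨A, hA, p, hp', rfl⟩
  · rintro ⟨A, hA, p, hp, rfl⟩
    exact ⟨p, (sd_mf S B p).2 ⟨A, hA, hp⟩, rfl⟩

/-- four mixed flags -/
private theorem sd_four (S : GMap G) (A : Finset G.edgeSet) (p q : Flag G) (hp : p ∈ mix A S) (hq : q ∈ mix A S)
    (hpq : q ≠ p) : ({p, q, S.nxt p, S.nxt q} : Finset (Flag G)).card = 4 := by
  have h1 := (sd_mem S A p).1 hp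
  have h2 := (sd_mem S A q).1 hq
  have a1 : p ≠ S.nxt p := (S.nxt_ne p).symm
  have a2 : q ≠ S.nxt q := (S.nxt_ne q).symm
  have a3 : p ≠ S.nxt q := by
    intro h
    rw [← h] at h2
    exact h2.2 h1.1
  have a4 : q ≠ S.nxt p := by
    intro h
    rw [← h] at h1
    exact h1.2 h2.1
  have a5 : S.nxt p ≠ S.nxt q := by
    intro h
    exact hpq (Pool.Agent.Helper35.OG.nxt_inj S h).symm
  rw [Finset.card_insert_of_notMem, Finset.card_insert_of_notMem, Finset.card_insert_of_notMem,
    Finset.card_singleton]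
  · simpa using a5
  · simp only [Finset.mem_insert, Finset.mem_singleton, not_or]
    exact ⟨a4, a2⟩
  · simp only [Finset.mem_insert, Finset.mem_singleton, not_or]
    exact ⟨hpq.symm, a1, a3⟩

private theorem sd_four_sub (S : GMap G) (B : Finset (Finset G.edgeSet)) (I : Finset V) (h : Ptn S B I)
    (A : Finset G.edgeSet) (hA : A ∈ B) (p q : Flag G) (hp : p ∈ mix A S) (hq : q ∈ mix A S)
    (hf : S.face q = S.face p) :
    ({p, q, S.nxt p, S.nxt q} : Finset (Flag G)) ⊆ (MFl S B).filter (fun r => S.face r = S.face p) := by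
  intro r hr
  rw [Finset.mem_filter, sd_mf]
  simp only [Finset.mem_insert, Finset.mem_singleton] at hr
  rcases hr with rfl | rfl | rfl | rfl
  · exact ⟨⟨A, hA, hp⟩, rfl⟩
  · exact ⟨⟨A, hA, hq⟩, hf⟩
  · obtain ⟨A', h1, _, h2⟩ := sd_nxt S B I h hA hp
    exact ⟨⟨A', h1, h2⟩, Pool.Agent.Helper35.OG.face_nxt S p⟩
  · obtain ⟨A', h1, _, h2⟩ := sd_nxt S B I h hA hq
    exact ⟨⟨A', h1, h2⟩, (Pool.Agent.Helper35.OG.face_nxt S q).trans hf⟩

theorem sm_face4 (S : GMap G) (B : Finset (Finset G.edgeSet)) (I : Finset V) (h : Ptn S B I) : 4 * FM S B ≤ rB S B := by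
  have h1 : rB S B = (MFl S B).card := (sd_card S B B I h (Finset.Subset.refl _)).symm
  rw [h1, sd_FM, Finset.card_eq_sum_card_image S.face (MFl S B), mul_comm]
  rw [← smul_eq_mul]
  apply Finset.card_nsmul_le_sum
  intro f hf
  obtain ⟨p, hp, rfl⟩ := Finset.mem_image.1 hf
  obtain ⟨A, hA, hp'⟩ := (sd_mf S B p).1 hp
  obtain ⟨q, hq1, hq2, hq3, _⟩ := sd_partner S A p hp'
  calc 4 = ({p, q, S.nxt p, S.nxt q} : Finset (Flag G)).card := (sd_four S A p q hp' hq2 hq1).symm
    _ ≤ _ := Finset.card_le_card (sd_four_sub S B I h A hA p q hp' hq2 hq3)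

/-- the edges at a vertex with two neighbours -/
private theorem sd_rk (x a b : V) (hab : a ≠ b) (hn : nb G x = {a, b}) :
    ∃ (ha : G.Adj x a) (hb : G.Adj x b),
      rk {x} = ({⟨s(x, a), ha⟩, ⟨s(x, b), hb⟩} : Finset G.edgeSet) ∧
      (⟨s(x, a), ha⟩ : G.edgeSet) ≠ ⟨s(x, b), hb⟩ := by
  have hm : ∀ w, w ∈ nb G x ↔ G.Adj x w := by
    intro w
    unfold nb
    simp
  have ha : G.Adj x a := (hm a).1 (by rw [hn]; simp)
  have hb : G.Adj x b := (hm b).1 (by rw [hn]; simp)
  refine ⟨ha, hb, ?_, ?_⟩
  · ext e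
    obtain ⟨e, he⟩ := e
    induction e using Sym2.ind with
    | _ u v =>
      unfold rk
      simp only [Finset.mem_filter, Finset.mem_univ, true_and, Finset.mem_singleton, exists_eq_left,
        Sym2.mem_iff, Finset.mem_insert]
      have hadj : G.Adj u v := he
      constructor
      · rintro (rfl | rfl)
        · have h1 := (hm v).2 hadj
          rw [hn] at h1
          simp only [Finset.mem_insert, Finset.mem_singleton] at h1
          rcases h1 with rfl | rfl
          · exact Or.inl rfl
          · exact Or.inr rfl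
        · have h1 := (hm u).2 hadj.symm
          rw [hn] at h1
          simp only [Finset.mem_insert, Finset.mem_singleton] at h1
          rcases h1 with rfl | rfl
          · exact Or.inl (Subtype.ext Sym2.eq_swap)
          · exact Or.inr (Subtype.ext Sym2.eq_swap)
      · rintro (h1 | h1)
        · rcases Sym2.eq_iff.1 (congrArg Subtype.val h1) with ⟨h2, _⟩ | ⟨_, h2⟩
          · exact Or.inl h2.symm
          · exact Or.inr h2.symm
        · rcases Sym2.eq_iff.1 (congrArg Subtype.val h1) with ⟨h2, _⟩ | ⟨_, h2⟩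
          · exact Or.inl h2.symm
          · exact Or.inr h2.symm
  · intro h
    have h1 := congrArg Subtype.val h
    rcases Sym2.eq_iff.1 h1 with ⟨_, h2⟩ | ⟨h2, _⟩
    · exact hab h2
    · exact hb.ne h2

omit [Fintype V] in
private theorem sd_flags (p r : Flag G) (h : ed r = ed p) :
    r = p ∨ r = side p ∨ r = across p ∨ r = side (across p) := by
  have h1 : r.1.edge = p.1.edge := congrArg Subtype.val h
  obtain ⟨d, s⟩ := p
  obtain ⟨d', s'⟩ := r
  have h2 := (SimpleGraph.dart_edge_eq_iff d' d).1 h1
  have h3 : s' = s ∨ s' = !s := by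
    cases s <;> cases s' <;> simp
  rcases h2 with rfl | rfl
  · rcases h3 with rfl | rfl
    · exact Or.inl rfl
    · exact Or.inr (Or.inl rfl)
  · rcases h3 with rfl | rfl
    · right; right; right
      show (d.symm, s') = (d.symm, !!s')
      rw [Bool.not_not]
    · right; right; left
      rfl

omit [Fintype V] in
private theorem sd_clos (S : GMap G) (A : Finset G.edgeSet) (P : Flag G → Prop) (h1 : ∀ x, P x → P (part A S x))
    (h2 : ∀ x, P x → P (across x)) {p q : Flag G} (hp : P p)
    (h : Relation.EqvGen (fun x y => y = part A S x ∨ y = across x) p q) : P q := by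
  refine (sd_inv (P := P) ?_ h).1 hp
  rintro x y (rfl | rfl)
  · refine ⟨h1 x, fun hy => ?_⟩
    have := h1 _ hy
    rwa [sd_part_part] at this
  · refine ⟨h2 x, fun hy => ?_⟩
    have := h2 _ hy
    rwa [Pool.Agent.Helper35.OG.across_across] at this

/-- middle vertices and attachments of trivial sets -/
private theorem sd_triv [Nontrivial V] (hG : G.Connected) (S : GMap G) (A : Finset G.edgeSet) (hA : Trv S A) :
    ∃ Mx : Finset V, A.card = 1 + Mx.card ∧ Mx.card ≤ 1 ∧ (∀ v ∈ Mx, ∃ e ∈ A, v ∈ e.1) ∧
      (∀ v ∈ Mx, A = rk {v}) ∧ (∀ p ∈ mix A S, p.1.fst ∉ Mx) ∧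
      ∀ p ∈ mix A S, ∀ q ∈ mix A S, q ≠ p →
        Relation.EqvGen (fun x y => y = part A S x ∨ y = across x) p q → p.1.fst ≠ q.1.fst := by
  have hm4 := trv_mix hG S A hA
  rcases hA with ⟨hc, _⟩ | ⟨x, a, b, hab, hadj, hn, rfl⟩
  · obtain ⟨e, rfl⟩ := Finset.card_eq_one.1 hc
    refine ⟨∅, by simp, by simp, by simp, by simp, by simp, ?_⟩
    have hsub : mix {e} S ⊆ ({rp e, side (rp e), across (rp e), side (across (rp e))} : Finset (Flag G)) := by
      intro r hr
      have h1 := ((sd_mem S {e} r).1 hr).1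
      rw [Finset.mem_singleton] at h1
      have h2 := sd_flags (rp e) r (by rw [h1, Pool.Agent.BEO.ed_rp])
      simp only [Finset.mem_insert, Finset.mem_singleton]
      exact h2
    have heq := Finset.eq_of_subset_of_card_le hsub (by rw [hm4]; exact Finset.card_le_four)
    have hall : ∀ r : Flag G, ed r = e → r ∈ mix {e} S := by
      intro r hr
      rw [heq]
      have h2 := sd_flags (rp e) r (by rw [hr, Pool.Agent.BEO.ed_rp])
      simp only [Finset.mem_insert, Finset.mem_singleton]
      exact h2
    intro p hp q hq hqp h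
    have hpe : ed p = e := by
      have := ((sd_mem S {e} p).1 hp).1
      rwa [Finset.mem_singleton] at this
    have hq' : q = p ∨ q = across p := by
      refine sd_clos S {e} (fun y => y = p ∨ y = across p) ?_ ?_ (Or.inl rfl) h
      · rintro y hy
        have hye : ed y = e := by
          rcases hy with rfl | rfl
          · exact hpe
          · rw [Pool.Agent.BEO.ed_across]
            exact hpe
        rw [sd_part_of_mix S {e} y (hall y hye)]
        exact hy
      · rintro y (rfl | rfl)
        · exact Or.inr rfl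
        · exact Or.inl (Pool.Agent.Helper35.OG.across_across p)
    rcases hq' with rfl | rfl
    · exact absurd rfl hqp
    · exact p.1.adj.ne
  · obtain ⟨ha, hb, hrk, hne⟩ := sd_rk x a b hab hn
    have hm : ∀ w, w ∈ nb G x ↔ G.Adj x w := by
      intro w
      unfold nb
      simp
    have hin : ∀ e : G.edgeSet, e ∈ (rk {x} : Finset G.edgeSet) ↔ x ∈ e.1 := by
      intro e
      unfold rk
      simp
    have hat : ∀ r : Flag G, r.1.fst = x → ed r ∈ (rk {x} : Finset G.edgeSet) := by
      intro r hr
      rw [hin]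
      show x ∈ r.1.edge
      rw [← hr]
      exact Sym2.mem_mk_left _ _
    have hno : ∀ r ∈ mix (rk {x}) S, r.1.fst ≠ x := by
      intro r hr hrx
      have h1 := (sd_mem S _ r).1 hr
      exact h1.2 (hat _ ((S.nxt_fst r).trans hrx))
    have hsnd : ∀ r : Flag G, ed r ∈ (rk {x} : Finset G.edgeSet) → r.1.fst ≠ x → r.1.snd = x := by
      intro r h1 h2
      rw [hin] at h1
      have h3 : x ∈ (s(r.1.fst, r.1.snd) : Sym2 V) := h1
      rw [Sym2.mem_iff] at h3
      rcases h3 with h3 | h3
      · exact absurd h3.symm h2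
      · exact h3.symm
    have hsub : mix (rk {x}) S ⊆ (({⟨(a, x), ha.symm⟩, ⟨(b, x), hb.symm⟩} : Finset G.Dart) ×ˢ
        (univ : Finset Bool)) := by
      intro r hr
      rw [Finset.mem_product]
      refine ⟨?_, Finset.mem_univ _⟩
      have h1 := hsnd r ((sd_mem S _ r).1 hr).1 (hno r hr)
      have h2 : r.1.fst ∈ nb G x := by
        rw [hm, ← h1]
        exact r.1.adj.symm
      rw [hn] at h2
      simp only [Finset.mem_insert, Finset.mem_singleton] at h2 ⊢
      rcases h2 with h2 | h2
      · left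
        apply SimpleGraph.Dart.ext
        exact Prod.ext h2 h1
      · right
        apply SimpleGraph.Dart.ext
        exact Prod.ext h2 h1
    have hcard : ((({⟨(a, x), ha.symm⟩, ⟨(b, x), hb.symm⟩} : Finset G.Dart) ×ˢ
        (univ : Finset Bool))).card ≤ (mix (rk {x}) S).card := by
      rw [hm4, Finset.card_product]
      have : ({⟨(a, x), ha.symm⟩, ⟨(b, x), hb.symm⟩} : Finset G.Dart).card ≤ 2 := Finset.card_le_two
      rw [Finset.card_univ, Fintype.card_bool]
      omega
    have heq := Finset.eq_of_subset_of_card_le hsub hcard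
    have hall : ∀ r : Flag G, ed r ∈ (rk {x} : Finset G.edgeSet) → r.1.fst ≠ x → r ∈ mix (rk {x}) S := by
      intro r h1 h2
      rw [heq, Finset.mem_product]
      refine ⟨?_, Finset.mem_univ _⟩
      have h3 := hsnd r h1 h2
      have h4 : r.1.fst ∈ nb G x := by
        rw [hm, ← h3]
        exact r.1.adj.symm
      rw [hn] at h4
      simp only [Finset.mem_insert, Finset.mem_singleton] at h4 ⊢
      rcases h4 with h4 | h4
      · left
        apply SimpleGraph.Dart.ext
        exact Prod.ext h4 h3
      · right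
        apply SimpleGraph.Dart.ext
        exact Prod.ext h4 h3
    refine ⟨{x}, ?_, by simp, ?_, ?_, ?_, ?_⟩
    · rw [hrk, Finset.card_singleton, Finset.card_pair hne]
    · intro v hv
      rw [Finset.mem_singleton] at hv
      subst hv
      refine ⟨⟨s(v, a), ha⟩, ?_, Sym2.mem_mk_left _ _⟩
      rw [hin]
      exact Sym2.mem_mk_left _ _
    · intro v hv
      rw [Finset.mem_singleton] at hv
      rw [hv]
    · intro p hp hpx
      rw [Finset.mem_singleton] at hpx
      exact hno p hp hpx
    · intro p hp q hq hqp h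
      have hpA := ((sd_mem S _ p).1 hp).1
      have hpx := hno p hp
      have hps := hsnd p hpA hpx
      have hp'x : (across p).1.fst = x := hps
      have hrx : (S.nxt (across p)).1.fst = x := (S.nxt_fst _).trans hp'x
      have hred : ed (S.nxt (across p)) ≠ ed (across p) := by
        intro hh
        have h1 : S.nxt (across p) = side (across p) := by
          rcases sd_flags (across p) _ hh with h1 | h1 | h1 | h1
          · exact absurd h1 (S.nxt_ne _)
          · exact h1
          · exfalso
            rw [Pool.Agent.Helper35.OG.across_across] at h1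
            rw [h1] at hrx
            exact hpx hrx
          · exfalso
            rw [Pool.Agent.Helper35.OG.across_across] at h1
            rw [h1] at hrx
            exact hpx hrx
        obtain ⟨w, hw, hwp⟩ : ∃ w, G.Adj x w ∧ w ≠ p.1.fst := by
          by_cases hpa : p.1.fst = a
          · exact ⟨b, hb, fun hh => hab (hpa.symm.trans hh.symm)⟩
          · exact ⟨a, ha, fun hh => hpa hh.symm⟩
        have h2 := S.conn (across p) (⟨(x, w), hw⟩, true) hp'x
        have h3 : ((⟨(x, w), hw⟩, true) : Flag G) = across p ∨ ((⟨(x, w), hw⟩, true) : Flag G) = side (across p) := by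
          refine (sd_inv (P := fun y => y = across p ∨ y = side (across p)) ?_ h2).1 (Or.inl rfl)
          have hn2 : S.nxt (side (across p)) = across p := by
            rw [← h1, S.nxt_nxt]
          have key : ∀ y, (y = across p ∨ y = side (across p)) →
              (S.nxt y = across p ∨ S.nxt y = side (across p)) ∧ (side y = across p ∨ side y = side (across p)) := by
            rintro y (rfl | rfl)
            · exact ⟨Or.inr h1, Or.inr rfl⟩
            · exact ⟨Or.inl hn2, Or.inl (Pool.Agent.Helper35.OG.side_side _)⟩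
          rintro y z (rfl | rfl)
          · refine ⟨fun hy => (key y hy).1, fun hy => ?_⟩
            have := (key _ hy).1
            rwa [S.nxt_nxt] at this
          · refine ⟨fun hy => (key y hy).2, fun hy => ?_⟩
            have := (key _ hy).2
            rwa [Pool.Agent.Helper35.OG.side_side] at this
        have h4 : w = p.1.fst := by
          rcases h3 with h3 | h3
          · exact congrArg (fun r : Flag G => r.1.snd) h3
          · exact congrArg (fun r : Flag G => r.1.snd) h3
        exact hwp h4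
      have hrA := hat _ hrx
      have hr'A : ed (across (S.nxt (across p))) ∈ (rk {x} : Finset G.edgeSet) := by
        rw [Pool.Agent.BEO.ed_across]
        exact hrA
      have hr'x : (across (S.nxt (across p))).1.fst ≠ x := by
        intro hh
        exact (S.nxt (across p)).1.adj.ne (hrx.trans hh.symm)
      have hr'm := hall _ hr'A hr'x
      have hp'A := hat _ hp'x
      have e1 : part (rk {x}) S (across p) = S.nxt (across p) := by
        unfold part
        rw [if_pos ⟨hp'A, hrA⟩]
      have e2 : part (rk {x}) S (S.nxt (across p)) = across p := by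
        rw [← e1, sd_part_part]
      have hq' : q = p ∨ q = across p ∨ q = S.nxt (across p) ∨ q = across (S.nxt (across p)) := by
        refine sd_clos S (rk {x}) (fun y => y = p ∨ y = across p ∨ y = S.nxt (across p) ∨
          y = across (S.nxt (across p))) ?_ ?_ (Or.inl rfl) h
        · rintro y (rfl | rfl | rfl | rfl)
          · exact Or.inl (sd_part_of_mix S _ _ hp)
          · exact Or.inr (Or.inr (Or.inl e1))
          · exact Or.inr (Or.inl e2)
          · exact Or.inr (Or.inr (Or.inr (sd_part_of_mix S _ _ hr'm)))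
        · rintro y (rfl | rfl | rfl | rfl)
          · exact Or.inr (Or.inl rfl)
          · exact Or.inl (Pool.Agent.Helper35.OG.across_across p)
          · exact Or.inr (Or.inr (Or.inr rfl))
          · exact Or.inr (Or.inr (Or.inl (Pool.Agent.Helper35.OG.across_across _)))
      rcases hq' with rfl | rfl | rfl | rfl
      · exact absurd rfl hqp
      · exact absurd hp'x (hno _ hq)
      · exact absurd hrx (hno _ hq)
      · intro hh
        apply hred
        apply Subtype.ext
        have h5 : (S.nxt (across p)).1 = (across p).1 := by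
          apply SimpleGraph.Dart.ext
          refine Prod.ext (hrx.trans hp'x.symm) ?_
          exact hh.symm
        show (S.nxt (across p)).1.edge = (across p).1.edge
        rw [h5]

omit [Fintype V] in
private theorem sd_hcn (S : GMap G) (A A' : Finset G.edgeSet) (hA : HCn S A) (hA' : HCn S A') (p : Flag G)
    (h1 : ed p ∈ A) (h2 : ed (S.nxt p) ∈ A') : HCn S (A ∪ A') := by
  have m1 : ∀ e ∈ A, ∀ e' ∈ A, Relation.EqvGen (fun x y => x ∈ A ∪ A' ∧ y ∈ A ∪ A' ∧
      ∃ p : Flag G, ed p = x ∧ ed (S.nxt p) = y) e e' := by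
    intro e he e' he'
    refine Relation.EqvGen.mono ?_ _ _ (hA e he e' he')
    rintro x y ⟨hx, hy, hp⟩
    exact ⟨Finset.mem_union_left _ hx, Finset.mem_union_left _ hy, hp⟩
  have m2 : ∀ e ∈ A', ∀ e' ∈ A', Relation.EqvGen (fun x y => x ∈ A ∪ A' ∧ y ∈ A ∪ A' ∧
      ∃ p : Flag G, ed p = x ∧ ed (S.nxt p) = y) e e' := by
    intro e he e' he'
    refine Relation.EqvGen.mono ?_ _ _ (hA' e he e' he')
    rintro x y ⟨hx, hy, hp⟩
    exact ⟨Finset.mem_union_right _ hx, Finset.mem_union_right _ hy, hp⟩
  have m3 : Relation.EqvGen (fun x y => x ∈ A ∪ A' ∧ y ∈ A ∪ A' ∧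
      ∃ p : Flag G, ed p = x ∧ ed (S.nxt p) = y) (ed p) (ed (S.nxt p)) :=
    Relation.EqvGen.rel _ _ ⟨Finset.mem_union_left _ h1, Finset.mem_union_right _ h2, p, rfl, rfl⟩
  intro e he e' he'
  rcases Finset.mem_union.1 he with he | he
  · rcases Finset.mem_union.1 he' with he' | he'
    · exact m1 e he e' he'
    · exact Relation.EqvGen.trans _ _ _ (m1 e he _ h1) (Relation.EqvGen.trans _ _ _ m3 (m2 _ h2 e' he'))
  · rcases Finset.mem_union.1 he' with he' | he'
    · exact Relation.EqvGen.trans _ _ _ (m2 e he _ h2)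
        (Relation.EqvGen.trans _ _ _ (Relation.EqvGen.symm _ _ m3) (m1 _ h1 e' he'))
    · exact m2 e he e' he'

private theorem sd_vs (S : GMap G) (D : Finset G.edgeSet) (T : Finset V) (hT : ∀ v ∈ T, ∃ e ∈ D, v ∈ e.1) :
    T.card ≤ vs S D := by
  have h1 : ∀ v : {v // v ∈ T}, ∃ p : Flag G, p.1.fst = v.1 ∧ ed p ∈ D := by
    rintro ⟨v, hv⟩
    obtain ⟨⟨e, he⟩, heD, hve⟩ := hT v hv
    obtain ⟨w, rfl⟩ := Sym2.mem_iff_exists.1 hve
    exact ⟨(⟨(v, w), he⟩, true), rfl, heD⟩
  choose pf hpf1 hpf2 using h1
  have : Finite (Flag G) := inferInstance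
  unfold vs
  have h2 : Nat.card {v // v ∈ T} = T.card := by
    rw [Nat.card_eq_fintype_card, Fintype.card_coe]
  rw [← h2]
  apply Nat.card_le_card_of_injective (fun v : {v // v ∈ T} =>
    (⟨Quot.mk _ (pf v), pf v, rfl, hpf2 v⟩ : {c : Quot (rV D (part D S)) // ∃ p, Quot.mk _ p = c ∧ ed p ∈ D}))
  intro v w hvw
  have h3 : Quot.mk (rV D (part D S)) (pf v) = Quot.mk _ (pf w) := congrArg Subtype.val hvw
  have h4 := Quot.eqvGen_exact h3
  have h5 : ∀ x y, rV D (part D S) x y → ((x.1.fst = v.1) ↔ (y.1.fst = v.1)) := by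
    rintro x y ⟨_, rfl | rfl⟩
    · rw [sd_part_fst]
    · exact Iff.rfl
  have h6 := (sd_inv h5 h4).1 (hpf1 v)
  apply Subtype.ext
  rw [← h6, hpf1 w]

private theorem sd_clo (S : GMap G) (D : Finset G.edgeSet) (p : Flag G) (hp : ed p ∈ D)
    (h : ∀ r, ed r ∈ D → S.face r = S.face p → r ∉ mix D S) : 1 ≤ clo D (part D S) := by
  have : Finite (Flag G) := inferInstance
  unfold clo
  have h0 : ∀ x y, rF D (part D S) x y →
      ((ed x ∈ D ∧ S.face x = S.face p) ↔ (ed y ∈ D ∧ S.face y = S.face p)) := by
    rintro x y ⟨_, rfl | rfl⟩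
    · rw [sd_part_ed, sd_part_face]
    · rw [Pool.Agent.BEO.ed_across, Pool.Agent.Helper35.OG.face_across]
  have : Nonempty {c : Quot (rF D (part D S)) // (∃ p, Quot.mk _ p = c ∧ ed p ∈ D) ∧
      ∀ q, Um D (part D S) q → Quot.mk _ q ≠ c} := by
    refine ⟨⟨Quot.mk _ p, ⟨p, rfl, hp⟩, ?_⟩⟩
    rintro q ⟨hq1, hq2⟩ hq
    have h4 := Quot.eqvGen_exact hq
    have h5 := (sd_inv h0 h4).2 ⟨hp, rfl⟩
    exact h q h5.1 h5.2 (sd_mix_of_part S D q hq1 hq2)
  exact Nat.card_pos

/-- the card of trivial sets -/
private theorem sd_trv_card [Nontrivial V] (hG : G.Connected) (S : GMap G) (A : Finset G.edgeSet) (hA : Trv S A) :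
    A.card ≤ 2 := by
  obtain ⟨Mx, h1, h2, _⟩ := sd_triv hG S A hA
  omega

private theorem sd_no44 [Nontrivial V] (hG : G.Connected) (S : GMap G) (hr : Reduced S) (B : Finset (Finset G.edgeSet))
    (I : Finset V) (h : Ptn S B I) (h8 : 8 < rB S B) (A A' : Finset G.edgeSet) (hA : A ∈ B) (hA' : A' ∈ B)
    (hne : A' ≠ A) (hT : Trv S A) (hT' : Trv S A') (p q : Flag G) (hp : p ∈ mix A S) (hq : q ∈ mix A S) (hqp : q ≠ p)
    (hf : S.face q = S.face p)
    (hE : Relation.EqvGen (fun x y => y = part A S x ∨ y = across x) p q) (hp' : S.nxt p ∈ mix A' S)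
    (hq' : S.nxt q ∈ mix A' S)
    (hall : ∀ r, r ∈ MFl S B → S.face r = S.face p → r ∈ ({p, q, S.nxt p, S.nxt q} : Finset (Flag G))) : False := by
  have hd := h.dj A hA A' hA' hne.symm
  obtain ⟨Mx, a1, a2, a3, a4, a5, a6⟩ := sd_triv hG S A hT
  obtain ⟨Mx', b1, b2, b3, b4, b5, b6⟩ := sd_triv hG S A' hT'
  have hpA := (sd_mem S A p).1 hp
  have hqA := (sd_mem S A q).1 hq
  have hpA' := (sd_mem S A' _).1 hp'
  have hqA' := (sd_mem S A' _).1 hq'
  have huu := a6 p hp q hq hqp hE
  have hfour := sd_four S A p q hp hq hqp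
  have hcD : (A ∪ A').card = A.card + A'.card := Finset.card_union_of_disjoint hd
  -- connected
  have hcn := sd_hcn S A A' (h.cn A hA) (h.cn A' hA') p hpA.1 hpA'.1
  -- few mixed flags
  have hmix : (mix (A ∪ A') S).card ≤ 4 := by
    have h1 : mix (A ∪ A') S ⊆ (mix A S ∪ mix A' S) \ {p, q, S.nxt p, S.nxt q} := by
      intro r hr1
      have h2 := (sd_mem S _ r).1 hr1
      have h3 : ed (S.nxt r) ∉ A ∧ ed (S.nxt r) ∉ A' := by
        constructor
        · exact fun hh => h2.2 (Finset.mem_union_left _ hh)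
        · exact fun hh => h2.2 (Finset.mem_union_right _ hh)
      rw [Finset.mem_sdiff]
      constructor
      · rcases Finset.mem_union.1 h2.1 with h4 | h4
        · exact Finset.mem_union_left _ ((sd_mem S A r).2 ⟨h4, h3.1⟩)
        · exact Finset.mem_union_right _ ((sd_mem S A' r).2 ⟨h4, h3.2⟩)
      · intro h4
        simp only [Finset.mem_insert, Finset.mem_singleton] at h4
        rcases h4 with rfl | rfl | rfl | rfl
        · exact h3.2 hpA'.1
        · exact h3.2 hqA'.1
        · rw [S.nxt_nxt] at h3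
          exact h3.1 hpA.1
        · rw [S.nxt_nxt] at h3
          exact h3.1 hqA.1
    have h2 : ({p, q, S.nxt p, S.nxt q} : Finset (Flag G)) ⊆ mix A S ∪ mix A' S := by
      intro r hr1
      simp only [Finset.mem_insert, Finset.mem_singleton] at hr1
      rcases hr1 with rfl | rfl | rfl | rfl
      · exact Finset.mem_union_left _ hp
      · exact Finset.mem_union_left _ hq
      · exact Finset.mem_union_right _ hp'
      · exact Finset.mem_union_right _ hq'
    have h3 := Finset.card_le_card h1
    rw [Finset.card_sdiff_of_subset h2, hfour] at h3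
    have h4 := Finset.card_union_le (mix A S) (mix A' S)
    rw [trv_mix hG S A hT, trv_mix hG S A' hT'] at h4
    omega
  -- not everything
  have hnu : A ∪ A' ≠ univ := by
    intro hu
    have h1 : B ⊆ {A, A'} := by
      intro C hC
      obtain ⟨e, he⟩ := h.ne C hC
      have h2 : e ∈ A ∪ A' := by
        rw [hu]
        exact Finset.mem_univ _
      simp only [Finset.mem_insert, Finset.mem_singleton]
      rcases Finset.mem_union.1 h2 with h3 | h3
      · exact Or.inl (sd_uniq S B I h hC hA he h3)
      · exact Or.inr (sd_uniq S B I h hC hA' he h3)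
    have h2 : rB S B ≤ ∑ C ∈ ({A, A'} : Finset (Finset G.edgeSet)), (mix C S).card :=
      Finset.sum_le_sum_of_subset h1
    rw [Finset.sum_pair hne.symm, trv_mix hG S A hT, trv_mix hG S A' hT'] at h2
    omega
  -- the Euler characteristic
  have hclo : 1 ≤ clo (A ∪ A') (part (A ∪ A') S) := by
    refine sd_clo S (A ∪ A') p (Finset.mem_union_left _ hpA.1) ?_
    intro r hr1 hr2 hr3
    have h2 := (sd_mem S _ r).1 hr3
    have h3 : ed (S.nxt r) ∉ A ∧ ed (S.nxt r) ∉ A' := by
      constructor
      · exact fun hh => h2.2 (Finset.mem_union_left _ hh)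
      · exact fun hh => h2.2 (Finset.mem_union_right _ hh)
    have h4 : r ∈ MFl S B := by
      rw [sd_mf]
      rcases Finset.mem_union.1 h2.1 with h4 | h4
      · exact ⟨A, hA, (sd_mem S A r).2 ⟨h4, h3.1⟩⟩
      · exact ⟨A', hA', (sd_mem S A' r).2 ⟨h4, h3.2⟩⟩
    have h5 := hall r h4 hr2
    simp only [Finset.mem_insert, Finset.mem_singleton] at h5
    rcases h5 with rfl | rfl | rfl | rfl
    · exact h3.2 hpA'.1
    · exact h3.2 hqA'.1
    · rw [S.nxt_nxt] at h3
      exact h3.1 hpA.1
    · rw [S.nxt_nxt] at h3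
      exact h3.1 hqA.1
  have hmid : Disjoint Mx Mx' := by
    rw [Finset.disjoint_left]
    intro v hv hv'
    exact hne ((b4 v hv').trans (a4 v hv).symm)
  have hue : ∀ r : Flag G, ed r ∈ A ∪ A' → ∃ e ∈ A ∪ A', r.1.fst ∈ e.1 := by
    intro r hr1
    exact ⟨ed r, hr1, Sym2.mem_mk_left _ _⟩
  have hvs : (({p.1.fst, q.1.fst} : Finset V) ∪ (Mx ∪ Mx')).card ≤ vs S (A ∪ A') := by
    apply sd_vs
    intro v hv
    rcases Finset.mem_union.1 hv with hv | hv
    · simp only [Finset.mem_insert, Finset.mem_singleton] at hv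
      rcases hv with rfl | rfl
      · exact hue p (Finset.mem_union_left _ hpA.1)
      · exact hue q (Finset.mem_union_left _ hqA.1)
    · rcases Finset.mem_union.1 hv with hv | hv
      · obtain ⟨e, he, hve⟩ := a3 v hv
        exact ⟨e, Finset.mem_union_left _ he, hve⟩
      · obtain ⟨e, he, hve⟩ := b3 v hv
        exact ⟨e, Finset.mem_union_right _ he, hve⟩
  have hdj : Disjoint ({p.1.fst, q.1.fst} : Finset V) (Mx ∪ Mx') := by
    rw [Finset.disjoint_left]
    intro v hv hv'
    have c1 := a5 p hp
    have c2 := a5 q hq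
    have c3 := b5 _ hp'
    have c4 := b5 _ hq'
    rw [S.nxt_fst] at c3 c4
    simp only [Finset.mem_insert, Finset.mem_singleton] at hv
    rcases hv with rfl | rfl
    · rcases Finset.mem_union.1 hv' with hv' | hv'
      · exact c1 hv'
      · exact c3 hv'
    · rcases Finset.mem_union.1 hv' with hv' | hv'
      · exact c2 hv'
      · exact c4 hv'
  rw [Finset.card_union_of_disjoint hdj, Finset.card_union_of_disjoint hmid, Finset.card_pair huu] at hvs
  have hchi1 : 1 ≤ chi S (A ∪ A') := by
    unfold chi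
    have h1 : (A ∪ A').card ≤ vs S (A ∪ A') := by omega
    have h2 : ((A ∪ A').card : ℤ) ≤ (vs S (A ∪ A') : ℤ) := by exact_mod_cast h1
    have h3 : (1 : ℤ) ≤ (clo (A ∪ A') (part (A ∪ A') S) : ℤ) := by exact_mod_cast hclo
    omega
  have hneD : (A ∪ A').Nonempty := ⟨ed p, Finset.mem_union_left _ hpA.1⟩
  have hchi2 := chi_le hG S (A ∪ A') hneD hnu hcn
  have hTD := hr (A ∪ A') hneD hnu hcn (le_antisymm hchi2 hchi1) hmix
  have hD2 := sd_trv_card hG S _ hTD
  -- both are single edges with the same ends
  have c1 : A.card = 1 := by omega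
  have c1' : A'.card = 1 := by omega
  obtain ⟨e, rfl⟩ := Finset.card_eq_one.1 c1
  obtain ⟨e', rfl⟩ := Finset.card_eq_one.1 c1'
  apply hne
  have d1 := Finset.mem_singleton.1 hpA.1
  have d2 := Finset.mem_singleton.1 hqA.1
  have d3 := Finset.mem_singleton.1 hpA'.1
  have d4 := Finset.mem_singleton.1 hqA'.1
  have f1 : p.1.fst ∈ e.1 := by
    rw [← d1]
    exact Sym2.mem_mk_left _ _
  have f2 : q.1.fst ∈ e.1 := by
    rw [← d2]
    exact Sym2.mem_mk_left _ _
  have f3 : p.1.fst ∈ e'.1 := by
    rw [← d3, ← S.nxt_fst p]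
    exact Sym2.mem_mk_left _ _
  have f4 : q.1.fst ∈ e'.1 := by
    rw [← d4, ← S.nxt_fst q]
    exact Sym2.mem_mk_left _ _
  have g1 := (Sym2.mem_and_mem_iff huu).1 ⟨f1, f2⟩
  have g2 := (Sym2.mem_and_mem_iff huu).1 ⟨f3, f4⟩
  have g3 : e' = e := Subtype.ext (g2.trans g1.symm)
  rw [g3]

theorem sm_face6 [Nontrivial V] (hG : G.Connected) (S : GMap G) (hr : Reduced S) (B : Finset (Finset G.edgeSet))
    (I : Finset V) (h : Ptn S B I) (h8 : 8 < rB S B) :
    6 * FM S B + 4 * (B.filter (Trv S)).card ≤ 2 * rB S B := by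
  have h1 : rB S B = (MFl S B).card := (sd_card S B B I h (Finset.Subset.refl _)).symm
  have h2 : (MFl S (B.filter fun A => ¬ Trv S A)).card + 4 * (B.filter (Trv S)).card = (MFl S B).card := by
    rw [← h1, sd_card S B _ I h (Finset.filter_subset _ _)]
    unfold rB
    rw [← Finset.sum_filter_add_sum_filter_not B (Trv S) (fun A => (mix A S).card), add_comm]
    congr 1
    rw [Finset.sum_congr rfl (g := fun _ => 4) (fun A hA => trv_mix hG S A (Finset.mem_filter.1 hA).2),
      Finset.sum_const, smul_eq_mul, mul_comm]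
  have hsub : MFl S (B.filter fun A => ¬ Trv S A) ⊆ MFl S B := by
    intro p hp
    obtain ⟨A, hA, hp'⟩ := (sd_mf S _ p).1 hp
    exact (sd_mf S B p).2 ⟨A, (Finset.mem_filter.1 hA).1, hp'⟩
  have h3 : (MFl S (B.filter fun A => ¬ Trv S A)).card =
      ∑ f ∈ (MFl S B).image S.face, ((MFl S (B.filter fun A => ¬ Trv S A)).filter fun r => S.face r = f).card := by
    apply Finset.card_eq_sum_card_fiberwise
    intro p hp
    exact Finset.mem_coe.2 (Finset.mem_image_of_mem _ (hsub (Finset.mem_coe.1 hp)))
  have h4 : 6 * FM S B ≤ (MFl S B).card + (MFl S (B.filter fun A => ¬ Trv S A)).card := by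
    rw [h3, sd_FM, Finset.card_eq_sum_card_image S.face (MFl S B), ← Finset.sum_add_distrib, mul_comm,
      ← smul_eq_mul]
    apply Finset.card_nsmul_le_sum
    intro f hf
    obtain ⟨p, hp, rfl⟩ := Finset.mem_image.1 hf
    obtain ⟨A, hA, hp'⟩ := (sd_mf S B p).1 hp
    obtain ⟨q, hq1, hq2, hq3, hqE⟩ := sd_partner S A p hp'
    have hfour := sd_four S A p q hp' hq2 hq1
    have hfs := sd_four_sub S B I h A hA p q hp' hq2 hq3
    by_cases hmore : ∃ r ∈ (MFl S B).filter (fun r => S.face r = S.face p),
        r ∉ ({p, q, S.nxt p, S.nxt q} : Finset (Flag G))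
    · obtain ⟨r, hr1, hr2⟩ := hmore
      have hr3 : S.nxt r ∉ ({p, q, S.nxt p, S.nxt q} : Finset (Flag G)) := by
        intro hh
        apply hr2
        simp only [Finset.mem_insert, Finset.mem_singleton] at hh ⊢
        rcases hh with hh | hh | hh | hh
        · right; right; left
          rw [← hh, S.nxt_nxt]
        · right; right; right
          rw [← hh, S.nxt_nxt]
        · left
          exact Pool.Agent.Helper35.OG.nxt_inj S hh
        · right; left
          exact Pool.Agent.Helper35.OG.nxt_inj S hh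
      have hr4 : S.nxt r ∈ (MFl S B).filter (fun r => S.face r = S.face p) := by
        rw [Finset.mem_filter, sd_mf] at hr1 ⊢
        obtain ⟨⟨C, hC, hrC⟩, hrf⟩ := hr1
        obtain ⟨C', hC', _, hrC'⟩ := sd_nxt S B I h hC hrC
        exact ⟨⟨C', hC', hrC'⟩, (Pool.Agent.Helper35.OG.face_nxt S r).trans hrf⟩
      have h5 : (insert r (insert (S.nxt r) ({p, q, S.nxt p, S.nxt q} : Finset (Flag G)))).card = 6 := by
        rw [Finset.card_insert_of_notMem, Finset.card_insert_of_notMem hr3, hfour]
        rw [Finset.mem_insert, not_or]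
        exact ⟨(S.nxt_ne r).symm, hr2⟩
      have h6 : insert r (insert (S.nxt r) ({p, q, S.nxt p, S.nxt q} : Finset (Flag G))) ⊆
          (MFl S B).filter (fun r => S.face r = S.face p) :=
        Finset.insert_subset hr1 (Finset.insert_subset hr4 hfs)
      have h7 := Finset.card_le_card h6
      rw [h5] at h7
      omega
    · push Not at hmore
      have h7 := Finset.card_le_card hfs
      rw [hfour] at h7
      have h8' : 2 ≤ ((MFl S (B.filter fun A => ¬ Trv S A)).filter fun r => S.face r = S.face p).card := by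
        obtain ⟨A', hA', hne, hp''⟩ := sd_nxt S B I h hA hp'
        obtain ⟨q', hq'1, hq'2, hq'3, _⟩ := sd_partner S A' _ hp''
        have hq'4 : q' ∈ ({p, q, S.nxt p, S.nxt q} : Finset (Flag G)) := by
          apply hmore
          rw [Finset.mem_filter, sd_mf]
          exact ⟨⟨A', hA', hq'2⟩, hq'3.trans (Pool.Agent.Helper35.OG.face_nxt S p)⟩
        have hq'5 : q' = S.nxt q := by
          simp only [Finset.mem_insert, Finset.mem_singleton] at hq'4
          rcases hq'4 with h9 | h9 | h9 | h9
          · exfalso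
            rw [h9] at hq'2
            exact hne (sd_uniq S B I h hA' hA ((sd_mem S _ _).1 hq'2).1 ((sd_mem S _ _).1 hp').1)
          · exfalso
            rw [h9] at hq'2
            exact hne (sd_uniq S B I h hA' hA ((sd_mem S _ _).1 hq'2).1 ((sd_mem S _ _).1 hq2).1)
          · exact absurd h9 hq'1
          · exact h9
        rw [hq'5] at hq'2
        by_cases hT : Trv S A
        · by_cases hT' : Trv S A'
          · exfalso
            refine sd_no44 hG S hr B I h h8 A A' hA hA' hne hT hT' p q hp' hq2 hq1 hq3 hqE hp'' hq'2 ?_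
            intro r hr1 hr2
            exact hmore r (Finset.mem_filter.2 ⟨hr1, hr2⟩)
          · have h9 : ({S.nxt p, S.nxt q} : Finset (Flag G)) ⊆
                (MFl S (B.filter fun A => ¬ Trv S A)).filter (fun r => S.face r = S.face p) := by
              intro r hr1
              rw [Finset.mem_filter, sd_mf]
              simp only [Finset.mem_insert, Finset.mem_singleton] at hr1
              rcases hr1 with rfl | rfl
              · exact ⟨⟨A', Finset.mem_filter.2 ⟨hA', hT'⟩, hp''⟩, Pool.Agent.Helper35.OG.face_nxt S p⟩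
              · exact ⟨⟨A', Finset.mem_filter.2 ⟨hA', hT'⟩, hq'2⟩, (Pool.Agent.Helper35.OG.face_nxt S q).trans hq3⟩
            have h10 := Finset.card_le_card h9
            rw [Finset.card_pair (fun hh => hq1 (Pool.Agent.Helper35.OG.nxt_inj S hh).symm)] at h10
            exact h10
        · have h9 : ({p, q} : Finset (Flag G)) ⊆
              (MFl S (B.filter fun A => ¬ Trv S A)).filter (fun r => S.face r = S.face p) := by
            intro r hr1
            rw [Finset.mem_filter, sd_mf]
            simp only [Finset.mem_insert, Finset.mem_singleton] at hr1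
            rcases hr1 with rfl | rfl
            · exact ⟨⟨A, Finset.mem_filter.2 ⟨hA, hT⟩, hp'⟩, rfl⟩
            · exact ⟨⟨A, Finset.mem_filter.2 ⟨hA, hT⟩, hq2⟩, hq3⟩
          have h10 := Finset.card_le_card h9
          rw [Finset.card_pair hq1.symm] at h10
          exact h10
      omega
  omega

end Pool.Agent.FGT
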