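import Pool.Agent.FGT.TsDef

/-!
# FGT-TsB: entries code functions on the flags

Short list lemmas.
-/

set_option autoImplicit false

open Finset
open scoped Classical

namespace Pool.Agent.FGT

open Pool.Agent.Helper35.OG (Flag GMap across side)
open Pool.Agent.BEO (F2 ed rp cyc ev cod Codes ec look memb ddp comp cds Pt Ec Inp sd ac ek fl nb)
open Pool.Agent.SCG (edl nx bst bls)

variable {n : ℕ} {G : SimpleGraph (Fin n)} {S : GMap G} {l : Inp}

theorem nE_cod (L : Flag G → Flag G) (x : En) (hx : ECodes L x) (p : Flag G) : nE x (cod p) = cod (L p) := by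
  unfold nE
  by_cases hp : L p = p
  · rw [Pool.Agent.BEO.look_none, hp]
    intro y hy
    obtain ⟨q, hq, he⟩ := (hx _).1 hy
    have h1 : cod p = cod q := congrArg Prod.fst he
    rw [← Pool.Agent.BEO.cod_inj h1] at hq
    exact hq hp
  · refine Pool.Agent.BEO.look_eq _ _ _ _ ((hx _).2 ⟨p, hp, rfl⟩) ?_
    intro y hy
    obtain ⟨q, hq, he⟩ := (hx _).1 hy
    have h1 : cod p = cod q := congrArg Prod.fst he
    have h2 : y = cod (L q) := congrArg Prod.snd he
    rw [h2, Pool.Agent.BEO.cod_inj h1]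

theorem mem_fD (h : Codes S l) (D : Finset G.edgeSet) (d : List Ec) (hd : DCodes D d) (y : Pt) :
    y ∈ fD l d ↔ ∃ p : Flag G, y = cod p ∧ ed p ∈ D := by
  unfold fD
  rw [List.mem_filter, Pool.Agent.BEO.mem_fl h, Pool.Agent.BEO.memb_iff, hd]
  constructor
  · rintro ⟨⟨p, rfl⟩, e, he, h1⟩
    refine ⟨p, rfl, ?_⟩
    rw [Pool.Agent.BEO.ek_cod] at h1
    rw [Pool.Agent.BEO.ec_inj h1]
    exact he
  · rintro ⟨p, rfl, hp⟩
    exact ⟨⟨p, rfl⟩, ed p, hp, Pool.Agent.BEO.ek_cod p⟩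

theorem fD_nodup (l : Inp) (d : List Ec) : (fD l d).Nodup :=
  (Pool.Agent.BEO.nodup_ddp _).filter _

theorem mem_umD (h : Codes S l) (D : Finset G.edgeSet) (d : List Ec) (hd : DCodes D d) (L : Flag G → Flag G) (x : En)
    (hx : ECodes L x) (y : Pt) : y ∈ umD l d x ↔ ∃ p : Flag G, y = cod p ∧ Um D L p := by
  unfold umD
  rw [List.mem_filter, mem_fD h D d hd, decide_eq_true_iff]
  constructor
  · rintro ⟨⟨p, rfl, hp⟩, h1⟩
    rw [nE_cod L x hx] at h1
    exact ⟨p, rfl, hp, Pool.Agent.BEO.cod_inj h1⟩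
  · rintro ⟨p, rfl, hp, h1⟩
    refine ⟨⟨p, rfl, hp⟩, ?_⟩
    rw [nE_cod L x hx, h1]

theorem umD_len (h : Codes S l) (D : Finset G.edgeSet) (d : List Ec) (hd : DCodes D d) (L : Flag G → Flag G) (x : En)
    (hx : ECodes L x) : (umD l d x).length = (univ.filter fun p : Flag G => Um D L p).card := by
  have h1 : (umD l d x).Nodup := (fD_nodup l d).filter _
  rw [← List.toFinset_card_of_nodup h1,
    ← Finset.card_image_of_injective (univ.filter fun p : Flag G => Um D L p)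
      (fun a b hab => Pool.Agent.BEO.cod_inj hab : Function.Injective (cod : Flag G → Pt))]
  congr 1
  ext y
  rw [List.mem_toFinset, mem_umD h D d hd L x hx, Finset.mem_image]
  constructor
  · rintro ⟨p, rfl, hp⟩
    exact ⟨p, by simpa using hp, rfl⟩
  · rintro ⟨p, hp, rfl⟩
    exact ⟨p, rfl, by simpa using hp⟩

private theorem vl1_iff (l : Inp) (d : List Ec) (x : En) : vl1 l d x = true ↔
    ∀ y ∈ x, y.1 ∈ fD l d ∧ y.2 ∈ fD l d ∧ y.1.1 = y.2.1 ∧ y.1 ≠ y.2 ∧ nE x y.1 = y.2 ∧ nE x y.2 = y.1 := by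
  unfold vl1
  rw [List.all_eq_true]
  refine forall_congr' fun y => forall_congr' fun _ => ?_
  simp only [Bool.and_eq_true, Pool.Agent.BEO.memb_iff, decide_eq_true_iff, Bool.not_eq_true',
    decide_eq_false_iff_not]
  tauto

/-- entries which pass the first test code involutions of the flags over `D` -/
theorem ex_ent (h : Codes S l) (D : Finset G.edgeSet) (d : List Ec) (hd : DCodes D d) (x : En) (hx : vl1 l d x = true) :
    ∃ L : Flag G → Flag G, ECodes L x ∧ (∀ p, L (L p) = p) ∧ (∀ p, ed p ∉ D → L p = p) ∧ (∀ p, ed p ∈ D → ed (L p) ∈ D) ∧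
      ∀ p, (L p).1.fst = p.1.fst := by
  rw [vl1_iff] at hx
  have h1 : ∀ p : Flag G, ∃ q : Flag G, cod q = nE x (cod p) := by
    intro p
    by_cases hp : ∃ y, (cod p, y) ∈ x
    · obtain ⟨y, hy⟩ := hp
      obtain ⟨-, h2, -, -, h3, -⟩ := hx _ hy
      obtain ⟨q, hq, -⟩ := (mem_fD h D d hd _).1 h2
      exact ⟨q, by rw [← hq]; exact h3.symm⟩
    · refine ⟨p, ?_⟩
      unfold nE
      rw [Pool.Agent.BEO.look_none]
      exact fun y hy => hp ⟨y, hy⟩
  choose L hL using h1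
  have hmem : ∀ p, L p ≠ p → (cod p, cod (L p)) ∈ x := by
    intro p hp
    by_cases hy : ∃ y, (cod p, y) ∈ x
    · have := Pool.Agent.BEO.look_mem x (cod p) (cod p) hy
      rw [hL p]
      exact this
    · exfalso
      apply hp
      apply Pool.Agent.BEO.cod_inj
      rw [hL p]
      unfold nE
      rw [Pool.Agent.BEO.look_none]
      exact fun y hy' => hy ⟨y, hy'⟩
  refine ⟨L, ?_, ?_, ?_, ?_, ?_⟩
  · intro y
    constructor
    · intro hy
      obtain ⟨h2, -, -, h3, h4, -⟩ := hx _ hy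
      obtain ⟨p, hp, -⟩ := (mem_fD h D d hd _).1 h2
      have h5 : y.2 = cod (L p) := by rw [hL p, ← hp, h4]
      refine ⟨p, ?_, Prod.ext hp h5⟩
      intro hLp
      apply h3
      rw [hp, h5, hLp]
    · rintro ⟨p, hp, rfl⟩
      exact hmem p hp
  · intro p
    by_cases hp : L p = p
    · rw [hp, hp]
    · obtain ⟨-, -, -, -, -, h2⟩ := hx _ (hmem p hp)
      apply Pool.Agent.BEO.cod_inj
      rw [hL (L p)]
      exact h2
  · intro p hD
    by_contra hp
    obtain ⟨h2, -⟩ := hx _ (hmem p hp)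
    obtain ⟨q, hq, hqD⟩ := (mem_fD h D d hd _).1 h2
    rw [Pool.Agent.BEO.cod_inj hq] at hD
    exact hD hqD
  · intro p hD
    by_cases hp : L p = p
    · rw [hp]
      exact hD
    · obtain ⟨-, h2, -⟩ := hx _ (hmem p hp)
      obtain ⟨q, hq, hqD⟩ := (mem_fD h D d hd _).1 h2
      rw [Pool.Agent.BEO.cod_inj hq]
      exact hqD
  · intro p
    by_cases hp : L p = p
    · rw [hp]
    · obtain ⟨-, -, h2, -⟩ := hx _ (hmem p hp)
      exact Fin.ext h2.symm

theorem vl1_of (h : Codes S l) (D : Finset G.edgeSet) (d : List Ec) (hd : DCodes D d) (L : Flag G → Flag G) (x : En)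
    (hx : ECodes L x) (h1 : ∀ p, L (L p) = p) (h2 : ∀ p, ed p ∉ D → L p = p) (h3 : ∀ p, ed p ∈ D → ed (L p) ∈ D)
    (h4 : ∀ p, (L p).1.fst = p.1.fst) : vl1 l d x = true := by
  rw [vl1_iff]
  intro y hy
  obtain ⟨p, hp, rfl⟩ := (hx y).1 hy
  have hD : ed p ∈ D := by
    by_contra hD
    exact hp (h2 p hD)
  refine ⟨(mem_fD h D d hd _).2 ⟨p, rfl, hD⟩, (mem_fD h D d hd _).2 ⟨L p, rfl, h3 p hD⟩, ?_, ?_, ?_, ?_⟩
  · exact (congrArg Fin.val (h4 p)).symm
  · intro he
    exact hp (Pool.Agent.BEO.cod_inj he).symm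
  · exact nE_cod L x hx p
  · rw [nE_cod L x hx (L p), h1 p]

theorem nr_ent (h : Codes S l) (L : Flag G → Flag G) (x : En) (hx : ECodes L x) : ECodes L (nrE l x) := by
  intro y
  unfold nrE
  rw [List.mem_map]
  constructor
  · rintro ⟨z, hz, rfl⟩
    rw [List.mem_filter, Pool.Agent.BEO.mem_fl h] at hz
    obtain ⟨⟨p, rfl⟩, h1⟩ := hz
    rw [Bool.not_eq_true', decide_eq_false_iff_not, nE_cod L x hx] at h1
    refine ⟨p, fun hp => h1 (by rw [hp]), ?_⟩
    rw [nE_cod L x hx]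
  · rintro ⟨p, hp, rfl⟩
    refine ⟨cod p, ?_, by rw [nE_cod L x hx]⟩
    rw [List.mem_filter, Pool.Agent.BEO.mem_fl h]
    refine ⟨⟨p, rfl⟩, ?_⟩
    rw [Bool.not_eq_true', decide_eq_false_iff_not, nE_cod L x hx]
    exact fun he => hp (Pool.Agent.BEO.cod_inj he)

theorem ent_uniq (L L' : Flag G → Flag G) (x : En) (hx : ECodes L x) (hx' : ECodes L' x) : L = L' := by
  funext p
  apply Pool.Agent.BEO.cod_inj
  rw [← nE_cod L x hx, ← nE_cod L' x hx']

end Pool.Agent.FGT
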