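import Pool.Agent.FGT.TsB

/-!
# FGT-TsC: the labels of the flags of an entry

PLAN. `comp_look` (BEO/CompS; the pairs of the relation are points: for `ed p ∈ D` the flags `L p`, `side p`, `across p` lie over `D`), `mem_fD`, `nE_cod`,
`sd_cod`, `ac_cod`. The relation of the lists is the image under `cod` of `rV D L` restricted to the flags over `D` (a step of `rV D L` from a
flag over `D` ends at a flag over `D`, and `EqvGen (rV D L) p q` with `ed p ∈ D` stays over `D`: induction with `ed x ∈ D ↔ ed y ∈ D`; for this use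
that `L` is an involution, `ed (L x) ∈ D ↔ ed x ∈ D`). Compare `SCG/SpB.lean`, `SCG/SpD.lean`.
-/

set_option autoImplicit false

open Finset
open scoped Classical

namespace Pool.Agent.FGT

open Pool.Agent.Helper35.OG (Flag GMap across side)
open Pool.Agent.BEO (F2 ed rp cyc ev cod Codes ec look memb ddp comp cds Pt Ec Inp sd ac ek fl nb)
open Pool.Agent.SCG (edl nx bst bls)

variable {n : ℕ} {G : SimpleGraph (Fin n)} {S : GMap G} {l : Inp}

private theorem tsc_key {X Y : Type} [DecidableEq Y] (κ : X → Y) (hκ : Function.Injective κ) (P : X → Prop)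
    (R : X → X → Prop) (pts : List Y) (rel : List (Y × Y)) (hpts : ∀ y, y ∈ pts ↔ ∃ x, y = κ x ∧ P x)
    (hrel : ∀ a b, (a, b) ∈ rel ↔ ∃ x, a = κ x ∧ ∃ y, b = κ y ∧ R x y) (h1 : ∀ x y, R x y → P x)
    (h2 : ∀ x y, R x y → P y) (p q : X) (hp : P p) (hq : P q) :
    look (comp pts rel) (κ p) (κ p) = look (comp pts rel) (κ q) (κ q) ↔ Relation.EqvGen R p q := by
  have hr : ∀ r ∈ rel, r.1 ∈ pts ∧ r.2 ∈ pts := by
    rintro ⟨a, b⟩ hr
    obtain ⟨x, ha, y, hb, hxy⟩ := (hrel a b).1 hr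
    exact ⟨(hpts a).2 ⟨x, ha, h1 x y hxy⟩, (hpts b).2 ⟨y, hb, h2 x y hxy⟩⟩
  rw [Pool.Agent.BEO.comp_look pts rel hr (κ p) (κ q) ((hpts _).2 ⟨p, rfl, hp⟩) ((hpts _).2 ⟨q, rfl, hq⟩)]
  constructor
  · intro hpq
    have h3 : ∀ p : X, {f : Quot R | ∃ p' : X, κ p = κ p' ∧ f = Quot.mk _ p'} = {Quot.mk _ p} := by
      intro p
      ext f
      constructor
      · rintro ⟨p', hp', rfl⟩
        rw [hκ hp']
        rfl
      · intro hf
        exact ⟨p, rfl, hf⟩
    have h4 := Pool.Agent.Helper35.OG.eqvGen_eq (fun x : Y =>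
      {f : Quot R | ∃ p' : X, x = κ p' ∧ f = Quot.mk _ p'}) (by
        intro x y hxy
        obtain ⟨x', rfl, y', rfl, hxy'⟩ := (hrel _ _).1 hxy
        show {f : Quot R | ∃ p'' : X, κ x' = κ p'' ∧ f = Quot.mk _ p''} =
            {f | ∃ p'' : X, κ y' = κ p'' ∧ f = Quot.mk _ p''}
        rw [h3, h3]
        exact congrArg _ (Quot.sound hxy')) hpq
    have h5 : {f : Quot R | ∃ p' : X, κ p = κ p' ∧ f = Quot.mk _ p'} =
        {f | ∃ p' : X, κ q = κ p' ∧ f = Quot.mk _ p'} := h4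
    rw [h3, h3] at h5
    exact Quot.eqvGen_exact (Set.singleton_injective h5)
  · intro hpq
    clear hp hq
    induction hpq with
    | rel x y hxy => exact Relation.EqvGen.rel _ _ ((hrel _ _).2 ⟨x, rfl, y, rfl, hxy⟩)
    | refl x => exact Relation.EqvGen.refl _
    | symm x y _ ih => exact Relation.EqvGen.symm _ _ ih
    | trans x y z _ _ ih1 ih2 => exact Relation.EqvGen.trans _ _ _ ih1 ih2

private theorem ed_side' (p : Flag G) : ed (side p) = ed p := Pool.Agent.BEO.ed_side p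

private theorem ed_across' (p : Flag G) : ed (across p) = ed p := Pool.Agent.BEO.ed_across p

private theorem cod_inj' : Function.Injective (cod : Flag G → Pt) := fun _ _ h => Pool.Agent.BEO.cod_inj h

/-- the code of a coloured flag -/
private def cdc (x : Flag G × Bool) : Pt × Bool := (cod x.1, x.2)

private theorem cdc_inj : Function.Injective (cdc : Flag G × Bool → Pt × Bool) := by
  intro x y h
  obtain ⟨h1, h2⟩ := Prod.mk.inj h
  exact Prod.ext (Pool.Agent.BEO.cod_inj h1) h2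

theorem lV_iff (h : Codes S l) (D : Finset G.edgeSet) (d : List Ec) (hd : DCodes D d) (L : Flag G → Flag G) (x : En)
    (hx : ECodes L x) (h1 : ∀ p, L (L p) = p) (h3 : ∀ p, ed p ∈ D → ed (L p) ∈ D) (p q : Flag G) (hp : ed p ∈ D)
    (hq : ed q ∈ D) : eqF (lV l d x) (cod p) (cod q) = true ↔ Relation.EqvGen (rV D L) p q := by
  unfold eqF
  rw [decide_eq_true_iff]
  unfold lV
  refine tsc_key cod cod_inj' (fun p => ed p ∈ D) (rV D L) _ _ (mem_fD h D d hd) ?_ (fun a b hab => hab.1) ?_ p q hp hq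
  · intro a b
    rw [List.mem_append, List.mem_map, List.mem_map]
    constructor
    · rintro (⟨z, hz, hab⟩ | ⟨z, hz, hab⟩)
      · obtain ⟨p, rfl, hp⟩ := (mem_fD h D d hd z).1 hz
        obtain ⟨e1, e2⟩ := Prod.mk.inj hab
        exact ⟨p, e1.symm, L p, by rw [← e2, nE_cod L x hx], hp, Or.inl rfl⟩
      · obtain ⟨p, rfl, hp⟩ := (mem_fD h D d hd z).1 hz
        obtain ⟨e1, e2⟩ := Prod.mk.inj hab
        exact ⟨p, e1.symm, side p, by rw [← e2]; rfl, hp, Or.inr rfl⟩
    · rintro ⟨p, rfl, q, rfl, hp, rfl | rfl⟩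
      · exact Or.inl ⟨cod p, (mem_fD h D d hd _).2 ⟨p, rfl, hp⟩, by rw [nE_cod L x hx]⟩
      · exact Or.inr ⟨cod p, (mem_fD h D d hd _).2 ⟨p, rfl, hp⟩, rfl⟩
  · rintro a b ⟨ha, rfl | rfl⟩
    · exact h3 a ha
    · show ed (side a) ∈ D
      rw [ed_side']
      exact ha

theorem lF_iff (h : Codes S l) (D : Finset G.edgeSet) (d : List Ec) (hd : DCodes D d) (L : Flag G → Flag G) (x : En)
    (hx : ECodes L x) (h1 : ∀ p, L (L p) = p) (h3 : ∀ p, ed p ∈ D → ed (L p) ∈ D) (p q : Flag G) (hp : ed p ∈ D)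
    (hq : ed q ∈ D) : eqF (lF l d x) (cod p) (cod q) = true ↔ Relation.EqvGen (rF D L) p q := by
  unfold eqF
  rw [decide_eq_true_iff]
  unfold lF
  refine tsc_key cod cod_inj' (fun p => ed p ∈ D) (rF D L) _ _ (mem_fD h D d hd) ?_ (fun a b hab => hab.1) ?_ p q hp hq
  · intro a b
    rw [List.mem_append, List.mem_map, List.mem_map]
    constructor
    · rintro (⟨z, hz, hab⟩ | ⟨z, hz, hab⟩)
      · obtain ⟨p, rfl, hp⟩ := (mem_fD h D d hd z).1 hz
        obtain ⟨e1, e2⟩ := Prod.mk.inj hab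
        exact ⟨p, e1.symm, L p, by rw [← e2, nE_cod L x hx], hp, Or.inl rfl⟩
      · obtain ⟨p, rfl, hp⟩ := (mem_fD h D d hd z).1 hz
        obtain ⟨e1, e2⟩ := Prod.mk.inj hab
        exact ⟨p, e1.symm, across p, by rw [← e2]; rfl, hp, Or.inr rfl⟩
    · rintro ⟨p, rfl, q, rfl, hp, rfl | rfl⟩
      · exact Or.inl ⟨cod p, (mem_fD h D d hd _).2 ⟨p, rfl, hp⟩, by rw [nE_cod L x hx]⟩
      · exact Or.inr ⟨cod p, (mem_fD h D d hd _).2 ⟨p, rfl, hp⟩, rfl⟩
  · rintro a b ⟨ha, rfl | rfl⟩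
    · exact h3 a ha
    · show ed (across a) ∈ D
      rw [ed_across']
      exact ha

private theorem mem_ptD (h : Codes S l) (D : Finset G.edgeSet) (d : List Ec) (hd : DCodes D d) (a : Pt × Bool) :
    a ∈ ptD l d ↔ ∃ x : Flag G × Bool, a = cdc x ∧ ed x.1 ∈ D := by
  unfold ptD
  rw [List.mem_flatMap]
  constructor
  · rintro ⟨y, hy, ha⟩
    obtain ⟨p, rfl, hp⟩ := (mem_fD h D d hd y).1 hy
    rw [List.mem_cons, List.mem_singleton] at ha
    rcases ha with ha | ha
    · exact ⟨(p, false), ha, hp⟩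
    · exact ⟨(p, true), ha, hp⟩
  · rintro ⟨⟨p, b⟩, rfl, hp⟩
    refine ⟨cod p, (mem_fD h D d hd _).2 ⟨p, rfl, hp⟩, ?_⟩
    rw [List.mem_cons, List.mem_singleton]
    cases b
    · exact Or.inl rfl
    · exact Or.inr rfl

theorem lC_iff (h : Codes S l) (D : Finset G.edgeSet) (d : List Ec) (hd : DCodes D d) (L : Flag G → Flag G) (x : En)
    (hx : ECodes L x) (h1 : ∀ p, L (L p) = p) (h3 : ∀ p, ed p ∈ D → ed (L p) ∈ D) (p q : Flag G) (hp : ed p ∈ D)
    (hq : ed q ∈ D) (b : Bool) :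
    eqC (lC l d x) (cod p) (cod q) b = true ↔ Relation.EqvGen (rC D L) (p, false) (q, b) := by
  unfold eqC
  rw [decide_eq_true_iff]
  unfold lC
  refine tsc_key cdc cdc_inj (fun x => ed x.1 ∈ D) (rC D L) _ _ (mem_ptD h D d hd) ?_ (fun a b hab => hab.1) ?_
    (p, false) (q, b) hp hq
  · intro a b
    rw [List.mem_append, List.mem_append, List.mem_map, List.mem_map, List.mem_map]
    constructor
    · rintro (⟨z, hz, hab⟩ | ⟨z, hz, hab⟩ | ⟨z, hz, hab⟩)
      · rw [List.mem_filter] at hz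
        obtain ⟨y, rfl, hy⟩ := (mem_ptD h D d hd z).1 hz.1
        obtain ⟨e1, e2⟩ := Prod.mk.inj hab
        have e3 : nE x (cod y.1) = cod (L y.1) := nE_cod L x hx y.1
        have e4 : L y.1 ≠ y.1 := by
          intro e5
          have e6 := hz.2
          rw [Bool.not_eq_true', decide_eq_false_iff_not] at e6
          apply e6
          show nE x (cod y.1) = cod y.1
          rw [e3, e5]
        refine ⟨y, e1.symm, (L y.1, !y.2), ?_, hy, Or.inl ⟨e4, rfl⟩⟩
        rw [← e2]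
        show (nE x (cod y.1), !y.2) = (cod (L y.1), !y.2)
        rw [e3]
      · obtain ⟨y, rfl, hy⟩ := (mem_ptD h D d hd z).1 hz
        obtain ⟨e1, e2⟩ := Prod.mk.inj hab
        exact ⟨y, e1.symm, (side y.1, !y.2), by rw [← e2]; rfl, hy, Or.inr (Or.inl rfl)⟩
      · obtain ⟨y, rfl, hy⟩ := (mem_ptD h D d hd z).1 hz
        obtain ⟨e1, e2⟩ := Prod.mk.inj hab
        exact ⟨y, e1.symm, (across y.1, !y.2), by rw [← e2]; rfl, hy, Or.inr (Or.inr rfl)⟩
    · rintro ⟨y, rfl, z, rfl, hy, ⟨hne, rfl⟩ | rfl | rfl⟩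
      · have hm : cdc y ∈ ptD l d := (mem_ptD h D d hd _).2 ⟨y, rfl, hy⟩
        have e3 : nE x (cod y.1) = cod (L y.1) := nE_cod L x hx y.1
        refine Or.inl ⟨cdc y, List.mem_filter.2 ⟨hm, ?_⟩, ?_⟩
        · rw [Bool.not_eq_true', decide_eq_false_iff_not]
          intro e5
          apply hne
          apply Pool.Agent.BEO.cod_inj
          rw [← e3]
          exact e5
        · show (cdc y, (nE x (cod y.1), !y.2)) = (cdc y, (cod (L y.1), !y.2))
          rw [e3]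
      · have hm : cdc y ∈ ptD l d := (mem_ptD h D d hd _).2 ⟨y, rfl, hy⟩
        exact Or.inr (Or.inl ⟨cdc y, hm, rfl⟩)
      · have hm : cdc y ∈ ptD l d := (mem_ptD h D d hd _).2 ⟨y, rfl, hy⟩
        exact Or.inr (Or.inr ⟨cdc y, hm, rfl⟩)
  · rintro a b ⟨ha, ⟨-, rfl⟩ | rfl | rfl⟩
    · exact h3 a.1 ha
    · show ed (side a.1) ∈ D
      rw [ed_side']
      exact ha
    · show ed (across a.1) ∈ D
      rw [ed_across']
      exact ha

end Pool.Agent.FGT
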