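import Pool.Agent.FGT.TsC

/-!
# FGT-TsD: the test of the entries

PLAN. `vl1`: `ex_ent`, `vl1_of`. `vl2`: `mem_umD`, `mem_fl`, `memb_iff`. `vl3`: `mem_fD`, `mem_umD`, `lV_iff`. Number of open flags: `umD_len`.
-/

set_option autoImplicit false

open Finset
open scoped Classical

namespace Pool.Agent.FGT

open Pool.Agent.Helper35.OG (Flag GMap across side)
open Pool.Agent.BEO (F2 ed rp cyc ev cod Codes ec look memb ddp comp cds Pt Ec Inp sd ac ek fl nb)
open Pool.Agent.SCG (edl nx bst bls)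

variable {n : ℕ} {G : SimpleGraph (Fin n)} {S : GMap G} {l : Inp}

private theorem mb (D : Finset G.edgeSet) (d : List Ec) (hd : DCodes D d) (p : Flag G) :
    memb d (ek (cod p)) = true ↔ ed p ∈ D := by
  rw [Pool.Agent.BEO.memb_iff, Pool.Agent.BEO.ek_cod]
  constructor
  · intro h
    obtain ⟨e, he, h1⟩ := (hd _).1 h
    rw [Pool.Agent.BEO.ec_inj h1]
    exact he
  · intro h
    exact (hd _).2 ⟨_, h, rfl⟩

private theorem fst_cod (p q : Flag G) : (cod q).1 = (cod p).1 ↔ q.1.fst = p.1.fst := by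
  constructor
  · intro h
    exact Fin.ext h
  · intro h
    exact congrArg Fin.val h

private theorem vl2_iff (h : Codes S l) (D : Finset G.edgeSet) (d : List Ec) (hd : DCodes D d) (L : Flag G → Flag G)
    (x : En) (hx : ECodes L x) : vl2 l d x = true ↔
      ∀ p, Um D L p → ∃ q : Flag G, q.1.fst = p.1.fst ∧ ed q ∉ D := by
  unfold vl2
  rw [List.all_eq_true]
  constructor
  · intro h1 p hp
    have h2 := h1 (cod p) ((mem_umD h D d hd L x hx _).2 ⟨p, rfl, hp⟩)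
    rw [List.any_eq_true] at h2
    obtain ⟨y, hy, h3⟩ := h2
    obtain ⟨q, rfl⟩ := (Pool.Agent.BEO.mem_fl h y).1 hy
    rw [Bool.and_eq_true, decide_eq_true_eq, Bool.not_eq_true'] at h3
    refine ⟨q, (fst_cod p q).1 h3.1, fun h4 => ?_⟩
    rw [(mb D d hd q).2 h4] at h3
    exact Bool.noConfusion h3.2
  · intro h1 y hy
    obtain ⟨p, rfl, hp⟩ := (mem_umD h D d hd L x hx _).1 hy
    obtain ⟨q, h2, h3⟩ := h1 p hp
    rw [List.any_eq_true]
    refine ⟨cod q, (Pool.Agent.BEO.mem_fl h _).2 ⟨q, rfl⟩, ?_⟩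
    rw [Bool.and_eq_true, decide_eq_true_eq, Bool.not_eq_true']
    refine ⟨(fst_cod p q).2 h2, ?_⟩
    rw [← Bool.not_eq_true]
    exact fun h4 => h3 ((mb D d hd q).1 h4)

private theorem vl3_iff (h : Codes S l) (D : Finset G.edgeSet) (d : List Ec) (hd : DCodes D d) (L : Flag G → Flag G)
    (x : En) (hx : ECodes L x) (h1 : ∀ p, L (L p) = p) (h3 : ∀ p, ed p ∈ D → ed (L p) ∈ D) : vl3 l d x = true ↔
      ∀ p, ed p ∈ D → (∃ q, Um D L q ∧ Relation.EqvGen (rV D L) p q) ∨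
        ∀ q : Flag G, q.1.fst = p.1.fst → ed q ∈ D ∧ Relation.EqvGen (rV D L) p q := by
  unfold vl3
  rw [List.all_eq_true]
  constructor
  · intro h4 p hp
    have h5 := h4 (cod p) ((mem_fD h D d hd _).2 ⟨p, rfl, hp⟩)
    rw [Bool.or_eq_true, List.any_eq_true, List.all_eq_true] at h5
    rcases h5 with h5 | h5
    · obtain ⟨y, hy, h6⟩ := h5
      obtain ⟨q, rfl, hq⟩ := (mem_umD h D d hd L x hx _).1 hy
      exact Or.inl ⟨q, hq, (lV_iff h D d hd L x hx h1 h3 p q hp hq.1).1 h6⟩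
    · right
      intro q hq
      have h6 := h5 (cod q) ((Pool.Agent.BEO.mem_fl h _).2 ⟨q, rfl⟩)
      rw [Bool.or_eq_true, Bool.not_eq_true', Bool.and_eq_true, decide_eq_false_iff_not] at h6
      rcases h6 with h6 | h6
      · exact absurd ((fst_cod p q).2 hq) h6
      · have h7 := (mb D d hd q).1 h6.1
        exact ⟨h7, (lV_iff h D d hd L x hx h1 h3 p q hp h7).1 h6.2⟩
  · intro h4 y hy
    obtain ⟨p, rfl, hp⟩ := (mem_fD h D d hd _).1 hy
    rw [Bool.or_eq_true, List.any_eq_true, List.all_eq_true]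
    rcases h4 p hp with h5 | h5
    · obtain ⟨q, hq, h6⟩ := h5
      exact Or.inl ⟨cod q, (mem_umD h D d hd L x hx _).2 ⟨q, rfl, hq⟩,
        (lV_iff h D d hd L x hx h1 h3 p q hp hq.1).2 h6⟩
    · right
      intro z hz
      obtain ⟨q, rfl⟩ := (Pool.Agent.BEO.mem_fl h z).1 hz
      rw [Bool.or_eq_true, Bool.not_eq_true', Bool.and_eq_true, decide_eq_false_iff_not]
      by_cases h6 : q.1.fst = p.1.fst
      · right
        obtain ⟨h7, h8⟩ := h5 q h6
        exact ⟨(mb D d hd q).2 h7, (lV_iff h D d hd L x hx h1 h3 p q hp h7).2 h8⟩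
      · exact Or.inl fun h7 => h6 ((fst_cod p q).1 h7)

theorem vlD_of (h : Codes S l) (D : Finset G.edgeSet) (d : List Ec) (hd : DCodes D d) (b : ℕ) (L : Flag G → Flag G) (x : En)
    (hx : ECodes L x) (hL : OMap D L) (hb : (univ.filter fun p : Flag G => Um D L p).card ≤ b) : vlD b l d x = true := by
  unfold vlD
  rw [Bool.and_eq_true, Bool.and_eq_true, Bool.and_eq_true, decide_eq_true_eq]
  refine ⟨⟨vl1_of h D d hd L x hx hL.inv hL.out hL.mem hL.fst, (vl2_iff h D d hd L x hx).2 hL.ub⟩,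
    (vl3_iff h D d hd L x hx hL.inv hL.mem).2 hL.run, ?_⟩
  rw [umD_len h D d hd L x hx]
  exact hb

theorem of_vlD (h : Codes S l) (D : Finset G.edgeSet) (d : List Ec) (hd : DCodes D d) (b : ℕ) (x : En)
    (hx : vlD b l d x = true) :
    ∃ L : Flag G → Flag G, ECodes L x ∧ OMap D L ∧ (univ.filter fun p : Flag G => Um D L p).card ≤ b := by
  unfold vlD at hx
  rw [Bool.and_eq_true, Bool.and_eq_true, Bool.and_eq_true, decide_eq_true_eq] at hx
  obtain ⟨⟨h1, h2⟩, h3, h4⟩ := hx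
  obtain ⟨L, h5, h6, h7, h8, h9⟩ := ex_ent h D d hd x h1
  refine ⟨L, h5, ⟨h6, h7, h8, h9, (vl2_iff h D d hd L x h5).1 h2, (vl3_iff h D d hd L x h5 h6 h8).1 h3⟩, ?_⟩
  rw [← umD_len h D d hd L x h5]
  exact h4

end Pool.Agent.FGT
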