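import Pool.Agent.FGT.Ex
import Pool.Agent.FGT.Alg
import Pool.Agent.SCG.SpA
import Pool.Agent.SCG.SpF

/-!
# FGT-TsDef: the dictionary between the algorithm and the maps (definitions)
-/

set_option autoImplicit false

open Finset
open scoped Classical

namespace Pool.Agent.FGT

open Pool.Agent.Helper35.OG (Flag GMap across side)
open Pool.Agent.BEO (F2 ed rp cyc ev cod Codes ec look memb ddp comp cds Pt Ec Inp sd ac ek fl nb)
open Pool.Agent.SCG (edl nx bst bls)

section gen

variable {V : Type} {G : SimpleGraph V}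

/-- `D` is connected by its inner corners -/
def HCn (S : GMap G) (D : Finset G.edgeSet) : Prop := ∀ e ∈ D, ∀ e' ∈ D,
  Relation.EqvGen (fun x y => x ∈ D ∧ y ∈ D ∧ ∃ p : Flag G, ed p = x ∧ ed (S.nxt p) = y) e e'

/-- the sets of edges with a table -/
def Fam [Fintype V] (S : GMap G) (C : ℕ) (D : Finset G.edgeSet) : Prop := D.Nonempty ∧ HCn S D ∧ (mix D S).card ≤ C

/-- `T` is complete for `D`: every optimal map can be changed inside `D`, staying optimal, such that its part at `D` is
coded by a member of `T` -/
def CplD {n : ℕ} {G : SimpleGraph (Fin n)} (o : Bool) (D : Finset G.edgeSet) (T : List En) : Prop :=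
  ∀ M : GMap G, Opt o M → ∃ M' : GMap G, Opt o M' ∧ (∀ p, part Dᶜ M' p = part Dᶜ M p) ∧ ∃ x ∈ T, ECodes (part D M') x

end gen

variable {n : ℕ} {G : SimpleGraph (Fin n)}

/-- the list of the edges of `D` -/
noncomputable def dl (l : Inp) (D : Finset G.edgeSet) : List Ec := (edl l).filter fun e => decide (∃ x ∈ D, e = ec x)

/-- the bound for the length of the signatures -/
def mm (C b : ℕ) : ℕ := b + 2 + b * C + 4 * (b * b)

end Pool.Agent.FGT
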